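import Pool.Agent.Work.MP_dd0ddf_al.C2.AdDefs

/-!
# MP_dd0ddf_al, module AdUnif: uniformizer, topology of GL_n(E)

`exists_unif`: the value group of a locally compact nonarchimedean field is discrete: the closed unit ball is compact; sup of the norms < 1 is attained (the set {x : ‖x‖ ≤ 1, ‖x‖ < 1} is compact because it is closed: the open ball is closed in an ultrametric space) and > 0; ϖ an element attaining it; for x ≠ 0 choose m with ‖ϖ‖^(m+1) < ‖x‖ ≤ ‖ϖ‖^m; then ‖x ϖ^(-m)‖ ≤ 1 and > ‖ϖ‖, so = 1.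
`krg_open`, `krg_basis`: topology of units: g near 1 iff g and g⁻¹ entries near those of 1; g⁻¹ - 1 = -g⁻¹(g - 1).  `k0_fin`: K0g is compact (closed and bounded in matrices × matrices, E proper), Krg open, so finitely many cosets; for a subgroup H ≤ K0g the cosets met by H.
-/

set_option linter.unusedSectionVars false
set_option linter.style.haveILetI false

namespace Pool.Agent.Work.MP_dd0ddf_al.C2

noncomputable section

variable {E : Type*} [NontriviallyNormedField E] [IsUltrametricDist E] [ProperSpace E] {n : ℕ}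

open Matrix

theorem exists_unif : ∃ t : E, t ≠ 0 ∧ ‖t‖ < 1 ∧ ∀ x : E, x ≠ 0 → ∃ m : ℤ, ‖x‖ = ‖t‖ ^ m := by
  have hc : IsCompact (Metric.ball (0 : E) 1) :=
    (isCompact_closedBall (0 : E) 1).of_isClosed_subset (IsUltrametricDist.isClosed_ball 0 1)
      Metric.ball_subset_closedBall
  obtain ⟨t, ht, hmax⟩ := hc.exists_isMaxOn ⟨0, by simp⟩ (continuous_norm.continuousOn)
  obtain ⟨y, hy0, hy1⟩ := NormedField.exists_norm_lt_one E
  have ht1 : ‖t‖ < 1 := by simpa using ht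
  have hm : ∀ x : E, ‖x‖ < 1 → ‖x‖ ≤ ‖t‖ := fun x hx => hmax (by simpa using hx)
  have ht0 : 0 < ‖t‖ := lt_of_lt_of_le hy0 (hm y hy1)
  refine ⟨t, norm_pos_iff.1 ht0, ht1, fun x hx => ?_⟩
  obtain ⟨m, h1, h2⟩ := exists_mem_Ioc_zpow (norm_pos_iff.2 hx) ((one_lt_inv₀ ht0).2 ht1)
  refine ⟨-(m + 1), ?_⟩
  have h3 : ‖x * t ^ (m + 1)‖ = ‖x‖ * ‖t‖ ^ (m + 1) := by rw [norm_mul, norm_zpow]
  have hp : 0 < ‖t‖ ^ (m + 1) := zpow_pos ht0 _
  have h4 : ‖x‖ * ‖t‖ ^ (m + 1) ≤ 1 := by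
    rw [_root_.inv_zpow, ← one_div] at h2
    exact (le_div_iff₀ hp).1 h2
  have h5 : ‖t‖ < ‖x‖ * ‖t‖ ^ (m + 1) := by
    rw [_root_.inv_zpow] at h1
    have h6 : (‖t‖ ^ m)⁻¹ * ‖t‖ ^ (m + 1) < ‖x‖ * ‖t‖ ^ (m + 1) := by
      exact mul_lt_mul_of_pos_right h1 hp
    have h8 : (‖t‖ ^ m)⁻¹ * ‖t‖ ^ (m + 1) = ‖t‖ := by
      rw [zpow_add₀ ht0.ne', inv_mul_cancel_left₀ (zpow_pos ht0 _).ne', zpow_one]
    rwa [h8] at h6
  have h7 : ‖x‖ * ‖t‖ ^ (m + 1) = 1 := by
    by_contra hne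
    have := hm (x * t ^ (m + 1)) (by rw [h3]; exact lt_of_le_of_ne h4 hne)
    rw [h3] at this
    exact absurd this (not_le.2 h5)
  rw [_root_.zpow_neg]
  exact eq_inv_of_mul_eq_one_left h7

private theorem cont_entry (i j : Fin n) : Continuous fun g : GL (Fin n) E => g.1 i j :=
  (Units.continuous_val).matrix_elem i j

private theorem cont_entry_inv (i j : Fin n) : Continuous fun g : GL (Fin n) E => g⁻¹.1 i j :=
  (Units.continuous_coe_inv).matrix_elem i j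

private theorem isOpen_le (f : GL (Fin n) E → E) (hf : Continuous f) (a : E) (r : ℝ)
    (hr : 0 < r) : IsOpen {g : GL (Fin n) E | ‖f g - a‖ ≤ r} := by
  have h := (IsUltrametricDist.isOpen_closedBall a hr.ne').preimage hf
  convert h using 1
  ext g
  simp [dist_eq_norm]

theorem krg_open (r : ℝ) (hr : 0 < r) : IsOpen (Krg E n r hr : Set (GL (Fin n) E)) := by
  have h : (Krg E n r hr : Set (GL (Fin n) E)) =
      (⋂ i, ⋂ j, ({g : GL (Fin n) E | ‖g.1 i j - 0‖ ≤ 1} ∩ {g | ‖g⁻¹.1 i j - 0‖ ≤ 1})) ∩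
      ⋂ i, ⋂ j, {g : GL (Fin n) E | ‖g.1 i j - (1 : Matrix (Fin n) (Fin n) E) i j‖ ≤ r} := by
    ext g
    simp only [sub_zero, Set.mem_inter_iff, Set.mem_iInter, Set.mem_ofPred_eq]
    rfl
  rw [h]
  refine IsOpen.inter (isOpen_iInter_of_finite fun i => isOpen_iInter_of_finite fun j => ?_)
    (isOpen_iInter_of_finite fun i => isOpen_iInter_of_finite fun j => ?_)
  · exact (isOpen_le _ (cont_entry i j) _ _ one_pos).inter
      (isOpen_le _ (cont_entry_inv i j) _ _ one_pos)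
  · exact isOpen_le _ (cont_entry i j) _ _ hr

private theorem mat_basis (A : Set (Matrix (Fin n) (Fin n) E)) (hA : IsOpen A)
    (M : Matrix (Fin n) (Fin n) E) (hM : M ∈ A) :
    ∃ r : ℝ, 0 < r ∧ ∀ B : Matrix (Fin n) (Fin n) E, (∀ i j, ‖B i j - M i j‖ ≤ r) → B ∈ A := by
  have key : ∀ (A : Set (Fin n → Fin n → E)), IsOpen A → ∀ M ∈ A,
      ∃ r : ℝ, 0 < r ∧ ∀ B : Fin n → Fin n → E, (∀ i j, ‖B i j - M i j‖ ≤ r) → B ∈ A := by
    intro A hA M hM
    obtain ⟨ε, hε, hball⟩ := Metric.isOpen_iff.1 hA M hM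
    refine ⟨ε / 2, by positivity, fun B hB => hball ?_⟩
    rw [Metric.mem_ball]
    refine lt_of_le_of_lt ((dist_pi_le_iff (by positivity : (0 : ℝ) ≤ ε / 2)).2 fun i =>
      (dist_pi_le_iff (by positivity)).2 fun j => ?_) (half_lt_self hε)
    rw [dist_eq_norm]
    exact hB i j
  exact key A hA M hM

theorem krg_basis (U : Set (GL (Fin n) E)) (hU : IsOpen U) (h1 : (1 : GL (Fin n) E) ∈ U) :
    ∃ (r : ℝ) (hr : 0 < r), (Krg E n r hr : Set (GL (Fin n) E)) ⊆ U := by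
  obtain ⟨W, hW, rfl⟩ := Units.isInducing_embedProduct.isOpen_iff.1 hU
  have h2 : ((1 : Matrix (Fin n) (Fin n) E), (1 : (Matrix (Fin n) (Fin n) E)ᵐᵒᵖ)) ∈ W := h1
  obtain ⟨A, B, hA, hB, h3, h4, h5⟩ := isOpen_prod_iff.1 hW _ _ h2
  obtain ⟨r1, hr1, hb1⟩ := mat_basis A hA 1 h3
  obtain ⟨r2, hr2, hb2⟩ := mat_basis (MulOpposite.op ⁻¹' B)
    (hB.preimage MulOpposite.continuous_op) 1 h4
  refine ⟨min r1 r2, lt_min hr1 hr2, fun g hg => h5 ⟨?_, ?_⟩⟩
  · exact hb1 _ fun i j => (hg.2 i j).trans (min_le_left _ _)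
  · refine hb2 _ fun i j => ?_
    have hg' : g⁻¹ ∈ Krg E n (min r1 r2) (lt_min hr1 hr2) := Subgroup.inv_mem _ hg
    exact (hg'.2 i j).trans (min_le_right _ _)

private theorem k0_compact : IsCompact (K0g E n : Set (GL (Fin n) E)) := by
  have hC0 : IsCompact {M : Fin n → Fin n → E | ∀ i j, ‖M i j‖ ≤ 1} := by
    have h := isCompact_univ_pi (X := fun _ : Fin n => Fin n → E) (s := fun _ =>
      Set.pi Set.univ fun _ => Metric.closedBall (0 : E) 1)
      fun _ => isCompact_univ_pi fun _ => isCompact_closedBall (0 : E) 1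
    have e : {M : Fin n → Fin n → E | ∀ i j, ‖M i j‖ ≤ 1} = Set.pi Set.univ fun _ =>
        Set.pi Set.univ fun _ => Metric.closedBall (0 : E) 1 := by
      ext M
      simp
    rw [e]
    exact h
  have hC : IsCompact {M : Matrix (Fin n) (Fin n) E | ∀ i j, ‖M i j‖ ≤ 1} := hC0
  have hD : IsCompact (MulOpposite.unop ⁻¹'
      {M : Matrix (Fin n) (Fin n) E | ∀ i j, ‖M i j‖ ≤ 1}) :=
    MulOpposite.opHomeomorph.symm.isCompact_preimage.2 hC
  have h2 := Units.isClosedEmbedding_embedProduct.isCompact_preimage (hC.prod hD)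
  convert h2 using 1
  ext g
  constructor
  · intro h
    exact ⟨fun i j => (h i j).1, fun i j => (h i j).2⟩
  · intro h i j
    exact ⟨h.1 i j, h.2 i j⟩

theorem k0_fin (r : ℝ) (hr : 0 < r) (H : Subgroup (GL (Fin n) E)) (hH : H ≤ K0g E n) :
    ∃ S : Finset (GL (Fin n) E), (∀ s ∈ S, s ∈ H) ∧
      ∀ k ∈ H, ∃ s ∈ S, s⁻¹ * k ∈ Krg E n r hr := by
  classical
  have hopen : ∀ g : GL (Fin n) E, IsOpen {k | g⁻¹ * k ∈ Krg E n r hr} := fun g =>
    (krg_open r hr).preimage (continuous_const_mul g⁻¹)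
  obtain ⟨T, hT⟩ := (k0_compact (E := E) (n := n)).elim_finite_subcover
    (fun g => {k | g⁻¹ * k ∈ Krg E n r hr}) hopen (fun k _ => Set.mem_iUnion.2 ⟨k, by
      show k⁻¹ * k ∈ Krg E n r hr
      rw [inv_mul_cancel]
      exact Subgroup.one_mem _⟩)
  let f : GL (Fin n) E → GL (Fin n) E := fun g =>
    if h : ∃ k ∈ H, g⁻¹ * k ∈ Krg E n r hr then h.choose else 1
  refine ⟨T.image f, ?_, ?_⟩
  · intro s hs
    obtain ⟨g, _, rfl⟩ := Finset.mem_image.1 hs
    show (if h : ∃ k ∈ H, g⁻¹ * k ∈ Krg E n r hr then h.choose else 1) ∈ H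
    split_ifs with h
    · exact h.choose_spec.1
    · exact H.one_mem
  · intro k hk
    obtain ⟨g, hg⟩ := Set.mem_iUnion.1 (hT (hH hk))
    obtain ⟨hgT, hgk⟩ := Set.mem_iUnion.1 hg
    refine ⟨f g, Finset.mem_image_of_mem _ hgT, ?_⟩
    have hex : ∃ k ∈ H, g⁻¹ * k ∈ Krg E n r hr := ⟨k, hk, hgk⟩
    have hf : f g = hex.choose := dif_pos hex
    have h1 : g⁻¹ * f g ∈ Krg E n r hr := by rw [hf]; exact hex.choose_spec.2
    have h2 := Subgroup.mul_mem _ (Subgroup.inv_mem _ h1) hgk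
    rwa [_root_.mul_inv_rev, inv_inv, mul_assoc, mul_inv_cancel_left] at h2

theorem countable_cosets (U : Subgroup (GL (Fin n) E)) (hU : IsOpen (U : Set (GL (Fin n) E))) :
    ∃ C : Set (GL (Fin n) E), C.Countable ∧ ∀ g, ∃ c ∈ C, c⁻¹ * g ∈ U := by
  haveI : SecondCountableTopology E := inferInstance
  haveI : SecondCountableTopology (Matrix (Fin n) (Fin n) E) :=
    inferInstanceAs (SecondCountableTopology (Fin n → Fin n → E))
  haveI : SecondCountableTopology (Matrix (Fin n) (Fin n) E)ᵐᵒᵖ :=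
    MulOpposite.opHomeomorph.symm.isInducing.secondCountableTopology
  haveI : SecondCountableTopology (GL (Fin n) E) :=
    Units.isInducing_embedProduct.secondCountableTopology
  obtain ⟨C, hC, hd⟩ := TopologicalSpace.exists_countable_dense (GL (Fin n) E)
  refine ⟨C, hC, fun g => ?_⟩
  have hopen : IsOpen {k | k⁻¹ * g ∈ U} :=
    hU.preimage (continuous_inv.mul continuous_const)
  obtain ⟨c, hc1, hc2⟩ := hd.exists_mem_open hopen ⟨g, by
    show g⁻¹ * g ∈ U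
    rw [inv_mul_cancel]
    exact U.one_mem⟩
  exact ⟨c, hc1, hc2⟩

end

end Pool.Agent.Work.MP_dd0ddf_al.C2
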