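import Mathlib

/-!
# MP_dd0ddf_al, module AdDefs: subgroups of GL_n(E): K0 = GL_n(O), congruence subgroups, parabolic subgroups

E nonarchimedean local field (any characteristic).  `K0g`: all entries of g and g⁻¹ have norm ≤ 1.  `Krg r`: g in K0g with all entries of g - 1 of norm ≤ r; gh - 1 = (g-1)h + (h-1), g⁻¹ - 1 = - g⁻¹(g-1), ultrametric inequality.
For c : Fin n → ℕ: `Pcg c`: g_ij = 0 if c j < c i; `Ncg c`: g_ij = δ_ij if c j ≤ c i; `Lcg c`: g_ij = 0 if c i ≠ c j (the same conditions for g⁻¹).  Products: split the sum over k by comparing c k with c i, c j.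
`bdiag`: the block diagonal part of g in Pcg c (entries with c i = c j kept), an element of Lcg c with inverse the block diagonal part of g⁻¹; multiplicative on Pcg c; `g = bdiag g * u`, u in Ncg c.
`tz a = diag(t^(a i))` for t ≠ 0 in E.
-/

set_option linter.unusedSectionVars false
set_option linter.style.haveILetI false

namespace Pool.Agent.Work.MP_dd0ddf_al.C2

noncomputable section

open Matrix

private theorem mul_ent_le {E : Type*} [NontriviallyNormedField E] [IsUltrametricDist E] {n : ℕ}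
    (A B : Matrix (Fin n) (Fin n) E) (a b : ℝ) (ha : 0 ≤ a) (hb : 0 ≤ b)
    (hA : ∀ i j, ‖A i j‖ ≤ a) (hB : ∀ i j, ‖B i j‖ ≤ b) (i j : Fin n) :
    ‖(A * B) i j‖ ≤ a * b := by
  rw [Matrix.mul_apply]
  refine IsUltrametricDist.norm_sum_le_of_forall_le_of_nonneg (mul_nonneg ha hb) ?_
  intro k _
  rw [norm_mul]
  exact mul_le_mul (hA i k) (hB k j) (norm_nonneg _) ha

private theorem one_ent_le {E : Type*} [NontriviallyNormedField E] {n : ℕ} (i j : Fin n) :
    ‖(1 : Matrix (Fin n) (Fin n) E) i j‖ ≤ 1 := by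
  rw [Matrix.one_apply]
  split_ifs <;> simp

private theorem p_mul {E : Type*} [NontriviallyNormedField E] {n : ℕ} (c : Fin n → ℕ)
    (A B : Matrix (Fin n) (Fin n) E) (hA : ∀ i j, c j < c i → A i j = 0)
    (hB : ∀ i j, c j < c i → B i j = 0) (i j : Fin n) (h : c j < c i) : (A * B) i j = 0 := by
  rw [Matrix.mul_apply]
  refine Finset.sum_eq_zero fun k _ => ?_
  rcases lt_or_ge (c k) (c i) with h1 | h1
  · rw [hA i k h1, zero_mul]
  · rw [hB k j (lt_of_lt_of_le h h1), mul_zero]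

private theorem n_mul {E : Type*} [NontriviallyNormedField E] {n : ℕ} (c : Fin n → ℕ)
    (A B : Matrix (Fin n) (Fin n) E)
    (hA : ∀ i j, c j ≤ c i → A i j = (1 : Matrix (Fin n) (Fin n) E) i j)
    (hB : ∀ i j, c j ≤ c i → B i j = (1 : Matrix (Fin n) (Fin n) E) i j) (i j : Fin n)
    (h : c j ≤ c i) : (A * B) i j = (1 : Matrix (Fin n) (Fin n) E) i j := by
  have h2 : (1 : Matrix (Fin n) (Fin n) E) i j =
      ((1 : Matrix (Fin n) (Fin n) E) * (1 : Matrix (Fin n) (Fin n) E)) i j := by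
    rw [Matrix.mul_one]
  rw [h2, Matrix.mul_apply, Matrix.mul_apply]
  refine Finset.sum_congr rfl fun k _ => ?_
  rcases le_or_gt (c k) (c i) with h1 | h1
  · rw [hA i k h1]
    by_cases hik : i = k
    · subst hik
      rw [hB i j h]
    · rw [Matrix.one_apply_ne hik, zero_mul, zero_mul]
  · have h3 : c j < c k := lt_of_le_of_lt h h1
    rw [hB k j h3.le]
    have h4 : k ≠ j := fun e => by rw [e] at h3; exact lt_irrefl _ h3
    rw [Matrix.one_apply_ne h4, mul_zero, mul_zero]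

private theorem l_mul {E : Type*} [NontriviallyNormedField E] {n : ℕ} (c : Fin n → ℕ)
    (A B : Matrix (Fin n) (Fin n) E) (hA : ∀ i j, c i ≠ c j → A i j = 0)
    (hB : ∀ i j, c i ≠ c j → B i j = 0) (i j : Fin n) (h : c i ≠ c j) : (A * B) i j = 0 := by
  rw [Matrix.mul_apply]
  refine Finset.sum_eq_zero fun k _ => ?_
  by_cases h1 : c i = c k
  · rw [hB k j (by rw [← h1]; exact h), mul_zero]
  · rw [hA i k h1, zero_mul]

private theorem gl_mul {E : Type*} [NontriviallyNormedField E] {n : ℕ}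
    (g h : GL (Fin n) E) : (g * h).1 = g.1 * h.1 := rfl

private theorem gl_mul_inv {E : Type*} [NontriviallyNormedField E] {n : ℕ}
    (g h : GL (Fin n) E) : (g * h)⁻¹.1 = h⁻¹.1 * g⁻¹.1 := by
  rw [_root_.mul_inv_rev]; rfl

private theorem gl_one {E : Type*} [NontriviallyNormedField E] {n : ℕ} :
    (1 : GL (Fin n) E).1 = 1 := rfl

private theorem gl_one_inv {E : Type*} [NontriviallyNormedField E] {n : ℕ} :
    (1 : GL (Fin n) E)⁻¹.1 = 1 := by
  rw [inv_one]; rfl

/-- `GL_n(O)` -/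
def K0g (E : Type*) [NontriviallyNormedField E] [IsUltrametricDist E] (n : ℕ) :
    Subgroup (GL (Fin n) E) where
  carrier := {g | ∀ i j, ‖g.1 i j‖ ≤ 1 ∧ ‖g⁻¹.1 i j‖ ≤ 1}
  mul_mem' := by
    intro g h hg hh i j
    rw [gl_mul, gl_mul_inv]
    constructor
    · have := mul_ent_le g.1 h.1 1 1 zero_le_one zero_le_one (fun i j => (hg i j).1)
        (fun i j => (hh i j).1) i j
      rwa [mul_one] at this
    · have := mul_ent_le h⁻¹.1 g⁻¹.1 1 1 zero_le_one zero_le_one (fun i j => (hh i j).2)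
        (fun i j => (hg i j).2) i j
      rwa [mul_one] at this
  one_mem' := by
    intro i j
    rw [gl_one, gl_one_inv]
    exact ⟨one_ent_le i j, one_ent_le i j⟩
  inv_mem' := by
    intro g hg i j
    rw [inv_inv]
    exact ⟨(hg i j).2, (hg i j).1⟩

private theorem krg_mul_aux {E : Type*} [NontriviallyNormedField E] [IsUltrametricDist E] {n : ℕ}
    (r : ℝ) (hr : 0 < r) (A B : Matrix (Fin n) (Fin n) E) (hB : ∀ i j, ‖B i j‖ ≤ 1)
    (hA1 : ∀ i j, ‖A i j - (1 : Matrix (Fin n) (Fin n) E) i j‖ ≤ r)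
    (hB1 : ∀ i j, ‖B i j - (1 : Matrix (Fin n) (Fin n) E) i j‖ ≤ r) (i j : Fin n) :
    ‖(A * B) i j - (1 : Matrix (Fin n) (Fin n) E) i j‖ ≤ r := by
  have h1 : (A * B) i j - (1 : Matrix (Fin n) (Fin n) E) i j =
      ((A - 1) * B) i j + (B i j - (1 : Matrix (Fin n) (Fin n) E) i j) := by
    rw [Matrix.sub_mul, Matrix.one_mul, Matrix.sub_apply]
    ring
  rw [h1]
  refine (IsUltrametricDist.norm_add_le_max _ _).trans (max_le ?_ (hB1 i j))
  have := mul_ent_le (A - 1) B r 1 hr.le zero_le_one (fun i j => hA1 i j) hB i j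
  rwa [mul_one] at this

/-- the congruence subgroup of radius `r` -/
def Krg (E : Type*) [NontriviallyNormedField E] [IsUltrametricDist E] (n : ℕ) (r : ℝ)
    (hr : 0 < r) : Subgroup (GL (Fin n) E) where
  carrier := {g | g ∈ K0g E n ∧ ∀ i j, ‖g.1 i j - (1 : Matrix (Fin n) (Fin n) E) i j‖ ≤ r}
  mul_mem' := by
    intro g h hg hh
    refine ⟨mul_mem hg.1 hh.1, fun i j => ?_⟩
    exact krg_mul_aux r hr g.1 h.1 (fun i j => (hh.1 i j).1) hg.2 hh.2 i j
  one_mem' := by
    refine ⟨one_mem _, fun i j => ?_⟩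
    rw [gl_one, sub_self, norm_zero]
    exact hr.le
  inv_mem' := by
    intro g hg
    refine ⟨inv_mem hg.1, fun i j => ?_⟩
    have h1 : g⁻¹.1 - 1 = -(g⁻¹.1 * (g.1 - 1)) := by
      rw [Matrix.mul_sub, Matrix.mul_one, neg_sub]
      congr 1
      exact (g.inv_mul).symm
    have h2 : g⁻¹.1 i j - (1 : Matrix (Fin n) (Fin n) E) i j =
        -((g⁻¹.1 * (g.1 - 1)) i j) := by
      rw [← Matrix.neg_apply, ← h1, Matrix.sub_apply]
    rw [h2, norm_neg]
    have := mul_ent_le g⁻¹.1 (g.1 - 1) 1 r zero_le_one hr.le (fun i j => (hg.1 i j).2)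
      (fun i j => hg.2 i j) i j
    rwa [one_mul] at this

/-- parabolic subgroup of type `c` -/
def Pcg (E : Type*) [NontriviallyNormedField E] {n : ℕ} (c : Fin n → ℕ) :
    Subgroup (GL (Fin n) E) where
  carrier := {g | ∀ i j, c j < c i → g.1 i j = 0 ∧ g⁻¹.1 i j = 0}
  mul_mem' := by
    intro g h hg hh i j hij
    rw [gl_mul, gl_mul_inv]
    exact ⟨p_mul c _ _ (fun i j h => (hg i j h).1) (fun i j h => (hh i j h).1) i j hij,
      p_mul c _ _ (fun i j h => (hh i j h).2) (fun i j h => (hg i j h).2) i j hij⟩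
  one_mem' := by
    intro i j hij
    have h4 : i ≠ j := fun e => by rw [e] at hij; exact lt_irrefl _ hij
    rw [gl_one, gl_one_inv]
    exact ⟨Matrix.one_apply_ne h4, Matrix.one_apply_ne h4⟩
  inv_mem' := by
    intro g hg i j hij
    rw [inv_inv]
    exact ⟨(hg i j hij).2, (hg i j hij).1⟩

/-- its unipotent radical -/
def Ncg (E : Type*) [NontriviallyNormedField E] {n : ℕ} (c : Fin n → ℕ) :
    Subgroup (GL (Fin n) E) where
  carrier := {g | ∀ i j, c j ≤ c i → g.1 i j = (1 : Matrix (Fin n) (Fin n) E) i j ∧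
    g⁻¹.1 i j = (1 : Matrix (Fin n) (Fin n) E) i j}
  mul_mem' := by
    intro g h hg hh i j hij
    rw [gl_mul, gl_mul_inv]
    exact ⟨n_mul c _ _ (fun i j h => (hg i j h).1) (fun i j h => (hh i j h).1) i j hij,
      n_mul c _ _ (fun i j h => (hh i j h).2) (fun i j h => (hg i j h).2) i j hij⟩
  one_mem' := by
    intro i j hij
    rw [gl_one, gl_one_inv]
    exact ⟨rfl, rfl⟩
  inv_mem' := by
    intro g hg i j hij
    rw [inv_inv]
    exact ⟨(hg i j hij).2, (hg i j hij).1⟩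

/-- its Levi subgroup -/
def Lcg (E : Type*) [NontriviallyNormedField E] {n : ℕ} (c : Fin n → ℕ) :
    Subgroup (GL (Fin n) E) where
  carrier := {g | ∀ i j, c i ≠ c j → g.1 i j = 0 ∧ g⁻¹.1 i j = 0}
  mul_mem' := by
    intro g h hg hh i j hij
    rw [gl_mul, gl_mul_inv]
    exact ⟨l_mul c _ _ (fun i j h => (hg i j h).1) (fun i j h => (hh i j h).1) i j hij,
      l_mul c _ _ (fun i j h => (hh i j h).2) (fun i j h => (hg i j h).2) i j hij⟩
  one_mem' := by
    intro i j hij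
    have h4 : i ≠ j := fun e => hij (by rw [e])
    rw [gl_one, gl_one_inv]
    exact ⟨Matrix.one_apply_ne h4, Matrix.one_apply_ne h4⟩
  inv_mem' := by
    intro g hg i j hij
    rw [inv_inv]
    exact ⟨(hg i j hij).2, (hg i j hij).1⟩

/-- `diag(t ^ (a i))` -/
def tz {E : Type*} [NontriviallyNormedField E] {n : ℕ} (t : E) (ht : t ≠ 0) (a : Fin n → ℤ) :
    GL (Fin n) E where
  val := Matrix.diagonal fun i => t ^ a i
  inv := Matrix.diagonal fun i => t ^ (- a i)
  val_inv := by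
    rw [Matrix.diagonal_mul_diagonal, ← Matrix.diagonal_one]
    congr 1
    funext i
    rw [← zpow_add₀ ht, add_neg_cancel, zpow_zero]
  inv_val := by
    rw [Matrix.diagonal_mul_diagonal, ← Matrix.diagonal_one]
    congr 1
    funext i
    rw [← zpow_add₀ ht, neg_add_cancel, zpow_zero]

private theorem tz_inv_val {E : Type*} [NontriviallyNormedField E] {n : ℕ} (t : E) (ht : t ≠ 0)
    (a : Fin n → ℤ) : (tz t ht a)⁻¹.1 = Matrix.diagonal fun i => t ^ (- a i) := rfl

private theorem tz_val {E : Type*} [NontriviallyNormedField E] {n : ℕ} (t : E) (ht : t ≠ 0)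
    (a : Fin n → ℤ) : (tz t ht a).1 = Matrix.diagonal fun i => t ^ (a i) := rfl

theorem tz_add {E : Type*} [NontriviallyNormedField E] {n : ℕ} (t : E) (ht : t ≠ 0)
    (a b : Fin n → ℤ) : tz t ht (a + b) = tz t ht a * tz t ht b := by
  apply Units.ext
  change (tz t ht (a + b)).1 = (tz t ht a).1 * (tz t ht b).1
  rw [tz_val, tz_val, tz_val, Matrix.diagonal_mul_diagonal]
  congr 1
  funext i
  rw [Pi.add_apply, zpow_add₀ ht]

theorem tz_mem {E : Type*} [NontriviallyNormedField E] {n : ℕ} (t : E) (ht : t ≠ 0)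
    (a : Fin n → ℤ) (c : Fin n → ℕ) : tz t ht a ∈ Lcg E c := by
  intro i j hij
  have h4 : i ≠ j := fun e => hij (by rw [e])
  rw [tz_val, tz_inv_val]
  exact ⟨Matrix.diagonal_apply_ne _ h4, Matrix.diagonal_apply_ne _ h4⟩

/-- central elements of the Levi subgroup -/
theorem tz_central {E : Type*} [NontriviallyNormedField E] {n : ℕ} (t : E) (ht : t ≠ 0)
    (a : Fin n → ℤ) (c : Fin n → ℕ) (ha : ∀ i j, c i = c j → a i = a j) (l : GL (Fin n) E)
    (hl : l ∈ Lcg E c) : tz t ht a * l = l * tz t ht a := by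
  apply Units.ext
  change (tz t ht a).1 * l.1 = l.1 * (tz t ht a).1
  rw [tz_val]
  ext i j
  rw [Matrix.diagonal_mul, Matrix.mul_diagonal]
  by_cases h : c i = c j
  · rw [ha i j h, mul_comm]
  · rw [(hl i j h).1, mul_zero, zero_mul]

theorem tz_conj {E : Type*} [NontriviallyNormedField E] {n : ℕ} (t : E) (ht : t ≠ 0)
    (a : Fin n → ℤ) (g : GL (Fin n) E) (i j : Fin n) :
    (tz t ht a * g * (tz t ht a)⁻¹).1 i j = t ^ (a i - a j) * g.1 i j := by
  change ((tz t ht a).1 * g.1 * (tz t ht a)⁻¹.1) i j = _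
  rw [tz_val, tz_inv_val, Matrix.mul_diagonal, Matrix.diagonal_mul, sub_eq_add_neg,
    zpow_add₀ ht]
  ring

variable {E : Type*} [NontriviallyNormedField E] [IsUltrametricDist E] [ProperSpace E] {n : ℕ}

theorem krg_normal (r : ℝ) (hr : 0 < r) (k g : GL (Fin n) E) (hk : k ∈ K0g E n)
    (hg : g ∈ Krg E n r hr) : k * g * k⁻¹ ∈ Krg E n r hr := by
  refine ⟨mul_mem (mul_mem hk hg.1) (inv_mem hk), fun i j => ?_⟩
  have h0 : k.1 * k⁻¹.1 = 1 := k.mul_inv
  have h1 : (k * g * k⁻¹).1 i j - (1 : Matrix (Fin n) (Fin n) E) i j =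
      (k.1 * (g.1 - 1) * k⁻¹.1) i j := by
    change (k.1 * g.1 * k⁻¹.1) i j - (1 : Matrix (Fin n) (Fin n) E) i j = _
    rw [← Matrix.sub_apply, Matrix.mul_sub, Matrix.sub_mul, Matrix.mul_one, h0]
  rw [h1]
  have h2 := mul_ent_le (k.1 * (g.1 - 1)) k⁻¹.1 r 1 hr.le zero_le_one
    (fun i j => by
      have := mul_ent_le k.1 (g.1 - 1) 1 r zero_le_one hr.le (fun i j => (hk i j).1)
        (fun i j => hg.2 i j) i j
      rwa [one_mul] at this) (fun i j => (hk i j).2) i j
  rwa [mul_one] at h2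

theorem krg_le (r : ℝ) (hr : 0 < r) : Krg E n r hr ≤ K0g E n := fun _ h => h.1

theorem lcg_le (c : Fin n → ℕ) : Lcg E c ≤ Pcg E c := by
  intro g hg i j hij
  exact hg i j (fun e => by rw [e] at hij; exact lt_irrefl _ hij)

theorem ncg_le (c : Fin n → ℕ) : Ncg E c ≤ Pcg E c := by
  intro g hg i j hij
  have h4 : i ≠ j := fun e => by rw [e] at hij; exact lt_irrefl _ hij
  have := hg i j hij.le
  rwa [Matrix.one_apply_ne h4] at this

/-- block diagonal part -/
private def bD (c : Fin n → ℕ) (A : Matrix (Fin n) (Fin n) E) : Matrix (Fin n) (Fin n) E :=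
  fun i j => if c i = c j then A i j else 0

private theorem bD_mul (c : Fin n → ℕ) (A B : Matrix (Fin n) (Fin n) E)
    (hA : ∀ i j, c j < c i → A i j = 0) (hB : ∀ i j, c j < c i → B i j = 0) :
    bD c A * bD c B = bD c (A * B) := by
  ext i j
  rw [Matrix.mul_apply]
  unfold bD
  by_cases hij : c i = c j
  · rw [if_pos hij, Matrix.mul_apply]
    refine Finset.sum_congr rfl fun k _ => ?_
    rcases lt_trichotomy (c k) (c i) with h1 | h1 | h1
    · rw [hA i k h1]
      simp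
    · rw [if_pos h1.symm, if_pos (h1.trans hij)]
    · rw [hB k j (by rw [← hij]; exact h1)]
      simp
  · rw [if_neg hij]
    refine Finset.sum_eq_zero fun k _ => ?_
    by_cases h1 : c i = c k
    · rw [if_neg (c := c k = c j) (fun h => hij (h1.trans h)), mul_zero]
    · rw [if_neg h1, zero_mul]

private theorem bD_one (c : Fin n → ℕ) : bD c (1 : Matrix (Fin n) (Fin n) E) = 1 := by
  ext i j
  unfold bD
  by_cases hij : c i = c j
  · rw [if_pos hij]
  · rw [if_neg hij, Matrix.one_apply_ne (fun e => hij (by rw [e]))]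

private theorem mem_ncg (c : Fin n → ℕ) (u : GL (Fin n) E) (hu : u ∈ Pcg E c)
    (h1 : bD c u.1 = 1) (h2 : bD c u⁻¹.1 = 1) : u ∈ Ncg E c := by
  intro i j hij
  rcases hij.lt_or_eq with h | h
  · have h4 : i ≠ j := fun e => by rw [e] at h; exact lt_irrefl _ h
    rw [Matrix.one_apply_ne h4]
    exact hu i j h
  · constructor
    · have := congrFun (congrFun h1 i) j
      unfold bD at this
      rwa [if_pos h.symm] at this
    · have := congrFun (congrFun h2 i) j
      unfold bD at this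
      rwa [if_pos h.symm] at this

private theorem bD_ncg (c : Fin n → ℕ) (u : GL (Fin n) E) (hu : u ∈ Ncg E c) :
    bD c u.1 = 1 ∧ bD c u⁻¹.1 = 1 := by
  constructor
  · ext i j
    unfold bD
    by_cases hij : c i = c j
    · rw [if_pos hij]
      exact (hu i j hij.ge).1
    · rw [if_neg hij, Matrix.one_apply_ne (fun e => hij (by rw [e]))]
  · ext i j
    unfold bD
    by_cases hij : c i = c j
    · rw [if_pos hij]
      exact (hu i j hij.ge).2
    · rw [if_neg hij, Matrix.one_apply_ne (fun e => hij (by rw [e]))]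

private theorem bD_val_mul (c : Fin n → ℕ) (g h : GL (Fin n) E) (hg : g ∈ Pcg E c)
    (hh : h ∈ Pcg E c) : bD c (g * h).1 = bD c g.1 * bD c h.1 := by
  rw [gl_mul, bD_mul c g.1 h.1 (fun i j hij => (hg i j hij).1) (fun i j hij => (hh i j hij).1)]

private theorem conj_aux (c : Fin n → ℕ) (g u : GL (Fin n) E) (hg : g ∈ Pcg E c)
    (hu : u ∈ Pcg E c) (h1 : bD c u.1 = 1) : bD c (g * u * g⁻¹).1 = 1 := by
  rw [bD_val_mul c (g * u) g⁻¹ (mul_mem hg hu) (inv_mem hg), bD_val_mul c g u hg hu, h1,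
    Matrix.mul_one, ← bD_val_mul c g g⁻¹ hg (inv_mem hg), mul_inv_cancel]
  exact bD_one c

theorem ncg_normal (c : Fin n → ℕ) (g u : GL (Fin n) E) (hg : g ∈ Pcg E c)
    (hu : u ∈ Ncg E c) : g * u * g⁻¹ ∈ Ncg E c := by
  have hu1 := ncg_le c hu
  refine mem_ncg c _ (mul_mem (mul_mem hg hu1) (inv_mem hg)) ?_ ?_
  · exact conj_aux c g u hg hu1 (bD_ncg c u hu).1
  · have h1 : (g * u * g⁻¹)⁻¹ = g * u⁻¹ * g⁻¹ := by group
    rw [h1]
    exact conj_aux c g u⁻¹ hg (inv_mem hu1) (bD_ncg c u hu).2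

/-- Levi decomposition; for `g` in `Ncg c'` with `c'` finer than `c` the Levi part is again in
`Ncg c'` -/
theorem levi_dec (c : Fin n → ℕ) (g : GL (Fin n) E) (hg : g ∈ Pcg E c) :
    ∃ l ∈ Lcg E c, ∃ u ∈ Ncg E c, g = l * u ∧
      (∀ i j, c i = c j → l.1 i j = g.1 i j) ∧ ∀ i j, c i = c j → l⁻¹.1 i j = g⁻¹.1 i j := by
  have e1 : bD c g.1 * bD c g⁻¹.1 = 1 := by
    rw [← bD_val_mul c g g⁻¹ hg (inv_mem hg), mul_inv_cancel]
    exact bD_one c
  have e2 : bD c g⁻¹.1 * bD c g.1 = 1 := by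
    rw [← bD_val_mul c g⁻¹ g (inv_mem hg) hg, inv_mul_cancel]
    exact bD_one c
  let l : GL (Fin n) E := ⟨bD c g.1, bD c g⁻¹.1, e1, e2⟩
  have hl1 : l.1 = bD c g.1 := rfl
  have hl2 : l⁻¹.1 = bD c g⁻¹.1 := rfl
  have hlL : l ∈ Lcg E c := by
    intro i j hij
    rw [hl1, hl2]
    unfold bD
    rw [if_neg hij, if_neg hij]
    exact ⟨rfl, rfl⟩
  have hlP := lcg_le c hlL
  have hbb : ∀ A : Matrix (Fin n) (Fin n) E, bD c (bD c A) = bD c A := by
    intro A
    ext i j
    unfold bD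
    split_ifs <;> rfl
  refine ⟨l, hlL, l⁻¹ * g, ?_, by rw [mul_inv_cancel_left], ?_, ?_⟩
  · refine mem_ncg c _ (mul_mem (inv_mem hlP) hg) ?_ ?_
    · rw [bD_val_mul c l⁻¹ g (inv_mem hlP) hg, hl2, hbb, e2]
    · have h3 : (l⁻¹ * g)⁻¹ = g⁻¹ * l := by group
      rw [h3, bD_val_mul c g⁻¹ l (inv_mem hg) hlP, hl1, hbb, e2]
  · intro i j hij
    rw [hl1]
    unfold bD
    rw [if_pos hij]
  · intro i j hij
    rw [hl2]
    unfold bD
    rw [if_pos hij]

/-- refinement of the type `c` at `i` -/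
def refc {n : ℕ} (c : Fin n → ℕ) (i : Fin n) : Fin n → ℕ := fun j => if j ≤ i then c j else c j + 1

theorem refc_mono (c : Fin n → ℕ) (hc : Monotone c) (i : Fin n) : Monotone (refc c i) := by
  intro p q hpq
  have h1 := hc hpq
  unfold refc
  split_ifs with h2 h3 h3
  · exact h1
  · omega
  · exact absurd (hpq.trans h3) h2
  · omega

theorem refc_le (c : Fin n → ℕ) (hc : Monotone c) (i : Fin n) : Ncg E (refc c i) ≤ Pcg E c := by
  intro g hg p q hpq
  have h4 : p ≠ q := fun e => by rw [e] at hpq; exact lt_irrefl _ hpq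
  have h5 : refc c i q ≤ refc c i p := by
    unfold refc
    split_ifs <;> omega
  have := hg p q h5
  rwa [Matrix.one_apply_ne h4] at this

end

end Pool.Agent.Work.MP_dd0ddf_al.C2
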