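import Pool.Agent.Work.MP_dd0ddf_al.C2.AdDefs

/-!
# MP_dd0ddf_al, module AdElem: elementary matrices in GL_n(O) (used by AdIwa, AdCart)
-/

set_option linter.unusedSectionVars false
set_option linter.style.haveILetI false

namespace Pool.Agent.Work.MP_dd0ddf_al.C2

noncomputable section

variable {E : Type*} [NontriviallyNormedField E] [IsUltrametricDist E] [ProperSpace E] {n : ℕ}

open Matrix

theorem um_sub (a b : E) (r : ℝ) (ha : ‖a‖ ≤ r) (hb : ‖b‖ ≤ r) : ‖a - b‖ ≤ r := by
  rw [sub_eq_add_neg]
  refine (IsUltrametricDist.norm_add_le_max _ _).trans (max_le ha ?_)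
  rw [norm_neg]
  exact hb

/-- the matrix of the transposition `(a b)` -/
def swG (E : Type*) [NontriviallyNormedField E] {n : ℕ} (a b : Fin n) : GL (Fin n) E where
  val := Matrix.of fun i j => if i = Equiv.swap a b j then 1 else 0
  inv := Matrix.of fun i j => if i = Equiv.swap a b j then 1 else 0
  val_inv := by
    ext i j
    simp [Matrix.mul_apply, Matrix.one_apply]
  inv_val := by
    ext i j
    simp [Matrix.mul_apply, Matrix.one_apply]

theorem swG_inv (a b : Fin n) : (swG E a b)⁻¹ = swG E a b := rfl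

theorem mul_swG (h : GL (Fin n) E) (a b i j : Fin n) :
    (h * swG E a b).1 i j = h.1 i (Equiv.swap a b j) := by
  show (h.1 * (swG E a b).1) i j = _
  simp [Matrix.mul_apply, swG]

theorem swG_mul (h : GL (Fin n) E) (a b i j : Fin n) :
    (swG E a b * h).1 i j = h.1 (Equiv.swap a b i) j := by
  show ((swG E a b).1 * h.1) i j = _
  rw [Matrix.mul_apply, Finset.sum_eq_single (Equiv.swap a b i)]
  · simp [swG]
  · intro k _ hk
    have : ¬ i = Equiv.swap a b k := by
      intro h
      apply hk
      rw [h, Equiv.swap_apply_self]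
    simp [swG, this]
  · intro h
    exact absurd (Finset.mem_univ _) h

theorem swG_K0 (a b : Fin n) : swG E a b ∈ K0g E n := by
  intro i j
  have h : ‖(swG E a b).1 i j‖ ≤ 1 := by
    show ‖(if i = Equiv.swap a b j then (1 : E) else 0)‖ ≤ 1
    split_ifs <;> simp
  exact ⟨h, h⟩

theorem swG_L (c : Fin n → ℕ) (a b : Fin n) (hab : c a = c b) : swG E a b ∈ Lcg E c := by
  intro i j hij
  have h : (swG E a b).1 i j = 0 := by
    show (if i = Equiv.swap a b j then (1 : E) else 0) = 0
    rw [if_neg]
    intro h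
    apply hij
    rw [h]
    rcases eq_or_ne j a with rfl | h1
    · rw [Equiv.swap_apply_left, hab]
    rcases eq_or_ne j b with rfl | h2
    · rw [Equiv.swap_apply_right, hab]
    rw [Equiv.swap_apply_of_ne_of_ne h1 h2]
  exact ⟨h, h⟩

/-- `1` minus the matrix with row `m` equal to `x` -/
def clG (m : Fin n) (x : Fin n → E) (hx : x m = 0) : GL (Fin n) E where
  val := Matrix.of fun i j => (1 : Matrix (Fin n) (Fin n) E) i j - if i = m then x j else 0
  inv := Matrix.of fun i j => (1 : Matrix (Fin n) (Fin n) E) i j + if i = m then x j else 0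
  val_inv := by
    ext i j
    simp only [Matrix.mul_apply, Matrix.of_apply, sub_mul, mul_add, Finset.sum_add_distrib,
      Finset.sum_sub_distrib, Matrix.one_apply]
    simp [hx]
  inv_val := by
    ext i j
    simp only [Matrix.mul_apply, Matrix.of_apply, mul_sub, add_mul, Finset.sum_add_distrib,
      Finset.sum_sub_distrib, Matrix.one_apply]
    simp [hx]

theorem mul_clG (h : GL (Fin n) E) (m : Fin n) (x : Fin n → E) (hx : x m = 0) (i j : Fin n) :
    (h * clG m x hx).1 i j = h.1 i j - h.1 i m * x j := by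
  show (h.1 * (clG m x hx).1) i j = _
  simp [Matrix.mul_apply, clG, mul_sub, Finset.sum_sub_distrib, Matrix.one_apply]

theorem clG_K0 (m : Fin n) (x : Fin n → E) (hx : x m = 0) (h1 : ∀ j, ‖x j‖ ≤ 1) :
    clG m x hx ∈ K0g E n := by
  intro i j
  have e1 : ‖(1 : Matrix (Fin n) (Fin n) E) i j‖ ≤ 1 := by
    rw [Matrix.one_apply]
    split_ifs <;> simp
  have e2 : ‖(if i = m then x j else 0)‖ ≤ 1 := by
    split_ifs
    · exact h1 j
    · simp
  constructor
  · show ‖(1 : Matrix (Fin n) (Fin n) E) i j - (if i = m then x j else 0)‖ ≤ 1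
    exact um_sub _ _ _ e1 e2
  · show ‖(1 : Matrix (Fin n) (Fin n) E) i j + (if i = m then x j else 0)‖ ≤ 1
    exact (IsUltrametricDist.norm_add_le_max _ _).trans (max_le e1 e2)

theorem clG_L (c : Fin n → ℕ) (m : Fin n) (x : Fin n → E) (hx : x m = 0)
    (h1 : ∀ j, c m ≠ c j → x j = 0) : clG m x hx ∈ Lcg E c := by
  intro i j hij
  have e1 : (1 : Matrix (Fin n) (Fin n) E) i j = 0 := by
    rw [Matrix.one_apply, if_neg]
    rintro rfl
    exact hij rfl
  have e2 : (if i = m then x j else 0) = 0 := by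
    split_ifs with h
    · exact h1 j (h ▸ hij)
    · rfl
  constructor
  · show (1 : Matrix (Fin n) (Fin n) E) i j - (if i = m then x j else 0) = 0
    rw [e1, e2, sub_zero]
  · show (1 : Matrix (Fin n) (Fin n) E) i j + (if i = m then x j else 0) = 0
    rw [e1, e2, add_zero]

/-- `1` minus the matrix with column `m` equal to `y` -/
def rwG (m : Fin n) (y : Fin n → E) (hy : y m = 0) : GL (Fin n) E where
  val := Matrix.of fun i j => (1 : Matrix (Fin n) (Fin n) E) i j - if j = m then y i else 0
  inv := Matrix.of fun i j => (1 : Matrix (Fin n) (Fin n) E) i j + if j = m then y i else 0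
  val_inv := by
    ext i j
    simp only [Matrix.mul_apply, Matrix.of_apply, sub_mul, mul_add, Finset.sum_add_distrib,
      Finset.sum_sub_distrib, Matrix.one_apply]
    simp [hy]
  inv_val := by
    ext i j
    simp only [Matrix.mul_apply, Matrix.of_apply, mul_sub, add_mul, Finset.sum_add_distrib,
      Finset.sum_sub_distrib, Matrix.one_apply]
    simp [hy]

theorem rwG_mul (h : GL (Fin n) E) (m : Fin n) (y : Fin n → E) (hy : y m = 0) (i j : Fin n) :
    (rwG m y hy * h).1 i j = h.1 i j - y i * h.1 m j := by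
  show ((rwG m y hy).1 * h.1) i j = _
  simp [Matrix.mul_apply, rwG, sub_mul, Finset.sum_sub_distrib, Matrix.one_apply]

theorem rwG_K0 (m : Fin n) (y : Fin n → E) (hy : y m = 0) (h1 : ∀ j, ‖y j‖ ≤ 1) :
    rwG m y hy ∈ K0g E n := by
  intro i j
  have e1 : ‖(1 : Matrix (Fin n) (Fin n) E) i j‖ ≤ 1 := by
    rw [Matrix.one_apply]
    split_ifs <;> simp
  have e2 : ‖(if j = m then y i else 0)‖ ≤ 1 := by
    split_ifs
    · exact h1 i
    · simp
  constructor
  · show ‖(1 : Matrix (Fin n) (Fin n) E) i j - (if j = m then y i else 0)‖ ≤ 1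
    exact um_sub _ _ _ e1 e2
  · show ‖(1 : Matrix (Fin n) (Fin n) E) i j + (if j = m then y i else 0)‖ ≤ 1
    exact (IsUltrametricDist.norm_add_le_max _ _).trans (max_le e1 e2)

theorem rwG_L (c : Fin n → ℕ) (m : Fin n) (y : Fin n → E) (hy : y m = 0)
    (h1 : ∀ i, c i ≠ c m → y i = 0) : rwG m y hy ∈ Lcg E c := by
  intro i j hij
  have e1 : (1 : Matrix (Fin n) (Fin n) E) i j = 0 := by
    rw [Matrix.one_apply, if_neg]
    rintro rfl
    exact hij rfl
  have e2 : (if j = m then y i else 0) = 0 := by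
    split_ifs with h
    · exact h1 i (h ▸ hij)
    · rfl
  constructor
  · show (1 : Matrix (Fin n) (Fin n) E) i j - (if j = m then y i else 0) = 0
    rw [e1, e2, sub_zero]
  · show (1 : Matrix (Fin n) (Fin n) E) i j + (if j = m then y i else 0) = 0
    rw [e1, e2, add_zero]

/-- multiplication of row `m` by `u` -/
def scG (m : Fin n) (u : E) (hu : u ≠ 0) : GL (Fin n) E where
  val := Matrix.diagonal fun i => if i = m then u else 1
  inv := Matrix.diagonal fun i => if i = m then u⁻¹ else 1
  val_inv := by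
    rw [Matrix.diagonal_mul_diagonal, ← Matrix.diagonal_one]
    congr 1
    funext i
    split_ifs
    · exact mul_inv_cancel₀ hu
    · exact mul_one 1
  inv_val := by
    rw [Matrix.diagonal_mul_diagonal, ← Matrix.diagonal_one]
    congr 1
    funext i
    split_ifs
    · exact inv_mul_cancel₀ hu
    · exact mul_one 1

theorem scG_mul (h : GL (Fin n) E) (m : Fin n) (u : E) (hu : u ≠ 0) (i j : Fin n) :
    (scG m u hu * h).1 i j = (if i = m then u else 1) * h.1 i j := by
  show ((scG m u hu).1 * h.1) i j = _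
  show ((Matrix.diagonal fun i => if i = m then u else 1) * h.1) i j = _
  rw [Matrix.diagonal_mul]

theorem scG_K0 (m : Fin n) (u : E) (hu : u ≠ 0) (h1 : ‖u‖ = 1) : scG m u hu ∈ K0g E n := by
  intro i j
  constructor
  · show ‖(Matrix.diagonal (fun i => if i = m then u else 1) : Matrix (Fin n) (Fin n) E) i j‖ ≤ 1
    rw [Matrix.diagonal_apply]
    split_ifs
    · exact h1.le
    · simp
    · simp
  · show ‖(Matrix.diagonal (fun i => if i = m then u⁻¹ else 1) : Matrix (Fin n) (Fin n) E) i j‖ ≤ 1
    rw [Matrix.diagonal_apply]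
    split_ifs
    · rw [norm_inv, h1, inv_one]
    · simp
    · simp

theorem scG_L (c : Fin n → ℕ) (m : Fin n) (u : E) (hu : u ≠ 0) : scG m u hu ∈ Lcg E c := by
  intro i j hij
  have hne : i ≠ j := by
    rintro rfl
    exact hij rfl
  exact ⟨Matrix.diagonal_apply_ne _ hne, Matrix.diagonal_apply_ne _ hne⟩

end

end Pool.Agent.Work.MP_dd0ddf_al.C2
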