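import Pool.Agent.Work.MP_dd0ddf_al.C2.DescMod
import Pool.Agent.Work.MP_dd0ddf_al.C2.DescZero

/-!
# MP_dd0ddf_al, module DescThm: the descent theorem (consumer form)

`desc_delta`: `δ(γ) = m(U) / m(γ U γ⁻¹)` which by the second clause of `IsMod` (φ = conjugation by γ ∈ stab) is `1/d_γ`, independent of `U`.
`IsEU U f F` implies `IsEU (γ U γ⁻¹) (fop γ f) (A.op R γ F)` for `γ ∈ stab`; so `m(U) S(f) = T F = T (A.op R γ F) = m(γUγ⁻¹) S(fop γ f)`.
Multiplicative: from `m (γγ' U γ'⁻¹γ⁻¹) = d_γ d_γ' m U`.  Locally trivial: if `γ ∈ U ∩ stab` then `γ U γ⁻¹ = U`.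
`desc_sym`: if `IsEU U f F` then `IsEU (sΓ U) (opr fibHomeo sB f) (opr sX sB F)`:
for `u ∈ U, y ∈ Fib`: `(opr sX sB F)(sΓ(u) y) = sB F(sX (sΓ(u) y)) = sB F(u (sX y)) = sB β(u) f(sX y) = β(sΓ u) sB f(sX y)`; and if
`C.act v o ≠ π x` for all `v ∈ sΓ U` then `C.act u o ≠ π (sX x)` for all `u ∈ U` (if `u o = π (sX x)`, put `x' = u⁻¹ (sX x) ∈ Fib`, `y = sX⁻¹ x' ∈ Fib`
(clause `fib`), then `sX x = u (sX y) = sX (sΓ(u) y)`, so `x = sΓ(u) y`, `π x = sΓ(u) o`).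
So `ε m(U) S(f) = ε T F = T (opr sX sB F) = m(sΓ U) S(opr fibHomeo sB f)`, `c = m(U)/m(sΓ U)`.
`descent`: combine with `exists_mod`, `desc_zero` (`S = 0` implies `T (E_U f) = 0` for all U, f).
-/

set_option linter.unusedSectionVars false
set_option linter.style.haveILetI false

namespace Pool.Agent.Work.MP_dd0ddf_al.C2

noncomputable section

variable {Γ X O B : Type*} [Group Γ] [TopologicalSpace Γ] [IsTopologicalGroup Γ]
  [LocallyCompactSpace Γ] [T2Space Γ] [TotallyDisconnectedSpace Γ] [SigmaCompactSpace Γ]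
  [TopologicalSpace X] [T2Space X] [LocallyCompactSpace X] [TotallyDisconnectedSpace X]
  [TopologicalSpace O] [T2Space O] [AddCommGroup B] [Module ℂ B]

private def descthm_cj (γ : Γ) (U : Subgroup Γ) : Subgroup Γ :=
  U.map (MulAut.conj γ : Γ ≃* Γ).toMonoidHom

private theorem descthm_mem_cj {γ : Γ} {U : Subgroup Γ} {x : Γ} :
    x ∈ descthm_cj γ U ↔ ∃ u ∈ U, γ * u * γ⁻¹ = x := Iff.rfl

private theorem descthm_cj_CO {γ : Γ} {U : Subgroup Γ} (hU : DescData.CO U) :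
    DescData.CO (descthm_cj γ U) := by
  have h1 : Continuous fun x : Γ => γ * x * γ⁻¹ :=
    (continuous_const.mul continuous_id).mul continuous_const
  have h2 : Continuous fun x : Γ => γ⁻¹ * x * γ :=
    (continuous_const.mul continuous_id).mul continuous_const
  constructor
  · have : ((descthm_cj γ U : Subgroup Γ) : Set Γ) = (fun x : Γ => γ⁻¹ * x * γ) ⁻¹' (U : Set Γ) := by
      ext x
      constructor
      · rintro ⟨y, hy, rfl⟩
        show γ⁻¹ * (γ * y * γ⁻¹) * γ ∈ U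
        have : γ⁻¹ * (γ * y * γ⁻¹) * γ = y := by group
        rw [this]
        exact hy
      · intro hx
        exact ⟨γ⁻¹ * x * γ, hx, by
          show γ * (γ⁻¹ * x * γ) * γ⁻¹ = x
          group⟩
    rw [this]
    exact hU.1.preimage h2
  · exact hU.2.image h1

private theorem descthm_cj_mod (D : DescData Γ X O B) {m : Subgroup Γ → ℝ} (hm : D.IsMod m)
    (γ : D.stab) : ∃ d : ℝ, 0 < d ∧ ∀ U : Subgroup Γ, DescData.CO U →
      m (descthm_cj γ.1 U) = d * m U := by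
  refine hm.2.1 (MulAut.conj γ.1) ?_ ?_ ?_
  · exact (continuous_const.mul continuous_id).mul continuous_const
  · exact (continuous_const.mul continuous_id).mul continuous_const
  · intro x
    show x ∈ D.stab ↔ γ.1 * x * γ.1⁻¹ ∈ D.stab
    constructor
    · intro hx
      exact D.stab.mul_mem (D.stab.mul_mem γ.2 hx) (D.stab.inv_mem γ.2)
    · intro hx
      have h := D.stab.mul_mem (D.stab.mul_mem (D.stab.inv_mem γ.2) hx) γ.2
      have h2 : γ.1⁻¹ * (γ.1 * x * γ.1⁻¹) * γ.1 = x := by group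
      rwa [h2] at h

private theorem descthm_cj_eu (D : DescData Γ X O B) {U : Subgroup Γ} {f : SF D.Fib B}
    {F : SF X B} (h : D.IsEU U f F) (γ : D.stab) :
    D.IsEU (descthm_cj γ.1 U) (D.fop γ f) (D.A.op D.R γ.1 F) := by
  constructor
  · rintro _ ⟨u, hu, rfl⟩ x
    show D.R.β γ.1 (F (D.A.act γ.1⁻¹ (D.A.act (γ.1 * u * γ.1⁻¹) x.1))) =
      D.R.β (γ.1 * u * γ.1⁻¹) (D.fop γ f x)
    have e1 : D.A.act γ.1⁻¹ (D.A.act (γ.1 * u * γ.1⁻¹) x.1) =
        D.A.act u (D.fibAct.act γ⁻¹ x).1 := by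
      show D.A.act γ.1⁻¹ (D.A.act (γ.1 * u * γ.1⁻¹) x.1) = D.A.act u (D.A.act γ.1⁻¹ x.1)
      rw [← D.A.mul, ← D.A.mul]
      congr 1
      group
    rw [e1, h.1 u hu, D.fop_apply]
    have e2 : D.R.β (γ.1 * u * γ.1⁻¹) (D.R.β γ.1 (f (D.fibAct.act γ⁻¹ x))) =
        D.R.β γ.1 (D.R.β u (f (D.fibAct.act γ⁻¹ x))) := by
      have e3 : D.R.β (γ.1 * u * γ.1⁻¹) * D.R.β γ.1 = D.R.β γ.1 * D.R.β u := by
        rw [← map_mul, ← map_mul]
        congr 1
        group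
      exact congrArg (fun φ : Module.End ℂ B => φ (f (D.fibAct.act γ⁻¹ x))) e3
    rw [e2]
  · intro x hx
    show D.R.β γ.1 (F (D.A.act γ.1⁻¹ x)) = 0
    rw [h.2, map_zero]
    intro u hu hux
    apply hx (γ.1 * u * γ.1⁻¹) ⟨u, hu, rfl⟩
    have h1 : D.C.act γ.1⁻¹ D.o = D.o := D.stab.inv_mem γ.2
    rw [D.C.mul, h1, D.C.mul, hux, D.eqv, D.C.act_inv]

theorem desc_delta (D : DescData Γ X O B) {m : Subgroup Γ → ℝ} (hm : D.IsMod m) :
    ∃ δ : PosChar D.stab, ∀ (T : SF X B →ₗ[ℂ] ℂ) (S : SF D.Fib B →ₗ[ℂ] ℂ),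
      (∀ γ f, T (D.A.op D.R γ f) = T f) →
      (∀ U f F, DescData.CO U → D.IsEU U f F → T F = m U * S f) →
      ∀ γ f, S (D.fop γ f) = δ.δ γ * S f := by
  classical
  obtain ⟨U0, h0, -⟩ := co_basis (Set.univ : Set Γ) isOpen_univ (Set.mem_univ _)
  choose d hd0 hd using descthm_cj_mod D hm
  have hm0 : 0 < m U0 := hm.1 U0 h0
  refine ⟨{ δ := fun γ => (d γ)⁻¹
            pos := fun γ => inv_pos.2 (hd0 γ)
            mul := ?_
            lc := ?_ }, ?_⟩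
  · intro γ γ'
    have e1 : descthm_cj (γ * γ').1 U0 = descthm_cj γ.1 (descthm_cj γ'.1 U0) := by
      ext x
      constructor
      · rintro ⟨u, hu, rfl⟩
        refine ⟨γ'.1 * u * γ'.1⁻¹, ⟨u, hu, rfl⟩, ?_⟩
        show γ.1 * (γ'.1 * u * γ'.1⁻¹) * γ.1⁻¹ = (γ.1 * γ'.1) * u * (γ.1 * γ'.1)⁻¹
        group
      · rintro ⟨_, ⟨u, hu, rfl⟩, rfl⟩
        refine ⟨u, hu, ?_⟩
        show (γ.1 * γ'.1) * u * (γ.1 * γ'.1)⁻¹ = γ.1 * (γ'.1 * u * γ'.1⁻¹) * γ.1⁻¹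
        group
    have e2 := hd (γ * γ') U0 h0
    rw [e1, hd γ _ (descthm_cj_CO h0), hd γ' U0 h0, ← mul_assoc] at e2
    have e3 := mul_right_cancel₀ hm0.ne' e2
    rw [← e3, mul_inv]
  · refine ⟨(fun g : D.stab => g.1) ⁻¹' (U0 : Set Γ), h0.1.preimage continuous_subtype_val,
      U0.one_mem, fun γ hγ => ?_⟩
    have hγ' : γ.1 ∈ U0 := hγ
    have e1 : descthm_cj γ.1 U0 = U0 := by
      ext x
      constructor
      · rintro ⟨u, hu, rfl⟩
        exact U0.mul_mem (U0.mul_mem hγ' hu) (U0.inv_mem hγ')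
      · intro hx
        refine ⟨γ.1⁻¹ * x * γ.1, U0.mul_mem (U0.mul_mem (U0.inv_mem hγ') hx) hγ', ?_⟩
        show γ.1 * (γ.1⁻¹ * x * γ.1) * γ.1⁻¹ = x
        group
    have e2 := hd γ U0 h0
    rw [e1] at e2
    have e3 : d γ = 1 := by
      have : 1 * m U0 = d γ * m U0 := by rw [one_mul]; exact e2
      exact (mul_right_cancel₀ hm0.ne' this).symm
    simp only [e3, inv_one]
  · intro T S hT hS γ f
    obtain ⟨U, hU, h⟩ := eu_small D f
    obtain ⟨F, hF⟩ := eu_exists D f U hU h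
    have e1 := hS _ _ _ (descthm_cj_CO (γ := γ.1) hU) (descthm_cj_eu D hF γ)
    rw [hT, hS U f F hU hF, hd γ U hU, Complex.ofReal_mul] at e1
    have n1 : (m U : ℂ) ≠ 0 := by
      rw [Ne, Complex.ofReal_eq_zero]
      exact (hm.1 U hU).ne'
    have n2 : (d γ : ℂ) ≠ 0 := by
      rw [Ne, Complex.ofReal_eq_zero]
      exact (hd0 γ).ne'
    have e2 : (m U : ℂ) * S f = (m U : ℂ) * ((d γ : ℂ) * S (D.fop γ f)) := by
      rw [e1]
      ring
    have e3 := mul_left_cancel₀ n1 e2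
    show S (D.fop γ f) = (((d γ)⁻¹ : ℝ) : ℂ) * S f
    rw [e3, Complex.ofReal_inv, inv_mul_cancel_left₀ n2]

private theorem descthm_sym_eu (D : DescData Γ X O B) {U : Subgroup Γ} {f : SF D.Fib B}
    {F : SF X B} (h : D.IsEU U f F) (s : D.DSym) :
    D.IsEU (U.map s.sΓ.toMonoidHom) (SF.opr s.fibHomeo s.sB f) (SF.opr s.sX s.sB F) := by
  constructor
  · rintro _ ⟨u, hu, rfl⟩ y
    show s.sB (F (s.sX (D.A.act (s.sΓ u) y.1))) =
      D.R.β (s.sΓ u) (s.sB (f (s.fibHomeo y)))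
    rw [s.compX, ← s.compB]
    congr 1
    exact h.1 u hu (s.fibHomeo y)
  · intro x hx
    show s.sB (F (s.sX x)) = 0
    rw [h.2, map_zero]
    intro u hu hux
    -- `x' = u⁻¹ (sX x)` in the fibre
    have h1 : D.π (D.A.act u⁻¹ (s.sX x)) = D.o := by
      rw [D.eqv, ← hux, D.C.inv_act]
    have h2 := s.symm_mem _ h1
    apply hx (s.sΓ u) ⟨u, hu, rfl⟩
    have h3 : s.sX (D.A.act (s.sΓ u) (s.sX.symm (D.A.act u⁻¹ (s.sX x)))) = s.sX x := by
      rw [s.compX, Homeomorph.apply_symm_apply, D.A.act_inv]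
    have h4 := s.sX.injective h3
    have h5 : D.π x = D.C.act (s.sΓ u) (D.π (s.sX.symm (D.A.act u⁻¹ (s.sX x)))) := by
      rw [← D.eqv, h4]
    rw [h5, h2]

theorem desc_sym (D : DescData Γ X O B) {m : Subgroup Γ → ℝ} (hm : D.IsMod m)
    (s : D.DSym) : ∃ c : ℝ, 0 < c ∧ ∀ (T : SF X B →ₗ[ℂ] ℂ) (S : SF D.Fib B →ₗ[ℂ] ℂ),
      (∀ γ f, T (D.A.op D.R γ f) = T f) →
      (∀ U f F, DescData.CO U → D.IsEU U f F → T F = m U * S f) →
      ∀ ε : ℂ, (∀ f, T (SF.opr s.sX s.sB f) = ε * T f) →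
      ∀ f, S (SF.opr s.fibHomeo s.sB f) = ε * c * S f := by
  obtain ⟨d, hd0, hd⟩ := hm.2.1 s.sΓ s.cont s.cont' s.stb
  refine ⟨d⁻¹, inv_pos.2 hd0, fun T S hT hS ε hε f => ?_⟩
  obtain ⟨U, hU, h⟩ := eu_small D f
  obtain ⟨F, hF⟩ := eu_exists D f U hU h
  have hCO : DescData.CO (U.map s.sΓ.toMonoidHom) := by
    constructor
    · have : ((U.map s.sΓ.toMonoidHom : Subgroup Γ) : Set Γ) = s.sΓ.symm ⁻¹' (U : Set Γ) := by
        ext x
        constructor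
        · rintro ⟨y, hy, rfl⟩
          show s.sΓ.symm (s.sΓ y) ∈ U
          rw [MulEquiv.symm_apply_apply]
          exact hy
        · intro hx
          exact ⟨s.sΓ.symm x, hx, s.sΓ.apply_symm_apply x⟩
      rw [this]
      exact hU.1.preimage s.cont'
    · exact hU.2.image s.cont
  have e1 := hS _ _ _ hCO (descthm_sym_eu D hF s)
  rw [hε, hS U f F hU hF, hd U hU, Complex.ofReal_mul] at e1
  have n1 : (m U : ℂ) ≠ 0 := by
    rw [Ne, Complex.ofReal_eq_zero]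
    exact (hm.1 U hU).ne'
  have n2 : (d : ℂ) ≠ 0 := by
    rw [Ne, Complex.ofReal_eq_zero]
    exact hd0.ne'
  have e2 : (m U : ℂ) * (ε * S f) = (m U : ℂ) * ((d : ℂ) * S (SF.opr s.fibHomeo s.sB f)) := by
    linear_combination e1
  have e3 := mul_left_cancel₀ n1 e2
  rw [Complex.ofReal_inv]
  field_simp
  linear_combination -e3

/-- **descent** -/
theorem descent (D : DescData Γ X O B) (T : SF X B →ₗ[ℂ] ℂ)
    (hT : ∀ γ f, T (D.A.op D.R γ f) = T f) :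
    ∃ S : SF D.Fib B →ₗ[ℂ] ℂ, (S = 0 → T = 0) ∧
      (∃ δ : PosChar D.stab, ∀ γ f, S (D.fop γ f) = δ.δ γ * S f) ∧
      ∀ (s : D.DSym) (ε : ℂ), (∀ f, T (SF.opr s.sX s.sB f) = ε * T f) →
        ∃ c : ℝ, 0 < c ∧ ∀ f, S (SF.opr s.fibHomeo s.sB f) = ε * c * S f := by
  obtain ⟨m, hm⟩ := exists_mod D
  obtain ⟨S, hS⟩ := hm.2.2 T hT
  refine ⟨S, ?_, ?_, ?_⟩
  · intro h0
    refine desc_zero D T hT fun U f F hU hF => ?_
    rw [hS U f F hU hF, h0, LinearMap.zero_apply, mul_zero]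
  · obtain ⟨δ, hδ⟩ := desc_delta D hm
    exact ⟨δ, hδ T S hT hS⟩
  · intro s ε hε
    obtain ⟨c, hc, h⟩ := desc_sym D hm s
    exact ⟨c, hc, h T S hT hS ε hε⟩

end

end Pool.Agent.Work.MP_dd0ddf_al.C2
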