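import Pool.Agent.Work.MP_dd0ddf_al.C2.AdCusp
import Pool.Agent.Work.MP_dd0ddf_al.C2.AdIwa
import Pool.Agent.Work.MP_dd0ddf_al.C2.GkDefs

/-!
# MP_dd0ddf_al, module AdMain: irreducible smooth representations of GL_n over a nonarchimedean local field are admissible

`exists_c`: jac c = span{π(u) w - w : u ∈ Ncg c}.  Among the monotone c with jac c ≠ ⊤ (c = 0 is one: Ncg 0 = 1, jac = ⊥) choose one with the least number of pairs (i, i+1) with c i = c (i+1).  Refining at such a pair lowers this number, so jac (refc c i) = ⊤.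
`adm_GL`: K open ⊇ Krg r (krg_basis).  V is spanned by the π(g) v0, so (iwasawa, k0_fin) a Pcg c-stable subspace containing the finite set {π(s) v0 : s ∈ S} is everything, S representatives of K0g / Krg r0, v0 fixed by Krg r0.  exists_max for π restricted to Pcg c and M0 = jac c (stable: ncg_normal): M.  W = V / M with the action σ of Pcg c; irreducible, N trivial, countable
dimension (countable_cosets), cuspidal (refc_le; every v is a sum of π(u) w - w, u ∈ Ncg (refc c i)).  cusp_fd: the vectors of W fixed by Krg r ⊓ Lcg c are in a finite dimensional N.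
φ : V → W.  For v fixed by Krg r and s ∈ K0g: π(s) v is fixed by Krg r (krg_normal), φ(π(s) v) ∈ N.  The map v ↦ (φ(π(s) v))_{s ∈ S}, S representatives of K0g / Krg r, is injective on the Krg r-fixed vectors: if φ(π(s) v) = 0 for s ∈ S, then φ(π(k) v) = 0 for all k ∈ K0g, and φ(π(p k) v) = σ(p) φ(π(k) v) = 0 for all p k = g ∈ G (iwasawa);
{v : φ(π(g) v) = 0 for all g} is π-stable, not ⊤, so 0.
`adm_GV`: transport by the continuous surjective homomorphism GL (Fin n) E → GV E V given by a basis.
-/

set_option linter.unusedSectionVars false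
set_option linter.style.haveILetI false

namespace Pool.Agent.Work.MP_dd0ddf_al.C2

noncomputable section

/-- irreducible smooth representation -/
structure IrrSm {G P : Type*} [Group G] [TopologicalSpace G] [AddCommGroup P] [Module ℂ P]
    (π : G →* Module.End ℂ P) : Prop where
  smooth : SmRep π
  nontriv : ∃ w : P, w ≠ 0
  irr : ∀ N : Submodule ℂ P, (∀ g, ∀ w ∈ N, π g w ∈ N) → N = ⊥ ∨ N = ⊤

section Main

open Matrix

variable {E : Type*} [NontriviallyNormedField E] [IsUltrametricDist E] [ProperSpace E] {n : ℕ}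
variable {P : Type*} [AddCommGroup P] [Module ℂ P]

/-- the Jacquet kernel -/
private def jacM (π : GL (Fin n) E →* Module.End ℂ P) (c : Fin n → ℕ) : Submodule ℂ P :=
  Submodule.span ℂ {x | ∃ u ∈ Ncg E c, ∃ w, x = π u w - w}

private theorem jac_stable (π : GL (Fin n) E →* Module.End ℂ P) (c : Fin n → ℕ)
    (g : GL (Fin n) E) (hg : g ∈ Pcg E c) (w : P) (hw : w ∈ jacM π c) : π g w ∈ jacM π c := by
  unfold jacM at hw ⊢
  induction hw using Submodule.span_induction with
  | mem x hx =>
    obtain ⟨u, hu, w, rfl⟩ := hx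
    refine Submodule.subset_span ⟨g * u * g⁻¹, ncg_normal c g u hg hu, π g w, ?_⟩
    rw [map_sub, ← Module.End.mul_apply, ← Module.End.mul_apply, ← map_mul, ← map_mul,
      inv_mul_cancel_right]
  | zero => rw [map_zero]; exact zero_mem _
  | add x y _ _ hx hy => rw [map_add]; exact add_mem hx hy
  | smul z x _ hx => rw [map_smul]; exact Submodule.smul_mem _ _ hx

private theorem jac_zero (π : GL (Fin n) E →* Module.End ℂ P) : jacM π (fun _ => 0) = ⊥ := by
  rw [eq_bot_iff]
  unfold jacM
  rw [Submodule.span_le]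
  rintro _ ⟨u, hu, w, rfl⟩
  have h1 : u = 1 := by
    apply Units.ext
    ext i j
    exact (hu i j le_rfl).1
  rw [h1, map_one]
  change w - w ∈ (⊥ : Submodule ℂ P)
  rw [sub_self]
  exact zero_mem _

/-- number of pairs -/
private def npairs (c : Fin n → ℕ) : ℕ := by
  classical
  exact (Finset.univ.filter fun i : Fin n => ∃ j : Fin n, j.1 = i.1 + 1 ∧ c i = c j).card

private theorem npairs_lt (c : Fin n → ℕ) (hc : Monotone c) (i j : Fin n) (hij : j.1 = i.1 + 1)
    (h : c i = c j) : npairs (refc c i) < npairs c := by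
  classical
  unfold npairs
  apply Finset.card_lt_card
  rw [Finset.ssubset_iff_of_subset]
  · refine ⟨i, by simp only [Finset.mem_filter, Finset.mem_univ, true_and]; exact ⟨j, hij, h⟩, ?_⟩
    simp only [Finset.mem_filter, Finset.mem_univ, true_and]
    rintro ⟨j', h1, h2⟩
    have hj : j' = j := Fin.ext (by omega)
    subst hj
    unfold refc at h2
    have h3 : ¬ j' ≤ i := by
      change ¬ j'.1 ≤ i.1
      omega
    rw [if_pos le_rfl, if_neg h3] at h2
    omega
  · intro p hp
    simp only [Finset.mem_filter, Finset.mem_univ, true_and] at hp ⊢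
    obtain ⟨q, h1, h2⟩ := hp
    refine ⟨q, h1, ?_⟩
    have hpq : p ≤ q := by
      change p.1 ≤ q.1
      omega
    have h3 := hc hpq
    unfold refc at h2
    split_ifs at h2 with h4 h5 h5
    · exact h2
    · omega
    · exact absurd (hpq.trans h5) h4
    · omega

private theorem exists_c (π : GL (Fin n) E →* Module.End ℂ P) (hne : ∃ w : P, w ≠ 0) :
    ∃ c : Fin n → ℕ, Monotone c ∧ jacM π c ≠ ⊤ ∧ ∀ i j : Fin n, j.1 = i.1 + 1 → c i = c j →
      jacM π (refc c i) = ⊤ := by
  have key : ∀ m : ℕ, ∀ c : Fin n → ℕ, Monotone c → jacM π c ≠ ⊤ → npairs c = m →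
      ∃ c : Fin n → ℕ, Monotone c ∧ jacM π c ≠ ⊤ ∧ ∀ i j : Fin n, j.1 = i.1 + 1 → c i = c j →
        jacM π (refc c i) = ⊤ := by
    intro m
    induction m using Nat.strong_induction_on with
    | _ m ih =>
      intro c hc hj hm
      by_cases hbad : ∃ i j : Fin n, j.1 = i.1 + 1 ∧ c i = c j ∧ jacM π (refc c i) ≠ ⊤
      · obtain ⟨i, j, hij, hcij, hne⟩ := hbad
        exact ih (npairs (refc c i)) (by rw [← hm]; exact npairs_lt c hc i j hij hcij)
          (refc c i) (refc_mono c hc i) hne rfl
      · push Not at hbad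
        exact ⟨c, hc, hj, hbad⟩
  refine key _ (fun _ => 0) monotone_const ?_ rfl
  rw [jac_zero]
  obtain ⟨w, hw⟩ := hne
  intro h
  apply hw
  have : w ∈ (⊥ : Submodule ℂ P) := by rw [h]; trivial
  exact (Submodule.mem_bot ℂ).1 this

/-- the action on a quotient by a stable subspace -/
private def quotAct {H : Type*} [Group H] (π : H →* Module.End ℂ P) (M : Submodule ℂ P)
    (hM : ∀ g, ∀ w ∈ M, π g w ∈ M) : H →* Module.End ℂ (P ⧸ M) where
  toFun g := M.mapQ M (π g) (fun w hw => hM g w hw)
  map_one' := by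
    apply LinearMap.ext
    intro x
    obtain ⟨v, rfl⟩ := M.mkQ_surjective x
    rw [Submodule.mkQ_apply, Submodule.mapQ_apply, map_one]
    rfl
  map_mul' g h := by
    apply LinearMap.ext
    intro x
    obtain ⟨v, rfl⟩ := M.mkQ_surjective x
    rw [Module.End.mul_apply, Submodule.mkQ_apply, Submodule.mapQ_apply, Submodule.mapQ_apply,
      Submodule.mapQ_apply, map_mul]
    rfl

private theorem quotAct_mk {H : Type*} [Group H] (π : H →* Module.End ℂ P) (M : Submodule ℂ P)
    (hM : ∀ g, ∀ w ∈ M, π g w ∈ M) (g : H) (w : P) :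
    quotAct π M hM g (M.mkQ w) = M.mkQ (π g w) := rfl

/-- vectors fixed by a subset of the group -/
private def fixS {H : Type*} [Group H] (π : H →* Module.End ℂ P) (K : Set H) :
    Submodule ℂ P where
  carrier := {w | ∀ k ∈ K, π k w = w}
  add_mem' := fun {a b} ha hb k hk => by rw [map_add, ha k hk, hb k hk]
  zero_mem' := fun k _ => map_zero _
  smul_mem' := fun c a ha k hk => by rw [map_smul, ha k hk]

private theorem orbit_top {H : Type*} [Group H] (π : H →* Module.End ℂ P)
    (hirr : ∀ N : Submodule ℂ P, (∀ g, ∀ w ∈ N, π g w ∈ N) → N = ⊥ ∨ N = ⊤) (v0 : P)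
    (hv0 : v0 ≠ 0) (M : Submodule ℂ P) (h : ∀ g, π g v0 ∈ M) : M = ⊤ := by
  set M' : Submodule ℂ P := Submodule.span ℂ (Set.range fun g => π g v0) with hM'
  have hs : ∀ g, ∀ w ∈ M', π g w ∈ M' := by
    intro g w hw
    rw [hM'] at hw
    induction hw using Submodule.span_induction with
    | mem x hx =>
      obtain ⟨l, rfl⟩ := hx
      refine Submodule.subset_span ⟨g * l, ?_⟩
      change π (g * l) v0 = π g (π l v0)
      rw [map_mul]
      rfl
    | zero => rw [map_zero]; exact zero_mem _
    | add x y _ _ hx hy => rw [map_add]; exact add_mem hx hy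
    | smul z x _ hx => rw [map_smul]; exact Submodule.smul_mem _ _ hx
  have h0 : v0 ∈ M' := Submodule.subset_span ⟨1, by
    change π 1 v0 = v0
    rw [map_one]
    rfl⟩
  rcases hirr M' hs with h1 | h1
  · rw [h1] at h0
    exact absurd ((Submodule.mem_bot ℂ).1 h0) hv0
  · rw [eq_top_iff, ← h1, hM', Submodule.span_le]
    rintro _ ⟨g, rfl⟩
    exact h g

/-- the fixed vectors of a congruence subgroup are finite dimensional -/
private theorem adm_core (π : GL (Fin n) E →* Module.End ℂ P) (hsm : SmRep π)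
    (hne : ∃ w : P, w ≠ 0)
    (hirr : ∀ N : Submodule ℂ P, (∀ g, ∀ w ∈ N, π g w ∈ N) → N = ⊥ ∨ N = ⊤)
    (r : ℝ) (hr : 0 < r) :
    Module.Finite ℂ (fixS π (Krg E n r hr : Set (GL (Fin n) E))) := by
  classical
  have hsm' : ∀ w : P, ∃ (r : ℝ) (hr : 0 < r), ∀ k ∈ Krg E n r hr, π k w = w := by
    intro w
    obtain ⟨U, hU, h1, h⟩ := hsm w
    obtain ⟨r', hr', hsub⟩ := krg_basis U hU h1
    exact ⟨r', hr', fun k hk => h k (hsub hk)⟩
  obtain ⟨v0, hv0⟩ := hne
  obtain ⟨r0, hr0, hfix0⟩ := hsm' v0
  obtain ⟨S0, hS0, hk0⟩ := k0_fin r0 hr0 (K0g E n) le_rfl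
  obtain ⟨c, hc, hjac, hcusp⟩ := exists_c π ⟨v0, hv0⟩
  -- the maximal stable subspace
  obtain ⟨M, hM0, hMtop, hMst, hMmax⟩ := exists_max (π.comp (Pcg E c).subtype) (jacM π c) hjac
    (fun g w hw => jac_stable π c g.1 g.2 w hw) (S0.image fun s => π s v0)
    (by
      intro M' hM' hS
      refine orbit_top π hirr v0 hv0 M' fun g => ?_
      obtain ⟨p, hp, k, hk, rfl⟩ := iwasawa c hc g
      obtain ⟨s, hs, hsk⟩ := hk0 k hk
      have e1 : π k v0 = π s v0 := by
        have h1 := hfix0 _ hsk
        have h2 : π k v0 = π s (π (s⁻¹ * k) v0) := by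
          rw [← Module.End.mul_apply, ← map_mul, mul_inv_cancel_left]
        rw [h2, h1]
      rw [map_mul, Module.End.mul_apply, e1]
      exact hM' ⟨p, hp⟩ _ (hS (by
        rw [Finset.coe_image]
        exact ⟨s, hs, rfl⟩)))
  set σ : Pcg E c →* Module.End ℂ (P ⧸ M) := quotAct (π.comp (Pcg E c).subtype) M hMst with hσ
  have hσmk : ∀ (g : Pcg E c) (w : P), σ g (M.mkQ w) = M.mkQ (π g.1 w) := fun g w => rfl
  -- cuspidality etc.
  obtain ⟨N, hNfin, hN⟩ := cusp_fd c hc σ
    (by
      intro x
      obtain ⟨v, rfl⟩ := M.mkQ_surjective x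
      obtain ⟨r', hr', h⟩ := hsm' v
      exact ⟨r', hr', fun k hk => by rw [hσmk, h k.1 hk]⟩)
    (by
      intro u hu
      apply LinearMap.ext
      intro x
      obtain ⟨v, rfl⟩ := M.mkQ_surjective x
      rw [hσmk]
      change M.mkQ (π u.1 v) = M.mkQ v
      rw [← sub_eq_zero, ← map_sub, Submodule.mkQ_apply, Submodule.Quotient.mk_eq_zero]
      exact hM0 (Submodule.subset_span ⟨u.1, hu, v, rfl⟩))
    (by
      intro M' hM'
      have hle : M ≤ M'.comap M.mkQ := by
        intro w hw
        rw [Submodule.mem_comap, Submodule.mkQ_apply, (Submodule.Quotient.mk_eq_zero M).2 hw]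
        exact zero_mem _
      have hst : ∀ g : Pcg E c, ∀ w ∈ M'.comap M.mkQ,
          (π.comp (Pcg E c).subtype) g w ∈ M'.comap M.mkQ := by
        intro g w hw
        rw [Submodule.mem_comap] at hw ⊢
        exact hM' g _ hw
      rcases hMmax _ hle hst with h1 | h1
      · left
        rw [eq_bot_iff]
        intro x hx
        obtain ⟨v, rfl⟩ := M.mkQ_surjective x
        have h2 : v ∈ M'.comap M.mkQ := hx
        rw [h1] at h2
        rw [Submodule.mem_bot, Submodule.mkQ_apply, Submodule.Quotient.mk_eq_zero]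
        exact h2
      · right
        rw [eq_top_iff]
        intro x _
        obtain ⟨v, rfl⟩ := M.mkQ_surjective x
        have h2 : v ∈ M'.comap M.mkQ := by rw [h1]; trivial
        exact h2)
    (by
      obtain ⟨C, hC, hCg⟩ := countable_cosets (Krg E n r0 hr0) (krg_open r0 hr0)
      refine ⟨(fun g => M.mkQ (π g v0)) '' C, hC.image _, ?_⟩
      have h1 : Submodule.span ℂ ((fun g => π g v0) '' C) = ⊤ := by
        refine orbit_top π hirr v0 hv0 _ fun g => ?_
        obtain ⟨x, hx, hxg⟩ := hCg g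
        have e1 : π g v0 = π x v0 := by
          have h2 : π g v0 = π x (π (x⁻¹ * g) v0) := by
            rw [← Module.End.mul_apply, ← map_mul, mul_inv_cancel_left]
          rw [h2, hfix0 _ hxg]
        rw [e1]
        exact Submodule.subset_span ⟨x, hx, rfl⟩
      have h2 : (fun g => M.mkQ (π g v0)) '' C = M.mkQ '' ((fun g => π g v0) '' C) := by
        rw [Set.image_image]
      rw [h2, ← Submodule.map_span, h1, Submodule.map_top, Submodule.range_mkQ])
    (by
      intro i j hij hcij
      have h1 := hcusp i j hij hcij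
      rw [eq_top_iff, ← Submodule.range_mkQ M, ← Submodule.map_top, ← h1]
      unfold jacM
      rw [Submodule.map_span, Submodule.span_le]
      rintro _ ⟨_, ⟨u, hu, w, rfl⟩, rfl⟩
      refine Submodule.subset_span ⟨⟨u, refc_le c hc i hu⟩, hu, M.mkQ w, ?_⟩
      rw [hσmk, map_sub])
    r hr
  -- the injection
  obtain ⟨S, hS, hk⟩ := k0_fin r hr (K0g E n) le_rfl
  set VK : Submodule ℂ P := fixS π (Krg E n r hr : Set (GL (Fin n) E)) with hVK
  have hmem : ∀ s ∈ K0g E n, ∀ v ∈ VK, M.mkQ (π s v) ∈ N := by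
    intro s hs v hv
    refine hN _ fun k hk1 _ => ?_
    rw [hσmk]
    congr 1
    have h1 := krg_normal r hr s⁻¹ k.1 (inv_mem hs) hk1
    have h2 := hv _ h1
    have h3 : π k.1 (π s v) = π s (π (s⁻¹ * k.1 * s⁻¹⁻¹) v) := by
      rw [← Module.End.mul_apply, ← Module.End.mul_apply, ← map_mul, ← map_mul, inv_inv]
      congr 2
      group
    rw [h3, h2]
  let Φ : VK →ₗ[ℂ] ({s // s ∈ S} → N) := LinearMap.pi fun s =>
    LinearMap.codRestrict N (M.mkQ ∘ₗ (π s.1) ∘ₗ VK.subtype)
      (fun v => hmem s.1 (hS s.1 s.2) v.1 v.2)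
  have hΦ : Function.Injective Φ := by
    rw [← LinearMap.ker_eq_bot, LinearMap.ker_eq_bot']
    intro v hv
    have h1 : ∀ s ∈ S, M.mkQ (π s v.1) = 0 := by
      intro s hs
      have := congrFun hv ⟨s, hs⟩
      exact congrArg Subtype.val this
    have h2 : ∀ k ∈ K0g E n, M.mkQ (π k v.1) = 0 := by
      intro k hk'
      obtain ⟨s, hs, hsk⟩ := hk k hk'
      have e1 : π k v.1 = π s v.1 := by
        have h2 : π k v.1 = π s (π (s⁻¹ * k) v.1) := by
          rw [← Module.End.mul_apply, ← map_mul, mul_inv_cancel_left]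
        rw [h2, v.2 _ hsk]
      rw [e1]
      exact h1 s hs
    have h3 : ∀ g, M.mkQ (π g v.1) = 0 := by
      intro g
      obtain ⟨p, hp, k, hk', rfl⟩ := iwasawa c hc g
      rw [map_mul, Module.End.mul_apply]
      have h4 := hσmk ⟨p, hp⟩ (π k v.1)
      rw [h2 k hk', map_zero] at h4
      exact h4.symm
    by_contra hv0'
    have hv0'' : v.1 ≠ 0 := fun e => hv0' (Subtype.ext e)
    apply hMtop
    refine orbit_top π hirr v.1 hv0'' M fun g => ?_
    have := h3 g
    rwa [Submodule.mkQ_apply, Submodule.Quotient.mk_eq_zero] at this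
  haveI := hNfin
  exact Module.Finite.of_injective Φ hΦ

end Main

theorem adm_GL {E : Type*} [NontriviallyNormedField E] [IsUltrametricDist E] [ProperSpace E]
    {n : ℕ} {P : Type*} [AddCommGroup P] [Module ℂ P]
    (π : Matrix.GeneralLinearGroup (Fin n) E →* Module.End ℂ P) (hπ : IrrSm π) : IrrAdm π := by
  refine ⟨hπ.smooth, hπ.nontriv, hπ.irr, fun K hK => ?_⟩
  obtain ⟨r, hr, hsub⟩ := krg_basis (K : Set (Matrix.GeneralLinearGroup (Fin n) E)) hK
    (one_mem K)
  exact ⟨fixS π (Krg E n r hr : Set (Matrix.GeneralLinearGroup (Fin n) E)), adm_core π hπ.smooth hπ.nontriv hπ.irr r hr,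
    fun w hw k hk => hw k (hsub hk)⟩

/-- the isomorphism of `GL_n(E)` with `GL(V)` given by a basis -/
private def gvMap {E : Type*} [NontriviallyNormedField E] {V : Type*} [AddCommGroup V]
    [Module E V] {n : ℕ} (b : Module.Basis (Fin n) E V) :
    Matrix.GeneralLinearGroup (Fin n) E →* GV E V :=
  Units.map ((Matrix.toLinAlgEquiv b : Matrix (Fin n) (Fin n) E →* Module.End E V))

private theorem gvMap_surj {E : Type*} [NontriviallyNormedField E] {V : Type*} [AddCommGroup V]
    [Module E V] {n : ℕ} (b : Module.Basis (Fin n) E V) : Function.Surjective (gvMap b) := by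
  intro g
  refine ⟨Units.map ((Matrix.toLinAlgEquiv b).symm : Module.End E V →* Matrix (Fin n) (Fin n) E)
    g, ?_⟩
  apply Units.ext
  exact (Matrix.toLinAlgEquiv b).apply_symm_apply g.1

private theorem gvMap_cont {E : Type*} [NontriviallyNormedField E]
    {V : Type*} [AddCommGroup V] [Module E V] [TopologicalSpace V] [IsTopologicalAddGroup V]
    [ContinuousSMul E V] {n : ℕ} (b : Module.Basis (Fin n) E V) : Continuous (gvMap b) := by
  have key : Continuous fun A : Matrix (Fin n) (Fin n) E => (Matrix.toLinAlgEquiv b A :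
      Module.End E V) := by
    rw [continuous_induced_rng]
    refine continuous_pi fun v => ?_
    have h1 : ((fun f : Module.End E V => (f : V → V)) ∘
        fun A : Matrix (Fin n) (Fin n) E => (Matrix.toLinAlgEquiv b A : Module.End E V)) =
        fun A v => Matrix.toLinAlgEquiv b A v := rfl
    rw [h1]
    have h2 : (fun A : Matrix (Fin n) (Fin n) E => Matrix.toLinAlgEquiv b A v) =
        fun A => ∑ j, (A.mulVec (b.repr v)) j • b j := by
      funext A
      exact Matrix.toLinAlgEquiv_apply b A v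
    rw [h2]
    refine continuous_finsetSum _ fun j _ => Continuous.smul ?_ continuous_const
    exact (continuous_apply j).comp (Continuous.matrix_mulVec continuous_id continuous_const)
  rw [Units.continuous_iff]
  exact ⟨key.comp Units.continuous_val, key.comp Units.continuous_coe_inv⟩

theorem adm_GV {E : Type*} [NontriviallyNormedField E] [IsUltrametricDist E] [ProperSpace E]
    {V : Type*} [AddCommGroup V] [Module E V] [Module.Finite E V] [TopologicalSpace V]
    [IsTopologicalAddGroup V] [T2Space V] [ContinuousSMul E V]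
    {P : Type*} [AddCommGroup P] [Module ℂ P]
    (π : GV E V →* Module.End ℂ P) (hπ : IrrSm π) : IrrAdm π := by
  let b := Module.finBasis E V
  have h1 : IrrSm (π.comp (gvMap b)) := by
    refine ⟨fun w => ?_, hπ.nontriv, fun N hN => ?_⟩
    · obtain ⟨U, hU, h1, h⟩ := hπ.smooth w
      refine ⟨gvMap b ⁻¹' U, hU.preimage (gvMap_cont b), ?_, fun g hg => h _ hg⟩
      rw [Set.mem_preimage, map_one]
      exact h1
    · refine hπ.irr N fun g w hw => ?_
      obtain ⟨g', rfl⟩ := gvMap_surj b g
      exact hN g' w hw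
  have h2 := adm_GL (π.comp (gvMap b)) h1
  refine ⟨hπ.smooth, hπ.nontriv, hπ.irr, fun K hK => ?_⟩
  obtain ⟨N, hN1, hN2⟩ := h2.adm (K.comap (gvMap b)) (hK.preimage (gvMap_cont b))
  exact ⟨N, hN1, fun w hw => hN2 w fun k hk => hw _ hk⟩

end

end Pool.Agent.Work.MP_dd0ddf_al.C2
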