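import Pool.Agent.Work.MP_dd0ddf_al.C2.Found

/-!
# MP_dd0ddf_al (characteristic 2), module ArtNear: the equation `y + a y² = s`

`L` complete ultrametric, `‖a‖ ‖s‖ < 1`: there is `y` with `‖y‖ ≤ ‖s‖` and `y + a y ^ 2 = s`: contraction `y ↦ s - a y ^ 2` on the closed ball of
radius `‖s‖` (Lipschitz constant `‖a‖ ‖s‖`, since `y² - y'² = (y - y')(y + y')`).
-/

set_option linter.unusedSectionVars false
set_option linter.style.haveILetI false

namespace Pool.Agent.Work.MP_dd0ddf_al.C2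

noncomputable section

theorem art_near {L : Type*} [NontriviallyNormedField L] [IsUltrametricDist L] [CompleteSpace L]
    (a s : L) (h : ‖a‖ * ‖s‖ < 1) : ∃ y : L, ‖y‖ ≤ ‖s‖ ∧ y + a * y ^ 2 = s := by
  set T : L → L := fun t => s - a * t ^ 2 with hT
  set S : Set L := Metric.closedBall 0 ‖s‖ with hs
  have hmem : ∀ t : L, t ∈ S ↔ ‖t‖ ≤ ‖s‖ := by
    intro t
    rw [hs, mem_closedBall_zero_iff]
  have hmaps : Set.MapsTo T S S := by
    intro t ht
    rw [hmem] at ht ⊢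
    simp only [hT]
    have h3 : ‖s - a * t ^ 2‖ ≤ max ‖s‖ ‖a * t ^ 2‖ := by
      have := IsUltrametricDist.norm_add_le_max s (-(a * t ^ 2))
      rwa [norm_neg, ← sub_eq_add_neg] at this
    refine h3.trans (max_le le_rfl ?_)
    rw [norm_mul, norm_pow]
    have h4 : ‖t‖ ^ 2 ≤ ‖s‖ * ‖s‖ := by
      rw [sq]
      exact mul_le_mul ht ht (norm_nonneg _) (norm_nonneg _)
    calc ‖a‖ * ‖t‖ ^ 2 ≤ ‖a‖ * (‖s‖ * ‖s‖) := by gcongr
      _ = (‖a‖ * ‖s‖) * ‖s‖ := by ring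
      _ ≤ 1 * ‖s‖ := by gcongr
      _ = ‖s‖ := one_mul _
  have hK0 : 0 ≤ ‖a‖ * ‖s‖ := by positivity
  have hcon : ContractingWith (Real.toNNReal (‖a‖ * ‖s‖)) (hmaps.restrict T S S) := by
    refine ⟨by rw [← NNReal.coe_lt_coe, Real.coe_toNNReal _ hK0]; exact h, ?_⟩
    apply LipschitzWith.of_dist_le_mul
    rintro ⟨t, ht⟩ ⟨t', ht'⟩
    rw [hmem] at ht ht'
    rw [Subtype.dist_eq, Subtype.dist_eq, dist_eq_norm, dist_eq_norm]
    rw [Real.coe_toNNReal _ hK0]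
    simp only [Set.MapsTo.val_restrict_apply, hT]
    have e : (s - a * t ^ 2) - (s - a * t' ^ 2) = -(a * (t + t') * (t - t')) := by
      ring
    rw [e, norm_neg, norm_mul, norm_mul]
    have h3 : ‖t + t'‖ ≤ ‖s‖ := (IsUltrametricDist.norm_add_le_max t t').trans (max_le ht ht')
    gcongr
  have hcomp : IsComplete S := Metric.isClosed_closedBall.isComplete
  obtain ⟨t, hts, hfix, -⟩ := ContractingWith.exists_fixedPoint' hcomp hmaps hcon
    (x := 0) (by rw [hmem]; simp) (edist_ne_top _ _)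
  rw [hmem] at hts
  have hfix' : s - a * t ^ 2 = t := hfix
  exact ⟨t, hts, by linear_combination -hfix'⟩

/-- the equation `Y + a Y² = M` in a complete normed algebra, inside a closed set -/
theorem art_near_alg {K R : Type*} [NormedField K] [NormedRing R] [NormedAlgebra K R]
    [CompleteSpace R] (a : K) (M : R) (hM : 8 * (‖a‖ * ‖M‖) ≤ 1) (S : Set R) (hS : IsClosed S)
    (h0 : (0 : R) ∈ S) (hstep : ∀ Z ∈ S, M - a • (Z * Z) ∈ S) :
    ∃ Y ∈ S, Y + a • (Y * Y) = M := by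
  set T : R → R := fun t => M - a • (t * t) with hT
  set r : ℝ := 2 * ‖M‖ with hr
  have hr0 : 0 ≤ r := by positivity
  set B : Set R := Metric.closedBall 0 r ∩ S with hB
  have ha := norm_nonneg a
  have hMn := norm_nonneg M
  have hmaps : Set.MapsTo T B B := by
    rintro t ⟨ht, htS⟩
    rw [mem_closedBall_zero_iff] at ht
    refine ⟨?_, hstep t htS⟩
    rw [mem_closedBall_zero_iff]
    simp only [hT]
    have h3 : ‖M - a • (t * t)‖ ≤ ‖M‖ + ‖a • (t * t)‖ := norm_sub_le _ _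
    have h4 : ‖t * t‖ ≤ ‖t‖ * ‖t‖ := norm_mul_le _ _
    have h5 : ‖t‖ * ‖t‖ ≤ r * r := mul_le_mul ht ht (norm_nonneg _) hr0
    rw [norm_smul] at h3
    have h6 : ‖a‖ * ‖t * t‖ ≤ ‖a‖ * (r * r) := mul_le_mul_of_nonneg_left (h4.trans h5) ha
    have h7 : ‖a‖ * (r * r) ≤ ‖M‖ := by
      have e : ‖a‖ * (r * r) = (4 * (‖a‖ * ‖M‖)) * ‖M‖ := by rw [hr]; ring
      rw [e]
      nlinarith
    linarith
  have hcon : ContractingWith (Real.toNNReal (1 / 2)) (hmaps.restrict T B B) := by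
    refine ⟨by
      rw [← NNReal.coe_lt_coe, Real.coe_toNNReal _ (by norm_num)]
      norm_num, ?_⟩
    apply LipschitzWith.of_dist_le_mul
    rintro ⟨t, ht, htS⟩ ⟨t', ht', htS'⟩
    rw [mem_closedBall_zero_iff] at ht ht'
    rw [Subtype.dist_eq, Subtype.dist_eq, dist_eq_norm, dist_eq_norm]
    rw [Real.coe_toNNReal _ (by norm_num)]
    simp only [Set.MapsTo.val_restrict_apply, hT]
    have e : (M - a • (t * t)) - (M - a • (t' * t')) = a • (t * (t' - t) + (t' - t) * t') := by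
      rw [sub_sub_sub_cancel_left, ← smul_sub]
      congr 1
      noncomm_ring
    rw [e, norm_smul]
    have h3 : ‖t * (t' - t) + (t' - t) * t'‖ ≤ ‖t‖ * ‖t' - t‖ + ‖t' - t‖ * ‖t'‖ :=
      (norm_add_le _ _).trans (add_le_add (norm_mul_le _ _) (norm_mul_le _ _))
    have h4 : ‖t' - t‖ = ‖t - t'‖ := norm_sub_rev _ _
    rw [h4] at h3
    have h5 : ‖t‖ * ‖t - t'‖ ≤ r * ‖t - t'‖ := mul_le_mul_of_nonneg_right ht (norm_nonneg _)
    have h6 : ‖t - t'‖ * ‖t'‖ ≤ ‖t - t'‖ * r := mul_le_mul_of_nonneg_left ht' (norm_nonneg _)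
    have h7 : ‖a‖ * ‖t * (t' - t) + (t' - t) * t'‖ ≤ ‖a‖ * (2 * r * ‖t - t'‖) :=
      mul_le_mul_of_nonneg_left (by linarith) ha
    refine h7.trans ?_
    have e2 : ‖a‖ * (2 * r * ‖t - t'‖) = (4 * (‖a‖ * ‖M‖)) * ‖t - t'‖ := by rw [hr]; ring
    rw [e2]
    exact mul_le_mul_of_nonneg_right (by linarith) (norm_nonneg _)
  have hcomp : IsComplete B := (Metric.isClosed_closedBall.inter hS).isComplete
  obtain ⟨y, hyB, hfix, -⟩ := ContractingWith.exists_fixedPoint' hcomp hmaps hcon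
    (x := 0) ⟨by rw [mem_closedBall_zero_iff, norm_zero]; exact hr0, h0⟩
    (edist_ne_top _ _)
  have hfix' : M - a • (y * y) = y := hfix
  refine ⟨y, hyB.2, ?_⟩
  conv_rhs => rw [← sub_add_cancel M (a • (y * y)), hfix']

end

end Pool.Agent.Work.MP_dd0ddf_al.C2
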