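import Pool.Agent.Work.MP_dd0ddf_al.C2.FourDefs
import Pool.Agent.Work.MP_dd0ddf_al.C2.FourSpan

/-!
# MP_dd0ddf_al, module BiAux: nondegenerate bilinear forms over an ultrametric field give bicharacters

Auxiliary file for `BiOm` and `SFormDefs`.
-/

set_option linter.unusedSectionVars false
set_option linter.style.haveILetI false

namespace Pool.Agent.Work.MP_dd0ddf_al.C2

noncomputable section

variable {F : Type*} [NontriviallyNormedField F] [IsUltrametricDist F] [ProperSpace F]
variable {W : Type*} [AddCommGroup W] [Module F W] [Module.Finite F W] [TopologicalSpace W]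
  [IsTopologicalAddGroup W] [T2Space W] [ContinuousSMul F W]

variable (F W) in
/-- coordinates -/
def biaux_e : W ≃L[F] (Fin (Module.finrank F W) → F) :=
  (Module.finBasis F W).equivFun.toContinuousLinearEquiv

variable (F W) in
include F in
theorem biaux_lc : LocallyCompactSpace W :=
  (biaux_e F W).toHomeomorph.isClosedEmbedding.locallyCompactSpace

variable (F W) in
include F in
theorem biaux_td : TotallyDisconnectedSpace W :=
  ⟨isTotallyDisconnected_of_image (biaux_e F W).continuous.continuousOn (biaux_e F W).injective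
    (isTotallyDisconnected_of_totallyDisconnectedSpace _)⟩

/-- the ball of radius `R` in the coordinates -/
def biaux_ball (F W : Type*) [NontriviallyNormedField F] [IsUltrametricDist F] [ProperSpace F]
    [AddCommGroup W] [Module F W] [Module.Finite F W] [TopologicalSpace W]
    [IsTopologicalAddGroup W] [T2Space W] [ContinuousSMul F W] (R : ℝ) (hR : 0 ≤ R) :
    AddSubgroup W where
  carrier := {w | ‖biaux_e F W w‖ ≤ R}
  zero_mem' := by
    show ‖biaux_e F W 0‖ ≤ R
    rw [map_zero, norm_zero]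
    exact hR
  add_mem' := by
    intro a b ha hb
    show ‖biaux_e F W (a + b)‖ ≤ R
    rw [map_add]
    exact (IsUltrametricDist.norm_add_le_max _ _).trans (max_le ha hb)
  neg_mem' := by
    intro a ha
    show ‖biaux_e F W (-a)‖ ≤ R
    rw [map_neg, norm_neg]
    exact ha

theorem biaux_ball_mem {R : ℝ} (hR : 0 ≤ R) (w : W) :
    w ∈ biaux_ball F W R hR ↔ ‖biaux_e F W w‖ ≤ R := Iff.rfl

theorem biaux_ball_coe {R : ℝ} (hR : 0 ≤ R) :
    (biaux_ball F W R hR : Set W) = (biaux_e F W) ⁻¹' (Metric.closedBall 0 R) := by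
  ext w
  show ‖biaux_e F W w‖ ≤ R ↔ dist (biaux_e F W w) 0 ≤ R
  rw [dist_zero_right]

theorem biaux_ball_open {R : ℝ} (hR : 0 < R) : IsOpen (biaux_ball F W R hR.le : Set W) := by
  rw [biaux_ball_coe]
  exact (IsUltrametricDist.isOpen_closedBall _ hR.ne').preimage (biaux_e F W).continuous

theorem biaux_ball_compact {R : ℝ} (hR : 0 ≤ R) : IsCompact (biaux_ball F W R hR : Set W) := by
  rw [biaux_ball_coe]
  exact (biaux_e F W).toHomeomorph.isCompact_preimage.2 (isCompact_closedBall _ _)

variable (F W) in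
include F in
theorem biaux_uc : UnionCompact W := by
  intro K hK
  have h1 : IsCompact (biaux_e F W '' K) := hK.image (biaux_e F W).continuous
  obtain ⟨R, hR, h2⟩ := h1.isBounded.exists_pos_norm_le
  exact ⟨biaux_ball F W R hR.le, biaux_ball_open hR, biaux_ball_compact hR.le,
    fun x hx => h2 _ ⟨x, hx, rfl⟩⟩

/-- an open subgroup contains a ball -/
theorem biaux_small (L : AddSubgroup W) (hL : IsOpen (L : Set W)) :
    ∃ (R : ℝ) (hR : 0 < R), biaux_ball F W R hR.le ≤ L := by
  have h1 : IsOpen ((biaux_e F W).symm ⁻¹' (L : Set W)) :=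
    hL.preimage (biaux_e F W).symm.continuous
  obtain ⟨ε, hε, h2⟩ := Metric.isOpen_iff.1 h1 0 (by
    show (biaux_e F W).symm 0 ∈ L
    rw [map_zero]
    exact L.zero_mem)
  refine ⟨ε / 2, half_pos hε, fun w hw => ?_⟩
  have h3 : ‖biaux_e F W w‖ ≤ ε / 2 := hw
  have h4 := h2 (show biaux_e F W w ∈ Metric.ball 0 ε by
    rw [Metric.mem_ball, dist_zero_right]
    linarith)
  have h5 : (biaux_e F W).symm (biaux_e F W w) ∈ L := h4
  rwa [ContinuousLinearEquiv.symm_apply_apply] at h5

theorem biaux_ball_smul {R : ℝ} (hR : 0 ≤ R) (t : F) (ht : ‖t‖ ≤ 1) {w : W}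
    (hw : w ∈ biaux_ball F W R hR) : t • w ∈ biaux_ball F W R hR := by
  show ‖biaux_e F W (t • w)‖ ≤ R
  rw [map_smul, norm_smul]
  have h1 : ‖biaux_e F W w‖ ≤ R := hw
  calc ‖t‖ * ‖biaux_e F W w‖ ≤ 1 * R := mul_le_mul ht h1 (norm_nonneg _) zero_le_one
    _ = R := one_mul R

theorem biaux_continuous (b : W →ₗ[F] W →ₗ[F] F) : Continuous (fun q : W × W => b q.1 q.2) := by
  have h1 : (fun q : W × W => b q.1 q.2) = fun q : W × W =>
      ∑ i, biaux_e F W q.1 i * b (Module.finBasis F W i) q.2 := by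
    funext q
    have h2 : b q.1 = ∑ i, biaux_e F W q.1 i • b (Module.finBasis F W i) := by
      conv_lhs => rw [← (Module.finBasis F W).sum_equivFun q.1]
      rw [map_sum]
      refine Finset.sum_congr rfl fun i _ => ?_
      rw [map_smul]
      rfl
    rw [h2, LinearMap.sum_apply]
    rfl
  rw [h1]
  refine continuous_finsetSum _ fun i _ => ?_
  refine Continuous.mul ?_ ?_
  · exact (continuous_apply i).comp ((biaux_e F W).continuous.comp continuous_fst)
  · exact ((b (Module.finBasis F W i)).continuous_of_finiteDimensional).comp continuous_snd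

theorem biaux_perp (b : W →ₗ[F] W →ₗ[F] F) (hnd : ∀ w, (∀ v, b v w = 0) → w = 0)
    (p : PChar F) (L : AddSubgroup W) (hL : IsOpen (L : Set W)) :
    IsCompact {w | ∀ v ∈ L, p.ψ (b v w) = 1} := by
  obtain ⟨R, hR, hRL⟩ := biaux_small (F := F) L hL
  obtain ⟨x0, hx0⟩ := p.nontriv
  have hψ0 : p.ψ 0 = 1 := by
    have h := p.add 0 0
    rw [add_zero] at h
    have hn : p.ψ 0 ≠ 0 := by
      intro h0
      have := p.norm_one 0
      rw [h0, norm_zero] at this
      exact zero_ne_one this
    exact (mul_right_cancel₀ hn (by rw [one_mul]; exact h)).symm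
  have key : ∀ w, (∀ v ∈ L, p.ψ (b v w) = 1) → ∀ v ∈ biaux_ball F W R hR.le,
      ‖b v w‖ ≤ ‖x0‖ := by
    intro w hw v hv
    by_contra hlt
    push Not at hlt
    have hne : b v w ≠ 0 := by
      intro h0
      rw [h0, norm_zero] at hlt
      exact absurd (norm_nonneg x0) (not_le.2 hlt)
    have ht : ‖x0 / b v w‖ ≤ 1 := by
      rw [norm_div]
      exact (div_le_one (norm_pos_iff.2 hne)).2 hlt.le
    have h1 := hw _ (hRL (biaux_ball_smul hR.le _ ht hv))
    rw [map_smul, LinearMap.smul_apply, smul_eq_mul, div_mul_cancel₀ _ hne] at h1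
    exact hx0 h1
  -- the linear equivalence `w ↦ (b (e_i) w)_i`
  let g : W →ₗ[F] (Fin (Module.finrank F W) → F) :=
    LinearMap.pi fun i => b (Module.finBasis F W i)
  have hg : Function.Injective g := by
    rw [injective_iff_map_eq_zero]
    intro w hw
    refine hnd w fun v => ?_
    conv_lhs => rw [← (Module.finBasis F W).sum_equivFun v]
    rw [map_sum, LinearMap.sum_apply]
    refine Finset.sum_eq_zero fun i _ => ?_
    rw [map_smul, LinearMap.smul_apply, show b (Module.finBasis F W i) w = 0 from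
      congrFun hw i, smul_zero]
  let ge : W ≃ₗ[F] (Fin (Module.finrank F W) → F) :=
    LinearEquiv.ofInjectiveOfFinrankEq g hg (by simp)
  let gc : W ≃L[F] (Fin (Module.finrank F W) → F) := ge.toContinuousLinearEquiv
  obtain ⟨c, hc0, hcR⟩ := NormedField.exists_norm_lt F (r := R) hR
  have hcne : c ≠ 0 := norm_pos_iff.1 hc0
  have hball : ∀ i, c • Module.finBasis F W i ∈ biaux_ball F W R hR.le := by
    intro i
    show ‖biaux_e F W (c • Module.finBasis F W i)‖ ≤ R
    rw [map_smul, norm_smul]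
    have h1 : biaux_e F W (Module.finBasis F W i) = Pi.single i 1 := by
      show (Module.finBasis F W).equivFun (Module.finBasis F W i) = Pi.single i 1
      funext j
      rw [Module.Basis.equivFun_self]
      by_cases hij : i = j
      · subst hij
        rw [if_pos rfl, Pi.single_eq_same]
      · rw [if_neg hij, Pi.single_eq_of_ne (Ne.symm hij)]
    rw [h1]
    have h2 : ‖(Pi.single i 1 : Fin (Module.finrank F W) → F)‖ ≤ 1 := by
      rw [pi_norm_le_iff_of_nonneg zero_le_one]
      intro j
      by_cases hij : j = i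
      · subst hij
        rw [Pi.single_eq_same, norm_one]
      · rw [Pi.single_eq_of_ne hij, norm_zero]
        exact zero_le_one
    calc ‖c‖ * _ ≤ ‖c‖ * 1 := mul_le_mul_of_nonneg_left h2 (norm_nonneg c)
      _ ≤ R := by rw [mul_one]; exact hcR.le
  have hsub : {w | ∀ v ∈ L, p.ψ (b v w) = 1} ⊆ gc ⁻¹' (Metric.closedBall 0 (‖x0‖ / ‖c‖)) := by
    intro w hw
    show dist (gc w) 0 ≤ ‖x0‖ / ‖c‖
    rw [dist_zero_right, pi_norm_le_iff_of_nonneg (div_nonneg (norm_nonneg _) (norm_nonneg _))]
    intro i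
    have h1 := key w hw _ (hball i)
    rw [map_smul, LinearMap.smul_apply, norm_smul] at h1
    have h2 : ‖b (Module.finBasis F W i) w‖ ≤ ‖x0‖ / ‖c‖ := by
      rw [le_div_iff₀ hc0, mul_comm]
      exact h1
    exact h2
  refine (gc.toHomeomorph.isCompact_preimage.2 (isCompact_closedBall (0 : _) _)).of_isClosed_subset
    ?_ hsub
  have h : {w | ∀ v ∈ L, p.ψ (b v w) = 1} = ⋂ v ∈ L, {w | p.ψ (b v w) = 1} := by
    ext w
    simp
  rw [h]
  refine isClosed_biInter fun v _ => ?_
  refine isClosed_eq ?_ continuous_const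
  exact p.lc.continuous.comp ((b v).continuous_of_finiteDimensional)

theorem biaux_nd (b : W →ₗ[F] W →ₗ[F] F) (hnd : ∀ w, (∀ v, b v w = 0) → w = 0)
    (p : PChar F) (w : W) (h : ∀ v, p.ψ (b v w) = 1) : w = 0 := by
  obtain ⟨x0, hx0⟩ := p.nontriv
  refine hnd w fun v => ?_
  by_contra hne
  have h1 := h ((x0 / b v w) • v)
  rw [map_smul, LinearMap.smul_apply, smul_eq_mul, div_mul_cancel₀ _ hne] at h1
  exact hx0 h1

theorem biaux_lcc (b : W →ₗ[F] W →ₗ[F] F) (p : PChar F) :
    IsLocallyConstant (fun q : W × W => p.ψ (b q.1 q.2)) :=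
  p.lc.comp_continuous (biaux_continuous b)

end

end Pool.Agent.Work.MP_dd0ddf_al.C2
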