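import Pool.Agent.Work.MP_dd0ddf_al.C2.Found

/-!
# MP_dd0ddf_al, module FdBasis: partitions of functions in `SF X B`

Proof plan.
`exists_compact_open`: in a locally compact Hausdorff totally disconnected space every neighbourhood of `x` contains a compact
open neighbourhood of `x` (Mathlib: `loc_compact_Haus_tot_disc_of_zero_dim`: clopen sets are a basis; intersect with a compact
neighbourhood: take an open `U' ⊆ U` with compact closure and a clopen `x ∈ K ⊆ U'`).
`exists_partition`: the support of `f` is compact and open (`f` is locally constant: support = tsupport).  Every point `x` of it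
has a compact open neighbourhood `K_x` contained in `W x` and in the support.
Finitely many `K_{x_1}, ..., K_{x_N}` cover the support; put `K_i' = K_{x_i}` minus the union of the earlier ones (compact open,
pairwise disjoint).
`vanish_local`: apply `T` to the partition.  `sf_induction`: on every piece of the partition (first refine such that f is constant
on each piece: replace `W x` by the intersection of `W x` with `{y | f y = f x}`) f is `single K b`.
-/

set_option linter.unusedSectionVars false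

namespace Pool.Agent.Work.MP_dd0ddf_al.C2

noncomputable section

variable {X B : Type*} [TopologicalSpace X] [T2Space X] [LocallyCompactSpace X]
  [TotallyDisconnectedSpace X] [AddCommGroup B] [Module ℂ B]

private theorem fdBasis_supp (f : SF X B) : IsClopen (Function.support f.1) :=
  ⟨⟨by
    have h : (Function.support f.1)ᶜ = f.1 ⁻¹' {0} := by
      ext x
      simp [Function.mem_support]
    rw [h]
    exact f.2.1 _⟩, f.2.1 {0}ᶜ⟩

private theorem fdBasis_supp_compact (f : SF X B) : IsCompact (Function.support f.1) := by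
  have h1 : tsupport f.1 = Function.support f.1 := (fdBasis_supp f).isClosed.closure_eq
  rw [← h1]
  exact f.2.2

private theorem fdBasis_sum_apply {N : ℕ} (g : Fin N → SF X B) (x : X) :
    (∑ i, g i : SF X B) x = ∑ i, g i x := by
  have h1 : ((∑ i, g i : SF X B) : X → B) = ∑ i, (g i : X → B) :=
    map_sum (SF X B).subtype g Finset.univ
  change ((∑ i, g i : SF X B) : X → B) x = _
  rw [h1, Finset.sum_apply]

theorem exists_compact_open (x : X) (U : Set X) (hU : IsOpen U) (hx : x ∈ U) :
    ∃ K : Set X, IsCompact K ∧ IsOpen K ∧ x ∈ K ∧ K ⊆ U := by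
  obtain ⟨C, hC, hxC, hCU⟩ := exists_compact_subset hU hx
  obtain ⟨v, hv, hxv, hvC⟩ := (loc_compact_Haus_tot_disc_of_zero_dim (H := X)).exists_subset_of_mem_open
    hxC isOpen_interior
  have hv' : IsClopen v := hv
  have h1 : v ⊆ C := hvC.trans interior_subset
  exact ⟨v, hC.of_isClosed_subset hv'.isClosed h1, hv'.isOpen, hxv, h1.trans hCU⟩

theorem exists_partition (f : SF X B) (W : X → Set X) (hW : ∀ x, IsOpen (W x))
    (hx : ∀ x, f x ≠ 0 → x ∈ W x) :
    ∃ (N : ℕ) (K : Fin N → Set X) (hK : ∀ i, IsClopen (K i)),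
      (∀ i, IsCompact (K i)) ∧ (∀ i, ∃ x, f x ≠ 0 ∧ K i ⊆ W x) ∧
      (∀ i j, i ≠ j → Disjoint (K i) (K j)) ∧ f = ∑ i, SF.ind (K i) (hK i) f := by
  classical
  have h1 : ∀ x, f x ≠ 0 → ∃ K : Set X, IsCompact K ∧ IsOpen K ∧ x ∈ K ∧ K ⊆ W x :=
    fun x hfx => exists_compact_open x (W x) (hW x) (hx x hfx)
  choose! C hC1 hC2 hC3 hC4 using h1
  have hS := fdBasis_supp_compact f
  obtain ⟨t, ht2⟩ := hS.elim_nhds_subcover' (fun x hxS => C x)
    (fun x hxS => (hC2 x hxS).mem_nhds (hC3 x hxS))
  -- enumerate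
  let e : Fin t.card ≃ t := t.equivFin.symm
  have hne : ∀ i : Fin t.card, f ((e i : _) : Function.support f.1).1 ≠ 0 := fun i =>
    ((e i : _) : Function.support f.1).2
  let D : Fin t.card → Set X := fun i => C ((e i : _) : Function.support f.1).1
  have hDc : ∀ i, IsCompact (D i) := fun i => hC1 _ (hne i)
  have hDo : ∀ i, IsClopen (D i) := fun i => ⟨(hDc i).isClosed, hC2 _ (hne i)⟩
  have hU : ∀ i, IsClopen (⋃ j ∈ (Finset.univ.filter (fun j : Fin t.card => j < i)), D j) :=
    fun i => isClopen_biUnion_finset (fun j _ => hDo j)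
  have hcov : ∀ x, f x ≠ 0 → ∃ i, x ∈ D i := by
    intro x hfx
    have h2 : x ∈ Function.support f.1 := hfx
    obtain ⟨z, hz⟩ := Set.mem_iUnion.1 (ht2 h2)
    obtain ⟨hz1, hz2⟩ := Set.mem_iUnion.1 hz
    refine ⟨e.symm ⟨z, hz1⟩, ?_⟩
    simp only [D, Equiv.apply_symm_apply]
    exact hz2
  refine ⟨t.card, fun i => D i \ ⋃ j ∈ (Finset.univ.filter (fun j : Fin t.card => j < i)), D j,
    fun i => (hDo i).diff (hU i), ?_, ?_, ?_, ?_⟩
  · intro i
    exact (hDc i).diff (hU i).isOpen
  · intro i
    exact ⟨_, hne i, Set.sdiff_subset.trans (hC4 _ (hne i))⟩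
  · intro i j hij
    rw [Set.disjoint_left]
    rintro x ⟨hx1, hx2⟩ ⟨hx3, hx4⟩
    rcases lt_or_gt_of_ne hij with h | h
    · apply hx4
      exact Set.mem_biUnion (Finset.mem_filter.2 ⟨Finset.mem_univ _, h⟩) hx1
    · apply hx2
      exact Set.mem_biUnion (Finset.mem_filter.2 ⟨Finset.mem_univ _, h⟩) hx3
  · apply SF.ext
    intro x
    rw [fdBasis_sum_apply]
    by_cases hfx : f x = 0
    · rw [hfx]
      symm
      refine Finset.sum_eq_zero (fun i _ => ?_)
      by_cases hi : x ∈ D i \ ⋃ j ∈ (Finset.univ.filter (fun j : Fin t.card => j < i)), D j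
      · rw [SF.ind_apply_mem _ _ _ _ hi, hfx]
      · rw [SF.ind_apply_not_mem _ _ _ _ hi]
    · obtain ⟨i₀, hi₀⟩ := hcov x hfx
      obtain ⟨i, hi, hmin⟩ := Finset.exists_min_image
        (Finset.univ.filter (fun j : Fin t.card => x ∈ D j)) id
        ⟨i₀, Finset.mem_filter.2 ⟨Finset.mem_univ _, hi₀⟩⟩
      have hxi : x ∈ D i := (Finset.mem_filter.1 hi).2
      have hmem : x ∈ D i \ ⋃ j ∈ (Finset.univ.filter (fun j : Fin t.card => j < i)), D j := by
        refine ⟨hxi, ?_⟩
        intro h3
        obtain ⟨j, hj⟩ := Set.mem_iUnion.1 h3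
        obtain ⟨hj1, hj2⟩ := Set.mem_iUnion.1 hj
        have h4 : j < i := (Finset.mem_filter.1 hj1).2
        have h5 := hmin j (Finset.mem_filter.2 ⟨Finset.mem_univ _, hj2⟩)
        exact absurd h4 (not_lt.2 h5)
      rw [Finset.sum_eq_single i]
      · rw [SF.ind_apply_mem _ _ _ _ hmem]
      · intro j _ hji
        rw [SF.ind_apply_not_mem]
        rintro ⟨hx3, hx4⟩
        rcases lt_or_gt_of_ne hji with h | h
        · apply hmem.2
          exact Set.mem_biUnion (Finset.mem_filter.2 ⟨Finset.mem_univ _, h⟩) hx3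
        · apply hx4
          exact Set.mem_biUnion (Finset.mem_filter.2 ⟨Finset.mem_univ _, h⟩) hxi
      · intro h3
        exact absurd (Finset.mem_univ _) h3

theorem vanish_local {M : Type*} [AddCommGroup M] [Module ℂ M] (T : SF X B →ₗ[ℂ] M) (f : SF X B)
    (h : ∀ x, f x ≠ 0 → ∃ W : Set X, IsOpen W ∧ x ∈ W ∧
      ∀ g : SF X B, (∀ y, y ∉ W → g y = 0) → T g = 0) : T f = 0 := by
  classical
  choose! W hW1 hW2 hW3 using h
  obtain ⟨N, K, hK, hK1, hK2, -, hK4⟩ := exists_partition f
    (fun x => if f x ≠ 0 then W x else Set.univ) (by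
      intro x
      by_cases hfx : f x ≠ 0
      · rw [if_pos hfx]
        exact hW1 x hfx
      · rw [if_neg hfx]
        exact isOpen_univ) (by
      intro x hfx
      rw [if_pos hfx]
      exact hW2 x hfx)
  rw [hK4, map_sum]
  refine Finset.sum_eq_zero (fun i _ => ?_)
  obtain ⟨x, hfx, hx⟩ := hK2 i
  rw [if_pos hfx] at hx
  refine hW3 x hfx _ (fun y hy => ?_)
  exact SF.ind_apply_not_mem _ _ _ _ (fun h => hy (hx h))

theorem sf_induction (P : SF X B → Prop) (h0 : P 0) (hadd : ∀ f g, P f → P g → P (f + g))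
    (h : ∀ x : X, ∃ W : Set X, IsOpen W ∧ x ∈ W ∧ ∀ (K : Set X) (hK : IsCompact K)
      (hK' : IsOpen K) (b : B), K ⊆ W → P (SF.single K hK hK' b)) (f : SF X B) : P f := by
  classical
  choose W hW1 hW2 hW3 using h
  have hlc : ∀ x, IsOpen {y | f y = f x} := fun x => f.2.1 {f x}
  obtain ⟨N, K, hK, hK1, hK2, -, hK4⟩ := exists_partition f
    (fun x => W x ∩ {y | f y = f x}) (fun x => (hW1 x).inter (hlc x))
    (fun x _ => ⟨hW2 x, rfl⟩)
  rw [hK4]
  have hsum : ∀ s : Finset (Fin N), P (∑ i ∈ s, SF.ind (K i) (hK i) f) := by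
    intro s
    induction s using Finset.induction_on with
    | empty =>
      rw [Finset.sum_empty]
      exact h0
    | insert i s hi ih =>
      rw [Finset.sum_insert hi]
      refine hadd _ _ ?_ ih
      obtain ⟨x, -, hx⟩ := hK2 i
      have h1 : SF.ind (K i) (hK i) f = SF.single (K i) (hK1 i) (hK i).isOpen (f x) := by
        apply SF.ext
        intro y
        by_cases hy : y ∈ K i
        · rw [SF.ind_apply_mem _ _ _ _ hy, SF.single_apply_mem _ _ _ _ _ hy]
          exact (hx hy).2
        · rw [SF.ind_apply_not_mem _ _ _ _ hy, SF.single_apply_not_mem _ _ _ _ _ hy]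
      rw [h1]
      exact hW3 x (K i) (hK1 i) (hK i).isOpen (f x) (fun y hy => (hx hy).1)
  exact hsum Finset.univ

end

end Pool.Agent.Work.MP_dd0ddf_al.C2
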