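import Pool.Agent.Work.MP_dd0ddf_al.C2.GDefs
import Pool.Agent.Work.MP_dd0ddf_al.C2.FdBasis

/-!
# MP_dd0ddf_al, module HaarU: an invariant functional on SF (U(V))

Mathlib Haar measure on the locally compact group `UU B` (borel sigma algebra), `I f = ∫ f`.  Right invariance: the modular character (`MeasureTheory.Measure.modularCharacterFun` or: `I(f(· a)) = Δ(a) I(f)` by uniqueness of the Haar measure) is a positive character, locally trivial (Δ = 1 on a compact open subgroup K:
apply to 1_K), so trivial by `noPos`.  `f ↦ I (f ∘ inv)` and `f ↦ I (f ∘ φ)` are left invariant (for inv: because I is right invariant) and positive, so positive multiples of `I` (uniqueness of the Haar measure; or elementary as in HaarApi.hI_unique).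
-/

set_option linter.unusedSectionVars false
set_option linter.style.haveILetI false

namespace Pool.Agent.Work.MP_dd0ddf_al.C2

noncomputable section

universe u

open MeasureTheory MeasureTheory.Measure

section HaarGen

variable {G : Type*} [Group G] [TopologicalSpace G] [IsTopologicalGroup G]
  [LocallyCompactSpace G] [T2Space G] [SecondCountableTopology G] [TotallyDisconnectedSpace G]
  [MeasurableSpace G] [BorelSpace G]

/-- integration against a measure -/
private def haarU_int (μ : Measure G) [IsFiniteMeasureOnCompacts μ] : SF G ℂ →ₗ[ℂ] ℂ where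
  toFun f := ∫ x, f x ∂μ
  map_add' f g := integral_add (SF.integrable μ f) (SF.integrable μ g)
  map_smul' c f := integral_const_mul c _

private theorem haarU_int_apply (μ : Measure G) [IsFiniteMeasureOnCompacts μ] (f : SF G ℂ) :
    haarU_int μ f = ∫ x, f x ∂μ := rfl

private theorem haarU_single (μ : Measure G) [IsHaarMeasure μ]
    (K : Set G) (hK : IsCompact K) (hK' : IsOpen K) (hne : K.Nonempty) :
    ∃ r : ℝ, 0 < r ∧ haarU_int μ (SF.single K hK hK' 1) = r := by
  classical
  refine ⟨μ.real K, ?_, ?_⟩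
  · exact ENNReal.toReal_pos (hK'.measure_pos μ hne).ne' hK.measure_lt_top.ne
  · rw [haarU_int_apply]
    have h1 : (fun x => (SF.single K hK hK' (1 : ℂ)) x) = K.indicator (fun _ => (1 : ℂ)) := by
      funext x
      by_cases hx : x ∈ K
      · rw [SF.single_apply_mem K hK hK' 1 x hx, Set.indicator_of_mem hx]
      · rw [SF.single_apply_not_mem K hK hK' 1 x hx, Set.indicator_of_notMem hx]
    rw [h1, integral_indicator hK'.measurableSet, setIntegral_const]
    simp

private theorem haarU_scale (μ ν : Measure G) [IsHaarMeasure μ] [IsFiniteMeasureOnCompacts ν]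
    [IsMulLeftInvariant ν] : ∃ d : ℝ, 0 ≤ d ∧ ∀ f : SF G ℂ, ∫ x, f x ∂ν = d * ∫ x, f x ∂μ := by
  refine ⟨haarScalarFactor ν μ, NNReal.coe_nonneg _, fun f => ?_⟩
  conv_lhs => rw [isMulLeftInvariant_eq_smul ν μ]
  rw [integral_smul_nnreal_measure]
  rw [NNReal.smul_def, Complex.real_smul]

private theorem haarU_homeo (μ : Measure G) [IsHaarMeasure μ] (ψ : G ≃ₜ G)
    (h : IsMulLeftInvariant (map ψ μ)) :
    ∃ d : ℝ, 0 < d ∧ ∀ f : SF G ℂ, haarU_int μ (SF.comp ψ f) = d * haarU_int μ f := by
  haveI := IsFiniteMeasureOnCompacts.map μ ψ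
  obtain ⟨d, hd, h1⟩ := haarU_scale μ (map ψ μ)
  have h2 : ∀ f : SF G ℂ, haarU_int μ (SF.comp ψ f) = d * haarU_int μ f := by
    intro f
    rw [haarU_int_apply, haarU_int_apply, ← h1 f]
    symm
    exact integral_map_equiv ψ.toMeasurableEquiv f.1
  refine ⟨d, lt_of_le_of_ne hd fun h0 => ?_, h2⟩
  obtain ⟨K, hK, hK', h1K, -⟩ := exists_compact_open (1 : G) Set.univ isOpen_univ trivial
  obtain ⟨r, hr, h3⟩ := haarU_single μ (ψ ⁻¹' K) (ψ.isCompact_preimage.mpr hK)
    (hK'.preimage ψ.continuous) ⟨ψ.symm 1, by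
      show ψ (ψ.symm 1) ∈ K
      rwa [ψ.apply_symm_apply]⟩
  have h4 : SF.comp ψ (SF.single K hK hK' (1 : ℂ)) =
      SF.single (ψ ⁻¹' K) (ψ.isCompact_preimage.mpr hK) (hK'.preimage ψ.continuous) 1 := by
    apply SF.ext
    intro x
    by_cases hx : ψ x ∈ K
    · rw [SF.comp_apply, SF.single_apply_mem K hK hK' 1 _ hx,
        SF.single_apply_mem (ψ ⁻¹' K) _ _ 1 x hx]
    · rw [SF.comp_apply, SF.single_apply_not_mem K hK hK' 1 _ hx,
        SF.single_apply_not_mem (ψ ⁻¹' K) _ _ 1 x hx]
  have h5 := h2 (SF.single K hK hK' 1)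
  rw [h4, h3, ← h0] at h5
  rw [Complex.ofReal_zero, zero_mul] at h5
  exact hr.ne' (by exact_mod_cast h5)

private theorem haarU_gen (hG : ∀ (δ : PosChar G) (g : G), δ.δ g = 1) :
    ∃ I : SF G ℂ →ₗ[ℂ] ℂ,
    (∀ a f, I (SF.comp (Homeomorph.mulLeft a) f) = I f) ∧
    (∀ a f, I (SF.comp (Homeomorph.mulRight a) f) = I f) ∧
    (∀ (K : Set G) (hK : IsCompact K) (hK' : IsOpen K), K.Nonempty →
      ∃ r : ℝ, 0 < r ∧ I (SF.single K hK hK' 1) = r) ∧
    (∃ d : ℝ, 0 < d ∧ ∀ f, I (SF.comp (Homeomorph.inv G) f) = d * I f) ∧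
    ∀ φ : G ≃ₜ G, (∀ a b, φ (a * b) = φ a * φ b) →
      ∃ d : ℝ, 0 < d ∧ ∀ f, I (SF.comp φ f) = d * I f := by
  let μ : Measure G := haar
  -- right translation
  have hmap : ∀ a : G, map (· * a) μ = modularCharacterFun a • μ :=
    fun a => map_right_mul_eq_modularCharacterFun_smul μ a
  have hr0 : ∀ (a : G) (f : SF G ℂ), haarU_int μ (SF.comp (Homeomorph.mulRight a) f) =
      ((modularCharacterFun a : NNReal) : ℝ) * haarU_int μ f := by
    intro a f
    rw [haarU_int_apply, haarU_int_apply]
    have h1 : ∫ x, f x ∂(map (· * a) μ) = ∫ x, (SF.comp (Homeomorph.mulRight a) f) x ∂μ :=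
      integral_map_equiv (Homeomorph.mulRight a).toMeasurableEquiv f.1
    rw [← h1, hmap a, integral_smul_nnreal_measure, NNReal.smul_def, Complex.real_smul]
  let δ : PosChar G :=
    { δ := fun a => ((modularCharacterFun a : NNReal) : ℝ)
      pos := fun a => NNReal.coe_pos.mpr (modularCharacterFun_pos a)
      mul := fun a b => by
        rw [modularCharacterFun_map_mul]
        exact NNReal.coe_mul _ _
      lc := by
        obtain ⟨K, hK, hK', h1K, -⟩ := exists_compact_open (1 : G) Set.univ isOpen_univ trivial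
        obtain ⟨V, hV, hKV⟩ := compact_open_separated_mul_right hK hK' subset_rfl
        refine ⟨interior (V ∩ V⁻¹), isOpen_interior, ?_, fun a ha => ?_⟩
        · rw [mem_interior_iff_mem_nhds]
          exact Filter.inter_mem hV (inv_mem_nhds_one G hV)
        · obtain ⟨ha1, ha2⟩ := interior_subset ha
          obtain ⟨r, hr, h3⟩ := haarU_single μ K hK hK' ⟨1, h1K⟩
          have h4 : SF.comp (Homeomorph.mulRight a) (SF.single K hK hK' (1 : ℂ)) =
              SF.single K hK hK' 1 := by
            apply SF.ext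
            intro x
            have h5 : x * a ∈ K ↔ x ∈ K := by
              constructor
              · intro h6
                have h7 : (x * a) * a⁻¹ ∈ K := hKV (Set.mul_mem_mul h6 (by
                  simpa using ha2))
                rwa [mul_inv_cancel_right] at h7
              · intro h6
                exact hKV (Set.mul_mem_mul h6 ha1)
            rw [SF.comp_apply]
            show SF.single K hK hK' (1 : ℂ) (x * a) = _
            by_cases hx : x ∈ K
            · rw [SF.single_apply_mem K hK hK' 1 _ (h5.mpr hx),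
                SF.single_apply_mem K hK hK' 1 x hx]
            · rw [SF.single_apply_not_mem K hK hK' 1 _ (fun h => hx (h5.mp h)),
                SF.single_apply_not_mem K hK hK' 1 x hx]
          have h6 := hr0 a (SF.single K hK hK' 1)
          rw [h4, h3] at h6
          have h7 : r = ((modularCharacterFun a : NNReal) : ℝ) * r := by exact_mod_cast h6
          have h8 : (((modularCharacterFun a : NNReal) : ℝ) - 1) * r = 0 := by
            rw [sub_mul, ← h7]; ring
          rcases mul_eq_zero.mp h8 with h9 | h9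
          · exact sub_eq_zero.mp h9
          · exact absurd h9 hr.ne' }
  have hΔ : ∀ a : G, ((modularCharacterFun a : NNReal) : ℝ) = 1 := fun a => hG δ a
  haveI hright : IsMulRightInvariant μ := ⟨fun a => by
    rw [hmap a]
    have h1 : (modularCharacterFun a : NNReal) = 1 := by
      apply NNReal.coe_injective
      rw [hΔ a]; rfl
    rw [h1, one_smul]⟩
  refine ⟨haarU_int μ, ?_, ?_, ?_, ?_, ?_⟩
  · intro a f
    rw [haarU_int_apply, haarU_int_apply]
    exact integral_mul_left_eq_self (μ := μ) f.1 a
  · intro a f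
    rw [hr0, hΔ a, Complex.ofReal_one, one_mul]
  · intro K hK hK' hne
    exact haarU_single μ K hK hK' hne
  · refine haarU_homeo μ (Homeomorph.inv G) ?_
    exact inferInstanceAs (IsMulLeftInvariant μ.inv)
  · intro φ hφ
    refine haarU_homeo μ φ ?_
    let φ' : G →* G := { toFun := φ, map_one' := by
                          have h1 := hφ 1 1
                          rw [mul_one] at h1
                          exact (left_eq_mul.mp h1), map_mul' := hφ }
    exact isMulLeftInvariant_map φ'.toMulHom φ.continuous.measurable φ.surjective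

end HaarGen

variable {F E : Type u} [NontriviallyNormedField F] [IsUltrametricDist F] [ProperSpace F]
  [CharP F 2] [NontriviallyNormedField E] [NormedAlgebra F E] [ProperSpace E] [StarRing E]
  [QExt F E]
variable {V : Type u} [AddCommGroup V] [Module E V] [Module.Finite E V] [TopologicalSpace V]
  [IsTopologicalAddGroup V] [T2Space V] [ContinuousSMul E V]

variable (F) in
include F in
theorem exists_haarU (B : SkewH E V) : ∃ I : SF (UU B) ℂ →ₗ[ℂ] ℂ,
    (∀ a f, I (SF.comp (Homeomorph.mulLeft a) f) = I f) ∧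
    (∀ a f, I (SF.comp (Homeomorph.mulRight a) f) = I f) ∧
    (∀ (K : Set (UU B)) (hK : IsCompact K) (hK' : IsOpen K), K.Nonempty →
      ∃ r : ℝ, 0 < r ∧ I (SF.single K hK hK' 1) = r) ∧
    (∃ d : ℝ, 0 < d ∧ ∀ f, I (SF.comp (Homeomorph.inv (UU B)) f) = d * I f) ∧
    ∀ φ : UU B ≃ₜ UU B, (∀ a b, φ (a * b) = φ a * φ b) →
      ∃ d : ℝ, 0 < d ∧ ∀ f, I (SF.comp φ f) = d * I f := by
  haveI := lc_UU F B
  haveI := td_UU F B
  letI : MeasurableSpace (UU B) := borel _
  haveI : BorelSpace (UU B) := ⟨rfl⟩
  exact haarU_gen (fun δ g => noPos F B δ g)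

end

end Pool.Agent.Work.MP_dd0ddf_al.C2
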