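import Pool.Agent.Work.MP_dd0ddf_al.C2.IndI
import Pool.Agent.Work.MP_dd0ddf_al.C2.HaarU

/-!
# MP_dd0ddf_al (characteristic 2), module BiHaarT: bi-invariant functionals on UU B, on products, transport

`biHaar_UU`: exists_haarU.  `biHaar_prod`: `J := I ∘ SF.map I' ∘ SF.curry` (SFCurry).  left, right, inv: pointwise.  pos: for K compact open nonempty, `g := SF.map I' (SF.curry 1_K) : SF Γ ℂ` has values `I'(1_{K_x})`, which are 0 (K_x empty) or a positive real (pos for I');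
g is locally constant with compact support, so a finite sum `Σ r_i 1_{K_i}` with r_i > 0 real, K_i compact open nonempty (its level sets for the nonzero values; finitely many values by compactness), not empty; so I g > 0.
`biHaar_transport`: `e : Γ' ≃ₜ Γ` multiplicative; `f ↦ I (f ∘ e.symm)`.
-/

set_option linter.unusedSectionVars false
set_option linter.style.haveILetI false

namespace Pool.Agent.Work.MP_dd0ddf_al.C2

noncomputable section

universe u

section

variable {F E : Type u} [NontriviallyNormedField F] [IsUltrametricDist F] [ProperSpace F]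
  [CharP F 2] [NontriviallyNormedField E] [NormedAlgebra F E] [ProperSpace E] [StarRing E]
  [QExt F E]
variable {V : Type u} [AddCommGroup V] [Module E V] [Module.Finite E V] [TopologicalSpace V]
  [IsTopologicalAddGroup V] [T2Space V] [ContinuousSMul E V]

variable (F) in
include F in
theorem biHaar_UU (B : SkewH E V) : ∃ I : SF (UU B) ℂ →ₗ[ℂ] ℂ, BiHaar I := by
  obtain ⟨I, h1, h2, h3, h4, -⟩ := exists_haarU F B
  exact ⟨I, h1, h2, h3, h4⟩

end

section lev

private theorem biht_range {X B : Type*} [TopologicalSpace X] [AddCommGroup B] [Module ℂ B]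
    (f : SF X B) : Set.Finite (Set.range f.1) := by
  letI : TopologicalSpace B := ⊥
  haveI : DiscreteTopology B := ⟨rfl⟩
  have h4 : Continuous f.1 := f.2.1.continuous
  have h3 : Set.Finite (f.1 '' tsupport f.1) :=
    (f.2.2.image_of_continuousOn h4.continuousOn).finite_of_discrete
  refine (h3.union (Set.finite_singleton 0)).subset ?_
  rintro _ ⟨x, rfl⟩
  by_cases hx : x ∈ tsupport f.1
  · exact Or.inl ⟨x, hx, rfl⟩
  · exact Or.inr (image_eq_zero_of_notMem_tsupport hx)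

private theorem biht_sum {X ι : Type*} [TopologicalSpace X] (T : Finset ι) (h : ι → SF X ℂ) (x : X) :
    (∑ b ∈ T, h b).1 x = ∑ b ∈ T, (h b).1 x := by
  classical
  induction T using Finset.induction_on with
  | empty => rfl
  | insert a T ha ih =>
    rw [Finset.sum_insert ha, Finset.sum_insert ha, ← ih]
    rfl

private theorem biht_lev {X : Type*} [TopologicalSpace X] [T2Space X] (I : SF X ℂ →ₗ[ℂ] ℂ)
    (hpos : ∀ (K : Set X) (hK : IsCompact K) (hK' : IsOpen K), K.Nonempty →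
      ∃ r : ℝ, 0 < r ∧ I (SF.single K hK hK' 1) = r)
    (g : SF X ℂ) (b : ℂ) (hb : b ≠ 0) (r : ℝ) (hr : 0 < r) (hbr : b = r) (hx : ∃ x, g x = b) :
    ∃ h : SF X ℂ, (∀ x, g x = b → h x = b) ∧ (∀ x, g x ≠ b → h x = 0) ∧
      ∃ r : ℝ, 0 < r ∧ I h = r := by
  have hKo : IsOpen (g.1 ⁻¹' {b}) := g.2.1 {b}
  have hKcl : IsClosed (g.1 ⁻¹' {b}) := ⟨by
    rw [← Set.preimage_compl]
    exact g.2.1 _⟩
  have hKc : IsCompact (g.1 ⁻¹' {b}) := by
    refine g.2.2.isCompact.of_isClosed_subset hKcl ?_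
    intro x hx
    apply subset_tsupport
    show g.1 x ≠ 0
    rw [show g.1 x = b from hx]
    exact hb
  obtain ⟨r', hr', hI⟩ := hpos _ hKc hKo hx
  refine ⟨b • SF.single _ hKc hKo 1, ?_, ?_, r * r', mul_pos hr hr', ?_⟩
  · intro x hx
    have hx' : x ∈ g.1 ⁻¹' {b} := hx
    show b * SF.single _ hKc hKo (1 : ℂ) x = b
    rw [SF.single_apply_mem _ _ _ _ _ hx', mul_one]
  · intro x hx
    have hx' : x ∉ g.1 ⁻¹' {b} := hx
    show b * SF.single _ hKc hKo (1 : ℂ) x = 0
    rw [SF.single_apply_not_mem _ _ _ _ _ hx', mul_zero]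
  · rw [map_smul, hI, hbr, smul_eq_mul]
    push_cast
    rfl

private theorem biht_pos {X : Type*} [TopologicalSpace X] [T2Space X] (I : SF X ℂ →ₗ[ℂ] ℂ)
    (hpos : ∀ (K : Set X) (hK : IsCompact K) (hK' : IsOpen K), K.Nonempty →
      ∃ r : ℝ, 0 < r ∧ I (SF.single K hK hK' 1) = r)
    (g : SF X ℂ) (hg : ∀ x, ∃ r : ℝ, 0 ≤ r ∧ g x = r) (x0 : X) (hx0 : g x0 ≠ 0) :
    ∃ r : ℝ, 0 < r ∧ I g = r := by
  classical
  have hfin := biht_range g
  have hT : ∀ b, b ∈ hfin.toFinset.erase 0 ↔ b ≠ 0 ∧ ∃ x, g x = b := by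
    intro b
    rw [Finset.mem_erase, Set.Finite.mem_toFinset]
    rfl
  have key : ∀ b : ℂ, ∃ h : SF X ℂ, b ∈ hfin.toFinset.erase 0 → (∀ x, g x = b → h x = b) ∧
      (∀ x, g x ≠ b → h x = 0) ∧ ∃ r : ℝ, 0 < r ∧ I h = r := by
    intro b
    by_cases hb : b ∈ hfin.toFinset.erase 0
    · obtain ⟨hb0, x, hx⟩ := (hT b).1 hb
      obtain ⟨r, hr, hr'⟩ := hg x
      rw [hx] at hr'
      have hr0 : 0 < r := lt_of_le_of_ne hr fun h0 => hb0 (by rw [hr', ← h0, Complex.ofReal_zero])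
      obtain ⟨h, h1⟩ := biht_lev I hpos g b hb0 r hr0 hr' ⟨x, hx⟩
      exact ⟨h, fun _ => h1⟩
    · exact ⟨0, fun h => absurd h hb⟩
  choose h hh using key
  have hsum : g = ∑ b ∈ hfin.toFinset.erase 0, h b := by
    apply SF.ext
    intro x
    rw [biht_sum]
    by_cases hx : g x = 0
    · rw [hx]
      symm
      apply Finset.sum_eq_zero
      intro b hb
      exact (hh b hb).2.1 x fun h0 => ((hT b).1 hb).1 (by rw [← h0, hx])
    · have hgx : g x ∈ hfin.toFinset.erase 0 := (hT _).2 ⟨hx, x, rfl⟩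
      rw [Finset.sum_eq_single (g x)]
      · exact ((hh _ hgx).1 x rfl).symm
      · intro b hb hne
        exact (hh b hb).2.1 x fun h0 => hne h0.symm
      · intro h0
        exact absurd hgx h0
  have key2 : ∀ b : ℂ, ∃ r : ℝ, b ∈ hfin.toFinset.erase 0 → 0 < r ∧ I (h b) = r := by
    intro b
    by_cases hb : b ∈ hfin.toFinset.erase 0
    · obtain ⟨r, hr⟩ := (hh b hb).2.2
      exact ⟨r, fun _ => hr⟩
    · exact ⟨0, fun h => absurd h hb⟩
  choose r hr using key2
  refine ⟨∑ b ∈ hfin.toFinset.erase 0, r b, ?_, ?_⟩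
  · exact Finset.sum_pos (fun b hb => (hr b hb).1) ⟨g x0, (hT _).2 ⟨hx0, x0, rfl⟩⟩
  · conv_lhs => rw [hsum]
    rw [map_sum, Complex.ofReal_sum]
    exact Finset.sum_congr rfl fun b hb => (hr b hb).2

end lev

variable {Γ Γ' : Type*} [Group Γ] [TopologicalSpace Γ] [IsTopologicalGroup Γ] [T2Space Γ]
  [LocallyCompactSpace Γ] [TotallyDisconnectedSpace Γ]
  [Group Γ'] [TopologicalSpace Γ'] [IsTopologicalGroup Γ'] [T2Space Γ']
  [LocallyCompactSpace Γ'] [TotallyDisconnectedSpace Γ']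

theorem biHaar_prod (I : SF Γ ℂ →ₗ[ℂ] ℂ) (hI : BiHaar I) (I' : SF Γ' ℂ →ₗ[ℂ] ℂ)
    (hI' : BiHaar I') : ∃ J : SF (Γ × Γ') ℂ →ₗ[ℂ] ℂ, BiHaar J := by
  refine ⟨I ∘ₗ SF.map I' ∘ₗ SF.curry, ⟨?_, ?_, ?_, ?_⟩⟩
  · intro a f
    show I (SF.map I' (SF.curry (SF.comp (Homeomorph.mulLeft a) f))) = I (SF.map I' (SF.curry f))
    rw [← hI.left a.1 (SF.map I' (SF.curry f))]
    congr 1
    apply SF.ext
    intro x
    show I' (SF.curry (SF.comp (Homeomorph.mulLeft a) f) x) = I' (SF.curry f (a.1 * x))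
    rw [← hI'.left a.2 (SF.curry f (a.1 * x))]
    congr 1
  · intro a f
    show I (SF.map I' (SF.curry (SF.comp (Homeomorph.mulRight a) f))) = I (SF.map I' (SF.curry f))
    rw [← hI.right a.1 (SF.map I' (SF.curry f))]
    congr 1
    apply SF.ext
    intro x
    show I' (SF.curry (SF.comp (Homeomorph.mulRight a) f) x) = I' (SF.curry f (x * a.1))
    rw [← hI'.right a.2 (SF.curry f (x * a.1))]
    congr 1
  · intro K hK hK' hne
    show ∃ r : ℝ, 0 < r ∧ I (SF.map I' (SF.curry (SF.single K hK hK' 1))) = r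
    have hval : ∀ x, ((∃ y, (x, y) ∈ K) → ∃ r : ℝ, 0 < r ∧
        SF.map I' (SF.curry (SF.single K hK hK' 1)) x = r) ∧
        ((¬ ∃ y, (x, y) ∈ K) → SF.map I' (SF.curry (SF.single K hK hK' 1)) x = 0) := by
      intro x
      constructor
      · intro hx
        have hc : Topology.IsClosedEmbedding (Prod.mk x : Γ' → Γ × Γ') := by
          refine ⟨isEmbedding_prodMkRight x, ?_⟩
          have h : Set.range (Prod.mk x : Γ' → Γ × Γ') = Prod.fst ⁻¹' {x} := by
            ext ⟨a, b⟩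
            simp [eq_comm]
          rw [h]
          exact isClosed_singleton.preimage continuous_fst
        have h1 : IsCompact ((Prod.mk x : Γ' → Γ × Γ') ⁻¹' K) := hc.isCompact_preimage hK
        have h2 : IsOpen ((Prod.mk x : Γ' → Γ × Γ') ⁻¹' K) := hK'.preimage hc.continuous
        obtain ⟨r, hr, h3⟩ := hI'.pos _ h1 h2 hx
        refine ⟨r, hr, ?_⟩
        rw [← h3]
        show I' (SF.curry (SF.single K hK hK' (1 : ℂ)) x) = _
        congr 1
      · intro hx
        show I' (SF.curry (SF.single K hK hK' (1 : ℂ)) x) = 0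
        have h0 : SF.curry (SF.single K hK hK' (1 : ℂ)) x = 0 := by
          apply SF.ext
          intro y
          show SF.single K hK hK' (1 : ℂ) (x, y) = 0
          exact SF.single_apply_not_mem _ _ _ _ _ fun h => hx ⟨y, h⟩
        rw [h0, map_zero]
    obtain ⟨⟨x0, y0⟩, h0⟩ := hne
    refine biht_pos I hI.pos _ ?_ x0 ?_
    · intro x
      by_cases hx : ∃ y, (x, y) ∈ K
      · obtain ⟨r, hr, h⟩ := (hval x).1 hx
        exact ⟨r, hr.le, h⟩
      · exact ⟨0, le_rfl, by rw [(hval x).2 hx, Complex.ofReal_zero]⟩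
    · obtain ⟨r, hr, h⟩ := (hval x0).1 ⟨y0, h0⟩
      rw [h]
      exact_mod_cast hr.ne'
  · obtain ⟨d, hd, h1⟩ := hI.inv
    obtain ⟨d', hd', h2⟩ := hI'.inv
    refine ⟨d' * d, mul_pos hd' hd, fun f => ?_⟩
    show I (SF.map I' (SF.curry (SF.comp (Homeomorph.inv (Γ × Γ')) f))) =
      ((d' * d : ℝ) : ℂ) * I (SF.map I' (SF.curry f))
    have h3 : SF.map I' (SF.curry (SF.comp (Homeomorph.inv (Γ × Γ')) f)) =
        (d' : ℂ) • SF.comp (Homeomorph.inv Γ) (SF.map I' (SF.curry f)) := by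
      apply SF.ext
      intro x
      show I' (SF.curry (SF.comp (Homeomorph.inv (Γ × Γ')) f) x) =
        (d' : ℂ) * I' (SF.curry f x⁻¹)
      rw [← h2]
      congr 1
    rw [h3, map_smul, h1, smul_eq_mul]
    push_cast
    ring

theorem biHaar_transport (I : SF Γ ℂ →ₗ[ℂ] ℂ) (hI : BiHaar I) (e : Γ' ≃ₜ Γ)
    (he : ∀ a b, e (a * b) = e a * e b) : ∃ J : SF Γ' ℂ →ₗ[ℂ] ℂ, BiHaar J := by
  have hs : ∀ a b, e.symm (a * b) = e.symm a * e.symm b := by
    intro a b
    rw [e.symm_apply_eq, he, e.apply_symm_apply, e.apply_symm_apply]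
  have h1 : e.symm 1 = 1 := by
    have h := hs 1 1
    rw [one_mul] at h
    exact (mul_eq_left.1 h.symm)
  have hi : ∀ a, e.symm a⁻¹ = (e.symm a)⁻¹ := by
    intro a
    rw [eq_inv_iff_mul_eq_one, ← hs, inv_mul_cancel, h1]
  refine ⟨I ∘ₗ SF.comp e.symm, ⟨?_, ?_, ?_, ?_⟩⟩
  · intro a f
    show I (SF.comp e.symm (SF.comp (Homeomorph.mulLeft a) f)) = I (SF.comp e.symm f)
    rw [← hI.left (e a) (SF.comp e.symm f)]
    congr 1
    apply SF.ext
    intro x
    show f (a * e.symm x) = f (e.symm (e a * x))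
    rw [hs, e.symm_apply_apply]
  · intro a f
    show I (SF.comp e.symm (SF.comp (Homeomorph.mulRight a) f)) = I (SF.comp e.symm f)
    rw [← hI.right (e a) (SF.comp e.symm f)]
    congr 1
    apply SF.ext
    intro x
    show f (e.symm x * a) = f (e.symm (x * e a))
    rw [hs, e.symm_apply_apply]
  · intro K hK hK' hne
    obtain ⟨x0, hx0⟩ := hne
    obtain ⟨r, hr, h⟩ := hI.pos (e.symm ⁻¹' K) (e.symm.isCompact_preimage.2 hK)
      (hK'.preimage e.symm.continuous) ⟨e x0, by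
        show e.symm (e x0) ∈ K
        rwa [e.symm_apply_apply]⟩
    refine ⟨r, hr, ?_⟩
    rw [← h]
    show I (SF.comp e.symm (SF.single K hK hK' 1)) = _
    congr 1
  · obtain ⟨d, hd, h2⟩ := hI.inv
    refine ⟨d, hd, fun f => ?_⟩
    show I (SF.comp e.symm (SF.comp (Homeomorph.inv Γ') f)) = d * I (SF.comp e.symm f)
    rw [← h2]
    congr 1
    apply SF.ext
    intro x
    show f (e.symm x)⁻¹ = f (e.symm x⁻¹)
    rw [hi]

end

end Pool.Agent.Work.MP_dd0ddf_al.C2
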