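import Pool.Agent.Work.MP_dd0ddf_al.C2.Found

/-!
# MP_dd0ddf_al, module Topo: topology of E, V, End(V), GL(V), U(V), SA(V)

`td_E`: as an F-vector space `E` is homeomorphic to `F^2` (`FiniteDimensional` over the complete field `F`; continuous linear equivalences of
finite dimensional spaces), F is ultrametric hence totally disconnected (Mathlib instance for IsUltrametricDist); products of
totally disconnected spaces are totally disconnected.  Totally separated: locally compact + T2 + totally disconnected (Mathlib:
`totallySeparatedSpace_of...`, `compact_t2_tot_disc_iff_tot_sep` / clopen basis `loc_compact_Haus_tot_disc_of_zero_dim`).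
`V` is linearly homeomorphic to `Fin n → E` (`ContinuousLinearEquiv.ofFinrankEq`, or `LinearEquiv.toContinuousLinearEquiv` with `Module.finBasis`).
`End V`: the map `f ↦ (f (b i))_i`, `b` a basis, is a linear homeomorphism `End V ≃ V^n` (inverse continuous: `f v = ∑ (b.repr v i) f (b i)`).
`GL(V)`: units of a T2 topological ring: `Units.embedProduct` is a closed embedding into `M × Mᵐᵒᵖ` (Mathlib: `Units.isEmbedding_embedProduct`; the
range is `{(x, y) : x y = 1, y x = 1}`, closed).  `UU B` is closed in `GL(V)` (intersection of the closed conditions, `continuous_ip_left, right`), `SA B` closed in `End V`.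
-/

set_option linter.unusedSectionVars false
set_option linter.style.haveILetI false

namespace Pool.Agent.Work.MP_dd0ddf_al.C2

noncomputable section

universe u

variable {F E : Type u} [NontriviallyNormedField F] [IsUltrametricDist F] [ProperSpace F]
  [CharP F 2] [NontriviallyNormedField E] [NormedAlgebra F E] [ProperSpace E] [StarRing E]
  [QExt F E]
variable {V : Type u} [AddCommGroup V] [Module E V] [Module.Finite E V] [TopologicalSpace V]
  [IsTopologicalAddGroup V] [T2Space V] [ContinuousSMul E V]

private theorem topo_inj {X Y : Type*} [TopologicalSpace X] [TopologicalSpace Y]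
    [TotallyDisconnectedSpace Y] {f : X → Y} (hf : Continuous f) (hinj : Function.Injective f) :
    TotallyDisconnectedSpace X :=
  ⟨isTotallyDisconnected_of_image hf.continuousOn hinj
    (isTotallyDisconnected_of_totallyDisconnectedSpace _)⟩

variable (F) in
include F in
theorem td_E : TotallyDisconnectedSpace E := by
  haveI : FiniteDimensional F E := qext_findim F E
  let e := (Module.finBasis F E).equivFun
  have hc : Continuous e := e.toContinuousLinearEquiv.continuous
  exact topo_inj hc e.injective

variable (F) in
include F in
theorem ts_E : TotallySeparatedSpace E :=
  loc_compact_t2_tot_disc_iff_tot_sep.1 (td_E F)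

variable (F) in
include F in
theorem ts_seqE (ι : Type*) : TotallySeparatedSpace (ι → E) := by
  rw [totallySeparatedSpace_iff_exists_isClopen]
  intro x y hxy
  obtain ⟨i, hi⟩ := Function.ne_iff.1 hxy
  obtain ⟨U, hU, hxU, hyU⟩ := totallySeparatedSpace_iff_exists_isClopen.1 (ts_E F (E := E)) hi
  exact ⟨(fun z : ι → E => z i) ⁻¹' U, hU.preimage (continuous_apply i), hxU, hyU⟩

omit [StarRing E] in
private theorem topo_cont_equiv : Continuous (Module.finBasis E V).equivFun :=
  (Module.finBasis E V).equivFun.toContinuousLinearEquiv.continuous

variable (E V) in
include E in
theorem lc_V : LocallyCompactSpace V :=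
  (Module.finBasis E V).equivFun.toContinuousLinearEquiv.toHomeomorph.isClosedEmbedding.locallyCompactSpace

variable (E V) in
include E in
theorem sc_V : SecondCountableTopology V :=
  (Module.finBasis E V).equivFun.toContinuousLinearEquiv.toHomeomorph.isEmbedding.secondCountableTopology

variable (F E V) in
include F E in
theorem td_V : TotallyDisconnectedSpace V := by
  haveI : TotallyDisconnectedSpace E := td_E F
  exact topo_inj topo_cont_equiv (Module.finBasis E V).equivFun.injective

variable (E V) in
/-- `End V ≃ V ^ n` -/
private def topoEnd : Module.End E V ≃ₜ (Fin (Module.finrank E V) → V) where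
  toFun f i := f (Module.finBasis E V i)
  invFun g := (Module.finBasis E V).constr E g
  left_inv f := by
    apply (Module.finBasis E V).ext
    intro i
    change (Module.finBasis E V).constr E (fun i => f (Module.finBasis E V i))
      (Module.finBasis E V i) = f (Module.finBasis E V i)
    rw [Module.Basis.constr_basis]
  right_inv g := by
    funext i
    change (Module.finBasis E V).constr E g (Module.finBasis E V i) = g i
    rw [Module.Basis.constr_basis]
  continuous_toFun := continuous_pi fun i => continuous_end_apply _
  continuous_invFun := by
    refine continuous_induced_rng.mpr (continuous_pi fun v => ?_)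
    have h : (fun g : Fin (Module.finrank E V) → V => (Module.finBasis E V).constr E g v) =
        fun g => ∑ i, (Module.finBasis E V).repr v i • g i := by
      funext g
      rw [Module.Basis.constr_apply_fintype]
      rfl
    change Continuous fun g : Fin (Module.finrank E V) → V => (Module.finBasis E V).constr E g v
    rw [h]
    exact continuous_finsetSum _ fun i _ => (continuous_apply i).const_smul _

instance t2_End : T2Space (Module.End E V) :=
  (topoEnd E V).isEmbedding.t2Space

instance lc_End : LocallyCompactSpace (Module.End E V) := by
  haveI := lc_V E V
  exact (topoEnd E V).isClosedEmbedding.locallyCompactSpace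

instance sc_End : SecondCountableTopology (Module.End E V) := by
  haveI := sc_V E V
  exact (topoEnd E V).isEmbedding.secondCountableTopology

variable (F E V) in
include F in
theorem td_End : TotallyDisconnectedSpace (Module.End E V) := by
  haveI := td_V F E V
  exact topo_inj (topoEnd E V).continuous (topoEnd E V).injective

instance lc_GV : LocallyCompactSpace (GV E V) := by
  haveI : LocallyCompactSpace (Module.End E V)ᵐᵒᵖ :=
    MulOpposite.opHomeomorph.symm.isClosedEmbedding.locallyCompactSpace
  exact Units.isClosedEmbedding_embedProduct.locallyCompactSpace

instance sc_GV : SecondCountableTopology (GV E V) := by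
  haveI : SecondCountableTopology (Module.End E V)ᵐᵒᵖ :=
    MulOpposite.opHomeomorph.symm.isEmbedding.secondCountableTopology
  exact Units.isEmbedding_embedProduct.secondCountableTopology

variable (F E V) in
include F in
theorem td_GV : TotallyDisconnectedSpace (GV E V) := by
  haveI := td_End F E V
  exact topo_inj Units.continuous_val Units.val_injective

variable (F) in
include F in
theorem isClosed_UU (B : SkewH E V) : IsClosed (UU B : Set (GV E V)) := by
  have h : (UU B : Set (GV E V)) = {g : GV E V | adj B g.1 * g.1 = 1} := by
    ext g
    constructor
    · intro hg
      change adj B g.1 * g.1 = 1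
      ext w
      apply ip_ext B
      intro v
      change B.ip v (adj B g.1 (g.1 w)) = B.ip v w
      rw [← adj_spec]
      exact hg v w
    · intro hg v w
      have h1 : adj B g.1 (g.1 w) = w := congrArg (fun f : Module.End E V => f w) hg
      rw [adj_spec, h1]
  rw [h]
  exact isClosed_eq (((continuous_adj F B).comp Units.continuous_val).mul Units.continuous_val)
    continuous_const

variable (F) in
include F in
theorem isClosed_SA (B : SkewH E V) : IsClosed (SA B : Set (Module.End E V)) := by
  have h : (SA B : Set (Module.End E V)) = {X : Module.End E V | adj B X = X} := by
    ext X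
    exact ⟨fun hX => (adj_unique B (g := X) (g' := X) hX).symm, fun hX v w => by
      have h1 : adj B X = X := hX
      rw [adj_spec, h1]⟩
  rw [h]
  exact isClosed_eq (continuous_adj F B) continuous_id

variable (F) in
include F in
theorem lc_UU (B : SkewH E V) : LocallyCompactSpace (UU B) := by
  haveI := isClosed_UU F B
  exact (isClosed_UU F B).isClosedEmbedding_subtypeVal.locallyCompactSpace

instance sc_UU (B : SkewH E V) : SecondCountableTopology (UU B) :=
  TopologicalSpace.Subtype.secondCountableTopology _

variable (F) in
include F in
theorem td_UU (B : SkewH E V) : TotallyDisconnectedSpace (UU B) := by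
  haveI := td_GV F E V
  exact topo_inj continuous_subtype_val Subtype.val_injective

variable (F) in
include F in
theorem lc_SA (B : SkewH E V) : LocallyCompactSpace (SA B) :=
  (isClosed_SA F B).isClosedEmbedding_subtypeVal.locallyCompactSpace

instance sc_SA (B : SkewH E V) : SecondCountableTopology (SA B) :=
  TopologicalSpace.Subtype.secondCountableTopology _

variable (F) in
include F in
theorem td_SA (B : SkewH E V) : TotallyDisconnectedSpace (SA B) := by
  haveI := td_End F E V
  exact topo_inj continuous_subtype_val Subtype.val_injective

end

end Pool.Agent.Work.MP_dd0ddf_al.C2
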