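import Pool.Agent.Work.MP_dd0ddf_al.C2.FourDefs
import Pool.Agent.Work.MP_dd0ddf_al.C2.FourSpan
import Pool.Agent.Work.MP_dd0ddf_al.C2.Topo
import Pool.Agent.Work.MP_dd0ddf_al.C2.BiAux

/-!
# MP_dd0ddf_al, module BiOm: the bicharacters of symplectic and symmetric forms

`omBi`: `χ(v, w) = ψ(om v w)`.  `om` is a nondegenerate F-bilinear form on the F-vector space `V` (trace form of `E/F` nondegenerate);
module `BiAux` does the rest.
-/

set_option linter.unusedSectionVars false
set_option linter.style.haveILetI false

namespace Pool.Agent.Work.MP_dd0ddf_al.C2

noncomputable section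

universe u

variable {F E : Type u} [NontriviallyNormedField F] [IsUltrametricDist F] [ProperSpace F]
  [CharP F 2] [NontriviallyNormedField E] [NormedAlgebra F E] [ProperSpace E] [StarRing E]
  [QExt F E]
variable {V : Type u} [AddCommGroup V] [Module E V] [Module.Finite E V] [TopologicalSpace V]
  [IsTopologicalAddGroup V] [T2Space V] [ContinuousSMul E V]

variable (F) in
include F in
theorem ult_E : IsUltrametricDist E := IsUltrametricDist.of_normedAlgebra F

variable (F E V) in
/-- `V` as an F-vector space -/
private abbrev biom_mod : Module F V := Module.compHom V (algebraMap F E)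

private theorem biom_smul (a : F) (v : V) :
    (letI := biom_mod F E V; a • v) = (algebraMap F E a) • v := rfl

variable (F E V) in
private theorem biom_tower : letI := biom_mod F E V; IsScalarTower F E V := by
  letI := biom_mod F E V
  refine ⟨fun a x v => ?_⟩
  show (a • x) • v = (algebraMap F E a) • (x • v)
  rw [Algebra.smul_def, mul_smul]

variable (F E V) in
private theorem biom_finite : letI := biom_mod F E V; Module.Finite F V := by
  letI := biom_mod F E V
  haveI : IsScalarTower F E V := biom_tower F E V
  haveI : FiniteDimensional F E := qext_findim F E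
  exact Module.Finite.trans E V

variable (F E V) in
private theorem biom_cont : letI := biom_mod F E V; ContinuousSMul F V := by
  letI := biom_mod F E V
  refine ⟨?_⟩
  have h : (fun p : F × V => p.1 • p.2) = fun p : F × V => (algebraMap F E p.1) • p.2 := rfl
  rw [h]
  exact ((continuous_algebraMap F E).comp continuous_fst).smul continuous_snd

variable (F E V) in
include F E in
theorem uc_V : UnionCompact V := by
  letI := biom_mod F E V
  haveI := biom_finite F E V
  haveI := biom_cont F E V
  exact biaux_uc F V

private theorem biom_trace (x : E) (h : ∀ y : E, Algebra.trace F E (y * x) = 0) : x = 0 := by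
  haveI : FiniteDimensional F E := qext_findim F E
  haveI : Algebra.IsSeparable F E := qext_sep F E
  have hnd := traceForm_nondegenerate F E
  refine hnd.1 x fun y => ?_
  rw [Algebra.traceForm_apply, mul_comm]
  exact h y

variable (F) in
private theorem biom_addl (B : SkewH E V) (a b w : V) : om F B (a + b) w =
    om F B a w + om F B b w := by
  unfold om
  rw [B.add_left, map_add]

variable (F) in
private theorem biom_addr (B : SkewH E V) (v a b : V) : om F B v (a + b) =
    om F B v a + om F B v b := by
  unfold om
  rw [B.add_right, map_add]

private theorem biom_smull (B : SkewH E V) (t : F) (v w : V) :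
    om F B ((algebraMap F E t) • v) w = t * om F B v w := by
  unfold om
  rw [B.smul_left, ← Algebra.smul_def, map_smul, smul_eq_mul]

private theorem biom_smulr (B : SkewH E V) (t : F) (v w : V) :
    om F B v ((algebraMap F E t) • w) = t * om F B v w := by
  unfold om
  rw [B.smul_right, QExt.star_alg, ← Algebra.smul_def, map_smul, smul_eq_mul]

private theorem biom_ndr (B : SkewH E V) (w : V) (h : ∀ v, om F B v w = 0) : w = 0 := by
  refine B.nondeg_right w fun v => biom_trace (F := F) _ fun y => ?_
  have h1 := h (y • v)
  unfold om at h1
  rwa [B.smul_left] at h1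

private theorem biom_ndl (B : SkewH E V) (v : V) (h : ∀ w, om F B v w = 0) : v = 0 := by
  refine B.nondeg v fun w => biom_trace (F := F) _ fun y => ?_
  have h1 := h (star y • w)
  unfold om at h1
  rwa [B.smul_right, star_star] at h1

variable (F) in
/-- `om` as a bilinear form -/
private def biom_lin (B : SkewH E V) : letI := biom_mod F E V; V →ₗ[F] V →ₗ[F] F :=
  letI := biom_mod F E V
  LinearMap.mk₂ F (om F B) (biom_addl F B) (fun t v w => biom_smull B t v w)
    (biom_addr F B) (fun t v w => biom_smulr B t v w)

/-- the bicharacter `ψ(Tr ⟨v, w⟩)` of `V` -/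
def omBi (B : SkewH E V) (p : PChar F) : BiChar V where
  χ v w := p.ψ (om F B v w)
  addl a b w := by rw [biom_addl, p.add]
  addr v a b := by rw [biom_addr, p.add]
  norm v w := p.norm_one _
  lc := by
    letI := biom_mod F E V
    haveI := biom_finite F E V
    haveI := biom_cont F E V
    exact biaux_lcc (biom_lin F B) p
  nd v h := by
    letI := biom_mod F E V
    haveI := biom_finite F E V
    haveI := biom_cont F E V
    exact biaux_nd (biom_lin F B).flip (fun w hw => biom_ndl (F := F) B w hw) p v h
  nd' w h := by
    letI := biom_mod F E V
    haveI := biom_finite F E V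
    haveI := biom_cont F E V
    exact biaux_nd (biom_lin F B) (fun w hw => biom_ndr (F := F) B w hw) p w h
  perp L hL := by
    letI := biom_mod F E V
    haveI := biom_finite F E V
    haveI := biom_cont F E V
    exact biaux_perp (biom_lin F B) (fun w hw => biom_ndr (F := F) B w hw) p L hL
  perp' L hL := by
    letI := biom_mod F E V
    haveI := biom_finite F E V
    haveI := biom_cont F E V
    exact biaux_perp (biom_lin F B).flip (fun w hw => biom_ndl (F := F) B w hw) p L hL

theorem omBi_apply (B : SkewH E V) (p : PChar F) (v w : V) :
    (omBi B p).χ v w = p.ψ (om F B v w) := rfl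

end

end Pool.Agent.Work.MP_dd0ddf_al.C2
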