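import Pool.Agent.Work.MP_dd0ddf_al.C2.Found

/-!
# MP_dd0ddf_al, module HaarDefs: the Haar functional on `SF G B` for a locally compact abelian group `G` (definitions)
-/

set_option linter.unusedSectionVars false
set_option linter.style.haveILetI false

namespace Pool.Agent.Work.MP_dd0ddf_al.C2

noncomputable section

open MeasureTheory

section

variable (G : Type*) [AddCommGroup G] [TopologicalSpace G] [IsTopologicalAddGroup G]
  [LocallyCompactSpace G]

/-- the Haar measure of `G`, for the Borel sigma algebra -/
def hmu : @Measure G (borel G) :=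
  letI : MeasurableSpace G := borel G
  haveI : BorelSpace G := ⟨rfl⟩
  Measure.addHaar

variable {G} {B : Type*} [AddCommGroup B] [Module ℂ B]

/-- the Haar functional `f ↦ ∫_G f(x) dx ∈ B` -/
def hI : SF G B →ₗ[ℂ] B :=
  letI : MeasurableSpace G := borel G
  haveI : BorelSpace G := ⟨rfl⟩
  SF.vint (Measure.addHaar : Measure G)

/-- the volume of a set -/
def hvol (K : Set G) : ℝ :=
  letI : MeasurableSpace G := borel G
  haveI : BorelSpace G := ⟨rfl⟩
  (Measure.addHaar : Measure G).real K

end

/-- a topological automorphism of an additive group -/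
structure TAut (G : Type*) [AddCommGroup G] [TopologicalSpace G] where
  h : G ≃ₜ G
  add : ∀ x y, h (x + y) = h x + h y

/-- `y ↦ f (x, y)` -/
def SF.slice {X Y B : Type*} [TopologicalSpace X] [TopologicalSpace Y] [T1Space X]
    [AddCommGroup B] [Module ℂ B] (x : X) : SF (X × Y) B →ₗ[ℂ] SF Y B where
  toFun f := ⟨fun y => f (x, y), f.2.1.comp_continuous (Continuous.prodMk_right x),
    f.2.2.comp_isClosedEmbedding ⟨isEmbedding_prodMkRight x, by
      have h : Set.range (Prod.mk x : Y → X × Y) = Prod.fst ⁻¹' {x} := by
        ext ⟨a, b⟩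
        simp [eq_comm]
      rw [h]
      exact isClosed_singleton.preimage continuous_fst⟩⟩
  map_add' _ _ := rfl
  map_smul' _ _ := rfl

@[simp] theorem SF.slice_apply {X Y B : Type*} [TopologicalSpace X] [TopologicalSpace Y]
    [T1Space X] [AddCommGroup B] [Module ℂ B] (x : X) (f : SF (X × Y) B) (y : Y) :
    SF.slice x f y = f (x, y) := rfl

end

end Pool.Agent.Work.MP_dd0ddf_al.C2
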