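import Pool.Agent.Work.MP_dd0ddf_al.C2.FdBasis
import Pool.Agent.Work.MP_dd0ddf_al.C2.HaarDefs

/-!
# MP_dd0ddf_al, module SFCurry: currying of locally constant compactly supported functions

`curry f x = slice x f`; it is locally constant in `x` with compact support: by `sf_induction` on `X × Y` with boxes `K ×ˢ K'` (small compact open sets contained in boxes; single (K ×ˢ K') b curries to single K (single K' b)).
Bijective: injective clearly; surjective by `sf_induction` on `X` (values `single K b` with `b ∈ SF Y B`): `(x, y) ↦ 1_K(x) b(y)`.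
-/

set_option linter.unusedSectionVars false
set_option linter.style.haveILetI false

namespace Pool.Agent.Work.MP_dd0ddf_al.C2

noncomputable section

variable {X Y B : Type*} [TopologicalSpace X] [T2Space X] [LocallyCompactSpace X]
  [TotallyDisconnectedSpace X] [TopologicalSpace Y] [T2Space Y] [LocallyCompactSpace Y]
  [TotallyDisconnectedSpace Y] [AddCommGroup B] [Module ℂ B]

private theorem sfcurry_slice_ev (f : SF (X × Y) B) (x : X) :
    ∀ᶠ x' in nhds x, SF.slice x' f = SF.slice x f := by
  have hK : IsCompact (Prod.snd '' tsupport f.1) := f.2.2.image continuous_snd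
  have hev : ∀ᶠ x' in nhds x, ∀ y ∈ Prod.snd '' tsupport f.1, f.1 (x', y) = f.1 (x, y) := by
    refine hK.eventually_forall_of_forall_eventually ?_
    intro y _
    have h1 := (IsLocallyConstant.iff_eventually_eq _).mp f.2.1 (x, y)
    have c2 : Continuous fun z : X × Y => ((x, z.2) : X × Y) :=
      continuous_const.prodMk continuous_snd
    have h2 : ∀ᶠ z : X × Y in nhds (x, y), f.1 (x, z.2) = f.1 (x, y) := by
      have : Filter.Tendsto (fun z : X × Y => ((x, z.2) : X × Y)) (nhds (x, y)) (nhds (x, y)) :=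
        c2.tendsto (x, y)
      exact this.eventually h1
    filter_upwards [h1, h2] with z e1 e2
    show f.1 (z.1, z.2) = f.1 (x, z.2)
    rw [e2]
    exact e1
  filter_upwards [hev] with x' hx'
  apply SF.ext
  intro y
  show f.1 (x', y) = f.1 (x, y)
  by_cases hy : y ∈ Prod.snd '' tsupport f.1
  · exact hx' y hy
  · have h0 : ∀ x'' : X, f.1 (x'', y) = 0 := by
      intro x''
      apply image_eq_zero_of_notMem_tsupport
      intro h
      exact hy ⟨(x'', y), h, rfl⟩
    rw [h0, h0]

theorem curry_mem (f : SF (X × Y) B) : (fun x => SF.slice x f) ∈ SF X (SF Y B) := by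
  constructor
  · rw [IsLocallyConstant.iff_eventually_eq]
    exact fun x => sfcurry_slice_ev f x
  · refine HasCompactSupport.of_support_subset_isCompact (f.2.2.image continuous_fst) ?_
    intro a ha
    by_contra hn
    apply ha
    apply SF.ext
    intro r
    show f.1 (a, r) = 0
    apply image_eq_zero_of_notMem_tsupport
    intro h
    exact hn ⟨(a, r), h, rfl⟩

/-- `f ↦ (x ↦ f(x, ·))` -/
def SF.curry : SF (X × Y) B →ₗ[ℂ] SF X (SF Y B) where
  toFun f := ⟨fun x => SF.slice x f, curry_mem f⟩
  map_add' f g := by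
    apply Subtype.ext
    funext x
    exact map_add (SF.slice x) f g
  map_smul' c f := by
    apply Subtype.ext
    funext x
    exact map_smul (SF.slice x) c f

theorem SF.curry_apply (f : SF (X × Y) B) (x : X) (y : Y) : SF.curry f x y = f (x, y) := rfl

private theorem sfcurry_range {X B : Type*} [TopologicalSpace X] [AddCommGroup B] [Module ℂ B]
    (f : SF X B) : Set.Finite (Set.range f.1) := by
  letI : TopologicalSpace B := ⊥
  haveI : DiscreteTopology B := ⟨rfl⟩
  have h4 : Continuous f.1 := f.2.1.continuous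
  have h3 : Set.Finite (f.1 '' tsupport f.1) :=
    (f.2.2.image_of_continuousOn h4.continuousOn).finite_of_discrete
  refine (h3.union (Set.finite_singleton 0)).subset ?_
  rintro _ ⟨x, rfl⟩
  by_cases hx : x ∈ tsupport f.1
  · exact Or.inl ⟨x, hx, rfl⟩
  · exact Or.inr (image_eq_zero_of_notMem_tsupport hx)

private theorem sfcurry_un (f : SF X (SF Y B)) : (fun q : X × Y => (f q.1).1 q.2) ∈
    SF (X × Y) B := by
  constructor
  · rw [IsLocallyConstant.iff_eventually_eq]
    rintro ⟨a, r⟩
    have h1 : ∀ᶠ q : X × Y in nhds (a, r), f q.1 = f a :=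
      (continuous_fst.tendsto (a, r)).eventually
        ((IsLocallyConstant.iff_eventually_eq _).mp f.2.1 a)
    have h2 : ∀ᶠ q : X × Y in nhds (a, r), (f a).1 q.2 = (f a).1 r :=
      (continuous_snd.tendsto (a, r)).eventually
        ((IsLocallyConstant.iff_eventually_eq _).mp (f a).2.1 r)
    filter_upwards [h1, h2] with q e1 e2
    show (f q.1).1 q.2 = (f a).1 r
    rw [e1, e2]
  · have hK : IsCompact (⋃ b ∈ Set.range f.1, tsupport b.1) :=
      (sfcurry_range f).isCompact_biUnion fun b _ => b.2.2.isCompact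
    refine HasCompactSupport.of_support_subset_isCompact (f.2.2.isCompact.prod hK) ?_
    rintro ⟨a, r⟩ hq
    have hne : (f a).1 r ≠ 0 := hq
    refine ⟨subset_tsupport _ fun h0 => hne ?_, ?_⟩
    · have h1 : f a = 0 := h0
      rw [h1]
      rfl
    · exact Set.mem_biUnion ⟨a, rfl⟩ (subset_tsupport _ hne)

theorem SF.curry_bijective : Function.Bijective (SF.curry : SF (X × Y) B → SF X (SF Y B)) := by
  constructor
  · intro f g h
    apply SF.ext
    rintro ⟨x, y⟩
    exact congrArg (fun k : SF X (SF Y B) => (k x).1 y) h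
  · intro f
    exact ⟨⟨fun q : X × Y => (f q.1).1 q.2, sfcurry_un f⟩, rfl⟩

/-- functions `f1(x) f2(y)`-type: the functions `(x, y) ↦ 1_K(x) 1_{K'}(y) b` span -/
theorem SF.boxes_span : Submodule.span ℂ {f : SF (X × Y) B | ∃ (K : Set X) (K' : Set Y) (b : B),
    IsCompact K ∧ IsOpen K ∧ IsCompact K' ∧ IsOpen K' ∧
    (∀ x y, x ∈ K → y ∈ K' → f (x, y) = b) ∧ ∀ x y, (x ∉ K ∨ y ∉ K') → f (x, y) = 0} = ⊤ := by
  set N := Submodule.span ℂ {f : SF (X × Y) B | ∃ (K : Set X) (K' : Set Y) (b : B),
    IsCompact K ∧ IsOpen K ∧ IsCompact K' ∧ IsOpen K' ∧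
    (∀ x y, x ∈ K → y ∈ K' → f (x, y) = b) ∧ ∀ x y, (x ∉ K ∨ y ∉ K') → f (x, y) = 0} with hN
  rw [eq_top_iff]
  intro f _
  let N' : Submodule ℂ (SF X (SF Y B)) := N.map SF.curry
  suffices h : ∀ g : SF X (SF Y B), g ∈ N' by
    obtain ⟨f', hf', h1⟩ := h (SF.curry f)
    have h2 : f' = f := SF.curry_bijective.1 h1
    rw [← h2]
    exact hf'
  intro g
  refine sf_induction (fun g => g ∈ N') N'.zero_mem (fun a b ha hb => N'.add_mem ha hb) ?_ g
  intro x
  refine ⟨Set.univ, isOpen_univ, Set.mem_univ _, fun K hK hK' b _ => ?_⟩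
  show SF.single K hK hK' b ∈ N'
  have hz : SF.single K hK hK' (0 : SF Y B) = 0 := by
    apply SF.ext
    intro x
    by_cases hx : x ∈ K
    · rw [SF.single_apply_mem _ _ _ _ _ hx]
      rfl
    · rw [SF.single_apply_not_mem _ _ _ _ _ hx]
      rfl
  have ha : ∀ b b' : SF Y B, SF.single K hK hK' (b + b') =
      SF.single K hK hK' b + SF.single K hK hK' b' := by
    intro b b'
    apply SF.ext
    intro x
    show _ = SF.single K hK hK' b x + SF.single K hK hK' b' x
    by_cases hx : x ∈ K
    · rw [SF.single_apply_mem _ _ _ _ _ hx, SF.single_apply_mem _ _ _ _ _ hx,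
        SF.single_apply_mem _ _ _ _ _ hx]
    · rw [SF.single_apply_not_mem _ _ _ _ _ hx, SF.single_apply_not_mem _ _ _ _ _ hx,
        SF.single_apply_not_mem _ _ _ _ _ hx, add_zero]
  refine sf_induction (fun b => SF.single K hK hK' b ∈ N') ?_ ?_ ?_ b
  · show SF.single K hK hK' (0 : SF Y B) ∈ N'
    rw [hz]
    exact N'.zero_mem
  · intro b b' hb hb'
    show SF.single K hK hK' (b + b') ∈ N'
    rw [ha]
    exact N'.add_mem hb hb'
  · intro y
    refine ⟨Set.univ, isOpen_univ, Set.mem_univ _, fun L hL hL' b0 _ => ?_⟩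
    show SF.single K hK hK' (SF.single L hL hL' b0) ∈ N'
    refine ⟨⟨fun q : X × Y => (SF.single K hK hK' (SF.single L hL hL' b0) q.1).1 q.2,
      sfcurry_un _⟩, Submodule.subset_span ⟨K, L, b0, hK, hK', hL, hL', ?_, ?_⟩, rfl⟩
    · intro x y hx hy
      show (SF.single K hK hK' (SF.single L hL hL' b0) x).1 y = b0
      rw [SF.single_apply_mem _ _ _ _ _ hx]
      exact SF.single_apply_mem _ _ _ _ _ hy
    · intro x y hxy
      show (SF.single K hK hK' (SF.single L hL hL' b0) x).1 y = 0
      by_cases hx : x ∈ K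
      · rw [SF.single_apply_mem _ _ _ _ _ hx]
        exact SF.single_apply_not_mem _ _ _ _ _ (hxy.resolve_left (not_not.2 hx))
      · rw [SF.single_apply_not_mem _ _ _ _ _ hx]
        rfl

end

end Pool.Agent.Work.MP_dd0ddf_al.C2
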