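import Pool.Agent.Work.MP_dd0ddf_al.C2.GDefs
import Pool.Agent.Work.MP_dd0ddf_al.C2.WrSub

/-!
# MP_dd0ddf_al, module BlkDefs: block diagonal elements of GL(V)

`blk (a1, a2) = a1 ⊕ a2` for `V = U ⊕ U^⊥`.  `blk_adj`: adjoint of a block diagonal operator.  `blk_emb`: closed embedding: the topology of GV is that of (g, g⁻¹) pointwise; the image is the closed set of elements commuting with the projection.
`blk_th`: `tauRes τ U`, `tauRes τ U^⊥` (τ preserves U^⊥ if it preserves U).  `blk_ext`: `extU k = blk (k, 1)`.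
-/

set_option linter.unusedSectionVars false
set_option linter.style.haveILetI false

namespace Pool.Agent.Work.MP_dd0ddf_al.C2

noncomputable section

universe u

variable {F E : Type u} [NontriviallyNormedField F] [IsUltrametricDist F] [ProperSpace F]
  [CharP F 2] [NontriviallyNormedField E] [NormedAlgebra F E] [ProperSpace E] [StarRing E]
  [QExt F E] [Dl E] [MeasurableSpace E] [BorelSpace E]
variable {V : Type u} [AddCommGroup V] [Module E V] [Module.Finite E V] [TopologicalSpace V]
  [IsTopologicalAddGroup V] [T2Space V] [ContinuousSMul E V]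

section Alg

variable {E V : Type*} [Field E] [StarRing E] [AddCommGroup V] [Module E V]
  [Module.Finite E V] (B : SkewH E V) (U : Submodule E V)

private def blkF (hU : NDeg B U) (f : Module.End E U) (g : Module.End E (orth B U)) :
    Module.End E V :=
  U.subtype ∘ₗ f ∘ₗ (prO B U hU).codRestrict U (prO_mem B U hU) +
    (orth B U).subtype ∘ₗ g ∘ₗ
      (1 - prO B U hU).codRestrict (orth B U) (fun v => sub_prO_mem B U hU v)

private theorem blkF_apply (hU : NDeg B U) (f : Module.End E U) (g : Module.End E (orth B U))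
    (v : V) : blkF B U hU f g v = ((f ⟨prO B U hU v, prO_mem B U hU v⟩ : U) : V) +
      ((g ⟨v - prO B U hU v, sub_prO_mem B U hU v⟩ : orth B U) : V) := rfl

private theorem blkF_pr (hU : NDeg B U) (u : U) (w : orth B U) :
    prO B U hU ((u : V) + (w : V)) = u := by
  rw [map_add, prO_of_mem B U hU u.2, prO_of_orth B U hU w.2, add_zero]

private theorem blkF_p1 (hU : NDeg B U) (u : U) (w : orth B U) :
    (⟨prO B U hU ((u : V) + (w : V)), prO_mem B U hU _⟩ : U) = u :=
  Subtype.ext (blkF_pr B U hU u w)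

private theorem blkF_p2 (hU : NDeg B U) (u : U) (w : orth B U) :
    (⟨((u : V) + (w : V)) - prO B U hU ((u : V) + (w : V)), sub_prO_mem B U hU _⟩ :
      orth B U) = w := by
  apply Subtype.ext
  show ((u : V) + (w : V)) - prO B U hU ((u : V) + (w : V)) = w
  rw [blkF_pr, add_sub_cancel_left]

private theorem blkF_add (hU : NDeg B U) (f : Module.End E U) (g : Module.End E (orth B U))
    (u : U) (w : orth B U) : blkF B U hU f g ((u : V) + (w : V)) = (f u : V) + (g w : V) := by
  rw [blkF_apply, blkF_p1, blkF_p2]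

private theorem blkF_mul (hU : NDeg B U) (f f' : Module.End E U)
    (g g' : Module.End E (orth B U)) :
    blkF B U hU f g * blkF B U hU f' g' = blkF B U hU (f * f') (g * g') := by
  ext v
  show blkF B U hU f g (blkF B U hU f' g' v) = _
  rw [blkF_apply B U hU f' g', blkF_add]
  rfl

private theorem blkF_one (hU : NDeg B U) : blkF B U hU 1 1 = 1 := by
  ext v
  rw [blkF_apply]
  exact add_sub_cancel _ _

private theorem blkF_dec (hU : NDeg B U) (v : V) :
    v = ((⟨prO B U hU v, prO_mem B U hU v⟩ : U) : V) +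
      ((⟨v - prO B U hU v, sub_prO_mem B U hU v⟩ : orth B U) : V) := (add_sub_cancel _ _).symm

private theorem blkF_ext (hU : NDeg B U) {f g : Module.End E V} (h1 : ∀ u : U, f u = g u)
    (h2 : ∀ w : orth B U, f w = g w) : f = g := by
  ext v
  rw [blkF_dec B U hU v, map_add, map_add, h1, h2]

private theorem blkF_u (hU : NDeg B U) (f : Module.End E U) (g : Module.End E (orth B U))
    (u : U) : blkF B U hU f g u = f u := by
  have h := blkF_add B U hU f g u 0
  rw [Submodule.coe_zero, add_zero, map_zero, Submodule.coe_zero, add_zero] at h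
  exact h

private theorem blkF_w (hU : NDeg B U) (f : Module.End E U) (g : Module.End E (orth B U))
    (w : orth B U) : blkF B U hU f g w = g w := by
  have h := blkF_add B U hU f g 0 w
  rw [Submodule.coe_zero, zero_add, map_zero, Submodule.coe_zero, zero_add] at h
  exact h

omit [Module.Finite E V] in
private theorem blkF_o1 (w : orth B U) (u : U) : B.ip (w : V) (u : V) = 0 := w.2 u u.2

omit [Module.Finite E V] in
private theorem blkF_o2 (u : U) (w : orth B U) : B.ip (u : V) (w : V) = 0 := by
  rw [B.skew w u, w.2 u u.2, star_zero, neg_zero]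

private theorem blkF_adj (hU : NDeg B U) (f : Module.End E U) (g : Module.End E (orth B U)) :
    adj B (blkF B U hU f g) = blkF B U hU (adj (B.restrict U hU) f)
      (adj (B.restrict (orth B U) (ndeg_orth B U hU)) g) := by
  symm
  apply adj_unique
  intro v w
  rw [blkF_dec B U hU v, blkF_dec B U hU w, blkF_add, blkF_add, B.add_left, B.add_right,
    B.add_right, B.add_left, B.add_right, B.add_right, blkF_o1, blkF_o1, blkF_o2, blkF_o2]
  have h1 := adj_spec (B.restrict U hU) f ⟨prO B U hU v, prO_mem B U hU v⟩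
    ⟨prO B U hU w, prO_mem B U hU w⟩
  have h2 := adj_spec (B.restrict (orth B U) (ndeg_orth B U hU)) g
    ⟨v - prO B U hU v, sub_prO_mem B U hU v⟩ ⟨w - prO B U hU w, sub_prO_mem B U hU w⟩
  rw [show B.ip (f ⟨prO B U hU v, prO_mem B U hU v⟩ : U)
      ((⟨prO B U hU w, prO_mem B U hU w⟩ : U) : V) = _ from h1,
    show B.ip (g ⟨v - prO B U hU v, sub_prO_mem B U hU v⟩ : orth B U)
      ((⟨w - prO B U hU w, sub_prO_mem B U hU w⟩ : orth B U) : V) = _ from h2]
  rfl

end Alg

/-- block diagonal automorphisms -/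
def blk (B : SkewH E V) (U : Submodule E V) (hU : NDeg B U) :
    GV E U × GV E (orth B U) →* GV E V where
  toFun a :=
    { val := U.subtype ∘ₗ a.1.1 ∘ₗ (prO B U hU).codRestrict U (prO_mem B U hU) +
        (orth B U).subtype ∘ₗ a.2.1 ∘ₗ
          (1 - prO B U hU).codRestrict (orth B U) (fun v => sub_prO_mem B U hU v)
      inv := U.subtype ∘ₗ a.1⁻¹.1 ∘ₗ (prO B U hU).codRestrict U (prO_mem B U hU) +
        (orth B U).subtype ∘ₗ a.2⁻¹.1 ∘ₗ
          (1 - prO B U hU).codRestrict (orth B U) (fun v => sub_prO_mem B U hU v)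
      val_inv := by
        show blkF B U hU a.1.1 a.2.1 * blkF B U hU a.1⁻¹.1 a.2⁻¹.1 = 1
        rw [blkF_mul, a.1.mul_inv, a.2.mul_inv, blkF_one]
      inv_val := by
        show blkF B U hU a.1⁻¹.1 a.2⁻¹.1 * blkF B U hU a.1.1 a.2.1 = 1
        rw [blkF_mul, a.1.inv_mul, a.2.inv_mul, blkF_one] }
  map_one' := Units.ext (blkF_one B U hU)
  map_mul' a b := Units.ext (blkF_mul B U hU a.1.1 b.1.1 a.2.1 b.2.1).symm

theorem blk_U (B : SkewH E V) (U : Submodule E V) (hU : NDeg B U)
    (a : GV E U × GV E (orth B U)) (u : U) : (blk B U hU a).1 (u : V) = (a.1.1 u : V) := by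
  exact blkF_u B U hU a.1.1 a.2.1 u

theorem blk_orth (B : SkewH E V) (U : Submodule E V) (hU : NDeg B U)
    (a : GV E U × GV E (orth B U)) (w : orth B U) :
    (blk B U hU a).1 (w : V) = (a.2.1 w : V) := by
  exact blkF_w B U hU a.1.1 a.2.1 w

theorem blk_range (B : SkewH E V) (U : Submodule E V) (hU : NDeg B U) (g : GV E V) :
    g.1 * prO B U hU = prO B U hU * g.1 ↔ ∃ a, blk B U hU a = g := by
  constructor
  · intro h
    have hP : ∀ v, prO B U hU (g.1 v) = g.1 (prO B U hU v) := fun v =>
      (congrArg (fun f : Module.End E V => f v) h).symm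
    have hg : ∀ v, g⁻¹.1 (g.1 v) = v := fun v =>
      congrArg (fun f : Module.End E V => f v) g.inv_mul
    have hg' : ∀ v, g.1 (g⁻¹.1 v) = v := fun v =>
      congrArg (fun f : Module.End E V => f v) g.mul_inv
    have hP' : ∀ v, prO B U hU (g⁻¹.1 v) = g⁻¹.1 (prO B U hU v) := by
      intro v
      have h1 := hP (g⁻¹.1 v)
      rw [hg'] at h1
      rw [h1, hg]
    have hmemU : ∀ f : Module.End E V, (∀ v, prO B U hU (f v) = f (prO B U hU v)) →
        ∀ u ∈ U, f u ∈ U := by
      intro f hf u hu
      have h1 := hf u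
      rw [prO_of_mem B U hU hu] at h1
      rw [← h1]
      exact prO_mem B U hU _
    have hmemO : ∀ f : Module.End E V, (∀ v, prO B U hU (f v) = f (prO B U hU v)) →
        ∀ w ∈ orth B U, f w ∈ orth B U := by
      intro f hf w hw
      have h1 := hf w
      rw [prO_of_orth B U hU hw, map_zero] at h1
      have h2 := sub_prO_mem B U hU (f w)
      rwa [h1, sub_zero] at h2
    let a1 : GV E U := ⟨g.1.restrict (hmemU g.1 hP), g⁻¹.1.restrict (hmemU g⁻¹.1 hP'),
      LinearMap.ext fun u => Subtype.ext (hg' u), LinearMap.ext fun u => Subtype.ext (hg u)⟩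
    let a2 : GV E (orth B U) := ⟨g.1.restrict (hmemO g.1 hP), g⁻¹.1.restrict (hmemO g⁻¹.1 hP'),
      LinearMap.ext fun u => Subtype.ext (hg' u), LinearMap.ext fun u => Subtype.ext (hg u)⟩
    refine ⟨(a1, a2), Units.ext (blkF_ext B U hU (fun u => ?_) fun w => ?_)⟩
    · exact blkF_u B U hU a1.1 a2.1 u
    · exact blkF_w B U hU a1.1 a2.1 w
  · rintro ⟨a, rfl⟩
    refine blkF_ext B U hU (fun u => ?_) fun w => ?_
    · show (blk B U hU a).1 (prO B U hU u) = prO B U hU ((blk B U hU a).1 u)
      rw [prO_of_mem B U hU u.2, blk_U, prO_of_mem B U hU (Subtype.mem _)]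
    · show (blk B U hU a).1 (prO B U hU w) = prO B U hU ((blk B U hU a).1 w)
      rw [prO_of_orth B U hU w.2, map_zero, blk_orth, prO_of_orth B U hU (Subtype.mem _)]

variable (F) in
include F in
theorem blk_emb (B : SkewH E V) (U : Submodule E V) (hU : NDeg B U) :
    Topology.IsClosedEmbedding (blk B U hU) := by
  have hcont : Continuous (blk B U hU) := by
    have hF : Continuous fun q : Module.End E U × Module.End E (orth B U) =>
        blkF B U hU q.1 q.2 := by
      refine continuous_induced_rng.mpr (continuous_pi fun v => ?_)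
      show Continuous fun q : Module.End E U × Module.End E (orth B U) =>
        ((q.1 ⟨prO B U hU v, prO_mem B U hU v⟩ : U) : V) +
          ((q.2 ⟨v - prO B U hU v, sub_prO_mem B U hU v⟩ : orth B U) : V)
      exact (continuous_subtype_val.comp ((continuous_end_apply _).comp continuous_fst)).add
        (continuous_subtype_val.comp ((continuous_end_apply _).comp continuous_snd))
    rw [Units.continuous_iff]
    constructor
    · exact hF.comp ((Units.continuous_val.comp continuous_fst).prodMk
        (Units.continuous_val.comp continuous_snd))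
    · exact hF.comp ((Units.continuous_val.comp (continuous_inv.comp continuous_fst)).prodMk
        (Units.continuous_val.comp (continuous_inv.comp continuous_snd)))
  -- the compressions
  let ρ1 : Module.End E V → Module.End E U := fun X =>
    (prO B U hU).codRestrict U (prO_mem B U hU) ∘ₗ X ∘ₗ U.subtype
  let ρ2 : Module.End E V → Module.End E (orth B U) := fun X =>
    (1 - prO B U hU).codRestrict (orth B U) (fun v => sub_prO_mem B U hU v) ∘ₗ X ∘ₗ
      (orth B U).subtype
  have hPc : Continuous (prO B U hU) := (prO B U hU).continuous_of_finiteDimensional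
  have hρ1 : Continuous ρ1 := by
    refine continuous_induced_rng.mpr (continuous_pi fun u => ?_)
    exact (hPc.comp (continuous_end_apply (u : V))).subtype_mk _
  have hρ2 : Continuous ρ2 := by
    refine continuous_induced_rng.mpr (continuous_pi fun w => ?_)
    exact ((continuous_end_apply (w : V)).sub
      (hPc.comp (continuous_end_apply (w : V)))).subtype_mk _
  have hr1 : ∀ (f : Module.End E U) (g : Module.End E (orth B U)),
      ρ1 (blkF B U hU f g) = f := by
    intro f g
    ext u
    show prO B U hU (blkF B U hU f g u) = f u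
    rw [blkF_u, prO_of_mem B U hU (Subtype.mem _)]
  have hr2 : ∀ (f : Module.End E U) (g : Module.End E (orth B U)),
      ρ2 (blkF B U hU f g) = g := by
    intro f g
    ext w
    show blkF B U hU f g w - prO B U hU (blkF B U hU f g w) = g w
    rw [blkF_w, prO_of_orth B U hU (Subtype.mem _), sub_zero]
  let G : GV E V → (Module.End E U × (Module.End E U)ᵐᵒᵖ) ×
      (Module.End E (orth B U) × (Module.End E (orth B U))ᵐᵒᵖ) := fun g =>
    ((ρ1 g.1, MulOpposite.op (ρ1 g⁻¹.1)), (ρ2 g.1, MulOpposite.op (ρ2 g⁻¹.1)))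
  have hG : Continuous G := by
    have hv : Continuous fun g : GV E V => g.1 := Units.continuous_val
    have hi : Continuous fun g : GV E V => g⁻¹.1 := Units.continuous_val.comp continuous_inv
    exact ((hρ1.comp hv).prodMk (MulOpposite.continuous_op.comp (hρ1.comp hi))).prodMk
      ((hρ2.comp hv).prodMk (MulOpposite.continuous_op.comp (hρ2.comp hi)))
  have hcomp : G ∘ blk B U hU = Prod.map (Units.embedProduct _) (Units.embedProduct _) := by
    funext a
    have e1 : ((blk B U hU a)⁻¹).1 = blkF B U hU a.1⁻¹.1 a.2⁻¹.1 := rfl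
    have e2 : (blk B U hU a).1 = blkF B U hU a.1.1 a.2.1 := rfl
    show ((ρ1 (blk B U hU a).1, MulOpposite.op (ρ1 (blk B U hU a)⁻¹.1)),
      (ρ2 (blk B U hU a).1, MulOpposite.op (ρ2 (blk B U hU a)⁻¹.1))) = _
    rw [e1, e2, hr1, hr1, hr2, hr2]
    rfl
  have hemb : Topology.IsEmbedding (Prod.map (Units.embedProduct (Module.End E U))
      (Units.embedProduct (Module.End E (orth B U)))) :=
    Units.isEmbedding_embedProduct.prodMap Units.isEmbedding_embedProduct
  rw [← hcomp] at hemb
  refine ⟨Topology.IsEmbedding.of_comp hcont hG hemb, ?_⟩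
  have hrange : Set.range (blk B U hU) = {g : GV E V | g.1 * prO B U hU = prO B U hU * g.1} := by
    ext g
    exact (blk_range B U hU g).symm
  rw [hrange]
  exact isClosed_eq (Units.continuous_val.mul continuous_const)
    (continuous_const.mul Units.continuous_val)

theorem tau_orth {B : SkewH E V} (τ : AntiU B) (U : Submodule E V)
    (hτ : ∀ u ∈ U, τ.t u ∈ U) : ∀ w ∈ orth B U, τ.t w ∈ orth B U := by
  intro w hw u hu
  have h1 := τ.ip w (τ.t u)
  rw [τ.inv] at h1
  rw [h1, B.skew w (τ.t u), hw _ (hτ u hu), star_zero, neg_zero]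

theorem blk_th {B : SkewH E V} (τ : AntiU B) (U : Submodule E V) (hU : NDeg B U)
    (hτ : ∀ u ∈ U, τ.t u ∈ U) (a : GV E U × GV E (orth B U)) :
    thG τ (blk B U hU a) = blk B U hU (thG (tauRes τ U hU hτ) a.1,
      thG (tauRes τ (orth B U) (ndeg_orth B U hU) (tau_orth τ U hτ)) a.2) := by
  apply Units.ext
  have h0 : (thG τ (blk B U hU a)).1 = conjτ τ (adj B (blkF B U hU a.1.1 a.2.1)) := rfl
  rw [h0, blkF_adj]
  refine blkF_ext B U hU (fun u => ?_) fun w => ?_
  · rw [blk_U]
    show τ.t (blkF B U hU _ _ (τ.t (u : V))) = _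
    have h1 : τ.t (u : V) = ((⟨τ.t u, hτ u u.2⟩ : U) : V) := rfl
    rw [h1, blkF_u]
    rfl
  · rw [blk_orth]
    show τ.t (blkF B U hU _ _ (τ.t (w : V))) = _
    have h1 : τ.t (w : V) = ((⟨τ.t w, tau_orth τ U hτ w w.2⟩ : orth B U) : V) := rfl
    rw [h1, blkF_w]
    rfl

theorem blk_ext1 (B : SkewH E V) (U : Submodule E V) (hU : NDeg B U)
    (k : UU (B.restrict U hU)) : (extU B U hU k).1 = blk B U hU (k.1, 1) := by
  apply Units.ext
  refine blkF_ext B U hU (fun u => ?_) fun w => ?_
  · rw [blk_U, extU_mem]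
  · rw [blk_orth, extU_orth B U hU k w.2]
    rfl

theorem blk_ext2 (B : SkewH E V) (U : Submodule E V) (hU : NDeg B U)
    (k : UU (B.restrict (orth B U) (ndeg_orth B U hU))) :
    (extU B (orth B U) (ndeg_orth B U hU) k).1 = blk B U hU (1, k.1) := by
  apply Units.ext
  refine blkF_ext B U hU (fun u => ?_) fun w => ?_
  · rw [blk_U, extU_orth B (orth B U) (ndeg_orth B U hU) k (by
      rw [orth_orth]
      exact u.2)]
    rfl
  · rw [blk_orth, extU_mem]

/-- `tneg` of a tensor product -/
theorem tneg_tens {B : SkewH E V} (τ : AntiU B) (U : Submodule E V) (hU : NDeg B U)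
    (hτ : ∀ u ∈ U, τ.t u ∈ U) (f1 : SF U ℂ) (f2 : SF (orth B U) ℂ) :
    tneg F τ (tens B U hU f1 f2) = tens B U hU (tneg F (tauRes τ U hU hτ) f1)
      (tneg F (tauRes τ (orth B U) (ndeg_orth B U hU) (tau_orth τ U hτ)) f2) := by
  apply SF.ext
  intro v
  show tens B U hU f1 f2 (- τ.t v) = _
  have e0 : -τ.t v = ((⟨-τ.t (prO B U hU v), U.neg_mem (hτ _ (prO_mem B U hU v))⟩ : U) : V) +
      ((⟨-τ.t (v - prO B U hU v), (orth B U).neg_mem
        (tau_orth τ U hτ _ (sub_prO_mem B U hU v))⟩ : orth B U) : V) := by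
    show -τ.t v = -τ.t (prO B U hU v) + -τ.t (v - prO B U hU v)
    rw [← neg_add, ← τ.add, add_sub_cancel]
  rw [e0]
  show f1 _ * f2 _ = _
  rw [blkF_p1, blkF_p2]
  rfl

end

end Pool.Agent.Work.MP_dd0ddf_al.C2
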