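import Pool.Agent.Work.MP_dd0ddf_al.C2.Found

/-!
# Definitions for descent to a fibre of an equivariant map onto a homogeneous space
-/

set_option linter.unusedSectionVars false

namespace Pool.Agent.Work.MP_dd0ddf_al.C2

noncomputable section

/-- `π : X → O` equivariant, `O` homogeneous with open orbit map, base point `o`, `B` smooth -/
structure DescData (Γ X O B : Type*) [Group Γ] [TopologicalSpace Γ] [TopologicalSpace X]
    [TopologicalSpace O] [AddCommGroup B] [Module ℂ B] where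
  A : CAct Γ X
  C : CAct Γ O
  R : SRep Γ B
  π : X → O
  hπ : Continuous π
  eqv : ∀ γ x, π (A.act γ x) = C.act γ (π x)
  o : O
  tr : ∀ y, ∃ γ, C.act γ o = y
  opn : IsOpenMap (fun γ => C.act γ o)

namespace DescData

variable {Γ X O B : Type*} [Group Γ] [TopologicalSpace Γ] [TopologicalSpace X]
    [TopologicalSpace O] [AddCommGroup B] [Module ℂ B] (D : DescData Γ X O B)

/-- the fibre over `o` -/
abbrev Fib : Type _ := {x : X // D.π x = D.o}

/-- the stabiliser of `o` -/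
def stab : Subgroup Γ where
  carrier := {γ | D.C.act γ D.o = D.o}
  mul_mem' := fun {a b} ha hb => by
    show D.C.act (a * b) D.o = D.o
    rw [D.C.mul, show D.C.act b D.o = D.o from hb]
    exact ha
  one_mem' := D.C.one D.o
  inv_mem' := fun {a} ha => by
    show D.C.act a⁻¹ D.o = D.o
    conv_lhs => rw [← show D.C.act a D.o = D.o from ha]
    exact D.C.inv_act a D.o

theorem mem_stab (γ : Γ) : γ ∈ D.stab ↔ D.C.act γ D.o = D.o := Iff.rfl

/-- the stabiliser acts on the fibre -/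
def fibAct : CAct D.stab D.Fib where
  act γ x := ⟨D.A.act γ.1 x.1, by rw [D.eqv, x.2]; exact γ.2⟩
  one x := Subtype.ext (D.A.one x.1)
  mul γ δ x := Subtype.ext (D.A.mul γ.1 δ.1 x.1)
  cont := (D.A.cont.comp ((continuous_subtype_val.comp continuous_fst).prodMk
    (continuous_subtype_val.comp continuous_snd))).subtype_mk _

/-- the restriction of the representation to the stabiliser -/
def resR : SRep D.stab B where
  β := D.R.β.comp D.stab.subtype
  smooth b := by
    obtain ⟨U, hU, h1, h⟩ := D.R.smooth b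
    exact ⟨(fun g : D.stab => g.1) ⁻¹' U, hU.preimage continuous_subtype_val, h1, fun γ hγ => h γ.1 hγ⟩

/-- the action of the stabiliser on `SF Fib B` -/
def fop (γ : D.stab) : SF D.Fib B →ₗ[ℂ] SF D.Fib B := D.fibAct.op D.resR γ

theorem fop_apply (γ : D.stab) (f : SF D.Fib B) (x : D.Fib) :
    D.fop γ f x = D.R.β γ.1 (f (D.fibAct.act γ⁻¹ x)) := rfl

/-- `F` is the function supported on `U · Fib` with `F(u x) = β(u) f(x)` -/
def IsEU (U : Subgroup Γ) (f : SF D.Fib B) (F : SF X B) : Prop :=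
  (∀ u ∈ U, ∀ x : D.Fib, F (D.A.act u x.1) = D.R.β u (f x)) ∧
    ∀ x : X, (∀ u ∈ U, D.C.act u D.o ≠ D.π x) → F x = 0

/-- compact open subgroup -/
def CO (U : Subgroup Γ) : Prop := IsOpen (U : Set Γ) ∧ IsCompact (U : Set Γ)

/-- `m` is a modulus for the descent: for every invariant functional `T` there is `T_o` with
`T (E_U f) = m(U) T_o(f)` -/
def IsMod (m : Subgroup Γ → ℝ) : Prop :=
  (∀ U, CO U → 0 < m U) ∧
  (∀ φ : Γ ≃* Γ, Continuous φ → Continuous φ.symm → (∀ γ, γ ∈ D.stab ↔ φ γ ∈ D.stab) →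
    ∃ d : ℝ, 0 < d ∧ ∀ U : Subgroup Γ, CO U → m (U.map φ.toMonoidHom) = d * m U) ∧
  ∀ T : SF X B →ₗ[ℂ] ℂ, (∀ γ f, T (D.A.op D.R γ f) = T f) →
    ∃ S : SF D.Fib B →ₗ[ℂ] ℂ, ∀ U f F, CO U → D.IsEU U f F → T F = m U * S f

/-- symmetry of descent data: `f ↦ (x ↦ sB (f (sX x)))`, compatible with an automorphism `sΓ` -/
structure DSym where
  sX : X ≃ₜ X
  sB : B →ₗ[ℂ] B
  sΓ : Γ ≃* Γ
  cont : Continuous sΓ
  cont' : Continuous sΓ.symm
  compX : ∀ γ x, sX (D.A.act (sΓ γ) x) = D.A.act γ (sX x)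
  compB : ∀ γ b, sB (D.R.β γ b) = D.R.β (sΓ γ) (sB b)
  fib : ∀ x, D.π (sX x) = D.o ↔ D.π x = D.o
  stb : ∀ γ, γ ∈ D.stab ↔ sΓ γ ∈ D.stab

variable {D}

theorem DSym.symm_mem (s : DSym D) (x : X) (hx : D.π x = D.o) : D.π (s.sX.symm x) = D.o := by
  have h := s.fib (s.sX.symm x)
  rw [s.sX.apply_symm_apply] at h
  exact h.mp hx

/-- restriction of the symmetry to the fibre -/
def DSym.fibHomeo (s : DSym D) : D.Fib ≃ₜ D.Fib where
  toFun x := ⟨s.sX x.1, (s.fib x.1).mpr x.2⟩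
  invFun x := ⟨s.sX.symm x.1, s.symm_mem x.1 x.2⟩
  left_inv x := Subtype.ext (s.sX.symm_apply_apply x.1)
  right_inv x := Subtype.ext (s.sX.apply_symm_apply x.1)
  continuous_toFun := (s.sX.continuous.comp continuous_subtype_val).subtype_mk _
  continuous_invFun := (s.sX.symm.continuous.comp continuous_subtype_val).subtype_mk _

end DescData

/-- a positive character, locally trivial -/
structure PosChar (Γ : Type*) [Group Γ] [TopologicalSpace Γ] where
  δ : Γ → ℝ
  pos : ∀ γ, 0 < δ γ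
  mul : ∀ γ γ', δ (γ * γ') = δ γ * δ γ'
  lc : ∃ U : Set Γ, IsOpen U ∧ (1 : Γ) ∈ U ∧ ∀ γ ∈ U, δ γ = 1

end

end Pool.Agent.Work.MP_dd0ddf_al.C2
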