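import Pool.Agent.Work.MP_dd0ddf_al.C2.Topo

/-!
# MP_dd0ddf_al (characteristic 2), module NiE1: elements of a quadratic extension in characteristic 2

`exists_eta`: `η = 1`.  `exists_art`: `e = x / (x + star x)` for `star x ≠ x`: `e + star e = 1`, `e star e = a ∈ F`.
-/

set_option linter.unusedSectionVars false
set_option linter.style.haveILetI false

namespace Pool.Agent.Work.MP_dd0ddf_al.C2

universe u

noncomputable section

variable (F E : Type u) [Field F] [CharP F 2] [Field E] [Algebra F E] [StarRing E] [QExt F E]

theorem fixed_of_star (x : E) (hx : star x = x) : ∃ f : F, x = algebraMap F E f := by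
  haveI : FiniteDimensional F E := qext_findim F E
  by_contra hcon
  push Not at hcon
  obtain ⟨x0, hx0⟩ := QExt.nontriv (F := F) (E := E)
  have hli : LinearIndependent F ![(1 : E), x] := by
    rw [LinearIndependent.pair_iff]
    intro s t hst
    by_cases ht : t = 0
    · subst ht
      rw [zero_smul, add_zero, Algebra.smul_def, mul_one] at hst
      exact ⟨(map_eq_zero _).1 hst, rfl⟩
    · exfalso
      apply hcon (-s / t)
      rw [Algebra.smul_def, Algebra.smul_def, mul_one] at hst
      have ht' : algebraMap F E t ≠ 0 := by rwa [Ne, map_eq_zero]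
      rw [map_div₀, map_neg, eq_div_iff ht']
      linear_combination hst
  have hb : Submodule.span F (Set.range ![(1 : E), x]) = ⊤ := by
    apply hli.span_eq_top_of_card_eq_finrank'
    rw [QExt.finrank_two (F := F) (E := E)]
    rfl
  have h1 : x0 ∈ Submodule.span F (Set.range ![(1 : E), x]) := by rw [hb]; trivial
  rw [Matrix.range_cons, Matrix.range_cons, Matrix.range_empty, Set.union_empty,
    Set.singleton_union, Submodule.mem_span_pair] at h1
  obtain ⟨s, t, rfl⟩ := h1
  apply hx0
  rw [Algebra.smul_def, Algebra.smul_def, star_add, star_mul', star_mul', QExt.star_alg,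
    QExt.star_alg, hx, star_one]

theorem exists_eta : ∃ η : E, η ≠ 0 ∧ star η = -η ∧ (∃ d : F, d ≠ 0 ∧ η ^ 2 = algebraMap F E d) ∧
    (∀ x : E, star x = -x → ∃ f : F, x = algebraMap F E f * η) ∧
    (∀ x : E, star x = x → ∃ f : F, x = algebraMap F E f) := by
  haveI : CharP E 2 := char2_of_injective (algebraMap F E).injective
  refine ⟨1, one_ne_zero, ?_, ⟨1, one_ne_zero, ?_⟩, fun x hx => ?_, fixed_of_star F E⟩
  · rw [star_one, CharTwo.neg_eq]
  · rw [one_pow, map_one]
  · rw [CharTwo.neg_eq] at hx
    obtain ⟨f, hf⟩ := fixed_of_star F E x hx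
    exact ⟨f, by rw [mul_one, hf]⟩

/-- an Artin-Schreier generator: `e + star e = 1`, `e star e = a` -/
theorem exists_art : ∃ (e : E) (a : F), e + star e = 1 ∧ e * star e = algebraMap F E a := by
  obtain ⟨x, hx⟩ := QExt.nontriv (F := F) (E := E)
  haveI : CharP E 2 := char2_of_injective (algebraMap F E).injective
  have h0 : x + star x ≠ 0 := by
    intro h
    apply hx
    have h4 : star x = -x := by linear_combination h
    rw [h4, CharTwo.neg_eq]
  have h1 : star (x + star x) = x + star x := by rw [star_add, star_star, add_comm]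
  have h2 : star (x / (x + star x)) = star x / (x + star x) := by
    rw [div_eq_mul_inv, star_mul', star_inv₀, h1, ← div_eq_mul_inv]
  have h3 : x / (x + star x) + star (x / (x + star x)) = 1 := by
    rw [h2, ← add_div, div_self h0]
  obtain ⟨a, ha⟩ := fixed_of_star F E (x / (x + star x) * star (x / (x + star x)))
    (by rw [star_mul', star_star, mul_comm])
  exact ⟨_, a, h3, ha⟩

include F in
theorem exists_dl : Nonempty (Dl E) := by
  obtain ⟨e, -, he, -⟩ := exists_art F E
  exact ⟨⟨e, he⟩⟩

include F in
theorem exists_dd : ∃ d : E, d + star d = 1 := by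
  obtain ⟨e, -, he, -⟩ := exists_art F E
  exact ⟨e, he⟩

include F in
theorem star_eq_add_one {e : E} (he : e + star e = 1) : star e = e + 1 := by
  haveI : CharP E 2 := char2_of_injective (algebraMap F E).injective
  have h2 : (2 : E) = 0 := CharTwo.two_eq_zero
  linear_combination he - e * h2

include F in
theorem art_sq {e : E} {a : F} (he : e + star e = 1) (ha : e * star e = algebraMap F E a) :
    e ^ 2 = e + algebraMap F E a := by
  haveI : CharP E 2 := char2_of_injective (algebraMap F E).injective
  have h2 : (2 : E) = 0 := CharTwo.two_eq_zero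
  have h3 := star_eq_add_one F E he
  rw [h3] at ha
  linear_combination ha - e * h2

end

section Norm

variable {F E : Type u} [NontriviallyNormedField F] [IsUltrametricDist F] [ProperSpace F]
  [CharP F 2] [NontriviallyNormedField E] [NormedAlgebra F E] [ProperSpace E] [StarRing E]
  [QExt F E]

variable (F) in
include F in
private theorem nie1_not_lt (z : E) (hz : z * star z = 1) : ¬ ‖z‖ < 1 := by
  intro h
  have h1 : Filter.Tendsto (fun n : ℕ => z ^ n) Filter.atTop (nhds 0) :=
    tendsto_pow_atTop_nhds_zero_of_norm_lt_one h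
  have h2 : Filter.Tendsto (fun n : ℕ => star (z ^ n)) Filter.atTop (nhds (star (0 : E))) :=
    ((continuous_star_E F E).tendsto 0).comp h1
  have h3 := h1.mul h2
  rw [star_zero, mul_zero] at h3
  have h4 : (fun n : ℕ => z ^ n * star (z ^ n)) = fun _ => (1 : E) := by
    funext n
    rw [star_pow, ← mul_pow, hz, one_pow]
  rw [h4] at h3
  exact one_ne_zero (tendsto_nhds_unique tendsto_const_nhds h3)

variable (F) in
include F in
private theorem nie1_one (z : E) (hz : z * star z = 1) : ‖z‖ = 1 := by
  have h1 := nie1_not_lt F z hz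
  have h2 := nie1_not_lt F (star z) (by rw [star_star, mul_comm]; exact hz)
  have h3 : ‖z‖ * ‖star z‖ = 1 := by rw [← norm_mul, hz, norm_one]
  push Not at h1 h2
  nlinarith [norm_nonneg z, norm_nonneg (star z)]

variable (F E) in
include F in
theorem norm_star_eq (x : E) : ‖star x‖ = ‖x‖ := by
  rcases eq_or_ne x 0 with rfl | hx
  · rw [star_zero]
  · have hsx : star x ≠ 0 := by
      intro h
      apply hx
      rw [← star_star x, h, star_zero]
    have h1 : (star x / x) * star (star x / x) = 1 := by
      rw [star_div₀, star_star]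
      field_simp
    have h2 := nie1_one F _ h1
    rw [norm_div, div_eq_one_iff_eq (norm_ne_zero_iff.2 hx)] at h2
    exact h2

variable (F) in
include F in
/-- coordinates with respect to `1, e` -/
theorem coord_eq {e : E} (he : e + star e = 1) (x : E) :
    ∃ r s : F, x = algebraMap F E r + algebraMap F E s * e ∧ algebraMap F E s = x + star x ∧
      ‖s‖ ≤ ‖x‖ ∧ ‖r‖ ≤ ‖x‖ * ‖e‖ := by
  haveI : CharP E 2 := char2_of_injective (algebraMap F E).injective
  haveI : IsUltrametricDist E := IsUltrametricDist.of_normedAlgebra F
  have h2 : (2 : E) = 0 := CharTwo.two_eq_zero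
  obtain ⟨s, hs⟩ := fixed_of_star F E (x + star x) (by rw [star_add, star_star, add_comm])
  obtain ⟨r, hr⟩ := fixed_of_star F E (x * star e + star x * e) (by
    rw [star_add, star_mul', star_mul', star_star, star_star, add_comm])
  refine ⟨r, s, ?_, hs.symm, ?_, ?_⟩
  · rw [← hs, ← hr, star_eq_add_one F E he]
    linear_combination (-x * e - star x * e) * h2
  · rw [← norm_algebraMap' E s, ← hs]
    refine (IsUltrametricDist.norm_add_le_max _ _).trans ?_
    rw [norm_star_eq F E, max_self]
  · rw [← norm_algebraMap' E r, ← hr]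
    refine (IsUltrametricDist.norm_add_le_max _ _).trans ?_
    rw [norm_mul, norm_mul, norm_star_eq F E, norm_star_eq F E, max_self]

end Norm

end Pool.Agent.Work.MP_dd0ddf_al.C2
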