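import Pool.Agent.Work.MP_dd0ddf_al.C2.Topo
import Pool.Agent.Work.MP_dd0ddf_al.C2.NiE1
import Pool.Agent.Work.MP_dd0ddf_al.C2.Witt
import Pool.Agent.Work.MP_dd0ddf_al.C2.DescDefs

/-!
# MP_dd0ddf_al, module NoPos: U(V) has no nontrivial positive locally trivial character

`δ : PosChar (UU B)`.  By `qr_closure` it is enough to show `δ (qr v β) = 1` (v ≠ 0).
Case `⟨v,v⟩ ≠ 0`: the elements `qr v β` (β ≠ 0, conj β - β = ⟨v,v⟩) together with 1 form the group of all maps `v ↦ z v`, `1` on `v^⊥`, with
`z = conj β/β`, `z conj z = 1`: the continuous image of the compact group `E^1 = {z : z conj z = 1}` (closed; bounded: `star` is continuous, and if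
`|z| > 1` then `z^{-m} → 0` while `star(z^{-m}) = z^m → ∞`, contradiction; same for `|z| < 1`).  So `δ` of this group is a compact (it is
locally constant, hence has finite image) subgroup of the positive reals: trivial.  (finite image: a finite subgroup of ℝ_{>0} is trivial.)
Case `⟨v,v⟩ = 0`: `star β = β`.  For `c ≠ 0` there is (Witt, `witt_vec` since `⟨cv,cv⟩ = 0`) an `h` with `h v = c v`, and
`h (qr v β) h⁻¹ = qr (c v) β = qr v (β/(c conj c))`, so `δ (qr v β) = δ (qr v (β/(c conj c)))`; for `c` small the operator `qr v (β/(c conj c))` is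
as close to 1 as we like (both it and its inverse), hence `δ = 1`.
-/

set_option linter.unusedSectionVars false
set_option linter.style.haveILetI false

namespace Pool.Agent.Work.MP_dd0ddf_al.C2

noncomputable section

universe u

variable {F E : Type u} [NontriviallyNormedField F] [IsUltrametricDist F] [ProperSpace F]
  [CharP F 2] [NontriviallyNormedField E] [NormedAlgebra F E] [ProperSpace E] [StarRing E]
  [QExt F E]
variable {V : Type u} [AddCommGroup V] [Module E V] [Module.Finite E V] [TopologicalSpace V]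
  [IsTopologicalAddGroup V] [T2Space V] [ContinuousSMul E V]

variable (F) in
include F in
private theorem nopos_not_lt (z : E) (hz : z * star z = 1) : ¬ ‖z‖ < 1 := by
  intro h
  have h1 : Filter.Tendsto (fun n : ℕ => z ^ n) Filter.atTop (nhds 0) :=
    tendsto_pow_atTop_nhds_zero_of_norm_lt_one h
  have h2 : Filter.Tendsto (fun n : ℕ => star (z ^ n)) Filter.atTop (nhds (star (0 : E))) :=
    ((continuous_star_E F E).tendsto 0).comp h1
  have h3 := h1.mul h2
  rw [star_zero, mul_zero] at h3
  have h4 : (fun n : ℕ => z ^ n * star (z ^ n)) = fun _ => (1 : E) := by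
    funext n
    rw [star_pow, ← mul_pow, hz, one_pow]
  rw [h4] at h3
  exact one_ne_zero (tendsto_nhds_unique tendsto_const_nhds h3)

variable (F) in
include F in
theorem norm_one_of_unit (z : E) (hz : z * star z = 1) : ‖z‖ = 1 := by
  have h1 := nopos_not_lt F z hz
  have h2 := nopos_not_lt F (star z) (by rw [star_star, mul_comm]; exact hz)
  have h3 : ‖z‖ * ‖star z‖ = 1 := by rw [← norm_mul, hz, norm_one]
  push Not at h1 h2
  nlinarith [norm_nonneg z, norm_nonneg (star z)]

variable (F) in
include F in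
theorem isCompact_norm_one : IsCompact {z : E | z * star z = 1} := by
  apply Metric.isCompact_of_isClosed_isBounded
  · exact isClosed_eq (continuous_id.mul (continuous_star_E F E)) continuous_const
  · refine (Metric.isBounded_closedBall (x := (0 : E)) (r := 1)).subset ?_
    intro z hz
    rw [Metric.mem_closedBall, dist_zero_right, norm_one_of_unit F z hz]

private theorem nopos_ev (B : SkewH E V) (v : V) {W : Set (UU B)} (hW : IsOpen W)
    (h1 : (1 : UU B) ∈ W) : ∃ ε : ℝ, 0 < ε ∧ ∀ (t t' : E), ‖t‖ < ε → ‖t'‖ < ε →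
      ∀ g : UU B, g.1.1 = qrLin B v t → g.1⁻¹.1 = qrLin B v t' → g ∈ W := by
  have hq : Continuous fun t : E => qrLin B v t := by
    refine continuous_induced_rng.mpr (continuous_pi fun a => ?_)
    show Continuous fun t : E => a + (t * B.ip a v) • v
    exact continuous_const.add ((continuous_id.mul continuous_const).smul continuous_const)
  have h0 : qrLin B v 0 = 1 := by
    ext a
    rw [qrLin_apply, zero_mul, zero_smul, add_zero]
    rfl
  have hW' : W ∈ nhds (1 : UU B) := hW.mem_nhds h1
  rw [nhds_subtype_eq_comap, Units.isEmbedding_embedProduct.isInducing.nhds_eq_comap,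
    Filter.comap_comap] at hW'
  obtain ⟨W1, hW1, hsub⟩ := Filter.mem_comap.1 hW'
  have hc : Continuous fun q : E × E =>
      ((qrLin B v q.1, MulOpposite.op (qrLin B v q.2)) :
        Module.End E V × (Module.End E V)ᵐᵒᵖ) :=
    (hq.comp continuous_fst).prodMk (MulOpposite.continuous_op.comp (hq.comp continuous_snd))
  have hev : ∀ᶠ q : E × E in nhds (0, 0),
      ((qrLin B v q.1, MulOpposite.op (qrLin B v q.2)) :
        Module.End E V × (Module.End E V)ᵐᵒᵖ) ∈ W1 := by
    refine hc.continuousAt.eventually ?_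
    have e : ((qrLin B v (0 : E), MulOpposite.op (qrLin B v (0 : E))) :
        Module.End E V × (Module.End E V)ᵐᵒᵖ) =
        Units.embedProduct (Module.End E V) ((1 : UU B) : GV E V) := by
      rw [h0]
      rfl
    show ∀ᶠ y in nhds ((qrLin B v (0 : E), MulOpposite.op (qrLin B v (0 : E))) :
        Module.End E V × (Module.End E V)ᵐᵒᵖ), y ∈ W1
    rw [e]
    exact hW1
  obtain ⟨ε, hε, hball⟩ := Metric.eventually_nhds_iff.1 hev
  refine ⟨ε, hε, fun t t' ht ht' g hg hg' => ?_⟩
  apply hsub
  have hd : dist ((t, t') : E × E) (0, 0) < ε := by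
    rw [Prod.dist_eq]
    simp only [dist_zero_right]
    exact max_lt ht ht'
  have := hball hd
  show Units.embedProduct (Module.End E V) g.1 ∈ W1
  have e : Units.embedProduct (Module.End E V) g.1 =
      ((qrLin B v t, MulOpposite.op (qrLin B v t')) :
        Module.End E V × (Module.End E V)ᵐᵒᵖ) := by
    rw [← hg, ← hg']
    rfl
  rw [e]
  exact this

private theorem nopos_comp (B : SkewH E V) (v : V) (c d : E) :
    qrLin B v c * qrLin B v d = qrLin B v (d + c + c * d * B.ip v v) := by
  ext a
  show qrLin B v c (qrLin B v d a) = _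
  rw [qrLin_apply, qrLin_apply, qrLin_apply, B.add_left, B.smul_left, add_assoc, ← add_smul]
  congr 2
  ring

private theorem nopos_isom (B : SkewH E V) (v : V) (c : E)
    (hc : star c - c + c * star c * B.ip v v = 0) (a b : V) :
    B.ip (qrLin B v c a) (qrLin B v c b) = B.ip a b := by
  rw [qrLin_apply, qrLin_apply, B.add_left, B.add_right, B.add_right, B.smul_left, B.smul_left,
    B.smul_right, B.smul_right, star_mul', B.skew b v]
  linear_combination (B.ip a v * star (B.ip b v)) * hc

private theorem nopos_pow {Γ : Type*} [Group Γ] [TopologicalSpace Γ] (δ : PosChar Γ) :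
    δ.δ 1 = 1 := by
  have h := δ.mul 1 1
  rw [mul_one] at h
  have h0 := δ.pos 1
  nlinarith

variable (F) in
include F in
private theorem nopos_two : ∃ d : E, d + star d = 1 := exists_dd F E

/-- the operator with `v ↦ z v`, identity on the complement of `v` -/
private def nopos_phi (B : SkewH E V) (v : V) (hs : B.ip v v ≠ 0) (z : E)
    (hz : z * star z = 1) : UU B :=
  ⟨⟨qrLin B v ((z - 1) / B.ip v v), qrLin B v ((star z - 1) / B.ip v v), by
      rw [nopos_comp]
      have : (star z - 1) / B.ip v v + (z - 1) / B.ip v v +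
          (z - 1) / B.ip v v * ((star z - 1) / B.ip v v) * B.ip v v = 0 := by
        field_simp
        linear_combination hz
      rw [this]
      ext a
      rw [qrLin_apply, zero_mul, zero_smul, add_zero]
      rfl, by
      rw [nopos_comp]
      have : (z - 1) / B.ip v v + (star z - 1) / B.ip v v +
          (star z - 1) / B.ip v v * ((z - 1) / B.ip v v) * B.ip v v = 0 := by
        field_simp
        linear_combination hz
      rw [this]
      ext a
      rw [qrLin_apply, zero_mul, zero_smul, add_zero]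
      rfl⟩, by
    intro a b
    refine nopos_isom B v _ ?_ a b
    have h1 : star (B.ip v v) = - B.ip v v := by
      have := B.skew v v
      rw [eq_neg_iff_add_eq_zero, add_comm, ← eq_neg_iff_add_eq_zero] at this
      exact this
    rw [star_div₀, star_sub, star_one, h1]
    field_simp
    linear_combination -hz⟩

private theorem nopos_powmem {z : E} (hz : z * star z = 1) (n : ℕ) :
    z ^ n * star (z ^ n) = 1 := by
  rw [star_pow, ← mul_pow, hz, one_pow]

private theorem nopos_delta_pow (B : SkewH E V) (δ : PosChar (UU B)) (v : V)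
    (hs : B.ip v v ≠ 0) (z : E) (hz : z * star z = 1) (n : ℕ) :
    δ.δ (nopos_phi B v hs (z ^ n) (nopos_powmem hz n)) = δ.δ (nopos_phi B v hs z hz) ^ n := by
  induction n with
  | zero =>
    have e : nopos_phi B v hs (z ^ 0) (nopos_powmem hz 0) = 1 := by
      apply Subtype.ext
      apply Units.ext
      show qrLin B v ((z ^ 0 - 1) / B.ip v v) = 1
      rw [pow_zero, sub_self, zero_div]
      ext a
      rw [qrLin_apply, zero_mul, zero_smul, add_zero]
      rfl
    rw [e, nopos_pow δ]
    exact (pow_zero _).symm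
  | succ n ih =>
    have e : nopos_phi B v hs (z ^ (n + 1)) (nopos_powmem hz (n + 1)) =
        nopos_phi B v hs (z ^ n) (nopos_powmem hz n) * nopos_phi B v hs z hz := by
      apply Subtype.ext
      apply Units.ext
      show qrLin B v ((z ^ (n + 1) - 1) / B.ip v v) =
        qrLin B v ((z ^ n - 1) / B.ip v v) * qrLin B v ((z - 1) / B.ip v v)
      rw [nopos_comp]
      congr 1
      field_simp
      ring
    rw [e, δ.mul, ih]
    exact (pow_succ _ _).symm

variable (F) in
include F in
private theorem nopos_caseA (B : SkewH E V) (δ : PosChar (UU B)) (v : V)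
    (hs : B.ip v v ≠ 0) (z : E) (hz : z * star z = 1) :
    δ.δ (nopos_phi B v hs z hz) = 1 := by
  obtain ⟨W, hW, hW1, hWδ⟩ := δ.lc
  obtain ⟨ε, hε, hball⟩ := nopos_ev B v hW hW1
  have hz1 : ‖z‖ = 1 := norm_one_of_unit F z hz
  have hsn : 0 < ‖B.ip v v‖ := norm_pos_iff.2 hs
  -- pigeonhole
  obtain ⟨a, -, φ, hφ, hlim⟩ := (isCompact_norm_one (F := F) (E := E)).tendsto_subseq
    (x := fun n : ℕ => z ^ n) (fun n => nopos_powmem hz n)
  have hcau := hlim.cauchySeq
  obtain ⟨N, hN⟩ := Metric.cauchySeq_iff.1 hcau (ε * ‖B.ip v v‖) (mul_pos hε hsn)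
  have hd := hN (N + 1) (by omega) N le_rfl
  have hlt : φ N < φ (N + 1) := hφ (by omega)
  obtain ⟨k, hk⟩ := Nat.exists_eq_add_of_lt hlt
  have hd2 : ‖z ^ (k + 1) - 1‖ < ε * ‖B.ip v v‖ := by
    have e : (z ^ (φ (N + 1)) - z ^ (φ N)) = z ^ (φ N) * (z ^ (k + 1) - 1) := by
      rw [hk]
      ring
    rw [dist_eq_norm] at hd
    simp only [Function.comp] at hd
    rw [e, norm_mul, norm_pow, hz1, one_pow, one_mul] at hd
    exact hd
  set w := z ^ (k + 1) with hw
  have hww := nopos_powmem hz (k + 1)
  have hw1 : ‖w‖ = 1 := norm_one_of_unit F w hww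
  have h1 : ‖(w - 1) / B.ip v v‖ < ε := by
    rw [norm_div, div_lt_iff₀ hsn]
    exact hd2
  have h2 : ‖(star w - 1) / B.ip v v‖ < ε := by
    have e : ‖star w - 1‖ = ‖w - 1‖ := by
      have e1 : w * (star w - 1) = -(w - 1) := by
        linear_combination hww
      have e2 : ‖w * (star w - 1)‖ = ‖w - 1‖ := by rw [e1, norm_neg]
      rwa [norm_mul, hw1, one_mul] at e2
    rw [norm_div, div_lt_iff₀ hsn, e]
    exact hd2
  have h3 := hWδ _ (hball _ _ h1 h2 (nopos_phi B v hs w hww) rfl rfl)
  rw [nopos_delta_pow B δ v hs z hz (k + 1)] at h3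
  exact (pow_eq_one_iff_of_nonneg (δ.pos _).le (by omega)).1 h3

variable (F) in
include F in
private theorem nopos_caseB (B : SkewH E V) (δ : PosChar (UU B)) (v : V) (β : E)
    (h : QRok B v β) (hv : v ≠ 0) (hs : B.ip v v = 0) :
    δ.δ (qr B v β h) = 1 := by
  obtain ⟨W, hW, hW1, hWδ⟩ := δ.lc
  obtain ⟨ε, hε, hball⟩ := nopos_ev B v hW hW1
  have hβ : star β = β := by
    have := h.2
    rw [hs, sub_eq_zero] at this
    exact this
  -- small c
  have hc : ∃ c : E, c ≠ 0 ∧ ‖β⁻¹ * (c * star c)‖ < ε := by
    have ht : Filter.Tendsto (fun c : E => ‖β⁻¹ * (c * star c)‖) (nhdsWithin 0 {0}ᶜ) (nhds 0) := by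
      have hcont : Continuous fun c : E => ‖β⁻¹ * (c * star c)‖ :=
        (continuous_const.mul (continuous_id.mul (continuous_star_E F E))).norm
      have := (hcont.tendsto 0).mono_left (nhdsWithin_le_nhds (s := ({0}ᶜ : Set E)))
      simpa using this
    have h1 := (ht.eventually (gt_mem_nhds hε)).and self_mem_nhdsWithin
    obtain ⟨c, h2, h3⟩ := h1.exists
    exact ⟨c, h3, h2⟩
  obtain ⟨c, hc0, hcε⟩ := hc
  obtain ⟨g, hg⟩ := witt_vec B (nopos_two F) v (c • v) hv (smul_ne_zero hc0 hv) (by
    rw [B.smul_left, B.smul_right, hs, mul_zero, mul_zero])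
  have hconj : δ.δ (g * qr B v β h * g⁻¹) = δ.δ (qr B v β h) := by
    have e1 := δ.mul (g * qr B v β h) g⁻¹
    have e2 := δ.mul g (qr B v β h)
    have e3 := δ.mul g g⁻¹
    rw [mul_inv_cancel, nopos_pow δ] at e3
    rw [e1, e2]
    linear_combination (-δ.δ (qr B v β h)) * e3
  have hgi : ∀ a : V, g.1.1 (g.1⁻¹.1 a) = a := fun a =>
    congrArg (fun f : Module.End E V => f a) g.1.mul_inv
  have hip : ∀ a : V, B.ip (g.1⁻¹.1 a) v = star c * B.ip a v := by
    intro a
    have := g.2 (g.1⁻¹.1 a) v
    rw [hgi, hg, B.smul_right] at this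
    exact this.symm
  have key : ∀ t : E, ∀ a : V, g.1.1 (qrLin B v t (g.1⁻¹.1 a)) =
      qrLin B v (t * (c * star c)) a := by
    intro t a
    rw [qrLin_apply, qrLin_apply, map_add, map_smul, hgi, hg, hip, smul_smul]
    congr 2
    ring
  have hval : (g * qr B v β h * g⁻¹).1.1 = qrLin B v (β⁻¹ * (c * star c)) := by
    ext a
    exact key β⁻¹ a
  have hinv : (g * qr B v β h * g⁻¹).1⁻¹.1 = qrLin B v (-(β⁻¹ * (c * star c))) := by
    have e1 : (g * qr B v β h * g⁻¹).1⁻¹ = g.1 * (qr B v β h).1⁻¹ * g.1⁻¹ := by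
      rw [Subgroup.coe_mul, Subgroup.coe_mul, Subgroup.coe_inv]
      group
    rw [e1]
    ext a
    have e2 := key (-(star β)⁻¹) a
    refine Eq.trans e2 ?_
    rw [hβ, neg_mul]
  rw [← hconj]
  refine hWδ _ (hball _ _ hcε ?_ _ hval hinv)
  rw [norm_neg]
  exact hcε

variable (F) in
include F in
theorem noPos (B : SkewH E V) (δ : PosChar (UU B)) (h : UU B) : δ.δ h = 1 := by
  let K : Subgroup (UU B) :=
    { carrier := {g | δ.δ g = 1}
      mul_mem' := fun {a b} ha hb => by
        show δ.δ (a * b) = 1
        rw [δ.mul, show δ.δ a = 1 from ha, show δ.δ b = 1 from hb, one_mul]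
      one_mem' := nopos_pow δ
      inv_mem' := fun {a} ha => by
        show δ.δ a⁻¹ = 1
        have e := δ.mul a a⁻¹
        rw [mul_inv_cancel, nopos_pow δ, show δ.δ a = 1 from ha, one_mul] at e
        exact e.symm }
  have hK : qrSet B ⊆ K := by
    rintro _ ⟨v, β, hβ, hv, rfl⟩
    show δ.δ (qr B v β hβ) = 1
    by_cases hs : B.ip v v = 0
    · exact nopos_caseB F B δ v β hβ hv hs
    · have hsb : star β ≠ 0 := star_ne_zero.2 hβ.1
      have hz : (star β / β) * star (star β / β) = 1 := by
        have := hβ.1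
        rw [star_div₀, star_star]
        field_simp
      rw [← nopos_caseA F B δ v hs (star β / β) hz]
      congr 1
      apply Subtype.ext
      apply Units.ext
      show qrLin B v β⁻¹ = qrLin B v ((star β / β - 1) / B.ip v v)
      congr 1
      have h1 := hβ.1
      rw [← hβ.2] at hs ⊢
      field_simp
  have hcl := qr_closure B (nopos_two F)
  have : (⊤ : Subgroup (UU B)) ≤ K := by
    rw [← hcl]
    exact (Subgroup.closure_le K).2 hK
  exact this (Subgroup.mem_top h)

end

end Pool.Agent.Work.MP_dd0ddf_al.C2
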