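import Pool.Agent.Work.MP_dd0ddf_al.C2.FdRestr

/-!
# MP_dd0ddf_al, module FdLoc: localisation principle (Bernstein)

`π : X → Y` continuous, `Y` totally separated, `O_i f (x) = m_i (f (a_i x))` with `π (a_i x) = π x`.

Proof plan.  Suppose `T ≠ 0`, `T f ≠ 0`.  Let `Rel` be the span of all `O_i g - c_i g` (`g ∈ SF X B`, i); `T` kills `Rel`, so `f ∉ Rel`.
`Rel` is stable under multiplication by the indicator of `π⁻¹(U)`, `U` clopen in `Y` (`ind` commutes with `O_i` because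
`π (a_i x) = π x`).
(1) There is `y` with: for all clopen `U ∋ y`: `1_{π⁻¹ U} f ∉ Rel`.  Otherwise every `y` in the compact set `π(supp f)` has a clopen
neighbourhood `U_y` with `1_{π⁻¹ U_y} f ∈ Rel`; finitely many `U_1..U_N` cover `π(supp f)`; with `U_i' = U_i` minus the earlier ones,
`1_{π⁻¹U_i'} f = 1_{π⁻¹U_i'} 1_{π⁻¹U_i} f ∈ Rel` and `f` is the sum of these: contradiction.
(2) `f ∉ Rel + {g : g = 0 on π⁻¹(y)}`: if `f = r + g`, `supp g` is compact and disjoint from `π⁻¹(y)`, so `π (supp g)` is compact and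
does not contain `y`; `Y` is totally separated, so there is a clopen `U ∋ y` disjoint from `π (supp g)` (cover by clopens).  Then
`1_{π⁻¹U} f = 1_{π⁻¹U} r ∈ Rel`, contradiction with (1).
(3) Take a linear functional `T'` on `SF X B` vanishing on `Rel + {g : g = 0 on π⁻¹(y)}` with `T' f ≠ 0`
(`Submodule.exists_le_ker_of_notMem` or similar).  By `supp_on_factor` (`Z = π⁻¹ y` closed) it comes from a functional `S` on
`SF {x // π x = y} B`; `S ≠ 0` and `S (opr (fibH ..) (m i) g) = c_i S g` (restr is surjective and commutes with the operators).  This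
contradicts `h y`.
-/

set_option linter.unusedSectionVars false

namespace Pool.Agent.Work.MP_dd0ddf_al.C2

noncomputable section

variable {X Y B : Type*} {ι : Type*} [TopologicalSpace X] [T2Space X] [LocallyCompactSpace X]
  [TotallyDisconnectedSpace X] [TopologicalSpace Y] [TotallySeparatedSpace Y]
  [AddCommGroup B] [Module ℂ B]

/-- the span of the elements `O_i g - c_i g` -/
private def fdLoc_Rel (a : ι → X ≃ₜ X) (m : ι → B →ₗ[ℂ] B) (c : ι → ℂ) : Submodule ℂ (SF X B) :=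
  Submodule.span ℂ {h | ∃ (i : ι) (g : SF X B), h = SF.opr (a i) (m i) g - c i • g}

private theorem fdLoc_ind_mem (π : X → Y) (hπ : Continuous π) (a : ι → X ≃ₜ X)
    (ha : ∀ i x, π (a i x) = π x) (m : ι → B →ₗ[ℂ] B) (c : ι → ℂ) (U : Set Y) (hU : IsClopen U)
    (r : SF X B) (hr : r ∈ fdLoc_Rel a m c) :
    SF.ind (π ⁻¹' U) (hU.preimage hπ) r ∈ fdLoc_Rel a m c := by
  have h1 : fdLoc_Rel a m c ≤ (fdLoc_Rel a m c).comap
      (SF.ind (B := B) (π ⁻¹' U) (hU.preimage hπ)) := by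
    unfold fdLoc_Rel
    rw [Submodule.span_le]
    rintro _ ⟨i, g, rfl⟩
    refine Submodule.subset_span ⟨i, SF.ind (π ⁻¹' U) (hU.preimage hπ) g, ?_⟩
    rw [map_sub, map_smul]
    congr 1
    apply SF.ext
    intro x
    rw [SF.opr_apply]
    by_cases hx : x ∈ π ⁻¹' U
    · have hx' : a i x ∈ π ⁻¹' U := by
        change π (a i x) ∈ U
        rw [ha]
        exact hx
      rw [SF.ind_apply_mem _ _ _ _ hx, SF.ind_apply_mem _ _ _ _ hx', SF.opr_apply]
    · have hx' : a i x ∉ π ⁻¹' U := by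
        change ¬ π (a i x) ∈ U
        rw [ha]
        exact hx
      rw [SF.ind_apply_not_mem _ _ _ _ hx, SF.ind_apply_not_mem _ _ _ _ hx', map_zero]
  exact h1 hr

private theorem fdLoc_supp_compact (f : SF X B) : IsCompact (Function.support f.1) := by
  have h0 : IsClosed (Function.support f.1) := by
    refine ⟨?_⟩
    have h : (Function.support f.1)ᶜ = f.1 ⁻¹' {0} := by
      ext x
      simp [Function.mem_support]
    rw [h]
    exact f.2.1 _
  have h1 : tsupport f.1 = Function.support f.1 := h0.closure_eq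
  rw [← h1]
  exact f.2.2

/-- step (1) -/
private theorem fdLoc_one (π : X → Y) (hπ : Continuous π) (a : ι → X ≃ₜ X)
    (ha : ∀ i x, π (a i x) = π x) (m : ι → B →ₗ[ℂ] B) (c : ι → ℂ) (f : SF X B)
    (hf : f ∉ fdLoc_Rel a m c) :
    ∃ y : Y, ∀ (U : Set Y) (hU : IsClopen U), y ∈ U →
      SF.ind (π ⁻¹' U) (hU.preimage hπ) f ∉ fdLoc_Rel a m c := by
  by_contra hcon
  push Not at hcon
  apply hf
  have key : ∃ (U : Set Y) (hU : IsClopen U), π '' Function.support f.1 ⊆ U ∧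
      SF.ind (π ⁻¹' U) (hU.preimage hπ) f ∈ fdLoc_Rel a m c := by
    refine ((fdLoc_supp_compact f).image hπ).induction_on (p := fun s =>
      ∃ (U : Set Y) (hU : IsClopen U), s ⊆ U ∧
      SF.ind (π ⁻¹' U) (hU.preimage hπ) f ∈ fdLoc_Rel a m c) ?_ ?_ ?_ ?_
    · refine ⟨∅, isClopen_empty, Set.empty_subset _, ?_⟩
      have h1 : SF.ind (π ⁻¹' (∅ : Set Y)) (isClopen_empty.preimage hπ) f = 0 := by
        apply SF.ext
        intro x
        exact SF.ind_apply_not_mem _ _ _ _ (fun h => h)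
      rw [h1]
      exact Submodule.zero_mem _
    · rintro s t hst ⟨U, hU, h1, h2⟩
      exact ⟨U, hU, hst.trans h1, h2⟩
    · rintro s t ⟨U, hU, h1, h2⟩ ⟨U', hU', h3, h4⟩
      refine ⟨U ∪ U', hU.union hU', Set.union_subset_union h1 h3, ?_⟩
      have h5 : SF.ind (π ⁻¹' (U ∪ U')) ((hU.union hU').preimage hπ) f =
          SF.ind (π ⁻¹' U) (hU.preimage hπ) f +
          SF.ind (π ⁻¹' Uᶜ) (hU.compl.preimage hπ)
            (SF.ind (π ⁻¹' U') (hU'.preimage hπ) f) := by
        apply SF.ext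
        intro x
        change _ = SF.ind (π ⁻¹' U) (hU.preimage hπ) f x +
          SF.ind (π ⁻¹' Uᶜ) (hU.compl.preimage hπ)
            (SF.ind (π ⁻¹' U') (hU'.preimage hπ) f) x
        by_cases hx : x ∈ π ⁻¹' U
        · have hx1 : x ∈ π ⁻¹' (U ∪ U') := Or.inl hx
          have hx2 : x ∉ π ⁻¹' Uᶜ := fun h => h hx
          rw [SF.ind_apply_mem _ _ _ _ hx1, SF.ind_apply_mem _ _ _ _ hx,
            SF.ind_apply_not_mem _ _ _ _ hx2, add_zero]
        · have hx2 : x ∈ π ⁻¹' Uᶜ := hx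
          rw [SF.ind_apply_not_mem _ _ _ _ hx, SF.ind_apply_mem _ _ _ _ hx2, zero_add]
          by_cases hx' : x ∈ π ⁻¹' U'
          · have hx1 : x ∈ π ⁻¹' (U ∪ U') := Or.inr hx'
            rw [SF.ind_apply_mem _ _ _ _ hx1, SF.ind_apply_mem _ _ _ _ hx']
          · have hx1 : x ∉ π ⁻¹' (U ∪ U') := fun h => h.elim hx hx'
            rw [SF.ind_apply_not_mem _ _ _ _ hx1, SF.ind_apply_not_mem _ _ _ _ hx']
      rw [h5]
      exact Submodule.add_mem _ h2 (fdLoc_ind_mem π hπ a ha m c Uᶜ hU.compl _ h4)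
    · intro y _
      obtain ⟨U, hU, hyU, h1⟩ := hcon y
      exact ⟨U, mem_nhdsWithin_of_mem_nhds (hU.isOpen.mem_nhds hyU), U, hU, subset_rfl, h1⟩
  obtain ⟨U, hU, h1, h2⟩ := key
  have h3 : SF.ind (π ⁻¹' U) (hU.preimage hπ) f = f := by
    apply SF.ext
    intro x
    by_cases hx : x ∈ π ⁻¹' U
    · exact SF.ind_apply_mem _ _ _ _ hx
    · rw [SF.ind_apply_not_mem _ _ _ _ hx]
      by_contra h4
      exact hx (h1 ⟨x, fun h5 => h4 h5.symm, rfl⟩)
  rw [h3] at h2
  exact h2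

/-- functions vanishing on the fibre -/
private def fdLoc_N (B : Type*) [AddCommGroup B] [Module ℂ B] (π : X → Y) (y : Y) :
    Submodule ℂ (SF X B) where
  carrier := {g | ∀ x, π x = y → g x = 0}
  add_mem' := by
    intro g g' hg hg' x hx
    change g x + g' x = 0
    rw [hg x hx, hg' x hx, add_zero]
  zero_mem' := fun _ _ => rfl
  smul_mem' := by
    intro c g hg x hx
    change c • g x = 0
    rw [hg x hx, smul_zero]

/-- step (2) -/
private theorem fdLoc_two (π : X → Y) (hπ : Continuous π) (y : Y) (g : SF X B)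
    (hg : g ∈ fdLoc_N B π y) : ∃ (U : Set Y) (hU : IsClopen U), y ∈ U ∧
      SF.ind (π ⁻¹' U) (hU.preimage hπ) g = 0 := by
  have key : ∃ (U : Set Y), IsClopen U ∧ y ∈ U ∧ Disjoint U (π '' Function.support g.1) := by
    refine ((fdLoc_supp_compact g).image hπ).induction_on (p := fun s =>
      ∃ (U : Set Y), IsClopen U ∧ y ∈ U ∧ Disjoint U s) ?_ ?_ ?_ ?_
    · exact ⟨Set.univ, isClopen_univ, Set.mem_univ _, Set.disjoint_empty _⟩
    · rintro s t hst ⟨U, hU, h1, h2⟩
      exact ⟨U, hU, h1, h2.mono_right hst⟩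
    · rintro s t ⟨U, hU, h1, h2⟩ ⟨U', hU', h3, h4⟩
      exact ⟨U ∩ U', hU.inter hU', ⟨h1, h3⟩, Set.disjoint_union_right.2
        ⟨h2.mono_left Set.inter_subset_left, h4.mono_left Set.inter_subset_right⟩⟩
    · rintro _ ⟨x, hx, rfl⟩
      have hne : y ≠ π x := by
        intro h
        exact hx (hg x h.symm)
      obtain ⟨U, hU, h1, h2⟩ := exists_isClopen_of_totally_separated hne
      exact ⟨Uᶜ, mem_nhdsWithin_of_mem_nhds (hU.compl.isOpen.mem_nhds h2), U, hU, h1,
        disjoint_compl_right⟩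
  obtain ⟨U, hU, h1, h2⟩ := key
  refine ⟨U, hU, h1, ?_⟩
  apply SF.ext
  intro x
  change _ = (0 : B)
  by_cases hx : x ∈ π ⁻¹' U
  · rw [SF.ind_apply_mem _ _ _ _ hx]
    by_contra h3
    exact Set.disjoint_left.1 h2 hx ⟨x, h3, rfl⟩
  · exact SF.ind_apply_not_mem _ _ _ _ hx

/-- **localisation principle** -/
theorem localise (π : X → Y) (hπ : Continuous π) (a : ι → X ≃ₜ X) (ha : ∀ i x, π (a i x) = π x)
    (m : ι → B →ₗ[ℂ] B) (c : ι → ℂ)
    (h : ∀ y : Y, ∀ S : SF {x // π x = y} B →ₗ[ℂ] ℂ,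
      (∀ i f, S (SF.opr (fibH π (a i) (ha i) y) (m i) f) = c i * S f) → S = 0)
    (T : SF X B →ₗ[ℂ] ℂ) (hT : ∀ i f, T (SF.opr (a i) (m i) f) = c i * T f) : T = 0 := by
  by_contra hT0
  obtain ⟨f, hf⟩ : ∃ f, T f ≠ 0 := by
    by_contra h1
    push Not at h1
    exact hT0 (LinearMap.ext h1)
  have hTR : ∀ r ∈ fdLoc_Rel a m c, T r = 0 := by
    intro r hr
    have h1 : fdLoc_Rel a m c ≤ LinearMap.ker T := by
      unfold fdLoc_Rel
      rw [Submodule.span_le]
      rintro _ ⟨i, g, rfl⟩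
      change T _ = 0
      rw [map_sub, map_smul, hT, smul_eq_mul, sub_self]
    exact h1 hr
  have hfR : f ∉ fdLoc_Rel a m c := fun h1 => hf (hTR f h1)
  obtain ⟨y, hy⟩ := fdLoc_one π hπ a ha m c f hfR
  have hfN : f ∉ fdLoc_Rel a m c ⊔ fdLoc_N B π y := by
    intro h1
    obtain ⟨r, hr, g, hg, hrg⟩ := Submodule.mem_sup.1 h1
    obtain ⟨U, hU, hyU, hUg⟩ := fdLoc_two π hπ y g hg
    apply hy U hU hyU
    rw [← hrg, map_add, hUg, add_zero]
    exact fdLoc_ind_mem π hπ a ha m c U hU r hr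
  obtain ⟨T', hT'f, hT'⟩ := Submodule.exists_le_ker_of_notMem hfN
  have hZ : IsClosed {x : X | π x = y} := isClosed_eq hπ continuous_const
  have hsupp : SF.SuppOn T' {x : X | π x = y} := by
    intro g hg
    exact hT' (Submodule.mem_sup_right hg)
  obtain ⟨S, hS⟩ := supp_on_factor {x : X | π x = y} hZ T' hsupp
  apply hT'f
  rw [hS]
  have hS0 : S = 0 := by
    refine h y S ?_
    intro i g'
    obtain ⟨g, rfl⟩ := restr_surjective (B := B) {x : X | π x = y} hZ g'
    have h1 : SF.opr (fibH π (a i) (ha i) y) (m i) (SF.restr {x : X | π x = y} hZ g) =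
        SF.restr {x : X | π x = y} hZ (SF.opr (a i) (m i) g) := rfl
    rw [h1, ← hS, ← hS]
    have h2 : SF.opr (a i) (m i) g - c i • g ∈ fdLoc_Rel a m c :=
      Submodule.subset_span ⟨i, g, rfl⟩
    have h3 : T' (SF.opr (a i) (m i) g - c i • g) = 0 := hT' (Submodule.mem_sup_left h2)
    rw [map_sub, map_smul, smul_eq_mul, sub_eq_zero] at h3
    exact h3
  rw [hS0, LinearMap.zero_apply]

end

end Pool.Agent.Work.MP_dd0ddf_al.C2
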