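import Pool.Agent.Work.MP_dd0ddf_al.C2.LinNu

/-!
# MP_dd0ddf_al, module LinChar: localisation along the characteristic polynomial

If every `T ∈ D_P` vanishes for all `P`, then every invariant antisymmetric `T` vanishes.  `localise` with `Y = ℕ → E` (`ts_seqE F ℕ`),
`π (X, v) = (i ↦ (charpoly X).coeff i)` (continuous_charcoef), operators `linAct h` (scalar 1) and `linTau τ` (scalar -1); `π` is invariant: charpoly of `hXh⁻¹`; and for `τXτ⁻¹`:
its characteristic polynomial is the conjugate of that of `X`, and the characteristic polynomial of the self-adjoint `X` is self-conjugate: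
`charpoly (adj X) = star-map of charpoly X` (Gram matrix: `adj X` is conjugate to the conjugate transpose).
A functional `S` on a fibre gives `T = S ∘ restr` (fibre closed) in `D_P` where `P` is the common characteristic polynomial (if the fibre is nonempty; otherwise S = 0).
Also provided: `exists_pchar`: a nontrivial smooth additive character of F exists (used to pick `p`): e.g. ψ = composition of F → F/B, a discrete torsion group,
with a character; via `ℚ/ℤ`-valued homomorphisms: F/B_1 is a torsion abelian group (p^k x → 0), nonzero, so has a nontrivial homomorphism to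
`AddCircle` / ℚ/ℤ (injective), which is locally constant.
-/

set_option linter.unusedSectionVars false
set_option linter.style.haveILetI false

namespace Pool.Agent.Work.MP_dd0ddf_al.C2

noncomputable section

universe u

variable {F E : Type u} [NontriviallyNormedField F] [IsUltrametricDist F] [ProperSpace F]
  [CharP F 2] [NontriviallyNormedField E] [NormedAlgebra F E] [ProperSpace E] [StarRing E]
  [QExt F E]
variable {V : Type u} [AddCommGroup V] [Module E V] [Module.Finite E V] [TopologicalSpace V]
  [IsTopologicalAddGroup V] [T2Space V] [ContinuousSMul E V]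

private theorem linchar_gram (B : SkewH E V) :
    IsUnit (Matrix.of fun i j : Fin (Module.finrank E V) =>
      B.ip (Module.finBasis E V i) (Module.finBasis E V j)) := by
  rw [Matrix.isUnit_iff_isUnit_det, isUnit_iff_ne_zero]
  intro h0
  obtain ⟨x, hx, hx0⟩ := Matrix.exists_vecMul_eq_zero_iff.mpr h0
  apply hx
  have h1 : (∑ i, x i • Module.finBasis E V i) = 0 := by
    apply B.nondeg
    intro w
    have h2 : ∀ j, B.ip (Module.finBasis E V j) (∑ i, x i • Module.finBasis E V i) = 0 := by
      intro j
      have h3 := congrFun hx0 j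
      have h4 : B.ip (∑ i, x i • Module.finBasis E V i) (Module.finBasis E V j) =
          ∑ i, x i * B.ip (Module.finBasis E V i) (Module.finBasis E V j) := by
        have := map_sum (B.lin (Module.finBasis E V j)) (fun i => x i • Module.finBasis E V i)
          Finset.univ
        simp only [map_smul] at this
        exact this
      have h5 : B.ip (∑ i, x i • Module.finBasis E V i) (Module.finBasis E V j) = 0 := by
        rw [h4]
        exact h3
      rw [B.skew (∑ i, x i • Module.finBasis E V i) (Module.finBasis E V j), h5, star_zero,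
        neg_zero]
    have h6 : B.ip w (∑ i, x i • Module.finBasis E V i) = 0 := by
      rw [← (Module.finBasis E V).sum_repr w]
      have := map_sum (B.lin (∑ i, x i • Module.finBasis E V i))
        (fun j => (Module.finBasis E V).repr w j • Module.finBasis E V j) Finset.univ
      simp only [map_smul] at this
      refine this.trans (Finset.sum_eq_zero fun j _ => ?_)
      have h7 : B.lin (∑ i, x i • Module.finBasis E V i) (Module.finBasis E V j) = 0 := h2 j
      rw [h7, smul_zero]
    rw [B.skew w, h6, star_zero, neg_zero]
  have := (Fintype.linearIndependent_iff.mp (Module.finBasis E V).linearIndependent) x h1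
  funext i
  exact this i

private theorem linchar_sum_left (B : SkewH E V) {ι : Type*} (s : Finset ι) (c : ι → E)
    (g : ι → V) (v : V) : B.ip (∑ j ∈ s, c j • g j) v = ∑ j ∈ s, c j * B.ip (g j) v := by
  have h := map_sum (B.lin v) (fun j => c j • g j) s
  simp only [map_smul] at h
  exact h

private theorem linchar_sum_right (B : SkewH E V) {ι : Type*} (s : Finset ι) (v : V) (c : ι → E)
    (g : ι → V) : B.ip v (∑ j ∈ s, c j • g j) = ∑ j ∈ s, star (c j) * B.ip v (g j) := by
  rw [B.skew (∑ j ∈ s, c j • g j) v, linchar_sum_left, star_sum, ← Finset.sum_neg_distrib]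
  refine Finset.sum_congr rfl fun j _ => ?_
  rw [star_mul', B.skew (g j) v]
  ring

private theorem linchar_map_map (P : Polynomial E) :
    (P.map (starRingEnd E)).map (starRingEnd E) = P := by
  rw [Polynomial.map_map]
  have : (starRingEnd E).comp (starRingEnd E) = RingHom.id E := by
    ext x
    simp
  rw [this, Polynomial.map_id]

theorem charpoly_adj (B : SkewH E V) (X : Module.End E V) :
    LinearMap.charpoly (adj B X) = (LinearMap.charpoly X).map (starRingEnd E) := by
  classical
  obtain ⟨G, hG⟩ := linchar_gram B
  set b := Module.finBasis E V with hb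
  set M := LinearMap.toMatrix b b X with hM
  set N := LinearMap.toMatrix b b (adj B X) with hN
  have hGij : ∀ i j, (G : Matrix _ _ E) i j = B.ip (b i) (b j) := fun i j => by rw [hG]; rfl
  have hXb : ∀ i, X (b i) = ∑ k, M k i • b k := by
    intro i
    conv_lhs => rw [← b.sum_repr (X (b i))]
    refine Finset.sum_congr rfl fun k _ => ?_
    rw [hM, LinearMap.toMatrix_apply]
  have hAb : ∀ i, adj B X (b i) = ∑ k, N k i • b k := by
    intro i
    conv_lhs => rw [← b.sum_repr (adj B X (b i))]
    refine Finset.sum_congr rfl fun k _ => ?_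
    rw [hN, LinearMap.toMatrix_apply]
  have key : M.transpose * (G : Matrix _ _ E) = (G : Matrix _ _ E) * N.map (starRingEnd E) := by
    ext i j
    rw [Matrix.mul_apply, Matrix.mul_apply]
    have h1 := adj_spec B X (b i) (b j)
    rw [hXb, hAb, linchar_sum_left, linchar_sum_right] at h1
    simp only [Matrix.transpose_apply, Matrix.map_apply, hGij]
    rw [h1]
    refine Finset.sum_congr rfl fun k _ => ?_
    rw [mul_comm]
    rfl
  have h2 : (N.map (starRingEnd E)).charpoly = M.charpoly := by
    have h3 : N.map (starRingEnd E) = (G : Matrix _ _ E)⁻¹ * M.transpose * (G : Matrix _ _ E) := by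
      rw [mul_assoc, key, ← mul_assoc, Matrix.nonsing_inv_mul _ ((Matrix.isUnit_iff_isUnit_det _).1
        G.isUnit), one_mul]
    rw [h3, Matrix.charpoly_units_conj', Matrix.charpoly_transpose]
  rw [Matrix.charpoly_map] at h2
  rw [← LinearMap.charpoly_toMatrix (adj B X) b, ← LinearMap.charpoly_toMatrix X b, ← hM, ← hN,
    ← h2, linchar_map_map]

theorem charpoly_conjτ {B : SkewH E V} (τ : AntiU B) (X : Module.End E V) :
    LinearMap.charpoly (conjτ τ X) = (LinearMap.charpoly X).map (starRingEnd E) := by
  classical
  let b := Module.finBasis E V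
  have hτ0 : τ.t 0 = 0 := by
    have := τ.smul 0 0
    rw [zero_smul, star_zero, zero_smul] at this
    exact this
  let e : V ≃ₗ[E] (Fin (Module.finrank E V) → E) :=
    { toFun := fun v i => star (b.repr (τ.t v) i)
      map_add' := fun v w => by
        funext i
        rw [τ.add, map_add, Finsupp.add_apply, star_add]
        rfl
      map_smul' := fun a v => by
        funext i
        rw [τ.smul, map_smul, Finsupp.smul_apply, smul_eq_mul, star_mul', star_star]
        rfl
      invFun := fun c => τ.t (b.equivFun.symm fun i => star (c i))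
      left_inv := fun v => by
        show τ.t (b.equivFun.symm fun i => star (star (b.repr (τ.t v) i))) = v
        simp only [star_star]
        have h1 : (fun i => b.repr (τ.t v) i) = b.equivFun (τ.t v) := rfl
        rw [h1, LinearEquiv.symm_apply_apply, τ.inv]
      right_inv := fun c => by
        funext i
        show star (b.repr (τ.t (τ.t (b.equivFun.symm fun i => star (c i)))) i) = c i
        rw [τ.inv]
        have h1 : b.repr (b.equivFun.symm fun i => star (c i)) i =
            b.equivFun (b.equivFun.symm fun i => star (c i)) i := rfl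
        rw [h1, LinearEquiv.apply_symm_apply, star_star] }
  let b' := Module.Basis.ofEquivFun e
  have hb' : ∀ j, b' j = τ.t (b j) := by
    intro j
    have h1 : b' j = e.symm (Pi.single j 1) := Module.Basis.coe_ofEquivFun e ▸ rfl
    rw [h1]
    show τ.t (b.equivFun.symm fun i => star ((Pi.single j (1 : E) : Fin _ → E) i)) = _
    congr 1
    rw [LinearEquiv.symm_apply_eq]
    funext i
    rw [Module.Basis.equivFun_apply, Module.Basis.repr_self]
    by_cases hij : i = j
    · subst hij
      rw [Pi.single_eq_same, Finsupp.single_eq_same, star_one]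
    · rw [Pi.single_eq_of_ne hij, Finsupp.single_eq_of_ne hij, star_zero]
  have hmat : LinearMap.toMatrix b' b' (conjτ τ X) =
      (LinearMap.toMatrix b b X).map (starRingEnd E) := by
    ext i j
    rw [LinearMap.toMatrix_apply, Matrix.map_apply, LinearMap.toMatrix_apply, hb']
    show star (b.repr (τ.t (τ.t (X (τ.t (τ.t (b j)))))) i) = _
    rw [τ.inv, τ.inv]
    rfl
  rw [← LinearMap.charpoly_toMatrix (conjτ τ X) b', hmat, Matrix.charpoly_map,
    LinearMap.charpoly_toMatrix]

theorem exists_pchar (F : Type u) [NontriviallyNormedField F] [IsUltrametricDist F]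
    [ProperSpace F] [CharP F 2] : Nonempty (PChar F) := by
  classical
  let A : AddSubgroup F :=
    { carrier := {x | ‖x‖ < 1}
      add_mem' := fun {a b} ha hb =>
        lt_of_le_of_lt (IsUltrametricDist.norm_add_le_max a b) (max_lt ha hb)
      zero_mem' := by
        show ‖(0 : F)‖ < 1
        rw [norm_zero]
        exact one_pos
      neg_mem' := fun {a} ha => by
        show ‖-a‖ < 1
        rw [norm_neg]
        exact ha }
  have hA1 : (1 : F) ∉ A := by
    intro h
    have h1 : ‖(1 : F)‖ < 1 := h
    rw [norm_one] at h1
    exact lt_irrefl _ h1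
  have hne : (QuotientAddGroup.mk (1 : F) : F ⧸ A) ≠ 0 := fun h =>
    hA1 ((QuotientAddGroup.eq_zero_iff _).1 h)
  obtain ⟨c, hc⟩ := CharacterModule.exists_character_apply_ne_zero_of_ne_zero hne
  -- the homomorphism `ℚ / ℤ → ℂ`
  let g0 : ℚ →+ Additive ℂˣ :=
    { toFun := fun q => Additive.ofMul ⟨Complex.exp (2 * Real.pi * Complex.I * q),
        Complex.exp (-(2 * Real.pi * Complex.I * q)), by rw [← Complex.exp_add]; simp,
        by rw [← Complex.exp_add]; simp⟩
      map_zero' := by
        apply Additive.toMul.injective
        apply Units.ext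
        show Complex.exp (2 * Real.pi * Complex.I * (0 : ℚ)) = 1
        simp
      map_add' := fun a b => by
        apply Additive.toMul.injective
        apply Units.ext
        show Complex.exp (2 * Real.pi * Complex.I * (a + b : ℚ)) =
          Complex.exp (2 * Real.pi * Complex.I * a) * Complex.exp (2 * Real.pi * Complex.I * b)
        rw [← Complex.exp_add]
        push_cast
        ring_nf }
  have hg0 : ∀ x ∈ AddSubgroup.zmultiples (1 : ℚ), g0 x = 0 := by
    rintro x ⟨n, rfl⟩
    apply Additive.toMul.injective
    apply Units.ext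
    show Complex.exp (2 * Real.pi * Complex.I * ((n • (1 : ℚ) : ℚ) : ℂ)) = 1
    have h1 : (2 * Real.pi * Complex.I * ((n • (1 : ℚ) : ℚ) : ℂ)) =
        n * (2 * Real.pi * Complex.I) := by
      push_cast [zsmul_eq_mul]
      ring
    rw [h1]
    exact Complex.exp_int_mul_two_pi_mul_I n
  let g : AddCircle (1 : ℚ) →+ Additive ℂˣ := QuotientAddGroup.lift _ g0 hg0
  have hgmk : ∀ q : ℚ, ((Additive.toMul (g (QuotientAddGroup.mk q)) : ℂˣ) : ℂ) =
      Complex.exp (2 * Real.pi * Complex.I * q) := fun q => rfl
  have hginj : ∀ y : AddCircle (1 : ℚ), ((Additive.toMul (g y) : ℂˣ) : ℂ) = 1 → y = 0 := by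
    intro y
    obtain ⟨q, rfl⟩ := QuotientAddGroup.mk_surjective y
    intro h
    rw [hgmk, Complex.exp_eq_one_iff] at h
    obtain ⟨n, hn⟩ := h
    have h2 : (q : ℂ) = n := by
      have hpi : (2 * Real.pi * Complex.I : ℂ) ≠ 0 := Complex.two_pi_I_ne_zero
      have h3 : (2 * Real.pi * Complex.I : ℂ) * q = 2 * Real.pi * Complex.I * n := by
        rw [hn]
        ring
      exact mul_left_cancel₀ hpi h3
    have h3 : q = n := by exact_mod_cast h2
    refine (QuotientAddGroup.eq_zero_iff _).2 ⟨n, ?_⟩
    show n • (1 : ℚ) = q
    rw [h3]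
    simp
  have hgnorm : ∀ y : AddCircle (1 : ℚ), ‖((Additive.toMul (g y) : ℂˣ) : ℂ)‖ = 1 := by
    intro y
    obtain ⟨q, rfl⟩ := QuotientAddGroup.mk_surjective y
    rw [hgmk]
    have h1 : (2 * Real.pi * Complex.I * (q : ℂ)) = ((2 * Real.pi * q : ℝ) : ℂ) * Complex.I := by
      push_cast
      ring
    rw [h1, Complex.norm_exp_ofReal_mul_I]
  refine ⟨{
    ψ := fun x => ((Additive.toMul (g (c (QuotientAddGroup.mk x : F ⧸ A))) : ℂˣ) : ℂ)
    add := fun x y => ?_
    norm_one := fun x => hgnorm _
    lc := ?_
    nontriv := ⟨1, fun h => hc (hginj _ h)⟩ }⟩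
  · have h1 : c (QuotientAddGroup.mk (x + y) : F ⧸ A) =
        c (QuotientAddGroup.mk x : F ⧸ A) + c (QuotientAddGroup.mk y : F ⧸ A) := by
      rw [QuotientAddGroup.mk_add, map_add]
    rw [h1, map_add]
    rfl
  · rw [IsLocallyConstant.iff_exists_open]
    intro x
    refine ⟨Metric.ball x 1, Metric.isOpen_ball, Metric.mem_ball_self one_pos, fun y hy => ?_⟩
    have h1 : (QuotientAddGroup.mk y : F ⧸ A) = QuotientAddGroup.mk x := by
      rw [QuotientAddGroup.eq]
      show ‖-y + x‖ < 1
      rw [Metric.mem_ball, dist_eq_norm] at hy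
      rw [← norm_neg, neg_add, neg_neg, ← sub_eq_add_neg]
      exact hy
    rw [h1]

private theorem linchar_pi (B : SkewH E V) (τ : AntiU B) (i : Option (UU B)) (x : SA B × V) :
    LinearMap.charpoly ((i.elim ((saTau F τ).prodCongr (tauH F τ))
      fun h => (saConj B h).prodCongr (gvHomeo h.1)) x).1.1 = LinearMap.charpoly x.1.1 := by
  classical
  cases i with
  | none =>
    show LinearMap.charpoly (conjτ τ x.1.1) = _
    rw [charpoly_conjτ]
    have h1 := charpoly_adj B x.1.1
    rw [sa_adj B x.1.2] at h1
    exact h1.symm
  | some h =>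
    show LinearMap.charpoly (h.1.1 * x.1.1 * h.1⁻¹.1) = _
    let e : V ≃ₗ[E] V := LinearEquiv.ofLinear h.1.1 h.1⁻¹.1 h.1.mul_inv h.1.inv_mul
    have h2 : h.1.1 * x.1.1 * h.1⁻¹.1 = e.conj x.1.1 := by
      ext v
      rfl
    rw [h2, LinearEquiv.charpoly_conj]

theorem lin_char {B : SkewH E V} (h : ∀ (τ : AntiU B) (P : Polynomial E)
    (T : SF (SA B × V) ℂ →ₗ[ℂ] ℂ), InD F τ P T → T = 0) : LinGood F B := by
  classical
  haveI := lc_V E V
  haveI := td_V F E V
  haveI := lc_SA F B
  haveI := td_SA F B
  haveI : TotallySeparatedSpace (ℕ → E) := ts_seqE F ℕ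
  intro τ T hT hT'
  let π : SA B × V → (ℕ → E) := fun x i => (LinearMap.charpoly x.1.1).coeff i
  have hπ : Continuous π := continuous_pi fun i =>
    (continuous_charcoef i).comp (continuous_subtype_val.comp continuous_fst)
  let a : Option (UU B) → (SA B × V) ≃ₜ (SA B × V) := fun i =>
    i.elim ((saTau F τ).prodCongr (tauH F τ)) fun h => (saConj B h).prodCongr (gvHomeo h.1)
  have ha : ∀ i x, π (a i x) = π x := by
    intro i x
    funext j
    show (LinearMap.charpoly (a i x).1.1).coeff j = _
    rw [linchar_pi]
  refine localise π hπ a ha (fun _ => LinearMap.id) (fun i => i.elim (-1) fun _ => 1) ?_ T ?_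
  · intro y S hS
    by_cases hne : ∃ x0, π x0 = y
    · obtain ⟨x0, hx0⟩ := hne
      have hcl : IsClosed {x | π x = y} := isClosed_eq hπ continuous_const
      have hmem : ∀ x, π x = y ↔ LinearMap.charpoly x.1.1 = LinearMap.charpoly x0.1.1 := by
        intro x
        rw [← hx0]
        constructor
        · intro h1
          exact Polynomial.ext fun i => congrFun h1 i
        · intro h1
          funext i
          show (LinearMap.charpoly x.1.1).coeff i = _
          rw [h1]
      have hT0 : S ∘ₗ (SF.restr {x | π x = y} hcl : SF (SA B × V) ℂ →ₗ[ℂ] _) = 0 := by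
        refine h τ (LinearMap.charpoly x0.1.1) _ ⟨fun g f => ?_, fun f => ?_, fun f hf => ?_⟩
        · have h1 := hS (some g) (SF.restr {x | π x = y} hcl f)
          simp only [Option.elim_some, one_mul] at h1
          refine Eq.trans ?_ h1
          show S _ = S _
          congr 1
        · have h1 := hS none (SF.restr {x | π x = y} hcl f)
          simp only [Option.elim_none, neg_mul, one_mul] at h1
          refine Eq.trans ?_ h1
          show S _ = S _
          congr 1
        · show S _ = 0
          have h1 : SF.restr {x | π x = y} hcl f = 0 := by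
            apply SF.ext
            intro z
            exact hf z.1 ((hmem z.1).1 z.2)
          rw [h1, map_zero]
      refine LinearMap.ext fun g => ?_
      obtain ⟨f, hf⟩ := restr_surjective {x | π x = y} hcl g
      have h2 := congrArg (fun R : SF (SA B × V) ℂ →ₗ[ℂ] ℂ => R f) hT0
      have h3 : S (SF.restr {x | π x = y} hcl f) = 0 := h2
      rw [hf] at h3
      exact h3
    · refine LinearMap.ext fun g => ?_
      have h1 : g = 0 := by
        apply SF.ext
        intro z
        exact absurd ⟨z.1, z.2⟩ hne
      rw [h1, map_zero, map_zero]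
  · intro i f
    cases i with
    | none =>
      show T (linTau F τ f) = -1 * T f
      rw [hT' f]
      ring
    | some g =>
      show T (linAct B g f) = 1 * T f
      rw [hT g f, one_mul]

end

end Pool.Agent.Work.MP_dd0ddf_al.C2
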