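import Pool.Agent.Work.MP_dd0ddf_al.C2.Defs2
import Pool.Agent.Work.MP_dd0ddf_al.C2.ExtU
import Pool.Agent.Work.MP_dd0ddf_al.C2.Witt

/-!
# MP_dd0ddf_al, module WfWall: the Wall form

`wall h x y = ⟨a, y⟩` for any `a` with `(h - 1) a = x` (independent of `a` for `y ∈ R_h = range (h-1)`: `ker (h-1) = R_h^⊥`, because `⟨a, (h-1)c⟩ = ⟨h⁻¹ a - a, c⟩ = -⟨h⁻¹(h-1)a, c⟩`).
`wall_conj`: `conj W(y,x) - W(x,y) = ⟨x,y⟩`: expand `⟨(h-1)a, (h-1)c⟩ = 2⟨a,c⟩ - ⟨ha,c⟩ - ⟨a,hc⟩ = -⟨(h-1)a, c⟩ - ⟨a,(h-1)c⟩`, and `⟨x, c⟩ = -conj⟨c,x⟩ = -conj W(y,x)`.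
`wall_det`: nondegenerate: if `W(x, y) = 0` for all `x ∈ R_h` then `⟨a, y⟩ = 0` for all `a ∈ V`.
`wall_det_change`: Gram matrix of a sesquilinear form under base change.
`wall_prod`: see below.  Suppose `R_g ∩ R_h = 0`.  The map `a ↦ ((h-1)a, (g-1)ha)`, `V → R_h × R_g`, is surjective: its kernel is `ker(h-1) ∩ ker(g-1) = (R_g + R_h)^⊥`, of dimension
`n - r - s`.  For `(h-1)a = u'`, `(g-1)ha = u`: `(gh-1)a = u + u'`, so `R_gh = R_g ⊕ R_h` and
`W_gh(u+u', y+y') = ⟨a, y+y'⟩ = W_h(u',y') + ⟨ha - u', y⟩ = W_h(u',y') + W_g(u,y) - ⟨u',y⟩`.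
So in the basis `b ∪ b'` (b of R_g, b' of R_h) the matrix is block triangular: `[[W_g, 0], [-⟨b',b⟩, W_h]]`, det = product.
`wall_qr`: for `σ = qr v β`: `R_σ = E v`, `W_σ(v,v) = β`.
`wall_split`: let `v ∈ R_h`, `β = W_h(v,v) ≠ 0`.  Then `conj β - β = ⟨v,v⟩` (wall_conj) and `h' = (qr v β)⁻¹ h` has `R_h' = {y ∈ R_h : W_h(v,y) = 0}`: for `a ∈ V`, `x = (h-1)a`:
`(h'-1)a = x - (conj β)⁻¹⟨a+x,v⟩ v`, and `W_h(v, ·)` of it is `W(v,x) - conj⟨a+x,v⟩ = 0` because `W(v,x) = conj W(x,v) - ⟨v,x⟩ = conj⟨a,v⟩ + conj⟨x,v⟩`; dimension count.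
`wall_aniso`: if `R_h ≠ 0` there is `v ∈ R_h` with `W(v,v) ≠ 0` (otherwise W(x,y) = -W(y,x), replacing x by cx with star c ≠ c gives W = 0).
`wall_conjugate`: `W_{ghg⁻¹}(gx, gy) = W_h(x,y)`.
`wall_determines`: if `R_g = R_h` and `W_g = W_h` on it then `g = h`: for `a ∈ V`, `(h-1)a` is the unique `x ∈ R_h` with `W(x,·) = ⟨a,·⟩` on R_h.
-/

set_option linter.unusedSectionVars false
set_option linter.style.haveILetI false

namespace Pool.Agent.Work.MP_dd0ddf_al.C2

noncomputable section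

variable {E V : Type*} [Field E] [StarRing E] [AddCommGroup V] [Module E V]
  [Module.Finite E V] {B : SkewH E V}

omit [Module.Finite E V] in
private theorem wfwall_sub_left (a b w : V) : B.ip (a - b) w = B.ip a w - B.ip b w := by
  have h := B.smul_left (-1) b w
  rw [neg_smul, one_smul] at h
  rw [sub_eq_add_neg, B.add_left, h]
  ring

omit [Module.Finite E V] in
private theorem wfwall_sub_right (a b w : V) : B.ip w (a - b) = B.ip w a - B.ip w b := by
  have h := B.smul_right (-1) w b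
  rw [neg_smul, one_smul, star_neg, star_one] at h
  rw [sub_eq_add_neg, B.add_right, h]
  ring

omit [Module.Finite E V] in
private theorem wfwall_zero_left (a : V) : B.ip 0 a = 0 := by
  have h := B.smul_left 0 0 a
  rw [zero_smul, zero_mul] at h
  exact h

omit [Module.Finite E V] in
private theorem wfwall_zero_right (a : V) : B.ip a 0 = 0 := by
  have h := B.smul_right 0 a 0
  rw [zero_smul, star_zero, zero_mul] at h
  exact h

omit [Module.Finite E V] in
private theorem wfwall_sum_left {ι : Type*} (s : Finset ι) (c : ι → E) (g : ι → V) (w : V) :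
    B.ip (∑ j ∈ s, c j • g j) w = ∑ j ∈ s, c j * B.ip (g j) w := by
  have h := map_sum (B.lin w) (fun j => c j • g j) s
  simp only [map_smul] at h
  exact h

omit [Module.Finite E V] in
private theorem wfwall_sum_right {ι : Type*} (s : Finset ι) (v : V) (c : ι → E) (g : ι → V) :
    B.ip v (∑ j ∈ s, c j • g j) = ∑ j ∈ s, star (c j) * B.ip v (g j) := by
  classical
  induction s using Finset.induction_on with
  | empty =>
    rw [Finset.sum_empty, Finset.sum_empty, wfwall_zero_right]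
  | insert a s ha ih =>
    rw [Finset.sum_insert ha, Finset.sum_insert ha, B.add_right, B.smul_right, ih]

omit [Module.Finite E V] in
private theorem wfwall_mem (h : UU B) {y : V} :
    y ∈ LinearMap.range (h.1.1 - 1) ↔ ∃ c, h.1.1 c - c = y := Iff.rfl

omit [Module.Finite E V] in
private theorem wfwall_mi (h : UU B) (v : V) : h.1.1 (h.1⁻¹.1 v) = v :=
  congrArg (fun f : Module.End E V => f v) h.1.mul_inv

omit [Module.Finite E V] in
private theorem wfwall_im (h : UU B) (v : V) : h.1⁻¹.1 (h.1.1 v) = v :=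
  congrArg (fun f : Module.End E V => f v) h.1.inv_mul

omit [Module.Finite E V] in
/-- `⟨a, R_h⟩ = 0` implies `h a = a` -/
private theorem wfwall_fix (h : UU B) {a : V}
    (ha : ∀ y ∈ LinearMap.range (h.1.1 - 1), B.ip a y = 0) : h.1.1 a = a := by
  have h1 : h.1.1 a - a = 0 := by
    apply B.nondeg
    intro w
    have h2 := ha (h.1.1 (h.1⁻¹.1 w) - h.1⁻¹.1 w) ⟨h.1⁻¹.1 w, rfl⟩
    rw [wfwall_sub_right, ← h.2 a (h.1⁻¹.1 w), wfwall_mi] at h2
    rw [wfwall_sub_left]
    linear_combination -h2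
  exact sub_eq_zero.1 h1

omit [Module.Finite E V] in
private theorem wfwall_fix' (h : UU B) {a y : V} (ha : h.1.1 a = a)
    (hy : y ∈ LinearMap.range (h.1.1 - 1)) : B.ip a y = 0 := by
  obtain ⟨c, rfl⟩ := (wfwall_mem h).1 hy
  have h2 := h.2 a c
  rw [ha] at h2
  rw [wfwall_sub_right, h2, sub_self]

theorem wall_eq (h : UU B) {a x y : V} (hx : h.1.1 a - a = x)
    (hy : y ∈ LinearMap.range (h.1.1 - 1)) : wall B h.1 x y = B.ip a y := by
  have hex : ∃ a, h.1.1 a - a = x := ⟨a, hx⟩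
  unfold wall
  rw [dif_pos hex]
  have h1 := hex.choose_spec
  set a' := hex.choose with ha'
  have h2 : h.1.1 (a' - a) = a' - a := by
    have h3 : h.1.1 a' - a' = h.1.1 a - a := h1.trans hx.symm
    rw [map_sub]
    have h4 : h.1.1 a' = h.1.1 a - a + a' := by rw [← h3, sub_add_cancel]
    rw [h4]
    abel
  have h3 := wfwall_fix' h h2 hy
  rw [wfwall_sub_left] at h3
  exact sub_eq_zero.1 h3

theorem wall_add_left (h : UU B) {x x' y : V} (hx : x ∈ LinearMap.range (h.1.1 - 1))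
    (hx' : x' ∈ LinearMap.range (h.1.1 - 1)) (hy : y ∈ LinearMap.range (h.1.1 - 1)) :
    wall B h.1 (x + x') y = wall B h.1 x y + wall B h.1 x' y := by
  obtain ⟨a, ha⟩ := (wfwall_mem h).1 hx
  obtain ⟨a', ha'⟩ := (wfwall_mem h).1 hx'
  have h1 : h.1.1 (a + a') - (a + a') = x + x' := by
    rw [map_add, ← ha, ← ha']
    abel
  rw [wall_eq h h1 hy, wall_eq h ha hy, wall_eq h ha' hy, B.add_left]

theorem wall_smul_left (h : UU B) (c : E) {x y : V} (hx : x ∈ LinearMap.range (h.1.1 - 1))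
    (hy : y ∈ LinearMap.range (h.1.1 - 1)) : wall B h.1 (c • x) y = c * wall B h.1 x y := by
  obtain ⟨a, ha⟩ := (wfwall_mem h).1 hx
  have h1 : h.1.1 (c • a) - c • a = c • x := by
    rw [map_smul, ← ha, smul_sub]
  rw [wall_eq h h1 hy, wall_eq h ha hy, B.smul_left]

theorem wall_add_right (h : UU B) {x y y' : V} (hx : x ∈ LinearMap.range (h.1.1 - 1))
    (hy : y ∈ LinearMap.range (h.1.1 - 1)) (hy' : y' ∈ LinearMap.range (h.1.1 - 1)) :
    wall B h.1 x (y + y') = wall B h.1 x y + wall B h.1 x y' := by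
  obtain ⟨a, ha⟩ := (wfwall_mem h).1 hx
  rw [wall_eq h ha (Submodule.add_mem _ hy hy'), wall_eq h ha hy, wall_eq h ha hy', B.add_right]

theorem wall_smul_right (h : UU B) (c : E) {x y : V} (hx : x ∈ LinearMap.range (h.1.1 - 1))
    (hy : y ∈ LinearMap.range (h.1.1 - 1)) : wall B h.1 x (c • y) = star c * wall B h.1 x y := by
  obtain ⟨a, ha⟩ := (wfwall_mem h).1 hx
  rw [wall_eq h ha (Submodule.smul_mem _ c hy), wall_eq h ha hy, B.smul_right]

theorem wall_conj (h : UU B) {x y : V} (hx : x ∈ LinearMap.range (h.1.1 - 1))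
    (hy : y ∈ LinearMap.range (h.1.1 - 1)) :
    star (wall B h.1 y x) - wall B h.1 x y = B.ip x y := by
  obtain ⟨a, ha⟩ := (wfwall_mem h).1 hx
  obtain ⟨c, hc⟩ := (wfwall_mem h).1 hy
  have h1 : star (B.ip c x) = - B.ip x c := by rw [B.skew c x, neg_neg]
  rw [wall_eq h hc hx, wall_eq h ha hy, h1, ← ha, ← hc]
  simp only [wfwall_sub_left, wfwall_sub_right]
  have h2 := h.2 a c
  rw [h2]
  ring

theorem wall_det (h : UU B) {r : ℕ} (b : Fin r → V) (hb : IsRBasis h.1 b) :
    (wallM B h.1 b).det ≠ 0 := by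
  intro h0
  obtain ⟨x, hx, hx0⟩ := Matrix.exists_vecMul_eq_zero_iff.mpr h0
  have hmem : ∀ i, b i ∈ LinearMap.range (h.1.1 - 1) := fun i => by
    rw [← hb.2]
    exact Submodule.subset_span ⟨i, rfl⟩
  choose a ha using fun i => (wfwall_mem h).1 (hmem i)
  have h1 : ∀ j, B.ip (∑ i, x i • a i) (b j) = 0 := by
    intro j
    have h3 := congrFun hx0 j
    rw [wfwall_sum_left]
    refine Eq.trans (Finset.sum_congr rfl fun i _ => ?_) h3
    show x i * B.ip (a i) (b j) = x i * wall B h.1 (b i) (b j)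
    rw [wall_eq h (ha i) (hmem j)]
  have h2 : ∀ y ∈ LinearMap.range (h.1.1 - 1), B.ip (∑ i, x i • a i) y = 0 := by
    intro y hy
    rw [← hb.2] at hy
    obtain ⟨c, rfl⟩ := (Submodule.mem_span_range_iff_exists_fun E).1 hy
    rw [wfwall_sum_right]
    exact Finset.sum_eq_zero fun j _ => by rw [h1 j, mul_zero]
  have h3 := wfwall_fix h h2
  have h4 : ∑ i, x i • b i = 0 := by
    have h5 : ∑ i, x i • b i = h.1.1 (∑ i, x i • a i) - ∑ i, x i • a i := by
      rw [map_sum, ← Finset.sum_sub_distrib]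
      refine Finset.sum_congr rfl fun i _ => ?_
      rw [map_smul, ← smul_sub, ha i]
    rw [h5, h3, sub_self]
  exact hx (funext fun i => Fintype.linearIndependent_iff.1 hb.1 x h4 i)

theorem wall_det_change (h : UU B) {r : ℕ} (b b' : Fin r → V) (hb : IsRBasis h.1 b)
    (P : Matrix (Fin r) (Fin r) E) (hP : ∀ i, b' i = ∑ j, P i j • b j) :
    (wallM B h.1 b').det = P.det * star P.det * (wallM B h.1 b).det := by
  have hmem : ∀ i, b i ∈ LinearMap.range (h.1.1 - 1) := fun i => by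
    rw [← hb.2]
    exact Submodule.subset_span ⟨i, rfl⟩
  choose a ha using fun i => (wfwall_mem h).1 (hmem i)
  have h1 : wallM B h.1 b' = P * wallM B h.1 b * P.conjTranspose := by
    ext i j
    have h2 : h.1.1 (∑ k, P i k • a k) - ∑ k, P i k • a k = b' i := by
      rw [hP i, map_sum, ← Finset.sum_sub_distrib]
      refine Finset.sum_congr rfl fun k _ => ?_
      rw [map_smul, ← smul_sub, ha k]
    have h3 : b' j ∈ LinearMap.range (h.1.1 - 1) := by
      rw [hP j]
      exact Submodule.sum_mem _ fun k _ => Submodule.smul_mem _ _ (hmem k)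
    show wall B h.1 (b' i) (b' j) = _
    rw [wall_eq h h2 h3, hP j, wfwall_sum_right, Matrix.mul_apply]
    refine Finset.sum_congr rfl fun l _ => ?_
    rw [wfwall_sum_left, Matrix.mul_apply, Matrix.conjTranspose_apply, mul_comm]
    congr 1
    refine Finset.sum_congr rfl fun k _ => ?_
    show P i k * B.ip (a k) (b l) = P i k * wall B h.1 (b k) (b l)
    rw [wall_eq h (ha k) (hmem l)]
  rw [h1, Matrix.det_mul, Matrix.det_mul, Matrix.det_conjTranspose]
  ring

theorem rbasis_exists (h : UU B) : ∃ (r : ℕ) (b : Fin r → V), IsRBasis h.1 b := by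
  set R := LinearMap.range (h.1.1 - 1) with hR
  refine ⟨_, fun i => ((Module.finBasis E R) i : V), ?_, ?_⟩
  · exact (Module.finBasis E R).linearIndependent.map' R.subtype (Submodule.ker_subtype R)
  · have h1 : Set.range (fun i => ((Module.finBasis E R) i : V)) =
        R.subtype '' Set.range (Module.finBasis E R) := by
      rw [← Set.range_comp]
      rfl
    rw [h1, Submodule.span_image, (Module.finBasis E R).span_eq, Submodule.map_top,
      Submodule.range_subtype]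

theorem rbasis_change (h : UU B) {r s : ℕ} (b : Fin r → V) (b' : Fin s → V)
    (hb : IsRBasis h.1 b) (hb' : IsRBasis h.1 b') : r = s := by
  have h1 := finrank_span_eq_card hb.1
  have h2 := finrank_span_eq_card hb'.1
  rw [hb.2, Fintype.card_fin] at h1
  rw [hb'.2, Fintype.card_fin] at h2
  exact h1.symm.trans h2

theorem rbasis_mat (h : UU B) {r : ℕ} (b b' : Fin r → V) (hb : IsRBasis h.1 b)
    (hb' : IsRBasis h.1 b') : ∃ P : Matrix (Fin r) (Fin r) E, P.det ≠ 0 ∧
      ∀ i, b' i = ∑ j, P i j • b j := by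
  have hmem : ∀ i, ∃ c : Fin r → E, ∑ j, c j • b j = b' i := fun i => by
    rw [← Submodule.mem_span_range_iff_exists_fun, hb.2, ← hb'.2]
    exact Submodule.subset_span ⟨i, rfl⟩
  choose P hP using hmem
  refine ⟨P, fun h0 => ?_, fun i => (hP i).symm⟩
  obtain ⟨x, hx, hx0⟩ := Matrix.exists_vecMul_eq_zero_iff.mpr h0
  have h4 : ∑ i, x i • b' i = 0 := by
    have h5 : ∑ i, x i • b' i = ∑ j, (∑ i, x i * P i j) • b j := by
      simp only [Finset.sum_smul]
      rw [Finset.sum_comm]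
      refine Finset.sum_congr rfl fun i _ => ?_
      rw [← hP i, Finset.smul_sum]
      refine Finset.sum_congr rfl fun j _ => ?_
      rw [smul_smul]
    rw [h5]
    refine Finset.sum_eq_zero fun j _ => ?_
    have h6 : ∑ i, x i * P i j = 0 := congrFun hx0 j
    rw [h6, zero_smul]
  exact hx (funext fun i => Fintype.linearIndependent_iff.1 hb'.1 x h4 i)

theorem wall_prod (g h : UU B)
    (hd : Disjoint (LinearMap.range (g.1.1 - 1)) (LinearMap.range (h.1.1 - 1)))
    {r s : ℕ} (b : Fin r → V) (b' : Fin s → V) (hb : IsRBasis g.1 b) (hb' : IsRBasis h.1 b') :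
    IsRBasis (g * h).1 (Fin.append b b') ∧
    (wallM B (g * h).1 (Fin.append b b')).det = (wallM B g.1 b).det * (wallM B h.1 b').det ∧
    ∀ u ∈ LinearMap.range (g.1.1 - 1), ∀ u' ∈ LinearMap.range (h.1.1 - 1),
      ∀ y ∈ LinearMap.range (g.1.1 - 1), ∀ y' ∈ LinearMap.range (h.1.1 - 1),
      wall B (g * h).1 (u + u') (y + y') = wall B g.1 u y + wall B h.1 u' y' - B.ip u' y := by
  have hgh : ∀ a, (g * h).1.1 a - a = (g.1.1 (h.1.1 a) - h.1.1 a) + (h.1.1 a - a) := by
    intro a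
    show g.1.1 (h.1.1 a) - a = _
    abel
  -- the range
  have hker : LinearMap.ker ((g * h).1.1 - 1) =
      orth B (LinearMap.range (g.1.1 - 1) ⊔ LinearMap.range (h.1.1 - 1)) := by
    ext a
    rw [LinearMap.mem_ker]
    constructor
    · intro h0
      have h1 : (g.1.1 (h.1.1 a) - h.1.1 a) + (h.1.1 a - a) = 0 := by
        rw [← hgh]
        exact h0
      have h2 : h.1.1 a - a = 0 := by
        have h3 : h.1.1 a - a ∈ LinearMap.range (g.1.1 - 1) := by
          have h4 : h.1.1 a - a = -(g.1.1 (h.1.1 a) - h.1.1 a) := by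
            rw [eq_neg_iff_add_eq_zero, add_comm]
            exact h1
          rw [h4]
          exact Submodule.neg_mem _ ⟨h.1.1 a, rfl⟩
        have h5 := Submodule.disjoint_def.1 hd _ h3 ⟨a, rfl⟩
        exact h5
      have h3 : g.1.1 a = a := by
        rw [h2, add_zero, sub_eq_zero.1 h2] at h1
        exact sub_eq_zero.1 h1
      intro w hw
      obtain ⟨y, hy, z, hz, rfl⟩ := Submodule.mem_sup.1 hw
      rw [B.add_right, wfwall_fix' g h3 hy, wfwall_fix' h (sub_eq_zero.1 h2) hz, add_zero]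
    · intro h0
      have h1 : g.1.1 a = a := wfwall_fix g fun y hy => h0 y (Submodule.mem_sup_left hy)
      have h2 : h.1.1 a = a := wfwall_fix h fun y hy => h0 y (Submodule.mem_sup_right hy)
      show g.1.1 (h.1.1 a) - a = 0
      rw [h2, h1, sub_self]
  have hrange : LinearMap.range ((g * h).1.1 - 1) =
      LinearMap.range (g.1.1 - 1) ⊔ LinearMap.range (h.1.1 - 1) := by
    apply Submodule.eq_of_le_of_finrank_eq
    · rintro _ ⟨a, rfl⟩
      have h1 : ((g * h).1.1 - 1) a = (g.1.1 (h.1.1 a) - h.1.1 a) + (h.1.1 a - a) := hgh a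
      rw [h1]
      exact Submodule.add_mem_sup ⟨h.1.1 a, rfl⟩ ⟨a, rfl⟩
    · have h1 := LinearMap.finrank_range_add_finrank_ker ((g * h).1.1 - 1)
      have h2 := finrank_orth B (LinearMap.range (g.1.1 - 1) ⊔ LinearMap.range (h.1.1 - 1))
      rw [hker] at h1
      omega
  -- the formula
  have hform : ∀ u ∈ LinearMap.range (g.1.1 - 1), ∀ u' ∈ LinearMap.range (h.1.1 - 1),
      ∀ y ∈ LinearMap.range (g.1.1 - 1), ∀ y' ∈ LinearMap.range (h.1.1 - 1),
      wall B (g * h).1 (u + u') (y + y') = wall B g.1 u y + wall B h.1 u' y' - B.ip u' y := by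
    intro u hu u' hu' y hy y' hy'
    have h1 : u + u' ∈ LinearMap.range ((g * h).1.1 - 1) := by
      rw [hrange]
      exact Submodule.add_mem_sup hu hu'
    obtain ⟨a, ha⟩ := (wfwall_mem (g * h)).1 h1
    have h2 : (g.1.1 (h.1.1 a) - h.1.1 a) + (h.1.1 a - a) = u + u' := by
      rw [← hgh]
      exact ha
    have h3 : (g.1.1 (h.1.1 a) - h.1.1 a) - u = u' - (h.1.1 a - a) := by
      rw [sub_eq_sub_iff_add_eq_add, h2, add_comm]
    have m1 : g.1.1 (h.1.1 a) - h.1.1 a ∈ LinearMap.range (g.1.1 - 1) := ⟨h.1.1 a, rfl⟩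
    have m2 : h.1.1 a - a ∈ LinearMap.range (h.1.1 - 1) := ⟨a, rfl⟩
    have h4 : (g.1.1 (h.1.1 a) - h.1.1 a) - u = 0 := by
      apply Submodule.disjoint_def.1 hd _ (Submodule.sub_mem _ m1 hu)
      rw [h3]
      exact Submodule.sub_mem _ hu' m2
    have h5 : h.1.1 a - a = u' := by
      rw [h4] at h3
      exact (sub_eq_zero.1 h3.symm).symm
    rw [wall_eq (g * h) ha (by
      rw [hrange]
      exact Submodule.add_mem_sup hy hy'), B.add_right, wall_eq g (sub_eq_zero.1 h4) hy,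
      wall_eq h h5 hy', ← h5, wfwall_sub_left]
    ring
  have hmem : ∀ i, b i ∈ LinearMap.range (g.1.1 - 1) := fun i => by
    rw [← hb.2]
    exact Submodule.subset_span ⟨i, rfl⟩
  have hmem' : ∀ i, b' i ∈ LinearMap.range (h.1.1 - 1) := fun i => by
    rw [← hb'.2]
    exact Submodule.subset_span ⟨i, rfl⟩
  have happ : Fin.append b b' ∘ finSumFinEquiv = Sum.elim b b' := by
    funext i
    rcases i with i | i
    · show Fin.append b b' (Fin.castAdd s i) = b i
      rw [Fin.append_left]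
    · show Fin.append b b' (Fin.natAdd r i) = b' i
      rw [Fin.append_right]
  refine ⟨⟨?_, ?_⟩, ?_, hform⟩
  · rw [← linearIndependent_equiv finSumFinEquiv, happ]
    apply LinearIndependent.sum_type hb.1 hb'.1
    rw [hb.2, hb'.2]
    exact hd
  · have h1 : Set.range (Fin.append b b') = Set.range b ∪ Set.range b' := by
      rw [← Set.Sum.elim_range, ← happ, Set.range_comp, finSumFinEquiv.range_eq_univ,
        Set.image_univ]
    rw [h1, Submodule.span_union, hb.2, hb'.2, hrange]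
  · have h0g : (0 : V) ∈ LinearMap.range (g.1.1 - 1) := Submodule.zero_mem _
    have h0h : (0 : V) ∈ LinearMap.range (h.1.1 - 1) := Submodule.zero_mem _
    have w0 : ∀ (k : UU B) (y : V), y ∈ LinearMap.range (k.1.1 - 1) → wall B k.1 0 y = 0 := by
      intro k y hy
      rw [wall_eq k (a := 0) (by rw [map_zero, sub_zero]) hy, wfwall_zero_left]
    have w0' : ∀ (k : UU B) (x : V), x ∈ LinearMap.range (k.1.1 - 1) → wall B k.1 x 0 = 0 := by
      intro k x hx
      obtain ⟨a, ha⟩ := (wfwall_mem k).1 hx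
      rw [wall_eq k ha (Submodule.zero_mem _), wfwall_zero_right]
    have hM : (wallM B (g * h).1 (Fin.append b b')).submatrix finSumFinEquiv finSumFinEquiv =
        Matrix.fromBlocks (wallM B g.1 b) 0 (fun i j => -B.ip (b' i) (b j)) (wallM B h.1 b') := by
      ext i j
      show wall B (g * h).1 ((Fin.append b b' ∘ finSumFinEquiv) i)
        ((Fin.append b b' ∘ finSumFinEquiv) j) = _
      rw [happ]
      rcases i with i | i <;> rcases j with j | j
      · have h1 := hform (b i) (hmem i) 0 h0h (b j) (hmem j) 0 h0h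
        rw [add_zero, add_zero, w0 h 0 h0h, wfwall_zero_left, add_zero, sub_zero] at h1
        exact h1
      · have h1 := hform (b i) (hmem i) 0 h0h 0 h0g (b' j) (hmem' j)
        rw [add_zero, zero_add, w0' g _ (hmem i), w0 h _ (hmem' j), wfwall_zero_left, add_zero,
          sub_zero] at h1
        exact h1
      · have h1 := hform 0 h0g (b' i) (hmem' i) (b j) (hmem j) 0 h0h
        rw [zero_add, add_zero, w0 g _ (hmem j), w0' h _ (hmem' i), add_zero, zero_sub] at h1
        exact h1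
      · have h1 := hform 0 h0g (b' i) (hmem' i) 0 h0g (b' j) (hmem' j)
        rw [zero_add, zero_add, w0 g 0 h0g, wfwall_zero_right, zero_add, sub_zero] at h1
        exact h1
    rw [← Matrix.det_submatrix_equiv_self finSumFinEquiv, hM, Matrix.det_fromBlocks_zero₁₂]

theorem wall_qr (v : V) (hv : v ≠ 0) (β : E) (hβ : QRok B v β) :
    IsRBasis (qr B v β hβ).1 (fun _ : Fin 1 => v) ∧ wall B (qr B v β hβ).1 v v = β := by
  obtain ⟨a, ha⟩ : ∃ a, B.ip a v = β := by
    obtain ⟨w, hw⟩ : ∃ w, B.ip w v ≠ 0 := by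
      by_contra hcon
      push Not at hcon
      exact hv (B.nondeg_right v hcon)
    refine ⟨(β / B.ip w v) • w, ?_⟩
    rw [B.smul_left, div_mul_cancel₀ _ hw]
  have h1 : (qr B v β hβ).1.1 a - a = v := by
    rw [qr_apply, ha, inv_mul_cancel₀ hβ.1, one_smul, add_sub_cancel_left]
  have h2 : v ∈ LinearMap.range ((qr B v β hβ).1.1 - 1) := ⟨a, h1⟩
  refine ⟨⟨?_, ?_⟩, ?_⟩
  · rw [Fintype.linearIndependent_iff]
    intro c hc i
    rw [Fin.sum_univ_one] at hc
    have h3 := (smul_eq_zero.1 hc).resolve_right hv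
    rw [Subsingleton.elim i 0]
    exact h3
  · rw [Set.range_const]
    apply le_antisymm
    · rw [Submodule.span_singleton_le_iff_mem]
      exact h2
    · rintro _ ⟨x, rfl⟩
      show (qr B v β hβ).1.1 x - x ∈ _
      rw [qr_apply, add_sub_cancel_left]
      exact Submodule.smul_mem _ _ (Submodule.mem_span_singleton_self v)
  · rw [wall_eq _ h1 h2, ha]

theorem wall_aniso (hstar : ∃ x : E, star x ≠ x) (h : UU B) (h1 : h ≠ 1) :
    ∃ v ∈ LinearMap.range (h.1.1 - 1), wall B h.1 v v ≠ 0 := by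
  by_contra hcon
  push Not at hcon
  obtain ⟨c, hc⟩ := hstar
  have hanti : ∀ x ∈ LinearMap.range (h.1.1 - 1), ∀ y ∈ LinearMap.range (h.1.1 - 1),
      wall B h.1 x y + wall B h.1 y x = 0 := by
    intro x hx y hy
    have h2 := hcon (x + y) (Submodule.add_mem _ hx hy)
    rw [wall_add_left h hx hy (Submodule.add_mem _ hx hy), wall_add_right h hx hx hy,
      wall_add_right h hy hx hy, hcon x hx, hcon y hy] at h2
    linear_combination h2
  have hzero : ∀ x ∈ LinearMap.range (h.1.1 - 1), ∀ y ∈ LinearMap.range (h.1.1 - 1),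
      wall B h.1 x y = 0 := by
    intro x hx y hy
    have h2 := hanti (c • x) (Submodule.smul_mem _ c hx) y hy
    have h3 := hanti x hx y hy
    rw [wall_smul_left h c hx hy, wall_smul_right h c hy hx] at h2
    have h4 : (c - star c) * wall B h.1 x y = 0 := by linear_combination h2 - star c * h3
    exact (mul_eq_zero.1 h4).resolve_left (sub_ne_zero.2 (Ne.symm hc))
  apply h1
  apply Subtype.ext
  apply Units.ext
  ext a
  show h.1.1 a = a
  apply wfwall_fix h
  intro y hy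
  rw [← wall_eq h (x := h.1.1 a - a) rfl hy]
  exact hzero _ ⟨a, rfl⟩ y hy

theorem wall_qrok (h : UU B) {v : V} (hv : v ∈ LinearMap.range (h.1.1 - 1))
    (hb : wall B h.1 v v ≠ 0) : QRok B v (wall B h.1 v v) :=
  ⟨hb, wall_conj h hv hv⟩

theorem wall_split (h : UU B) {v : V} (hv : v ∈ LinearMap.range (h.1.1 - 1))
    (hb : wall B h.1 v v ≠ 0) :
    LinearMap.range (((qr B v _ (wall_qrok h hv hb))⁻¹ * h).1.1 - 1) ⊓ Submodule.span E {v} = ⊥ ∧
    ∀ y, y ∈ LinearMap.range (((qr B v _ (wall_qrok h hv hb))⁻¹ * h).1.1 - 1) ↔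
      y ∈ LinearMap.range (h.1.1 - 1) ∧ wall B h.1 v y = 0 := by
  set β : E := wall B h.1 v v with hβ
  have hβs : star β ≠ 0 := by
    intro h0
    apply hb
    rw [← star_star β, h0, star_zero]
  have happ : ∀ a, (((qr B v β (wall_qrok h hv hb))⁻¹ * h).1.1 - 1) a =
      (h.1.1 a - a) + (-(star β)⁻¹ * B.ip (h.1.1 a) v) • v := by
    intro a
    show qrLin B v (-(star β)⁻¹) (h.1.1 a) - a = _
    rw [qrLin_apply]
    abel
  -- `W(v, x) = conj ⟨h a, v⟩`
  have hW : ∀ a, wall B h.1 v (h.1.1 a - a) = star (B.ip (h.1.1 a) v) := by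
    intro a
    have hx : h.1.1 a - a ∈ LinearMap.range (h.1.1 - 1) := ⟨a, rfl⟩
    have h1 := wall_conj h hv hx
    rw [wall_eq h (x := h.1.1 a - a) rfl hv, B.skew (h.1.1 a - a) v, wfwall_sub_left,
      star_sub] at h1
    linear_combination -h1
  have hiff : ∀ y, y ∈ LinearMap.range (((qr B v β (wall_qrok h hv hb))⁻¹ * h).1.1 - 1) ↔
      y ∈ LinearMap.range (h.1.1 - 1) ∧ wall B h.1 v y = 0 := by
    intro y
    constructor
    · rintro ⟨a, rfl⟩
      rw [happ]
      have hx : h.1.1 a - a ∈ LinearMap.range (h.1.1 - 1) := ⟨a, rfl⟩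
      refine ⟨Submodule.add_mem _ hx (Submodule.smul_mem _ _ hv), ?_⟩
      rw [wall_add_right h hv hx (Submodule.smul_mem _ _ hv), hW, wall_smul_right h _ hv hv, ← hβ,
        star_mul', star_neg, star_inv₀, star_star]
      field_simp
      ring
    · rintro ⟨⟨a, rfl⟩, hy0⟩
      have h1 := hW a
      have h2 : wall B h.1 v ((h.1.1 - 1) a) = wall B h.1 v (h.1.1 a - a) := rfl
      rw [h2, h1] at hy0
      have h3 : B.ip (h.1.1 a) v = 0 := by
        rw [← star_star (B.ip (h.1.1 a) v), hy0, star_zero]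
      refine ⟨a, ?_⟩
      rw [happ, h3, mul_zero, zero_smul, add_zero]
      rfl
  refine ⟨?_, hiff⟩
  rw [eq_bot_iff]
  rintro y ⟨hy1, hy2⟩
  obtain ⟨c, rfl⟩ := Submodule.mem_span_singleton.1 hy2
  have h1 := ((hiff _).1 hy1).2
  rw [wall_smul_right h c hv hv, ← hβ] at h1
  have h2 := (mul_eq_zero.1 h1).resolve_right hb
  have h3 : c = 0 := by rw [← star_star c, h2, star_zero]
  rw [Submodule.mem_bot, h3, zero_smul]

theorem wall_conjugate (g h : UU B) {x y : V} (hx : x ∈ LinearMap.range (h.1.1 - 1))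
    (hy : y ∈ LinearMap.range (h.1.1 - 1)) :
    wall B (g * h * g⁻¹).1 (g.1.1 x) (g.1.1 y) = wall B h.1 x y := by
  obtain ⟨a, ha⟩ := (wfwall_mem h).1 hx
  obtain ⟨c, hc⟩ := (wfwall_mem h).1 hy
  have hg : ∀ a x : V, h.1.1 a - a = x →
      (g * h * g⁻¹).1.1 (g.1.1 a) - g.1.1 a = g.1.1 x := by
    intro a x hax
    show g.1.1 (h.1.1 (g.1⁻¹.1 (g.1.1 a))) - g.1.1 a = g.1.1 x
    rw [wfwall_im, ← hax, map_sub]
  rw [wall_eq (g * h * g⁻¹) (hg a x ha) ⟨g.1.1 c, hg c y hc⟩, wall_eq h ha hy, g.2]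

theorem rbasis_conjugate (g h : UU B) {r : ℕ} (b : Fin r → V) (hb : IsRBasis h.1 b) :
    IsRBasis (g * h * g⁻¹).1 (fun i => g.1.1 (b i)) := by
  have hinj : LinearMap.ker g.1.1 = ⊥ := by
    rw [LinearMap.ker_eq_bot']
    intro x hx
    rw [← wfwall_im g x, hx, map_zero]
  refine ⟨hb.1.map' g.1.1 hinj, ?_⟩
  have h1 : Set.range (fun i => g.1.1 (b i)) = g.1.1 '' Set.range b := by
    rw [← Set.range_comp]
    rfl
  rw [h1, Submodule.span_image, hb.2]
  ext y
  constructor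
  · rintro ⟨_, ⟨a, rfl⟩, rfl⟩
    refine ⟨g.1.1 a, ?_⟩
    show g.1.1 (h.1.1 (g.1⁻¹.1 (g.1.1 a))) - g.1.1 a = g.1.1 (h.1.1 a - a)
    rw [wfwall_im, map_sub]
  · rintro ⟨a, rfl⟩
    refine ⟨h.1.1 (g.1⁻¹.1 a) - g.1⁻¹.1 a, ⟨g.1⁻¹.1 a, rfl⟩, ?_⟩
    show g.1.1 (h.1.1 (g.1⁻¹.1 a) - g.1⁻¹.1 a) = g.1.1 (h.1.1 (g.1⁻¹.1 a)) - a
    rw [map_sub, wfwall_mi]

theorem wall_determines (g h : UU B)
    (hr : LinearMap.range (g.1.1 - 1) = LinearMap.range (h.1.1 - 1))
    (hw : ∀ x ∈ LinearMap.range (h.1.1 - 1), ∀ y ∈ LinearMap.range (h.1.1 - 1),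
      wall B g.1 x y = wall B h.1 x y) : g = h := by
  apply Subtype.ext
  apply Units.ext
  ext a
  show g.1.1 a = h.1.1 a
  have hx : h.1.1 a - a ∈ LinearMap.range (h.1.1 - 1) := ⟨a, rfl⟩
  have hx' : g.1.1 a - a ∈ LinearMap.range (g.1.1 - 1) := ⟨a, rfl⟩
  have hx'' : g.1.1 a - a ∈ LinearMap.range (h.1.1 - 1) := by
    rw [← hr]
    exact hx'
  obtain ⟨d, hd⟩ := (wfwall_mem h).1 hx''
  have h1 : h.1.1 (a - d) = a - d := by
    apply wfwall_fix h
    intro y hy
    have hy' : y ∈ LinearMap.range (g.1.1 - 1) := by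
      rw [hr]
      exact hy
    have h2 := hw _ hx'' y hy
    rw [wall_eq g (a := a) rfl hy', wall_eq h hd hy] at h2
    rw [wfwall_sub_left, h2, sub_self]
  rw [map_sub] at h1
  have h2 : h.1.1 a - a = h.1.1 d - d := by
    rw [sub_eq_sub_iff_add_eq_add] at h1 ⊢
    rw [h1]
    abel
  rw [hd] at h2
  exact (sub_left_inj.1 h2).symm

end

end Pool.Agent.Work.MP_dd0ddf_al.C2
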