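import Pool.Agent.Work.MP_dd0ddf_al.C2.GkK
import Pool.Agent.Work.MP_dd0ddf_al.C2.SchurC

/-!
# MP_dd0ddf_al, module SdIrr: irreducible admissible representations: countable dimension, Schur, Burnside, the contragredient

`irr_countable`: P is spanned by the π(g) w, w ≠ 0; w is fixed by an open K and GV E V / K is countable (second countable).  `schurG`: schurC.
`rank_one`: K a compact open subgroup fixing w0 and ξ (ξ(π(k) w) = ξ(w)).  densityC for the submonoid range of π, a basis s_i of P^K, t_i = ξ(s_i) w0: an operator `a = ∑ c_j π(g_j)` with a s = ξ(s) w0 on P^K.  Then a π(e_K) = π(f) (hOp_left) and `π(f) w = a(e_K w) = ξ(e_K w) w0 = ξ(w) w0`.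
`hOp_finite`: hOp_range, adm.
`sdual_sep`: w fixed by K, a linear functional η with η(w) = 1; ξ = η ∘ π(e_K), ξ(w) = 1.
`sd_irrAdm`: smooth: definition.  nontriv: sdual_sep.  adm: ξ ↦ ξ on P^K is injective on the K-fixed ξ (ξ(w) = ξ(π(e_K) w); shrink K to a compact open subgroup first).
irr: N' a stable subspace, N' ≠ 0.  {w : ξ(w) = 0 for all ξ ∈ N'} is π-stable, ≠ P, so 0.  Given ξ0 ∈ sdual fixed by K: P^K is finite dimensional; the functionals ξ on P^K, ξ ∈ N', separate the points of P^K, so they are all functionals on P^K; so some ξ1 ∈ N' with ξ1 = ξ0 on P^K; π^∨(e_K) ξ1 ∈ N' (quotient by N') has the same values on P^K and is K-fixed, hence equal to ξ0.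
-/

set_option linter.unusedSectionVars false
set_option linter.style.haveILetI false

namespace Pool.Agent.Work.MP_dd0ddf_al.C2

noncomputable section

universe u

variable {E : Type u} [NontriviallyNormedField E] [IsUltrametricDist E] [ProperSpace E]
variable {V : Type u} [AddCommGroup V] [Module E V] [Module.Finite E V] [TopologicalSpace V]
  [IsTopologicalAddGroup V] [T2Space V] [ContinuousSMul E V]
variable {P : Type*} [AddCommGroup P] [Module ℂ P]

/-- the vectors fixed by `K` -/
private def sdirrFix (π : GV E V →* Module.End ℂ P) (K : Subgroup (GV E V)) :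
    Submodule ℂ P where
  carrier := {w | ∀ k ∈ K, π k w = w}
  add_mem' := fun {a b} ha hb k hk => by rw [map_add, ha k hk, hb k hk]
  zero_mem' := fun k _ => map_zero _
  smul_mem' := fun c a ha k hk => by rw [map_smul, ha k hk]

private theorem sdirr_haar_eK (K : Subgroup (GV E V)) (hK : IsOpen (K : Set (GV E V)))
    (hK' : IsCompact (K : Set (GV E V))) : haarG E V (eK K hK hK') = 1 := by
  obtain ⟨r, hr, h⟩ := haarG_pos (E := E) (V := V) (K : Set (GV E V)) hK' hK ⟨1, K.one_mem⟩
  unfold eK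
  rw [map_smul, smul_eq_mul, h, inv_mul_cancel₀]
  exact Complex.ofReal_ne_zero.2 hr.ne'

/-- integral over `K` of a function constant on `K` -/
private theorem sdirr_const (π : GV E V →* Module.End ℂ P) (hπ : SmRep π)
    (K : Subgroup (GV E V)) (hK : IsOpen (K : Set (GV E V)))
    (hK' : IsCompact (K : Set (GV E V))) (φ : Module.Dual ℂ P) (w : P) (c : ℂ)
    (h : ∀ k ∈ K, φ (π k w) = c) : φ (hOp π hπ (eK K hK hK') w) = c := by
  have h1 : SF.map φ (actF π hπ (eK K hK hK') w) = c • eK K hK hK' := by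
    apply SF.ext
    intro g
    show φ (eK K hK hK' g • π g w) = c • eK K hK hK' g
    rw [map_smul]
    by_cases hg : g ∈ K
    · rw [h g hg, smul_eq_mul, smul_eq_mul, mul_comm]
    · have h2 : eK K hK hK' g = 0 := by
        show (haarG E V (SF.single (K : Set (GV E V)) hK' hK 1))⁻¹ •
          SF.single (K : Set (GV E V)) hK' hK (1 : ℂ) g = 0
        rw [SF.single_apply_not_mem _ _ _ _ _ hg, smul_zero]
      rw [h2, zero_smul, smul_zero]
  rw [hOp_dual, h1, map_smul, sdirr_haar_eK, smul_eq_mul, mul_one]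

private theorem sdirr_eK_mem (π : GV E V →* Module.End ℂ P) (hπ : SmRep π)
    (K : Subgroup (GV E V)) (hK : IsOpen (K : Set (GV E V)))
    (hK' : IsCompact (K : Set (GV E V))) (w : P) :
    hOp π hπ (eK K hK hK') w ∈ sdirrFix π K := by
  intro k hk
  rw [← Module.End.mul_apply, hOp_eK_left π hπ K hK hK' k hk]

private theorem sdirr_fix_finite (π : GV E V →* Module.End ℂ P) (hπ : IrrAdm π)
    (K : Subgroup (GV E V)) (hK : IsOpen (K : Set (GV E V))) :
    Module.Finite ℂ (sdirrFix π K) := by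
  obtain ⟨N, hN, h⟩ := hπ.adm K hK
  exact Submodule.finiteDimensional_of_le (S₁ := sdirrFix π K) (S₂ := N) fun w hw => h w hw

/-- operators of the Hecke algebra preserve stable subspaces -/
private theorem sdirr_stable (π : GV E V →* Module.End ℂ P) (hπ : SmRep π) (N : Submodule ℂ P)
    (hN : ∀ g, ∀ w ∈ N, π g w ∈ N) (f : SF (GV E V) ℂ) (w : P) (hw : w ∈ N) :
    hOp π hπ f w ∈ N := by
  rw [← Submodule.Quotient.mk_eq_zero]
  have h1 : N.mkQ (hOp π hπ f w) = 0 := by
    rw [hOp_apply, ← vecI_map]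
    have h2 : SF.map N.mkQ (actF π hπ f w) = 0 := by
      apply SF.ext
      intro g
      show N.mkQ (f g • π g w) = 0
      rw [map_smul, Submodule.mkQ_apply, (Submodule.Quotient.mk_eq_zero N).2 (hN g w hw),
        smul_zero]
    rw [h2, map_zero]
  exact h1

/-- a common compact open subgroup for a vector and a smooth functional -/
private theorem sdirr_common (π : GV E V →* Module.End ℂ P) (hπ : SmRep π) (w : P)
    (ξ : sdual π) : ∃ K : Subgroup (GV E V), IsOpen (K : Set (GV E V)) ∧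
      IsCompact (K : Set (GV E V)) ∧ (∀ k ∈ K, π k w = w) ∧ ∀ k ∈ K, ∀ w, ξ.1 (π k w) = ξ.1 w := by
  obtain ⟨U, hU, h1, hU'⟩ := hπ w
  obtain ⟨W, hW, h1', hW'⟩ := ξ.2
  obtain ⟨K, hK, hK', hKU⟩ := gv_basis (U ∩ W) (hU.inter hW) ⟨h1, h1'⟩
  exact ⟨K, hK, hK', fun k hk => hU' k (hKU hk).1, fun k hk w => hW' k (hKU hk).2 w⟩

theorem irr_countable (π : GV E V →* Module.End ℂ P) (hπ : IrrAdm π) :
    ∃ C : Set P, C.Countable ∧ Submodule.span ℂ C = ⊤ := by
  obtain ⟨w, hw⟩ := hπ.nontriv
  obtain ⟨K, hK, -, hKw⟩ := vec_fix π hπ.smooth w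
  haveI : SecondCountableTopology (GV E V) := by
    letI : StarRing E := starRingOfComm
    exact sc_GV
  haveI : DiscreteTopology (GV E V ⧸ K) := QuotientGroup.discreteTopology hK
  haveI : TopologicalSpace.SeparableSpace (GV E V ⧸ K) :=
    (QuotientGroup.mk_surjective (s := K)).denseRange.separableSpace continuous_quotient_mk'
  haveI : Countable (GV E V ⧸ K) := TopologicalSpace.separableSpace_iff_countable.1 inferInstance
  have hmem : ∀ g : GV E V, π g w ∈ Set.range fun q : GV E V ⧸ K => π q.out w := by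
    intro g
    refine ⟨(g : GV E V ⧸ K), ?_⟩
    have h1 : (Quotient.out (g : GV E V ⧸ K))⁻¹ * g ∈ K := by
      rw [← QuotientGroup.eq]
      exact QuotientGroup.out_eq' _
    have h2 : g = Quotient.out (g : GV E V ⧸ K) * ((Quotient.out (g : GV E V ⧸ K))⁻¹ * g) := by
      rw [mul_inv_cancel_left]
    show π (Quotient.out (g : GV E V ⧸ K)) w = π g w
    conv_rhs => rw [h2, map_mul, Module.End.mul_apply, hKw _ h1]
  refine ⟨Set.range fun q : GV E V ⧸ K => π q.out w, Set.countable_range _, ?_⟩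
  rcases hπ.irr (Submodule.span ℂ (Set.range fun q : GV E V ⧸ K => π q.out w)) (fun g x hx => by
    induction hx using Submodule.span_induction with
    | mem x hx =>
      obtain ⟨q, rfl⟩ := hx
      show π g (π q.out w) ∈ _
      rw [← Module.End.mul_apply, ← map_mul]
      exact Submodule.subset_span (hmem _)
    | zero => rw [map_zero]; exact Submodule.zero_mem _
    | add x y _ _ hx hy => rw [map_add]; exact Submodule.add_mem _ hx hy
    | smul c x _ hx => rw [map_smul]; exact Submodule.smul_mem _ _ hx) with h | h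
  · exfalso
    apply hw
    have h1 : π 1 w ∈ Submodule.span ℂ (Set.range fun q : GV E V ⧸ K => π q.out w) :=
      Submodule.subset_span (hmem 1)
    rw [h, map_one, Submodule.mem_bot] at h1
    exact h1
  · exact h

theorem schurG (π : GV E V →* Module.End ℂ P) (hπ : IrrAdm π) (T : Module.End ℂ P)
    (hT : ∀ g, T * π g = π g * T) : ∃ c : ℂ, T = c • 1 := by
  refine schurC (Set.range π) (fun N hN => hπ.irr N fun g w hw => hN _ ⟨g, rfl⟩ w hw)
    hπ.nontriv (irr_countable π hπ) T ?_
  rintro _ ⟨g, rfl⟩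
  exact hT g

/-- operators of rank one come from the Hecke algebra -/
theorem rank_one (π : GV E V →* Module.End ℂ P) (hπ : IrrAdm π) (w0 : P) (ξ : sdual π) :
    ∃ f, ∀ w, hOp π hπ.smooth f w = ξ.1 w • w0 := by
  obtain ⟨K, hK, hK', hKw, hKξ⟩ := sdirr_common π hπ.smooth w0 ξ
  haveI := sdirr_fix_finite π hπ K hK
  let s := Module.finBasis ℂ (sdirrFix π K)
  have hli : LinearIndependent ℂ (fun i => (s i : P)) :=
    s.linearIndependent.map' (sdirrFix π K).subtype (Submodule.ker_subtype _)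
  obtain ⟨a, ha, has⟩ := densityC (MonoidHom.mrange π)
    (fun N hN => hπ.irr N fun g w hw => hN _ ⟨g, rfl⟩ w hw) hπ.nontriv (irr_countable π hπ)
    (fun i => (s i : P)) (fun i => ξ.1 (s i) • w0) hli
  have hfix : ∀ w : sdirrFix π K, a w.1 = ξ.1 w.1 • w0 := by
    have h1 : a ∘ₗ (sdirrFix π K).subtype =
        (LinearMap.toSpanSingleton ℂ P w0) ∘ₗ ξ.1 ∘ₗ (sdirrFix π K).subtype := by
      apply s.ext
      intro i
      exact has i
    intro w
    exact congrArg (fun T => T w) h1
  have hex : ∃ f, hOp π hπ.smooth f = a * hOp π hπ.smooth (eK K hK hK') := by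
    clear has hfix
    induction ha using Submodule.span_induction with
    | mem x hx =>
      obtain ⟨g, rfl⟩ := hx
      refine ⟨SF.comp (Homeomorph.mulLeft g⁻¹) (eK K hK hK'), ?_⟩
      rw [hOp_left, inv_inv]
    | zero => exact ⟨0, by rw [map_zero, zero_mul]⟩
    | add x y _ _ hx hy =>
      obtain ⟨f, hf⟩ := hx
      obtain ⟨f', hf'⟩ := hy
      exact ⟨f + f', by rw [map_add, hf, hf', add_mul]⟩
    | smul c x _ hx =>
      obtain ⟨f, hf⟩ := hx
      exact ⟨c • f, by rw [map_smul, hf, smul_mul_assoc]⟩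
  obtain ⟨f, hf⟩ := hex
  refine ⟨f, fun w => ?_⟩
  rw [hf, Module.End.mul_apply]
  rw [hfix ⟨_, sdirr_eK_mem π hπ.smooth K hK hK' w⟩]
  show ξ.1 (hOp π hπ.smooth (eK K hK hK') w) • w0 = _
  rw [sdirr_const π hπ.smooth K hK hK' ξ.1 w (ξ.1 w) fun k hk => hKξ k hk w]

theorem hOp_finite (π : GV E V →* Module.End ℂ P) (hπ : IrrAdm π) (f : SF (GV E V) ℂ) :
    Module.Finite ℂ (LinearMap.range (hOp π hπ.smooth f)) := by
  obtain ⟨K, hK, -, h⟩ := hOp_range π hπ.smooth f
  haveI := sdirr_fix_finite π hπ K hK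
  refine Submodule.finiteDimensional_of_le (S₂ := sdirrFix π K) ?_
  rintro _ ⟨w, rfl⟩ k hk
  rw [← Module.End.mul_apply, (h k hk).1]

theorem sdual_sep (π : GV E V →* Module.End ℂ P) (hπ : SmRep π) (w : P)
    (h : ∀ ξ : sdual π, ξ.1 w = 0) : w = 0 := by
  obtain ⟨K, hK, hK', hKw⟩ := vec_fix π hπ w
  rw [← Module.forall_dual_apply_eq_zero_iff ℂ w]
  intro η
  have h1 := h ⟨η ∘ₗ hOp π hπ (eK K hK hK'), (K : Set (GV E V)), hK, K.one_mem, fun k hk w' => by
    show η (hOp π hπ (eK K hK hK') (π k w')) = η (hOp π hπ (eK K hK hK') w')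
    rw [← Module.End.mul_apply, hOp_eK_right π hπ K hK hK' k hk]⟩
  have h2 : η (hOp π hπ (eK K hK hK') w) = 0 := h1
  rwa [hOp_eK_fix π hπ K hK hK' w hKw] at h2

private theorem sdirr_smooth (π : GV E V →* Module.End ℂ P) : SmRep (sdAct π) := by
  intro ξ
  obtain ⟨U, hU, h1, h⟩ := ξ.2
  refine ⟨U⁻¹, hU.inv, by rwa [Set.mem_inv, inv_one], fun g hg => ?_⟩
  apply Subtype.ext
  apply LinearMap.ext
  intro w
  rw [sdAct_apply]
  exact h _ hg w

/-- a functional fixed by `K` is determined by its values on the fixed vectors -/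
private theorem sdirr_det (π : GV E V →* Module.End ℂ P) (hπ : SmRep π) (K : Subgroup (GV E V))
    (hK : IsOpen (K : Set (GV E V))) (hK' : IsCompact (K : Set (GV E V)))
    (ξ ξ' : Module.Dual ℂ P) (h : ∀ k ∈ K, ∀ w, ξ (π k w) = ξ w)
    (h' : ∀ k ∈ K, ∀ w, ξ' (π k w) = ξ' w) (he : ∀ w ∈ sdirrFix π K, ξ w = ξ' w) : ξ = ξ' := by
  apply LinearMap.ext
  intro w
  rw [← sdirr_const π hπ K hK hK' ξ w (ξ w) fun k hk => h k hk w,
    ← sdirr_const π hπ K hK hK' ξ' w (ξ' w) fun k hk => h' k hk w]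
  exact he _ (sdirr_eK_mem π hπ K hK hK' w)

/-- the contragredient of an irreducible admissible representation is irreducible admissible -/
theorem sd_irrAdm (π : GV E V →* Module.End ℂ P) (hπ : IrrAdm π) : IrrAdm (sdAct π) where
  smooth := sdirr_smooth π
  nontriv := by
    obtain ⟨w, hw⟩ := hπ.nontriv
    by_contra hne
    push Not at hne
    exact hw (sdual_sep π hπ.smooth w fun ξ => by rw [hne ξ]; rfl)
  irr := by
    intro N' hN'
    by_cases hbot : N' = ⊥
    · exact Or.inl hbot
    right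
    -- the annihilator of `N'` is zero
    have hsep : ∀ w : P, (∀ ξ ∈ N', ξ.1 w = 0) → w = 0 := by
      let Z : Submodule ℂ P :=
        { carrier := {w | ∀ ξ ∈ N', ξ.1 w = 0}
          add_mem' := fun {a b} ha hb ξ hξ => by rw [map_add, ha ξ hξ, hb ξ hξ, add_zero]
          zero_mem' := fun ξ _ => map_zero _
          smul_mem' := fun c a ha ξ hξ => by rw [map_smul, ha ξ hξ, smul_zero] }
      have hZ : Z = ⊥ ∨ Z = ⊤ := hπ.irr Z fun g w hw ξ hξ => by
        have h1 := hw _ (hN' g⁻¹ ξ hξ)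
        rw [sdAct_apply, inv_inv] at h1
        exact h1
      rcases hZ with hZ | hZ
      · intro w hw
        have h1 : w ∈ Z := hw
        rw [hZ, Submodule.mem_bot] at h1
        exact h1
      · exfalso
        apply hbot
        rw [eq_bot_iff]
        intro ξ hξ
        rw [Submodule.mem_bot]
        apply Subtype.ext
        apply LinearMap.ext
        intro w
        have h1 : w ∈ Z := by rw [hZ]; trivial
        exact h1 ξ hξ
    rw [eq_top_iff]
    intro ξ0 _
    obtain ⟨K, hK, hK', -, hKξ⟩ := sdirr_common π hπ.smooth 0 ξ0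
    haveI := sdirr_fix_finite π hπ K hK
    let res : sdual π →ₗ[ℂ] Module.Dual ℂ (sdirrFix π K) :=
      { toFun := fun ξ => ξ.1 ∘ₗ (sdirrFix π K).subtype
        map_add' := fun a b => rfl
        map_smul' := fun c a => rfl }
    have htop : N'.map res = ⊤ := by
      have h1 : (N'.map res).dualCoannihilator = ⊥ := by
        rw [eq_bot_iff]
        intro w hw
        rw [Submodule.mem_dualCoannihilator] at hw
        rw [Submodule.mem_bot]
        apply Subtype.ext
        apply hsep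
        intro ξ hξ
        exact hw (res ξ) ⟨ξ, hξ, rfl⟩
      have h2 := Subspace.dualCoannihilator_dualAnnihilator_eq (W := N'.map res)
      rw [h1, Submodule.dualAnnihilator_bot] at h2
      exact h2.symm
    have h3 : res ξ0 ∈ N'.map res := by rw [htop]; trivial
    obtain ⟨ξ1, hξ1, h4⟩ := h3
    set ξ2 := hOp (sdAct π) (sdirr_smooth π) (eK K hK hK') ξ1 with hξ2
    have h5 : ξ2 ∈ N' := sdirr_stable (sdAct π) (sdirr_smooth π) N' hN' _ ξ1 hξ1
    have h6 : ∀ k ∈ K, ∀ w, ξ2.1 (π k w) = ξ2.1 w := by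
      intro k hk w
      have h7 := sdirr_eK_mem (sdAct π) (sdirr_smooth π) K hK hK' ξ1 k⁻¹ (K.inv_mem hk)
      have h8 := congrArg (fun ξ : sdual π => ξ.1 w) h7
      have h9 : (sdAct π k⁻¹ ξ2).1 w = ξ2.1 w := h8
      rwa [sdAct_apply, inv_inv] at h9
    have h10 : ∀ w ∈ sdirrFix π K, ξ2.1 w = ξ0.1 w := by
      intro w hw
      let ev : Module.Dual ℂ (sdual π) :=
        { toFun := fun ξ => ξ.1 w
          map_add' := fun a b => rfl
          map_smul' := fun c a => rfl }
      have h11 : ev ξ2 = ξ1.1 w := sdirr_const (sdAct π) (sdirr_smooth π) K hK hK' ev ξ1 (ξ1.1 w)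
        fun k hk => by
          show ξ1.1 (π k⁻¹ w) = ξ1.1 w
          rw [hw k⁻¹ (K.inv_mem hk)]
      have h12 : ξ2.1 w = ξ1.1 w := h11
      have h13 : ξ1.1 w = ξ0.1 w := congrArg (fun φ => φ ⟨w, hw⟩) h4
      rw [h12, h13]
    have h14 : ξ2 = ξ0 := Subtype.ext
      (sdirr_det π hπ.smooth K hK hK' ξ2.1 ξ0.1 h6 hKξ h10)
    rw [← h14]
    exact h5
  adm := by
    intro K0 hK0
    obtain ⟨K, hK, hK', hKK⟩ := gv_basis (K0 : Set (GV E V)) hK0 K0.one_mem
    haveI := sdirr_fix_finite π hπ K hK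
    let N : Submodule ℂ (sdual π) :=
      { carrier := {ξ | ∀ k ∈ K, ∀ w, ξ.1 (π k w) = ξ.1 w}
        add_mem' := fun {a b} ha hb k hk w => by
          show a.1 (π k w) + b.1 (π k w) = a.1 w + b.1 w
          rw [ha k hk w, hb k hk w]
        zero_mem' := fun k _ w => rfl
        smul_mem' := fun c a ha k hk w => by
          show c • a.1 (π k w) = c • a.1 w
          rw [ha k hk w] }
    let res : N →ₗ[ℂ] Module.Dual ℂ (sdirrFix π K) :=
      { toFun := fun ξ => ξ.1.1 ∘ₗ (sdirrFix π K).subtype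
        map_add' := fun a b => rfl
        map_smul' := fun c a => rfl }
    have hinj : Function.Injective res := by
      intro ξ ξ' h
      apply Subtype.ext
      apply Subtype.ext
      exact sdirr_det π hπ.smooth K hK hK' ξ.1.1 ξ'.1.1 ξ.2 ξ'.2
        fun w hw => congrArg (fun φ => φ ⟨w, hw⟩) h
    refine ⟨N, Module.Finite.of_injective res hinj, fun ξ hξ k hk w => ?_⟩
    have h1 := hξ k⁻¹ (K0.inv_mem (hKK hk))
    have h2 := congrArg (fun ξ : sdual π => ξ.1 w) h1
    have h3 : (sdAct π k⁻¹ ξ).1 w = ξ.1 w := h2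
    rwa [sdAct_apply, inv_inv] at h3

end

end Pool.Agent.Work.MP_dd0ddf_al.C2
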