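import Pool.Agent.Work.MP_dd0ddf_al.C2.Found

/-!
# MP_dd0ddf_al, module TenMap: elementary tensors in SF X B and vector valued integrals

`ften f b (x) = f x • b`.  Choose a basis `b_i` of B over ℂ.  A function F in SF X B has finite range (SF.finite_range), so only finitely many coordinate functions `F_i = SF.map (coord i) F` are nonzero and `F = ∑ ften F_i b_i`.
`exists_tenMap`: `T F = ∑_i β F_i b_i` (finite sum, linear in F); `T (ften f b) = ∑ β (coord_i b • f) b_i = β f b`.
`ften_ext`: F is a finite sum of elementary tensors.  `vecI_map`, `vecI_comp`, `vecI_scalar`: check on elementary tensors (ften_ext).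
-/

set_option linter.unusedSectionVars false
set_option linter.style.haveILetI false

namespace Pool.Agent.Work.MP_dd0ddf_al.C2

noncomputable section

variable {X Y B M : Type*} [TopologicalSpace X] [TopologicalSpace Y] [AddCommGroup B] [Module ℂ B]
  [AddCommGroup M] [Module ℂ M]

/-- the function `x ↦ f x • b` -/
def ften (f : SF X ℂ) (b : B) : SF X B := SF.map (LinearMap.toSpanSingleton ℂ B b) f

theorem ften_apply (f : SF X ℂ) (b : B) (x : X) : ften f b x = f x • b := rfl

private def bas (B : Type*) [AddCommGroup B] [Module ℂ B] := Module.Basis.ofVectorSpace ℂ B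

private theorem coord_finite (F : SF X B) :
    Set.Finite (Function.support fun i => SF.map ((bas B).coord i) F) := by
  letI : MeasurableSpace X := borel X
  haveI : BorelSpace X := ⟨rfl⟩
  have h1 := SF.finite_range F
  refine (h1.biUnion (t := fun y => ((((bas B).repr y).support : Finset _) : Set _))
    fun y _ => Finset.finite_toSet _).subset ?_
  intro i hi
  have hi' : SF.map ((bas B).coord i) F ≠ 0 := hi
  obtain ⟨x, hx⟩ : ∃ x, SF.map ((bas B).coord i) F x ≠ 0 := by
    by_contra hcon
    exact hi' (SF.ext fun x => not_not.1 fun h => hcon ⟨x, h⟩)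
  exact Set.mem_biUnion (show F.1 x ∈ Set.range F.1 from ⟨x, rfl⟩)
    (Finsupp.mem_support_iff.2 hx)

private def cmap : SF X B →ₗ[ℂ] (Module.Basis.ofVectorSpaceIndex ℂ B →₀ SF X ℂ) where
  toFun F := Finsupp.ofSupportFinite (fun i => SF.map ((bas B).coord i) F) (coord_finite F)
  map_add' F G := by
    ext1 i
    apply SF.ext
    intro x
    exact map_add ((bas B).coord i) _ _
  map_smul' c F := by
    ext1 i
    apply SF.ext
    intro x
    exact map_smul ((bas B).coord i) c _

private theorem cmap_apply (F : SF X B) (i) (x : X) :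
    cmap F i x = (bas B).repr (F x) i := rfl

theorem exists_tenMap (β : SF X ℂ →ₗ[ℂ] B →ₗ[ℂ] M) :
    ∃ T : SF X B →ₗ[ℂ] M, ∀ f b, T (ften f b) = β f b := by
  classical
  refine ⟨(Finsupp.lsum ℂ fun i => β.flip (bas B i)) ∘ₗ cmap, fun f b => ?_⟩
  rw [LinearMap.comp_apply, Finsupp.lsum_apply]
  have h1 : (cmap (ften f b)) = ((bas B).repr b).mapRange (fun c : ℂ => c • f) (zero_smul _ _) := by
    ext1 i
    apply SF.ext
    intro x
    rw [cmap_apply, ften_apply, map_smul, Finsupp.mapRange_apply]
    show f x * _ = _ * f x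
    exact mul_comm _ _
  rw [h1, Finsupp.sum_mapRange_index (fun i => by simp)]
  have h2 : b = ((bas B).repr b).sum fun i c => c • bas B i := by
    have := (bas B).linearCombination_repr b
    rw [Finsupp.linearCombination_apply] at this
    exact this.symm
  conv_rhs => rw [h2]
  rw [map_finsuppSum]
  refine Finsupp.sum_congr fun i _ => ?_
  rw [map_smul, map_smul, LinearMap.flip_apply]

theorem ften_ext (T T' : SF X B →ₗ[ℂ] M) (h : ∀ f b, T (ften f b) = T' (ften f b)) : T = T' := by
  classical
  apply LinearMap.ext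
  intro F
  have hF : F = (cmap F).sum fun i g => ften g (bas B i) := by
    apply SF.ext
    intro x
    have h1 : ((cmap F).sum fun i g => ften g (bas B i)) x =
        ∑ i ∈ (cmap F).support, ((bas B).repr (F x) i) • bas B i := by
      have h3 : ∀ s : Finset (Module.Basis.ofVectorSpaceIndex ℂ B),
          (∑ i ∈ s, ften (cmap F i) (bas B i) : SF X B) x =
          ∑ i ∈ s, ((bas B).repr (F x) i) • bas B i := by
        intro s
        induction s using Finset.induction_on with
        | empty => simp
        | insert a s ha ih =>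
          rw [Finset.sum_insert ha, Finset.sum_insert ha, ← ih]
          rfl
      exact h3 _
    rw [h1]
    conv_lhs => rw [← (bas B).linearCombination_repr (F x)]
    rw [Finsupp.linearCombination_apply, Finsupp.sum]
    refine Finset.sum_subset ?_ ?_
    · intro i hi
      rw [Finsupp.mem_support_iff] at hi ⊢
      intro h0
      apply hi
      rw [← cmap_apply, h0]
      rfl
    · intro i _ hi
      rw [Finsupp.notMem_support_iff.1 hi, zero_smul]
  rw [hF, Finsupp.sum, map_sum, map_sum]
  exact Finset.sum_congr rfl fun i _ => h _ _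

/-- vector valued integral with respect to the functional `I` -/
def vecI (I : SF X ℂ →ₗ[ℂ] ℂ) : SF X B →ₗ[ℂ] B :=
  (exists_tenMap ((LinearMap.lsmul ℂ B : ℂ →ₗ[ℂ] B →ₗ[ℂ] B) ∘ₗ I)).choose

theorem vecI_ften (I : SF X ℂ →ₗ[ℂ] ℂ) (f : SF X ℂ) (b : B) : vecI I (ften f b) = I f • b :=
  (exists_tenMap ((LinearMap.lsmul ℂ B : ℂ →ₗ[ℂ] B →ₗ[ℂ] B) ∘ₗ I)).choose_spec f b

theorem vecI_map (I : SF X ℂ →ₗ[ℂ] ℂ) (φ : B →ₗ[ℂ] M) (f : SF X B) :
    vecI I (SF.map φ f) = φ (vecI I f) := by
  have h : (vecI I) ∘ₗ (SF.map φ) = φ ∘ₗ (vecI I) := by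
    apply ften_ext
    intro f b
    have e : SF.map φ (ften f b) = ften f (φ b) := by
      apply SF.ext
      intro x
      exact map_smul φ _ _
    rw [LinearMap.comp_apply, LinearMap.comp_apply, e, vecI_ften, vecI_ften, map_smul]
  exact LinearMap.congr_fun h f

theorem vecI_comp (I : SF X ℂ →ₗ[ℂ] ℂ) (J : SF Y ℂ →ₗ[ℂ] ℂ) (a : Y ≃ₜ X)
    (h : ∀ f, J (SF.comp a f) = I f) (f : SF X B) : vecI J (SF.comp a f) = vecI I f := by
  have h : (vecI J) ∘ₗ (SF.comp a) = (vecI I : SF X B →ₗ[ℂ] B) := by
    apply ften_ext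
    intro f b
    have e : SF.comp a (ften f b) = ften (SF.comp a f) b := rfl
    rw [LinearMap.comp_apply, e, vecI_ften, vecI_ften, h]
  exact LinearMap.congr_fun h f

theorem vecI_scalar (I : SF X ℂ →ₗ[ℂ] ℂ) (f : SF X ℂ) : vecI I f = I f := by
  have h : (vecI I : SF X ℂ →ₗ[ℂ] ℂ) = I := by
    apply ften_ext
    intro f b
    have e : ften f b = b • f := by
      apply SF.ext
      intro x
      exact mul_comm _ _
    rw [vecI_ften, e, map_smul, smul_eq_mul, smul_eq_mul, mul_comm]
  exact LinearMap.congr_fun h f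

end

end Pool.Agent.Work.MP_dd0ddf_al.C2
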