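import Pool.Agent.Work.MP_dd0ddf_al.C2.HaarG
import Pool.Agent.Work.MP_dd0ddf_al.C2.TenMap
import Pool.Agent.Work.MP_dd0ddf_al.C2.GkDefs

/-!
# MP_dd0ddf_al, module GkOps: the operators π(f) = ∫ f(g) π(g) dg and the averages avg f ξ

`sf_unif`: f locally constant with compact support on a topological group is uniformly locally constant (compactness, tube lemma).
`actF f w (g) = f(g) π(g) w`, locally constant because π is smooth: π(g) w is constant on g U.
`hOp_left`: `∫ f(ag) π(g) w dg = π(a⁻¹) ∫ f(g) π(g) w dg`: vecI_comp for mulLeft a (haarG_left), vecI_map for π a⁻¹: `actF (f ∘ mulLeft a) w = SF.map (π a⁻¹) (SF.comp (mulLeft a) (actF f w))`.  `hOp_right` similarly (haarG_right).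
`avg f ξ = ξ ∘ π(f^∨)`, f^∨(g) = f(g⁻¹), i.e. `avg f ξ (w) = ∫ f(g) ξ(π(g⁻¹) w) dg`; smooth by hOp_right and sf_unif for f^∨.
`avg_left`: `(f(a⁻¹ ·))^∨ = f^∨(· a)`.  `avg_right`: `(f(· a))^∨ = f^∨(a⁻¹ ·)`.
-/

set_option linter.unusedSectionVars false
set_option linter.style.haveILetI false

namespace Pool.Agent.Work.MP_dd0ddf_al.C2

noncomputable section

universe u

theorem sf_unif {G B : Type*} [Group G] [TopologicalSpace G] [IsTopologicalGroup G]
    [AddCommGroup B] [Module ℂ B] (f : SF G B) : ∃ U : Set G, IsOpen U ∧ (1 : G) ∈ U ∧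
      ∀ u ∈ U, ∀ g, f (u * g) = f g ∧ f (g * u) = f g := by
  have hK : IsCompact (tsupport f.1) := f.2.2
  have key : ∀ m : G × G → G, Continuous m → (∀ g, m (1, g) = g) →
      ∃ U : Set G, IsOpen U ∧ (1 : G) ∈ U ∧ ∀ u ∈ U, ∀ g ∈ tsupport f.1, f (m (u, g)) = f g := by
    intro m hm h1
    have hl : IsLocallyConstant (fun q : G × G => f (m q)) := f.2.1.comp_continuous hm
    have hl' : IsLocallyConstant (fun q : G × G => f q.2) := f.2.1.comp_continuous continuous_snd
    have ho : IsOpen {q : G × G | f (m q) = f q.2} := by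
      rw [isOpen_iff_mem_nhds]
      intro q hq
      have e1 := (IsLocallyConstant.iff_eventually_eq _).1 hl q
      have e2 := (IsLocallyConstant.iff_eventually_eq _).1 hl' q
      filter_upwards [e1, e2] with r h1 h2
      show f (m r) = f r.2
      rw [h1, h2]
      exact hq
    obtain ⟨u, v, hu, -, h1u, hKv, huv⟩ := generalized_tube_lemma (isCompact_singleton (x := (1 : G)))
      hK ho (by
        rintro ⟨a, b⟩ ⟨ha, hb⟩
        have ha' : a = 1 := ha
        subst ha'
        show f (m (1, b)) = f b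
        rw [h1])
    exact ⟨u, hu, h1u rfl, fun a ha g hg => huv (Set.mk_mem_prod ha (hKv hg))⟩
  obtain ⟨U1, hU1, h11, hl⟩ := key (fun q => q.1 * q.2) continuous_mul (fun g => one_mul g)
  obtain ⟨U2, hU2, h12, hr⟩ := key (fun q => q.2 * q.1)
    (continuous_snd.mul continuous_fst) (fun g => mul_one g)
  have h0 : ∀ g, g ∉ tsupport f.1 → f g = 0 := fun g hg => image_eq_zero_of_notMem_tsupport hg
  refine ⟨(U1 ∩ U1⁻¹) ∩ (U2 ∩ U2⁻¹), (hU1.inter hU1.inv).inter (hU2.inter hU2.inv),
    ⟨⟨h11, by simpa using h11⟩, ⟨h12, by simpa using h12⟩⟩, fun u hu g => ⟨?_, ?_⟩⟩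
  · by_cases hg : g ∈ tsupport f.1
    · exact hl u hu.1.1 g hg
    · rw [h0 g hg]
      by_cases hg' : u * g ∈ tsupport f.1
      · have h2 := hl u⁻¹ hu.1.2 (u * g) hg'
        rw [inv_mul_cancel_left, h0 g hg] at h2
        exact h2.symm
      · exact h0 _ hg'
  · by_cases hg : g ∈ tsupport f.1
    · exact hr u hu.2.1 g hg
    · rw [h0 g hg]
      by_cases hg' : g * u ∈ tsupport f.1
      · have h2 := hr u⁻¹ hu.2.2 (g * u) hg'
        rw [mul_inv_cancel_right, h0 g hg] at h2
        exact h2.symm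
      · exact h0 _ hg'

variable {E : Type u} [NontriviallyNormedField E] [ProperSpace E]
variable {V : Type u} [AddCommGroup V] [Module E V] [Module.Finite E V] [TopologicalSpace V]
  [IsTopologicalAddGroup V] [T2Space V] [ContinuousSMul E V]
variable {P : Type*} [AddCommGroup P] [Module ℂ P]

private theorem gkops_lc (π : GV E V →* Module.End ℂ P) (hπ : SmRep π) (f : SF (GV E V) ℂ)
    (w : P) : (fun g => f g • π g w) ∈ SF (GV E V) P := by
  refine ⟨?_, ?_⟩
  · rw [IsLocallyConstant.iff_eventually_eq]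
    intro g0
    obtain ⟨U, hU, h1, h⟩ := hπ w
    have e1 := (IsLocallyConstant.iff_eventually_eq _).1 f.2.1 g0
    have e2 : ∀ᶠ g in nhds g0, g0⁻¹ * g ∈ U := by
      have hc : Continuous fun g : GV E V => g0⁻¹ * g := continuous_const.mul continuous_id
      exact (hU.preimage hc).mem_nhds (by
        show g0⁻¹ * g0 ∈ U
        rw [inv_mul_cancel]
        exact h1)
    filter_upwards [e1, e2] with g hg1 hg2
    have e3 : π g w = π g0 w := by
      have e4 : π g w = π g0 (π (g0⁻¹ * g) w) := by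
        rw [← Module.End.mul_apply, ← map_mul, mul_inv_cancel_left]
      rw [e4, h _ hg2]
    rw [e3]
    congr 1
  · refine HasCompactSupport.of_support_subset_isCompact (K := tsupport f.1) f.2.2 ?_
    intro x hx
    apply subset_tsupport
    rw [Function.mem_support] at hx ⊢
    intro h0
    apply hx
    show f.1 x • π x w = 0
    rw [h0, zero_smul]

/-- the function `g ↦ f(g) π(g) w` -/
def actF (π : GV E V →* Module.End ℂ P) (hπ : SmRep π) (f : SF (GV E V) ℂ) (w : P) :
    SF (GV E V) P := ⟨fun g => f g • π g w, gkops_lc π hπ f w⟩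

private theorem actF_apply (π : GV E V →* Module.End ℂ P) (hπ : SmRep π) (f : SF (GV E V) ℂ)
    (w : P) (g : GV E V) : actF π hπ f w g = f g • π g w := rfl

private theorem actF_add (π : GV E V →* Module.End ℂ P) (hπ : SmRep π) (f : SF (GV E V) ℂ)
    (w w' : P) : actF π hπ f (w + w') = actF π hπ f w + actF π hπ f w' := by
  apply SF.ext
  intro g
  show f g • π g (w + w') = f g • π g w + f g • π g w'
  rw [map_add, smul_add]

private theorem actF_smul (π : GV E V →* Module.End ℂ P) (hπ : SmRep π) (f : SF (GV E V) ℂ)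
    (c : ℂ) (w : P) : actF π hπ f (c • w) = c • actF π hπ f w := by
  apply SF.ext
  intro g
  show f g • π g (c • w) = c • f g • π g w
  rw [map_smul, smul_comm]

private theorem actF_add' (π : GV E V →* Module.End ℂ P) (hπ : SmRep π) (f f' : SF (GV E V) ℂ)
    (w : P) : actF π hπ (f + f') w = actF π hπ f w + actF π hπ f' w := by
  apply SF.ext
  intro g
  show (f g + f' g) • π g w = f g • π g w + f' g • π g w
  rw [add_smul]

private theorem actF_smul' (π : GV E V →* Module.End ℂ P) (hπ : SmRep π) (f : SF (GV E V) ℂ)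
    (c : ℂ) (w : P) : actF π hπ (c • f) w = c • actF π hπ f w := by
  apply SF.ext
  intro g
  show (c • f g) • π g w = c • f g • π g w
  rw [smul_assoc]

/-- the operator `π(f) = ∫ f(g) π(g) dg` -/
def hOp (π : GV E V →* Module.End ℂ P) (hπ : SmRep π) :
    SF (GV E V) ℂ →ₗ[ℂ] Module.End ℂ P where
  toFun f :=
    { toFun := fun w => vecI (haarG E V) (actF π hπ f w)
      map_add' := fun w w' => by rw [actF_add, map_add]
      map_smul' := fun c w => by rw [actF_smul, map_smul, RingHom.id_apply] }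
  map_add' := fun f f' => by
    apply LinearMap.ext
    intro w
    show vecI (haarG E V) (actF π hπ (f + f') w) =
      vecI (haarG E V) (actF π hπ f w) + vecI (haarG E V) (actF π hπ f' w)
    rw [actF_add', map_add]
  map_smul' := fun c f => by
    apply LinearMap.ext
    intro w
    show vecI (haarG E V) (actF π hπ (c • f) w) = c • vecI (haarG E V) (actF π hπ f w)
    rw [actF_smul', map_smul]

theorem hOp_apply (π : GV E V →* Module.End ℂ P) (hπ : SmRep π) (f : SF (GV E V) ℂ) (w : P) :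
    hOp π hπ f w = vecI (haarG E V) (actF π hπ f w) := rfl

theorem hOp_dual (π : GV E V →* Module.End ℂ P) (hπ : SmRep π) (f : SF (GV E V) ℂ) (w : P)
    (ξ : Module.Dual ℂ P) : ξ (hOp π hπ f w) = haarG E V (SF.map ξ (actF π hπ f w)) := by
  rw [hOp_apply, ← vecI_map, vecI_scalar]

theorem hOp_left (π : GV E V →* Module.End ℂ P) (hπ : SmRep π) (a : GV E V)
    (f : SF (GV E V) ℂ) :
    hOp π hπ (SF.comp (Homeomorph.mulLeft a) f) = π a⁻¹ * hOp π hπ f := by
  apply LinearMap.ext
  intro w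
  have e : actF π hπ (SF.comp (Homeomorph.mulLeft a) f) w =
      SF.map (π a⁻¹) (SF.comp (Homeomorph.mulLeft a) (actF π hπ f w)) := by
    apply SF.ext
    intro g
    show f (a * g) • π g w = π a⁻¹ (f (a * g) • π (a * g) w)
    rw [map_smul, ← Module.End.mul_apply, ← map_mul, inv_mul_cancel_left]
  show vecI (haarG E V) (actF π hπ (SF.comp (Homeomorph.mulLeft a) f) w) =
    π a⁻¹ (vecI (haarG E V) (actF π hπ f w))
  rw [e, vecI_map, vecI_comp _ _ _ (haarG_left a)]

theorem hOp_right (π : GV E V →* Module.End ℂ P) (hπ : SmRep π) (a : GV E V)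
    (f : SF (GV E V) ℂ) :
    hOp π hπ (SF.comp (Homeomorph.mulRight a) f) = hOp π hπ f * π a⁻¹ := by
  apply LinearMap.ext
  intro w
  have e : actF π hπ (SF.comp (Homeomorph.mulRight a) f) w =
      SF.comp (Homeomorph.mulRight a) (actF π hπ f (π a⁻¹ w)) := by
    apply SF.ext
    intro g
    show f (g * a) • π g w = f (g * a) • π (g * a) (π a⁻¹ w)
    rw [← Module.End.mul_apply, ← map_mul, mul_inv_cancel_right]
  show vecI (haarG E V) (actF π hπ (SF.comp (Homeomorph.mulRight a) f) w) =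
    vecI (haarG E V) (actF π hπ f (π a⁻¹ w))
  rw [e, vecI_comp _ _ _ (haarG_right a)]

private theorem gkops_mem (π : GV E V →* Module.End ℂ P) (hπ : SmRep π) (f : SF (GV E V) ℂ)
    (ξ : Module.Dual ℂ P) : ξ ∘ₗ hOp π hπ f ∈ sdual π := by
  obtain ⟨U, hU, h1, h⟩ := sf_unif f
  refine ⟨U⁻¹, hU.inv, by simpa using h1, fun g hg w => ?_⟩
  have e1 : SF.comp (Homeomorph.mulRight g⁻¹) f = f := by
    apply SF.ext
    intro x
    exact (h g⁻¹ hg x).2
  have e2 := hOp_right π hπ g⁻¹ f
  rw [e1, inv_inv] at e2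
  show ξ (hOp π hπ f (π g w)) = ξ (hOp π hπ f w)
  conv_rhs => rw [e2]
  rfl

/-- `avg f ξ (w) = ∫ f(g) ξ(π(g⁻¹) w) dg` -/
def avg (π : GV E V →* Module.End ℂ P) (hπ : SmRep π) :
    SF (GV E V) ℂ →ₗ[ℂ] Module.Dual ℂ P →ₗ[ℂ] sdual π where
  toFun f :=
    { toFun := fun ξ => ⟨ξ ∘ₗ hOp π hπ (SF.comp (Homeomorph.inv (GV E V)) f),
        gkops_mem π hπ _ ξ⟩
      map_add' := fun _ _ => rfl
      map_smul' := fun _ _ => rfl }
  map_add' := fun f f' => by
    apply LinearMap.ext
    intro ξ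
    apply Subtype.ext
    apply LinearMap.ext
    intro w
    show ξ (hOp π hπ (SF.comp (Homeomorph.inv (GV E V)) (f + f')) w) =
      ξ (hOp π hπ (SF.comp (Homeomorph.inv (GV E V)) f) w) +
        ξ (hOp π hπ (SF.comp (Homeomorph.inv (GV E V)) f') w)
    rw [map_add, map_add, LinearMap.add_apply, map_add]
  map_smul' := fun c f => by
    apply LinearMap.ext
    intro ξ
    apply Subtype.ext
    apply LinearMap.ext
    intro w
    show ξ (hOp π hπ (SF.comp (Homeomorph.inv (GV E V)) (c • f)) w) =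
      c • ξ (hOp π hπ (SF.comp (Homeomorph.inv (GV E V)) f) w)
    rw [map_smul, map_smul, LinearMap.smul_apply, map_smul]

theorem avg_apply (π : GV E V →* Module.End ℂ P) (hπ : SmRep π) (f : SF (GV E V) ℂ)
    (ξ : Module.Dual ℂ P) (w : P) :
    (avg π hπ f ξ).1 w = ξ (hOp π hπ (SF.comp (Homeomorph.inv (GV E V)) f) w) := rfl

theorem avg_left (π : GV E V →* Module.End ℂ P) (hπ : SmRep π) (a : GV E V)
    (f : SF (GV E V) ℂ) (ξ : Module.Dual ℂ P) :
    avg π hπ (SF.comp (Homeomorph.mulLeft a⁻¹) f) ξ = sdAct π a (avg π hπ f ξ) := by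
  apply Subtype.ext
  apply LinearMap.ext
  intro w
  rw [sdAct_apply, avg_apply, avg_apply]
  have e : SF.comp (Homeomorph.inv (GV E V)) (SF.comp (Homeomorph.mulLeft a⁻¹) f) =
      SF.comp (Homeomorph.mulRight a) (SF.comp (Homeomorph.inv (GV E V)) f) := by
    apply SF.ext
    intro g
    show f (a⁻¹ * g⁻¹) = f (g * a)⁻¹
    rw [mul_inv_rev]
  rw [e, hOp_right]
  rfl

theorem avg_right (π : GV E V →* Module.End ℂ P) (hπ : SmRep π) (a : GV E V)
    (f : SF (GV E V) ℂ) (ξ : Module.Dual ℂ P) :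
    avg π hπ (SF.comp (Homeomorph.mulRight a) f) ξ = avg π hπ f (ξ ∘ₗ π a) := by
  apply Subtype.ext
  apply LinearMap.ext
  intro w
  rw [avg_apply, avg_apply]
  have e : SF.comp (Homeomorph.inv (GV E V)) (SF.comp (Homeomorph.mulRight a) f) =
      SF.comp (Homeomorph.mulLeft a⁻¹) (SF.comp (Homeomorph.inv (GV E V)) f) := by
    apply SF.ext
    intro g
    show f (g⁻¹ * a) = f (a⁻¹ * g)⁻¹
    rw [mul_inv_rev, inv_inv]
  rw [e, hOp_left, inv_inv]
  rfl

end

end Pool.Agent.Work.MP_dd0ddf_al.C2
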