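import Pool.Agent.Work.MP_dd0ddf_al.C2.SvnW
import Pool.Agent.Work.MP_dd0ddf_al.C2.GkOps
import Pool.Agent.Work.MP_dd0ddf_al.C2.GroupMain

/-!
# MP_dd0ddf_al, module CritT: the functional attached to (l, l') and the basic relation

`exists_critT`: cf_lift with M = (SF (GV E V) ℂ →ₗ ℂ) applied to `β s lam f = (l' (avg f (lam ∘ l))) s`, flip, exists_tenMap.
`critT_inv`: both sides are linear in G: ften_ext, and linear in the value: cf_ext.  `W.act h₁ h₂ (ften f (cf s lam)) = ften f' (cf (ω h₁ s) (od h₂ lam))`, `f'(g) = f(h₁⁻¹ g h₂)`, i.e. `f' = SF.comp (mulLeft h₁⁻¹) (SF.comp (mulRight h₂) f)`; avg_left, avg_right: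
`avg f' ((od h₂ lam) ∘ l) = sdAct h₁ (avg f ((od h₂ lam) ∘ l ∘ π h₂))` and `(od h₂ lam)(l (π h₂ w)) = lam(ω(h₂⁻¹) ω(h₂) l w) = lam(l w)`; `l' (sdAct h₁ ξ) = od h₁ (l' ξ)`, `(od h₁ η)(ω h₁ s) = η s`.
`crit_star`: weil_of_omega gives W; group_level for T and G = ften f (cf s lam): `Theta F τ G = ften (f ∘ θ) (tneg F τ (cf s lam)) = κ • ften (f ∘ θ) (cf (j lam) (j⁻¹ s))`.
-/

set_option linter.unusedSectionVars false
set_option linter.style.haveILetI false

namespace Pool.Agent.Work.MP_dd0ddf_al.C2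

noncomputable section

universe u

variable {F E : Type u} [NontriviallyNormedField F] [IsUltrametricDist F] [ProperSpace F]
  [CharP F 2] [NontriviallyNormedField E] [NormedAlgebra F E] [ProperSpace E] [StarRing E]
  [QExt F E] [Dl E] [MeasurableSpace E] [BorelSpace E]
variable {V : Type u} [AddCommGroup V] [Module E V] [Module.Finite E V] [TopologicalSpace V]
  [IsTopologicalAddGroup V] [T2Space V] [ContinuousSMul E V]
variable {S : Type*} [AddCommGroup S] [Module ℂ S] {P : Type*} [AddCommGroup P] [Module ℂ P]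

/-- `lam ↦ lam ∘ l` -/
def dlam {B : SkewH E V} {p : PChar F} (H : Heis B p S) (l : P →ₗ[ℂ] S) :
    H.sd →ₗ[ℂ] Module.Dual ℂ P := l.dualMap ∘ₗ H.sd.subtype

theorem dlam_apply {B : SkewH E V} {p : PChar F} (H : Heis B p S) (l : P →ₗ[ℂ] S) (lam : H.sd)
    (w : P) : dlam H l lam w = lam.1 (l w) := rfl

theorem exists_critT {B : SkewH E V} {p : PChar F} (H : Heis B p S)
    (π : GV E V →* Module.End ℂ P) (hπ : SmRep π) (l : P →ₗ[ℂ] S) (l' : sdual π →ₗ[ℂ] H.sd) :
    ∃ T : SF (GV E V) (SF V ℂ) →ₗ[ℂ] ℂ, ∀ (f : SF (GV E V) ℂ) (s : S) (lam : H.sd),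
      T (ften f (cf H s lam)) = (l' (avg π hπ f (dlam H l lam))).1 s := by
  obtain ⟨T0, hT0⟩ := cf_lift H (LinearMap.mk₂ ℂ
    (fun (s : S) (lam : H.sd) =>
      ({ toFun := fun f => (l' (avg π hπ f (dlam H l lam))).1 s
         map_add' := fun f g => by
          rw [map_add, LinearMap.add_apply, map_add]
          rfl
         map_smul' := fun c f => by
          rw [map_smul, LinearMap.smul_apply, map_smul]
          rfl } : SF (GV E V) ℂ →ₗ[ℂ] ℂ))
    (fun s s' lam => by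
      apply LinearMap.ext
      intro f
      show (l' (avg π hπ f (dlam H l lam))).1 (s + s') = _
      rw [map_add]
      rfl)
    (fun c s lam => by
      apply LinearMap.ext
      intro f
      show (l' (avg π hπ f (dlam H l lam))).1 (c • s) = _
      rw [map_smul]
      rfl)
    (fun s lam lam' => by
      apply LinearMap.ext
      intro f
      show (l' (avg π hπ f (dlam H l (lam + lam')))).1 s = _
      rw [map_add, map_add, map_add]
      rfl)
    (fun c s lam => by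
      apply LinearMap.ext
      intro f
      show (l' (avg π hπ f (dlam H l (c • lam)))).1 s = _
      rw [map_smul, map_smul, map_smul]
      rfl))
  obtain ⟨T, hT⟩ := exists_tenMap T0.flip
  refine ⟨T, fun f s lam => ?_⟩
  rw [hT, LinearMap.flip_apply, hT0]
  rfl

private theorem critt_ften_add {X B : Type*} [TopologicalSpace X] [AddCommGroup B] [Module ℂ B]
    (f : SF X ℂ) (b b' : B) : ften f (b + b') = ften f b + ften f b' := by
  apply SF.ext
  intro x
  exact smul_add (f x) b b'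

private theorem critt_ften_smul {X B : Type*} [TopologicalSpace X] [AddCommGroup B] [Module ℂ B]
    (f : SF X ℂ) (c : ℂ) (b : B) : ften f (c • b) = c • ften f b := by
  apply SF.ext
  intro x
  exact smul_comm (f x) c b

/-- functionals on `SF (GV E V) (SF V ℂ)` are determined by their values on
`ften f (cf H s lam)` -/
private theorem critt_ext {B : SkewH E V} {p : PChar F} (H : Heis B p S)
    (T T' : SF (GV E V) (SF V ℂ) →ₗ[ℂ] ℂ)
    (h : ∀ f s lam, T (ften f (cf H s lam)) = T' (ften f (cf H s lam))) : T = T' := by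
  apply ften_ext
  intro f b
  let A : SF V ℂ →ₗ[ℂ] SF (GV E V) (SF V ℂ) :=
    { toFun := fun b => ften f b
      map_add' := critt_ften_add f
      map_smul' := critt_ften_smul f }
  have h1 : T ∘ₗ A = T' ∘ₗ A := cf_ext H _ _ (fun s lam => h f s lam)
  exact congrArg (fun L : SF V ℂ →ₗ[ℂ] ℂ => L b) h1

theorem critT_inv {B : SkewH E V} {p : PChar F} (H : Heis B p S) (O : OmRep H)
    (W : WeilRep B p)
    (hWl : ∀ (h : UU B) (s : S) (lam : H.sd), W.l h (cf H s lam) = cf H (O.ω h s) lam)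
    (hWr : ∀ (h : UU B) (s : S) (lam : H.sd), W.r h (cf H s lam) = cf H s (O.od h lam))
    (π : GV E V →* Module.End ℂ P) (hπ : SmRep π) (l : P →ₗ[ℂ] S) (hl : l ∈ HomU π O.ω)
    (l' : sdual π →ₗ[ℂ] H.sd) (hl' : ∀ (h : UU B) (ξ : sdual π),
      l' (sdAct π h.1 ξ) = O.od h (l' ξ))
    (T : SF (GV E V) (SF V ℂ) →ₗ[ℂ] ℂ) (hT : ∀ (f : SF (GV E V) ℂ) (s : S) (lam : H.sd),
      T (ften f (cf H s lam)) = (l' (avg π hπ f (dlam H l lam))).1 s)
    (h₁ h₂ : UU B) (G : SF (GV E V) (SF V ℂ)) : T (W.act h₁ h₂ G) = T G := by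
  have h1 : T ∘ₗ W.act h₁ h₂ = T := by
    apply critt_ext H
    intro f s lam
    have e1 : W.act h₁ h₂ (ften f (cf H s lam)) =
        ften (SF.comp (Homeomorph.mulLeft h₁.1⁻¹) (SF.comp (Homeomorph.mulRight h₂.1) f))
          (cf H (O.ω h₁ s) (O.od h₂ lam)) := by
      apply SF.ext
      intro g
      show W.l h₁ (W.r h₂ (f (h₁.1⁻¹ * g * h₂.1) • cf H s lam)) =
        f (h₁.1⁻¹ * g * h₂.1) • cf H (O.ω h₁ s) (O.od h₂ lam)
      rw [map_smul, map_smul, hWr, hWl]
    have e2 : dlam H l (O.od h₂ lam) ∘ₗ π h₂.1 = dlam H l lam := by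
      apply LinearMap.ext
      intro w
      show lam.1 (O.ω h₂⁻¹ (l (π h₂.1 w))) = lam.1 (l w)
      rw [hl h₂ w, ← Module.End.mul_apply, ← map_mul, inv_mul_cancel, map_one]
      rfl
    show T (W.act h₁ h₂ (ften f (cf H s lam))) = T (ften f (cf H s lam))
    rw [e1, hT, hT, avg_left, avg_right, e2, hl']
    show (l' (avg π hπ f (dlam H l lam))).1 (O.ω h₁⁻¹ (O.ω h₁ s)) = _
    rw [← Module.End.mul_apply, ← map_mul, inv_mul_cancel, map_one]
    rfl
  exact congrArg (fun L : SF (GV E V) (SF V ℂ) →ₗ[ℂ] ℂ => L G) h1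

theorem crit_star {B : SkewH E V} {p : PChar F} (H : Heis B p S) (O : OmRep H)
    (hn : 3 ≤ Module.finrank E V) (τ : AntiU B) (j : H.sd ≃ₗ[ℂ] S) (κ : ℂ)
    (hj : ∀ (s : S) (lam : H.sd), tneg F τ (cf H s lam) = κ • cf H (j lam) (j.symm s))
    (π : GV E V →* Module.End ℂ P) (hπ : SmRep π) (l : P →ₗ[ℂ] S) (hl : l ∈ HomU π O.ω)
    (l' : sdual π →ₗ[ℂ] H.sd) (hl' : ∀ (h : UU B) (ξ : sdual π),
      l' (sdAct π h.1 ξ) = O.od h (l' ξ))
    (f : SF (GV E V) ℂ) (s : S) (lam : H.sd) :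
    κ * (l' (avg π hπ (SF.comp (thHomeo F τ) f) (dlam H l (j.symm s)))).1 (j lam) =
      (l' (avg π hπ f (dlam H l lam))).1 s := by
  obtain ⟨W, hWl, hWr⟩ := weil_of_omega H O hn
  obtain ⟨T, hT⟩ := exists_critT H π hπ l l'
  have hinv := critT_inv H O W hWl hWr π hπ l hl l' hl' T hT
  have h1 := group_level W τ T hinv (ften f (cf H s lam))
  have h2 : Theta F τ (ften f (cf H s lam)) =
      κ • ften (SF.comp (thHomeo F τ) f) (cf H (j lam) (j.symm s)) := by
    rw [← critt_ften_smul, ← hj]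
    rfl
  rw [h2, map_smul, hT, hT, smul_eq_mul] at h1
  exact h1

end

end Pool.Agent.Work.MP_dd0ddf_al.C2
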