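import Pool.Agent.Work.MP_dd0ddf_al.C2.FourEx
import Pool.Agent.Work.MP_dd0ddf_al.C2.FourSpan

/-!
# MP_dd0ddf_al, module FourInv: Fourier inversion and covariance

`four1_trans`, `four1_mod`: change of variable.  `four1_map`: `hI_map`.  `four1_aut`: `hI_comp_aut`.
Inversion: it is enough (sf_induction) to take `f = single (a + L) b`: `four1 f (w) = hvol(L) χ(a,w) b` for `w ∈ L^⊥`, 0 otherwise, and
`four1 χ.dual` of it at `v` is `hvol(L) hvol(L^⊥) b` if `v - a ∈ L^⊥⊥ = L` (`perp_perp`), 0 otherwise.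
`hvol(L) hvol(L^⊥)` does not depend on `L`: for `L' ⊆ L`: apply the formula to `single L b = ∑ single (a_i + L') b`
(value at a point: `hvol(L) hvol(L^⊥) b = hvol(L') hvol(L'^⊥) b`).
-/

set_option linter.unusedSectionVars false
set_option linter.style.haveILetI false

namespace Pool.Agent.Work.MP_dd0ddf_al.C2

noncomputable section

variable {U : Type*} [AddCommGroup U] [TopologicalSpace U] [IsTopologicalAddGroup U]
  [LocallyCompactSpace U] [T2Space U] [TotallyDisconnectedSpace U]
  {X : Type*} [TopologicalSpace X] [T2Space X] [LocallyCompactSpace X]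
  [TotallyDisconnectedSpace X]
  {B B' : Type*} [AddCommGroup B] [Module ℂ B] [AddCommGroup B'] [Module ℂ B']

theorem four1_map (χ : BiChar U) (φ : B →ₗ[ℂ] B') (f : SF U B) :
    four1 χ (SF.map φ f) = SF.map φ (four1 χ f) := by
  apply SF.ext
  intro w
  rw [SF.map_apply, four1_apply, four1_apply]
  unfold fourFun
  rw [← hI_map]
  congr 1
  apply SF.ext
  intro v
  show χ.χ v w • φ (f v) = φ (χ.χ v w • f v)
  rw [map_smul]

private theorem fourinv_neg (χ : BiChar U) (a w : U) : χ.χ (-a) w * χ.χ a w = 1 := by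
  rw [← χ.addl, neg_add_cancel]
  have h := χ.addl 0 0 w
  rw [add_zero] at h
  have hn : χ.χ 0 w ≠ 0 := by
    intro h0
    have := χ.norm 0 w
    rw [h0, norm_zero] at this
    exact zero_ne_one this
  exact (mul_right_cancel₀ hn (by rw [one_mul]; exact h)).symm

theorem four1_trans (χ : BiChar U) (a : U) (f : SF U B) (w : U) :
    four1 χ (SF.comp (Homeomorph.addRight a) f) w = χ.χ (-a) w • four1 χ f w := by
  rw [four1_apply, four1_apply]
  unfold fourFun
  rw [← map_smul, ← hI_trans a (χ.χ (-a) w • SF.mulc (fun v => χ.χ v w) (χ.lcl w) f)]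
  congr 1
  apply SF.ext
  intro v
  show χ.χ v w • f (v + a) = χ.χ (-a) w • (χ.χ (v + a) w • f (v + a))
  rw [smul_smul, χ.addl v a w]
  have h := fourinv_neg χ a w
  have e : χ.χ (-a) w * (χ.χ v w * χ.χ a w) = χ.χ v w := by
    calc χ.χ (-a) w * (χ.χ v w * χ.χ a w) = χ.χ v w * (χ.χ (-a) w * χ.χ a w) := by ring
      _ = χ.χ v w := by rw [h, mul_one]
  rw [e]

theorem four1_mod (χ : BiChar U) (b : U) (f : SF U B) (w : U) :
    four1 χ (SF.mulc (fun v => χ.χ v b) (χ.lcl b) f) w = four1 χ f (w + b) := by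
  rw [four1_apply, four1_apply]
  unfold fourFun
  congr 1
  apply SF.ext
  intro v
  show χ.χ v w • (χ.χ v b • f v) = χ.χ v (w + b) • f v
  rw [smul_smul, χ.addr]

theorem four1_aut (χ : BiChar U) (α : TAut U) (α' : U → U)
    (h : ∀ v w, χ.χ (α.h v) w = χ.χ v (α' w)) (f : SF U B) (w : U) :
    four1 χ (SF.comp α.h f) (α' w) = (hmod α : ℂ) • four1 χ f w := by
  rw [four1_apply, four1_apply]
  unfold fourFun
  rw [← hI_comp_aut]
  congr 1
  apply SF.ext
  intro v
  show χ.χ v (α' w) • f (α.h v) = χ.χ (α.h v) w • f (α.h v)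
  rw [h]

/-! ### decomposition into cosets -/

private theorem fourinv_small (K : Set U) (hK : IsCompact K) (hK' : IsOpen K) :
    ∃ V : AddSubgroup U, IsOpen (V : Set U) ∧ IsCompact (V : Set U) ∧
      ∀ x ∈ K, ∀ v ∈ V, x + v ∈ K := by
  have hev : ∀ᶠ g in nhds (0 : U), ∀ k ∈ K, k + g ∈ K := by
    refine hK.eventually_forall_of_forall_eventually ?_
    intro y hy
    have c1 : Continuous fun z : U × U => z.2 + z.1 := continuous_snd.add continuous_fst
    refine c1.continuousAt.eventually (hK'.mem_nhds ?_)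
    simpa using hy
  obtain ⟨N, hN, hNo, hN0⟩ := eventually_nhds_iff.1 hev
  obtain ⟨V, h1, h2, h3⟩ := exists_co_addSubgroup N hNo hN0
  exact ⟨V, h1, h2, fun x hx v hv => hN v (h3 hv) x hx⟩

private theorem fourinv_decomp (K : Set U) (hK : IsCompact K) (hK' : IsOpen K)
    (V : AddSubgroup U) (hV : IsOpen (V : Set U)) (hVc : IsCompact (V : Set U))
    (h : ∀ x ∈ K, ∀ v ∈ V, x + v ∈ K) (b : B) :
    ∃ s : Finset (U ⧸ V), SF.single K hK hK' b =
      ∑ q ∈ s, SF.comp (Homeomorph.addRight (-(q.out : U)))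
        (SF.single (V : Set U) hVc hV b) := by
  classical
  haveI : DiscreteTopology (U ⧸ V) := QuotientAddGroup.discreteTopology hV
  have hf : ((fun x : U => (x : U ⧸ V)) '' K).Finite :=
    (hK.image continuous_quotient_mk').finite_of_discrete
  have hs : ∀ x : U, x ∈ K ↔ (x : U ⧸ V) ∈ hf.toFinset := by
    intro x
    rw [Set.Finite.mem_toFinset]
    constructor
    · intro hx
      exact ⟨x, hx, rfl⟩
    · rintro ⟨y, hy, hxy⟩
      have h1 : -y + x ∈ V := QuotientAddGroup.eq.1 hxy
      have h2 := h y hy _ h1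
      rwa [add_neg_cancel_left] at h2
  refine ⟨hf.toFinset, ?_⟩
  apply SF.ext
  intro x
  have hev : (∑ q ∈ hf.toFinset, SF.comp (Homeomorph.addRight (-(q.out : U)))
      (SF.single (V : Set U) hVc hV b)).1 x =
      ∑ q ∈ hf.toFinset, (if q = (x : U ⧸ V) then b else 0) := by
    rw [Submodule.coe_sum, Finset.sum_apply]
    refine Finset.sum_congr rfl fun q _ => ?_
    show SF.single (V : Set U) hVc hV b (x + -(q.out : U)) = _
    have hiff : x + -(q.out : U) ∈ (V : Set U) ↔ q = (x : U ⧸ V) := by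
      rw [add_comm, SetLike.mem_coe, ← QuotientAddGroup.eq, QuotientAddGroup.out_eq']
    by_cases hq : q = (x : U ⧸ V)
    · rw [if_pos hq]
      exact SF.single_apply_mem _ _ _ _ _ (hiff.2 hq)
    · rw [if_neg hq]
      exact SF.single_apply_not_mem _ _ _ _ _ (fun h => hq (hiff.1 h))
  rw [hev]
  by_cases hx : x ∈ K
  · rw [Finset.sum_ite_eq' _ (x : U ⧸ V), if_pos ((hs x).1 hx)]
    exact SF.single_apply_mem _ _ _ _ _ hx
  · rw [Finset.sum_ite_eq' _ (x : U ⧸ V), if_neg (fun h => hx ((hs x).2 h))]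
    exact SF.single_apply_not_mem _ _ _ _ _ hx

/-! ### the transform of the indicator function of a subgroup -/

private def fourinv_perp (χ : BiChar U) (L : AddSubgroup U) : AddSubgroup U where
  carrier := {w | ∀ x ∈ L, χ.χ x w = 1}
  zero_mem' := by
    intro x _
    have h := χ.addr x 0 0
    rw [add_zero] at h
    have hn : χ.χ x 0 ≠ 0 := by
      intro h0
      have := χ.norm x 0
      rw [h0, norm_zero] at this
      exact zero_ne_one this
    exact (mul_right_cancel₀ hn (by rw [one_mul]; exact h)).symm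
  add_mem' := by
    intro a b ha hb x hx
    rw [χ.addr, ha x hx, hb x hx, one_mul]
  neg_mem' := by
    intro a ha x hx
    have h0 : χ.χ x 0 = 1 := by
      have h := χ.addr x 0 0
      rw [add_zero] at h
      have hn : χ.χ x 0 ≠ 0 := by
        intro h0
        have := χ.norm x 0
        rw [h0, norm_zero] at this
        exact zero_ne_one this
      exact (mul_right_cancel₀ hn (by rw [one_mul]; exact h)).symm
    have h1 := χ.addr x a (-a)
    rw [add_neg_cancel, h0, ha x hx, one_mul] at h1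
    exact h1.symm

private theorem fourinv_single (χ : BiChar U) (L : AddSubgroup U)
    (hL : IsOpen (L : Set U)) (hL' : IsCompact (L : Set U)) (b : B) (w : U) :
    (w ∈ fourinv_perp χ L → four1 χ (SF.single (L : Set U) hL' hL b) w =
      (hvol (L : Set U) : ℂ) • b) ∧
    (w ∉ fourinv_perp χ L → four1 χ (SF.single (L : Set U) hL' hL b) w = 0) := by
  constructor
  · intro hw
    rw [four1_apply]
    unfold fourFun
    rw [← hI_single (L : Set U) hL' hL b]
    congr 1
    apply SF.ext
    intro v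
    show χ.χ v w • SF.single (L : Set U) hL' hL b v = SF.single (L : Set U) hL' hL b v
    by_cases hv : v ∈ (L : Set U)
    · rw [hw v hv, one_smul]
    · rw [SF.single_apply_not_mem _ _ _ _ _ hv, smul_zero]
  · intro hw
    have hw' : ∃ l ∈ L, χ.χ l w ≠ 1 := by
      by_contra hcon
      push Not at hcon
      exact hw hcon
    obtain ⟨l, hl, hne⟩ := hw'
    have h := four1_trans χ (-l) (SF.single (L : Set U) hL' hL b) w
    have e : SF.comp (Homeomorph.addRight (-l)) (SF.single (L : Set U) hL' hL b) =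
        SF.single (L : Set U) hL' hL b := by
      apply SF.ext
      intro v
      show SF.single (L : Set U) hL' hL b (v + -l) = SF.single (L : Set U) hL' hL b v
      by_cases hv : v ∈ (L : Set U)
      · rw [SF.single_apply_mem _ _ _ _ _ hv, SF.single_apply_mem _ _ _ _ _
          (show v + -l ∈ (L : Set U) from L.add_mem hv (L.neg_mem hl))]
      · rw [SF.single_apply_not_mem _ _ _ _ _ hv, SF.single_apply_not_mem _ _ _ _ _
          (show v + -l ∉ (L : Set U) from fun h => hv (by
            have := L.add_mem h hl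
            rwa [neg_add_cancel_right] at this))]
    rw [e, neg_neg] at h
    have h2 : (1 - χ.χ l w) • four1 χ (SF.single (L : Set U) hL' hL b) w = 0 := by
      rw [sub_smul, one_smul, ← h, sub_self]
    exact (smul_eq_zero.1 h2).resolve_left (sub_ne_zero.2 (Ne.symm hne))

private theorem fourinv_perp_open (χ : BiChar U) (L : AddSubgroup U)
    (hL' : IsCompact (L : Set U)) : IsOpen (fourinv_perp χ L : Set U) :=
  isOpen_perp χ L hL'

private theorem fourinv_perp_comp (χ : BiChar U) (L : AddSubgroup U)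
    (hL : IsOpen (L : Set U)) : IsCompact (fourinv_perp χ L : Set U) :=
  χ.perp L hL

private theorem fourinv_single' (χ : BiChar U) (L : AddSubgroup U)
    (hL : IsOpen (L : Set U)) (hL' : IsCompact (L : Set U)) (b : B) :
    four1 χ (SF.single (L : Set U) hL' hL b) =
      SF.single (fourinv_perp χ L : Set U) (fourinv_perp_comp χ L hL)
        (fourinv_perp_open χ L hL') ((hvol (L : Set U) : ℂ) • b) := by
  apply SF.ext
  intro w
  obtain ⟨h1, h2⟩ := fourinv_single χ L hL hL' b w
  by_cases hw : w ∈ fourinv_perp χ L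
  · rw [h1 hw]
    exact (SF.single_apply_mem _ _ _ _ _ (show w ∈ (fourinv_perp χ L : Set U) from hw)).symm
  · rw [h2 hw]
    exact (SF.single_apply_not_mem _ _ _ _ _
      (show w ∉ (fourinv_perp χ L : Set U) from hw)).symm

private theorem fourinv_pp (χ : BiChar U) (hU : UnionCompact U) (L : AddSubgroup U)
    (hL : IsOpen (L : Set U)) (hL' : IsCompact (L : Set U)) (v : U) :
    v ∈ fourinv_perp χ.dual (fourinv_perp χ L) ↔ v ∈ L := by
  constructor
  · intro hv
    refine perp_perp χ hU L hL hL' v fun w hw => ?_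
    have h1 : star (χ.χ v w) = 1 := hv w hw
    have h2 := congrArg star h1
    rwa [star_star, star_one] at h2
  · intro hv w hw
    show star (χ.χ v w) = 1
    rw [hw v hv, star_one]

private theorem fourinv_Q (χ : BiChar U) (hU : UnionCompact U) (L : AddSubgroup U)
    (hL : IsOpen (L : Set U)) (hL' : IsCompact (L : Set U)) (b : B) :
    four1 χ.dual (four1 χ (SF.single (L : Set U) hL' hL b)) =
      ((hvol (L : Set U) * hvol (fourinv_perp χ L : Set U) : ℝ) : ℂ) •
        SF.single (L : Set U) hL' hL b := by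
  rw [fourinv_single']
  apply SF.ext
  intro v
  obtain ⟨h1, h2⟩ := fourinv_single χ.dual (fourinv_perp χ L) (fourinv_perp_open χ L hL')
    (fourinv_perp_comp χ L hL) ((hvol (L : Set U) : ℂ) • b) v
  show _ = ((hvol (L : Set U) * hvol (fourinv_perp χ L : Set U) : ℝ) : ℂ) •
    SF.single (L : Set U) hL' hL b v
  by_cases hv : v ∈ L
  · rw [SF.single_apply_mem _ _ _ _ _ (show v ∈ (L : Set U) from hv)]
    refine (h1 ((fourinv_pp χ hU L hL hL' v).2 hv)).trans ?_
    rw [smul_smul, Complex.ofReal_mul, mul_comm]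
  · rw [SF.single_apply_not_mem _ _ _ _ _ (show v ∉ (L : Set U) from hv), smul_zero]
    exact h2 (fun h => hv ((fourinv_pp χ hU L hL hL' v).1 h))

private theorem fourinv_Qtrans (χ : BiChar U) (a : U) (f : SF U B) :
    four1 χ.dual (four1 χ (SF.comp (Homeomorph.addRight a) f)) =
      SF.comp (Homeomorph.addRight a) (four1 χ.dual (four1 χ f)) := by
  apply SF.ext
  intro v
  show four1 χ.dual (four1 χ (SF.comp (Homeomorph.addRight a) f)) v =
    four1 χ.dual (four1 χ f) (v + a)
  rw [← four1_mod χ.dual a (four1 χ f) v]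
  suffices e : four1 χ (SF.comp (Homeomorph.addRight a) f) =
      SF.mulc (fun v => χ.dual.χ v a) (χ.dual.lcl a) (four1 χ f) by
    rw [e]
  apply SF.ext
  intro w
  show four1 χ (SF.comp (Homeomorph.addRight a) f) w = star (χ.χ a w) • four1 χ f w
  rw [four1_trans]
  congr 1
  have h := fourinv_neg χ a w
  have hn : χ.χ a w * star (χ.χ a w) = 1 := by
    have h1 : χ.χ a w * (starRingEnd ℂ) (χ.χ a w) = ((‖χ.χ a w‖ ^ 2 : ℝ) : ℂ) := by
      rw [Complex.mul_conj, Complex.normSq_eq_norm_sq]
    rw [χ.norm, one_pow, Complex.ofReal_one] at h1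
    exact h1
  calc χ.χ (-a) w = χ.χ (-a) w * (χ.χ a w * star (χ.χ a w)) := by rw [hn, mul_one]
    _ = (χ.χ (-a) w * χ.χ a w) * star (χ.χ a w) := by ring
    _ = star (χ.χ a w) := by rw [h, one_mul]

/-- all functions `single K b` with `K + V ⊆ K` are multiplied by the constant of `V` -/
private theorem fourinv_QK (χ : BiChar U) (hU : UnionCompact U) (K : Set U) (hK : IsCompact K)
    (hK' : IsOpen K) (V : AddSubgroup U) (hV : IsOpen (V : Set U)) (hVc : IsCompact (V : Set U))
    (h : ∀ x ∈ K, ∀ v ∈ V, x + v ∈ K) (b : B) :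
    four1 χ.dual (four1 χ (SF.single K hK hK' b)) =
      ((hvol (V : Set U) * hvol (fourinv_perp χ V : Set U) : ℝ) : ℂ) •
        SF.single K hK hK' b := by
  obtain ⟨s, hs⟩ := fourinv_decomp K hK hK' V hV hVc h b
  rw [hs]
  simp only [map_sum, Finset.smul_sum]
  refine Finset.sum_congr rfl fun q _ => ?_
  rw [fourinv_Qtrans, fourinv_Q χ hU V hV hVc b, map_smul]

private theorem fourinv_const (χ : BiChar U) (hU : UnionCompact U) (L V : AddSubgroup U)
    (hL : IsOpen (L : Set U)) (hLc : IsCompact (L : Set U))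
    (hV : IsOpen (V : Set U)) (hVc : IsCompact (V : Set U)) (hVL : V ≤ L) :
    hvol (L : Set U) * hvol (fourinv_perp χ L : Set U) =
      hvol (V : Set U) * hvol (fourinv_perp χ V : Set U) := by
  have e1 := fourinv_Q χ hU L hL hLc (1 : ℂ)
  have e2 := fourinv_QK χ hU (L : Set U) hLc hL V hV hVc
    (fun x hx v hv => L.add_mem hx (hVL hv)) (1 : ℂ)
  rw [e1] at e2
  have e3 := congrArg (fun g : SF U ℂ => g 0) e2
  have e4 : ((hvol (L : Set U) * hvol (fourinv_perp χ L : Set U) : ℝ) : ℂ) •
      SF.single (L : Set U) hLc hL (1 : ℂ) 0 =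
      ((hvol (V : Set U) * hvol (fourinv_perp χ V : Set U) : ℝ) : ℂ) •
      SF.single (L : Set U) hLc hL (1 : ℂ) 0 := e3
  rw [SF.single_apply_mem _ _ _ _ _ (show (0 : U) ∈ (L : Set U) from L.zero_mem),
    smul_eq_mul, smul_eq_mul, mul_one, mul_one] at e4
  exact_mod_cast e4

theorem exists_fourC (χ : BiChar U) (hU : UnionCompact U) : ∃ c : ℝ, 0 < c ∧
    ∀ (L : AddSubgroup U), IsOpen (L : Set U) → IsCompact (L : Set U) →
      hvol (L : Set U) * hvol {w | ∀ x ∈ L, χ.χ x w = 1} = c := by
  obtain ⟨L0, hL0, hL0c, -⟩ :=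
    exists_co_addSubgroup (Set.univ : Set U) isOpen_univ (Set.mem_univ _)
  have p1 : 0 < hvol (L0 : Set U) := hvol_pos _ hL0c hL0 ⟨0, L0.zero_mem⟩
  have p2 : 0 < hvol (fourinv_perp χ L0 : Set U) :=
    hvol_pos _ (fourinv_perp_comp χ L0 hL0) (fourinv_perp_open χ L0 hL0c)
      ⟨0, (fourinv_perp χ L0).zero_mem⟩
  refine ⟨hvol (L0 : Set U) * hvol (fourinv_perp χ L0 : Set U), mul_pos p1 p2,
    fun L hL hLc => ?_⟩
  have ho : IsOpen ((L ⊓ L0 : AddSubgroup U) : Set U) := hL.inter hL0
  have hc : IsCompact ((L ⊓ L0 : AddSubgroup U) : Set U) :=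
    hLc.of_isClosed_subset (AddSubgroup.isClosed_of_isOpen _ ho) (fun x hx => hx.1)
  have e1 := fourinv_const χ hU L (L ⊓ L0) hL hLc ho hc inf_le_left
  have e2 := fourinv_const χ hU L0 (L ⊓ L0) hL0 hL0c ho hc inf_le_right
  rw [e2, ← e1]
  rfl

/-- the constant of Fourier inversion -/
def fourC (χ : BiChar U) (hU : UnionCompact U) : ℝ := (exists_fourC χ hU).choose

theorem fourC_pos (χ : BiChar U) (hU : UnionCompact U) : 0 < fourC χ hU :=
  (exists_fourC χ hU).choose_spec.1

theorem four_inv (χ : BiChar U) (hU : UnionCompact U) (f : SF U B) :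
    four1 χ.dual (four1 χ f) = (fourC χ hU : ℂ) • f := by
  refine sf_induction (fun f => four1 χ.dual (four1 χ f) = (fourC χ hU : ℂ) • f) ?_ ?_ ?_ f
  · simp only [map_zero, smul_zero]
  · intro f g hf hg
    simp only [map_add, smul_add]
    rw [hf, hg]
  · intro x
    refine ⟨Set.univ, isOpen_univ, Set.mem_univ _, fun K hK hK' b _ => ?_⟩
    obtain ⟨V, hV, hVc, h⟩ := fourinv_small K hK hK'
    show four1 χ.dual (four1 χ (SF.single K hK hK' b)) = (fourC χ hU : ℂ) • SF.single K hK hK' b
    rw [fourinv_QK χ hU K hK hK' V hV hVc h b]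
    congr 2
    exact (exists_fourC χ hU).choose_spec.2 V hV hVc

private theorem fourinv_dd (χ : BiChar U) (g : SF U B) :
    four1 χ.dual.dual g = four1 χ g := by
  apply SF.ext
  intro w
  rw [four1_apply, four1_apply]
  unfold fourFun
  congr 1
  apply SF.ext
  intro v
  show star (star (χ.χ v w)) • g v = χ.χ v w • g v
  rw [star_star]

private theorem fourinv_h1 (χ : BiChar U) (hU : UnionCompact U) (g : SF U B) :
    four1 χ (four1 χ.dual g) = (fourC χ.dual hU : ℂ) • g := by
  rw [← fourinv_dd, four_inv χ.dual hU g]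

theorem four_inv' (χ : BiChar U) (hU : UnionCompact U) (f : SF U B) :
    four1 χ (four1 χ.dual f) = (fourC χ hU : ℂ) • f := by
  have hc : (fourC χ.dual hU : ℂ) = (fourC χ hU : ℂ) := by
    obtain ⟨L0, hL0, hL0c, -⟩ :=
      exists_co_addSubgroup (Set.univ : Set U) isOpen_univ (Set.mem_univ _)
    have p1 : 0 < hvol (L0 : Set U) := hvol_pos _ hL0c hL0 ⟨0, L0.zero_mem⟩
    have e1 := fourinv_h1 χ hU (four1 χ (SF.single (L0 : Set U) hL0c hL0 (1 : ℂ)))
    rw [four_inv χ hU, map_smul] at e1
    have e2 := congrArg (fun g : SF U ℂ => g 0) e1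
    have e3 : (fourC χ hU : ℂ) • four1 χ (SF.single (L0 : Set U) hL0c hL0 (1 : ℂ)) 0 =
        (fourC χ.dual hU : ℂ) • four1 χ (SF.single (L0 : Set U) hL0c hL0 (1 : ℂ)) 0 := e2
    rw [(fourinv_single χ L0 hL0 hL0c (1 : ℂ) 0).1 (fourinv_perp χ L0).zero_mem, smul_eq_mul,
      smul_eq_mul, smul_eq_mul, mul_one] at e3
    have hne : (hvol (L0 : Set U) : ℂ) ≠ 0 := by
      rw [Ne, Complex.ofReal_eq_zero]
      exact p1.ne'
    exact (mul_right_cancel₀ hne e3).symm
  rw [fourinv_h1 χ hU, hc]

theorem four2_inv (χ : BiChar U) (hU : UnionCompact U) (f : SF (X × U) B) :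
    four2 χ.dual (four2 χ f) = (fourC χ hU : ℂ) • f := by
  apply SF.ext
  rintro ⟨x, w⟩
  have h := congrArg (fun g : SF U B => g w) (four_inv χ hU (SF.slice x f))
  rw [← slice_four2, ← slice_four2] at h
  exact h

end

end Pool.Agent.Work.MP_dd0ddf_al.C2
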