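import Pool.Agent.Work.MP_dd0ddf_al.C2.ExtU
import Pool.Agent.Work.MP_dd0ddf_al.C2.BiOm
import Pool.Agent.Work.MP_dd0ddf_al.C2.FdLoc
import Pool.Agent.Work.MP_dd0ddf_al.C2.DescThm
import Pool.Agent.Work.MP_dd0ddf_al.C2.NoPos
import Pool.Agent.Work.MP_dd0ddf_al.C2.FdOrbit
import Pool.Agent.Work.MP_dd0ddf_al.C2.FourInv

/-!
# MP_dd0ddf_al, module LinDefs: definitions for the linear theorem
-/

set_option linter.unusedSectionVars false
set_option linter.style.haveILetI false

namespace Pool.Agent.Work.MP_dd0ddf_al.C2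

noncomputable section

universe u

variable {F E : Type u} [NontriviallyNormedField F] [IsUltrametricDist F] [ProperSpace F]
  [CharP F 2] [NontriviallyNormedField E] [NormedAlgebra F E] [ProperSpace E] [StarRing E]
  [QExt F E]
variable {V : Type u} [AddCommGroup V] [Module E V] [Module.Finite E V] [TopologicalSpace V]
  [IsTopologicalAddGroup V] [T2Space V] [ContinuousSMul E V]

/-- the action of `U(V)` on `SA × V` -/
def linC (B : SkewH E V) : CAct (UU B) (SA B × V) where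
  act h x := (saConj B h x.1, h.1.1 x.2)
  one x := by
    refine Prod.ext (Subtype.ext ?_) rfl
    show (1 : UU B).1.1 * x.1.1 * (1 : UU B).1⁻¹.1 = x.1.1
    rw [show (1 : UU B).1 = 1 from rfl, inv_one, Units.val_one, one_mul, mul_one]
  mul g h x := by
    refine Prod.ext (Subtype.ext ?_) rfl
    show (g * h).1.1 * x.1.1 * (g * h).1⁻¹.1 = g.1.1 * (h.1.1 * x.1.1 * h.1⁻¹.1) * g.1⁻¹.1
    rw [show (g * h).1 = g.1 * h.1 from rfl, mul_inv_rev, Units.val_mul, Units.val_mul]
    simp only [mul_assoc]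
  cont := by
    have h1 : Continuous fun q : UU B × (SA B × V) => q.1.1.1 :=
      Units.continuous_val.comp (continuous_subtype_val.comp continuous_fst)
    have h2 : Continuous fun q : UU B × (SA B × V) => q.1.1⁻¹.1 :=
      Units.continuous_val.comp (continuous_inv.comp (continuous_subtype_val.comp continuous_fst))
    have h3 : Continuous fun q : UU B × (SA B × V) => q.2.1.1 :=
      continuous_subtype_val.comp (continuous_fst.comp continuous_snd)
    refine Continuous.prodMk (Continuous.subtype_mk ((h1.mul h3).mul h2) _) ?_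
    exact continuous_end_eval.comp (h1.prodMk (continuous_snd.comp continuous_snd))

/-- `T` is invariant under `U(V)` -/
def LinInv (B : SkewH E V) (T : SF (SA B × V) ℂ →ₗ[ℂ] ℂ) : Prop :=
  ∀ (h : UU B) (f : SF (SA B × V) ℂ), T (linAct B h f) = T f

variable (F) in
/-- `T` is antisymmetric under `τ` -/
def LinAnti {B : SkewH E V} (τ : AntiU B) (T : SF (SA B × V) ℂ →ₗ[ℂ] ℂ) : Prop :=
  ∀ f : SF (SA B × V) ℂ, T (linTau F τ f) = - T f

variable (F) in
/-- the linear theorem for `B` in antisymmetric form -/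
def LinGood (B : SkewH E V) : Prop :=
  ∀ (τ : AntiU B) (T : SF (SA B × V) ℂ →ₗ[ℂ] ℂ), LinInv B T → LinAnti F τ T → T = 0

/-- `⟨X^i v, v⟩ = 0` for all `i` -/
def Qset (B : SkewH E V) : Set (SA B × V) :=
  {x | ∀ i : ℕ, B.ip ((x.1.1 ^ i) x.2) x.2 = 0}

/-- functions `(X, v) ↦ ⟨v, v⟩` -/
def ipv (B : SkewH E V) (x : SA B × V) : E := B.ip x.2 x.2

theorem ipv_lin (B : SkewH E V) (h : UU B) (x : SA B × V) :
    ipv B (((saConj B h).prodCongr (gvHomeo h.1)) x) = ipv B x := h.2 _ _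

theorem ipv_tau {B : SkewH E V} (τ : AntiU B) (x : SA B × V) :
    ipv B (((saTau F τ).prodCongr (tauH F τ)) x) = ipv B x := τ.ip _ _

/-- the stabiliser of a vector -/
def stabV (B : SkewH E V) (v : V) : Subgroup (UU B) where
  carrier := {h | h.1.1 v = v}
  one_mem' := rfl
  mul_mem' := fun {a b} ha hb => by
    show a.1.1 (b.1.1 v) = v
    rw [show b.1.1 v = v from hb]
    exact ha
  inv_mem' := fun {a} ha => by
    show a.1⁻¹.1 v = v
    have h1 : a.1.1 v = v := ha
    conv_lhs => rw [← h1]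
    exact congrArg (fun f : Module.End E V => f v) a.1.inv_mul

/-- `v v^* (x) = η ⟨x, v⟩ v`, `star η = -η` -/
def vvs (B : SkewH E V) (η : E) (hη : star η = -η) (v : V) : SA B :=
  ⟨{ toFun := fun x => (η * B.ip x v) • v
     map_add' := fun x y => by rw [B.add_left, mul_add, add_smul]
     map_smul' := fun a x => by
      rw [B.smul_left, RingHom.id_apply, smul_smul]
      congr 1
      ring }, fun x w => by
    show B.ip ((η * B.ip x v) • v) w = B.ip x ((η * B.ip w v) • v)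
    rw [B.smul_left, B.smul_right, star_mul', hη, B.skew w v]
    ring⟩

/-- `D_p`: antisymmetric invariant functionals supported on operators with characteristic
polynomial `P` -/
structure InD {B : SkewH E V} (F : Type u) [NontriviallyNormedField F] [ProperSpace F]
    [NormedAlgebra F E] [QExt F E] [IsUltrametricDist F] [CharP F 2]
    (τ : AntiU B) (P : Polynomial E) (T : SF (SA B × V) ℂ →ₗ[ℂ] ℂ) :
    Prop where
  inv : LinInv B T
  anti : LinAnti F τ T
  supp : SF.SuppOn T {x | LinearMap.charpoly x.1.1 = P}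

/-- the centraliser of `X` in `U(V)` -/
def centX (B : SkewH E V) (X : SA B) : Subgroup (UU B) where
  carrier := {h | h.1.1 * X.1 = X.1 * h.1.1}
  one_mem' := by
    show (1 : Module.End E V) * X.1 = X.1 * 1
    rw [one_mul, mul_one]
  mul_mem' := fun {a b} ha hb => by
    show (a.1.1 * b.1.1) * X.1 = X.1 * (a.1.1 * b.1.1)
    rw [mul_assoc, show b.1.1 * X.1 = X.1 * b.1.1 from hb, ← mul_assoc,
      show a.1.1 * X.1 = X.1 * a.1.1 from ha, mul_assoc]
  inv_mem' := fun {a} ha => by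
    show a.1⁻¹.1 * X.1 = X.1 * a.1⁻¹.1
    have h1 : a.1.1 * X.1 = X.1 * a.1.1 := ha
    calc a.1⁻¹.1 * X.1 = a.1⁻¹.1 * X.1 * (a.1.1 * a.1⁻¹.1) := by
          rw [show a.1.1 * a.1⁻¹.1 = 1 from a.1.mul_inv, mul_one]
      _ = a.1⁻¹.1 * (X.1 * a.1.1) * a.1⁻¹.1 := by simp only [mul_assoc]
      _ = a.1⁻¹.1 * (a.1.1 * X.1) * a.1⁻¹.1 := by rw [h1]
      _ = (a.1⁻¹.1 * a.1.1) * X.1 * a.1⁻¹.1 := by simp only [mul_assoc]
      _ = X.1 * a.1⁻¹.1 := by rw [show a.1⁻¹.1 * a.1.1 = 1 from a.1.inv_mul, one_mul]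

/-- vectors `v` with `⟨Y v, v⟩ = 0` for all `Y` commuting with `X` -/
def Cset (B : SkewH E V) (X : SA B) : Set V :=
  {v | ∀ Y : Module.End E V, Y * X.1 = X.1 * Y → B.ip (Y v) v = 0}

/-- the Fourier transform on `SF V` -/
def fourV (B : SkewH E V) (p : PChar F) : SF V ℂ →ₗ[ℂ] SF V ℂ :=
  haveI := lc_V E V
  haveI := td_V F E V
  four1 (omBi B p)

/-- the Fourier transform in the variable `v` -/
def fourL (B : SkewH E V) (p : PChar F) : SF (SA B × V) ℂ →ₗ[ℂ] SF (SA B × V) ℂ :=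
  haveI := lc_V E V
  haveI := td_V F E V
  haveI := lc_SA F B
  haveI := td_SA F B
  four2 (omBi B p)

/-- hypotheses on the functional at a fixed `X` -/
structure FixHyp {B : SkewH E V} (p : PChar F) (X : SA B) (S : SF V ℂ →ₗ[ℂ] ℂ) : Prop where
  s1 : SF.SuppOn S (Cset B X)
  s2 : SF.SuppOn (S ∘ₗ fourV B p) (Cset B X)
  s3 : ∃ δ : PosChar (centX B X), ∀ (h : centX B X) (f : SF V ℂ),
    S (SF.comp (gvHomeo h.1.1) f) = δ.δ h * S f
  s4 : ∀ τ : AntiU B, conjτ τ X.1 = X.1 → ∃ c : ℝ, 0 < c ∧ ∀ f : SF V ℂ,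
    S (SF.comp (tauH F τ) f) = -(c : ℂ) * S f

end

end Pool.Agent.Work.MP_dd0ddf_al.C2
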