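import Mathlib

/-!
# Definitions for MP_dd0ddf_al (Weil representation periods of U(V) in GL(V), p-adic case)
-/

set_option linter.unusedSectionVars false
set_option linter.style.haveILetI false

namespace Pool.Agent.Work.MP_dd0ddf_al.C2

noncomputable section

universe u

/-! ## locally constant compactly supported functions -/

/-- `SF X B`: locally constant, compactly supported functions `X → B` -/
def SF (X B : Type*) [TopologicalSpace X] [AddCommGroup B] [Module ℂ B] :
    Submodule ℂ (X → B) where
  carrier := {f | IsLocallyConstant f ∧ HasCompactSupport f}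
  add_mem' := fun {f g} hf hg => ⟨hf.1.comp₂ hg.1 (· + ·), hf.2.add hg.2⟩
  zero_mem' := ⟨IsLocallyConstant.const 0, HasCompactSupport.zero⟩
  smul_mem' := fun c f hf => ⟨hf.1.comp (c • ·), hf.2.mono' (fun x hx => subset_tsupport _ (by
    intro h
    apply hx
    show c • f x = 0
    rw [h, smul_zero]))⟩

namespace SF

variable {X Y B B' : Type*} [TopologicalSpace X] [TopologicalSpace Y]
  [AddCommGroup B] [Module ℂ B] [AddCommGroup B'] [Module ℂ B']

instance : CoeFun (SF X B) (fun _ => X → B) := ⟨fun f => f.1⟩

theorem ext {f g : SF X B} (h : ∀ x, f x = g x) : f = g := Subtype.ext (funext h)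

/-- pull back along a homeomorphism: `(comp φ f) y = f (φ y)` -/
def comp (φ : Y ≃ₜ X) : SF X B →ₗ[ℂ] SF Y B where
  toFun f := ⟨fun y => f (φ y), f.2.1.comp_continuous φ.continuous,
    f.2.2.comp_homeomorph φ⟩
  map_add' _ _ := rfl
  map_smul' _ _ := rfl

/-- apply a linear map to the values -/
def map (φ : B →ₗ[ℂ] B') : SF X B →ₗ[ℂ] SF X B' where
  toFun f := ⟨fun x => φ (f x), f.2.1.comp φ, f.2.2.comp_left (map_zero φ)⟩
  map_add' f g := by
    apply Subtype.ext
    funext x
    exact map_add φ _ _
  map_smul' c f := by
    apply Subtype.ext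
    funext x
    exact map_smul φ c _

/-- multiply by a locally constant scalar function -/
def mulc (c : X → ℂ) (hc : IsLocallyConstant c) : SF X B →ₗ[ℂ] SF X B where
  toFun f := ⟨fun x => c x • f x, hc.comp₂ f.2.1 (· • ·), f.2.2.mono' (fun x hx =>
    subset_tsupport _ (by
      intro h
      apply hx
      show c x • f x = 0
      rw [h, smul_zero]))⟩
  map_add' f g := by
    apply Subtype.ext
    funext x
    exact smul_add _ _ _
  map_smul' a f := by
    apply Subtype.ext
    funext x
    exact smul_comm _ _ _

@[simp] theorem comp_apply (φ : Y ≃ₜ X) (f : SF X B) (y : Y) : comp φ f y = f (φ y) := rfl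
@[simp] theorem map_apply (φ : B →ₗ[ℂ] B') (f : SF X B) (x : X) : map φ f x = φ (f x) := rfl
@[simp] theorem mulc_apply (c : X → ℂ) (hc : IsLocallyConstant c) (f : SF X B) (x : X) :
    mulc c hc f x = c x • f x := rfl

end SF

/-! ## fields -/

/-- characteristic 2 passes along injective ring homomorphisms -/
theorem char2_of_injective {R S : Type*} [NonAssocSemiring R] [NonAssocSemiring S] {f : R →+* S}
    (h : Function.Injective f) [CharP R 2] : CharP S 2 := by
  refine ⟨fun n => ?_⟩
  rw [← CharP.cast_eq_zero_iff R 2 n, ← map_natCast f, ← map_zero f, h.eq_iff]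

/-- an element `d` of `E` with `d + star d = 1` (used in place of `1/2`) -/
class Dl (E : Type u) [Field E] [StarRing E] where
  d : E
  add_star : d + star d = 1

/-- the elements `d` of `E` and of `L ⊇ E` agree -/
class DComm (E L : Type u) [Field E] [StarRing E] [Dl E] [Field L] [StarRing L] [Dl L]
    [Algebra E L] : Prop where
  comm : algebraMap E L Dl.d = (Dl.d : L)

/-- `E/F` is quadratic and `star` is its nontrivial automorphism -/
class QExt (F E : Type u) [Field F] [Field E] [Algebra F E] [StarRing E] : Prop where
  star_alg : ∀ x : F, star (algebraMap F E x) = algebraMap F E x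
  finrank_two : Module.finrank F E = 2
  nontriv : ∃ x : E, star x ≠ x

/-- the group of norms `N_{E/F}(E^×)`, as a predicate on `F` -/
def IsNorm (F E : Type u) [Field F] [Field E] [Algebra F E] [StarRing E] (c : F) : Prop :=
  ∃ x : E, x ≠ 0 ∧ x * star x = algebraMap F E c

/-- a nontrivial smooth unitary additive character of `F` -/
structure PChar (F : Type*) [AddCommGroup F] [TopologicalSpace F] where
  ψ : F → ℂ
  add : ∀ x y, ψ (x + y) = ψ x * ψ y
  norm_one : ∀ x, ‖ψ x‖ = 1
  lc : IsLocallyConstant ψ
  nontriv : ∃ x, ψ x ≠ 1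

/-! ## skew-Hermitian spaces -/

/-- a nondegenerate skew-Hermitian form, linear in the first variable -/
structure SkewH (E V : Type*) [Field E] [StarRing E] [AddCommGroup V] [Module E V] where
  ip : V → V → E
  add_left : ∀ u v w, ip (u + v) w = ip u w + ip v w
  smul_left : ∀ (a : E) v w, ip (a • v) w = a * ip v w
  skew : ∀ v w, ip w v = - star (ip v w)
  nondeg : ∀ v, (∀ w, ip v w = 0) → v = 0

namespace SkewH

variable {E V : Type*} [Field E] [StarRing E] [AddCommGroup V] [Module E V] (B : SkewH E V)

theorem add_right (u v w : V) : B.ip u (v + w) = B.ip u v + B.ip u w := by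
  rw [B.skew (v + w) u, B.add_left, star_add, B.skew v u, B.skew w u]
  ring

theorem smul_right (a : E) (v w : V) : B.ip v (a • w) = star a * B.ip v w := by
  rw [B.skew (a • w) v, B.smul_left, star_mul', B.skew w v]
  ring

theorem nondeg_right (w : V) (h : ∀ v, B.ip v w = 0) : w = 0 := by
  apply B.nondeg
  intro v
  rw [B.skew v w, h v, star_zero, neg_zero]

/-- the linear functional `v ↦ ⟨v, w⟩` -/
def lin (w : V) : V →ₗ[E] E where
  toFun v := B.ip v w
  map_add' u v := B.add_left u v w
  map_smul' a v := B.smul_left a v w

end SkewH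

section Adj

variable {E V : Type*} [Field E] [StarRing E] [AddCommGroup V] [Module E V]
  [Module.Finite E V] (B : SkewH E V)

/-- the functionals `⟨·, w⟩` are all functionals -/
theorem exists_repr (f : V →ₗ[E] E) : ∃ w : V, ∀ v, f v = B.ip v w := by
  classical
  -- semilinear map w ↦ ⟨·, w⟩, injective
  let b := Module.finBasis E V
  let n := Module.finrank E V
  -- Gram matrix
  let M : Matrix (Fin n) (Fin n) E := fun i j => B.ip (b i) (b j)
  have hM : IsUnit M := by
    rw [Matrix.isUnit_iff_isUnit_det, isUnit_iff_ne_zero]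
    intro h0
    obtain ⟨x, hx, hx0⟩ := Matrix.exists_vecMul_eq_zero_iff.mpr h0
    apply hx
    have h1 : (∑ i, x i • b i) = 0 := by
      apply B.nondeg
      intro w
      have h2 : ∀ j, B.ip (∑ i, x i • b i) (b j) = 0 := by
        intro j
        have h3 := congrFun hx0 j
        have h4 : B.ip (∑ i, x i • b i) (b j) = ∑ i, x i * B.ip (b i) (b j) := by
          have := map_sum (B.lin (b j)) (fun i => x i • b i) Finset.univ
          simp only [map_smul] at this
          exact this
        rw [h4]
        exact h3
      have h5 : w = ∑ j, b.repr w j • b j := (b.sum_repr w).symm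
      rw [B.skew w]
      have h6 : B.ip w (∑ i, x i • b i) = 0 := by
        rw [h5]
        have := map_sum (B.lin (∑ i, x i • b i)) (fun j => b.repr w j • b j) Finset.univ
        simp only [map_smul] at this
        refine this.trans (Finset.sum_eq_zero fun j _ => ?_)
        have h7 : B.lin (∑ i, x i • b i) (b j) = 0 := by
          show B.ip (b j) (∑ i, x i • b i) = 0
          rw [B.skew (∑ i, x i • b i) (b j), h2 j]
          simp
        rw [h7, smul_zero]
      rw [h6]
      simp
    have := (Fintype.linearIndependent_iff.mp b.linearIndependent) x h1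
    funext i
    exact this i
  obtain ⟨N, hN⟩ := hM.exists_right_inv
  -- want y with ∑ j M i j * star (y j) = f (b i)
  let z : Fin n → E := N.mulVec (fun i => f (b i))
  refine ⟨∑ j, star (z j) • b j, fun v => ?_⟩
  have key : ∀ i, B.ip (b i) (∑ j, star (z j) • b j) = f (b i) := by
    intro i
    have h1 : B.ip (b i) (∑ j, star (z j) • b j) = ∑ j, B.ip (b i) (star (z j) • b j) := by
      have h2 : ∀ (s : Finset (Fin n)), B.ip (b i) (∑ j ∈ s, star (z j) • b j) =
          ∑ j ∈ s, B.ip (b i) (star (z j) • b j) := by
        intro s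
        induction s using Finset.induction_on with
        | empty =>
          simp only [Finset.sum_empty]
          have := B.smul_right 0 (b i) 0
          rw [zero_smul] at this
          rw [this]
          simp
        | insert a s ha ih => rw [Finset.sum_insert ha, Finset.sum_insert ha, B.add_right, ih]
      exact h2 _
    rw [h1]
    have h3 : (M * N).mulVec (fun i => f (b i)) i = f (b i) := by
      rw [hN, Matrix.one_mulVec]
    rw [← Matrix.mulVec_mulVec] at h3
    rw [← h3]
    refine Finset.sum_congr rfl fun j _ => ?_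
    rw [B.smul_right, star_star, mul_comm]
  have h8 : f = B.lin (∑ j, star (z j) • b j) := b.ext fun i => (key i).symm
  rw [h8]
  rfl

theorem exists_adj (g : Module.End E V) : ∃ g' : Module.End E V, ∀ v w,
    B.ip (g v) w = B.ip v (g' w) := by
  choose r hr using fun w => exists_repr B ((B.lin w).comp g)
  have hr' : ∀ w v, B.ip (g v) w = B.ip v (r w) := fun w v => hr w v
  have uniq : ∀ w w', (∀ v, B.ip v w = B.ip v w') → w = w' := by
    intro w w' h
    have : w + (-1 : E) • w' = 0 := by
      apply B.nondeg_right
      intro v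
      rw [B.add_right, B.smul_right, h v]
      simp
    rw [neg_smul, one_smul, ← sub_eq_add_neg, sub_eq_zero] at this
    exact this
  refine ⟨{ toFun := r, map_add' := ?_, map_smul' := ?_ }, fun v w => hr' w v⟩
  · intro x y
    apply uniq
    intro v
    rw [← hr', B.add_right, hr', hr', B.add_right]
  · intro a x
    apply uniq
    intro v
    rw [← hr', B.smul_right, hr', RingHom.id_apply, B.smul_right]

/-- the adjoint `g^*` -/
def adj (g : Module.End E V) : Module.End E V := (exists_adj B g).choose

theorem adj_spec (g : Module.End E V) (v w : V) : B.ip (g v) w = B.ip v (adj B g w) :=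
  (exists_adj B g).choose_spec v w

theorem ip_ext {w w' : V} (h : ∀ v, B.ip v w = B.ip v w') : w = w' := by
  have : w + (-1 : E) • w' = 0 := by
    apply B.nondeg_right
    intro v
    rw [B.add_right, B.smul_right, h v]
    simp
  rw [neg_smul, one_smul, ← sub_eq_add_neg, sub_eq_zero] at this
  exact this

theorem adj_unique {g g' : Module.End E V} (h : ∀ v w, B.ip (g v) w = B.ip v (g' w)) :
    g' = adj B g := by
  ext w
  apply ip_ext B
  intro v
  rw [← h, adj_spec]

theorem adj_adj (g : Module.End E V) : adj B (adj B g) = g := by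
  symm
  apply adj_unique
  intro v w
  rw [B.skew w, ← adj_spec, B.skew (g w) v]

theorem adj_mul (g h : Module.End E V) : adj B (g * h) = adj B h * adj B g := by
  symm
  apply adj_unique
  intro v w
  show B.ip (g (h v)) w = B.ip v (adj B h (adj B g w))
  rw [adj_spec, adj_spec]

theorem adj_one : adj B 1 = 1 := by
  symm
  apply adj_unique
  intro v w
  rfl

end Adj

/-! ## topology of `End_E(V)`, the groups -/

section Top

variable {E V : Type*} [Field E] [AddCommGroup V] [Module E V] [TopologicalSpace V]

/-- the topology of pointwise convergence on `End_E(V)` -/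
instance endTop : TopologicalSpace (Module.End E V) :=
  TopologicalSpace.induced (fun f : Module.End E V => (f : V → V)) inferInstance

end Top

/-- `GL_E(V)` -/
abbrev GV (E V : Type*) [Field E] [AddCommGroup V] [Module E V] := (Module.End E V)ˣ

section Groups

variable {E V : Type*} [Field E] [StarRing E] [AddCommGroup V] [Module E V] (B : SkewH E V)

/-- the unitary group -/
def UU : Subgroup (GV E V) where
  carrier := {g | ∀ v w, B.ip (g.1 v) (g.1 w) = B.ip v w}
  mul_mem' := fun {a b} ha hb v w => by
    show B.ip (a.1 (b.1 v)) (a.1 (b.1 w)) = _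
    rw [ha, hb]
  one_mem' := fun v w => rfl
  inv_mem' := fun {a} ha v w => by
    have h1 : ∀ x, a.1 (a⁻¹.1 x) = x := fun x => by
      have := congrArg (fun f : Module.End E V => f x) a.mul_inv
      exact this
    rw [← ha (a⁻¹.1 v) (a⁻¹.1 w), h1, h1]

/-- self-adjoint operators -/
def SA : AddSubgroup (Module.End E V) where
  carrier := {X | ∀ v w, B.ip (X v) w = B.ip v (X w)}
  add_mem' := fun {a b} ha hb v w => by
    show B.ip (a v + b v) w = B.ip v (a w + b w)
    rw [B.add_left, B.add_right, ha, hb]
  zero_mem' := fun v w => by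
    show B.ip 0 w = B.ip v 0
    have h1 := B.smul_left 0 0 w
    have h2 := B.smul_right 0 v 0
    simp only [zero_smul, zero_mul, star_zero] at h1 h2
    rw [h1, h2]
  neg_mem' := fun {a} ha v w => by
    show B.ip (- a v) w = B.ip v (- a w)
    have h1 := B.smul_left (-1) (a v) w
    have h2 := B.smul_right (-1) v (a w)
    simp only [neg_smul, one_smul, star_neg, star_one] at h1 h2
    rw [h1, h2, ha]

/-- an anti-unitary involution -/
structure AntiU where
  t : V → V
  add : ∀ v w, t (v + w) = t v + t w
  smul : ∀ (a : E) v, t (a • v) = star a • t v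
  ip : ∀ v w, B.ip (t v) (t w) = B.ip w v
  inv : ∀ v, t (t v) = v

end Groups

section Theta

variable {E V : Type*} [Field E] [StarRing E] [AddCommGroup V] [Module E V] {B : SkewH E V}
  (τ : AntiU B)

/-- conjugation by `τ` -/
def conjτ (X : Module.End E V) : Module.End E V where
  toFun v := τ.t (X (τ.t v))
  map_add' v w := by rw [τ.add, map_add, τ.add]
  map_smul' a v := by rw [τ.smul, map_smul, τ.smul, star_star, RingHom.id_apply]

theorem conjτ_mul (X Y : Module.End E V) : conjτ τ (X * Y) = conjτ τ X * conjτ τ Y := by
  ext v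
  show τ.t (X (Y (τ.t v))) = τ.t (X (τ.t (τ.t (Y (τ.t v)))))
  rw [τ.inv]

theorem conjτ_one : conjτ τ (1 : Module.End E V) = 1 := by
  ext v
  exact τ.inv v

theorem conjτ_conjτ (X : Module.End E V) : conjτ τ (conjτ τ X) = X := by
  ext v
  show τ.t (τ.t (X (τ.t (τ.t v)))) = X v
  rw [τ.inv, τ.inv]

variable [Module.Finite E V]

/-- the anti-automorphism `θ(g) = τ g^* τ⁻¹` of `GL(V)` -/
def thG (g : GV E V) : GV E V where
  val := conjτ τ (adj B g.1)
  inv := conjτ τ (adj B g⁻¹.1)
  val_inv := by
    rw [← conjτ_mul, ← adj_mul, g.inv_mul, adj_one, conjτ_one]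
  inv_val := by
    rw [← conjτ_mul, ← adj_mul, g.mul_inv, adj_one, conjτ_one]

end Theta

/-! ## the Weyl algebra -/

/-- the `F`-symplectic form `Tr_{E/F} ⟨v, w⟩` -/
def om (F : Type u) {E : Type u} [Field F] [Field E] [Algebra F E] [StarRing E]
    {V : Type*} [AddCommGroup V] [Module E V] (B : SkewH E V) (v w : V) : F :=
  Algebra.trace F E (B.ip v w)

/-- the `F`-bilinear form `Tr_{E/F} (d ⟨v, w⟩)`, `d + star d = 1`; `bt v w - bt w v = om v w` -/
def bt (F : Type u) {E : Type u} [Field F] [Field E] [Algebra F E] [StarRing E] [Dl E]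
    {V : Type*} [AddCommGroup V] [Module E V] (B : SkewH E V) (v w : V) : F :=
  Algebra.trace F E (Dl.d * B.ip v w)

theorem qext_findim (F E : Type u) [Field F] [Field E] [Algebra F E] [StarRing E] [QExt F E] :
    FiniteDimensional F E :=
  FiniteDimensional.of_finrank_pos (by rw [QExt.finrank_two (F := F) (E := E)]; norm_num)

theorem qext_sep (F E : Type u) [Field F] [Field E] [Algebra F E] [StarRing E] [QExt F E] :
    Algebra.IsSeparable F E := by
  haveI : FiniteDimensional F E := qext_findim F E
  let e : E ≃ₐ[F] E := AlgEquiv.ofBijective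
    ({ toFun := fun x => star x
       map_one' := star_one E
       map_mul' := fun a b => star_mul' a b
       map_zero' := star_zero E
       map_add' := star_add
       commutes' := fun x => QExt.star_alg x } : E →ₐ[F] E)
    ⟨fun a b h => star_injective h, fun a => ⟨star a, star_star a⟩⟩
  obtain ⟨x, hx⟩ := QExt.nontriv (F := F) (E := E)
  have hne : e ≠ AlgEquiv.refl := by
    intro h
    apply hx
    have := congrArg (fun f : E ≃ₐ[F] E => f x) h
    exact this
  have h1 : 1 < Nat.card (E ≃ₐ[F] E) := by
    rw [Finite.one_lt_card_iff_nontrivial]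
    exact ⟨e, AlgEquiv.refl, hne⟩
  have h2 : Nat.card (E ≃ₐ[F] E) ≤ Module.finrank F E := by
    rw [Nat.card_eq_fintype_card]
    exact AlgEquiv.card_le
  have h3 : Module.finrank F E = 2 := QExt.finrank_two
  haveI : IsGalois F E := IsGalois.of_card_aut_eq_finrank F E (by omega)
  infer_instance

theorem continuous_trace (F E : Type u) [NontriviallyNormedField F] [ProperSpace F]
    [NontriviallyNormedField E] [NormedAlgebra F E] [StarRing E] [QExt F E] :
    Continuous (Algebra.trace F E) := by
  haveI : FiniteDimensional F E := qext_findim F E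
  exact LinearMap.continuous_of_finiteDimensional _

theorem continuous_star_E (F E : Type u) [NontriviallyNormedField F] [ProperSpace F]
    [NontriviallyNormedField E] [NormedAlgebra F E] [StarRing E] [QExt F E] :
    Continuous (fun x : E => star x) := by
  haveI : FiniteDimensional F E := qext_findim F E
  let s : E →ₗ[F] E :=
    { toFun := fun x => star x
      map_add' := fun x y => star_add x y
      map_smul' := fun a x => by
        rw [Algebra.smul_def, star_mul', QExt.star_alg, RingHom.id_apply, Algebra.smul_def] }
  exact s.continuous_of_finiteDimensional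

section Weyl

variable {F E : Type u} [NontriviallyNormedField F] [IsUltrametricDist F] [ProperSpace F]
  [CharP F 2] [NontriviallyNormedField E] [NormedAlgebra F E] [ProperSpace E] [StarRing E]
  [QExt F E]
variable {V : Type*} [AddCommGroup V] [Module E V] [Module.Finite E V] [TopologicalSpace V]
  [IsTopologicalAddGroup V] [T2Space V] [ContinuousSMul E V]

variable (B : SkewH E V)

theorem continuous_ip_left (w : V) : Continuous (fun v => B.ip v w) :=
  (B.lin w).continuous_of_finiteDimensional

variable (F) in
include F in
theorem continuous_ip_right (v : V) : Continuous (fun w => B.ip v w) := by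
  have h : (fun w => B.ip v w) = fun w => - star (B.ip w v) := by
    funext w
    exact B.skew w v
  rw [h]
  exact ((continuous_star_E F E).comp (continuous_ip_left B v)).neg

theorem continuous_om_right (v : V) : Continuous (fun w => om F B v w) :=
  (continuous_trace F E).comp (continuous_ip_right F B v)

theorem continuous_om_left (w : V) : Continuous (fun v => om F B v w) :=
  (continuous_trace F E).comp (continuous_ip_left B w)

variable [Dl E]

theorem continuous_bt_right (v : V) : Continuous (fun w => bt F B v w) :=
  (continuous_trace F E).comp (continuous_const.mul (continuous_ip_right F B v))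

theorem continuous_bt_left (w : V) : Continuous (fun v => bt F B v w) :=
  (continuous_trace F E).comp (continuous_const.mul (continuous_ip_left B w))

variable (p : PChar F)

/-- `L_x f (v) = ψ(bt(x, v - x)) f(v - x)` -/
def Lop (x : V) : SF V ℂ →ₗ[ℂ] SF V ℂ :=
  (SF.mulc (fun v => p.ψ (bt F B x (v - x)))
    (p.lc.comp_continuous ((continuous_bt_right B x).comp (continuous_id.sub continuous_const)))).comp
    (SF.comp (Homeomorph.subRight x))

/-- `R_x f (v) = ψ(bt(v - x, x)) f(v - x)` -/
def Rop (x : V) : SF V ℂ →ₗ[ℂ] SF V ℂ :=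
  (SF.mulc (fun v => p.ψ (bt F B (v - x) x))
    (p.lc.comp_continuous ((continuous_bt_left B x).comp (continuous_id.sub continuous_const)))).comp
    (SF.comp (Homeomorph.subRight x))

end Weyl

section Geo

variable {E V : Type*} [NontriviallyNormedField E] [ProperSpace E] [AddCommGroup V] [Module E V]
  [Module.Finite E V] [TopologicalSpace V] [IsTopologicalAddGroup V] [T2Space V]
  [ContinuousSMul E V]

/-- elements of `GL(V)` as homeomorphisms -/
def gvHomeo (g : GV E V) : V ≃ₜ V where
  toFun := g.1
  invFun := g⁻¹.1
  left_inv v := congrArg (fun f : Module.End E V => f v) g.inv_mul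
  right_inv v := congrArg (fun f : Module.End E V => f v) g.mul_inv
  continuous_toFun := LinearMap.continuous_of_finiteDimensional _
  continuous_invFun := LinearMap.continuous_of_finiteDimensional _

/-- `geo(h) f = f ∘ h⁻¹` -/
def geo (h : GV E V) : SF V ℂ →ₗ[ℂ] SF V ℂ := SF.comp (gvHomeo h⁻¹)

end Geo

section Wall

variable {E V : Type*} [Field E] [StarRing E] [AddCommGroup V] [Module E V] (B : SkewH E V)

/-- `b` is a basis of `R_h = (h - 1) V` -/
def IsRBasis (h : GV E V) {r : ℕ} (b : Fin r → V) : Prop :=
  LinearIndependent E b ∧ Submodule.span E (Set.range b) = LinearMap.range (h.1 - 1)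

/-- the Wall form `W_h(x, y) = ⟨a, y⟩` with `(h - 1) a = x`, for `x, y ∈ R_h` -/
def wall (h : GV E V) (x y : V) : E := by
  classical exact if hx : ∃ a, h.1 a - a = x then B.ip hx.choose y else 0

/-- the Gram matrix of the Wall form -/
def wallM (h : GV E V) {r : ℕ} (b : Fin r → V) : Matrix (Fin r) (Fin r) E :=
  fun i j => wall B h (b i) (b j)

end Wall

section Weil

open MeasureTheory

variable {F E : Type u} [NontriviallyNormedField F] [IsUltrametricDist F] [ProperSpace F]
  [CharP F 2] [NontriviallyNormedField E] [NormedAlgebra F E] [ProperSpace E] [StarRing E]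
  [QExt F E] [Dl E] [MeasurableSpace E] [BorelSpace E]
variable {V : Type*} [AddCommGroup V] [Module E V] [Module.Finite E V] [TopologicalSpace V]
  [IsTopologicalAddGroup V] [T2Space V] [ContinuousSMul E V]

/-- a Weil representation on the Weyl algebra, acting by left multiplication by
`ω(h) = A^r μ(det W_h) ∫_{R_h} ψ(Tr (star d * W_h(x,x))) ρ(x) dx`; the measure on `R_h ≅ E^r` is the product
of a fixed Haar measure on `E`. -/
structure WeilRep (B : SkewH E V) (p : PChar F) where
  l : UU B →* Module.End ℂ (SF V ℂ)
  A : ℂ
  A0 : A ≠ 0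
  A4 : ∃ c : ℝ, 0 < c ∧ A ^ 4 = c
  μ : Eˣ →* ℂˣ
  μ_norm : ∀ c : Fˣ, IsNorm F E (c : F) → ∃ r : ℝ, 0 < r ∧
    ((μ (Units.map (algebraMap F E).toMonoidHom c) : ℂˣ) : ℂ) = r
  μ_non : ∀ c : Fˣ, ¬ IsNorm F E (c : F) → ∃ r : ℝ, 0 < r ∧
    ((μ (Units.map (algebraMap F E).toMonoidHom c) : ℂˣ) : ℂ) = -r
  μ_lc : IsLocallyConstant (fun x : Eˣ => ((μ x : ℂˣ) : ℂ))
  smooth : ∀ f : SF V ℂ, ∃ U : Set (Module.End E V), IsOpen U ∧ (1 : Module.End E V) ∈ U ∧
    ∀ h : UU B, h.1.1 ∈ U → l h f = f
  L_comm : ∀ (h : UU B) (x : V), l h ∘ₗ Lop B p x = Lop B p (h.1.1 x) ∘ₗ l h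
  R_comm : ∀ (h : UU B) (x : V), l h ∘ₗ Rop B p x = Rop B p x ∘ₗ l h
  formula : ∀ (h : UU B) (r : ℕ) (b : Fin r → V), IsRBasis h.1 b →
    ∃ d : Eˣ, (d : E) = (wallM B h.1 b).det ∧ ∀ (f : SF V ℂ) (v : V),
      l h f v = A ^ r * ((μ d : ℂˣ) : ℂ) *
        ∫ x : Fin r → E, p.ψ (Algebra.trace F E (star Dl.d *
            (∑ i, ∑ j, x i * star (x j) * wall B h.1 (b i) (b j)))) *
          Lop B p (∑ i, x i • b i) f v ∂(Measure.pi fun _ => (Measure.addHaar : Measure E))

end Weil

/-! ## the topological ring `End_E(V)` -/

section EndTop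

variable {E V : Type*} [NontriviallyNormedField E] [ProperSpace E] [AddCommGroup V] [Module E V]
  [Module.Finite E V] [TopologicalSpace V] [IsTopologicalAddGroup V] [T2Space V]
  [ContinuousSMul E V]

theorem continuous_end_apply (v : V) : Continuous (fun f : Module.End E V => f v) :=
  (continuous_apply v).comp continuous_induced_dom

/-- joint continuity of the evaluation `End(V) × V → V` -/
theorem continuous_end_eval : Continuous (fun q : Module.End E V × V => q.1 q.2) := by
  classical
  let b := Module.finBasis E V
  have h : (fun q : Module.End E V × V => q.1 q.2) =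
      fun q => ∑ i, b.repr q.2 i • q.1 (b i) := by
    funext q
    conv_lhs => rw [← b.sum_repr q.2]
    rw [map_sum]
    simp only [map_smul]
  rw [h]
  refine continuous_finsetSum _ fun i _ => ?_
  refine Continuous.smul ?_ ((continuous_end_apply (b i)).comp continuous_fst)
  have h2 : Continuous (fun v : V => b.repr v i) := by
    have : (fun v : V => b.repr v i) = fun v => (b.coord i) v := rfl
    rw [this]
    exact (b.coord i).continuous_of_finiteDimensional
  exact h2.comp continuous_snd

instance endContinuousMul : ContinuousMul (Module.End E V) where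
  continuous_mul := by
    refine continuous_induced_rng.mpr (continuous_pi fun v => ?_)
    show Continuous (fun q : Module.End E V × Module.End E V => q.1 (q.2 v))
    exact continuous_end_eval.comp (continuous_fst.prodMk
      ((continuous_end_apply v).comp continuous_snd))

instance endTopAddGroup : IsTopologicalAddGroup (Module.End E V) where
  continuous_add := by
    refine continuous_induced_rng.mpr (continuous_pi fun v => ?_)
    show Continuous (fun q : Module.End E V × Module.End E V => q.1 v + q.2 v)
    exact ((continuous_end_apply v).comp continuous_fst).add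
      ((continuous_end_apply v).comp continuous_snd)
  continuous_neg := by
    refine continuous_induced_rng.mpr (continuous_pi fun v => ?_)
    show Continuous (fun q : Module.End E V => - q v)
    exact (continuous_end_apply v).neg

end EndTop

/-! ## the group-level statement -/

section GroupLevel

variable {F E : Type u} [NontriviallyNormedField F] [IsUltrametricDist F] [ProperSpace F]
  [CharP F 2] [NontriviallyNormedField E] [NormedAlgebra F E] [ProperSpace E] [StarRing E]
  [QExt F E]
variable {V : Type*} [AddCommGroup V] [Module E V] [Module.Finite E V] [TopologicalSpace V]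
  [IsTopologicalAddGroup V] [T2Space V] [ContinuousSMul E V]

/-- `g ↦ a⁻¹ g b` as a homeomorphism of `GL(V)` -/
def lrHomeo (a b : GV E V) : GV E V ≃ₜ GV E V :=
  (Homeomorph.mulLeft a⁻¹).trans (Homeomorph.mulRight b)

/-- expansion in the dual basis -/
theorem exists_dual (B : SkewH E V) : ∃ c : Fin (Module.finrank E V) → V, ∀ u : V,
    u = ∑ j, star (B.ip (Module.finBasis E V j) u) • c j := by
  classical
  let b := Module.finBasis E V
  choose c hc using fun j => exists_repr B (b.coord j)
  refine ⟨c, fun u => ?_⟩
  apply ip_ext B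
  intro v
  have h1 : ∀ (s : Finset (Fin (Module.finrank E V))) (g : Fin (Module.finrank E V) → V),
      B.ip v (∑ j ∈ s, g j) = ∑ j ∈ s, B.ip v (g j) := by
    intro s g
    induction s using Finset.induction_on with
    | empty =>
      have := B.smul_right 0 v 0
      simp only [Finset.sum_empty]
      rw [zero_smul] at this
      rw [this]
      simp
    | insert a s ha ih => rw [Finset.sum_insert ha, Finset.sum_insert ha, B.add_right, ih]
  rw [h1]
  have h2 : B.ip v u = ∑ j, b.repr v j * B.ip (b j) u := by
    have h3 : B.lin u v = ∑ j, b.repr v j • B.lin u (b j) := by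
      conv_lhs => rw [← b.sum_repr v]
      rw [map_sum]
      simp only [map_smul]
    exact h3
  rw [h2]
  refine Finset.sum_congr rfl fun j _ => ?_
  rw [B.smul_right, star_star, ← hc j v, mul_comm]
  rfl

variable (F) in
include F in
theorem continuous_adj (B : SkewH E V) : Continuous (fun g : Module.End E V => adj B g) := by
  obtain ⟨c, hc⟩ := exists_dual B
  refine continuous_induced_rng.mpr (continuous_pi fun w => ?_)
  show Continuous (fun g : Module.End E V => adj B g w)
  have h : (fun g : Module.End E V => adj B g w) =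
      fun g => ∑ j, star (B.ip (g (Module.finBasis E V j)) w) • c j := by
    funext g
    rw [hc (adj B g w)]
    refine Finset.sum_congr rfl fun j _ => ?_
    rw [← adj_spec]
  rw [h]
  refine continuous_finsetSum _ fun j _ => ?_
  exact ((continuous_star_E F E).comp ((continuous_ip_left B w).comp
    (continuous_end_apply _))).smul continuous_const

variable (F) in
include F in
theorem continuous_tau {B : SkewH E V} (τ : AntiU B) : Continuous τ.t := by
  classical
  let b := Module.finBasis E V
  have h0 : τ.t 0 = 0 := by
    have := τ.smul 0 0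
    rw [zero_smul, star_zero, zero_smul] at this
    exact this
  have h1 : ∀ (s : Finset (Fin (Module.finrank E V))) (g : Fin (Module.finrank E V) → V),
      τ.t (∑ j ∈ s, g j) = ∑ j ∈ s, τ.t (g j) := by
    intro s g
    induction s using Finset.induction_on with
    | empty => simpa using h0
    | insert a s ha ih => rw [Finset.sum_insert ha, Finset.sum_insert ha, τ.add, ih]
  have h : τ.t = fun v => ∑ j, star (b.repr v j) • τ.t (b j) := by
    funext v
    conv_lhs => rw [← b.sum_repr v]
    rw [h1]
    refine Finset.sum_congr rfl fun j _ => ?_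
    rw [τ.smul]
  rw [h]
  refine continuous_finsetSum _ fun j _ => ?_
  have h2 : Continuous (fun v : V => b.repr v j) := by
    have : (fun v : V => b.repr v j) = fun v => (b.coord j) v := rfl
    rw [this]
    exact (b.coord j).continuous_of_finiteDimensional
  exact ((continuous_star_E F E).comp h2).smul continuous_const

variable (F) in
/-- `v ↦ - τ v` -/
def negτ {B : SkewH E V} (τ : AntiU B) : V ≃ₜ V where
  toFun v := - τ.t v
  invFun v := - τ.t v
  left_inv v := by
    have h : τ.t (- τ.t v) = - v := by
      have := τ.smul (-1) (τ.t v)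
      simp only [neg_smul, one_smul, star_neg, star_one, τ.inv] at this
      exact this
    show - τ.t (- τ.t v) = v
    rw [h, neg_neg]
  right_inv v := by
    have h : τ.t (- τ.t v) = - v := by
      have := τ.smul (-1) (τ.t v)
      simp only [neg_smul, one_smul, star_neg, star_one, τ.inv] at this
      exact this
    show - τ.t (- τ.t v) = v
    rw [h, neg_neg]
  continuous_toFun := (continuous_tau F τ).neg
  continuous_invFun := (continuous_tau F τ).neg

theorem ip_adj_right (B : SkewH E V) (X : Module.End E V) (a b : V) :
    B.ip a (X b) = B.ip (adj B X a) b := by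
  rw [B.skew (X b) a, adj_spec, ← B.skew]

theorem adj_conjτ {B : SkewH E V} (τ : AntiU B) (X : Module.End E V) :
    adj B (conjτ τ X) = conjτ τ (adj B X) := by
  symm
  apply adj_unique
  intro v w
  show B.ip (τ.t (X (τ.t v))) w = B.ip v (τ.t (adj B X (τ.t w)))
  have h1 : w = τ.t (τ.t w) := (τ.inv w).symm
  have h2 : v = τ.t (τ.t v) := (τ.inv v).symm
  conv_lhs => rw [h1]
  rw [τ.ip, ip_adj_right]
  conv_rhs => rw [h2]
  rw [τ.ip]

theorem thG_thG {B : SkewH E V} (τ : AntiU B) (g : GV E V) : thG τ (thG τ g) = g := by
  apply Units.ext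
  show conjτ τ (adj B (conjτ τ (adj B g.1))) = g.1
  rw [adj_conjτ, conjτ_conjτ, adj_adj]

variable (F) in
include F in
theorem continuous_conjτ {B : SkewH E V} (τ : AntiU B) :
    Continuous (fun X : Module.End E V => conjτ τ X) := by
  refine continuous_induced_rng.mpr (continuous_pi fun v => ?_)
  show Continuous (fun X : Module.End E V => τ.t (X (τ.t v)))
  exact (continuous_tau F τ).comp (continuous_end_apply _)

variable (F) in
include F in
theorem continuous_thG {B : SkewH E V} (τ : AntiU B) : Continuous (thG τ) := by
  rw [Units.continuous_iff]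
  constructor
  · exact (continuous_conjτ F τ).comp ((continuous_adj F B).comp Units.continuous_val)
  · exact (continuous_conjτ F τ).comp ((continuous_adj F B).comp
      (Units.continuous_val.comp continuous_inv))

variable (F) in
/-- `θ` as a homeomorphism -/
def thHomeo {B : SkewH E V} (τ : AntiU B) : GV E V ≃ₜ GV E V where
  toFun := thG τ
  invFun := thG τ
  left_inv := thG_thG τ
  right_inv := thG_thG τ
  continuous_toFun := continuous_thG F τ
  continuous_invFun := continuous_thG F τ

variable (F) in
/-- `(Θ F)(g) = F(θ(g))^t` -/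
def Theta {B : SkewH E V} (τ : AntiU B) :
    SF (GV E V) (SF V ℂ) →ₗ[ℂ] SF (GV E V) (SF V ℂ) :=
  (SF.map (SF.comp (negτ F τ))) ∘ₗ (SF.comp (thHomeo F τ))

end GroupLevel

section GroupAct

variable {F E : Type u} [NontriviallyNormedField F] [IsUltrametricDist F] [ProperSpace F]
  [CharP F 2] [NontriviallyNormedField E] [NormedAlgebra F E] [ProperSpace E] [StarRing E]
  [QExt F E] [Dl E] [MeasurableSpace E] [BorelSpace E]
variable {V : Type*} [AddCommGroup V] [Module E V] [Module.Finite E V] [TopologicalSpace V]
  [IsTopologicalAddGroup V] [T2Space V] [ContinuousSMul E V]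

/-- right multiplication by `ω(h)⁻¹`: `r(h) = l(h)⁻¹ geo(h)` -/
def WeilRep.r {B : SkewH E V} {p : PChar F} (W : WeilRep B p) (h : UU B) :
    SF V ℂ →ₗ[ℂ] SF V ℂ := W.l h⁻¹ ∘ₗ geo h.1

/-- the action of `(h₁, h₂)` on functions `GL(V) → SF V`:
`F ↦ (g ↦ ω(h₁) F(h₁⁻¹ g h₂) ω(h₂)⁻¹)` -/
def WeilRep.act {B : SkewH E V} {p : PChar F} (W : WeilRep B p) (h₁ h₂ : UU B) :
    SF (GV E V) (SF V ℂ) →ₗ[ℂ] SF (GV E V) (SF V ℂ) :=
  (SF.map (W.l h₁ ∘ₗ W.r h₂)) ∘ₗ (SF.comp (lrHomeo h₁.1 h₂.1))

end GroupAct


end

end Pool.Agent.Work.MP_dd0ddf_al.C2
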