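import Pool.Agent.Work.MP_dd0ddf_al.C2.DescDefs

/-!
# MP_dd0ddf_al, module DescIdx: generalised index of compact open subgroups

`gidx A B = [A : A ⊓ B] / [B : A ⊓ B]` (real number), for subgroups `A, B` of a group such that `A ⊓ B` has finite index in both
(commensurable).  Mathlib: `B.relIndex A` is the index of `A ⊓ B` in `A`.
`gidx_mul`: cocycle property `gidx A B * gidx B C = gidx A C`; take `N = A ⊓ B ⊓ C`, of finite index in all three; for `N ≤ A ⊓ B`:
`gidx A B = [A : N] / [B : N]` (multiplicativity of the index, `Subgroup.relIndex_mul_relIndex`).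
Compact open subgroups of a topological group are commensurable (the compact group A is covered by finitely many cosets
of the open subgroup A ⊓ B).  The same holds for their intersections with a closed subgroup `S`.
-/

set_option linter.unusedSectionVars false
set_option linter.style.haveILetI false

namespace Pool.Agent.Work.MP_dd0ddf_al.C2

noncomputable section

/-- generalised index -/
def gidx {Γ : Type*} [Group Γ] (A B : Subgroup Γ) : ℝ := (B.relIndex A : ℝ) / (A.relIndex B : ℝ)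

/-- `A ⊓ B` has finite index in `A` and in `B` -/
def Comm' {Γ : Type*} [Group Γ] (A B : Subgroup Γ) : Prop := B.relIndex A ≠ 0 ∧ A.relIndex B ≠ 0

theorem gidx_pos {Γ : Type*} [Group Γ] {A B : Subgroup Γ} (h : Comm' A B) : 0 < gidx A B :=
  div_pos (Nat.cast_pos.2 (Nat.pos_of_ne_zero h.1)) (Nat.cast_pos.2 (Nat.pos_of_ne_zero h.2))

theorem gidx_self {Γ : Type*} [Group Γ] (A : Subgroup Γ) : gidx A A = 1 := by
  unfold gidx
  rw [Subgroup.relIndex_self]
  norm_num

theorem gidx_of_le {Γ : Type*} [Group Γ] {A B : Subgroup Γ} (h : B ≤ A) :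
    gidx A B = (B.relIndex A : ℝ) := by
  unfold gidx
  rw [Subgroup.relIndex_eq_one.2 h]
  norm_num

theorem comm'_trans {Γ : Type*} [Group Γ] {A B C : Subgroup Γ} (h : Comm' A B) (h' : Comm' B C) :
    Comm' A C :=
  ⟨Subgroup.relIndex_ne_zero_trans h'.1 h.1, Subgroup.relIndex_ne_zero_trans h.2 h'.2⟩

private theorem descidx_aux {Γ : Type*} [Group Γ] {A B N : Subgroup Γ} (h : Comm' A B)
    (hA : N ≤ A) (hB : N ≤ B) (hN : N.relIndex A ≠ 0) :
    gidx A B = (N.relIndex A : ℝ) / (N.relIndex B : ℝ) := by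
  have e1 : N.relIndex (A ⊓ B) * B.relIndex A = N.relIndex A := by
    rw [← Subgroup.inf_relIndex_left A B]
    exact Subgroup.relIndex_mul_relIndex _ _ _ (le_inf hA hB) inf_le_left
  have e2 : N.relIndex (A ⊓ B) * A.relIndex B = N.relIndex B := by
    rw [← Subgroup.inf_relIndex_right A B]
    exact Subgroup.relIndex_mul_relIndex _ _ _ (le_inf hA hB) inf_le_right
  have h0 : N.relIndex (A ⊓ B) ≠ 0 := by
    intro h0
    rw [h0, zero_mul] at e1
    exact hN e1.symm
  have h0' : (N.relIndex (A ⊓ B) : ℝ) ≠ 0 := Nat.cast_ne_zero.2 h0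
  have h2 : (A.relIndex B : ℝ) ≠ 0 := Nat.cast_ne_zero.2 h.2
  unfold gidx
  rw [← e1, ← e2]
  push_cast
  field_simp

theorem gidx_mul {Γ : Type*} [Group Γ] {A B C : Subgroup Γ} (h : Comm' A B) (h' : Comm' B C) :
    gidx A B * gidx B C = gidx A C := by
  have h'' := comm'_trans h h'
  have hA : (A ⊓ B ⊓ C).relIndex A ≠ 0 :=
    Subgroup.relIndex_inf_ne_zero (Subgroup.relIndex_inf_ne_zero
      (by rw [Subgroup.relIndex_self]; exact one_ne_zero) h.1) h''.1
  have hB : (A ⊓ B ⊓ C).relIndex B ≠ 0 :=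
    Subgroup.relIndex_inf_ne_zero (Subgroup.relIndex_inf_ne_zero h.2
      (by rw [Subgroup.relIndex_self]; exact one_ne_zero)) h'.1
  have hC : (A ⊓ B ⊓ C).relIndex C ≠ 0 :=
    Subgroup.relIndex_inf_ne_zero (Subgroup.relIndex_inf_ne_zero h''.2 h'.2)
      (by rw [Subgroup.relIndex_self]; exact one_ne_zero)
  have lA : A ⊓ B ⊓ C ≤ A := inf_le_left.trans inf_le_left
  have lB : A ⊓ B ⊓ C ≤ B := inf_le_left.trans inf_le_right
  have lC : A ⊓ B ⊓ C ≤ C := inf_le_right
  rw [descidx_aux h lA lB hA, descidx_aux h' lB lC hB, descidx_aux h'' lA lC hA]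
  have n1 : ((A ⊓ B ⊓ C).relIndex B : ℝ) ≠ 0 := Nat.cast_ne_zero.2 hB
  have n2 : ((A ⊓ B ⊓ C).relIndex C : ℝ) ≠ 0 := Nat.cast_ne_zero.2 hC
  field_simp

theorem gidx_map {Γ : Type*} [Group Γ] (φ : Γ ≃* Γ) (A B : Subgroup Γ) :
    gidx (A.map φ.toMonoidHom) (B.map φ.toMonoidHom) = gidx A B := by
  unfold gidx
  rw [Subgroup.relIndex_map_map_of_injective _ _ φ.injective,
    Subgroup.relIndex_map_map_of_injective _ _ φ.injective]

theorem comm'_map {Γ : Type*} [Group Γ] (φ : Γ ≃* Γ) {A B : Subgroup Γ} (h : Comm' A B) :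
    Comm' (A.map φ.toMonoidHom) (B.map φ.toMonoidHom) := by
  unfold Comm'
  rw [Subgroup.relIndex_map_map_of_injective _ _ φ.injective,
    Subgroup.relIndex_map_map_of_injective _ _ φ.injective]
  exact h

theorem comm'_of_co {Γ : Type*} [Group Γ] [TopologicalSpace Γ] [IsTopologicalGroup Γ]
    {A B : Subgroup Γ} (hA : DescData.CO A) (hB : DescData.CO B) : Comm' A B := by
  have key : ∀ {A B : Subgroup Γ}, DescData.CO A → DescData.CO B → B.relIndex A ≠ 0 := by
    intro A B hA hB
    haveI : CompactSpace A := isCompact_iff_compactSpace.1 hA.2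
    have hop : IsOpen ((B.subgroupOf A : Subgroup A) : Set A) :=
      hB.1.preimage continuous_subtype_val
    haveI : Finite (A ⧸ B.subgroupOf A) := Subgroup.quotient_finite_of_isOpen _ hop
    exact Subgroup.index_ne_zero_of_finite
  exact ⟨key hA hB, key hB hA⟩

theorem comm'_inf {Γ : Type*} [Group Γ] {A B : Subgroup Γ} (S : Subgroup Γ) (h : Comm' A B) :
    Comm' (A ⊓ S) (B ⊓ S) :=
  ⟨Subgroup.relIndex_inter_ne_zero h.1 S, Subgroup.relIndex_inter_ne_zero h.2 S⟩

end

end Pool.Agent.Work.MP_dd0ddf_al.C2
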