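import Pool.Agent.Work.MP_dd0ddf_al.C2.DescIdx
import Pool.Agent.Work.MP_dd0ddf_al.C2.DescEx

/-!
# MP_dd0ddf_al, module DescNorm: comparison of E_U f and E_N f for N normal in U

Let `S = D.stab`.  `N` is normalised by `U` so `K = N (U ⊓ S)` is a subgroup of `U`; let `u_1, ..., u_r` be representatives of `U/K`
(finite, `K` is open in the compact group `U`).  `U o` is the disjoint union of the sets `u_i N o`
(`u_i N o ∩ u_j N o ≠ ∅` implies `u_j⁻¹ u_i ∈ N S`, using that N is normalised by U), and `E_U f = ∑ u_i · E_N f`, because on `u_i N Fib`: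
`(u_i · E_N f)(u_i n x) = β(u_i) (E_N f)(n x) = β(u_i n) f(x) = (E_U f)(u_i n x)`.
By invariance `T (E_U f) = r T (E_N f)`.  And `r = [U : N (U ⊓ S)] = [U : N] / [N (U ⊓ S) : N] = [U : N] / [U ⊓ S : N ⊓ S]`.
-/

set_option linter.unusedSectionVars false
set_option linter.style.haveILetI false

namespace Pool.Agent.Work.MP_dd0ddf_al.C2

noncomputable section

variable {Γ X O B : Type*} [Group Γ] [TopologicalSpace Γ] [IsTopologicalGroup Γ]
  [LocallyCompactSpace Γ] [T2Space Γ] [TotallyDisconnectedSpace Γ] [SigmaCompactSpace Γ]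
  [TopologicalSpace X] [T2Space X] [LocallyCompactSpace X] [TotallyDisconnectedSpace X]
  [TopologicalSpace O] [T2Space O] [AddCommGroup B] [Module ℂ B]

private theorem descnorm_index (S U N : Subgroup Γ) (hU : DescData.CO U)
    (hN : DescData.CO N) (hNU : N ≤ U) [(N.subgroupOf U).Normal] :
    gidx U N / gidx (U ⊓ S) (N ⊓ S) = ((N.subgroupOf U ⊔ S.subgroupOf U).index : ℝ) := by
  have hc := comm'_of_co hU hN
  have e1 : gidx U N = (N.relIndex U : ℝ) := gidx_of_le hNU
  have e2 : gidx (U ⊓ S) (N ⊓ S) = (N.relIndex (S ⊓ U) : ℝ) := by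
    rw [gidx_of_le (inf_le_inf_right S hNU)]
    congr 1
    rw [← Subgroup.inf_relIndex_right (N ⊓ S), ← Subgroup.inf_relIndex_right N, inf_comm S U]
    congr 1
    apply le_antisymm
    · exact le_inf (inf_le_left.trans inf_le_left) inf_le_right
    · exact le_inf (le_inf inf_le_left (inf_le_right.trans inf_le_right)) inf_le_right
  have e3 : (N.subgroupOf U).relIndex (N.subgroupOf U ⊔ S.subgroupOf U) = N.relIndex (S ⊓ U) := by
    rw [Subgroup.relIndex_sup_left, ← Subgroup.inf_subgroupOf_right S U]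
    exact Subgroup.relIndex_subgroupOf inf_le_right
  have e4 := Subgroup.relIndex_mul_index
    (le_sup_left : N.subgroupOf U ≤ N.subgroupOf U ⊔ S.subgroupOf U)
  rw [e3] at e4
  have e5 : (N.subgroupOf U).index = N.relIndex U := rfl
  rw [e5] at e4
  have h0 : N.relIndex (S ⊓ U) ≠ 0 := by
    intro h0
    rw [h0, zero_mul] at e4
    exact hc.1 e4.symm
  have h0' : (N.relIndex (S ⊓ U) : ℝ) ≠ 0 := Nat.cast_ne_zero.2 h0
  rw [e1, e2, ← e4]
  push_cast
  field_simp

private theorem descnorm_mem (D : DescData Γ X O B) {u : Γ} {x : X} (h : D.C.act u D.o = D.π x) :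
    D.π (D.A.act u⁻¹ x) = D.o := by
  rw [D.eqv, ← h, D.C.inv_act]

open scoped Pointwise in
private theorem descnorm_sum (D : DescData Γ X O B) (f : SF D.Fib B) (U N : Subgroup Γ)
    (hNU : N ≤ U) [(N.subgroupOf U).Normal]
    [Fintype (U ⧸ (N.subgroupOf U ⊔ D.stab.subgroupOf U))]
    {F F' : SF X B} (h : D.IsEU U f F) (h' : D.IsEU N f F') :
    F = ∑ q : U ⧸ (N.subgroupOf U ⊔ D.stab.subgroupOf U), D.A.op D.R (q.out : U).1 F' := by
  classical
  apply SF.ext
  intro x
  have hev : (∑ q : U ⧸ (N.subgroupOf U ⊔ D.stab.subgroupOf U), D.A.op D.R (q.out : U).1 F').1 x =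
      ∑ q : U ⧸ (N.subgroupOf U ⊔ D.stab.subgroupOf U),
        D.R.β (q.out : U).1 (F' (D.A.act (q.out : U).1⁻¹ x)) := by
    rw [Submodule.coe_sum, Finset.sum_apply]
    rfl
  rw [hev]
  by_cases hex : ∃ u ∈ U, D.C.act u D.o = D.π x
  · obtain ⟨u, hu, hux⟩ := hex
    rw [Finset.sum_eq_single (QuotientGroup.mk (⟨u, hu⟩ : U))]
    · set w : U := (QuotientGroup.mk (⟨u, hu⟩ : U) :
        U ⧸ (N.subgroupOf U ⊔ D.stab.subgroupOf U)).out with hw
      have hk : w⁻¹ * ⟨u, hu⟩ ∈ N.subgroupOf U ⊔ D.stab.subgroupOf U := by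
        rw [← QuotientGroup.eq, hw, QuotientGroup.out_eq']
      have hk' : w⁻¹ * ⟨u, hu⟩ ∈ ((N.subgroupOf U : Subgroup U) : Set U) *
          ((D.stab.subgroupOf U : Subgroup U) : Set U) := by
        rw [← Subgroup.normal_mul]
        exact hk
      obtain ⟨n, hn, s, hs, hns⟩ := Set.mem_mul.1 hk'
      have hn' : n.1 ∈ N := hn
      have hs' : s.1 ∈ D.stab := hs
      have hu' : u = w.1 * (n.1 * s.1) := by
        have : (n * s : U) = w⁻¹ * ⟨u, hu⟩ := hns
        have h2 : w * (n * s) = ⟨u, hu⟩ := by rw [this]; group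
        exact (congrArg Subtype.val h2).symm
      set y : D.Fib := ⟨D.A.act u⁻¹ x, descnorm_mem D hux⟩ with hy
      set z : D.Fib := D.fibAct.act ⟨s.1, hs'⟩ y with hz
      have hxz : x = D.A.act (w.1 * n.1) z.1 := by
        show x = D.A.act (w.1 * n.1) (D.A.act s.1 (D.A.act u⁻¹ x))
        rw [← D.A.mul, ← D.A.mul]
        have : w.1 * n.1 * s.1 * u⁻¹ = 1 := by
          rw [mul_assoc w.1 n.1 s.1, ← hu', mul_inv_cancel]
        rw [this, D.A.one]
      have e1 : F x = D.R.β (w.1 * n.1) (f z) := by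
        conv_lhs => rw [hxz]
        exact h.1 _ (U.mul_mem w.2 n.2) z
      have e2 : D.A.act w.1⁻¹ x = D.A.act n.1 z.1 := by
        conv_lhs => rw [hxz]
        rw [D.A.mul, D.A.inv_act]
      rw [e1, e2, h'.1 n.1 hn' z, map_mul]
      rfl
    · intro q _ hq
      have h0 : F' (D.A.act (q.out : U).1⁻¹ x) = 0 := by
        apply h'.2
        intro n hn hno
        apply hq
        have hno' : D.C.act (n⁻¹ * ((q.out : U).1⁻¹ * u)) D.o = D.o := by
          rw [D.eqv, ← hux] at hno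
          rw [D.C.mul, D.C.mul, ← hno, D.C.inv_act]
        rw [← QuotientGroup.out_eq' q, QuotientGroup.eq]
        have hmem : (q.out : U)⁻¹ * ⟨u, hu⟩ ∈ ((N.subgroupOf U : Subgroup U) : Set U) *
            ((D.stab.subgroupOf U : Subgroup U) : Set U) := by
          refine Set.mem_mul.2 ⟨⟨n, hNU hn⟩, hn,
            (⟨n, hNU hn⟩ : U)⁻¹ * ((q.out : U)⁻¹ * ⟨u, hu⟩), hno', ?_⟩
          group
        rw [← Subgroup.normal_mul] at hmem
        exact hmem
      rw [h0, map_zero]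
    · intro hq
      exact absurd (Finset.mem_univ _) hq
  · have h0 : ∀ u ∈ U, D.C.act u D.o ≠ D.π x := fun u hu h1 => hex ⟨u, hu, h1⟩
    rw [h.2 x h0]
    symm
    refine Finset.sum_eq_zero fun q _ => ?_
    have h1 : F' (D.A.act (q.out : U).1⁻¹ x) = 0 := by
      apply h'.2
      intro n hn hno
      apply h0 ((q.out : U).1 * n) (U.mul_mem (q.out : U).2 (hNU hn))
      rw [D.C.mul, hno, D.eqv, D.C.act_inv]
    rw [h1, map_zero]

theorem eu_norm (D : DescData Γ X O B) (f : SF D.Fib B) (U N : Subgroup Γ) (hU : DescData.CO U)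
    (hN : DescData.CO N) (hNU : N ≤ U) (hn : ∀ u ∈ U, ∀ n ∈ N, u * n * u⁻¹ ∈ N)
    {F F' : SF X B} (h : D.IsEU U f F) (h' : D.IsEU N f F')
    (T : SF X B →ₗ[ℂ] ℂ) (hT : ∀ γ f, T (D.A.op D.R γ f) = T f) :
    T F = ((gidx U N / gidx (U ⊓ D.stab) (N ⊓ D.stab) : ℝ) : ℂ) * T F' := by
  classical
  haveI hnorm : (N.subgroupOf U).Normal := ⟨fun n hn' g => by
    rw [Subgroup.mem_subgroupOf] at hn' ⊢
    simpa using hn g.1 g.2 n.1 hn'⟩
  haveI : CompactSpace U := isCompact_iff_compactSpace.1 hU.2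
  have hNo : IsOpen ((N.subgroupOf U : Subgroup U) : Set U) :=
    hN.1.preimage continuous_subtype_val
  have hKo : IsOpen ((N.subgroupOf U ⊔ D.stab.subgroupOf U : Subgroup U) : Set U) :=
    Subgroup.isOpen_mono le_sup_left hNo
  haveI : Finite (U ⧸ (N.subgroupOf U ⊔ D.stab.subgroupOf U)) :=
    Subgroup.quotient_finite_of_isOpen _ hKo
  haveI : Fintype (U ⧸ (N.subgroupOf U ⊔ D.stab.subgroupOf U)) := Fintype.ofFinite _
  rw [descnorm_index D.stab U N hU hN hNU, descnorm_sum D f U N hNU h h', map_sum]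
  simp only [hT]
  rw [Finset.sum_const, Finset.card_univ, nsmul_eq_mul, Subgroup.index_eq_card,
    Nat.card_eq_fintype_card]
  push_cast
  rfl

end

end Pool.Agent.Work.MP_dd0ddf_al.C2
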