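import Pool.Agent.Work.MP_dd0ddf_al.C2.XData

/-!
# MP_dd0ddf_al (characteristic 2), module DownA: descent along fibration B

`descent` (DescThm) for `xB W q1 q2 hq2 hirr2 g₀` (instances lc_XS, td_XS, lc_YS, lc_UU, td_UU) gives S, δ and the symmetry clause; for `s` with `s.sX = xThk τ k`, `s.sB = tneg ∘ r k⁻¹`:
`SF.opr s.sX s.sB f = SF.opr (xTh τ) (tneg τ) ((xC ..).op (wRep W) (1, k⁻¹) f)` (both sides at x are `tneg (r k⁻¹ (f ((1,k) Θ x)))`; `W.l 1 = id`), so `T (opr s.sX s.sB f) = -a T f`, ε = -a; the constant is a * c.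
-/

set_option linter.unusedSectionVars false
set_option linter.style.haveILetI false

namespace Pool.Agent.Work.MP_dd0ddf_al.C2

noncomputable section

universe u

variable {F E : Type u} [NontriviallyNormedField F] [IsUltrametricDist F] [ProperSpace F]
  [CharP F 2] [NontriviallyNormedField E] [NormedAlgebra F E] [ProperSpace E] [StarRing E]
  [QExt F E] [Dl E] [MeasurableSpace E] [BorelSpace E]
variable {V : Type u} [AddCommGroup V] [Module E V] [Module.Finite E V] [TopologicalSpace V]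
  [IsTopologicalAddGroup V] [T2Space V] [ContinuousSMul E V]

theorem f_downA {B : SkewH E V} {p : PChar F} (W : WeilRep B p) (q1 q2 : Polynomial F)
    (hq2 : q2.Monic) (hirr2 : Irreducible (q2.map (algebraMap F E))) (g₀ : YS B q2)
    (τ : AntiU B) (k : UU B) (T : SF (XS B q1 q2) (SF V ℂ) →ₗ[ℂ] ℂ)
    (hT : ∀ γ f, T ((xC B q1 q2).op (wRep W) γ f) = T f) (a : ℝ) (ha : 0 < a)
    (hT' : ∀ f, T (SF.opr (xTh τ q1 q2) (tneg F τ) f) = -(a : ℂ) * T f) :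
    ∃ S : SF (xB W q1 q2 hq2 hirr2 g₀).Fib (SF V ℂ) →ₗ[ℂ] ℂ, (S = 0 → T = 0) ∧
      (∃ δ : PosChar (xB W q1 q2 hq2 hirr2 g₀).stab, ∀ γ f,
        S ((xB W q1 q2 hq2 hirr2 g₀).fop γ f) = δ.δ γ * S f) ∧
      ∀ s : (xB W q1 q2 hq2 hirr2 g₀).DSym, s.sX = xThk τ k q1 q2 →
        s.sB = tneg F τ ∘ₗ W.r k⁻¹ →
        ∃ b : ℝ, 0 < b ∧ ∀ f, S (SF.opr s.fibHomeo s.sB f) = -(b : ℂ) * S f := by
  haveI := td_GV F E V
  haveI := lc_UU F B
  haveI := td_UU F B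
  haveI := lc_XS B q1 q2
  haveI := td_XS B q1 q2
  obtain ⟨S, hS0, ⟨δ, hδ⟩, hsym⟩ := descent (xB W q1 q2 hq2 hirr2 g₀) T hT
  refine ⟨S, hS0, ⟨δ, hδ⟩, fun s hsX hsB => ?_⟩
  have hε : ∀ f, T (SF.opr s.sX s.sB f) = (-(a : ℂ)) * T f := by
    intro f
    have h1 : SF.opr s.sX s.sB f =
        SF.opr (xTh τ q1 q2) (tneg F τ) ((xC B q1 q2).op (wRep W) (1, k⁻¹) f) := by
      rw [hsX, hsB]
      apply SF.ext
      intro x
      show tneg F τ (W.r k⁻¹ (f ((xC B q1 q2).act (1, k) (xTh τ q1 q2 x)))) =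
        tneg F τ (W.l 1 (W.r k⁻¹ (f ((xC B q1 q2).act (1, k⁻¹)⁻¹ (xTh τ q1 q2 x)))))
      have e1 : ((1, k⁻¹) : UU B × UU B)⁻¹ = (1, k) := by
        apply Prod.ext
        · exact inv_one
        · exact inv_inv k
      have e2 : ∀ f : SF V ℂ, W.l 1 f = f := fun f => by
        rw [map_one]
        rfl
      rw [e1, e2]
    rw [h1, hT', hT]
  obtain ⟨c, hc, h2⟩ := hsym s _ hε
  refine ⟨a * c, mul_pos ha hc, fun f => ?_⟩
  rw [h2 f]
  push_cast
  ring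

end

end Pool.Agent.Work.MP_dd0ddf_al.C2
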