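import Pool.Agent.Work.MP_dd0ddf_al.C2.KDefs

/-!
# MP_dd0ddf_al (characteristic 2), module FNum: the numerical data of case (F) (definition)
-/

set_option linter.unusedSectionVars false
set_option linter.style.haveILetI false

namespace Pool.Agent.Work.MP_dd0ddf_al.C2

noncomputable section

universe u

/-- the polynomial `x^(2^n) - c` -/
def qq {F : Type u} [Field F] (n : ℕ) (c : F) : Polynomial F :=
  Polynomial.X ^ 2 ^ n - Polynomial.C c

theorem qq_monic {F : Type u} [Field F] (n : ℕ) (c : F) : (qq n c).Monic :=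
  Polynomial.monic_X_pow_sub_C c (by positivity)

theorem qq_natDegree {F : Type u} [Field F] (n : ℕ) (c : F) : (qq n c).natDegree = 2 ^ n :=
  Polynomial.natDegree_X_pow_sub_C

/-- the numerical data of case (F): `F0 ⊆ F`, `E0 ⊆ E`, `c^(2^j) = c0 ∈ F0`, `E = E0[c]` -/
structure FNum (F0 E0 F E : Type u) [Field F0] [Field E0] [Algebra F0 E0] [Field F] [Field E]
    [Algebra F E] [Algebra F0 F] [Algebra E0 E] (j k m : ℕ) (c : F) (c0 : F0) : Prop where
  hc : algebraMap F0 F c0 = c ^ 2 ^ j
  hgen : ∀ x : E, ∃ f : Polynomial E0, x = Polynomial.aeval (algebraMap F E c) f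
  irr1 : Irreducible ((qq j c0).map (algebraMap F0 E0))
  irr2 : Irreducible ((qq (j + k) c0).map (algebraMap F0 E0))
  irr : Irreducible ((qq k c).map (algebraMap F E))
  hk : 0 < k
  hm0 : 0 < m
  hm : m ≤ 2 ^ j

end

end Pool.Agent.Work.MP_dd0ddf_al.C2
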