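import Pool.Agent.Work.MP_dd0ddf_al.C2.RelDefs
import Pool.Agent.Work.MP_dd0ddf_al.C2.WrRep
import Pool.Agent.Work.MP_dd0ddf_al.C2.LinDefs

/-!
# MP_dd0ddf_al (characteristic 2), module RelThm: restriction of scalars L → E0 for forms related by FRel

Models with proofs: the private lemmas grpd2_res_inducing, grpd2_pair, grpd2_embedding, grpd2_commute, grpd2_smul, grpd2_range, grpd2_adj of module GrpD2 (there for the functional `tl`; here for a general FRel).
`rel_adj`: adj_unique; `BL.ip (f v) w = BL.ip v (adj BL f w)` and apply T.  `rel_sg`, `rel_thG`: from rel_adj (thG τ g = conjτ τ (adj g), both sides are the same functions).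
`rel_sa`: ←: apply T.  →: `T (BL.ip (X v) w - BL.ip v (X w)) = 0` for all v; replace v by z v (z ∈ L): `T (z * (...)) = 0`, so the difference is 0 by `nd`.  `rel_uu`: the same.
`resE_range`: an E0-linear map commuting with s commutes with `aeval s f` for all f, i.e. with all of L.  `resG_range`: also the inverse commutes.
`resE_closed`: the set is the intersection of the closed sets {X | X (s v) = s X v}.
`rel_r`: W.r h = W.l h⁻¹ ∘ geo h by definition.
-/

set_option linter.unusedSectionVars false
set_option linter.style.haveILetI false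

namespace Pool.Agent.Work.MP_dd0ddf_al.C2

noncomputable section

universe u

section

variable {E0 L V : Type u} [Field E0] [StarRing E0] [Field L] [StarRing L] [Algebra E0 L]
  [AddCommGroup V] [Module E0 V] [Module L V] [IsScalarTower E0 L V] [Module.Finite E0 V]
  [Module.Finite L V]

theorem rel_adj {B0 : SkewH E0 V} {BL : SkewH L V} (R : FRel B0 BL) (f : Module.End L V) :
    adj B0 (f.restrictScalars E0 : Module.End E0 V) = (adj BL f).restrictScalars E0 := by
  symm
  apply adj_unique
  intro v w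
  show B0.ip (f v) w = B0.ip v (adj BL f w)
  rw [← R.ip, ← R.ip, adj_spec]

theorem rel_thG {B0 : SkewH E0 V} {BL : SkewH L V} (R : FRel B0 BL) (τ : AntiU BL)
    (g : GV L V) : thG (R.tau τ) (resG E0 g) = resG E0 (thG τ g) := by
  apply Units.ext
  ext v
  show τ.t (adj B0 (g.1.restrictScalars E0 : Module.End E0 V) (τ.t v)) =
    τ.t (adj BL g.1 (τ.t v))
  rw [rel_adj R]
  rfl

theorem rel_sa {B0 : SkewH E0 V} {BL : SkewH L V} (R : FRel B0 BL) (X : Module.End L V) :
    (X.restrictScalars E0 : Module.End E0 V) ∈ SA B0 ↔ X ∈ SA BL := by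
  constructor
  · intro h v w
    rw [← sub_eq_zero]
    apply R.nd
    intro z
    rw [mul_sub, map_sub, ← BL.smul_left, ← BL.smul_left, R.ip, R.ip, ← map_smul, sub_eq_zero]
    exact h (z • v) w
  · intro h v w
    show B0.ip (X v) w = B0.ip v (X w)
    rw [← R.ip, ← R.ip, h]

theorem rel_uu {B0 : SkewH E0 V} {BL : SkewH L V} (R : FRel B0 BL) (g : GV L V) :
    resG E0 g ∈ UU B0 ↔ g ∈ UU BL := by
  constructor
  · intro h v w
    rw [← sub_eq_zero]
    apply R.nd
    intro z
    rw [mul_sub, map_sub, ← BL.smul_left, ← BL.smul_left, R.ip, R.ip, ← map_smul, sub_eq_zero]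
    exact h (z • v) w
  · intro h v w
    show B0.ip (g.1 v) (g.1 w) = B0.ip v w
    rw [← R.ip, ← R.ip, h]

private theorem relthm_comm (s : L) (X : Module.End E0 V) (h : ∀ v : V, X (s • v) = s • X v)
    (f : Polynomial E0) (v : V) :
    X (Polynomial.aeval s f • v) = Polynomial.aeval s f • X v := by
  have hpow : ∀ (n : ℕ) (v : V), X (s ^ n • v) = s ^ n • X v := by
    intro n
    induction n with
    | zero => intro v; rw [pow_zero, one_smul, one_smul]
    | succ n ih =>
      intro v
      rw [pow_succ, mul_smul, mul_smul, ih, h]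
  induction f using Polynomial.induction_on' with
  | add f g hf hg => rw [map_add, add_smul, map_add, hf, hg, add_smul]
  | monomial n b =>
    rw [Polynomial.aeval_monomial, mul_smul, mul_smul, algebraMap_smul, algebraMap_smul,
      map_smul, hpow]

theorem resE_range (s : L) (hgen : ∀ x : L, ∃ f : Polynomial E0, x = Polynomial.aeval s f)
    (X : Module.End E0 V) : (∀ v : V, X (s • v) = s • X v) ↔
      ∃ Y : Module.End L V, (Y.restrictScalars E0 : Module.End E0 V) = X := by
  constructor
  · intro h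
    refine ⟨{ toFun := X, map_add' := map_add X, map_smul' := fun x v => ?_ }, ?_⟩
    · obtain ⟨f, rfl⟩ := hgen x
      exact relthm_comm s X h f v
    · ext v
      rfl
  · rintro ⟨Y, rfl⟩ v
    exact map_smul Y s v

theorem resG_range (s : L) (hgen : ∀ x : L, ∃ f : Polynomial E0, x = Polynomial.aeval s f)
    (g : GV E0 V) : (∀ v : V, g.1 (s • v) = s • g.1 v) ↔ ∃ a : GV L V, resG E0 a = g := by
  constructor
  · intro h
    have e1 : ∀ v : V, g⁻¹.1 (g.1 v) = v := fun v =>
      congrArg (fun f : Module.End E0 V => f v) g.inv_mul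
    have e2 : ∀ v : V, g.1 (g⁻¹.1 v) = v := fun v =>
      congrArg (fun f : Module.End E0 V => f v) g.mul_inv
    have h' : ∀ v : V, g⁻¹.1 (s • v) = s • g⁻¹.1 v := by
      intro v
      have h1 := h (g⁻¹.1 v)
      rw [e2] at h1
      rw [← h1, e1]
    obtain ⟨Y, hY⟩ := (resE_range s hgen g.1).1 h
    obtain ⟨Y', hY'⟩ := (resE_range s hgen g⁻¹.1).1 h'
    have f1 : ∀ v : V, Y v = g.1 v := fun v => congrArg (fun f : Module.End E0 V => f v) hY
    have f2 : ∀ v : V, Y' v = g⁻¹.1 v := fun v => congrArg (fun f : Module.End E0 V => f v) hY'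
    refine ⟨⟨Y, Y', ?_, ?_⟩, Units.ext hY⟩
    · ext v
      show Y (Y' v) = v
      rw [f1, f2, e2]
    · ext v
      show Y' (Y v) = v
      rw [f2, f1, e1]
  · rintro ⟨a, rfl⟩ v
    exact map_smul a.1 s v

variable [TopologicalSpace V]

theorem resE_emb : Topology.IsEmbedding
    (fun f : Module.End L V => (f.restrictScalars E0 : Module.End E0 V)) := by
  refine ⟨⟨(induced_compose (f := fun f : Module.End L V => (f.restrictScalars E0 : Module.End E0 V))
    (g := fun f : Module.End E0 V => (f : V → V))).symm⟩, ?_⟩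
  intro f g h
  ext v
  exact LinearMap.congr_fun h v

private theorem relthm_pair {R : Type*} [Monoid R] [TopologicalSpace R] :
    Topology.IsEmbedding (fun g : Rˣ => (g.1, g⁻¹.1)) := by
  have h1 : Topology.IsEmbedding (Prod.map (id : R → R) (MulOpposite.unop : Rᵐᵒᵖ → R)) :=
    Topology.IsEmbedding.id.prodMap MulOpposite.opHomeomorph.symm.isEmbedding
  exact h1.comp Units.isEmbedding_embedProduct

theorem resG_emb : Topology.IsEmbedding (resG E0 : GV L V → GV E0 V) := by
  have h0 := resE_emb (E0 := E0) (L := L) (V := V)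
  have hc : Continuous (resG E0 : GV L V → GV E0 V) := by
    rw [Units.continuous_iff]
    exact ⟨h0.continuous.comp Units.continuous_val,
      h0.continuous.comp (Units.continuous_iff.1 continuous_id).2⟩
  have hK : Continuous (fun g : GV E0 V => (g.1, g⁻¹.1)) :=
    Units.continuous_val.prodMk (Units.continuous_iff.1 continuous_id).2
  refine Topology.IsEmbedding.of_comp hc hK ?_
  exact (h0.prodMap h0).comp relthm_pair

theorem relU_cont {B0 : SkewH E0 V} {BL : SkewH L V} (R : FRel B0 BL) : Continuous R.U :=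
  (resG_emb.continuous.comp continuous_subtype_val).subtype_mk _

end

section

variable {F0 E0 : Type u} [NontriviallyNormedField F0] [IsUltrametricDist F0] [ProperSpace F0]
  [CharP F0 2] [NontriviallyNormedField E0] [NormedAlgebra F0 E0] [ProperSpace E0] [StarRing E0]
  [QExt F0 E0] [Dl E0] [MeasurableSpace E0] [BorelSpace E0]
variable {K L : Type u} [NontriviallyNormedField K] [IsUltrametricDist K] [ProperSpace K]
  [CharP K 2] [NontriviallyNormedField L] [NormedAlgebra K L] [ProperSpace L] [StarRing L]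
  [QExt K L] [Dl L] [MeasurableSpace L] [BorelSpace L] [Algebra E0 L]
variable {V : Type u} [AddCommGroup V] [Module E0 V] [Module L V] [IsScalarTower E0 L V]
  [Module.Finite E0 V] [Module.Finite L V] [TopologicalSpace V]
  [IsTopologicalAddGroup V] [T2Space V] [ContinuousSMul E0 V] [ContinuousSMul L V]

theorem rel_geo (g : GV L V) : (geo (resG E0 g) : SF V ℂ →ₗ[ℂ] SF V ℂ) = geo g :=
  LinearMap.ext fun _ => SF.ext fun _ => rfl

theorem rel_r {B0 : SkewH E0 V} {BL : SkewH L V} {p0 : PChar F0} {pL : PChar K} (R : FRel B0 BL)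
    (W0 : WeilRep B0 p0) (WL : WeilRep BL pL) (hl : ∀ h : UU BL, WL.l h = W0.l (R.U h))
    (h : UU BL) : WL.r h = W0.r (R.U h) := by
  show WL.l h⁻¹ ∘ₗ geo h.1 = W0.l (R.U h)⁻¹ ∘ₗ geo (R.U h).1
  rw [hl, map_inv]
  have h1 : (geo (R.U h).1 : SF V ℂ →ₗ[ℂ] SF V ℂ) = geo h.1 := rel_geo (E0 := E0) h.1
  rw [h1]

theorem rel_tneg {B0 : SkewH E0 V} {BL : SkewH L V} (R : FRel B0 BL) (τ : AntiU BL) :
    (tneg F0 (R.tau τ) : SF V ℂ →ₗ[ℂ] SF V ℂ) = tneg K τ :=
  LinearMap.ext fun _ => SF.ext fun _ => rfl

theorem rel_tauU {B0 : SkewH E0 V} {BL : SkewH L V} (R : FRel B0 BL) (τ : AntiU BL)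
    (h : UU BL) : tauU (R.tau τ) (R.U h) = R.U (tauU τ h) :=
  Subtype.ext (Units.ext (LinearMap.ext fun _ => rfl))

variable (E0) in
theorem resE_closed (s : L) : IsClosed {X : Module.End E0 V | ∀ v : V, X (s • v) = s • X v} := by
  rw [Set.ofPred_forall]
  refine isClosed_iInter fun v => isClosed_eq (continuous_end_apply _) ?_
  exact (continuous_const_smul s).comp (continuous_end_apply v)

end

end

end Pool.Agent.Work.MP_dd0ddf_al.C2
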