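import Pool.Agent.Work.MP_dd0ddf_al.C2.NiE1

/-!
# MP_dd0ddf_al (characteristic 2), module NiTr: trace and norm of a quadratic extension
-/

set_option linter.unusedSectionVars false
set_option linter.style.haveILetI false

namespace Pool.Agent.Work.MP_dd0ddf_al.C2

universe u

noncomputable section

section field

variable (F E : Type u) [Field F] [CharP F 2] [Field E] [Algebra F E] [StarRing E] [QExt F E]

include F in
theorem art_not_fixed {e : E} (he : e + star e = 1) (f : F) : e ≠ algebraMap F E f := by
  haveI : CharP E 2 := char2_of_injective (algebraMap F E).injective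
  rintro rfl
  rw [QExt.star_alg, CharTwo.add_self_eq_zero] at he
  exact zero_ne_one he

theorem trace_art {e : E} {a : F} (he : e + star e = 1) (ha : e * star e = algebraMap F E a) :
    Algebra.trace F E e = 1 := by
  haveI : FiniteDimensional F E := qext_findim F E
  have hli : LinearIndependent F ![(1 : E), e] := by
    rw [LinearIndependent.pair_iff]
    intro s t hst
    by_cases ht : t = 0
    · subst ht
      rw [zero_smul, add_zero, Algebra.smul_def, mul_one] at hst
      exact ⟨(map_eq_zero _).1 hst, rfl⟩
    · exfalso
      apply art_not_fixed F E he (-s / t)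
      rw [Algebra.smul_def, Algebra.smul_def, mul_one] at hst
      have ht' : algebraMap F E t ≠ 0 := by rwa [Ne, map_eq_zero]
      rw [map_div₀, map_neg, eq_div_iff ht']
      linear_combination hst
  let b := basisOfLinearIndependentOfCardEqFinrank hli (by
    rw [QExt.finrank_two (F := F) (E := E)]
    rfl)
  have hb0 : b 0 = 1 := by
    simp [b]
  have hb1 : b 1 = e := by
    simp [b]
  rw [Algebra.trace_eq_matrix_trace b, Matrix.trace_fin_two, Algebra.leftMulMatrix_eq_repr_mul,
    Algebra.leftMulMatrix_eq_repr_mul]
  have h1 : e * b 0 = b 1 := by rw [hb0, hb1, mul_one]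
  have h2 : e * b 1 = a • b 0 + b 1 := by
    rw [hb1, hb0, ← sq, art_sq F E he ha, Algebra.smul_def, mul_one, add_comm]
  rw [h1, h2, map_add, map_smul, b.repr_self, b.repr_self]
  simp

theorem alg_trace (x : E) : algebraMap F E (Algebra.trace F E x) = x + star x := by
  haveI : CharP E 2 := char2_of_injective (algebraMap F E).injective
  haveI : FiniteDimensional F E := qext_findim F E
  have h20 : (2 : E) = 0 := CharTwo.two_eq_zero
  obtain ⟨e, a, he, ha⟩ := exists_art F E
  have hse := star_eq_add_one F E he
  obtain ⟨s, hs⟩ := fixed_of_star F E (x + star x) (by rw [star_add, star_star, add_comm])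
  obtain ⟨r, hr⟩ := fixed_of_star F E (x * star e + star x * e) (by
    rw [star_add, star_mul', star_mul', star_star, star_star, add_comm])
  have hx : x = algebraMap F E r + s • e := by
    rw [Algebra.smul_def, ← hs, ← hr, hse]
    linear_combination (-x * e - star x * e) * h20
  have h1 : Algebra.trace F E x = s := by
    rw [hx, map_add, map_smul, trace_art F E he ha, Algebra.trace_algebraMap,
      QExt.finrank_two (F := F) (E := E), two_nsmul, CharTwo.add_self_eq_zero, zero_add,
      smul_eq_mul, mul_one]
  rw [h1, ← hs]

theorem trace_star (x : E) : Algebra.trace F E (star x) = Algebra.trace F E x := by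
  apply (algebraMap F E).injective
  rw [alg_trace, alg_trace, star_star, add_comm]

theorem trace_alg_zero (c : F) : Algebra.trace F E (algebraMap F E c) = 0 := by
  haveI : CharP E 2 := char2_of_injective (algebraMap F E).injective
  apply (algebraMap F E).injective
  rw [alg_trace, QExt.star_alg, CharTwo.add_self_eq_zero, map_zero]

theorem trace_mul_alg {d : E} (hd : d + star d = 1) (c : F) :
    Algebra.trace F E (d * algebraMap F E c) = c := by
  apply (algebraMap F E).injective
  rw [alg_trace, star_mul', QExt.star_alg, ← add_mul, hd, one_mul]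

/-- a fixed element with `dd + star dd = 1` -/
def dd : E := (exists_dd F E).choose

theorem dd_add : dd F E + star (dd F E) = 1 := (exists_dd F E).choose_spec

theorem trace_dd_alg (c : F) : Algebra.trace F E (dd F E * algebraMap F E c) = c :=
  trace_mul_alg F E (dd_add F E) c

theorem trace_dd_star (s : E) : Algebra.trace F E (dd F E * (s + star s)) =
    Algebra.trace F E s := by
  rw [← alg_trace F E s, trace_dd_alg]

variable {E} in
/-- the norm of `E / F` -/
def nE (x : E) : F := (fixed_of_star F E (x * star x) (by
  rw [star_mul', star_star, mul_comm])).choose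

variable {E}

theorem alg_nE (x : E) : algebraMap F E (nE F x) = x * star x :=
  (fixed_of_star F E (x * star x) (by rw [star_mul', star_star, mul_comm])).choose_spec.symm

theorem nE_mul (x y : E) : nE F (x * y) = nE F x * nE F y := by
  apply (algebraMap F E).injective
  rw [map_mul, alg_nE, alg_nE, alg_nE, star_mul']
  ring

theorem nE_add (x y : E) : nE F (x + y) = nE F x + nE F y +
    Algebra.trace F E (x * star y) := by
  apply (algebraMap F E).injective
  rw [map_add, map_add, alg_nE, alg_nE, alg_nE, alg_trace, star_add, star_mul', star_star]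
  ring

theorem nE_alg (c : F) : nE F (algebraMap F E c) = c ^ 2 := by
  apply (algebraMap F E).injective
  rw [alg_nE, QExt.star_alg, map_pow, sq]

theorem nE_smul (c : F) (x : E) : nE F (c • x) = c ^ 2 * nE F x := by
  rw [Algebra.smul_def, nE_mul, nE_alg]

theorem nE_star (x : E) : nE F (star x) = nE F x := by
  apply (algebraMap F E).injective
  rw [alg_nE, alg_nE, star_star, mul_comm]

theorem nE_zero : nE F (0 : E) = 0 := by
  apply (algebraMap F E).injective
  rw [alg_nE, zero_mul, map_zero]

theorem nE_one : nE F (1 : E) = 1 := by
  apply (algebraMap F E).injective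
  rw [alg_nE, one_mul, star_one, map_one]

theorem nE_ne_zero {x : E} (hx : x ≠ 0) : nE F x ≠ 0 := by
  intro h
  have h1 := alg_nE F x
  rw [h, map_zero] at h1
  rcases mul_eq_zero.1 h1.symm with h2 | h2
  · exact hx h2
  · apply hx
    rw [← star_star x, h2, star_zero]

theorem isNorm_nE {x : E} (hx : x ≠ 0) : IsNorm F E (nE F x) := ⟨x, hx, (alg_nE F x).symm⟩

end field

section top

variable {F E : Type u} [NontriviallyNormedField F] [IsUltrametricDist F] [ProperSpace F]
  [CharP F 2] [NontriviallyNormedField E] [NormedAlgebra F E] [ProperSpace E] [StarRing E]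
  [QExt F E]

variable (F E) in
theorem continuous_nE : Continuous (nE F : E → F) := by
  have hiso : Isometry (algebraMap F E) := algebraMap_isometry F E
  rw [hiso.isEmbedding.continuous_iff]
  have h2 : (algebraMap F E) ∘ (nE F : E → F) = fun x => x * star x := by
    funext x
    exact alg_nE F x
  rw [h2]
  exact continuous_id.mul (continuous_star_E F E)

theorem norm_nE (x : E) : ‖nE F x‖ = ‖x‖ ^ 2 := by
  rw [← norm_algebraMap' E (nE F x), alg_nE, norm_mul, norm_star_eq F E, sq]

end top

end

end Pool.Agent.Work.MP_dd0ddf_al.C2
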