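import Pool.Agent.Work.MP_dd0ddf_al.C2.SimDefs
import Pool.Agent.Work.MP_dd0ddf_al.C2.NiTr

/-!
# MP_dd0ddf_al (all characteristics /= 2), module SimA: all self-adjoint operators as a quadratic space (definitions)

The analogue of SA0Defs and SimDefs for the space `SA B` of ALL self-adjoint operators: `trA`: `b(X, Y) = Tr_{E/F} (d tr(XY))` (this is `tr(XY)`, an element of `F`), nondegenerate.
-/

set_option linter.unusedSectionVars false
set_option linter.style.haveILetI false

namespace Pool.Agent.Work.MP_dd0ddf_al.C2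

noncomputable section

universe u

variable {F E : Type u} [NontriviallyNormedField F] [IsUltrametricDist F] [ProperSpace F]
  [CharP F 2] [NontriviallyNormedField E] [NormedAlgebra F E] [ProperSpace E] [StarRing E]
  [QExt F E] [Dl E] [MeasurableSpace E] [BorelSpace E]
variable {V : Type u} [AddCommGroup V] [Module E V] [Module.Finite E V] [TopologicalSpace V]
  [IsTopologicalAddGroup V] [T2Space V] [ContinuousSMul E V]

instance modSA (B : SkewH E V) : Module F (SA B) where
  smul a X := ⟨algebraMap F E a • X.1, sa0_smul_mem F B a X.2⟩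
  one_smul X := Subtype.ext (by
    show algebraMap F E 1 • X.1 = X.1
    rw [map_one, one_smul])
  mul_smul a b X := Subtype.ext (by
    show algebraMap F E (a * b) • X.1 = algebraMap F E a • (algebraMap F E b • X.1)
    rw [map_mul, mul_smul])
  smul_zero a := Subtype.ext (by
    show algebraMap F E a • (0 : Module.End E V) = 0
    rw [smul_zero])
  smul_add a X Y := Subtype.ext (by
    show algebraMap F E a • (X.1 + Y.1) = algebraMap F E a • X.1 + algebraMap F E a • Y.1
    rw [smul_add])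
  add_smul a b X := Subtype.ext (by
    show algebraMap F E (a + b) • X.1 = algebraMap F E a • X.1 + algebraMap F E b • X.1
    rw [map_add, add_smul])
  zero_smul X := Subtype.ext (by
    show algebraMap F E 0 • X.1 = 0
    rw [map_zero, zero_smul])

theorem sa_smul (B : SkewH E V) (a : F) (X : SA B) : (a • X).1 = algebraMap F E a • X.1 := rfl

instance finSA (B : SkewH E V) : Module.Finite F (SA B) := by
  haveI : FiniteDimensional F E := qext_findim F E
  letI : Module F (Module.End E V) := Module.compHom _ (algebraMap F E)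
  haveI : IsScalarTower F E (Module.End E V) := ⟨fun a b X => by
    show (a • b) • X = algebraMap F E a • (b • X)
    rw [Algebra.smul_def a b, mul_smul]⟩
  haveI : Module.Finite F (Module.End E V) := Module.Finite.trans E _
  let f : SA B →ₗ[F] Module.End E V :=
    { toFun := fun X => X.1
      map_add' := fun _ _ => rfl
      map_smul' := fun _ _ => rfl }
  exact Module.Finite.of_injective f Subtype.val_injective

instance csSA (B : SkewH E V) : ContinuousSMul F (SA B) := by
  refine ⟨Continuous.subtype_mk ?_ _⟩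
  refine continuous_induced_rng.mpr (continuous_pi fun v => ?_)
  show Continuous (fun q : F × SA B => algebraMap F E q.1 • q.2.1 v)
  exact ((continuous_algebraMap F E).comp continuous_fst).smul
    ((continuous_end_apply v).comp (continuous_subtype_val.comp continuous_snd))

variable (F) in
/-- the trace form on all self-adjoint operators -/
def trA (B : SkewH E V) : SForm F (SA B) where
  b X Y := Algebra.trace F E (Dl.d * LinearMap.trace E V (X.1 * Y.1))
  add_left X Y Z := by
    rw [← map_add, ← mul_add, ← map_add, ← add_mul]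
    rfl
  smul_left a X Y := by
    rw [sa_smul, smul_mul_assoc, map_smul, smul_eq_mul, mul_left_comm, ← Algebra.smul_def,
      map_smul, smul_eq_mul]
  symm X Y := by rw [LinearMap.trace_mul_comm]
  nondeg X h := by
    obtain ⟨e, he⟩ := exists_dd F E
    have h3 : ∀ Y ∈ SA B, LinearMap.trace E V (X.1 * Y) = 0 := by
      intro Y hY
      obtain ⟨f, hf⟩ := sa0_trace_mem F B X.2 hY
      have h4 := h ⟨Y, hY⟩
      change Algebra.trace F E (Dl.d * LinearMap.trace E V (X.1 * Y)) = 0 at h4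
      rw [hf, trace_mul_alg F E Dl.add_star] at h4
      rw [hf, h4, map_zero]
    apply Subtype.ext
    refine sa0_trace_nondeg X.1 fun Z => ?_
    obtain ⟨Y1, hY1, Y2, hY2, rfl⟩ := sa0_decomp F B he Z
    rw [mul_add, map_add, mul_smul_comm, map_smul, h3 Y1 hY1, h3 Y2 hY2, smul_zero, add_zero]

private theorem sima_c0 {c : F} (hc : c ≠ 0) : algebraMap F E c ≠ 0 := by
  intro h
  exact hc ((algebraMap F E).injective (by rw [h, map_zero]))

private theorem sima_inv {B : SkewH E V} {c : F} {g : GV E V} (h : IsSim B c g) :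
    IsSim B c⁻¹ g⁻¹ := by
  refine ⟨inv_ne_zero h.1, fun v w => ?_⟩
  have h1 : ∀ x, g.1 (g⁻¹.1 x) = x := fun x =>
    congrArg (fun f : Module.End E V => f x) g.mul_inv
  have h2 := h.2 (g⁻¹.1 v) (g⁻¹.1 w)
  rw [h1, h1] at h2
  rw [h2, map_inv₀, inv_mul_cancel_left₀ (sima_c0 h.1)]

private theorem sima_adj_eq {B : SkewH E V} {c : F} {g : GV E V} (h : IsSim B c g) :
    adj B g.1 = algebraMap F E c • g⁻¹.1 := by
  have h1 := congrArg (fun Z => g⁻¹.1 * Z) (sim_adj h)
  have h2 : g⁻¹.1 * g.1 = 1 := g.inv_mul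
  simp only [← mul_assoc] at h1
  rw [h2, one_mul, mul_smul_comm, mul_one] at h1
  exact h1

private theorem sima_sa {B : SkewH E V} {c : F} {g : GV E V} (h : IsSim B c g)
    {X : Module.End E V} (hX : X ∈ SA B) : g.1 * X * g⁻¹.1 ∈ SA B := by
  apply sa_of_adj
  have h2 : adj B g⁻¹.1 = algebraMap F E c⁻¹ • g.1 := by
    have h3 := sima_adj_eq (sima_inv h)
    rw [inv_inv] at h3
    exact h3
  rw [adj_mul, adj_mul, h2, sima_adj_eq h, sa_adj B hX, smul_mul_assoc, mul_smul_comm,
    mul_smul_comm, smul_smul, ← map_mul, inv_mul_cancel₀ h.1, map_one, one_smul, mul_assoc]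

private theorem sima_cancel (g : GV E V) (X : Module.End E V) :
    g⁻¹.1 * (g.1 * X * g⁻¹.1) * g.1 = X := by
  have h1 : g⁻¹.1 * g.1 = 1 := g.inv_mul
  calc g⁻¹.1 * (g.1 * X * g⁻¹.1) * g.1 = (g⁻¹.1 * g.1) * X * (g⁻¹.1 * g.1) := by
        simp only [mul_assoc]
    _ = X := by rw [h1, one_mul, mul_one]

private theorem sima_cancel' (g : GV E V) (X : Module.End E V) :
    g.1 * (g⁻¹.1 * X * g.1) * g⁻¹.1 = X := by
  have h1 : g.1 * g⁻¹.1 = 1 := g.mul_inv
  calc g.1 * (g⁻¹.1 * X * g.1) * g⁻¹.1 = (g.1 * g⁻¹.1) * X * (g.1 * g⁻¹.1) := by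
        simp only [mul_assoc]
    _ = X := by rw [h1, one_mul, mul_one]

/-- `X ↦ h X h⁻¹` -/
def saConjT (B : SkewH E V) (h : UU B) : TAut (SA B) where
  h := saConj B h
  add := fun X Y => Subtype.ext (by
    show h.1.1 * (X.1 + Y.1) * h.1⁻¹.1 = h.1.1 * X.1 * h.1⁻¹.1 + h.1.1 * Y.1 * h.1⁻¹.1
    rw [mul_add, add_mul])

/-- `X ↦ θ(g) (τ X τ) θ(g)⁻¹` -/
def saSimT {B : SkewH E V} {c : F} {g : GV E V} (h : IsSim B c g) (τ : AntiU B) :
    TAut (SA B) where
  h :=
    { toFun := fun X => ⟨(thG τ g).1 * conjτ τ X.1 * (thG τ g)⁻¹.1,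
        sima_sa (sim_th h τ) (conjτ_mem_SA τ X.2)⟩
      invFun := fun X => ⟨conjτ τ ((thG τ g)⁻¹.1 * X.1 * (thG τ g).1), by
        have h1 := sima_sa (sima_inv (sim_th h τ)) X.2
        rw [inv_inv] at h1
        exact conjτ_mem_SA τ h1⟩
      left_inv := fun X => Subtype.ext (by
        show conjτ τ ((thG τ g)⁻¹.1 * ((thG τ g).1 * conjτ τ X.1 * (thG τ g)⁻¹.1) *
          (thG τ g).1) = X.1
        rw [sima_cancel, conjτ_conjτ])
      right_inv := fun X => Subtype.ext (by
        show (thG τ g).1 * conjτ τ (conjτ τ ((thG τ g)⁻¹.1 * X.1 * (thG τ g).1)) *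
          (thG τ g)⁻¹.1 = X.1
        rw [conjτ_conjτ, sima_cancel'])
      continuous_toFun := by
        refine Continuous.subtype_mk ?_ _
        exact (continuous_const.mul ((continuous_conjτ F τ).comp continuous_subtype_val)).mul
          continuous_const
      continuous_invFun := by
        refine Continuous.subtype_mk ?_ _
        exact (continuous_conjτ F τ).comp
          ((continuous_const.mul continuous_subtype_val).mul continuous_const) }
  add := fun X Y => Subtype.ext (by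
    show (thG τ g).1 * conjτ τ (X.1 + Y.1) * (thG τ g)⁻¹.1 =
      (thG τ g).1 * conjτ τ X.1 * (thG τ g)⁻¹.1 + (thG τ g).1 * conjτ τ Y.1 * (thG τ g)⁻¹.1
    have h1 : conjτ τ (X.1 + Y.1) = conjτ τ X.1 + conjτ τ Y.1 := by
      ext v
      show τ.t (X.1 (τ.t v) + Y.1 (τ.t v)) = τ.t (X.1 (τ.t v)) + τ.t (Y.1 (τ.t v))
      rw [τ.add]
    rw [h1, mul_add, add_mul])

private theorem sima_tr (g : GV E V) (X Y : Module.End E V) :
    LinearMap.trace E V ((g.1 * X * g⁻¹.1) * (g.1 * Y * g⁻¹.1)) =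
      LinearMap.trace E V (X * Y) := by
  have h1 : g⁻¹.1 * g.1 = 1 := g.inv_mul
  have h2 : (g.1 * X * g⁻¹.1) * (g.1 * Y * g⁻¹.1) = g.1 * (X * Y * g⁻¹.1) := by
    calc (g.1 * X * g⁻¹.1) * (g.1 * Y * g⁻¹.1) = g.1 * X * (g⁻¹.1 * g.1) * Y * g⁻¹.1 := by
          simp only [mul_assoc]
      _ = g.1 * (X * Y * g⁻¹.1) := by
          rw [h1]
          simp only [mul_assoc, mul_one]
  rw [h2, LinearMap.trace_mul_comm, mul_assoc, h1, mul_one]

theorem trA_conj (B : SkewH E V) (h : UU B) (X Y : SA B) :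
    (trA F B).b ((saConjT B h).h X) ((saConjT B h).h Y) = (trA F B).b X Y :=
  congrArg (fun z : E => Algebra.trace F E (Dl.d * z)) (sima_tr h.1 X.1 Y.1)

theorem trA_sim {B : SkewH E V} {c : F} {g : GV E V} (h : IsSim B c g) (τ : AntiU B)
    (X Y : SA B) : (trA F B).b ((saSimT h τ).h X) ((saSimT h τ).h Y) = (trA F B).b X Y := by
  show Algebra.trace F E (Dl.d * LinearMap.trace E V
    (((thG τ g).1 * conjτ τ X.1 * (thG τ g)⁻¹.1) *
    ((thG τ g).1 * conjτ τ Y.1 * (thG τ g)⁻¹.1))) =
    Algebra.trace F E (Dl.d * LinearMap.trace E V (X.1 * Y.1))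
  rw [sima_tr, ← conjτ_mul, sa0_trace_conjτ]
  obtain ⟨f, hf⟩ := sa0_trace_mem F B X.2 Y.2
  rw [hf, QExt.star_alg]

/-- symmetries of functionals on `SF (SA B) (SF V ℂ)` -/
structure EInvA {B : SkewH E V} {p : PChar F} (W : WeilRep B p) {c : F} {g : GV E V}
    (hg : IsSim B c g) (τ : AntiU B) (S : SF (SA B) (SF V ℂ) →ₗ[ℂ] ℂ) : Prop where
  inv : ∀ (h : UU B) (f : SF (SA B) (SF V ℂ)),
    S (SF.opr (saConjT B h⁻¹).h (W.l h ∘ₗ W.r (simC hg h)) f) = S f
  anti : ∀ f : SF (SA B) (SF V ℂ),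
    S (SF.opr (saSimT hg τ).h (tneg F τ ∘ₗ W.r (simK hg τ)⁻¹) f) = - S f

/-- the Fourier transform on `SF (SA B) (SF V ℂ)` -/
def fourA (B : SkewH E V) (p : PChar F) : SF (SA B) (SF V ℂ) →ₗ[ℂ] SF (SA B) (SF V ℂ) :=
  haveI := lc_SA F B
  haveI := td_SA F B
  four1 ((trA F B).bi p)

end

end Pool.Agent.Work.MP_dd0ddf_al.C2
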