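import Pool.Agent.Work.MP_dd0ddf_al.C2.XData
import Pool.Agent.Work.MP_dd0ddf_al.C2.RelThm
import Pool.Agent.Work.MP_dd0ddf_al.C2.FNum
import Pool.Agent.Work.MP_dd0ddf_al.C2.SimA

/-!
# MP_dd0ddf_al (characteristic 2), module DownU: the fibre of fibration B over g0 is the set of nilpotent self-adjoint L-linear operators

(F0, E0, B0) small, (K, L, BL) large, L = E0[s], s ∈ K, `s^(2^(j+k)) = c0 ∈ F0`, `c := s^(2^k) ∈ K`, g₀ ∈ GL(V/L) a similitude of BL with factor s.  q1 = qq j c0, q2 = qq (j+k) c0.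
`resG_ys`: `(sg B0 (resG g₀)).1` = multiplication by s (rel_adj, sim_adj: g₀ * adj = s • 1), `s^(2^(j+k)) = c0`.
`exists_uB`: Fib = {(c1, resG g₀) : c1 ∈ SA B0, c1^(2^j) = c0, c1 commutes with s}.  `u (c1, _) := c1 - c` as an L-linear operator (resE_range: c1 commutes with s; rel_sa; `c ∈ K` acts as a self-adjoint scalar).  Image = {ν ∈ SA BL | charpoly ν = X^n}, n = finrank L V:
`(c1 - c)^(2^j) = c1^(2^j) - c^(2^j) = c0 - s^(2^(k+j)) = 0` (commuting, char 2: Commute.sub_pow_char_pow or via the polynomial identity), so ν is nilpotent, charpoly = X^n (Mathlib: LinearMap.charpoly_eq_X_pow_iff / isNilpotent_iff_charpoly / charpoly_nilpotent_tfae); conversely `ν^n = 0` (Cayley-Hamilton), n ≤ 2^j, so `ν^(2^j) = 0`,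
`c1 := c + ν` satisfies `c1^(2^j) = c^(2^j) = c0`, is self-adjoint and commutes with s.
Topology: `SA BL` has the topology induced from `SA B0` via restrictScalars (resE_emb); Fib is homeomorphic to a subset of SA B0 (second component constant); the image is closed: `{ν | charpoly ν = X^n}` (continuous_charcoef, as in gp_closed / sap_closed).
-/

set_option linter.unusedSectionVars false
set_option linter.style.haveILetI false

namespace Pool.Agent.Work.MP_dd0ddf_al.C2

noncomputable section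

universe u

variable {F0 E0 : Type u} [NontriviallyNormedField F0] [IsUltrametricDist F0] [ProperSpace F0]
  [CharP F0 2] [NontriviallyNormedField E0] [NormedAlgebra F0 E0] [ProperSpace E0] [StarRing E0]
  [QExt F0 E0] [Dl E0] [MeasurableSpace E0] [BorelSpace E0]
variable {K L : Type u} [NontriviallyNormedField K] [IsUltrametricDist K] [ProperSpace K]
  [CharP K 2] [NontriviallyNormedField L] [NormedAlgebra K L] [ProperSpace L] [StarRing L]
  [QExt K L] [Dl L] [MeasurableSpace L] [BorelSpace L] [Algebra E0 L]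
variable {V : Type u} [AddCommGroup V] [Module E0 V] [Module L V] [IsScalarTower E0 L V]
  [Module.Finite E0 V] [Module.Finite L V] [TopologicalSpace V]
  [IsTopologicalAddGroup V] [T2Space V] [ContinuousSMul E0 V] [ContinuousSMul L V]


private theorem du_end {B0 : SkewH E0 V} {BL : SkewH L V} (R : FRel B0 BL) (s : K)
    (g₀ : GV L V) (hg : IsSim BL s g₀) (v : V) :
    (sg B0 (resG E0 g₀)).1 v = algebraMap K L s • v := by
  have h1 : adj B0 (resG E0 g₀).1 = ((adj BL g₀.1).restrictScalars E0 : Module.End E0 V) :=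
    rel_adj R g₀.1
  show (resG E0 g₀).1 (adj B0 (resG E0 g₀).1 v) = _
  rw [h1]
  exact congrArg (fun f : Module.End L V => f v) (sim_adj hg)

private theorem du_aeval {F0 E0 V : Type u} [Field F0] [Field E0] [Algebra F0 E0]
    [AddCommGroup V] [Module E0 V] (n : ℕ) (c0 : F0) (Z : Module.End E0 V) :
    Polynomial.aeval Z ((qq n c0).map (algebraMap F0 E0)) =
      Z ^ 2 ^ n - algebraMap F0 E0 c0 • (1 : Module.End E0 V) := by
  rw [qq, Polynomial.map_sub, Polynomial.map_pow, Polynomial.map_X, Polynomial.map_C, map_sub,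
    map_pow, Polynomial.aeval_X, Polynomial.aeval_C, Algebra.algebraMap_eq_smul_one]

private theorem du_pow {E0 L V : Type u} [Field E0] [Field L] [AddCommGroup V] [Module E0 V]
    [Module L V] (Z : Module.End E0 V) (a : L) (h : ∀ v, Z v = a • v) (m : ℕ) (v : V) :
    (Z ^ m) v = a ^ m • v := by
  induction m generalizing v with
  | zero => rw [pow_zero, pow_zero, one_smul]; rfl
  | succ m ih =>
    rw [pow_succ, pow_succ]
    show (Z ^ m) (Z v) = _
    rw [ih, h, smul_smul]

private theorem du_pow2 {E0 L V : Type u} [Field E0] [Field L] [AddCommGroup V] [Module E0 V]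
    [Module L V] (Z : Module.End E0 V) (Y : Module.End L V) (h : ∀ v, Z v = Y v) (m : ℕ)
    (v : V) : (Z ^ m) v = (Y ^ m) v := by
  induction m generalizing v with
  | zero => rw [pow_zero, pow_zero]; rfl
  | succ m ih =>
    rw [pow_succ, pow_succ]
    show (Z ^ m) (Z v) = (Y ^ m) (Y v)
    rw [ih, h]

private theorem du_sub {L V : Type u} [Field L] [CharP L 2] [AddCommGroup V] [Module L V]
    (Y : Module.End L V) (a : L) (j : ℕ) :
    (Y - a • (1 : Module.End L V)) ^ 2 ^ j = Y ^ 2 ^ j - a ^ 2 ^ j • (1 : Module.End L V) := by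
  have h1 : (Polynomial.X - Polynomial.C a : Polynomial L) ^ 2 ^ j =
      Polynomial.X ^ 2 ^ j - Polynomial.C (a ^ 2 ^ j) := by
    rw [sub_pow_char_pow, Polynomial.C_pow]
  have h2 := congrArg (fun f => Polynomial.aeval Y f) h1
  simp only [map_pow, map_sub, Polynomial.aeval_X, Polynomial.aeval_C,
    Algebra.algebraMap_eq_smul_one] at h2
  rw [h2, smul_pow, one_pow]

private theorem du_add {L V : Type u} [Field L] [CharP L 2] [AddCommGroup V] [Module L V]
    (Y : Module.End L V) (a : L) (j : ℕ) :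
    (Y + a • (1 : Module.End L V)) ^ 2 ^ j = Y ^ 2 ^ j + a ^ 2 ^ j • (1 : Module.End L V) := by
  have h1 : (Polynomial.X + Polynomial.C a : Polynomial L) ^ 2 ^ j =
      Polynomial.X ^ 2 ^ j + Polynomial.C (a ^ 2 ^ j) := by
    rw [add_pow_char_pow, Polynomial.C_pow]
  have h2 := congrArg (fun f => Polynomial.aeval Y f) h1
  simp only [map_pow, map_add, Polynomial.aeval_X, Polynomial.aeval_C,
    Algebra.algebraMap_eq_smul_one] at h2
  rw [h2, smul_pow, one_pow]

theorem resG_ys {B0 : SkewH E0 V} {BL : SkewH L V} (R : FRel B0 BL) (j k : ℕ) (c0 : F0) (s : K)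
    (hs : (algebraMap K L s) ^ 2 ^ (j + k) = algebraMap E0 L (algebraMap F0 E0 c0))
    (g₀ : GV L V) (hg : IsSim BL s g₀) : resG E0 g₀ ∈ YS B0 (qq (j + k) c0) := by
  show Polynomial.aeval (sg B0 (resG E0 g₀)).1 ((qq (j + k) c0).map (algebraMap F0 E0)) = 0
  rw [du_aeval]
  ext v
  show ((sg B0 (resG E0 g₀)).1 ^ 2 ^ (j + k)) v - algebraMap F0 E0 c0 • v = 0
  rw [du_pow _ _ (du_end R s g₀ hg), hs, algebraMap_smul, sub_self]

theorem exists_uB {B0 : SkewH E0 V} {BL : SkewH L V} (R : FRel B0 BL) {p0 : PChar F0}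
    (W0 : WeilRep B0 p0) (j k : ℕ) (c0 : F0)
    (hirr : Irreducible ((qq (j + k) c0).map (algebraMap F0 E0))) (s : K)
    (hgen : ∀ x : L, ∃ f : Polynomial E0, x = Polynomial.aeval (algebraMap K L s) f)
    (hs : (algebraMap K L s) ^ 2 ^ (j + k) = algebraMap E0 L (algebraMap F0 E0 c0))
    (hm : Module.finrank L V ≤ 2 ^ j) (g₀ : GV L V) (hg : IsSim BL s g₀) :
    ∃ u : (xB W0 (qq j c0) (qq (j + k) c0) (qq_monic _ _) hirr
        ⟨resG E0 g₀, resG_ys R j k c0 s hs g₀ hg⟩).Fib → SA BL,
      Topology.IsClosedEmbedding u ∧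
      (∀ x (v : V), (u x).1 v = x.1.1.1.1 v - (algebraMap K L s) ^ 2 ^ k • v) ∧
      ∀ X : SA BL, X ∈ Set.range u ↔ LinearMap.charpoly X.1 =
        (Polynomial.X ^ Module.finrank L V : Polynomial K).map (algebraMap K L) := by
  haveI : CharP L 2 := char2_of_injective (algebraMap K L).injective
  set D := xB W0 (qq j c0) (qq (j + k) c0) (qq_monic _ _) hirr
    ⟨resG E0 g₀, resG_ys R j k c0 s hs g₀ hg⟩ with hD
  have hσ := du_end R s g₀ hg
  set a : L := (algebraMap K L s) ^ 2 ^ k with ha
  have ha2 : a ^ 2 ^ j = algebraMap E0 L (algebraMap F0 E0 c0) := by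
    rw [ha, ← pow_mul, ← pow_add, add_comm k j, hs]
  have hx2 : ∀ x : D.Fib, x.1.1.2 = resG E0 g₀ := fun x => congrArg Subtype.val x.2
  have hcomm : ∀ (x : D.Fib) (v : V), x.1.1.1.1 (algebraMap K L s • v) =
      algebraMap K L s • x.1.1.1.1 v := by
    intro x v
    have h1 : x.1.1.1.1 * (sg B0 x.1.1.2).1 = (sg B0 x.1.1.2).1 * x.1.1.1.1 := x.1.2.2.2
    rw [hx2 x] at h1
    have h2 : x.1.1.1.1 ((sg B0 (resG E0 g₀)).1 v) = (sg B0 (resG E0 g₀)).1 (x.1.1.1.1 v) :=
      congrArg (fun f : Module.End E0 V => f v) h1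
    rw [hσ, hσ] at h2
    exact h2
  choose Y hY using fun x : D.Fib => (resE_range (algebraMap K L s) hgen x.1.1.1.1).1 (hcomm x)
  have hYv : ∀ (x : D.Fib) (v : V), x.1.1.1.1 v = Y x v := fun x v => by
    rw [← hY x]; rfl
  have hYsa : ∀ x : D.Fib, Y x ∈ SA BL := fun x =>
    (rel_sa R (Y x)).1 (by rw [hY x]; exact x.1.1.1.2)
  have h1sa : (1 : Module.End L V) ∈ SA BL := fun v w => rfl
  have hcsa : a • (1 : Module.End L V) ∈ SA BL := by
    have h1 := sa0_smul_mem K BL (s ^ 2 ^ k) h1sa
    rwa [map_pow] at h1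
  let u : D.Fib → SA BL := fun x => ⟨Y x - a • (1 : Module.End L V), sub_mem (hYsa x) hcsa⟩
  have hu : ∀ (x : D.Fib) (v : V), (u x).1 v = x.1.1.1.1 v - a • v := by
    intro x v
    rw [hYv x v]
    rfl
  -- the range
  have hrange : ∀ X : SA BL, X ∈ Set.range u ↔ LinearMap.charpoly X.1 =
      (Polynomial.X ^ Module.finrank L V : Polynomial K).map (algebraMap K L) := by
    intro X
    rw [Polynomial.map_pow, Polynomial.map_X]
    constructor
    · rintro ⟨x, rfl⟩
      apply IsNilpotent.charpoly_eq_X_pow_finrank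
      refine ⟨2 ^ j, ?_⟩
      show (Y x - a • (1 : Module.End L V)) ^ 2 ^ j = 0
      rw [du_sub]
      ext v
      show (Y x ^ 2 ^ j) v - a ^ 2 ^ j • v = 0
      rw [← du_pow2 x.1.1.1.1 (Y x) (hYv x), ha2, algebraMap_smul]
      have h1 : Polynomial.aeval x.1.1.1.1 ((qq j c0).map (algebraMap F0 E0)) = 0 := x.1.2.1
      rw [du_aeval, sub_eq_zero] at h1
      rw [h1]
      exact sub_self _
    · intro hX
      have h1 : X.1 ^ 2 ^ j = 0 := by
        have h2 := LinearMap.aeval_self_charpoly X.1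
        rw [hX, map_pow, Polynomial.aeval_X] at h2
        exact pow_eq_zero_of_le hm h2
      set Z : Module.End L V := X.1 + a • (1 : Module.End L V) with hZ
      have hZsa : Z ∈ SA BL := add_mem X.2 hcsa
      have hZp : Z ^ 2 ^ j = a ^ 2 ^ j • (1 : Module.End L V) := by
        rw [hZ, du_add, h1, zero_add]
      set c1 : Module.End E0 V := (Z.restrictScalars E0 : Module.End E0 V) with hc1
      have hc1v : ∀ v, c1 v = Z v := fun v => rfl
      have hc1sa : c1 ∈ SA B0 := (rel_sa R Z).2 hZsa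
      have hq1 : Polynomial.aeval c1 ((qq j c0).map (algebraMap F0 E0)) = 0 := by
        rw [du_aeval]
        ext v
        show (c1 ^ 2 ^ j) v - algebraMap F0 E0 c0 • v = 0
        rw [du_pow2 c1 Z hc1v, hZp, ha2]
        show algebraMap E0 L (algebraMap F0 E0 c0) • v - algebraMap F0 E0 c0 • v = 0
        rw [algebraMap_smul, sub_self]
      have hcc : c1 * (sg B0 (resG E0 g₀)).1 = (sg B0 (resG E0 g₀)).1 * c1 := by
        ext v
        show c1 ((sg B0 (resG E0 g₀)).1 v) = (sg B0 (resG E0 g₀)).1 (c1 v)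
        rw [hσ, hσ, hc1v, hc1v, map_smul]
      let x : D.Fib := ⟨⟨(⟨c1, hc1sa⟩, resG E0 g₀), hq1, resG_ys R j k c0 s hs g₀ hg, hcc⟩,
        Subtype.ext rfl⟩
      refine ⟨x, Subtype.ext (LinearMap.ext fun v => ?_)⟩
      rw [hu x v]
      show X.1 v + a • v - a • v = X.1 v
      exact add_sub_cancel_right _ _
  refine ⟨u, ⟨?_, ?_⟩, hu, hrange⟩
  · -- embedding
    have e1 : Topology.IsEmbedding (fun x : D.Fib => x.1.1) :=
      Topology.IsEmbedding.subtypeVal.comp Topology.IsEmbedding.subtypeVal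
    have e2 : Topology.IsEmbedding (fun x : D.Fib => x.1.1.1) := by
      refine Topology.IsEmbedding.of_comp (g := fun c : SA B0 => (c, resG E0 g₀))
        (continuous_fst.comp e1.continuous) (by fun_prop) ?_
      have h1 : (fun c : SA B0 => (c, resG E0 g₀)) ∘ (fun x : D.Fib => x.1.1.1) =
          fun x : D.Fib => x.1.1 := by
        funext x
        exact Prod.ext rfl (hx2 x).symm
      rw [h1]
      exact e1
    have e3 : Topology.IsEmbedding (fun x : D.Fib => x.1.1.1.1) :=
      Topology.IsEmbedding.subtypeVal.comp e2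
    have e4 : Topology.IsEmbedding (fun Z : SA BL =>
        ((Z.1 + a • (1 : Module.End L V)).restrictScalars E0 : Module.End E0 V)) :=
      (resE_emb (E0 := E0) (L := L) (V := V)).comp
        ((Homeomorph.addRight (a • (1 : Module.End L V))).isEmbedding.comp
          Topology.IsEmbedding.subtypeVal)
    refine (e4.of_comp_iff).1 ?_
    have h1 : (fun Z : SA BL =>
        ((Z.1 + a • (1 : Module.End L V)).restrictScalars E0 : Module.End E0 V)) ∘ u =
        fun x : D.Fib => x.1.1.1.1 := by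
      funext x
      ext v
      show (u x).1 v + a • v = x.1.1.1.1 v
      rw [hu x v, sub_add_cancel]
    rw [h1]
    exact e3
  · -- closed range
    have h1 : Set.range u = ⋂ i : ℕ, {X : SA BL | (LinearMap.charpoly X.1).coeff i =
        ((Polynomial.X ^ Module.finrank L V : Polynomial K).map (algebraMap K L)).coeff i} := by
      ext X
      rw [hrange X, Set.mem_iInter]
      exact ⟨fun h i => congrArg (fun f : Polynomial L => f.coeff i) h,
        fun h => Polynomial.ext h⟩
    rw [h1]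
    exact isClosed_iInter fun i => isClosed_eq
      ((continuous_charcoef i).comp continuous_subtype_val) continuous_const

end

end Pool.Agent.Work.MP_dd0ddf_al.C2
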