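import Pool.Agent.Work.MP_dd0ddf_al.C2.DownA
import Pool.Agent.Work.MP_dd0ddf_al.C2.DownU
import Pool.Agent.Work.MP_dd0ddf_al.C2.SFPull

/-!
# MP_dd0ddf_al (characteristic 2), module DownB: descent along fibration B to a functional on nilpotent self-adjoint L-linear operators

Notation of module DownU.  τ0 := R.tau τ, `G0 := resG E0 g₀ ∈ YS B0 q2` (resG_ys), `K0 := R.U (simK hg τ)`; `thG τ0 G0 = G0 * K0` (rel_thG; simK = g₀⁻¹ θ(g₀)).
(2) f_downA gives S on `SF Fib (SF V)`, exists_uB the closed embedding u : Fib → SA BL with image {charpoly = X^n}.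
(3) `D f := S (SF.pull u hu f)` (SFPull: pull along a closed embedding is surjective).  So (D = 0 → S = 0 → T = 0), and SuppOn.
(4) invariance: for h ∈ UU BL let `γ := (R.U h, R.U (simC hg h))`: in the stabiliser of G0 (h g₀ (g₀⁻¹ h g₀)⁻¹ = g₀).  `D (SF.opr (saConjT BL h⁻¹).h (WL.l h ∘ WL.r (simC hg h)) f) = S (fop γ (pull f)) = δ(γ) D f` (hl, rel_r), and `h ↦ δ(γ_h)` is a PosChar of UU BL (PosChar.comap, relU_cont, continuous_simC), trivial by noPos.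
(5) antisymmetry: exists_symB (k := K0) gives s with `s.sX = xThk τ0 K0`; on Fib it is `c1 ↦ τ (G0⁻¹ c1 G0) τ`; under u it is `ν ↦ τ g₀⁻¹ ν g₀ τ = θ(g₀) (τ ν τ) θ(g₀)⁻¹` which is `(saSimT hg τ).h ν`: `θ(g₀) = τ g₀^* τ`, `g₀^* = s g₀⁻¹`, s commutes with ν.
(c ∈ K is fixed: g₀ is L-linear, τ c τ = star c = c.)  `s.sB = tneg F0 τ0 ∘ W0.r K0⁻¹ = tneg K τ ∘ WL.r (simK hg τ)⁻¹` (rel_tneg, rel_r).
So `D (SF.opr (saSimT hg τ).h (tneg K τ ∘ WL.r (simK hg τ)⁻¹) f) = -b D f`, b > 0.  Applying it twice gives the operator of (4) for some h, so b^2 = 1 if D ≠ 0 (copy the end of grpP1, module GrpP1: hsq), so b = 1.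
-/

set_option linter.unusedSectionVars false
set_option linter.style.haveILetI false

namespace Pool.Agent.Work.MP_dd0ddf_al.C2

noncomputable section

universe u

section sq

variable {F E : Type u} [NontriviallyNormedField F] [IsUltrametricDist F] [ProperSpace F]
  [CharP F 2] [NontriviallyNormedField E] [NormedAlgebra F E] [ProperSpace E] [StarRing E]
  [QExt F E] [Dl E] [MeasurableSpace E] [BorelSpace E]
variable {V : Type u} [AddCommGroup V] [Module E V] [Module.Finite E V] [TopologicalSpace V]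
  [IsTopologicalAddGroup V] [T2Space V] [ContinuousSMul E V]
variable {B : SkewH E V} {c : F} {g₀ : GV E V}

private theorem dnb_conjτ_smul (τ : AntiU B) (a : E) (X : Module.End E V) :
    conjτ τ (a • X) = star a • conjτ τ X := by
  ext v
  exact τ.smul _ _

/-- conjugation by `τ` on `GL(V)` -/
private def dnbT (τ : AntiU B) : GV E V →* GV E V :=
  Units.map
    { toFun := conjτ τ
      map_one' := conjτ_one τ
      map_mul' := conjτ_mul τ }

private theorem dnbT_T (τ : AntiU B) (g : GV E V) : dnbT τ (dnbT τ g) = g :=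
  Units.ext (conjτ_conjτ τ g.1)

private theorem dnbT_tauU (τ : AntiU B) (h : UU B) : (tauU τ h).1 = dnbT τ h.1 :=
  Units.ext rfl

/-- `g₀^* = c g₀⁻¹` -/
private theorem dnb_adj (hg : IsSim B c g₀) : adj B g₀.1 = algebraMap F E c • g₀⁻¹.1 := by
  have h1 := sim_adj hg
  have h3 : g₀⁻¹.1 * g₀.1 = 1 := g₀.inv_mul
  calc adj B g₀.1 = (g₀⁻¹.1 * g₀.1) * adj B g₀.1 := by rw [h3, one_mul]
    _ = g₀⁻¹.1 * (g₀.1 * adj B g₀.1) := mul_assoc _ _ _
    _ = _ := by rw [h1, mul_smul_comm, mul_one]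

/-- `θ(g₀)` is `τ g₀⁻¹ τ` times a scalar `z` with `τ z τ = z` -/
private theorem dnb_q (hg : IsSim B c g₀) (τ : AntiU B) : ∃ z : GV E V,
    thG τ g₀ = z * (dnbT τ g₀)⁻¹ ∧ (∀ g, z * g = g * z) ∧ dnbT τ z = z ∧
      ∀ Y : Module.End E V, z.1 * Y = Y * z.1 := by
  have hc : algebraMap F E c ≠ 0 := fun h => hg.1 ((algebraMap F E).injective (by rw [h, map_zero]))
  refine ⟨⟨algebraMap F E c • 1, (algebraMap F E c)⁻¹ • 1, ?_, ?_⟩, ?_, ?_, ?_, ?_⟩
  · rw [smul_mul_smul_comm, mul_inv_cancel₀ hc, one_smul, one_mul]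
  · rw [smul_mul_smul_comm, inv_mul_cancel₀ hc, one_smul, one_mul]
  · apply Units.ext
    show conjτ τ (adj B g₀.1) = (algebraMap F E c • 1) * conjτ τ g₀⁻¹.1
    rw [dnb_adj hg, dnb_conjτ_smul, QExt.star_alg, smul_mul_assoc, one_mul]
  · intro g
    apply Units.ext
    show (algebraMap F E c • (1 : Module.End E V)) * g.1 = g.1 * (algebraMap F E c • 1)
    rw [smul_mul_assoc, mul_smul_comm, one_mul, mul_one]
  · apply Units.ext
    show conjτ τ (algebraMap F E c • 1) = algebraMap F E c • 1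
    rw [dnb_conjτ_smul, QExt.star_alg, conjτ_one]
  · intro Y
    show (algebraMap F E c • (1 : Module.End E V)) * Y = Y * (algebraMap F E c • 1)
    rw [smul_mul_assoc, mul_smul_comm, one_mul, mul_one]

private theorem dnb_tauk (hg : IsSim B c g₀) (τ : AntiU B) :
    (tauU τ (simK hg τ)).1 = thG τ g₀ * g₀⁻¹ := by
  obtain ⟨z, hz1, hz2, hz3, hz4⟩ := dnb_q hg τ
  rw [dnbT_tauU]
  show dnbT τ (g₀⁻¹ * thG τ g₀) = _
  rw [hz1, map_mul, map_mul, map_inv, map_inv, hz3, dnbT_T, hz2 g₀⁻¹, ← mul_assoc, ← hz2,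
    mul_assoc]

private theorem dnb_simC_tauk (hg : IsSim B c g₀) (τ : AntiU B) :
    simC hg (tauU τ (simK hg τ)) = simK hg τ := by
  apply Subtype.ext
  show g₀⁻¹ * (tauU τ (simK hg τ)).1 * g₀ = g₀⁻¹ * thG τ g₀
  rw [dnb_tauk]
  group

private theorem dnb_sq {p : PChar F} (W : WeilRep B p) (hg : IsSim B c g₀) (τ : AntiU B)
    (f : SF (SA B) (SF V ℂ)) : SF.opr (saSimT hg τ).h
      (tneg F τ ∘ₗ W.r (simK hg τ)⁻¹) (SF.opr (saSimT hg τ).h
      (tneg F τ ∘ₗ W.r (simK hg τ)⁻¹) f) =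
      SF.opr (saConjT B ((tauU τ (simK hg τ))⁻¹)⁻¹).h (W.l (tauU τ (simK hg τ))⁻¹ ∘ₗ
        W.r (simC hg (tauU τ (simK hg τ))⁻¹)) f := by
  apply SF.ext
  intro X
  have htr : ∀ (h : UU B) (φ : SF V ℂ), tneg F τ (W.r h φ) =
      W.l (tauU τ h) (tneg F τ φ) := fun h φ =>
    congrArg (fun R : SF V ℂ →ₗ[ℂ] SF V ℂ => R φ) (tneg_r W τ h)
  have htinv : tauU τ (simK hg τ)⁻¹ = (tauU τ (simK hg τ))⁻¹ := by
    have h1 : tauU τ (simK hg τ)⁻¹ * tauU τ (simK hg τ) = 1 := by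
      rw [← tauU_mul, inv_mul_cancel]
      apply Subtype.ext
      apply Units.ext
      exact conjτ_one τ
    exact eq_inv_of_mul_eq_one_left h1
  have hXX : (saSimT hg τ).h ((saSimT hg τ).h X) =
      (saConjT B ((tauU τ (simK hg τ))⁻¹)⁻¹).h X := by
    obtain ⟨z, hz1, hz2, hz3, hz4⟩ := dnb_q hg τ
    apply Subtype.ext
    rw [inv_inv]
    show (thG τ g₀).1 * conjτ τ ((thG τ g₀).1 * conjτ τ X.1 * (thG τ g₀)⁻¹.1) *
      (thG τ g₀)⁻¹.1 = (tauU τ (simK hg τ)).1.1 * X.1 * (tauU τ (simK hg τ)).1⁻¹.1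
    rw [conjτ_mul, conjτ_mul, conjτ_conjτ, dnb_tauk]
    have h2 : dnbT τ (thG τ g₀) = z * g₀⁻¹ := by
      rw [hz1, map_mul, map_inv, hz3, dnbT_T]
    have h3 : thG τ g₀ * dnbT τ (thG τ g₀) = z * (thG τ g₀ * g₀⁻¹) := by
      rw [h2, ← mul_assoc, ← hz2, mul_assoc]
    have h4 : (dnbT τ (thG τ g₀))⁻¹ * (thG τ g₀)⁻¹ = (thG τ g₀ * g₀⁻¹)⁻¹ * z⁻¹ := by
      rw [← mul_inv_rev, h3, mul_inv_rev]
    have h5 : (thG τ g₀).1 * (conjτ τ (thG τ g₀).1 * X.1 * conjτ τ (thG τ g₀)⁻¹.1) *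
        (thG τ g₀)⁻¹.1 = (thG τ g₀ * dnbT τ (thG τ g₀)).1 * X.1 *
          ((dnbT τ (thG τ g₀))⁻¹ * (thG τ g₀)⁻¹).1 := by
      show _ = (thG τ g₀).1 * conjτ τ (thG τ g₀).1 * X.1 *
        (conjτ τ (thG τ g₀)⁻¹.1 * (thG τ g₀)⁻¹.1)
      simp only [mul_assoc]
    rw [h5, h3, h4]
    have hzc : z.1 * z⁻¹.1 = 1 := z.mul_inv
    show z.1 * (thG τ g₀ * g₀⁻¹).1 * X.1 * ((thG τ g₀ * g₀⁻¹)⁻¹.1 * z⁻¹.1) = _
    rw [mul_assoc z.1, hz4, mul_assoc _ z.1, ← mul_assoc z.1 _ z⁻¹.1, hz4 _, mul_assoc _ z.1,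
      hzc, mul_one]
  show tneg F τ (W.r (simK hg τ)⁻¹ (tneg F τ (W.r (simK hg τ)⁻¹
    (f ((saSimT hg τ).h ((saSimT hg τ).h X)))))) =
    W.l (tauU τ (simK hg τ))⁻¹ (W.r (simC hg (tauU τ (simK hg τ))⁻¹)
      (f ((saConjT B ((tauU τ (simK hg τ))⁻¹)⁻¹).h X)))
  rw [hXX, htr, tneg_tneg, htinv, map_inv (simC hg), dnb_simC_tauk]

/-- from `anti` with a positive constant to `anti` -/
private theorem dnb_one {p : PChar F} (W : WeilRep B p) (hg : IsSim B c g₀) (τ : AntiU B)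
    (D : SF (SA B) (SF V ℂ) →ₗ[ℂ] ℂ)
    (hi : ∀ (h : UU B) (f : SF (SA B) (SF V ℂ)),
      D (SF.opr (saConjT B h⁻¹).h (W.l h ∘ₗ W.r (simC hg h)) f) = D f)
    (b : ℝ) (hb : 0 < b) (ha : ∀ f : SF (SA B) (SF V ℂ),
      D (SF.opr (saSimT hg τ).h (tneg F τ ∘ₗ W.r (simK hg τ)⁻¹) f) = -(b : ℂ) * D f)
    (f : SF (SA B) (SF V ℂ)) :
    D (SF.opr (saSimT hg τ).h (tneg F τ ∘ₗ W.r (simK hg τ)⁻¹) f) = - D f := by
  by_cases hD : D = 0
  · rw [hD, LinearMap.zero_apply, LinearMap.zero_apply, neg_zero]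
  · obtain ⟨f', hf⟩ : ∃ f, D f ≠ 0 := by
      by_contra h
      push Not at h
      exact hD (LinearMap.ext h)
    have h1 := hi (tauU τ (simK hg τ))⁻¹ f'
    rw [← dnb_sq, ha, ha] at h1
    have h2 : (b : ℂ) * b = 1 := by
      refine mul_right_cancel₀ hf ?_
      rw [one_mul]
      linear_combination h1
    have h3 : b * b = 1 := by exact_mod_cast h2
    have h4 : b = 1 := by nlinarith
    rw [ha, h4, Complex.ofReal_one, neg_one_mul]

/-- the operator `(saSimT hg τ).h X` at a vector -/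
private theorem dnb_sim_apply (hg : IsSim B c g₀) (τ : AntiU B) (X : SA B) (v : V) :
    ((saSimT hg τ).h X).1 v = τ.t (g₀⁻¹.1 (X.1 (g₀.1 (τ.t v)))) := by
  have hc : algebraMap F E c ≠ 0 := fun h => hg.1 ((algebraMap F E).injective (by rw [h, map_zero]))
  have h1 : ∀ w, (thG τ g₀).1 w = algebraMap F E c • τ.t (g₀⁻¹.1 (τ.t w)) := by
    intro w
    show τ.t (adj B g₀.1 (τ.t w)) = _
    rw [dnb_adj hg]
    show τ.t (algebraMap F E c • g₀⁻¹.1 (τ.t w)) = _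
    rw [τ.smul, QExt.star_alg]
  have hgg : ∀ w, g₀⁻¹.1 (g₀.1 w) = w := fun w =>
    congrArg (fun f : Module.End E V => f w) g₀.inv_mul
  have h2 : ∀ w, (thG τ g₀)⁻¹.1 w = (algebraMap F E c)⁻¹ • τ.t (g₀.1 (τ.t w)) := by
    intro w
    have h3 : (thG τ g₀).1 ((algebraMap F E c)⁻¹ • τ.t (g₀.1 (τ.t w))) = w := by
      rw [map_smul, h1, τ.inv, hgg, τ.inv, smul_smul, inv_mul_cancel₀ hc, one_smul]
    have h4 : (thG τ g₀)⁻¹.1 ((thG τ g₀).1 ((algebraMap F E c)⁻¹ • τ.t (g₀.1 (τ.t w)))) =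
        (algebraMap F E c)⁻¹ • τ.t (g₀.1 (τ.t w)) :=
      congrArg (fun f : Module.End E V => f _) (thG τ g₀).inv_mul
    rw [h3] at h4
    exact h4
  show (thG τ g₀).1 (τ.t (X.1 (τ.t ((thG τ g₀)⁻¹.1 v)))) = _
  have hts : star (algebraMap F E c)⁻¹ = (algebraMap F E c)⁻¹ := by
    rw [← map_inv₀, QExt.star_alg]
  rw [h2, τ.smul, τ.inv, hts, map_smul, τ.smul, hts, h1, τ.smul, τ.inv, hts, map_smul, τ.smul,
    hts, smul_smul, mul_inv_cancel₀ hc, one_smul]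

end sq

variable {F0 E0 : Type u} [NontriviallyNormedField F0] [IsUltrametricDist F0] [ProperSpace F0]
  [CharP F0 2] [NontriviallyNormedField E0] [NormedAlgebra F0 E0] [ProperSpace E0] [StarRing E0]
  [QExt F0 E0] [Dl E0] [MeasurableSpace E0] [BorelSpace E0]
variable {K L : Type u} [NontriviallyNormedField K] [IsUltrametricDist K] [ProperSpace K]
  [CharP K 2] [NontriviallyNormedField L] [NormedAlgebra K L] [ProperSpace L] [StarRing L]
  [QExt K L] [Dl L] [MeasurableSpace L] [BorelSpace L] [Algebra E0 L]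
variable {V : Type u} [AddCommGroup V] [Module E0 V] [Module L V] [IsScalarTower E0 L V]
  [Module.Finite E0 V] [Module.Finite L V] [TopologicalSpace V]
  [IsTopologicalAddGroup V] [T2Space V] [ContinuousSMul E0 V] [ContinuousSMul L V]

theorem f_down {B0 : SkewH E0 V} {BL : SkewH L V} (R : FRel B0 BL) {p0 : PChar F0}
    {pL : PChar K} (W0 : WeilRep B0 p0) (WL : WeilRep BL pL)
    (hl : ∀ h : UU BL, WL.l h = W0.l (R.U h)) (j k : ℕ) (c0 : F0)
    (hirr : Irreducible ((qq (j + k) c0).map (algebraMap F0 E0))) (s : K)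
    (hgen : ∀ x : L, ∃ f : Polynomial E0, x = Polynomial.aeval (algebraMap K L s) f)
    (hs : (algebraMap K L s) ^ 2 ^ (j + k) = algebraMap E0 L (algebraMap F0 E0 c0))
    (hm : Module.finrank L V ≤ 2 ^ j) (g₀ : GV L V) (hg : IsSim BL s g₀) (τ : AntiU BL)
    (T : SF (XS B0 (qq j c0) (qq (j + k) c0)) (SF V ℂ) →ₗ[ℂ] ℂ)
    (hT : ∀ γ f, T ((xC B0 (qq j c0) (qq (j + k) c0)).op (wRep W0) γ f) = T f)
    (a : ℝ) (ha : 0 < a)
    (hT' : ∀ f, T (SF.opr (xTh (R.tau τ) (qq j c0) (qq (j + k) c0))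
      (tneg F0 (R.tau τ)) f) = -(a : ℂ) * T f) :
    ∃ D : SF (SA BL) (SF V ℂ) →ₗ[ℂ] ℂ, (D = 0 → T = 0) ∧ EInvA WL hg τ D ∧
      SF.SuppOn D {X : SA BL | LinearMap.charpoly X.1 =
        (Polynomial.X ^ Module.finrank L V : Polynomial K).map (algebraMap K L)} := by
  classical
  haveI := lc_SA K BL
  haveI := td_SA K BL
  set G0 : YS B0 (qq (j + k) c0) := ⟨resG E0 g₀, resG_ys R j k c0 s hs g₀ hg⟩ with hG0
  set K0 : UU B0 := R.U (simK hg τ) with hK0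
  obtain ⟨S, hS0, ⟨δ, hδ⟩, hSym⟩ := f_downA W0 (qq j c0) (qq (j + k) c0) (qq_monic _ _) hirr G0
    (R.tau τ) K0 T hT a ha hT'
  have hk : thG (R.tau τ) G0.1 = G0.1 * K0.1 := by
    have h1 : thG (R.tau τ) (resG E0 g₀) = resG E0 (thG τ g₀) := rel_thG R τ g₀
    have h2 : resG E0 (thG τ g₀) = resG E0 g₀ * resG E0 (g₀⁻¹ * thG τ g₀) := by
      rw [← map_mul, mul_inv_cancel_left]
    exact h1.trans h2
  obtain ⟨sy, hsX, hsB⟩ := exists_symB W0 (qq j c0) (qq (j + k) c0) (qq_monic _ _) hirr G0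
    (R.tau τ) K0 hk
  obtain ⟨b, hb, hbS⟩ := hSym sy hsX hsB
  obtain ⟨u, hu, hu1, hu2⟩ := exists_uB R W0 j k c0 hirr s hgen hs hm g₀ hg
  have hpull := SF.pull_surjective (B := SF V ℂ) u hu
  -- invariance
  have hstab : ∀ h : UU BL, (R.U h, R.U (simC hg h)) ∈
      (xB W0 (qq j c0) (qq (j + k) c0) (qq_monic _ _) hirr G0).stab := by
    intro h
    apply Subtype.ext
    show resG E0 h.1 * resG E0 g₀ * (resG E0 (g₀⁻¹ * h.1 * g₀))⁻¹ = resG E0 g₀
    rw [← map_inv, ← map_mul, ← map_mul]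
    congr 1
    group
  let κ : UU BL →* (xB W0 (qq j c0) (qq (j + k) c0) (qq_monic _ _) hirr G0).stab :=
    { toFun := fun h => ⟨(R.U h, R.U (simC hg h)), hstab h⟩
      map_one' := Subtype.ext (Prod.ext (map_one _) (by
        show R.U (simC hg 1) = 1
        rw [map_one, map_one]))
      map_mul' := fun a b => Subtype.ext (Prod.ext (map_mul _ _ _) (by
        show R.U (simC hg (a * b)) = R.U (simC hg a) * R.U (simC hg b)
        rw [map_mul, map_mul])) }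
  have hκ : Continuous κ :=
    ((relU_cont R).prodMk ((relU_cont R).comp (continuous_simC hg))).subtype_mk _
  have hδ1 : ∀ h, δ.δ (κ h) = 1 := fun h => noPos (F := K) BL (δ.comap κ hκ) h
  have hi : ∀ (h : UU BL) (f : SF (SA BL) (SF V ℂ)),
      (S ∘ₗ SF.pull u hu) (SF.opr (saConjT BL h⁻¹).h (WL.l h ∘ₗ WL.r (simC hg h)) f) =
        (S ∘ₗ SF.pull u hu) f := by
    intro h f
    have h1 := hδ (κ h) (SF.pull u hu f)
    rw [hδ1, Complex.ofReal_one, one_mul] at h1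
    show S (SF.pull u hu (SF.opr (saConjT BL h⁻¹).h (WL.l h ∘ₗ WL.r (simC hg h)) f)) =
      S (SF.pull u hu f)
    rw [← h1]
    congr 1
    apply SF.ext
    intro x
    have hux : (saConjT BL h⁻¹).h (u x) = u
        ((xB W0 (qq j c0) (qq (j + k) c0) (qq_monic _ _) hirr G0).fibAct.act (κ h)⁻¹ x) := by
      apply Subtype.ext
      apply LinearMap.ext
      intro v
      rw [hu1]
      show (h⁻¹).1.1 ((u x).1 ((h⁻¹).1⁻¹.1 v)) =
        (R.U h)⁻¹.1.1 (x.1.1.1.1 ((R.U h)⁻¹.1⁻¹.1 v)) - _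
      rw [hu1, map_sub, map_smul]
      have e1 : (h⁻¹).1.1 ((h⁻¹).1⁻¹.1 v) = v :=
        congrArg (fun f : Module.End L V => f v) (h⁻¹).1.mul_inv
      rw [e1, ← map_inv R.U h]
      rfl
    show WL.l h (WL.r (simC hg h) (f ((saConjT BL h⁻¹).h (u x)))) =
      W0.l (R.U h) (W0.r (R.U (simC hg h)) (f (u
        ((xB W0 (qq j c0) (qq (j + k) c0) (qq_monic _ _) hirr G0).fibAct.act (κ h)⁻¹ x))))
    rw [hl, rel_r R W0 WL hl, hux]
  -- the symmetry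
  have hsim : ∀ (x : (xB W0 (qq j c0) (qq (j + k) c0) (qq_monic _ _) hirr G0).Fib) (v : V),
      ((saSimT hg τ).h (u x)).1 v = (u (sy.fibHomeo x)).1 v := by
    intro x v
    rw [hu1, dnb_sim_apply, hu1]
    have e1 : (sy.fibHomeo x).1 = xThk (R.tau τ) K0 (qq j c0) (qq (j + k) c0) x.1 := by
      rw [← hsX]
      rfl
    have e2 : x.1.1.2 = resG E0 g₀ := congrArg Subtype.val x.2
    rw [e1]
    show τ.t (g₀⁻¹.1 (x.1.1.1.1 (g₀.1 (τ.t v)) - (algebraMap K L s) ^ 2 ^ k • g₀.1 (τ.t v))) =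
      (1 : GV E0 V).1 (τ.t (x.1.1.2⁻¹.1 (x.1.1.1.1 (x.1.1.2.1 (τ.t ((1 : GV E0 V)⁻¹.1 v)))))) -
        (algebraMap K L s) ^ 2 ^ k • v
    rw [e2, map_sub, map_smul, inv_one]
    have e3 : g₀⁻¹.1 (g₀.1 (τ.t v)) = τ.t v :=
      congrArg (fun f : Module.End L V => f (τ.t v)) g₀.inv_mul
    have e4 : ∀ x y, τ.t (x - y) = τ.t x - τ.t y := by
      intro x y
      have h1 := τ.add (x - y) y
      rw [sub_add_cancel] at h1
      rw [h1, add_sub_cancel_right]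
    rw [e3, e4, τ.smul, τ.inv, ← map_pow, QExt.star_alg, map_pow]
    rfl
  have hsym : ∀ f : SF (SA BL) (SF V ℂ),
      SF.pull u hu (SF.opr (saSimT hg τ).h (tneg K τ ∘ₗ WL.r (simK hg τ)⁻¹) f) =
        SF.opr sy.fibHomeo sy.sB (SF.pull u hu f) := by
    intro f
    apply SF.ext
    intro x
    have hux : (saSimT hg τ).h (u x) = u (sy.fibHomeo x) := by
      apply Subtype.ext
      apply LinearMap.ext
      intro v
      exact hsim x v
    show tneg K τ (WL.r (simK hg τ)⁻¹ (f ((saSimT hg τ).h (u x)))) =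
      sy.sB (f (u (sy.fibHomeo x)))
    rw [hsB]
    show _ = tneg F0 (R.tau τ) (W0.r K0⁻¹ (f (u (sy.fibHomeo x))))
    rw [rel_tneg (F0 := F0) (K := K) R τ, rel_r R W0 WL hl, map_inv R.U, hux]
  have hanti : ∀ f : SF (SA BL) (SF V ℂ),
      (S ∘ₗ SF.pull u hu) (SF.opr (saSimT hg τ).h (tneg K τ ∘ₗ WL.r (simK hg τ)⁻¹) f) =
        -(b : ℂ) * (S ∘ₗ SF.pull u hu) f := by
    intro f
    show S (SF.pull u hu _) = -(b : ℂ) * S (SF.pull u hu f)
    rw [hsym, hbS]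
  refine ⟨S ∘ₗ SF.pull u hu, fun h => hS0 ?_, ⟨hi, dnb_one WL hg τ _ hi b hb hanti⟩, ?_⟩
  · apply LinearMap.ext
    intro F
    obtain ⟨f, rfl⟩ := hpull F
    exact congrArg (fun D : SF (SA BL) (SF V ℂ) →ₗ[ℂ] ℂ => D f) h
  · intro f hf
    have h1 : SF.pull u hu f = 0 := by
      apply SF.ext
      intro x
      exact hf (u x) ((hu2 (u x)).1 ⟨x, rfl⟩)
    show S (SF.pull u hu f) = 0
    rw [h1, map_zero]

end

end Pool.Agent.Work.MP_dd0ddf_al.C2
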