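import Pool.Agent.Work.MP_dd0ddf_al.C2.WrSub
import Pool.Agent.Work.MP_dd0ddf_al.C2.SFPull
import Pool.Agent.Work.MP_dd0ddf_al.C2.FourInv

/-!
# MP_dd0ddf_al, module JDefs: isotropic subspaces Y: the integration map J : SF V → SF V1, V1 ≅ Y^⊥/Y

`exists_isoD`: V1 = a complement of Y in Y^⊥; `v ∈ V1` orthogonal to V1 is orthogonal to Y^⊥ = Y + V1, so in (Y^⊥)^⊥ = Y (orth_orth), so 0.
`pr_Y`: Y is orthogonal to V1.  `sub_pr`: v ∈ Y^⊥ = Y + V1.
`stabY`: isometries h with h Y = Y.  They preserve Y^⊥.  `indY h`: w ↦ pr(h w), isometry of V1 (⟨pr a, pr b⟩ = ⟨a, b⟩ for a, b ∈ Y^⊥); multiplicative since pr(h v) = pr(h pr v) for v ∈ Y^⊥.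
`emb_Y`: closed embedding (submodules of V are closed: finite dimensional).  `jFun_mem`: `(w, y) ↦ w + y` is a closed embedding V1 × Y → V; hI_slice.
-/

set_option linter.unusedSectionVars false
set_option linter.style.haveILetI false

namespace Pool.Agent.Work.MP_dd0ddf_al.C2

noncomputable section

universe u

/-- an isotropic subspace `Y` and a complement `V1` of `Y` in `Y^⊥` -/
structure IsoD {E V : Type*} [Field E] [StarRing E] [AddCommGroup V] [Module E V]
    (B : SkewH E V) where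
  Y : Submodule E V
  V1 : Submodule E V
  iso : ∀ y ∈ Y, ∀ y' ∈ Y, B.ip y y' = 0
  nd : NDeg B V1
  dec : orth B Y = Y ⊔ V1

section Alg0

variable {E V : Type*} [Field E] [StarRing E] [AddCommGroup V] [Module E V] (B : SkewH E V)

private theorem jd_symm {a b : V} (h : B.ip a b = 0) : B.ip b a = 0 := by
  rw [B.skew a b, h, star_zero, neg_zero]

private theorem jd_sub_left (a b w : V) : B.ip (a - b) w = B.ip a w - B.ip b w := by
  have h := B.smul_left (-1) b w
  rw [neg_smul, one_smul] at h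
  rw [sub_eq_add_neg, B.add_left, h]
  ring

end Alg0

theorem exists_isoD {E V : Type*} [Field E] [StarRing E] [AddCommGroup V] [Module E V]
    [Module.Finite E V] (B : SkewH E V) (Y : Submodule E V)
    (hY : ∀ y ∈ Y, ∀ y' ∈ Y, B.ip y y' = 0) : ∃ D : IsoD B, D.Y = Y := by
  have hle : Y ≤ orth B Y := fun y hy y' hy' => hY y hy y' hy'
  obtain ⟨C, hC⟩ := Submodule.exists_isCompl (Y.submoduleOf (orth B Y))
  have h1 : Y ⊔ C.map (orth B Y).subtype = orth B Y := by
    have h2 : (Y.submoduleOf (orth B Y)).map (orth B Y).subtype = Y := by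
      rw [Submodule.submoduleOf, Submodule.map_comap_subtype]
      exact inf_eq_right.2 hle
    have h3 : (Y.submoduleOf (orth B Y)).map (orth B Y).subtype ⊔ C.map (orth B Y).subtype =
        orth B Y := by
      rw [← Submodule.map_sup, hC.sup_eq_top, Submodule.map_top, Submodule.range_subtype]
    rw [h2] at h3
    exact h3
  refine ⟨⟨Y, C.map (orth B Y).subtype, hY, ?_, h1.symm⟩, rfl⟩
  intro u hu hw
  have hu1 : u ∈ orth B Y := by
    rw [← h1]
    exact Submodule.mem_sup_right hu
  have hu2 : u ∈ orth B (orth B Y) := by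
    intro x hx
    rw [← h1] at hx
    obtain ⟨y, hy, z, hz, rfl⟩ := Submodule.mem_sup.1 hx
    rw [B.add_right, hu1 y hy, hw z hz, add_zero]
  rw [orth_orth] at hu2
  obtain ⟨c, hc, rfl⟩ := Submodule.mem_map.1 hu
  have h3 : c ∈ (Y.submoduleOf (orth B Y)) ⊓ C := ⟨hu2, hc⟩
  rw [hC.inf_eq_bot, Submodule.mem_bot] at h3
  rw [h3, map_zero]

theorem IsoD.pr_Y {E V : Type*} [Field E] [StarRing E] [AddCommGroup V] [Module E V]
    [Module.Finite E V] {B : SkewH E V} (D : IsoD B) {y : V} (hy : y ∈ D.Y) :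
    prO B D.V1 D.nd y = 0 := by
  apply prO_of_orth
  intro u hu
  have h1 : u ∈ orth B D.Y := by
    rw [D.dec]
    exact Submodule.mem_sup_right hu
  exact jd_symm B (h1 y hy)

theorem IsoD.sub_pr {E V : Type*} [Field E] [StarRing E] [AddCommGroup V] [Module E V]
    [Module.Finite E V] {B : SkewH E V} (D : IsoD B) {v : V} (hv : v ∈ orth B D.Y) :
    v - prO B D.V1 D.nd v ∈ D.Y := by
  rw [D.dec] at hv
  obtain ⟨y, hy, z, hz, rfl⟩ := Submodule.mem_sup.1 hv
  rw [map_add, D.pr_Y hy, prO_of_mem B D.V1 D.nd hz, zero_add, add_sub_cancel_right]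
  exact hy

theorem IsoD.V1_le {E V : Type*} [Field E] [StarRing E] [AddCommGroup V] [Module E V]
    {B : SkewH E V} (D : IsoD B) : D.V1 ≤ orth B D.Y := by
  rw [D.dec]
  exact le_sup_right

/-- isometries preserving `Y` -/
def stabY {E V : Type*} [Field E] [StarRing E] [AddCommGroup V] [Module E V]
    {B : SkewH E V} (D : IsoD B) : Subgroup (UU B) where
  carrier := {h | ∀ v, h.1.1 v ∈ D.Y ↔ v ∈ D.Y}
  one_mem' := fun v => Iff.rfl
  mul_mem' := fun {a b} ha hb v => by
    show a.1.1 (b.1.1 v) ∈ D.Y ↔ v ∈ D.Y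
    rw [ha, hb]
  inv_mem' := fun {a} ha v => by
    have h1 : a.1.1 (a.1⁻¹.1 v) = v := congrArg (fun f : Module.End E V => f v) a.1.mul_inv
    have h2 := ha (a.1⁻¹.1 v)
    rw [h1] at h2
    exact h2.symm

private theorem jd_mul_inv {E V : Type*} [Field E] [AddCommGroup V] [Module E V]
    (a : GV E V) (v : V) : a.1 (a⁻¹.1 v) = v :=
  congrArg (fun f : Module.End E V => f v) a.mul_inv

private theorem jd_inv_mul {E V : Type*} [Field E] [AddCommGroup V] [Module E V]
    (a : GV E V) (v : V) : a⁻¹.1 (a.1 v) = v :=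
  congrArg (fun f : Module.End E V => f v) a.inv_mul

theorem stabY_orth {E V : Type*} [Field E] [StarRing E] [AddCommGroup V] [Module E V]
    [Module.Finite E V] {B : SkewH E V} (D : IsoD B) (h : stabY D) {v : V}
    (hv : v ∈ orth B D.Y) : h.1.1.1 v ∈ orth B D.Y := by
  intro y hy
  have h1 : h.1.1.1 (h.1.1⁻¹.1 y) = y := jd_mul_inv h.1.1 y
  have h2 : h.1.1⁻¹.1 y ∈ D.Y := (h.2 _).1 (by rw [h1]; exact hy)
  rw [← h1, h.1.2]
  exact hv _ h2

/-- a submodule-stable isometry from an inclusion -/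
theorem mem_stabY {E V : Type*} [Field E] [StarRing E] [AddCommGroup V] [Module E V]
    [Module.Finite E V] {B : SkewH E V} (D : IsoD B) (h : UU B)
    (hh : ∀ y ∈ D.Y, h.1.1 y ∈ D.Y) : h ∈ stabY D := by
  intro v
  refine ⟨fun hv => ?_, hh v⟩
  have hinj : Function.Injective h.1.1 := fun a b hab => by
    rw [← jd_inv_mul h.1 a, ← jd_inv_mul h.1 b, hab]
  have hmap : D.Y.map h.1.1 = D.Y := by
    apply Submodule.eq_of_le_of_finrank_eq
    · rintro _ ⟨y, hy, rfl⟩
      exact hh y hy
    · exact (Submodule.equivMapOfInjective h.1.1 hinj D.Y).finrank_eq.symm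
  rw [← hmap] at hv
  obtain ⟨y, hy, hyv⟩ := Submodule.mem_map.1 hv
  rw [← hinj hyv]
  exact hy

/-- `pr (h v) = pr (h (pr v))` for `v ∈ Y^⊥` -/
private theorem jd_pr {E V : Type*} [Field E] [StarRing E] [AddCommGroup V] [Module E V]
    [Module.Finite E V] {B : SkewH E V} (D : IsoD B) (h : stabY D) {v : V}
    (hv : v ∈ orth B D.Y) :
    prO B D.V1 D.nd (h.1.1.1 v) = prO B D.V1 D.nd (h.1.1.1 (prO B D.V1 D.nd v)) := by
  have h1 : h.1.1.1 (v - prO B D.V1 D.nd v) ∈ D.Y := (h.2 _).2 (D.sub_pr hv)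
  have h2 := D.pr_Y h1
  rw [map_sub, map_sub, sub_eq_zero] at h2
  exact h2

private theorem jd_comp {E V : Type*} [Field E] [StarRing E] [AddCommGroup V] [Module E V]
    [Module.Finite E V] {B : SkewH E V} (D : IsoD B) (h k : stabY D) (w : D.V1) :
    prO B D.V1 D.nd (h.1.1.1 (prO B D.V1 D.nd (k.1.1.1 (w : V)))) =
      prO B D.V1 D.nd ((h * k).1.1.1 (w : V)) := by
  have h1 : k.1.1.1 (w : V) ∈ orth B D.Y := stabY_orth D k (D.V1_le w.2)
  exact (jd_pr D h h1).symm

private theorem jd_ip {E V : Type*} [Field E] [StarRing E] [AddCommGroup V] [Module E V]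
    [Module.Finite E V] {B : SkewH E V} (D : IsoD B) {a b : V}
    (ha : a ∈ orth B D.Y) (hb : b ∈ orth B D.Y) :
    B.ip (prO B D.V1 D.nd a) (prO B D.V1 D.nd b) = B.ip a b := by
  have h1 := D.sub_pr ha
  have h2 := D.sub_pr hb
  have h3 : B.ip a b = B.ip (prO B D.V1 D.nd a + (a - prO B D.V1 D.nd a))
      (prO B D.V1 D.nd b + (b - prO B D.V1 D.nd b)) := by
    rw [add_sub_cancel, add_sub_cancel]
  have h4 : ∀ x, prO B D.V1 D.nd x ∈ orth B D.Y := fun x => D.V1_le (prO_mem B D.V1 D.nd x)
  rw [h3, B.add_left, B.add_right, B.add_right, h4 a _ h2, jd_symm B (h4 b _ h1),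
    D.iso _ h1 _ h2]
  ring

/-- the induced isometry of `V1 ≅ Y^⊥/Y` -/
def indY {E V : Type*} [Field E] [StarRing E] [AddCommGroup V] [Module E V]
    [Module.Finite E V] {B : SkewH E V} (D : IsoD B) :
    stabY D →* UU (B.restrict D.V1 D.nd) where
  toFun h := ⟨{ val := (prO B D.V1 D.nd ∘ₗ h.1.1.1 ∘ₗ D.V1.subtype).codRestrict D.V1
                  (fun w => prO_mem B D.V1 D.nd _)
                inv := (prO B D.V1 D.nd ∘ₗ h⁻¹.1.1.1 ∘ₗ D.V1.subtype).codRestrict D.V1
                  (fun w => prO_mem B D.V1 D.nd _)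
                val_inv := by
                  ext w
                  show prO B D.V1 D.nd (h.1.1.1 (prO B D.V1 D.nd (h⁻¹.1.1.1 (w : V)))) = (w : V)
                  rw [jd_comp, mul_inv_cancel]
                  exact prO_of_mem B D.V1 D.nd w.2
                inv_val := by
                  ext w
                  show prO B D.V1 D.nd (h⁻¹.1.1.1 (prO B D.V1 D.nd (h.1.1.1 (w : V)))) = (w : V)
                  rw [jd_comp, inv_mul_cancel]
                  exact prO_of_mem B D.V1 D.nd w.2 }, by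
                  intro v w
                  show B.ip (prO B D.V1 D.nd (h.1.1.1 (v : V)))
                    (prO B D.V1 D.nd (h.1.1.1 (w : V))) = B.ip (v : V) (w : V)
                  rw [jd_ip D (stabY_orth D h (D.V1_le v.2)) (stabY_orth D h (D.V1_le w.2)), h.1.2]⟩
  map_one' := by
    apply Subtype.ext
    apply Units.ext
    ext w
    exact prO_of_mem B D.V1 D.nd w.2
  map_mul' h k := by
    apply Subtype.ext
    apply Units.ext
    ext w
    exact (jd_comp D h k w).symm

theorem indY_apply {E V : Type*} [Field E] [StarRing E] [AddCommGroup V] [Module E V]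
    [Module.Finite E V] {B : SkewH E V} (D : IsoD B) (h : stabY D) (w : D.V1) :
    ((indY D h).1.1 w : V) = prO B D.V1 D.nd (h.1.1.1 (w : V)) := rfl

theorem indY_pr {E V : Type*} [Field E] [StarRing E] [AddCommGroup V] [Module E V]
    [Module.Finite E V] {B : SkewH E V} (D : IsoD B) (h : stabY D) {v : V}
    (hv : v ∈ orth B D.Y) : prO B D.V1 D.nd (h.1.1.1 v) =
      ((indY D h).1.1 ⟨prO B D.V1 D.nd v, prO_mem B D.V1 D.nd v⟩ : V) := by
  rw [indY_apply]
  exact jd_pr D h hv

variable {F E : Type u} [NontriviallyNormedField F] [IsUltrametricDist F] [ProperSpace F]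
  [CharP F 2] [NontriviallyNormedField E] [NormedAlgebra F E] [ProperSpace E] [StarRing E]
  [QExt F E]
variable {V : Type u} [AddCommGroup V] [Module E V] [Module.Finite E V] [TopologicalSpace V]
  [IsTopologicalAddGroup V] [T2Space V] [ContinuousSMul E V]

theorem continuous_indY {B : SkewH E V} (D : IsoD B) : Continuous (indY D) := by
  have hval : ∀ (φ : stabY D → stabY D), Continuous φ →
      Continuous (fun h : stabY D => (indY D (φ h)).1.1) := by
    intro φ hφ
    refine continuous_induced_rng.mpr (continuous_pi fun w => ?_)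
    rw [continuous_induced_rng]
    show Continuous (fun h : stabY D => prO B D.V1 D.nd ((φ h).1.1.1 (w : V)))
    have h1 : Continuous (fun h : stabY D => (φ h).1.1.1) :=
      Units.continuous_val.comp (continuous_subtype_val.comp (continuous_subtype_val.comp hφ))
    exact (LinearMap.continuous_of_finiteDimensional (prO B D.V1 D.nd)).comp
      ((continuous_end_apply (w : V)).comp h1)
  rw [continuous_induced_rng, Units.continuous_iff]
  refine ⟨hval id continuous_id, ?_⟩
  have h2 := hval (fun h => h⁻¹) continuous_inv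
  refine h2.congr fun h => ?_
  rw [map_inv]
  rfl

theorem emb_Y {B : SkewH E V} (D : IsoD B) (w : V) :
    Topology.IsClosedEmbedding (fun y : D.Y => w + (y : V)) := by
  have hY : IsClosed (D.Y : Set V) := D.Y.closed_of_finiteDimensional
  exact (Homeomorph.addLeft w).isClosedEmbedding.comp hY.isClosedEmbedding_subtypeVal

/-- `(J f)(w) = ∫_Y f(w + y) dy` -/
def jFun {B : SkewH E V} (D : IsoD B) (f : SF V ℂ) (w : V) : ℂ :=
  haveI := lc_V E D.Y
  hI (SF.pull (fun y : D.Y => w + (y : V)) (emb_Y D w) f)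

private theorem jd_emb2 {B : SkewH E V} (D : IsoD B) :
    Topology.IsClosedEmbedding (fun q : D.V1 × D.Y => (q.1 : V) + (q.2 : V)) := by
  let L : (D.V1 × D.Y) →ₗ[E] V := D.V1.subtype.coprod D.Y.subtype
  have hL : LinearMap.ker L = ⊥ := by
    rw [LinearMap.ker_eq_bot']
    rintro ⟨w, y⟩ h
    have h1 : (w : V) + (y : V) = 0 := h
    have h2 := congrArg (prO B D.V1 D.nd) h1
    rw [map_add, D.pr_Y y.2, prO_of_mem B D.V1 D.nd w.2, map_zero, add_zero] at h2
    rw [h2, zero_add] at h1
    exact Prod.ext (Subtype.ext h2) (Subtype.ext h1)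
  exact LinearMap.isClosedEmbedding_of_injective hL

variable (F) in
include F in
theorem jFun_mem {B : SkewH E V} (D : IsoD B) (f : SF V ℂ) :
    (fun w : D.V1 => jFun D f (w : V)) ∈ SF D.V1 ℂ := by
  haveI := lc_V E D.Y
  haveI := td_V F E D.Y
  haveI := lc_V E D.V1
  haveI := td_V F E D.V1
  obtain ⟨g, hg⟩ := hI_slice (SF.pull (fun q : D.V1 × D.Y => (q.1 : V) + (q.2 : V)) (jd_emb2 D) f)
  have h1 : (fun w : D.V1 => jFun D f (w : V)) = g.1 := by
    funext w
    have h2 := hg w
    show jFun D f (w : V) = g w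
    rw [h2]
    rfl
  rw [h1]
  exact g.2

variable (F) in
/-- `J : SF V → SF V1` -/
def jMap {B : SkewH E V} (D : IsoD B) : SF V ℂ →ₗ[ℂ] SF D.V1 ℂ where
  toFun f := ⟨fun w => jFun D f (w : V), jFun_mem F D f⟩
  map_add' f g := by
    apply Subtype.ext
    funext w
    show jFun D (f + g) (w : V) = jFun D f (w : V) + jFun D g (w : V)
    unfold jFun
    rw [map_add, map_add]
  map_smul' c f := by
    apply Subtype.ext
    funext w
    show jFun D (c • f) (w : V) = c • jFun D f (w : V)
    unfold jFun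
    rw [map_smul, map_smul]

theorem jMap_apply {B : SkewH E V} (D : IsoD B) (f : SF V ℂ) (w : D.V1) :
    jMap F D f w = jFun D f (w : V) := rfl

end

end Pool.Agent.Work.MP_dd0ddf_al.C2
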