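import Pool.Agent.Work.MP_dd0ddf_al.C2.GaussDefs

/-!
# MP_dd0ddf_al, module GaussApi: formal properties of the Gauss integrals

All follow from the definition (`kap_spec` with `K = {0}`) and properties of the Haar functional.
`kap_isom`: `α : U ≃ U'` linear with `β'.b (α v) (α w) = β.b v w`; the functional `f ↦ hI (f ∘ α)` on `SF U' ℂ` is translation invariant, so equals
`m hI` with `m > 0` (hI_unique).
`kap_scale_sq`: `κ(c t² β) = hmod(dil t) κ(c β)`: substitution `v → t v`.
`kap_prod`: Fubini (exists_fubini) on boxes `L × L'`.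
`kap_conj`: `κ(-β) = conj κ(β)`: complex conjugate of the integral (`conj ψ(x) = ψ(-x)`).
-/

set_option linter.unusedSectionVars false
set_option linter.style.haveILetI false

namespace Pool.Agent.Work.MP_dd0ddf_al.C2

noncomputable section

universe u

variable {F : Type u} [NontriviallyNormedField F] [IsUltrametricDist F] [ProperSpace F]
  [CharP F 2]
variable {U : Type u} [AddCommGroup U] [Module F U] [Module.Finite F U] [TopologicalSpace U]
  [IsTopologicalAddGroup U] [T2Space U] [ContinuousSMul F U] [LocallyCompactSpace U]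
  [TotallyDisconnectedSpace U]
variable {U' : Type u} [AddCommGroup U'] [Module F U'] [Module.Finite F U'] [TopologicalSpace U']
  [IsTopologicalAddGroup U'] [T2Space U'] [ContinuousSMul F U'] [LocallyCompactSpace U']
  [TotallyDisconnectedSpace U']

theorem gaussapi_star {F : Type*} [AddCommGroup F] [TopologicalSpace F] (p : PChar F)
    (x : F) : star (p.ψ x) = p.ψ (-x) := by
  have h1 : p.ψ x * p.ψ (-x) = 1 := by
    rw [← p.add, add_neg_cancel, gaussdefs_psi_zero p]
  have h2 : p.ψ x * star (p.ψ x) = 1 := by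
    have h3 := Complex.mul_conj (p.ψ x)
    rw [Complex.normSq_eq_norm_sq, p.norm_one] at h3
    rw [show star (p.ψ x) = (starRingEnd ℂ) (p.ψ x) from rfl, h3]
    norm_num
  have h4 : p.ψ x ≠ 0 := by
    intro h0
    rw [h0, zero_mul] at h1
    exact zero_ne_one h1
  exact mul_left_cancel₀ h4 (h2.trans h1.symm)

/-- a common choice of the compact open subgroup -/
theorem gaussapi_kap (β : QForm F U) (p : PChar F) :
    ∃ L0 : AddSubgroup U, IsOpen (L0 : Set U) ∧ IsCompact (L0 : Set U) ∧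
      ∀ (L : AddSubgroup U) (hL : IsOpen (L : Set U)) (hL' : IsCompact (L : Set U)), L0 ≤ L →
        hI (gfun β p L hL hL' 0) = kap β p := by
  obtain ⟨L0, h1, h2, h3⟩ := kap_spec β p {0} isCompact_singleton
  refine ⟨L0, h1, h2, fun L hL hL' hLL => ?_⟩
  rw [h3 L hL hL' hLL 0 (Set.mem_singleton 0)]
  rw [β.q_zero, neg_zero, gaussdefs_psi_zero p, mul_one]

theorem gaussapi_gfun0 (β : QForm F U) (p : PChar F) (L : AddSubgroup U)
    (hL : IsOpen (L : Set U)) (hL' : IsCompact (L : Set U)) (v : U) :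
    gfun β p L hL hL' 0 v = p.ψ (β.q v) * SF.single (L : Set U) hL' hL (1 : ℂ) v := by
  rw [gaussdefs_apply]
  have h4 : β.b v 0 = 0 := by
    have := β.smul_right 0 v 0
    rwa [zero_smul, zero_mul] at this
  rw [h4, gaussdefs_psi_zero p, one_mul]

/-- transport of the Gauss integral -/
theorem gaussapi_transport (αh : U ≃ₜ U') (hadd : ∀ x y, αh (x + y) = αh x + αh y)
    (m : ℂ) (hm : ∀ f : SF U' ℂ, hI (SF.comp αh f) = m * hI f) (β : QForm F U)
    (β' : QForm F U') (p : PChar F) (hb : ∀ v, β'.q (αh v) = β.q v) :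
    kap β p = m * kap β' p := by
  obtain ⟨L0, h1, h2, h3⟩ := gaussapi_kap β p
  obtain ⟨L0', h1', h2', h3'⟩ := gaussapi_kap β' p
  obtain ⟨L', hL'o, hL'c, hL's⟩ := uc_U F U' _ (h2'.union (h2.image αh.continuous))
  set αa : U →+ U' := AddMonoidHom.mk' αh hadd with hαa
  set L : AddSubgroup U := L'.comap αa with hL
  have hLset : (L : Set U) = αh ⁻¹' (L' : Set U') := rfl
  have hLo : IsOpen (L : Set U) := by
    rw [hLset]; exact hL'o.preimage αh.continuous
  have hLc : IsCompact (L : Set U) := by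
    rw [hLset, ← Homeomorph.image_symm]
    exact hL'c.image αh.symm.continuous
  have hLL : L0 ≤ L := fun x hx => hL's (Or.inr ⟨x, hx, rfl⟩)
  have hLL' : L0' ≤ L' := fun x hx => hL's (Or.inl hx)
  have e1 : gfun β p L hLo hLc 0 = SF.comp αh (gfun β' p L' hL'o hL'c 0) := by
    apply SF.ext
    intro v
    have e2 : SF.comp αh (gfun β' p L' hL'o hL'c 0) v = gfun β' p L' hL'o hL'c 0 (αh v) := rfl
    rw [e2, gaussapi_gfun0, gaussapi_gfun0, hb]
    congr 1
  rw [← h3 L hLo hLc hLL, ← h3' L' hL'o hL'c hLL', e1, hm]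

theorem kap_isom (α : U ≃ₗ[F] U') : ∃ m : ℝ, 0 < m ∧ ∀ (β : QForm F U) (β' : QForm F U')
    (p : PChar F), (∀ v, β'.q (α v) = β.q v) → kap β p = m * kap β' p := by
  set αh : U ≃ₜ U' := α.toContinuousLinearEquiv.toHomeomorph with hαh
  have hα : ∀ v, αh v = α v := fun v => rfl
  have hadd : ∀ x y, αh (x + y) = αh x + αh y := fun x y => by
    rw [hα, hα, hα, map_add]
  obtain ⟨φ, hφ⟩ := hI_unique (hI ∘ₗ SF.comp αh : SF U' ℂ →ₗ[ℂ] ℂ) (by
    intro a f
    show hI (SF.comp αh (SF.comp (Homeomorph.addRight a) f)) = hI (SF.comp αh f)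
    rw [← hI_trans (αh.symm a) (SF.comp αh f)]
    congr 1
    apply SF.ext
    intro v
    show f (αh v + a) = f (αh (v + αh.symm a))
    rw [hadd, αh.apply_symm_apply])
  have hφ' : ∀ f : SF U' ℂ, hI (SF.comp αh f) = φ 1 * hI f := by
    intro f
    have h1 : hI (SF.comp αh f) = φ (hI f) := hφ f
    rw [h1, show hI f = hI f • (1 : ℂ) by rw [smul_eq_mul, mul_one], map_smul, smul_eq_mul,
      smul_eq_mul, mul_one, mul_comm]
  -- positivity
  obtain ⟨N, hNo, hNc, -⟩ := exists_co_addSubgroup (Set.univ : Set U') isOpen_univ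
    (Set.mem_univ 0)
  have hKo : IsOpen (αh ⁻¹' (N : Set U')) := hNo.preimage αh.continuous
  have hKc : IsCompact (αh ⁻¹' (N : Set U')) := by
    rw [← Homeomorph.image_symm]
    exact hNc.image αh.symm.continuous
  have e1 : SF.comp αh (SF.single (N : Set U') hNc hNo (1 : ℂ)) =
      SF.single (αh ⁻¹' (N : Set U')) hKc hKo (1 : ℂ) := by
    apply SF.ext
    intro v
    have e2 : SF.comp αh (SF.single (N : Set U') hNc hNo (1 : ℂ)) v =
      SF.single (N : Set U') hNc hNo (1 : ℂ) (αh v) := rfl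
    rw [e2]
    by_cases hv : αh v ∈ N
    · rw [SF.single_apply_mem _ _ _ _ _ hv, SF.single_apply_mem]
      exact hv
    · rw [SF.single_apply_not_mem _ _ _ _ _ hv, SF.single_apply_not_mem]
      exact hv
  have h1 := hφ' (SF.single (N : Set U') hNc hNo (1 : ℂ))
  rw [e1, hI_single, hI_single, smul_eq_mul, smul_eq_mul, mul_one, mul_one] at h1
  have hv1 := hvol_pos _ hNc hNo ⟨0, N.zero_mem⟩
  have hv2 := hvol_pos _ hKc hKo ⟨0, by
    show αh 0 ∈ N
    rw [hα, map_zero]
    exact N.zero_mem⟩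
  have h2 : φ 1 = ((hvol (αh ⁻¹' (N : Set U')) / hvol (N : Set U') : ℝ) : ℂ) := by
    have hne : ((hvol (N : Set U') : ℝ) : ℂ) ≠ 0 := by exact_mod_cast hv1.ne'
    rw [Complex.ofReal_div, h1, mul_div_cancel_right₀ _ hne]
  refine ⟨hvol (αh ⁻¹' (N : Set U')) / hvol (N : Set U'), div_pos hv2 hv1, ?_⟩
  intro β β' p hb
  rw [← h2]
  exact gaussapi_transport αh hadd (φ 1) hφ' β β' p hb

theorem kap_ext (β β' : QForm F U) (p : PChar F) (h : ∀ v, β.q v = β'.q v) :
    kap β p = kap β' p := by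
  have h1 := gaussapi_transport (Homeomorph.refl U) (fun _ _ => rfl) 1
    (fun f => by rw [one_mul]; rfl) β β' p (fun v => (h v).symm)
  rw [h1, one_mul]

theorem kap_scale_sq (β : QForm F U) (p : PChar F) (c t : F) (hc : c ≠ 0) (ht : t ≠ 0) :
    kap (β.scale (c * t ^ 2) (mul_ne_zero hc (pow_ne_zero 2 ht))) p =
      (hmod (dil U t ht) : ℂ) * kap (β.scale c hc) p := by
  refine gaussapi_transport (dil U t ht).h (dil U t ht).add _ (fun f => ?_) _ _ p (fun v => ?_)
  · rw [hI_comp_aut, smul_eq_mul]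
  · show c * β.q (t • v) = c * t ^ 2 * β.q v
    rw [β.q_smul]
    ring

theorem kap_prod : ∃ m : ℝ, 0 < m ∧ ∀ (β : QForm F U) (β' : QForm F U') (p : PChar F),
    kap (β.prod β') p = m * (kap β p * kap β' p) := by
  obtain ⟨m, hm, -, hfub⟩ := exists_fubini (G := U) (G' := U')
  refine ⟨m, hm, fun β β' p => ?_⟩
  obtain ⟨L0, h1, h2, h3⟩ := gaussapi_kap β p
  obtain ⟨L0', h1', h2', h3'⟩ := gaussapi_kap β' p
  obtain ⟨L0'', h1'', h2'', h3''⟩ := gaussapi_kap (β.prod β') p
  obtain ⟨L, hLo, hLc, hLs⟩ := uc_U F U _ (h2.union (h2''.image continuous_fst))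
  obtain ⟨L', hL'o, hL'c, hL's⟩ := uc_U F U' _ (h2'.union (h2''.image continuous_snd))
  have hPo : IsOpen ((L.prod L' : AddSubgroup (U × U')) : Set (U × U')) := hLo.prod hL'o
  have hPc : IsCompact ((L.prod L' : AddSubgroup (U × U')) : Set (U × U')) := hLc.prod hL'c
  have hP : L0'' ≤ L.prod L' := fun x hx =>
    ⟨hLs (Or.inr ⟨x, hx, rfl⟩), hL's (Or.inr ⟨x, hx, rfl⟩)⟩
  have e0 := hfub (gfun (β.prod β') p (L.prod L') hPo hPc 0)
    (hI (gfun β' p L' hL'o hL'c 0) • gfun β p L hLo hLc 0) (fun v => by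
    have e1 : SF.slice v (gfun (β.prod β') p (L.prod L') hPo hPc 0) =
        (gfun β p L hLo hLc 0 v) • gfun β' p L' hL'o hL'c 0 := by
      apply SF.ext
      intro w
      have e2 : SF.slice v (gfun (β.prod β') p (L.prod L') hPo hPc 0) w =
        gfun (β.prod β') p (L.prod L') hPo hPc 0 (v, w) := rfl
      have e3 : ((gfun β p L hLo hLc 0 v) • gfun β' p L' hL'o hL'c 0 : SF U' ℂ) w =
        gfun β p L hLo hLc 0 v * gfun β' p L' hL'o hL'c 0 w := rfl
      rw [e2, e3, gaussapi_gfun0, gaussapi_gfun0, gaussapi_gfun0]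
      have e4 : (β.prod β').q (v, w) = β.q v + β'.q w := rfl
      rw [e4, p.add]
      have e5 : SF.single ((L.prod L' : AddSubgroup (U × U')) : Set (U × U')) hPc hPo (1 : ℂ)
          (v, w) = SF.single (L : Set U) hLc hLo (1 : ℂ) v *
          SF.single (L' : Set U') hL'c hL'o (1 : ℂ) w := by
        by_cases hv : v ∈ L
        · by_cases hw : w ∈ L'
          · rw [SF.single_apply_mem _ _ _ _ _ hv, SF.single_apply_mem _ _ _ _ _ hw,
              SF.single_apply_mem _ _ _ _ _ (show (v, w) ∈ L.prod L' from ⟨hv, hw⟩), mul_one]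
          · rw [SF.single_apply_not_mem _ _ _ _ _ hw, SF.single_apply_not_mem _ _ _ _ _
              (show (v, w) ∉ L.prod L' from fun h => hw h.2), mul_zero]
        · rw [SF.single_apply_not_mem _ _ _ _ _ hv, SF.single_apply_not_mem _ _ _ _ _
              (show (v, w) ∉ L.prod L' from fun h => hv h.1), zero_mul]
      rw [e5]
      ring
    rw [e1, map_smul, smul_eq_mul]
    exact mul_comm _ _)
  rw [← h3'' _ hPo hPc hP, e0, map_smul, smul_eq_mul,
    h3 L hLo hLc (fun x hx => hLs (Or.inl hx)), h3' L' hL'o hL'c (fun x hx => hL's (Or.inl hx))]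
  ring

def gaussapiStar (f : SF U ℂ) : SF U ℂ :=
  ⟨fun x => star (f x), f.2.1.comp star, f.2.2.comp_left (star_zero ℂ)⟩

theorem gaussapi_hI_star (f : SF U ℂ) : hI (gaussapiStar f) = star (hI f) := by
  set T : SF U ℂ →ₗ[ℂ] ℂ :=
    { toFun := fun f => star (hI (gaussapiStar f))
      map_add' := fun f g => by
        have e1 : gaussapiStar (f + g) = gaussapiStar f + gaussapiStar g := by
          apply SF.ext
          intro v
          show star (f v + g v) = star (f v) + star (g v)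
          rw [star_add]
        rw [e1, map_add, star_add]
      map_smul' := fun c f => by
        have e1 : gaussapiStar (c • f) = star c • gaussapiStar f := by
          apply SF.ext
          intro v
          show star (c * f v) = star c * star (f v)
          rw [star_mul, mul_comm]
        rw [e1, map_smul, smul_eq_mul, star_mul, star_star, RingHom.id_apply, smul_eq_mul,
          mul_comm] } with hT
  obtain ⟨φ, hφ⟩ := hI_unique T (by
    intro a f
    show star (hI (gaussapiStar (SF.comp (Homeomorph.addRight a) f))) = star (hI (gaussapiStar f))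
    rw [← hI_trans a (gaussapiStar f)]
    rfl)
  have hφ' : ∀ f : SF U ℂ, star (hI (gaussapiStar f)) = φ 1 * hI f := by
    intro f
    have h1 : star (hI (gaussapiStar f)) = φ (hI f) := hφ f
    rw [h1, show hI f = hI f • (1 : ℂ) by rw [smul_eq_mul, mul_one], map_smul, smul_eq_mul,
      smul_eq_mul, mul_one, mul_comm]
  obtain ⟨N, hNo, hNc, -⟩ := exists_co_addSubgroup (Set.univ : Set U) isOpen_univ
    (Set.mem_univ 0)
  have e1 : gaussapiStar (SF.single (N : Set U) hNc hNo (1 : ℂ)) =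
      SF.single (N : Set U) hNc hNo (1 : ℂ) := by
    apply SF.ext
    intro v
    show star (SF.single (N : Set U) hNc hNo (1 : ℂ) v) = _
    by_cases hv : v ∈ N
    · rw [SF.single_apply_mem _ _ _ _ _ hv, star_one]
    · rw [SF.single_apply_not_mem _ _ _ _ _ hv, star_zero]
  have h1 := hφ' (SF.single (N : Set U) hNc hNo (1 : ℂ))
  rw [e1, hI_single, smul_eq_mul, mul_one] at h1
  have hv1 := hvol_pos _ hNc hNo ⟨0, N.zero_mem⟩
  have h2 : star ((hvol (N : Set U) : ℝ) : ℂ) = ((hvol (N : Set U) : ℝ) : ℂ) :=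
    Complex.conj_ofReal _
  rw [h2] at h1
  have hne : ((hvol (N : Set U) : ℝ) : ℂ) ≠ 0 := by exact_mod_cast hv1.ne'
  have h3 : φ 1 = 1 := mul_right_cancel₀ hne (by rw [one_mul]; exact h1.symm)
  have h4 := hφ' f
  rw [h3, one_mul] at h4
  rw [← h4, star_star]

theorem kap_conj (β β' : QForm F U) (p : PChar F) (h : ∀ v, β'.q v = - β.q v) :
    kap β' p = star (kap β p) := by
  obtain ⟨L0, h1, h2, h3⟩ := gaussapi_kap β p
  obtain ⟨L0', h1', h2', h3'⟩ := gaussapi_kap β' p
  obtain ⟨L, hLo, hLc, hLs⟩ := uc_U F U _ (h2.union h2')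
  rw [← h3' L hLo hLc (fun x hx => hLs (Or.inr hx)), ← h3 L hLo hLc (fun x hx => hLs (Or.inl hx)),
    ← gaussapi_hI_star]
  congr 1
  apply SF.ext
  intro v
  have e1 : gaussapiStar (gfun β p L hLo hLc 0) v = star (gfun β p L hLo hLc 0 v) := rfl
  rw [e1, gaussapi_gfun0, gaussapi_gfun0, h, star_mul, mul_comm]
  have e2 : star (p.ψ (β.q v)) = p.ψ (-β.q v) := gaussapi_star p _
  rw [e2]
  congr 1
  by_cases hv : v ∈ L
  · rw [SF.single_apply_mem _ _ _ _ _ hv, star_one]
  · rw [SF.single_apply_not_mem _ _ _ _ _ hv, star_zero]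

end

end Pool.Agent.Work.MP_dd0ddf_al.C2
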