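import Pool.Agent.Work.MP_dd0ddf_al.C2.DpDefs
import Pool.Agent.Work.MP_dd0ddf_al.C2.JDefs
import Pool.Agent.Work.MP_dd0ddf_al.C2.K64
import Pool.Agent.Work.MP_dd0ddf_al.C2.KEx
import Pool.Agent.Work.MP_dd0ddf_al.C2.FdPoly

/-!
# MP_dd0ddf_al, module DpAlg: algebra of the cyclic block: Y = q^{k-1}(s) U

`s` self-adjoint, `U = cyc s e` nondegenerate, `ann(e) = q^k`, q irreducible over E.  `qSub F s e q j = q^j(s) U` (CycDefs).
`qs_mem`: for `f(s) e ∈ U`: `f(s) e ∈ q^j(s) U` iff `q^j ∣ f` (j ≤ k).  `qs_orth`: for `u ∈ U`: `u ⟂ q^j(s)U` iff `u ∈ q^{k-j}(s) U`: `⟨u, q^j w⟩ = ⟨q^j u, w⟩` (ip_aeval, q has coefficients in F) for all w ∈ U iff `q^j(s) u = 0` (nondegenerate) iff u ∈ q^{k-j}(s) U.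
`qs_iso`: isotropic for 2j ≥ k.
`dpY_nonzero`: ⟨η q^{k-1}(s) f(s) e, e⟩ vanishes for all f ∈ F[x] multiples...: `dp_form`: if `a, b ∈ E[x]` and for all `r ∈ F[x]`: `⟨η (r q^{k-1} a abar)(s) e, e⟩ = ⟨η s⁻¹ (r q^{k-1} b bbar)(s) e, e⟩` then `q ∣ x a abar - b bbar`: let `c ∈ E[x]` with `x c ≡ b bbar mod q` ; the E-linear functional
f ↦ ⟨η (q^{k-1} f (a abar - c))(s) e, e⟩ vanishes on F[x], hence on E[x]; nondegeneracy gives `q^{k-1} (a abar - c) (s) e = 0`.  So `q ∣ a abar - c`.
`bad_norm`: `q` bad, `q ∣ x a abar - b bbar` implies `q ∣ a` and `q ∣ b`: in L = E[x]/q (KData, minL): `s a abar = b bbar`; if `a ≠ 0` in L then s = N(b/a) is a norm, so by norm64 and norm_s `(-1)^d q(0)` is a norm from E: contradiction.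
-/

set_option linter.unusedSectionVars false
set_option linter.style.haveILetI false

namespace Pool.Agent.Work.MP_dd0ddf_al.C2

noncomputable section

universe u

variable {F E : Type u} [NontriviallyNormedField F] [IsUltrametricDist F] [ProperSpace F]
  [CharP F 2] [NontriviallyNormedField E] [NormedAlgebra F E] [ProperSpace E] [StarRing E]
  [QExt F E] [MeasurableSpace E] [BorelSpace E]
variable {V : Type u} [AddCommGroup V] [Module E V] [Module.Finite E V] [TopologicalSpace V]
  [IsTopologicalAddGroup V] [T2Space V] [ContinuousSMul E V]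

private theorem dpalg_mul (X : Module.End E V) (f g : Polynomial E) (e : V) :
    Polynomial.aeval X (f * g) e = Polynomial.aeval X f (Polynomial.aeval X g e) := by
  rw [map_mul]
  rfl

variable (F) in
private theorem dpalg_star (q : Polynomial F) :
    (q.map (algebraMap F E)).map (starRingEnd E) = q.map (algebraMap F E) := by
  rw [Polynomial.map_map]
  congr 1
  ext x
  exact QExt.star_alg x

variable (F) in
private theorem dpalg_star_pow (q : Polynomial F) (j : ℕ) :
    ((q.map (algebraMap F E)) ^ j).map (starRingEnd E) = (q.map (algebraMap F E)) ^ j := by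
  rw [Polynomial.map_pow, dpalg_star F q]

private theorem dpalg_mem_q (X : Module.End E V) (e : V) (q : Polynomial F) (j : ℕ) (v : V) :
    v ∈ qSub F X e q j ↔ ∃ g : Polynomial E,
      v = Polynomial.aeval X ((q.map (algebraMap F E)) ^ j * g) e := by
  constructor
  · rintro ⟨w, hw, rfl⟩
    obtain ⟨g, rfl⟩ := (mem_cyc X e w).1 hw
    exact ⟨g, (dpalg_mul X _ g e).symm⟩
  · rintro ⟨g, rfl⟩
    exact ⟨Polynomial.aeval X g e, (mem_cyc X e _).2 ⟨g, rfl⟩, (dpalg_mul X _ g e).symm⟩

private theorem dpalg_sub (X : Module.End E V) (e : V) (f g : Polynomial E) :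
    Polynomial.aeval X f e = Polynomial.aeval X g e ↔ Polynomial.aeval X (f - g) e = 0 := by
  rw [map_sub, LinearMap.sub_apply, sub_eq_zero]

private theorem dpalg_zr (B : SkewH E V) (v : V) : B.ip v 0 = 0 := by
  have h := B.smul_right 0 v 0
  rwa [zero_smul, star_zero, zero_mul] at h

private theorem dpalg_zl (B : SkewH E V) (v : V) : B.ip 0 v = 0 := by
  have h := B.smul_left 0 0 v
  rwa [zero_smul, zero_mul] at h

private theorem dpalg_star_L {q : Polynomial F} (D : KData F E q) (f : Polynomial E) :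
    star (Polynomial.aeval (algebraMap D.K D.L D.s) f) =
      Polynomial.aeval (algebraMap D.K D.L D.s) (f.map (starRingEnd E)) := by
  have hs : star (algebraMap D.K D.L D.s) = algebraMap D.K D.L D.s :=
    QExt.star_alg (F := D.K) (E := D.L) D.s
  induction f using Polynomial.induction_on' with
  | add f g hf hg => rw [map_add, star_add, hf, hg, Polynomial.map_add, map_add]
  | monomial n a =>
    rw [Polynomial.map_monomial, Polynomial.aeval_monomial, Polynomial.aeval_monomial,
      star_mul', star_pow, hs, KCompat.star_comm (F := F) (E := E) (K := D.K) (L := D.L)]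
    rfl

private theorem dpalg_comm (X : Module.End E V) (f g : Polynomial E) (v : V) :
    Polynomial.aeval X f (Polynomial.aeval X g v) =
      Polynomial.aeval X g (Polynomial.aeval X f v) := by
  rw [← dpalg_mul, ← dpalg_mul, mul_comm]

theorem qs_mem (B : SkewH E V) (X : SA B) (e : V) (q : Polynomial F) (k j : ℕ) (hj : j ≤ k)
    (hann : ∀ f : Polynomial E, Polynomial.aeval X.1 f e = 0 ↔
      (q.map (algebraMap F E)) ^ k ∣ f) (f : Polynomial E) :
    Polynomial.aeval X.1 f e ∈ qSub F X.1 e q j ↔ (q.map (algebraMap F E)) ^ j ∣ f := by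
  rw [dpalg_mem_q]
  constructor
  · rintro ⟨g, hg⟩
    rw [dpalg_sub, hann] at hg
    have h1 : (q.map (algebraMap F E)) ^ j ∣ f - (q.map (algebraMap F E)) ^ j * g :=
      (pow_dvd_pow _ hj).trans hg
    have h2 := dvd_add h1 (dvd_mul_right ((q.map (algebraMap F E)) ^ j) g)
    rwa [sub_add_cancel] at h2
  · rintro ⟨g, rfl⟩
    exact ⟨g, rfl⟩

theorem qs_orth (B : SkewH E V) (X : SA B) (e : V) (q : Polynomial F) (k j : ℕ) (hj : j ≤ k)
    (hq0 : q ≠ 0) (hann : ∀ f : Polynomial E, Polynomial.aeval X.1 f e = 0 ↔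
      (q.map (algebraMap F E)) ^ k ∣ f) (hnd : NDeg B (cyc X.1 e)) (u : V)
    (hu : u ∈ cyc X.1 e) : u ∈ orth B (qSub F X.1 e q j) ↔ u ∈ qSub F X.1 e q (k - j) := by
  have hQ0 : q.map (algebraMap F E) ≠ 0 :=
    (Polynomial.map_ne_zero_iff (algebraMap F E).injective).2 hq0
  obtain ⟨f, rfl⟩ := (mem_cyc X.1 e u).1 hu
  rw [qs_mem B X e q k (k - j) (Nat.sub_le k j) hann]
  have hkey : ∀ g : Polynomial E, B.ip (Polynomial.aeval X.1 f e)
      (Polynomial.aeval X.1 ((q.map (algebraMap F E)) ^ j * g) e) =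
      B.ip (Polynomial.aeval X.1 ((q.map (algebraMap F E)) ^ j * f) e)
        (Polynomial.aeval X.1 g e) := by
    intro g
    rw [dpalg_mul X.1 _ g, dpalg_mul X.1 _ f,
      ip_aeval B X.2 ((q.map (algebraMap F E)) ^ j) (Polynomial.aeval X.1 f e),
      dpalg_star_pow F]
  constructor
  · intro h
    have h1 : Polynomial.aeval X.1 ((q.map (algebraMap F E)) ^ j * f) e = 0 := by
      refine hnd _ ((mem_cyc X.1 e _).2 ⟨_, rfl⟩) fun w hw => ?_
      obtain ⟨g, rfl⟩ := (mem_cyc X.1 e w).1 hw
      rw [← hkey]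
      exact h _ ((dpalg_mem_q X.1 e q j _).2 ⟨g, rfl⟩)
    rw [hann] at h1
    have h2 : (q.map (algebraMap F E)) ^ j * (q.map (algebraMap F E)) ^ (k - j) ∣
        (q.map (algebraMap F E)) ^ j * f := by
      rw [← pow_add, Nat.add_sub_cancel' hj]
      exact h1
    exact (mul_dvd_mul_iff_left (pow_ne_zero j hQ0)).1 h2
  · intro h w hw
    obtain ⟨g, rfl⟩ := (dpalg_mem_q X.1 e q j _).1 hw
    rw [hkey]
    have h1 : Polynomial.aeval X.1 ((q.map (algebraMap F E)) ^ j * f) e = 0 := by
      rw [hann]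
      have h2 := mul_dvd_mul_left ((q.map (algebraMap F E)) ^ j) h
      rwa [← pow_add, Nat.add_sub_cancel' hj] at h2
    rw [h1, dpalg_zl]

theorem qs_iso (B : SkewH E V) (X : SA B) (e : V) (q : Polynomial F) (k j : ℕ)
    (hj : k ≤ 2 * j) (hann : ∀ f : Polynomial E, Polynomial.aeval X.1 f e = 0 ↔
      (q.map (algebraMap F E)) ^ k ∣ f) :
    ∀ y ∈ qSub F X.1 e q j, ∀ y' ∈ qSub F X.1 e q j, B.ip y y' = 0 := by
  intro y hy y' hy'
  obtain ⟨f, rfl⟩ := (dpalg_mem_q X.1 e q j _).1 hy
  obtain ⟨g, rfl⟩ := (dpalg_mem_q X.1 e q j _).1 hy'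
  rw [dpalg_mul X.1 _ g, ← dpalg_star_pow F q j, ← ip_aeval B X.2, dpalg_star_pow F q j,
    ← dpalg_mul]
  have h1 : Polynomial.aeval X.1 ((q.map (algebraMap F E)) ^ j *
      ((q.map (algebraMap F E)) ^ j * f)) e = 0 := by
    rw [hann, ← mul_assoc, ← pow_add]
    exact Dvd.dvd.mul_right (pow_dvd_pow _ (by omega)) f
  rw [h1, dpalg_zl]

theorem bad_norm (q : Polynomial F) (hq : Bad F E q) (a b : Polynomial E)
    (h : q.map (algebraMap F E) ∣ Polynomial.X * (a * a.map (starRingEnd E)) -
      b * b.map (starRingEnd E)) :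
    q.map (algebraMap F E) ∣ a ∧ q.map (algebraMap F E) ∣ b := by
  obtain ⟨hqm, hqi, hq0, hqn⟩ := hq
  obtain ⟨D⟩ := exists_KData (F := F) (E := E) q hqm hqi
  haveI hKfd : FiniteDimensional F D.K :=
    KCompat.fd (F := F) (E := E) (K := D.K) (L := D.L)
  have hs0 : D.s ≠ 0 := by
    intro h0
    have h1 := KData.norm_s hqm D
    rw [h0, Algebra.norm_zero] at h1
    exact mul_ne_zero (pow_ne_zero _ (by norm_num)) hq0 h1.symm
  set σ : D.L := algebraMap D.K D.L D.s with hσ
  have hσ0 : σ ≠ 0 := (map_ne_zero _).2 hs0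
  have h1 := (D.minL _).2 h
  rw [map_sub, map_mul, map_mul, map_mul, Polynomial.aeval_X, ← dpalg_star_L, ← dpalg_star_L,
    sub_eq_zero] at h1
  have key : Polynomial.aeval σ a = 0 := by
    by_contra hA
    have hA' : star (Polynomial.aeval σ a) ≠ 0 := fun h0 => hA (by
      rw [← star_star (Polynomial.aeval σ a), h0, star_zero])
    have hB : Polynomial.aeval σ b ≠ 0 := by
      intro hB
      rw [← hσ, hB, zero_mul] at h1
      exact mul_ne_zero hσ0 (mul_ne_zero hA hA') h1
    have hN : IsNorm D.K D.L D.s := by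
      refine ⟨Polynomial.aeval σ b / Polynomial.aeval σ a, div_ne_zero hB hA, ?_⟩
      rw [star_div₀, div_mul_div_comm, div_eq_iff (mul_ne_zero hA hA')]
      exact h1.symm
    rw [norm64 (F := F) (E := E) (K := D.K) (L := D.L) D.s hs0, KData.norm_s hqm D] at hN
    exact hqn hN
  have key2 : Polynomial.aeval σ b = 0 := by
    rw [← hσ, key, zero_mul, mul_zero] at h1
    rcases mul_eq_zero.1 h1.symm with h2 | h2
    · exact h2
    · rw [← star_star (Polynomial.aeval σ b), h2, star_zero]
  exact ⟨(D.minL a).1 key, (D.minL b).1 key2⟩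

theorem dp_form (B : SkewH E V) (g : GV E V) (e : V) (q : Polynomial F) (k : ℕ) (hk : 0 < k)
    (hann : ∀ f : Polynomial E, Polynomial.aeval (sg B g).1 f e = 0 ↔
      (q.map (algebraMap F E)) ^ k ∣ f) (hnd : NDeg B (cyc (sg B g).1 e)) (η : E)
    (hη : star η = -η) (hη0 : η ≠ 0) (a b : Polynomial E)
    (h : ∀ r : Polynomial F,
      B.ip (η • Polynomial.aeval (sg B g).1
        ((r * q ^ (k - 1)).map (algebraMap F E) * (a * a.map (starRingEnd E))) e) e =
      B.ip (g⁻¹.1 (η • Polynomial.aeval (sg B g).1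
        ((r * q ^ (k - 1)).map (algebraMap F E) * (b * b.map (starRingEnd E))) e))
        (g⁻¹.1 e)) :
    q.map (algebraMap F E) ∣ Polynomial.X * (a * a.map (starRingEnd E)) -
      b * b.map (starRingEnd E) := by
  classical
  set Q : Polynomial E := q.map (algebraMap F E) with hQ
  set s : Module.End E V := (sg B g).1 with hs
  have hs1 : s = g.1 * adj B g.1 := rfl
  have hgi : ∀ v, g.1 (g⁻¹.1 v) = v := fun v =>
    congrArg (fun f : Module.End E V => f v) g.mul_inv
  have hgi' : ∀ v, g⁻¹.1 (g.1 v) = v := fun v =>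
    congrArg (fun f : Module.End E V => f v) g.inv_mul
  -- `s` is injective
  have hadj : ∀ v, adj B g⁻¹.1 (adj B g.1 v) = v := by
    intro v
    have h1 : adj B g⁻¹.1 * adj B g.1 = 1 := by
      rw [← adj_mul]
      have h2 : g.1 * g⁻¹.1 = 1 := g.mul_inv
      rw [h2, adj_one]
    exact congrArg (fun f : Module.End E V => f v) h1
  have hsinj : Function.Injective s := by
    intro v w hvw
    have h1 : g.1 (adj B g.1 v) = g.1 (adj B g.1 w) := hvw
    have h2 := congrArg (fun x => adj B g⁻¹.1 (g⁻¹.1 x)) h1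
    simp only [hgi', hadj] at h2
    exact h2
  -- `Q ≠ 0`
  have hQ0 : Q ≠ 0 := by
    intro h0
    have h1 := (hann (LinearMap.charpoly s)).1 (by
      rw [LinearMap.aeval_self_charpoly]
      rfl)
    rw [h0, zero_pow hk.ne', zero_dvd_iff] at h1
    exact (LinearMap.charpoly_monic s).ne_zero h1
  -- inverse of `s` on the cyclic space
  obtain ⟨c0, hc0⟩ : ∃ c0 : Polynomial E, Q ^ k ∣ Polynomial.X * c0 - 1 := by
    have hst : ∀ u ∈ cyc s e, s u ∈ cyc s e := by
      intro u hu
      obtain ⟨f, rfl⟩ := (mem_cyc s e u).1 hu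
      refine (mem_cyc s e _).2 ⟨Polynomial.X * f, ?_⟩
      rw [dpalg_mul, Polynomial.aeval_X]
    let T : cyc s e →ₗ[E] cyc s e := s.restrict hst
    have hT : Function.Injective T := by
      intro u w huw
      have h1 : s (u : V) = s (w : V) := congrArg (fun x : cyc s e => (x : V)) huw
      exact Subtype.ext (hsinj h1)
    obtain ⟨w, hw⟩ := (LinearMap.injective_iff_surjective.1 hT)
      ⟨e, (mem_cyc s e e).2 ⟨1, by rw [map_one]; rfl⟩⟩
    obtain ⟨c0, hc0⟩ := (mem_cyc s e _).1 w.2
    refine ⟨c0, ?_⟩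
    rw [← hann, ← dpalg_sub, dpalg_mul, ← hc0, Polynomial.aeval_X, map_one]
    exact congrArg (fun x : cyc s e => (x : V)) hw
  set t : Polynomial E := a * a.map (starRingEnd E) - c0 * (b * b.map (starRingEnd E)) with ht
  have hQt : Q ∣ t := by
    -- the functional vanishes
    have hfun : ∀ r : Polynomial F,
        B.ip (η • Polynomial.aeval s ((r * q ^ (k - 1)).map (algebraMap F E) * t) e) e = 0 := by
      intro r
      set R : Polynomial E := (r * q ^ (k - 1)).map (algebraMap F E) with hR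
      have h1 := h r
      have h2 : Polynomial.aeval s (R * (b * b.map (starRingEnd E))) e =
          s (Polynomial.aeval s (R * (c0 * (b * b.map (starRingEnd E)))) e) := by
        have h3 : s (Polynomial.aeval s (R * (c0 * (b * b.map (starRingEnd E)))) e) =
            Polynomial.aeval s (Polynomial.X * (R * (c0 * (b * b.map (starRingEnd E))))) e := by
          rw [dpalg_mul s Polynomial.X, Polynomial.aeval_X]
        rw [h3, dpalg_sub, hann]
        have h4 : R * (b * b.map (starRingEnd E)) -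
            Polynomial.X * (R * (c0 * (b * b.map (starRingEnd E)))) =
            (Polynomial.X * c0 - 1) * (-(R * (b * b.map (starRingEnd E)))) := by ring
        rw [h4]
        exact hc0.mul_right _
      rw [h2, ← map_smul s η] at h1
      have h5 : ∀ v w, B.ip (g⁻¹.1 (s v)) (g⁻¹.1 w) = B.ip v w := by
        intro v w
        have h6 : g⁻¹.1 (s v) = adj B g.1 v := by
          rw [hs1]
          exact hgi' _
        rw [h6]
        have h7 := adj_spec B (adj B g.1) v (g⁻¹.1 w)
        rw [adj_adj, hgi] at h7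
        exact h7
      rw [h5] at h1
      rw [ht, mul_sub, map_sub, LinearMap.sub_apply, smul_sub]
      have h8 : ∀ x y : V, B.ip (x - y) e = B.ip x e - B.ip y e := fun x y =>
        map_sub (B.lin e) x y
      rw [h8, h1, sub_self]
    have hfun2 : ∀ f : Polynomial E,
        B.ip (η • Polynomial.aeval s (f * (Q ^ (k - 1) * t)) e) e = 0 := by
      intro f
      induction f using Polynomial.induction_on' with
      | add f g hf hg =>
        rw [add_mul, map_add, LinearMap.add_apply, smul_add, B.add_left, hf, hg, add_zero]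
      | monomial n c =>
        have h1 := hfun (Polynomial.X ^ n)
        rw [Polynomial.map_mul, Polynomial.map_pow, Polynomial.map_pow, Polynomial.map_X,
          ← hQ, mul_assoc] at h1
        have h2 : Polynomial.monomial n c * (Q ^ (k - 1) * t) =
            c • (Polynomial.X ^ n * (Q ^ (k - 1) * t)) := by
          rw [← Polynomial.C_mul_X_pow_eq_monomial, mul_assoc, Polynomial.smul_eq_C_mul]
        rw [h2, map_smul, LinearMap.smul_apply, smul_comm, B.smul_left, h1, mul_zero]
    have hz : Polynomial.aeval s (Q ^ (k - 1) * t) e = 0 := by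
      refine hnd _ ((mem_cyc s e _).2 ⟨_, rfl⟩) fun w hw => ?_
      obtain ⟨f, rfl⟩ := (mem_cyc s e w).1 hw
      have h1 := hfun2 (f.map (starRingEnd E))
      rw [B.smul_left, dpalg_mul, ip_aeval B (sg B g).2, Polynomial.map_map] at h1
      have h2 : (starRingEnd E).comp (starRingEnd E) = RingHom.id E := by
        ext x
        exact star_star x
      rw [h2, Polynomial.map_id] at h1
      exact (mul_eq_zero.1 h1).resolve_left hη0
    rw [hann] at hz
    have h3 : Q ^ (k - 1) * Q ∣ Q ^ (k - 1) * t := by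
      rw [← pow_succ, Nat.sub_add_cancel hk]
      exact hz
    exact (mul_dvd_mul_iff_left (pow_ne_zero _ hQ0)).1 h3
  have h9 : Polynomial.X * (a * a.map (starRingEnd E)) - b * b.map (starRingEnd E) =
      Polynomial.X * t + (Polynomial.X * c0 - 1) * (b * b.map (starRingEnd E)) := by
    rw [ht]
    ring
  rw [h9]
  exact dvd_add (hQt.mul_left _) (((dvd_pow_self Q hk.ne').trans hc0).mul_right _)

/-- the unipotent elements `1 + η r(s) q^{k-1}(s)` of the block -/
theorem exists_unip (B : SkewH E V) (X : SA B) (e : V) (q r : Polynomial F) (k : ℕ)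
    (hk : 2 ≤ k) (hann : ∀ f : Polynomial E, Polynomial.aeval X.1 f e = 0 ↔
      (q.map (algebraMap F E)) ^ k ∣ f) (hnd : NDeg B (cyc X.1 e)) (η : E)
    (hη : star η = -η) : ∃ c ∈ CU B X (cyc X.1 e), ∀ v : V,
      c.1.1 v = v + η • Polynomial.aeval X.1 ((r * q ^ (k - 1)).map (algebraMap F E))
        (prO B (cyc X.1 e) hnd v) := by
  set R : Polynomial E := (r * q ^ (k - 1)).map (algebraMap F E) with hR
  set U := cyc X.1 e with hU
  set P := prO B U hnd with hP
  have hUst : ∀ (f : Polynomial E) (u : V), u ∈ U → Polynomial.aeval X.1 f u ∈ U := by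
    intro f u hu
    obtain ⟨g, rfl⟩ := (mem_cyc X.1 e u).1 hu
    exact (mem_cyc X.1 e _).2 ⟨f * g, (dpalg_mul X.1 f g e).symm⟩
  have hOst : ∀ (f : Polynomial E) (w : V), w ∈ orth B U →
      Polynomial.aeval X.1 f w ∈ orth B U := by
    intro f w hw u hu
    rw [ip_aeval B X.2]
    exact hw _ (hUst _ u hu)
  have hPc : ∀ (f : Polynomial E) (v : V), P (Polynomial.aeval X.1 f v) =
      Polynomial.aeval X.1 f (P v) := by
    intro f v
    have h1 : v = P v + (v - P v) := by abel
    have h2 : P (Polynomial.aeval X.1 f (P v)) = Polynomial.aeval X.1 f (P v) :=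
      prO_of_mem B U hnd (hUst f _ (prO_mem B U hnd v))
    have h3 : P (Polynomial.aeval X.1 f (v - P v)) = 0 :=
      prO_of_orth B U hnd (hOst f _ (sub_prO_mem B U hnd v))
    calc P (Polynomial.aeval X.1 f v) = P (Polynomial.aeval X.1 f (P v + (v - P v))) := by
          rw [← h1]
      _ = Polynomial.aeval X.1 f (P v) := by rw [map_add, map_add, h2, h3, add_zero]
  have hR2 : ∀ u ∈ U, Polynomial.aeval X.1 R (Polynomial.aeval X.1 R u) = 0 := by
    intro u hu
    obtain ⟨g, rfl⟩ := (mem_cyc X.1 e u).1 hu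
    rw [← dpalg_mul, ← dpalg_mul, hann, hR, Polynomial.map_mul, Polynomial.map_pow]
    have h1 : r.map (algebraMap F E) * q.map (algebraMap F E) ^ (k - 1) *
        (r.map (algebraMap F E) * q.map (algebraMap F E) ^ (k - 1)) * g =
        q.map (algebraMap F E) ^ ((k - 1) + (k - 1)) *
          (r.map (algebraMap F E) * r.map (algebraMap F E) * g) := by
      rw [pow_add]
      ring
    rw [h1]
    exact (pow_dvd_pow _ (by omega)).mul_right _
  let N : Module.End E V := η • (Polynomial.aeval X.1 R * P)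
  have hNap : ∀ v, N v = η • Polynomial.aeval X.1 R (P v) := fun v => rfl
  have hNN : ∀ v, N (N v) = 0 := by
    intro v
    rw [hNap, hNap, map_smul, map_smul, hPc]
    have h1 : P (P v) = P v := prO_of_mem B U hnd (prO_mem B U hnd v)
    rw [h1, hR2 _ (prO_mem B U hnd v), smul_zero, smul_zero]
  have hNip : ∀ v w, B.ip (N v) w = - B.ip v (N w) := by
    intro v w
    have hPsa : ∀ a b, B.ip (P a) b = B.ip a (P b) := prO_SA B U hnd
    have hRs : R.map (starRingEnd E) = R := dpalg_star F (r * q ^ (k - 1))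
    rw [hNap, hNap, B.smul_left, B.smul_right, hη, ip_aeval B X.2, hRs, hPsa, hPc]
    ring
  have hone : ∀ v, (1 + N) v = v + N v := fun v => rfl
  have hone' : ∀ v, (1 - N) v = v - N v := fun v => rfl
  let c : GV E V := ⟨1 + N, 1 - N, by
    ext v
    show (1 + N) ((1 - N) v) = v
    rw [hone, hone', map_sub, hNN]
    abel, by
    ext v
    show (1 - N) ((1 + N) v) = v
    rw [hone', hone, map_add, hNN]
    abel⟩
  have hc : c ∈ UU B := by
    intro v w
    show B.ip ((1 + N) v) ((1 + N) w) = B.ip v w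
    rw [hone, hone, B.add_left, B.add_right, B.add_right, hNip v (N w), hNN, dpalg_zr,
      hNip v w]
    ring
  refine ⟨⟨c, hc⟩, ⟨?_, ?_⟩, fun v => rfl⟩
  · ext v
    show (1 + N) (X.1 v) = X.1 ((1 + N) v)
    rw [hone, hone, map_add]
    have h1 : N (X.1 v) = X.1 (N v) := by
      have h2 : ∀ v, X.1 v = Polynomial.aeval X.1 (Polynomial.X : Polynomial E) v := by
        intro v
        rw [Polynomial.aeval_X]
      rw [hNap, hNap, map_smul, h2 v, hPc, dpalg_comm, ← h2]
    rw [h1]
  · intro v hv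
    show (1 + N) v = v
    have h1 : P v = 0 := prO_of_orth B U hnd hv
    rw [hone, hNap, h1, map_zero, smul_zero, add_zero]

end

end Pool.Agent.Work.MP_dd0ddf_al.C2
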