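import Pool.Agent.Work.MP_dd0ddf_al.C2.CUPos
import Pool.Agent.Work.MP_dd0ddf_al.C2.GDefs
import Pool.Agent.Work.MP_dd0ddf_al.C2.CycDefs

/-!
# MP_dd0ddf_al, module DpDefs: hypotheses of the vanishing statement (D) (definitions only)
-/

set_option linter.unusedSectionVars false
set_option linter.style.haveILetI false

namespace Pool.Agent.Work.MP_dd0ddf_al.C2

noncomputable section

universe u

variable {F E : Type u} [NontriviallyNormedField F] [IsUltrametricDist F] [ProperSpace F]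
  [CharP F 2] [NontriviallyNormedField E] [NormedAlgebra F E] [ProperSpace E] [StarRing E]
  [QExt F E] [Dl E] [MeasurableSpace E] [BorelSpace E]
variable {V : Type u} [AddCommGroup V] [Module E V] [Module.Finite E V] [TopologicalSpace V]
  [IsTopologicalAddGroup V] [T2Space V] [ContinuousSMul E V]

/-- hypotheses of (D): a bad block of length `k` -/
structure DpHyp {B : SkewH E V} {p : PChar F} (W : WeilRep B p) (q : Polynomial F) (k : ℕ)
    (g : GV E V) (e : V) (lam : SF V ℂ →ₗ[ℂ] ℂ) : Prop where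
  bad : Bad F E q
  ann : ∀ f : Polynomial E, Polynomial.aeval (sg B g).1 f e = 0 ↔
    (q.map (algebraMap F E)) ^ k ∣ f
  nd : NDeg B (cyc (sg B g).1 e)
  inv : ∀ c ∈ CU B (sg B g) (cyc (sg B g).1 e), ∀ c' : UU B, c'.1 = g⁻¹ * c.1 * g →
    ∀ φ : SF V ℂ, lam (W.l c (W.r c' φ)) = lam φ

/-- (D) for blocks of length `k`, for all spaces over `E/F` -/
def DpGood (F E : Type u) [NontriviallyNormedField F] [IsUltrametricDist F] [ProperSpace F]
    [CharP F 2] [NontriviallyNormedField E] [NormedAlgebra F E] [ProperSpace E] [StarRing E]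
    [QExt F E] [Dl E] [MeasurableSpace E] [BorelSpace E] (q : Polynomial F) (k : ℕ) : Prop :=
  ∀ (V : Type u) [AddCommGroup V] [Module E V] [Module.Finite E V] [TopologicalSpace V]
    [IsTopologicalAddGroup V] [T2Space V] [ContinuousSMul E V] (B : SkewH E V) (p : PChar F)
    (W : WeilRep B p) (g : GV E V) (e : V) (lam : SF V ℂ →ₗ[ℂ] ℂ),
    DpHyp W q k g e lam → lam = 0

/-- replacing `g` by `g h`, `h ∈ U(V)` -/
theorem dpHyp_mul {B : SkewH E V} {p : PChar F} {W : WeilRep B p} {q : Polynomial F} {k : ℕ}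
    {g : GV E V} {e : V} {lam : SF V ℂ →ₗ[ℂ] ℂ} (h : DpHyp W q k g e lam) (h₀ : UU B) :
    DpHyp W q k (g * h₀.1) e (lam ∘ₗ W.r h₀) := by
  have hsg : sg B (g * h₀.1) = sg B g := by
    apply Subtype.ext
    show (g.1 * h₀.1.1) * adj B (g.1 * h₀.1.1) = g.1 * adj B g.1
    rw [adj_mul, uu_adj]
    have h1 : h₀.1.1 * h₀.1⁻¹.1 = 1 := h₀.1.mul_inv
    calc g.1 * h₀.1.1 * (h₀.1⁻¹.1 * adj B g.1)
        = g.1 * (h₀.1.1 * h₀.1⁻¹.1) * adj B g.1 := by simp only [mul_assoc]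
      _ = g.1 * adj B g.1 := by rw [h1, mul_one]
  refine ⟨h.bad, ?_, ?_, ?_⟩
  · rw [hsg]
    exact h.ann
  · rw [hsg]
    exact h.nd
  · rw [hsg]
    intro c hc c' hc' φ
    have h1 : (h₀ * c' * h₀⁻¹).1 = g⁻¹ * c.1 * g := by
      show h₀.1 * c'.1 * h₀.1⁻¹ = _
      rw [hc']
      group
    have h2 := h.inv c hc (h₀ * c' * h₀⁻¹) h1 (W.r h₀ φ)
    have hr : W.r h₀ (W.r c' φ) = W.r (h₀ * c' * h₀⁻¹) (W.r h₀ φ) := by
      have e1 : W.r (h₀ * c') φ = W.r h₀ (W.r c' φ) :=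
        congrArg (fun T : SF V ℂ →ₗ[ℂ] SF V ℂ => T φ) (r_mul W h₀ c')
      have e2 : W.r ((h₀ * c' * h₀⁻¹) * h₀) φ = W.r (h₀ * c' * h₀⁻¹) (W.r h₀ φ) :=
        congrArg (fun T : SF V ℂ →ₗ[ℂ] SF V ℂ => T φ) (r_mul W (h₀ * c' * h₀⁻¹) h₀)
      rw [← e1, ← e2, inv_mul_cancel_right]
    have hl : W.r h₀ (W.l c (W.r c' φ)) = W.l c (W.r h₀ (W.r c' φ)) :=
      (congrArg (fun T : SF V ℂ →ₗ[ℂ] SF V ℂ => T (W.r c' φ)) (l_r_comm W c h₀)).symm
    show lam (W.r h₀ (W.l c (W.r c' φ))) = lam (W.r h₀ φ)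
    rw [hl, hr]
    exact h2

end

end Pool.Agent.Work.MP_dd0ddf_al.C2
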