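import Pool.Agent.Work.MP_dd0ddf_al.C2.Topo
import Pool.Agent.Work.MP_dd0ddf_al.C2.BiOm

/-!
# MP_dd0ddf_al (characteristic 2), module NiDefs: the group of norm one elements
-/

set_option linter.unusedSectionVars false
set_option linter.style.haveILetI false

namespace Pool.Agent.Work.MP_dd0ddf_al.C2

noncomputable section

/-- the ball of radius `r` as an additive subgroup -/
def aball (L : Type*) [NontriviallyNormedField L] [IsUltrametricDist L] (r : ℝ) (hr : 0 ≤ r) :
    AddSubgroup L where
  carrier := {x | ‖x‖ ≤ r}
  zero_mem' := by simp [hr]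
  add_mem' := by
    intro a b ha hb
    exact (IsUltrametricDist.norm_add_le_max a b).trans (max_le ha hb)
  neg_mem' := by
    intro x hx
    show ‖-x‖ ≤ r
    rw [norm_neg]
    exact hx

/-- the group of norm one elements -/
def E1 (E : Type*) [Field E] [StarRing E] : Subgroup Eˣ where
  carrier := {x | (x : E) * star (x : E) = 1}
  one_mem' := by simp
  mul_mem' := by
    intro a b ha hb
    show ((a * b : Eˣ) : E) * star ((a * b : Eˣ) : E) = 1
    have ha' : (a : E) * star (a : E) = 1 := ha
    have hb' : (b : E) * star (b : E) = 1 := hb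
    rw [Units.val_mul, star_mul']
    calc (a : E) * b * (star (a : E) * star (b : E))
        = ((a : E) * star (a : E)) * ((b : E) * star (b : E)) := by ring
      _ = 1 := by rw [ha', hb', one_mul]
  inv_mem' := by
    intro a ha
    have ha' : (a : E) * star (a : E) = 1 := ha
    show ((a⁻¹ : Eˣ) : E) * star ((a⁻¹ : Eˣ) : E) = 1
    rw [Units.val_inv_eq_inv_val, star_inv₀, ← mul_inv, ha', inv_one]

end

end Pool.Agent.Work.MP_dd0ddf_al.C2
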