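import Mathlib

/-!
# MP_dd0ddf_al (characteristic 2), module NiHerb: an index computation (Herbrand quotient)

`A` abelian, `N, D : A → A` homomorphisms, `W` a subgroup of finite index with `ker N = D(A)`, `W ∩ ker N ⊆ D(W)`, `N(A) ⊆ ker D`, `N(W), D(W) ⊆ W`.
Then `[ker D : N(A)] = [W ∩ ker D : N(W)]`:
(1) `[NA : NW] [ker N : ker N ∩ W] = [A : W] = [DA : DW] [ker D : ker D ∩ W]`;
(2) `[ker N : DW] = [DA : DW] = [ker N : W ∩ ker N]`, hence `[NA : NW] = [ker D : W ∩ ker D] =: a`;
(3) `[ker D : NA] a = [ker D : NA][NA : NW] = [ker D : NW] = [ker D : W ∩ ker D][W ∩ ker D : NW]`.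
-/

set_option linter.unusedSectionVars false
set_option linter.style.haveILetI false

namespace Pool.Agent.Work.MP_dd0ddf_al.C2

theorem herbrand_split {A B : Type*} [CommGroup A] [CommGroup B] (f : A →* B) (W : Subgroup A) :
    (W.map f).relIndex f.range * W.relIndex f.ker = W.index := by
  have h1 : (W.map f).relIndex f.range = (W ⊔ f.ker).index := by
    rw [MonoidHom.range_eq_map, Subgroup.relIndex_map_map, top_sup_eq, Subgroup.relIndex_top_right]
  have h2 : W.relIndex (W ⊔ f.ker) = W.relIndex f.ker := by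
    rw [sup_comm, Subgroup.relIndex_sup_right]
  have h3 := Subgroup.relIndex_mul_index (H := W) (K := W ⊔ f.ker) le_sup_left
  rw [h1, ← h2, mul_comm]
  exact h3

theorem herbrand {A : Type*} [CommGroup A] (N D : A →* A) (W : Subgroup A) (hW : W.index ≠ 0)
    (hDN : N.range ≤ D.ker) (h90 : N.ker = D.range) (hU : W ⊓ N.ker ≤ W.map D)
    (hWN : W.map N ≤ W) (hWD : W.map D ≤ W) :
    N.range.relIndex D.ker = (W.map N).relIndex (W ⊓ D.ker) := by
  have e1 := herbrand_split N W
  have e2 := herbrand_split D W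
  have e3 : (W.map D).relIndex D.range = W.relIndex N.ker := by
    have h1 : W.map D = W ⊓ N.ker := by
      apply le_antisymm _ hU
      refine le_inf hWD ?_
      rw [h90, MonoidHom.range_eq_map]
      exact Subgroup.map_mono le_top
    rw [h1, h90, Subgroup.inf_relIndex_right]
  have hb : W.relIndex N.ker ≠ 0 := by
    intro h
    rw [h, mul_zero] at e1
    exact hW e1.symm
  have e4 : (W.map N).relIndex N.range = W.relIndex D.ker := by
    rw [e3, ← e1, mul_comm] at e2
    exact (Nat.eq_of_mul_eq_mul_right (Nat.pos_of_ne_zero hb) e2).symm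
  have ha : W.relIndex D.ker ≠ 0 := by
    intro h
    rw [← e4] at h
    rw [h, zero_mul] at e1
    exact hW e1.symm
  have hNW : W.map N ≤ N.range := by
    rw [MonoidHom.range_eq_map]
    exact Subgroup.map_mono le_top
  have e5 := Subgroup.relIndex_mul_relIndex (W.map N) N.range D.ker hNW hDN
  have e6 := Subgroup.relIndex_mul_relIndex (W.map N) (W ⊓ D.ker) D.ker
    (le_inf hWN (hNW.trans hDN)) inf_le_right
  rw [Subgroup.inf_relIndex_right] at e6
  rw [← e6, e4, mul_comm] at e5
  exact Nat.eq_of_mul_eq_mul_right (Nat.pos_of_ne_zero ha) e5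

end Pool.Agent.Work.MP_dd0ddf_al.C2
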