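import Pool.Agent.Work.MP_dd0ddf_al.C2.NiUnit
import Pool.Agent.Work.MP_dd0ddf_al.C2.NiHerb
import Pool.Agent.Work.MP_dd0ddf_al.C2.NiDefs

/-!
# MP_dd0ddf_al (characteristic 2), module NiMain: the norm index of a quadratic extension is 2

`A = E^×`, `N x = x star x`, `D x = x / star x`, `W = <t> U`, `U = 1 + ρ (O + O e)` (module NiUnit), `‖t‖ < 1`, `t ∈ F`.  Then `W ∩ ker D = <t> N(U)`,
`N(W) = <t²> N(U)`: index 2; `W ∩ ker N = U ∩ ker N = D(U)`; module NiHerb.
-/

set_option linter.unusedSectionVars false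
set_option linter.style.haveILetI false

namespace Pool.Agent.Work.MP_dd0ddf_al.C2

universe u

noncomputable section

variable {F E : Type u} [NontriviallyNormedField F] [IsUltrametricDist F] [ProperSpace F]
  [CharP F 2] [NontriviallyNormedField E] [NormedAlgebra F E] [ProperSpace E] [StarRing E]
  [QExt F E]

variable (F E) in
/-- the subgroup of norms -/
def normSub : Subgroup Fˣ where
  carrier := {c | IsNorm F E (c : F)}
  one_mem' := ⟨1, one_ne_zero, by simp⟩
  mul_mem' := by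
    rintro a b ⟨x, hx, hxa⟩ ⟨y, hy, hyb⟩
    refine ⟨x * y, mul_ne_zero hx hy, ?_⟩
    rw [star_mul', Units.val_mul, map_mul, ← hxa, ← hyb]
    ring
  inv_mem' := by
    rintro a ⟨x, hx, hxa⟩
    refine ⟨x⁻¹, inv_ne_zero hx, ?_⟩
    rw [star_inv₀, Units.val_inv_eq_inv_val, map_inv₀, ← hxa, mul_inv]

variable (E) in
/-- the norm as an endomorphism of `E^×` -/
private def nimN : Eˣ →* Eˣ where
  toFun x := x * star x
  map_one' := by rw [star_one, mul_one]
  map_mul' x y := by rw [star_mul, mul_comm (star y)]; exact mul_mul_mul_comm x y (star x) (star y)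

variable (E) in
/-- the homomorphism `x / star x` -/
private def nimQ : Eˣ →* Eˣ where
  toFun x := x * (star x)⁻¹
  map_one' := by
    show (1 : Eˣ) * (star (1 : Eˣ))⁻¹ = 1
    rw [star_one, inv_one, mul_one]
  map_mul' x y := by
    show (x * y) * (star (x * y))⁻¹ = (x * (star x)⁻¹) * (y * (star y)⁻¹)
    rw [star_mul, mul_inv_rev, mul_mul_mul_comm]

variable (F E) in
private def nimI : Fˣ →* Eˣ := Units.map (algebraMap F E).toMonoidHom

variable (F E) in
private theorem nimI_inj : Function.Injective (nimI F E) :=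
  Units.map_injective (algebraMap F E).injective

variable (F E) in
private theorem nimI_mem (x : Eˣ) : x ∈ (nimI F E).range ↔ star (x : E) = x := by
  constructor
  · rintro ⟨c, rfl⟩
    show star (algebraMap F E (c : F)) = algebraMap F E (c : F)
    exact QExt.star_alg _
  · intro hx
    obtain ⟨f, hf⟩ := fixed_of_star F E (x : E) hx
    have hf0 : f ≠ 0 := by
      rintro rfl
      rw [map_zero] at hf
      exact x.ne_zero hf
    refine ⟨Units.mk0 f hf0, ?_⟩
    apply Units.ext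
    exact hf.symm

variable (F E) in
private theorem nim_mapH : (normSub F E).map (nimI F E) = (nimN E).range := by
  ext y
  constructor
  · rintro ⟨c, hc, rfl⟩
    obtain ⟨x, hx0, hx⟩ : IsNorm F E (c : F) := hc
    refine ⟨Units.mk0 x hx0, ?_⟩
    apply Units.ext
    exact hx
  · rintro ⟨x, rfl⟩
    have h1 : nimN E x ∈ (nimI F E).range := by
      rw [nimI_mem]
      show star ((x : E) * star (x : E)) = (x : E) * star (x : E)
      rw [star_mul', star_star, mul_comm]
    obtain ⟨c, hc⟩ := h1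
    refine ⟨c, ?_, hc⟩
    refine ⟨(x : E), x.ne_zero, ?_⟩
    have := congrArg (fun u : Eˣ => (u : E)) hc
    exact this.symm

variable (F E) in
private theorem nim_kerQ : (nimQ E).ker = (nimI F E).range := by
  ext x
  rw [MonoidHom.mem_ker, nimI_mem]
  constructor
  · intro h
    have h1 : x * (star x)⁻¹ = 1 := h
    rw [mul_inv_eq_one] at h1
    have h2 := congrArg (fun u : Eˣ => (u : E)) h1
    rw [← Units.coe_star]
    exact h2.symm
  · intro h
    show x * (star x)⁻¹ = 1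
    rw [mul_inv_eq_one]
    apply Units.ext
    rw [Units.coe_star]
    exact h.symm

variable (F E) in
include F in
private theorem nim_h90 : (nimN E).ker = (nimQ E).range := by
  haveI : CharP E 2 := char2_of_injective (algebraMap F E).injective
  apply le_antisymm
  · intro z hz
    have hz' : (z : E) * star (z : E) = 1 := by
      have := congrArg (fun u : Eˣ => (u : E)) (MonoidHom.mem_ker.1 hz)
      exact this
    by_cases h : (z : E) = -1
    · refine ⟨1, ?_⟩
      rw [map_one]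
      apply Units.ext
      rw [h, Units.val_one, CharTwo.neg_eq]
    · have h1 : 1 + (z : E) ≠ 0 := by
        intro h0
        apply h
        linear_combination h0
      refine ⟨Units.mk0 (1 + (z : E)) h1, ?_⟩
      show Units.mk0 (1 + (z : E)) h1 * (star (Units.mk0 (1 + (z : E)) h1))⁻¹ = z
      rw [mul_inv_eq_iff_eq_mul]
      apply Units.ext
      rw [Units.val_mul, Units.coe_star, Units.val_mk0, star_add, star_one]
      linear_combination -hz'
  · rintro _ ⟨x, rfl⟩
    rw [MonoidHom.mem_ker]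
    show (x * (star x)⁻¹) * star (x * (star x)⁻¹) = 1
    apply Units.ext
    have hx : star (x : E) ≠ 0 := by
      intro h
      apply x.ne_zero
      rw [← star_star (x : E), h, star_zero]
    have hx0 := x.ne_zero
    rw [Units.val_mul, Units.coe_star, Units.val_mul, Units.val_inv_eq_inv_val, Units.coe_star,
      star_mul', star_inv₀, star_star, Units.val_one]
    field_simp

/-- the finite index -/
private theorem nim_finite {e : E} (he : e + star e = 1) {ρ : ℝ} (hρ : 0 < ρ) (U : Subgroup Eˣ)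
    (hU : ∀ x : Eˣ, x ∈ U ↔ NearOne F e ρ (x : E)) (t : Fˣ) (ht : ‖(t : F)‖ < 1) :
    (U ⊔ Subgroup.zpowers (nimI F E t)).index ≠ 0 := by
  have he0 : 0 < ‖e‖ := by
    rw [norm_pos_iff]
    rintro rfl
    rw [star_zero, add_zero] at he
    exact zero_ne_one he
  set δ : ℝ := min ρ (ρ / ‖e‖) with hδ
  have hδ0 : 0 < δ := lt_min hρ (by positivity)
  have hnear : ∀ x : E, ‖x - 1‖ ≤ δ → NearOne F e ρ x := by
    intro x hx
    obtain ⟨r, s, h1, -, h3, h4⟩ := coord_eq F he (x - 1)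
    refine ⟨r, s, ?_, ?_, ?_⟩
    · refine h4.trans ?_
      calc ‖x - 1‖ * ‖e‖ ≤ (ρ / ‖e‖) * ‖e‖ := by
            gcongr
            exact hx.trans (min_le_right _ _)
        _ = ρ := div_mul_cancel₀ _ he0.ne'
    · exact h3.trans (hx.trans (min_le_left _ _))
    · linear_combination h1
  have ht0 : 0 < ‖(t : F)‖ := norm_pos_iff.2 t.ne_zero
  set W := U ⊔ Subgroup.zpowers (nimI F E t) with hW
  have hCc : IsCompact {z : E | ‖(t : F)‖ ≤ ‖z‖ ∧ ‖z‖ ≤ 1} := by
    apply Metric.isCompact_of_isClosed_isBounded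
    · exact (isClosed_le continuous_const continuous_norm).inter
        (isClosed_le continuous_norm continuous_const)
    · refine (Metric.isBounded_closedBall (x := (0 : E)) (r := 1)).subset ?_
      intro z hz
      rw [Metric.mem_closedBall, dist_zero_right]
      exact hz.2
  have hδt : 0 < δ * ‖(t : F)‖ := by positivity
  obtain ⟨T, hT⟩ := hCc.elim_nhds_subcover' (fun x _ => Metric.ball x (δ * ‖(t : F)‖))
    (fun x _ => Metric.ball_mem_nhds x hδt)
  have hne : ∀ z ∈ {z : E | ‖(t : F)‖ ≤ ‖z‖ ∧ ‖z‖ ≤ 1}, z ≠ 0 := by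
    rintro z ⟨hz, -⟩ rfl
    rw [norm_zero] at hz
    linarith
  let f : {x // x ∈ T} → Eˣ ⧸ W := fun x => ((Units.mk0 (x.1.1 : E) (hne _ x.1.2) : Eˣ) : Eˣ ⧸ W)
  have hf : Function.Surjective f := by
    intro q
    obtain ⟨x, rfl⟩ := QuotientGroup.mk_surjective q
    have hx0 : 0 < ‖(x : E)‖ := norm_pos_iff.2 x.ne_zero
    obtain ⟨k, hk1, hk2⟩ := exists_mem_Ioc_zpow hx0 ((one_lt_inv₀ ht0).2 ht)
    set y : Eˣ := x * (nimI F E t) ^ (k + 1) with hy
    have hyv : ‖(y : E)‖ = ‖(x : E)‖ * ‖(t : F)‖ ^ (k + 1) := by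
      rw [hy, Units.val_mul, norm_mul, Units.val_zpow_eq_zpow_val, norm_zpow]
      congr 2
      exact norm_algebraMap' E (t : F)
    have hyC : ‖(t : F)‖ ≤ ‖(y : E)‖ ∧ ‖(y : E)‖ ≤ 1 := by
      rw [hyv]
      constructor
      · have : ‖(t : F)‖⁻¹ ^ k * ‖(t : F)‖ ^ (k + 1) = ‖(t : F)‖ := by
          rw [inv_zpow, zpow_add_one₀ ht0.ne']
          field_simp
        calc ‖(t : F)‖ = ‖(t : F)‖⁻¹ ^ k * ‖(t : F)‖ ^ (k + 1) := this.symm
          _ ≤ ‖(x : E)‖ * ‖(t : F)‖ ^ (k + 1) := by gcongr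
      · have : ‖(t : F)‖⁻¹ ^ (k + 1) * ‖(t : F)‖ ^ (k + 1) = 1 := by
          rw [inv_zpow, inv_mul_cancel₀]
          positivity
        calc ‖(x : E)‖ * ‖(t : F)‖ ^ (k + 1) ≤ ‖(t : F)‖⁻¹ ^ (k + 1) * ‖(t : F)‖ ^ (k + 1) := by
              gcongr
          _ = 1 := this
    have hyT := hT hyC
    rw [Set.mem_iUnion₂] at hyT
    obtain ⟨z, hz, hyz⟩ := hyT
    refine ⟨⟨z, hz⟩, ?_⟩
    rw [Metric.mem_ball, dist_eq_norm] at hyz
    have hz0 : (z.1 : E) ≠ 0 := hne _ z.2
    show ((Units.mk0 (z.1 : E) (hne _ z.2) : Eˣ) : Eˣ ⧸ W) = (x : Eˣ ⧸ W)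
    have h1 : (Units.mk0 (z.1 : E) (hne _ z.2))⁻¹ * y ∈ U := by
      rw [hU]
      apply hnear
      rw [Units.val_mul, Units.val_inv_eq_inv_val, Units.val_mk0]
      have e3 : (z.1 : E)⁻¹ * (y : E) - 1 = (z.1 : E)⁻¹ * ((y : E) - z.1) := by
        field_simp
      have hzt : ‖(t : F)‖ ≤ ‖(z.1 : E)‖ := z.2.1
      rw [e3, norm_mul, norm_inv]
      calc ‖(z.1 : E)‖⁻¹ * ‖(y : E) - z.1‖ ≤ ‖(t : F)‖⁻¹ * (δ * ‖(t : F)‖) := by gcongr
        _ = δ := by field_simp
    rw [QuotientGroup.eq]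
    have h2 : (Units.mk0 (z.1 : E) (hne _ z.2))⁻¹ * x =
        ((Units.mk0 (z.1 : E) (hne _ z.2))⁻¹ * y) * ((nimI F E t) ^ (k + 1))⁻¹ := by
      rw [hy]
      group
    rw [h2]
    exact W.mul_mem (Subgroup.mem_sup_left h1) (W.inv_mem (Subgroup.mem_sup_right
      (Subgroup.zpow_mem_zpowers _ _)))
  haveI := Finite.of_surjective f hf
  exact Subgroup.index_ne_zero_of_finite

variable (F E) in
theorem norm_index_two : (normSub F E).index = 2 := by
  haveI : CharP E 2 := char2_of_injective (algebraMap F E).injective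
  obtain ⟨e, a, he, ha⟩ := exists_art F E
  obtain ⟨t0, ht0, ht1⟩ := NormedField.exists_norm_lt F (r := min 1 (1 / (1 + ‖a‖)))
    (lt_min one_pos (by positivity))
  obtain ⟨hx1, hx2⟩ := lt_min_iff.1 ht1
  have hx3 : ‖a‖ * ‖t0‖ < 1 := by
    rw [lt_div_iff₀ (by positivity)] at hx2
    nlinarith [norm_nonneg t0, norm_nonneg a]
  set t : Fˣ := Units.mk0 t0 (norm_pos_iff.1 ht0) with ht
  have htv : (t : F) = t0 := rfl
  obtain ⟨U, hU⟩ := exists_nearSub ‖t0‖ he ha ht0 hx1 hx3
  set T : Eˣ := nimI F E t with hT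
  set W := U ⊔ Subgroup.zpowers T with hW
  have hTs : star T = T := by
    apply Units.ext
    rw [Units.coe_star]
    exact QExt.star_alg _
  have hTn : ‖(T : E)‖ = ‖t0‖ := norm_algebraMap' E t0
  -- elements of W
  have hWm : ∀ x, x ∈ W ↔ ∃ (k : ℤ) (u : Eˣ), u ∈ U ∧ x = T ^ k * u := by
    intro x
    rw [hW, Subgroup.mem_sup]
    constructor
    · rintro ⟨u, hu, y, ⟨k, rfl⟩, rfl⟩
      exact ⟨k, u, hu, mul_comm _ _⟩
    · rintro ⟨k, u, hu, rfl⟩
      exact ⟨u, hu, T ^ k, ⟨k, rfl⟩, mul_comm _ _⟩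
  have hUs : ∀ u ∈ U, star u ∈ U := by
    intro u hu
    rw [hU] at hu ⊢
    rw [Units.coe_star]
    exact nearOne_star he hu
  have hNk : ∀ (k : ℤ) (u : Eˣ), nimN E (T ^ k * u) = T ^ (2 * k) * (u * star u) := by
    intro k u
    show (T ^ k * u) * star (T ^ k * u) = _
    rw [star_mul, star_zpow, hTs, two_mul, zpow_add, mul_comm (star u), mul_mul_mul_comm]
  have hQk : ∀ (k : ℤ) (u : Eˣ), nimQ E (T ^ k * u) = u * (star u)⁻¹ := by
    intro k u
    show (T ^ k * u) * (star (T ^ k * u))⁻¹ = _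
    rw [star_mul, star_zpow, hTs, mul_inv_rev, mul_mul_mul_comm, mul_inv_cancel, one_mul]
  have hUn : ∀ u ∈ U, ‖(u : E)‖ = 1 := by
    intro u hu
    rw [hU] at hu
    obtain ⟨c, hc, hc1⟩ := nearOne_norm he ha ht0 hx1 hx3 hu
    haveI : IsUltrametricDist E := IsUltrametricDist.of_normedAlgebra F
    have h1 : ‖c‖ = 1 := by
      have := norm_one_add (lt_of_le_of_lt hc hx1)
      rwa [add_sub_cancel] at this
    have h2 := congrArg norm hc1
    rw [norm_mul, norm_star_eq F E, norm_algebraMap', h1] at h2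
    nlinarith [norm_nonneg (u : E)]
  have hpow : ∀ k : ℤ, ‖t0‖ ^ k = 1 → k = 0 := by
    intro k hk
    exact (zpow_eq_one_iff_right₀ ht0.le hx1.ne).1 hk
  have hWi : W.index ≠ 0 := nim_finite he ht0 U hU t hx1
  have hnN : (nimN E).range ≤ (nimQ E).ker := by
    rintro _ ⟨x, rfl⟩
    rw [nim_kerQ F E, nimI_mem]
    show star ((x : E) * star (x : E)) = (x : E) * star (x : E)
    rw [star_mul', star_star, mul_comm]
  have hWN : W.map (nimN E) ≤ W := by
    rintro _ ⟨x, hx, rfl⟩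
    obtain ⟨k, u, hu, rfl⟩ := (hWm x).1 hx
    rw [hWm, hNk]
    exact ⟨2 * k, u * star u, U.mul_mem hu (hUs u hu), rfl⟩
  have hWD : W.map (nimQ E) ≤ W := by
    rintro _ ⟨x, hx, rfl⟩
    obtain ⟨k, u, hu, rfl⟩ := (hWm x).1 hx
    rw [hWm, hQk]
    exact ⟨0, _, U.mul_mem hu (U.inv_mem (hUs u hu)), by rw [zpow_zero, one_mul]⟩
  have hUU : W ⊓ (nimN E).ker ≤ W.map (nimQ E) := by
    rintro z ⟨hz, hz1⟩
    obtain ⟨k, u, hu, rfl⟩ := (hWm z).1 hz
    have h1 : nimN E (T ^ k * u) = 1 := MonoidHom.mem_ker.1 hz1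
    rw [hNk] at h1
    have h2 := congrArg (fun x : Eˣ => ‖(x : E)‖) h1
    simp only [Units.val_mul, Units.val_zpow_eq_zpow_val, norm_mul, norm_zpow, Units.coe_star,
      norm_star_eq F E, hUn u hu, hTn, Units.val_one, norm_one, mul_one] at h2
    have h3 : k = 0 := by
      have := hpow _ h2
      omega
    subst h3
    rw [mul_zero, zpow_zero, one_mul] at h1
    rw [zpow_zero, one_mul]
    have h4 : (u : E) * star (u : E) = 1 := by
      have := congrArg (fun x : Eˣ => (x : E)) h1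
      exact this
    obtain ⟨x, hx, hx'⟩ := nearOne_h90 he ha ht0 hx1 hx3 ((hU u).1 hu) h4
    have hx0 : x ≠ 0 := by
      rintro rfl
      obtain ⟨c, hc, hc1⟩ := nearOne_norm he ha ht0 hx1 hx3 hx
      rw [zero_mul] at hc1
      have h5 : c = 0 := (map_eq_zero _).1 hc1.symm
      rw [h5, zero_sub, norm_neg, norm_one] at hc
      linarith
    refine ⟨Units.mk0 x hx0, ?_, ?_⟩
    · exact (hWm _).2 ⟨0, Units.mk0 x hx0, (hU _).2 hx, by rw [zpow_zero, one_mul]⟩
    · show Units.mk0 x hx0 * (star (Units.mk0 x hx0))⁻¹ = u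
      rw [mul_inv_eq_iff_eq_mul]
      apply Units.ext
      exact hx'.symm
  have key := herbrand (nimN E) (nimQ E) W hWi hnN (nim_h90 F E) hUU hWN hWD
  have h2 : (W.map (nimN E)).relIndex (W ⊓ (nimQ E).ker) = 2 := by
    rw [Subgroup.relIndex_eq_two_iff]
    have hTk : T ∈ W ⊓ (nimQ E).ker := by
      refine ⟨(hWm T).2 ⟨1, 1, U.one_mem, by rw [zpow_one, mul_one]⟩, ?_⟩
      rw [nim_kerQ F E]
      exact ⟨t, rfl⟩
    refine ⟨T, hTk, ?_⟩
    rintro b ⟨hb, hbk⟩
    obtain ⟨k, u, hu, rfl⟩ := (hWm b).1 hb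
    have h1 : nimQ E (T ^ k * u) = 1 := MonoidHom.mem_ker.1 hbk
    rw [hQk, mul_inv_eq_one] at h1
    obtain ⟨y, hy, hyu⟩ := nearOne_isNorm he ha ht0 hx1 hx3 ((hU u).1 hu) (by
      have := congrArg (fun x : Eˣ => (x : E)) h1
      exact this.symm)
    have hy0 : y ≠ 0 := by
      rintro rfl
      rw [zero_mul] at hyu
      exact u.ne_zero hyu.symm
    have hyN : (Units.mk0 y hy0) * star (Units.mk0 y hy0) = u := by
      apply Units.ext
      exact hyu
    have hyU : Units.mk0 y hy0 ∈ U := (hU _).2 hy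
    have hmem : ∀ m : ℤ, T ^ m * u ∈ W.map (nimN E) ↔ Even m := by
      intro m
      constructor
      · rintro ⟨x, hx, hxe⟩
        obtain ⟨j, v, hv, rfl⟩ := (hWm x).1 hx
        rw [hNk] at hxe
        have h2 := congrArg (fun x : Eˣ => ‖(x : E)‖) hxe
        simp only [Units.val_mul, Units.val_zpow_eq_zpow_val, norm_mul, norm_zpow, Units.coe_star,
          norm_star_eq F E, hUn u hu, hUn v hv, hTn, mul_one] at h2
        have h3 : ‖t0‖ ^ (2 * j - m) = 1 := by
          rw [zpow_sub₀ ht0.ne', h2, div_self]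
          positivity
        have h4 := hpow _ h3
        exact ⟨j, by omega⟩
      · rintro ⟨j, hj⟩
        refine ⟨T ^ j * Units.mk0 y hy0, (hWm _).2 ⟨j, _, hyU, rfl⟩, ?_⟩
        rw [hNk, hyN, hj, two_mul]
    have hcomm : T ^ k * u * T = T ^ (k + 1) * u := by
      rw [zpow_add_one]
      exact mul_right_comm _ _ _
    rw [hcomm, hmem, hmem]
    rcases Int.even_or_odd k with h | h
    · exact Or.inr ⟨h, by rw [Int.even_add_one]; exact fun h' => h' h⟩
    · refine Or.inl ⟨h.add_one, ?_⟩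
      rwa [Int.not_even_iff_odd]
  rw [h2, nim_kerQ F E, ← nim_mapH F E] at key
  have h3 : (nimI F E).range = (⊤ : Subgroup Fˣ).map (nimI F E) := MonoidHom.range_eq_map _
  rw [h3, Subgroup.relIndex_map_map_of_injective _ _ (nimI_inj F E),
    Subgroup.relIndex_top_right] at key
  exact key

variable (F E) in
theorem exists_nonnorm : ∃ c : F, c ≠ 0 ∧ ¬ IsNorm F E c := by
  by_contra hcon
  push Not at hcon
  have h1 : normSub F E = ⊤ := by
    rw [Subgroup.eq_top_iff']
    intro c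
    exact hcon (c : F) c.ne_zero
  have h2 := norm_index_two F E
  rw [h1, Subgroup.index_top] at h2
  omega

variable (F E) in
theorem nonnorm_mul {c c' : F} (hc : c ≠ 0) (hc' : c' ≠ 0) (h : ¬ IsNorm F E c)
    (h' : ¬ IsNorm F E c') : IsNorm F E (c * c') := by
  have h1 := (Subgroup.mul_mem_iff_of_index_two (norm_index_two F E)
    (a := Units.mk0 c hc) (b := Units.mk0 c' hc')).2 (by
      constructor
      · intro h2
        exact absurd h2 h
      · intro h2
        exact absurd h2 h')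
  exact h1

variable (F E) in
theorem norm_mul_iff {c c' : F} (hc : c ≠ 0) (hc' : c' ≠ 0) (h : IsNorm F E c) :
    IsNorm F E (c * c') ↔ IsNorm F E c' :=
  (normSub F E).mul_mem_cancel_left (x := Units.mk0 c hc) (y := Units.mk0 c' hc') h

variable (F E) in
/-- norms are open -/
theorem isNorm_near_one : ∃ r : ℝ, 0 < r ∧ ∀ x : F, ‖x - 1‖ < r → IsNorm F E x := by
  haveI : CharP E 2 := char2_of_injective (algebraMap F E).injective
  obtain ⟨e, a, he, ha⟩ := exists_art F E
  refine ⟨min 1 (1 / (1 + ‖a‖)), lt_min one_pos (by positivity), fun x hx => ?_⟩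
  obtain ⟨hx1, hx2⟩ := lt_min_iff.1 hx
  have hx3 : ‖a‖ * ‖x - 1‖ < 1 := by
    rw [lt_div_iff₀ (by positivity)] at hx2
    nlinarith [norm_nonneg (x - 1), norm_nonneg a]
  obtain ⟨y, hy1, hy2⟩ := art_near a (x - 1) hx3
  have h1 := norm_formula he ha 1 y
  have h2 : (1 : F) ^ 2 + 1 * y + a * y ^ 2 = x := by linear_combination hy2
  rw [h2] at h1
  refine ⟨algebraMap F E 1 + algebraMap F E y * e, ?_, h1⟩
  intro h0
  rw [h0, zero_mul] at h1
  have h3 : x = 0 := (map_eq_zero _).1 h1.symm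
  rw [h3, zero_sub, norm_neg, norm_one] at hx1
  exact lt_irrefl _ hx1

end

end Pool.Agent.Work.MP_dd0ddf_al.C2
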