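import Pool.Agent.Work.MP_dd0ddf_al.C2.WfLR
import Pool.Agent.Work.MP_dd0ddf_al.C2.NiGauss

/-!
# MP_dd0ddf_al, module WfVI: integration over E^r with the product Haar measure

`vI r` is `SF.vint` for `Measure.pi (fun _ => addHaar)`; `E` is second countable (proper metric space), so `Fin r → E` is a Borel space and the measure is a Haar measure
(Mathlib: `MeasureTheory.Measure.pi.isAddHaarMeasure`).  By uniqueness `vI` is a positive multiple of `hI` (`vI_hI`).
`vI_mat`: change of variables by an invertible matrix: `x ↦ x ᵥ* P`; the modulus is multiplicative in `P` (hmod_mul) and for transvections it is 1 (substitution in one variable,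
Fubini: `measurePreserving`), for diagonal matrices it is the product of the moduli (Fubini); use `Matrix.diagonal_transvection_induction_of_det_ne_zero`.
`vI_append`: Fubini for `Fin (r + s) → E` (Mathlib: `MeasureTheory.volume_preserving_piFinsetUnion`.. / `measurePreserving_piEquivPiSubtypeProd` / `Fin.appendEquiv`/
`MeasurableEquiv.piFinSuccAbove`); it suffices to prove both sides are translation invariant functionals of `f ∈ SF (Fin (r+s) → E) B` agreeing on one box.
-/

set_option linter.unusedSectionVars false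
set_option linter.style.haveILetI false

namespace Pool.Agent.Work.MP_dd0ddf_al.C2

noncomputable section

universe u

variable {F E : Type u} [NontriviallyNormedField F] [IsUltrametricDist F] [ProperSpace F]
  [CharP F 2] [NontriviallyNormedField E] [NormedAlgebra F E] [ProperSpace E] [StarRing E]
  [QExt F E] [MeasurableSpace E] [BorelSpace E]
variable {V : Type u} [AddCommGroup V] [Module E V] [Module.Finite E V] [TopologicalSpace V]
  [IsTopologicalAddGroup V] [T2Space V] [ContinuousSMul E V]

/-- integration over `E^r` -/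
def vI (r : ℕ) {W : Type*} [AddCommGroup W] [Module ℂ W] : SF (Fin r → E) W →ₗ[ℂ] W :=
  haveI : SecondCountableTopology E := inferInstance
  haveI : BorelSpace (Fin r → E) := inferInstance
  haveI : MeasureTheory.IsFiniteMeasureOnCompacts
    (MeasureTheory.Measure.pi fun _ : Fin r => (MeasureTheory.Measure.addHaar : MeasureTheory.Measure E)) :=
    inferInstance
  SF.vint (MeasureTheory.Measure.pi fun _ : Fin r =>
    (MeasureTheory.Measure.addHaar : MeasureTheory.Measure E))

theorem vI_integral (r : ℕ) (f : SF (Fin r → E) ℂ) :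
    vI r f = ∫ x : Fin r → E, f x ∂(MeasureTheory.Measure.pi fun _ =>
      (MeasureTheory.Measure.addHaar : MeasureTheory.Measure E)) :=
  SF.vint_spec (MeasureTheory.Measure.pi fun _ : Fin r =>
    (MeasureTheory.Measure.addHaar : MeasureTheory.Measure E)) f LinearMap.id

variable {W W' : Type*} [AddCommGroup W] [Module ℂ W] [AddCommGroup W'] [Module ℂ W']

private theorem wfvi_spec (r : ℕ) (f : SF (Fin r → E) W) (l : W →ₗ[ℂ] ℂ) :
    l (vI r f) = ∫ x : Fin r → E, l (f x) ∂(MeasureTheory.Measure.pi fun _ =>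
      (MeasureTheory.Measure.addHaar : MeasureTheory.Measure E)) :=
  SF.vint_spec (MeasureTheory.Measure.pi fun _ : Fin r =>
    (MeasureTheory.Measure.addHaar : MeasureTheory.Measure E)) f l

theorem vI_map (r : ℕ) (φ : W →ₗ[ℂ] W') (f : SF (Fin r → E) W) :
    vI r (SF.map φ f) = φ (vI r f) := by
  apply eq_of_functionals
  intro l
  have h1 := wfvi_spec r f (l ∘ₗ φ)
  rw [wfvi_spec]
  exact h1.symm

theorem vI_trans (r : ℕ) (a : Fin r → E) (f : SF (Fin r → E) W) :
    vI r (SF.comp (Homeomorph.addRight a) f) = vI r f := by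
  apply eq_of_functionals
  intro l
  rw [wfvi_spec, wfvi_spec]
  exact MeasureTheory.integral_add_right_eq_self (μ := MeasureTheory.Measure.pi fun _ : Fin r =>
    (MeasureTheory.Measure.addHaar : MeasureTheory.Measure E)) (fun x => l (f x)) a

private theorem wfvi_single (r : ℕ) (K : Set (Fin r → E)) (hK : IsCompact K) (hK' : IsOpen K)
    (b : W) : vI r (SF.single K hK hK' b) =
      (((MeasureTheory.Measure.pi fun _ : Fin r =>
        (MeasureTheory.Measure.addHaar : MeasureTheory.Measure E)).real K : ℝ) : ℂ) • b := by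
  classical
  apply eq_of_functionals
  intro l
  rw [wfvi_spec, map_smul]
  have h1 : ∀ x, l (SF.single K hK hK' b x) = K.indicator (fun _ => l b) x := by
    intro x
    by_cases hx : x ∈ K
    · rw [SF.single_apply_mem _ _ _ _ _ hx, Set.indicator_of_mem hx]
    · rw [SF.single_apply_not_mem _ _ _ _ _ hx, Set.indicator_of_notMem hx, map_zero]
  simp_rw [h1]
  rw [MeasureTheory.integral_indicator hK'.measurableSet, MeasureTheory.setIntegral_const,
    smul_eq_mul]
  rfl

private theorem wfvi_real_pos (r : ℕ) (K : Set (Fin r → E)) (hK : IsCompact K) (hK' : IsOpen K)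
    (h0 : K.Nonempty) : 0 < (MeasureTheory.Measure.pi fun _ : Fin r =>
        (MeasureTheory.Measure.addHaar : MeasureTheory.Measure E)).real K := by
  rw [MeasureTheory.Measure.real, ENNReal.toReal_pos_iff]
  exact ⟨hK'.measure_pos _ h0, hK.measure_lt_top⟩

variable (F) in
include F in
theorem vI_pos (r : ℕ) (K : Set (Fin r → E)) (hK : IsCompact K) (hK' : IsOpen K)
    (h0 : K.Nonempty) : ∃ c : ℝ, 0 < c ∧ ∀ b : W, vI r (SF.single K hK hK' b) = (c : ℂ) • b :=
  ⟨_, wfvi_real_pos r K hK hK' h0, wfvi_single r K hK hK'⟩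

variable (F) in
include F in
theorem vI_hI (r : ℕ) [LocallyCompactSpace (Fin r → E)] : ∃ c : ℝ, 0 < c ∧
    ∀ f : SF (Fin r → E) W, vI r f = (c : ℂ) • hI f := by
  haveI : TotallyDisconnectedSpace E := td_E F
  obtain ⟨φ, hφ⟩ := hI_unique (vI r : SF (Fin r → E) W →ₗ[ℂ] W) (fun a f => vI_trans r a f)
  obtain ⟨N, hNo, hNc, -⟩ := exists_co_addSubgroup (Set.univ : Set (Fin r → E)) isOpen_univ
    (Set.mem_univ 0)
  have hv := hvol_pos _ hNc hNo ⟨0, N.zero_mem⟩
  have hm := wfvi_real_pos r (N : Set (Fin r → E)) hNc hNo ⟨0, N.zero_mem⟩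
  set m := (MeasureTheory.Measure.pi fun _ : Fin r =>
        (MeasureTheory.Measure.addHaar : MeasureTheory.Measure E)).real (N : Set (Fin r → E))
  refine ⟨m / hvol (N : Set (Fin r → E)), by positivity, fun f => ?_⟩
  rw [hφ f]
  have h1 := hφ (SF.single (N : Set (Fin r → E)) hNc hNo (hI f))
  rw [wfvi_single, hI_single, map_smul] at h1
  have hne : ((hvol (N : Set (Fin r → E)) : ℝ) : ℂ) ≠ 0 := by exact_mod_cast hv.ne'
  have h2 := congrArg (fun z => ((hvol (N : Set (Fin r → E)) : ℝ) : ℂ)⁻¹ • z) h1
  simp only [smul_smul] at h2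
  rw [inv_mul_cancel₀ hne, one_smul] at h2
  rw [← h2]
  congr 1
  push_cast
  rw [div_eq_inv_mul]

private theorem wfvi_cont {L : Type*} [NontriviallyNormedField L] {r : ℕ}
    (P : Matrix (Fin r) (Fin r) L) : Continuous (fun x : Fin r → L => Matrix.vecMul x P) := by
  refine continuous_pi fun j => ?_
  show Continuous (fun x : Fin r → L => ∑ i, x i * P i j)
  exact continuous_finsetSum _ fun i _ => (continuous_apply i).mul continuous_const

/-- `x ↦ x P` as a homeomorphism -/
def matH {r : ℕ} (P : Matrix (Fin r) (Fin r) E) (hP : IsUnit P) : (Fin r → E) ≃ₜ (Fin r → E) where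
  toFun x := Matrix.vecMul x P
  invFun x := Matrix.vecMul x P⁻¹
  left_inv x := by
    show Matrix.vecMul (Matrix.vecMul x P) P⁻¹ = x
    rw [Matrix.vecMul_vecMul, Matrix.mul_nonsing_inv _ ((Matrix.isUnit_iff_isUnit_det P).1 hP),
      Matrix.vecMul_one]
  right_inv x := by
    show Matrix.vecMul (Matrix.vecMul x P⁻¹) P = x
    rw [Matrix.vecMul_vecMul, Matrix.nonsing_inv_mul _ ((Matrix.isUnit_iff_isUnit_det P).1 hP),
      Matrix.vecMul_one]
  continuous_toFun := wfvi_cont P
  continuous_invFun := wfvi_cont P⁻¹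

private def wfvi_matT {r : ℕ} (P : Matrix (Fin r) (Fin r) E) (hP : IsUnit P) :
    TAut (Fin r → E) where
  h := matH P hP
  add x y := Matrix.add_vecMul P x y

section mat

variable [LocallyCompactSpace E] [TotallyDisconnectedSpace E]

private theorem wfvi_hmod_id {G : Type*} [AddCommGroup G] [TopologicalSpace G]
    [IsTopologicalAddGroup G] [LocallyCompactSpace G] [T2Space G] [TotallyDisconnectedSpace G]
    (α : TAut G) (h : ∀ x, α.h x = x) : hmod α = 1 := by
  have h1 := hmod_mul α α α (fun x => by rw [h (α.h x)])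
  have h2 := hmod_pos α
  have h3 : hmod α * hmod α = hmod α * 1 := by rw [← h1, mul_one]
  exact mul_left_cancel₀ h2.ne' h3

private theorem wfvi_matT_mul {r : ℕ} (A C : Matrix (Fin r) (Fin r) E) (hA : IsUnit A)
    (hC : IsUnit C) (hAC : IsUnit (A * C)) :
    hmod (wfvi_matT (A * C) hAC) = hmod (wfvi_matT A hA) * hmod (wfvi_matT C hC) := by
  rw [mul_comm (hmod _)]
  exact hmod_mul _ _ _ (fun x => (Matrix.vecMul_vecMul x A C).symm)

private theorem wfvi_congr {r : ℕ} (A C : Matrix (Fin r) (Fin r) E) (hA : IsUnit A)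
    (hC : IsUnit C) (h : A = C) : hmod (wfvi_matT A hA) = hmod (wfvi_matT C hC) := by
  subst h
  rfl

/-- the modulus of `z ∈ E^×` as a homomorphism -/
private def wfvi_u : Eˣ →* ℝ where
  toFun z := hmod (mulT E (z : E) z.ne_zero)
  map_one' := wfvi_hmod_id _ fun x => one_mul x
  map_mul' z w := hmod_mul _ _ _ fun x => by
    show ((z * w : Eˣ) : E) * x = z * (w * x)
    rw [Units.val_mul, mul_assoc]

private theorem wfvi_haar (α : TAut E) (K : Set E) (hK : IsCompact K) (hK' : IsOpen K) :
    (MeasureTheory.Measure.addHaar : MeasureTheory.Measure E).real (α.h ⁻¹' K) =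
      hmod α * (MeasureTheory.Measure.addHaar : MeasureTheory.Measure E).real K := by
  classical
  set μ := (MeasureTheory.Measure.addHaar : MeasureTheory.Measure E) with hμ
  have hsp : ∀ f : SF E ℂ, SF.vint μ f = ∫ x, f x ∂μ := fun f => SF.vint_spec μ f LinearMap.id
  obtain ⟨φ, hφ⟩ := hI_unique (SF.vint μ : SF E ℂ →ₗ[ℂ] ℂ) (fun a f => by
    rw [hsp, hsp]
    exact MeasureTheory.integral_add_right_eq_self (μ := μ) (fun x => f x) a)
  have hs : ∀ (K : Set E) (hK : IsCompact K) (hK' : IsOpen K),
      SF.vint μ (SF.single K hK hK' (1 : ℂ)) = ((μ.real K : ℝ) : ℂ) := by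
    intro K hK hK'
    rw [hsp]
    have h1 : ∀ x, SF.single K hK hK' (1 : ℂ) x = K.indicator (fun _ => (1 : ℂ)) x := by
      intro x
      by_cases hx : x ∈ K
      · rw [SF.single_apply_mem _ _ _ _ _ hx, Set.indicator_of_mem hx]
      · rw [SF.single_apply_not_mem _ _ _ _ _ hx, Set.indicator_of_notMem hx]
    simp_rw [h1]
    rw [MeasureTheory.integral_indicator hK'.measurableSet, MeasureTheory.setIntegral_const]
    simp
  have h2 := hφ (SF.comp α.h (SF.single K hK hK' (1 : ℂ)))
  have h3 := hφ (SF.single K hK hK' (1 : ℂ))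
  rw [hI_comp_aut, map_smul, ← h3, hs] at h2
  have h4 : SF.comp α.h (SF.single K hK hK' (1 : ℂ)) =
      SF.single (α.h ⁻¹' K) (α.h.isCompact_preimage.2 hK) (hK'.preimage α.h.continuous) 1 := by
    apply SF.ext
    intro x
    show SF.single K hK hK' (1 : ℂ) (α.h x) = _
    by_cases hx : α.h x ∈ K
    · rw [SF.single_apply_mem _ _ _ _ _ hx]
      exact (SF.single_apply_mem (α.h ⁻¹' K) _ _ _ _ hx).symm
    · rw [SF.single_apply_not_mem _ _ _ _ _ hx]
      exact (SF.single_apply_not_mem (α.h ⁻¹' K) _ _ _ _ hx).symm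
  rw [h4, hs, smul_eq_mul] at h2
  exact_mod_cast h2

private theorem wfvi_diag {r : ℕ} (D : Fin r → E) (hP : IsUnit (Matrix.diagonal D))
    (hd : (Matrix.diagonal D).det ≠ 0) :
    hmod (wfvi_matT (Matrix.diagonal D) hP) = hmod (mulT E (Matrix.diagonal D).det hd) := by
  classical
  have hD : ∀ i, D i ≠ 0 := by
    intro i h0
    apply hd
    rw [Matrix.det_diagonal]
    exact Finset.prod_eq_zero (Finset.mem_univ i) h0
  -- the right side is a product
  have e1 : hmod (mulT E (Matrix.diagonal D).det hd) = ∏ i, hmod (mulT E (D i) (hD i)) := by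
    have h1 : wfvi_u (Units.mk0 (Matrix.diagonal D).det hd) =
        wfvi_u (∏ i, Units.mk0 (D i) (hD i)) := by
      congr 1
      apply Units.ext
      rw [Units.val_mk0, Matrix.det_diagonal, Units.coe_prod]
      rfl
    rw [map_prod] at h1
    exact h1
  rw [e1]
  -- the box
  obtain ⟨N, hNo, hNc, -⟩ := exists_co_addSubgroup (Set.univ : Set E) isOpen_univ
    (Set.mem_univ 0)
  set μ := (MeasureTheory.Measure.addHaar : MeasureTheory.Measure E) with hμ
  have hbc : IsCompact (Set.pi Set.univ fun _ : Fin r => (N : Set E)) :=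
    isCompact_univ_pi fun _ => hNc
  have hbo : IsOpen (Set.pi Set.univ fun _ : Fin r => (N : Set E)) :=
    isOpen_set_pi Set.finite_univ fun _ _ => hNo
  have hreal : ∀ K : Fin r → Set E, (MeasureTheory.Measure.pi fun _ : Fin r => μ).real
      (Set.pi Set.univ K) = ∏ i, μ.real (K i) := by
    intro K
    rw [MeasureTheory.Measure.real, MeasureTheory.Measure.pi_pi, ENNReal.toReal_prod]
    rfl
  have hpos : 0 < (MeasureTheory.Measure.pi fun _ : Fin r => μ).real
      (Set.pi Set.univ fun _ : Fin r => (N : Set E)) :=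
    wfvi_real_pos r _ hbc hbo ⟨0, fun _ _ => N.zero_mem⟩
  obtain ⟨φ, hφ⟩ := hI_unique (vI r : SF (Fin r → E) ℂ →ₗ[ℂ] ℂ) (fun a f => vI_trans r a f)
  set α := wfvi_matT (Matrix.diagonal D) hP with hα
  have h2 := hφ (SF.comp α.h (SF.single _ hbc hbo (1 : ℂ)))
  rw [hI_comp_aut, map_smul, ← hφ, wfvi_single] at h2
  have h3 : SF.comp α.h (SF.single _ hbc hbo (1 : ℂ)) =
      SF.single (Set.pi Set.univ fun i : Fin r => (mulT E (D i) (hD i)).h ⁻¹' (N : Set E))
        (isCompact_univ_pi fun i => (mulT E (D i) (hD i)).h.isCompact_preimage.2 hNc)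
        (isOpen_set_pi Set.finite_univ fun i _ =>
          hNo.preimage (mulT E (D i) (hD i)).h.continuous) 1 := by
    apply SF.ext
    intro x
    show SF.single _ hbc hbo (1 : ℂ) (α.h x) = _
    have hx : ∀ i, α.h x i = D i * x i := by
      intro i
      show Matrix.vecMul x (Matrix.diagonal D) i = _
      rw [Matrix.vecMul_diagonal, mul_comm]
    have hiff : α.h x ∈ Set.pi Set.univ (fun _ : Fin r => (N : Set E)) ↔
        x ∈ Set.pi Set.univ fun i : Fin r => (mulT E (D i) (hD i)).h ⁻¹' (N : Set E) := by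
      constructor
      · intro h i hi
        have := h i hi
        rw [hx] at this
        exact this
      · intro h i hi
        rw [hx]
        exact h i hi
    by_cases h : α.h x ∈ Set.pi Set.univ (fun _ : Fin r => (N : Set E))
    · rw [SF.single_apply_mem _ _ _ _ _ h, SF.single_apply_mem _ _ _ _ _ (hiff.1 h)]
    · rw [SF.single_apply_not_mem _ _ _ _ _ h,
        SF.single_apply_not_mem _ _ _ _ _ (fun h' => h (hiff.2 h'))]
  rw [h3, wfvi_single, hreal, hreal] at h2
  rw [Finset.prod_congr rfl fun i _ => wfvi_haar (mulT E (D i) (hD i)) _ hNc hNo] at h2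
  rw [Finset.prod_mul_distrib, smul_eq_mul, mul_one, smul_eq_mul, smul_eq_mul, mul_one] at h2
  rw [hreal] at hpos
  have h4 : (∏ i, hmod (mulT E (D i) (hD i))) * ∏ _i : Fin r, μ.real (N : Set E) =
      hmod α * ∏ _i : Fin r, μ.real (N : Set E) := by exact_mod_cast h2
  exact (mul_right_cancel₀ hpos.ne' h4).symm

private theorem wfvi_transvec {r : ℕ} (h2 : (2 : E) = 0) (i j : Fin r) (hij : i ≠ j) (c : E)
    (hP : IsUnit (Matrix.transvection i j c)) : hmod (wfvi_matT (Matrix.transvection i j c) hP) =
      1 := by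
  classical
  have e2 : Matrix.transvection i j c * Matrix.transvection i j c = 1 := by
    rw [Matrix.transvection_mul_transvection_same i j hij c c, ← two_mul, h2, zero_mul,
      Matrix.transvection_zero]
  have m1 := wfvi_matT_mul (Matrix.transvection i j c) (Matrix.transvection i j c) hP hP
    (hP.mul hP)
  have m2 : hmod (wfvi_matT (Matrix.transvection i j c * Matrix.transvection i j c)
      (hP.mul hP)) = 1 := by
    apply wfvi_hmod_id
    intro x
    show Matrix.vecMul x (Matrix.transvection i j c * Matrix.transvection i j c) = x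
    rw [e2, Matrix.vecMul_one]
  rw [m2] at m1
  have p2 := hmod_pos (wfvi_matT (Matrix.transvection i j c) hP)
  nlinarith

private theorem wfvi_mat {r : ℕ} (h2 : (2 : E) = 0) (P : Matrix (Fin r) (Fin r) E)
    (hd : P.det ≠ 0) : ∀ hP : IsUnit P, hmod (wfvi_matT P hP) = hmod (mulT E P.det hd) := by
  classical
  refine Matrix.diagonal_transvection_induction_of_det_ne_zero
    (fun P => ∀ (hP : IsUnit P) (hd : P.det ≠ 0), hmod (wfvi_matT P hP) = hmod (mulT E P.det hd))
    P hd ?_ ?_ ?_ |> fun h hP => h hP hd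
  · intro D _ hP hd
    exact wfvi_diag D hP hd
  · intro t hP hd
    rw [show hmod (mulT E t.toMatrix.det hd) = 1 from wfvi_hmod_id _ fun x => by
      show t.toMatrix.det * x = x
      rw [Matrix.TransvectionStruct.det, one_mul]]
    exact wfvi_transvec h2 t.i t.j t.hij t.c hP
  · intro A C hA hC h1 h2 hP hd
    have uA : IsUnit A := (Matrix.isUnit_iff_isUnit_det _).2 (isUnit_iff_ne_zero.2 hA)
    have uC : IsUnit C := (Matrix.isUnit_iff_isUnit_det _).2 (isUnit_iff_ne_zero.2 hC)
    rw [wfvi_matT_mul A C uA uC hP, h1 uA hA, h2 uC hC]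
    symm
    exact hmod_mul _ _ _ fun x => by
      show (A * C).det * x = A.det * (C.det * x)
      rw [Matrix.det_mul, mul_assoc]

end mat

variable (F) in
include F in
theorem vI_mat [LocallyCompactSpace E] [TotallyDisconnectedSpace E] {r : ℕ}
    (P : Matrix (Fin r) (Fin r) E) (hP : IsUnit P) (hd : P.det ≠ 0) (f : SF (Fin r → E) W) :
    vI r (SF.comp (matH P hP) f) = (hmod (mulT E P.det hd) : ℂ) • vI r f := by
  haveI : CharP E 2 := char2_of_injective (algebraMap F E).injective
  obtain ⟨c, hc, h⟩ := vI_hI F r (W := W) (E := E)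
  rw [h, h, ← wfvi_mat (CharTwo.two_eq_zero) P hd hP]
  have h1 : hI (SF.comp (matH P hP) f) = _ := hI_comp_aut (wfvi_matT P hP) f
  rw [h1, smul_comm]

private def wfvi_app (L : Type*) [TopologicalSpace L] (r s : ℕ) :
    (Fin r → L) × (Fin s → L) ≃ₜ (Fin (r + s) → L) where
  toFun p := Fin.append p.1 p.2
  invFun f := (fun i => f (Fin.castAdd s i), fun j => f (Fin.natAdd r j))
  left_inv p := by
    apply Prod.ext
    · funext i
      exact Fin.append_left p.1 p.2 i
    · funext i
      exact Fin.append_right p.1 p.2 i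
  right_inv f := Fin.append_castAdd_natAdd
  continuous_toFun := by
    refine continuous_pi fun i => ?_
    refine Fin.addCases (fun i => ?_) (fun i => ?_) i
    · have h : (fun p : (Fin r → L) × (Fin s → L) => Fin.append p.1 p.2 (Fin.castAdd s i)) =
          fun p => p.1 i := by
        funext p
        exact Fin.append_left p.1 p.2 i
      rw [h]
      exact (continuous_apply i).comp continuous_fst
    · have h : (fun p : (Fin r → L) × (Fin s → L) => Fin.append p.1 p.2 (Fin.natAdd r i)) =
          fun p => p.2 i := by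
        funext p
        exact Fin.append_right p.1 p.2 i
      rw [h]
      exact (continuous_apply i).comp continuous_snd
  continuous_invFun := (continuous_pi fun i => continuous_apply _).prodMk
    (continuous_pi fun i => continuous_apply _)

private theorem wfvi_mp (r s : ℕ) (μ : MeasureTheory.Measure E) [MeasureTheory.SigmaFinite μ] :
    MeasureTheory.MeasurePreserving
      ((MeasurableEquiv.sumPiEquivProdPi fun _ : Fin r ⊕ Fin s => E).symm.trans
        (MeasurableEquiv.piCongrLeft (fun _ : Fin (r + s) => E) finSumFinEquiv))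
      ((MeasureTheory.Measure.pi fun _ : Fin r => μ).prod
        (MeasureTheory.Measure.pi fun _ : Fin s => μ))
      (MeasureTheory.Measure.pi fun _ : Fin (r + s) => μ) :=
  (MeasureTheory.measurePreserving_sumPiEquivProdPi_symm (fun _ : Fin r ⊕ Fin s => μ)).trans
    (MeasureTheory.measurePreserving_piCongrLeft (fun _ : Fin (r + s) => μ) finSumFinEquiv)

private theorem wfvi_mp_apply (r s : ℕ) (p : (Fin r → E) × (Fin s → E)) :
    ((MeasurableEquiv.sumPiEquivProdPi fun _ : Fin r ⊕ Fin s => E).symm.trans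
        (MeasurableEquiv.piCongrLeft (fun _ : Fin (r + s) => E) finSumFinEquiv)) p =
      Fin.append p.1 p.2 := by
  funext i
  obtain ⟨j, rfl⟩ := finSumFinEquiv.surjective i
  have h1 : ((MeasurableEquiv.sumPiEquivProdPi fun _ : Fin r ⊕ Fin s => E).symm.trans
        (MeasurableEquiv.piCongrLeft (fun _ : Fin (r + s) => E) finSumFinEquiv)) p
        (finSumFinEquiv j) =
      ((MeasurableEquiv.sumPiEquivProdPi fun _ : Fin r ⊕ Fin s => E).symm p) j :=
    Equiv.piCongrLeft_apply_apply (fun _ : Fin (r + s) => E) finSumFinEquiv _ j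
  rw [h1]
  rcases j with j | j
  · show p.1 j = Fin.append p.1 p.2 (Fin.castAdd s j)
    rw [Fin.append_left]
  · show p.2 j = Fin.append p.1 p.2 (Fin.natAdd r j)
    rw [Fin.append_right]

variable (F) in
include F in
/-- Fubini -/
theorem vI_append (r s : ℕ) (f : SF (Fin (r + s) → E) W) :
    ∃ g : SF (Fin r → E) W, (∀ x, ∃ k : SF (Fin s → E) W, (∀ y, k y = f (Fin.append x y)) ∧
      g x = vI s k) ∧ vI (r + s) f = vI r g := by
  haveI : TotallyDisconnectedSpace E := td_E F
  set f' : SF ((Fin r → E) × (Fin s → E)) W := SF.comp (wfvi_app E r s) f with hf'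
  obtain ⟨g0, hg0⟩ := hI_slice f'
  obtain ⟨c, hc, hcs⟩ := vI_hI F s (W := W) (E := E)
  refine ⟨(c : ℂ) • g0, fun x => ⟨SF.slice x f', fun y => rfl, ?_⟩, ?_⟩
  · show (c : ℂ) • g0 x = _
    rw [hg0, hcs]
  · apply eq_of_functionals
    intro l
    rw [wfvi_spec, wfvi_spec]
    set μ := (MeasureTheory.Measure.addHaar : MeasureTheory.Measure E) with hμ
    have h1 : ∀ x, l (((c : ℂ) • g0 : SF (Fin r → E) W) x) = ∫ y : Fin s → E,
        l (f' (x, y)) ∂(MeasureTheory.Measure.pi fun _ => μ) := by
      intro x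
      have h2 : ((c : ℂ) • g0 : SF (Fin r → E) W) x = vI s (SF.slice x f') := by
        show (c : ℂ) • g0 x = _
        rw [hg0, hcs]
      rw [h2, wfvi_spec]
      rfl
    simp_rw [h1]
    have h3 : ∫ p : (Fin r → E) × (Fin s → E), l (f' p) ∂((MeasureTheory.Measure.pi fun _ :
        Fin r => μ).prod (MeasureTheory.Measure.pi fun _ : Fin s => μ)) =
        ∫ x : Fin r → E, ∫ y : Fin s → E, l (f' (x, y)) ∂(MeasureTheory.Measure.pi fun _ => μ)
          ∂(MeasureTheory.Measure.pi fun _ => μ) :=
      MeasureTheory.integral_prod _ (SF.integrable _ (SF.map l f'))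
    rw [← h3, ← (wfvi_mp r s μ).integral_comp']
    refine MeasureTheory.integral_congr_ae (Filter.Eventually.of_forall fun p => ?_)
    show l (f _) = l (f (Fin.append p.1 p.2))
    rw [wfvi_mp_apply]

variable (F) in
include F in
/-- conjugation of the coordinates preserves the measure -/
theorem vI_star (r : ℕ) (f g : SF (Fin r → E) W) (h : ∀ x, g x = f (fun i => star (x i))) :
    vI r g = vI r f := by
  haveI : TotallyDisconnectedSpace E := td_E F
  have hcont : Continuous (fun x : Fin r → E => fun i => star (x i)) :=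
    continuous_pi fun i => (continuous_star_E F E).comp (continuous_apply i)
  set σ : TAut (Fin r → E) :=
    { h :=
        { toFun := fun x i => star (x i)
          invFun := fun x i => star (x i)
          left_inv := fun x => funext fun i => star_star (x i)
          right_inv := fun x => funext fun i => star_star (x i)
          continuous_toFun := hcont
          continuous_invFun := hcont }
      add := fun x y => funext fun i => star_add (x i) (y i) } with hσ
  have h1 : hmod σ = 1 := by
    have h2 := hmod_mul σ σ ⟨Homeomorph.refl _, fun _ _ => rfl⟩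
      (fun x => (funext fun i => star_star (x i)).symm)
    rw [wfvi_hmod_id ⟨Homeomorph.refl (Fin r → E), fun _ _ => rfl⟩ (fun _ => rfl)] at h2
    nlinarith [hmod_pos σ]
  obtain ⟨c, hc, hv⟩ := vI_hI F r (W := W) (E := E)
  have h2 : g = SF.comp σ.h f := SF.ext fun x => h x
  rw [hv, hv, h2, hI_comp_aut, h1, Complex.ofReal_one, one_smul]

end

end Pool.Agent.Work.MP_dd0ddf_al.C2
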