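import Pool.Agent.Work.MP_dd0ddf_al.C2.Found

/-!
# MP_dd0ddf_al, module Isotyp: joint eigenvectors of two commuting smooth representations of a compact abelian group

`M` with commuting smooth actions β, β' of the compact abelian group Z, `lam (β z (β' z m)) = lam m`, lam ≠ 0.  Let `m0` with `lam m0 ≠ 0`; it is fixed by an open subgroup N under both actions (smoothness; N of finite index since Z is compact); its span under Z × Z is a finite dimensional space M0 on which the finite abelian group (Z/N)² acts: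
operators of finite order, commuting, so simultaneously diagonalisable (Mathlib: `Module.End.iSup_iInf_maxGenEigenspace...` or elementary projections `m ↦ (1/|G|) ∑ χ(g)⁻¹ g m` over the characters of the finite abelian group; `∑_χ` of the projections = identity).  lam ≠ 0 on some joint eigenspace, with characters χ1, χ2 (trivial on N);
for m in it with lam m ≠ 0: `χ1(z) χ2(z) lam m = lam m`, so χ2 = χ1⁻¹.
-/

set_option linter.unusedSectionVars false
set_option linter.style.haveILetI false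

namespace Pool.Agent.Work.MP_dd0ddf_al.C2

noncomputable section

theorem isotyp {Z M : Type*} [CommGroup Z] [TopologicalSpace Z] [IsTopologicalGroup Z]
    [CompactSpace Z] [AddCommGroup M] [Module ℂ M] (R R' : SRep Z M)
    (hcomm : ∀ z z', R.β z * R'.β z' = R'.β z' * R.β z) (lam : M →ₗ[ℂ] ℂ) (h0 : lam ≠ 0)
    (h : ∀ z m, lam (R.β z (R'.β z m)) = lam m) :
    ∃ (χ : Z →* ℂˣ) (m : M), m ≠ 0 ∧
      (∃ U : Set Z, IsOpen U ∧ (1 : Z) ∈ U ∧ ∀ z ∈ U, χ z = 1) ∧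
      (∀ z, R.β z m = ((χ z : ℂˣ) : ℂ) • m) ∧ ∀ z, R'.β z m = (((χ z)⁻¹ : ℂˣ) : ℂ) • m := by
  classical
  obtain ⟨m0, hm0⟩ : ∃ m0, lam m0 ≠ 0 := by
    by_contra hcon
    push Not at hcon
    exact h0 (LinearMap.ext hcon)
  have hc : ∀ (z z' : Z) (m : M), R.β z (R'.β z' m) = R'.β z' (R.β z m) := fun z z' m =>
    congrArg (fun f : Module.End ℂ M => f m) (hcomm z z')
  have hmul : ∀ (a b : Z) (m : M), R.β (a * b) m = R.β a (R.β b m) := fun a b m => by
    rw [map_mul]; rfl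
  have hmul' : ∀ (a b : Z) (m : M), R'.β (a * b) m = R'.β a (R'.β b m) := fun a b m => by
    rw [map_mul]; rfl
  -- the open subgroup
  let N : Subgroup Z :=
    { carrier := {z | R.β z m0 = m0 ∧ R'.β z m0 = m0}
      mul_mem' := by
        rintro a b ⟨ha, ha'⟩ ⟨hb, hb'⟩
        exact ⟨by rw [hmul, hb, ha], by rw [hmul', hb', ha']⟩
      one_mem' := ⟨by rw [map_one]; rfl, by rw [map_one]; rfl⟩
      inv_mem' := by
        rintro a ⟨ha, ha'⟩
        constructor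
        · have h1 := hmul a⁻¹ a m0
          rw [inv_mul_cancel, map_one, ha] at h1
          exact h1.symm
        · have h1 := hmul' a⁻¹ a m0
          rw [inv_mul_cancel, map_one, ha'] at h1
          exact h1.symm }
  have hN : ∀ z, z ∈ N ↔ R.β z m0 = m0 ∧ R'.β z m0 = m0 := fun z => Iff.rfl
  have hNo : IsOpen (N : Set Z) := by
    obtain ⟨U, hU, hU1, hUf⟩ := R.smooth m0
    obtain ⟨U', hU', hU1', hUf'⟩ := R'.smooth m0
    refine N.isOpen_of_mem_nhds (g := 1) ?_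
    refine Filter.mem_of_superset ((hU.inter hU').mem_nhds ⟨hU1, hU1'⟩) ?_
    intro z hz
    exact ⟨hUf z hz.1, hUf' z hz.2⟩
  haveI : Finite (Z ⧸ N) := N.quotient_finite_of_isOpen hNo
  haveI : Fintype (Z ⧸ N) := Fintype.ofFinite _
  -- the vectors
  let v : (Z ⧸ N) × (Z ⧸ N) → M := fun q => R.β q.1.out (R'.β q.2.out m0)
  have hv : ∀ a b : Z, v ((a : Z ⧸ N), (b : Z ⧸ N)) = R.β a (R'.β b m0) := by
    intro a b
    change R.β ((a : Z ⧸ N)).out (R'.β ((b : Z ⧸ N)).out m0) = _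
    obtain ⟨n, hn⟩ := QuotientGroup.mk_out_eq_mul N a
    obtain ⟨n', hn'⟩ := QuotientGroup.mk_out_eq_mul N b
    rw [hn, hn', hmul', ((hN n').1 n'.2).2, hmul, hc n b, ((hN n).1 n.2).1]
  have hvg : ∀ (q : (Z ⧸ N) × (Z ⧸ N)) (z z' : Z),
      v (q * ((z : Z ⧸ N), (z' : Z ⧸ N))) = R.β z (R'.β z' (v q)) := by
    rintro ⟨q1, q2⟩ z z'
    obtain ⟨a, rfl⟩ := QuotientGroup.mk_surjective q1
    obtain ⟨b, rfl⟩ := QuotientGroup.mk_surjective q2
    have e1 : (((a : Z ⧸ N), (b : Z ⧸ N)) * ((z : Z ⧸ N), (z' : Z ⧸ N)) :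
        (Z ⧸ N) × (Z ⧸ N)) = (((z * a : Z) : Z ⧸ N), ((z' * b : Z) : Z ⧸ N)) := by
      rw [Prod.mk_mul_mk, ← QuotientGroup.mk_mul, ← QuotientGroup.mk_mul, mul_comm a, mul_comm b]
    rw [e1, hv, hv, hmul, hmul', hc a z']
  -- the projections
  let p : AddChar (Additive ((Z ⧸ N) × (Z ⧸ N))) ℂ → M := fun ψ =>
    ∑ q : (Z ⧸ N) × (Z ⧸ N), ψ (Additive.ofMul q⁻¹) • v q
  have hsum : ∑ ψ, p ψ = (Fintype.card (Additive ((Z ⧸ N) × (Z ⧸ N))) : ℂ) • m0 := by
    change ∑ ψ : AddChar (Additive ((Z ⧸ N) × (Z ⧸ N))) ℂ,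
      ∑ q : (Z ⧸ N) × (Z ⧸ N), ψ (Additive.ofMul q⁻¹) • v q = _
    rw [Finset.sum_comm]
    rw [Finset.sum_eq_single (1 : (Z ⧸ N) × (Z ⧸ N))]
    · rw [← Finset.sum_smul]
      have h1 := AddChar.sum_apply_eq_ite (α := Additive ((Z ⧸ N) × (Z ⧸ N)))
        (Additive.ofMul (1 : (Z ⧸ N) × (Z ⧸ N))⁻¹)
      rw [h1, if_pos (by rw [inv_one]; rfl)]
      have h2 : v 1 = m0 := by
        have h3 := hv 1 1
        rw [map_one, map_one] at h3
        exact h3
      rw [h2]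
    · intro q _ hq
      rw [← Finset.sum_smul]
      have h1 := AddChar.sum_apply_eq_ite (α := Additive ((Z ⧸ N) × (Z ⧸ N)))
        (Additive.ofMul q⁻¹)
      rw [h1, if_neg, zero_smul]
      intro h2
      apply hq
      have h3 : q⁻¹ = 1 := h2
      exact inv_eq_one.1 h3
    · intro h1
      exact absurd (Finset.mem_univ _) h1
  have hact : ∀ ψ (z z' : Z), R.β z (R'.β z' (p ψ)) =
      ψ (Additive.ofMul ((z : Z ⧸ N), (z' : Z ⧸ N))) • p ψ := by
    intro ψ z z'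
    change R.β z (R'.β z' (∑ q : (Z ⧸ N) × (Z ⧸ N), ψ (Additive.ofMul q⁻¹) • v q)) =
      ψ (Additive.ofMul ((z : Z ⧸ N), (z' : Z ⧸ N))) •
        ∑ q : (Z ⧸ N) × (Z ⧸ N), ψ (Additive.ofMul q⁻¹) • v q
    rw [map_sum, map_sum, Finset.smul_sum,
      ← Equiv.sum_comp (Equiv.mulRight ((z : Z ⧸ N), (z' : Z ⧸ N)))
        (fun q => ψ (Additive.ofMul ((z : Z ⧸ N), (z' : Z ⧸ N))) •
          ψ (Additive.ofMul q⁻¹) • v q)]
    refine Finset.sum_congr rfl fun q _ => ?_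
    rw [Equiv.coe_mulRight, hvg, map_smul, map_smul, smul_smul, ← AddChar.map_add_eq_mul]
    congr 2
    change Additive.ofMul q⁻¹ = Additive.ofMul (((z : Z ⧸ N), (z' : Z ⧸ N)) *
      (q * ((z : Z ⧸ N), (z' : Z ⧸ N)))⁻¹)
    congr 1
    rw [mul_inv_rev, mul_inv_cancel_left]
  obtain ⟨ψ, hψ⟩ : ∃ ψ, lam (p ψ) ≠ 0 := by
    by_contra hcon
    push Not at hcon
    have h1 := congrArg lam hsum
    rw [map_sum, map_smul, Finset.sum_eq_zero fun ψ _ => hcon ψ] at h1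
    rcases smul_eq_zero.1 h1.symm with h2 | h2
    · exact (Nat.cast_ne_zero.2 Fintype.card_ne_zero) h2
    · exact hm0 h2
  -- the character
  let χ0 : Z →* ℂ :=
    { toFun := fun z => ψ (Additive.ofMul ((z : Z ⧸ N), (1 : Z ⧸ N)))
      map_one' := by
        have : Additive.ofMul (((1 : Z) : Z ⧸ N), (1 : Z ⧸ N)) = 0 := rfl
        rw [this, AddChar.map_zero_eq_one]
      map_mul' := fun a b => by
        rw [← AddChar.map_add_eq_mul]
        congr 1
        change Additive.ofMul (((a * b : Z) : Z ⧸ N), (1 : Z ⧸ N)) =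
          Additive.ofMul (((a : Z ⧸ N), (1 : Z ⧸ N)) * ((b : Z ⧸ N), (1 : Z ⧸ N)))
        rw [Prod.mk_mul_mk, mul_one, QuotientGroup.mk_mul] }
  have hχ : ∀ z, ((χ0.toHomUnits z : ℂˣ) : ℂ) =
      ψ (Additive.ofMul ((z : Z ⧸ N), (1 : Z ⧸ N))) := fun z => MonoidHom.coe_toHomUnits χ0 z
  have hm : p ψ ≠ 0 := by
    intro h1
    rw [h1, map_zero] at hψ
    exact hψ rfl
  have hχ' : ∀ z : Z, ψ (Additive.ofMul ((1 : Z ⧸ N), (z : Z ⧸ N))) *
      ψ (Additive.ofMul ((z : Z ⧸ N), (1 : Z ⧸ N))) = 1 := by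
    intro z
    have h1 := h z (p ψ)
    rw [hact, map_smul, smul_eq_mul] at h1
    have h2 : ψ (Additive.ofMul ((z : Z ⧸ N), (z : Z ⧸ N))) = 1 :=
      mul_right_cancel₀ hψ (h1.trans (one_mul _).symm)
    rw [← AddChar.map_add_eq_mul, ← h2]
    congr 1
    change Additive.ofMul (((1 : Z ⧸ N), (z : Z ⧸ N)) * ((z : Z ⧸ N), (1 : Z ⧸ N))) = _
    rw [Prod.mk_mul_mk, mul_one, one_mul]
  refine ⟨χ0.toHomUnits, p ψ, hm, ⟨N, hNo, N.one_mem, fun z hz => ?_⟩, fun z => ?_, fun z => ?_⟩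
  · apply Units.ext
    rw [hχ, (QuotientGroup.eq_one_iff z).2 hz, Units.val_one]
    exact AddChar.map_zero_eq_one ψ
  · have h1 := hact ψ z 1
    rw [map_one] at h1
    rw [hχ]
    exact h1
  · have h1 := hact ψ 1 z
    rw [map_one] at h1
    rw [Units.val_inv_eq_inv_val, hχ, ← eq_inv_of_mul_eq_one_left (hχ' z)]
    exact h1

end

end Pool.Agent.Work.MP_dd0ddf_al.C2
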