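import Pool.Agent.Work.MP_dd0ddf_al.C2.FourDefs
import Pool.Agent.Work.MP_dd0ddf_al.C2.FourSpan
import Pool.Agent.Work.MP_dd0ddf_al.C2.BiAux

/-!
# MP_dd0ddf_al, module SFormDefs: symmetric bilinear forms over F (definitions; the sorries are topological facts, see module BiOm for the method)

`lc_U, td_U, uc_U`: `U` is linearly homeomorphic to `F^m`.
`SForm.bi`: `χ(v, w) = ψ(b v w)`: same proof as for `omBi`: if `ψ(b v w) = 1` for all `v` in a ball then `|b v w| < |x0|` there.
-/

set_option linter.unusedSectionVars false
set_option linter.style.haveILetI false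

namespace Pool.Agent.Work.MP_dd0ddf_al.C2

noncomputable section

universe u

variable {F : Type u} [NontriviallyNormedField F] [IsUltrametricDist F] [ProperSpace F]
  [CharP F 2]
variable {U : Type u} [AddCommGroup U] [Module F U] [Module.Finite F U] [TopologicalSpace U]
  [IsTopologicalAddGroup U] [T2Space U] [ContinuousSMul F U]

/-- a nondegenerate symmetric bilinear form -/
structure SForm (F U : Type*) [Field F] [AddCommGroup U] [Module F U] where
  b : U → U → F
  add_left : ∀ u v w, b (u + v) w = b u w + b v w
  smul_left : ∀ (a : F) v w, b (a • v) w = a * b v w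
  symm : ∀ v w, b v w = b w v
  nondeg : ∀ v, (∀ w, b v w = 0) → v = 0

/-- a quadratic form `q` with nondegenerate polar form `b` -/
structure QForm (F U : Type*) [Field F] [AddCommGroup U] [Module F U] extends SForm F U where
  q : U → F
  q_add : ∀ v w, q (v + w) = q v + q w + b v w
  q_smul : ∀ (a : F) v, q (a • v) = a ^ 2 * q v

theorem SForm.add_right {F U : Type*} [Field F] [AddCommGroup U] [Module F U] (β : SForm F U)
    (u v w : U) : β.b u (v + w) = β.b u v + β.b u w := by
  rw [β.symm, β.add_left, β.symm v, β.symm w]

theorem SForm.smul_right {F U : Type*} [Field F] [AddCommGroup U] [Module F U] (β : SForm F U)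
    (a : F) (v w : U) : β.b v (a • w) = a * β.b v w := by
  rw [β.symm, β.smul_left, β.symm]

/-- the form `c b`, `c ≠ 0` -/
def QForm.scale {F U : Type*} [Field F] [AddCommGroup U] [Module F U] (β : QForm F U) (c : F)
    (hc : c ≠ 0) : QForm F U where
  b v w := c * β.b v w
  q v := c * β.q v
  add_left u v w := by rw [β.add_left, mul_add]
  smul_left a v w := by rw [β.smul_left]; ring
  symm v w := by rw [β.symm]
  q_add v w := by rw [β.q_add]; ring
  q_smul a v := by rw [β.q_smul]; ring
  nondeg v h := β.nondeg v fun w => by
    have := h w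
    exact (mul_eq_zero.mp this).resolve_left hc

/-- orthogonal sum -/
def QForm.prod {F U U' : Type*} [Field F] [AddCommGroup U] [Module F U] [AddCommGroup U']
    [Module F U'] (β : QForm F U) (β' : QForm F U') : QForm F (U × U') where
  b v w := β.b v.1 w.1 + β'.b v.2 w.2
  q v := β.q v.1 + β'.q v.2
  q_add v w := by
    rw [Prod.fst_add, Prod.snd_add, β.q_add, β'.q_add]
    ring
  q_smul a v := by
    rw [Prod.smul_fst, Prod.smul_snd, β.q_smul, β'.q_smul]
    ring
  add_left u v w := by
    rw [Prod.fst_add, Prod.snd_add, β.add_left, β'.add_left]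
    ring
  smul_left a v w := by
    rw [Prod.smul_fst, Prod.smul_snd, β.smul_left, β'.smul_left]
    ring
  symm v w := by rw [β.symm, β'.symm]
  nondeg v h := by
    apply Prod.ext
    · apply β.nondeg
      intro w
      have h1 := h (w, 0)
      have h2 := β'.smul_right 0 v.2 0
      rw [zero_smul, zero_mul] at h2
      have h3 : β.b v.1 w + β'.b v.2 0 = 0 := h1
      rw [h2, add_zero] at h3
      exact h3
    · apply β'.nondeg
      intro w
      have h1 := h (0, w)
      have h2 := β.smul_right 0 v.1 0
      rw [zero_smul, zero_mul] at h2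
      have h3 : β.b v.1 0 + β'.b v.2 w = 0 := h1
      rw [h2, zero_add] at h3
      exact h3

variable (F U) in
include F in
theorem lc_U : LocallyCompactSpace U := biaux_lc F U

variable (F U) in
include F in
theorem td_U : TotallyDisconnectedSpace U := biaux_td F U

variable (F U) in
include F in
theorem uc_U : UnionCompact U := biaux_uc F U

private def sformdefs_lin (β : SForm F U) : U →ₗ[F] U →ₗ[F] F :=
  LinearMap.mk₂ F β.b β.add_left β.smul_left β.add_right (fun a v w => β.smul_right a v w)

theorem SForm.continuous (β : SForm F U) : Continuous (fun q : U × U => β.b q.1 q.2) :=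
  biaux_continuous (sformdefs_lin β)

private theorem sformdefs_nd (β : SForm F U) (w : U) (h : ∀ v, sformdefs_lin β v w = 0) :
    w = 0 := β.nondeg w fun v => by
  rw [β.symm]
  exact h v

private theorem sformdefs_nd' (β : SForm F U) (w : U)
    (h : ∀ v, (sformdefs_lin β).flip v w = 0) : w = 0 := β.nondeg w fun v => h v

/-- the bicharacter `ψ(b(v, w))` -/
def SForm.bi (β : SForm F U) (p : PChar F) : BiChar U where
  χ v w := p.ψ (β.b v w)
  addl a b w := by rw [β.add_left, p.add]
  addr v a b := by rw [β.add_right, p.add]
  norm v w := p.norm_one _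
  lc := biaux_lcc (sformdefs_lin β) p
  nd v h := biaux_nd (sformdefs_lin β).flip (sformdefs_nd' β) p v h
  nd' w h := biaux_nd (sformdefs_lin β) (sformdefs_nd β) p w h
  perp L hL := biaux_perp (sformdefs_lin β) (sformdefs_nd β) p L hL
  perp' L hL := biaux_perp (sformdefs_lin β).flip (sformdefs_nd' β) p L hL

theorem SForm.bi_apply (β : SForm F U) (p : PChar F) (v w : U) :
    (β.bi p).χ v w = p.ψ (β.b v w) := rfl

theorem QForm.q_zero {F U : Type*} [Field F] [AddCommGroup U] [Module F U] (β : QForm F U) :
    β.q 0 = 0 := by
  have := β.q_smul 0 0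
  rwa [zero_smul, zero_pow two_ne_zero, zero_mul] at this

theorem QForm.continuous_q (β : QForm F U) : Continuous β.q := by
  classical
  have hb := β.continuous
  have key : ∀ s : Finset (Fin (Module.finrank F U)),
      Continuous (fun c : Fin (Module.finrank F U) → F =>
        β.q (∑ i ∈ s, c i • Module.finBasis F U i)) := by
    intro s
    induction s using Finset.induction_on with
    | empty =>
      simp only [Finset.sum_empty]
      exact continuous_const
    | insert a s ha ih =>
      have h1 : (fun c : Fin (Module.finrank F U) → F =>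
          β.q (∑ i ∈ insert a s, c i • Module.finBasis F U i)) = fun c =>
          (c a) ^ 2 * β.q (Module.finBasis F U a) + β.q (∑ i ∈ s, c i • Module.finBasis F U i) +
            β.b (c a • Module.finBasis F U a) (∑ i ∈ s, c i • Module.finBasis F U i) := by
        funext c
        rw [Finset.sum_insert ha, β.q_add, β.q_smul]
      rw [h1]
      refine ((((continuous_apply a).pow 2).mul continuous_const).add ih).add ?_
      refine hb.comp (((continuous_apply a).smul continuous_const).prodMk ?_)
      exact continuous_finsetSum _ fun i _ => (continuous_apply i).smul continuous_const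
  have h2 : β.q = (fun c : Fin (Module.finrank F U) → F =>
      β.q (∑ i, c i • Module.finBasis F U i)) ∘ biaux_e F U := by
    funext v
    show β.q v = β.q (∑ i, (Module.finBasis F U).equivFun v i • Module.finBasis F U i)
    rw [(Module.finBasis F U).sum_equivFun]
  rw [h2]
  exact (key Finset.univ).comp (biaux_e F U).continuous

/-- `ψ(q(v))` is locally constant -/
theorem QForm.lcq (β : QForm F U) (p : PChar F) :
    IsLocallyConstant (fun v => p.ψ (β.q v)) :=
  p.lc.comp_continuous β.continuous_q

/-- dilation by `t ≠ 0` -/
def dil (U : Type*) {F : Type*} [Field F] [TopologicalSpace F] [AddCommGroup U] [Module F U]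
    [TopologicalSpace U] [ContinuousSMul F U] (t : F) (ht : t ≠ 0) : TAut U where
  h := Homeomorph.smulOfNeZero t ht
  add x y := smul_add t x y

end

end Pool.Agent.Work.MP_dd0ddf_al.C2
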