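import Pool.Agent.Work.MP_dd0ddf_al.C2.LinDefs

/-!
# MP_dd0ddf_al, module LinTau: elementary facts on the involution of the linear theorem

`tau_conj`: `h' = τ h τ`.  `lin_tau_indep`: `τ' = τ h` (tau_change) so `linTau τ' f = linAct h (linTau τ f)`.
`lin_of_good`: apply `LinGood` to `T' f = T (linTau τ f) - T f`, which is invariant (tau_conj) and antisymmetric (linTau_linTau).
-/

set_option linter.unusedSectionVars false
set_option linter.style.haveILetI false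

namespace Pool.Agent.Work.MP_dd0ddf_al.C2

noncomputable section

universe u

variable {F E : Type u} [NontriviallyNormedField F] [IsUltrametricDist F] [ProperSpace F]
  [CharP F 2] [NontriviallyNormedField E] [NormedAlgebra F E] [ProperSpace E] [StarRing E]
  [QExt F E]
variable {V : Type u} [AddCommGroup V] [Module E V] [Module.Finite E V] [TopologicalSpace V]
  [IsTopologicalAddGroup V] [T2Space V] [ContinuousSMul E V]

theorem linTau_linTau {B : SkewH E V} (τ : AntiU B) (f : SF (SA B × V) ℂ) :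
    linTau F τ (linTau F τ f) = f := by
  apply SF.ext
  rintro ⟨X, v⟩
  show f ((saTau F τ) ((saTau F τ) X), τ.t (τ.t v)) = f (X, v)
  rw [τ.inv]
  have h1 : (saTau F τ) ((saTau F τ) X) = X := Subtype.ext (conjτ_conjτ τ X.1)
  rw [h1]

theorem tau_conj {B : SkewH E V} (τ : AntiU B) (h : UU B) :
    ∃ h' : UU B, (∀ v, h'.1.1 v = τ.t (h.1.1 (τ.t v))) ∧
      ∀ f : SF (SA B × V) ℂ, linTau F τ (linAct B h f) = linAct B h' (linTau F τ f) := by
  have hinv : ∀ g : GV E V, conjτ τ g.1 * conjτ τ g⁻¹.1 = 1 := fun g => by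
    rw [← conjτ_mul, g.mul_inv, conjτ_one]
  have hinv' : ∀ g : GV E V, conjτ τ g⁻¹.1 * conjτ τ g.1 = 1 := fun g => by
    rw [← conjτ_mul, g.inv_mul, conjτ_one]
  refine ⟨⟨⟨conjτ τ h.1.1, conjτ τ h.1⁻¹.1, hinv h.1, hinv' h.1⟩, fun v w => ?_⟩, fun v => rfl,
    fun f => ?_⟩
  · show B.ip (τ.t (h.1.1 (τ.t v))) (τ.t (h.1.1 (τ.t w))) = B.ip v w
    rw [τ.ip, h.2, τ.ip]
  · apply SF.ext
    rintro ⟨X, v⟩
    show f (saConj B h (saTau F τ X), h.1.1 (τ.t v)) =
      f (saTau F τ (saConj B _ X), τ.t (τ.t (h.1.1 (τ.t v))))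
    rw [τ.inv]
    refine congrArg (fun Y => f (Y, h.1.1 (τ.t v))) (Subtype.ext ?_)
    show h.1.1 * conjτ τ X.1 * h.1⁻¹.1 = conjτ τ (conjτ τ h.1.1 * X.1 * conjτ τ h.1⁻¹.1)
    rw [conjτ_mul, conjτ_mul, conjτ_conjτ, conjτ_conjτ]

theorem lin_tau_indep {B : SkewH E V} (τ τ' : AntiU B) (T : SF (SA B × V) ℂ →ₗ[ℂ] ℂ)
    (hT : LinInv B T) (h : LinAnti F τ T) : LinAnti F τ' T := by
  obtain ⟨g, hg⟩ := tau_change B τ τ'
  have hg' : ∀ v, τ'.t v = g.1⁻¹.1 (τ.t v) := by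
    intro v
    have h1 : g.1.1 (τ'.t v) = τ.t v := by
      rw [← τ.inv (g.1.1 (τ'.t v)), ← hg, τ'.inv]
    rw [← h1]
    exact (congrArg (fun f : Module.End E V => f (τ'.t v)) g.1.inv_mul).symm
  intro f
  have h2 : linTau F τ' f = linAct B g (linTau F τ f) := by
    apply SF.ext
    rintro ⟨X, v⟩
    show f (saTau F τ' X, τ'.t v) = f (saTau F τ (saConj B g X), τ.t (g.1.1 v))
    rw [← hg]
    refine congrArg (fun Y => f (Y, τ'.t v)) (Subtype.ext (LinearMap.ext fun w => ?_))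
    show τ'.t (X.1 (τ'.t w)) = τ.t (g.1.1 (X.1 (g.1⁻¹.1 (τ.t w))))
    rw [← hg, hg' w]
  rw [h2, hT]
  exact h f

theorem lin_of_good {B : SkewH E V} (hg : LinGood F B) (τ : AntiU B)
    (T : SF (SA B × V) ℂ →ₗ[ℂ] ℂ) (hT : LinInv B T) (f : SF (SA B × V) ℂ) :
    T (linTau F τ f) = T f := by
  have h1 : T ∘ₗ linTau F τ - T = 0 := by
    refine hg τ _ (fun h f => ?_) (fun f => ?_)
    · obtain ⟨h', -, h2⟩ := tau_conj (F := F) τ h
      show T (linTau F τ (linAct B h f)) - T (linAct B h f) = T (linTau F τ f) - T f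
      rw [h2, hT, hT]
    · show T (linTau F τ (linTau F τ f)) - T (linTau F τ f) = -(T (linTau F τ f) - T f)
      rw [linTau_linTau]
      ring
  have h3 := congrArg (fun S : SF (SA B × V) ℂ →ₗ[ℂ] ℂ => S f) h1
  exact sub_eq_zero.1 h3

end

end Pool.Agent.Work.MP_dd0ddf_al.C2
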