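import Pool.Agent.Work.MP_dd0ddf_al.C2.WfMDefs

/-!
# MP_dd0ddf_al, module WfM: properties of the operators M_{h,b}

`Mop_apply`: evaluate at `v` (a linear functional on SF V, `vI_map`); for fixed `v` the integrand has compact support in `x` (b linearly independent, f compactly supported), so for `L` large the
truncation is irrelevant: `vI_integral`.
`Mop_L`: work with `L` large for `f` and for `L_y f`, containing the coordinates of `(h-1)y`.  `L_u L_y = ψ(phase) L_{hy} L_{u - (h-1)y}` and substitute `u = u' + c`, `c = (h-1)y ∈ R_h`: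
phase (T z = Tr(conj d z)): `T W(u,u) = T W(u',u') + T[W(u',c) + W(c,u')] + T W(c,c)`, `W(c,u') = ⟨y,u'⟩`, `W(u',c) = -⟨u',hy⟩` (wall_conj), `W(c,c) = ⟨y,hy-y⟩`; everything cancels and
`Mop (L_y f) = L_{hy} (Mop f)`.
`Mop_R`: `R_y` commutes with `L_u`.
`Mop_ne`: `(Mop f)(0) ≠ 0` for `f = single N 1`, N a small compact open subgroup: integrand `1` on `{x : x·b ∈ N}`, 0 outside.
`Mop_change`: `x·b' = (x P)·b`, `vI_mat`, and the quadratic form transforms accordingly (sesquilinearity of W).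
`Mop_prod`: `Mop g b (Mop h b' f)` = iterated integral; `L_u L_{u'} = ψ(bt(u,u')) L_{u+u'}` and `T W_gh(u+u',u+u') = T W_g(u,u) + T W_h(u',u') + bt(u,u')`
(wall_prod; `T ⟨u',u⟩ = - bt(u,u')`); `vI_append`; truncations to `L × L'`.
`Mop_conj`: apply `A` to the finite sum `vI (trf ...)` (vI_map), `A L_u = L_{gu} A`, and `wall_conjugate`.
-/

set_option linter.unusedSectionVars false
set_option linter.style.haveILetI false

namespace Pool.Agent.Work.MP_dd0ddf_al.C2

noncomputable section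

universe u

variable {F E : Type u} [NontriviallyNormedField F] [IsUltrametricDist F] [ProperSpace F]
  [CharP F 2] [NontriviallyNormedField E] [NormedAlgebra F E] [ProperSpace E] [StarRing E]
  [QExt F E] [Dl E] [MeasurableSpace E] [BorelSpace E]
variable {V : Type u} [AddCommGroup V] [Module E V] [Module.Finite E V] [TopologicalSpace V]
  [IsTopologicalAddGroup V] [T2Space V] [ContinuousSMul E V]

private theorem wfm_L (B : SkewH E V) (p : PChar F) (x : V) (f : SF V ℂ) (v : V) :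
    Lop B p x f v = p.ψ (bt F B x (v - x)) * f (v - x) := rfl

variable (F E) in
include F E in
private theorem wfm_uc (r : ℕ) : UnionCompact (Fin r → E) := by
  haveI : FiniteDimensional F E := qext_findim F E
  exact biaux_uc F (Fin r → E)

private theorem wfm_mem {B : SkewH E V} (h : UU B) {r : ℕ} {b : Fin r → V} (hb : IsRBasis h.1 b)
    (x : Fin r → E) : ∑ i, x i • b i ∈ LinearMap.range (h.1.1 - 1) := by
  refine Submodule.sum_mem _ fun k _ => Submodule.smul_mem _ _ ?_
  rw [← hb.2]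
  exact Submodule.subset_span ⟨k, rfl⟩

private theorem wfm_phase (B : SkewH E V) (p : PChar F) (h : UU B) {r : ℕ} (b : Fin r → V)
    (hb : IsRBasis h.1 b) (x : Fin r → E) : wphase p (wallM B h.1 b) x =
      p.ψ (Algebra.trace F E (star Dl.d * wall B h.1 (∑ i, x i • b i) (∑ i, x i • b i))) := by
  rw [wfmdefs_wphase, wfmdefs_wall h b hb]

omit [MeasurableSpace E] [BorelSpace E] [StarRing E] in
private theorem wfm_closed {r : ℕ} (b : Fin r → V) (hb : LinearIndependent E b) :
    Topology.IsClosedEmbedding (fun x : Fin r → E => ∑ i, x i • b i) := by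
  have h1 : Topology.IsClosedEmbedding (Fintype.linearCombination E b) :=
    LinearMap.isClosedEmbedding_of_injective
      (by
        rw [LinearMap.ker_eq_bot']
        intro x hx
        rw [Fintype.linearCombination_apply] at hx
        exact funext fun i => Fintype.linearIndependent_iff.1 hb x hx i)
  have h2 : (fun x : Fin r → E => ∑ i, x i • b i) = Fintype.linearCombination E b := by
    funext x
    rw [Fintype.linearCombination_apply]
  rw [h2]
  exact h1

/-- evaluation at a point -/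
private def wfm_ev (v : V) : SF V ℂ →ₗ[ℂ] ℂ where
  toFun f := f v
  map_add' _ _ := rfl
  map_smul' _ _ := rfl

theorem Mop_apply (B : SkewH E V) (p : PChar F) (h : UU B) {r : ℕ} (b : Fin r → V)
    (hb : IsRBasis h.1 b) (f : SF V ℂ) (v : V) : Mop B p h b hb f v =
      ∫ x : Fin r → E, p.ψ (Algebra.trace F E
            (star Dl.d * ∑ i, ∑ j, x i * star (x j) * wall B h.1 (b i) (b j))) *
          Lop B p (∑ i, x i • b i) f v ∂(MeasureTheory.Measure.pi fun _ =>
            (MeasureTheory.Measure.addHaar : MeasureTheory.Measure E)) := by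
  classical
  obtain ⟨L0, hL0o, hL0c, hL0⟩ := Mop_spec B p h b hb f
  have hK : IsCompact ((fun x : Fin r → E => ∑ i, x i • b i) ⁻¹'
      ((fun w : V => v - w) '' tsupport f.1)) :=
    (wfm_closed b hb.1).isCompact_preimage (f.2.2.isCompact.image (continuous_const.sub continuous_id))
  obtain ⟨L, hL, hL', hLs⟩ := wfm_uc F E r _ (hL0c.union hK)
  have e1 : Mop B p h b hb f v = wfm_ev v (vI r (trf B p (wallM B h.1 b) b L hL hL' f)) := by
    rw [hL0 L hL hL' (fun x hx => hLs (Or.inl hx))]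
    rfl
  rw [e1, ← vI_map, vI_integral]
  refine MeasureTheory.integral_congr_ae (Filter.Eventually.of_forall fun x => ?_)
  show trf B p (wallM B h.1 b) b L hL hL' f x v = wphase p (wallM B h.1 b) x *
    Lop B p (∑ i, x i • b i) f v
  rw [wfmdefs_trf_apply]
  by_cases hx : x ∈ L
  · rw [if_pos hx]
    rfl
  · rw [if_neg hx]
    have h0 : f (v - ∑ i, x i • b i) = 0 := by
      refine image_eq_zero_of_notMem_tsupport fun h1 => hx (hLs (Or.inr ?_))
      exact ⟨_, h1, sub_sub_cancel v _⟩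
    rw [wfm_L, h0, mul_zero, mul_zero]
    rfl

theorem Mop_L (B : SkewH E V) (p : PChar F) (h : UU B) {r : ℕ} (b : Fin r → V)
    (hb : IsRBasis h.1 b) (y : V) :
    Mop B p h b hb ∘ₗ Lop B p y = Lop B p (h.1.1 y) ∘ₗ Mop B p h b hb := by
  classical
  apply LinearMap.ext
  intro f
  show Mop B p h b hb (Lop B p y f) = Lop B p (h.1.1 y) (Mop B p h b hb f)
  -- the coordinates of `(h - 1) y`
  obtain ⟨c0, hc0⟩ : ∃ c0 : Fin r → E, ∑ i, c0 i • b i = h.1.1 y - y := by
    rw [← Submodule.mem_span_range_iff_exists_fun, hb.2]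
    exact ⟨y, rfl⟩
  set c : V := h.1.1 y - y with hc
  obtain ⟨L1, hL1o, hL1c, hL1⟩ := Mop_spec B p h b hb f
  obtain ⟨L2, hL2o, hL2c, hL2⟩ := Mop_spec B p h b hb (Lop B p y f)
  obtain ⟨L, hL, hL', hLs⟩ := wfm_uc F E r _ ((hL1c.union hL2c).union (isCompact_singleton (x := c0)))
  have hc0L : c0 ∈ L := hLs (Or.inr rfl)
  rw [hL1 L hL hL' (fun x hx => hLs (Or.inl (Or.inl hx))),
    hL2 L hL hL' (fun x hx => hLs (Or.inl (Or.inr hx))), ← vI_map,
    ← vI_trans r c0 (trf B p (wallM B h.1 b) b L hL hL' (Lop B p y f))]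
  congr 1
  apply SF.ext
  intro x
  show trf B p (wallM B h.1 b) b L hL hL' (Lop B p y f) (x + c0) =
    Lop B p (h.1.1 y) (trf B p (wallM B h.1 b) b L hL hL' f x)
  rw [wfmdefs_trf_apply, wfmdefs_trf_apply]
  by_cases hx : x ∈ L
  · rw [if_pos hx, if_pos (L.add_mem hx hc0L), map_smul, wfm_phase B p h b hb,
      wfm_phase B p h b hb]
    have e1 : ∑ i, (x + c0) i • b i = ∑ i, x i • b i + c := by
      rw [← hc0, ← Finset.sum_add_distrib]
      refine Finset.sum_congr rfl fun i _ => ?_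
      rw [Pi.add_apply, add_smul]
    rw [e1]
    have hu := wfm_mem h hb x
    set u : V := ∑ i, x i • b i with hudef
    have hcm : c ∈ LinearMap.range (h.1.1 - 1) := ⟨y, rfl⟩
    -- compositions
    have e2 : Lop B p (u + c) (Lop B p y f) =
        p.ψ (bt F B (u + c) y) • Lop B p (u + c + y) f :=
      congrArg (fun T : SF V ℂ →ₗ[ℂ] SF V ℂ => T f) (lop_lop B p (u + c) y)
    have e3 : Lop B p (h.1.1 y) (Lop B p u f) =
        p.ψ (bt F B (h.1.1 y) u) • Lop B p (h.1.1 y + u) f :=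
      congrArg (fun T : SF V ℂ →ₗ[ℂ] SF V ℂ => T f) (lop_lop B p (h.1.1 y) u)
    have e4 : h.1.1 y + u = u + c + y := by
      rw [hc]
      abel
    rw [e2, e3, e4, smul_smul, smul_smul, ← p.add, ← p.add]
    congr 2
    -- the exponents
    have w1 : wall B h.1 (u + c) (u + c) = wall B h.1 u u + wall B h.1 u c +
        (wall B h.1 c u + wall B h.1 c c) := by
      rw [wall_add_left h hu hcm (Submodule.add_mem _ hu hcm), wall_add_right h hu hu hcm,
        wall_add_right h hcm hu hcm]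
    have w2 : wall B h.1 c u = B.ip y u := wall_eq h rfl hu
    have w3 : wall B h.1 c c = B.ip y c := wall_eq h rfl hcm
    have w4 : wall B h.1 u c = star (B.ip y u) - B.ip u c := by
      rw [← w2, ← wall_conj h hu hcm]
      ring
    have t4 : h.1.1 y = y + c := by
      rw [hc]
      abel
    rw [w1, w2, w3, w4, t4]
    simp only [mul_add, mul_sub, map_add, map_sub, tr_sd_star, tr_sd_ip, bt_add_left]
    ring
  · rw [if_neg hx, if_neg (fun h' => hx ((L.add_mem_cancel_right hc0L).1 h')), map_zero]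

theorem Mop_R (B : SkewH E V) (p : PChar F) (h : UU B) {r : ℕ} (b : Fin r → V)
    (hb : IsRBasis h.1 b) (y : V) :
    Mop B p h b hb ∘ₗ Rop B p y = Rop B p y ∘ₗ Mop B p h b hb := by
  classical
  apply LinearMap.ext
  intro f
  show Mop B p h b hb (Rop B p y f) = Rop B p y (Mop B p h b hb f)
  obtain ⟨L1, hL1o, hL1c, hL1⟩ := Mop_spec B p h b hb f
  obtain ⟨L2, hL2o, hL2c, hL2⟩ := Mop_spec B p h b hb (Rop B p y f)
  obtain ⟨L, hL, hL', hLs⟩ := wfm_uc F E r _ (hL1c.union hL2c)
  rw [hL1 L hL hL' (fun x hx => hLs (Or.inl hx)),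
    hL2 L hL hL' (fun x hx => hLs (Or.inr hx)), ← vI_map]
  congr 1
  apply SF.ext
  intro x
  show trf B p (wallM B h.1 b) b L hL hL' (Rop B p y f) x =
    Rop B p y (trf B p (wallM B h.1 b) b L hL hL' f x)
  rw [wfmdefs_trf_apply, wfmdefs_trf_apply]
  by_cases hx : x ∈ L
  · rw [if_pos hx, if_pos hx, map_smul]
    congr 1
    exact congrArg (fun T : SF V ℂ →ₗ[ℂ] SF V ℂ => T f) (lop_rop B p (∑ i, x i • b i) y)
  · rw [if_neg hx, if_neg hx, map_zero]

theorem Mop_ne (B : SkewH E V) (p : PChar F) (h : UU B) {r : ℕ} (b : Fin r → V)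
    (hb : IsRBasis h.1 b) : Mop B p h b hb ≠ 0 := by
  classical
  haveI := lc_V E V
  haveI := td_V F E V
  intro h0
  -- a small subgroup of `V`
  have hW : IsOpen {x : Fin r → E | wphase p (wallM B h.1 b) x = 1} :=
    (wfmdefs_wphase_lc p _).isOpen_fiber 1
  obtain ⟨W, hWo, hWe⟩ := (wfm_closed b hb.1).isInducing.isOpen_iff.1 hW
  have h0W : (0 : V) ∈ W := by
    have h1 : (0 : Fin r → E) ∈ (fun x : Fin r → E => ∑ i, x i • b i) ⁻¹' W := by
      rw [hWe]
      show wphase p (wallM B h.1 b) 0 = 1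
      rw [wfm_phase B p h b hb]
      have h2 : ∑ i, (0 : Fin r → E) i • b i = 0 :=
        Finset.sum_eq_zero fun i _ => by rw [Pi.zero_apply, zero_smul]
      have h3 := wall_smul_left h 0 (Submodule.zero_mem _) (Submodule.zero_mem _)
      rw [zero_smul, zero_mul] at h3
      rw [h2, h3, mul_zero, map_zero, wfmdefs_psi_zero]
    have h2 : ∑ i, (0 : Fin r → E) i • b i ∈ W := h1
    rwa [Finset.sum_eq_zero fun i _ => by rw [Pi.zero_apply, zero_smul]] at h2
  have hW2 : IsOpen {v : V | p.ψ (bt F B v (-v)) = 1} :=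
    ((bt_lc B p).comp_continuous (continuous_id.prodMk continuous_neg)).isOpen_fiber 1
  have h0W2 : (0 : V) ∈ {v : V | p.ψ (bt F B v (-v)) = 1} := by
    show p.ψ (bt F B 0 (-0)) = 1
    rw [bt_zero_left, wfmdefs_psi_zero]
  obtain ⟨N, hNo, hNc, hNs'⟩ := exists_co_addSubgroup (W ∩ {v : V | p.ψ (bt F B v (-v)) = 1})
    (hWo.inter hW2) ⟨h0W, h0W2⟩
  have hNs : (N : Set V) ⊆ W := fun x hx => (hNs' hx).1
  have hN2 : ∀ x ∈ N, p.ψ (bt F B x (-x)) = 1 := fun x hx => (hNs' hx).2
  set f : SF V ℂ := SF.single (N : Set V) hNc hNo (1 : ℂ) with hf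
  obtain ⟨L, hL, hL', hL0⟩ := Mop_spec B p h b hb f
  have e1 : wfm_ev (0 : V) (vI r (trf B p (wallM B h.1 b) b L hL hL' f)) = 0 := by
    rw [← hL0 L hL hL' le_rfl, h0]
    rfl
  rw [← vI_map] at e1
  have hKo : IsOpen ((L : Set (Fin r → E)) ∩
      (fun x : Fin r → E => ∑ i, x i • b i) ⁻¹' (N : Set V)) :=
    hL.inter (hNo.preimage (wfmdefs_comb b))
  have hKc : IsCompact ((L : Set (Fin r → E)) ∩
      (fun x : Fin r → E => ∑ i, x i • b i) ⁻¹' (N : Set V)) :=
    hL'.inter_right (hNc.isClosed.preimage (wfmdefs_comb b))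
  have e2 : SF.map (wfm_ev (0 : V)) (trf B p (wallM B h.1 b) b L hL hL' f) =
      SF.single _ hKc hKo (1 : ℂ) := by
    apply SF.ext
    intro x
    show trf B p (wallM B h.1 b) b L hL hL' f x 0 = _
    rw [wfmdefs_trf_apply]
    by_cases hx : x ∈ L
    · rw [if_pos hx]
      show wphase p (wallM B h.1 b) x * Lop B p (∑ i, x i • b i) f 0 = _
      rw [wfm_L, zero_sub]
      by_cases hN : ∑ i, x i • b i ∈ N
      · have h2 : x ∈ (fun x : Fin r → E => ∑ i, x i • b i) ⁻¹' W := hNs hN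
        rw [hWe] at h2
        have h3 : wphase p (wallM B h.1 b) x = 1 := h2
        have h4 : x ∈ (L : Set (Fin r → E)) ∩
            (fun x : Fin r → E => ∑ i, x i • b i) ⁻¹' (N : Set V) := ⟨hx, hN⟩
        rw [h3, one_mul, hf, SF.single_apply_mem _ _ _ _ _ (N.neg_mem hN),
          SF.single_apply_mem _ _ _ _ _ h4, hN2 _ hN, one_mul]
      · rw [hf, SF.single_apply_not_mem _ _ _ _ _ (fun h4 => hN (by
          have := N.neg_mem h4
          rwa [neg_neg] at this)), mul_zero, mul_zero,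
          SF.single_apply_not_mem _ _ _ _ _ (fun h4 => hN h4.2)]
    · rw [if_neg hx, SF.single_apply_not_mem _ _ _ _ _ (fun h4 => hx h4.1)]
      rfl
  have hne : ((L : Set (Fin r → E)) ∩
      (fun x : Fin r → E => ∑ i, x i • b i) ⁻¹' (N : Set V)).Nonempty := by
    refine ⟨0, L.zero_mem, ?_⟩
    show ∑ i, (0 : Fin r → E) i • b i ∈ (N : Set V)
    rw [Finset.sum_eq_zero fun i _ => by rw [Pi.zero_apply, zero_smul]]
    exact N.zero_mem
  obtain ⟨c, hc, hv⟩ := vI_pos F r _ hKc hKo hne (W := ℂ)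
  rw [e2, hv, smul_eq_mul, mul_one] at e1
  exact hc.ne' (by exact_mod_cast e1)

theorem Mop_change (B : SkewH E V) (p : PChar F) (h : UU B) {r : ℕ} (b b' : Fin r → V)
    (hb : IsRBasis h.1 b) (hb' : IsRBasis h.1 b') (P : Matrix (Fin r) (Fin r) E)
    (hP : P.det ≠ 0) (hbb : ∀ i, b' i = ∑ j, P i j • b j) [LocallyCompactSpace E]
    [TotallyDisconnectedSpace E] :
    Mop B p h b' hb' = (hmod (mulT E P.det hP) : ℂ) • Mop B p h b hb := by
  classical
  apply LinearMap.ext
  intro f
  show Mop B p h b' hb' f = (hmod (mulT E P.det hP) : ℂ) • Mop B p h b hb f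
  have hPu : IsUnit P := (Matrix.isUnit_iff_isUnit_det P).2 (isUnit_iff_ne_zero.2 hP)
  obtain ⟨L1, hL1o, hL1c, hL1⟩ := Mop_spec B p h b hb f
  obtain ⟨L2, hL2o, hL2c, hL2⟩ := Mop_spec B p h b' hb' f
  obtain ⟨L, hL, hL', hLs⟩ := wfm_uc F E r _
    (hL1c.union (hL2c.image (matH P hPu).continuous))
  set L' : AddSubgroup (Fin r → E) := L.comap
    (AddMonoidHom.mk' (fun x => Matrix.vecMul x P) fun x y => Matrix.add_vecMul P x y) with hL'def
  have hset : (L' : Set (Fin r → E)) = (matH P hPu) ⁻¹' (L : Set (Fin r → E)) := rfl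
  have hL'o : IsOpen (L' : Set (Fin r → E)) := by
    rw [hset]
    exact hL.preimage (matH P hPu).continuous
  have hL'c : IsCompact (L' : Set (Fin r → E)) := by
    rw [hset]
    exact (matH P hPu).isCompact_preimage.2 hL'
  have hLL' : L2 ≤ L' := by
    intro x hx
    have h3 : matH P hPu x ∈ (L : Set (Fin r → E)) := hLs (Or.inr ⟨x, hx, rfl⟩)
    exact h3
  rw [hL1 L hL hL' (fun x hx => hLs (Or.inl hx)), hL2 L' hL'o hL'c hLL', ← vI_mat F P hPu hP]
  congr 1
  apply SF.ext
  intro x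
  show trf B p (wallM B h.1 b') b' L' hL'o hL'c f x =
    trf B p (wallM B h.1 b) b L hL hL' f (Matrix.vecMul x P)
  have e1 : ∑ i, x i • b' i = ∑ j, (Matrix.vecMul x P) j • b j := by
    have e2 : ∀ j, (Matrix.vecMul x P) j • b j = ∑ i, (x i * P i j) • b j := by
      intro j
      rw [← Finset.sum_smul]
      rfl
    simp_rw [e2, hbb, Finset.smul_sum, smul_smul]
    rw [Finset.sum_comm]
  rw [wfmdefs_trf_apply, wfmdefs_trf_apply, wfm_phase B p h b hb, wfm_phase B p h b' hb', e1]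
  by_cases hx : x ∈ L'
  · rw [if_pos hx, if_pos (show Matrix.vecMul x P ∈ L from hx)]
  · rw [if_neg hx, if_neg (show ¬ Matrix.vecMul x P ∈ L from hx)]

theorem Mop_prod (B : SkewH E V) (p : PChar F) (g h : UU B)
    (hd : Disjoint (LinearMap.range (g.1.1 - 1)) (LinearMap.range (h.1.1 - 1)))
    {r s : ℕ} (b : Fin r → V) (b' : Fin s → V) (hb : IsRBasis g.1 b) (hb' : IsRBasis h.1 b')
    (hbb : IsRBasis (g * h).1 (Fin.append b b')) :
    Mop B p (g * h) (Fin.append b b') hbb = Mop B p g b hb ∘ₗ Mop B p h b' hb' := by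
  classical
  apply LinearMap.ext
  intro f
  show Mop B p (g * h) (Fin.append b b') hbb f = Mop B p g b hb (Mop B p h b' hb' f)
  obtain ⟨L1, hL1o, hL1c, hL1⟩ := Mop_spec B p g b hb (Mop B p h b' hb' f)
  obtain ⟨L2, hL2o, hL2c, hL2⟩ := Mop_spec B p h b' hb' f
  obtain ⟨L3, hL3o, hL3c, hL3⟩ := Mop_spec B p (g * h) (Fin.append b b') hbb f
  have hc1 : Continuous (fun z : Fin (r + s) → E => fun i : Fin r => z (Fin.castAdd s i)) :=
    continuous_pi fun i => continuous_apply _
  have hc2 : Continuous (fun z : Fin (r + s) → E => fun i : Fin s => z (Fin.natAdd r i)) :=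
    continuous_pi fun i => continuous_apply _
  obtain ⟨L, hL, hL', hLs⟩ := wfm_uc F E r _ (hL1c.union (hL3c.image hc1))
  obtain ⟨K, hK, hK', hKs⟩ := wfm_uc F E s _ (hL2c.union (hL3c.image hc2))
  set J : AddSubgroup (Fin (r + s) → E) :=
    { carrier := {z | (fun i : Fin r => z (Fin.castAdd s i)) ∈ L ∧
        (fun i : Fin s => z (Fin.natAdd r i)) ∈ K}
      add_mem' := fun {x y} hx hy => ⟨L.add_mem hx.1 hy.1, K.add_mem hx.2 hy.2⟩
      zero_mem' := ⟨L.zero_mem, K.zero_mem⟩
      neg_mem' := fun {x} hx => ⟨L.neg_mem hx.1, K.neg_mem hx.2⟩ } with hJ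
  have hJo : IsOpen (J : Set (Fin (r + s) → E)) :=
    (hL.preimage hc1).inter (hK.preimage hc2)
  have hJc : IsCompact (J : Set (Fin (r + s) → E)) := by
    have h1 : (J : Set (Fin (r + s) → E)) ⊆ (fun q : (Fin r → E) × (Fin s → E) =>
        Fin.append q.1 q.2) '' ((L : Set (Fin r → E)) ×ˢ (K : Set (Fin s → E))) := by
      intro z hz
      exact ⟨(fun i => z (Fin.castAdd s i), fun i => z (Fin.natAdd r i)), ⟨hz.1, hz.2⟩,
        Fin.append_castAdd_natAdd⟩
    have h2 : Continuous (fun q : (Fin r → E) × (Fin s → E) => Fin.append q.1 q.2) := by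
      refine continuous_pi fun i => ?_
      refine Fin.addCases (fun i => ?_) (fun i => ?_) i
      · have h : (fun p : (Fin r → E) × (Fin s → E) => Fin.append p.1 p.2 (Fin.castAdd s i)) =
            fun p => p.1 i := by
          funext p
          exact Fin.append_left p.1 p.2 i
        rw [h]
        exact (continuous_apply i).comp continuous_fst
      · have h : (fun p : (Fin r → E) × (Fin s → E) => Fin.append p.1 p.2 (Fin.natAdd r i)) =
            fun p => p.2 i := by
          funext p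
          exact Fin.append_right p.1 p.2 i
        rw [h]
        exact (continuous_apply i).comp continuous_snd
    exact ((hL'.prod hK').image h2).of_isClosed_subset
      (J.isClosed_of_isOpen hJo) h1
  rw [hL1 L hL hL' (fun x hx => hLs (Or.inl hx)),
    hL3 J hJo hJc (fun x hx => ⟨hLs (Or.inr ⟨x, hx, rfl⟩), hKs (Or.inr ⟨x, hx, rfl⟩)⟩)]
  obtain ⟨G, hG, hGe⟩ := vI_append F r s
    (trf B p (wallM B (g * h).1 (Fin.append b b')) (Fin.append b b') J hJo hJc f)
  rw [hGe]
  congr 1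
  apply SF.ext
  intro x
  obtain ⟨k, hk, hGx⟩ := hG x
  rw [hGx, wfmdefs_trf_apply]
  -- the inner integral
  have hku : ∀ y, k y = if x ∈ L ∧ y ∈ K then (wphase p (wallM B g.1 b) x *
      wphase p (wallM B h.1 b') y) • Lop B p (∑ i, x i • b i) (Lop B p (∑ i, y i • b' i) f)
      else 0 := by
    intro y
    rw [hk, wfmdefs_trf_apply]
    have hmemJ : Fin.append x y ∈ J ↔ x ∈ L ∧ y ∈ K := by
      show ((fun i : Fin r => Fin.append x y (Fin.castAdd s i)) ∈ L ∧
        (fun i : Fin s => Fin.append x y (Fin.natAdd r i)) ∈ K) ↔ _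
      have h1 : (fun i : Fin r => Fin.append x y (Fin.castAdd s i)) = x :=
        funext fun i => Fin.append_left x y i
      have h2 : (fun i : Fin s => Fin.append x y (Fin.natAdd r i)) = y :=
        funext fun i => Fin.append_right x y i
      rw [h1, h2]
    by_cases hxy : x ∈ L ∧ y ∈ K
    · rw [if_pos (hmemJ.2 hxy), if_pos hxy, wfm_phase B p (g * h) _ hbb, wfm_phase B p g b hb,
        wfm_phase B p h b' hb']
      have e1 : ∑ i, (Fin.append x y) i • (Fin.append b b') i =
          ∑ i, x i • b i + ∑ i, y i • b' i := by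
        rw [Fin.sum_univ_add]
        simp only [Fin.append_left, Fin.append_right]
      rw [e1]
      have hu := wfm_mem g hb x
      have hu' := wfm_mem h hb' y
      set u : V := ∑ i, x i • b i with hudef
      set u' : V := ∑ i, y i • b' i with hu'def
      have e2 : Lop B p u (Lop B p u' f) = p.ψ (bt F B u u') • Lop B p (u + u') f :=
        congrArg (fun T : SF V ℂ →ₗ[ℂ] SF V ℂ => T f) (lop_lop B p u u')
      rw [e2, smul_smul, ← p.add, ← p.add]
      congr 2
      have w1 := (wall_prod g h hd b b' hb hb').2.2 u hu u' hu' u hu u' hu'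
      rw [w1]
      simp only [mul_add, mul_sub, map_add, map_sub, tr_sd_ip]
      ring
    · rw [if_neg (fun h' => hxy (hmemJ.1 h')), if_neg hxy]
  by_cases hx : x ∈ L
  · rw [if_pos hx, hL2 K hK hK' (fun x hx => hKs (Or.inl hx)), ← vI_map, ← map_smul]
    congr 1
    apply SF.ext
    intro y
    rw [hku]
    show _ = wphase p (wallM B g.1 b) x • Lop B p (∑ i, x i • b i)
      (trf B p (wallM B h.1 b') b' K hK hK' f y)
    rw [wfmdefs_trf_apply]
    by_cases hy : y ∈ K
    · rw [if_pos ⟨hx, hy⟩, if_pos hy, map_smul, smul_smul]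
    · rw [if_neg (fun h' => hy h'.2), if_neg hy, map_zero, smul_zero]
  · rw [if_neg hx]
    have hk0 : k = 0 := by
      apply SF.ext
      intro y
      rw [hku, if_neg (fun h' => hx h'.1)]
      rfl
    rw [hk0, map_zero]

theorem Mop_conj (B : SkewH E V) (p : PChar F) (g h : UU B) {r : ℕ} (b : Fin r → V)
    (hb : IsRBasis h.1 b) (hb' : IsRBasis (g * h * g⁻¹).1 (fun i => g.1.1 (b i)))
    (A : SF V ℂ →ₗ[ℂ] SF V ℂ) (hA : ∀ x, A ∘ₗ Lop B p x = Lop B p (g.1.1 x) ∘ₗ A) :
    A ∘ₗ Mop B p h b hb = Mop B p (g * h * g⁻¹) (fun i => g.1.1 (b i)) hb' ∘ₗ A := by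
  classical
  apply LinearMap.ext
  intro f
  show A (Mop B p h b hb f) = Mop B p (g * h * g⁻¹) (fun i => g.1.1 (b i)) hb' (A f)
  obtain ⟨L1, hL1o, hL1c, hL1⟩ := Mop_spec B p h b hb f
  obtain ⟨L2, hL2o, hL2c, hL2⟩ := Mop_spec B p (g * h * g⁻¹) (fun i => g.1.1 (b i)) hb' (A f)
  obtain ⟨L, hL, hL', hLs⟩ := wfm_uc F E r _ (hL1c.union hL2c)
  rw [hL1 L hL hL' (fun x hx => hLs (Or.inl hx)),
    hL2 L hL hL' (fun x hx => hLs (Or.inr hx)), ← vI_map]
  congr 1
  apply SF.ext
  intro x
  show A (trf B p (wallM B h.1 b) b L hL hL' f x) =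
    trf B p (wallM B (g * h * g⁻¹).1 fun i => g.1.1 (b i)) (fun i => g.1.1 (b i)) L hL hL' (A f) x
  rw [wfmdefs_trf_apply, wfmdefs_trf_apply]
  by_cases hx : x ∈ L
  · rw [if_pos hx, if_pos hx, map_smul, wfm_phase B p h b hb, wfm_phase B p _ _ hb']
    have e1 : ∑ i, x i • g.1.1 (b i) = g.1.1 (∑ i, x i • b i) := by
      rw [map_sum]
      refine Finset.sum_congr rfl fun i _ => ?_
      rw [map_smul]
    have hu := wfm_mem h hb x
    have e2 : A (Lop B p (∑ i, x i • b i) f) = Lop B p (g.1.1 (∑ i, x i • b i)) (A f) :=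
      congrArg (fun T : SF V ℂ →ₗ[ℂ] SF V ℂ => T f) (hA (∑ i, x i • b i))
    rw [e1, e2, wall_conjugate g h hu hu]
  · rw [if_neg hx, if_neg hx, map_zero]

end

end Pool.Agent.Work.MP_dd0ddf_al.C2
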