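import Pool.Agent.Work.MP_dd0ddf_al.C2.DpAlg
import Pool.Agent.Work.MP_dd0ddf_al.C2.DpAux
import Pool.Agent.Work.MP_dd0ddf_al.C2.Chirp
import Pool.Agent.Work.MP_dd0ddf_al.C2.Witt

/-!
# MP_dd0ddf_al, module DpSpec: spectral step: lambda is invariant under L_y, R_y, y ∈ Y

`dp_norm`: `Y = q^{k-1}(s)U` and `g⁻¹ Y` are isotropic (`⟨g⁻¹a, g⁻¹b⟩ = ⟨s⁻¹ a, b⟩`, Y is s-stable), so by Witt the isometry `y ↦ g⁻¹ y` of Y extends to `h ∈ U(V)`: `g h y = y`.
`dp_spec`: `g y = y` on Y; then `g^* y = g⁻¹ s y = s y` on Y, so g, g^* preserve Y and g preserves Y^⊥.  For `r ∈ F[x]` let `c = c_r` (exists_unip), `c' = g⁻¹ c g` (unitary by conj_unitary-type argument); both are 1 on Y^⊥: `c v - v = η (r q^{k-1})(s) pr_U v`, pr_U v ∈ q(s)U for v ∈ Y^⊥ (qs_orth), killed by q^{k-1};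
for c' use g Y^⊥ = Y^⊥.  `BY` (exists_SkewH), ζ (exists_zeta), A (exists_multLR), Φ_r (chirp_fun), chirp_op: `lam ∘ A.m Φ_r = lam`.
`multA_local` with the family Φ_r: suppose `Φ_r(z, z') = 1` for all r; z = ζ x, z' = ζ x'.  `om((c-1)x, x) = Tr ⟨η (r q^{k-1})(s) u, u⟩` with `u = pr_U x = a(s) e`; `om((c'-1)x', x') = Tr ⟨g⁻¹ η (r q^{k-1})(s) w, g⁻¹ w⟩`, `w = pr_U g x' = b(s) e` (⟨g⁻¹ A w, x'⟩ = ⟨g⁻¹Aw, g⁻¹(g x')⟩ = ⟨s⁻¹Aw, g x'⟩ = ⟨s⁻¹Aw, w⟩).
These `⟨..⟩` are in F (η(r q^{k-1})(s) is skew-adjoint).  Replacing r by t r, t ∈ F, and ψ nontrivial: `⟨η (r q^{k-1})(s) u, u⟩ = ⟨g⁻¹ η (r q^{k-1})(s) w, g⁻¹ w⟩` for all r.  By dp_form, bad_norm: q ∣ a, q ∣ b: u, w ∈ q(s)U, so x ∈ Y^⊥ (qs_orth) and g x' ∈ Y^⊥, x' ∈ Y^⊥: z = z' = 0.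
-/

set_option linter.unusedSectionVars false
set_option linter.style.haveILetI false

namespace Pool.Agent.Work.MP_dd0ddf_al.C2

noncomputable section

universe u

variable {F E : Type u} [NontriviallyNormedField F] [IsUltrametricDist F] [ProperSpace F]
  [CharP F 2] [NontriviallyNormedField E] [NormedAlgebra F E] [ProperSpace E] [StarRing E]
  [QExt F E] [Dl E] [MeasurableSpace E] [BorelSpace E]
variable {V : Type u} [AddCommGroup V] [Module E V] [Module.Finite E V] [TopologicalSpace V]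
  [IsTopologicalAddGroup V] [T2Space V] [ContinuousSMul E V]

theorem dp_norm {B : SkewH E V} {p : PChar F} {W : WeilRep B p} {q : Polynomial F} {k : ℕ}
    {g : GV E V} {e : V} {lam : SF V ℂ →ₗ[ℂ] ℂ} (hk : 2 ≤ k) (h : DpHyp W q k g e lam) :
    ∃ h₀ : UU B, ∀ y ∈ qSub F (sg B g).1 e q (k - 1), g.1 (h₀.1.1 y) = y := by
  haveI : CharP E 2 := char2_of_injective (algebraMap F E).injective
  set Y := qSub F (sg B g).1 e q (k - 1) with hY
  have hst : ∀ y ∈ Y, (sg B g).1 y ∈ Y := fun y hy => dpx_q_stabX (sg B g).1 e q _ hy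
  let φ : Y →ₗ[E] V := g⁻¹.1 ∘ₗ Y.subtype
  have hinj : Function.Injective φ := by
    intro u w huw
    have h1 : g⁻¹.1 (u : V) = g⁻¹.1 (w : V) := huw
    have h2 : g.1 (g⁻¹.1 (u : V)) = g.1 (g⁻¹.1 (w : V)) := by rw [h1]
    rw [dpx_gi, dpx_gi] at h2
    exact Subtype.ext h2
  obtain ⟨h₀, -, hh⟩ := witt_gen B (exists_dd F E) Y φ hinj (fun u w => by
    show B.ip (g⁻¹.1 (u : V)) (g⁻¹.1 (w : V)) = B.ip (u : V) (w : V)
    obtain ⟨z, hz, hzu⟩ := dpx_stab B g Y hst u u.2
    rw [← hzu, dpx_form, hzu]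
    rw [qs_iso B (sg B g) e q k (k - 1) (by omega) h.ann z hz w w.2,
      qs_iso B (sg B g) e q k (k - 1) (by omega) h.ann u u.2 w w.2])
  refine ⟨h₀, fun y hy => ?_⟩
  have h1 : h₀.1.1 y = g⁻¹.1 y := hh ⟨y, hy⟩
  rw [h1]
  exact dpx_gi g y

private theorem dpspec_pr (B : SkewH E V) (U : Submodule E V) (hU : NDeg B U) (v : V) {u : V}
    (hu : u ∈ U) : B.ip u (prO B U hU v) = B.ip u v := by
  rw [B.skew (prO B U hU v) u, ip_prO B U hU v hu, ← B.skew]

variable (F) in
private theorem dpspec_bar (r : Polynomial F) (a : Polynomial E) :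
    (r.map (algebraMap F E) * (a * a.map (starRingEnd E))).map (starRingEnd E) =
      r.map (algebraMap F E) * (a * a.map (starRingEnd E)) := by
  have h2 : (starRingEnd E).comp (starRingEnd E) = RingHom.id E := by
    ext x
    exact star_star x
  have h3 : (starRingEnd E).comp (algebraMap F E) = algebraMap F E := by
    ext x
    exact QExt.star_alg x
  rw [Polynomial.map_mul, Polynomial.map_mul, Polynomial.map_map, Polynomial.map_map, h2, h3,
    Polynomial.map_id, mul_comm a]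

private theorem dpspec_sub (B : SkewH E V) (a b w : V) : B.ip (a - b) w = B.ip a w - B.ip b w :=
  map_sub (B.lin w) a b

theorem dp_spec {B : SkewH E V} {p : PChar F} {W : WeilRep B p} {q : Polynomial F} {k : ℕ}
    {g : GV E V} {e : V} {lam : SF V ℂ →ₗ[ℂ] ℂ} (hk : 2 ≤ k) (h : DpHyp W q k g e lam)
    (D : IsoD B) (hD : D.Y = qSub F (sg B g).1 e q (k - 1)) (hg : ∀ y ∈ D.Y, g.1 y = y) :
    (∀ y ∈ D.Y, ∀ φ, lam (Lop B p y φ) = lam φ) ∧
      ∀ y ∈ D.Y, ∀ φ, lam (Rop B p y φ) = lam φ := by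
  classical
  haveI : CharP E 2 := char2_of_injective (algebraMap F E).injective
  haveI : FiniteDimensional F E := qext_findim F E
  obtain ⟨η, hη0, hη, -, -, hfix⟩ := exists_eta F E
  have hq0 : q ≠ 0 := h.bad.1.ne_zero
  have hst : ∀ y ∈ D.Y, (sg B g).1 y ∈ D.Y := by
    rw [hD]
    exact fun y hy => dpx_q_stabX (sg B g).1 e q _ hy
  choose c hc hcv using fun r : Polynomial F =>
    exists_unip B (sg B g) e q r k hk h.ann h.nd η hη
  have hcc : ∀ r, (c r).1.1 * (sg B g).1 = (sg B g).1 * (c r).1.1 := fun r => (hc r).1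
  let c' : Polynomial F → UU B := fun r => ⟨g⁻¹ * (c r).1 * g, dpx_unit B g (c r) (hcc r)⟩
  have hcY : ∀ r, ∀ v ∈ orth B D.Y, (c r).1.1 v = v := by
    intro r v hv
    rw [hD] at hv
    rw [hcv, dpx_kill B (sg B g) e q k (by omega) h.ann r
      ((dpx_prq B (sg B g) e q k (by omega) hq0 h.ann h.nd v).1 hv), smul_zero, add_zero]
  have hcY' : ∀ r, ∀ v ∈ orth B D.Y, (c' r).1.1 v = v := by
    intro r v hv
    show g⁻¹.1 ((c r).1.1 (g.1 v)) = v
    rw [hcY r _ (dpx_orth B g D.Y hst hg hv), dpx_ig]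
  obtain ⟨BY⟩ := exists_SkewH F (E := E) D.Y
  obtain ⟨ζ, hζs, hζk, hζ⟩ := exists_zeta B D.Y BY
  obtain ⟨A⟩ := exists_multLR D p BY
  choose Φ hΦlc hΦ using fun r => chirp_fun p D ζ hζs hζk (c r) (c' r) (hcY r) (hcY' r)
  have hop : ∀ r, W.l (c r) ∘ₗ W.r (c' r) = A.m (Φ r) := fun r =>
    chirp_op W D BY ζ hζ A (c r) (c' r) (hcY r) (hcY' r) (Φ r) (hΦlc r) (hΦ r)
  have hlam : ∀ r v, lam (A.m (Φ r) v) = lam v := by
    intro r v
    rw [← hop]
    exact h.inv (c r) (hc r) (c' r) rfl v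
  have hz : ∀ z : D.Y × D.Y, z ≠ 0 → ∃ r, Φ r z ≠ 1 := by
    intro z hz0
    by_contra hcon
    push Not at hcon
    apply hz0
    obtain ⟨x, hx⟩ := hζs z.1
    obtain ⟨x', hx'⟩ := hζs z.2
    obtain ⟨a, ha⟩ := (mem_cyc (sg B g).1 e _).1 (prO_mem B _ h.nd x)
    obtain ⟨b, hb⟩ := (mem_cyc (sg B g).1 e _).1 (prO_mem B _ h.nd (g.1 x'))
    obtain ⟨R, hR⟩ : ∃ R : Polynomial F → Polynomial E,
      R = fun r => (r * q ^ (k - 1)).map (algebraMap F E) := ⟨_, rfl⟩
    have hR' : ∀ r, (r * q ^ (k - 1)).map (algebraMap F E) = R r := fun r => by rw [hR]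
    obtain ⟨T1, hT1d⟩ : ∃ T1 : Polynomial F → E, T1 = fun r => B.ip
      (η • Polynomial.aeval (sg B g).1 (R r * (a * a.map (starRingEnd E))) e) e := ⟨_, rfl⟩
    obtain ⟨T2, hT2d⟩ : ∃ T2 : Polynomial F → E, T2 = fun r => B.ip
      (g⁻¹.1 (η • Polynomial.aeval (sg B g).1 (R r * (b * b.map (starRingEnd E))) e))
      (g⁻¹.1 e) := ⟨_, rfl⟩
    have hstst : (starRingEnd E).comp (starRingEnd E) = RingHom.id E := by
      ext x
      exact star_star x
    have hT1 : ∀ r, B.ip ((c r).1.1 x - x) x = T1 r := by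
      intro r
      have e1 : (c r).1.1 x - x = η • Polynomial.aeval (sg B g).1 (R r)
          (Polynomial.aeval (sg B g).1 a e) := by
        rw [hcv, hR', ha, add_sub_cancel_left]
      have e2 : (c r).1.1 x - x ∈ cyc (sg B g).1 e := by
        rw [e1]
        refine Submodule.smul_mem _ _ (dpx_cyc_stab _ _ _ ?_)
        exact (mem_cyc (sg B g).1 e _).2 ⟨a, rfl⟩
      rw [← dpspec_pr B _ h.nd x e2, ha, e1, hT1d]
      show _ = B.ip (η • Polynomial.aeval (sg B g).1 (R r * (a * a.map (starRingEnd E))) e) e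
      rw [B.smul_left, B.smul_left]
      congr 1
      have e3 : R r * (a * a.map (starRingEnd E)) = a.map (starRingEnd E) * (R r * a) := by ring
      rw [e3, dpx_mul _ (a.map (starRingEnd E)), ip_aeval B (sg B g).2 (a.map (starRingEnd E)),
        Polynomial.map_map, hstst, Polynomial.map_id, dpx_mul]
    have hT2 : ∀ r, B.ip ((c' r).1.1 x' - x') x' = T2 r := by
      intro r
      have e1 : (c' r).1.1 x' - x' = g⁻¹.1 (η • Polynomial.aeval (sg B g).1 (R r)
          (Polynomial.aeval (sg B g).1 b e)) := by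
        have e0 : (c' r).1.1 x' = g⁻¹.1 ((c r).1.1 (g.1 x')) := rfl
        rw [e0, hcv, hR', hb, map_add, dpx_ig, add_sub_cancel_left]
      have e2 : η • Polynomial.aeval (sg B g).1 (R r)
          (Polynomial.aeval (sg B g).1 b e) ∈ cyc (sg B g).1 e := by
        refine Submodule.smul_mem _ _ (dpx_cyc_stab _ _ _ ?_)
        exact (mem_cyc (sg B g).1 e _).2 ⟨b, rfl⟩
      obtain ⟨u0, hu0, hu0e⟩ := dpx_stab B g (cyc (sg B g).1 e) (fun y hy => by
        have := dpx_cyc_stab (sg B g).1 e Polynomial.X hy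
        rwa [dpx_X] at this) _ e2
      have e3 : B.ip ((c' r).1.1 x' - x') x' = B.ip ((c' r).1.1 x' - x') (g⁻¹.1 (g.1 x')) := by
        rw [dpx_ig]
      rw [e3, e1, ← hu0e, dpx_form, ← dpspec_pr B _ h.nd (g.1 x') hu0, hb,
        ← dpx_form B g u0, hu0e, hT2d]
      show _ = B.ip
        (g⁻¹.1 (η • Polynomial.aeval (sg B g).1 (R r * (b * b.map (starRingEnd E))) e))
        (g⁻¹.1 e)
      rw [map_smul, map_smul, B.smul_left, B.smul_left]
      congr 1
      have e4 : R r * (b * b.map (starRingEnd E)) = b.map (starRingEnd E) * (R r * b) := by ring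
      rw [e4, dpx_mul _ (b.map (starRingEnd E)), dpx_formf B g (b.map (starRingEnd E)),
        Polynomial.map_map, hstst, Polynomial.map_id, dpx_mul]
    have hbar : ∀ (r : Polynomial F) (d : Polynomial E),
        (R r * (d * d.map (starRingEnd E))).map (starRingEnd E) =
          R r * (d * d.map (starRingEnd E)) := by
      intro r d
      rw [← hR']
      exact dpspec_bar F (r * q ^ (k - 1)) d
    have hT1s : ∀ r, star (T1 r) = T1 r := by
      intro r
      rw [hT1d]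
      show star (B.ip (η • Polynomial.aeval (sg B g).1 (R r * (a * a.map (starRingEnd E))) e) e)
        = B.ip (η • Polynomial.aeval (sg B g).1 (R r * (a * a.map (starRingEnd E))) e) e
      have e1 := B.skew (η • Polynomial.aeval (sg B g).1
        (R r * (a * a.map (starRingEnd E))) e) e
      rw [B.smul_right, hη] at e1
      have e2 := ip_aeval B (sg B g).2 (R r * (a * a.map (starRingEnd E))) e e
      rw [hbar] at e2
      rw [B.smul_left] at e1 ⊢
      rw [e2] at e1 ⊢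
      linear_combination e1
    have hT2s : ∀ r, star (T2 r) = T2 r := by
      intro r
      rw [hT2d]
      show star (B.ip (g⁻¹.1 (η • Polynomial.aeval (sg B g).1
          (R r * (b * b.map (starRingEnd E))) e)) (g⁻¹.1 e))
        = B.ip (g⁻¹.1 (η • Polynomial.aeval (sg B g).1
          (R r * (b * b.map (starRingEnd E))) e)) (g⁻¹.1 e)
      have e1 := B.skew (g⁻¹.1 (η • Polynomial.aeval (sg B g).1
        (R r * (b * b.map (starRingEnd E))) e)) (g⁻¹.1 e)
      have e2 := dpx_formf B g (R r * (b * b.map (starRingEnd E))) e e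
      rw [hbar] at e2
      rw [map_smul g⁻¹.1, B.smul_right, hη] at e1
      rw [map_smul g⁻¹.1]
      rw [B.smul_left] at e1 ⊢
      rw [e2] at e1 ⊢
      linear_combination e1
    have hscal : ∀ (τ : F) (r : Polynomial F), R (Polynomial.C τ * r) =
        Polynomial.C (algebraMap F E τ) * R r := by
      intro τ r
      rw [← hR', ← hR', mul_assoc, Polynomial.map_mul, Polynomial.map_C]
    have hT1c : ∀ (τ : F) (r : Polynomial F), T1 (Polynomial.C τ * r) =
        algebraMap F E τ * T1 r := by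
      intro τ r
      rw [hT1d]
      show B.ip (η • Polynomial.aeval (sg B g).1 (R (Polynomial.C τ * r) *
        (a * a.map (starRingEnd E))) e) e = algebraMap F E τ * B.ip (η •
          Polynomial.aeval (sg B g).1 (R r * (a * a.map (starRingEnd E))) e) e
      rw [hscal, mul_assoc, ← Polynomial.smul_eq_C_mul, map_smul, LinearMap.smul_apply,
        smul_comm, B.smul_left]
    have hT2c : ∀ (τ : F) (r : Polynomial F), T2 (Polynomial.C τ * r) =
        algebraMap F E τ * T2 r := by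
      intro τ r
      rw [hT2d]
      show B.ip (g⁻¹.1 (η • Polynomial.aeval (sg B g).1 (R (Polynomial.C τ * r) *
        (b * b.map (starRingEnd E))) e)) (g⁻¹.1 e) = algebraMap F E τ * B.ip (g⁻¹.1 (η •
          Polynomial.aeval (sg B g).1 (R r * (b * b.map (starRingEnd E))) e)) (g⁻¹.1 e)
      rw [hscal, mul_assoc, ← Polynomial.smul_eq_C_mul, map_smul (Polynomial.aeval (sg B g).1),
        LinearMap.smul_apply, smul_comm, map_smul g⁻¹.1 (algebraMap F E τ), B.smul_left]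
    have hψ : ∀ r, p.ψ (Algebra.trace F E (Dl.d * T1 r) -
        Algebra.trace F E (Dl.d * T2 r)) = 1 := by
      intro r
      have e1 := hΦ r x x'
      have e2 : ((ζ x, ζ x') : D.Y × D.Y) = z := by rw [hx, hx']
      rw [e2, hcon r] at e1
      unfold bt at e1
      rw [hT1, hT2] at e1
      exact e1.symm
    have hT : ∀ r, T1 r = T2 r := by
      intro r
      obtain ⟨f, hf⟩ := hfix (T1 r - T2 r) (by rw [star_sub, hT1s, hT2s])
      have e1 : ∀ τ : F, p.ψ (τ * f) = 1 := by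
        intro τ
        have e2 := hψ (Polynomial.C τ * r)
        rw [← map_sub, ← mul_sub, hT1c, hT2c, ← mul_sub, hf, ← map_mul,
          trace_mul_alg F E Dl.add_star] at e2
        exact e2
      by_contra hne
      have hf0 : f ≠ 0 := by
        intro h0
        rw [h0, map_zero, sub_eq_zero] at hf
        exact hne hf
      obtain ⟨y, hy⟩ := p.nontriv
      apply hy
      have e3 := e1 (y * f⁻¹)
      rwa [inv_mul_cancel_right₀ hf0] at e3
    have hdiv := dp_form B g e q k (by omega) h.ann h.nd η hη hη0 a b (by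
      intro r
      rw [hR']
      have e1 := hT r
      rw [hT1d, hT2d] at e1
      exact e1)
    obtain ⟨ha', hb'⟩ := bad_norm q h.bad a b hdiv
    have hxo : x ∈ orth B D.Y := by
      rw [hD, dpx_prq B (sg B g) e q k (by omega) hq0 h.ann h.nd x, ha]
      obtain ⟨a1, rfl⟩ := ha'
      exact (dpx_mem_q _ e q 1 _).2 ⟨a1, by rw [pow_one]⟩
    have hgxo : g.1 x' ∈ orth B D.Y := by
      rw [hD, dpx_prq B (sg B g) e q k (by omega) hq0 h.ann h.nd (g.1 x'), hb]
      obtain ⟨b1, rfl⟩ := hb'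
      exact (dpx_mem_q _ e q 1 _).2 ⟨b1, by rw [pow_one]⟩
    have hxo' : x' ∈ orth B D.Y := by
      have e1 := dpx_orth_inv B g D.Y hst hg hgxo
      rwa [dpx_ig] at e1
    have e1 : ζ x = 0 := (hζk x).2 hxo
    have e2 : ζ x' = 0 := (hζk x').2 hxo'
    rw [hx] at e1
    rw [hx'] at e2
    exact Prod.ext e1 e2
  have hU : UnionCompact (D.Y × D.Y) := uc_V F E (D.Y × D.Y)
  haveI := lc_V E D.Y
  haveI := td_V F E D.Y
  have hpi0 : lrOp F D p 0 = LinearMap.id := by
    have h3 : Rop B p (((0 : D.Y) : D.Y) : V) = LinearMap.id := rop_zero B p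
    have h4 : Lop B p (((0 : D.Y) : D.Y) : V) = LinearMap.id := lop_zero B p
    show Lop B p (((0 : D.Y) : D.Y) : V) ∘ₗ Rop B p (((0 : D.Y) : D.Y) : V) = LinearMap.id
    rw [h3, h4, LinearMap.id_comp]
  have key := fun a v => multA_local hU A hpi0 lam Φ hΦlc hlam hz a v
  constructor
  · intro y hy φ
    have h1 := key (⟨y, hy⟩, 0) φ
    have h2 : lrOp F D p (⟨y, hy⟩, 0) φ = Lop B p y φ := by
      show Lop B p y (Rop B p (((0 : D.Y) : D.Y) : V) φ) = Lop B p y φ
      have h3 : Rop B p (((0 : D.Y) : D.Y) : V) φ = φ := by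
        have h4 := rop_zero B p
        exact congrArg (fun T : SF V ℂ →ₗ[ℂ] SF V ℂ => T φ) h4
      rw [h3]
    rw [h2] at h1
    exact h1
  · intro y hy φ
    have h1 := key (0, ⟨y, hy⟩) φ
    have h2 : lrOp F D p (0, ⟨y, hy⟩) φ = Rop B p y φ := by
      show Lop B p (((0 : D.Y) : D.Y) : V) (Rop B p y φ) = Rop B p y φ
      have h4 := lop_zero B p
      exact congrArg (fun T : SF V ℂ →ₗ[ℂ] SF V ℂ => T (Rop B p y φ)) h4
    rw [h2] at h1
    exact h1

end

end Pool.Agent.Work.MP_dd0ddf_al.C2
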