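import Pool.Agent.Work.MP_dd0ddf_al.C2.DpStep
import Pool.Agent.Work.MP_dd0ddf_al.C2.DpOneC

/-!
# MP_dd0ddf_al, module DprimeMain: vanishing for odd bad blocks (D) (blueprint section 4)

Induction on the odd number k: `dp_one`, `dp_step` give `DpGood F E q k` for all odd k; translate the hypotheses: `U = cyc s e` definitionally, `hlam` implies `DpHyp.inv`: an element c of `CU B s U` is of the form f(s) on U = cyc s e (c e = f(s) e, c commutes with s).
-/

set_option linter.unusedSectionVars false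
set_option linter.style.haveILetI false

namespace Pool.Agent.Work.MP_dd0ddf_al.C2

noncomputable section

universe u

variable {F E : Type u} [NontriviallyNormedField F] [IsUltrametricDist F] [ProperSpace F]
  [CharP F 2] [NontriviallyNormedField E] [NormedAlgebra F E] [ProperSpace E] [StarRing E]
  [QExt F E] [Dl E] [MeasurableSpace E] [BorelSpace E]
variable {V : Type u} [AddCommGroup V] [Module E V] [Module.Finite E V] [TopologicalSpace V]
  [IsTopologicalAddGroup V] [T2Space V] [ContinuousSMul E V]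

/-- (D) for all odd `k` -/
theorem dp_all (q : Polynomial F) (k : ℕ) (hk : Odd k) : DpGood F E q k := by
  induction k using Nat.strong_induction_on with
  | _ k ih =>
    by_cases h1 : k = 1
    · subst h1
      exact dp_one q
    · have h2 : Odd (k - 2) := by
        obtain ⟨m, hm⟩ := hk
        exact ⟨m - 1, by omega⟩
      have h3 : 3 ≤ k := by
        obtain ⟨m, hm⟩ := hk
        omega
      exact dp_step q k h3 (ih (k - 2) (by omega) h2)

/-- an isometry equal to `1` on `U^⊥` preserves `U` -/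
private theorem dprimemain_mem (B : SkewH E V) (U : Submodule E V) (hnd : NDeg B U) (c : UU B)
    (hc : ∀ v ∈ orth B U, c.1.1 v = v) (e : V) (he : e ∈ U) : c.1.1 e ∈ U := by
  have h0 : c.1.1 e - prO B U hnd (c.1.1 e) = 0 := by
    apply ndeg_orth B U hnd _ (sub_prO_mem B U hnd _)
    intro w hw
    have h1 : B.ip (c.1.1 e) w = 0 := by
      have h2 : B.ip (c.1.1 e) (c.1.1 w) = B.ip e w := c.2 e w
      rw [hc w hw] at h2
      rw [h2, B.skew w e, hw e he, star_zero, neg_zero]
    have h3 : B.ip (prO B U hnd (c.1.1 e)) w = 0 := by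
      rw [B.skew w _, hw _ (prO_mem B U hnd _), star_zero, neg_zero]
    have h4 : B.ip (c.1.1 e - prO B U hnd (c.1.1 e)) w +
        B.ip (prO B U hnd (c.1.1 e)) w = B.ip (c.1.1 e) w := by
      rw [← B.add_left, sub_add_cancel]
    rw [h1, h3, add_zero] at h4
    exact h4
  have h1 : c.1.1 e = prO B U hnd (c.1.1 e) := sub_eq_zero.1 h0
  rw [h1]
  exact prO_mem B U hnd _

open Polynomial in
/-- **vanishing for odd bad blocks** -/
theorem dprime {B : SkewH E V} {p : PChar F} (W : WeilRep B p) (g : GV E V) (e : V)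
    (q : F[X]) (k : ℕ) (hk : Odd k) (hq : Bad F E q)
    (hann : ∀ f : E[X], aeval (g.1 * adj B g.1) f e = 0 ↔ (q.map (algebraMap F E)) ^ k ∣ f)
    (U : Submodule E V)
    (hU : U = Submodule.span E (Set.range fun i : ℕ => ((g.1 * adj B g.1) ^ i) e))
    (hnd : ∀ u ∈ U, (∀ w ∈ U, B.ip u w = 0) → u = 0)
    (lam : SF V ℂ →ₗ[ℂ] ℂ)
    (hlam : ∀ (c c' : UU B) (f : E[X]), (∀ v ∈ U, c.1.1 v = aeval (g.1 * adj B g.1) f v) →
      (∀ v ∈ orth B U, c.1.1 v = v) → c'.1 = g⁻¹ * c.1 * g →
      ∀ φ : SF V ℂ, lam (W.l c (W.r c' φ)) = lam φ) : lam = 0 := by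
  have hUc : U = cyc (sg B g).1 e := hU
  have hnd' : NDeg B (cyc (sg B g).1 e) := by
    rw [← hUc]
    exact hnd
  refine dp_all q k hk V B p W g e lam ⟨hq, hann, hnd', ?_⟩
  intro c hc c' hc' φ
  have hs : c.1.1 * (sg B g).1 = (sg B g).1 * c.1.1 := hc.1
  have he : e ∈ cyc (sg B g).1 e := (mem_cyc _ e e).2 ⟨1, by rw [map_one]; rfl⟩
  obtain ⟨f, hf⟩ := (mem_cyc _ e _).1
    (dprimemain_mem B (cyc (sg B g).1 e) hnd' c hc.2 e he)
  refine hlam c c' f ?_ ?_ hc' φ
  · intro v hv
    rw [hUc] at hv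
    obtain ⟨h, rfl⟩ := (mem_cyc _ e v).1 hv
    have h1 : c.1.1 * Polynomial.aeval (sg B g).1 h = Polynomial.aeval (sg B g).1 h * c.1.1 := by
      have h2 : Commute c.1.1 (sg B g).1 := hs
      induction h using Polynomial.induction_on' with
      | add a b ha hb =>
        rw [map_add, mul_add, add_mul]
        have hva := ha ((hUc.symm ▸ (mem_cyc _ e _).2 ⟨a, rfl⟩ :
          Polynomial.aeval (sg B g).1 a e ∈ cyc (sg B g).1 e))
        have hvb := hb ((hUc.symm ▸ (mem_cyc _ e _).2 ⟨b, rfl⟩ :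
          Polynomial.aeval (sg B g).1 b e ∈ cyc (sg B g).1 e))
        rw [hva, hvb]
      | monomial n a =>
        rw [Polynomial.aeval_monomial, ← mul_assoc, ← Algebra.commutes, mul_assoc,
          (h2.pow_right n).eq, mul_assoc]
    calc c.1.1 (Polynomial.aeval (sg B g).1 h e)
        = (c.1.1 * Polynomial.aeval (sg B g).1 h) e := rfl
      _ = (Polynomial.aeval (sg B g).1 h * c.1.1) e := by rw [h1]
      _ = Polynomial.aeval (sg B g).1 h (c.1.1 e) := rfl
      _ = Polynomial.aeval (sg B g).1 h (Polynomial.aeval (sg B g).1 f e) := by rw [hf]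
      _ = Polynomial.aeval (sg B g).1 (h * f) e := by rw [map_mul]; rfl
      _ = Polynomial.aeval (sg B g).1 (f * h) e := by rw [mul_comm]
      _ = Polynomial.aeval (sg B g).1 f (Polynomial.aeval (sg B g).1 h e) := by
        rw [map_mul]; rfl
  · intro v hv
    rw [hUc] at hv
    exact hc.2 v hv

end

end Pool.Agent.Work.MP_dd0ddf_al.C2
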