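import Pool.Agent.Work.MP_dd0ddf_al.C2.SFormDefs
import Pool.Agent.Work.MP_dd0ddf_al.C2.FourInv

/-!
# MP_dd0ddf_al, module GaussDefs: regularised Gauss integrals

`gfun β p L y` is the function `v ↦ ψ(q(v)) ψ(b(v,y))` on the compact open subgroup `L`, `0` outside.
`exists_kap`: there is `κ` such that for every compact `K` there is a compact open subgroup `L0` with
`∫_L ψ(q(v) + b(v,y)) dv = κ ψ(-q(y))` for all compact open subgroups `L ⊇ L0` and `y ∈ K`.
Proof.  Let `N` be a compact open subgroup with `ψ(½ b(x,x)) = 1` for `x ∈ N` (continuity), `L0 ⊇ N ∪ N^⊥` a compact open subgroup, where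
`N^⊥ = {v : ψ(b(v,x)) = 1, x ∈ N}` (compact by `perp'`; `uc_U`).  For `L ⊇ L0`: `∫_L ψ(q(v)) dv = ∫_{L0}`: on a coset
`v + N ⊆ L \ L0`: `ψ(½ b(v+x,v+x)) = ψ(q(v)) ψ(b(v,x))`, and `x ↦ ψ(b(v,x))` is a nontrivial character of `N`, so the integral over the coset is 0.
Let `κ` be this common value.  For `y ∈ L`: substitute `v → v - y` (translation invariance): `½ b(v-y,v-y) + b(v-y,y) = q(v) - q(y)`.
For general compact `K` enlarge `L0` so that `K ⊆ L0`.
-/

set_option linter.unusedSectionVars false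
set_option linter.style.haveILetI false

namespace Pool.Agent.Work.MP_dd0ddf_al.C2

noncomputable section

universe u

variable {F : Type u} [NontriviallyNormedField F] [IsUltrametricDist F] [ProperSpace F]
  [CharP F 2]
variable {U : Type u} [AddCommGroup U] [Module F U] [Module.Finite F U] [TopologicalSpace U]
  [IsTopologicalAddGroup U] [T2Space U] [ContinuousSMul F U] [LocallyCompactSpace U]
  [TotallyDisconnectedSpace U]
variable {U' : Type u} [AddCommGroup U'] [Module F U'] [Module.Finite F U'] [TopologicalSpace U']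
  [IsTopologicalAddGroup U'] [T2Space U'] [ContinuousSMul F U'] [LocallyCompactSpace U']
  [TotallyDisconnectedSpace U']

/-- `v ↦ ψ(q(v)) ψ(b(v,y))` on `L`, zero outside -/
def gfun (β : QForm F U) (p : PChar F) (L : AddSubgroup U) (hL : IsOpen (L : Set U))
    (hL' : IsCompact (L : Set U)) (y : U) : SF U ℂ :=
  SF.mulc (fun v => p.ψ (β.q v)) (β.lcq p)
    (SF.mulc (fun v => (β.bi p).χ v y) ((β.bi p).lcl y) (SF.single (L : Set U) hL' hL (1 : ℂ)))

theorem gaussdefs_psi_zero {F : Type*} [AddCommGroup F] [TopologicalSpace F] (p : PChar F) :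
    p.ψ 0 = 1 := by
  have h1 := p.add 0 0
  rw [add_zero] at h1
  have h2 : p.ψ 0 ≠ 0 := by
    intro h0
    have := p.norm_one 0
    rw [h0, norm_zero] at this
    exact zero_ne_one this
  exact (mul_right_cancel₀ h2 (by rw [one_mul]; exact h1.symm)).trans rfl

/-- one step: division by `θ - 1` -/
private theorem gaussdefs_step (g : SF U ℂ) (θ : U → ℂ) (hθ : IsLocallyConstant θ) (x : U)
    (h1 : ∀ v, θ (v + x) = θ v) (h2 : ∀ v, g (v + x) = θ v * g v)
    (h3 : ∀ v, g v ≠ 0 → θ v ≠ 1) : hI g = 0 := by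
  set g' : SF U ℂ := SF.mulc (fun v => (θ v - 1)⁻¹) (hθ.comp (fun z => (z - 1)⁻¹)) g with hg'
  have h4 : g = SF.comp (Homeomorph.addRight x) g' - g' := by
    apply SF.ext
    intro v
    have e1 : (SF.comp (Homeomorph.addRight x) g' - g' : SF U ℂ) v = g' (v + x) - g' v := rfl
    rw [e1, hg']
    simp only [SF.mulc_apply, smul_eq_mul]
    rw [h1, h2]
    by_cases hg : g v = 0
    · rw [hg]; ring
    · have h5 : θ v - 1 ≠ 0 := sub_ne_zero.2 (h3 v hg)
      field_simp
  rw [h4, map_sub, hI_trans, sub_self]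

/-- functions twisted by characters which are nontrivial on `N` on the support -/
private theorem gaussdefs_vanish (χ : BiChar U) (N : AddSubgroup U)
    (hN : ∀ x ∈ N, ∀ y ∈ N, χ.χ x y = 1) (xs : Finset U) :
    (∀ x ∈ xs, x ∈ N) → ∀ f : SF U ℂ, (∀ v, ∀ x ∈ N, f (v + x) = χ.χ v x * f v) →
      (∀ v, f v ≠ 0 → ∃ x ∈ xs, χ.χ v x ≠ 1) → hI f = 0 := by
  classical
  induction xs using Finset.induction_on with
  | empty =>
    intro _ f _ h3
    have h4 : f = 0 := by
      apply SF.ext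
      intro v
      by_contra hv
      obtain ⟨x, hx, _⟩ := h3 v hv
      exact absurd hx (Finset.notMem_empty x)
    rw [h4, map_zero]
  | insert x xs hx ih =>
    intro hxs f h2 h3
    have hxN : x ∈ N := hxs x (Finset.mem_insert_self x xs)
    set i1 : U → ℂ := fun v => if χ.χ v x = 1 then 1 else 0 with hi1
    set i2 : U → ℂ := fun v => if χ.χ v x = 1 then 0 else 1 with hi2
    have hl1 : IsLocallyConstant i1 := (χ.lcl x).comp (fun z => if z = 1 then (1 : ℂ) else 0)
    have hl2 : IsLocallyConstant i2 := (χ.lcl x).comp (fun z => if z = 1 then (0 : ℂ) else 1)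
    have hsum : f = SF.mulc i1 hl1 f + SF.mulc i2 hl2 f := by
      apply SF.ext
      intro v
      have e1 : (SF.mulc i1 hl1 f + SF.mulc i2 hl2 f : SF U ℂ) v =
          SF.mulc i1 hl1 f v + SF.mulc i2 hl2 f v := rfl
      rw [e1, SF.mulc_apply, SF.mulc_apply, hi1, hi2]
      simp only [smul_eq_mul]
      split_ifs <;> ring
    have hinv : ∀ v, ∀ y ∈ N, χ.χ (v + y) x = χ.χ v x := by
      intro v y hy
      rw [χ.addl, hN y hy x hxN, mul_one]
    have hA : hI (SF.mulc i1 hl1 f) = 0 := by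
      apply ih (fun y hy => hxs y (Finset.mem_insert_of_mem hy))
      · intro v y hy
        rw [SF.mulc_apply, SF.mulc_apply, h2 v y hy, hi1]
        simp only [smul_eq_mul, hinv v y hy]
        ring
      · intro v hv
        rw [SF.mulc_apply, hi1] at hv
        simp only [smul_eq_mul] at hv
        have hv1 : χ.χ v x = 1 := by
          by_contra h
          rw [if_neg h, zero_mul] at hv
          exact hv rfl
        have hv2 : f v ≠ 0 := by
          intro h
          rw [h, mul_zero] at hv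
          exact hv rfl
        obtain ⟨y, hy, hyv⟩ := h3 v hv2
        rcases Finset.mem_insert.1 hy with h | h
        · exact absurd (h ▸ hv1) hyv
        · exact ⟨y, h, hyv⟩
    have hB : hI (SF.mulc i2 hl2 f) = 0 := by
      apply gaussdefs_step _ (fun v => χ.χ v x) (χ.lcl x) x
      · intro v
        exact hinv v x hxN
      · intro v
        rw [SF.mulc_apply, SF.mulc_apply, h2 v x hxN, hi2]
        simp only [smul_eq_mul, hinv v x hxN]
        ring
      · intro v hv h
        rw [SF.mulc_apply, hi2] at hv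
        simp only [smul_eq_mul] at hv
        rw [if_pos h, zero_mul] at hv
        exact hv rfl
    rw [hsum, map_add, hA, hB, add_zero]

theorem gaussdefs_vanish' (χ : BiChar U) (N : AddSubgroup U)
    (hN : ∀ x ∈ N, ∀ y ∈ N, χ.χ x y = 1) (f : SF U ℂ)
    (h2 : ∀ v, ∀ x ∈ N, f (v + x) = χ.χ v x * f v)
    (h3 : ∀ v, f v ≠ 0 → ∃ x ∈ N, χ.χ v x ≠ 1) : hI f = 0 := by
  classical
  have hcl : IsClosed {v | f v ≠ 0} := by
    rw [← isOpen_compl_iff]
    have : {v | f v ≠ 0}ᶜ = f.1 ⁻¹' {0} := by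
      ext v
      simp
    rw [this]
    exact f.2.1 {0}
  have hcomp : IsCompact {v | f v ≠ 0} := f.2.2.of_isClosed_subset hcl (subset_tsupport _)
  obtain ⟨t, ht⟩ := hcomp.elim_finite_subcover (fun x : N => {v | χ.χ v x ≠ 1})
    (fun x => by
      have : {v | χ.χ v (x : U) ≠ 1} = (fun v => χ.χ v (x : U)) ⁻¹' {1}ᶜ := rfl
      rw [this]
      exact χ.lcl (x : U) _) (by
      intro v hv
      obtain ⟨x, hx, hxv⟩ := h3 v hv
      exact Set.mem_iUnion.2 ⟨⟨x, hx⟩, hxv⟩)
  refine gaussdefs_vanish χ N hN (Finset.image (fun x : N => (x : U)) t) ?_ f h2 ?_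
  · intro x hx
    obtain ⟨y, _, rfl⟩ := Finset.mem_image.1 hx
    exact y.2
  · intro v hv
    obtain ⟨x, hx⟩ := Set.mem_iUnion.1 (ht hv)
    obtain ⟨hxt, hxv⟩ := Set.mem_iUnion.1 hx
    exact ⟨x, Finset.mem_image.2 ⟨x, hxt, rfl⟩, hxv⟩

theorem gaussdefs_add_self (β : QForm F U) (p : PChar F) (v x : U) :
    p.ψ (β.q (v + x)) =
      p.ψ (β.q v) * p.ψ (β.q x) * p.ψ (β.b v x) := by
  rw [← p.add, ← p.add, β.q_add]

theorem gaussdefs_apply (β : QForm F U) (p : PChar F) (L : AddSubgroup U) (hL : IsOpen (L : Set U))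
    (hL' : IsCompact (L : Set U)) (y v : U) :
    gfun β p L hL hL' y v = p.ψ (β.q v) * (p.ψ (β.b v y) *
      SF.single (L : Set U) hL' hL (1 : ℂ) v) := by
  unfold gfun
  rw [SF.mulc_apply, SF.mulc_apply]
  rfl

private theorem gaussdefs_single_add (L : AddSubgroup U) (hL : IsOpen (L : Set U))
    (hL' : IsCompact (L : Set U)) (v x : U) (hx : x ∈ L) :
    SF.single (L : Set U) hL' hL (1 : ℂ) (v + x) = SF.single (L : Set U) hL' hL (1 : ℂ) v := by
  by_cases hv : v ∈ L
  · rw [SF.single_apply_mem _ _ _ _ _ (L.add_mem hv hx), SF.single_apply_mem _ _ _ _ _ hv]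
  · rw [SF.single_apply_not_mem _ _ _ _ _ hv, SF.single_apply_not_mem]
    intro h
    exact hv ((L.add_mem_cancel_right hx).1 h)

theorem exists_kap (β : QForm F U) (p : PChar F) : ∃ κ : ℂ, ∀ K : Set U, IsCompact K →
    ∃ L0 : AddSubgroup U, IsOpen (L0 : Set U) ∧ IsCompact (L0 : Set U) ∧
      ∀ (L : AddSubgroup U) (hL : IsOpen (L : Set U)) (hL' : IsCompact (L : Set U)), L0 ≤ L →
        ∀ y ∈ K, hI (gfun β p L hL hL' y) = κ * p.ψ (-(β.q y)) := by
  -- the subgroup `N`
  have hWo : IsOpen {x : U | p.ψ (β.q x) = 1} := (β.lcq p).isOpen_fiber 1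
  have hW0 : (0 : U) ∈ {x : U | p.ψ (β.q x) = 1} := by
    show p.ψ (β.q 0) = 1
    rw [β.q_zero, gaussdefs_psi_zero p]
  obtain ⟨N, hNo, hNc, hNW⟩ := exists_co_addSubgroup _ hWo hW0
  have hNW' : ∀ x ∈ N, p.ψ (β.q x) = 1 := fun x hx => hNW hx
  have hNN : ∀ x ∈ N, ∀ y ∈ N, (β.bi p).χ x y = 1 := by
    intro x hx y hy
    have h1 := gaussdefs_add_self β p x y
    rw [hNW' _ (N.add_mem hx hy), hNW' x hx, hNW' y hy, one_mul, one_mul] at h1
    exact h1.symm
  have hperp := (β.bi p).perp' N hNo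
  obtain ⟨L1, hL1o, hL1c, hL1s⟩ := uc_U F U _ (hNc.union hperp)
  have hNL1 : N ≤ L1 := fun x hx => hL1s (Or.inl hx)
  refine ⟨hI (gfun β p L1 hL1o hL1c 0), fun K hK => ?_⟩
  obtain ⟨L0, hL0o, hL0c, hL0s⟩ := uc_U F U _ (hL1c.union hK)
  refine ⟨L0, hL0o, hL0c, fun L hL hL' hLL y hy => ?_⟩
  have hyL : y ∈ L := hLL (hL0s (Or.inr hy))
  have hL1L : L1 ≤ L := fun x hx => hLL (hL0s (Or.inl hx))
  have hb0 : ∀ v, β.b v 0 = 0 := by
    intro v
    have := β.smul_right 0 v 0
    rwa [zero_smul, zero_mul] at this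
  -- translation
  have hT : hI (gfun β p L hL hL' 0) = p.ψ (β.q y) * hI (gfun β p L hL hL' y) := by
    rw [← hI_trans y (gfun β p L hL hL' 0)]
    have h1 : SF.comp (Homeomorph.addRight y) (gfun β p L hL hL' 0) =
        p.ψ (β.q y) • gfun β p L hL hL' y := by
      apply SF.ext
      intro v
      have e1 : SF.comp (Homeomorph.addRight y) (gfun β p L hL hL' 0) v =
          gfun β p L hL hL' 0 (v + y) := rfl
      have e2 : (p.ψ (β.q y) • gfun β p L hL hL' y : SF U ℂ) v =
          p.ψ (β.q y) * gfun β p L hL hL' y v := rfl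
      rw [e1, e2, gaussdefs_apply, gaussdefs_apply, gaussdefs_add_self, hb0, gaussdefs_psi_zero p, one_mul,
        gaussdefs_single_add L hL hL' v y hyL]
      ring
    rw [h1, map_smul, smul_eq_mul]
  -- independence of `L`
  have hI' : hI (gfun β p L hL hL' 0) = hI (gfun β p L1 hL1o hL1c 0) := by
    rw [← sub_eq_zero, ← map_sub]
    have hsub : ∀ v, (gfun β p L hL hL' 0 - gfun β p L1 hL1o hL1c 0 : SF U ℂ) v =
        p.ψ (β.q v) * (SF.single (L : Set U) hL' hL (1 : ℂ) v -
          SF.single (L1 : Set U) hL1c hL1o (1 : ℂ) v) := by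
      intro v
      have e1 : (gfun β p L hL hL' 0 - gfun β p L1 hL1o hL1c 0 : SF U ℂ) v =
          gfun β p L hL hL' 0 v - gfun β p L1 hL1o hL1c 0 v := rfl
      rw [e1, gaussdefs_apply, gaussdefs_apply, hb0, gaussdefs_psi_zero p]
      ring
    refine gaussdefs_vanish' (β.bi p) N hNN _ ?_ ?_
    · intro v x hx
      rw [hsub, hsub, gaussdefs_add_self, hNW' x hx, β.bi_apply,
        gaussdefs_single_add L hL hL' v x (hL1L (hNL1 hx)),
        gaussdefs_single_add L1 hL1o hL1c v x (hNL1 hx)]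
      ring
    · intro v hv
      by_contra hcon
      push Not at hcon
      have hvL1 : v ∈ L1 := hL1s (Or.inr hcon)
      rw [hsub, SF.single_apply_mem _ _ _ _ _ hvL1, SF.single_apply_mem _ _ _ _ _ (hL1L hvL1),
        sub_self, mul_zero] at hv
      exact hv rfl
  rw [← hI', hT, mul_comm (p.ψ _) (hI _), mul_assoc, ← p.add, add_neg_cancel, gaussdefs_psi_zero p,
    mul_one]

/-- the regularised Gauss integral `∫_U ψ(q(v)) dv` -/
def kap (β : QForm F U) (p : PChar F) : ℂ := (exists_kap β p).choose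

theorem kap_spec (β : QForm F U) (p : PChar F) (K : Set U) (hK : IsCompact K) :
    ∃ L0 : AddSubgroup U, IsOpen (L0 : Set U) ∧ IsCompact (L0 : Set U) ∧
      ∀ (L : AddSubgroup U) (hL : IsOpen (L : Set U)) (hL' : IsCompact (L : Set U)), L0 ≤ L →
        ∀ y ∈ K, hI (gfun β p L hL hL' y) = kap β p * p.ψ (-(β.q y)) :=
  (exists_kap β p).choose_spec K hK

end

end Pool.Agent.Work.MP_dd0ddf_al.C2
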