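import Pool.Agent.Work.MP_dd0ddf_al.C2.FourInv
import Pool.Agent.Work.MP_dd0ddf_al.C2.GaussDefs

/-!
# MP_dd0ddf_al (characteristic 2), module Dual: self-duality of the local field F

For `p, p1 : PChar F` there is `a ≠ 0` with `p.ψ x = p1.ψ (a x)` for all x.

PROOF.  χ := the bicharacter `χ.χ x y = p1.ψ (x * y)` of F: it is `SForm.bi` of the form `b(x, y) = x y` on `U = F` (nondegenerate), see GaussDefs (`SForm`, `SForm.bi`, `SForm.bi_apply`); F is locally compact
(ProperSpace) and totally disconnected (IsUltrametricDist; the library has td_U or the Mathlib instance).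
(1) For every compact open subgroup `N` of F there is `a` with `p.ψ x = p1.ψ (a * x)` for all `x ∈ N`: let `f := SF.mulc p.ψ p.lc (SF.single N 1)`, a nonzero element of `SF F ℂ`.  By Fourier inversion
(`four_inv'` with χ.dual / `four_inv`), the Fourier transform of f is not identically 0, so there is `a` with `hI (x ↦ p1.ψ (-(a x)) p.ψ x 1_N(x)) ≠ 0`.  The function `θ(x) = p.ψ x * p1.ψ (-(a x))` is a homomorphism
N → ℂˣ; if `θ(x0) ≠ 1` for some x0 ∈ N then translation by x0 (hI_trans) gives `(1 - θ(x0)) hI(...) = 0`, a contradiction (this argument is `wfg_char` in module WfG).  So θ = 1 on N.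
(2) Take `N_k` = closed ball of radius ‖π‖^(-k) (an open compact subgroup; or any increasing sequence of compact open subgroups with union F).  `A_k := {a | ∀ x ∈ N_k, p.ψ x = p1.ψ (a * x)}` is nonempty by (1), closed (ψ continuous),
decreasing, and `A_0` is compact: it is contained in a translate of `{y | ∀ x ∈ N_0, p1.ψ (y x) = 1}`, which is compact by `BiChar.perp`.  So `⋂ A_k` contains some `a` (IsCompact.nonempty_iInter_of_directed_nonempty_isCompact_isClosed
or nonempty_iInter_of_sequence_nonempty_isCompact_isClosed).  `a ≠ 0` since p is nontrivial.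
-/

set_option linter.unusedSectionVars false
set_option linter.style.haveILetI false

namespace Pool.Agent.Work.MP_dd0ddf_al.C2

noncomputable section

universe u

private def dual_form (F : Type u) [Field F] : SForm F F where
  b u v := u * v
  add_left u v w := by rw [add_mul]
  smul_left a v w := by rw [smul_eq_mul, mul_assoc]
  symm v w := mul_comm v w
  nondeg v h := by
    have h1 := h 1
    rwa [mul_one] at h1

private theorem dual_psi_zero {F : Type*} [AddCommGroup F] [TopologicalSpace F] (p : PChar F) :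
    p.ψ 0 = 1 := gaussdefs_psi_zero p

/-- a character of an additive subgroup as a monoid homomorphism -/
private def dual_hom {F : Type*} [AddCommGroup F] (N : AddSubgroup F) (θ : F → ℂ) (h0 : θ 0 = 1)
    (ha : ∀ x y, θ (x + y) = θ x * θ y) : Multiplicative N →* ℂ where
  toFun x := θ ((Multiplicative.toAdd x : N) : F)
  map_one' := h0
  map_mul' x y := ha _ _

private theorem dual_local {F : Type u} [NontriviallyNormedField F] [IsUltrametricDist F]
    [ProperSpace F] [CharP F 2] (p p1 : PChar F) (N : AddSubgroup F)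
    (hN' : IsCompact (N : Set F)) :
    ∃ a : F, ∀ x ∈ N, p.ψ x = p1.ψ (a * x) := by
  classical
  haveI := lc_U F F
  haveI := td_U F F
  obtain ⟨s, a, hs⟩ := mod_span ((dual_form F).bi p1) (uc_U F F) p.ψ p.lc (N : Set F) hN'
  let Φ : F → (Multiplicative N →* ℂ) := fun w =>
    dual_hom N (fun v => p1.ψ (v * w)) (by rw [zero_mul, dual_psi_zero])
      (fun x y => by rw [add_mul, p1.add])
  let Ψ : Multiplicative N →* ℂ := dual_hom N p.ψ (dual_psi_zero p) p.add
  have hli := linearIndependent_monoidHom (Multiplicative N) ℂ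
  by_contra hcon
  push Not at hcon
  have h1 : Ψ ∉ Φ '' (s : Set F) := by
    rintro ⟨w, -, hw⟩
    obtain ⟨x, hx, hx'⟩ := hcon w
    apply hx'
    have h2 := congrArg (fun f : Multiplicative N →* ℂ => f (Multiplicative.ofAdd ⟨x, hx⟩)) hw
    have h3 : p1.ψ (x * w) = p.ψ x := h2
    rw [← h3, mul_comm]
  refine hli.notMem_span_image h1 ?_
  have h4 : (Ψ : Multiplicative N → ℂ) = ∑ w ∈ s, a w • (Φ w : Multiplicative N → ℂ) := by
    funext x
    rw [Finset.sum_apply]
    exact hs _ (Multiplicative.toAdd x).2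
  rw [h4]
  refine Submodule.sum_mem _ fun w hw => Submodule.smul_mem _ _ (Submodule.subset_span ?_)
  exact ⟨Φ w, ⟨w, hw, rfl⟩, rfl⟩

theorem self_dual {F : Type u} [NontriviallyNormedField F] [IsUltrametricDist F] [ProperSpace F]
    [CharP F 2] (p p1 : PChar F) : ∃ a : F, a ≠ 0 ∧ ∀ x, p.ψ x = p1.ψ (a * x) := by
  classical
  haveI := lc_U F F
  haveI := td_U F F
  let I : Type u := {N : AddSubgroup F // IsOpen (N : Set F) ∧ IsCompact (N : Set F)}
  let A : I → Set F := fun N => {a | ∀ x ∈ N.1, p.ψ x = p1.ψ (a * x)}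
  have huc := uc_U F F
  haveI : Nonempty I := by
    obtain ⟨L, h1, h2, -⟩ := huc ∅ isCompact_empty
    exact ⟨⟨L, h1, h2⟩⟩
  have hcl : ∀ N, IsClosed (A N) := by
    intro N
    have : A N = ⋂ x ∈ N.1, {a | p.ψ x = p1.ψ (a * x)} := by
      ext a
      simp [A]
    rw [this]
    refine isClosed_biInter fun x _ => ?_
    exact isClosed_eq continuous_const (p1.lc.continuous.comp (continuous_id.mul continuous_const))
  have hne : ∀ N, (A N).Nonempty := fun N => dual_local p p1 N.1 N.2.2
  have hco : ∀ N, IsCompact (A N) := by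
    intro N
    obtain ⟨a0, ha0⟩ := hne N
    have hp := ((dual_form F).bi p1).perp N.1 N.2.1
    refine (hp.image (continuous_const.add continuous_id : Continuous fun w : F => a0 + w)).of_isClosed_subset
      (hcl N) ?_
    intro a ha
    refine ⟨a - a0, fun v hv => ?_, by simp⟩
    show p1.ψ (v * (a - a0)) = 1
    have e1 := ha v hv
    have e2 := ha0 v hv
    have e3 : p1.ψ (v * (a - a0)) * p1.ψ (a0 * v) = p1.ψ (a * v) := by
      rw [← p1.add]
      congr 1
      ring
    rw [← e1, ← e2] at e3
    have h0 : p.ψ v ≠ 0 := by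
      intro h0
      have := p.norm_one v
      rw [h0, norm_zero] at this
      exact zero_ne_one this
    exact mul_right_cancel₀ h0 (by rw [e3, one_mul])
  have hdir : Directed (· ⊇ ·) A := by
    intro N N'
    obtain ⟨L, h1, h2, h3⟩ := huc ((N.1 : Set F) ∪ N'.1) (N.2.2.union N'.2.2)
    refine ⟨⟨L, h1, h2⟩, fun a ha x hx => ha x (h3 (Or.inl hx)), fun a ha x hx =>
      ha x (h3 (Or.inr hx))⟩
  obtain ⟨a, ha⟩ := IsCompact.nonempty_iInter_of_directed_nonempty_isCompact_isClosed A hdir hne
    hco hcl
  have hall : ∀ x, p.ψ x = p1.ψ (a * x) := by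
    intro x
    obtain ⟨L, h1, h2, h3⟩ := huc {x} isCompact_singleton
    exact Set.mem_iInter.1 ha ⟨L, h1, h2⟩ x (h3 rfl)
  refine ⟨a, ?_, hall⟩
  rintro rfl
  obtain ⟨x, hx⟩ := p.nontriv
  apply hx
  rw [hall x, zero_mul, dual_psi_zero]

end

end Pool.Agent.Work.MP_dd0ddf_al.C2
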