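import Pool.Agent.Work.MP_dd0ddf_al.C2.EwSm

/-!
# MP_dd0ddf_al (characteristic 2), module Ew: existence of the Weil representation (assembly)
-/

set_option linter.unusedSectionVars false
set_option linter.style.haveILetI false

namespace Pool.Agent.Work.MP_dd0ddf_al.C2

noncomputable section

universe u

variable {F E : Type u} [NontriviallyNormedField F] [IsUltrametricDist F] [ProperSpace F]
  [CharP F 2] [NontriviallyNormedField E] [NormedAlgebra F E] [ProperSpace E] [StarRing E]
  [QExt F E] [Dl E] [MeasurableSpace E] [BorelSpace E]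
variable {V : Type u} [AddCommGroup V] [Module E V] [Module.Finite E V] [TopologicalSpace V]
  [IsTopologicalAddGroup V] [T2Space V] [ContinuousSMul E V]

open MeasureTheory in
theorem exists_weil [FiniteDimensional F E] [TotallyDisconnectedSpace E] (B : SkewH E V)
    (p : PChar F) (A : ℂ) (hA0 : A ≠ 0) (hA4 : ∃ c : ℝ, 0 < c ∧ A ^ 4 = c) (μ : Eˣ →* ℂˣ)
    (hμn : ∀ c : Fˣ, IsNorm F E (c : F) → ∃ r : ℝ, 0 < r ∧
      ((μ (Units.map (algebraMap F E).toMonoidHom c) : ℂˣ) : ℂ) = r)
    (hμo : ∀ c : Fˣ, ¬ IsNorm F E (c : F) → ∃ r : ℝ, 0 < r ∧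
      ((μ (Units.map (algebraMap F E).toMonoidHom c) : ℂˣ) : ℂ) = -r)
    (hμl : IsLocallyConstant (fun x : Eˣ => ((μ x : ℂˣ) : ℂ))) (m : ℝ)
    (hm : ∀ h : SF E ℂ, ∫ x : Fin 1 → E, h (x 0)
      ∂(Measure.pi fun _ => (Measure.addHaar : Measure E)) = m * hI h)
    (hG : ∀ (c : F) (hc : c ≠ 0),
      A * ((μ (Units.map (algebraMap F E).toMonoidHom (Units.mk0 c hc)) : ℂˣ) : ℂ) * m *
        kap (nform F E c hc) p = 1) :
    ∃ W : WeilRep B p, W.A = A ∧ W.μ = μ := by
  haveI : LocallyCompactSpace E := inferInstance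
  have hinj := (algebraMap F E).injective
  have H : EwH p A μ m := ⟨hA0, hm, fun c hc => by
    rw [← hG c hc]
    have e1 : Units.mk0 (algebraMap F E c) (by rwa [Ne, map_eq_zero_iff _ hinj]) =
        Units.map (algebraMap F E).toMonoidHom (Units.mk0 c hc) := Units.ext rfl
    unfold ewmu
    rw [e1]⟩
  have hμ : EwN μ := ewn_of_h H
  refine ⟨{ l := { toFun := ewl B p A μ
                   map_one' := ewl_one B p A hμ
                   map_mul' := fun g h => ewl_mul H g h }
            A := A
            A0 := hA0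
            A4 := hA4
            μ := μ
            μ_norm := hμn
            μ_non := hμo
            μ_lc := hμl
            smooth := fun f => ewl_smooth H hμl f
            L_comm := fun h x => (ewi_ewl B p A μ h).1 x
            R_comm := fun h x => (ewi_ewl B p A μ h).2 x
            formula := fun h r b hb => ⟨Units.mk0 _ (wall_det h b hb), rfl, fun f v => ?_⟩ },
    rfl, rfl⟩
  show ewl B p A μ h f v = _
  rw [ewl_eq B p A hμ h b hb]
  show ewc A μ h b hb * Mop B p h b hb f v = _
  rw [Mop_apply]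
  rfl

end

end Pool.Agent.Work.MP_dd0ddf_al.C2
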