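import Pool.Agent.Work.MP_dd0ddf_al.C2.Defs2
import Pool.Agent.Work.MP_dd0ddf_al.C2.HaarApi
import Pool.Agent.Work.MP_dd0ddf_al.C2.BiOm
import Pool.Agent.Work.MP_dd0ddf_al.C2.SchurSF
import Pool.Agent.Work.MP_dd0ddf_al.C2.Topo

/-!
# MP_dd0ddf_al, module WfLR: algebra of the Weyl operators

Direct computations with `bt` (`bt x y - bt y x = om x y`) and `ψ` additive.
`L_x f(v) = ψ(bt(x,v-x)) f(v-x)`, `R_x f(v) = ψ(bt(v-x,x)) f(v-x)`.
`schur_lr`: an operator commuting with all `L_x, R_x` commutes with modulations `L_x R_{-x}` and translations.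
-/

set_option linter.unusedSectionVars false
set_option linter.style.haveILetI false

namespace Pool.Agent.Work.MP_dd0ddf_al.C2

noncomputable section

universe u

variable {F E : Type u} [NontriviallyNormedField F] [IsUltrametricDist F] [ProperSpace F]
  [CharP F 2] [NontriviallyNormedField E] [NormedAlgebra F E] [ProperSpace E] [StarRing E]
  [QExt F E] [Dl E]
variable {V : Type u} [AddCommGroup V] [Module E V] [Module.Finite E V] [TopologicalSpace V]
  [IsTopologicalAddGroup V] [T2Space V] [ContinuousSMul E V]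

theorem om_add_left (B : SkewH E V) (x y z : V) : om F B (x + y) z = om F B x z + om F B y z := by
  unfold om
  rw [B.add_left, map_add]

theorem om_add_right (B : SkewH E V) (x y z : V) : om F B x (y + z) = om F B x y + om F B x z := by
  unfold om
  rw [B.add_right, map_add]

private theorem wflr_trace_star (x : E) : Algebra.trace F E (star x) = Algebra.trace F E x := by
  let e : E ≃ₐ[F] E :=
    { toFun := fun x => star x
      invFun := fun x => star x
      left_inv := star_star
      right_inv := star_star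
      map_mul' := star_mul'
      map_add' := star_add
      commutes' := QExt.star_alg }
  exact Algebra.trace_eq_of_algEquiv e x

theorem om_swap (B : SkewH E V) (x y : V) : om F B y x = - om F B x y := by
  unfold om
  rw [B.skew x y, map_neg, wflr_trace_star]

theorem om_UU (B : SkewH E V) (h : UU B) (x y : V) :
    om F B (h.1.1 x) (h.1.1 y) = om F B x y := by
  unfold om
  rw [h.2 x y]

theorem om_smul (B : SkewH E V) (t : F) (x y : V) :
    om F B (algebraMap F E t • x) y = t * om F B x y := by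
  unfold om
  rw [B.smul_left, ← Algebra.smul_def, map_smul, smul_eq_mul]

private theorem wflr_psi_zero (p : PChar F) : p.ψ 0 = 1 := by
  have h := p.add 0 0
  rw [add_zero] at h
  have hn : p.ψ 0 ≠ 0 := by
    intro h0
    have := p.norm_one 0
    rw [h0, norm_zero] at this
    exact zero_ne_one this
  exact (mul_right_cancel₀ hn (by rw [one_mul]; exact h)).symm

/-- `bt x y = om (d x) y` -/
theorem bt_om (B : SkewH E V) (x y : V) : bt F B x y = om F B ((Dl.d : E) • x) y := by
  unfold bt om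
  rw [B.smul_left]

theorem bt_add_left (B : SkewH E V) (x y z : V) : bt F B (x + y) z = bt F B x z + bt F B y z := by
  rw [bt_om, bt_om, bt_om, smul_add, om_add_left]

theorem bt_add_right (B : SkewH E V) (x y z : V) : bt F B x (y + z) = bt F B x y + bt F B x z := by
  rw [bt_om, bt_om, bt_om, om_add_right]

/-- `bt x y - bt y x = om x y` -/
theorem bt_swap (B : SkewH E V) (x y : V) : bt F B x y - bt F B y x = om F B x y := by
  unfold bt om
  have h1 : Algebra.trace F E (Dl.d * B.ip y x) = - Algebra.trace F E (star Dl.d * B.ip x y) := by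
    rw [B.skew x y, mul_neg, map_neg, ← wflr_trace_star (star Dl.d * B.ip x y), star_mul',
      star_star]
  rw [h1, sub_neg_eq_add, ← map_add, ← add_mul, Dl.add_star, one_mul]

theorem om_self (B : SkewH E V) (x : V) : om F B x x = 0 := by
  rw [← bt_swap, sub_self]

theorem om_zero_left (B : SkewH E V) (x : V) : om F B 0 x = 0 := by
  have h := om_add_left (F := F) B 0 0 x
  rw [add_zero] at h
  exact left_eq_add.1 h

theorem om_zero_right (B : SkewH E V) (x : V) : om F B x 0 = 0 := by
  have h := om_add_right (F := F) B x 0 0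
  rw [add_zero] at h
  exact left_eq_add.1 h

theorem om_neg_left (B : SkewH E V) (x y : V) : om F B (-x) y = - om F B x y := by
  have h := om_add_left (F := F) B x (-x) y
  rw [add_neg_cancel, om_zero_left] at h
  linear_combination -h

theorem om_neg_right (B : SkewH E V) (x y : V) : om F B x (-y) = - om F B x y := by
  have h := om_add_right (F := F) B x y (-y)
  rw [add_neg_cancel, om_zero_right] at h
  linear_combination -h

theorem bt_zero_left (B : SkewH E V) (x : V) : bt F B 0 x = 0 := by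
  rw [bt_om, smul_zero, om_zero_left]

theorem bt_zero_right (B : SkewH E V) (x : V) : bt F B x 0 = 0 := by
  rw [bt_om, om_zero_right]

theorem bt_neg_left (B : SkewH E V) (x y : V) : bt F B (-x) y = - bt F B x y := by
  rw [bt_om, bt_om, smul_neg, om_neg_left]

theorem bt_neg_right (B : SkewH E V) (x y : V) : bt F B x (-y) = - bt F B x y := by
  rw [bt_om, bt_om, om_neg_right]

theorem bt_sub_left (B : SkewH E V) (x y z : V) : bt F B (x - y) z = bt F B x z - bt F B y z := by
  rw [sub_eq_add_neg, bt_add_left, bt_neg_left, sub_eq_add_neg]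

theorem bt_sub_right (B : SkewH E V) (x y z : V) : bt F B x (y - z) = bt F B x y - bt F B x z := by
  rw [sub_eq_add_neg, bt_add_right, bt_neg_right, sub_eq_add_neg]

theorem bt_UU (B : SkewH E V) (h : UU B) (x y : V) :
    bt F B (h.1.1 x) (h.1.1 y) = bt F B x y := by
  unfold bt
  rw [h.2 x y]

theorem bt_smul_left (B : SkewH E V) (t : F) (x y : V) :
    bt F B (algebraMap F E t • x) y = t * bt F B x y := by
  rw [bt_om, bt_om, smul_comm, om_smul]

/-- `bt x y = 0` if `⟨x, y⟩ = 0` -/
theorem bt_of_ip (B : SkewH E V) (x y : V) (h : B.ip x y = 0) : bt F B x y = 0 := by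
  unfold bt
  rw [h, mul_zero, map_zero]

theorem lop_apply (B : SkewH E V) (p : PChar F) (x : V) (f : SF V ℂ) (v : V) :
    Lop B p x f v = p.ψ (bt F B x (v - x)) * f (v - x) := rfl

theorem rop_apply (B : SkewH E V) (p : PChar F) (x : V) (f : SF V ℂ) (v : V) :
    Rop B p x f v = p.ψ (bt F B (v - x) x) * f (v - x) := rfl

theorem lop_lop (B : SkewH E V) (p : PChar F) (x y : V) :
    Lop B p x ∘ₗ Lop B p y = p.ψ (bt F B x y) • Lop B p (x + y) := by
  apply LinearMap.ext
  intro f
  apply SF.ext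
  intro v
  show Lop B p x (Lop B p y f) v = p.ψ (bt F B x y) * Lop B p (x + y) f v
  rw [lop_apply, lop_apply, lop_apply, ← mul_assoc, ← mul_assoc, ← p.add, ← p.add, sub_sub]
  congr 2
  simp only [bt_sub_right, bt_add_left, bt_add_right]
  ring

theorem rop_rop (B : SkewH E V) (p : PChar F) (x y : V) :
    Rop B p x ∘ₗ Rop B p y = p.ψ (bt F B y x) • Rop B p (x + y) := by
  apply LinearMap.ext
  intro f
  apply SF.ext
  intro v
  show Rop B p x (Rop B p y f) v = p.ψ (bt F B y x) * Rop B p (x + y) f v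
  rw [rop_apply, rop_apply, rop_apply, ← mul_assoc, ← mul_assoc, ← p.add, ← p.add, sub_sub]
  congr 2
  simp only [bt_sub_left, bt_add_left, bt_add_right]
  ring

theorem lop_rop (B : SkewH E V) (p : PChar F) (x y : V) :
    Lop B p x ∘ₗ Rop B p y = Rop B p y ∘ₗ Lop B p x := by
  apply LinearMap.ext
  intro f
  apply SF.ext
  intro v
  show Lop B p x (Rop B p y f) v = Rop B p y (Lop B p x f) v
  rw [lop_apply, rop_apply, rop_apply, lop_apply, ← mul_assoc, ← mul_assoc, ← p.add, ← p.add,
    sub_sub, sub_sub, add_comm x y]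
  congr 2
  simp only [bt_sub_right, bt_sub_left, bt_add_left, bt_add_right]
  ring

theorem lop_zero (B : SkewH E V) (p : PChar F) : Lop B p (0 : V) = LinearMap.id := by
  apply LinearMap.ext
  intro f
  apply SF.ext
  intro v
  show Lop B p 0 f v = f v
  rw [lop_apply, bt_zero_left, wflr_psi_zero, one_mul, sub_zero]

theorem rop_zero (B : SkewH E V) (p : PChar F) : Rop B p (0 : V) = LinearMap.id := by
  apply LinearMap.ext
  intro f
  apply SF.ext
  intro v
  show Rop B p 0 f v = f v
  rw [rop_apply, bt_zero_right, wflr_psi_zero, one_mul, sub_zero]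

/-- `L_x R_{-x}` is multiplication by `ψ(om(x, v) - bt(x, x))` -/
theorem lop_rop_neg (B : SkewH E V) (p : PChar F) (x : V) (f : SF V ℂ) (v : V) :
    Lop B p x (Rop B p (-x) f) v = p.ψ (om F B x v - bt F B x x) * f v := by
  rw [lop_apply, rop_apply, ← mul_assoc, ← p.add, sub_neg_eq_add, sub_add_cancel, bt_neg_right,
    bt_sub_right, ← bt_swap]
  congr 2
  ring

/-- translation by `x` in terms of `L_x` and a modulation -/
theorem lop_trans (B : SkewH E V) (p : PChar F) (x : V) (f : SF V ℂ) (v : V) :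
    Lop B p x f v = p.ψ (om F B ((Dl.d : E) • x) v - bt F B x x) * f (v - x) := by
  rw [lop_apply, bt_sub_right, bt_om B x v]

/-- translation by `x` in terms of `R_x` and a modulation -/
theorem rop_trans (B : SkewH E V) (p : PChar F) (x : V) (f : SF V ℂ) (v : V) :
    Rop B p x f v = p.ψ (om F B (-((star Dl.d : E) • x)) v - bt F B x x) * f (v - x) := by
  rw [rop_apply, bt_sub_left]
  congr 3
  have h1 := bt_swap (F := F) B x v
  have h2 : om F B ((star Dl.d : E) • x) v = om F B x v - bt F B x v := by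
    rw [bt_om]
    have h3 : om F B x v = om F B ((Dl.d : E) • x) v + om F B ((star Dl.d : E) • x) v := by
      rw [← om_add_left, ← add_smul, Dl.add_star, one_smul]
    rw [h3]
    ring
  rw [om_neg_left, h2, ← h1]
  ring

theorem geo_lop (B : SkewH E V) (p : PChar F) (h : UU B) (x : V) :
    geo h.1 ∘ₗ Lop B p x = Lop B p (h.1.1 x) ∘ₗ geo h.1 := by
  apply LinearMap.ext
  intro f
  apply SF.ext
  intro v
  show p.ψ (bt F B x (h.1⁻¹.1 v - x)) * f (h.1⁻¹.1 v - x) =
    p.ψ (bt F B (h.1.1 x) (v - h.1.1 x)) * f (h.1⁻¹.1 (v - h.1.1 x))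
  have h1 : h.1.1 (h.1⁻¹.1 v) = v := congrArg (fun f : Module.End E V => f v) h.1.mul_inv
  have h2 : h.1⁻¹.1 (h.1.1 x) = x := congrArg (fun f : Module.End E V => f x) h.1.inv_mul
  have h3 := bt_UU (F := F) B h x (h.1⁻¹.1 v - x)
  rw [map_sub, h1] at h3
  rw [map_sub, h2, h3]

theorem geo_rop (B : SkewH E V) (p : PChar F) (h : UU B) (x : V) :
    geo h.1 ∘ₗ Rop B p x = Rop B p (h.1.1 x) ∘ₗ geo h.1 := by
  apply LinearMap.ext
  intro f
  apply SF.ext
  intro v
  show p.ψ (bt F B (h.1⁻¹.1 v - x) x) * f (h.1⁻¹.1 v - x) =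
    p.ψ (bt F B (v - h.1.1 x) (h.1.1 x)) * f (h.1⁻¹.1 (v - h.1.1 x))
  have h1 : h.1.1 (h.1⁻¹.1 v) = v := congrArg (fun f : Module.End E V => f v) h.1.mul_inv
  have h2 : h.1⁻¹.1 (h.1.1 x) = x := congrArg (fun f : Module.End E V => f x) h.1.inv_mul
  have h3 := bt_UU (F := F) B h (h.1⁻¹.1 v - x) x
  rw [map_sub, h1] at h3
  rw [map_sub, h2, h3]

theorem geo_mul (g h : GV E V) : geo (g * h) = geo g ∘ₗ geo h := by
  apply LinearMap.ext
  intro f
  apply SF.ext
  intro v
  show f ((g * h)⁻¹.1 v) = f (h⁻¹.1 (g⁻¹.1 v))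
  rw [mul_inv_rev]
  rfl

theorem geo_one : geo (1 : GV E V) = LinearMap.id := by
  apply LinearMap.ext
  intro f
  apply SF.ext
  intro v
  show f ((1 : GV E V)⁻¹.1 v) = f v
  rw [inv_one]
  rfl

private theorem wflr_smooth [LocallyCompactSpace V] [TotallyDisconnectedSpace V]
    (c : V × V → ℂ) (hc : IsLocallyConstant c)
    (h0 : ∀ v, c (0, v) = 1) (f : SF V ℂ) :
    ∃ U : Set V, IsOpen U ∧ (0 : V) ∈ U ∧ ∀ x ∈ U, ∀ v, c (x, v) * f (v - x) = f v := by
  obtain ⟨N, hN, hNc, -⟩ := exists_co_addSubgroup (Set.univ : Set V) isOpen_univ (Set.mem_univ _)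
  have hK : IsCompact ((fun q : V × V => q.1 + q.2) '' (tsupport f.1 ×ˢ (N : Set V))) :=
    (f.2.2.isCompact.prod hNc).image (continuous_fst.add continuous_snd)
  have hev : ∀ᶠ x in nhds (0 : V), ∀ v ∈ ((fun q : V × V => q.1 + q.2) ''
      (tsupport f.1 ×ˢ (N : Set V))), c (x, v) * f (v - x) = f v := by
    refine hK.eventually_forall_of_forall_eventually ?_
    intro v _
    have h1 : IsLocallyConstant (fun q : V × V => c q * f (q.2 - q.1)) :=
      hc.mul (f.2.1.comp_continuous (continuous_snd.sub continuous_fst))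
    have h2 : IsLocallyConstant (fun q : V × V => f q.2) :=
      f.2.1.comp_continuous continuous_snd
    have h3 := (IsLocallyConstant.iff_eventually_eq _).mp h1 (0, v)
    have h4 := (IsLocallyConstant.iff_eventually_eq _).mp h2 (0, v)
    filter_upwards [h3, h4] with q hq1 hq2
    have e1 : c q * f (q.2 - q.1) = c (0, v) * f (v - 0) := hq1
    have e2 : f q.2 = f v := hq2
    rw [h0, sub_zero, one_mul] at e1
    rw [e2]
    exact e1
  obtain ⟨U, hU, hUo, hU0⟩ := eventually_nhds_iff.1 hev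
  refine ⟨U ∩ N, hUo.inter hN, ⟨hU0, N.zero_mem⟩, ?_⟩
  rintro x ⟨hx, hxN⟩ v
  by_cases hv : v ∈ ((fun q : V × V => q.1 + q.2) '' (tsupport f.1 ×ˢ (N : Set V)))
  · exact hU x hx v hv
  · have h1 : f v = 0 := by
      refine image_eq_zero_of_notMem_tsupport fun hv' => hv ⟨(v, 0), ⟨hv', N.zero_mem⟩, ?_⟩
      exact add_zero v
    have h2 : f (v - x) = 0 := by
      refine image_eq_zero_of_notMem_tsupport fun hv' => hv ⟨(v - x, x), ⟨hv', hxN⟩, ?_⟩
      exact sub_add_cancel v x
    rw [h1, h2, mul_zero]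

theorem bt_lc (B : SkewH E V) (p : PChar F) :
    IsLocallyConstant (fun q : V × V => p.ψ (bt F B q.1 q.2)) := by
  have h := (omBi B p).lc.comp_continuous
    (show Continuous (fun q : V × V => ((Dl.d : E) • q.1, q.2)) from
      (continuous_const.smul continuous_fst).prodMk continuous_snd)
  have e : (fun q : V × V => p.ψ (bt F B q.1 q.2)) =
      (fun q : V × V => (omBi B p).χ q.1 q.2) ∘ fun q : V × V => ((Dl.d : E) • q.1, q.2) := by
    funext q
    show p.ψ (bt F B q.1 q.2) = p.ψ (om F B ((Dl.d : E) • q.1) q.2)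
    rw [bt_om]
  rw [e]
  exact h

theorem lop_smooth (B : SkewH E V) (p : PChar F) (f : SF V ℂ) :
    ∃ U : Set V, IsOpen U ∧ (0 : V) ∈ U ∧ ∀ x ∈ U, Lop B p x f = f := by
  haveI := lc_V E V
  haveI := td_V F E V
  obtain ⟨U, hU, hU0, h⟩ := wflr_smooth (fun q : V × V => p.ψ (bt F B q.1 (q.2 - q.1)))
    ((bt_lc B p).comp_continuous (continuous_fst.prodMk (continuous_snd.sub continuous_fst)))
    (fun v => by
      show p.ψ (bt F B 0 (v - 0)) = 1
      rw [bt_zero_left, wflr_psi_zero]) f
  exact ⟨U, hU, hU0, fun x hx => SF.ext fun v => h x hx v⟩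

theorem rop_smooth (B : SkewH E V) (p : PChar F) (f : SF V ℂ) :
    ∃ U : Set V, IsOpen U ∧ (0 : V) ∈ U ∧ ∀ x ∈ U, Rop B p x f = f := by
  haveI := lc_V E V
  haveI := td_V F E V
  obtain ⟨U, hU, hU0, h⟩ := wflr_smooth (fun q : V × V => p.ψ (bt F B (q.2 - q.1) q.1))
    ((bt_lc B p).comp_continuous ((continuous_snd.sub continuous_fst).prodMk continuous_fst))
    (fun v => by
      show p.ψ (bt F B (v - 0) 0) = 1
      rw [bt_zero_right, wflr_psi_zero]) f
  exact ⟨U, hU, hU0, fun x hx => SF.ext fun v => h x hx v⟩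

/-- `x ↦ L_x f` is locally constant -/
theorem lop_lc (B : SkewH E V) (p : PChar F) (f : SF V ℂ) :
    IsLocallyConstant (fun x : V => Lop B p x f) := by
  rw [IsLocallyConstant.iff_eventually_eq]
  intro x0
  obtain ⟨U, hU, hU0, h⟩ := lop_smooth B p (Lop B p x0 f)
  have h1 : ∀ᶠ x in nhds x0, x - x0 ∈ U := by
    have hc : Continuous fun x : V => x - x0 := continuous_id.sub continuous_const
    refine hc.continuousAt.eventually (hU.mem_nhds ?_)
    show x0 - x0 ∈ U
    rw [sub_self]
    exact hU0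
  have h2 : IsLocallyConstant (fun x : V => p.ψ (bt F B (x - x0) x0)) :=
    (bt_lc B p).comp_continuous
      (show Continuous (fun x : V => (x - x0, x0)) from
        (continuous_id.sub continuous_const).prodMk continuous_const)
  have h3 := (IsLocallyConstant.iff_eventually_eq _).mp h2 x0
  filter_upwards [h1, h3] with x hx hx2
  have e1 : p.ψ (bt F B (x - x0) x0) = 1 := by
    rw [hx2, sub_self, bt_zero_left, wflr_psi_zero]
  have e2 := congrArg (fun T : SF V ℂ →ₗ[ℂ] SF V ℂ => T f) (lop_lop B p (x - x0) x0)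
  have e3 : Lop B p (x - x0) (Lop B p x0 f) =
      p.ψ (bt F B (x - x0) x0) • Lop B p (x - x0 + x0) f := e2
  rw [h _ hx, e1, one_smul, sub_add_cancel] at e3
  exact e3.symm

theorem psi_neg_mul (p : PChar F) (a : F) : p.ψ (-a) * p.ψ a = 1 := by
  rw [← p.add, neg_add_cancel, wflr_psi_zero]

/-- multiplication by `ψ(om(·, w))` in terms of `L` and `R` -/
theorem mod_eq (B : SkewH E V) (p : PChar F) (w : V) (g : SF V ℂ) :
    SF.mulc (fun v => (omBi B p).χ v w) ((omBi B p).lcl w) g =
      p.ψ (bt F B w w) • Lop B p (-w) (Rop B p (- -w) g) := by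
  apply SF.ext
  intro v
  show p.ψ (om F B v w) * g v = p.ψ (bt F B w w) * Lop B p (-w) (Rop B p (- -w) g) v
  rw [lop_rop_neg, ← mul_assoc, ← p.add, om_neg_left, bt_neg_left, bt_neg_right, om_swap B v w]
  congr 2
  ring

/-- translation by `a` in terms of `L` and a modulation -/
theorem trans_eq (B : SkewH E V) (p : PChar F) (a : V) (g : SF V ℂ) :
    SF.comp (Homeomorph.addRight a) g = p.ψ (bt F B a a) •
      SF.mulc (fun v => (omBi B p).χ v (-((Dl.d : E) • a))) ((omBi B p).lcl _) (Lop B p (-a) g) := by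
  apply SF.ext
  intro v
  show g (v + a) = p.ψ (bt F B a a) * (p.ψ (om F B v (-((Dl.d : E) • a))) * Lop B p (-a) g v)
  rw [lop_trans, ← mul_assoc, ← mul_assoc, ← p.add, ← p.add, om_neg_right, om_swap B _ v,
    smul_neg, om_neg_left, bt_neg_left, bt_neg_right, sub_neg_eq_add v a]
  have h : bt F B a a + (- -om F B ((Dl.d : E) • a) v + (-om F B ((Dl.d : E) • a) v - - -bt F B a a))
      = 0 := by ring
  have h' : bt F B a a + - -om F B ((Dl.d : E) • a) v + (-om F B ((Dl.d : E) • a) v - - -bt F B a a)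
      = 0 := by ring
  first
    | rw [h, wflr_psi_zero, one_mul]
    | rw [h', wflr_psi_zero, one_mul]

/-- Schur's lemma -/
theorem schur_lr (B : SkewH E V) (p : PChar F) (P : SF V ℂ →ₗ[ℂ] SF V ℂ)
    (hL : ∀ x, P ∘ₗ Lop B p x = Lop B p x ∘ₗ P) (hR : ∀ x, P ∘ₗ Rop B p x = Rop B p x ∘ₗ P) :
    ∃ c : ℂ, P = c • LinearMap.id := by
  haveI := lc_V E V
  haveI := td_V F E V
  have hL' : ∀ x f, P (Lop B p x f) = Lop B p x (P f) := fun x f =>
    congrArg (fun T : SF V ℂ →ₗ[ℂ] SF V ℂ => T f) (hL x)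
  have hR' : ∀ x f, P (Rop B p x f) = Rop B p x (P f) := fun x f =>
    congrArg (fun T : SF V ℂ →ₗ[ℂ] SF V ℂ => T f) (hR x)
  have hm : ∀ (w : V) (f : SF V ℂ), P (SF.mulc (fun v => (omBi B p).χ v w) ((omBi B p).lcl w) f) =
      SF.mulc (fun v => (omBi B p).χ v w) ((omBi B p).lcl w) (P f) := by
    intro w f
    rw [mod_eq, mod_eq, map_smul, hL', hR']
  obtain ⟨c, hc⟩ := schur_sf (omBi B p) (uc_V F E V) P (fun a f => by
    rw [trans_eq (F := F) B p a f, trans_eq (F := F) B p a (P f), map_smul, hm, hL']) hm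
  refine ⟨c, LinearMap.ext fun f => ?_⟩
  exact hc f

end

end Pool.Agent.Work.MP_dd0ddf_al.C2
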