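import Pool.Agent.Work.MP_dd0ddf_al.C2.WfM
import Pool.Agent.Work.MP_dd0ddf_al.C2.WfLR
import Pool.Agent.Work.MP_dd0ddf_al.C2.NiGauss

/-!
# MP_dd0ddf_al (characteristic 2), module EwDefs: existence of the Weil representation, definitions

For `h ∈ U(V)` and a basis `b` of `R_h = (h - 1) V` with `r` elements the operator is `A^r μ(det W_h(b)) M_{h,b}`.
Under the condition `EwN`: `μ(z conj z) hmod(z) = 1`, it does not depend on `b` (module EwIndep).
`ewl` is the operator for a chosen basis.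
-/

set_option linter.unusedSectionVars false
set_option linter.style.haveILetI false

namespace Pool.Agent.Work.MP_dd0ddf_al.C2

noncomputable section

universe u

variable {F E : Type u} [NontriviallyNormedField F] [IsUltrametricDist F] [ProperSpace F]
  [CharP F 2] [NontriviallyNormedField E] [NormedAlgebra F E] [ProperSpace E] [StarRing E]
  [QExt F E] [Dl E] [MeasurableSpace E] [BorelSpace E]
variable {V : Type u} [AddCommGroup V] [Module E V] [Module.Finite E V] [TopologicalSpace V]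
  [IsTopologicalAddGroup V] [T2Space V] [ContinuousSMul E V]

/-- the value of `μ` at a nonzero element -/
def ewmu (μ : Eˣ →* ℂˣ) (x : E) (hx : x ≠ 0) : ℂ := ((μ (Units.mk0 x hx) : ℂˣ) : ℂ)

theorem ewmu_ne (μ : Eˣ →* ℂˣ) (x : E) (hx : x ≠ 0) : ewmu μ x hx ≠ 0 := Units.ne_zero _

theorem ewmu_mul (μ : Eˣ →* ℂˣ) (x y : E) (hx : x ≠ 0) (hy : y ≠ 0) :
    ewmu μ (x * y) (mul_ne_zero hx hy) = ewmu μ x hx * ewmu μ y hy := by
  unfold ewmu
  rw [← Units.val_mul, ← map_mul]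
  congr 2
  apply Units.ext
  rfl

theorem ewmu_one (μ : Eˣ →* ℂˣ) : ewmu μ 1 one_ne_zero = 1 := by
  unfold ewmu
  have : Units.mk0 (1 : E) one_ne_zero = 1 := by
    apply Units.ext
    rfl
  rw [this, map_one]
  rfl

theorem ewmu_congr (μ : Eˣ →* ℂˣ) {x y : E} (h : x = y) (hx : x ≠ 0) (hy : y ≠ 0) :
    ewmu μ x hx = ewmu μ y hy := by
  subst h
  rfl

/-- the condition `μ(z conj z) hmod(z) = 1` (so that the operators do not depend on the basis) -/
def EwN [LocallyCompactSpace E] [TotallyDisconnectedSpace E] (μ : Eˣ →* ℂˣ) : Prop :=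
  ∀ (z : E) (hz : z ≠ 0), ewmu μ (z * star z) (mul_ne_zero hz (star_ne_zero.2 hz)) *
    (hmod (mulT E z hz) : ℂ) = 1

/-- the scalar `A^r μ(det W_h(b))` -/
def ewc {B : SkewH E V} (A : ℂ) (μ : Eˣ →* ℂˣ) (h : UU B) {r : ℕ} (b : Fin r → V)
    (hb : IsRBasis h.1 b) : ℂ := A ^ r * ewmu μ (wallM B h.1 b).det (wall_det h b hb)

/-- the rank of `h - 1` -/
def ewr {B : SkewH E V} (h : UU B) : ℕ := (rbasis_exists h).choose

/-- a basis of `R_h` -/
def ewb {B : SkewH E V} (h : UU B) : Fin (ewr h) → V := (rbasis_exists h).choose_spec.choose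

theorem ewb_spec {B : SkewH E V} (h : UU B) : IsRBasis h.1 (ewb h) :=
  (rbasis_exists h).choose_spec.choose_spec

/-- the operator `l(h)` -/
def ewl (B : SkewH E V) (p : PChar F) (A : ℂ) (μ : Eˣ →* ℂˣ) (h : UU B) :
    Module.End ℂ (SF V ℂ) := ewc A μ h (ewb h) (ewb_spec h) • Mop B p h (ewb h) (ewb_spec h)

/-- `T` is an intertwining operator for `g` -/
def EwI (B : SkewH E V) (p : PChar F) (g : UU B) (T : SF V ℂ →ₗ[ℂ] SF V ℂ) : Prop :=
  (∀ x, T ∘ₗ Lop B p x = Lop B p (g.1.1 x) ∘ₗ T) ∧ ∀ x, T ∘ₗ Rop B p x = Rop B p x ∘ₗ T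

theorem ewi_Mop (B : SkewH E V) (p : PChar F) (h : UU B) {r : ℕ} (b : Fin r → V)
    (hb : IsRBasis h.1 b) : EwI B p h (Mop B p h b hb) :=
  ⟨Mop_L B p h b hb, Mop_R B p h b hb⟩

theorem EwI.smul {B : SkewH E V} {p : PChar F} {g : UU B} {T : SF V ℂ →ₗ[ℂ] SF V ℂ}
    (h : EwI B p g T) (c : ℂ) : EwI B p g (c • T) :=
  ⟨fun x => by rw [LinearMap.smul_comp, h.1 x, LinearMap.comp_smul],
    fun x => by rw [LinearMap.smul_comp, h.2 x, LinearMap.comp_smul]⟩

theorem ewi_ewl (B : SkewH E V) (p : PChar F) (A : ℂ) (μ : Eˣ →* ℂˣ) (h : UU B) :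
    EwI B p h (ewl B p A μ h) := (ewi_Mop B p h _ _).smul _

theorem EwI.comp {B : SkewH E V} {p : PChar F} {g h : UU B} {T S : SF V ℂ →ₗ[ℂ] SF V ℂ}
    (hT : EwI B p g T) (hS : EwI B p h S) : EwI B p (g * h) (T ∘ₗ S) := by
  constructor
  · intro x
    rw [LinearMap.comp_assoc, hS.1 x, ← LinearMap.comp_assoc, hT.1, LinearMap.comp_assoc]
    rfl
  · intro x
    rw [LinearMap.comp_assoc, hS.2 x, ← LinearMap.comp_assoc, hT.2, LinearMap.comp_assoc]

theorem ewc_ne {B : SkewH E V} {A : ℂ} (hA : A ≠ 0) (μ : Eˣ →* ℂˣ) (h : UU B) {r : ℕ}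
    (b : Fin r → V) (hb : IsRBasis h.1 b) : ewc A μ h b hb ≠ 0 :=
  mul_ne_zero (pow_ne_zero r hA) (ewmu_ne μ _ _)

theorem ewl_ne (B : SkewH E V) (p : PChar F) {A : ℂ} (hA : A ≠ 0) (μ : Eˣ →* ℂˣ) (h : UU B) :
    ewl B p A μ h ≠ 0 := by
  intro h0
  unfold ewl at h0
  rcases smul_eq_zero.1 h0 with h1 | h1
  · exact ewc_ne hA μ h _ _ h1
  · exact Mop_ne B p h _ _ h1

open MeasureTheory in
/-- the hypotheses: `m` relates the two measures on `E`, and `A μ(c) m κ(c) = 1` for `c ∈ F^×` -/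
structure EwH [FiniteDimensional F E] [TotallyDisconnectedSpace E] (p : PChar F) (A : ℂ)
    (μ : Eˣ →* ℂˣ) (m : ℝ) : Prop where
  A0 : A ≠ 0
  hm : ∀ h : SF E ℂ, ∫ x : Fin 1 → E, h (x 0)
    ∂(Measure.pi fun _ => (Measure.addHaar : Measure E)) = m * hI h
  hG : ∀ (c : F) (hc : c ≠ 0), A * ewmu μ (algebraMap F E c)
    (by rwa [Ne, map_eq_zero_iff _ (algebraMap F E).injective]) * m * kap (nform F E c hc) p = 1

/-- the quasi-reflections with anisotropic vector -/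
def ewAn (B : SkewH E V) : Set (UU B) :=
  {g | ∃ v β, ∃ h : QRok B v β, B.ip v v ≠ 0 ∧ g = qr B v β h}

end

end Pool.Agent.Work.MP_dd0ddf_al.C2
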