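import Pool.Agent.Work.MP_dd0ddf_al.C2.EwSch
import Pool.Agent.Work.MP_dd0ddf_al.C2.WfG

/-!
# MP_dd0ddf_al (characteristic 2), module EwGauss: the product of two quasi-reflections with the same line

`ew_qr_mul` (algebra): `s_γ s_γ' (a) = a + [γ⁻¹ + γ'⁻¹ + γ⁻¹ γ'⁻¹ ⟨w,w⟩] ⟨a,w⟩ w` and `γ + ⟨w,w⟩ = star γ`, so the bracket is `(star γ + γ') / (γ γ') = c / (γ γ')`.  `star c = c` because `star γ - γ = ⟨w,w⟩ =
star γ' - γ'`; `QRok`: `star(γγ'/c) - γγ'/c = (star γ star γ' - γ γ') / c`, with `star γ = c - γ'`, `γ = c - star γ'` this is `star γ' - γ' = ⟨w,w⟩`.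

`ew_gauss`.  Let `s = qr w γ`, `s' = qr w γ'`, `s'' = qr w (γγ'/c) = s s'`, `T z = Tr (star d * z)`.  The left side is an intertwining operator for `s s'` (EwI.comp, ewi_Mop), the right side for `s''`; so
by `ewi_scalar` left side `= κ • M_{s''}`; find κ by evaluation at `f = 1_N`, `0` (MODEL: `wfg_key` in WfG.lean, where w is isotropic).
Notation: `N` a small compact open subgroup of `V`, `K = {z ∈ E : z w ∈ N}` (compact open, pull-back under the closed embedding z ↦ z w), χ0 the bicharacter `(nform F E 1).bi p`: `χ0(x, y) = ψ(Tr(x conj y))`,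
`L0` from `gaussapi_kap (nform F E c hc) p`.  `N` so small that for z ∈ K: `ψ(T(N(z)γ)) = ψ(T(N(z)γ')) = ψ(T(N(z)γγ'/c)) = 1`, `ψ(bt(z w, z w)) = 1`, `ψ(Tr(x conj z γ')) = 1` for all x ∈ L0.
For every f, u: `M_s f (u) = ∫ ψ(T(N(x)γ)) ψ(bt(xw, u - xw)) f(u - xw) dx` (Mop_apply, wall_qr; `N(x) = x conj x`).
(a) `M_{s''} f (0) = m hvol(K)`: the integrand is `1` on K and 0 outside.
(b) `M_{s'} f (-xw) = ∫ ψ(T(N(y)γ')) ψ(bt(yw, -xw-yw)) 1_N(-(x+y)w) dy`.  Substitute `y = z - x` (hI_trans), `z ∈ K`.  `T(N(z-x)γ') = T(N(z)γ') + T(N(x)γ') - T((z conj x + x conj z)γ')`,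
`-bt((z-x)w, zw) = -N(z) Tr(d⟨w,w⟩) + Tr(d x conj z ⟨w,w⟩)`, `⟨w,w⟩ = star γ' - γ'`, `Tr(d x conj z star γ') = T(conj x z γ')`.  Total (mod terms trivial on K): `T(N(x)γ') - T(x conj z γ') - Tr(d x conj z γ')
= T(N(x)γ') - Tr(x conj z γ')` (d + star d = 1).  So `M_{s'} f (-xw) = m ψ(T(N(x)γ')) hvol(K) 1_{K'}(x)`, `K' = {x : ψ(Tr(x conj z γ')) = 1 for z ∈ K}` (compact open subgroup: annihilator of the
compact open subgroup `star γ' K` for χ0; wfg_char).
(c) `M_s M_{s'} f (0) = m ∫ ψ(T(N(x)γ)) ψ(bt(xw,-xw)) M_{s'}f(-xw) dx`, exponent `T(N(x)γ) - N(x) Tr(d⟨w,w⟩) + T(N(x)γ')`; since N(x) ∈ F it is `N(x) [T γ + T γ' - Tr(d(star γ - γ))] = N(x) [T γ' + Tr(d γ)]`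
(`Tr(d star γ) = T γ`) `= N(x) [Tr(star d c) - Tr(star d star γ) + Tr(dγ)] = c N(x) Tr(star d) = c N(x)` (γ' = c - star γ; `Tr(star d) = d + star d = 1`; wfg_sd, trace_mul_alg).  So
`M_s M_{s'} f(0) = m (m hvol(K)) hI(ψ(cN(x)) 1_{K'}) = m (m hvol K) kap(nform c)` since `L0 ≤ K'` (gaussapi_gfun0).
(d) `κ m hvol(K) = m m hvol(K) kap`, `m ≠ 0`, `hvol(K) ≠ 0`.
(In characteristic 2 signs do not matter: `haveI : CharP E 2 := char2_of_injective (algebraMap F E).injective`.)
-/

set_option linter.unusedSectionVars false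
set_option linter.style.haveILetI false

namespace Pool.Agent.Work.MP_dd0ddf_al.C2

noncomputable section

universe u

variable {F E : Type u} [NontriviallyNormedField F] [IsUltrametricDist F] [ProperSpace F]
  [CharP F 2] [NontriviallyNormedField E] [NormedAlgebra F E] [ProperSpace E] [StarRing E]
  [QExt F E] [Dl E] [MeasurableSpace E] [BorelSpace E]
variable {V : Type u} [AddCommGroup V] [Module E V] [Module.Finite E V] [TopologicalSpace V]
  [IsTopologicalAddGroup V] [T2Space V] [ContinuousSMul E V]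

theorem ew_qr_mul {B : SkewH E V} (w : V) (γ γ' c : E) (h : QRok B w γ) (h' : QRok B w γ')
    (hc : c ≠ 0) (hcc : c = star γ + γ') : ∃ h'' : QRok B w (γ * γ' / c),
    qr B w γ h * qr B w γ' h' = qr B w (γ * γ' / c) h'' := by
  have hw1 := h.2
  have hw2 := h'.2
  have hsc : star c = c := by
    rw [hcc, star_add, star_star]
    linear_combination hw2 - hw1
  have hok : QRok B w (γ * γ' / c) := by
    refine ⟨div_ne_zero (mul_ne_zero h.1 h'.1) hc, ?_⟩
    rw [star_div₀, star_mul', hsc, div_sub_div_same, div_eq_iff hc]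
    rw [hcc]
    linear_combination (star γ) * hw2 + γ' * hw1
  refine ⟨hok, ?_⟩
  apply Subtype.ext
  apply Units.ext
  apply LinearMap.ext
  intro a
  show (qr B w γ h).1.1 ((qr B w γ' h').1.1 a) = (qr B w (γ * γ' / c) hok).1.1 a
  rw [qr_apply, qr_apply, qr_apply, B.add_left, B.smul_left, add_assoc, ← add_smul]
  congr 2
  have h1 := h.1
  have h2 := h'.1
  rw [← hw1]
  field_simp
  rw [hcc]
  ring

private theorem ewg_L (B : SkewH E V) (p : PChar F) (x : V) (f : SF V ℂ) (v : V) :
    Lop B p x f v = p.ψ (bt F B x (v - x)) * f (v - x) := rfl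

private theorem ewg_sd (t : F) : Algebra.trace F E (star (Dl.d : E) * algebraMap F E t) = t := by
  have h : star (Dl.d : E) + star (star (Dl.d : E)) = 1 := by
    rw [star_star, add_comm]
    exact Dl.add_star
  exact trace_mul_alg F E h t

open MeasureTheory in
private theorem ewg_M [FiniteDimensional F E] {m : ℝ} [TotallyDisconnectedSpace E]
    (hm : ∀ h : SF E ℂ, ∫ x : Fin 1 → E, h (x 0)
      ∂(Measure.pi fun _ => (Measure.addHaar : Measure E)) = m * hI h)
    (B : SkewH E V) (p : PChar F) (v : V) (hv : v ≠ 0) (γ : E)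
    (h : QRok B v γ) (f : SF V ℂ) (w : V) (k : SF E ℂ)
    (hk : ∀ x, k x = p.ψ (Algebra.trace F E (star Dl.d * γ * (x * star x))) *
      Lop B p (x • v) f w) :
    Mop B p (qr B v γ h) (fun _ : Fin 1 => v) (wall_qr v hv _ h).1 f w = m * hI k := by
  rw [Mop_apply, ← hm]
  refine integral_congr_ae (Filter.Eventually.of_forall fun x => ?_)
  show _ = k (x 0)
  rw [hk]
  simp only [Fin.sum_univ_one]
  rw [(wall_qr v hv _ h).2]
  congr 3
  ring

/-- integral of a character over a compact open subgroup -/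
private theorem ewg_char [TotallyDisconnectedSpace E] (χ : BiChar E) (K : AddSubgroup E)
    (hK : IsOpen (K : Set E)) (hK' : IsCompact (K : Set E)) (w : E) (g : SF E ℂ)
    (hg : ∀ z, g z = χ.χ z w * SF.single (K : Set E) hK' hK (1 : ℂ) z) :
    ((∀ z ∈ K, χ.χ z w = 1) → hI g = hvol (K : Set E)) ∧
    (¬ (∀ z ∈ K, χ.χ z w = 1) → hI g = 0) := by
  constructor
  · intro h
    have e1 : g = SF.single (K : Set E) hK' hK (1 : ℂ) := by
      apply SF.ext
      intro z
      rw [hg]
      by_cases hz : z ∈ K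
      · rw [h z hz, one_mul]
      · rw [SF.single_apply_not_mem _ _ _ _ _ hz, mul_zero]
    rw [e1, hI_single, smul_eq_mul, mul_one]
  · intro h
    push Not at h
    obtain ⟨a, ha, ha'⟩ := h
    have e1 : SF.comp (Homeomorph.addRight a) g = χ.χ a w • g := by
      apply SF.ext
      intro z
      show g (z + a) = χ.χ a w * g z
      rw [hg, hg, χ.addl]
      have e2 : SF.single (K : Set E) hK' hK (1 : ℂ) (z + a) =
          SF.single (K : Set E) hK' hK (1 : ℂ) z := by
        by_cases hz : z ∈ K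
        · rw [SF.single_apply_mem _ _ _ _ _ hz,
            SF.single_apply_mem _ _ _ _ _ (K.add_mem hz ha)]
        · rw [SF.single_apply_not_mem _ _ _ _ _ hz, SF.single_apply_not_mem]
          intro h1
          apply hz
          have h2 := K.sub_mem h1 ha
          rwa [add_sub_cancel_right] at h2
      rw [e2]
      ring
    have e2 : hI g = χ.χ a w * hI g := by
      conv_lhs => rw [← hI_trans a g, e1, map_smul, smul_eq_mul]
    have e3 : (1 - χ.χ a w) * hI g = 0 := by
      rw [sub_mul, one_mul, ← e2, sub_self]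
    exact (mul_eq_zero.1 e3).resolve_left (sub_ne_zero.2 (Ne.symm ha'))

private theorem ewg_cont (δ : E) :
    Continuous fun z : E => Algebra.trace F E (δ * (z * star z)) :=
  (continuous_trace F E).comp (continuous_const.mul (continuous_id.mul (continuous_star_E F E)))

private theorem ewg_open (p : PChar F) (δ : E) :
    IsOpen {z : E | p.ψ (Algebra.trace F E (δ * (z * star z))) = 1} :=
  (p.lc.comp_continuous (ewg_cont δ)).isOpen_fiber 1

private theorem ewg_zero (p : PChar F) (δ : E) :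
    p.ψ (Algebra.trace F E (δ * ((0 : E) * star (0 : E)))) = 1 := by
  rw [zero_mul, mul_zero, map_zero, gaussdefs_psi_zero p]

/-- the phase of the inner integral -/
private theorem ewg_idA (γ' h0 x z : E) (hγ : h0 = star γ' - γ') :
    Algebra.trace F E (star Dl.d * γ' * ((z - x) * star (z - x))) -
        Algebra.trace F E (Dl.d * ((z - x) * star z * h0)) =
      Algebra.trace F E (star Dl.d * γ' * (x * star x)) +
        Algebra.trace F E (z * star (-(x * γ'))) +
        (Algebra.trace F E (star Dl.d * γ' * (z * star z)) -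
          Algebra.trace F E (Dl.d * h0 * (z * star z))) := by
  have hd : (Dl.d : E) + star Dl.d = 1 := Dl.add_star
  have h1 : star (Dl.d : E) * γ' * ((z - x) * star (z - x)) - Dl.d * ((z - x) * star z * h0) =
      star Dl.d * γ' * (x * star x) + -(x * γ' * star z) +
        (star Dl.d * γ' * (z * star z) - Dl.d * h0 * (z * star z)) +
        (Dl.d * x * star z * star γ' - star (Dl.d * x * star z * star γ')) := by
    rw [star_sub, star_mul', star_mul', star_mul', star_star, star_star, hγ]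
    linear_combination (-(x * star z * γ')) * hd
  have h2 := congrArg (Algebra.trace F E) h1
  rw [map_sub, map_add, map_add, map_add, map_sub, map_sub, trace_star, sub_self, add_zero,
    map_neg] at h2
  rw [h2]
  have h3 : Algebra.trace F E (z * star (-(x * γ'))) = - Algebra.trace F E (x * γ' * star z) := by
    rw [← map_neg, ← trace_star F E (z * star (-(x * γ')))]
    congr 1
    rw [star_mul', star_star]
    ring
  rw [h3]

/-- the phase of the outer integral -/
private theorem ewg_idB (γ γ' h0 x : E) (c : F) (hγ : h0 = star γ - γ)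
    (hcc : algebraMap F E c = star γ + γ') :
    Algebra.trace F E (star Dl.d * γ * (x * star x)) -
        Algebra.trace F E (Dl.d * h0 * (x * star x)) +
        Algebra.trace F E (star Dl.d * γ' * (x * star x)) = c * nE F x := by
  have h1 : star (Dl.d : E) * γ * (x * star x) - Dl.d * h0 * (x * star x) +
      star Dl.d * γ' * (x * star x) =
      star Dl.d * algebraMap F E (c * nE F x) +
        (star Dl.d * γ * (x * star x) - star (star Dl.d * γ * (x * star x))) +
        (Dl.d * γ * (x * star x) - star (Dl.d * γ * (x * star x))) := by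
    rw [map_mul, alg_nE, hcc, hγ]
    simp only [star_mul', star_star]
    ring
  have h2 := congrArg (Algebra.trace F E) h1
  rw [map_add, map_sub, map_add, map_add, map_sub, map_sub, trace_star, trace_star, sub_self,
    sub_self, add_zero, add_zero, ewg_sd] at h2
  exact h2

private theorem ewg_bt (B : SkewH E V) (w : V) (x y : E) :
    bt F B (x • w) (-(y • w)) = -Algebra.trace F E (Dl.d * (x * star y * B.ip w w)) := by
  unfold bt
  rw [← neg_smul, B.smul_left, B.smul_right, ← map_neg, star_neg]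
  congr 1
  ring

open MeasureTheory in
private theorem ewg_eval [FiniteDimensional F E] [TotallyDisconnectedSpace E] {B : SkewH E V}
    {p : PChar F} (w : V) (hw : w ≠ 0) (γ γ' γ'' : E) (h : QRok B w γ) (h' : QRok B w γ')
    (h'' : QRok B w γ'') (c : F) (hc : c ≠ 0) (hcc : algebraMap F E c = star γ + γ') (m : ℝ)
    (hm : ∀ h : SF E ℂ, ∫ x : Fin 1 → E, h (x 0)
      ∂(Measure.pi fun _ => (Measure.addHaar : Measure E)) = m * hI h) :
    ∃ (f : SF V ℂ) (vK : ℝ), 0 < vK ∧
      Mop B p (qr B w γ'' h'') (fun _ : Fin 1 => w) (wall_qr w hw γ'' h'').1 f 0 = m * vK ∧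
      Mop B p (qr B w γ h) (fun _ : Fin 1 => w) (wall_qr w hw γ h).1
        (Mop B p (qr B w γ' h') (fun _ : Fin 1 => w) (wall_qr w hw γ' h').1 f) 0 =
          m * ((m * vK) * kap (nform F E c hc) p) := by
  set b'' := nform F E c hc with hb''
  set χ0 : BiChar E := (nform F E (1 : F) one_ne_zero).bi p with hχ0
  have hχ : ∀ a b : E, χ0.χ a b = p.ψ (Algebra.trace F E (a * star b)) := by
    intro a b
    show p.ψ (1 * Algebra.trace F E (a * star b)) = _
    rw [one_mul]
  obtain ⟨L0, hL0o, hL0c, hL0⟩ := gaussapi_kap b'' p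
  have hψ0 : p.ψ 0 = 1 := gaussdefs_psi_zero p
  have hγ'0 : γ' ≠ 0 := h'.1
  -- the multiplication by γ'
  set L1 : AddSubgroup E := L0.map (AddMonoidHom.mulRight γ') with hL1
  have hL1c : IsCompact (L1 : Set E) := by
    have e1 : (L1 : Set E) = (fun x => x * γ') '' (L0 : Set E) := by
      rw [hL1, AddSubgroup.coe_map]
      rfl
    rw [e1]
    exact hL0c.image (continuous_id.mul continuous_const)
  -- the small open set
  have hW : IsOpen (({z : E | p.ψ (Algebra.trace F E (star Dl.d * γ' * (z * star z))) = 1} ∩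
      {z : E | p.ψ (Algebra.trace F E (star Dl.d * γ'' * (z * star z))) = 1}) ∩
      ({z : E | p.ψ (Algebra.trace F E (Dl.d * B.ip w w * (z * star z))) = 1} ∩
      {z | ∀ x ∈ L1, χ0.χ x z = 1})) :=
    ((ewg_open p _).inter (ewg_open p _)).inter ((ewg_open p _).inter (isOpen_perp χ0 L1 hL1c))
  have hj : Topology.IsClosedEmbedding (LinearMap.toSpanSingleton E V w) :=
    LinearMap.isClosedEmbedding_of_injective (by
      rw [LinearMap.ker_eq_bot']
      intro x hx
      rw [LinearMap.toSpanSingleton_apply] at hx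
      exact (smul_eq_zero.1 hx).resolve_right hw)
  obtain ⟨O, hO, hOW⟩ := hj.isInducing.isOpen_iff.1 hW
  haveI := lc_V E V
  haveI := td_V F E V
  obtain ⟨N, hNo, hNc, hNO⟩ := exists_co_addSubgroup O hO (by
    have h0 : (0 : E) ∈ (LinearMap.toSpanSingleton E V w) ⁻¹' O := by
      rw [hOW]
      refine ⟨⟨ewg_zero p _, ewg_zero p _⟩, ewg_zero p _, fun x _ => ?_⟩
      rw [hχ, star_zero, mul_zero, map_zero, hψ0]
    have h1 : (LinearMap.toSpanSingleton E V w) 0 ∈ O := h0
    rwa [map_zero] at h1)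
  set K : AddSubgroup E := N.comap (LinearMap.toSpanSingleton E V w).toAddMonoidHom with hKdef
  have hKm : ∀ z : E, z ∈ K ↔ z • w ∈ N := fun z => Iff.rfl
  have hKo : IsOpen (K : Set E) := hNo.preimage hj.continuous
  have hKc : IsCompact (K : Set E) := hj.isCompact_preimage hNc
  have hKW : ∀ z ∈ K, (p.ψ (Algebra.trace F E (star Dl.d * γ' * (z * star z))) = 1 ∧
      p.ψ (Algebra.trace F E (star Dl.d * γ'' * (z * star z))) = 1) ∧
      (p.ψ (Algebra.trace F E (Dl.d * B.ip w w * (z * star z))) = 1 ∧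
      ∀ x ∈ L1, χ0.χ x z = 1) := by
    intro z hz
    have h1 : z ∈ (LinearMap.toSpanSingleton E V w) ⁻¹' O := hNO ((hKm z).1 hz)
    rw [hOW] at h1
    exact h1
  have hneg : ∀ t : F, p.ψ t = 1 → p.ψ (-t) = 1 := by
    intro t ht
    have h1 := p.add t (-t)
    rw [add_neg_cancel, hψ0, ht, one_mul] at h1
    exact h1.symm
  have hvK := hvol_pos (K : Set E) hKc hKo ⟨0, K.zero_mem⟩
  -- the dual group
  set K1 : AddSubgroup E :=
    { carrier := {x | ∀ z ∈ K, χ0.χ z x = 1}
      zero_mem' := fun z _ => by rw [hχ, star_zero, mul_zero, map_zero, hψ0]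
      add_mem' := fun {x y} hx hy z hz => by rw [χ0.addr, hx z hz, hy z hz, mul_one]
      neg_mem' := fun {x} hx z hz => by
        have h1 := χ0.addr z x (-x)
        rw [add_neg_cancel, hχ z 0, star_zero, mul_zero, map_zero, hψ0, hx z hz, one_mul] at h1
        exact h1.symm } with hK1def
  have hK1m : ∀ x : E, x ∈ K1 ↔ ∀ z ∈ K, χ0.χ z x = 1 := fun x => Iff.rfl
  have hK1o : IsOpen (K1 : Set E) := isOpen_perp χ0 K hKc
  have hK1c : IsCompact (K1 : Set E) := χ0.perp K hKo
  set K' : AddSubgroup E := K1.comap (AddMonoidHom.mulRight γ') with hK'def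
  have hK'm : ∀ x : E, x ∈ K' ↔ x * γ' ∈ K1 := fun x => Iff.rfl
  have hK's : (K' : Set E) = (Homeomorph.mulRight₀ γ' hγ'0) ⁻¹' (K1 : Set E) := rfl
  have hK'o : IsOpen (K' : Set E) := by
    rw [hK's]
    exact hK1o.preimage (Homeomorph.mulRight₀ γ' hγ'0).continuous
  have hK'c : IsCompact (K' : Set E) := by
    rw [hK's]
    exact (Homeomorph.mulRight₀ γ' hγ'0).isCompact_preimage.2 hK1c
  have hLK : L0 ≤ K' := by
    intro x hx
    rw [hK'm, hK1m]
    intro z hz
    have h1 := (hKW z hz).2.2 (x * γ') (by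
      rw [hL1]
      exact ⟨x, hx, rfl⟩)
    rw [hχ] at h1 ⊢
    rw [← h1, ← trace_star F E (z * star (x * γ')), star_mul', star_star, mul_comm]
  have hkap := hL0 K' hK'o hK'c hLK
  -- the test function
  set f : SF V ℂ := SF.single (N : Set V) hNc hNo (1 : ℂ) with hf
  have hfv : ∀ z : E, f (-(z • w)) = SF.single (K : Set E) hKc hKo (1 : ℂ) z := by
    intro z
    by_cases hz : z ∈ K
    · rw [SF.single_apply_mem _ _ _ _ _ hz, hf, SF.single_apply_mem]
      exact N.neg_mem ((hKm z).1 hz)
    · rw [SF.single_apply_not_mem _ _ _ _ _ hz, hf, SF.single_apply_not_mem]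
      intro h1
      exact hz ((hKm z).2 (by
        have h2 := N.neg_mem h1
        rwa [neg_neg] at h2))
  have hb0 : ∀ x : E, bt F B (x • w) (0 - x • w) =
      -Algebra.trace F E (Dl.d * B.ip w w * (x * star x)) := by
    intro x
    rw [zero_sub, ewg_bt]
    congr 2
    ring
  -- the value for the product
  have e1 : Mop B p (qr B w γ'' h'') (fun _ : Fin 1 => w) (wall_qr w hw γ'' h'').1 f 0 =
      m * hvol (K : Set E) := by
    rw [ewg_M hm B p w hw γ'' h'' f 0 (SF.single (K : Set E) hKc hKo (1 : ℂ)) ?_,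
      hI_single, smul_eq_mul, mul_one]
    intro x
    rw [ewg_L, hb0, zero_sub, hfv]
    by_cases hx : x ∈ K
    · rw [(hKW x hx).1.2, hneg _ (hKW x hx).2.1, one_mul, one_mul]
    · rw [SF.single_apply_not_mem _ _ _ _ _ hx, mul_zero, mul_zero]
  -- the inner integral
  have e2 : ∀ x : E, Mop B p (qr B w γ' h') (fun _ : Fin 1 => w) (wall_qr w hw γ' h').1 f
      (-(x • w)) = m * (p.ψ (Algebra.trace F E (star Dl.d * γ' * (x * star x))) *
        (hvol (K : Set E) * SF.single (K' : Set E) hK'c hK'o (1 : ℂ) x)) := by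
    intro x
    set θ : E → F := fun y => Algebra.trace F E (star Dl.d * γ' * (y * star y)) -
      Algebra.trace F E (Dl.d * (y * star (y + x) * B.ip w w)) with hθ
    have hθc : Continuous θ :=
      (ewg_cont _).sub ((continuous_trace F E).comp (continuous_const.mul
        ((continuous_id.mul ((continuous_star_E F E).comp
          (continuous_id.add continuous_const))).mul continuous_const)))
    rw [ewg_M hm B p w hw γ' h' f (-(x • w))
      (SF.mulc (fun y => p.ψ (θ y)) (p.lc.comp_continuous hθc) (SF.comp (Homeomorph.addRight x)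
        (SF.single (K : Set E) hKc hKo (1 : ℂ)))) ?_]
    · congr 1
      set g : SF E ℂ := SF.mulc (fun z => χ0.χ z (-(x * γ'))) (χ0.lcl (-(x * γ')))
        (SF.single (K : Set E) hKc hKo (1 : ℂ)) with hg
      rw [← hI_trans (-x)]
      have e3 : SF.comp (Homeomorph.addRight (-x))
          (SF.mulc (fun y => p.ψ (θ y)) (p.lc.comp_continuous hθc)
            (SF.comp (Homeomorph.addRight x) (SF.single (K : Set E) hKc hKo (1 : ℂ)))) =
          p.ψ (Algebra.trace F E (star Dl.d * γ' * (x * star x))) • g := by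
        apply SF.ext
        intro z
        show p.ψ (θ (z + -x)) * SF.single (K : Set E) hKc hKo (1 : ℂ) (z + -x + x) =
          p.ψ (Algebra.trace F E (star Dl.d * γ' * (x * star x))) *
            (χ0.χ z (-(x * γ')) * SF.single (K : Set E) hKc hKo (1 : ℂ) z)
        rw [neg_add_cancel_right]
        by_cases hz : z ∈ K
        · have e4 : θ (z + -x) = Algebra.trace F E (star Dl.d * γ' * (x * star x)) +
              Algebra.trace F E (z * star (-(x * γ'))) +
              (Algebra.trace F E (star Dl.d * γ' * (z * star z)) +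
                -Algebra.trace F E (Dl.d * B.ip w w * (z * star z))) := by
            rw [hθ]
            show Algebra.trace F E (star Dl.d * γ' * ((z + -x) * star (z + -x))) -
              Algebra.trace F E (Dl.d * ((z + -x) * star (z + -x + x) * B.ip w w)) = _
            rw [neg_add_cancel_right, ← sub_eq_add_neg z x,
              ewg_idA γ' (B.ip w w) x z h'.2.symm, ← sub_eq_add_neg
                (Algebra.trace F E (star Dl.d * γ' * (z * star z)))]
          rw [e4, p.add, p.add, p.add, (hKW z hz).1.1, hneg _ (hKW z hz).2.1, hχ]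
          ring
        · rw [SF.single_apply_not_mem _ _ _ _ _ hz]
          ring
      rw [e3, map_smul, smul_eq_mul]
      congr 1
      have hgz := ewg_char χ0 K hKo hKc (-(x * γ')) g fun z => rfl
      by_cases hx : x ∈ K'
      · rw [SF.single_apply_mem _ _ _ _ _ hx, mul_one]
        exact hgz.1 (K1.neg_mem hx)
      · rw [SF.single_apply_not_mem _ _ _ _ _ hx, mul_zero]
        apply hgz.2
        intro h1
        apply hx
        have h2 := K1.neg_mem ((hK1m (-(x * γ'))).2 h1)
        rw [neg_neg] at h2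
        exact h2
    · intro y
      show p.ψ (θ y) * SF.single (K : Set E) hKc hKo (1 : ℂ) (y + x) = _
      rw [ewg_L]
      have h1 : -(x • w) - y • w = -((y + x) • w) := by module
      rw [h1, ewg_bt, hfv, hθ]
      show p.ψ (Algebra.trace F E (star Dl.d * γ' * (y * star y)) -
        Algebra.trace F E (Dl.d * (y * star (y + x) * B.ip w w))) * _ = _
      rw [sub_eq_add_neg, p.add]
      ring
  -- the outer integral
  have e3 : Mop B p (qr B w γ h) (fun _ : Fin 1 => w) (wall_qr w hw γ h).1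
      (Mop B p (qr B w γ' h') (fun _ : Fin 1 => w) (wall_qr w hw γ' h').1 f) 0 =
      m * ((m * hvol (K : Set E)) * kap b'' p) := by
    rw [ewg_M hm B p w hw γ h _ 0
      (((m : ℂ) * hvol (K : Set E)) • gfun b'' p K' hK'o hK'c 0) ?_, map_smul, smul_eq_mul, hkap]
    intro x
    show (m : ℂ) * hvol (K : Set E) * gfun b'' p K' hK'o hK'c 0 x = _
    rw [ewg_L, hb0, zero_sub, e2, gaussapi_gfun0]
    have h5 : b''.q x = Algebra.trace F E (star Dl.d * γ * (x * star x)) +
        -Algebra.trace F E (Dl.d * B.ip w w * (x * star x)) +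
        Algebra.trace F E (star Dl.d * γ' * (x * star x)) := by
      show c * nE F x = _
      rw [← ewg_idB γ γ' (B.ip w w) x c h.2.symm hcc, sub_eq_add_neg]
    rw [h5, p.add, p.add]
    ring
  exact ⟨f, hvol (K : Set E), hvK, e1, e3⟩

open MeasureTheory in
theorem ew_gauss [FiniteDimensional F E] [TotallyDisconnectedSpace E] {B : SkewH E V}
    {p : PChar F} (w : V) (hw : w ≠ 0) (γ γ' : E) (h : QRok B w γ) (h' : QRok B w γ') (c : F)
    (hc : c ≠ 0) (hcc : algebraMap F E c = star γ + γ')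
    (h'' : QRok B w (γ * γ' / algebraMap F E c)) (m : ℝ) (hm0 : m ≠ 0)
    (hm : ∀ h : SF E ℂ, ∫ x : Fin 1 → E, h (x 0)
      ∂(Measure.pi fun _ => (Measure.addHaar : Measure E)) = m * hI h) :
    Mop B p (qr B w γ h) (fun _ : Fin 1 => w) (wall_qr w hw γ h).1 ∘ₗ
        Mop B p (qr B w γ' h') (fun _ : Fin 1 => w) (wall_qr w hw γ' h').1 =
      ((m : ℂ) * kap (nform F E c hc) p) •
        Mop B p (qr B w (γ * γ' / algebraMap F E c) h'') (fun _ : Fin 1 => w)
          (wall_qr w hw _ h'').1 := by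
  have hcE : algebraMap F E c ≠ 0 := by
    rwa [Ne, map_eq_zero_iff _ (algebraMap F E).injective]
  obtain ⟨h3, hmul⟩ := ew_qr_mul w γ γ' (algebraMap F E c) h h' hcE hcc
  have hI1 := (ewi_Mop B p (qr B w γ h) (fun _ : Fin 1 => w) (wall_qr w hw γ h).1).comp
    (ewi_Mop B p (qr B w γ' h') (fun _ : Fin 1 => w) (wall_qr w hw γ' h').1)
  rw [hmul] at hI1
  have hI2 := ewi_Mop B p (qr B w (γ * γ' / algebraMap F E c) h'') (fun _ : Fin 1 => w)
    (wall_qr w hw _ h'').1
  obtain ⟨κ, hκ⟩ := ewi_scalar hI1 hI2 (Mop_ne B p _ _ _)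
  obtain ⟨f, vK, hvK, e1, e2⟩ := ewg_eval (B := B) (p := p) w hw γ γ' (γ * γ' / algebraMap F E c)
    h h' h'' c hc hcc m hm
  rw [hκ]
  congr 1
  have e3 := congrArg (fun T : SF V ℂ →ₗ[ℂ] SF V ℂ => T f 0) hκ
  have e4 : (κ • Mop B p (qr B w (γ * γ' / algebraMap F E c) h'') (fun _ : Fin 1 => w)
      (wall_qr w hw _ h'').1 : SF V ℂ →ₗ[ℂ] SF V ℂ) f 0 = κ * (m * vK) := by
    rw [← e1]
    rfl
  have e5 : (m : ℂ) * ((m * vK) * kap (nform F E c hc) p) = κ * (m * vK) := by
    rw [← e2, ← e4]
    exact e3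
  have h6 : ((m : ℂ) * vK) ≠ 0 := by
    rw [← Complex.ofReal_mul, Ne, Complex.ofReal_eq_zero]
    exact mul_ne_zero hm0 hvK.ne'
  refine mul_right_cancel₀ h6 ?_
  rw [← e5]
  ring

end

end Pool.Agent.Work.MP_dd0ddf_al.C2
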