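import Pool.Agent.Work.MP_dd0ddf_al.C2.EwRank

/-!
# MP_dd0ddf_al (characteristic 2), module EwGen: the anisotropic quasi-reflections generate U(V)

`ew_transv`: `v ≠ 0` isotropic, `star β = β`, β ≠ 0.  `u` with `⟨v,u⟩ ≠ 0` (nondeg).  `w := u` if `⟨u,u⟩ ≠ 0`, else `w := u + t v` with `y = t⟨v,u⟩`, `star y ≠ y` (QExt.nontriv): `⟨w,w⟩ = y - star y ≠ 0`.
So `⟨w,w⟩ ≠ 0`, `κ := ⟨v,w⟩ = ⟨v,u⟩ ≠ 0`, `⟨w,v⟩ = - star κ`; v, w are linearly independent.  `γ := -(d ⟨w,w⟩)`, d = Dl.d (d + star d = 1, so d ≠ 0): `star γ - γ = ⟨w,w⟩` (`star ⟨w,w⟩ = -⟨w,w⟩`), γ ≠ 0: QRok w γ.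
`g := qr w γ * qr v β`, `R_g = span{w, v}` and (wall_prod, bases `fun _ : Fin 1 => w`, `fun _ => v`) `W_g(a w + b v, a' w + b' v) = a conj a' γ + b conj b' β - b conj a' κ`.
For `b ∈ E` let `w1 = w + b v`, `w2 = (conj b β) w - conj(γ - b κ) v`.  Then `W_g(w1,w1) = γ + b conj b β - b κ =: W1`, `W_g(w1,w2) = 0`, `⟨w1,w1⟩ = ⟨w,w⟩ + bκ - conj(bκ)`,
`⟨w2,w2⟩ = b conj b β^2 ⟨w,w⟩ + β (y - conj y)` with `y = conj b γ conj κ`.  The determinant of (w1, w2) in the basis (w, v) is `-conj(γ - bκ) - b conj b β = - conj W1`.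
Choose `e0 ∈ E` with `star e0 ≠ e0`, `conj b0 := e0/(γ conj κ)`, `b := t b0` with `t ∈ F` (embedded in E): W1 → γ ≠ 0, `⟨w1,w1⟩ → ⟨w,w⟩ ≠ 0`, `⟨w2,w2⟩ = t [t N(b0) β^2⟨w,w⟩ + β(e0 - star e0)]`, the bracket → `β(e0 - star e0) ≠ 0` for t → 0.
So for some t ≠ 0 (nhdsWithin of 0 without 0 in F is not ⊥) all are ≠ 0.  Then w1, w2 are independent, span{w1,w2} = span{w,v} = R_g (both of dimension 2); ew_rank_two: `g = qr w1 _ * qr w2 _`, both anisotropic, so
`qr v β = (qr w γ)⁻¹ * (qr w1 _ * qr w2 _)` is in the subgroup.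
(Every identity can be checked in characteristic 2, where signs do not matter; they hold with the signs above.)
`ewAn_closure`: qr_closure (`exists_dd F E` or ⟨Dl.d, Dl.add_star⟩) and every element of qrSet is in the closure: anisotropic v: subset_closure, isotropic v: ew_transv.
-/

set_option linter.unusedSectionVars false
set_option linter.style.haveILetI false

namespace Pool.Agent.Work.MP_dd0ddf_al.C2

noncomputable section

universe u

section EgPriv

variable {E V : Type*} [Field E] [StarRing E] [AddCommGroup V] [Module E V]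
  [Module.Finite E V] {B : SkewH E V}

private theorem eg_range {v : V} {β : E} (hv : v ≠ 0) (h : QRok B v β) :
    LinearMap.range ((qr B v β h).1.1 - 1) = Submodule.span E {v} := by
  have h1 := (wall_qr v hv β h).1.2
  rw [← h1, Set.range_const]

omit [Module.Finite E V] in
private theorem eg_indep {v w : V} (hvv : B.ip v v = 0) (hκ : B.ip v w ≠ 0) {s t : E}
    (h : s • w + t • v = 0) : s = 0 ∧ t = 0 := by
  have h0 : ∀ z : V, B.ip 0 z = 0 := by
    intro z
    have h1 := B.smul_left 0 0 z
    rw [zero_smul, zero_mul] at h1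
    exact h1
  have h1 : s * B.ip w v + t * B.ip v v = 0 := by
    rw [← B.smul_left, ← B.smul_left, ← B.add_left, h, h0]
  have h2 : s * B.ip w w + t * B.ip v w = 0 := by
    rw [← B.smul_left, ← B.smul_left, ← B.add_left, h, h0]
  have h3 : B.ip w v ≠ 0 := by
    rw [B.skew v w]
    exact neg_ne_zero.2 (star_ne_zero.2 hκ)
  rw [hvv, mul_zero, add_zero] at h1
  have hs : s = 0 := by
    rcases mul_eq_zero.1 h1 with h4 | h4
    · exact h4
    · exact absurd h4 h3
  rw [hs, zero_mul, zero_add] at h2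
  refine ⟨hs, ?_⟩
  rcases mul_eq_zero.1 h2 with h4 | h4
  · exact h4
  · exact absurd h4 hκ

private theorem eg_disj {v w : V} {β γ : E} (h : QRok B v β) (k : QRok B w γ) (hv : v ≠ 0)
    (hw : w ≠ 0) (hvv : B.ip v v = 0) (hκ : B.ip v w ≠ 0) :
    Disjoint (LinearMap.range ((qr B w γ k).1.1 - 1)) (LinearMap.range ((qr B v β h).1.1 - 1)) := by
  rw [eg_range hw k, eg_range hv h, Submodule.disjoint_def]
  intro x hx1 hx2
  obtain ⟨s, rfl⟩ := Submodule.mem_span_singleton.1 hx1
  obtain ⟨t, ht⟩ := Submodule.mem_span_singleton.1 hx2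
  have h1 : s • w + (-t) • v = 0 := by
    rw [neg_smul, ht, add_neg_cancel]
  rw [(eg_indep hvv hκ h1).1, zero_smul]

private theorem eg_mem {v w : V} {β γ : E} (h : QRok B v β) (k : QRok B w γ) (hv : v ≠ 0)
    (hw : w ≠ 0) (hvv : B.ip v v = 0) (hκ : B.ip v w ≠ 0) :
    LinearMap.range ((qr B w γ k * qr B v β h).1.1 - 1) = Submodule.span E {w, v} := by
  have h1 := (wall_prod (qr B w γ k) (qr B v β h) (eg_disj h k hv hw hvv hκ) (fun _ : Fin 1 => w)
    (fun _ : Fin 1 => v) (wall_qr w hw γ k).1 (wall_qr v hv β h).1).1.2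
  rw [← h1]
  apply le_antisymm
  · rw [Submodule.span_le]
    rintro _ ⟨i, rfl⟩
    refine Fin.addCases (fun j => ?_) (fun j => ?_) i
    · rw [Fin.append_left]
      exact Submodule.subset_span (Set.mem_insert _ _)
    · rw [Fin.append_right]
      exact Submodule.subset_span (Set.mem_insert_of_mem _ rfl)
  · rw [Submodule.span_le]
    rintro x (rfl | hx)
    · exact Submodule.subset_span ⟨Fin.castAdd 1 0, by rw [Fin.append_left]⟩
    · rw [Set.mem_singleton_iff] at hx
      subst hx
      exact Submodule.subset_span ⟨Fin.natAdd 1 0, by rw [Fin.append_right]⟩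

private theorem eg_wall {v w : V} {β γ : E} (h : QRok B v β) (k : QRok B w γ) (hv : v ≠ 0)
    (hw : w ≠ 0) (hvv : B.ip v v = 0) (hκ : B.ip v w ≠ 0) (a b a' b' : E) :
    wall B (qr B w γ k * qr B v β h).1 (a • w + b • v) (a' • w + b' • v) =
      a * star a' * γ + b * star b' * β - b * star a' * B.ip v w := by
  have hw1 : w ∈ LinearMap.range ((qr B w γ k).1.1 - 1) := by
    rw [eg_range hw k]
    exact Submodule.mem_span_singleton_self w
  have hv1 : v ∈ LinearMap.range ((qr B v β h).1.1 - 1) := by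
    rw [eg_range hv h]
    exact Submodule.mem_span_singleton_self v
  have h1 := (wall_prod (qr B w γ k) (qr B v β h) (eg_disj h k hv hw hvv hκ) (fun _ : Fin 1 => w)
    (fun _ : Fin 1 => v) (wall_qr w hw γ k).1 (wall_qr v hv β h).1).2.2
    (a • w) (Submodule.smul_mem _ a hw1) (b • v) (Submodule.smul_mem _ b hv1)
    (a' • w) (Submodule.smul_mem _ a' hw1) (b' • v) (Submodule.smul_mem _ b' hv1)
  rw [h1, wall_smul_left _ _ hw1 (Submodule.smul_mem _ a' hw1), wall_smul_right _ _ hw1 hw1,
    wall_smul_left _ _ hv1 (Submodule.smul_mem _ b' hv1), wall_smul_right _ _ hv1 hv1,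
    (wall_qr w hw γ k).2, (wall_qr v hv β h).2, B.smul_left, B.smul_right]
  ring

private theorem eg_key {v w : V} {β γ : E} (h : QRok B v β) (k : QRok B w γ) (hβ : star β = β)
    (hv : v ≠ 0) (hw : w ≠ 0) (hvv : B.ip v v = 0) (hκ : B.ip v w ≠ 0) (b : E)
    (hW1 : γ + b * star b * β - b * B.ip v w ≠ 0) :
    LinearIndependent E ![(1 : E) • w + b • v, (star b * β) • w + (-star (γ - b * B.ip v w)) • v] ∧
    LinearMap.range ((qr B w γ k * qr B v β h).1.1 - 1) =
      Submodule.span E {(1 : E) • w + b • v, (star b * β) • w + (-star (γ - b * B.ip v w)) • v} ∧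
    wall B (qr B w γ k * qr B v β h).1 ((1 : E) • w + b • v) ((1 : E) • w + b • v) ≠ 0 ∧
    wall B (qr B w γ k * qr B v β h).1 ((1 : E) • w + b • v)
      ((star b * β) • w + (-star (γ - b * B.ip v w)) • v) = 0 := by
  set p : E := star b * β with hp
  set q : E := -star (γ - b * B.ip v w) with hq
  have hD : q - b * p ≠ 0 := by
    have h1 : q - b * p = -star (γ + b * star b * β - b * B.ip v w) := by
      rw [hq, hp]
      simp only [star_sub, star_add, star_mul', star_star, hβ]
      ring
    rw [h1]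
    exact neg_ne_zero.2 (star_ne_zero.2 hW1)
  refine ⟨?_, ?_, ?_, ?_⟩
  · rw [LinearIndependent.pair_iff]
    intro s t hst
    have h1 : (s + t * p) • w + (s * b + t * q) • v = 0 := by
      rw [← hst]
      module
    obtain ⟨h2, h3⟩ := eg_indep hvv hκ h1
    have h4 : t * (q - b * p) = 0 := by linear_combination h3 - b * h2
    have ht : t = 0 := by
      rcases mul_eq_zero.1 h4 with h5 | h5
      · exact h5
      · exact absurd h5 hD
    rw [ht, zero_mul, add_zero] at h2
    exact ⟨h2, ht⟩
  · rw [eg_mem h k hv hw hvv hκ]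
    apply le_antisymm
    · rw [Submodule.span_le]
      have hv' : v ∈ Submodule.span E {(1 : E) • w + b • v, p • w + q • v} := by
        rw [Submodule.mem_span_pair]
        refine ⟨-(p * (q - b * p)⁻¹), (q - b * p)⁻¹, ?_⟩
        have h1 : -(p * (q - b * p)⁻¹) • ((1 : E) • w + b • v) + (q - b * p)⁻¹ • (p • w + q • v) =
            ((q - b * p)⁻¹ * (q - b * p)) • v := by
          module
        rw [h1, inv_mul_cancel₀ hD, one_smul]
      have hw' : w ∈ Submodule.span E {(1 : E) • w + b • v, p • w + q • v} := by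
        have h1 : ((1 : E) • w + b • v) - b • v = w := by
          module
        have h2 := Submodule.sub_mem _ (Submodule.subset_span (R := E)
          (Set.mem_insert ((1 : E) • w + b • v) {p • w + q • v})) (Submodule.smul_mem _ b hv')
        rwa [h1] at h2
      rintro x (rfl | hx)
      · exact hw'
      · rw [Set.mem_singleton_iff] at hx
        subst hx
        exact hv'
    · rw [Submodule.span_le]
      have hmem : ∀ s t : E, s • w + t • v ∈ Submodule.span E {w, v} := by
        intro s t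
        exact Submodule.mem_span_pair.2 ⟨s, t, rfl⟩
      rintro x (rfl | hx)
      · exact hmem 1 b
      · rw [Set.mem_singleton_iff] at hx
        subst hx
        exact hmem p q
  · rw [eg_wall h k hv hw hvv hκ]
    intro h0
    apply hW1
    rw [star_one] at h0
    linear_combination h0
  · rw [eg_wall h k hv hw hvv hκ, hp, hq]
    simp only [star_neg, star_mul', star_star, hβ]
    ring

omit [Module.Finite E V] in
private theorem eg_ip {v w : V} (hvv : B.ip v v = 0) (p q : E) :
    B.ip (p • w + q • v) (p • w + q • v) =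
      p * star p * B.ip w w + q * star p * B.ip v w - p * star q * star (B.ip v w) := by
  rw [B.add_left, B.add_right, B.add_right, B.smul_left, B.smul_left, B.smul_left, B.smul_left,
    B.smul_right, B.smul_right, B.smul_right, B.smul_right, hvv, B.skew v w]
  ring

end EgPriv

variable {F E : Type u} [NontriviallyNormedField F] [IsUltrametricDist F] [ProperSpace F]
  [CharP F 2] [NontriviallyNormedField E] [NormedAlgebra F E] [ProperSpace E] [StarRing E]
  [QExt F E] [Dl E] [MeasurableSpace E] [BorelSpace E]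
variable {V : Type u} [AddCommGroup V] [Module E V] [Module.Finite E V] [TopologicalSpace V]
  [IsTopologicalAddGroup V] [T2Space V] [ContinuousSMul E V]

variable (F) in
include F in
theorem ew_transv {B : SkewH E V} (v : V) (hv : v ≠ 0) (hvv : B.ip v v = 0) (β : E)
    (h : QRok B v β) : qr B v β h ∈ Subgroup.closure (ewAn B) := by
  have hβ0 := h.1
  have hβ : star β = β := by
    have h1 := h.2
    rw [hvv] at h1
    exact sub_eq_zero.1 h1
  -- the vector w
  obtain ⟨w, hww, hκ⟩ : ∃ w : V, B.ip w w ≠ 0 ∧ B.ip v w ≠ 0 := by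
    have h1 : ∃ u, B.ip v u ≠ 0 := by
      by_contra hcon
      push Not at hcon
      exact hv (B.nondeg v hcon)
    obtain ⟨u, hu⟩ := h1
    by_cases huu : B.ip u u = 0
    · obtain ⟨y, hy⟩ := QExt.nontriv (F := F) (E := E)
      refine ⟨(1 : E) • u + (y * (B.ip v u)⁻¹) • v, ?_, ?_⟩
      · rw [eg_ip hvv, huu]
        have h2 : (1 : E) * star (1 : E) * 0 + y * (B.ip v u)⁻¹ * star (1 : E) * B.ip v u -
            1 * star (y * (B.ip v u)⁻¹) * star (B.ip v u) = y - star y := by
          have h3 : star (y * (B.ip v u)⁻¹) * star (B.ip v u) = star y := by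
            rw [← star_mul', mul_assoc, inv_mul_cancel₀ hu, mul_one]
          rw [star_one]
          linear_combination y * (inv_mul_cancel₀ hu) - h3
        rw [h2]
        intro h4
        exact hy (sub_eq_zero.1 h4).symm
      · rw [B.add_right, B.smul_right, B.smul_right, hvv, star_one, one_mul, mul_zero, add_zero]
        exact hu
    · exact ⟨u, huu, hu⟩
  have hw : w ≠ 0 := by
    rintro rfl
    apply hww
    have h1 := B.smul_left 0 (0 : V) 0
    rw [zero_smul, zero_mul] at h1
    exact h1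
  have hd : (Dl.d : E) ≠ 0 := by
    intro h0
    have h1 := Dl.add_star (E := E)
    rw [h0, star_zero, add_zero] at h1
    exact zero_ne_one h1
  have hsa : star (B.ip w w) = -B.ip w w := by
    have h1 := B.skew w w
    linear_combination h1
  have k : QRok B w (-(Dl.d * B.ip w w)) := by
    refine ⟨neg_ne_zero.2 (mul_ne_zero hd hww), ?_⟩
    rw [star_neg, star_mul', hsa]
    linear_combination (B.ip w w) * Dl.add_star (E := E)
  set γ : E := -(Dl.d * B.ip w w) with hγ
  have hγ0 : γ ≠ 0 := k.1
  obtain ⟨e0, he0⟩ := QExt.nontriv (F := F) (E := E)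
  have hκs : star (B.ip v w) ≠ 0 := star_ne_zero.2 hκ
  -- the choice of t
  set b0 : E := star (e0 * (γ * star (B.ip v w))⁻¹) with hb0
  have hb0s : star b0 * γ * star (B.ip v w) = e0 := by
    rw [hb0, star_star]
    field_simp
  obtain ⟨t, ht0, ht1, ht2, ht3⟩ : ∃ t : F, t ≠ 0 ∧
      γ + algebraMap F E t * (algebraMap F E t * (b0 * star b0 * β) - b0 * B.ip v w) ≠ 0 ∧
      B.ip w w + algebraMap F E t * (b0 * B.ip v w - star (b0 * B.ip v w)) ≠ 0 ∧
      algebraMap F E t * (b0 * star b0 * β ^ 2 * B.ip w w) + β * (e0 - star e0) ≠ 0 := by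
    have hc : Continuous (fun t : F => algebraMap F E t) := continuous_algebraMap F E
    have e1 : ∀ᶠ t : F in nhds 0,
        γ + algebraMap F E t * (algebraMap F E t * (b0 * star b0 * β) - b0 * B.ip v w) ≠ 0 := by
      have h1 : Continuous (fun t : F => γ + algebraMap F E t *
          (algebraMap F E t * (b0 * star b0 * β) - b0 * B.ip v w)) :=
        continuous_const.add (hc.mul ((hc.mul continuous_const).sub continuous_const))
      refine h1.continuousAt.eventually_ne ?_
      rw [map_zero, zero_mul, add_zero]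
      exact hγ0
    have e2 : ∀ᶠ t : F in nhds 0,
        B.ip w w + algebraMap F E t * (b0 * B.ip v w - star (b0 * B.ip v w)) ≠ 0 := by
      have h1 : Continuous (fun t : F => B.ip w w + algebraMap F E t *
          (b0 * B.ip v w - star (b0 * B.ip v w))) :=
        continuous_const.add (hc.mul continuous_const)
      refine h1.continuousAt.eventually_ne ?_
      rw [map_zero, zero_mul, add_zero]
      exact hww
    have e3 : ∀ᶠ t : F in nhds 0,
        algebraMap F E t * (b0 * star b0 * β ^ 2 * B.ip w w) + β * (e0 - star e0) ≠ 0 := by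
      have h1 : Continuous (fun t : F => algebraMap F E t * (b0 * star b0 * β ^ 2 * B.ip w w) +
          β * (e0 - star e0)) :=
        (hc.mul continuous_const).add continuous_const
      refine h1.continuousAt.eventually_ne ?_
      rw [map_zero, zero_mul, zero_add]
      refine mul_ne_zero hβ0 ?_
      intro h4
      exact he0 (sub_eq_zero.1 h4).symm
    have e4 : ∀ᶠ t : F in nhdsWithin 0 {(0 : F)}ᶜ, t ≠ 0 := self_mem_nhdsWithin
    obtain ⟨t, h1, h2⟩ := (e4.and ((e1.and (e2.and e3)).filter_mono nhdsWithin_le_nhds)).exists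
    exact ⟨t, h1, h2.1, h2.2.1, h2.2.2⟩
  have hts : star (algebraMap F E t) = algebraMap F E t := QExt.star_alg t
  have htE : algebraMap F E t ≠ 0 := by
    rwa [Ne, map_eq_zero_iff _ (algebraMap F E).injective]
  set τ : E := algebraMap F E t with hτ
  have hW1 : γ + (τ * b0) * star (τ * b0) * β - (τ * b0) * B.ip v w ≠ 0 := by
    intro h0
    apply ht1
    rw [star_mul', hts] at h0
    linear_combination h0
  obtain ⟨l1, l2, l3, l4⟩ := eg_key h k hβ hv hw hvv hκ (τ * b0) hW1
  obtain ⟨k1, k2, hg⟩ := ew_rank_two (qr B w γ k * qr B v β h) _ _ l1 l2 l3 l4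
  have hA0 : qr B w γ k ∈ Subgroup.closure (ewAn B) :=
    Subgroup.subset_closure ⟨w, γ, k, hww, rfl⟩
  have hA1 : qr B ((1 : E) • w + (τ * b0) • v) _ k1 ∈ Subgroup.closure (ewAn B) := by
    refine Subgroup.subset_closure ⟨_, _, k1, ?_, rfl⟩
    rw [eg_ip hvv]
    intro h0
    apply ht2
    rw [star_one, star_mul', hts] at h0
    rw [star_mul']
    linear_combination h0
  have hA2 : qr B ((star (τ * b0) * β) • w + (-star (γ - (τ * b0) * B.ip v w)) • v) _ k2 ∈
      Subgroup.closure (ewAn B) := by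
    refine Subgroup.subset_closure ⟨_, _, k2, ?_, rfl⟩
    rw [eg_ip hvv]
    intro h0
    apply mul_ne_zero htE ht3
    have hb0s' : b0 * star γ * B.ip v w = star e0 := by
      rw [← hb0s, star_mul', star_mul', star_star, star_star]
    simp only [star_mul', star_sub, star_neg, star_star, hts, hβ] at h0
    rw [← hb0s', ← hb0s]
    linear_combination h0
  have h5 : qr B v β h = (qr B w γ k)⁻¹ * (qr B w γ k * qr B v β h) := by
    rw [inv_mul_cancel_left]
  rw [h5, hg]
  exact Subgroup.mul_mem _ (Subgroup.inv_mem _ hA0) (Subgroup.mul_mem _ hA1 hA2)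

variable (F) in
include F in
theorem ewAn_closure (B : SkewH E V) : Subgroup.closure (ewAn B) = ⊤ := by
  have h1 := qr_closure B ⟨Dl.d, Dl.add_star (E := E)⟩
  rw [eq_top_iff, ← h1, Subgroup.closure_le]
  rintro g ⟨v, β, h, hv, rfl⟩
  by_cases hvv : B.ip v v = 0
  · exact ew_transv F v hv hvv β h
  · exact Subgroup.subset_closure ⟨v, β, h, hvv, rfl⟩

end

end Pool.Agent.Work.MP_dd0ddf_al.C2
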