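import Pool.Agent.Work.MP_dd0ddf_al.C2.EwDefs

/-!
# MP_dd0ddf_al (characteristic 2), module EwIndep: independence of the basis, disjoint products

`ewn_of_h`: for `z ≠ 0` let `c' = nE F z` (`alg_nE : algebraMap F E (nE F z) = z * star z`), `IsNorm F E c'`.  `kap_norm F E p 1 c'`: `κ(nform (1 c')) = hmod(mulT F c') κ(nform 1)` (`kap_ext` to
replace `1 * c'` by `c'`), `hmod_mulE`: `hmod (mulT E z) = hmod (mulT F c')`.  `H.hG c'`, `H.hG 1` (`ewmu_one`): `A μ(c') m hmod κ(1) = 1 = A m κ(1)`, so `μ(c') hmod(z) = 1`.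
`ewl_eq`: `rbasis_change` gives `r = ewr h` (substitute), `rbasis_mat` a matrix `P` with `b = P (ewb h)` or the other way, `Mop_change`, `wall_det_change` (`det W(b') = det P * star (det P) * det W(b)`),
`ewmu_mul` and `hμ (det P)`.
`ewl_one`: `b : Fin 0 → V` is a basis of `R_1 = 0` (`LinearMap.range (1 - 1) = ⊥`); `ewc = 1` (`Matrix.det_fin_zero`, ewmu_one); `Mop_apply`: an integral over `Fin 0 → E` (`Measure.pi_of_empty`, `integral_dirac`),
`ψ(0) = 1`, `L_0 = id` (lop_zero).
`ewl_disj`: `b = ewb g`, `b' = ewb h`; `wall_prod` (basis and determinant), `Mop_prod`, `ewl_eq` for `g * h` with the basis `Fin.append b b'`; `A^(r+s) = A^r A^s`, ewmu_mul.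
(`ewmu_congr` is useful when a determinant is rewritten.)
-/

set_option linter.unusedSectionVars false
set_option linter.style.haveILetI false

namespace Pool.Agent.Work.MP_dd0ddf_al.C2

noncomputable section

universe u

variable {F E : Type u} [NontriviallyNormedField F] [IsUltrametricDist F] [ProperSpace F]
  [CharP F 2] [NontriviallyNormedField E] [NormedAlgebra F E] [ProperSpace E] [StarRing E]
  [QExt F E] [Dl E] [MeasurableSpace E] [BorelSpace E]
variable {V : Type u} [AddCommGroup V] [Module E V] [Module.Finite E V] [TopologicalSpace V]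
  [IsTopologicalAddGroup V] [T2Space V] [ContinuousSMul E V]

theorem ewn_of_h [FiniteDimensional F E] [LocallyCompactSpace E] [TotallyDisconnectedSpace E]
    {p : PChar F} {A : ℂ} {μ : Eˣ →* ℂˣ} {m : ℝ} (H : EwH p A μ m) : EwN μ := by
  haveI : TotallyDisconnectedSpace F := inferInstance
  intro z hz
  have hzz : z * star z ≠ 0 := mul_ne_zero hz (star_ne_zero.2 hz)
  have hc' : nE F z ≠ 0 := by
    intro h0
    apply hzz
    rw [← alg_nE F z, h0, map_zero]
  have hN : IsNorm F E (nE F z) := ⟨z, hz, (alg_nE F z).symm⟩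
  have k1 := kap_norm F E p 1 (nE F z) one_ne_zero hc' hN
  have k2 : kap (nform F E (1 * nE F z) (mul_ne_zero one_ne_zero hc')) p =
      kap (nform F E (nE F z) hc') p := by
    refine kap_ext _ _ p fun v => ?_
    show 1 * nE F z * nE F v = nE F z * nE F v
    ring
  have hm := hmod_mulE F E z hz (nE F z) hc' (alg_nE F z).symm
  have g1 := H.hG (nE F z) hc'
  have g0 := H.hG 1 one_ne_zero
  have hE : algebraMap F E (nE F z) ≠ 0 := by
    rw [alg_nE]
    exact hzz
  have hE1 : algebraMap F E 1 ≠ 0 := by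
    rw [map_one]
    exact one_ne_zero
  have e1 : ewmu μ (algebraMap F E 1) hE1 = 1 :=
    (ewmu_congr μ (map_one _) hE1 one_ne_zero).trans (ewmu_one μ)
  have e2 : ewmu μ (z * star z) hzz = ewmu μ (algebraMap F E (nE F z)) hE :=
    ewmu_congr μ (alg_nE F z).symm _ _
  rw [← k2, k1] at g1
  rw [e1] at g0
  rw [e2, hm]
  linear_combination g1 - (ewmu μ (algebraMap F E (nE F z)) hE *
    (hmod (mulT F (nE F z) hc') : ℂ)) * g0

theorem ewl_eq [LocallyCompactSpace E] [TotallyDisconnectedSpace E] (B : SkewH E V) (p : PChar F)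
    (A : ℂ) {μ : Eˣ →* ℂˣ} (hμ : EwN μ) (h : UU B) {r : ℕ} (b : Fin r → V)
    (hb : IsRBasis h.1 b) : ewl B p A μ h = ewc A μ h b hb • Mop B p h b hb := by
  have hr : r = ewr h := rbasis_change h b (ewb h) hb (ewb_spec h)
  subst hr
  obtain ⟨P, hP, hbb⟩ := rbasis_mat h (ewb h) b (ewb_spec h) hb
  have h1 := Mop_change B p h (ewb h) b (ewb_spec h) hb P hP hbb
  have h2 := wall_det_change h (ewb h) b (ewb_spec h) P hbb
  unfold ewl
  rw [h1, smul_smul]
  congr 1
  unfold ewc
  have h3 : ewmu μ (wallM B h.1 b).det (wall_det h b hb) =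
      ewmu μ (P.det * star P.det) (mul_ne_zero hP (star_ne_zero.2 hP)) *
        ewmu μ (wallM B h.1 (ewb h)).det (wall_det h (ewb h) (ewb_spec h)) := by
    rw [← ewmu_mul]
    exact ewmu_congr μ h2 _ _
  rw [h3]
  have h4 := hμ P.det hP
  linear_combination (-(A ^ ewr h *
    ewmu μ (wallM B h.1 (ewb h)).det (wall_det h (ewb h) (ewb_spec h)))) * h4

theorem ewl_one [LocallyCompactSpace E] [TotallyDisconnectedSpace E] (B : SkewH E V) (p : PChar F)
    (A : ℂ) {μ : Eˣ →* ℂˣ} (hμ : EwN μ) : ewl B p A μ 1 = 1 := by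
  have hb : IsRBasis (1 : UU B).1 (fun i : Fin 0 => (i.elim0 : V)) := by
    refine ⟨linearIndependent_empty_type, ?_⟩
    have h1 : LinearMap.range ((1 : UU B).1.1 - 1) = ⊥ := by
      have h2 : ((1 : UU B).1.1 - 1 : Module.End E V) = 0 := sub_self _
      rw [h2, LinearMap.range_zero]
    rw [h1]
    simp
  rw [ewl_eq B p A hμ 1 _ hb]
  have h1 : ewc A μ (1 : UU B) _ hb = 1 := by
    unfold ewc
    rw [pow_zero, one_mul]
    exact (ewmu_congr μ Matrix.det_fin_zero _ one_ne_zero).trans (ewmu_one μ)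
  have h2 : Mop B p (1 : UU B) _ hb = 1 := by
    apply LinearMap.ext
    intro f
    apply SF.ext
    intro v
    rw [Mop_apply, MeasureTheory.Measure.pi_of_empty, MeasureTheory.integral_dirac]
    have hψ : p.ψ 0 = 1 := by
      have h3 := p.add 0 0
      rw [add_zero] at h3
      have h4 : p.ψ 0 ≠ 0 := by
        intro h0
        have h5 := p.norm_one 0
        rw [h0, norm_zero] at h5
        exact zero_ne_one h5
      have h6 : p.ψ 0 * (p.ψ 0 - 1) = 0 := by linear_combination -h3
      rcases mul_eq_zero.1 h6 with h7 | h7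
      · exact absurd h7 h4
      · exact sub_eq_zero.1 h7
    rw [Finset.univ_eq_empty, Finset.sum_empty, Finset.sum_empty, mul_zero, map_zero, hψ, one_mul,
      lop_zero]
    rfl
  rw [h1, h2, one_smul]

theorem ewl_disj [LocallyCompactSpace E] [TotallyDisconnectedSpace E] (B : SkewH E V)
    (p : PChar F) (A : ℂ) {μ : Eˣ →* ℂˣ} (hμ : EwN μ) (g h : UU B)
    (hd : Disjoint (LinearMap.range (g.1.1 - 1)) (LinearMap.range (h.1.1 - 1))) :
    ewl B p A μ (g * h) = ewl B p A μ g * ewl B p A μ h := by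
  have hw := wall_prod g h hd (ewb g) (ewb h) (ewb_spec g) (ewb_spec h)
  rw [ewl_eq B p A hμ (g * h) _ hw.1,
    Mop_prod B p g h hd (ewb g) (ewb h) (ewb_spec g) (ewb_spec h) hw.1]
  have h1 : ewc A μ (g * h) (Fin.append (ewb g) (ewb h)) hw.1 =
      ewc A μ g (ewb g) (ewb_spec g) * ewc A μ h (ewb h) (ewb_spec h) := by
    unfold ewc
    have h2 : ewmu μ (wallM B (g * h).1 (Fin.append (ewb g) (ewb h))).det
        (wall_det (g * h) _ hw.1) =
        ewmu μ (wallM B g.1 (ewb g)).det (wall_det g (ewb g) (ewb_spec g)) *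
          ewmu μ (wallM B h.1 (ewb h)).det (wall_det h (ewb h) (ewb_spec h)) := by
      rw [← ewmu_mul]
      exact ewmu_congr μ hw.2.1 _ _
    rw [h2, pow_add]
    ring
  rw [h1]
  unfold ewl
  rw [smul_mul_smul_comm]
  rfl

end

end Pool.Agent.Work.MP_dd0ddf_al.C2
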