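import Pool.Agent.Work.MP_dd0ddf_al.C2.EwLine

/-!
# MP_dd0ddf_al (characteristic 2), module EwLeft: left multiplication by an anisotropic quasi-reflection

`s = qr w γ`, `⟨w,w⟩ ≠ 0`; `R_s = span{w}` (wall_qr.1).  CASE 1: `w ∉ R_h`: `span{w}` and `R_h` are disjoint (a nonzero multiple of w in R_h gives w ∈ R_h): ewl_disj.
CASE 2: `w ∈ R_h`.  `β' := wall h w w ≠ 0`: otherwise wall_conj gives `⟨w,w⟩ = 0`.  `s' := qr w β' (wall_qrok h ..)`, `h1 := s'⁻¹ * h`; wall_split: `R_{h1} ⊓ span{w} = ⊥`.  `R_{s'} = span{w}`: ewl_disj: `ewl h = ewl (s' * h1) = ewl s' *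
ewl h1`.  `R_{s*s'} ≤ span{w}` (each of s, s' moves a vector by a multiple of w), so ewl_disj: `ewl (s * h) = ewl ((s*s') * h1) = ewl (s*s') * ewl h1`, and `ewl (s*s') = ewl s * ewl s'` by ewl_line.
-/

set_option linter.unusedSectionVars false
set_option linter.style.haveILetI false

namespace Pool.Agent.Work.MP_dd0ddf_al.C2

noncomputable section

universe u

variable {F E : Type u} [NontriviallyNormedField F] [IsUltrametricDist F] [ProperSpace F]
  [CharP F 2] [NontriviallyNormedField E] [NormedAlgebra F E] [ProperSpace E] [StarRing E]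
  [QExt F E] [Dl E] [MeasurableSpace E] [BorelSpace E]
variable {V : Type u} [AddCommGroup V] [Module E V] [Module.Finite E V] [TopologicalSpace V]
  [IsTopologicalAddGroup V] [T2Space V] [ContinuousSMul E V]

private theorem ewleft_qr_range {B : SkewH E V} (w : V) (γ : E) (h : QRok B w γ) :
    LinearMap.range ((qr B w γ h).1.1 - 1) ≤ Submodule.span E {w} := by
  rintro _ ⟨x, rfl⟩
  show (qr B w γ h).1.1 x - x ∈ _
  rw [qr_apply, add_sub_cancel_left]
  exact Submodule.smul_mem _ _ (Submodule.mem_span_singleton_self w)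

private theorem ewleft_mul_range {B : SkewH E V} (w : V) (g h : UU B)
    (hg : LinearMap.range (g.1.1 - 1) ≤ Submodule.span E {w})
    (hh : LinearMap.range (h.1.1 - 1) ≤ Submodule.span E {w}) :
    LinearMap.range ((g * h).1.1 - 1) ≤ Submodule.span E {w} := by
  rintro _ ⟨x, rfl⟩
  show g.1.1 (h.1.1 x) - x ∈ _
  have h1 : g.1.1 (h.1.1 x) - x = (g.1.1 - 1) (h.1.1 x) + (h.1.1 - 1) x := by
    show _ = (g.1.1 (h.1.1 x) - h.1.1 x) + (h.1.1 x - x)
    abel
  rw [h1]
  exact Submodule.add_mem _ (hg ⟨_, rfl⟩) (hh ⟨_, rfl⟩)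

theorem ewl_left [FiniteDimensional F E] [LocallyCompactSpace E] [TotallyDisconnectedSpace E]
    {B : SkewH E V} {p : PChar F} {A : ℂ} {μ : Eˣ →* ℂˣ} {m : ℝ} (H : EwH p A μ m) {s : UU B}
    (hs : s ∈ ewAn B) (h : UU B) :
    ewl B p A μ (s * h) = ewl B p A μ s * ewl B p A μ h := by
  obtain ⟨w, γ, hok, hw, rfl⟩ := hs
  have hμ : EwN μ := ewn_of_h H
  by_cases hR : w ∈ LinearMap.range (h.1.1 - 1)
  · have hb : wall B h.1 w w ≠ 0 := by
      intro h0
      have h1 := wall_conj h hR hR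
      rw [h0, star_zero, sub_zero] at h1
      exact hw h1.symm
    have hsp := (wall_split h hR hb).1
    set s' := qr B w (wall B h.1 w w) (wall_qrok h hR hb) with hs'
    set h1 := s'⁻¹ * h with hh1
    have e1 : h = s' * h1 := by rw [hh1, mul_inv_cancel_left]
    have hdj : ∀ g : UU B, LinearMap.range (g.1.1 - 1) ≤ Submodule.span E {w} →
        Disjoint (LinearMap.range (g.1.1 - 1)) (LinearMap.range (h1.1.1 - 1)) := by
      intro g hg
      rw [disjoint_iff, eq_bot_iff, ← hsp]
      exact le_inf inf_le_right (inf_le_left.trans hg)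
    have e2 : ewl B p A μ h = ewl B p A μ s' * ewl B p A μ h1 := by
      conv_lhs => rw [e1]
      exact ewl_disj B p A hμ s' h1 (hdj s' (ewleft_qr_range w _ _))
    have e3 : ewl B p A μ (qr B w γ hok * h) =
        ewl B p A μ (qr B w γ hok * s') * ewl B p A μ h1 := by
      conv_lhs => rw [e1, ← mul_assoc]
      exact ewl_disj B p A hμ (qr B w γ hok * s') h1
        (hdj _ (ewleft_mul_range w _ _ (ewleft_qr_range w _ _) (ewleft_qr_range w _ _)))
    rw [e3, e2, ewl_line H w hw hok (wall_qrok h hR hb), mul_assoc]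
  · refine ewl_disj B p A hμ _ h ?_
    refine Disjoint.mono_left (ewleft_qr_range w γ hok) ?_
    rw [disjoint_iff, eq_bot_iff]
    rintro y ⟨hy1, hy2⟩
    obtain ⟨c, rfl⟩ := Submodule.mem_span_singleton.1 hy1
    by_cases hc : c = 0
    · rw [Submodule.mem_bot, hc, zero_smul]
    · exact absurd ((Submodule.smul_mem_iff _ hc).1 hy2) hR

end

end Pool.Agent.Work.MP_dd0ddf_al.C2
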