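import Pool.Agent.Work.MP_dd0ddf_al.C2.EwIndep
import Pool.Agent.Work.MP_dd0ddf_al.C2.EwGauss

/-!
# MP_dd0ddf_al (characteristic 2), module EwLine: multiplicativity on an anisotropic line

`haveI := ...` for the instances; `hμ := ewn_of_h H`.  `w ≠ 0` because `⟨w,w⟩ ≠ 0`.  For a quasi-reflection `ewl (qr w γ) = (A * ewmu μ γ) • M` (ewl_eq with the basis `fun _ : Fin 1 => w`, wall_qr: the matrix is (γ),
`Matrix.det_fin_one`).
CASE 1: `star γ + γ' ≠ 0`.  It is fixed by star (`star γ - γ = ⟨w,w⟩ = star γ' - γ'`, `star_star`), so `= algebraMap F E c`, c ≠ 0 (fixed_of_star).  `ew_qr_mul`, `ew_gauss` (m ≠ 0 from `H.hG 1`):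
`ewl s * ewl s' = A^2 μ(γ) μ(γ') m κ(c) M_{s''}`, `ewl s'' = A μ(γγ'/c) M_{s''}`, `μ(γ)μ(γ') = μ(γγ'/c) μ(c)` (ewmu_mul, ewmu_congr), `A μ(c) m κ(c) = 1` (H.hG).
CASE 2: `star γ + γ' = 0`.  Then `s s' = 1` (the bracket in ew_qr_mul is 0; or: `γ' = - star γ`, qr_mul_inv).  `ewl s * ewl s'` is an intertwining operator for `s * s' = 1`, as is the identity: `ewi_scalar`:
`ewl s * ewl s' = κ • 1`.  `star γ + γ = ⟨w,w⟩ + 2γ = ⟨w,w⟩ ≠ 0` (characteristic 2), so by case 1 `ewl (s*s) = ewl s * ewl s` and `s * s = qr w γ2`, `γ2 = γγ/(star γ + γ)`.  `star γ2 + γ' ≠ 0`: otherwise (as before) `(s*s)*s' = 1`,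
but it is `s ≠ 1` (`R_s = span{w} ≠ 0`, or s = 1 gives ⟨a,w⟩ = 0 for all a).  Case 1 for (γ2, γ'): `ewl s = ewl ((s*s)*s') = ewl(s*s) * ewl s' = ewl s * (ewl s * ewl s') = κ • ewl s`, so κ = 1 (ewl_ne).
Conclusion `ewl (s*s') = ewl 1 = 1` (ewl_one).
-/

set_option linter.unusedSectionVars false
set_option linter.style.haveILetI false

namespace Pool.Agent.Work.MP_dd0ddf_al.C2

noncomputable section

universe u

variable {F E : Type u} [NontriviallyNormedField F] [IsUltrametricDist F] [ProperSpace F]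
  [CharP F 2] [NontriviallyNormedField E] [NormedAlgebra F E] [ProperSpace E] [StarRing E]
  [QExt F E] [Dl E] [MeasurableSpace E] [BorelSpace E]
variable {V : Type u} [AddCommGroup V] [Module E V] [Module.Finite E V] [TopologicalSpace V]
  [IsTopologicalAddGroup V] [T2Space V] [ContinuousSMul E V]

private theorem ewln_eq [LocallyCompactSpace E] [TotallyDisconnectedSpace E] {B : SkewH E V}
    (p : PChar F) (A : ℂ) {μ : Eˣ →* ℂˣ} (hμ : EwN μ) {w : V} (hw : w ≠ 0) {γ : E}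
    (h : QRok B w γ) : ewl B p A μ (qr B w γ h) =
      (A * ewmu μ γ h.1) • Mop B p (qr B w γ h) (fun _ : Fin 1 => w) (wall_qr w hw γ h).1 := by
  rw [ewl_eq B p A hμ _ _ (wall_qr w hw γ h).1]
  congr 1
  unfold ewc
  rw [pow_one]
  congr 1
  apply ewmu_congr
  rw [Matrix.det_fin_one]
  exact (wall_qr w hw γ h).2

private theorem ewln_w {B : SkewH E V} {w : V} (hw : B.ip w w ≠ 0) : w ≠ 0 := by
  intro h0
  apply hw
  rw [h0]
  have h1 := B.smul_left (0 : E) (0 : V) (0 : V)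
  rwa [zero_smul, zero_mul] at h1

private theorem ewln_a [FiniteDimensional F E] [LocallyCompactSpace E] [TotallyDisconnectedSpace E]
    {B : SkewH E V} {p : PChar F} {A : ℂ} {μ : Eˣ →* ℂˣ} {m : ℝ} (H : EwH p A μ m) (w : V)
    (hw : B.ip w w ≠ 0) {γ γ' : E} (h : QRok B w γ) (h' : QRok B w γ') (hne : star γ + γ' ≠ 0) :
    ewl B p A μ (qr B w γ h * qr B w γ' h') =
      ewl B p A μ (qr B w γ h) * ewl B p A μ (qr B w γ' h') := by
  have hμ := ewn_of_h H
  have hw0 := ewln_w hw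
  have hst : star (star γ + γ') = star γ + γ' := by
    rw [star_add, star_star]
    linear_combination h'.2 - h.2
  obtain ⟨c, hc⟩ := fixed_of_star F E (star γ + γ') hst
  have hc0 : c ≠ 0 := by
    intro h0
    rw [h0, map_zero] at hc
    exact hne hc
  have hcE : algebraMap F E c ≠ 0 := by
    rwa [Ne, map_eq_zero_iff _ (algebraMap F E).injective]
  have hm0 : m ≠ 0 := by
    intro h0
    have h1 := H.hG 1 one_ne_zero
    rw [h0, Complex.ofReal_zero, mul_zero, zero_mul] at h1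
    exact zero_ne_one h1
  obtain ⟨h'', hmul⟩ := ew_qr_mul w γ γ' (algebraMap F E c) h h' hcE hc.symm
  have G := ew_gauss (p := p) w hw0 γ γ' h h' c hc0 hc.symm h'' m hm0 H.hm
  rw [hmul, ewln_eq p A hμ hw0 h'', ewln_eq p A hμ hw0 h, ewln_eq p A hμ hw0 h',
    smul_mul_smul_comm]
  change _ = (A * ewmu μ γ h.1 * (A * ewmu μ γ' h'.1)) •
    (Mop B p (qr B w γ h) (fun _ : Fin 1 => w) (wall_qr w hw0 γ h).1 ∘ₗ
        Mop B p (qr B w γ' h') (fun _ : Fin 1 => w) (wall_qr w hw0 γ' h').1)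
  rw [G, smul_smul]
  congr 1
  have hG := H.hG c hc0
  have e : ewmu μ γ h.1 * ewmu μ γ' h'.1 =
      ewmu μ (γ * γ' / algebraMap F E c) h''.1 * ewmu μ (algebraMap F E c) hcE := by
    rw [← ewmu_mul, ← ewmu_mul]
    exact ewmu_congr μ (div_mul_cancel₀ _ hcE).symm _ _
  calc A * ewmu μ (γ * γ' / algebraMap F E c) h''.1
      = A * ewmu μ (γ * γ' / algebraMap F E c) h''.1 *
        (A * ewmu μ (algebraMap F E c) hcE * m * kap (nform F E c hc0) p) := by
        rw [hG, mul_one]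
    _ = A * (ewmu μ (γ * γ' / algebraMap F E c) h''.1 * ewmu μ (algebraMap F E c) hcE) *
        (A * (m * kap (nform F E c hc0) p)) := by ring
    _ = _ := by
        rw [← e]
        ring

private theorem ewln_one {B : SkewH E V} {w : V} {γ γ' : E} (h : QRok B w γ) (h' : QRok B w γ')
    (he : star γ + γ' = 0) : qr B w γ h * qr B w γ' h' = 1 := by
  apply Subtype.ext
  apply Units.ext
  apply LinearMap.ext
  intro a
  show (qr B w γ h).1.1 ((qr B w γ' h').1.1 a) = a
  rw [qr_apply, qr_apply, B.add_left, B.smul_left, add_assoc, ← add_smul]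
  have h1 := h.1
  have hg : γ' = - star γ := by linear_combination he
  have hs : star γ ≠ 0 := star_ne_zero.2 h1
  have hcoef : γ'⁻¹ * B.ip a w + γ⁻¹ * (B.ip a w + γ'⁻¹ * B.ip a w * B.ip w w) = 0 := by
    rw [← h.2, hg]
    field_simp
    ring
  rw [hcoef, zero_smul, add_zero]

theorem ewl_line [FiniteDimensional F E] [LocallyCompactSpace E] [TotallyDisconnectedSpace E]
    {B : SkewH E V} {p : PChar F} {A : ℂ} {μ : Eˣ →* ℂˣ} {m : ℝ} (H : EwH p A μ m) (w : V)
    (hw : B.ip w w ≠ 0) {γ γ' : E} (h : QRok B w γ) (h' : QRok B w γ') :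
    ewl B p A μ (qr B w γ h * qr B w γ' h') =
      ewl B p A μ (qr B w γ h) * ewl B p A μ (qr B w γ' h') := by
  by_cases hne : star γ + γ' = 0
  swap
  · exact ewln_a H w hw h h' hne
  haveI : CharP E 2 := charP_of_injective_algebraMap (algebraMap F E).injective 2
  have hμ := ewn_of_h H
  have hw0 := ewln_w hw
  have h1 := ewln_one h h' hne
  have hc2 : star γ + γ ≠ 0 := by
    have h3 : star γ + γ = B.ip w w := by
      rw [← h.2, CharTwo.sub_eq_add]
    rw [h3]
    exact hw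
  have h2 := ewln_a H w hw h h hc2
  obtain ⟨h3, hmul⟩ := ew_qr_mul w γ γ (star γ + γ) h h hc2 rfl
  have hs1 : qr B w γ h ≠ 1 := by
    intro h0
    have h4 : (qr B w γ h).1.1 w = w := by
      rw [h0]
      rfl
    rw [qr_apply, add_eq_left, smul_eq_zero] at h4
    rcases h4 with h4 | h4
    · exact mul_ne_zero (inv_ne_zero h.1) hw h4
    · exact hw0 h4
  have hne2 : star (γ * γ / (star γ + γ)) + γ' ≠ 0 := by
    intro h0
    have h4 := ewln_one h3 h' h0
    rw [← hmul, mul_assoc, h1, mul_one] at h4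
    exact hs1 h4
  have h5 := ewln_a H w hw h3 h' hne2
  rw [← hmul, mul_assoc, h1, mul_one, h2, mul_assoc] at h5
  obtain ⟨κ, hκ⟩ := ewi_scalar ((ewi_ewl B p A μ (qr B w γ h)).comp
    (ewi_ewl B p A μ (qr B w γ' h'))) (ewi_ewl B p A μ (qr B w γ h * qr B w γ' h'))
    (ewl_ne B p H.A0 μ _)
  rw [h1, ewl_one B p A hμ] at hκ
  have hκ' : ewl B p A μ (qr B w γ h) * ewl B p A μ (qr B w γ' h') = κ • 1 := hκ
  rw [hκ', mul_smul_comm, mul_one] at h5
  have h6 : κ = 1 := by
    by_contra hk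
    apply ewl_ne B p H.A0 μ (qr B w γ h)
    apply LinearMap.ext
    intro f
    have h7 : ewl B p A μ (qr B w γ h) f = κ • ewl B p A μ (qr B w γ h) f :=
      congrArg (fun T : Module.End ℂ (SF V ℂ) => T f) h5
    apply Subtype.ext
    funext v
    have h8 : ewl B p A μ (qr B w γ h) f v = κ * ewl B p A μ (qr B w γ h) f v :=
      congrArg (fun T : SF V ℂ => T v) h7
    have h9 : (1 - κ) * ewl B p A μ (qr B w γ h) f v = 0 := by linear_combination h8
    exact (mul_eq_zero.1 h9).resolve_left (sub_ne_zero.2 (Ne.symm hk))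
  rw [h1, ewl_one B p A hμ, hκ', h6, one_smul]

end

end Pool.Agent.Work.MP_dd0ddf_al.C2
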