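import Pool.Agent.Work.MP_dd0ddf_al.C2.EwLeft
import Pool.Agent.Work.MP_dd0ddf_al.C2.EwGen

/-!
# MP_dd0ddf_al (characteristic 2), module EwMul: multiplicativity

`Subgroup.closure_induction` for `g ∈ closure (ewAn B) = ⊤` (ewAn_closure F B) and the property `P g := ∀ h, ewl (g * h) = ewl g * ewl h`: generators: ewl_left; one: ewl_one; product: `ewl (g g' h) = ewl g * ewl (g' h) = ewl g * (ewl g' * ewl h)`
and `ewl (g g') = ewl g * ewl g'`; inverse: `ewl g` is injective (ewi_bij, ewi_ewl, ewl_ne), `ewl g * (ewl g⁻¹ * ewl h) = ewl (g * g⁻¹) * ewl h = ewl h = ewl (g * (g⁻¹ * h)) = ewl g * ewl (g⁻¹ * h)`.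
-/

set_option linter.unusedSectionVars false
set_option linter.style.haveILetI false

namespace Pool.Agent.Work.MP_dd0ddf_al.C2

noncomputable section

universe u

variable {F E : Type u} [NontriviallyNormedField F] [IsUltrametricDist F] [ProperSpace F]
  [CharP F 2] [NontriviallyNormedField E] [NormedAlgebra F E] [ProperSpace E] [StarRing E]
  [QExt F E] [Dl E] [MeasurableSpace E] [BorelSpace E]
variable {V : Type u} [AddCommGroup V] [Module E V] [Module.Finite E V] [TopologicalSpace V]
  [IsTopologicalAddGroup V] [T2Space V] [ContinuousSMul E V]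

theorem ewl_mul [FiniteDimensional F E] [LocallyCompactSpace E] [TotallyDisconnectedSpace E]
    {B : SkewH E V} {p : PChar F} {A : ℂ} {μ : Eˣ →* ℂˣ} {m : ℝ} (H : EwH p A μ m) (g h : UU B) :
    ewl B p A μ (g * h) = ewl B p A μ g * ewl B p A μ h := by
  have hμ : EwN μ := ewn_of_h H
  have hg : g ∈ Subgroup.closure (ewAn B) := by
    rw [ewAn_closure F B]
    exact Subgroup.mem_top g
  have key : ∀ h : UU B, ewl B p A μ (g * h) = ewl B p A μ g * ewl B p A μ h := by
    induction hg using Subgroup.closure_induction with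
    | mem x hx => exact fun h => ewl_left H hx h
    | one =>
      intro h
      rw [one_mul, ewl_one B p A hμ, one_mul]
    | mul x y _ _ hx hy =>
      intro h
      rw [mul_assoc, hx, hy, hx y, mul_assoc]
    | inv x _ hx =>
      intro h
      have hinj := (ewi_bij (ewi_ewl B p A μ x) (ewl_ne B p H.A0 μ x)).1
      have h1 : ewl B p A μ x * (ewl B p A μ x⁻¹ * ewl B p A μ h) =
          ewl B p A μ x * ewl B p A μ (x⁻¹ * h) := by
        rw [← mul_assoc, ← hx x⁻¹, ← hx, mul_inv_cancel, mul_inv_cancel_left, ewl_one B p A hμ,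
          one_mul]
      apply LinearMap.ext
      intro f
      apply hinj
      exact (congrArg (fun S : Module.End ℂ (SF V ℂ) => S f) h1).symm
  exact key h

end

end Pool.Agent.Work.MP_dd0ddf_al.C2
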