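import Pool.Agent.Work.MP_dd0ddf_al.C2.EwDefs

/-!
# MP_dd0ddf_al (characteristic 2), module EwRank: elements of rank two as products of two quasi-reflections

`k1 = wall_qrok g _ h11`.  `b = ![v1, v2]` is a basis of `R_g`, its Gram matrix is `[[W11, 0], [W21, W22]]`, `wall_det ≠ 0`, so `W22 ≠ 0`; `k2 = wall_qrok`.
`h1 := (qr v1 W11 k1)⁻¹ * g`.  wall_split: `y ∈ R_{h1} ↔ y ∈ R_g ∧ wall g v1 y = 0`; for `y = a v1 + b v2` (`Submodule.mem_span_pair`): `wall g v1 y = star a * W11 + star b * 0`, so `R_{h1} = span{v2}`.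
Apply wall_prod to `qr v1 * h1 = g` (disjoint ranges `span{v1}`, `span{v2}`) with `u = y = 0`, `u' = y' = v2`: `wall g v2 v2 = wall h1 v2 v2` (the other terms are 0).  `wall_determines`: `h1` and `qr v2 W22` have the same range `span{v2}` (wall_qr)
and the same Wall form on it (`wall (a v2) (b v2) = a star b W22`, wall_smul_left/right, wall_qr.2).  So `h1 = qr v2 W22`, `g = qr v1 * h1`.
-/

set_option linter.unusedSectionVars false
set_option linter.style.haveILetI false

namespace Pool.Agent.Work.MP_dd0ddf_al.C2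

noncomputable section

universe u

variable {F E : Type u} [NontriviallyNormedField F] [IsUltrametricDist F] [ProperSpace F]
  [CharP F 2] [NontriviallyNormedField E] [NormedAlgebra F E] [ProperSpace E] [StarRing E]
  [QExt F E] [Dl E] [MeasurableSpace E] [BorelSpace E]
variable {V : Type u} [AddCommGroup V] [Module E V] [Module.Finite E V] [TopologicalSpace V]
  [IsTopologicalAddGroup V] [T2Space V] [ContinuousSMul E V]

theorem ew_rank_two {B : SkewH E V} (g : UU B) (v1 v2 : V)
    (h12 : LinearIndependent E ![v1, v2])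
    (hR : LinearMap.range (g.1.1 - 1) = Submodule.span E {v1, v2})
    (h11 : wall B g.1 v1 v1 ≠ 0) (h0 : wall B g.1 v1 v2 = 0) :
    ∃ (k1 : QRok B v1 (wall B g.1 v1 v1)) (k2 : QRok B v2 (wall B g.1 v2 v2)),
      g = qr B v1 _ k1 * qr B v2 _ k2 := by
  have hv1 : v1 ∈ LinearMap.range (g.1.1 - 1) := by
    rw [hR]
    exact Submodule.subset_span (Set.mem_insert _ _)
  have hv2 : v2 ∈ LinearMap.range (g.1.1 - 1) := by
    rw [hR]
    exact Submodule.subset_span (Set.mem_insert_of_mem _ (Set.mem_singleton _))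
  have hv20 : v2 ≠ 0 := h12.ne_zero 1
  have hv10 : v1 ≠ 0 := h12.ne_zero 0
  have hb : IsRBasis g.1 ![v1, v2] := by
    refine ⟨h12, ?_⟩
    rw [hR]
    congr 1
    simp [Matrix.range_cons, Matrix.range_empty, Set.pair_comm]
  have hdet := wall_det g ![v1, v2] hb
  have h22 : wall B g.1 v2 v2 ≠ 0 := by
    intro h
    apply hdet
    rw [Matrix.det_fin_two]
    show wall B g.1 v1 v1 * wall B g.1 v2 v2 - wall B g.1 v1 v2 * wall B g.1 v2 v1 = 0
    rw [h, h0, mul_zero, zero_mul, sub_zero]
  refine ⟨wall_qrok g hv1 h11, wall_qrok g hv2 h22, ?_⟩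
  obtain ⟨hs1, hs2⟩ := wall_split g hv1 h11
  have hq1 := wall_qr v1 hv10 _ (wall_qrok g hv1 h11)
  have hq2 := wall_qr v2 hv20 _ (wall_qrok g hv2 h22)
  set q1 : UU B := qr B v1 _ (wall_qrok g hv1 h11) with hq1d
  set q2 : UU B := qr B v2 _ (wall_qrok g hv2 h22) with hq2d
  set h1 : UU B := q1⁻¹ * g with hh1
  have hr1 : LinearMap.range (q1.1.1 - 1) = Submodule.span E {v1} := by
    rw [← hq1.1.2, Set.range_const]
  have hr2 : LinearMap.range (q2.1.1 - 1) = Submodule.span E {v2} := by
    rw [← hq2.1.2, Set.range_const]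
  have hrh : LinearMap.range (h1.1.1 - 1) = Submodule.span E {v2} := by
    ext y
    rw [hs2 y]
    constructor
    · rintro ⟨hy1, hy2⟩
      rw [hR] at hy1
      obtain ⟨a, b, rfl⟩ := Submodule.mem_span_pair.1 hy1
      rw [wall_add_right g hv1 (Submodule.smul_mem _ a hv1) (Submodule.smul_mem _ b hv2),
        wall_smul_right g a hv1 hv1, wall_smul_right g b hv1 hv2, h0, mul_zero, add_zero] at hy2
      have h3 := (mul_eq_zero.1 hy2).resolve_right h11
      have h4 : a = 0 := by rw [← star_star a, h3, star_zero]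
      rw [h4, zero_smul, zero_add]
      exact Submodule.smul_mem _ _ (Submodule.mem_span_singleton_self v2)
    · intro hy
      obtain ⟨b, rfl⟩ := Submodule.mem_span_singleton.1 hy
      refine ⟨Submodule.smul_mem _ _ hv2, ?_⟩
      rw [wall_smul_right g b hv1 hv2, h0, mul_zero]
  have hbh : IsRBasis h1.1 (fun _ : Fin 1 => v2) := by
    refine ⟨hq2.1.1, ?_⟩
    rw [hrh, Set.range_const]
  have hdis : Disjoint (LinearMap.range (q1.1.1 - 1)) (LinearMap.range (h1.1.1 - 1)) := by
    rw [disjoint_iff, hr1, inf_comm]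
    exact hs1
  obtain ⟨-, -, hform⟩ := wall_prod q1 h1 hdis _ _ hq1.1 hbh
  have hgq : q1 * h1 = g := by
    rw [hh1, mul_inv_cancel_left]
  have hm2 : v2 ∈ LinearMap.range (h1.1.1 - 1) := by
    rw [hrh]
    exact Submodule.mem_span_singleton_self v2
  have h0m : (0 : V) ∈ LinearMap.range (q1.1.1 - 1) := Submodule.zero_mem _
  have hw22 : wall B h1.1 v2 v2 = wall B g.1 v2 v2 := by
    have h3 := hform 0 h0m v2 hm2 0 h0m v2 hm2
    have h4 : wall B q1.1 0 0 = 0 := by
      have := wall_smul_left q1 0 h0m h0m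
      rwa [zero_smul, zero_mul] at this
    have h5 : B.ip v2 0 = 0 := by
      have := B.smul_right 0 v2 0
      rwa [zero_smul, star_zero, zero_mul] at this
    rw [zero_add, hgq, h4, h5, zero_add, sub_zero] at h3
    exact h3.symm
  have hfin : h1 = q2 := by
    refine wall_determines h1 q2 (by rw [hrh, hr2]) ?_
    intro x hx y hy
    rw [hr2] at hx hy
    obtain ⟨a, rfl⟩ := Submodule.mem_span_singleton.1 hx
    obtain ⟨b, rfl⟩ := Submodule.mem_span_singleton.1 hy
    have hm2' : v2 ∈ LinearMap.range (q2.1.1 - 1) := by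
      rw [hr2]
      exact Submodule.mem_span_singleton_self v2
    rw [wall_smul_left h1 a hm2 (Submodule.smul_mem _ b hm2), wall_smul_right h1 b hm2 hm2,
      wall_smul_left q2 a hm2' (Submodule.smul_mem _ b hm2'), wall_smul_right q2 b hm2' hm2',
      hw22, hq2.2]
  rw [← hfin, hgq]

end

end Pool.Agent.Work.MP_dd0ddf_al.C2
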