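import Pool.Agent.Work.MP_dd0ddf_al.C2.EwDefs

/-!
# MP_dd0ddf_al (characteristic 2), module EwSch: Schur's lemma for intertwining operators

`ewi_bij`: let `N = ker T`.  `T (L_x f) = L_{g x} (T f)`, `T (R_x f) = R_x (T f)`, so `N` is stable under all `L_x`, `R_x`, hence (mod_eq, trans_eq of WfLR: modulations and
translations are scalar multiples of products of `L`'s and `R`'s) under modulations by `omBi B p` and translations; `spans_sf (omBi B p) (uc_V F E V)`: `N = ⊥` or `N = ⊤`; `N = ⊤` gives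
`T = 0`.  So `T` is injective.  The range: `L_x (T f) = T (L_{g⁻¹ x} f)`, so it is stable in the same way, and not `⊥`; so `T` is surjective.
`ewi_scalar`: let `S` be the inverse of the bijection `T'` (`LinearEquiv.ofBijective`); `S ∘ T` commutes with all `L_x` and `R_x` (`S L_{g x} = L_x S`, as `g` is bijective); `schur_lr`: `S ∘ T = c`.
-/

set_option linter.unusedSectionVars false
set_option linter.style.haveILetI false

namespace Pool.Agent.Work.MP_dd0ddf_al.C2

noncomputable section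

universe u

variable {F E : Type u} [NontriviallyNormedField F] [IsUltrametricDist F] [ProperSpace F]
  [CharP F 2] [NontriviallyNormedField E] [NormedAlgebra F E] [ProperSpace E] [StarRing E]
  [QExt F E] [Dl E] [MeasurableSpace E] [BorelSpace E]
variable {V : Type u} [AddCommGroup V] [Module E V] [Module.Finite E V] [TopologicalSpace V]
  [IsTopologicalAddGroup V] [T2Space V] [ContinuousSMul E V]

/-- a nonzero subspace stable under the Weyl operators is everything -/
private theorem ewsch_top (B : SkewH E V) (p : PChar F) (N : Submodule ℂ (SF V ℂ)) (hN : N ≠ ⊥)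
    (hL : ∀ x, ∀ f ∈ N, Lop B p x f ∈ N) (hR : ∀ x, ∀ f ∈ N, Rop B p x f ∈ N) : N = ⊤ := by
  haveI := lc_V E V
  haveI := td_V F E V
  have hm : ∀ w, ∀ f ∈ N, SF.mulc (fun v => (omBi B p).χ v w) ((omBi B p).lcl w) f ∈ N := by
    intro w f hf
    rw [mod_eq]
    exact N.smul_mem _ (hL _ _ (hR _ _ hf))
  refine spans_sf (omBi B p) (uc_V F E V) N hN (fun a f hf => ?_) hm
  rw [trans_eq (F := F) B p a f]
  exact N.smul_mem _ (hm _ _ (hL _ _ hf))

theorem ewi_bij {B : SkewH E V} {p : PChar F} {g : UU B} {T : SF V ℂ →ₗ[ℂ] SF V ℂ}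
    (h : EwI B p g T) (h0 : T ≠ 0) : Function.Bijective T := by
  have hL : ∀ x f, T (Lop B p x f) = Lop B p (g.1.1 x) (T f) := fun x f =>
    congrArg (fun S : SF V ℂ →ₗ[ℂ] SF V ℂ => S f) (h.1 x)
  have hR : ∀ x f, T (Rop B p x f) = Rop B p x (T f) := fun x f =>
    congrArg (fun S : SF V ℂ →ₗ[ℂ] SF V ℂ => S f) (h.2 x)
  have hmi : ∀ x, g.1.1 (g.1⁻¹.1 x) = x := fun x =>
    congrArg (fun f : Module.End E V => f x) g.1.mul_inv
  constructor
  · rw [← LinearMap.ker_eq_bot]
    by_contra hN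
    have h1 := ewsch_top B p (LinearMap.ker T) hN
      (fun x f hf => by
        rw [LinearMap.mem_ker] at hf ⊢
        rw [hL, hf, map_zero])
      (fun x f hf => by
        rw [LinearMap.mem_ker] at hf ⊢
        rw [hR, hf, map_zero])
    exact h0 (LinearMap.ker_eq_top.1 h1)
  · rw [← LinearMap.range_eq_top]
    refine ewsch_top B p (LinearMap.range T) (fun hN => h0 (LinearMap.range_eq_bot.1 hN)) ?_ ?_
    · rintro x _ ⟨f, rfl⟩
      refine ⟨Lop B p (g.1⁻¹.1 x) f, ?_⟩
      rw [hL, hmi]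
    · rintro x _ ⟨f, rfl⟩
      exact ⟨Rop B p x f, hR x f⟩

theorem ewi_scalar {B : SkewH E V} {p : PChar F} {g : UU B} {T T' : SF V ℂ →ₗ[ℂ] SF V ℂ}
    (h : EwI B p g T) (h' : EwI B p g T') (h0 : T' ≠ 0) : ∃ c : ℂ, T = c • T' := by
  have hL : ∀ x f, T (Lop B p x f) = Lop B p (g.1.1 x) (T f) := fun x f =>
    congrArg (fun S : SF V ℂ →ₗ[ℂ] SF V ℂ => S f) (h.1 x)
  have hR : ∀ x f, T (Rop B p x f) = Rop B p x (T f) := fun x f =>
    congrArg (fun S : SF V ℂ →ₗ[ℂ] SF V ℂ => S f) (h.2 x)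
  have hL' : ∀ x f, T' (Lop B p x f) = Lop B p (g.1.1 x) (T' f) := fun x f =>
    congrArg (fun S : SF V ℂ →ₗ[ℂ] SF V ℂ => S f) (h'.1 x)
  have hR' : ∀ x f, T' (Rop B p x f) = Rop B p x (T' f) := fun x f =>
    congrArg (fun S : SF V ℂ →ₗ[ℂ] SF V ℂ => S f) (h'.2 x)
  set e : SF V ℂ ≃ₗ[ℂ] SF V ℂ := LinearEquiv.ofBijective T' (ewi_bij h' h0) with he
  have he' : ∀ f, e f = T' f := fun f => rfl
  have hS : ∀ f, T' (e.symm f) = f := fun f => by rw [← he', e.apply_symm_apply]
  obtain ⟨c, hc⟩ := schur_lr B p ((e.symm : SF V ℂ →ₗ[ℂ] SF V ℂ) ∘ₗ T)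
    (fun x => LinearMap.ext fun f => by
      show e.symm (T (Lop B p x f)) = Lop B p x (e.symm (T f))
      rw [hL, LinearEquiv.symm_apply_eq, he', hL', hS])
    (fun x => LinearMap.ext fun f => by
      show e.symm (T (Rop B p x f)) = Rop B p x (e.symm (T f))
      rw [hR, LinearEquiv.symm_apply_eq, he', hR', hS])
  refine ⟨c, LinearMap.ext fun f => ?_⟩
  have h1 : e.symm (T f) = c • f := congrArg (fun S : SF V ℂ →ₗ[ℂ] SF V ℂ => S f) hc
  rw [LinearEquiv.symm_apply_eq, map_smul, he'] at h1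
  exact h1

end

end Pool.Agent.Work.MP_dd0ddf_al.C2
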