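import Pool.Agent.Work.MP_dd0ddf_al.C2.EwSmB
import Pool.Agent.Work.MP_dd0ddf_al.C2.EwMul

/-!
# MP_dd0ddf_al (characteristic 2), module EwSm: smoothness

(1) SUPPORT.  Let N be a compact open subgroup of V with `ψ(bt(x,y)) = 1` for x, y ∈ N, `f = 1_N`: `L_x f = f`, `R_x f = f` for x ∈ N.  Let T be an intertwining operator for g, `g⁻¹ x ∈ N` for x ∈ N.  Then for x ∈ N: `L_x (T f) = T (L_{g⁻¹x} f) = T f`,
`R_{-x} (T f) = T f`, and by lop_rop_neg `T f (v) = ψ(± om(x,v)) ψ(± bt(x,x)) T f (v)`; so `T f (v) ≠ 0` implies `ψ(om(x,v)) = 1` for all x ∈ N, i.e. v ∈ `C := {v | ∀ x ∈ N, (omBi B p).χ x v = 1}`, which is compact ((omBi B p).perp).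
(2) Let z from ew_exists_z, N from ew_lattice (z-stable) contained in a W with `ψ(bt(x,y)) = 1` for x, y ∈ W (bt_lc at (0,0)), `ζ = ewz B z hz`.  For k ∈ UU B near 1: `k x ∈ N`, `k⁻¹ x ∈ N` for x ∈ N (open conditions by compactness of N, continuous_end_eval; `k⁻¹ = adj B k`:
uu_adj, continuous_adj F B), so ζ k and ζ satisfy (1) (`(ζk)⁻¹ x = k⁻¹ (star z x)`), and by ewl_near (C compact; `ζ k → z • 1` for k → 1: left multiplication is continuous) `ewl (ζ * k) f = ewl ζ f` on C, both vanish outside.  So `ewl ζ (ewl k f) = ewl ζ f` (ewl_mul),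
`ewl k f = f` (ewi_bij).
(3) The set S of all f for which there is a U is a submodule of SF V ℂ, stable under L_x (`ewl h (L_x f) = L_{h x} (ewl h f) = L_{hx} f = L_x f` for h near 1: lop_lc, continuous_end_apply) and under R_x.  By mod_eq, trans_eq it is stable under
modulations and translations; it contains `1_N ≠ 0`; spans_sf (omBi B p) (uc_V F E V): S = ⊤.
-/

set_option linter.unusedSectionVars false
set_option linter.style.haveILetI false

namespace Pool.Agent.Work.MP_dd0ddf_al.C2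

noncomputable section

universe u

variable {F E : Type u} [NontriviallyNormedField F] [IsUltrametricDist F] [ProperSpace F]
  [CharP F 2] [NontriviallyNormedField E] [NormedAlgebra F E] [ProperSpace E] [StarRing E]
  [QExt F E] [Dl E] [MeasurableSpace E] [BorelSpace E]
variable {V : Type u} [AddCommGroup V] [Module E V] [Module.Finite E V] [TopologicalSpace V]
  [IsTopologicalAddGroup V] [T2Space V] [ContinuousSMul E V]

private theorem ewsm_psi_zero (p : PChar F) : p.ψ 0 = 1 := by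
  have h := psi_neg_mul p 0
  rw [neg_zero] at h
  have h2 := p.add 0 0
  rw [add_zero, h] at h2
  exact h2

private theorem ewsm_W (B : SkewH E V) (p : PChar F) : ∃ W : Set V, IsOpen W ∧ (0 : V) ∈ W ∧
    ∀ x ∈ W, ∀ y ∈ W, p.ψ (bt F B x y) = 1 := by
  have h := (IsLocallyConstant.iff_eventually_eq _).mp (bt_lc B p) (0, 0)
  obtain ⟨u, v, hu, h0u, hv, h0v, huv⟩ := mem_nhds_prod_iff'.1 h
  refine ⟨u ∩ v, hu.inter hv, ⟨h0u, h0v⟩, fun x hx y hy => ?_⟩
  have h1 : p.ψ (bt F B x y) = p.ψ (bt F B 0 0) := huv (Set.mk_mem_prod hx.1 hy.2)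
  rw [h1, bt_zero_left, ewsm_psi_zero]

/-- (1): the support -/
private theorem ewsm_supp (B : SkewH E V) (p : PChar F) (N : AddSubgroup V)
    (hNo : IsOpen (N : Set V)) (hNc : IsCompact (N : Set V))
    (hψ : ∀ x ∈ N, ∀ y ∈ N, p.ψ (bt F B x y) = 1) {g : UU B} {T : SF V ℂ →ₗ[ℂ] SF V ℂ}
    (hT : EwI B p g T) (hg : ∀ x ∈ N, g.1⁻¹.1 x ∈ N) (v : V)
    (hv : v ∉ {w | ∀ x ∈ N, (omBi B p).χ x w = 1}) :
    T (SF.single (N : Set V) hNc hNo 1) v = 0 := by
  by_contra hne
  apply hv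
  intro x hx
  set f : SF V ℂ := SF.single (N : Set V) hNc hNo 1 with hf
  have hL : ∀ y ∈ N, Lop B p y f = f := by
    intro y hy
    apply SF.ext
    intro w
    rw [lop_apply]
    by_cases hw : w ∈ N
    · have h1 : w - y ∈ N := N.sub_mem hw hy
      rw [hψ y hy _ h1, one_mul, hf, SF.single_apply_mem _ _ _ _ _ h1,
        SF.single_apply_mem _ _ _ _ _ hw]
    · have h1 : w - y ∉ N := fun h => hw (by
        have h2 := N.add_mem h hy
        rwa [sub_add_cancel] at h2)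
      rw [hf, SF.single_apply_not_mem _ _ _ _ _ h1, SF.single_apply_not_mem _ _ _ _ _ hw,
        mul_zero]
  have hR : ∀ y ∈ N, Rop B p y f = f := by
    intro y hy
    apply SF.ext
    intro w
    rw [rop_apply]
    by_cases hw : w ∈ N
    · have h1 : w - y ∈ N := N.sub_mem hw hy
      rw [hψ _ h1 y hy, one_mul, hf, SF.single_apply_mem _ _ _ _ _ h1,
        SF.single_apply_mem _ _ _ _ _ hw]
    · have h1 : w - y ∉ N := fun h => hw (by
        have h2 := N.add_mem h hy
        rwa [sub_add_cancel] at h2)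
      rw [hf, SF.single_apply_not_mem _ _ _ _ _ h1, SF.single_apply_not_mem _ _ _ _ _ hw,
        mul_zero]
  have hmi : g.1.1 (g.1⁻¹.1 x) = x := congrArg (fun f : Module.End E V => f x) g.1.mul_inv
  have h1 : Lop B p x (T f) = T f := by
    have h2 : T (Lop B p (g.1⁻¹.1 x) f) = Lop B p (g.1.1 (g.1⁻¹.1 x)) (T f) :=
      congrArg (fun S : SF V ℂ →ₗ[ℂ] SF V ℂ => S f) (hT.1 (g.1⁻¹.1 x))
    rw [hL _ (hg x hx), hmi] at h2
    exact h2.symm
  have h3 : Rop B p (-x) (T f) = T f := by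
    have h2 : T (Rop B p (-x) f) = Rop B p (-x) (T f) :=
      congrArg (fun S : SF V ℂ →ₗ[ℂ] SF V ℂ => S f) (hT.2 (-x))
    rw [hR _ (N.neg_mem hx)] at h2
    exact h2.symm
  have h4 := lop_rop_neg B p x (T f) v
  rw [h3, h1] at h4
  have h5 : p.ψ (om F B x v - bt F B x x) = 1 := by
    have h6 : p.ψ (om F B x v - bt F B x x) * T f v = 1 * T f v := by
      rw [one_mul]
      exact h4.symm
    exact mul_right_cancel₀ hne h6
  show p.ψ (om F B x v) = 1
  have h7 : om F B x v = (om F B x v - bt F B x x) + bt F B x x := by ring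
  rw [h7, p.add, h5, hψ x hx x hx, one_mul]

theorem ewl_smooth [FiniteDimensional F E] [LocallyCompactSpace E] [TotallyDisconnectedSpace E]
    {B : SkewH E V} {p : PChar F} {A : ℂ} {μ : Eˣ →* ℂˣ} {m : ℝ} (H : EwH p A μ m)
    (hμl : IsLocallyConstant (fun x : Eˣ => ((μ x : ℂˣ) : ℂ))) (f : SF V ℂ) :
    ∃ U : Set (Module.End E V), IsOpen U ∧ (1 : Module.End E V) ∈ U ∧
      ∀ h : UU B, h.1.1 ∈ U → ewl B p A μ h f = f := by
  haveI := lc_V E V
  haveI := td_V F E V
  obtain ⟨W, hW, h0W, hψW⟩ := ewsm_W (F := F) B p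
  obtain ⟨z, hz, hz1⟩ := ew_exists_z F E
  obtain ⟨N, hNo, hNc, hNW, hNz⟩ := ew_lattice F z hz W hW h0W
  have hψ : ∀ x ∈ N, ∀ y ∈ N, p.ψ (bt F B x y) = 1 := fun x hx y hy =>
    hψW x (hNW hx) y (hNW hy)
  have hC : IsCompact {w | ∀ x ∈ N, (omBi B p).χ x w = 1} := (omBi B p).perp N hNo
  set f0 : SF V ℂ := SF.single (N : Set V) hNc hNo 1 with hf0
  -- the case of the function `f0`
  have key : ∃ U : Set (Module.End E V), IsOpen U ∧ (1 : Module.End E V) ∈ U ∧
      ∀ h : UU B, h.1.1 ∈ U → ewl B p A μ h f0 = f0 := by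
    obtain ⟨U1, hU1, hzU1, hnear⟩ := ewl_near B p A (ewn_of_h H) hμl z hz hz1 f0 _ hC
    have e1 : ∀ᶠ k in nhds (1 : Module.End E V), ∀ x ∈ (N : Set V), k x ∈ N := by
      refine hNc.eventually_forall_of_forall_eventually ?_
      intro y hy
      have h1 : Filter.Tendsto (fun q : Module.End E V × V => q.1 q.2) (nhds (1, y)) (nhds y) :=
        continuous_end_eval.tendsto ((1 : Module.End E V), y)
      exact h1.eventually (hNo.mem_nhds hy)
    have hadj1 : adj B (1 : Module.End E V) = 1 := by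
      have h1 := uu_adj B (1 : UU B)
      simpa using h1
    have e2 : ∀ᶠ k in nhds (1 : Module.End E V), ∀ x ∈ (N : Set V), adj B k x ∈ N := by
      have h1 := (continuous_adj F B).tendsto (1 : Module.End E V)
      rw [hadj1] at h1
      exact h1.eventually e1
    have e3 : ∀ᶠ k in nhds (1 : Module.End E V), (z • 1 : Module.End E V) * k ∈ U1 := by
      have h1 : Filter.Tendsto (fun k : Module.End E V => (z • 1 : Module.End E V) * k) (nhds 1)
          (nhds ((z • 1 : Module.End E V) * 1)) :=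
        (continuous_const.mul continuous_id).tendsto _
      rw [mul_one] at h1
      exact h1.eventually (hU1.mem_nhds hzU1)
    obtain ⟨U, hU, hUo, hU1'⟩ := eventually_nhds_iff.1 (e2.and e3)
    refine ⟨U, hUo, hU1', fun h hh => ?_⟩
    obtain ⟨hadj, hmem⟩ := hU _ hh
    have hi : ∀ x ∈ N, h.1⁻¹.1 x ∈ N := by
      intro x hx
      rw [← uu_adj B h]
      exact hadj x hx
    set ζ := ewz B z hz with hζ
    have hζi : ∀ x, ζ.1⁻¹.1 x = star z • x := fun x => rfl
    have h1 : ewl B p A μ (ζ * h) f0 = ewl B p A μ ζ f0 := by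
      apply SF.ext
      intro v
      by_cases hv : v ∈ {w | ∀ x ∈ N, (omBi B p).χ x w = 1}
      · exact hnear (ζ * h) hmem v hv
      · have e4 : ewl B p A μ (ζ * h) f0 v = 0 := by
          refine ewsm_supp B p N hNo hNc hψ (ewi_ewl B p A μ (ζ * h)) (fun x hx => ?_) v hv
          have h2 : (ζ * h).1⁻¹.1 x = h.1⁻¹.1 (ζ.1⁻¹.1 x) := by
            have h3 : (ζ * h).1⁻¹ = h.1⁻¹ * ζ.1⁻¹ := mul_inv_rev ζ.1 h.1
            rw [h3]
            rfl
          rw [h2, hζi]
          exact hi _ (hNz x hx).2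
        have e5 : ewl B p A μ ζ f0 v = 0 := by
          refine ewsm_supp B p N hNo hNc hψ (ewi_ewl B p A μ ζ) (fun x hx => ?_) v hv
          rw [hζi]
          exact (hNz x hx).2
        rw [e4, e5]
    rw [ewl_mul H] at h1
    exact (ewi_bij (ewi_ewl B p A μ ζ) (ewl_ne B p H.A0 μ ζ)).1 h1
  -- the general case
  have hL : ∀ (h : UU B) (x : V) (f : SF V ℂ), ewl B p A μ h (Lop B p x f) =
      Lop B p (h.1.1 x) (ewl B p A μ h f) := fun h x f =>
    congrArg (fun S : SF V ℂ →ₗ[ℂ] SF V ℂ => S f) ((ewi_ewl B p A μ h).1 x)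
  have hR : ∀ (h : UU B) (x : V) (f : SF V ℂ), ewl B p A μ h (Rop B p x f) =
      Rop B p x (ewl B p A μ h f) := fun h x f =>
    congrArg (fun S : SF V ℂ →ₗ[ℂ] SF V ℂ => S f) ((ewi_ewl B p A μ h).2 x)
  let S : Submodule ℂ (SF V ℂ) :=
    { carrier := {f | ∃ U : Set (Module.End E V), IsOpen U ∧ (1 : Module.End E V) ∈ U ∧
        ∀ h : UU B, h.1.1 ∈ U → ewl B p A μ h f = f}
      add_mem' := by
        rintro a b ⟨U, hU, hU1, ha⟩ ⟨U', hU', hU1', hb⟩
        exact ⟨U ∩ U', hU.inter hU', ⟨hU1, hU1'⟩, fun h hh => by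
          rw [map_add, ha h hh.1, hb h hh.2]⟩
      zero_mem' := ⟨Set.univ, isOpen_univ, Set.mem_univ _, fun h _ => map_zero _⟩
      smul_mem' := by
        rintro c a ⟨U, hU, hU1, ha⟩
        exact ⟨U, hU, hU1, fun h hh => by rw [map_smul, ha h hh]⟩ }
  have hSL : ∀ (x : V) (f : SF V ℂ), f ∈ S → Lop B p x f ∈ S := by
    rintro x f ⟨U, hU, hU1, hf⟩
    have hev : ∀ᶠ y in nhds x, Lop B p y f = Lop B p x f :=
      (IsLocallyConstant.iff_eventually_eq _).mp (lop_lc B p f) x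
    obtain ⟨O, hO, hOo, hxO⟩ := eventually_nhds_iff.1 hev
    refine ⟨U ∩ (fun k : Module.End E V => k x) ⁻¹' O,
      hU.inter (hOo.preimage (continuous_end_apply x)), ⟨hU1, hxO⟩, fun h hh => ?_⟩
    rw [hL, hf h hh.1]
    exact hO _ hh.2
  have hSR : ∀ (x : V) (f : SF V ℂ), f ∈ S → Rop B p x f ∈ S := by
    rintro x f ⟨U, hU, hU1, hf⟩
    exact ⟨U, hU, hU1, fun h hh => by rw [hR, hf h hh]⟩
  have hSm : ∀ (w : V) (f : SF V ℂ), f ∈ S →
      SF.mulc (fun v => (omBi B p).χ v w) ((omBi B p).lcl w) f ∈ S := by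
    intro w f hf
    rw [mod_eq]
    exact S.smul_mem _ (hSL _ _ (hSR _ _ hf))
  have hS : S = ⊤ := by
    refine spans_sf (omBi B p) (uc_V F E V) S ?_ (fun a f hf => ?_) (fun w f hf => hSm w f hf)
    · intro hbot
      have h1 : f0 ∈ S := key
      rw [hbot, Submodule.mem_bot] at h1
      have h2 : f0 0 = 1 := SF.single_apply_mem _ _ _ _ _ N.zero_mem
      rw [h1] at h2
      exact zero_ne_one h2
    · rw [trans_eq (F := F) B p a f]
      exact S.smul_mem _ (hSm _ _ (hSL _ _ hf))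
  have hfS : f ∈ S := by
    rw [hS]
    exact Submodule.mem_top
  exact hfS

end

end Pool.Agent.Work.MP_dd0ddf_al.C2
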