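import Pool.Agent.Work.MP_dd0ddf_al.C2.EwIndep

/-!
# MP_dd0ddf_al (characteristic 2), module EwSmA: scalars, stable lattices, the formula for elements without fixed vectors

`ew_exists_z`: `z = x / star x` with `star x ≠ x` (QExt.nontriv).
`ew_lattice`: `‖z‖ = 1`: `‖star z‖ = ‖z‖` (norm_star_eq F E), `‖z‖^2 = 1`.  `E` is ultrametric (ult_E F).  With the coordinates `e = (Module.finBasis E V).equivFun` (a homeomorphism, toContinuousLinearEquiv): `N_R = {x : ∀ i, ‖e x i‖ ≤ R}` is an additive
subgroup, open and compact for R > 0, contained in W for R small, and stable under multiplication by scalars of norm ≤ 1.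
`ewl_formula`: with `a = Module.finBasis E V`, `b i = h a_i - a_i`: linearly independent since h - 1 is injective, `span = range (h - 1)`: IsRBasis.  `wall h (b i) (b j) = ⟨a i, b j⟩` (wall_eq h rfl), ewl_eq, Mop_apply; `∑ x_i b_i = h u - u`, `u = ∑ x_i a_i`;
the double sum is `wall h (h u - u) (h u - u) = ⟨u, h u - u⟩` (wfmdefs_wall and wall_eq).
-/

set_option linter.unusedSectionVars false
set_option linter.style.haveILetI false

namespace Pool.Agent.Work.MP_dd0ddf_al.C2

noncomputable section

universe u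

variable {F E : Type u} [NontriviallyNormedField F] [IsUltrametricDist F] [ProperSpace F]
  [CharP F 2] [NontriviallyNormedField E] [NormedAlgebra F E] [ProperSpace E] [StarRing E]
  [QExt F E] [Dl E] [MeasurableSpace E] [BorelSpace E]
variable {V : Type u} [AddCommGroup V] [Module E V] [Module.Finite E V] [TopologicalSpace V]
  [IsTopologicalAddGroup V] [T2Space V] [ContinuousSMul E V]

/-- multiplication by a scalar of norm one -/
def ewz (B : SkewH E V) (z : E) (hz : z * star z = 1) : UU B :=
  ⟨⟨z • 1, star z • 1, by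
      rw [smul_mul_smul_comm, mul_one, hz, one_smul], by
      rw [smul_mul_smul_comm, mul_one, mul_comm, hz, one_smul]⟩, fun v w => by
    show B.ip (z • v) (z • w) = B.ip v w
    rw [B.smul_left, B.smul_right, ← mul_assoc, hz, one_mul]⟩

theorem ewz_apply (B : SkewH E V) (z : E) (hz : z * star z = 1) (v : V) :
    (ewz B z hz).1.1 v = z • v := rfl

variable (F E) in
include F in
theorem ew_exists_z : ∃ z : E, z * star z = 1 ∧ z ≠ 1 := by
  obtain ⟨x, hx⟩ := QExt.nontriv (F := F) (E := E)
  have hx0 : x ≠ 0 := by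
    rintro rfl
    exact hx (star_zero E)
  have hs0 : star x ≠ 0 := star_ne_zero.2 hx0
  refine ⟨x / star x, ?_, ?_⟩
  · rw [star_div₀, star_star, div_mul_div_comm, mul_comm x, div_self (mul_ne_zero hs0 hx0)]
  · intro h
    rw [div_eq_one_iff_eq hs0] at h
    exact hx h.symm

variable (F) in
include F in
private theorem ew_norm (z : E) (hz : z * star z = 1) : ‖z‖ = 1 := by
  have h1 : ‖z‖ * ‖star z‖ = 1 := by rw [← norm_mul, hz, norm_one]
  rw [norm_star_eq F E] at h1
  nlinarith [norm_nonneg z]

variable (F) in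
include F in
theorem ew_lattice (z : E) (hz : z * star z = 1) (W : Set V) (hW : IsOpen W) (h0 : (0 : V) ∈ W) :
    ∃ N : AddSubgroup V, IsOpen (N : Set V) ∧ IsCompact (N : Set V) ∧ (N : Set V) ⊆ W ∧
      ∀ x ∈ N, z • x ∈ N ∧ star z • x ∈ N := by
  classical
  have hul : IsUltrametricDist E := ult_E F
  let e : V ≃L[E] (Fin (Module.finrank E V) → E) :=
    (Module.finBasis E V).equivFun.toContinuousLinearEquiv
  have h1 : IsOpen (e.symm ⁻¹' W) := hW.preimage e.symm.continuous
  have h2 : (0 : Fin (Module.finrank E V) → E) ∈ e.symm ⁻¹' W := by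
    rw [Set.mem_preimage, map_zero]
    exact h0
  obtain ⟨δ, hδ, hδW⟩ := Metric.isOpen_iff.1 h1 0 h2
  have hR : 0 < δ / 2 := half_pos hδ
  let N : AddSubgroup V :=
    { carrier := {x | ∀ i, ‖e x i‖ ≤ δ / 2}
      add_mem' := fun {x y} hx hy i => by
        rw [map_add, Pi.add_apply]
        exact (IsUltrametricDist.norm_add_le_max _ _).trans (max_le (hx i) (hy i))
      zero_mem' := fun i => by
        rw [map_zero, Pi.zero_apply, norm_zero]
        exact hR.le
      neg_mem' := fun {x} hx i => by
        rw [map_neg, Pi.neg_apply, norm_neg]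
        exact hx i }
  have hN : (N : Set V) = e ⁻¹' (Set.pi Set.univ fun _ => Metric.closedBall (0 : E) (δ / 2)) := by
    ext x
    simp only [Set.mem_preimage, Set.mem_pi, Set.mem_univ, true_imp_iff, mem_closedBall_zero_iff]
    rfl
  refine ⟨N, ?_, ?_, ?_, ?_⟩
  · rw [hN]
    exact (isOpen_set_pi Set.finite_univ fun _ _ =>
      IsUltrametricDist.isOpen_closedBall _ hR.ne').preimage e.continuous
  · rw [hN]
    exact e.toHomeomorph.isCompact_preimage.2 (isCompact_univ_pi fun _ => isCompact_closedBall _ _)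
  · intro x hx
    have h3 : e x ∈ Metric.ball (0 : Fin (Module.finrank E V) → E) δ := by
      rw [mem_ball_zero_iff]
      exact ((pi_norm_le_iff_of_nonneg hR.le).2 hx).trans_lt (half_lt_self hδ)
    have h4 := hδW h3
    rwa [Set.mem_preimage, ContinuousLinearEquiv.symm_apply_apply] at h4
  · have h5 : ∀ c : E, ‖c‖ = 1 → ∀ x ∈ N, c • x ∈ N := by
      intro c hc x hx i
      rw [map_smul, Pi.smul_apply, smul_eq_mul, norm_mul, hc, one_mul]
      exact hx i
    intro x hx
    exact ⟨h5 z (ew_norm F z hz) x hx,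
      h5 (star z) (by rw [norm_star_eq F E]; exact ew_norm F z hz) x hx⟩

/-- the Gram matrix `⟨a_i, (h - 1) a_j⟩` -/
def ewG (B : SkewH E V) (h : Module.End E V) : Matrix (Fin (Module.finrank E V))
    (Fin (Module.finrank E V)) E :=
  fun i j => B.ip (Module.finBasis E V i) (h (Module.finBasis E V j) - Module.finBasis E V j)

/-- the point with coordinates `x` -/
def ewu (x : Fin (Module.finrank E V) → E) : V := ∑ i, x i • Module.finBasis E V i

open MeasureTheory in
theorem ewl_formula [LocallyCompactSpace E] [TotallyDisconnectedSpace E] (B : SkewH E V)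
    (p : PChar F) (A : ℂ) {μ : Eˣ →* ℂˣ} (hμ : EwN μ) (h : UU B)
    (hinj : ∀ v, h.1.1 v = v → v = 0) : ∃ hd : (ewG B h.1.1).det ≠ 0, ∀ (f : SF V ℂ) (v : V),
      ewl B p A μ h f v = A ^ (Module.finrank E V) * ewmu μ (ewG B h.1.1).det hd *
        ∫ x : Fin (Module.finrank E V) → E,
          p.ψ (Algebra.trace F E (star Dl.d * B.ip (ewu x) (h.1.1 (ewu x) - ewu x))) *
            Lop B p (h.1.1 (ewu x) - ewu x) f v
              ∂(Measure.pi fun _ => (Measure.addHaar : Measure E)) := by
  classical
  let a := Module.finBasis E V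
  let b : Fin (Module.finrank E V) → V := fun i => h.1.1 (a i) - a i
  have hker : LinearMap.ker (h.1.1 - 1) = ⊥ := by
    rw [LinearMap.ker_eq_bot']
    intro v hv
    exact hinj v (sub_eq_zero.1 hv)
  have hb : IsRBasis h.1 b := by
    refine ⟨a.linearIndependent.map' (h.1.1 - 1) hker, ?_⟩
    have h1 : Set.range b = (h.1.1 - 1 : Module.End E V) '' Set.range a := by
      rw [← Set.range_comp]
      rfl
    rw [h1, ← Submodule.map_span, a.span_eq, LinearMap.range_eq_map]
  have hmem : ∀ u : V, h.1.1 u - u ∈ LinearMap.range (h.1.1 - 1) := fun u => ⟨u, rfl⟩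
  have hM : wallM B h.1 b = ewG B h.1.1 := by
    funext i j
    exact wall_eq h (a := a i) rfl (hmem (a j))
  have hd : (ewG B h.1.1).det ≠ 0 := by
    rw [← hM]
    exact wall_det h b hb
  refine ⟨hd, fun f v => ?_⟩
  rw [ewl_eq B p A hμ h b hb]
  have h2 : ewc A μ h b hb = A ^ (Module.finrank E V) * ewmu μ (ewG B h.1.1).det hd := by
    unfold ewc
    rw [ewmu_congr μ (congrArg Matrix.det hM) (wall_det h b hb) hd]
  have h3 : (ewc A μ h b hb • Mop B p h b hb) f v = ewc A μ h b hb * Mop B p h b hb f v := rfl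
  rw [h3, h2, Mop_apply]
  congr 1
  refine integral_congr_ae (Filter.Eventually.of_forall fun x => ?_)
  have h4 : ∑ i, x i • b i = h.1.1 (ewu x) - ewu x := by
    unfold ewu
    rw [map_sum, ← Finset.sum_sub_distrib]
    refine Finset.sum_congr rfl fun i _ => ?_
    rw [map_smul, ← smul_sub]
  have h5 : ∑ i, ∑ j, x i * star (x j) * wall B h.1 (b i) (b j) =
      B.ip (ewu x) (h.1.1 (ewu x) - ewu x) := by
    rw [← wall_eq h (a := ewu x) rfl (hmem (ewu x)), ← h4, wfmdefs_wall h b hb x x]
    rfl
  show p.ψ (Algebra.trace F E (star Dl.d * ∑ i, ∑ j, x i * star (x j) * wall B h.1 (b i) (b j))) *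
    Lop B p (∑ i, x i • b i) f v = _
  rw [h5, h4]

end

end Pool.Agent.Work.MP_dd0ddf_al.C2
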