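import Pool.Agent.Work.MP_dd0ddf_al.C2.EwSmA

/-!
# MP_dd0ddf_al (characteristic 2), module EwSmB: the operators near a scalar

Coordinates `e = (Module.finBasis E V).equivFun`, norm `‖u‖ = max ‖e u i‖` (or ‖e u‖, the sup norm), ultrametric (ult_E F).  For `h` near `z • 1` in `End_E(V)` (topology of pointwise convergence, V finite dimensional: conditions on the finitely many h a_j) one has
`‖(h - z) u‖ ≤ ε ‖u‖` for all u, with `ε < ‖z - 1‖`; so `‖(h - 1) u‖ = ‖(h - z) u + (z - 1) u‖ = ‖z - 1‖ ‖u‖`; in particular h u = u only for u = 0 (ewl_formula applies, also to `ewz B z hz`).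
Let ρ bound the norms on C and on the support of f.  If `v ∈ C` and the integrand at x is not zero for h (near z) or for z, then `f (v - (h-1)u) ≠ 0`, so `‖(h-1)u‖ ≤ ρ`, `‖u‖ ≤ ρ/‖z-1‖`: x is in a compact set D (ball) independent of h.  On
`D × C` the function `(h, x, v) ↦ ψ(Tr(star d ⟨u, (h-1)u⟩)) ψ(bt((h-1)u, v-(h-1)u)) f(v-(h-1)u)` is locally constant (composition of the locally constant ψ, f with maps continuous in (h, x, v): continuous_end_eval, continuous_ip..., bt_lc), so
(`IsCompact.eventually_forall_of_forall_eventually` for the compact set D × C) it has the same value for h and for z, when h is near z.  The scalar: `(ewG B h).det` is continuous in h, so by `hμl` (μ is locally constant on Eˣ; `Units.mk0`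
of a continuous nonvanishing function is continuous, or: the set {x ≠ 0 : μ(x) = μ(x0)} is open in E) it is eventually constant.
-/

set_option linter.unusedSectionVars false
set_option linter.style.haveILetI false

namespace Pool.Agent.Work.MP_dd0ddf_al.C2

noncomputable section

universe u

variable {F E : Type u} [NontriviallyNormedField F] [IsUltrametricDist F] [ProperSpace F]
  [CharP F 2] [NontriviallyNormedField E] [NormedAlgebra F E] [ProperSpace E] [StarRing E]
  [QExt F E] [Dl E] [MeasurableSpace E] [BorelSpace E]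
variable {V : Type u} [AddCommGroup V] [Module E V] [Module.Finite E V] [TopologicalSpace V]
  [IsTopologicalAddGroup V] [T2Space V] [ContinuousSMul E V]

/-- the integrand of the formula for `ewl` -/
private def sbI (B : SkewH E V) (p : PChar F) (f : SF V ℂ) (h : Module.End E V)
    (x : Fin (Module.finrank E V) → E) (v : V) : ℂ :=
  p.ψ (Algebra.trace F E (star Dl.d * B.ip (ewu x) (h (ewu x) - ewu x))) *
    Lop B p (h (ewu x) - ewu x) f v

omit [StarRing E] [MeasurableSpace E] [BorelSpace E] [ProperSpace E] [T2Space V] in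
private theorem sb_ewu_cont : Continuous (fun x : Fin (Module.finrank E V) → E => (ewu x : V)) := by
  unfold ewu
  exact continuous_finsetSum _ fun i _ => (continuous_apply i).smul continuous_const

private theorem sb_lc (B : SkewH E V) (p : PChar F) (f : SF V ℂ) :
    IsLocallyConstant (fun q : Module.End E V × (Fin (Module.finrank E V) → E) × V =>
      sbI B p f q.1 q.2.1 q.2.2) := by
  have hu : Continuous (fun q : Module.End E V × (Fin (Module.finrank E V) → E) × V =>
      (ewu q.2.1 : V)) := sb_ewu_cont.comp (continuous_fst.comp continuous_snd)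
  have hw : Continuous (fun q : Module.End E V × (Fin (Module.finrank E V) → E) × V =>
      q.1 (ewu q.2.1) - ewu q.2.1) :=
    (continuous_end_eval.comp (continuous_fst.prodMk hu)).sub hu
  have hv : Continuous (fun q : Module.End E V × (Fin (Module.finrank E V) → E) × V => q.2.2) :=
    continuous_snd.comp continuous_snd
  have h1 : IsLocallyConstant (fun q : Module.End E V × (Fin (Module.finrank E V) → E) × V =>
      (omBi B p).χ ((star Dl.d : E) • (ewu q.2.1 : V)) (q.1 (ewu q.2.1) - ewu q.2.1)) :=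
    (omBi B p).lc.comp_continuous ((hu.const_smul _).prodMk hw)
  have h2 : IsLocallyConstant (fun q : Module.End E V × (Fin (Module.finrank E V) → E) × V =>
      p.ψ (bt F B (q.1 (ewu q.2.1) - ewu q.2.1) (q.2.2 - (q.1 (ewu q.2.1) - ewu q.2.1)))) :=
    (bt_lc B p).comp_continuous (hw.prodMk (hv.sub hw))
  have h3 : IsLocallyConstant (fun q : Module.End E V × (Fin (Module.finrank E V) → E) × V =>
      f (q.2.2 - (q.1 (ewu q.2.1) - ewu q.2.1))) :=
    f.2.1.comp_continuous (hv.sub hw)
  have h4 := h1.mul (h2.mul h3)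
  have e : (fun q : Module.End E V × (Fin (Module.finrank E V) → E) × V =>
      sbI B p f q.1 q.2.1 q.2.2) = (fun q : Module.End E V × (Fin (Module.finrank E V) → E) × V =>
      (omBi B p).χ ((star Dl.d : E) • (ewu q.2.1 : V)) (q.1 (ewu q.2.1) - ewu q.2.1)) *
      ((fun q : Module.End E V × (Fin (Module.finrank E V) → E) × V =>
      p.ψ (bt F B (q.1 (ewu q.2.1) - ewu q.2.1) (q.2.2 - (q.1 (ewu q.2.1) - ewu q.2.1)))) *
      (fun q : Module.End E V × (Fin (Module.finrank E V) → E) × V =>
      f (q.2.2 - (q.1 (ewu q.2.1) - ewu q.2.1)))) := by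
    funext q
    show p.ψ (Algebra.trace F E (star Dl.d * B.ip (ewu q.2.1) (q.1 (ewu q.2.1) - ewu q.2.1))) *
      Lop B p (q.1 (ewu q.2.1) - ewu q.2.1) f q.2.2 =
      p.ψ (Algebra.trace F E (B.ip ((star Dl.d : E) • (ewu q.2.1 : V))
        (q.1 (ewu q.2.1) - ewu q.2.1))) *
      (p.ψ (bt F B (q.1 (ewu q.2.1) - ewu q.2.1) (q.2.2 - (q.1 (ewu q.2.1) - ewu q.2.1))) *
        f (q.2.2 - (q.1 (ewu q.2.1) - ewu q.2.1)))
    rw [B.smul_left, lop_apply]
  rw [e]
  exact h4

omit [StarRing E] [MeasurableSpace E] [BorelSpace E] in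
private theorem sb_low (z : E) (h : Module.End E V)
    (hs : ∑ j, ‖(Module.finBasis E V).equivFun
      (h (Module.finBasis E V j) - z • Module.finBasis E V j)‖ < ‖z - 1‖ / 2)
    (x : Fin (Module.finrank E V) → E) :
    ‖z - 1‖ / 2 * ‖x‖ ≤ ‖(Module.finBasis E V).equivFun (h (ewu x) - ewu x)‖ := by
  set e := (Module.finBasis E V).equivFun with he
  have hex : e (ewu x) = x := by
    have h1 : (ewu x : V) = e.symm x := by
      rw [he, Module.Basis.equivFun_symm_apply]
      rfl
    rw [h1, LinearEquiv.apply_symm_apply]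
  have h1 : h (ewu x) - z • (ewu x : V) =
      ∑ j, x j • (h (Module.finBasis E V j) - z • Module.finBasis E V j) := by
    unfold ewu
    rw [map_sum, Finset.smul_sum, ← Finset.sum_sub_distrib]
    refine Finset.sum_congr rfl fun j _ => ?_
    rw [map_smul, smul_sub, smul_comm z (x j)]
  have h2 : ‖e (h (ewu x) - z • (ewu x : V))‖ ≤ ‖z - 1‖ / 2 * ‖x‖ := by
    rw [h1, map_sum]
    refine (norm_sum_le _ _).trans ?_
    have h3 : ∀ j ∈ Finset.univ, ‖e (x j • (h (Module.finBasis E V j) -
        z • Module.finBasis E V j))‖ ≤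
        ‖e (h (Module.finBasis E V j) - z • Module.finBasis E V j)‖ * ‖x‖ := by
      intro j _
      rw [map_smul, norm_smul, mul_comm]
      exact mul_le_mul_of_nonneg_left (norm_le_pi_norm x j) (norm_nonneg _)
    refine (Finset.sum_le_sum h3).trans ?_
    rw [← Finset.sum_mul]
    exact mul_le_mul_of_nonneg_right hs.le (norm_nonneg _)
  have h4 : e (h (ewu x) - ewu x) = e (h (ewu x) - z • (ewu x : V)) + (z - 1) • x := by
    have h5 : h (ewu x) - ewu x = (h (ewu x) - z • (ewu x : V)) + (z - 1) • (ewu x : V) := by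
      rw [sub_smul, one_smul]
      abel
    rw [h5, map_add, map_smul, hex]
  have h6 : ‖(z - 1) • x‖ ≤ ‖e (h (ewu x) - ewu x)‖ + ‖e (h (ewu x) - z • (ewu x : V))‖ := by
    have h7 : (z - 1) • x = e (h (ewu x) - ewu x) - e (h (ewu x) - z • (ewu x : V)) := by
      rw [h4]
      abel
    rw [h7]
    exact norm_sub_le _ _
  rw [norm_smul] at h6
  linarith

private theorem sb_mu {μ : Eˣ →* ℂˣ}
    (hμl : IsLocallyConstant (fun x : Eˣ => ((μ x : ℂˣ) : ℂ))) {y : E} (hy : y ≠ 0) :
    ∀ᶠ y' in nhds y, ∀ hy' : y' ≠ 0, ewmu μ y' hy' = ewmu μ y hy := by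
  have h1 := (IsLocallyConstant.iff_eventually_eq _).mp hμl (Units.mk0 y hy)
  have h2 : Filter.map (Units.val : Eˣ → E) (nhds (Units.mk0 y hy)) = nhds y :=
    Units.isOpenEmbedding_val.map_nhds_eq _
  rw [← h2, Filter.eventually_map]
  filter_upwards [h1] with u hu hy'
  unfold ewmu
  have h3 : Units.mk0 (u : E) hy' = u := Units.ext rfl
  rw [h3]
  exact hu

theorem ewl_near [LocallyCompactSpace E] [TotallyDisconnectedSpace E] (B : SkewH E V)
    (p : PChar F) (A : ℂ) {μ : Eˣ →* ℂˣ} (hμ : EwN μ)
    (hμl : IsLocallyConstant (fun x : Eˣ => ((μ x : ℂˣ) : ℂ))) (z : E) (hz : z * star z = 1)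
    (hz1 : z ≠ 1) (f : SF V ℂ) (C : Set V) (hC : IsCompact C) :
    ∃ U : Set (Module.End E V), IsOpen U ∧ (z • 1 : Module.End E V) ∈ U ∧
      ∀ h : UU B, h.1.1 ∈ U → ∀ v ∈ C,
        ewl B p A μ h f v = ewl B p A μ (ewz B z hz) f v := by
  have hzp : 0 < ‖z - 1‖ / 2 := half_pos (norm_pos_iff.2 (sub_ne_zero.2 hz1))
  set e := (Module.finBasis E V).equivFun with he
  have hec : Continuous e :=
    (e : V →ₗ[E] (Fin (Module.finrank E V) → E)).continuous_of_finiteDimensional
  -- the neighbourhood
  let S : Module.End E V → ℝ := fun h => ∑ j, ‖e (h (Module.finBasis E V j) -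
    z • Module.finBasis E V j)‖
  have hSc : Continuous S := by
    refine continuous_finsetSum _ fun j _ => Continuous.norm ?_
    exact hec.comp ((continuous_end_apply _).sub continuous_const)
  have hSz : S (z • 1) < ‖z - 1‖ / 2 := by
    have h0 : S (z • 1) = 0 := by
      refine Finset.sum_eq_zero fun j _ => ?_
      have h1 : (z • (1 : Module.End E V)) (Module.finBasis E V j) -
        z • Module.finBasis E V j = 0 := sub_self _
      rw [h1, map_zero, norm_zero]
    rw [h0]
    exact hzp
  have hinj : ∀ h : Module.End E V, S h < ‖z - 1‖ / 2 → ∀ v, h v = v → v = 0 := by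
    intro h hh v hv
    have h1 := sb_low z h hh (e v)
    have h2 : (ewu (e v) : V) = v := by
      have h3 : (ewu (e v) : V) = e.symm (e v) := by
        rw [he, Module.Basis.equivFun_symm_apply]
        rfl
      rw [h3, LinearEquiv.symm_apply_apply]
    rw [h2, hv, sub_self, map_zero, norm_zero] at h1
    have h4 : ‖e v‖ = 0 := by
      have := norm_nonneg (e v)
      nlinarith
    exact e.map_eq_zero_iff.1 (norm_eq_zero.1 h4)
  -- the compact set
  have hK : IsCompact ((fun q : V × V => q.1 - q.2) '' (C ×ˢ tsupport f.1)) :=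
    (hC.prod f.2.2.isCompact).image (continuous_fst.sub continuous_snd)
  obtain ⟨ρ, hρ⟩ := hK.exists_bound_of_continuousOn hec.continuousOn
  set D : Set (Fin (Module.finrank E V) → E) :=
    Metric.closedBall 0 (ρ / (‖z - 1‖ / 2)) with hD
  have hDc : IsCompact D := isCompact_closedBall _ _
  have hzero : ∀ h : Module.End E V, S h < ‖z - 1‖ / 2 → ∀ x, ∀ v ∈ C, x ∉ D →
      sbI B p f h x v = 0 := by
    intro h hh x v hv hx
    unfold sbI
    rw [lop_apply]
    have h0 : f (v - (h (ewu x) - ewu x)) = 0 := by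
      refine image_eq_zero_of_notMem_tsupport fun hmem => hx ?_
      have h1 := hρ (h (ewu x) - ewu x) ⟨(v, v - (h (ewu x) - ewu x)), ⟨hv, hmem⟩, by
        show v - (v - (h (ewu x) - ewu x)) = _
        abel⟩
      have h2 := sb_low z h hh x
      rw [hD, mem_closedBall_zero_iff, le_div_iff₀ hzp]
      linarith
    rw [h0, mul_zero, mul_zero]
  obtain ⟨hdz, hfz⟩ := ewl_formula B p A hμ (ewz B z hz) (hinj _ hSz)
  have hdc : Continuous (fun h : Module.End E V => (ewG B h).det) := by
    refine Continuous.matrix_det (continuous_matrix fun i j => ?_)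
    exact (continuous_ip_right F B _).comp ((continuous_end_apply _).sub continuous_const)
  have hdet : ∀ᶠ h in nhds (z • 1 : Module.End E V), ∀ hd : (ewG B h).det ≠ 0,
      ewmu μ (ewG B h).det hd = ewmu μ (ewG B (ewz B z hz).1.1).det hdz :=
    (hdc.tendsto (z • 1)).eventually (sb_mu hμl hdz)
  have hint : ∀ᶠ h in nhds (z • 1 : Module.End E V), ∀ q ∈ D ×ˢ C,
      sbI B p f h q.1 q.2 = sbI B p f (z • 1) q.1 q.2 := by
    refine (hDc.prod hC).eventually_forall_of_forall_eventually ?_
    rintro ⟨x, v⟩ _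
    have h1 := (IsLocallyConstant.iff_eventually_eq _).mp (sb_lc B p f)
      ((z • 1 : Module.End E V), x, v)
    have h2 : Filter.Tendsto (fun q : Module.End E V × (Fin (Module.finrank E V) → E) × V =>
        ((z • 1 : Module.End E V), q.2)) (nhds ((z • 1 : Module.End E V), x, v))
        (nhds ((z • 1 : Module.End E V), x, v)) :=
      (continuous_const.prodMk continuous_snd).tendsto _
    filter_upwards [h1, h2.eventually h1] with q hq1 hq2
    exact hq1.trans hq2.symm
  have hSe : ∀ᶠ h in nhds (z • 1 : Module.End E V), S h < ‖z - 1‖ / 2 :=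
    (hSc.tendsto (z • 1)).eventually (gt_mem_nhds hSz)
  obtain ⟨U, hU, hUo, hUz⟩ := eventually_nhds_iff.1 (hdet.and (hint.and hSe))
  refine ⟨U, hUo, hUz, fun h hh v hv => ?_⟩
  obtain ⟨g1, g2, g3⟩ := hU _ hh
  obtain ⟨hd, hf⟩ := ewl_formula B p A hμ h (hinj h.1.1 g3)
  rw [hf f v, hfz f v, g1 hd]
  congr 1
  refine MeasureTheory.integral_congr_ae (Filter.Eventually.of_forall fun x => ?_)
  show sbI B p f h.1.1 x v = sbI B p f (z • 1) x v
  by_cases hx : x ∈ D
  · exact g2 (x, v) ⟨hx, hv⟩
  · rw [hzero h.1.1 g3 x v hv hx, hzero (z • 1) hSz x v hv hx]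

end

end Pool.Agent.Work.MP_dd0ddf_al.C2
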