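import Pool.Agent.Work.MP_dd0ddf_al.C2.FibA0

/-!
# MP_dd0ddf_al (characteristic 2), module FG0: choice of the base point g0

Let g ∈ GP B (q^m), s = g g^*, s' = g^* g (both self-adjoint for B; charpoly s' = charpoly s).  By gp_ys (for g; and for s': `(sg B0 ·)` of `adj`... or directly q(s')^(2^j) = 0) the operators `s^(2^k)`, `s'^(2^k)` (as E0-linear operators) are in SigQ B0 (qq j c0): `(s^(2^k))^(2^j) = s^(2^(j+k)) = c0`.
By sigq_trans over F0 (D.irr1) there are h1, h2 ∈ UU B0 with `h1 s^(2^k) h1⁻¹ = cSA`, `h2 s'^(2^k) h2⁻¹ = cSA`.  Put `g2 := h1 g h2⁻¹ ∈ GL(V/E0)`, `s2 := g2 g2^* = h1 s h1⁻¹` (adjoint for B0; h^* = h⁻¹), `s2' := g2^* g2 = h2 s' h2⁻¹`.  So `s2^(2^k) = c = s2'^(2^k)`.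
Since `s2' = g2⁻¹ s2 g2`: `c = s2'^(2^k) = g2⁻¹ c g2`, so g2 commutes with c, hence `g2 = resG E0 g3` for `g3 ∈ GL(V/E)` (resG_range, D.hgen), and s2, s2' are E-linear: they are `sg B g3` and `g3^* g3` (rel_adj), both in SigQ B (qq k c).
By sigq_trans over F (D.irr) there is h ∈ UU B with `h s2' h⁻¹ = s2`.  Put `g₀ := g3 h⁻¹`: `g₀ g₀^* = s2`, `g₀^* g₀ = h s2' h⁻¹ = s2`.
-/

set_option linter.unusedSectionVars false
set_option linter.style.haveILetI false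

namespace Pool.Agent.Work.MP_dd0ddf_al.C2

noncomputable section

universe u

variable {F0 E0 : Type u} [NontriviallyNormedField F0] [IsUltrametricDist F0] [ProperSpace F0]
  [CharP F0 2] [NontriviallyNormedField E0] [NormedAlgebra F0 E0] [ProperSpace E0] [StarRing E0]
  [QExt F0 E0] [Dl E0] [MeasurableSpace E0] [BorelSpace E0]
variable {F E : Type u} [NontriviallyNormedField F] [IsUltrametricDist F] [ProperSpace F]
  [CharP F 2] [NontriviallyNormedField E] [NormedAlgebra F E] [ProperSpace E] [StarRing E]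
  [QExt F E] [Dl E] [MeasurableSpace E] [BorelSpace E]
  [NormedAlgebra F0 F] [NormedAlgebra E0 E] [Algebra F0 E] [KCompat F0 E0 F E]
variable {V : Type u} [AddCommGroup V] [Module E0 V] [Module E V] [IsScalarTower E0 E V]
  [Module.Finite E0 V] [Module.Finite E V] [TopologicalSpace V]
  [IsTopologicalAddGroup V] [T2Space V] [ContinuousSMul E0 V] [ContinuousSMul E V]

private theorem fg0_conj {M : Type*} [Monoid M] {a b Z : M} (h1 : b * a = 1) (h2 : a * b = 1)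
    (n : ℕ) : (a * Z * b) ^ n = a * Z ^ n * b := by
  induction n with
  | zero => rw [pow_zero, pow_zero, mul_one, h2]
  | succ n ih =>
    rw [pow_succ, ih, pow_succ]
    calc a * Z ^ n * b * (a * Z * b) = a * Z ^ n * (b * a) * Z * b := by simp only [mul_assoc]
      _ = a * (Z ^ n * Z) * b := by
        rw [h1, mul_one]
        simp only [mul_assoc]

private theorem fg0_adj_pow (B : SkewH E V) (Z : Module.End E V) (n : ℕ) :
    adj B (Z ^ n) = adj B Z ^ n := by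
  induction n with
  | zero => rw [pow_zero, pow_zero, adj_one]
  | succ n ih => rw [pow_succ, adj_mul, ih, pow_succ']

private theorem fg0_sig (B : SkewH E V) (n : ℕ) (c : F) (X : SA B) :
    X ∈ SigQ B (qq n c) ↔ X.1 ^ 2 ^ n = algebraMap F E c • (1 : Module.End E V) := by
  show Polynomial.aeval X.1 ((qq n c).map (algebraMap F E)) = 0 ↔ _
  unfold qq
  rw [Polynomial.map_sub, Polynomial.map_pow, Polynomial.map_X, Polynomial.map_C, map_sub,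
    map_pow, Polynomial.aeval_X, Polynomial.aeval_C, sub_eq_zero, Algebra.algebraMap_eq_smul_one]

private theorem fg0_sa (B : SkewH E V) {Z : Module.End E V} (hZ : adj B Z = Z) (n : ℕ) :
    Z ^ n ∈ SA B := by
  apply sa_of_adj
  rw [fg0_adj_pow, hZ]

theorem exists_g0 {B0 : SkewH E0 V} {B : SkewH E V} (R : FRel B0 B) {j k m : ℕ} {c : F}
    {c0 : F0} (D : FNum F0 E0 F E j k m c c0) (hd : Module.finrank E V = m * 2 ^ k)
    (g : GV E V) (hg : g ∈ GP B (qq k c ^ m)) :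
    ∃ (g₀ : GV E V) (X₀ : SA B), X₀ ∈ SigQ B (qq k c) ∧ g₀.1 * adj B g₀.1 = X₀.1 ∧
      adj B g₀.1 * g₀.1 = X₀.1 := by
  have hY : resG E0 g ∈ YS B0 (qq (j + k) c0) := (gp_ys R D hd g).1 hg
  obtain ⟨G, hG⟩ : ∃ G : GV E0 V, G = resG E0 g := ⟨_, rfl⟩
  rw [← hG] at hY
  obtain ⟨A, hAd⟩ : ∃ A : Module.End E0 V, A = G.1 * adj B0 G.1 := ⟨_, rfl⟩
  obtain ⟨A', hAd'⟩ : ∃ A' : Module.End E0 V, A' = adj B0 G.1 * G.1 := ⟨_, rfl⟩
  have hA : A ^ 2 ^ (j + k) = algebraMap F0 E0 c0 • (1 : Module.End E0 V) := by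
    rw [hAd]
    exact (fg0_sig B0 _ c0 _).1 hY
  have hAs : adj B0 A = A := by rw [hAd, adj_mul, adj_adj]
  have hAs' : adj B0 A' = A' := by rw [hAd', adj_mul, adj_adj]
  have gi : G⁻¹.1 * G.1 = 1 := G.inv_mul
  have gi' : G.1 * G⁻¹.1 = 1 := G.mul_inv
  have hA'c : A' = G⁻¹.1 * A * G.1 := by
    rw [hAd, hAd', ← mul_assoc, gi, one_mul]
  have hA' : A' ^ 2 ^ (j + k) = algebraMap F0 E0 c0 • (1 : Module.End E0 V) := by
    rw [hA'c, fg0_conj gi' gi, hA, mul_smul_comm, mul_one, smul_mul_assoc, gi]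
  have hpow : ∀ Z : Module.End E0 V, (Z ^ 2 ^ k) ^ 2 ^ j = Z ^ 2 ^ (j + k) := by
    intro Z
    rw [← pow_mul, pow_add, mul_comm]
  obtain ⟨h1, hh1⟩ := sigq_trans B0 (qq j c0) (qq_monic j c0) D.irr1
    ⟨A ^ 2 ^ k, fg0_sa B0 hAs _⟩ (cSA R c)
    ((fg0_sig B0 _ c0 _).2 (by show (A ^ 2 ^ k) ^ 2 ^ j = _; rw [hpow, hA])) (cSA_sig R D)
  obtain ⟨h2, hh2⟩ := sigq_trans B0 (qq j c0) (qq_monic j c0) D.irr1
    ⟨A' ^ 2 ^ k, fg0_sa B0 hAs' _⟩ (cSA R c)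
    ((fg0_sig B0 _ c0 _).2 (by show (A' ^ 2 ^ k) ^ 2 ^ j = _; rw [hpow, hA'])) (cSA_sig R D)
  obtain ⟨C, hC⟩ : ∃ C : Module.End E0 V, C = (cMul E V c).restrictScalars E0 := ⟨_, rfl⟩
  have e1 : h1.1.1 * A ^ 2 ^ k * h1.1⁻¹.1 = C := by
    rw [hC]
    exact congrArg Subtype.val hh1
  have e2 : h2.1.1 * A' ^ 2 ^ k * h2.1⁻¹.1 = C := by
    rw [hC]
    exact congrArg Subtype.val hh2
  obtain ⟨G2, hG2⟩ : ∃ G2 : GV E0 V, G2 = h1.1 * G * h2.1⁻¹ := ⟨_, rfl⟩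
  have u1 : h1.1⁻¹.1 * h1.1.1 = 1 := h1.1.inv_mul
  have u1' : h1.1.1 * h1.1⁻¹.1 = 1 := h1.1.mul_inv
  have u2 : h2.1⁻¹.1 * h2.1.1 = 1 := h2.1.inv_mul
  have u2' : h2.1.1 * h2.1⁻¹.1 = 1 := h2.1.mul_inv
  have hG2v : G2.1 = h1.1.1 * G.1 * h2.1⁻¹.1 := by
    rw [hG2]
    rfl
  have hG2a : adj B0 G2.1 = h2.1.1 * (adj B0 G.1 * h1.1⁻¹.1) := by
    rw [hG2v, adj_mul, adj_mul, uu_adj, uu_adj_inv]
  have hA2 : G2.1 * adj B0 G2.1 = h1.1.1 * A * h1.1⁻¹.1 := by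
    rw [hG2a, hG2v, hAd]
    calc h1.1.1 * G.1 * h2.1⁻¹.1 * (h2.1.1 * (adj B0 G.1 * h1.1⁻¹.1))
        = h1.1.1 * G.1 * (h2.1⁻¹.1 * h2.1.1) * (adj B0 G.1 * h1.1⁻¹.1) := by
          simp only [mul_assoc]
      _ = h1.1.1 * (G.1 * adj B0 G.1) * h1.1⁻¹.1 := by
          rw [u2, mul_one]
          simp only [mul_assoc]
  have hA2' : adj B0 G2.1 * G2.1 = h2.1.1 * A' * h2.1⁻¹.1 := by
    rw [hG2a, hG2v, hAd']
    calc h2.1.1 * (adj B0 G.1 * h1.1⁻¹.1) * (h1.1.1 * G.1 * h2.1⁻¹.1)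
        = h2.1.1 * adj B0 G.1 * (h1.1⁻¹.1 * h1.1.1) * (G.1 * h2.1⁻¹.1) := by
          simp only [mul_assoc]
      _ = h2.1.1 * (adj B0 G.1 * G.1) * h2.1⁻¹.1 := by
          rw [u1, mul_one]
          simp only [mul_assoc]
  have p1 : (G2.1 * adj B0 G2.1) ^ 2 ^ k = C := by
    rw [hA2, fg0_conj u1 u1', e1]
  have p2 : (adj B0 G2.1 * G2.1) ^ 2 ^ k = C := by
    rw [hA2', fg0_conj u2 u2', e2]
  have v1 : G2⁻¹.1 * G2.1 = 1 := G2.inv_mul
  have v2 : G2.1 * G2⁻¹.1 = 1 := G2.mul_inv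
  have p3 : C = G2⁻¹.1 * C * G2.1 := by
    have h3 : adj B0 G2.1 * G2.1 = G2⁻¹.1 * (G2.1 * adj B0 G2.1) * G2.1 := by
      rw [← mul_assoc, v1, one_mul]
    have h4 := p2
    rw [h3, fg0_conj v2 v1, p1] at h4
    exact h4.symm
  have p4 : G2.1 * C = C * G2.1 := by
    nth_rewrite 1 [p3]
    rw [← mul_assoc, ← mul_assoc, v2, one_mul]
  obtain ⟨g3, hg3⟩ := (resG_range (E0 := E0) (algebraMap F E c) D.hgen G2).1 (fun v => by
    have h5 := congrArg (fun f : Module.End E0 V => f v) p4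
    have h6 : G2.1 (C v) = C (G2.1 v) := h5
    rw [hC] at h6
    exact h6)
  have hg3v : (g3.1.restrictScalars E0 : Module.End E0 V) = G2.1 := by
    rw [← hg3]
    rfl
  -- back to `E`
  have inj : ∀ X Y : Module.End E V, (X.restrictScalars E0 : Module.End E0 V) =
      Y.restrictScalars E0 → X = Y := by
    intro X Y h
    refine LinearMap.ext fun v => ?_
    exact congrArg (fun f : Module.End E0 V => f v) h
  have rmul : ∀ X Y : Module.End E V, ((X * Y).restrictScalars E0 : Module.End E0 V) =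
      (X.restrictScalars E0 : Module.End E0 V) * (Y.restrictScalars E0 : Module.End E0 V) :=
    fun _ _ => rfl
  have rpow : ∀ (X : Module.End E V) (n : ℕ), ((X ^ n).restrictScalars E0 : Module.End E0 V) =
      (X.restrictScalars E0 : Module.End E0 V) ^ n := by
    intro X n
    induction n with
    | zero => rfl
    | succ n ih => rw [pow_succ, pow_succ, rmul, ih]
  have q1 : (g3.1 * adj B g3.1) ^ 2 ^ k = algebraMap F E c • (1 : Module.End E V) := by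
    apply inj
    rw [rpow, rmul, ← rel_adj R, hg3v, p1, hC]
    rfl
  have q2 : (adj B g3.1 * g3.1) ^ 2 ^ k = algebraMap F E c • (1 : Module.End E V) := by
    apply inj
    rw [rpow, rmul, ← rel_adj R, hg3v, p2, hC]
    rfl
  have sZ : adj B g3.1 * g3.1 ∈ SA B := by
    apply sa_of_adj
    rw [adj_mul, adj_adj]
  obtain ⟨h, hh⟩ := sigq_trans B (qq k c) (qq_monic k c) D.irr ⟨adj B g3.1 * g3.1, sZ⟩
    (sg B g3) ((fg0_sig B _ c _).2 q2) ((fg0_sig B _ c _).2 q1)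
  have e3 : h.1.1 * (adj B g3.1 * g3.1) * h.1⁻¹.1 = g3.1 * adj B g3.1 :=
    congrArg Subtype.val hh
  have w1 : h.1⁻¹.1 * h.1.1 = 1 := h.1.inv_mul
  refine ⟨g3 * h.1⁻¹, sg B g3, (fg0_sig B _ c _).2 q1, ?_, ?_⟩
  · show g3.1 * h.1⁻¹.1 * adj B (g3.1 * h.1⁻¹.1) = g3.1 * adj B g3.1
    rw [adj_mul, uu_adj_inv]
    calc g3.1 * h.1⁻¹.1 * (h.1.1 * adj B g3.1) = g3.1 * (h.1⁻¹.1 * h.1.1) * adj B g3.1 := by
          simp only [mul_assoc]
      _ = g3.1 * adj B g3.1 := by rw [w1, mul_one]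
  · show adj B (g3.1 * h.1⁻¹.1) * (g3.1 * h.1⁻¹.1) = g3.1 * adj B g3.1
    rw [adj_mul, uu_adj_inv, ← e3]
    simp only [mul_assoc]

end

end Pool.Agent.Work.MP_dd0ddf_al.C2
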