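import Pool.Agent.Work.MP_dd0ddf_al.C2.NiE1
import Pool.Agent.Work.MP_dd0ddf_al.C2.ArtNear

/-!
# MP_dd0ddf_al (characteristic 2), module NiUnit: the group `1 + ρ (O + O e)`
-/

set_option linter.unusedSectionVars false
set_option linter.style.haveILetI false

namespace Pool.Agent.Work.MP_dd0ddf_al.C2

noncomputable section

universe u

variable {F E : Type u} [NontriviallyNormedField F] [IsUltrametricDist F] [ProperSpace F]
  [CharP F 2] [NontriviallyNormedField E] [NormedAlgebra F E] [ProperSpace E] [StarRing E]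
  [QExt F E]

theorem norm_one_add {L : Type*} [NormedField L] [IsUltrametricDist L] {x : L} (h : ‖x‖ < 1) :
    ‖1 + x‖ = 1 := by
  have h1 : ‖1 + x‖ ≤ 1 := by
    refine (IsUltrametricDist.norm_add_le_max _ _).trans ?_
    rw [norm_one]
    exact max_le le_rfl h.le
  have h2 : (1 : ℝ) ≤ max ‖1 + x‖ ‖x‖ := by
    have := IsUltrametricDist.norm_add_le_max (1 + x) (-x)
    rw [add_neg_cancel_right, norm_one, norm_neg] at this
    exact this
  rcases le_max_iff.1 h2 with h3 | h3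
  · exact le_antisymm h1 h3
  · linarith

variable (F) in
/-- `x = 1 + r + s e` with `‖r‖, ‖s‖ ≤ ρ` -/
def NearOne (e : E) (ρ : ℝ) (x : E) : Prop :=
  ∃ r s : F, ‖r‖ ≤ ρ ∧ ‖s‖ ≤ ρ ∧ x = 1 + algebraMap F E r + algebraMap F E s * e

section

variable {e : E} {a : F} {ρ : ℝ} (he : e + star e = 1) (ha : e * star e = algebraMap F E a)
  (hρ : 0 < ρ) (hρ1 : ρ < 1) (hρa : ‖a‖ * ρ < 1)

include he ha in
/-- the norm of `r + s e` -/
theorem norm_formula (r s : F) : (algebraMap F E r + algebraMap F E s * e) *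
    star (algebraMap F E r + algebraMap F E s * e) = algebraMap F E (r ^ 2 + r * s + a * s ^ 2) := by
  have h1 : star e = e + 1 := star_eq_add_one F E he
  rw [star_add, star_mul', QExt.star_alg, QExt.star_alg]
  simp only [map_add, map_mul, map_pow, ← ha]
  linear_combination (algebraMap F E r * algebraMap F E s) * he

private theorem nu_mul_le {x y : F} (hx : ‖x‖ ≤ ρ) (hy : ‖y‖ ≤ ρ) (hρ0 : 0 < ρ) (h1 : ρ < 1) :
    ‖x * y‖ ≤ ρ := by
  rw [norm_mul]
  calc ‖x‖ * ‖y‖ ≤ ρ * ρ := mul_le_mul hx hy (norm_nonneg _) hρ0.le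
    _ ≤ 1 * ρ := by gcongr
    _ = ρ := one_mul _

private theorem nu_amul_le {x y : F} (hx : ‖x‖ ≤ ρ) (hy : ‖y‖ ≤ ρ) (hρ0 : 0 < ρ)
    (h1 : ‖a‖ * ρ < 1) : ‖a * (x * y)‖ ≤ ρ := by
  rw [norm_mul, norm_mul]
  calc ‖a‖ * (‖x‖ * ‖y‖) ≤ ‖a‖ * (ρ * ρ) := by gcongr
    _ = (‖a‖ * ρ) * ρ := by ring
    _ ≤ 1 * ρ := by gcongr
    _ = ρ := one_mul _

private theorem nu_add_le {x y : F} (hx : ‖x‖ ≤ ρ) (hy : ‖y‖ ≤ ρ) : ‖x + y‖ ≤ ρ :=
  (IsUltrametricDist.norm_add_le_max _ _).trans (max_le hx hy)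

include he ha hρ hρ1 hρa in
theorem nearOne_mul {x y : E} (hx : NearOne F e ρ x) (hy : NearOne F e ρ y) :
    NearOne F e ρ (x * y) := by
  obtain ⟨r, s, hr, hs, rfl⟩ := hx
  obtain ⟨r', s', hr', hs', rfl⟩ := hy
  refine ⟨r + r' + r * r' + a * (s * s'), s + s' + r * s' + r' * s + s * s', ?_, ?_, ?_⟩
  · exact nu_add_le (nu_add_le (nu_add_le hr hr') (nu_mul_le hr hr' hρ hρ1))
      (nu_amul_le hs hs' hρ hρa)
  · exact nu_add_le (nu_add_le (nu_add_le (nu_add_le hs hs') (nu_mul_le hr hs' hρ hρ1))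
      (nu_mul_le hr' hs hρ hρ1)) (nu_mul_le hs hs' hρ hρ1)
  · have h := art_sq F E he ha
    simp only [map_add, map_mul]
    linear_combination (algebraMap F E s * algebraMap F E s') * h

include he in
theorem nearOne_star {x : E} (hx : NearOne F e ρ x) : NearOne F e ρ (star x) := by
  obtain ⟨r, s, hr, hs, rfl⟩ := hx
  refine ⟨r + s, s, nu_add_le hr hs, hs, ?_⟩
  rw [star_add, star_add, star_one, star_mul', QExt.star_alg, QExt.star_alg,
    star_eq_add_one F E he, map_add]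
  ring

theorem nearOne_one (e : E) (hρ : 0 < ρ) : NearOne F e ρ 1 :=
  ⟨0, 0, by rw [norm_zero]; exact hρ.le, by rw [norm_zero]; exact hρ.le, by
    rw [map_zero, zero_mul, add_zero, add_zero]⟩

include hρ hρ1 in
/-- multiplication by an element of `F` close to `1` -/
theorem nearOne_smul {c : F} (hc : ‖c - 1‖ ≤ ρ) {x : E} (hx : NearOne F e ρ x) :
    NearOne F e ρ (algebraMap F E c * x) := by
  obtain ⟨r, s, hr, hs, rfl⟩ := hx
  refine ⟨(c - 1) + r + (c - 1) * r, s + (c - 1) * s,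
    nu_add_le (nu_add_le hc hr) (nu_mul_le hc hr hρ hρ1),
    nu_add_le hs (nu_mul_le hc hs hρ hρ1), ?_⟩
  simp only [map_add, map_sub, map_mul, map_one]
  ring

include he ha hρ hρ1 hρa in
/-- the norm of an element of `U` is close to `1` -/
theorem nearOne_norm {x : E} (hx : NearOne F e ρ x) :
    ∃ c : F, ‖c - 1‖ ≤ ρ ∧ x * star x = algebraMap F E c := by
  obtain ⟨r, s, hr, hs, rfl⟩ := hx
  have h1 := norm_formula he ha (1 + r) s
  rw [map_add, map_one] at h1
  refine ⟨_, ?_, h1⟩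
  haveI h2 : (2 : F) = 0 := CharTwo.two_eq_zero
  have e1 : (1 + r) ^ 2 + (1 + r) * s + a * s ^ 2 - 1 = r * r + s + r * s + a * (s * s) := by
    linear_combination r * h2
  rw [e1]
  exact nu_add_le (nu_add_le (nu_add_le (nu_mul_le hr hr hρ hρ1) hs) (nu_mul_le hr hs hρ hρ1))
    (nu_amul_le hs hs hρ hρa)

private theorem nu_inv {c : F} (h1 : ρ < 1) (hc : ‖c - 1‖ ≤ ρ) : c ≠ 0 ∧ ‖c⁻¹ - 1‖ ≤ ρ := by
  have hc1 : ‖c‖ = 1 := by
    have := norm_one_add (lt_of_le_of_lt hc h1)
    rwa [add_sub_cancel] at this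
  have hc0 : c ≠ 0 := by
    rintro rfl
    rw [norm_zero] at hc1
    exact zero_ne_one hc1
  refine ⟨hc0, ?_⟩
  have e1 : c⁻¹ - 1 = -((c - 1) * c⁻¹) := by
    field_simp
    ring
  rw [e1, norm_neg, norm_mul, norm_inv, hc1, inv_one, mul_one]
  exact hc

include he ha hρ hρ1 hρa in
theorem nearOne_inv {x : E} (hx : NearOne F e ρ x) : NearOne F e ρ x⁻¹ := by
  obtain ⟨c, hc, hxc⟩ := nearOne_norm he ha hρ hρ1 hρa hx
  obtain ⟨hc0, hc1⟩ := nu_inv hρ1 hc
  have hc0' : algebraMap F E c ≠ 0 := (map_ne_zero _).2 hc0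
  have hx0 : x ≠ 0 := by
    rintro rfl
    rw [zero_mul] at hxc
    exact hc0' hxc.symm
  have h1 : x⁻¹ = algebraMap F E c⁻¹ * star x := by
    rw [map_inv₀]
    field_simp
    exact hxc.symm
  rw [h1]
  exact nearOne_smul hρ hρ1 hc1 (nearOne_star he hx)

variable (ρ) in
include he ha hρ hρ1 hρa in
/-- the group `U` -/
theorem exists_nearSub : ∃ U : Subgroup Eˣ, ∀ x : Eˣ, x ∈ U ↔ NearOne F e ρ (x : E) :=
  ⟨{ carrier := {x | NearOne F e ρ (x : E)}
     one_mem' := nearOne_one e hρ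
     mul_mem' := fun {x y} hx hy => nearOne_mul he ha hρ hρ1 hρa hx hy
     inv_mem' := fun {x} hx => by
       show NearOne F e ρ ((x⁻¹ : Eˣ) : E)
       rw [Units.val_inv_eq_inv_val]
       exact nearOne_inv he ha hρ hρ1 hρa hx }, fun _ => Iff.rfl⟩

include he ha hρ hρ1 hρa in
/-- a fixed element of `U` is a norm from `U` -/
theorem nearOne_isNorm {x : E} (hx : NearOne F e ρ x) (hs : star x = x) :
    ∃ y, NearOne F e ρ y ∧ y * star y = x := by
  haveI : IsUltrametricDist E := IsUltrametricDist.of_normedAlgebra F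
  haveI : CharP E 2 := char2_of_injective (algebraMap F E).injective
  obtain ⟨r, s, hr, hs', rfl⟩ := hx
  have hs0 : s = 0 := by
    have h1 := star_eq_add_one F E he
    rw [star_add, star_add, star_one, star_mul', QExt.star_alg, QExt.star_alg, h1] at hs
    have h2 : algebraMap F E s = 0 := by linear_combination hs
    exact (map_eq_zero _).1 h2
  subst hs0
  obtain ⟨y, hy1, hy2⟩ := art_near a r (by
    calc ‖a‖ * ‖r‖ ≤ ‖a‖ * ρ := by gcongr
      _ < 1 := hρa)
  refine ⟨1 + algebraMap F E y * e, ⟨0, y, by rw [norm_zero]; exact hρ.le, hy1.trans hr, by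
    rw [map_zero, add_zero]⟩, ?_⟩
  have h1 := norm_formula he ha 1 y
  rw [map_one] at h1
  rw [h1, map_zero, zero_mul, add_zero, one_pow, one_mul]
  rw [← hy2, map_add, map_add, map_add, map_one]
  ring

include he ha hρ hρ1 hρa in
/-- a norm one element of `U` is `x / star x` with `x ∈ U` -/
theorem nearOne_h90 {z : E} (hz : NearOne F e ρ z) (h1 : z * star z = 1) :
    ∃ x, NearOne F e ρ x ∧ z * star x = x := by
  haveI : IsUltrametricDist E := IsUltrametricDist.of_normedAlgebra F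
  have h2 : (2 : F) = 0 := CharTwo.two_eq_zero
  obtain ⟨r, s, hr, hs, rfl⟩ := hz
  have hN := norm_formula he ha (1 + r) s
  rw [map_add, map_one] at hN
  rw [hN, ← map_one (algebraMap F E)] at h1
  have h3 := (algebraMap F E).injective h1
  have h4 : s * (1 + (r + a * s)) = -(r * r) := by linear_combination h3 - r * h2
  have has : ‖a * s‖ < 1 := by
    rw [norm_mul]
    calc ‖a‖ * ‖s‖ ≤ ‖a‖ * ρ := by gcongr
      _ < 1 := hρa
  have h5 : ‖1 + (r + a * s)‖ = 1 := norm_one_add (lt_of_le_of_lt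
    (IsUltrametricDist.norm_add_le_max _ _) (max_lt (hr.trans_lt hρ1) has))
  have h6 : ‖s‖ = ‖r‖ * ‖r‖ := by
    have := congrArg norm h4
    rwa [norm_mul, h5, mul_one, norm_neg, norm_mul] at this
  refine ⟨1 + algebraMap F E (r + a * s) + algebraMap F E r * e, ⟨r + a * s, r, ?_, hr, rfl⟩, ?_⟩
  · refine nu_add_le hr ?_
    rw [norm_mul, h6]
    calc ‖a‖ * (‖r‖ * ‖r‖) ≤ ‖a‖ * (ρ * ρ) := by gcongr
      _ = (‖a‖ * ρ) * ρ := by ring
      _ ≤ 1 * ρ := by gcongr
      _ = ρ := one_mul _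
  · have h7 := art_sq F E he ha
    have h8 := congrArg (algebraMap F E) h4
    have h9 : (2 : E) = 0 := by rw [← map_ofNat (algebraMap F E) 2, h2, map_zero]
    simp only [map_add, map_mul, map_one, map_neg] at h8 ⊢
    have h10 : ∀ f : F, star (algebraMap F E f) = algebraMap F E f := QExt.star_alg
    rw [star_add, star_add, star_one, star_mul', star_add, star_mul', h10, h10, h10,
      star_eq_add_one F E he]
    linear_combination e * h8 + (algebraMap F E s * algebraMap F E r) * h7 +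
      (algebraMap F E r * algebraMap F E a * algebraMap F E s +
        algebraMap F E r * (1 + algebraMap F E r + algebraMap F E s * e)) * h9

end

end

end Pool.Agent.Work.MP_dd0ddf_al.C2
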