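import Pool.Agent.Work.MP_dd0ddf_al.C2.FdPoly
import Pool.Agent.Work.MP_dd0ddf_al.C2.NiUnit

/-!
# MP_dd0ddf_al (characteristic 2), module TPoly: the equation `y + a y² = x` modulo polynomials

`(1 + d y)(1 + conj d y) = 1 + y + a y²` for `d + conj d = 1`, `d conj d = a`, `y` over `F`.
-/

set_option linter.unusedSectionVars false
set_option linter.style.haveILetI false

namespace Pool.Agent.Work.MP_dd0ddf_al.C2

noncomputable section

universe u

open Polynomial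

theorem exists_t_nil {F : Type*} [Field F] (a : F) (n : ℕ) :
    ∃ y : F[X], X ^ n ∣ y + C a * y ^ 2 - X ∧ X ∣ y := by
  obtain ⟨y, h1, h2⟩ := art_mod (C a) (X : F[X]) X dvd_rfl n
  exact ⟨y, h1, by
    have := h2 1 (by rw [pow_one])
    rwa [pow_one] at this⟩

private theorem tpoly_alg {F R : Type*} [NontriviallyNormedField F] [NormedRing R]
    [NormedAlgebra F R] [CompleteSpace F] [FiniteDimensional F R] (a : F) (S : Subalgebra F R) :
    ∃ c : ℝ, 0 < c ∧ ∀ (s : R), s ∈ S → ∀ w : F, ‖w‖ * ‖s‖ ≤ c →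
      ∃ y ∈ S, y + a • (y * y) = w • s := by
  haveI : CompleteSpace R := FiniteDimensional.complete F R
  have hS : IsClosed (S : Set R) := (Subalgebra.toSubmodule S).closed_of_finiteDimensional
  refine ⟨1 / (8 * (1 + ‖a‖)), by positivity, fun s hs w hw => ?_⟩
  refine art_near_alg a (w • s) ?_ (S : Set R) hS S.zero_mem fun Z hZ =>
    S.sub_mem (S.smul_mem hs w) (S.smul_mem (S.mul_mem hZ hZ) a)
  rw [norm_smul]
  rw [le_div_iff₀ (by positivity)] at hw
  have h1 : 0 ≤ ‖w‖ * ‖s‖ := by positivity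
  have h2 := norm_nonneg a
  nlinarith

section

attribute [local instance] Matrix.linftyOpNormedRing Matrix.linftyOpNormedAlgebra

private theorem tpoly_matrix {F : Type u} [NontriviallyNormedField F] [ProperSpace F] (a : F)
    {ι : Type*} [Fintype ι] [DecidableEq ι] (S : Subalgebra F (Matrix ι ι F)) :
    ∃ c : ℝ, 0 < c ∧ ∀ (s : Matrix ι ι F), s ∈ S → ∀ w : F, ‖w‖ * ‖s‖ ≤ c →
      ∃ y ∈ S, y + a • (y * y) = w • s :=
  tpoly_alg a S

private theorem tpoly_adj {F : Type u} [NontriviallyNormedField F] [ProperSpace F] (a0 : F)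
    (P : F[X]) (hP : P.Monic) :
    ∀ᶠ w : F in nhds 0, ∃ y : F[X], P ∣ y + C a0 * y ^ 2 - C w * X := by
  classical
  let pb := AdjoinRoot.powerBasis hP.ne_zero
  let φ : AdjoinRoot P →ₐ[F] Matrix (Fin pb.dim) (Fin pb.dim) F :=
    Algebra.leftMulMatrix pb.basis
  have hφ : Function.Injective φ := Algebra.leftMulMatrix_injective pb.basis
  obtain ⟨c, hc, h1⟩ := tpoly_matrix (F := F) a0 φ.range
  let s := φ (AdjoinRoot.root P)
  have h2 : ∀ᶠ w : F in nhds 0, ‖w‖ * ‖s‖ < c := by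
    have h3 : Continuous (fun w : F => ‖w‖ * ‖s‖) := continuous_norm.mul continuous_const
    have h4 := h3.tendsto 0
    rw [norm_zero, zero_mul] at h4
    exact h4.eventually (gt_mem_nhds hc)
  filter_upwards [h2] with w hw
  obtain ⟨a, ⟨a', ha'⟩, ha⟩ := h1 s ⟨_, rfl⟩ w hw.le
  obtain ⟨t0, rfl⟩ := AdjoinRoot.mk_surjective a'
  refine ⟨t0, ?_⟩
  rw [← AdjoinRoot.mk_eq_mk]
  apply hφ
  have ha'' : φ (AdjoinRoot.mk P t0) = a := ha'
  have h5 : φ (AdjoinRoot.mk P (t0 + C a0 * t0 ^ 2)) = a + a0 • (a * a) := by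
    rw [map_add, map_mul, map_pow, AdjoinRoot.mk_C, map_add, map_mul, map_pow, ha'',
      ← AdjoinRoot.algebraMap_eq, AlgHom.commutes, Algebra.smul_def, sq]
  have h6 : φ (AdjoinRoot.mk P (C w * X)) = w • s := by
    rw [map_mul, AdjoinRoot.mk_X, AdjoinRoot.mk_C, map_mul]
    rw [← AdjoinRoot.algebraMap_eq, AlgHom.commutes, Algebra.smul_def]
  rw [h5, h6, ha]

end

theorem exists_t {F : Type u} [NontriviallyNormedField F] [ProperSpace F] (a : F) (P : F[X])
    (hP : P.Monic) : ∃ (w : F) (y : F[X]), w ≠ 0 ∧ P ∣ y + C a * y ^ 2 - C w * X ∧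
      IsCoprime (1 + C w * X) P := by
  classical
  have h1 := tpoly_adj a P hP
  let Z : Set F := (fun x : F => -x⁻¹) '' {x | IsRoot P x}
  have hZ : Z.Finite := by
    refine Set.Finite.image _ ?_
    exact (P.roots.toFinset.finite_toSet).subset fun x hx => by
      simpa [Multiset.mem_toFinset, mem_roots hP.ne_zero] using hx
  have h2 : ∀ᶠ w : F in nhdsWithin 0 {0}ᶜ, w ∉ Z \ {0} := by
    have h3 : ∀ᶠ w : F in nhds 0, w ∉ Z \ {0} :=
      ((hZ.subset Set.sdiff_subset).isClosed.isOpen_compl).mem_nhds (fun h => h.2 rfl)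
    exact h3.filter_mono nhdsWithin_le_nhds
  have h3 : ∀ᶠ w : F in nhdsWithin 0 {0}ᶜ, ∃ t : F[X], P ∣ t + C a * t ^ 2 - C w * X :=
    h1.filter_mono nhdsWithin_le_nhds
  obtain ⟨w, ⟨h4, t, h5⟩, h6⟩ := ((h2.and h3).and self_mem_nhdsWithin).exists
  have hw : w ≠ 0 := h6
  refine ⟨w, t, hw, h5, ?_⟩
  have h7 : (1 + C w * X : F[X]) = C w * (X - C (-w⁻¹)) := by
    rw [C_neg, sub_neg_eq_add, mul_add, ← C_mul, mul_inv_cancel₀ hw, C_1, add_comm]
  have h8 : ¬ IsRoot P (-w⁻¹) := by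
    intro h9
    exact h4 ⟨⟨-w⁻¹, h9, by simp⟩, hw⟩
  rw [h7]
  refine IsCoprime.mul_left ?_ ?_
  · exact ⟨C w⁻¹, 0, by rw [← C_mul, inv_mul_cancel₀ hw, C_1]; ring⟩
  · rw [(irreducible_X_sub_C (-w⁻¹)).coprime_iff_not_dvd]
    rwa [dvd_iff_isRoot]

end

end Pool.Agent.Work.MP_dd0ddf_al.C2
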