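import Pool.Agent.Work.MP_dd0ddf_al.C2.FUp
import Pool.Agent.Work.MP_dd0ddf_al.C2.FG0
import Pool.Agent.Work.MP_dd0ddf_al.C2.DownB
import Pool.Agent.Work.MP_dd0ddf_al.C2.GrpP3
import Pool.Agent.Work.MP_dd0ddf_al.C2.GrpD2

/-!
# MP_dd0ddf_al (characteristic 2), module FCore: case (F) for abstract fields F0, E0

Let τ, T with InGP W τ P T, P = q^m, q = qq k c.  If GP B P is empty, T = 0.  Otherwise exists_g0 (FG0) gives g₀, X₀ ∈ SigQ B q with g₀ g₀^* = g₀^* g₀ = X₀.
`D1 : KData F E q` (exists_KData, qq_monic, D.irr), L := D1.L, K := D1.K, exists_LMod D1 B X₀ (s := D1.s acts as X₀), BL (exists_BL), R' : FRel B BL := relOf hBL, Dl L := dlL F E K L, DComm := dcomm_dlL, WL (weil_K W hBL) exactly as in `grpD` (module GrpD2).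
Instances for the composite: `letI : Algebra E0 L := ((algebraMap E L).comp (algebraMap E0 E)).toAlgebra`, IsScalarTower E0 E L, IsScalarTower E0 L V (from E0 E V and E L V).  RL := R.comp R' : FRel B0 BL, RL.U g = R.U (R'.U g), so WL.l h = W.l (resU hBL h) = W0.l (RL.U h).
g₀ commutes with X₀ (g₀ X₀ = g₀ g₀^* g₀ = X₀ g₀), so g₀ = resG E gL (resG_range for (E, L), s, D1.genL); `IsSim BL s gL`: sim_of_adj: gL * adj BL gL = s • 1 (rel_adj R' gL; X₀ = multiplication by s), s ≠ 0 because X₀ = g₀ g₀^* is invertible (V ≠ 0).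
generation: every x ∈ L is a polynomial in s over E0: D1.genL, and E = E0[c], c = s^(2^k) in L (D1.root: aeval s q = 0, i.e. s^(2^k) = c in K; the algebra maps F → K → L and F → E → L agree): subalgebra argument: `Algebra.adjoin E0 {s}` contains algebraMap E L (all polynomials in c over E0: D.hgen), hence all of L.
`s^(2^(j+k)) = (s^(2^k))^(2^j) = c^(2^j) = c0` (D.hc; towers of KCompat F0 E0 F E).  finrank L V = m: finrank_L: finrank E V = q.natDegree * finrank L V = 2^k * finrank L V and hd.  m ≤ 2^j: D.hm.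
τL from exists_tau BL; τE := R'.tau τL : AntiU B; InGP W τE P T (inGP_tau).  f_up R W0 W .. τE T gives T' with symmetry for R.tau τE = RL.tau τL (rfl up to structure eta).  f_down RL W0 WL .. gL τL T' gives D2.
D2 = 0 by `grpP3_gen WL hg τL (X^m)` : hgood: shiftP_X_pow: shiftP (X^m) s w (finrank L V) = (X - C s)^m and `PGood WL ((X - C s)^m)`: from IH K L V BL (p.ext K) WL (finrank L V = m ≤ m 2^k - 1 since k > 0, m > 0): GrpGood WL; PGood from GrpGood: inG_of_inGP (GrpDesc) and the definition of GrpGood.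
So T' = 0, T = 0.
-/

set_option linter.unusedSectionVars false
set_option linter.style.haveILetI false

namespace Pool.Agent.Work.MP_dd0ddf_al.C2

noncomputable section

universe u

private theorem fcore_sum {E L : Type u} [Field E] [Field L] [Algebra E L] {E0 : Type u} [Field E0]
    [Algebra E0 E] [Algebra E0 L] [IsScalarTower E0 E L] (S : Subalgebra E0 L)
    (h : ∀ y : E, algebraMap E L y ∈ S) (σ : L) (hσ : σ ∈ S) (f : Polynomial E) :
    Polynomial.aeval σ f ∈ S := by
  rw [Polynomial.aeval_eq_sum_range]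
  refine S.sum_mem fun i _ => ?_
  rw [Algebra.smul_def]
  exact S.mul_mem (h _) (S.pow_mem hσ i)

private theorem fcore_gen {E L : Type u} [Field E] [Field L] [Algebra E L] {E0 : Type u} [Field E0]
    [Algebra E0 E] [Algebra E0 L] [IsScalarTower E0 E L] (σ : L) (c : E) (n : ℕ)
    (hσ : σ ^ n = algebraMap E L c)
    (hE : ∀ x : E, ∃ f : Polynomial E0, x = Polynomial.aeval c f)
    (hL : ∀ x : L, ∃ f : Polynomial E, x = Polynomial.aeval σ f) (x : L) :
    ∃ f : Polynomial E0, x = Polynomial.aeval σ f := by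
  have hmem : x ∈ (Polynomial.aeval σ : Polynomial E0 →ₐ[E0] L).range := by
    have hσ' : σ ∈ (Polynomial.aeval σ : Polynomial E0 →ₐ[E0] L).range :=
      ⟨Polynomial.X, Polynomial.aeval_X σ⟩
    have hc : algebraMap E L c ∈ (Polynomial.aeval σ : Polynomial E0 →ₐ[E0] L).range := by
      rw [← hσ]
      exact Subalgebra.pow_mem _ hσ' n
    obtain ⟨f, rfl⟩ := hL x
    refine fcore_sum _ ?_ σ hσ' f
    intro y
    obtain ⟨f, rfl⟩ := hE y
    rw [← Polynomial.aeval_algebraMap_apply]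
    refine fcore_sum (E := E0) _ ?_ _ hc f
    intro a
    exact Subalgebra.algebraMap_mem _ a
  obtain ⟨f, hf⟩ := hmem
  exact ⟨f, hf.symm⟩

variable {F0 E0 : Type u} [NontriviallyNormedField F0] [IsUltrametricDist F0] [ProperSpace F0]
  [CharP F0 2] [NontriviallyNormedField E0] [NormedAlgebra F0 E0] [ProperSpace E0] [StarRing E0]
  [QExt F0 E0] [Dl E0] [MeasurableSpace E0] [BorelSpace E0]
variable {F E : Type u} [NontriviallyNormedField F] [IsUltrametricDist F] [ProperSpace F]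
  [CharP F 2] [NontriviallyNormedField E] [NormedAlgebra F E] [ProperSpace E] [StarRing E]
  [QExt F E] [Dl E] [MeasurableSpace E] [BorelSpace E]
  [NormedAlgebra F0 F] [NormedAlgebra E0 E] [Algebra F0 E] [KCompat F0 E0 F E]
variable {V : Type u} [AddCommGroup V] [Module E0 V] [Module E V] [IsScalarTower E0 E V]
  [Module.Finite E0 V] [Module.Finite E V] [TopologicalSpace V]
  [IsTopologicalAddGroup V] [T2Space V] [ContinuousSMul E0 V] [ContinuousSMul E V]


theorem f_core {B0 : SkewH E0 V} {B : SkewH E V} (R : FRel B0 B) {p0 : PChar F0} {p : PChar F}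
    (W0 : WeilRep B0 p0) (W : WeilRep B p) (hl : ∀ h : UU B, W.l h = W0.l (R.U h))
    {j k m : ℕ} {c : F} {c0 : F0} (D : FNum F0 E0 F E j k m c c0)
    (hd : Module.finrank E V = m * 2 ^ k) (IH : GrpHyp.{u} (Module.finrank E V - 1)) :
    PGood W (qq k c ^ m) := by
  classical
  intro τ T hT
  by_cases hne : ∃ g₁ : GV E V, g₁ ∈ GP B (qq k c ^ m)
  swap
  · refine LinearMap.ext fun f => ?_
    have h1 : f = 0 := by
      apply SF.ext
      intro z
      exact absurd ⟨z.1, z.2⟩ hne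
    rw [h1, map_zero, map_zero]
  obtain ⟨g₁, hg₁⟩ := hne
  obtain ⟨g₀, X₀, hX₀, e1, e2⟩ := exists_g0 R D hd g₁ hg₁
  obtain ⟨DK⟩ := exists_KData (qq k c) (qq_monic k c) D.irr
  obtain ⟨M, hT1, hC1, hF1, hs1, hadj⟩ := exists_LMod DK B X₀ hX₀
  letI := M
  haveI := hT1
  haveI := hC1
  haveI := hF1
  haveI : FiniteDimensional F DK.K := KCompat.fd (F := F) (E := E) (K := DK.K) (L := DK.L)
  obtain ⟨BL, hBL⟩ := exists_BL F DK.K (L := DK.L) B hadj
  letI : MeasurableSpace DK.L := borel DK.L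
  haveI : BorelSpace DK.L := ⟨rfl⟩
  letI : Dl DK.L := dlL F E DK.K DK.L
  haveI : DComm E DK.L := dcomm_dlL F E DK.K DK.L
  obtain ⟨WL, hl', hr'⟩ := weil_K (K := DK.K) (L := DK.L) W hBL
  let R' : FRel B BL := relOf hBL
  letI : Algebra E0 DK.L := ((algebraMap E DK.L).comp (algebraMap E0 E)).toAlgebra
  haveI hST : IsScalarTower E0 E DK.L := IsScalarTower.of_algebraMap_eq fun _ => rfl
  haveI hSV : IsScalarTower E0 DK.L V := ⟨fun a x v => by
    have h1 : a • x = (algebraMap E0 E a) • x := (algebraMap_smul E a x).symm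
    rw [h1, smul_assoc, algebraMap_smul]⟩
  let RL : FRel B0 BL := R.comp R'
  have hlL : ∀ h : UU BL, WL.l h = W0.l (RL.U h) := fun h => by
    rw [hl', hl]
    rfl
  -- the root
  set σ : DK.L := algebraMap DK.K DK.L DK.s with hσ
  have hsk : DK.s ^ 2 ^ k = algebraMap F DK.K c := by
    have h1 := DK.root
    unfold qq at h1
    rw [map_sub, map_pow, Polynomial.aeval_X, Polynomial.aeval_C, sub_eq_zero] at h1
    exact h1
  haveI := KCompat.tower1 (F := F) (E := E) (K := DK.K) (L := DK.L)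
  haveI := KCompat.tower2 (F := F) (E := E) (K := DK.K) (L := DK.L)
  haveI := KCompat.tower1 (F := F0) (E := E0) (K := F) (L := E)
  haveI := KCompat.tower2 (F := F0) (E := E0) (K := F) (L := E)
  have hσk : σ ^ 2 ^ k = algebraMap E DK.L (algebraMap F E c) := by
    rw [hσ, ← map_pow, hsk, ← IsScalarTower.algebraMap_apply, ← IsScalarTower.algebraMap_apply]
  have hgen : ∀ x : DK.L, ∃ f : Polynomial E0, x = Polynomial.aeval σ f :=
    fcore_gen σ (algebraMap F E c) (2 ^ k) hσk D.hgen DK.genL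
  have hs : σ ^ 2 ^ (j + k) = algebraMap E0 DK.L (algebraMap F0 E0 c0) := by
    rw [pow_add, mul_comm, pow_mul, hσk, ← map_pow, ← map_pow, ← D.hc,
      IsScalarTower.algebraMap_apply E0 E DK.L, ← IsScalarTower.algebraMap_apply F0 F E,
      ← IsScalarTower.algebraMap_apply F0 E0 E]
  -- dimensions
  have hfr := finrank_L (V := V) DK
  rw [qq_natDegree, hd, mul_comm] at hfr
  have h2k : 0 < 2 ^ k := by positivity
  have hLm : Module.finrank DK.L V = m := (Nat.eq_of_mul_eq_mul_left h2k hfr).symm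
  have hpos : 0 < Module.finrank E V := by
    rw [hd]
    exact Nat.mul_pos D.hm0 h2k
  have hm : Module.finrank DK.L V ≤ 2 ^ j := hLm.le.trans D.hm
  -- the similitude
  have hcomm : g₀.1 * X₀.1 = X₀.1 * g₀.1 := by
    calc g₀.1 * X₀.1 = g₀.1 * (adj B g₀.1 * g₀.1) := by rw [e2]
      _ = g₀.1 * adj B g₀.1 * g₀.1 := (mul_assoc _ _ _).symm
      _ = X₀.1 * g₀.1 := by rw [e1]
  obtain ⟨gL, hgL⟩ := (resG_range (E0 := E) σ DK.genL g₀).1 (fun v => by
    rw [hs1, hs1]
    exact LinearMap.congr_fun hcomm v)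
  have hsne : DK.s ≠ 0 := by
    intro h0
    have hX0 : X₀.1 = 0 := by
      ext v
      rw [← hs1 v, hσ, h0, map_zero, zero_smul]
      rfl
    have h1 : adj B g₀.1 = 0 := by
      have h2 : g₀⁻¹.1 * (g₀.1 * adj B g₀.1) = 0 := by rw [e1, hX0, mul_zero]
      have h3 : g₀⁻¹.1 * g₀.1 = 1 := g₀.inv_mul
      rwa [← mul_assoc, h3, one_mul] at h2
    haveI : Nontrivial V := Module.nontrivial_of_finrank_pos hpos
    obtain ⟨v, hv⟩ := exists_ne (0 : V)
    apply hv
    have h3 : g₀.1 v = 0 := by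
      apply B.nondeg
      intro w
      rw [adj_spec, h1]
      have h4 : B.ip v ((0 : E) • w) = 0 := by rw [B.smul_right, star_zero, zero_mul]
      rw [zero_smul] at h4
      exact h4
    have h4 : (g₀⁻¹.1 * g₀.1) v = v := by
      have h5 : g₀⁻¹.1 * g₀.1 = 1 := g₀.inv_mul
      rw [h5]
      rfl
    rw [← h4]
    show g₀⁻¹.1 (g₀.1 v) = 0
    rw [h3, map_zero]
  have hsim : IsSim BL DK.s gL := by
    apply sim_of_adj hsne
    ext v
    have h1 := rel_adj R' gL.1
    have h2 : (gL.1.restrictScalars E : Module.End E V) = g₀.1 := by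
      rw [← hgL]
      rfl
    rw [h2] at h1
    show gL.1 (adj BL gL.1 v) = σ • v
    have h3 : adj BL gL.1 v = adj B g₀.1 v := (LinearMap.congr_fun h1 v).symm
    have h4 : ∀ w, gL.1 w = g₀.1 w := fun w => LinearMap.congr_fun h2 w
    rw [h3, h4, hs1]
    exact LinearMap.congr_fun e1 v
  -- the involution and the transfer
  obtain ⟨τL⟩ := exists_tau BL (QExt.nontriv (F := DK.K) (E := DK.L))
  have hT' := inGP_tau W τ (R'.tau τL) (qq k c ^ m) T hT
  obtain ⟨T', hT'0, hinv, a, ha, hanti⟩ := f_up R W0 W hl D hd (R'.tau τL) T hT'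
  obtain ⟨D2, hD0, hDE, hDS⟩ := f_down RL W0 WL hlL j k c0 D.irr2 DK.s hgen hs hm gL hsim τL T'
    hinv a ha hanti
  apply hT'0
  apply hD0
  refine grpP3_gen WL hsim τL (Polynomial.X ^ Module.finrank DK.L V) (Polynomial.monic_X_pow _)
    ?_ D2 hDE hDS
  intro w hw
  rw [shiftP_X_pow _ _ hsne hw]
  have hgood : GrpGood WL := by
    refine IH DK.K DK.L V BL (p.ext DK.K) WL ?_
    rw [hLm, hd]
    have h5 : 2 ≤ 2 ^ k := by
      calc 2 = 2 ^ 1 := (pow_one 2).symm
        _ ≤ 2 ^ k := Nat.pow_le_pow_right (by norm_num) D.hk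
    have h6 : m * 2 ≤ m * 2 ^ k := Nat.mul_le_mul_left m h5
    have h7 := D.hm0
    omega
  intro τ' S hS
  obtain ⟨a1, a2, a3, a4⟩ := inG_of_inGP WL τ' _ S hS
  exact a4 (hgood τ' _ a1 a2)

end

end Pool.Agent.Work.MP_dd0ddf_al.C2
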