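import Pool.Agent.Work.MP_dd0ddf_al.C2.FNum
import Pool.Agent.Work.MP_dd0ddf_al.C2.Defs2

/-!
# MP_dd0ddf_al (characteristic 2), module FIrr: the numerical data for F0 = F^(2^j)

`irr`: hbad.  c is not a square in E: if c = b^2 then `x^(2^k) - c = (x^(2^(k-1)) - b)^2` is not irreducible (k > 0).
LEMMA: in a field M of characteristic 2 with a not a square, `X^(2^n) - C a` is irreducible: induction on n / Mathlib (search: X_pow_sub_C_irreducible, Polynomial.irreducible... natSepDegree_eq_one_iff, IsPurelyInseparable minpoly_eq_X_pow_sub_C).  Direct proof: let α be a root of X^(2^n) - a in an algebraic closure, f = minpoly of α over M; f divides (X - α)^(2^n), so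
f = (X - α)^d, d ≤ 2^n; write d = 2^r e, e odd: f = (X^(2^r) - α^(2^r))^e, the coefficient of X^(2^r (e-1)) is e α^(2^r) ∈ M, so β := α^(2^r) ∈ M (e odd, char 2) and f = X^(2^r) - β by minimality (e = 1); if r < n then `β^(2^(n-r)) = a` so a is a square; so r = n and f = X^(2^n) - a.
irr1, irr2: `(qq n (σF c)).map (algebraMap F0 E0) = (qq n (algebraMap F E c)).map σ` (hσσ), and σ : E ≃+* E0 is an isomorphism (Polynomial.mapEquiv preserves irreducibility); c not a square in E.
hgen: the minimal polynomial of `algebraMap F E c` over E0 is `qq j (σ c)`, irreducible of degree 2^j (root: `c^(2^j) = algebraMap (σ c)`), so `E0[c]` has dimension 2^j = finrank E0 E (KCompat.deg: finrank F0 F = finrank E0 E), hence is E (IntermediateField / Algebra.adjoin finrank; FiniteDimensional).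
-/

set_option linter.unusedSectionVars false
set_option linter.style.haveILetI false

namespace Pool.Agent.Work.MP_dd0ddf_al.C2

noncomputable section

universe u

variable {F0 E0 : Type u} [NontriviallyNormedField F0] [IsUltrametricDist F0] [ProperSpace F0]
  [CharP F0 2] [NontriviallyNormedField E0] [NormedAlgebra F0 E0] [ProperSpace E0] [StarRing E0]
  [QExt F0 E0]
variable {F E : Type u} [NontriviallyNormedField F] [IsUltrametricDist F] [ProperSpace F]
  [CharP F 2] [NontriviallyNormedField E] [NormedAlgebra F E] [ProperSpace E] [StarRing E]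
  [QExt F E] [NormedAlgebra F0 F] [NormedAlgebra E0 E] [Algebra F0 E] [KCompat F0 E0 F E]

/-- `x^(2^n) - a` is irreducible in characteristic 2 if `a` is not a square. -/
private theorem fi_irr {M : Type*} [Field M] [CharP M 2] {a : M} (ha : ∀ b : M, b ^ 2 ≠ a)
    (n : ℕ) : Irreducible (Polynomial.X ^ 2 ^ n - Polynomial.C a : Polynomial M) := by
  haveI : ExpChar M 2 := ExpChar.prime Nat.prime_two
  have hpos : (0 : ℕ) < 2 ^ n := by positivity
  have hdeg : (Polynomial.X ^ 2 ^ n - Polynomial.C a : Polynomial M).degree ≠ 0 := by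
    rw [Polynomial.degree_X_pow_sub_C hpos]
    exact_mod_cast hpos.ne'
  obtain ⟨α, hα⟩ := IsAlgClosed.exists_aeval_eq_zero (AlgebraicClosure M)
    (Polynomial.X ^ 2 ^ n - Polynomial.C a : Polynomial M) hdeg
  have hα' : α ^ 2 ^ n = algebraMap M (AlgebraicClosure M) a := by
    rw [map_sub, map_pow, Polynomial.aeval_X, Polynomial.aeval_C, sub_eq_zero] at hα
    exact hα
  have hint : IsIntegral M α := Algebra.IsIntegral.isIntegral α
  obtain ⟨r, β, hβ⟩ := (minpoly.natSepDegree_eq_one_iff_eq_X_pow_sub_C (F := M) 2).1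
    ((minpoly.natSepDegree_eq_one_iff_pow_mem (F := M) (x := α) 2).2 ⟨n, ⟨a, hα'.symm⟩⟩)
  have hle : 2 ^ r ≤ 2 ^ n := by
    have h1 := Polynomial.natDegree_le_of_dvd (minpoly.dvd M α hα)
      (Polynomial.X_pow_sub_C_ne_zero hpos a)
    rwa [hβ, Polynomial.natDegree_X_pow_sub_C, Polynomial.natDegree_X_pow_sub_C] at h1
  have hrn : r ≤ n := (Nat.pow_le_pow_iff_right Nat.one_lt_two).1 hle
  have hβα : α ^ 2 ^ r = algebraMap M (AlgebraicClosure M) β := by
    have h1 := minpoly.aeval M α
    rw [hβ, map_sub, map_pow, Polynomial.aeval_X, Polynomial.aeval_C, sub_eq_zero] at h1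
    exact h1
  rcases Nat.lt_or_ge r n with hlt | hge
  · exfalso
    obtain ⟨m, rfl⟩ : ∃ m, n = r + (m + 1) := ⟨n - r - 1, by omega⟩
    apply ha (β ^ 2 ^ m)
    apply (algebraMap M (AlgebraicClosure M)).injective
    rw [← hα', map_pow, map_pow, ← hβα, ← pow_mul, ← pow_mul]
    rw [pow_add 2 r, pow_succ 2 m]
  · have hr : r = n := le_antisymm hrn hge
    subst hr
    have hab : β = a := (algebraMap M (AlgebraicClosure M)).injective (by rw [← hβα, hα'])
    rw [← hab, ← hβ]
    exact minpoly.irreducible hint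

theorem f_num (j : ℕ) (σ : E ≃+* E0) (hσ : ∀ x, algebraMap E0 E (σ x) = x ^ 2 ^ j)
    (σF : F ≃+* F0) (hσF : ∀ x, algebraMap F0 F (σF x) = x ^ 2 ^ j)
    (hσσ : ∀ x : F, σ (algebraMap F E x) = algebraMap F0 E0 (σF x))
    (deg : Module.finrank F0 F = 2 ^ j) {k m : ℕ} {c : F}
    (hbad : Bad F E (Polynomial.X ^ 2 ^ k - Polynomial.C c)) (hk : 0 < k) (hm0 : 0 < m)
    (hm : m ≤ 2 ^ j) : FNum F0 E0 F E j k m c (σF c) := by
  have hsq : ∀ b : E, b ^ 2 ≠ algebraMap F E c := by
    have h1 := hbad.2.1
    rw [Polynomial.map_sub, Polynomial.map_pow, Polynomial.map_X, Polynomial.map_C] at h1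
    intro b
    exact pow_ne_of_irreducible_X_pow_sub_C h1 (dvd_pow_self 2 hk.ne') (by norm_num) b
  have hsq0 : ∀ b : E0, b ^ 2 ≠ σ (algebraMap F E c) := by
    intro b hb
    apply hsq (σ.symm b)
    rw [← map_pow, hb, RingEquiv.symm_apply_apply]
  haveI : CharP E0 2 := charP_of_injective_algebraMap (algebraMap F0 E0).injective 2
  have hmap : ∀ n : ℕ, (qq n (σF c)).map (algebraMap F0 E0) =
      Polynomial.X ^ 2 ^ n - Polynomial.C (σ (algebraMap F E c)) := by
    intro n
    unfold qq
    rw [Polynomial.map_sub, Polynomial.map_pow, Polynomial.map_X, Polynomial.map_C, hσσ]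
  have hirr : ∀ n : ℕ, Irreducible ((qq n (σF c)).map (algebraMap F0 E0)) := by
    intro n
    rw [hmap]
    exact fi_irr hsq0 n
  refine ⟨hσF c, ?_, hirr j, hirr (j + k), hbad.2.1, hk, hm0, hm⟩
  -- generation
  have hroot : Polynomial.aeval (algebraMap F E c)
      (Polynomial.X ^ 2 ^ j - Polynomial.C (σ (algebraMap F E c)) : Polynomial E0) = 0 := by
    rw [map_sub, map_pow, Polynomial.aeval_X, Polynomial.aeval_C, hσ, sub_self]
  have hmin : (Polynomial.X ^ 2 ^ j - Polynomial.C (σ (algebraMap F E c)) : Polynomial E0) =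
      minpoly E0 (algebraMap F E c) :=
    minpoly.eq_of_irreducible_of_monic (fi_irr hsq0 j) hroot
      (Polynomial.monic_X_pow_sub_C _ (by positivity))
  have hfin : Module.finrank E0 E = 2 ^ j := by
    rw [← deg]
    exact (KCompat.deg (F := F0) (E := E0) (K := F) (L := E)).symm
  haveI : FiniteDimensional E0 E := FiniteDimensional.of_finrank_pos (by rw [hfin]; positivity)
  have htop : IntermediateField.adjoin E0 {algebraMap F E c} = ⊤ := by
    rw [Field.primitive_element_iff_minpoly_natDegree_eq, ← hmin,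
      Polynomial.natDegree_X_pow_sub_C, hfin]
  intro x
  have hx : x ∈ (IntermediateField.adjoin E0 {algebraMap F E c}).toSubalgebra := by
    rw [htop]
    trivial
  rw [IntermediateField.adjoin_simple_toSubalgebra_of_isAlgebraic
    (Algebra.IsAlgebraic.isAlgebraic _), Algebra.adjoin_singleton_eq_range_aeval] at hx
  obtain ⟨f, hf⟩ := hx
  exact ⟨f, hf.symm⟩

end

end Pool.Agent.Work.MP_dd0ddf_al.C2
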