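import Pool.Agent.Work.MP_dd0ddf_al.C2.DescThm

/-!
# MP_dd0ddf_al (characteristic 2), module IndThm: induction of invariant functionals from a fibre (converse of the descent theorem)

`D : DescData Γ X O B`, `N` a Γ-invariant positive functional on `SF O ℂ`, `T` a functional on `SF D.Fib B` invariant under the stabiliser.
For `F ∈ SF X B` and `γ ∈ Γ` let `res γ F ∈ SF D.Fib B` be `x ↦ D.R.β γ⁻¹ (F (D.A.act γ x.1))` (the restriction of `D.A.op D.R γ⁻¹ F` to the closed subset Fib).  `φ_F (γ o) := T (res γ F)`: well defined, since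
`res (γ s) F = D.fop s⁻¹ (res γ F)` for s ∈ stab.  Locally constant: F is fixed by `D.A.op D.R u` for u in an open subgroup U (the function F has compact support and is locally constant, R is smooth: this is proved in DescEx / Found for the existence of E_U f,
e.g. as `op_smooth`; if missing: cover the support), `res (u γ) F = res γ (op u⁻¹ F) = res γ F`, and `U y` is open (D.opn).  Compact support: `φ_F(y) ≠ 0` implies y ∈ π(supp F).  So `φ : SF X B →ₗ SF O ℂ`, `T' := N ∘ φ`.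
(a) invariance: `φ_{op γ F} (y) = φ_F (γ⁻¹ y)`; N invariant.
(b) `T' = 0 ⟹ T = 0`: given f ∈ SF Fib B, take U compact open and F with `D.IsEU U f F` (eu_small, eu_exists).  Then `φ_F (u o) = T f` for u ∈ U (`res u F = f`) and φ_F (y) = 0 for y ∉ U o.  So `φ_F = T f • 1_{U o}`, `T' F = T f * N(1_{Uo})`, N(1_{Uo}) > 0.
(c) symmetry: for `y = sΓ(δ) o`: `res (sΓ δ) (opr sX sB F) (x) = β(sΓ δ⁻¹) sB F(sX (sΓ(δ) x)) = sB β(δ⁻¹) F(δ (sX x)) = (opr fibHomeo sB (res δ F)) (x)` (compX, compB).  So `φ_{opr F} (sΓ(δ) o) = ε φ_F (δ o)`.  Let `sO : O ≃ₜ O`, `sO (δ o) = sΓ(δ) o` (well defined by `stb`;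
continuous since the orbit map is open and continuous, a quotient map; inverse from sΓ.symm).  Then `φ_{opr F} = ε φ_F ∘ sO.symm`.  `N' := N ∘ SF.comp sO.symm` is again Γ-invariant: `sO (γ y) = sΓ(γ) sO(y)`.
Uniqueness: `N' = c N` with c > 0: apply `exists_mod` to the DescData with X = O, π = id, R = trivial representation on ℂ (SRep.triv), A = C: its fibre is the point o; with m the modulus: `N (1_{Uo}) = m(U) n`, `N' (1_{Uo}) = m(U) n'` for all compact open U, with n, n' > 0 (positivity of N; N'(1_{Uo}) = N(1_{sO.symm (Uo)}) > 0),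
and desc_zero applied to `N' - (n'/n) N` (it vanishes on all E_U f = f(o) 1_{Uo}) gives N' = (n'/n) N.
-/

set_option linter.unusedSectionVars false
set_option linter.style.haveILetI false

namespace Pool.Agent.Work.MP_dd0ddf_al.C2

noncomputable section

variable {Γ X O B : Type*} [Group Γ] [TopologicalSpace Γ] [IsTopologicalGroup Γ]
  [LocallyCompactSpace Γ] [T2Space Γ] [TotallyDisconnectedSpace Γ] [SigmaCompactSpace Γ]
  [TopologicalSpace X] [T2Space X] [LocallyCompactSpace X] [TotallyDisconnectedSpace X]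
  [TopologicalSpace O] [T2Space O] [LocallyCompactSpace O] [TotallyDisconnectedSpace O]
  [AddCommGroup B] [Module ℂ B]

private theorem indthm_ev (D : DescData Γ X O B) (f : SF X B) :
    ∀ᶠ γ in nhds (1 : Γ), ∀ x ∈ tsupport f.1, D.R.β γ (f (D.A.act γ⁻¹ x)) = f x := by
  have hK : IsCompact (tsupport f.1) := f.2.2
  refine hK.eventually_forall_of_forall_eventually ?_
  intro x _
  have c1 : Continuous fun z : Γ × X => D.A.act z.1⁻¹ z.2 :=
    D.A.cont.comp (continuous_fst.inv.prodMk continuous_snd)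
  have hlc := (IsLocallyConstant.iff_eventually_eq _).mp f.2.1 x
  have e1 : ∀ᶠ z : Γ × X in nhds (1, x), f.1 (D.A.act z.1⁻¹ z.2) = f.1 x := by
    have : Filter.Tendsto (fun z : Γ × X => D.A.act z.1⁻¹ z.2) (nhds (1, x)) (nhds x) := by
      have h := c1.continuousAt (x := ((1, x) : Γ × X))
      unfold ContinuousAt at h
      simp only [inv_one, D.A.one] at h
      exact h
    exact this.eventually hlc
  have e2 : ∀ᶠ z : Γ × X in nhds (1, x), f.1 z.2 = f.1 x :=
    (continuous_snd.continuousAt (x := ((1, x) : Γ × X))).eventually hlc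
  obtain ⟨V, hV, hV1, hVb⟩ := D.R.smooth (f.1 x)
  have e3 : ∀ᶠ z : Γ × X in nhds (1, x), z.1 ∈ V :=
    (continuous_fst.continuousAt (x := ((1, x) : Γ × X))).eventually (hV.mem_nhds hV1)
  filter_upwards [e1, e2, e3] with z h1 h2 h3
  show D.R.β z.1 (f.1 (D.A.act z.1⁻¹ z.2)) = f.1 z.2
  rw [h1, h2, hVb _ h3]

private theorem indthm_small (D : DescData Γ X O B) (f : SF X B) :
    ∃ U : Subgroup Γ, DescData.CO U ∧ ∀ γ ∈ U, ∀ x, f (D.A.act γ x) = D.R.β γ (f x) := by
  obtain ⟨V, hV, hVo, hV1⟩ := eventually_nhds_iff.1 (indthm_ev D f)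
  obtain ⟨U, hU, hUV⟩ := co_basis V hVo hV1
  have key : ∀ γ ∈ U, ∀ x ∈ tsupport f.1, D.R.β γ (f (D.A.act γ⁻¹ x)) = f x :=
    fun γ hγ => hV γ (hUV hγ)
  have key2 : ∀ γ ∈ U, ∀ x, D.R.β γ (f (D.A.act γ⁻¹ x)) = f x := by
    intro γ hγ x
    by_cases hx : x ∈ tsupport f.1
    · exact key γ hγ x hx
    · have h0 : f x = 0 := image_eq_zero_of_notMem_tsupport hx
      have h1 : f (D.A.act γ⁻¹ x) = 0 := by
        by_contra hne
        have hy : D.A.act γ⁻¹ x ∈ tsupport f.1 := subset_tsupport _ hne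
        have h2 := key γ⁻¹ (U.inv_mem hγ) _ hy
        rw [inv_inv, D.A.act_inv, h0, map_zero] at h2
        exact hne h2.symm
      rw [h1, map_zero, h0]
  refine ⟨U, hU, fun γ hγ x => ?_⟩
  have := key2 γ hγ (D.A.act γ x)
  rw [D.A.inv_act] at this
  exact this.symm

/-- the restriction of `γ⁻¹ F` to the fibre -/
private def indthm_res (D : DescData Γ X O B) (γ : Γ) : SF X B →ₗ[ℂ] SF D.Fib B :=
  (SF.restr {x : X | D.π x = D.o} (isClosed_eq D.hπ continuous_const)).comp (D.A.op D.R γ⁻¹)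

private theorem indthm_res_apply (D : DescData Γ X O B) (γ : Γ) (F : SF X B) (x : D.Fib) :
    indthm_res D γ F x = D.R.β γ⁻¹ (F (D.A.act γ x.1)) := by
  show D.R.β γ⁻¹ (F (D.A.act γ⁻¹⁻¹ x.1)) = _
  rw [inv_inv]

/-- a chosen element with `g y • o = y` -/
private def indthm_g (D : DescData Γ X O B) (y : O) : Γ := (D.tr y).choose

private theorem indthm_g_spec (D : DescData Γ X O B) (y : O) : D.C.act (indthm_g D y) D.o = y :=
  (D.tr y).choose_spec

private theorem indthm_stab (D : DescData Γ X O B) {γ δ : Γ} (h : D.C.act γ D.o = D.C.act δ D.o) :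
    δ⁻¹ * γ ∈ D.stab := by
  rw [D.mem_stab, D.C.mul, h, D.C.inv_act]

private theorem indthm_wd (D : DescData Γ X O B) (T : SF D.Fib B →ₗ[ℂ] ℂ)
    (hT : ∀ γ f, T (D.fop γ f) = T f) (F : SF X B) {γ δ : Γ}
    (h : D.C.act γ D.o = D.C.act δ D.o) : T (indthm_res D γ F) = T (indthm_res D δ F) := by
  have hs := indthm_stab D h
  have h1 : D.fop ⟨δ⁻¹ * γ, hs⟩ (indthm_res D γ F) = indthm_res D δ F := by
    apply SF.ext
    intro x
    rw [D.fop_apply, indthm_res_apply, indthm_res_apply]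
    show D.R.β (δ⁻¹ * γ) (D.R.β γ⁻¹ (F (D.A.act γ (D.A.act (δ⁻¹ * γ)⁻¹ x.1)))) = _
    have e1 : D.A.act γ (D.A.act (δ⁻¹ * γ)⁻¹ x.1) = D.A.act δ x.1 := by
      rw [← D.A.mul]
      congr 1
      group
    have e2 : D.R.β (δ⁻¹ * γ) * D.R.β γ⁻¹ = D.R.β δ⁻¹ := by
      rw [← map_mul]
      congr 1
      group
    rw [e1]
    exact congrArg (fun φ : Module.End ℂ B => φ (F (D.A.act δ x.1))) e2
  rw [← h1, hT]

/-- the function `φ_F` on `O` -/
private def indthm_fun (D : DescData Γ X O B) (T : SF D.Fib B →ₗ[ℂ] ℂ) (F : SF X B) (y : O) : ℂ :=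
  T (indthm_res D (indthm_g D y) F)

private theorem indthm_fun_eq (D : DescData Γ X O B) (T : SF D.Fib B →ₗ[ℂ] ℂ)
    (hT : ∀ γ f, T (D.fop γ f) = T f) (F : SF X B) (γ : Γ) :
    indthm_fun D T F (D.C.act γ D.o) = T (indthm_res D γ F) :=
  indthm_wd D T hT F (indthm_g_spec D _)

private theorem indthm_orbc (D : DescData Γ X O B) : Continuous fun g : Γ => D.C.act g D.o :=
  D.C.cont.comp (continuous_id.prodMk continuous_const)

private theorem indthm_lc (D : DescData Γ X O B) (T : SF D.Fib B →ₗ[ℂ] ℂ)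
    (hT : ∀ γ f, T (D.fop γ f) = T f) (F : SF X B) : IsLocallyConstant (indthm_fun D T F) := by
  rw [IsLocallyConstant.iff_eventually_eq]
  intro y
  obtain ⟨U, hU, hF⟩ := indthm_small D F
  obtain ⟨γ, rfl⟩ := D.tr y
  have hM : IsOpen ((fun g => D.C.act g D.o) '' ((fun u => u * γ) '' (U : Set Γ))) :=
    D.opn _ ((isOpenMap_mul_right γ) _ hU.1)
  have hmem : D.C.act γ D.o ∈ (fun g => D.C.act g D.o) '' ((fun u => u * γ) '' (U : Set Γ)) :=
    ⟨γ, ⟨1, U.one_mem, one_mul γ⟩, rfl⟩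
  filter_upwards [hM.mem_nhds hmem] with z hz
  obtain ⟨_, ⟨u, hu, rfl⟩, rfl⟩ := hz
  show indthm_fun D T F (D.C.act (u * γ) D.o) = _
  rw [indthm_fun_eq D T hT, indthm_fun_eq D T hT]
  congr 1
  apply SF.ext
  intro x
  rw [indthm_res_apply, indthm_res_apply, D.A.mul, hF u hu]
  have e2 : D.R.β (u * γ)⁻¹ * D.R.β u = D.R.β γ⁻¹ := by
    rw [← map_mul]
    congr 1
    group
  exact congrArg (fun φ : Module.End ℂ B => φ (F (D.A.act γ x.1))) e2

private theorem indthm_cs (D : DescData Γ X O B) (T : SF D.Fib B →ₗ[ℂ] ℂ)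
    (hT : ∀ γ f, T (D.fop γ f) = T f) (F : SF X B) : HasCompactSupport (indthm_fun D T F) := by
  have hK : IsCompact (D.π '' tsupport F.1) := F.2.2.image D.hπ
  refine HasCompactSupport.of_support_subset_isCompact hK ?_
  intro y hy
  rw [Function.mem_support] at hy
  by_contra hny
  apply hy
  obtain ⟨γ, rfl⟩ := D.tr y
  rw [indthm_fun_eq D T hT]
  have h0 : indthm_res D γ F = 0 := by
    apply SF.ext
    intro x
    rw [indthm_res_apply]
    have h1 : F (D.A.act γ x.1) = 0 := by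
      by_contra hne
      apply hny
      refine ⟨D.A.act γ x.1, subset_tsupport _ hne, ?_⟩
      rw [D.eqv, x.2]
    rw [h1, map_zero]
    rfl
  rw [h0, map_zero]

/-- `F ↦ φ_F` -/
private def indthm_phi (D : DescData Γ X O B) (T : SF D.Fib B →ₗ[ℂ] ℂ)
    (hT : ∀ γ f, T (D.fop γ f) = T f) : SF X B →ₗ[ℂ] SF O ℂ where
  toFun F := ⟨indthm_fun D T F, indthm_lc D T hT F, indthm_cs D T hT F⟩
  map_add' F G := by
    apply Subtype.ext
    funext y
    show T (indthm_res D (indthm_g D y) (F + G)) = _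
    rw [map_add, map_add]
    rfl
  map_smul' c F := by
    apply Subtype.ext
    funext y
    show T (indthm_res D (indthm_g D y) (c • F)) = _
    rw [map_smul, map_smul]
    rfl

private theorem indthm_phi_eq (D : DescData Γ X O B) (T : SF D.Fib B →ₗ[ℂ] ℂ)
    (hT : ∀ γ f, T (D.fop γ f) = T f) (F : SF X B) (γ : Γ) :
    indthm_phi D T hT F (D.C.act γ D.o) = T (indthm_res D γ F) := indthm_fun_eq D T hT F γ

private theorem indthm_phi_op (D : DescData Γ X O B) (T : SF D.Fib B →ₗ[ℂ] ℂ)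
    (hT : ∀ γ f, T (D.fop γ f) = T f) (F : SF X B) (δ : Γ) :
    indthm_phi D T hT (D.A.op D.R δ F) = SF.comp (D.C.homeo δ⁻¹) (indthm_phi D T hT F) := by
  apply SF.ext
  intro y
  obtain ⟨γ, rfl⟩ := D.tr y
  rw [SF.comp_apply, CAct.homeo_apply, ← D.C.mul, indthm_phi_eq, indthm_phi_eq]
  congr 1
  apply SF.ext
  intro x
  rw [indthm_res_apply, indthm_res_apply, CAct.op_apply]
  have e2 : D.R.β γ⁻¹ * D.R.β δ = D.R.β (δ⁻¹ * γ)⁻¹ := by
    rw [← map_mul]
    congr 1
    group
  rw [← D.A.mul]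
  exact congrArg (fun φ : Module.End ℂ B => φ (F (D.A.act (δ⁻¹ * γ) x.1))) e2

/-- the orbit `U o` -/
private def indthm_orb (D : DescData Γ X O B) (U : Subgroup Γ) : Set O :=
  (fun g => D.C.act g D.o) '' (U : Set Γ)

private theorem indthm_orb_open (D : DescData Γ X O B) {U : Subgroup Γ} (hU : DescData.CO U) :
    IsOpen (indthm_orb D U) := D.opn _ hU.1

private theorem indthm_orb_cpt (D : DescData Γ X O B) {U : Subgroup Γ} (hU : DescData.CO U) :
    IsCompact (indthm_orb D U) := hU.2.image (indthm_orbc D)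

private theorem indthm_orb_ne (D : DescData Γ X O B) (U : Subgroup Γ) :
    (indthm_orb D U).Nonempty := ⟨_, ⟨1, U.one_mem, rfl⟩⟩

private theorem indthm_phi_eu (D : DescData Γ X O B) (T : SF D.Fib B →ₗ[ℂ] ℂ)
    (hT : ∀ γ f, T (D.fop γ f) = T f) {U : Subgroup Γ} (hU : DescData.CO U) {f : SF D.Fib B}
    {F : SF X B} (hF : D.IsEU U f F) :
    indthm_phi D T hT F =
      (T f) • SF.single (indthm_orb D U) (indthm_orb_cpt D hU) (indthm_orb_open D hU) (1 : ℂ) := by
  apply SF.ext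
  intro y
  show _ = T f • (SF.single (indthm_orb D U) (indthm_orb_cpt D hU) (indthm_orb_open D hU)
    (1 : ℂ)) y
  by_cases hy : y ∈ indthm_orb D U
  · rw [SF.single_apply_mem _ _ _ _ _ hy]
    obtain ⟨u, hu, rfl⟩ := hy
    show indthm_phi D T hT F (D.C.act u D.o) = _
    rw [indthm_phi_eq, smul_eq_mul, mul_one]
    congr 1
    apply SF.ext
    intro x
    rw [indthm_res_apply, hF.1 u hu]
    have e2 : D.R.β u⁻¹ * D.R.β u = 1 := by
      rw [← map_mul, inv_mul_cancel, map_one]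
    exact congrArg (fun φ : Module.End ℂ B => φ (f x)) e2
  · rw [SF.single_apply_not_mem _ _ _ _ _ hy, smul_zero]
    obtain ⟨γ, rfl⟩ := D.tr y
    rw [indthm_phi_eq]
    have h0 : indthm_res D γ F = 0 := by
      apply SF.ext
      intro x
      rw [indthm_res_apply, hF.2, map_zero]
      · rfl
      · intro u hu hux
        apply hy
        refine ⟨u, hu, ?_⟩
        show D.C.act u D.o = _
        rw [hux, D.eqv, x.2]
    rw [h0, map_zero]

/-! ## the symmetry on `O` -/

private theorem indthm_sO_wd (D : DescData Γ X O B) (φ : Γ ≃* Γ)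
    (h : ∀ γ, γ ∈ D.stab → φ γ ∈ D.stab) {γ δ : Γ} (hγ : D.C.act γ D.o = D.C.act δ D.o) :
    D.C.act (φ γ) D.o = D.C.act (φ δ) D.o := by
  have hs := h _ (indthm_stab D hγ)
  rw [D.mem_stab, map_mul, map_inv, D.C.mul] at hs
  have := congrArg (D.C.act (φ δ)) hs
  rwa [D.C.act_inv] at this

private def indthm_sOf (D : DescData Γ X O B) (φ : Γ ≃* Γ) (y : O) : O :=
  D.C.act (φ (indthm_g D y)) D.o

private theorem indthm_sOf_eq (D : DescData Γ X O B) (φ : Γ ≃* Γ)
    (h : ∀ γ, γ ∈ D.stab → φ γ ∈ D.stab) (γ : Γ) :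
    indthm_sOf D φ (D.C.act γ D.o) = D.C.act (φ γ) D.o :=
  indthm_sO_wd D φ h (indthm_g_spec D _)

private theorem indthm_sOf_cont (D : DescData Γ X O B) (φ : Γ ≃* Γ) (hc : Continuous φ)
    (h : ∀ γ, γ ∈ D.stab → φ γ ∈ D.stab) : Continuous (indthm_sOf D φ) := by
  have hq : Topology.IsQuotientMap fun g : Γ => D.C.act g D.o :=
    IsOpenMap.isQuotientMap D.opn (indthm_orbc D) D.tr
  rw [hq.continuous_iff]
  have : (indthm_sOf D φ ∘ fun g : Γ => D.C.act g D.o) =
      (fun g : Γ => D.C.act g D.o) ∘ φ := by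
    funext g
    exact indthm_sOf_eq D φ h g
  rw [this]
  exact (indthm_orbc D).comp hc

private def indthm_sO {D : DescData Γ X O B} (s : D.DSym) : O ≃ₜ O where
  toFun := indthm_sOf D s.sΓ
  invFun := indthm_sOf D s.sΓ.symm
  left_inv y := by
    obtain ⟨γ, rfl⟩ := D.tr y
    rw [indthm_sOf_eq D _ (fun γ hγ => (s.stb γ).1 hγ), indthm_sOf_eq D _ (fun γ hγ => (s.stb _).2
      (by rw [MulEquiv.apply_symm_apply]; exact hγ)), MulEquiv.symm_apply_apply]
  right_inv y := by
    obtain ⟨γ, rfl⟩ := D.tr y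
    rw [indthm_sOf_eq D _ (fun γ hγ => (s.stb _).2
      (by rw [MulEquiv.apply_symm_apply]; exact hγ)), indthm_sOf_eq D _
      (fun γ hγ => (s.stb γ).1 hγ), MulEquiv.apply_symm_apply]
  continuous_toFun := indthm_sOf_cont D _ s.cont (fun γ hγ => (s.stb γ).1 hγ)
  continuous_invFun := indthm_sOf_cont D _ s.cont' (fun γ hγ => (s.stb _).2
      (by rw [MulEquiv.apply_symm_apply]; exact hγ))

private theorem indthm_sO_eq {D : DescData Γ X O B} (s : D.DSym) (γ : Γ) :
    indthm_sO s (D.C.act γ D.o) = D.C.act (s.sΓ γ) D.o :=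
  indthm_sOf_eq D _ (fun γ hγ => (s.stb γ).1 hγ) γ

private theorem indthm_sO_act {D : DescData Γ X O B} (s : D.DSym) (γ : Γ) (y : O) :
    indthm_sO s (D.C.act γ y) = D.C.act (s.sΓ γ) (indthm_sO s y) := by
  obtain ⟨δ, rfl⟩ := D.tr y
  rw [← D.C.mul, indthm_sO_eq, indthm_sO_eq, map_mul, D.C.mul]

private theorem indthm_phi_opr (D : DescData Γ X O B) (T : SF D.Fib B →ₗ[ℂ] ℂ)
    (hT : ∀ γ f, T (D.fop γ f) = T f) (s : D.DSym) (ε : ℂ)
    (hε : ∀ f, T (SF.opr s.fibHomeo s.sB f) = ε * T f) (F : SF X B) :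
    indthm_phi D T hT (SF.opr s.sX s.sB F) =
      ε • SF.comp (indthm_sO s).symm (indthm_phi D T hT F) := by
  apply SF.ext
  intro z
  obtain ⟨y, rfl⟩ := (indthm_sO s).surjective z
  show _ = ε • (indthm_phi D T hT F) ((indthm_sO s).symm (indthm_sO s y))
  rw [Homeomorph.symm_apply_apply, smul_eq_mul]
  obtain ⟨γ, rfl⟩ := D.tr y
  rw [indthm_sO_eq, indthm_phi_eq, indthm_phi_eq, ← hε]
  congr 1
  apply SF.ext
  intro x
  rw [indthm_res_apply, SF.opr_apply, SF.opr_apply, indthm_res_apply, s.compX, s.compB, ← map_inv s.sΓ]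
  rfl

/-! ## uniqueness of the invariant functional on `O` -/

/-- the descent datum of the identity of `O` -/
private def indthm_D1 (D : DescData Γ X O B) : DescData Γ O O ℂ where
  A := D.C
  C := D.C
  R := SRep.triv Γ ℂ
  π := fun y => y
  hπ := continuous_id
  eqv _ _ := rfl
  o := D.o
  tr := D.tr
  opn := D.opn

/-- the constant function on the fibre of `indthm_D1` -/
private def indthm_one (D : DescData Γ X O B) : SF (indthm_D1 D).Fib ℂ :=
  haveI : Subsingleton (indthm_D1 D).Fib := ⟨fun a b => Subtype.ext (a.2.trans b.2.symm)⟩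
  haveI : Finite (indthm_D1 D).Fib := Finite.of_subsingleton
  SF.single Set.univ isCompact_univ isOpen_univ 1

private theorem indthm_one_apply (D : DescData Γ X O B) (x : (indthm_D1 D).Fib) :
    indthm_one D x = 1 := SF.single_apply_mem _ _ _ _ _ (Set.mem_univ x)

private theorem indthm_one_eu (D : DescData Γ X O B) {U : Subgroup Γ} (hU : DescData.CO U) :
    (indthm_D1 D).IsEU U (indthm_one D)
      (SF.single (indthm_orb D U) (indthm_orb_cpt D hU) (indthm_orb_open D hU) (1 : ℂ)) := by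
  constructor
  · intro u hu x
    rw [indthm_one_apply]
    show _ = (1 : ℂ)
    refine SF.single_apply_mem _ _ _ _ _ ⟨u, hu, ?_⟩
    have hx : x.1 = D.o := x.2
    show D.C.act u D.o = D.C.act u x.1
    rw [hx]
  · intro y hy
    refine SF.single_apply_not_mem _ _ _ _ _ ?_
    rintro ⟨u, hu, h⟩
    exact hy u hu h

private theorem indthm_unique (D : DescData Γ X O B) (N N' : SF O ℂ →ₗ[ℂ] ℂ)
    (hN : ∀ γ f, N (SF.comp (D.C.homeo γ) f) = N f)
    (hN' : ∀ γ f, N' (SF.comp (D.C.homeo γ) f) = N' f)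
    (hpos : ∀ (K : Set O) (hK : IsCompact K) (hK' : IsOpen K), K.Nonempty →
      ∃ r : ℝ, 0 < r ∧ N (SF.single K hK hK' 1) = r)
    (hpos' : ∀ (K : Set O) (hK : IsCompact K) (hK' : IsOpen K), K.Nonempty →
      ∃ r : ℝ, 0 < r ∧ N' (SF.single K hK hK' 1) = r) :
    ∃ c : ℝ, 0 < c ∧ ∀ f, N' f = c * N f := by
  obtain ⟨m, hm⟩ := exists_mod (indthm_D1 D)
  have inv1 : ∀ γ f, N ((indthm_D1 D).A.op (indthm_D1 D).R γ f) = N f := by
    intro γ f
    rw [← hN γ⁻¹ f]
    rfl
  have inv2 : ∀ γ f, N' ((indthm_D1 D).A.op (indthm_D1 D).R γ f) = N' f := by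
    intro γ f
    rw [← hN' γ⁻¹ f]
    rfl
  obtain ⟨S, hS⟩ := hm.2.2 N inv1
  obtain ⟨S', hS'⟩ := hm.2.2 N' inv2
  obtain ⟨U, hU, -⟩ := co_basis (Set.univ : Set Γ) isOpen_univ (Set.mem_univ _)
  obtain ⟨r, hr, h1⟩ := hpos _ (indthm_orb_cpt D hU) (indthm_orb_open D hU) (indthm_orb_ne D U)
  obtain ⟨r', hr', h2⟩ := hpos' _ (indthm_orb_cpt D hU) (indthm_orb_open D hU) (indthm_orb_ne D U)
  rw [hS U _ _ hU (indthm_one_eu D hU)] at h1
  rw [hS' U _ _ hU (indthm_one_eu D hU)] at h2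
  have hmU : 0 < m U := hm.1 U hU
  have hrC : (r : ℂ) ≠ 0 := by
    rw [Ne, Complex.ofReal_eq_zero]
    exact hr.ne'
  have hmC : (m U : ℂ) ≠ 0 := by
    rw [Ne, Complex.ofReal_eq_zero]
    exact hmU.ne'
  refine ⟨r' / r, div_pos hr' hr, ?_⟩
  have hzero : N' - ((r' / r : ℝ) : ℂ) • N = 0 := by
    refine desc_zero (indthm_D1 D) _ ?_ ?_
    · intro γ f
      rw [LinearMap.sub_apply, LinearMap.sub_apply, LinearMap.smul_apply, LinearMap.smul_apply,
        inv1, inv2]
    · intro V f F hV hF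
      rw [LinearMap.sub_apply, LinearMap.smul_apply, hS V f F hV hF, hS' V f F hV hF]
      -- `f` is a multiple of the constant function
      have hf : f = (f ⟨D.o, rfl⟩) • indthm_one D := by
        apply SF.ext
        intro x
        show f x = f ⟨D.o, rfl⟩ • indthm_one D x
        rw [indthm_one_apply, smul_eq_mul, mul_one]
        have hx : x = ⟨D.o, rfl⟩ := Subtype.ext x.2
        rw [hx]
      rw [hf, map_smul, map_smul, smul_eq_mul, smul_eq_mul, smul_eq_mul]
      have hSv : S (indthm_one D) = r / m U := by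
        rw [← h1]
        field_simp
      have hSv' : S' (indthm_one D) = r' / m U := by
        rw [← h2]
        field_simp
      rw [hSv, hSv', Complex.ofReal_div]
      field_simp
      ring
  intro f
  have h3 := congrArg (fun l : SF O ℂ →ₗ[ℂ] ℂ => l f) hzero
  simp only [LinearMap.sub_apply, LinearMap.smul_apply, LinearMap.zero_apply, smul_eq_mul] at h3
  linear_combination h3

theorem induce (D : DescData Γ X O B) (N : SF O ℂ →ₗ[ℂ] ℂ)
    (hN : ∀ γ f, N (SF.comp (D.C.homeo γ) f) = N f)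
    (hpos : ∀ (K : Set O) (hK : IsCompact K) (hK' : IsOpen K), K.Nonempty →
      ∃ r : ℝ, 0 < r ∧ N (SF.single K hK hK' 1) = r)
    (T : SF D.Fib B →ₗ[ℂ] ℂ) (hT : ∀ γ f, T (D.fop γ f) = T f) :
    ∃ T' : SF X B →ₗ[ℂ] ℂ, (T' = 0 → T = 0) ∧ (∀ γ f, T' (D.A.op D.R γ f) = T' f) ∧
      ∀ (s : D.DSym) (ε : ℂ), (∀ f, T (SF.opr s.fibHomeo s.sB f) = ε * T f) →
        ∃ c : ℝ, 0 < c ∧ ∀ f, T' (SF.opr s.sX s.sB f) = ε * c * T' f := by
  refine ⟨N.comp (indthm_phi D T hT), ?_, ?_, ?_⟩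
  · intro h0
    apply LinearMap.ext
    intro f
    obtain ⟨U, hU, h⟩ := eu_small D f
    obtain ⟨F, hF⟩ := eu_exists D f U hU h
    obtain ⟨r, hr, h1⟩ := hpos _ (indthm_orb_cpt D hU) (indthm_orb_open D hU)
      (indthm_orb_ne D U)
    have h2 := congrArg (fun l : SF X B →ₗ[ℂ] ℂ => l F) h0
    simp only [LinearMap.comp_apply, LinearMap.zero_apply] at h2
    rw [indthm_phi_eu D T hT hU hF, map_smul, h1, smul_eq_mul] at h2
    have hrC : (r : ℂ) ≠ 0 := by
      rw [Ne, Complex.ofReal_eq_zero]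
      exact hr.ne'
    rw [LinearMap.zero_apply]
    exact (mul_eq_zero.1 h2).resolve_right hrC
  · intro γ f
    rw [LinearMap.comp_apply, LinearMap.comp_apply, indthm_phi_op, hN]
  · intro s ε hε
    obtain ⟨c, hc, h⟩ := indthm_unique D N (N.comp (SF.comp (indthm_sO s).symm)) hN
      (by
        intro γ f
        rw [LinearMap.comp_apply, LinearMap.comp_apply,
          ← hN (s.sΓ γ) (SF.comp (indthm_sO s).symm f)]
        congr 1
        apply SF.ext
        intro y
        show f (D.C.act γ ((indthm_sO s).symm y)) =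
          f ((indthm_sO s).symm (D.C.act (s.sΓ γ) y))
        refine congrArg f.1 ?_
        apply (indthm_sO s).injective
        rw [indthm_sO_act, Homeomorph.apply_symm_apply, Homeomorph.apply_symm_apply])
      hpos
      (by
        intro K hK hK' hne
        have hcK : IsCompact ((indthm_sO s).symm ⁻¹' K) := by
          rw [← Homeomorph.image_eq_preimage_symm]
          exact hK.image (indthm_sO s).continuous
        have hoK : IsOpen ((indthm_sO s).symm ⁻¹' K) := hK'.preimage (indthm_sO s).symm.continuous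
        have hnK : ((indthm_sO s).symm ⁻¹' K).Nonempty := by
          obtain ⟨y, hy⟩ := hne
          refine ⟨indthm_sO s y, ?_⟩
          show (indthm_sO s).symm (indthm_sO s y) ∈ K
          rw [Homeomorph.symm_apply_apply]
          exact hy
        obtain ⟨r, hr, h1⟩ := hpos _ hcK hoK hnK
        refine ⟨r, hr, ?_⟩
        rw [← h1, LinearMap.comp_apply]
        congr 1
        )
    refine ⟨c, hc, fun F => ?_⟩
    rw [LinearMap.comp_apply, indthm_phi_opr D T hT s ε hε, map_smul, smul_eq_mul]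
    have h2 := h (indthm_phi D T hT F)
    rw [LinearMap.comp_apply] at h2
    rw [h2, LinearMap.comp_apply]
    ring

end

end Pool.Agent.Work.MP_dd0ddf_al.C2
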