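import Pool.Agent.Work.MP_dd0ddf_al.C2.FibA0
import Pool.Agent.Work.MP_dd0ddf_al.C2.BiHaarT

/-!
# MP_dd0ddf_al (characteristic 2), module InvA: the invariant functional on Sigma x Sigma

`exists_invI` (IndI) with Γ = UU B0 × UU B0, O = SigQ B0 q1 × SigQ B0 q1 (locally compact: lc_SigQ2), C = sqC B0 q1, o = (c, c), transitive by sqC_trans.
I: biHaar_UU twice and biHaar_prod.  J on the stabiliser `(sqC B0 q1).stab (c, c)`: this group is `{γ | γ.1 and γ.2 commute with c}`, and `e : stab ≃ₜ UU B × UU B`, inverse `(h1, h2) ↦ (R.U h1, R.U h2)` (resG_range with s = algebraMap F E c and D.hgen, rel_uu, resG_emb);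
biHaar_transport from biHaar_prod of biHaar_UU F B twice.  (lc_UU, td_UU for the instances; σ-compactness of UU B0 × UU B0 as in XData / GrpDesc.)
-/

set_option linter.unusedSectionVars false
set_option linter.style.haveILetI false

namespace Pool.Agent.Work.MP_dd0ddf_al.C2

noncomputable section

universe u

variable {F0 E0 : Type u} [NontriviallyNormedField F0] [IsUltrametricDist F0] [ProperSpace F0]
  [CharP F0 2] [NontriviallyNormedField E0] [NormedAlgebra F0 E0] [ProperSpace E0] [StarRing E0]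
  [QExt F0 E0] [Dl E0] [MeasurableSpace E0] [BorelSpace E0]
variable {F E : Type u} [NontriviallyNormedField F] [IsUltrametricDist F] [ProperSpace F]
  [CharP F 2] [NontriviallyNormedField E] [NormedAlgebra F E] [ProperSpace E] [StarRing E]
  [QExt F E] [Dl E] [MeasurableSpace E] [BorelSpace E]
  [NormedAlgebra F0 F] [NormedAlgebra E0 E] [Algebra F0 E] [KCompat F0 E0 F E]
variable {V : Type u} [AddCommGroup V] [Module E0 V] [Module E V] [IsScalarTower E0 E V]
  [Module.Finite E0 V] [Module.Finite E V] [TopologicalSpace V]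
  [IsTopologicalAddGroup V] [T2Space V] [ContinuousSMul E0 V] [ContinuousSMul E V]

private theorem inva_act {B0 : SkewH E0 V} {B : SkewH E V} (R : FRel B0 B) (c : F) (h : UU B) :
    saConj B0 (R.U h) (cSA R c) = cSA R c := by
  apply Subtype.ext
  apply LinearMap.ext
  intro v
  show h.1.1 (algebraMap F E c • (h.1⁻¹.1 v)) = algebraMap F E c • v
  rw [map_smul]
  congr 1
  show (h.1.1 * h.1⁻¹.1) v = v
  rw [← Units.val_mul, mul_inv_cancel]
  rfl

private theorem inva_ex {B0 : SkewH E0 V} {B : SkewH E V} (R : FRel B0 B) {j k m : ℕ} {c : F}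
    {c0 : F0} (D : FNum F0 E0 F E j k m c c0) (g : UU B0)
    (hg : saConj B0 g (cSA R c) = cSA R c) : ∃ h : UU B, R.U h = g := by
  have h1 : ∀ v : V, g.1.1 (algebraMap F E c • v) = algebraMap F E c • g.1.1 v := by
    intro v
    have h2 := congrArg (fun X : SA B0 => X.1 (g.1.1 v)) hg
    have h3 : g.1.1 (algebraMap F E c • (g.1⁻¹.1 (g.1.1 v))) = algebraMap F E c • g.1.1 v := h2
    have h4 : g.1⁻¹.1 (g.1.1 v) = v := by
      show (g.1⁻¹.1 * g.1.1) v = v
      rw [← Units.val_mul, inv_mul_cancel]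
      rfl
    rwa [h4] at h3
  obtain ⟨a, ha⟩ := (resG_range (algebraMap F E c) D.hgen g.1).1 h1
  have h5 : a ∈ UU B := (rel_uu R a).1 (ha ▸ g.2)
  exact ⟨⟨a, h5⟩, Subtype.ext ha⟩

theorem exists_NA {B0 : SkewH E0 V} {B : SkewH E V} (R : FRel B0 B) {j k m : ℕ} {c : F}
    {c0 : F0} (D : FNum F0 E0 F E j k m c c0) :
    ∃ N : SF (SigQ B0 (qq j c0) × SigQ B0 (qq j c0)) ℂ →ₗ[ℂ] ℂ,
      (∀ γ f, N (SF.comp ((sqC B0 (qq j c0)).homeo γ) f) = N f) ∧
      ∀ (K : Set (SigQ B0 (qq j c0) × SigQ B0 (qq j c0))) (hK : IsCompact K) (hK' : IsOpen K),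
        K.Nonempty → ∃ r : ℝ, 0 < r ∧ N (SF.single K hK hK' 1) = r := by
  haveI := lc_UU F0 B0
  haveI := td_UU F0 B0
  haveI := lc_UU F B
  haveI := td_UU F B
  haveI := lc_SigQ2 B0 (qq j c0)
  let o : SigQ B0 (qq j c0) × SigQ B0 (qq j c0) :=
    (⟨cSA R c, cSA_sig R D⟩, ⟨cSA R c, cSA_sig R D⟩)
  let C := sqC B0 (qq j c0)
  let φ : UU B × UU B → C.stab o := fun h => ⟨(R.U h.1, R.U h.2),
    Prod.ext (Subtype.ext (inva_act R c h.1)) (Subtype.ext (inva_act R c h.2))⟩
  have hφc : Continuous φ := by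
    have h1 : Continuous fun h : UU B × UU B => (R.U h.1, R.U h.2) :=
      ((relU_cont R).comp continuous_fst).prodMk ((relU_cont R).comp continuous_snd)
    exact h1.subtype_mk _
  have hsurj : Function.Surjective φ := by
    rintro ⟨⟨g1, g2⟩, hg⟩
    have h1 : saConj B0 g1 (cSA R c) = cSA R c :=
      congrArg (fun y : SigQ B0 (qq j c0) × SigQ B0 (qq j c0) => y.1.1) hg
    have h2 : saConj B0 g2 (cSA R c) = cSA R c :=
      congrArg (fun y : SigQ B0 (qq j c0) × SigQ B0 (qq j c0) => y.2.1) hg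
    obtain ⟨a1, ha1⟩ := inva_ex R D g1 h1
    obtain ⟨a2, ha2⟩ := inva_ex R D g2 h2
    refine ⟨(a1, a2), Subtype.ext ?_⟩
    show (R.U a1, R.U a2) = (g1, g2)
    rw [ha1, ha2]
  have hemb : Topology.IsEmbedding φ := by
    have hι : Continuous fun γ : C.stab o => ((γ.1.1.1 : GV E0 V), (γ.1.2.1 : GV E0 V)) :=
      (continuous_subtype_val.comp (continuous_fst.comp continuous_subtype_val)).prodMk
        (continuous_subtype_val.comp (continuous_snd.comp continuous_subtype_val))
    have h1 : Topology.IsEmbedding fun h : UU B => (resG E0 h.1 : GV E0 V) :=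
      resG_emb.comp Topology.IsEmbedding.subtypeVal
    have h2 := h1.prodMap h1
    exact Topology.IsEmbedding.of_comp hφc hι h2
  let e : UU B × UU B ≃ₜ C.stab o := hemb.toHomeomorphOfSurjective hsurj
  have he : ∀ a b, e.symm (a * b) = e.symm a * e.symm b := by
    intro a b
    apply e.injective
    rw [Homeomorph.apply_symm_apply]
    have h1 : ∀ x y : UU B × UU B, e (x * y) = e x * e y := by
      intro x y
      apply Subtype.ext
      show (R.U (x.1 * y.1), R.U (x.2 * y.2)) = (R.U x.1 * R.U y.1, R.U x.2 * R.U y.2)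
      rw [map_mul, map_mul]
    rw [h1, Homeomorph.apply_symm_apply, Homeomorph.apply_symm_apply]
  obtain ⟨I0, hI0⟩ := biHaar_UU F0 B0
  obtain ⟨I, hI⟩ := biHaar_prod I0 hI0 I0 hI0
  obtain ⟨J0, hJ0⟩ := biHaar_UU F B
  obtain ⟨J1, hJ1⟩ := biHaar_prod J0 hJ0 J0 hJ0
  haveI hcl : LocallyCompactSpace (C.stab o) := e.symm.isClosedEmbedding.locallyCompactSpace
  haveI htd : TotallyDisconnectedSpace (C.stab o) := inferInstance
  obtain ⟨J, hJ⟩ := biHaar_transport J1 hJ1 e.symm he
  exact exists_invI C o (sqC_trans B0 (qq j c0) (qq_monic _ _) D.irr1 o) I hI J hJ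

end

end Pool.Agent.Work.MP_dd0ddf_al.C2
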