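import Pool.Agent.Work.MP_dd0ddf_al.C2.FibA
import Pool.Agent.Work.MP_dd0ddf_al.C2.InvA
import Pool.Agent.Work.MP_dd0ddf_al.C2.IndThm

/-!
# MP_dd0ddf_al (characteristic 2), module FUp: from G_P(V/E) to X

fibA gives T1, exists_NA gives N, `induce` (IndThm) for `xA W0 q1 q2 .. (c, c)` gives T'; exists_symA (with cSA_tau) gives the symmetry s, and the last clause of `induce` with ε = -1.
Instances for `induce`: lc_XS, td_XS, lc_SigQ2, td_SigQ2, lc_UU, td_UU.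
-/

set_option linter.unusedSectionVars false
set_option linter.style.haveILetI false

namespace Pool.Agent.Work.MP_dd0ddf_al.C2

noncomputable section

universe u

variable {F0 E0 : Type u} [NontriviallyNormedField F0] [IsUltrametricDist F0] [ProperSpace F0]
  [CharP F0 2] [NontriviallyNormedField E0] [NormedAlgebra F0 E0] [ProperSpace E0] [StarRing E0]
  [QExt F0 E0] [Dl E0] [MeasurableSpace E0] [BorelSpace E0]
variable {F E : Type u} [NontriviallyNormedField F] [IsUltrametricDist F] [ProperSpace F]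
  [CharP F 2] [NontriviallyNormedField E] [NormedAlgebra F E] [ProperSpace E] [StarRing E]
  [QExt F E] [Dl E] [MeasurableSpace E] [BorelSpace E]
  [NormedAlgebra F0 F] [NormedAlgebra E0 E] [Algebra F0 E] [KCompat F0 E0 F E]
variable {V : Type u} [AddCommGroup V] [Module E0 V] [Module E V] [IsScalarTower E0 E V]
  [Module.Finite E0 V] [Module.Finite E V] [TopologicalSpace V]
  [IsTopologicalAddGroup V] [T2Space V] [ContinuousSMul E0 V] [ContinuousSMul E V]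

theorem f_up {B0 : SkewH E0 V} {B : SkewH E V} (R : FRel B0 B) {p0 : PChar F0} {p : PChar F}
    (W0 : WeilRep B0 p0) (W : WeilRep B p) (hl : ∀ h : UU B, W.l h = W0.l (R.U h))
    {j k m : ℕ} {c : F} {c0 : F0} (D : FNum F0 E0 F E j k m c c0)
    (hd : Module.finrank E V = m * 2 ^ k) (τ : AntiU B)
    (T : SF (GP B (qq k c ^ m)) (SF V ℂ) →ₗ[ℂ] ℂ) (hT : InGP W τ (qq k c ^ m) T) :
    ∃ T' : SF (XS B0 (qq j c0) (qq (j + k) c0)) (SF V ℂ) →ₗ[ℂ] ℂ, (T' = 0 → T = 0) ∧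
      (∀ γ f, T' ((xC B0 (qq j c0) (qq (j + k) c0)).op (wRep W0) γ f) = T' f) ∧
      ∃ a : ℝ, 0 < a ∧ ∀ f, T' (SF.opr (xTh (R.tau τ) (qq j c0) (qq (j + k) c0))
        (tneg F0 (R.tau τ)) f) = -(a : ℂ) * T' f := by
  obtain ⟨T1, h1, h2, h3⟩ := fibA R W0 W hl D hd τ T hT
  obtain ⟨N, hN, hpos⟩ := exists_NA R D
  haveI := lc_UU F0 B0
  haveI := td_UU F0 B0
  haveI := lc_XS B0 (qq j c0) (qq (j + k) c0)
  haveI := td_XS B0 (qq j c0) (qq (j + k) c0)
  haveI := lc_SigQ2 B0 (qq j c0)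
  haveI := td_SigQ2 B0 (qq j c0)
  obtain ⟨T', h4, h5, h6⟩ := induce (xA W0 (qq j c0) (qq (j + k) c0) (qq_monic _ _) D.irr1
    (⟨cSA R c, cSA_sig R D⟩, ⟨cSA R c, cSA_sig R D⟩)) N hN hpos T1 h2
  obtain ⟨s, hs1, hs2⟩ := exists_symA W0 (qq j c0) (qq (j + k) c0) (qq_monic _ _) D.irr1
    (⟨cSA R c, cSA_sig R D⟩ : SigQ B0 (qq j c0)) (R.tau τ) (cSA_tau R c τ)
  refine ⟨T', fun h => h1 (h4 h), h5, ?_⟩
  obtain ⟨a, ha, h7⟩ := h6 s (-1) (fun f => by rw [h3 s hs1 hs2, neg_one_mul])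
  refine ⟨a, ha, fun f => ?_⟩
  have h8 := h7 f
  rw [hs1, hs2] at h8
  rw [h8]
  ring

end

end Pool.Agent.Work.MP_dd0ddf_al.C2
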