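import Pool.Agent.Work.MP_dd0ddf_al.C2.FdBasis

/-!
# MP_dd0ddf_al, module FdRestr: extension of functions from a closed subset

Proof plan.  `restr_surj`: by `sf_induction` on the space `Z` (closed subspace: locally compact, Hausdorff, totally disconnected)
it is enough (additivity is clear) to treat `single K b` with `K ⊆ Z` compact open in `Z`.  To keep the support condition
(g vanishes outside W) write g (by exists_partition with `W x = {y | g y = g x} ∩ W`, only points with g x ≠ 0 matter) as a finite sum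
of functions `single K b` with `K ⊆ W` compact open in `Z`.  `K = Z ∩ O` with `O` open in `X`, O ⊆ W;
by compactness of `K` and `exists_compact_open` there is a compact open `K'` with `K ⊆ K' ⊆ O`; then
`K' ∩ Z = K` and `single K' b` restricts to `single K b`.
`supp_on_factor`: `T` vanishes on the kernel of the surjective map `restr Z`, so it factors (LinearMap: `Submodule.liftQ` /
`LinearMap.exists_extend`/ choose preimages with `Function.surjInv` and check linearity using that T only depends on the restriction).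
-/

set_option linter.unusedSectionVars false

namespace Pool.Agent.Work.MP_dd0ddf_al.C2

noncomputable section

variable {X B : Type*} [TopologicalSpace X] [T2Space X] [LocallyCompactSpace X]
  [TotallyDisconnectedSpace X] [AddCommGroup B] [Module ℂ B]

private theorem fdRestr_sum_apply {X' : Type*} [TopologicalSpace X'] {N : ℕ} (g : Fin N → SF X' B)
    (x : X') : (∑ i, g i : SF X' B) x = ∑ i, g i x := by
  have h1 : ((∑ i, g i : SF X' B) : X' → B) = ∑ i, (g i : X' → B) :=
    map_sum (SF X' B).subtype g Finset.univ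
  change ((∑ i, g i : SF X' B) : X' → B) x = _
  rw [h1, Finset.sum_apply]

/-- extension of compact open sets -/
private theorem fdRestr_extend (Z : Set X) (W : Set X) (hW : IsOpen W) (K : Set Z)
    (hK : IsCompact K) (hK' : IsOpen K) (hKW : ∀ z ∈ K, z.1 ∈ W) :
    ∃ K1 : Set X, IsCompact K1 ∧ IsOpen K1 ∧ K1 ⊆ W ∧ ∀ z : Z, z.1 ∈ K1 ↔ z ∈ K := by
  obtain ⟨O, hO, hOK⟩ := isOpen_induced_iff.1 hK'
  have hcomp : IsCompact ((↑) '' K : Set X) := hK.image continuous_subtype_val
  have key : ∃ K1 : Set X, IsCompact K1 ∧ IsOpen K1 ∧ K1 ⊆ O ∩ W ∧ ((↑) '' K : Set X) ⊆ K1 := by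
    refine hcomp.induction_on (p := fun s => ∃ K1 : Set X, IsCompact K1 ∧ IsOpen K1 ∧
      K1 ⊆ O ∩ W ∧ s ⊆ K1) ?_ ?_ ?_ ?_
    · exact ⟨∅, isCompact_empty, isOpen_empty, Set.empty_subset _, Set.empty_subset _⟩
    · rintro s t hst ⟨K1, h1, h2, h3, h4⟩
      exact ⟨K1, h1, h2, h3, hst.trans h4⟩
    · rintro s t ⟨K1, h1, h2, h3, h4⟩ ⟨K2, h5, h6, h7, h8⟩
      exact ⟨K1 ∪ K2, h1.union h5, h2.union h6, Set.union_subset h3 h7,
        Set.union_subset_union h4 h8⟩
    · rintro _ ⟨z, hz, rfl⟩
      have hzO : z.1 ∈ O := by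
        have h1 : z ∈ Subtype.val ⁻¹' O := by rw [hOK]; exact hz
        exact h1
      obtain ⟨C, hC1, hC2, hC3, hC4⟩ := exists_compact_open z.1 (O ∩ W) (hO.inter hW)
        ⟨hzO, hKW z hz⟩
      exact ⟨C, mem_nhdsWithin_of_mem_nhds (hC2.mem_nhds hC3), C, hC1, hC2, hC4, subset_rfl⟩
  obtain ⟨K1, h1, h2, h3, h4⟩ := key
  refine ⟨K1, h1, h2, fun x hx => (h3 hx).2, fun z => ⟨fun hz => ?_, fun hz => h4 ⟨z, hz, rfl⟩⟩⟩
  rw [← hOK]
  exact (h3 hz).1

theorem restr_surj (Z : Set X) (hZ : IsClosed Z) (W : Set X) (hW : IsOpen W) (g : SF Z B)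
    (hg : ∀ z : Z, z.1 ∉ W → g z = 0) :
    ∃ f : SF X B, SF.restr Z hZ f = g ∧ ∀ x, x ∉ W → f x = 0 := by
  classical
  have : LocallyCompactSpace Z := hZ.isClosedEmbedding_subtypeVal.locallyCompactSpace
  have hlc : ∀ z : Z, IsOpen {y : Z | g y = g z} := fun z => g.2.1 {g z}
  obtain ⟨N, K, hK, hK1, hK2, -, hK4⟩ := exists_partition g
    (fun z => {y : Z | g y = g z} ∩ Subtype.val ⁻¹' W)
    (fun z => (hlc z).inter (hW.preimage continuous_subtype_val))
    (fun z hz => ⟨rfl, by
      by_contra h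
      exact hz (hg z h)⟩)
  choose p hp1 hp2 using hK2
  have hKW : ∀ i, ∀ z ∈ K i, z.1 ∈ W := fun i z hz => (hp2 i hz).2
  choose K' hC hO hKW' hiff using fun i => fdRestr_extend Z W hW (K i) (hK1 i) (hK i).isOpen (hKW i)
  refine ⟨∑ i, SF.single (K' i) (hC i) (hO i) (g (p i)), ?_, ?_⟩
  · apply SF.ext
    intro z
    rw [SF.restr_apply, fdRestr_sum_apply, hK4, fdRestr_sum_apply, ← hK4]
    refine Finset.sum_congr rfl (fun i _ => ?_)
    by_cases hz : z ∈ K i
    · rw [SF.ind_apply_mem _ _ _ _ hz, SF.single_apply_mem _ _ _ _ _ ((hiff i z).2 hz)]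
      exact (hp2 i hz).1.symm
    · rw [SF.ind_apply_not_mem _ _ _ _ hz,
        SF.single_apply_not_mem _ _ _ _ _ (fun h => hz ((hiff i z).1 h))]
  · intro x hx
    rw [fdRestr_sum_apply]
    refine Finset.sum_eq_zero (fun i _ => ?_)
    exact SF.single_apply_not_mem _ _ _ _ _ (fun h => hx (hKW' i h))

theorem restr_surjective (Z : Set X) (hZ : IsClosed Z) :
    Function.Surjective (SF.restr Z hZ : SF X B → SF Z B) := by
  intro g
  obtain ⟨f, hf, _⟩ := restr_surj Z hZ Set.univ isOpen_univ g (fun z hz => absurd (Set.mem_univ _) hz)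
  exact ⟨f, hf⟩

theorem supp_on_factor (Z : Set X) (hZ : IsClosed Z) (T : SF X B →ₗ[ℂ] ℂ) (hT : SF.SuppOn T Z) :
    ∃ S : SF Z B →ₗ[ℂ] ℂ, ∀ f : SF X B, T f = S (SF.restr Z hZ f) := by
  classical
  have hs := restr_surjective (B := B) Z hZ
  let r : SF X B →ₗ[ℂ] SF Z B := SF.restr Z hZ
  have hker : ∀ f f' : SF X B, r f = r f' → T f = T f' := by
    intro f f' h
    rw [← sub_eq_zero, ← map_sub]
    apply hT
    intro z hz
    have h1 : r (f - f') = 0 := by rw [map_sub, h, sub_self]
    have h2 := congrArg (fun F : SF Z B => F ⟨z, hz⟩) h1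
    exact h2
  have hinv : ∀ g : SF Z B, r (Function.surjInv hs g) = g := Function.surjInv_eq hs
  refine ⟨{ toFun := fun g => T (Function.surjInv hs g)
            map_add' := ?_
            map_smul' := ?_ }, ?_⟩
  · intro g g'
    rw [← map_add]
    apply hker
    rw [hinv, map_add, hinv, hinv]
  · intro c g
    rw [RingHom.id_apply, ← map_smul]
    apply hker
    rw [hinv, map_smul, hinv]
  · intro f
    change T f = T (Function.surjInv hs (r f))
    apply hker
    rw [hinv]

end

end Pool.Agent.Work.MP_dd0ddf_al.C2
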