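import Pool.Agent.Work.MP_dd0ddf_al.C2.FibA0

/-!
# MP_dd0ddf_al (characteristic 2), module FibA: the fibre of fibration A over (c, c) is G_P(V/E)

`fibA`: from a functional T on `SF (GP B (q^m)) (SF V)` with InGP to one on the fibre of `xA` over (c, c): e : GP B (q^m) → Fib, g ↦ ((cSA, resG g)) is a homeomorphism: membership in XS: cSA_sig, gp_ys, and c commutes with g g^* (E-linear);
injective; surjective: an element (c1, g) of Fib has c1 = c and rot = g⁻¹ c g = c, so g commutes with c, so g = resG a (resG_range with s = algebraMap F E c, D.hgen), a ∈ GP by gp_ys; continuous with continuous inverse by resG_emb.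
`T1 := T ∘ SF.comp e`.  (1) T1 = 0 → T = 0.  (2) stabiliser: γ ∈ stab iff γ.1, γ.2 commute with c iff γ = (R.U h1, R.U h2) (resG_range + rel_uu); `SF.comp e (fop γ f) = (gpC B P).op (wRep W) (h1, h2) (SF.comp e f)` (hl, rel_r).
(3) symmetry: `s.fibHomeo (e g) = e (gpTh τ g)` (s.sX is given; rel_thG; first component: τ c τ = c), `s.sB = tneg F0 (R.tau τ) = tneg F τ` (rel_tneg); use hT.anti.
-/

set_option linter.unusedSectionVars false
set_option linter.style.haveILetI false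

namespace Pool.Agent.Work.MP_dd0ddf_al.C2

noncomputable section

universe u

variable {F0 E0 : Type u} [NontriviallyNormedField F0] [IsUltrametricDist F0] [ProperSpace F0]
  [CharP F0 2] [NontriviallyNormedField E0] [NormedAlgebra F0 E0] [ProperSpace E0] [StarRing E0]
  [QExt F0 E0] [Dl E0] [MeasurableSpace E0] [BorelSpace E0]
variable {F E : Type u} [NontriviallyNormedField F] [IsUltrametricDist F] [ProperSpace F]
  [CharP F 2] [NontriviallyNormedField E] [NormedAlgebra F E] [ProperSpace E] [StarRing E]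
  [QExt F E] [Dl E] [MeasurableSpace E] [BorelSpace E]
  [NormedAlgebra F0 F] [NormedAlgebra E0 E] [Algebra F0 E] [KCompat F0 E0 F E]
variable {V : Type u} [AddCommGroup V] [Module E0 V] [Module E V] [IsScalarTower E0 E V]
  [Module.Finite E0 V] [Module.Finite E V] [TopologicalSpace V]
  [IsTopologicalAddGroup V] [T2Space V] [ContinuousSMul E0 V] [ContinuousSMul E V]

section

private theorem fiba_comm {B0 : SkewH E0 V} {B : SkewH E V} (R : FRel B0 B) (c : F)
    (g : GV E V) : (cSA R c).1 * (sg B0 (resG E0 g)).1 = (sg B0 (resG E0 g)).1 * (cSA R c).1 := by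
  have hs0 : (sg B0 (resG E0 g)).1 = (((sg B g).1).restrictScalars E0 : Module.End E0 V) := by
    show (g.1.restrictScalars E0 : Module.End E0 V) *
      adj B0 (g.1.restrictScalars E0 : Module.End E0 V) = _
    rw [rel_adj R]
    rfl
  rw [hs0]
  ext v
  show algebraMap F E c • (sg B g).1 v = (sg B g).1 (algebraMap F E c • v)
  rw [map_smul]

private theorem fiba_conj {B0 : SkewH E0 V} {B : SkewH E V} (R : FRel B0 B) (c : F)
    (g : GV E V) : (resG E0 g : GV E0 V)⁻¹.1 * (cSA R c).1 * (resG E0 g : GV E0 V).1 =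
      (cSA R c).1 := by
  ext v
  show g⁻¹.1 (algebraMap F E c • g.1 v) = algebraMap F E c • v
  rw [map_smul]
  have h1 : g⁻¹.1 (g.1 v) = v := congrArg (fun f : Module.End E V => f v) g.inv_mul
  rw [h1]

/-- an element commuting with `c` comes from `GL(V/E)` -/
private theorem fiba_range {B0 : SkewH E0 V} {B : SkewH E V} (R : FRel B0 B) {j k m : ℕ} {c : F}
    {c0 : F0} (D : FNum F0 E0 F E j k m c c0) (g : GV E0 V)
    (h : g.1 * (cSA R c).1 = (cSA R c).1 * g.1) : ∃ a : GV E V, resG E0 a = g := by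
  refine (resG_range (algebraMap F E c) D.hgen g).1 fun v => ?_
  exact congrArg (fun f : Module.End E0 V => f v) h

/-- an isometry of `B0` commuting with `c` comes from `U(B)` -/
private theorem fiba_uu {B0 : SkewH E0 V} {B : SkewH E V} (R : FRel B0 B) {j k m : ℕ} {c : F}
    {c0 : F0} (D : FNum F0 E0 F E j k m c c0) (h : UU B0)
    (hh : saConj B0 h (cSA R c) = cSA R c) : ∃ a : UU B, R.U a = h := by
  have h1 : h.1.1 * (cSA R c).1 * h.1⁻¹.1 = (cSA R c).1 := congrArg Subtype.val hh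
  have h2 : h.1⁻¹.1 * h.1.1 = 1 := h.1.inv_mul
  have h3 : h.1.1 * (cSA R c).1 = (cSA R c).1 * h.1.1 := by
    calc h.1.1 * (cSA R c).1 = h.1.1 * (cSA R c).1 * (h.1⁻¹.1 * h.1.1) := by rw [h2, mul_one]
      _ = (h.1.1 * (cSA R c).1 * h.1⁻¹.1) * h.1.1 := by simp only [mul_assoc]
      _ = (cSA R c).1 * h.1.1 := by rw [h1]
  obtain ⟨a, ha⟩ := fiba_range R D h.1 h3
  have ha' : a ∈ UU B := (rel_uu R a).1 (by rw [ha]; exact h.2)
  exact ⟨⟨a, ha'⟩, Subtype.ext ha⟩

variable {B0 : SkewH E0 V} {B : SkewH E V} (R : FRel B0 B) {p0 : PChar F0}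
    (W0 : WeilRep B0 p0) {j k m : ℕ} {c : F} {c0 : F0} (D : FNum F0 E0 F E j k m c c0)
    (hd : Module.finrank E V = m * 2 ^ k)

/-- the map `GP B (q^m) → Fib` -/
private def fibaMap (g : GP B (qq k c ^ m)) :
    (xA W0 (qq j c0) (qq (j + k) c0) (qq_monic _ _) D.irr1
        (⟨cSA R c, cSA_sig R D⟩, ⟨cSA R c, cSA_sig R D⟩)).Fib :=
  ⟨⟨(cSA R c, resG E0 g.1), cSA_sig R D, (gp_ys R D hd g.1).1 g.2, fiba_comm R c g.1⟩,
    Prod.ext rfl (Subtype.ext (Subtype.ext (fiba_conj R c g.1)))⟩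

private theorem fiba_emb : Topology.IsEmbedding (fibaMap R W0 D hd) := by
  have h1 : Continuous fun x : (xA W0 (qq j c0) (qq (j + k) c0) (qq_monic _ _) D.irr1
        (⟨cSA R c, cSA_sig R D⟩, ⟨cSA R c, cSA_sig R D⟩)).Fib => x.1.1.2 :=
    continuous_snd.comp (continuous_subtype_val.comp continuous_subtype_val)
  have h2 : Topology.IsEmbedding fun g : GP B (qq k c ^ m) => (resG E0 g.1 : GV E0 V) :=
    (resG_emb (E0 := E0) (L := E) (V := V)).comp Topology.IsEmbedding.subtypeVal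
  refine Topology.IsEmbedding.of_comp ?_ h1 h2
  exact Continuous.subtype_mk (Continuous.subtype_mk (continuous_const.prodMk h2.continuous) _) _

private theorem fiba_surj : Function.Surjective (fibaMap R W0 D hd) := by
  rintro ⟨⟨⟨c1, g⟩, hx1, hx2, hx3⟩, hx⟩
  have h1 : c1 = cSA R c := congrArg (fun z => z.1.1) hx
  subst h1
  have h2 : g⁻¹.1 * (cSA R c).1 * g.1 = (cSA R c).1 := congrArg (fun z => z.2.1.1) hx
  have h3 : g.1 * g⁻¹.1 = 1 := g.mul_inv
  have h4 : g.1 * (cSA R c).1 = (cSA R c).1 * g.1 := by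
    calc g.1 * (cSA R c).1 = g.1 * (g⁻¹.1 * (cSA R c).1 * g.1) := by rw [h2]
      _ = (g.1 * g⁻¹.1) * (cSA R c).1 * g.1 := by simp only [mul_assoc]
      _ = (cSA R c).1 * g.1 := by rw [h3, one_mul]
  obtain ⟨a, rfl⟩ := fiba_range R D g h4
  exact ⟨⟨a, (gp_ys R D hd a).2 hx2⟩, rfl⟩

/-- the homeomorphism -/
private def fibaHomeo : GP B (qq k c ^ m) ≃ₜ
    (xA W0 (qq j c0) (qq (j + k) c0) (qq_monic _ _) D.irr1
        (⟨cSA R c, cSA_sig R D⟩, ⟨cSA R c, cSA_sig R D⟩)).Fib :=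
  (fiba_emb R W0 D hd).toHomeomorphOfSurjective (fiba_surj R W0 D hd)

private theorem fiba_homeo_apply (g : GP B (qq k c ^ m)) :
    fibaHomeo R W0 D hd g = fibaMap R W0 D hd g := rfl

end

theorem fibA {B0 : SkewH E0 V} {B : SkewH E V} (R : FRel B0 B) {p0 : PChar F0} {p : PChar F}
    (W0 : WeilRep B0 p0) (W : WeilRep B p) (hl : ∀ h : UU B, W.l h = W0.l (R.U h))
    {j k m : ℕ} {c : F} {c0 : F0} (D : FNum F0 E0 F E j k m c c0)
    (hd : Module.finrank E V = m * 2 ^ k) (τ : AntiU B)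
    (T : SF (GP B (qq k c ^ m)) (SF V ℂ) →ₗ[ℂ] ℂ) (hT : InGP W τ (qq k c ^ m) T) :
    ∃ T1 : SF (xA W0 (qq j c0) (qq (j + k) c0) (qq_monic _ _) D.irr1
        (⟨cSA R c, cSA_sig R D⟩, ⟨cSA R c, cSA_sig R D⟩)).Fib (SF V ℂ) →ₗ[ℂ] ℂ,
      (T1 = 0 → T = 0) ∧
      (∀ γ f, T1 ((xA W0 (qq j c0) (qq (j + k) c0) (qq_monic _ _) D.irr1
        (⟨cSA R c, cSA_sig R D⟩, ⟨cSA R c, cSA_sig R D⟩)).fop γ f) = T1 f) ∧
      ∀ s : (xA W0 (qq j c0) (qq (j + k) c0) (qq_monic _ _) D.irr1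
        (⟨cSA R c, cSA_sig R D⟩, ⟨cSA R c, cSA_sig R D⟩)).DSym,
        s.sX = xTh (R.tau τ) (qq j c0) (qq (j + k) c0) → s.sB = tneg F0 (R.tau τ) →
        ∀ f, T1 (SF.opr s.fibHomeo s.sB f) = - T1 f := by
  refine ⟨T ∘ₗ SF.comp (fibaHomeo R W0 D hd), fun h0 => ?_, fun γ f => ?_, fun s hsX hsB f => ?_⟩
  · refine LinearMap.ext fun f => ?_
    have h1 := congrArg (fun S => S (SF.comp (fibaHomeo R W0 D hd).symm f)) h0
    have h2 : SF.comp (fibaHomeo R W0 D hd) (SF.comp (fibaHomeo R W0 D hd).symm f) = f := by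
      apply SF.ext
      intro x
      rw [SF.comp_apply, SF.comp_apply, Homeomorph.symm_apply_apply]
    have h3 : T (SF.comp (fibaHomeo R W0 D hd) (SF.comp (fibaHomeo R W0 D hd).symm f)) = 0 := h1
    rw [h2] at h3
    exact h3
  · obtain ⟨⟨γ1, γ2⟩, hγ⟩ := γ
    have hg1 : saConj B0 γ1 (cSA R c) = cSA R c := congrArg (fun z => z.1.1) hγ
    have hg2 : saConj B0 γ2 (cSA R c) = cSA R c := congrArg (fun z => z.2.1) hγ
    obtain ⟨a1, rfl⟩ := fiba_uu R D γ1 hg1
    obtain ⟨a2, rfl⟩ := fiba_uu R D γ2 hg2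
    refine Eq.trans ?_ (hT.inv (a1, a2) (SF.comp (fibaHomeo R W0 D hd) f))
    refine congrArg T ?_
    apply SF.ext
    intro g
    rw [SF.comp_apply, CAct.op_apply, SF.comp_apply, DescData.fop_apply]
    have e1 : (xA W0 (qq j c0) (qq (j + k) c0) (qq_monic _ _) D.irr1
        (⟨cSA R c, cSA_sig R D⟩, ⟨cSA R c, cSA_sig R D⟩)).R.β (R.U a1, R.U a2) =
        (wRep W).β (a1, a2) := by
      show W0.l (R.U a1) ∘ₗ W0.r (R.U a2) = W.l a1 ∘ₗ W.r a2
      rw [hl, rel_r R W0 W hl]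
    have hinv := (xA W0 (qq j c0) (qq (j + k) c0) (qq_monic _ _) D.irr1
        (⟨cSA R c, cSA_sig R D⟩, ⟨cSA R c, cSA_sig R D⟩)).stab.inv_mem hγ
    have e2 : (xA W0 (qq j c0) (qq (j + k) c0) (qq_monic _ _) D.irr1
        (⟨cSA R c, cSA_sig R D⟩, ⟨cSA R c, cSA_sig R D⟩)).fibAct.act
          (⟨(R.U a1, R.U a2), hγ⟩ : (xA W0 (qq j c0) (qq (j + k) c0) (qq_monic _ _) D.irr1
        (⟨cSA R c, cSA_sig R D⟩, ⟨cSA R c, cSA_sig R D⟩)).stab)⁻¹ (fibaHomeo R W0 D hd g) =
        fibaHomeo R W0 D hd ((gpC B (qq k c ^ m)).act (a1, a2)⁻¹ g) := by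
      apply Subtype.ext
      apply Subtype.ext
      refine Prod.ext ?_ ?_
      · exact congrArg (fun z => z.1.1) hinv
      · rfl
    rw [e1, e2]
  · refine Eq.trans ?_ (hT.anti (SF.comp (fibaHomeo R W0 D hd) f))
    refine congrArg T ?_
    apply SF.ext
    intro g
    rw [SF.comp_apply, SF.opr_apply, SF.opr_apply, SF.comp_apply, hsB, rel_tneg (K := F) R τ]
    have e1 : s.fibHomeo (fibaHomeo R W0 D hd g) =
        fibaHomeo R W0 D hd (gpTh τ (qq k c ^ m) g) := by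
      apply Subtype.ext
      show s.sX (fibaHomeo R W0 D hd g).1 = (fibaHomeo R W0 D hd (gpTh τ (qq k c ^ m) g)).1
      rw [hsX]
      apply Subtype.ext
      refine Prod.ext ?_ ?_
      · have h1 : (rot B0 (qq j c0) (qq (j + k) c0) (fibaMap R W0 D hd g).1).1 = cSA R c :=
          Subtype.ext (fiba_conj R c g.1)
        show saTau F0 (R.tau τ) (rot B0 (qq j c0) (qq (j + k) c0) (fibaMap R W0 D hd g).1).1 =
          cSA R c
        rw [h1, cSA_tau]
      · exact rel_thG R τ g.1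
    rw [e1]

end

end Pool.Agent.Work.MP_dd0ddf_al.C2
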