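import Pool.Agent.Work.MP_dd0ddf_al.C2.XData
import Pool.Agent.Work.MP_dd0ddf_al.C2.RelThm
import Pool.Agent.Work.MP_dd0ddf_al.C2.FNum
import Pool.Agent.Work.MP_dd0ddf_al.C2.WfMDefs

/-!
# MP_dd0ddf_al (characteristic 2), module FibA0: G_P(V/E) inside Y (algebra)

(F0, E0, B0) small fields, (F, E, B) large fields, `q = x^(2^k) - c` over F, `q1 = x^(2^j) - c0`, `q2 = x^(2^(j+k)) - c0` over F0, `c^(2^j) = c0`.
`cSA`: multiplication by c on V, as a self-adjoint operator for B0: rel_sa (scalars of F are self-adjoint: star fixes F); it is in SigQ B0 q1 since `(cSA)^(2^j) = c^(2^j) = c0` (the towers F0 E0 E, F0 F E of KCompat).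
`cSA_tau`: `τ (c v) = star c τ v = c τ v`.
`gp_ys`: for g ∈ GL(V/E), s := (sg B g).1, `(sg B0 (resG g)).1 = s.restrictScalars` (rel_adj).  `s^(2^(j+k)) - c0 = (s^(2^k) - c)^(2^j) = q(s)^(2^j)` (char 2; s commutes with scalars; Commute version of sub_pow_char_pow, or the polynomial identity `(qq k c)^(2^j) = X^(2^(j+k)) - C (c^(2^j))` in F[X] and aeval).
If charpoly s = q^m then q(s)^m = 0 (Cayley-Hamilton) so `q(s)^(2^j) = 0` (m ≤ 2^j).
Conversely let `q(s)^(2^j) = 0`: the minimal polynomial of s divides `(q.map)^(2^j)`, q.map irreducible.  Every irreducible factor f of the characteristic polynomial divides the minimal polynomial: (proof: over the algebraic closure A of E, a root z of f is a root of the characteristic polynomial, so an eigenvalue of the base change / of the matrix of s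
(Module.End.hasEigenvalue_iff_isRoot_charpoly or Matrix), hence a root of the minimal polynomial μ (Module.End.aeval_apply_of_hasEigenvector for μ over A), and f = minpoly of z divides μ.)  So f is associated to q.map, hence charpoly s = (q.map)^r (monic; UniqueFactorizationMonoid), and the degree n = m 2^k gives r = m.
(Look first for an existing lemma: grep FdPoly, GrpLoc, GrpA, LinAll for a statement of the form: aeval s (q^m) = 0 → charpoly s = q^r.)
-/

set_option linter.unusedSectionVars false
set_option linter.style.haveILetI false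

namespace Pool.Agent.Work.MP_dd0ddf_al.C2

noncomputable section

universe u

variable {F0 E0 : Type u} [NontriviallyNormedField F0] [IsUltrametricDist F0] [ProperSpace F0]
  [CharP F0 2] [NontriviallyNormedField E0] [NormedAlgebra F0 E0] [ProperSpace E0] [StarRing E0]
  [QExt F0 E0] [Dl E0] [MeasurableSpace E0] [BorelSpace E0]
variable {F E : Type u} [NontriviallyNormedField F] [IsUltrametricDist F] [ProperSpace F]
  [CharP F 2] [NontriviallyNormedField E] [NormedAlgebra F E] [ProperSpace E] [StarRing E]
  [QExt F E] [Dl E] [MeasurableSpace E] [BorelSpace E]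
  [NormedAlgebra F0 F] [NormedAlgebra E0 E] [Algebra F0 E] [KCompat F0 E0 F E]
variable {V : Type u} [AddCommGroup V] [Module E0 V] [Module E V] [IsScalarTower E0 E V]
  [Module.Finite E0 V] [Module.Finite E V] [TopologicalSpace V]
  [IsTopologicalAddGroup V] [T2Space V] [ContinuousSMul E0 V] [ContinuousSMul E V]

open Polynomial in
private theorem fiba0_evec {n : Type*} [Fintype n] [DecidableEq n] {E K : Type*} [Field E]
    [Field K] [Algebra E K] (M : Matrix n n E) (a : K) (v : n → K)
    (hv : (M.map (algebraMap E K)).mulVec v = a • v) (q : E[X]) :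
    ((aeval M q).map (algebraMap E K)).mulVec v = (aeval a q) • v := by
  have hpow : ∀ k : ℕ, ((M ^ k).map (algebraMap E K)).mulVec v = a ^ k • v := by
    intro k
    induction k with
    | zero =>
      rw [pow_zero, pow_zero, one_smul, Matrix.map_one _ (map_zero _) (map_one _),
        Matrix.one_mulVec]
    | succ k ih =>
      rw [pow_succ, Matrix.map_mul, ← Matrix.mulVec_mulVec, hv, Matrix.mulVec_smul, ih, smul_smul,
        pow_succ']
  induction q using Polynomial.induction_on' with
  | add f g hf hg =>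
    rw [map_add, map_add, Matrix.map_add _ (map_add _), Matrix.add_mulVec, hf, hg, add_smul]
  | monomial k c =>
    rw [aeval_monomial, aeval_monomial, ← Algebra.smul_def]
    have h1 : (c • M ^ k).map (algebraMap E K) = (algebraMap E K c) • (M ^ k).map (algebraMap E K) := by
      ext i j
      simp
    rw [h1, Matrix.smul_mulVec, hpow, smul_smul]

open Polynomial in
private theorem fiba0_coprime {E W : Type*} [Field E] [AddCommGroup W] [Module E W]
    [Module.Finite E W] (T u : Module.End E W) (p : E[X]) (h : u * aeval T p = 1) :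
    IsCoprime T.charpoly p := by
  classical
  let K := AlgebraicClosure E
  refine (Polynomial.isCoprime_iff_aeval_ne_zero_of_isAlgClosed E K _ _).2 fun a => ?_
  by_contra hcon
  push Not at hcon
  obtain ⟨h1, h2⟩ := hcon
  let b := Module.finBasis E W
  set M := LinearMap.toMatrix b b T with hM
  have hc : T.charpoly = M.charpoly := (LinearMap.charpoly_toMatrix T b).symm
  rw [hc, ← eval_map_algebraMap, ← Matrix.charpoly_map, Matrix.eval_charpoly] at h1
  obtain ⟨v, hv0, hv⟩ := Matrix.exists_mulVec_eq_zero_iff.2 h1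
  have hv' : (M.map (algebraMap E K)).mulVec v = a • v := by
    rw [Matrix.sub_mulVec, sub_eq_zero] at hv
    rw [← hv]
    simp
  have h3 := fiba0_evec M a v hv' p
  rw [h2, zero_smul] at h3
  have h4 : LinearMap.toMatrix b b (aeval T p) = aeval M p := by
    have := (Polynomial.aeval_algHom_apply (LinearMap.toMatrixAlgEquiv b).toAlgHom T p).symm
    exact this
  have h5 : LinearMap.toMatrix b b u * aeval M p = 1 := by
    rw [← h4, ← LinearMap.toMatrix_mul, h, LinearMap.toMatrix_one]
  have h6 : ((LinearMap.toMatrix b b u).map (algebraMap E K)) *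
      ((aeval M p).map (algebraMap E K)) = 1 := by
    rw [← Matrix.map_mul, h5, Matrix.map_one _ (map_zero _) (map_one _)]
  apply hv0
  calc v = (1 : Matrix _ _ K).mulVec v := (Matrix.one_mulVec v).symm
    _ = 0 := by rw [← h6, ← Matrix.mulVec_mulVec, h3, Matrix.mulVec_zero]

open Polynomial in
/-- if `Q(s)^N = 0`, `Q` irreducible, then every irreducible factor of the characteristic
polynomial is associated to `Q` -/
private theorem fiba0_dvd {E W : Type*} [Field E] [AddCommGroup W] [Module E W]
    [Module.Finite E W] (s : Module.End E W) (Q : E[X]) (hQ : Irreducible Q) (N : ℕ)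
    (h : aeval s (Q ^ N) = 0) (f : E[X]) (hf : Irreducible f) (hd : f ∣ s.charpoly) : Q ∣ f := by
  by_contra hcon
  have h1 : IsCoprime Q f := (hQ.coprime_iff_not_dvd).2 hcon
  have h2 : IsCoprime (Q ^ N) f := h1.pow_left
  obtain ⟨a, b, hab⟩ := h2
  have h3 : aeval s b * aeval s f = 1 := by
    have h4 := congrArg (aeval s) hab
    rw [map_add, map_mul, map_mul, h, mul_zero, zero_add, map_one] at h4
    exact h4
  have h5 := fiba0_coprime s _ f h3
  exact hf.not_isUnit (h5.isUnit_of_dvd' hd dvd_rfl)

open Polynomial in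
private theorem fiba0_charpoly {E W : Type*} [Field E] [AddCommGroup W] [Module E W]
    [Module.Finite E W] (s : Module.End E W) (Q : E[X]) (hQ : Irreducible Q) (hm : Q.Monic)
    (N : ℕ) (h : aeval s (Q ^ N) = 0) (m : ℕ) (hd : Module.finrank E W = m * Q.natDegree) :
    s.charpoly = Q ^ m := by
  have hc : s.charpoly.Monic := LinearMap.charpoly_monic s
  have hc0 : s.charpoly ≠ 0 := hc.ne_zero
  obtain ⟨r, R, hR, he⟩ := WfDvdMonoid.max_power_factor hc0 hQ
  have hR1 : R.Monic := by
    rw [he] at hc
    exact (hm.pow r).of_mul_monic_left hc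
  have hRu : IsUnit R := by
    by_contra hcon
    obtain ⟨f, hf, hfR⟩ := WfDvdMonoid.exists_irreducible_factor hcon hR1.ne_zero
    have h1 : Q ∣ f := fiba0_dvd s Q hQ N h f hf (by rw [he]; exact hfR.mul_left _)
    exact hR (h1.trans hfR)
  have hR2 : R = 1 := hR1.eq_one_of_isUnit hRu
  rw [hR2, mul_one] at he
  have h2 : s.charpoly.natDegree = m * Q.natDegree := by
    rw [LinearMap.charpoly_natDegree, hd]
  rw [he, hm.natDegree_pow] at h2
  have h3 : 0 < Q.natDegree := hQ.natDegree_pos
  have h4 : r = m := Nat.eq_of_mul_eq_mul_right h3 h2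
  rw [he, h4]

/-- multiplication by `c ∈ F` as an element of `End_E(V)` -/
def cMul (E V : Type u) [Field E] [AddCommGroup V] [Module E V] {F : Type u} [Field F]
    [Algebra F E] (c : F) : Module.End E V := algebraMap F E c • 1

theorem cSA_mem {B0 : SkewH E0 V} {B : SkewH E V} (R : FRel B0 B) (c : F) :
    ((cMul E V c).restrictScalars E0 : Module.End E0 V) ∈ SA B0 := by
  refine (rel_sa R (cMul E V c)).2 fun v w => ?_
  show B.ip (algebraMap F E c • v) w = B.ip v (algebraMap F E c • w)
  rw [B.smul_left, B.smul_right, QExt.star_alg]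

include F in
private theorem fiba0_alg (c0 : F0) :
    algebraMap E0 E (algebraMap F0 E0 c0) = algebraMap F E (algebraMap F0 F c0) := by
  haveI := KCompat.tower1 (F := F0) (E := E0) (K := F) (L := E)
  haveI := KCompat.tower2 (F := F0) (E := E0) (K := F) (L := E)
  rw [← IsScalarTower.algebraMap_apply F0 E0 E, ← IsScalarTower.algebraMap_apply F0 F E]

private theorem fiba0_map {F1 E1 : Type*} [Field F1] [Field E1] [Algebra F1 E1] (n : ℕ) (c : F1) :
    (Polynomial.X ^ 2 ^ n - Polynomial.C c).map (algebraMap F1 E1) =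
      Polynomial.X ^ 2 ^ n - Polynomial.C (algebraMap F1 E1 c) := by
  rw [Polynomial.map_sub, Polynomial.map_pow, Polynomial.map_X, Polynomial.map_C]

private theorem fiba0_aeval {E1 W : Type*} [Field E1] [AddCommGroup W] [Module E1 W] (n : ℕ)
    (s : Module.End E1 W) (c : E1) :
    Polynomial.aeval s (Polynomial.X ^ 2 ^ n - Polynomial.C c) = 0 ↔
      ∀ v : W, (s ^ 2 ^ n) v = c • v := by
  rw [map_sub, map_pow, Polynomial.aeval_X, Polynomial.aeval_C, sub_eq_zero]
  constructor
  · intro h v
    rw [h]
    rfl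
  · intro h
    ext v
    rw [h]
    rfl

private theorem fiba0_rpow {E1 E2 W : Type*} [Field E1] [Field E2] [Algebra E1 E2]
    [AddCommGroup W] [Module E1 W] [Module E2 W] [IsScalarTower E1 E2 W] (n : ℕ)
    (s : Module.End E2 W) (v : W) :
    (((s.restrictScalars E1 : Module.End E1 W)) ^ n) v = (s ^ n) v := by
  induction n generalizing v with
  | zero => rfl
  | succ n ih =>
    rw [pow_succ, pow_succ]
    show ((s.restrictScalars E1 : Module.End E1 W) ^ n) (s v) = (s ^ n) (s v)
    rw [ih]

/-- multiplication by `c ∈ F`, self-adjoint for `B0` -/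
def cSA {B0 : SkewH E0 V} {B : SkewH E V} (R : FRel B0 B) (c : F) : SA B0 :=
  ⟨(cMul E V c).restrictScalars E0, cSA_mem R c⟩

theorem cSA_sig {B0 : SkewH E0 V} {B : SkewH E V} (R : FRel B0 B) {j k m : ℕ} {c : F} {c0 : F0}
    (D : FNum F0 E0 F E j k m c c0) : cSA R c ∈ SigQ B0 (qq j c0) := by
  show Polynomial.aeval ((cMul E V c).restrictScalars E0 : Module.End E0 V)
    ((Polynomial.X ^ 2 ^ j - Polynomial.C c0).map (algebraMap F0 E0)) = 0
  rw [fiba0_map, fiba0_aeval]
  intro v
  rw [fiba0_rpow]
  have h1 : ∀ (n : ℕ) (v : V), ((cMul E V c) ^ n) v = (algebraMap F E c ^ n) • v := by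
    intro n
    induction n with
    | zero =>
      intro v
      rw [pow_zero, pow_zero, one_smul]
      rfl
    | succ n ih =>
      intro v
      rw [pow_succ]
      show (cMul E V c ^ n) (algebraMap F E c • v) = _
      rw [ih, smul_smul, pow_succ]
  rw [h1, ← map_pow, ← D.hc, ← fiba0_alg (F0 := F0) (E0 := E0) (F := F) (E := E) c0,
    algebraMap_smul]

theorem cSA_tau {B0 : SkewH E0 V} {B : SkewH E V} (R : FRel B0 B) (c : F) (τ : AntiU B) :
    saTau F0 (R.tau τ) (cSA R c) = cSA R c := by
  apply Subtype.ext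
  ext v
  show τ.t (algebraMap F E c • τ.t v) = algebraMap F E c • v
  rw [τ.smul, QExt.star_alg, τ.inv]

theorem gp_ys {B0 : SkewH E0 V} {B : SkewH E V} (R : FRel B0 B) {j k m : ℕ} {c : F} {c0 : F0}
    (D : FNum F0 E0 F E j k m c c0) (hd : Module.finrank E V = m * 2 ^ k) (g : GV E V) :
    g ∈ GP B (qq k c ^ m) ↔ resG E0 g ∈ YS B0 (qq (j + k) c0) := by
  haveI : CharP E 2 := char2_of_injective (algebraMap F E).injective
  set Q : Polynomial E := (qq k c).map (algebraMap F E) with hQdef
  have hQ1 : Q = Polynomial.X ^ 2 ^ k - Polynomial.C (algebraMap F E c) := fiba0_map k c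
  have hQm : Q.Monic := (qq_monic k c).map _
  have hQd : Q.natDegree = 2 ^ k := by
    rw [hQdef, (qq_monic k c).natDegree_map, qq_natDegree]
  have hQp : Q ^ 2 ^ j = Polynomial.X ^ 2 ^ (j + k) -
      Polynomial.C (algebraMap E0 E (algebraMap F0 E0 c0)) := by
    haveI : CharP (Polynomial E) 2 := inferInstance
    rw [hQ1, sub_pow_char_pow, ← pow_mul, ← pow_add, add_comm k j, ← map_pow, ← map_pow, ← D.hc,
      fiba0_alg (F0 := F0) (E0 := E0) (F := F) (E := E) c0]
  set s : Module.End E V := (sg B g).1 with hs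
  have hs0 : (sg B0 (resG E0 g)).1 = (s.restrictScalars E0 : Module.End E0 V) := by
    show (g.1.restrictScalars E0 : Module.End E0 V) *
      adj B0 (g.1.restrictScalars E0 : Module.End E0 V) = _
    rw [rel_adj R]
    rfl
  have hR : resG E0 g ∈ YS B0 (qq (j + k) c0) ↔ Polynomial.aeval s (Q ^ 2 ^ j) = 0 := by
    show Polynomial.aeval (sg B0 (resG E0 g)).1
      ((Polynomial.X ^ 2 ^ (j + k) - Polynomial.C c0).map (algebraMap F0 E0)) = 0 ↔ _
    rw [hs0, fiba0_map, fiba0_aeval, hQp, fiba0_aeval]
    refine forall_congr' fun v => ?_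
    rw [fiba0_rpow, IsScalarTower.algebraMap_smul E (algebraMap F0 E0 c0) v]
  rw [hR]
  have hL : g ∈ GP B (qq k c ^ m) ↔ s.charpoly = Q ^ m := by
    show s.charpoly = (qq k c ^ m).map (algebraMap F E) ↔ _
    rw [Polynomial.map_pow]
  rw [hL]
  constructor
  · intro h
    have h1 := LinearMap.aeval_self_charpoly s
    rw [h] at h1
    obtain ⟨r, hr⟩ := Nat.exists_eq_add_of_le D.hm
    rw [hr, pow_add, map_mul, h1, zero_mul]
  · intro h
    exact fiba0_charpoly s Q D.irr hQm _ h m (by rw [hd, hQd])

end

end Pool.Agent.Work.MP_dd0ddf_al.C2
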