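import Pool.Agent.Work.MP_dd0ddf_al.C2.FourDefs

/-!
# MP_dd0ddf_al, module FourEx: the Fourier transform maps `SF` to `SF`

`four1_exists`: the function `w ↦ ∫ χ(v,w) f(v) dv` is additive in `f`, so by `sf_induction` (with W x small, U a compact open subgroup)
we may take `f` = `single (a + L) b`, `L` a compact open subgroup (every compact open set is a finite disjoint union of cosets of
a small compact open subgroup).  Then `fourFun f w = hvol(L) χ(a, w) b` if `χ(v, w) = 1` for all `v ∈ L`, and `0` otherwise (an integral over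
the compact group `L` of a nontrivial character vanishes: translate).  The set `L^⊥ = {w : χ(v,w) = 1 for v ∈ L}` is compact (`perp`)
and open (it is a subgroup; by `lc` and compactness of `L` it contains a neighbourhood of 0).
`four2_exists`: for `f : SF (X × U) B`, by `sf_induction` with boxes `K × K'`: `f = single (K ×ˢ K') b` and `slice x f = single K' b` or `0`.
-/

set_option linter.unusedSectionVars false
set_option linter.style.haveILetI false

namespace Pool.Agent.Work.MP_dd0ddf_al.C2

noncomputable section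

variable {U : Type*} [AddCommGroup U] [TopologicalSpace U] [IsTopologicalAddGroup U]
  [LocallyCompactSpace U] [T2Space U] [TotallyDisconnectedSpace U]
  {X : Type*} [TopologicalSpace X] [T2Space X] [LocallyCompactSpace X]
  [TotallyDisconnectedSpace X]
  {B B' : Type*} [AddCommGroup B] [Module ℂ B] [AddCommGroup B'] [Module ℂ B']

private theorem fourex_inv1 (f : SF U B) : ∃ L : AddSubgroup U, IsOpen (L : Set U) ∧
    IsCompact (L : Set U) ∧ ∀ v, ∀ l ∈ L, f (v + l) = f v := by
  have hK : IsCompact (tsupport f.1) := f.2.2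
  have hev : ∀ᶠ l in nhds (0 : U), ∀ z ∈ tsupport f.1, f.1 (z + l) = f.1 z := by
    refine hK.eventually_forall_of_forall_eventually ?_
    intro z0 _
    have hlc := (IsLocallyConstant.iff_eventually_eq _).mp f.2.1 z0
    have c1 : Continuous fun q : U × U => q.2 + q.1 := continuous_snd.add continuous_fst
    have t1 : Filter.Tendsto (fun q : U × U => q.2 + q.1) (nhds (0, z0)) (nhds z0) := by
      have := c1.tendsto (0, z0)
      simpa using this
    have e2 : ∀ᶠ q : U × U in nhds (0, z0), f.1 q.2 = f.1 z0 :=
      (continuous_snd.tendsto ((0, z0) : U × U)).eventually hlc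
    filter_upwards [t1.eventually hlc, e2] with q h1 h2
    rw [h1, h2]
  obtain ⟨N, hN, hNo, hN0⟩ := eventually_nhds_iff.1 hev
  obtain ⟨L, h1, h2, h3⟩ := exists_co_addSubgroup N hNo hN0
  refine ⟨L, h1, h2, fun v l hl => ?_⟩
  by_cases hv : v ∈ tsupport f.1
  · exact hN l (h3 hl) v hv
  · have h0 : f.1 v = 0 := image_eq_zero_of_notMem_tsupport hv
    show f.1 (v + l) = f.1 v
    rw [h0]
    by_contra hne
    have hy : v + l ∈ tsupport f.1 := subset_tsupport _ hne
    have h4 := hN (-l) (h3 (L.neg_mem hl)) (v + l) hy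
    rw [add_neg_cancel_right, h0] at h4
    exact hne h4.symm

private theorem fourex_inv2 (f : SF (X × U) B) : ∃ L : AddSubgroup U, IsOpen (L : Set U) ∧
    IsCompact (L : Set U) ∧ ∀ x v, ∀ l ∈ L, f (x, v + l) = f (x, v) := by
  have hK : IsCompact (tsupport f.1) := f.2.2
  have hev : ∀ᶠ l in nhds (0 : U), ∀ z ∈ tsupport f.1, f.1 (z.1, z.2 + l) = f.1 z := by
    refine hK.eventually_forall_of_forall_eventually ?_
    intro z0 _
    have hlc := (IsLocallyConstant.iff_eventually_eq _).mp f.2.1 z0
    have c1 : Continuous fun q : U × (X × U) => ((q.2.1, q.2.2 + q.1) : X × U) :=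
      (continuous_fst.comp continuous_snd).prodMk
        ((continuous_snd.comp continuous_snd).add continuous_fst)
    have t1 : Filter.Tendsto (fun q : U × (X × U) => ((q.2.1, q.2.2 + q.1) : X × U))
        (nhds (0, z0)) (nhds z0) := by
      have := c1.tendsto (0, z0)
      simpa using this
    have e2 : ∀ᶠ q : U × (X × U) in nhds (0, z0), f.1 q.2 = f.1 z0 :=
      (continuous_snd.tendsto ((0, z0) : U × (X × U))).eventually hlc
    filter_upwards [t1.eventually hlc, e2] with q h1 h2
    rw [h1, h2]
  obtain ⟨N, hN, hNo, hN0⟩ := eventually_nhds_iff.1 hev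
  obtain ⟨L, h1, h2, h3⟩ := exists_co_addSubgroup N hNo hN0
  refine ⟨L, h1, h2, fun x v l hl => ?_⟩
  by_cases hv : (x, v) ∈ tsupport f.1
  · exact hN l (h3 hl) (x, v) hv
  · have h0 : f.1 (x, v) = 0 := image_eq_zero_of_notMem_tsupport hv
    show f.1 (x, v + l) = f.1 (x, v)
    rw [h0]
    by_contra hne
    have hy : (x, v + l) ∈ tsupport f.1 := subset_tsupport _ hne
    have h4 := hN (-l) (h3 (L.neg_mem hl)) (x, v + l) hy
    simp only [add_neg_cancel_right] at h4
    rw [h0] at h4
    exact hne h4.symm

private theorem fourex_zero (χ : BiChar U) (f : SF U B) (l w : U) (h : ∀ v, f (v + l) = f v)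
    (hw : χ.χ l w ≠ 1) : fourFun χ f w = 0 := by
  have e : SF.comp (Homeomorph.addRight l) (SF.mulc (fun v => χ.χ v w) (χ.lcl w) f) =
      χ.χ l w • SF.mulc (fun v => χ.χ v w) (χ.lcl w) f := by
    apply SF.ext
    intro v
    show χ.χ (v + l) w • f (v + l) = χ.χ l w • (χ.χ v w • f v)
    rw [h, χ.addl, smul_smul, mul_comm]
  have e2 := hI_trans l (SF.mulc (fun v => χ.χ v w) (χ.lcl w) f)
  rw [e, map_smul] at e2
  unfold fourFun
  have e3 : (χ.χ l w - 1) • hI (SF.mulc (fun v => χ.χ v w) (χ.lcl w) f) = 0 := by
    rw [sub_smul, one_smul, e2, sub_self]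
  exact (smul_eq_zero.1 e3).resolve_left (sub_ne_zero.2 hw)

private theorem fourex_ev (χ : BiChar U) (f : SF U B) (w0 : U) :
    ∀ᶠ w in nhds w0, fourFun χ f w = fourFun χ f w0 := by
  have hK : IsCompact (tsupport f.1) := f.2.2
  have hev : ∀ᶠ w in nhds w0, ∀ v ∈ tsupport f.1, χ.χ v w = χ.χ v w0 := by
    refine hK.eventually_forall_of_forall_eventually ?_
    intro v0 _
    have h1 := (IsLocallyConstant.iff_eventually_eq _).mp χ.lc (v0, w0)
    have t1 : Filter.Tendsto (fun q : U × U => (q.2, q.1)) (nhds (w0, v0)) (nhds (v0, w0)) :=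
      (continuous_snd.prodMk continuous_fst).tendsto (w0, v0)
    have t2 : Filter.Tendsto (fun q : U × U => (q.2, w0)) (nhds (w0, v0)) (nhds (v0, w0)) :=
      (continuous_snd.prodMk continuous_const).tendsto (w0, v0)
    filter_upwards [t1.eventually h1, t2.eventually h1] with q a b
    show χ.χ q.2 q.1 = χ.χ q.2 w0
    have a' : χ.χ q.2 q.1 = χ.χ v0 w0 := a
    have b' : χ.χ q.2 w0 = χ.χ v0 w0 := b
    rw [a', b']
  filter_upwards [hev] with w hw
  unfold fourFun
  congr 1
  apply SF.ext
  intro v
  show χ.χ v w • f v = χ.χ v w0 • f v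
  by_cases hv : v ∈ tsupport f.1
  · rw [hw v hv]
  · have h0 : f v = 0 := image_eq_zero_of_notMem_tsupport hv
    rw [h0, smul_zero, smul_zero]

private theorem fourex_slice_ev (f : SF (X × U) B) (x : X) :
    ∀ᶠ x' in nhds x, SF.slice x' f = SF.slice x f := by
  have hK : IsCompact (Prod.snd '' tsupport f.1) := f.2.2.image continuous_snd
  have hev : ∀ᶠ x' in nhds x, ∀ y ∈ Prod.snd '' tsupport f.1, f.1 (x', y) = f.1 (x, y) := by
    refine hK.eventually_forall_of_forall_eventually ?_
    intro y _
    have h1 := (IsLocallyConstant.iff_eventually_eq _).mp f.2.1 (x, y)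
    have c2 : Continuous fun z : X × U => ((x, z.2) : X × U) :=
      continuous_const.prodMk continuous_snd
    have h2 : ∀ᶠ z : X × U in nhds (x, y), f.1 (x, z.2) = f.1 (x, y) := by
      have : Filter.Tendsto (fun z : X × U => ((x, z.2) : X × U)) (nhds (x, y)) (nhds (x, y)) :=
        c2.tendsto (x, y)
      exact this.eventually h1
    filter_upwards [h1, h2] with z e1 e2
    show f.1 (z.1, z.2) = f.1 (x, z.2)
    rw [e2]
    exact e1
  filter_upwards [hev] with x' hx'
  apply SF.ext
  intro y
  show f.1 (x', y) = f.1 (x, y)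
  by_cases hy : y ∈ Prod.snd '' tsupport f.1
  · exact hx' y hy
  · have h0 : ∀ x'' : X, f.1 (x'', y) = 0 := by
      intro x''
      apply image_eq_zero_of_notMem_tsupport
      intro h
      exact hy ⟨(x'', y), h, rfl⟩
    rw [h0, h0]

theorem four1_exists (χ : BiChar U) (f : SF U B) : ∃ g : SF U B, ∀ w, g w = fourFun χ f w := by
  obtain ⟨L, hL, _, hf⟩ := fourex_inv1 f
  refine ⟨⟨fun w => fourFun χ f w, ?_, ?_⟩, fun w => rfl⟩
  · rw [IsLocallyConstant.iff_eventually_eq]
    exact fun w => fourex_ev χ f w
  · refine HasCompactSupport.of_support_subset_isCompact (χ.perp L hL) ?_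
    intro w hw v hv
    by_contra hne
    exact hw (fourex_zero χ f v w (fun u => hf u v hv) hne)

theorem four2_exists (χ : BiChar U) (f : SF (X × U) B) :
    ∃ g : SF (X × U) B, ∀ x w, g (x, w) = fourFun χ (SF.slice x f) w := by
  obtain ⟨L, hL, _, hf⟩ := fourex_inv2 f
  refine ⟨⟨fun q => fourFun χ (SF.slice q.1 f) q.2, ?_, ?_⟩, fun x w => rfl⟩
  · rw [IsLocallyConstant.iff_eventually_eq]
    rintro ⟨x0, w0⟩
    have h1 := (continuous_fst.tendsto ((x0, w0) : X × U)).eventually (fourex_slice_ev f x0)
    have h2 := (continuous_snd.tendsto ((x0, w0) : X × U)).eventually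
      (fourex_ev χ (SF.slice x0 f) w0)
    filter_upwards [h1, h2] with q a b
    show fourFun χ (SF.slice q.1 f) q.2 = fourFun χ (SF.slice x0 f) w0
    rw [a, b]
  · have hK : IsCompact (Prod.fst '' tsupport f.1) := f.2.2.image continuous_fst
    refine HasCompactSupport.of_support_subset_isCompact (hK.prod (χ.perp L hL)) ?_
    rintro ⟨x, w⟩ hq
    refine ⟨?_, ?_⟩
    · by_contra hn
      apply hq
      have h0 : SF.slice x f = 0 := by
        apply SF.ext
        intro y
        show f.1 (x, y) = 0
        apply image_eq_zero_of_notMem_tsupport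
        intro h
        exact hn ⟨(x, y), h, rfl⟩
      show fourFun χ (SF.slice x f) w = 0
      unfold fourFun
      rw [h0, map_zero, map_zero]
    · intro v hv
      by_contra hne
      exact hq (fourex_zero χ (SF.slice x f) v w (fun u => hf x u v hv) hne)

theorem fourFun_add (χ : BiChar U) (f g : SF U B) (w : U) :
    fourFun χ (f + g) w = fourFun χ f w + fourFun χ g w := by
  unfold fourFun
  rw [map_add, map_add]

theorem fourFun_smul (χ : BiChar U) (c : ℂ) (f : SF U B) (w : U) :
    fourFun χ (c • f) w = c • fourFun χ f w := by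
  unfold fourFun
  rw [map_smul, map_smul]

/-- the Fourier transform on `SF U B` -/
def four1 (χ : BiChar U) : SF U B →ₗ[ℂ] SF U B where
  toFun f := (four1_exists χ f).choose
  map_add' f g := by
    apply SF.ext
    intro w
    rw [(four1_exists χ (f + g)).choose_spec w, fourFun_add]
    show _ = (four1_exists χ f).choose w + (four1_exists χ g).choose w
    rw [(four1_exists χ f).choose_spec w, (four1_exists χ g).choose_spec w]
  map_smul' c f := by
    apply SF.ext
    intro w
    rw [(four1_exists χ (c • f)).choose_spec w, fourFun_smul]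
    show _ = c • (four1_exists χ f).choose w
    rw [(four1_exists χ f).choose_spec w]

theorem four1_apply (χ : BiChar U) (f : SF U B) (w : U) : four1 χ f w = fourFun χ f w :=
  (four1_exists χ f).choose_spec w

/-- the Fourier transform on `SF (X × U) B` in the second variable -/
def four2 (χ : BiChar U) : SF (X × U) B →ₗ[ℂ] SF (X × U) B where
  toFun f := (four2_exists χ f).choose
  map_add' f g := by
    apply SF.ext
    rintro ⟨x, w⟩
    rw [(four2_exists χ (f + g)).choose_spec x w, map_add, fourFun_add]
    show _ = (four2_exists χ f).choose (x, w) + (four2_exists χ g).choose (x, w)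
    rw [(four2_exists χ f).choose_spec x w, (four2_exists χ g).choose_spec x w]
  map_smul' c f := by
    apply SF.ext
    rintro ⟨x, w⟩
    rw [(four2_exists χ (c • f)).choose_spec x w, map_smul, fourFun_smul]
    show _ = c • (four2_exists χ f).choose (x, w)
    rw [(four2_exists χ f).choose_spec x w]

theorem four2_apply (χ : BiChar U) (f : SF (X × U) B) (x : X) (w : U) :
    four2 χ f (x, w) = fourFun χ (SF.slice x f) w :=
  (four2_exists χ f).choose_spec x w

theorem slice_four2 (χ : BiChar U) (f : SF (X × U) B) (x : X) :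
    SF.slice x (four2 χ f) = four1 χ (SF.slice x f) := by
  apply SF.ext
  intro w
  rw [four1_apply]
  exact four2_apply χ f x w

end

end Pool.Agent.Work.MP_dd0ddf_al.C2
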