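import Pool.Agent.Work.MP_dd0ddf_al.C2.KDefs

/-!
# MP_dd0ddf_al (characteristic 2), module FrDefs (FIXED, proved): the field `F^(2^j)`

`Fr j F` is the field `F` itself, regarded as a subfield of `F` by the embedding `x ↦ x^(2^j)` (`frHom`); its norm is `‖x‖^(2^j)`.  `frE : F ≃+* Fr j F` is the identity, `frH : F ≃ₜ Fr j F` the identity as a homeomorphism.
For a quadratic extension `E/F`: `Fr j E / Fr j F` is a quadratic extension, `frAlg : Algebra (Fr j F) E` the composite embedding.  `frMod : Module (Fr j E) V`.
-/

set_option linter.unusedSectionVars false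
set_option linter.style.haveILetI false

namespace Pool.Agent.Work.MP_dd0ddf_al.C2

noncomputable section

universe u

/-- the field `F^(2^j)`: the field `F` with the embedding `x ↦ x^(2^j)` into `F` -/
def Fr (_j : ℕ) (F : Type u) : Type u := F

section one

variable (j : ℕ) (F : Type u) [NontriviallyNormedField F] [CharP F 2]

private def frHom0 : F →+* F where
  toFun x := x ^ 2 ^ j
  map_one' := one_pow _
  map_mul' x y := mul_pow x y _
  map_zero' := zero_pow (pow_ne_zero j two_ne_zero)
  map_add' x y := add_pow_char_pow x y 2 j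

@[reducible] private def frField : Field (Fr j F) := inferInstanceAs (Field F)

private theorem frHom0_inj : Function.Injective (frHom0 j F) := (frHom0 j F).injective

instance frNF : NontriviallyNormedField (Fr j F) :=
  letI : Field (Fr j F) := frField j F
  { NormedField.induced (Fr j F) F (show Fr j F →+* F from frHom0 j F) (frHom0_inj j F) with
    non_trivial := by
      obtain ⟨x, hx⟩ := NontriviallyNormedField.non_trivial (α := F)
      refine ⟨x, ?_⟩
      show 1 < ‖x ^ 2 ^ j‖
      rw [norm_pow]
      exact one_lt_pow₀ hx (pow_ne_zero j two_ne_zero) }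

/-- the embedding of `F^(2^j)` in `F` -/
def frHom : Fr j F →+* F := frHom0 j F

/-- the identity -/
def frE : F ≃+* Fr j F := RingEquiv.refl F

theorem frHom_frE (x : F) : frHom j F (frE j F x) = x ^ 2 ^ j := rfl

theorem fr_norm (x : F) : ‖frE j F x‖ = ‖x‖ ^ 2 ^ j := norm_pow x _

theorem fr_norm' (x : Fr j F) : ‖x‖ = ‖frHom j F x‖ := rfl

theorem fr_dist (x y : Fr j F) : dist x y = dist (frHom j F x) (frHom j F y) := rfl

theorem frE_cont : Continuous (frE j F) := by
  have h : Topology.IsInducing (frHom j F) := ⟨rfl⟩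
  rw [h.continuous_iff]
  exact continuous_pow _

theorem frE_symm_cont : Continuous (frE j F).symm := by
  rw [Metric.continuous_iff]
  intro b ε hε
  refine ⟨ε ^ 2 ^ j, pow_pos hε _, fun a ha => ?_⟩
  rw [dist_eq_norm] at ha ⊢
  rw [← map_sub]
  have h1 : ‖a - b‖ = ‖(frE j F).symm (a - b)‖ ^ 2 ^ j := by
    rw [← fr_norm, RingEquiv.apply_symm_apply]
  rw [h1] at ha
  exact lt_of_pow_lt_pow_left₀ _ hε.le ha

/-- the identity as a homeomorphism -/
def frH : F ≃ₜ Fr j F where
  toEquiv := (frE j F).toEquiv
  continuous_toFun := frE_cont j F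
  continuous_invFun := frE_symm_cont j F

theorem frH_apply (x : F) : frH j F x = frE j F x := rfl

instance frChar : CharP (Fr j F) 2 := char2_of_injective (f := (frE j F : F →+* Fr j F)) (frE j F).injective

instance frUltra [IsUltrametricDist F] : IsUltrametricDist (Fr j F) :=
  ⟨fun x y z => dist_triangle_max (frHom j F x) (frHom j F y) (frHom j F z)⟩

instance frProper [ProperSpace F] : ProperSpace (Fr j F) where
  isCompact_closedBall x r := by
    have h1 : Metric.closedBall x r =
        frH j F '' {y : F | ‖y - (frE j F).symm x‖ ^ 2 ^ j ≤ r} := by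
      ext y
      rw [Metric.mem_closedBall, dist_eq_norm]
      have h2 : ‖y - x‖ = ‖(frE j F).symm y - (frE j F).symm x‖ ^ 2 ^ j := by
        rw [← map_sub, ← fr_norm, RingEquiv.apply_symm_apply]
      rw [h2]
      constructor
      · intro h
        exact ⟨(frE j F).symm y, h, (frE j F).apply_symm_apply y⟩
      · rintro ⟨z, hz, rfl⟩
        rw [frH_apply, RingEquiv.symm_apply_apply]
        exact hz
    rw [h1]
    refine IsCompact.image ?_ (frH j F).continuous
    refine (isCompact_closedBall ((frE j F).symm x) (max 1 r)).of_isClosed_subset ?_ ?_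
    · exact isClosed_le (((continuous_id.sub continuous_const).norm).pow _) continuous_const
    · intro y hy
      rw [Metric.mem_closedBall, dist_eq_norm]
      by_contra hc
      push Not at hc
      have h3 : 1 ≤ ‖y - (frE j F).symm x‖ := (le_max_left 1 r).trans hc.le
      have h4 : ‖y - (frE j F).symm x‖ ≤ ‖y - (frE j F).symm x‖ ^ 2 ^ j :=
        le_self_pow₀ h3 (pow_ne_zero j two_ne_zero)
      exact absurd (h4.trans hy) (not_le.2 ((le_max_right 1 r).trans_lt hc))

/-- `F` is a normed algebra over `F^(2^j)` -/
instance frNA : NormedAlgebra (Fr j F) F where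
  toAlgebra := (frHom j F).toAlgebra
  norm_smul_le r x := by
    show ‖frHom j F r * x‖ ≤ ‖frHom j F r‖ * ‖x‖
    rw [norm_mul]

theorem fr_algebraMap (x : Fr j F) : algebraMap (Fr j F) F x = frHom j F x := rfl

theorem fr_smul (r : Fr j F) (x : F) : r • x = frHom j F r * x := rfl

theorem frFD [ProperSpace F] : FiniteDimensional (Fr j F) F :=
  FiniteDimensional.of_locallyCompactSpace (Fr j F)

instance frMS : MeasurableSpace (Fr j F) := borel _

instance frBS : BorelSpace (Fr j F) := ⟨rfl⟩

/-- a character of `F` as a character of `F^(2^j)` -/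
def frP (p : PChar F) : PChar (Fr j F) where
  ψ x := p.ψ ((frE j F).symm x)
  add x y := by rw [map_add, p.add]
  norm_one x := p.norm_one _
  lc := p.lc.comp_continuous (frE_symm_cont j F)
  nontriv := by
    obtain ⟨y, hy⟩ := p.nontriv
    exact ⟨frE j F y, hy⟩

/-- a character of `F^×` as a character of `(F^(2^j))^×` -/
def frMu (μ : Fˣ →* ℂˣ) : (Fr j F)ˣ →* ℂˣ :=
  μ.comp (Units.map ((frE j F).symm : Fr j F →+* F).toMonoidHom)

theorem frMu_apply (μ : Fˣ →* ℂˣ) (x : (Fr j F)ˣ) :
    frMu j F μ x = μ (Units.map ((frE j F).symm : Fr j F →+* F).toMonoidHom x) := rfl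

theorem frMu_lc (μ : Fˣ →* ℂˣ) (h : IsLocallyConstant (fun x : Fˣ => ((μ x : ℂˣ) : ℂ))) :
    IsLocallyConstant (fun x : (Fr j F)ˣ => ((frMu j F μ x : ℂˣ) : ℂ)) :=
  have hc : Continuous (Units.map ((frE j F).symm : Fr j F →+* F).toMonoidHom) :=
    Continuous.units_map _ (frE_symm_cont j F)
  h.comp_continuous hc

end one

section two

variable (j : ℕ) (F E : Type u) [NontriviallyNormedField F] [CharP F 2]
  [NontriviallyNormedField E] [CharP E 2] [NormedAlgebra F E]

instance frNA2 : NormedAlgebra (Fr j F) (Fr j E) where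
  toAlgebra := inferInstanceAs (Algebra F E)
  norm_smul_le r x := by
    show ‖((frE j F).symm r • (frE j E).symm x : E) ^ 2 ^ j‖ ≤
      ‖((frE j F).symm r : F) ^ 2 ^ j‖ * ‖((frE j E).symm x : E) ^ 2 ^ j‖
    rw [norm_pow, norm_pow, norm_pow, norm_smul, mul_pow]

theorem fr_algebraMap2 (x : F) : algebraMap (Fr j F) (Fr j E) (frE j F x) =
    frE j E (algebraMap F E x) := rfl

/-- the embedding `F^(2^j) → E` -/
@[reducible] def frAlg : Algebra (Fr j F) E := ((algebraMap F E).comp (frHom j F)).toAlgebra

instance frStar [StarRing E] : StarRing (Fr j E) := inferInstanceAs (StarRing E)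

theorem fr_star [StarRing E] (x : E) : star (frE j E x) = frE j E (star x) := rfl

theorem frHom_star [StarRing E] (x : Fr j E) : frHom j E (star x) = star (frHom j E x) :=
  (star_pow ((frE j E).symm x) (2 ^ j)).symm

instance frQExt [StarRing E] [QExt F E] : QExt (Fr j F) (Fr j E) where
  star_alg x := QExt.star_alg (F := F) (E := E) x
  finrank_two := QExt.finrank_two (F := F) (E := E)
  nontriv := QExt.nontriv (F := F) (E := E)

theorem fr_isNorm [StarRing E] [QExt F E] (c : F) :
    IsNorm (Fr j F) (Fr j E) (frE j F c) ↔ IsNorm F E c := Iff.rfl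

instance frDl [StarRing E] [Dl E] : Dl (Fr j E) where
  d := frE j E Dl.d
  add_star := (Dl.add_star : (Dl.d : E) + star Dl.d = 1)

end two

section mod

variable (j : ℕ) (E V : Type u) [NontriviallyNormedField E] [CharP E 2] [AddCommGroup V]
  [Module E V]

/-- `V` as a vector space over `E^(2^j)` -/
@[reducible] def frMod : Module (Fr j E) V := Module.compHom V (frHom j E)

theorem fr_smulV (r : Fr j E) (v : V) :
    letI := frMod j E V
    r • v = frHom j E r • v := rfl

theorem frTower :
    letI := frMod j E V
    IsScalarTower (Fr j E) E V :=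
  letI := frMod j E V
  ⟨fun r x v => by
    show (frHom j E r * x) • v = frHom j E r • x • v
    rw [mul_smul]⟩

theorem frModFin [ProperSpace E] [Module.Finite E V] :
    letI := frMod j E V
    Module.Finite (Fr j E) V :=
  letI := frMod j E V
  haveI := frTower j E V
  haveI := frFD j E
  Module.Finite.trans E V

theorem frModCont [TopologicalSpace V] [ContinuousSMul E V] :
    letI := frMod j E V
    ContinuousSMul (Fr j E) V :=
  letI := frMod j E V
  ⟨by
    show Continuous fun q : Fr j E × V => frHom j E q.1 • q.2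
    have h : Continuous (frHom j E) := by
      have h1 : Topology.IsInducing (frHom j E) := ⟨rfl⟩
      exact h1.continuous
    exact (h.comp continuous_fst).smul continuous_snd⟩

end mod

end

end Pool.Agent.Work.MP_dd0ddf_al.C2
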