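import Pool.Agent.Work.MP_dd0ddf_al.C2.FrDefs
import Pool.Agent.Work.MP_dd0ddf_al.C2.HmodDil
import Pool.Agent.Work.MP_dd0ddf_al.C2.NiGauss

/-!
# MP_dd0ddf_al (characteristic 2), module FrDim: moduli on `F^(2^j)` and the degree `[F : F^(2^j)] = 2^j`

`fr_hmod`: `frH j F : F ≃ₜ Fr j F` is an additive homeomorphism and transports multiplication by `c` to multiplication by `frE c` (map_mul): `hmod_transfer` (module HmodAux; see the use in HmodDil).
`fr_finrank`: let `t ∈ F` with `0 < ‖t‖ < 1` (NontriviallyNormedField), `t' := frE j F t`, `d := finrank (Fr j F) F` (`frFD`).  `hmod_dil` over the field `Fr j F` with `U = F`: `hmod (dil F t') = hmod (dil (Fr j F) t') ^ d`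
(the structure of `F` as a `Fr j F`-module is the one of frNA).  `dil F t'` is `x ↦ t' • x = t^(2^j) x`, so by `hmod_mul` and induction `hmod (dil F t') = hmod (mulT F t) ^ (2^j)` (hmod_mul α β γ: γ = α ∘ β gives the product; `hmod_id` for exponent 0);
`dil (Fr j F) t'` is `x ↦ t' x` on `Fr j F`, so `hmod (dil (Fr j F) t') = hmod (mulT F t)` (hmod_transfer by frH as in `fr_hmod`).  So `h^(2^j) = h^d` with `h = hmod (mulT F t) > 1` (`hmod_dil_small` for the field F, dil F t and mulT F t are the same map: hmod_transfer with the identity homeomorphism),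
hence `d = 2^j` (`pow_right_injective₀` or pow_lt_pow_right₀).
-/

set_option linter.unusedSectionVars false
set_option linter.style.haveILetI false

namespace Pool.Agent.Work.MP_dd0ddf_al.C2

noncomputable section

universe u

variable (j : ℕ) (F : Type u) [NontriviallyNormedField F] [IsUltrametricDist F] [ProperSpace F]
  [CharP F 2]

theorem fr_hmod (F : Type u) [NontriviallyNormedField F] [CharP F 2] [LocallyCompactSpace F]
    [TotallyDisconnectedSpace F] [LocallyCompactSpace (Fr j F)]
    [TotallyDisconnectedSpace (Fr j F)] (c : F) (hc : c ≠ 0) (hc' : frE j F c ≠ 0) :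
    hmod (mulT (Fr j F) (frE j F c) hc') = hmod (mulT F c hc) := by
  symm
  refine hmod_transfer (frH j F) (fun x y => map_add (frE j F) x y) _ _ (fun x => ?_)
  exact map_mul (frE j F) c x

private theorem fr_pow (F : Type u) [NontriviallyNormedField F] [LocallyCompactSpace F]
    [TotallyDisconnectedSpace F] (t : F) (ht : t ≠ 0) (n : ℕ) :
    ∀ α : TAut F, (∀ x, α.h x = t ^ n * x) → hmod α = hmod (mulT F t ht) ^ n := by
  induction n with
  | zero =>
    intro α hα
    rw [pow_zero]
    exact hmod_id α fun x => by rw [hα, pow_zero, one_mul]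
  | succ n ih =>
    intro α hα
    rw [pow_succ', ← ih (mulT F (t ^ n) (pow_ne_zero n ht)) fun x => rfl]
    refine hmod_mul _ _ _ fun x => ?_
    rw [hα]
    show t ^ (n + 1) * x = t * (t ^ n * x)
    ring

theorem fr_finrank : Module.finrank (Fr j F) F = 2 ^ j := by
  obtain ⟨t, ht0, ht1⟩ := NormedField.exists_norm_lt_one F
  have ht : t ≠ 0 := norm_pos_iff.1 ht0
  have ht' : frE j F t ≠ 0 := (map_ne_zero (frE j F)).2 ht
  haveI := frFD j F
  have h1 := hmod_dil (F := Fr j F) (U := F) (frE j F t) ht'
  have h2 : hmod (dil F (frE j F t) ht') = hmod (mulT F t ht) ^ 2 ^ j :=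
    fr_pow F t ht (2 ^ j) _ fun x => rfl
  have h3 : hmod (dil (Fr j F) (frE j F t) ht') = hmod (mulT F t ht) := by
    rw [← fr_hmod j F t ht ht']
    exact hmod_transfer (Homeomorph.refl _) (fun _ _ => rfl) _ _ fun x => rfl
  have h4 : hmod (dil F t ht) = hmod (mulT F t ht) :=
    hmod_transfer (Homeomorph.refl _) (fun _ _ => rfl) _ _ fun x => rfl
  have h5 := hmod_dil_small t ht ht1
  rw [h4] at h5
  rw [h2, h3] at h1
  exact (pow_right_injective₀ (zero_lt_one.trans h5) h5.ne' h1).symm

end

end Pool.Agent.Work.MP_dd0ddf_al.C2
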