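import Pool.Agent.Work.MP_dd0ddf_al.C2.FrDim

/-!
# MP_dd0ddf_al (characteristic 2), module FrKC: `(Fr j F, Fr j E) ⊆ (F, E)` is a compatible pair; the norm of `E / E^(2^j)`

`fr_finrankE`: towers `Fr j F ⊆ F ⊆ E` and `Fr j F ⊆ Fr j E ⊆ E` (IsScalarTower for the algebra structure `frAlg j F E`: `IsScalarTower.of_algebraMap_eq fun _ => rfl` for the first; for the second
`algebraMap (Fr j E) E (algebraMap (Fr j F) (Fr j E) (frE x)) = (algebraMap F E x)^(2^j) = algebraMap F E (x^(2^j))`, map_pow).  `Module.finrank_mul_finrank`: `2^j * 2 = finrank (Fr j F) E = 2 * finrank (Fr j E) E` (fr_finrank, QExt.finrank_two for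
`F ⊆ E` and for `Fr j F ⊆ Fr j E`).
`fr_kcompat`: tower1, tower2 as above; star_comm: frHom_star; fd: frFD; deg: fr_finrank, fr_finrankE.
`fr_normmap`: let `N := Algebra.norm (Fr j E) x`.  `x^(2^j) = algebraMap (Fr j E) E (frE j E x)` (frHom_frE), so `N ^ (2^j) = Algebra.norm (Fr j E) (x^(2^j)) = (frE j E x)^(finrank (Fr j E) E) = (frE j E x)^(2^j)`
(map_pow, Algebra.norm_algebraMap); the map `y ↦ y^(2^j)` is injective on `Fr j E` (it is `frHom (frE ..)`; or CharP 2: `pow` injective, iterateFrobenius_inj; or (N - x)^(2^j) = N^(2^j) - x^(2^j) = 0, sub_pow_char_pow).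
-/

set_option linter.unusedSectionVars false
set_option linter.style.haveILetI false

namespace Pool.Agent.Work.MP_dd0ddf_al.C2

noncomputable section

universe u

variable (j : ℕ) (F E : Type u) [NontriviallyNormedField F] [IsUltrametricDist F] [ProperSpace F]
  [CharP F 2] [NontriviallyNormedField E] [CharP E 2] [NormedAlgebra F E] [ProperSpace E]
  [StarRing E] [QExt F E]

private theorem frkc_tower1 :
    letI := frAlg j F E
    IsScalarTower (Fr j F) F E := by
  letI := frAlg j F E
  exact IsScalarTower.of_algebraMap_eq fun _ => rfl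

private theorem frkc_tower2 :
    letI := frAlg j F E
    IsScalarTower (Fr j F) (Fr j E) E := by
  letI := frAlg j F E
  refine IsScalarTower.of_algebraMap_eq fun x => ?_
  show algebraMap F E (frHom j F x) = frHom j E (algebraMap (Fr j F) (Fr j E) x)
  obtain ⟨y, rfl⟩ := (frE j F).surjective x
  rw [fr_algebraMap2, frHom_frE, frHom_frE, map_pow]

include F in
theorem fr_finrankE : Module.finrank (Fr j E) E = 2 ^ j := by
  letI := frAlg j F E
  haveI := frkc_tower1 j F E
  haveI := frkc_tower2 j F E
  haveI := frFD j F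
  haveI := frFD j E
  haveI : FiniteDimensional F E := qext_findim F E
  haveI : FiniteDimensional (Fr j F) (Fr j E) := qext_findim (Fr j F) (Fr j E)
  have h1 := Module.finrank_mul_finrank (Fr j F) F E
  have h2 := Module.finrank_mul_finrank (Fr j F) (Fr j E) E
  rw [fr_finrank, QExt.finrank_two (F := F) (E := E)] at h1
  rw [QExt.finrank_two (F := Fr j F) (E := Fr j E)] at h2
  omega

theorem fr_kcompat :
    letI := frAlg j F E
    KCompat (Fr j F) (Fr j E) F E := by
  letI := frAlg j F E
  haveI := frkc_tower1 j F E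
  haveI := frkc_tower2 j F E
  exact
    { tower1 := frkc_tower1 j F E
      tower2 := frkc_tower2 j F E
      star_comm := fun x => (frHom_star j E x).symm
      fd := frFD j F
      deg := by rw [fr_finrank, fr_finrankE j F E] }

include F in
theorem fr_normmap (x : E) : Algebra.norm (Fr j E) x = frE j E x := by
  haveI := frFD j E
  have h1 : Algebra.norm (Fr j E) (algebraMap (Fr j E) E (frE j E x)) = (frE j E x) ^ 2 ^ j := by
    rw [Algebra.norm_algebraMap, fr_finrankE j F E]
  rw [fr_algebraMap, frHom_frE, map_pow] at h1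
  have h2 : (Algebra.norm (Fr j E) x - frE j E x) ^ 2 ^ j = 0 := by
    rw [sub_pow_char_pow, h1, sub_self]
  exact sub_eq_zero.1 (pow_eq_zero_iff (pow_ne_zero j two_ne_zero) |>.1 h2)

end

end Pool.Agent.Work.MP_dd0ddf_al.C2
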