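import Pool.Agent.Work.MP_dd0ddf_al.C2.WfRel
import Pool.Agent.Work.MP_dd0ddf_al.C2.GaussSL2

/-!
# MP_dd0ddf_al (characteristic 2), module FrMu: the character `μ` of a Weil representation on `F^×`, and constants for given `μ`

`MuSign F E μ`: `μ(c) |c|^(-1) = ±1` with sign + for norms and - for the other elements of F^×; here `|c|^(-1) = hmod (mulT F c)`.
`mu_sign`: let `m` be as in `exists_wm`.  `wf_rel` for c and for 1 (μ(1) = 1): `A μ(c) m κ(c) = 1 = A m κ(1)` with `κ(c) = kap (nform F E c) p`.  `kap_norm F E p 1 c` resp. `kap_nonnorm F E p 1 c` (module NiGauss; `1 * c` : kap_ext for `nform (1 * c)` and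
`nform c`, or `simp only [one_mul]`) : `κ(c) = ± h κ(1)`, h = hmod (mulT F c).  So `A m κ(1) (± μ(c) h) = A m κ(1)`, and `A m κ(1) ≠ 0` since it is 1.
`weil_consts`: `A := (m κ(1))⁻¹`; κ(1) ≠ 0 (`kap_ne_zero`, module GaussSL2); κ(1) is real: `kap_conj` (module GaussApi) with β = β' = nform F E 1 (q v = - q v in characteristic 2): κ(1) = star κ(1); so `A` is a nonzero real number r and `A^4 = r^4 > 0`.
`A μ(c) m κ(c) = A μ(c) m (± h κ(1)) = A m κ(1) = 1`.
-/

set_option linter.unusedSectionVars false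
set_option linter.style.haveILetI false

namespace Pool.Agent.Work.MP_dd0ddf_al.C2

noncomputable section

universe u

variable {F E : Type u} [NontriviallyNormedField F] [IsUltrametricDist F] [ProperSpace F]
  [CharP F 2] [NontriviallyNormedField E] [NormedAlgebra F E] [ProperSpace E] [StarRing E]
  [QExt F E]

/-- `μ(c) |c|^(-1) = 1` for norms `c ∈ F^×` and `-1` for the other `c ∈ F^×` -/
def MuSign (F E : Type u) [NontriviallyNormedField F] [IsUltrametricDist F] [ProperSpace F]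
    [CharP F 2] [NontriviallyNormedField E] [NormedAlgebra F E] [StarRing E]
    [TotallyDisconnectedSpace F] (μ : Eˣ →* ℂˣ) : Prop :=
  ∀ (c : F) (hc : c ≠ 0),
    (IsNorm F E c → ((μ (Units.map (algebraMap F E).toMonoidHom (Units.mk0 c hc)) : ℂˣ) : ℂ) *
      hmod (mulT F c hc) = 1) ∧
    (¬ IsNorm F E c → ((μ (Units.map (algebraMap F E).toMonoidHom (Units.mk0 c hc)) : ℂˣ) : ℂ) *
      hmod (mulT F c hc) = -1)

private theorem frmu_norm [FiniteDimensional F E] [TotallyDisconnectedSpace E]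
    [TotallyDisconnectedSpace F] (p : PChar F) (c : F) (hc : c ≠ 0) (h : IsNorm F E c) :
    kap (nform F E c hc) p =
      (hmod (mulT F c hc) : ℂ) * kap (nform F E 1 one_ne_zero) p := by
  have h1 := kap_norm F E p 1 c one_ne_zero hc h
  rw [← h1]
  refine kap_ext _ _ p fun v => ?_
  show c * nE F v = 1 * c * nE F v
  rw [one_mul]

private theorem frmu_nonnorm [FiniteDimensional F E] [TotallyDisconnectedSpace E]
    [TotallyDisconnectedSpace F] (p : PChar F) (c : F) (hc : c ≠ 0) (h : ¬ IsNorm F E c) :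
    kap (nform F E c hc) p =
      -(hmod (mulT F c hc) : ℂ) * kap (nform F E 1 one_ne_zero) p := by
  have h1 := kap_nonnorm F E p 1 c one_ne_zero hc h
  rw [← h1]
  refine kap_ext _ _ p fun v => ?_
  show c * nE F v = 1 * c * nE F v
  rw [one_mul]

theorem mu_sign [Dl E] [MeasurableSpace E] [BorelSpace E] [TotallyDisconnectedSpace F]
    {V : Type u} [AddCommGroup V] [Module E V] [Module.Finite E V] [TopologicalSpace V]
    [IsTopologicalAddGroup V] [T2Space V] [ContinuousSMul E V] {B : SkewH E V} {p : PChar F}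
    (W : WeilRep B p) (hn : 3 ≤ Module.finrank E V) : MuSign F E W.μ := by
  intro c hc
  haveI : FiniteDimensional F E := qext_findim F E
  haveI : TotallyDisconnectedSpace E := td_E F
  obtain ⟨m, hm⟩ := exists_wm E
  have h1 := wf_rel W hn m hm c hc
  have h2 := wf_rel W hn m hm 1 one_ne_zero
  have hone : (Units.mk0 (1 : F) one_ne_zero) = 1 := Units.mk0_one _
  rw [hone, map_one, map_one, Units.val_one, mul_one] at h2
  generalize ((W.μ (Units.map (algebraMap F E).toMonoidHom (Units.mk0 c hc)) : ℂˣ) : ℂ) = μc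
    at h1 ⊢
  constructor
  · intro h
    rw [frmu_norm p c hc h] at h1
    linear_combination h1 - μc * (hmod (mulT F c hc) : ℂ) * h2
  · intro h
    rw [frmu_nonnorm p c hc h] at h1
    linear_combination -h1 - μc * (hmod (mulT F c hc) : ℂ) * h2

theorem weil_consts [FiniteDimensional F E] [TotallyDisconnectedSpace E]
    [TotallyDisconnectedSpace F] (p : PChar F) (μ : Eˣ →* ℂˣ) (hμ : MuSign F E μ) (m : ℝ)
    (hm : 0 < m) : ∃ A : ℂ, A ≠ 0 ∧ (∃ c : ℝ, 0 < c ∧ A ^ 4 = c) ∧ ∀ (c : F) (hc : c ≠ 0),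
      A * ((μ (Units.map (algebraMap F E).toMonoidHom (Units.mk0 c hc)) : ℂˣ) : ℂ) * m *
        kap (nform F E c hc) p = 1 := by
  have hκ0 : kap (nform F E 1 one_ne_zero) p ≠ 0 := kap_ne_zero _ p
  have hκc : kap (nform F E 1 one_ne_zero) p = star (kap (nform F E 1 one_ne_zero) p) :=
    kap_conj (nform F E 1 one_ne_zero) (nform F E 1 one_ne_zero) p fun v =>
      (CharTwo.neg_eq _).symm
  obtain ⟨r, hr⟩ : ∃ r : ℝ, kap (nform F E 1 one_ne_zero) p = r :=
    Complex.conj_eq_iff_real.1 hκc.symm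
  have hr0 : r ≠ 0 := by
    intro h
    apply hκ0
    rw [hr, h, Complex.ofReal_zero]
  have hmr : m * r ≠ 0 := mul_ne_zero hm.ne' hr0
  have hmr' : ((m * r : ℝ) : ℂ) ≠ 0 := Complex.ofReal_ne_zero.2 hmr
  refine ⟨(((m * r)⁻¹ : ℝ) : ℂ), ?_, ⟨((m * r)⁻¹) ^ 4, ?_, ?_⟩, ?_⟩
  · exact Complex.ofReal_ne_zero.2 (inv_ne_zero hmr)
  · exact (Even.pow_pos (by decide) (inv_ne_zero hmr))
  · push_cast
    ring
  · intro c hc
    obtain ⟨h1, h2⟩ := hμ c hc
    generalize ((μ (Units.map (algebraMap F E).toMonoidHom (Units.mk0 c hc)) : ℂˣ) : ℂ) = μc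
      at h1 h2 ⊢
    have h3 : (((m * r)⁻¹ : ℝ) : ℂ) * (m * r) = 1 := by
      have h4 : ((m : ℂ) * r) = ((m * r : ℝ) : ℂ) := (Complex.ofReal_mul m r).symm
      rw [h4, ← Complex.ofReal_mul, inv_mul_cancel₀ hmr, Complex.ofReal_one]
    generalize (((m * r)⁻¹ : ℝ) : ℂ) = A at h3 ⊢
    by_cases h : IsNorm F E c
    · rw [frmu_norm p c hc h, hr]
      have h5 := h1 h
      linear_combination (A * m * r) * h5 + h3
    · rw [frmu_nonnorm p c hc h, hr]
      have h5 := h2 h
      linear_combination -(A * m * r) * h5 + h3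

end

end Pool.Agent.Work.MP_dd0ddf_al.C2
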