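import Pool.Agent.Work.MP_dd0ddf_al.C2.GDefs

/-!
# MP_dd0ddf_al (characteristic 2), module TransA: transport of a Weil representation under scaling of the form

`p.ψ x = p'.ψ (a x)`: then `p'.ψ (bt F (aB) v w) = p.ψ (bt F B v w)` (a ∈ F; the trace is F-linear), so the operators Lop, Rop for (B, p) and for (aB, p') are literally the same functions, `UU (B.scale a) = UU B` as sets
(multiply by a ≠ 0), IsRBasis does not depend on the form, `wall (aB) h x y = a * wall B h x y` (wall is defined with the same `choose`), so `wallM (aB) h b = a • wallM B h b`, `det = a^r det`, and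
`p'.ψ (Tr (star d * Σ Σ x_i star x_j a w_ij)) = p.ψ (Tr (star d * Σ Σ x_i star x_j w_ij))`.  So `W'`: l' h = W.l (h as an element of UU B), `A' = A * μ(a)⁻¹` (a as an element of Eˣ), `μ' = μ`:
`A'^r μ(a^r det) = A^r μ(det)`.  `A4`: `μ(a)` is a nonzero real number (μ_norm, μ_non), so `A'^4 = A^4 / μ(a)^4 > 0`.  smooth, L_comm, R_comm: from W.
`PGood`: `adj (aB) g = adj B g` (adj_unique), so `sg`, `GP`, `thG` agree (τ : AntiU B gives τ' : AntiU (aB) with the same function t; algebraMap a is fixed by star; ip τv τw = ip w v scaled by a).  Given `T` with `InGP W τ P T`, let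
`e : GP (aB) P ≃ₜ GP B P` be the identity on elements; `T' := T ∘ SF.comp e.symm`; show `InGP W' τ' P T'` (W'.r h = W'.l h⁻¹ ∘ geo h = W.r h), so T' = 0 and T = 0.
-/

set_option linter.unusedSectionVars false
set_option linter.style.haveILetI false

namespace Pool.Agent.Work.MP_dd0ddf_al.C2

open MeasureTheory

noncomputable section

universe u

variable {F E : Type u} [NontriviallyNormedField F] [IsUltrametricDist F] [ProperSpace F]
  [CharP F 2] [NontriviallyNormedField E] [NormedAlgebra F E] [ProperSpace E] [StarRing E]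
  [QExt F E] [Dl E] [MeasurableSpace E] [BorelSpace E]
variable {V : Type u} [AddCommGroup V] [Module E V] [Module.Finite E V] [TopologicalSpace V]
  [IsTopologicalAddGroup V] [T2Space V] [ContinuousSMul E V]

/-- the form `a ⟨v, w⟩`, `a ∈ F^×` -/
def SkewH.scale (B : SkewH E V) (a : F) (ha : a ≠ 0) : SkewH E V where
  ip v w := algebraMap F E a * B.ip v w
  add_left u v w := by rw [B.add_left, mul_add]
  smul_left c v w := by rw [B.smul_left]; ring
  skew v w := by rw [B.skew v w, star_mul', QExt.star_alg, mul_neg]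
  nondeg v h := B.nondeg v fun w => (mul_eq_zero.1 (h w)).resolve_left
    (fun h0 => ha ((map_eq_zero (algebraMap F E)).1 h0))

private theorem tra_ne (a : F) (ha : a ≠ 0) : algebraMap F E a ≠ 0 := by
  rwa [Ne, map_eq_zero]

private theorem tra_mem (B : SkewH E V) (a : F) (ha : a ≠ 0) (g : GV E V) :
    g ∈ UU (B.scale a ha) ↔ g ∈ UU B := by
  constructor
  · intro h v w
    have h1 : algebraMap F E a * B.ip (g.1 v) (g.1 w) = algebraMap F E a * B.ip v w := h v w
    exact mul_left_cancel₀ (tra_ne a ha) h1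
  · intro h v w
    have h1 : B.ip (g.1 v) (g.1 w) = B.ip v w := h v w
    show algebraMap F E a * B.ip (g.1 v) (g.1 w) = algebraMap F E a * B.ip v w
    rw [h1]

/-- the identity `U(aB) → U(B)` -/
private def traU (B : SkewH E V) (a : F) (ha : a ≠ 0) : UU (B.scale a ha) →* UU B where
  toFun h := ⟨h.1, (tra_mem B a ha h.1).1 h.2⟩
  map_one' := rfl
  map_mul' _ _ := rfl

private theorem tra_bt (B : SkewH E V) (a : F) (ha : a ≠ 0) (v w : V) :
    bt F (B.scale a ha) v w = a * bt F B v w := by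
  haveI : FiniteDimensional F E := qext_findim F E
  show Algebra.trace F E (Dl.d * (algebraMap F E a * B.ip v w)) =
    a * Algebra.trace F E (Dl.d * B.ip v w)
  have h1 : Dl.d * (algebraMap F E a * B.ip v w) = a • (Dl.d * B.ip v w) := by
    rw [Algebra.smul_def]
    ring
  rw [h1, map_smul, smul_eq_mul]

private theorem tra_lop (B : SkewH E V) {p p' : PChar F} (a : F) (ha : a ≠ 0)
    (hp : ∀ x, p.ψ x = p'.ψ (a * x)) (x : V) :
    Lop (B.scale a ha) p' x = Lop B p x := by
  apply LinearMap.ext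
  intro f
  apply SF.ext
  intro v
  show p'.ψ (bt F (B.scale a ha) x (v - x)) • f (v - x) = p.ψ (bt F B x (v - x)) • f (v - x)
  rw [tra_bt, hp]

private theorem tra_rop (B : SkewH E V) {p p' : PChar F} (a : F) (ha : a ≠ 0)
    (hp : ∀ x, p.ψ x = p'.ψ (a * x)) (x : V) :
    Rop (B.scale a ha) p' x = Rop B p x := by
  apply LinearMap.ext
  intro f
  apply SF.ext
  intro v
  show p'.ψ (bt F (B.scale a ha) (v - x) x) • f (v - x) = p.ψ (bt F B (v - x) x) • f (v - x)
  rw [tra_bt, hp]

private theorem tra_wall (B : SkewH E V) (a : F) (ha : a ≠ 0) (h : GV E V) (x y : V) :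
    wall (B.scale a ha) h x y = algebraMap F E a * wall B h x y := by
  unfold wall
  split_ifs with hx
  · rfl
  · rw [mul_zero]

private theorem tra_wallM (B : SkewH E V) (a : F) (ha : a ≠ 0) (h : GV E V) {r : ℕ}
    (b : Fin r → V) :
    (wallM (B.scale a ha) h b).det = algebraMap F E a ^ r * (wallM B h b).det := by
  have h1 : wallM (B.scale a ha) h b = algebraMap F E a • wallM B h b := by
    ext i j
    exact tra_wall B a ha h (b i) (b j)
  rw [h1, Matrix.det_smul, Fintype.card_fin]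

private theorem tra_adj (B : SkewH E V) (a : F) (ha : a ≠ 0) (g : Module.End E V) :
    adj (B.scale a ha) g = adj B g := by
  symm
  apply adj_unique
  intro v w
  show algebraMap F E a * B.ip (g v) w = algebraMap F E a * B.ip v (adj B g w)
  rw [adj_spec]

/-- the unit `a` of `E` -/
private def traA (E : Type u) [NontriviallyNormedField E] [NormedAlgebra F E] (a : F)
    (ha : a ≠ 0) : Eˣ :=
  Units.map (algebraMap F E).toMonoidHom (Units.mk0 a ha)

private theorem tra_mu {B : SkewH E V} {p : PChar F} (W : WeilRep B p) (a : F) (ha : a ≠ 0) :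
    ∃ c : ℝ, c ≠ 0 ∧ ((W.μ (traA E a ha) : ℂˣ) : ℂ) = c := by
  by_cases h : IsNorm F E a
  · obtain ⟨r, hr, h1⟩ := W.μ_norm (Units.mk0 a ha) h
    exact ⟨r, hr.ne', h1⟩
  · obtain ⟨r, hr, h1⟩ := W.μ_non (Units.mk0 a ha) h
    refine ⟨-r, neg_ne_zero.2 hr.ne', ?_⟩
    rw [Complex.ofReal_neg]
    exact h1

private theorem tra_formula {B : SkewH E V} {p p' : PChar F} (W : WeilRep B p) (a : F)
    (ha : a ≠ 0) (hp : ∀ x, p.ψ x = p'.ψ (a * x)) (h : UU (B.scale a ha)) (r : ℕ)
    (b : Fin r → V) (hb : IsRBasis h.1 b) :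
    ∃ d : Eˣ, (d : E) = (wallM (B.scale a ha) h.1 b).det ∧ ∀ (f : SF V ℂ) (v : V),
      W.l (traU B a ha h) f v = (W.A * ((W.μ (traA E a ha) : ℂˣ) : ℂ)⁻¹) ^ r *
        ((W.μ d : ℂˣ) : ℂ) *
        ∫ x : Fin r → E, p'.ψ (Algebra.trace F E (star Dl.d *
            (∑ i, ∑ j, x i * star (x j) * wall (B.scale a ha) h.1 (b i) (b j)))) *
          Lop (B.scale a ha) p' (∑ i, x i • b i) f v
            ∂(Measure.pi fun _ => (Measure.addHaar : Measure E)) := by
  haveI : FiniteDimensional F E := qext_findim F E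
  obtain ⟨d, hd, hf⟩ := W.formula (traU B a ha h) r b hb
  refine ⟨traA E a ha ^ r * d, ?_, fun f v => ?_⟩
  · rw [Units.val_mul, Units.val_pow_eq_pow_val, hd, tra_wallM]
    rfl
  · rw [hf, map_mul, map_pow, Units.val_mul, Units.val_pow_eq_pow_val, mul_pow]
    have h1 : W.A ^ r * (((W.μ (traA E a ha) : ℂˣ) : ℂ)⁻¹) ^ r *
        (((W.μ (traA E a ha) : ℂˣ) : ℂ) ^ r * ((W.μ d : ℂˣ) : ℂ)) =
        W.A ^ r * ((W.μ d : ℂˣ) : ℂ) := by
      have h2 : (((W.μ (traA E a ha) : ℂˣ) : ℂ)⁻¹) ^ r *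
          ((W.μ (traA E a ha) : ℂˣ) : ℂ) ^ r = 1 := by
        rw [← mul_pow, inv_mul_cancel₀ (Units.ne_zero _), one_pow]
      calc _ = W.A ^ r * ((((W.μ (traA E a ha) : ℂˣ) : ℂ)⁻¹) ^ r *
          ((W.μ (traA E a ha) : ℂˣ) : ℂ) ^ r) * ((W.μ d : ℂˣ) : ℂ) := by ring
        _ = _ := by rw [h2, mul_one]
    rw [h1]
    congr 1
    apply integral_congr_ae
    refine Filter.Eventually.of_forall fun x => ?_
    show p.ψ (Algebra.trace F E (star Dl.d *
        (∑ i, ∑ j, x i * star (x j) * wall B h.1 (b i) (b j)))) *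
        Lop B p (∑ i, x i • b i) f v = p'.ψ (Algebra.trace F E (star Dl.d *
        (∑ i, ∑ j, x i * star (x j) * wall (B.scale a ha) h.1 (b i) (b j)))) *
        Lop (B.scale a ha) p' (∑ i, x i • b i) f v
    rw [tra_lop B a ha hp, hp]
    congr 2
    rw [← smul_eq_mul, ← map_smul]
    congr 1
    rw [Algebra.smul_def, ← mul_assoc, mul_comm (algebraMap F E a), mul_assoc]
    congr 1
    rw [Finset.mul_sum]
    refine Finset.sum_congr rfl fun i _ => ?_
    rw [Finset.mul_sum]
    refine Finset.sum_congr rfl fun j _ => ?_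
    rw [tra_wall]
    ring

/-- the transported Weil representation -/
private def traW {B : SkewH E V} {p p' : PChar F} (W : WeilRep B p) (a : F) (ha : a ≠ 0)
    (hp : ∀ x, p.ψ x = p'.ψ (a * x)) : WeilRep (B.scale a ha) p' where
  l := W.l.comp (traU B a ha)
  A := W.A * ((W.μ (traA E a ha) : ℂˣ) : ℂ)⁻¹
  A0 := mul_ne_zero W.A0 (inv_ne_zero (Units.ne_zero _))
  A4 := by
    obtain ⟨c, hc, h1⟩ := W.A4
    obtain ⟨r, hr, h2⟩ := tra_mu W a ha
    refine ⟨c * (r⁻¹) ^ 4, mul_pos hc (by positivity), ?_⟩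
    rw [mul_pow, h1, h2]
    push_cast
    rfl
  μ := W.μ
  μ_norm := W.μ_norm
  μ_non := W.μ_non
  μ_lc := W.μ_lc
  smooth f := by
    obtain ⟨U, hU, h1, h⟩ := W.smooth f
    exact ⟨U, hU, h1, fun k hk => h (traU B a ha k) hk⟩
  L_comm h x := by
    rw [tra_lop B a ha hp, tra_lop B a ha hp]
    exact W.L_comm (traU B a ha h) x
  R_comm h x := by
    rw [tra_rop B a ha hp]
    exact W.R_comm (traU B a ha h) x
  formula := tra_formula W a ha hp

private theorem tra_GP (B : SkewH E V) (a : F) (ha : a ≠ 0) (P : Polynomial F) (g : GV E V) :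
    g ∈ GP (B.scale a ha) P ↔ g ∈ GP B P := by
  show LinearMap.charpoly (g.1 * adj (B.scale a ha) g.1) = _ ↔
    LinearMap.charpoly (g.1 * adj B g.1) = _
  rw [tra_adj]

/-- the identity `G_P(aB) → G_P(B)` -/
private def traE (B : SkewH E V) (a : F) (ha : a ≠ 0) (P : Polynomial F) :
    GP B P ≃ₜ GP (B.scale a ha) P where
  toFun g := ⟨g.1, (tra_GP B a ha P g.1).2 g.2⟩
  invFun g := ⟨g.1, (tra_GP B a ha P g.1).1 g.2⟩
  left_inv _ := rfl
  right_inv _ := rfl
  continuous_toFun := continuous_subtype_val.subtype_mk _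
  continuous_invFun := continuous_subtype_val.subtype_mk _

private def traT {B : SkewH E V} (a : F) (ha : a ≠ 0) (τ : AntiU B) : AntiU (B.scale a ha) where
  t := τ.t
  add := τ.add
  smul := τ.smul
  ip v w := by
    show algebraMap F E a * B.ip (τ.t v) (τ.t w) = algebraMap F E a * B.ip w v
    rw [τ.ip]
  inv := τ.inv

theorem transA {B : SkewH E V} {p p' : PChar F} (W : WeilRep B p) (a : F) (ha : a ≠ 0)
    (hp : ∀ x, p.ψ x = p'.ψ (a * x)) :
    ∃ W' : WeilRep (B.scale a ha) p', W'.μ = W.μ ∧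
      ∀ P : Polynomial F, PGood W' P → PGood W P := by
  refine ⟨traW W a ha hp, rfl, fun P hP τ T hT => ?_⟩
  have h0 := hP (traT a ha τ) (T ∘ₗ SF.comp (traE B a ha P)) ⟨fun γ f => ?_, fun f => ?_⟩
  · apply LinearMap.ext
    intro f
    have h1 := congrArg (fun S : SF (GP (B.scale a ha) P) (SF V ℂ) →ₗ[ℂ] ℂ =>
      S (SF.comp (traE B a ha P).symm f)) h0
    exact h1
  · exact hT.inv (traU B a ha γ.1, traU B a ha γ.2) (SF.comp (traE B a ha P) f)
  · have h1 : SF.comp (traE B a ha P) (SF.opr (gpTh (traT a ha τ) P) (tneg F (traT a ha τ)) f) =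
        SF.opr (gpTh τ P) (tneg F τ) (SF.comp (traE B a ha P) f) := by
      apply SF.ext
      intro g
      have h2 : traE B a ha P (gpTh τ P g) = gpTh (traT a ha τ) P (traE B a ha P g) := by
        apply Subtype.ext
        apply Units.ext
        ext v
        show τ.t (adj B g.1.1 (τ.t v)) = τ.t (adj (B.scale a ha) g.1.1 (τ.t v))
        rw [tra_adj]
      show tneg F (traT a ha τ) (f (gpTh (traT a ha τ) P (traE B a ha P g))) =
        tneg F τ (f (traE B a ha P (gpTh τ P g)))
      rw [h2]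
      rfl
    show T (SF.comp (traE B a ha P) (SF.opr (gpTh (traT a ha τ) P) (tneg F (traT a ha τ)) f)) =
      - T (SF.comp (traE B a ha P) f)
    rw [h1]
    exact hT.anti _

end

end Pool.Agent.Work.MP_dd0ddf_al.C2
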