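import Pool.Agent.Work.MP_dd0ddf_al.C2.GDefs
import Pool.Agent.Work.MP_dd0ddf_al.C2.NiTr
import Pool.Agent.Work.MP_dd0ddf_al.C2.WfWall

/-!
# MP_dd0ddf_al (characteristic 2), module TransD: transport of a Weil representation under a change of d

Two elements `d, d'` of E with `d + star d = 1 = d' + star d'`: `t := d' - d` is fixed by star (char 2), so `t ∈ F` (fixed_of_star).  For `v ∈ V` the element `⟨v,v⟩` is fixed by star (skew, char 2): let `q v ∈ F` with `algebraMap (q v) = ⟨v,v⟩`;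
`q (v + w) = q v + q w + om F B v w` (alg_trace), `q (h v) = q v` for `h ∈ UU B`, `q (τ v) = q v`, `q (-v) = q v`; q is continuous.
`U : SF V ℂ → SF V ℂ`, `U f v = p.ψ (t * q v) * f v` (SF.mulc; locally constant), invertible with inverse given by `-t` (= t: U is an involution up to sign, p.ψ (2 x) = 1; char 2: t + t = 0, so U U = id).
`W'.l h := U ∘ W.l h ∘ U`, A and μ unchanged.  `U (L_x f) = ψ (t q x) L'_x (U f)`: `bt' (x, v-x) = bt(x, v-x) + t om(x, v-x)` and `q v = q x + q (v-x) + om (x, v-x)`; similarly `U R_x U = ψ (t q x) R'_x` (om symmetric in char 2).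
So `W'.l h L'_x = L'_{hx} W'.l h` (q (hx) = q x), `W'.l h R'_x = R'_x W'.l h`.
formula: `U (A^r μ ∫ ψ(Tr(star d S(x))) L_{x.b} (U f)) = A^r μ ∫ ψ(Tr (star d S(x)) + t q(x.b)) L'_{x.b} f`, where `S(x) = Σ Σ x_i star x_j w_ij = W_h(x.b, x.b)` (wfmdefs_wall) and `Tr S = S + star S = ⟨x.b, x.b⟩ = q (x.b)` by wall_conj
(W_h(x,y) + star W_h(y,x) = ± ⟨x,y⟩); `star d' = star d + t` (t ∈ F), so the exponent is `Tr (star d' S)`.  smooth: U f is fixed by an open subgroup.
PGood: U commutes with `geo h` (q (h v) = q v) for h ∈ UU B and with `tneg τ`; so `W'.r h = U W.r h U`; for `T` with `InGP W τ P T` put `T' f := T (SF.map U f)`; then `InGP W' τ P T'` and T' = 0 implies T = 0 (U U = id).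
-/

set_option linter.unusedSectionVars false
set_option linter.style.haveILetI false

namespace Pool.Agent.Work.MP_dd0ddf_al.C2

open MeasureTheory

noncomputable section

universe u

variable {F E : Type u} [NontriviallyNormedField F] [IsUltrametricDist F] [ProperSpace F]
  [CharP F 2] [NontriviallyNormedField E] [NormedAlgebra F E] [ProperSpace E] [StarRing E]
  [QExt F E] [MeasurableSpace E] [BorelSpace E]
variable {V : Type u} [AddCommGroup V] [Module E V] [Module.Finite E V] [TopologicalSpace V]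
  [IsTopologicalAddGroup V] [T2Space V] [ContinuousSMul E V]

omit [MeasurableSpace E] [BorelSpace E] in
private theorem trd_psi0 (p : PChar F) : p.ψ 0 = 1 := by
  have h1 := p.add 0 0
  rw [add_zero] at h1
  have h2 : p.ψ 0 ≠ 0 := by
    intro h
    have h3 := p.norm_one 0
    rw [h, norm_zero] at h3
    exact zero_ne_one h3
  exact (mul_left_cancel₀ h2 (h1.symm.trans (mul_one _).symm))

omit [MeasurableSpace E] [BorelSpace E] in
private theorem trd_psi2 (p : PChar F) (x : F) : p.ψ x * p.ψ x = 1 := by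
  rw [← p.add, CharTwo.add_self_eq_zero, trd_psi0]

variable (F) in
include F in
omit [MeasurableSpace E] [BorelSpace E] in
private theorem trd_ipc (B : SkewH E V) : Continuous fun v => B.ip v v := by
  classical
  let b := Module.finBasis E V
  have h : (fun v => B.ip v v) = fun v => ∑ j, b.repr v j * B.ip (b j) v := by
    funext v
    have h3 : ∀ u, B.lin u v = ∑ j, b.repr v j • B.lin u (b j) := by
      intro u
      conv_lhs => rw [← b.sum_repr v]
      rw [map_sum]
      simp only [map_smul]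
    exact h3 v
  rw [h]
  refine continuous_finsetSum _ fun j _ => ?_
  have h2 : Continuous (fun v : V => b.repr v j) := by
    have : (fun v : V => b.repr v j) = fun v => (b.coord j) v := rfl
    rw [this]
    exact (b.coord j).continuous_of_finiteDimensional
  exact h2.mul (continuous_ip_right F B (b j))

variable (F) in
omit [MeasurableSpace E] [BorelSpace E] in
private theorem trd_q (B : SkewH E V) : ∃ q : V → F, Continuous q ∧
    ∀ v, algebraMap F E (q v) = B.ip v v := by
  haveI : CharP E 2 := char2_of_injective (algebraMap F E).injective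
  have h1 : ∀ v, ∃ f : F, B.ip v v = algebraMap F E f := fun v => fixed_of_star F E _ (by
    have h2 := B.skew v v
    rw [CharTwo.neg_eq] at h2
    exact h2.symm)
  choose q hq using h1
  refine ⟨q, ?_, fun v => (hq v).symm⟩
  rw [← (algebraMap_isometry F E).comp_continuous_iff]
  have h2 : (algebraMap F E) ∘ q = fun v => B.ip v v := funext fun v => (hq v).symm
  rw [h2]
  exact trd_ipc F B

/-- the operator `L_x` for the element `d` -/
private def LD (d : E) (B : SkewH E V) (p : PChar F) (x : V) : SF V ℂ →ₗ[ℂ] SF V ℂ :=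
  (SF.mulc (fun v => p.ψ (Algebra.trace F E (d * B.ip x (v - x))))
    (p.lc.comp_continuous ((continuous_trace F E).comp (continuous_const.mul
      ((continuous_ip_right F B x).comp (continuous_id.sub continuous_const)))))).comp
    (SF.comp (Homeomorph.subRight x))

/-- the operator `R_x` for the element `d` -/
private def RD (d : E) (B : SkewH E V) (p : PChar F) (x : V) : SF V ℂ →ₗ[ℂ] SF V ℂ :=
  (SF.mulc (fun v => p.ψ (Algebra.trace F E (d * B.ip (v - x) x)))
    (p.lc.comp_continuous ((continuous_trace F E).comp (continuous_const.mul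
      ((continuous_ip_left B x).comp (continuous_id.sub continuous_const)))))).comp
    (SF.comp (Homeomorph.subRight x))

/-- the part of the structure `WeilRep` which depends on `d` -/
private structure RawW (d : E) (B : SkewH E V) (p : PChar F)
    (l : UU B →* Module.End ℂ (SF V ℂ)) (A : ℂ) (μ : Eˣ →* ℂˣ) : Prop where
  smooth : ∀ f : SF V ℂ, ∃ U : Set (Module.End E V), IsOpen U ∧ (1 : Module.End E V) ∈ U ∧
    ∀ h : UU B, h.1.1 ∈ U → l h f = f
  L_comm : ∀ (h : UU B) (x : V), l h ∘ₗ LD d B p x = LD d B p (h.1.1 x) ∘ₗ l h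
  R_comm : ∀ (h : UU B) (x : V), l h ∘ₗ RD d B p x = RD d B p x ∘ₗ l h
  formula : ∀ (h : UU B) (r : ℕ) (b : Fin r → V), IsRBasis h.1 b →
    ∃ e : Eˣ, (e : E) = (wallM B h.1 b).det ∧ ∀ (f : SF V ℂ) (v : V),
      l h f v = A ^ r * ((μ e : ℂˣ) : ℂ) *
        ∫ x : Fin r → E, p.ψ (Algebra.trace F E (star d *
            (∑ i, ∑ j, x i * star (x j) * wall B h.1 (b i) (b j)))) *
          LD d B p (∑ i, x i • b i) f v ∂(Measure.pi fun _ => (Measure.addHaar : Measure E))

/-- conjugation by an involution -/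
private def lU {G : Type*} [Group G] {S : Type*} [AddCommGroup S] [Module ℂ S] (U : S →ₗ[ℂ] S)
    (hU : ∀ f, U (U f) = f) (l : G →* Module.End ℂ S) : G →* Module.End ℂ S where
  toFun h := U ∘ₗ l h ∘ₗ U
  map_one' := by
    apply LinearMap.ext
    intro f
    show U (l 1 (U f)) = f
    rw [map_one]
    exact hU f
  map_mul' g h := by
    apply LinearMap.ext
    intro f
    show U (l (g * h) (U f)) = U (l g (U (U (l h (U f)))))
    rw [hU, map_mul]
    rfl

section

variable {B : SkewH E V} (p : PChar F) {q : V → F} (hqc : Continuous q)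
  (hq : ∀ v, algebraMap F E (q v) = B.ip v v) (t : F)

include hq in
omit [IsUltrametricDist F] [MeasurableSpace E] [BorelSpace E] in
private theorem trd_add (v w : V) :
    q (v + w) = q v + q w + Algebra.trace F E (B.ip v w) := by
  haveI : CharP E 2 := char2_of_injective (algebraMap F E).injective
  apply (algebraMap F E).injective
  rw [map_add, map_add, hq, hq, hq, alg_trace, B.add_left, B.add_right, B.add_right,
    B.skew v w, CharTwo.neg_eq]
  ring

/-- multiplication by `ψ(t q(v))` -/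
private def UQ : SF V ℂ →ₗ[ℂ] SF V ℂ :=
  SF.mulc (fun v => p.ψ (t * q v)) (p.lc.comp_continuous (continuous_const.mul hqc))

private theorem trd_UU (f : SF V ℂ) : UQ p hqc t (UQ p hqc t f) = f := by
  apply SF.ext
  intro v
  show p.ψ (t * q v) • (p.ψ (t * q v) • f v) = f v
  rw [smul_smul, trd_psi2, one_smul]

include hq in
private theorem trd_UL {d d' : E} (ht : d' = d + algebraMap F E t) (x : V) (f : SF V ℂ) :
    UQ p hqc t (LD d B p x f) = p.ψ (t * q x) • LD d' B p x (UQ p hqc t f) := by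
  haveI : FiniteDimensional F E := qext_findim F E
  apply SF.ext
  intro v
  show p.ψ (t * q v) • (p.ψ (Algebra.trace F E (d * B.ip x (v - x))) • f (v - x)) =
    p.ψ (t * q x) • (p.ψ (Algebra.trace F E (d' * B.ip x (v - x))) •
      (p.ψ (t * q (v - x)) • f (v - x)))
  rw [smul_smul, smul_smul, smul_smul]
  congr 1
  rw [← p.add, ← p.add, ← p.add]
  congr 1
  have h1 : q v = q x + q (v - x) + Algebra.trace F E (B.ip x (v - x)) := by
    rw [← trd_add hq, add_sub_cancel]
  have h2 : d' * B.ip x (v - x) = d * B.ip x (v - x) + t • B.ip x (v - x) := by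
    rw [ht, add_mul, Algebra.smul_def]
  rw [h2, map_add, map_smul, smul_eq_mul, h1]
  ring

include hq in
private theorem trd_UR {d d' : E} (ht : d' = d + algebraMap F E t) (x : V) (f : SF V ℂ) :
    UQ p hqc t (RD d B p x f) = p.ψ (t * q x) • RD d' B p x (UQ p hqc t f) := by
  haveI : FiniteDimensional F E := qext_findim F E
  apply SF.ext
  intro v
  show p.ψ (t * q v) • (p.ψ (Algebra.trace F E (d * B.ip (v - x) x)) • f (v - x)) =
    p.ψ (t * q x) • (p.ψ (Algebra.trace F E (d' * B.ip (v - x) x)) •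
      (p.ψ (t * q (v - x)) • f (v - x)))
  rw [smul_smul, smul_smul, smul_smul]
  congr 1
  rw [← p.add, ← p.add, ← p.add]
  congr 1
  have h1 : q v = q (v - x) + q x + Algebra.trace F E (B.ip (v - x) x) := by
    rw [← trd_add hq, sub_add_cancel]
  have h2 : d' * B.ip (v - x) x = d * B.ip (v - x) x + t • B.ip (v - x) x := by
    rw [ht, add_mul, Algebra.smul_def]
  rw [h2, map_add, map_smul, smul_eq_mul, h1]
  ring

include hq in
omit [IsUltrametricDist F] [MeasurableSpace E] [BorelSpace E] in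
private theorem trd_qh (h : UU B) (v : V) : q (h.1.1 v) = q v := by
  apply (algebraMap F E).injective
  rw [hq, hq]
  exact h.2 v v

include hq in
private theorem trd_geo (h : UU B) (f : SF V ℂ) :
    UQ p hqc t (geo h.1 f) = geo h.1 (UQ p hqc t f) := by
  apply SF.ext
  intro v
  show p.ψ (t * q v) • f (h.1⁻¹.1 v) = p.ψ (t * q (h.1⁻¹.1 v)) • f (h.1⁻¹.1 v)
  have h1 : q (h.1⁻¹.1 v) = q v := trd_qh hq h⁻¹ v
  rw [h1]

include hq in
private theorem trd_neg (τ : AntiU B) (f : SF V ℂ) :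
    UQ p hqc t (tneg F τ f) = tneg F τ (UQ p hqc t f) := by
  apply SF.ext
  intro v
  show p.ψ (t * q v) • f (- τ.t v) = p.ψ (t * q (- τ.t v)) • f (- τ.t v)
  have h1 : q (- τ.t v) = q v := by
    apply (algebraMap F E).injective
    rw [hq, hq]
    have h2 : - τ.t v = (-1 : E) • τ.t v := by rw [neg_smul, one_smul]
    rw [h2, B.smul_left, B.smul_right, τ.ip, star_neg, star_one]
    ring
  rw [h1]

include hq in
private theorem trd_raw {d d' : E} (hdd : d' = d + algebraMap F E t)
    {l : UU B →* Module.End ℂ (SF V ℂ)} {A : ℂ} {μ : Eˣ →* ℂˣ} (hW : RawW d B p l A μ) :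
    RawW d' B p (lU (UQ p hqc t) (trd_UU p hqc t) l) A μ := by
  haveI : FiniteDimensional F E := qext_findim F E
  haveI : CharP E 2 := char2_of_injective (algebraMap F E).injective
  have hdd' : d = d' + algebraMap F E t := by
    rw [hdd, add_assoc, CharTwo.add_self_eq_zero, add_zero]
  refine ⟨fun f => ?_, fun h x => ?_, fun h x => ?_, fun h r b hb => ?_⟩
  · obtain ⟨O, hO, h1, h2⟩ := hW.smooth (UQ p hqc t f)
    refine ⟨O, hO, h1, fun h hh => ?_⟩
    show UQ p hqc t (l h (UQ p hqc t f)) = f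
    rw [h2 h hh, trd_UU]
  · apply LinearMap.ext
    intro f
    show UQ p hqc t (l h (UQ p hqc t (LD d' B p x f))) =
      LD d' B p (h.1.1 x) (UQ p hqc t (l h (UQ p hqc t f)))
    have h1 : l h (LD d B p x (UQ p hqc t f)) = LD d B p (h.1.1 x) (l h (UQ p hqc t f)) :=
      congrArg (fun T : SF V ℂ →ₗ[ℂ] SF V ℂ => T (UQ p hqc t f)) (hW.L_comm h x)
    rw [trd_UL p hqc hq t hdd', map_smul, map_smul, h1, trd_UL p hqc hq t hdd, trd_qh hq,
      smul_smul, trd_psi2, one_smul]
  · apply LinearMap.ext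
    intro f
    show UQ p hqc t (l h (UQ p hqc t (RD d' B p x f))) =
      RD d' B p x (UQ p hqc t (l h (UQ p hqc t f)))
    have h1 : l h (RD d B p x (UQ p hqc t f)) = RD d B p x (l h (UQ p hqc t f)) :=
      congrArg (fun T : SF V ℂ →ₗ[ℂ] SF V ℂ => T (UQ p hqc t f)) (hW.R_comm h x)
    rw [trd_UR p hqc hq t hdd', map_smul, map_smul, h1, trd_UR p hqc hq t hdd,
      smul_smul, trd_psi2, one_smul]
  · obtain ⟨e, he, h1⟩ := hW.formula h r b hb
    refine ⟨e, he, fun f v => ?_⟩
    show p.ψ (t * q v) • (l h (UQ p hqc t f) v) = _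
    rw [h1, smul_eq_mul, mul_left_comm, ← integral_const_mul]
    congr 1
    apply integral_congr_ae
    refine Filter.Eventually.of_forall fun x => ?_
    show p.ψ (t * q v) * (p.ψ (Algebra.trace F E (star d *
      (∑ i, ∑ j, x i * star (x j) * wall B h.1 (b i) (b j)))) *
        LD d B p (∑ i, x i • b i) (UQ p hqc t f) v) = p.ψ (Algebra.trace F E (star d' *
      (∑ i, ∑ j, x i * star (x j) * wall B h.1 (b i) (b j)))) *
        LD d' B p (∑ i, x i • b i) f v
    have h2 : p.ψ (t * q v) * LD d B p (∑ i, x i • b i) (UQ p hqc t f) v =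
        p.ψ (t * q (∑ i, x i • b i)) * LD d' B p (∑ i, x i • b i) f v := by
      have h3 := congrArg (fun g : SF V ℂ => g v)
        (trd_UL p hqc hq t hdd (∑ i, x i • b i) (UQ p hqc t f))
      rw [trd_UU] at h3
      exact h3
    have h4 : Algebra.trace F E (∑ i, ∑ j, x i * star (x j) * wall B h.1 (b i) (b j)) =
        q (∑ i, x i • b i) := by
      have hmem : ∑ i, x i • b i ∈ LinearMap.range (h.1.1 - 1) := by
        rw [← hb.2]
        exact Submodule.sum_mem _ fun i _ => Submodule.smul_mem _ _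
          (Submodule.subset_span ⟨i, rfl⟩)
      have h5 := wfmdefs_wall h b hb x x
      have h6 := wall_conj h hmem hmem
      have h7 : wfmdefsSes (wallM B h.1 b) x x =
          ∑ i, ∑ j, x i * star (x j) * wall B h.1 (b i) (b j) := by
        unfold wfmdefsSes
        refine Finset.sum_congr rfl fun i _ => Finset.sum_congr rfl fun j _ => ?_
        show _ = x i * star (x j) * wallM B h.1 b i j
        ring
      apply (algebraMap F E).injective
      rw [alg_trace, hq, ← h6, h5, h7, CharTwo.sub_eq_add, add_comm]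
    have h8 : Algebra.trace F E (star d' *
        (∑ i, ∑ j, x i * star (x j) * wall B h.1 (b i) (b j))) =
        Algebra.trace F E (star d * (∑ i, ∑ j, x i * star (x j) * wall B h.1 (b i) (b j))) +
          t * q (∑ i, x i • b i) := by
      rw [hdd, star_add, QExt.star_alg, add_mul, map_add, ← Algebra.smul_def, map_smul, h4,
        smul_eq_mul]
    rw [h8, p.add, mul_left_comm, h2]
    ring

end

private theorem trd_of [Dl E] {B : SkewH E V} {p : PChar F} (W : WeilRep B p) :
    RawW Dl.d B p W.l W.A W.μ :=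
  ⟨W.smooth, W.L_comm, W.R_comm, W.formula⟩

private def trdMk [Dl E] {B : SkewH E V} {p : PChar F} (l : UU B →* Module.End ℂ (SF V ℂ))
    (A : ℂ) (A0 : A ≠ 0) (A4 : ∃ c : ℝ, 0 < c ∧ A ^ 4 = c) (μ : Eˣ →* ℂˣ)
    (μ_norm : ∀ c : Fˣ, IsNorm F E (c : F) → ∃ r : ℝ, 0 < r ∧
      ((μ (Units.map (algebraMap F E).toMonoidHom c) : ℂˣ) : ℂ) = r)
    (μ_non : ∀ c : Fˣ, ¬ IsNorm F E (c : F) → ∃ r : ℝ, 0 < r ∧
      ((μ (Units.map (algebraMap F E).toMonoidHom c) : ℂˣ) : ℂ) = -r)
    (μ_lc : IsLocallyConstant (fun x : Eˣ => ((μ x : ℂˣ) : ℂ)))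
    (hR : RawW Dl.d B p l A μ) : WeilRep B p where
  l := l
  A := A
  A0 := A0
  A4 := A4
  μ := μ
  μ_norm := μ_norm
  μ_non := μ_non
  μ_lc := μ_lc
  smooth := hR.smooth
  L_comm := hR.L_comm
  R_comm := hR.R_comm
  formula := hR.formula

theorem transD (δ δ' : Dl E) {B : SkewH E V} {p : PChar F}
    (W : @WeilRep F E _ _ _ _ _ _ _ _ _ δ _ _ V _ _ _ _ _ _ _ B p) :
    ∃ W' : @WeilRep F E _ _ _ _ _ _ _ _ _ δ' _ _ V _ _ _ _ _ _ _ B p,
      @WeilRep.μ F E _ _ _ _ _ _ _ _ _ δ' _ _ V _ _ _ _ _ _ _ B p W' =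
        @WeilRep.μ F E _ _ _ _ _ _ _ _ _ δ _ _ V _ _ _ _ _ _ _ B p W ∧
      ∀ P : Polynomial F,
        @PGood F E _ _ _ _ _ _ _ _ _ δ' _ _ V _ _ _ _ _ _ _ B p W' P →
        @PGood F E _ _ _ _ _ _ _ _ _ δ _ _ V _ _ _ _ _ _ _ B p W P := by
  have hE : ∃ t : F, δ'.d - δ.d = algebraMap F E t := by
    haveI : CharP E 2 := char2_of_injective (algebraMap F E).injective
    refine fixed_of_star F E _ ?_
    have h1 : star δ.d = 1 - δ.d := by rw [← δ.add_star]; ring
    have h2 : star δ'.d = 1 - δ'.d := by rw [← δ'.add_star]; ring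
    rw [star_sub, h1, h2]
    have h3 : 1 - δ'.d - (1 - δ.d) = -(δ'.d - δ.d) := by ring
    rw [h3, CharTwo.neg_eq]
  obtain ⟨t, ht⟩ := hE
  obtain ⟨q, hqc, hq⟩ := trd_q F B
  have hR := trd_raw p hqc hq t (d := δ.d) (d' := δ'.d) (by rw [← ht]; ring)
    (@trd_of F E _ _ _ _ _ _ _ _ _ _ _ V _ _ _ _ _ _ _ δ B p W)
  refine ⟨@trdMk F E _ _ _ _ _ _ _ _ _ _ _ V _ _ _ _ _ _ _ δ' B p _ _
    (@WeilRep.A0 F E _ _ _ _ _ _ _ _ _ δ _ _ V _ _ _ _ _ _ _ B p W)
    (@WeilRep.A4 F E _ _ _ _ _ _ _ _ _ δ _ _ V _ _ _ _ _ _ _ B p W)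
    (@WeilRep.μ F E _ _ _ _ _ _ _ _ _ δ _ _ V _ _ _ _ _ _ _ B p W)
    (@WeilRep.μ_norm F E _ _ _ _ _ _ _ _ _ δ _ _ V _ _ _ _ _ _ _ B p W)
    (@WeilRep.μ_non F E _ _ _ _ _ _ _ _ _ δ _ _ V _ _ _ _ _ _ _ B p W)
    (@WeilRep.μ_lc F E _ _ _ _ _ _ _ _ _ δ _ _ V _ _ _ _ _ _ _ B p W) hR, rfl,
    fun P hP τ T hT => ?_⟩
  obtain ⟨hinv, hanti⟩ := hT
  have h0 := hP τ (T ∘ₗ SF.map (UQ p hqc t)) ⟨fun γ f => ?_, fun f => ?_⟩
  · apply LinearMap.ext
    intro f
    have h1 := congrArg (fun S : SF (GP B P) (SF V ℂ) →ₗ[ℂ] ℂ =>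
      S (SF.map (UQ p hqc t) f)) h0
    have h2 : SF.map (UQ p hqc t) (SF.map (UQ p hqc t) f) = f := by
      apply SF.ext
      intro g
      exact trd_UU p hqc t (f g)
    have h3 : T (SF.map (UQ p hqc t) (SF.map (UQ p hqc t) f)) = 0 := h1
    rw [h2] at h3
    exact h3
  · refine (congrArg T ?_).trans (hinv γ (SF.map (UQ p hqc t) f))
    apply SF.ext
    intro g
    have key : ∀ (l : UU B →* Module.End ℂ (SF V ℂ)) (f' : SF V ℂ),
        UQ p hqc t (UQ p hqc t (l γ.1 (UQ p hqc t (UQ p hqc t (l γ.2⁻¹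
          (UQ p hqc t (geo γ.2.1 f'))))))) = l γ.1 (l γ.2⁻¹ (geo γ.2.1 (UQ p hqc t f'))) := by
      intro l f'
      rw [trd_UU, trd_UU, trd_geo p hqc hq t]
    exact key _ _
  · refine (congrArg T ?_).trans (hanti (SF.map (UQ p hqc t) f))
    apply SF.ext
    intro g
    exact trd_neg p hqc hq t τ _

end

end Pool.Agent.Work.MP_dd0ddf_al.C2
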