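import Pool.Agent.Work.MP_dd0ddf_al.C2.GDefs
import Pool.Agent.Work.MP_dd0ddf_al.C2.KWeil
import Pool.Agent.Work.MP_dd0ddf_al.C2.Ew
import Pool.Agent.Work.MP_dd0ddf_al.C2.FrKC
import Pool.Agent.Work.MP_dd0ddf_al.C2.FrMu
import Pool.Agent.Work.MP_dd0ddf_al.C2.Dual
import Pool.Agent.Work.MP_dd0ddf_al.C2.TransA
import Pool.Agent.Work.MP_dd0ddf_al.C2.TransD

/-!
# MP_dd0ddf_al (characteristic 2), module FrWeil: the Weil representation over `F^(2^j)` whose restriction is (a transport of) the given one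

Proved from Dual, TransA, TransD, WfRel, Ew, FrDim, FrKC, FrMu.
-/

set_option linter.unusedSectionVars false
set_option linter.style.haveILetI false

namespace Pool.Agent.Work.MP_dd0ddf_al.C2

noncomputable section

universe u

/-! ## the form over `E^(2^j)` -/

section form

variable (j : ℕ) (F E : Type u) [NontriviallyNormedField F] [IsUltrametricDist F] [ProperSpace F]
  [CharP F 2] [NontriviallyNormedField E] [CharP E 2] [NormedAlgebra F E] [ProperSpace E]
  [StarRing E] [QExt F E]
variable {V : Type u} [AddCommGroup V] [Module E V]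

theorem frB_exists (B : SkewH E V) :
    letI := frAlg j F E
    letI := fr_kcompat j F E
    letI := frMod j E V
    ∃ B0 : SkewH (Fr j E) V, ∀ v w, tl (Fr j F) (Fr j E) F E (B.ip v w) = B0.ip v w := by
  letI := frAlg j F E
  letI := fr_kcompat j F E
  letI := frMod j E V
  refine ⟨{ ip := fun v w => tl (Fr j F) (Fr j E) F E (B.ip v w)
            add_left := ?_, smul_left := ?_, skew := ?_, nondeg := ?_ }, fun v w => rfl⟩
  · intro u v w
    rw [B.add_left, map_add]
  · intro a v w
    have h1 : B.ip (a • v) w = a • B.ip v w := by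
      show B.ip (frHom j E a • v) w = frHom j E a * B.ip v w
      rw [B.smul_left]
    rw [h1, map_smul, smul_eq_mul]
  · intro v w
    rw [B.skew v w, map_neg, kc_trace_star]
  · intro v hv
    apply B.nondeg
    intro w
    apply tl_nondeg (Fr j F) (Fr j E) F E
    intro z
    have h1 : z * B.ip v w = B.ip v (star z • w) := by
      rw [B.smul_right, star_star]
    rw [h1]
    exact hv (star z • w)

end form

/-! ## comparison of two Weil representations -/

section comp

variable {F E : Type u} [NontriviallyNormedField F] [IsUltrametricDist F] [ProperSpace F]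
  [CharP F 2] [NontriviallyNormedField E] [NormedAlgebra F E] [ProperSpace E] [StarRing E]
  [QExt F E] [MeasurableSpace E] [BorelSpace E]
variable {V : Type u} [AddCommGroup V] [Module E V] [Module.Finite E V] [TopologicalSpace V]
  [IsTopologicalAddGroup V] [T2Space V] [ContinuousSMul E V]
variable {F0 E0 : Type u} [NontriviallyNormedField F0] [IsUltrametricDist F0]
  [ProperSpace F0] [CharP F0 2] [NontriviallyNormedField E0] [NormedAlgebra F0 E0]
  [ProperSpace E0] [StarRing E0] [QExt F0 E0] [Dl E0] [MeasurableSpace E0] [BorelSpace E0]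
  [NormedAlgebra F0 F] [NormedAlgebra E0 E] [Algebra F0 E] [KCompat F0 E0 F E]
  [Module E0 V] [IsScalarTower E0 E V] [Module.Finite E0 V] [ContinuousSMul E0 V]
  [FiniteDimensional F0 F]

theorem frweil_l {B' : SkewH E V} {B0 : SkewH E0 V} {p0 : PChar F0} (W0 : WeilRep B0 p0)
    (hB : ∀ v w, tl F0 E0 F E (B'.ip v w) = B0.ip v w)
    (W2 : @WeilRep F E _ _ _ _ _ _ _ _ _ (dlL F0 E0 F E) _ _ V _ _ _ _ _ _ _ B' (p0.ext F))
    (hμ : ∀ x : Eˣ, @WeilRep.μ F E _ _ _ _ _ _ _ _ _ (dlL F0 E0 F E) _ _ V _ _ _ _ _ _ _ B'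
      (p0.ext F) W2 x = W0.μ (Units.map (Algebra.norm E0 : E →* E0) x))
    (hn : 3 ≤ Module.finrank E V) (h : UU B') :
    @WeilRep.l F E _ _ _ _ _ _ _ _ _ (dlL F0 E0 F E) _ _ V _ _ _ _ _ _ _ B' (p0.ext F) W2 h =
      W0.l (resU hB h) := by
  letI : Dl E := dlL F0 E0 F E
  haveI : DComm E0 E := dcomm_dlL F0 E0 F E
  obtain ⟨A1, h1⟩ := weil_K_const F E p0 W0.A W0.μ
  obtain ⟨WL, -, hWLμ, hWLl, -⟩ := h1 V B0 W0 B' hB rfl rfl
  have h2 : W2.μ = WL.μ := by
    apply MonoidHom.ext
    intro x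
    rw [hWLμ]
    exact hμ x
  rw [← hWLl h]
  exact congrFun (congrArg DFunLike.coe (l_of_mu W2 WL hn h2)) h

end comp

variable {F E : Type u} [NontriviallyNormedField F] [IsUltrametricDist F] [ProperSpace F]
  [CharP F 2] [NontriviallyNormedField E] [NormedAlgebra F E] [ProperSpace E] [StarRing E]
  [QExt F E] [Dl E] [MeasurableSpace E] [BorelSpace E]
variable {V : Type u} [AddCommGroup V] [Module E V] [Module.Finite E V] [TopologicalSpace V]
  [IsTopologicalAddGroup V] [T2Space V] [ContinuousSMul E V]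

/-- reduction to the situation where the Weil representation is the restriction of a Weil
representation over `F^(2^j)` -/
theorem fr_suffices {B : SkewH E V} {p : PChar F} (W : WeilRep B p)
    (hn : 3 ≤ Module.finrank E V) (j : ℕ) (P : Polynomial F)
    (H : ∀ (F0 E0 : Type u) [NontriviallyNormedField F0] [IsUltrametricDist F0]
      [ProperSpace F0] [CharP F0 2] [NontriviallyNormedField E0] [NormedAlgebra F0 E0]
      [ProperSpace E0] [StarRing E0] [QExt F0 E0] [Dl E0] [MeasurableSpace E0] [BorelSpace E0]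
      [NormedAlgebra F0 F] [NormedAlgebra E0 E] [Algebra F0 E] [KCompat F0 E0 F E]
      [Module E0 V] [IsScalarTower E0 E V] [Module.Finite E0 V] [ContinuousSMul E0 V]
      (σ : E ≃+* E0) (_ : ∀ x, algebraMap E0 E (σ x) = x ^ 2 ^ j)
      (σF : F ≃+* F0) (_ : ∀ x, algebraMap F0 F (σF x) = x ^ 2 ^ j)
      (_ : ∀ x : F, σ (algebraMap F E x) = algebraMap F0 E0 (σF x))
      (_ : Module.finrank F0 F = 2 ^ j)
      (δ : Dl E) (B' : SkewH E V) (p' : PChar F) (B0 : SkewH E0 V) (p0 : PChar F0)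
      (W0 : WeilRep B0 p0) (W' : @WeilRep F E _ _ _ _ _ _ _ _ _ δ _ _ V _ _ _ _ _ _ _ B' p')
      (hB : ∀ v w, tl F0 E0 F E (B'.ip v w) = B0.ip v w),
      (∀ h : UU B', @WeilRep.l F E _ _ _ _ _ _ _ _ _ δ _ _ V _ _ _ _ _ _ _ B' p' W' h =
        W0.l (resU hB h)) →
      @PGood F E _ _ _ _ _ _ _ _ _ δ _ _ V _ _ _ _ _ _ _ B' p' W' P) : PGood W P := by
  classical
  haveI : CharP E 2 := char2_of_injective (algebraMap F E).injective
  letI := frAlg j F E
  haveI hKC := fr_kcompat j F E
  letI := frMod j E V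
  haveI := frTower j E V
  haveI : Module.Finite (Fr j E) V := frModFin j E V
  haveI : ContinuousSMul (Fr j E) V := frModCont j E V
  haveI : FiniteDimensional (Fr j F) F := frFD j F
  haveI : FiniteDimensional (Fr j E) E := frFD j E
  haveI : FiniteDimensional F E := qext_findim F E
  haveI : FiniteDimensional (Fr j F) (Fr j E) := qext_findim _ _
  haveI : TotallyDisconnectedSpace F := td_U F F
  haveI : TotallyDisconnectedSpace E := td_U F E
  haveI : TotallyDisconnectedSpace (Fr j F) := td_U (Fr j F) (Fr j F)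
  haveI : TotallyDisconnectedSpace (Fr j E) := td_U (Fr j F) (Fr j E)
  -- the characters
  obtain ⟨a, ha, hp⟩ := self_dual p ((frP j F p).ext F)
  obtain ⟨W1, hW1μ, hW1⟩ := transA W a ha hp
  obtain ⟨W2, hW2μ, hW2⟩ := transD (inferInstance : Dl E) (dlL (Fr j F) (Fr j E) F E) W1
  obtain ⟨B0, hB0⟩ := frB_exists j F E (B.scale a ha)
  -- the Weil representation over `E^(2^j)`
  have hsign := mu_sign W hn
  have hsign0 : MuSign (Fr j F) (Fr j E) (frMu j E W.μ) := by
    intro c hc
    have hc' : (frE j F).symm c ≠ 0 := hc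
    have h1 := hsign ((frE j F).symm c) hc'
    have h2 : hmod (mulT (Fr j F) c hc) = hmod (mulT F ((frE j F).symm c) hc') :=
      fr_hmod j F ((frE j F).symm c) hc' hc
    have h3 : frMu j E W.μ (Units.map (algebraMap (Fr j F) (Fr j E)).toMonoidHom
        (Units.mk0 c hc)) = W.μ (Units.map (algebraMap F E).toMonoidHom
        (Units.mk0 ((frE j F).symm c) hc')) := by
      rw [frMu_apply]
      congr 1
    rw [h2, h3]
    exact h1
  obtain ⟨m, hm⟩ := exists_wm (Fr j E)
  obtain ⟨A, hA, hA4, hG⟩ := weil_consts (frP j F p) (frMu j E W.μ) hsign0 m hm.1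
  obtain ⟨W0, hW0A, hW0μ⟩ := exists_weil B0 (frP j F p) A hA hA4 (frMu j E W.μ)
    (fun c hc => W.μ_norm (Units.map ((frE j F).symm : Fr j F →+* F).toMonoidHom c) hc)
    (fun c hc => W.μ_non (Units.map ((frE j F).symm : Fr j F →+* F).toMonoidHom c) hc)
    (frMu_lc j E W.μ W.μ_lc) m hm.2 hG
  -- the restriction
  refine hW1 P (hW2 P (H (Fr j F) (Fr j E) (frE j E) ?_ (frE j F) ?_ ?_ (fr_finrank j F)
    (dlL (Fr j F) (Fr j E) F E) (B.scale a ha) ((frP j F p).ext F) B0 (frP j F p) W0 W2 hB0 ?_))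
  · intro x
    rfl
  · intro x
    rfl
  · intro x
    rfl
  · refine frweil_l (B' := B.scale a ha) W0 hB0 W2 (fun x => ?_) hn
    rw [hW2μ, hW1μ, hW0μ, frMu_apply]
    congr 2
    ext
    show (x : E) = (frE j E).symm (Algebra.norm (Fr j E) (x : E))
    rw [fr_normmap j F E, RingEquiv.symm_apply_apply]

end

end Pool.Agent.Work.MP_dd0ddf_al.C2
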