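import Pool.Agent.Work.MP_dd0ddf_al.C2.FxDefs
import Pool.Agent.Work.MP_dd0ddf_al.C2.Gauss71
import Pool.Agent.Work.MP_dd0ddf_al.C2.HmodDil
import Pool.Agent.Work.MP_dd0ddf_al.C2.HmodAux
import Pool.Agent.Work.MP_dd0ddf_al.C2.CurAux
import Pool.Agent.Work.MP_dd0ddf_al.C2.NiE1
import Pool.Agent.Work.MP_dd0ddf_al.C2.NiTr

/-!
# MP_dd0ddf_al, module Fx71: Lemma W on a nondegenerate subspace

`V = U ⊕ U^⊥` (orthogonal), `dim_F U = 2 dim_E U`.  Consider `U` as an F-vector space (`Module.compHom U (algebraMap F E)`) with the symmetric form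
`b(u, w) = Tr(η ⟨u, w⟩)` (star η = -η, `exists_eta`; `b(u,u) = 2 η⟨u,u⟩` in F, so `b(u,u) = 0` iff `⟨u,u⟩ = 0`).  For `φ' ∈ SF(U^⊥)` let
`S_{φ'}(φ) = S(φ ⊗ φ')`, `φ ⊗ φ' ∈ SF V`, `(φ ⊗ φ')(v) = φ(pr v) φ'(v - pr v)`.  `S_{φ'}` is supported on the cone.
`𝓕_b φ (w) = ∫ φ(u) ψ(Tr η⟨u,w⟩) du = (𝓕_U φ)(-η w)` where `𝓕_U` is the transform for `ψ(Tr⟨u,w⟩)` (`⟨u, -ηw⟩ = conj(-η)⟨u,w⟩ = η⟨u,w⟩`), and `(𝓕_U φ)(-η w) = const · 𝓕_U(φ(c ·))(w)`, `c = (conj(-η))⁻¹ = η⁻¹`...: substitution.
`𝓕_V(φ ⊗ φ'') = 𝓕_U φ ⊗ 𝓕_{U^⊥} φ''` up to a positive constant (Fubini), and `𝓕_{U^⊥}` is surjective.  So `S_{φ'} ∘ 𝓕_b` is supported on the cone.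
By `lemma71_sq`: `hmod(dil U t) S_{φ'}(φ(t⁻²·)) = S_{φ'}(φ)`; `hmod_dil`; the functions `φ ⊗ φ'` span `SF V`.
-/

set_option linter.unusedSectionVars false
set_option linter.style.haveILetI false

namespace Pool.Agent.Work.MP_dd0ddf_al.C2

noncomputable section

universe u

/-- tensor product -/
private def fx71_ten {A R : Type*} [TopologicalSpace A] [TopologicalSpace R] [R1Space A]
    [R1Space R] (φ' : SF R ℂ) : SF A ℂ →ₗ[ℂ] SF (A × R) ℂ :=
  uncur ∘ₗ SF.map (LinearMap.toSpanSingleton ℂ (SF R ℂ) φ')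

private theorem fx71_ten_apply {A R : Type*} [TopologicalSpace A] [TopologicalSpace R]
    [R1Space A] [R1Space R] (φ : SF A ℂ) (φ' : SF R ℂ) (a : A) (r : R) :
    fx71_ten φ' φ (a, r) = φ a * φ' r := rfl

private theorem fx71_ten_int {A R : Type*} [AddCommGroup A] [TopologicalSpace A]
    [IsTopologicalAddGroup A]
    [LocallyCompactSpace A] [T2Space A] [TotallyDisconnectedSpace A] [AddCommGroup R]
    [TopologicalSpace R] [IsTopologicalAddGroup R] [LocallyCompactSpace R] [T2Space R]
    [TotallyDisconnectedSpace R] : ∃ c : ℝ, 0 < c ∧ ∀ (φ : SF A ℂ) (φ' : SF R ℂ),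
      hI (fx71_ten φ' φ) = (c : ℂ) * (hI φ * hI φ') := by
  obtain ⟨c, hc, -, h⟩ := exists_fubini (G := A) (G' := R)
  refine ⟨c, hc, fun φ φ' => ?_⟩
  rw [h (fx71_ten φ' φ) (hI φ' • φ) (fun x => by
    have e : SF.slice x (fx71_ten φ' φ) = φ x • φ' := SF.ext fun r => rfl
    rw [e, map_smul]
    show hI φ' * φ x = φ x * hI φ'
    rw [mul_comm]), map_smul, smul_eq_mul, mul_comm (hI φ)]

variable {F E : Type u} [NontriviallyNormedField F] [IsUltrametricDist F] [ProperSpace F]
  [CharP F 2] [NontriviallyNormedField E] [NormedAlgebra F E] [ProperSpace E] [StarRing E]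
  [QExt F E]
variable {V : Type u} [AddCommGroup V] [Module E V] [Module.Finite E V] [TopologicalSpace V]
  [IsTopologicalAddGroup V] [T2Space V] [ContinuousSMul E V]

/-- `V = U × U^⊥` -/
private def fx71_e (B : SkewH E V) (U : Submodule E V) (hU : NDeg B U) : V ≃ₜ U × orth B U where
  toFun v := (⟨prO B U hU v, prO_mem B U hU v⟩, ⟨v - prO B U hU v, sub_prO_mem B U hU v⟩)
  invFun q := q.1.1 + q.2.1
  left_inv v := add_sub_cancel (prO B U hU v) v
  right_inv q := by
    have h1 : prO B U hU (q.1.1 + q.2.1) = q.1.1 := by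
      rw [map_add, prO_of_mem B U hU q.1.2, prO_of_orth B U hU q.2.2, add_zero]
    refine Prod.ext (Subtype.ext h1) (Subtype.ext ?_)
    show q.1.1 + q.2.1 - prO B U hU (q.1.1 + q.2.1) = q.2.1
    rw [h1, add_sub_cancel_left]
  continuous_toFun :=
    ((prO B U hU).continuous_of_finiteDimensional.subtype_mk _).prodMk
      ((continuous_id.sub (prO B U hU).continuous_of_finiteDimensional).subtype_mk _)
  continuous_invFun := (continuous_subtype_val.comp continuous_fst).add
    (continuous_subtype_val.comp continuous_snd)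

private theorem fx71_e_add (B : SkewH E V) (U : Submodule E V) (hU : NDeg B U) (x y : V) :
    fx71_e B U hU (x + y) = fx71_e B U hU x + fx71_e B U hU y := by
  refine Prod.ext (Subtype.ext ?_) (Subtype.ext ?_)
  · exact map_add (prO B U hU) x y
  · show x + y - prO B U hU (x + y) = (x - prO B U hU x) + (y - prO B U hU y)
    rw [map_add]
    abel

/-- the Fourier transform of a tensor product -/
private theorem fx71_four (B : SkewH E V) (p : PChar F) (U : Submodule E V) (hU : NDeg B U)
    [LocallyCompactSpace V] [TotallyDisconnectedSpace V] [LocallyCompactSpace U]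
    [TotallyDisconnectedSpace U] [LocallyCompactSpace (orth B U)]
    [TotallyDisconnectedSpace (orth B U)] : ∃ c : ℂ, c ≠ 0 ∧
      ∀ (φ : SF U ℂ) (φ' : SF (orth B U) ℂ),
        fourV B p (SF.comp (fx71_e B U hU) (fx71_ten φ' φ)) =
        c • SF.comp (fx71_e B U hU)
          (fx71_ten (four1 (omBi (B.restrict (orth B U) (ndeg_orth B U hU)) p) φ')
          (four1 (omBi (B.restrict U hU) p) φ)) := by
  obtain ⟨c1, hc1, h1⟩ := hI_transfer (fx71_e B U hU) (fx71_e_add B U hU)
  obtain ⟨c2, hc2, h2⟩ := fx71_ten_int (A := U) (R := orth B U)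
  refine ⟨(c1 : ℂ) * c2, mul_ne_zero (by exact_mod_cast hc1.ne') (by exact_mod_cast hc2.ne'),
    fun φ φ' => ?_⟩
  apply SF.ext
  intro w
  have e1 : fourV B p (SF.comp (fx71_e B U hU) (fx71_ten φ' φ)) w =
      hI (SF.mulc (fun v => (omBi B p).χ v w) ((omBi B p).lcl w)
        (SF.comp (fx71_e B U hU) (fx71_ten φ' φ))) := four1_apply _ _ _
  have e2 : SF.mulc (fun v => (omBi B p).χ v w) ((omBi B p).lcl w)
        (SF.comp (fx71_e B U hU) (fx71_ten φ' φ)) =
      SF.comp (fx71_e B U hU) (fx71_ten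
        (SF.mulc (fun v => (omBi (B.restrict (orth B U) (ndeg_orth B U hU)) p).χ v
          (fx71_e B U hU w).2) ((omBi _ p).lcl _) φ')
        (SF.mulc (fun v => (omBi (B.restrict U hU) p).χ v
          (fx71_e B U hU w).1) ((omBi _ p).lcl _) φ)) := by
    apply SF.ext
    intro v
    show p.ψ (om F B v w) * (φ (fx71_e B U hU v).1 * φ' (fx71_e B U hU v).2) =
      (p.ψ (om F (B.restrict U hU) (fx71_e B U hU v).1 (fx71_e B U hU w).1) *
        φ (fx71_e B U hU v).1) *
      (p.ψ (om F (B.restrict (orth B U) (ndeg_orth B U hU)) (fx71_e B U hU v).2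
        (fx71_e B U hU w).2) * φ' (fx71_e B U hU v).2)
    have h3 : om F B v w = om F (B.restrict U hU) (fx71_e B U hU v).1 (fx71_e B U hU w).1 +
        om F (B.restrict (orth B U) (ndeg_orth B U hU)) (fx71_e B U hU v).2
          (fx71_e B U hU w).2 := by
      unfold om
      rw [← map_add]
      congr 1
      show B.ip v w = B.ip (prO B U hU v) (prO B U hU w) +
        B.ip (v - prO B U hU v) (w - prO B U hU w)
      have h4 : B.ip v w = B.ip (prO B U hU v + (v - prO B U hU v))
          (prO B U hU w + (w - prO B U hU w)) := by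
        rw [add_sub_cancel, add_sub_cancel]
      have h5 : B.ip (v - prO B U hU v) (prO B U hU w) = 0 :=
        sub_prO_mem B U hU v _ (prO_mem B U hU w)
      have h6 : B.ip (prO B U hU v) (w - prO B U hU w) = 0 := by
        have h7 : B.ip (w - prO B U hU w) (prO B U hU v) = 0 :=
          sub_prO_mem B U hU w _ (prO_mem B U hU v)
        rw [B.skew, h7, star_zero, neg_zero]
      rw [h4, B.add_left, B.add_right, B.add_right, h5, h6]
      ring
    rw [h3, p.add]
    ring
  rw [e1, e2, h1, h2]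
  show (c1 : ℂ) * ((c2 : ℂ) * _) = (c1 : ℂ) * c2 *
    (four1 (omBi (B.restrict U hU) p) φ (fx71_e B U hU w).1 *
      four1 (omBi (B.restrict (orth B U) (ndeg_orth B U hU)) p) φ' (fx71_e B U hU w).2)
  rw [four1_apply, four1_apply, mul_assoc]
  rfl

private theorem fx71_tr (x : E) : Algebra.trace F E (star x) = Algebra.trace F E x := by
  let e : E ≃ₐ[F] E :=
    { toFun := fun x => star x
      invFun := fun x => star x
      left_inv := star_star
      right_inv := star_star
      map_mul' := star_mul'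
      map_add' := star_add
      commutes' := QExt.star_alg }
  exact Algebra.trace_eq_of_algEquiv e x

private theorem fx71_trnd (x : E) (h : ∀ y : E, Algebra.trace F E (y * x) = 0) : x = 0 := by
  haveI : FiniteDimensional F E := qext_findim F E
  haveI : Algebra.IsSeparable F E := qext_sep F E
  refine (traceForm_nondegenerate F E).1 x fun y => ?_
  rw [Algebra.traceForm_apply, mul_comm]
  exact h y

/-- `V` as an F-vector space -/
private abbrev fx71_mod (F E V : Type u) [Field F] [Field E] [Algebra F E] [AddCommGroup V]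
    [Module E V] : Module F V := Module.compHom V (algebraMap F E)

/-- the symmetric form `Tr(η ⟨v, w⟩)` -/
private def fx71_form (B : SkewH E V) (η : E) (hη0 : η ≠ 0) (hηs : star η = -η) :
    letI := fx71_mod F E V; QForm F V :=
  letI := fx71_mod F E V
  { b := fun v w => Algebra.trace F E (η * B.ip v w)
    q := fun v => Algebra.trace F E (dd F E * (η * B.ip v v))
    q_add := fun v w => by
      have h1 : star (η * B.ip v w) = η * B.ip w v := by
        rw [star_mul', hηs, B.skew v w]
        ring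
      have h2 : η * B.ip (v + w) (v + w) = η * B.ip v v + η * B.ip w w +
          (η * B.ip v w + star (η * B.ip v w)) := by
        rw [h1, B.add_left, B.add_right, B.add_right]
        ring
      rw [h2, mul_add, mul_add, map_add, map_add, trace_dd_star]
    q_smul := fun a v => by
      show Algebra.trace F E (dd F E * (η * B.ip ((algebraMap F E a) • v)
        ((algebraMap F E a) • v))) = _
      have h2 : dd F E * (η * B.ip ((algebraMap F E a) • v) ((algebraMap F E a) • v)) =
          (a ^ 2) • (dd F E * (η * B.ip v v)) := by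
        rw [B.smul_left, B.smul_right, QExt.star_alg, Algebra.smul_def, map_pow]
        ring
      rw [h2, map_smul, smul_eq_mul]
    add_left := fun u v w => by rw [B.add_left, mul_add, map_add]
    smul_left := fun a v w => by
      show Algebra.trace F E (η * B.ip ((algebraMap F E a) • v) w) = _
      rw [B.smul_left, mul_left_comm, ← Algebra.smul_def, map_smul, smul_eq_mul]
    symm := fun v w => by
      rw [B.skew w v, ← fx71_tr (η * -star (B.ip w v)), star_mul', star_neg, star_star, hηs,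
        neg_mul_neg]
    nondeg := fun v hv => by
      refine B.nondeg v fun w => fx71_trnd (F := F) _ fun y => ?_
      have h1 := hv (star (η⁻¹ * y) • w)
      rw [B.smul_right, star_star, ← mul_assoc, ← mul_assoc, mul_inv_cancel₀ hη0, one_mul] at h1
      exact h1 }

private theorem fx71_cone (B : SkewH E V) (η : E) (hη0 : η ≠ 0) (hηs : star η = -η)
    (hfix : ∀ x : E, star x = x → ∃ f : F, x = algebraMap F E f) (v : V) :
    Algebra.trace F E (dd F E * (η * B.ip v v)) = 0 ↔ B.ip v v = 0 := by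
  constructor
  · intro h
    obtain ⟨f, hf⟩ := hfix (η * B.ip v v) (by
      have h1 := B.skew v v
      rw [star_mul', hηs, h1, star_neg, star_star]
      have h2 : star (B.ip v v) = - B.ip v v := by
        conv_rhs => rw [h1]
        rw [neg_neg]
      rw [h2]
      ring)
    rw [hf, trace_dd_alg] at h
    rw [h, map_zero] at hf
    exact (mul_eq_zero.1 hf).resolve_left hη0
  · intro h
    rw [h, mul_zero, mul_zero, map_zero]

/-- Lemma W for skew-Hermitian spaces -/
private theorem fx71_W (B : SkewH E V) (p : PChar F) (S : SF V ℂ →ₗ[ℂ] ℂ)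
    (h1 : SF.SuppOn S {v | B.ip v v = 0})
    (h2 : SF.SuppOn (S ∘ₗ fourV B p) {v | B.ip v v = 0})
    [LocallyCompactSpace F] [TotallyDisconnectedSpace F] (t : F) (ht : t ≠ 0)
    (a : V ≃ₜ V) (ha : ∀ v, a v = (algebraMap F E (t ^ 2)⁻¹) • v) (φ : SF V ℂ) :
    ((hmod (dil F t ht) : ℂ)) ^ (2 * Module.finrank E V) * S (SF.comp a φ) = S φ := by
  haveI := lc_V E V
  haveI := td_V F E V
  obtain ⟨η, hη0, hηs, -, -, hfix⟩ := exists_eta F E
  letI : Module F V := fx71_mod F E V
  haveI : IsScalarTower F E V := by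
    refine ⟨fun a x v => ?_⟩
    show (a • x) • v = (algebraMap F E a) • (x • v)
    rw [Algebra.smul_def, mul_smul]
  haveI : FiniteDimensional F E := qext_findim F E
  haveI : Module.Finite F V := Module.Finite.trans E V
  haveI : ContinuousSMul F V := by
    refine ⟨?_⟩
    have h : (fun p : F × V => p.1 • p.2) = fun p : F × V => (algebraMap F E p.1) • p.2 := rfl
    rw [h]
    exact ((continuous_algebraMap F E).comp continuous_fst).smul continuous_snd
  have hfin : Module.finrank F V = 2 * Module.finrank E V := by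
    rw [← Module.finrank_mul_finrank F E V, QExt.finrank_two]
  let β : QForm F V := fx71_form B η hη0 hηs
  have hcone : ∀ v, β.q v = 0 ↔ B.ip v v = 0 := fun v => fx71_cone B η hη0 hηs hfix v
  have h1' : SF.SuppOn S {v | β.q v = 0} := fun f hf => h1 f fun z hz => hf z ((hcone z).2 hz)
  have hκ0 : (η⁻¹ : E) ≠ 0 := inv_ne_zero hη0
  let α : TAut V := ⟨Homeomorph.smulOfNeZero (η⁻¹ : E) hκ0, fun x y => smul_add (η⁻¹ : E) x y⟩
  have hfour : ∀ (f : SF V ℂ) (w : V), (hmod α : ℂ) * four1 (β.bi p) f w =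
      fourV B p (SF.comp α.h f) w := by
    intro f w
    have e1 := four1_aut (omBi B p) α (fun w => (-η⁻¹ : E) • w) (fun v w => by
      show p.ψ (om F B ((η⁻¹ : E) • v) w) = p.ψ (om F B v ((-η⁻¹ : E) • w))
      have e2 : B.ip ((η⁻¹ : E) • v) w = B.ip v ((-η⁻¹ : E) • w) := by
        rw [B.smul_left, B.smul_right, star_neg, star_inv₀, hηs, inv_neg, neg_neg]
      unfold om
      rw [e2]) f ((-η : E) • w)
    have e3 : (-η⁻¹ : E) • ((-η : E) • w) = w := by
      rw [smul_smul, neg_mul_neg, inv_mul_cancel₀ hη0, one_smul]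
    have e4 : four1 (omBi B p) (SF.comp α.h f) ((-η⁻¹ : E) • ((-η : E) • w)) =
        (hmod α : ℂ) • four1 (omBi B p) f ((-η : E) • w) := e1
    rw [e3] at e4
    have e5 : four1 (β.bi p) f w = four1 (omBi B p) f ((-η : E) • w) := by
      rw [four1_apply, four1_apply]
      unfold fourFun
      congr 1
      apply SF.ext
      intro v
      show p.ψ (Algebra.trace F E (η * B.ip v w)) • f v =
        p.ψ (Algebra.trace F E (B.ip v ((-η : E) • w))) • f v
      rw [B.smul_right, star_neg, hηs, neg_neg]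
    rw [e5]
    exact e4.symm
  have hα : (hmod α : ℂ) ≠ 0 := by exact_mod_cast (hmod_pos α).ne'
  have h2' : SF.SuppOn (S ∘ₗ four1 (β.bi p)) {v | β.q v = 0} := by
    intro f hf
    have e1 : (hmod α : ℂ) • four1 (β.bi p) f = fourV B p (SF.comp α.h f) :=
      SF.ext fun w => hfour f w
    have e2 : S (fourV B p (SF.comp α.h f)) = 0 := by
      refine h2 (SF.comp α.h f) fun z hz => ?_
      refine hf _ ((hcone _).2 ?_)
      show B.ip ((η⁻¹ : E) • z) ((η⁻¹ : E) • z) = 0
      have hz' : B.ip z z = 0 := hz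
      rw [B.smul_left, B.smul_right, hz', mul_zero, mul_zero]
    rw [← e1, map_smul, smul_eq_mul] at e2
    exact (mul_eq_zero.1 e2).resolve_left hα
  have e := lemma71_sq β p S h1' h2' t ht φ
  rw [hmod_dil, hfin, Complex.ofReal_pow] at e
  have e6 : SF.comp (dil V (t ^ 2)⁻¹ (inv_ne_zero (pow_ne_zero 2 ht))).h φ = SF.comp a φ := by
    apply SF.ext
    intro v
    show φ ((algebraMap F E (t ^ 2)⁻¹) • v) = φ (a v)
    rw [ha]
  rw [e6] at e
  exact e

theorem fx71 {B : SkewH E V} (p : PChar F) (U : Submodule E V) (hU : NDeg B U)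
    (S : SF V ℂ →ₗ[ℂ] ℂ) (h1 : SF.SuppOn S {v | B.ip (prO B U hU v) (prO B U hU v) = 0})
    (h2 : SF.SuppOn (S ∘ₗ fourV B p) {v | B.ip (prO B U hU v) (prO B U hU v) = 0})
    [LocallyCompactSpace F] [TotallyDisconnectedSpace F] (t : F) (ht : t ≠ 0) (φ : SF V ℂ) :
    ((hmod (dil F t ht) : ℂ)) ^ (2 * Module.finrank E U) *
      S (SF.comp (dilOn B U hU (t ^ 2)⁻¹ (inv_ne_zero (pow_ne_zero 2 ht))) φ) = S φ := by
  haveI := lc_V E V
  haveI := td_V F E V
  haveI : LocallyCompactSpace U := lc_V E U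
  haveI : TotallyDisconnectedSpace U := td_V F E U
  haveI : LocallyCompactSpace (orth B U) := lc_V E (orth B U)
  haveI : TotallyDisconnectedSpace (orth B U) := td_V F E (orth B U)
  obtain ⟨c0, hc0, h4⟩ := fx71_four B p U hU
  have hs : algebraMap F E (t ^ 2)⁻¹ ≠ 0 := by
    rw [Ne, map_eq_zero]
    exact inv_ne_zero (pow_ne_zero 2 ht)
  let a : U ≃ₜ U := Homeomorph.smulOfNeZero (algebraMap F E (t ^ 2)⁻¹) hs
  -- tensors
  have hten : ∀ (φ' : SF (orth B U) ℂ) (φ : SF U ℂ),
      ((hmod (dil F t ht) : ℂ)) ^ (2 * Module.finrank E U) *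
        S (SF.comp (fx71_e B U hU) (fx71_ten φ' (SF.comp a φ))) =
        S (SF.comp (fx71_e B U hU) (fx71_ten φ' φ)) := by
    intro φ' φ
    refine fx71_W (B.restrict U hU) p (S ∘ₗ SF.comp (fx71_e B U hU) ∘ₗ fx71_ten φ') ?_ ?_ t ht a
      (fun v => rfl) φ
    · intro f hf
      refine h1 _ fun z hz => ?_
      show f (fx71_e B U hU z).1 * φ' (fx71_e B U hU z).2 = 0
      rw [hf (fx71_e B U hU z).1 hz, zero_mul]
    · intro f hf
      obtain ⟨c, hc, h5⟩ := fourV_fourV (B.restrict (orth B U) (ndeg_orth B U hU)) p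
      have e1 : φ' = four1 (omBi (B.restrict (orth B U) (ndeg_orth B U hU)) p)
          (c⁻¹ • fourV (B.restrict (orth B U) (ndeg_orth B U hU)) p φ') := by
        have e2 := h5 φ'
        have e3 : four1 (omBi (B.restrict (orth B U) (ndeg_orth B U hU)) p)
          (fourV (B.restrict (orth B U) (ndeg_orth B U hU)) p φ') = c • φ' := e2
        rw [map_smul, e3, smul_smul, inv_mul_cancel₀ hc, one_smul]
      have e4 := h4 f (c⁻¹ • fourV (B.restrict (orth B U) (ndeg_orth B U hU)) p φ')
      rw [← e1] at e4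
      have e5 := h2 (SF.comp (fx71_e B U hU) (fx71_ten
        (c⁻¹ • fourV (B.restrict (orth B U) (ndeg_orth B U hU)) p φ') f)) (by
          intro z hz
          show f (fx71_e B U hU z).1 * _ = 0
          rw [hf (fx71_e B U hU z).1 hz, zero_mul])
      have e6 : S (fourV B p (SF.comp (fx71_e B U hU) (fx71_ten
        (c⁻¹ • fourV (B.restrict (orth B U) (ndeg_orth B U hU)) p φ') f))) = 0 := e5
      rw [e4, map_smul, smul_eq_mul] at e6
      exact (mul_eq_zero.1 e6).resolve_left hc0
  -- all functions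
  have hall : ∀ f : SF U (SF (orth B U) ℂ),
      ((hmod (dil F t ht) : ℂ)) ^ (2 * Module.finrank E U) *
        S (SF.comp (fx71_e B U hU) (uncur (SF.comp a f))) =
        S (SF.comp (fx71_e B U hU) (uncur f)) := by
    intro f
    refine sf_induction (fun f : SF U (SF (orth B U) ℂ) =>
      ((hmod (dil F t ht) : ℂ)) ^ (2 * Module.finrank E U) *
        S (SF.comp (fx71_e B U hU) (uncur (SF.comp a f))) =
        S (SF.comp (fx71_e B U hU) (uncur f))) ?_ ?_ ?_ f
    · simp only [map_zero, mul_zero]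
    · intro f g hf hg
      simp only [map_add, mul_add]
      rw [hf, hg]
    · intro x
      refine ⟨Set.univ, isOpen_univ, Set.mem_univ _, fun K hK hK' b _ => ?_⟩
      have e1 : SF.single K hK hK' b = SF.map (LinearMap.toSpanSingleton ℂ (SF (orth B U) ℂ) b)
          (SF.single K hK hK' (1 : ℂ)) := by
        apply SF.ext
        intro y
        show _ = SF.single K hK hK' (1 : ℂ) y • b
        by_cases hy : y ∈ K
        · rw [SF.single_apply_mem _ _ _ _ _ hy, SF.single_apply_mem _ _ _ _ _ hy, one_smul]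
        · rw [SF.single_apply_not_mem _ _ _ _ _ hy, SF.single_apply_not_mem _ _ _ _ _ hy,
            zero_smul]
      have e2 := hten b (SF.single K hK hK' (1 : ℂ))
      show _ * S (SF.comp (fx71_e B U hU) (uncur (SF.comp a (SF.single K hK hK' b)))) =
        S (SF.comp (fx71_e B U hU) (uncur (SF.single K hK hK' b)))
      rw [e1]
      exact e2
  have e := hall (cur (SF.comp (fx71_e B U hU).symm φ))
  rw [uncur_cur] at e
  have e7 : SF.comp (fx71_e B U hU) (SF.comp (fx71_e B U hU).symm φ) = φ := by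
    apply SF.ext
    intro v
    show φ ((fx71_e B U hU).symm (fx71_e B U hU v)) = φ v
    rw [Homeomorph.symm_apply_apply]
  rw [e7] at e
  rw [← e]
  congr 2
  apply SF.ext
  intro v
  have e8 : v + (algebraMap F E ((t ^ 2)⁻¹ - 1)) • prO B U hU v =
      (algebraMap F E (t ^ 2)⁻¹) • prO B U hU v + (v - prO B U hU v) := by
    rw [map_sub, map_one, sub_smul, one_smul]
    abel
  exact congrArg (fun z => φ z) e8

end

end Pool.Agent.Work.MP_dd0ddf_al.C2
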