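import Pool.Agent.Work.MP_dd0ddf_al.C2.FxDefs
import Pool.Agent.Work.MP_dd0ddf_al.C2.BlkAux

/-!
# MP_dd0ddf_al, module FxInert: one block, q irreducible over E

`U = cyc X e ≅ E[x]/(q^k)`.  For `u = f(X) e`: `⟨X^n u, u⟩ = 0` for all n iff `⟨g(X) f f̄ (X) e, e⟩ = 0` for all `g`, iff (nondegeneracy of U) `q^k | f f̄`, iff (q prime, self-conjugate:
`v_q(f̄) = v_q(f)`) `2 v_q(f) ≥ k`, iff `u ∈ q(X)^{⌈k/2⌉} U`.  So c1 is b1.  c2: `four_trans` with b2: for `v` with `pr v ∈ q^{⌈k/2⌉}U` and `y ∈ q^{⌊k/2⌋}U`: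
`⟨v, y⟩ = ⟨pr v, y⟩ = ⟨q^{⌈k/2⌉}(X) a, q^{⌊k/2⌋}(X) b⟩ = ⟨q^k(X) a, b⟩ = 0`.
-/

set_option linter.unusedSectionVars false
set_option linter.style.haveILetI false

namespace Pool.Agent.Work.MP_dd0ddf_al.C2

noncomputable section

universe u

variable {F E : Type u} [NontriviallyNormedField F] [IsUltrametricDist F] [ProperSpace F]
  [CharP F 2] [NontriviallyNormedField E] [NormedAlgebra F E] [ProperSpace E] [StarRing E]
  [QExt F E]
variable {V : Type u} [AddCommGroup V] [Module E V] [Module.Finite E V] [TopologicalSpace V]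
  [IsTopologicalAddGroup V] [T2Space V] [ContinuousSMul E V]

open Polynomial in
private theorem fxinert_val (Q : Polynomial E) (hQ : Irreducible Q) (hbar : bar Q = Q) (k : ℕ)
    (f : Polynomial E) (h : Q ^ k ∣ f * bar f) : Q ^ ((k + 1) / 2) ∣ f := by
  by_cases hf : f = 0
  · rw [hf]
    exact dvd_zero _
  obtain ⟨a, f1, hnd, hf1⟩ := WfDvdMonoid.max_power_factor hf hQ
  have hprime : Prime Q := hQ.prime
  have hb : ¬ Q ∣ bar f1 := by
    intro h1
    apply hnd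
    have h2 := bar_dvd h1
    rwa [bar_bar, hbar] at h2
  have h3 : f * bar f = Q ^ (2 * a) * (f1 * bar f1) := by
    rw [hf1, bar_mul, bar_pow, hbar]
    ring
  have h4 : k ≤ 2 * a := by
    by_contra hlt
    push Not at hlt
    obtain ⟨c, hc⟩ : ∃ c, k = 2 * a + (c + 1) := ⟨k - 2 * a - 1, by omega⟩
    rw [h3, hc, pow_add] at h
    have h5 : Q ^ (2 * a) ≠ 0 := pow_ne_zero _ hprime.ne_zero
    have h6 := (mul_dvd_mul_iff_left h5).1 h
    have h7 : Q ∣ f1 * bar f1 := (dvd_pow_self Q (Nat.succ_ne_zero c)).trans h6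
    rcases hprime.dvd_or_dvd h7 with h8 | h8
    · exact hnd h8
    · exact hb h8
  rw [hf1]
  exact (pow_dvd_pow Q (by omega)).trans (Dvd.intro _ rfl)

private theorem fxinert_c1 {B : SkewH E V} (p : PChar F) (X : SA B) (e : V)
    (hU : NDeg B (cyc X.1 e)) (q : Polynomial F) (k : ℕ)
    (hirr : Irreducible (q.map (algebraMap F E)))
    (hann : ∀ f : Polynomial E, Polynomial.aeval X.1 f e = 0 ↔ (q.map (algebraMap F E)) ^ k ∣ f)
    (S : SF V ℂ →ₗ[ℂ] ℂ) (h : BlkHyp p X e hU S) :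
    SF.SuppOn S {v | prO B _ hU v ∈ qSub F X.1 e q ((k + 1) / 2)} := by
  intro f hf
  refine h.b1 f fun z hz => hf z ?_
  obtain ⟨g, hg⟩ := (mem_cyc X.1 e _).1 (prO_mem B _ hU z)
  have h1 : ∀ n : ℕ, B.ip ((X.1 ^ n) (Polynomial.aeval X.1 g e)) (Polynomial.aeval X.1 g e) = 0 := by
    rw [← hg]
    exact hz
  have h2 := blkaux_cone X e hU _ hann g h1
  obtain ⟨c, hc⟩ := fxinert_val _ hirr (bar_base q) k g h2
  refine ⟨Polynomial.aeval X.1 c e, (mem_cyc X.1 e _).2 ⟨c, rfl⟩, ?_⟩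
  rw [hg, hc, aeval_mul']

theorem blk_inert {B : SkewH E V} (p : PChar F) (X : SA B) (e : V)
    (hU : NDeg B (cyc X.1 e)) (q : Polynomial F) (k : ℕ) (hq : q.Monic)
    (hirr : Irreducible (q.map (algebraMap F E)))
    (hann : ∀ f : Polynomial E, Polynomial.aeval X.1 f e = 0 ↔ (q.map (algebraMap F E)) ^ k ∣ f)
    (S : SF V ℂ →ₗ[ℂ] ℂ) (h : BlkHyp p X e hU S) : BlkConc X e hU q k S :=
  ⟨fxinert_c1 p X e hU q k hirr hann S h, fun y hy φ => blkaux_c2 p X e hU q k hann S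
    ((k + 1) / 2) (k / 2) (by omega)
    (fxinert_c1 p X e hU q k hirr hann _ (blkHyp_four p X e hU S h)) y hy φ⟩

end

end Pool.Agent.Work.MP_dd0ddf_al.C2
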