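import Pool.Agent.Work.MP_dd0ddf_al.C2.LinTau

/-!
# MP_dd0ddf_al, module LinNu: the transformations (X, v) ↦ (X + ζ v v^*, v)

`vvs B ζ v (x) = ζ ⟨x, v⟩ v`, `star ζ = -ζ`.  `h (vvs v) h⁻¹ = vvs (h v)`, `τ (vvs v) τ = vvs (τ v)`:
`τ(ζ⟨τx, v⟩ v) = star ζ · conj⟨τx, v⟩ τv`, `⟨τx, v⟩ = ⟨τx, τ(τv)⟩ = ⟨τv, x⟩ = -conj⟨x, τv⟩`, so `= ζ ⟨x, τv⟩ τv`.
So `nu` commutes with the actions.  `nu_char`: for `(X, v) ∈ Qset`: `det(x - X - ζ v v^*) = det(x - X) (1 - ζ ⟨(x-X)⁻¹ v, v⟩)` for every `x ∈ E` not an eigenvalue,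
`(x - X)⁻¹ v` is a linear combination of the `X^i v`, so the second factor is 1; the two characteristic polynomials agree at infinitely many `x` (E infinite).
(rank one update: `det(1 + u φ) = 1 + φ(u)`, Mathlib `Matrix.det_one_add_replicateCol_mul_replicateRow` or `LinearMap` version; or prove via eigenvector basis.)
`nu_Q`: `(X + ζ v v^*)^i v = X^i v` on `Qset` (induction: `(ζ v v^*) X^j v = ζ ⟨X^j v, v⟩ v = 0`), and conversely with `-ζ`.
`nu_InD`: `(T ∘ comp nu) f = T (f ∘ nu)`; if `f = 0` on `{charpoly = P}` then `f ∘ nu = 0` on `{charpoly = P} ∩ Qset`; `T` is supported on both closed sets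
(`{charpoly = P}` closed), hence on the intersection (split f into a part vanishing on one and a part vanishing on the other: if `g = 0` on `A ∩ B'`, A, B' closed:
`g = g 1_K + g (1 - 1_K)`, K clopen compact neighbourhood of `supp g ∩ A` disjoint from `B'`... (supp g compact open)).
-/

set_option linter.unusedSectionVars false
set_option linter.style.haveILetI false

namespace Pool.Agent.Work.MP_dd0ddf_al.C2

noncomputable section

universe u

variable {F E : Type u} [NontriviallyNormedField F] [IsUltrametricDist F] [ProperSpace F]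
  [CharP F 2] [NontriviallyNormedField E] [NormedAlgebra F E] [ProperSpace E] [StarRing E]
  [QExt F E]
variable {V : Type u} [AddCommGroup V] [Module E V] [Module.Finite E V] [TopologicalSpace V]
  [IsTopologicalAddGroup V] [T2Space V] [ContinuousSMul E V]

variable (F) in
include F in
private theorem linnu_cont (B : SkewH E V) (ζ : E) (hζ : star ζ = -ζ) :
    Continuous (fun v : V => vvs B ζ hζ v) := by
  refine Continuous.subtype_mk (continuous_induced_rng.mpr (continuous_pi fun x => ?_)) _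
  show Continuous (fun v : V => (ζ * B.ip x v) • v)
  exact (continuous_const.mul (continuous_ip_right F B x)).smul continuous_id

variable (F) in
/-- `(X, v) ↦ (X + ζ v v^*, v)`; the continuity in `v` needs that `star` is continuous
(`continuous_ip_right F`) -/
def nu (B : SkewH E V) (ζ : E) (hζ : star ζ = -ζ) : (SA B × V) ≃ₜ (SA B × V) :=
  have _hF : QExt F E := inferInstance
  { toFun := fun x => (x.1 + vvs B ζ hζ x.2, x.2)
    invFun := fun x => (x.1 - vvs B ζ hζ x.2, x.2)
    left_inv := fun x => by simp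
    right_inv := fun x => by simp
    continuous_toFun := (continuous_fst.add
      ((linnu_cont F B ζ hζ).comp continuous_snd)).prodMk continuous_snd
    continuous_invFun := (continuous_fst.sub
      ((linnu_cont F B ζ hζ).comp continuous_snd)).prodMk continuous_snd }

theorem suppOn_inter {X : Type*} [TopologicalSpace X] [T2Space X] [LocallyCompactSpace X]
    [TotallyDisconnectedSpace X] (T : SF X ℂ →ₗ[ℂ] ℂ) (A C : Set X) (hA : IsClosed A)
    (hC : IsClosed C) (h1 : SF.SuppOn T A) (h2 : SF.SuppOn T C) : SF.SuppOn T (A ∩ C) := by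
  intro g hg
  have hSclopen : IsClopen (Function.support g.1) := ⟨⟨by
    have h : (Function.support g.1)ᶜ = g.1 ⁻¹' {0} := by
      ext x
      simp [Function.mem_support]
    rw [h]
    exact g.2.1 _⟩, g.2.1 {0}ᶜ⟩
  have hScomp : IsCompact (Function.support g.1) := by
    have h1 : tsupport g.1 = Function.support g.1 := hSclopen.isClosed.closure_eq
    rw [← h1]
    exact g.2.2
  have hO : IsOpen (Function.support g.1 ∩ C)ᶜ := (hSclopen.isClosed.inter hC).isOpen_compl
  have key : ∃ K : Set X, IsCompact K ∧ IsOpen K ∧ K ⊆ (Function.support g.1 ∩ C)ᶜ ∧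
      Function.support g.1 ∩ A ⊆ K := by
    refine (hScomp.inter_right hA).induction_on (p := fun s => ∃ K : Set X, IsCompact K ∧
      IsOpen K ∧ K ⊆ (Function.support g.1 ∩ C)ᶜ ∧ s ⊆ K) ?_ ?_ ?_ ?_
    · exact ⟨∅, isCompact_empty, isOpen_empty, Set.empty_subset _, Set.empty_subset _⟩
    · rintro s t hst ⟨K1, h1, h2, h3, h4⟩
      exact ⟨K1, h1, h2, h3, hst.trans h4⟩
    · rintro s t ⟨K1, h1, h2, h3, h4⟩ ⟨K2, h5, h6, h7, h8⟩
      exact ⟨K1 ∪ K2, h1.union h5, h2.union h6, Set.union_subset h3 h7,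
        Set.union_subset_union h4 h8⟩
    · rintro x ⟨hx1, hx2⟩
      obtain ⟨K, hK1, hK2, hK3, hK4⟩ := exists_compact_open x _ hO
        (fun h => hx1 (hg x ⟨hx2, h.2⟩))
      exact ⟨K, mem_nhdsWithin_of_mem_nhds (hK2.mem_nhds hK3), K, hK1, hK2, hK4, subset_rfl⟩
  obtain ⟨K, hK1, hK2, hK3, hK4⟩ := key
  have hKc : IsClopen K := ⟨hK1.isClosed, hK2⟩
  have e1 : T (SF.ind K hKc g) = 0 := by
    apply h2
    intro x hx
    by_cases hxK : x ∈ K
    · rw [SF.ind_apply_mem K hKc g x hxK]
      by_contra hne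
      exact hK3 hxK ⟨hne, hx⟩
    · exact SF.ind_apply_not_mem K hKc g x hxK
  have e2 : T (g - SF.ind K hKc g) = 0 := by
    apply h1
    intro x hx
    show g x - SF.ind K hKc g x = 0
    by_cases hxK : x ∈ K
    · rw [SF.ind_apply_mem K hKc g x hxK, sub_self]
    · rw [SF.ind_apply_not_mem K hKc g x hxK, sub_zero]
      by_contra hne
      exact hxK (hK4 ⟨hne, hx⟩)
  rw [map_sub, e1, sub_zero] at e2
  exact e2

private theorem linnu_conj (B : SkewH E V) (ζ : E) (hζ : star ζ = -ζ) (h : UU B) (v : V) :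
    saConj B h (vvs B ζ hζ v) = vvs B ζ hζ (h.1.1 v) := by
  apply Subtype.ext
  ext x
  show h.1.1 ((ζ * B.ip (h.1⁻¹.1 x) v) • v) = (ζ * B.ip x (h.1.1 v)) • h.1.1 v
  rw [map_smul]
  have h1 := h.2 (h.1⁻¹.1 x) v
  have h2 : h.1.1 (h.1⁻¹.1 x) = x := congrArg (fun f : Module.End E V => f x) h.1.mul_inv
  rw [h2] at h1
  rw [h1]

private theorem linnu_conjadd (B : SkewH E V) (h : UU B) (X Y : SA B) :
    saConj B h (X + Y) = saConj B h X + saConj B h Y := by
  apply Subtype.ext
  show h.1.1 * (X.1 + Y.1) * h.1⁻¹.1 = h.1.1 * X.1 * h.1⁻¹.1 + h.1.1 * Y.1 * h.1⁻¹.1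
  rw [mul_add, add_mul]

variable (F) in
include F in
private theorem linnu_tau {B : SkewH E V} (ζ : E) (hζ : star ζ = -ζ) (τ : AntiU B) (v : V) :
    saTau F τ (vvs B ζ hζ v) = vvs B ζ hζ (τ.t v) := by
  apply Subtype.ext
  ext x
  show τ.t ((ζ * B.ip (τ.t x) v) • v) = (ζ * B.ip x (τ.t v)) • τ.t v
  rw [τ.smul]
  congr 1
  have h1 := τ.ip (τ.t x) v
  rw [τ.inv] at h1
  rw [h1, B.skew (τ.t x) v, star_mul', hζ]
  ring

variable (F) in
include F in
private theorem linnu_tauadd {B : SkewH E V} (τ : AntiU B) (X Y : SA B) :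
    saTau F τ (X + Y) = saTau F τ X + saTau F τ Y := by
  apply Subtype.ext
  ext x
  show τ.t (X.1 (τ.t x) + Y.1 (τ.t x)) = τ.t (X.1 (τ.t x)) + τ.t (Y.1 (τ.t x))
  rw [τ.add]

theorem nu_inv {B : SkewH E V} (ζ : E) (hζ : star ζ = -ζ) (T : SF (SA B × V) ℂ →ₗ[ℂ] ℂ)
    (hT : LinInv B T) : LinInv B (T ∘ₗ SF.comp (nu F B ζ hζ)) := by
  intro h f
  have h1 : SF.comp (nu F B ζ hζ) (linAct B h f) = linAct B h (SF.comp (nu F B ζ hζ) f) := by
    apply SF.ext
    rintro ⟨X, v⟩
    show f (saConj B h (X + vvs B ζ hζ v), h.1.1 v) =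
      f (saConj B h X + vvs B ζ hζ (h.1.1 v), h.1.1 v)
    rw [linnu_conjadd, linnu_conj]
  show T (SF.comp (nu F B ζ hζ) (linAct B h f)) = T (SF.comp (nu F B ζ hζ) f)
  rw [h1, hT]

theorem nu_anti {B : SkewH E V} (ζ : E) (hζ : star ζ = -ζ) (τ : AntiU B)
    (T : SF (SA B × V) ℂ →ₗ[ℂ] ℂ) (hT : LinAnti F τ T) :
    LinAnti F τ (T ∘ₗ SF.comp (nu F B ζ hζ)) := by
  intro f
  have h1 : SF.comp (nu F B ζ hζ) (linTau F τ f) = linTau F τ (SF.comp (nu F B ζ hζ) f) := by
    apply SF.ext
    rintro ⟨X, v⟩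
    show f (saTau F τ (X + vvs B ζ hζ v), τ.t v) =
      f (saTau F τ X + vvs B ζ hζ (τ.t v), τ.t v)
    rw [linnu_tauadd, linnu_tau]
  show T (SF.comp (nu F B ζ hζ) (linTau F τ f)) = -T (SF.comp (nu F B ζ hζ) f)
  rw [h1]
  exact hT _

omit [ProperSpace E] [Module.Finite E V] [TopologicalSpace V] [IsTopologicalAddGroup V]
  [T2Space V] [ContinuousSMul E V] in
private theorem linnu_span (B : SkewH E V) (X : Module.End E V) (v : V)
    (hx : ∀ i : ℕ, B.ip ((X ^ i) v) v = 0) {w : V}
    (hw : w ∈ Submodule.span E (Set.range fun i : ℕ => (X ^ i) v)) : B.ip w v = 0 := by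
  induction hw using Submodule.span_induction with
  | mem w hw =>
    obtain ⟨i, rfl⟩ := hw
    exact hx i
  | zero =>
    have := B.smul_left 0 0 v
    rw [zero_smul, zero_mul] at this
    exact this
  | add a b _ _ ha hb => rw [B.add_left, ha, hb, add_zero]
  | smul c a _ ha => rw [B.smul_left, ha, mul_zero]

private theorem linnu_det {K W : Type*} [Field K] [AddCommGroup W] [Module K W]
    [Module.Finite K W] (U : Submodule K W) (e f : W →ₗ[K] W) (he : U ≤ U.comap e)
    (hf : U ≤ U.comap f) (h1 : ∀ u ∈ U, e u = f u) (h2 : ∀ x, e x - f x ∈ U) :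
    LinearMap.det e = LinearMap.det f := by
  rw [LinearMap.det_eq_det_mul_det U e he, LinearMap.det_eq_det_mul_det U f hf]
  congr 2
  · ext u
    exact h1 u u.2
  · apply Submodule.linearMap_qext
    ext x
    exact (Submodule.Quotient.eq U).2 (h2 x)

theorem nu_char (B : SkewH E V) (ζ : E) (hζ : star ζ = -ζ) (x : SA B × V) (hx : x ∈ Qset B) :
    LinearMap.charpoly (nu F B ζ hζ x).1.1 = LinearMap.charpoly x.1.1 := by
  obtain ⟨X, v⟩ := x
  haveI : Infinite E := Infinite.of_injective (algebraMap F E) (algebraMap F E).injective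
  have hQ : ∀ i : ℕ, B.ip ((X.1 ^ i) v) v = 0 := hx
  apply Polynomial.funext
  intro t
  rw [LinearMap.eval_charpoly, LinearMap.eval_charpoly]
  set U := Submodule.span E (Set.range fun i : ℕ => (X.1 ^ i) v) with hU
  have hvU : v ∈ U := Submodule.subset_span ⟨0, rfl⟩
  have hXU : ∀ u ∈ U, X.1 u ∈ U := by
    intro u hu
    have h1 : U ≤ U.comap X.1 := by
      rw [hU, Submodule.span_le]
      rintro _ ⟨i, rfl⟩
      refine Submodule.subset_span ⟨i + 1, ?_⟩
      show (X.1 ^ (i + 1)) v = X.1 ((X.1 ^ i) v)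
      rw [pow_succ']
      rfl
    exact h1 hu
  have hY : ∀ u ∈ U, (vvs B ζ hζ v).1 u = 0 := by
    intro u hu
    show (ζ * B.ip u v) • v = 0
    rw [linnu_span B X.1 v hQ hu, mul_zero, zero_smul]
  refine linnu_det U _ _ (fun u hu => ?_) (fun u hu => ?_) (fun u hu => ?_) (fun w => ?_)
  · show t • u - (X.1 u + (vvs B ζ hζ v).1 u) ∈ U
    rw [hY u hu, add_zero]
    exact U.sub_mem (U.smul_mem t hu) (hXU u hu)
  · show t • u - X.1 u ∈ U
    exact U.sub_mem (U.smul_mem t hu) (hXU u hu)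
  · show t • u - (X.1 u + (vvs B ζ hζ v).1 u) = t • u - X.1 u
    rw [hY u hu, add_zero]
  · show t • w - (X.1 w + (ζ * B.ip w v) • v) - (t • w - X.1 w) ∈ U
    have : t • w - (X.1 w + (ζ * B.ip w v) • v) - (t • w - X.1 w) = -((ζ * B.ip w v) • v) := by
      abel
    rw [this]
    exact U.neg_mem (U.smul_mem _ hvU)

omit [ProperSpace E] [Module.Finite E V] [TopologicalSpace V] [IsTopologicalAddGroup V]
  [T2Space V] [ContinuousSMul E V] in
private theorem linnu_Q (B : SkewH E V) (X Y : Module.End E V) (v : V)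
    (hY : ∀ w, B.ip w v = 0 → Y w = 0) (hx : ∀ i : ℕ, B.ip ((X ^ i) v) v = 0) :
    ∀ i : ℕ, B.ip (((X + Y) ^ i) v) v = 0 := by
  have h1 : ∀ i : ℕ, ((X + Y) ^ i) v = (X ^ i) v := by
    intro i
    induction i with
    | zero => rfl
    | succ i ih =>
      have h2 : ((X + Y) ^ (i + 1)) v = (X + Y) (((X + Y) ^ i) v) := by rw [pow_succ']; rfl
      have h3 : (X ^ (i + 1)) v = X ((X ^ i) v) := by rw [pow_succ']; rfl
      rw [h2, h3, ih, LinearMap.add_apply, hY _ (hx i), add_zero]
  intro i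
  rw [h1]
  exact hx i

theorem nu_Q (B : SkewH E V) (ζ : E) (hζ : star ζ = -ζ) (x : SA B × V) :
    nu F B ζ hζ x ∈ Qset B ↔ x ∈ Qset B := by
  obtain ⟨X, v⟩ := x
  have hY : ∀ w, B.ip w v = 0 → (vvs B ζ hζ v).1 w = 0 := by
    intro w hw
    show (ζ * B.ip w v) • v = 0
    rw [hw, mul_zero, zero_smul]
  constructor
  · intro h
    have h1 : ∀ i : ℕ, B.ip (((X.1 + (vvs B ζ hζ v).1) ^ i) v) v = 0 := h
    have h2 := linnu_Q B (X.1 + (vvs B ζ hζ v).1) (-(vvs B ζ hζ v).1) v
      (fun w hw => by rw [LinearMap.neg_apply, hY w hw, neg_zero]) h1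
    rw [add_neg_cancel_right] at h2
    exact h2
  · intro h
    exact linnu_Q B X.1 (vvs B ζ hζ v).1 v hY h

private theorem linnu_charcoef (i : ℕ) :
    Continuous (fun X : Module.End E V => (LinearMap.charpoly X).coeff i) := by
  classical
  let b := Module.finBasis E V
  have h1 : ∀ X : Module.End E V, (LinearMap.charpoly X).coeff i =
      MvPolynomial.eval (fun p : Fin (Module.finrank E V) × Fin (Module.finrank E V) =>
        b.repr (X (b p.2)) p.1) ((Matrix.charpoly.univ E (Fin (Module.finrank E V))).coeff i) := by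
    intro X
    rw [← LinearMap.charpoly_toMatrix X b]
    have h2 := Matrix.charpoly.univ_coeff_eval₂Hom (Fin (Module.finrank E V)) (RingHom.id E)
      (fun p : Fin (Module.finrank E V) × Fin (Module.finrank E V) => b.repr (X (b p.2)) p.1) i
    have h3 : (Matrix.of (Function.curry fun p : Fin (Module.finrank E V) ×
        Fin (Module.finrank E V) => b.repr (X (b p.2)) p.1)) = LinearMap.toMatrix b b X := by
      ext a c
      rw [LinearMap.toMatrix_apply]
      rfl
    rw [h3] at h2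
    rw [← h2]
    rfl
  simp only [h1]
  refine (MvPolynomial.continuous_eval _).comp (continuous_pi fun p => ?_)
  exact ((b.coord p.1).continuous_of_finiteDimensional).comp (continuous_end_apply (b p.2))

theorem isClosed_char (B : SkewH E V) (P : Polynomial E) :
    IsClosed {x : SA B × V | LinearMap.charpoly x.1.1 = P} := by
  have h1 : {x : SA B × V | LinearMap.charpoly x.1.1 = P} =
      ⋂ i : ℕ, {x : SA B × V | (LinearMap.charpoly x.1.1).coeff i = P.coeff i} := by
    ext x
    simp only [Set.mem_ofPred_eq, Set.mem_iInter]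
    exact Polynomial.ext_iff
  rw [h1]
  refine isClosed_iInter fun i => isClosed_eq ?_ continuous_const
  exact (linnu_charcoef i).comp (continuous_subtype_val.comp continuous_fst)

theorem continuous_charcoef (i : ℕ) :
    Continuous (fun X : Module.End E V => (LinearMap.charpoly X).coeff i) :=
  linnu_charcoef i

variable (F) in
include F in
private theorem linnu_ipcont (B : SkewH E V) : Continuous (fun q : V × V => B.ip q.1 q.2) := by
  let b := Module.finBasis E V
  have h1 : (fun q : V × V => B.ip q.1 q.2) =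
      fun q => ∑ j, b.repr q.1 j * B.ip (b j) q.2 := by
    funext q
    have h3 : B.lin q.2 q.1 = ∑ j, b.repr q.1 j • B.lin q.2 (b j) := by
      conv_lhs => rw [← b.sum_repr q.1]
      rw [map_sum]
      simp only [map_smul]
    exact h3
  rw [h1]
  refine continuous_finsetSum _ fun j _ => ?_
  exact (((b.coord j).continuous_of_finiteDimensional).comp continuous_fst).mul
    ((continuous_ip_right F B (b j)).comp continuous_snd)

variable (F) in
include F in
private theorem linnu_Qclosed (B : SkewH E V) : IsClosed (Qset B) := by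
  have h1 : Qset B = ⋂ i : ℕ, {x : SA B × V | B.ip ((x.1.1 ^ i) x.2) x.2 = 0} := by
    ext x
    simp only [Set.mem_ofPred_eq, Set.mem_iInter]
    rfl
  rw [h1]
  refine isClosed_iInter fun i => isClosed_eq ?_ continuous_const
  refine (linnu_ipcont F B).comp (Continuous.prodMk ?_ continuous_snd)
  exact continuous_end_eval.comp (((continuous_subtype_val.comp continuous_fst).pow i).prodMk
    continuous_snd)

theorem nu_InD {B : SkewH E V} (ζ : E) (hζ : star ζ = -ζ) (τ : AntiU B) (P : Polynomial E)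
    (T : SF (SA B × V) ℂ →ₗ[ℂ] ℂ) (hT : InD F τ P T) (hQ : SF.SuppOn T (Qset B)) :
    InD F τ P (T ∘ₗ SF.comp (nu F B ζ hζ)) := by
  haveI := lc_V E V
  haveI := td_V F E V
  haveI := lc_SA F B
  haveI := td_SA F B
  refine ⟨nu_inv ζ hζ T hT.inv, nu_anti ζ hζ τ T hT.anti, fun f hf => ?_⟩
  have h1 := suppOn_inter T {x | LinearMap.charpoly x.1.1 = P} (Qset B) (isClosed_char B P)
    (linnu_Qclosed F B) hT.supp hQ
  refine h1 _ fun x hx => ?_
  show f (nu F B ζ hζ x) = 0
  refine hf _ ?_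
  show LinearMap.charpoly (nu F B ζ hζ x).1.1 = P
  rw [nu_char B ζ hζ x hx.2]
  exact hx.1

end

end Pool.Agent.Work.MP_dd0ddf_al.C2
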