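import Pool.Agent.Work.MP_dd0ddf_al.C2.GkOps
import Pool.Agent.Work.MP_dd0ddf_al.C2.DescEx

/-!
# MP_dd0ddf_al, module GkK: compact open subgroups and the projections onto the fixed vectors

`gv_basis`: co_basis (DescEx) for `GV E V` (locally compact, totally disconnected because E is ultrametric: embed End V in E^(n²), compare td_GV in Topo).
`sf_biinv`: sf_unif and gv_basis.
`hOp_eK_fix`: for w fixed by K: `actF 1_K w = ften 1_K w`, so `π(1_K) w = I(1_K) w`, I(1_K) ≠ 0 (haarG_pos).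
`hOp_eK_left`, `hOp_eK_right`: hOp_left, hOp_right and `1_K(k g) = 1_K(g) = 1_K(g k)`.
`hOp_range`: for every f there is a compact open subgroup K with `π k * π(f) = π(f)` and `π(f) * π k = π(f)` for k ∈ K (sf_biinv, hOp_left, hOp_right).
-/

set_option linter.unusedSectionVars false
set_option linter.style.haveILetI false

namespace Pool.Agent.Work.MP_dd0ddf_al.C2

noncomputable section

universe u

variable {E : Type u} [NontriviallyNormedField E] [IsUltrametricDist E] [ProperSpace E]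
variable {V : Type u} [AddCommGroup V] [Module E V] [Module.Finite E V] [TopologicalSpace V]
  [IsTopologicalAddGroup V] [T2Space V] [ContinuousSMul E V]
variable {P : Type*} [AddCommGroup P] [Module ℂ P]

private theorem gkk_inj {X Y : Type*} [TopologicalSpace X] [TopologicalSpace Y]
    [TotallyDisconnectedSpace Y] {f : X → Y} (hf : Continuous f) (hinj : Function.Injective f) :
    TotallyDisconnectedSpace X :=
  ⟨isTotallyDisconnected_of_image hf.continuousOn hinj
    (isTotallyDisconnected_of_totallyDisconnectedSpace _)⟩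

private theorem gkk_td : TotallyDisconnectedSpace (GV E V) := by
  haveI : TotallyDisconnectedSpace V :=
    gkk_inj (Module.finBasis E V).equivFun.toContinuousLinearEquiv.continuous
      (Module.finBasis E V).equivFun.injective
  haveI : TotallyDisconnectedSpace (Module.End E V) :=
    gkk_inj (f := fun f : Module.End E V => (f : V → V)) continuous_induced_dom
      DFunLike.coe_injective
  exact gkk_inj Units.continuous_val Units.val_injective

theorem gv_basis (U : Set (GV E V)) (hU : IsOpen U) (h1 : (1 : GV E V) ∈ U) :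
    ∃ K : Subgroup (GV E V), IsOpen (K : Set (GV E V)) ∧ IsCompact (K : Set (GV E V)) ∧
      (K : Set (GV E V)) ⊆ U := by
  haveI : LocallyCompactSpace (GV E V) := @lc_GV E _ _ starRingOfComm V _ _ _ _ _ _ _
  haveI : SecondCountableTopology (GV E V) := @sc_GV E _ _ starRingOfComm V _ _ _ _ _ _ _
  haveI : TotallyDisconnectedSpace (GV E V) := gkk_td
  obtain ⟨K, hK, hKU⟩ := co_basis U hU h1
  exact ⟨K, hK.1, hK.2, hKU⟩

theorem sf_biinv (f : SF (GV E V) ℂ) : ∃ K : Subgroup (GV E V),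
    IsOpen (K : Set (GV E V)) ∧ IsCompact (K : Set (GV E V)) ∧
      ∀ k ∈ K, ∀ g, f (k * g) = f g ∧ f (g * k) = f g := by
  obtain ⟨U, hU, h1, h⟩ := sf_unif f
  obtain ⟨K, hK, hK', hKU⟩ := gv_basis U hU h1
  exact ⟨K, hK, hK', fun k hk g => h k (hKU hk) g⟩

/-- the normalised characteristic function of a compact open subgroup -/
def eK (K : Subgroup (GV E V)) (hK : IsOpen (K : Set (GV E V)))
    (hK' : IsCompact (K : Set (GV E V))) : SF (GV E V) ℂ :=
  (haarG E V (SF.single (K : Set (GV E V)) hK' hK 1))⁻¹ •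
    SF.single (K : Set (GV E V)) hK' hK 1

theorem hOp_eK_fix (π : GV E V →* Module.End ℂ P) (hπ : SmRep π) (K : Subgroup (GV E V))
    (hK : IsOpen (K : Set (GV E V))) (hK' : IsCompact (K : Set (GV E V))) (w : P)
    (hw : ∀ k ∈ K, π k w = w) : hOp π hπ (eK K hK hK') w = w := by
  have h0 : haarG E V (SF.single (K : Set (GV E V)) hK' hK 1) ≠ 0 := by
    obtain ⟨r, hr, h⟩ := haarG_pos (K : Set (GV E V)) hK' hK ⟨1, K.one_mem⟩
    rw [h]
    exact_mod_cast hr.ne'
  have h1 : actF π hπ (SF.single (K : Set (GV E V)) hK' hK 1) w =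
      ften (SF.single (K : Set (GV E V)) hK' hK 1) w := by
    apply SF.ext
    intro g
    show (SF.single (K : Set (GV E V)) hK' hK (1 : ℂ)) g • π g w =
      (SF.single (K : Set (GV E V)) hK' hK (1 : ℂ)) g • w
    by_cases hg : g ∈ (K : Set (GV E V))
    · rw [hw g hg]
    · rw [SF.single_apply_not_mem _ _ _ _ _ hg, zero_smul, zero_smul]
  rw [eK, map_smul, LinearMap.smul_apply, hOp_apply, h1, vecI_ften, smul_smul, inv_mul_cancel₀ h0,
    one_smul]

private theorem gkk_left (π : GV E V →* Module.End ℂ P) (hπ : SmRep π) (f : SF (GV E V) ℂ)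
    (k : GV E V) (h : ∀ g, f (k⁻¹ * g) = f g) : π k * hOp π hπ f = hOp π hπ f := by
  have h1 := hOp_left π hπ k⁻¹ f
  rw [inv_inv] at h1
  rw [← h1]
  congr 1
  exact SF.ext h

private theorem gkk_right (π : GV E V →* Module.End ℂ P) (hπ : SmRep π) (f : SF (GV E V) ℂ)
    (k : GV E V) (h : ∀ g, f (g * k⁻¹) = f g) : hOp π hπ f * π k = hOp π hπ f := by
  have h1 := hOp_right π hπ k⁻¹ f
  rw [inv_inv] at h1
  rw [← h1]
  congr 1
  exact SF.ext h

private theorem gkk_eK_inv (K : Subgroup (GV E V)) (hK : IsOpen (K : Set (GV E V)))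
    (hK' : IsCompact (K : Set (GV E V))) (g g' : GV E V) (h : g ∈ K ↔ g' ∈ K) :
    eK K hK hK' g = eK K hK hK' g' := by
  show (haarG E V (SF.single (K : Set (GV E V)) hK' hK 1))⁻¹ •
      (SF.single (K : Set (GV E V)) hK' hK (1 : ℂ)) g =
    (haarG E V (SF.single (K : Set (GV E V)) hK' hK 1))⁻¹ •
      (SF.single (K : Set (GV E V)) hK' hK (1 : ℂ)) g'
  by_cases hg : g ∈ (K : Set (GV E V))
  · rw [SF.single_apply_mem _ _ _ _ _ hg, SF.single_apply_mem _ _ _ _ _ (h.mp hg)]
  · rw [SF.single_apply_not_mem _ _ _ _ _ hg,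
      SF.single_apply_not_mem _ _ _ _ _ (fun h' => hg (h.mpr h'))]

theorem hOp_eK_left (π : GV E V →* Module.End ℂ P) (hπ : SmRep π) (K : Subgroup (GV E V))
    (hK : IsOpen (K : Set (GV E V))) (hK' : IsCompact (K : Set (GV E V))) (k : GV E V)
    (hk : k ∈ K) : π k * hOp π hπ (eK K hK hK') = hOp π hπ (eK K hK hK') :=
  gkk_left π hπ _ k fun _ => gkk_eK_inv K hK hK' _ _
    (K.mul_mem_cancel_left (K.inv_mem hk))

theorem hOp_eK_right (π : GV E V →* Module.End ℂ P) (hπ : SmRep π) (K : Subgroup (GV E V))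
    (hK : IsOpen (K : Set (GV E V))) (hK' : IsCompact (K : Set (GV E V))) (k : GV E V)
    (hk : k ∈ K) : hOp π hπ (eK K hK hK') * π k = hOp π hπ (eK K hK hK') :=
  gkk_right π hπ _ k fun _ => gkk_eK_inv K hK hK' _ _
    (K.mul_mem_cancel_right (K.inv_mem hk))

theorem hOp_range (π : GV E V →* Module.End ℂ P) (hπ : SmRep π) (f : SF (GV E V) ℂ) :
    ∃ K : Subgroup (GV E V), IsOpen (K : Set (GV E V)) ∧ IsCompact (K : Set (GV E V)) ∧
      ∀ k ∈ K, π k * hOp π hπ f = hOp π hπ f ∧ hOp π hπ f * π k = hOp π hπ f := by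
  obtain ⟨K, hK, hK', h⟩ := sf_biinv f
  exact ⟨K, hK, hK', fun k hk => ⟨gkk_left π hπ f k fun g => (h _ (K.inv_mem hk) g).1,
    gkk_right π hπ f k fun g => (h _ (K.inv_mem hk) g).2⟩⟩

/-- every vector is fixed by a compact open subgroup -/
theorem vec_fix (π : GV E V →* Module.End ℂ P) (hπ : SmRep π) (w : P) :
    ∃ K : Subgroup (GV E V), IsOpen (K : Set (GV E V)) ∧ IsCompact (K : Set (GV E V)) ∧
      ∀ k ∈ K, π k w = w := by
  obtain ⟨U, hU, h1, h⟩ := hπ w
  obtain ⟨K, hK, hK', hKU⟩ := gv_basis U hU h1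
  exact ⟨K, hK, hK', fun k hk => h k (hKU hk)⟩

theorem avg_zero (π : GV E V →* Module.End ℂ P) (hπ : SmRep π) (ξ : Module.Dual ℂ P)
    (h : ∀ f, avg π hπ f ξ = 0) : ξ = 0 := by
  ext w
  obtain ⟨K, hK, hK', hw⟩ := vec_fix π hπ w
  have h1 := h (SF.comp (Homeomorph.inv (GV E V)) (eK K hK hK'))
  have h2 : (avg π hπ (SF.comp (Homeomorph.inv (GV E V)) (eK K hK hK')) ξ).1 w = 0 := by
    rw [h1]
    rfl
  rw [avg_apply] at h2
  have h3 : SF.comp (Homeomorph.inv (GV E V)) (SF.comp (Homeomorph.inv (GV E V)) (eK K hK hK')) =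
      eK K hK hK' := by
    apply SF.ext
    intro g
    show eK K hK hK' (g⁻¹)⁻¹ = _
    rw [inv_inv]
  rw [h3, hOp_eK_fix π hπ K hK hK' w hw] at h2
  exact h2

/-- `avg f ξ` depends only on the restriction of `ξ` to the vectors fixed by a suitable `K` -/
theorem avg_K (π : GV E V →* Module.End ℂ P) (hπ : SmRep π) (f : SF (GV E V) ℂ) :
    ∃ K : Subgroup (GV E V), IsOpen (K : Set (GV E V)) ∧
      ∀ ξ : Module.Dual ℂ P, (∀ w, (∀ k ∈ K, π k w = w) → ξ w = 0) → avg π hπ f ξ = 0 := by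
  obtain ⟨K, hK, hK', h⟩ := hOp_range π hπ (SF.comp (Homeomorph.inv (GV E V)) f)
  refine ⟨K, hK, fun ξ hξ => ?_⟩
  apply Subtype.ext
  ext w
  rw [avg_apply]
  refine hξ _ fun k hk => ?_
  exact congrArg (fun A : Module.End ℂ P => A w) (h k hk).1

end

end Pool.Agent.Work.MP_dd0ddf_al.C2
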