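import Pool.Agent.Work.MP_dd0ddf_al.C2.GDefs
import Pool.Agent.Work.MP_dd0ddf_al.C2.FdCount
import Pool.Agent.Work.MP_dd0ddf_al.C2.CUPos
import Pool.Agent.Work.MP_dd0ddf_al.C2.CycChar
import Pool.Agent.Work.MP_dd0ddf_al.C2.CycCount
import Pool.Agent.Work.MP_dd0ddf_al.C2.DprimeMain

/-!
# MP_dd0ddf_al, module GrpA: a bad factor of odd multiplicity: T = 0

`gp_countable`: from `countable_orbits` for `P.map`: a countable set `s0` of self-adjoint operators; for `Y ∈ s0` for which there is `g` with `g g^* = Y` choose one, `g_Y`.  For `x ∈ G_P`: `x x^* = h Y h⁻¹`, so `(h⁻¹ x)(h⁻¹ x)^* = Y`, `g_Y g_Y^* = Y`, `k = g_Y⁻¹ h⁻¹ x ∈ U(V)`,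
`x = h g_Y k` = act (h, k⁻¹) g_Y.
`grpA`: `orbit_principle` for `gpC B P`, `wRep W`.  For `x = g`: cyclic decomposition `D` of `s = g g^*` (exists_cycD), `cycD_odd` gives a block `i` with `q_i = q`, `k_i` odd (Bad implies irreducible over F); apply `dprime` with `e = D.e i`, `U = cyc s e`.  For `c, c', f` as in `hlam`: c commutes with s
(U and U^⊥ are s-stable), so `c ∈ CU B (sg B g) U`, `(c, c') ∈ stab` (`c g c'⁻¹ = g`), `lam (l c (r c' φ)) = lam (β(c,c') φ) = δ((c,c')) lam φ` and `δ((c,c')) = 1` by `cuPos` for the pull back of δ along the continuous homomorphism `CU → stab`, `c ↦ (c, g⁻¹ c g)`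
(g⁻¹ c g is unitary because c commutes with g g^*).
-/

set_option linter.unusedSectionVars false
set_option linter.style.haveILetI false

namespace Pool.Agent.Work.MP_dd0ddf_al.C2

noncomputable section

universe u

variable {F E : Type u} [NontriviallyNormedField F] [IsUltrametricDist F] [ProperSpace F]
  [CharP F 2] [NontriviallyNormedField E] [NormedAlgebra F E] [ProperSpace E] [StarRing E]
  [QExt F E] [Dl E] [MeasurableSpace E] [BorelSpace E]
variable {V : Type u} [AddCommGroup V] [Module E V] [Module.Finite E V] [TopologicalSpace V]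
  [IsTopologicalAddGroup V] [T2Space V] [ContinuousSMul E V]

private theorem grpa_mem (B : SkewH E V) (g : GV E V) (h : adj B g.1 * g.1 = 1) :
    g ∈ UU B := by
  intro v w
  have h1 : adj B g.1 (g.1 w) = w := congrArg (fun f : Module.End E V => f w) h
  rw [adj_spec, h1]

/-- the adjoint of an element of `GL(V)` -/
private def grpaAdj (B : SkewH E V) (g : GV E V) : GV E V where
  val := adj B g.1
  inv := adj B g⁻¹.1
  val_inv := by
    have h1 : g⁻¹.1 * g.1 = 1 := g.inv_mul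
    rw [← adj_mul, h1, adj_one]
  inv_val := by
    have h1 : g.1 * g⁻¹.1 = 1 := g.mul_inv
    rw [← adj_mul, h1, adj_one]

private theorem grpa_quot (B : SkewH E V) (a b : GV E V)
    (h : a.1 * adj B a.1 = b.1 * adj B b.1) : a⁻¹ * b ∈ UU B := by
  apply grpa_mem
  have h1 : a * grpaAdj B a = b * grpaAdj B b := Units.ext h
  have h2 : adj B (a⁻¹ * b).1 = (grpaAdj B b * (grpaAdj B a)⁻¹).1 := by
    rw [Units.val_mul, adj_mul]
    rfl
  rw [h2, ← Units.val_mul]
  have h3 : grpaAdj B b * (grpaAdj B a)⁻¹ * (a⁻¹ * b) = 1 := by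
    calc grpaAdj B b * (grpaAdj B a)⁻¹ * (a⁻¹ * b)
        = grpaAdj B b * (a * grpaAdj B a)⁻¹ * b := by group
      _ = grpaAdj B b * (b * grpaAdj B b)⁻¹ * b := by rw [h1]
      _ = 1 := by group
  rw [h3, Units.val_one]

theorem gp_countable (B : SkewH E V) (P : Polynomial F) : ∃ s : Set (GP B P), s.Countable ∧
    ∀ x : GP B P, ∃ y ∈ s, ∃ γ, (gpC B P).act γ y = x := by
  classical
  obtain ⟨s0, hs0, hs⟩ := countable_orbits F B (P.map (algebraMap F E))
  let c : {Y : SA B // ∃ g : GP B P, sg B g.1 = Y} → GP B P := fun Y => Y.2.choose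
  have hc : ∀ Y, sg B (c Y).1 = Y.1 := fun Y => Y.2.choose_spec
  refine ⟨c '' (Subtype.val ⁻¹' s0), (hs0.preimage Subtype.val_injective).image c, ?_⟩
  intro x
  obtain ⟨Y, hY, -, h, hh⟩ := hs (sg B x.1) x.2
  have h1 : sg B ((gC B).act (h⁻¹, 1) x.1) = Y := by
    rw [sg_act, ← hh]
    apply Subtype.ext
    show h.1⁻¹.1 * (h.1.1 * Y.1 * h.1⁻¹.1) * h.1.1 = Y.1
    have e1 : h.1⁻¹.1 * h.1.1 = 1 := h.1.inv_mul
    calc h.1⁻¹.1 * (h.1.1 * Y.1 * h.1⁻¹.1) * h.1.1
        = (h.1⁻¹.1 * h.1.1) * Y.1 * (h.1⁻¹.1 * h.1.1) := by simp only [mul_assoc]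
      _ = Y.1 := by rw [e1, one_mul, mul_one]
  let Y' : {Y : SA B // ∃ g : GP B P, sg B g.1 = Y} :=
    ⟨Y, ⟨(gC B).act (h⁻¹, 1) x.1, gp_gC B P _ _ x.2⟩, h1⟩
  refine ⟨c Y', ⟨Y', hY, rfl⟩, ?_⟩
  have h2 : sg B (c Y').1 = sg B ((gC B).act (h⁻¹, 1) x.1) := by
    rw [hc, h1]
  have h3 := grpa_quot B (c Y').1 ((gC B).act (h⁻¹, 1) x.1) (congrArg Subtype.val h2)
  refine ⟨(h, (⟨_, h3⟩ : UU B)⁻¹), ?_⟩
  apply Subtype.ext
  show h.1 * (c Y').1 * (((c Y').1⁻¹ * (h.1⁻¹ * x.1 * (1 : GV E V)⁻¹))⁻¹)⁻¹ = x.1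
  group

/-- `g⁻¹ c g` is unitary if `c` commutes with `g g^*` -/
theorem conj_unitary (B : SkewH E V) (g : GV E V) (c : UU B)
    (hc : c.1.1 * (sg B g).1 = (sg B g).1 * c.1.1) : g⁻¹ * c.1 * g ∈ UU B := by
  rw [mul_assoc]
  apply grpa_quot
  rw [Units.val_mul, adj_mul, uu_adj]
  have e1 : c.1.1 * c.1⁻¹.1 = 1 := c.1.mul_inv
  have hc' : c.1.1 * (g.1 * adj B g.1) = (g.1 * adj B g.1) * c.1.1 := hc
  calc g.1 * adj B g.1 = g.1 * adj B g.1 * (c.1.1 * c.1⁻¹.1) := by rw [e1, mul_one]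
    _ = (g.1 * adj B g.1) * c.1.1 * c.1⁻¹.1 := by simp only [mul_assoc]
    _ = c.1.1 * (g.1 * adj B g.1) * c.1⁻¹.1 := by rw [hc']
    _ = c.1.1 * g.1 * (adj B g.1 * c.1⁻¹.1) := by simp only [mul_assoc]

/-- an operator equal to `f(X)` on `U` and to `1` on the complement commutes with `X` -/
private theorem grpa_commute (B : SkewH E V) (X : SA B) (e : V) (hnd : NDeg B (cyc X.1 e))
    (c : Module.End E V) (f : Polynomial E)
    (h1 : ∀ v ∈ cyc X.1 e, c v = Polynomial.aeval X.1 f v)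
    (h2 : ∀ v ∈ orth B (cyc X.1 e), c v = v) : c * X.1 = X.1 * c := by
  have hst : ∀ v ∈ cyc X.1 e, X.1 v ∈ cyc X.1 e := by
    intro v hv
    obtain ⟨g, rfl⟩ := (mem_cyc X.1 e v).1 hv
    refine (mem_cyc X.1 e _).2 ⟨Polynomial.X * g, ?_⟩
    rw [map_mul, Polynomial.aeval_X]
    rfl
  have hso : ∀ v ∈ orth B (cyc X.1 e), X.1 v ∈ orth B (cyc X.1 e) := by
    intro v hv u hu
    rw [X.2]
    exact hv _ (hst u hu)
  have hcomm : Polynomial.aeval X.1 f * X.1 = X.1 * Polynomial.aeval X.1 f := by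
    have h3 : Polynomial.aeval X.1 (f * Polynomial.X) = Polynomial.aeval X.1 (Polynomial.X * f) := by
      rw [mul_comm]
    rwa [map_mul, map_mul, Polynomial.aeval_X] at h3
  ext v
  show c (X.1 v) = X.1 (c v)
  have hv : v = prO B _ hnd v + (v - prO B _ hnd v) := by abel
  have hu := prO_mem B _ hnd v
  have hw := sub_prO_mem B _ hnd v
  rw [hv, map_add, map_add, map_add, map_add, h1 _ (hst _ hu), h1 _ hu, h2 _ (hso _ hw),
    h2 _ hw]
  congr 1
  exact LinearMap.congr_fun hcomm _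

theorem grpA {B : SkewH E V} {p : PChar F} (W : WeilRep B p) (q P' : Polynomial F) (m : ℕ)
    (hq : Bad F E q) (hm : Odd m) (hnd : ¬ q ∣ P') : PGood W (q ^ m * P') := by
  classical
  haveI := lc_UU F B
  haveI := td_UU F B
  haveI := lc_GP B (q ^ m * P')
  haveI := td_GP B (q ^ m * P')
  intro τ T hT
  obtain ⟨s, hs, hcov⟩ := gp_countable B (q ^ m * P')
  refine orbit_principle (gpC B (q ^ m * P')) (wRep W) s hs hcov ?_ T hT.inv
  rintro g lam ⟨δ, hδ⟩
  have hirr : Irreducible q := Polynomial.Monic.irreducible_of_irreducible_map _ q hq.1 hq.2.1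
  obtain ⟨D⟩ := exists_cycD F B (sg B g.1)
  obtain ⟨i, hi, hodd⟩ := cycD_odd D q P' m hq.1 hirr hm hnd g.2
  have hann : ∀ f : Polynomial E, Polynomial.aeval (sg B g.1).1 f (D.e i) = 0 ↔
      (q.map (algebraMap F E)) ^ (D.k i) ∣ f := by
    intro f
    rw [D.ann, hi]
  let U : Submodule E V := cyc (sg B g.1).1 (D.e i)
  have hU : NDeg B U := D.nd i
  refine dprime W g.1 (D.e i) q (D.k i) hodd hq hann U rfl hU lam ?_
  intro c c' f h1 h2 h3 φ
  -- the homomorphism from the group `CU` to the stabiliser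
  have hstab : ∀ a : CU B (sg B g.1) U,
      ((a.1, ⟨g.1⁻¹ * a.1.1 * g.1, conj_unitary B g.1 a.1 a.2.1⟩) : UU B × UU B) ∈
        (gpC B (q ^ m * P')).stab g := by
    intro a
    apply Subtype.ext
    show a.1.1 * g.1 * (g.1⁻¹ * a.1.1 * g.1)⁻¹ = g.1
    group
  let j : CU B (sg B g.1) U →* (gpC B (q ^ m * P')).stab g :=
    { toFun := fun a => ⟨_, hstab a⟩
      map_one' := by
        apply Subtype.ext
        refine Prod.ext rfl (Subtype.ext ?_)
        show g.1⁻¹ * (1 : GV E V) * g.1 = 1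
        group
      map_mul' := fun a b => by
        apply Subtype.ext
        refine Prod.ext rfl (Subtype.ext ?_)
        show g.1⁻¹ * (a.1.1 * b.1.1) * g.1 = (g.1⁻¹ * a.1.1 * g.1) * (g.1⁻¹ * b.1.1 * g.1)
        group }
  have hj : Continuous j := by
    have c0 : Continuous fun a : CU B (sg B g.1) U => a.1.1 :=
      continuous_subtype_val.comp continuous_subtype_val
    refine Continuous.subtype_mk ?_ _
    refine continuous_subtype_val.prodMk ?_
    exact ((continuous_const.mul c0).mul continuous_const).subtype_mk _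
  have hcomm : c.1.1 * (sg B g.1).1 = (sg B g.1).1 * c.1.1 :=
    grpa_commute B (sg B g.1) (D.e i) hU c.1.1 f h1 h2
  let a : CU B (sg B g.1) U := ⟨c, hcomm, h2⟩
  have h4 := cuPos B (sg B g.1) (D.e i) q (D.k i) hq.1 hq.2.1 hann hU (δ.comap j hj) a
  have h5 : δ.δ (j a) = 1 := h4
  have h6 := hδ (j a) φ
  rw [h5] at h6
  have h7 : (j a).1 = (c, c') := Prod.ext rfl (Subtype.ext h3.symm)
  rw [h7] at h6
  refine Eq.trans ?_ (h6.trans ?_)
  · rfl
  · rw [Complex.ofReal_one, one_mul]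

end

end Pool.Agent.Work.MP_dd0ddf_al.C2
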