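import Pool.Agent.Work.MP_dd0ddf_al.C2.LinAll
import Pool.Agent.Work.MP_dd0ddf_al.C2.LinTau

/-!
# MP_dd0ddf_al, module LinMain: the linear theorem A(V) (blueprint section 3)

Every functional on `SF (SA B × V) ℂ` invariant under `U(V)` is invariant under `τ`.
-/

set_option linter.unusedSectionVars false
set_option linter.style.haveILetI false

namespace Pool.Agent.Work.MP_dd0ddf_al.C2

noncomputable section

universe u

variable {F E : Type u} [NontriviallyNormedField F] [IsUltrametricDist F] [ProperSpace F]
  [CharP F 2] [NontriviallyNormedField E] [NormedAlgebra F E] [ProperSpace E] [StarRing E]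
  [QExt F E]
variable {V : Type u} [AddCommGroup V] [Module E V] [Module.Finite E V] [TopologicalSpace V]
  [IsTopologicalAddGroup V] [T2Space V] [ContinuousSMul E V]

/-- **linear theorem** -/
theorem linear_thm (B : SkewH E V) (τ : AntiU B) (T : SF (SA B × V) ℂ →ₗ[ℂ] ℂ)
    (hT : ∀ (h : UU B) (f : SF (SA B × V) ℂ), T (linAct B h f) = T f)
    (f : SF (SA B × V) ℂ) : T (linTau F τ f) = T f :=
  lin_of_good (lin_all F E _ V B le_rfl) τ T hT f

end

end Pool.Agent.Work.MP_dd0ddf_al.C2
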