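import Pool.Agent.Work.MP_dd0ddf_al.C2.GrpC1
import Pool.Agent.Work.MP_dd0ddf_al.C2.BlkSpan
import Pool.Agent.Work.MP_dd0ddf_al.C2.GHyp

/-!
# MP_dd0ddf_al, module GrpC2: case P = q^m P': the product argument

`grpC2`: choose `τ` preserving U (orthogonal bases of U and U^⊥: exists_tau on both, direct sum), so commuting with `X0`.  `S = S' ∘ pull (blk)` with `S'` on `SF (GV U × GV U^⊥) (SF V)` (blk_emb, blk_range, supp_on_factor).  δ is trivial on the images of `UU B1 × UU B1` and `UU B2 × UU B2`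
(noPos_prod and continuity of extU).  With `W1, W2` from `weil_sub, weil_sub'`: for fixed `f2` the functional `f1 ↦ S' (f1 ⊠ f2)` is `GInv W1`: (W.act (extU k) (extU k') G) ∘ blk for G ∘ blk = f1 ⊠ f2 equals (W1.act k k' f1) ⊠ f2 (blk_ext1, the formulas in weil_sub).
So by `group_of_good` it is invariant under `Theta F (tauRes τ U)`; similarly in the second variable; hence `S' ((Θ1 f1) ⊠ (Θ2 f2)) = S' (f1 ⊠ f2)`; and `(Theta F τ G) ∘ blk = (Θ1 f1) ⊠ (Θ2 f2)` (blk_th, tneg_tens).  With ext2_span: `S (Theta F τ G) = S G` for all G; so `(1 + c) S = 0`.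
`grpC`: `e` from IsCoprime; `ginv_split` with `Y = YC`, yC_props, grpC1, grpC2 for `U = range X0` (prj_ndeg), `dim U = m deg q < n` and `dim U^⊥ = deg P' < n` (finrank_orth).
-/

set_option linter.unusedSectionVars false
set_option linter.style.haveILetI false

namespace Pool.Agent.Work.MP_dd0ddf_al.C2

noncomputable section

universe u

variable {F E : Type u} [NontriviallyNormedField F] [IsUltrametricDist F] [ProperSpace F]
  [CharP F 2] [NontriviallyNormedField E] [NormedAlgebra F E] [ProperSpace E] [StarRing E]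
  [QExt F E] [Dl E] [MeasurableSpace E] [BorelSpace E]
variable {V : Type u} [AddCommGroup V] [Module E V] [Module.Finite E V] [TopologicalSpace V]
  [IsTopologicalAddGroup V] [T2Space V] [ContinuousSMul E V]

private theorem grpc2_zl (B : SkewH E V) (w : V) : B.ip 0 w = 0 := by
  have h := B.smul_left 0 0 w
  rwa [zero_smul, zero_mul] at h

private theorem grpc2_pr (B : SkewH E V) (U : Submodule E V) (hU : NDeg B U) (u : U)
    (w : orth B U) : prO B U hU ((u : V) + (w : V)) = u := by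
  rw [map_add, prO_of_mem B U hU u.2, prO_of_orth B U hU w.2, add_zero]

private theorem grpc2_p1 (B : SkewH E V) (U : Submodule E V) (hU : NDeg B U) (u : U)
    (w : orth B U) :
    (⟨prO B U hU ((u : V) + (w : V)), prO_mem B U hU _⟩ : U) = u :=
  Subtype.ext (grpc2_pr B U hU u w)

private theorem grpc2_p2 (B : SkewH E V) (U : Submodule E V) (hU : NDeg B U) (u : U)
    (w : orth B U) :
    (⟨((u : V) + (w : V)) - prO B U hU ((u : V) + (w : V)), sub_prO_mem B U hU _⟩ :
      orth B U) = w := by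
  apply Subtype.ext
  show ((u : V) + (w : V)) - prO B U hU ((u : V) + (w : V)) = w
  rw [grpc2_pr, add_sub_cancel_left]

/-- an anti-unitary involution preserving `U` -/
private theorem grpc2_tau (B : SkewH E V) (U : Submodule E V) (hU : NDeg B U)
    (τ1 : AntiU (B.restrict U hU)) (τ2 : AntiU (B.restrict (orth B U) (ndeg_orth B U hU))) :
    ∃ τ : AntiU B, (∀ u ∈ U, τ.t u ∈ U) ∧ conjτ τ (prO B U hU) = prO B U hU := by
  let t : V → V := fun v => (τ1.t ⟨prO B U hU v, prO_mem B U hU v⟩ : V) +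
    (τ2.t ⟨v - prO B U hU v, sub_prO_mem B U hU v⟩ : V)
  have ht : ∀ (u : U) (w : orth B U), t ((u : V) + (w : V)) = (τ1.t u : V) + (τ2.t w : V) := by
    intro u w
    show (τ1.t ⟨prO B U hU ((u : V) + (w : V)), _⟩ : V) +
      (τ2.t ⟨((u : V) + (w : V)) - prO B U hU ((u : V) + (w : V)), _⟩ : V) = _
    rw [grpc2_p1, grpc2_p2]
  have hdec : ∀ v : V, ∃ (u : U) (w : orth B U), v = (u : V) + (w : V) := fun v =>
    ⟨⟨prO B U hU v, prO_mem B U hU v⟩, ⟨v - prO B U hU v, sub_prO_mem B U hU v⟩,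
      (add_sub_cancel _ _).symm⟩
  have hort : ∀ (u : U) (w : orth B U), B.ip (w : V) (u : V) = 0 := fun u w => w.2 _ u.2
  have hort' : ∀ (u : U) (w : orth B U), B.ip (u : V) (w : V) = 0 := fun u w => by
    rw [B.skew (w : V), hort, star_zero, neg_zero]
  refine ⟨{ t := t
            add := fun v v' => ?_
            smul := fun a v => ?_
            ip := fun v v' => ?_
            inv := fun v => ?_ }, fun u hu => ?_, ?_⟩
  · obtain ⟨u, w, rfl⟩ := hdec v
    obtain ⟨u', w', rfl⟩ := hdec v'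
    have e1 : (u : V) + (w : V) + ((u' : V) + (w' : V)) =
        ((u + u' : U) : V) + ((w + w' : orth B U) : V) := by
      rw [Submodule.coe_add, Submodule.coe_add]
      abel
    rw [e1, ht, ht, ht, τ1.add, τ2.add, Submodule.coe_add, Submodule.coe_add]
    abel
  · obtain ⟨u, w, rfl⟩ := hdec v
    have e1 : a • ((u : V) + (w : V)) = ((a • u : U) : V) + ((a • w : orth B U) : V) := by
      rw [Submodule.coe_smul, Submodule.coe_smul, smul_add]
    rw [e1, ht, ht, τ1.smul, τ2.smul, Submodule.coe_smul, Submodule.coe_smul, smul_add]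
  · obtain ⟨u, w, rfl⟩ := hdec v
    obtain ⟨u', w', rfl⟩ := hdec v'
    have h1 : B.ip (τ1.t u : V) (τ1.t u' : V) = B.ip (u' : V) (u : V) := τ1.ip u u'
    have h2 : B.ip (τ2.t w : V) (τ2.t w' : V) = B.ip (w' : V) (w : V) := τ2.ip w w'
    rw [ht, ht]
    simp only [B.add_left, B.add_right, hort, hort', h1, h2, add_zero, zero_add]
  · obtain ⟨u, w, rfl⟩ := hdec v
    show t (t ((u : V) + (w : V))) = _
    rw [ht, τ1.inv, τ2.inv]
    exact add_sub_cancel _ _
  · show t u ∈ U
    have h1 : u = ((⟨u, hu⟩ : U) : V) + ((0 : orth B U) : V) := by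
      rw [Submodule.coe_zero, add_zero]
    rw [h1, ht]
    have h2 : τ2.t 0 = 0 := by
      have h3 := τ2.smul 0 0
      rwa [zero_smul, star_zero, zero_smul] at h3
    rw [h2, Submodule.coe_zero, add_zero]
    exact (τ1.t ⟨u, hu⟩).2
  · ext v
    show t (prO B U hU (t v)) = prO B U hU v
    obtain ⟨u, w, rfl⟩ := hdec v
    rw [ht, grpc2_pr, grpc2_pr]
    have h1 : ((τ1.t u : U) : V) = ((τ1.t u : U) : V) + ((0 : orth B U) : V) := by
      rw [Submodule.coe_zero, add_zero]
    have h2 : τ2.t 0 = 0 := by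
      have h3 := τ2.smul 0 0
      rwa [zero_smul, star_zero, zero_smul] at h3
    rw [h1, ht, τ1.inv, h2, Submodule.coe_zero, add_zero]

theorem grpC2 {B : SkewH E V} {p : PChar F} (W : WeilRep B p) (U : Submodule E V)
    (hU : NDeg B U) (X₀ : SA B) (hX₀ : X₀.1 = prO B U hU)
    (hg1 : ∀ W1 : WeilRep (B.restrict U hU) p, GrpGood W1)
    (hg2 : ∀ W2 : WeilRep (B.restrict (orth B U) (ndeg_orth B U hU)) p, GrpGood W2)
    (S : SF (GV E V) (SF V ℂ) →ₗ[ℂ] ℂ)
    (h1 : SF.SuppOn S {g | g.1 * X₀.1 = X₀.1 * g.1})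
    (h2 : ∃ δ : PosChar (centX B X₀ × centX B X₀), ∀ (h₁ h₂ : centX B X₀)
        (G : SF (GV E V) (SF V ℂ)), S (W.act h₁.1 h₂.1 G) = δ.δ (h₁, h₂) * S G)
    (h3 : ∀ τ : AntiU B, conjτ τ X₀.1 = X₀.1 → ∃ c : ℝ, 0 < c ∧
      ∀ G : SF (GV E V) (SF V ℂ), S (Theta F τ G) = -(c : ℂ) * S G) : S = 0 := by
  classical
  obtain ⟨τ1⟩ := exists_tau (B.restrict U hU) (QExt.nontriv (F := F) (E := E))
  obtain ⟨τ2⟩ := exists_tau (B.restrict (orth B U) (ndeg_orth B U hU))
    (QExt.nontriv (F := F) (E := E))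
  obtain ⟨τ, hτ, hτX⟩ := grpc2_tau B U hU τ1 τ2
  obtain ⟨δ, hδ⟩ := h2
  haveI := td_GV F E V
  have hJ := blk_emb F B U hU
  -- the functional on the blocks
  obtain ⟨S', hS'⟩ : ∃ S' : SF (GV E U × GV E (orth B U)) (SF V ℂ) →ₗ[ℂ] ℂ,
      ∀ G, S G = S' (SF.pull (blk B U hU) hJ G) := by
    have hs := SF.pull_surjective (B := SF V ℂ) (blk B U hU) hJ
    let r : SF (GV E V) (SF V ℂ) →ₗ[ℂ] SF (GV E U × GV E (orth B U)) (SF V ℂ) :=
      SF.pull (blk B U hU) hJ
    have hker : ∀ f f' : SF (GV E V) (SF V ℂ), r f = r f' → S f = S f' := by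
      intro f f' h
      rw [← sub_eq_zero, ← map_sub]
      apply h1
      intro g hg
      have hg' : g.1 * prO B U hU = prO B U hU * g.1 := by
        rw [← hX₀]
        exact hg
      obtain ⟨a, rfl⟩ := (blk_range B U hU g).1 hg'
      have h2 : f (blk B U hU a) = f' (blk B U hU a) :=
        congrArg (fun f : SF (GV E U × GV E (orth B U)) (SF V ℂ) => f a) h
      show f (blk B U hU a) - f' (blk B U hU a) = 0
      rw [h2, sub_self]
    have hinv : ∀ g, r (Function.surjInv hs g) = g := Function.surjInv_eq hs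
    refine ⟨{ toFun := fun g => S (Function.surjInv hs g)
              map_add' := ?_
              map_smul' := ?_ }, ?_⟩
    · intro g g'
      rw [← map_add]
      apply hker
      rw [hinv, map_add, hinv, hinv]
    · intro c g
      rw [RingHom.id_apply, ← map_smul]
      apply hker
      rw [hinv, map_smul, hinv]
    · intro f
      change S f = S (Function.surjInv hs (r f))
      apply hker
      rw [hinv]
  have hcent : ∀ a : GV E U × GV E (orth B U), ∀ k : UU B, k.1 = blk B U hU a →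
      k ∈ centX B X₀ := by
    intro a k hk
    show k.1.1 * X₀.1 = X₀.1 * k.1.1
    rw [hX₀]
    exact (blk_range B U hU k.1).2 ⟨a, hk.symm⟩
  -- invariance under the isometries of `U`
  have hinv1 : ∀ (k k' : UU (B.restrict U hU)) (G : SF (GV E V) (SF V ℂ)),
      S (W.act (extU B U hU k) (extU B U hU k') G) = S G := by
    intro k k' G
    let j0 : UU (B.restrict U hU) →* centX B X₀ :=
      { toFun := fun k => ⟨extU B U hU k, hcent _ _ (blk_ext1 B U hU k)⟩
        map_one' := Subtype.ext (map_one (extU B U hU))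
        map_mul' := fun a b => Subtype.ext (map_mul (extU B U hU) a b) }
    have hj0 : Continuous j0 := (continuous_extU B U hU).subtype_mk _
    have h4 := noPos_prod F F (B.restrict U hU) (B.restrict U hU)
      (δ.comap (MonoidHom.prodMap j0 j0) ((hj0.comp continuous_fst).prodMk
        (hj0.comp continuous_snd))) (k, k')
    have h5 : δ.δ (j0 k, j0 k') = 1 := h4
    have h6 := hδ (j0 k) (j0 k') G
    rw [h5, Complex.ofReal_one, one_mul] at h6
    exact h6
  have hinv2 : ∀ (k k' : UU (B.restrict (orth B U) (ndeg_orth B U hU)))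
      (G : SF (GV E V) (SF V ℂ)),
      S (W.act (extU B (orth B U) (ndeg_orth B U hU) k)
        (extU B (orth B U) (ndeg_orth B U hU) k') G) = S G := by
    intro k k' G
    let j0 : UU (B.restrict (orth B U) (ndeg_orth B U hU)) →* centX B X₀ :=
      { toFun := fun k => ⟨extU B (orth B U) (ndeg_orth B U hU) k,
          hcent _ _ (blk_ext2 B U hU k)⟩
        map_one' := Subtype.ext (map_one (extU B (orth B U) (ndeg_orth B U hU)))
        map_mul' := fun a b =>
          Subtype.ext (map_mul (extU B (orth B U) (ndeg_orth B U hU)) a b) }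
    have hj0 : Continuous j0 :=
      (continuous_extU B (orth B U) (ndeg_orth B U hU)).subtype_mk _
    have h4 := noPos_prod F F (B.restrict (orth B U) (ndeg_orth B U hU))
      (B.restrict (orth B U) (ndeg_orth B U hU))
      (δ.comap (MonoidHom.prodMap j0 j0) ((hj0.comp continuous_fst).prodMk
        (hj0.comp continuous_snd))) (k, k')
    have h5 : δ.δ (j0 k, j0 k') = 1 := h4
    have h6 := hδ (j0 k) (j0 k') G
    rw [h5, Complex.ofReal_one, one_mul] at h6
    exact h6
  obtain ⟨W1, hl1, hr1⟩ := weil_sub W U hU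
  obtain ⟨W2, hl2, hr2⟩ := weil_sub' W U hU
  have hth1 : ∀ (f1 : SF (GV E U) (SF U ℂ)) (f2 : SF (GV E (orth B U)) (SF (orth B U) ℂ)),
      S' (ext2 B U hU (Theta F (tauRes τ U hU hτ) f1) f2) = S' (ext2 B U hU f1 f2) := by
    intro f1 f2
    let T1 : SF (GV E U) (SF U ℂ) →ₗ[ℂ] ℂ :=
      { toFun := fun f1 => S' (ext2 B U hU f1 f2)
        map_add' := fun a b => by rw [ext2_add_left, map_add]
        map_smul' := fun c a => by rw [ext2_smul_left, map_smul, RingHom.id_apply] }
    have hT1 : GInv W1 T1 := by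
      intro k k' f
      obtain ⟨G, hG⟩ := SF.pull_surjective (blk B U hU) hJ (ext2 B U hU f f2)
      have h4 := hinv1 k k' G
      rw [hS', hS', hG] at h4
      have h5 : SF.pull (blk B U hU) hJ (W.act (extU B U hU k) (extU B U hU k') G) =
          ext2 B U hU (W1.act k k' f) f2 := by
        apply SF.ext
        intro a
        have h6 : (extU B U hU k).1⁻¹ * blk B U hU a * (extU B U hU k').1 =
            blk B U hU (k.1⁻¹ * a.1 * k'.1, a.2) := by
          rw [blk_ext1 B U hU, blk_ext1 B U hU, ← map_inv, ← map_mul, ← map_mul]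
          refine congrArg (blk B U hU) (Prod.ext rfl ?_)
          show (1 : GV E (orth B U))⁻¹ * a.2 * 1 = a.2
          group
        show W.l (extU B U hU k) (W.r (extU B U hU k')
          (G ((extU B U hU k).1⁻¹ * blk B U hU a * (extU B U hU k').1))) =
          tens B U hU (W1.l k (W1.r k' (f (k.1⁻¹ * a.1 * k'.1)))) (f2 a.2)
        have h7 : G (blk B U hU (k.1⁻¹ * a.1 * k'.1, a.2)) =
            tens B U hU (f (k.1⁻¹ * a.1 * k'.1)) (f2 a.2) :=
          congrArg (fun f : SF (GV E U × GV E (orth B U)) (SF V ℂ) =>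
            f (k.1⁻¹ * a.1 * k'.1, a.2)) hG
        rw [h6, h7, hr1, hl1]
      rw [h5] at h4
      exact h4
    exact group_of_good (hg1 W1) (tauRes τ U hU hτ) T1 hT1 f1
  have hth2 : ∀ (f1 : SF (GV E U) (SF U ℂ)) (f2 : SF (GV E (orth B U)) (SF (orth B U) ℂ)),
      S' (ext2 B U hU f1 (Theta F (tauRes τ (orth B U) (ndeg_orth B U hU)
        (tau_orth τ U hτ)) f2)) = S' (ext2 B U hU f1 f2) := by
    intro f1 f2
    let T2 : SF (GV E (orth B U)) (SF (orth B U) ℂ) →ₗ[ℂ] ℂ :=
      { toFun := fun f2 => S' (ext2 B U hU f1 f2)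
        map_add' := fun a b => by rw [ext2_add_right, map_add]
        map_smul' := fun c a => by rw [ext2_smul_right, map_smul, RingHom.id_apply] }
    have hT2 : GInv W2 T2 := by
      intro k k' f
      obtain ⟨G, hG⟩ := SF.pull_surjective (blk B U hU) hJ (ext2 B U hU f1 f)
      have h4 := hinv2 k k' G
      rw [hS', hS', hG] at h4
      have h5 : SF.pull (blk B U hU) hJ (W.act (extU B (orth B U) (ndeg_orth B U hU) k)
          (extU B (orth B U) (ndeg_orth B U hU) k') G) =
          ext2 B U hU f1 (W2.act k k' f) := by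
        apply SF.ext
        intro a
        have h6 : (extU B (orth B U) (ndeg_orth B U hU) k).1⁻¹ * blk B U hU a *
            (extU B (orth B U) (ndeg_orth B U hU) k').1 =
            blk B U hU (a.1, k.1⁻¹ * a.2 * k'.1) := by
          rw [blk_ext2 B U hU, blk_ext2 B U hU, ← map_inv, ← map_mul, ← map_mul]
          refine congrArg (blk B U hU) (Prod.ext ?_ rfl)
          show (1 : GV E U)⁻¹ * a.1 * 1 = a.1
          group
        show W.l (extU B (orth B U) (ndeg_orth B U hU) k)
          (W.r (extU B (orth B U) (ndeg_orth B U hU) k')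
          (G ((extU B (orth B U) (ndeg_orth B U hU) k).1⁻¹ * blk B U hU a *
            (extU B (orth B U) (ndeg_orth B U hU) k').1))) =
          tens B U hU (f1 a.1) (W2.l k (W2.r k' (f (k.1⁻¹ * a.2 * k'.1))))
        have h7 : G (blk B U hU (a.1, k.1⁻¹ * a.2 * k'.1)) =
            tens B U hU (f1 a.1) (f (k.1⁻¹ * a.2 * k'.1)) :=
          congrArg (fun f : SF (GV E U × GV E (orth B U)) (SF V ℂ) =>
            f (a.1, k.1⁻¹ * a.2 * k'.1)) hG
        rw [h6, h7, hr2, hl2]
      rw [h5] at h4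
      exact h4
    exact group_of_good (hg2 W2) _ T2 hT2 f2
  -- the involution on the blocks
  let Θ' : SF (GV E U × GV E (orth B U)) (SF V ℂ) →ₗ[ℂ]
      SF (GV E U × GV E (orth B U)) (SF V ℂ) :=
    SF.opr ((thHomeo F (tauRes τ U hU hτ)).prodCongr (thHomeo F (tauRes τ (orth B U)
      (ndeg_orth B U hU) (tau_orth τ U hτ)))) (tneg F τ)
  have hΘ1 : ∀ G, SF.pull (blk B U hU) hJ (Theta F τ G) =
      Θ' (SF.pull (blk B U hU) hJ G) := by
    intro G
    apply SF.ext
    intro a
    show tneg F τ (G (thG τ (blk B U hU a))) = tneg F τ (G (blk B U hU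
      (thG (tauRes τ U hU hτ) a.1,
        thG (tauRes τ (orth B U) (ndeg_orth B U hU) (tau_orth τ U hτ)) a.2)))
    rw [blk_th]
  have hΘ2 : ∀ f1 f2, Θ' (ext2 B U hU f1 f2) = ext2 B U hU (Theta F (tauRes τ U hU hτ) f1)
      (Theta F (tauRes τ (orth B U) (ndeg_orth B U hU) (tau_orth τ U hτ)) f2) := by
    intro f1 f2
    apply SF.ext
    intro a
    exact tneg_tens τ U hU hτ _ _
  have hΘ3 : S' ∘ₗ Θ' = S' := by
    refine LinearMap.ext_on (ext2_span F B U hU) ?_
    rintro _ ⟨f1, f2, rfl⟩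
    show S' (Θ' (ext2 B U hU f1 f2)) = S' (ext2 B U hU f1 f2)
    rw [hΘ2, hth1, hth2]
  obtain ⟨c, hc, hcS⟩ := h3 τ (by rw [hX₀]; exact hτX)
  refine LinearMap.ext fun G => ?_
  have h4 := hcS G
  rw [hS', hΘ1] at h4
  have h5 : S' (Θ' (SF.pull (blk B U hU) hJ G)) = S G := by
    rw [hS' G]
    exact LinearMap.congr_fun hΘ3 _
  rw [h5] at h4
  have h6 : ((1 + c : ℝ) : ℂ) * S G = 0 := by
    push_cast
    linear_combination h4
  have h7 : ((1 + c : ℝ) : ℂ) ≠ 0 := by
    rw [Ne, Complex.ofReal_eq_zero]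
    positivity
  exact (mul_eq_zero.1 h6).resolve_left h7

theorem grpC {B : SkewH E V} {p : PChar F} (W : WeilRep B p) (q P' : Polynomial F) (m : ℕ)
    (hm : Even m) (hm0 : 0 < m) (hq : q.Monic) (hq0 : q.coeff 0 ≠ 0) (hqd : 0 < q.natDegree)
    (hP' : P'.Monic) (hPd : 0 < P'.natDegree) (hco : IsCoprime (q ^ m) P')
    (hdim : (q ^ m * P').natDegree = Module.finrank E V)
    (IH : GrpHyp.{u} (Module.finrank E V - 1)) : PGood W (q ^ m * P') := by
  obtain ⟨a, b, hab⟩ := hco
  set e : Polynomial F := b * P' with he0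
  have he : q ^ m ∣ e - 1 := ⟨-a, by linear_combination hab⟩
  have he' : P' ∣ e := dvd_mul_left P' b
  have hco : IsCoprime (q ^ m) P' := ⟨a, b, hab⟩
  have hdeg : m * q.natDegree + P'.natDegree = Module.finrank E V := by
    rw [← hdim, Polynomial.Monic.natDegree_mul (hq.pow m) hP', hq.natDegree_pow]
  have hmq : 0 < m * q.natDegree := Nat.mul_pos hm0 hqd
  refine ginv_split W (q ^ m * P') fun g₀ hg₀ => ?_
  have hX₀ := (eL_prj B q P' e m hq hP' hco he he' g₀ hg₀).1
  obtain ⟨y1, y2, y3, y4⟩ := yC_props B q P' e m hm hq hq0 hP' hco he he' (eL B e g₀) hX₀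
  refine ⟨YC B (q ^ m * P') e (eL B e g₀), ⟨hg₀, 1, ?_⟩, fun g hg => hg.1, y1, y2, y3, y4, ?_⟩
  · apply Subtype.ext
    show (1 : GV E V).1 * (eL B e g₀).1 * (1 : GV E V)⁻¹.1 = (eL B e g₀).1
    rw [inv_one, Units.val_one, one_mul, mul_one]
  · intro τ T hT hT' hs
    obtain ⟨S, hS0, hS1, hS2, hS3⟩ := grpC1 W τ q P' e m hm hq hq0 hP' hco he he'
      (eL B e g₀) hX₀ T hT hT' hs
    apply hS0
    obtain ⟨hU, hXU⟩ := prj_ndeg B (eL B e g₀) hX₀.1
    have hd1 : Module.finrank E (LinearMap.range (eL B e g₀).1) = m * q.natDegree := hX₀.2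
    have hd2 := finrank_orth B (LinearMap.range (eL B e g₀).1)
    refine grpC2 W (LinearMap.range (eL B e g₀).1) hU (eL B e g₀) hXU (fun W1 => ?_)
      (fun W2 => ?_) S hS1 hS2 hS3
    · exact IH F E _ _ p W1 (by omega)
    · exact IH F E _ _ p W2 (by omega)

end

end Pool.Agent.Work.MP_dd0ddf_al.C2
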