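import Pool.Agent.Work.MP_dd0ddf_al.C2.GrpDesc
import Pool.Agent.Work.MP_dd0ddf_al.C2.GHyp
import Pool.Agent.Work.MP_dd0ddf_al.C2.FCore
import Pool.Agent.Work.MP_dd0ddf_al.C2.FIrr
import Pool.Agent.Work.MP_dd0ddf_al.C2.FrWeil

/-!
# MP_dd0ddf_al (characteristic 2), module GrpF: case P = (x^(2^k) - c)^m, k ≥ 1, m even
-/

set_option linter.unusedSectionVars false
set_option linter.style.haveILetI false

namespace Pool.Agent.Work.MP_dd0ddf_al.C2

noncomputable section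

universe u

variable {F E : Type u} [NontriviallyNormedField F] [IsUltrametricDist F] [ProperSpace F]
  [CharP F 2] [NontriviallyNormedField E] [NormedAlgebra F E] [ProperSpace E] [StarRing E]
  [QExt F E] [Dl E] [MeasurableSpace E] [BorelSpace E]
variable {V : Type u} [AddCommGroup V] [Module E V] [Module.Finite E V] [TopologicalSpace V]
  [IsTopologicalAddGroup V] [T2Space V] [ContinuousSMul E V]

theorem grpF {B : SkewH E V} {p : PChar F} (W : WeilRep B p) (k m : ℕ) (c : F) (hk : 0 < k)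
    (hbad : Bad F E (Polynomial.X ^ 2 ^ k - Polynomial.C c)) (hm : Even m) (hm0 : 0 < m)
    (hd : Module.finrank E V = m * 2 ^ k) (IH : GrpHyp.{u} (Module.finrank E V - 1)) :
    PGood W ((Polynomial.X ^ 2 ^ k - Polynomial.C c) ^ m) := by
  have hm2 : 2 ≤ m := by
    obtain ⟨r, hr⟩ := hm
    omega
  have hk2 : 2 ≤ 2 ^ k := by
    calc 2 = 2 ^ 1 := (pow_one 2).symm
      _ ≤ 2 ^ k := Nat.pow_le_pow_right two_pos hk
  have hn : 3 ≤ Module.finrank E V := by
    rw [hd]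
    have := Nat.mul_le_mul hm2 hk2
    omega
  have hmj : m ≤ 2 ^ m := Nat.lt_two_pow_self.le
  refine fr_suffices W hn m _ ?_
  intro F0 E0 _ _ _ _ _ _ _ _ _ _ _ _ _ _ _ _ _ _ _ _ σ hσ σF hσF hσσ deg δ B' p' B0 p0 W0
    W' hB hl
  have D : FNum F0 E0 F E m k m c (σF c) := f_num m σ hσ σF hσF hσσ deg hbad hk hm0 hmj
  exact @f_core F0 E0 _ _ _ _ _ _ _ _ _ _ _ _ F E _ _ _ _ _ _ _ _ _ δ _ _ _ _ _ _ V _ _ _ _ _
    _ _ _ _ _ _ B0 B' (relOf hB) p0 p' W0 W' hl m k m c (σF c) D hd IH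

end

end Pool.Agent.Work.MP_dd0ddf_al.C2
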