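import Pool.Agent.Work.MP_dd0ddf_al.C2.GDefs
import Pool.Agent.Work.MP_dd0ddf_al.C2.CycDefs

/-!
# MP_dd0ddf_al, module GrpB1: descent in the case without bad factors

Let `s = g g^*`, `g ∈ G_P`.  `P(s) = 0` (Cayley-Hamilton).  `b(s) b(s)^* = b(s) bbar(s) = s` where `b(s)^* = bbar(s)` (ip_aeval), so `b(s)` is invertible.  `k(g) := b(g g^*)⁻¹ g`, `k k^* = b(s)⁻¹ s bbar(s)⁻¹ = 1`, so `k(g) ∈ U(V)`.
DescData: `Γ = UU B × UU B`, `X = GP B P`, `O = UU B` with action `(h1, h2)·k = h1 k h2⁻¹` (transitive; orbit map `(h1,h2) ↦ h1 h2⁻¹` at 1 is open, orbit_map_open), `π = k`, base point 1, representation `wRep W`.  Equivariance: `b(h1 s h1⁻¹) = h1 b(s) h1⁻¹`.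
Fibre: `{g : g = b(g g^*)}` is homeomorphic to `SAP B P` by `g ↦ g g^*`, inverse `s ↦ b(s)` (`b(s) b(s)^* = s`).  The stabiliser is the diagonal `{(h, h)}`; it acts on the fibre by conjugation, and on `SF V` by `l(h) r(h) = geo h` (geo_eq).
The positive character: comap along `UU B → stab`, `noPos`.  Symmetry: `DSym` with `sX = gpTh τ P`, `sB = tneg F τ`, `sΓ (h1, h2) = (tauU τ h2, tauU τ h1)`: compX: thG_mul, thG_UU; compB: tneg_l, tneg_r, l_r_comm;
fib: `θ(b(s)) = τ bbar(s) τ = b(τ s τ)` (τ is conjugate linear) and if `g = b(g g^*)` then g^* g = g g^*, `θ(g) θ(g)^* = τ g^* g τ = τ s τ`; so `k(g) = 1` implies `k(θ g) = 1`; converse by involution.  stb clear.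
-/

set_option linter.unusedSectionVars false
set_option linter.style.haveILetI false

namespace Pool.Agent.Work.MP_dd0ddf_al.C2

noncomputable section

universe u

variable {F E : Type u} [NontriviallyNormedField F] [IsUltrametricDist F] [ProperSpace F]
  [CharP F 2] [NontriviallyNormedField E] [NormedAlgebra F E] [ProperSpace E] [StarRing E]
  [QExt F E] [Dl E] [MeasurableSpace E] [BorelSpace E]
variable {V : Type u} [AddCommGroup V] [Module E V] [Module.Finite E V] [TopologicalSpace V]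
  [IsTopologicalAddGroup V] [T2Space V] [ContinuousSMul E V]

/-- self-adjoint operators with characteristic polynomial `P` -/
def SAP (B : SkewH E V) (P : Polynomial F) : Set (SA B) :=
  {X | LinearMap.charpoly X.1 = P.map (algebraMap F E)}

theorem sap_closed (B : SkewH E V) (P : Polynomial F) : IsClosed (SAP B P) := by
  have h1 : SAP B P = ⋂ i : ℕ, {X : SA B | (LinearMap.charpoly X.1).coeff i =
      (P.map (algebraMap F E)).coeff i} := by
    ext X
    rw [Set.mem_iInter]
    exact ⟨fun h i => congrArg (fun f : Polynomial E => f.coeff i) h, fun h => Polynomial.ext h⟩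
  rw [h1]
  exact isClosed_iInter fun i => isClosed_eq
    ((continuous_charcoef i).comp continuous_subtype_val) continuous_const

private theorem grpb1_charconj (g : GV E V) (X : Module.End E V) :
    LinearMap.charpoly (g.1 * X * g⁻¹.1) = LinearMap.charpoly X := by
  have h1 := LinearEquiv.charpoly_conj (LinearMap.GeneralLinearGroup.generalLinearEquiv E V g) X
  rw [← h1]
  rfl

theorem sap_conj (B : SkewH E V) (P : Polynomial F) (h : UU B) (X : SA B) (hX : X ∈ SAP B P) :
    saConj B h X ∈ SAP B P := by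
  show LinearMap.charpoly (h.1.1 * X.1 * h.1⁻¹.1) = _
  rw [grpb1_charconj]
  exact hX

private theorem grpb1_star (P : Polynomial F) :
    (P.map (algebraMap F E)).map (starRingEnd E) = P.map (algebraMap F E) := by
  rw [Polynomial.map_map]
  congr 1
  ext x
  exact QExt.star_alg x

theorem sap_tau {B : SkewH E V} (τ : AntiU B) (P : Polynomial F) (X : SA B) (hX : X ∈ SAP B P) :
    saTau F τ X ∈ SAP B P := by
  have hX' : LinearMap.charpoly X.1 = P.map (algebraMap F E) := hX
  show LinearMap.charpoly (conjτ τ X.1) = _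
  rw [charpoly_conjτ, hX', grpb1_star]

/-- conjugation by `h` -/
def sapConj (B : SkewH E V) (P : Polynomial F) (h : UU B) : SAP B P ≃ₜ SAP B P where
  toFun X := ⟨saConj B h X.1, sap_conj B P h X.1 X.2⟩
  invFun X := ⟨saConj B h⁻¹ X.1, sap_conj B P h⁻¹ X.1 X.2⟩
  left_inv X := Subtype.ext (by
    have h1 := (saConj B h).symm_apply_apply X.1
    have h2 : (saConj B h).symm = saConj B h⁻¹ := by
      ext X
      rfl
    rw [h2] at h1
    exact h1)
  right_inv X := Subtype.ext (by
    have h1 := (saConj B h).apply_symm_apply X.1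
    have h2 : (saConj B h).symm = saConj B h⁻¹ := by
      ext X
      rfl
    rw [h2] at h1
    exact h1)
  continuous_toFun := ((saConj B h).continuous.comp continuous_subtype_val).subtype_mk _
  continuous_invFun := ((saConj B h⁻¹).continuous.comp continuous_subtype_val).subtype_mk _

/-- conjugation by `τ` -/
def sapTau {B : SkewH E V} (τ : AntiU B) (P : Polynomial F) : SAP B P ≃ₜ SAP B P where
  toFun X := ⟨saTau F τ X.1, sap_tau τ P X.1 X.2⟩
  invFun X := ⟨saTau F τ X.1, sap_tau τ P X.1 X.2⟩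
  left_inv X := Subtype.ext ((saTau F τ).left_inv X.1)
  right_inv X := Subtype.ext ((saTau F τ).left_inv X.1)
  continuous_toFun := ((saTau F τ).continuous.comp continuous_subtype_val).subtype_mk _
  continuous_invFun := ((saTau F τ).continuous.comp continuous_subtype_val).subtype_mk _

private theorem grpb1_aeval_cont (f : Polynomial E) :
    Continuous (fun X : Module.End E V => Polynomial.aeval X f) := by
  have h1 : (fun X : Module.End E V => Polynomial.aeval X f) =
      fun X => ∑ i ∈ Finset.range (f.natDegree + 1), f.coeff i • X ^ i := by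
    funext X
    rw [Polynomial.aeval_eq_sum_range]
  rw [h1]
  refine continuous_finsetSum _ fun i _ => ?_
  refine continuous_induced_rng.mpr (continuous_pi fun v => ?_)
  show Continuous fun X : Module.End E V => f.coeff i • (X ^ i) v
  exact ((continuous_end_apply v).comp (continuous_pow i)).const_smul _

private theorem grpb1_conj_aeval (g : GV E V) (X : Module.End E V) (f : Polynomial E) :
    Polynomial.aeval (g.1 * X * g⁻¹.1) f = g.1 * Polynomial.aeval X f * g⁻¹.1 := by
  have hpow : ∀ n : ℕ, (g.1 * X * g⁻¹.1) ^ n = g.1 * X ^ n * g⁻¹.1 := by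
    intro n
    induction n with
    | zero =>
      rw [pow_zero, pow_zero, mul_one]
      exact g.mul_inv.symm
    | succ n ih =>
      rw [pow_succ, ih, pow_succ]
      have h1 : g⁻¹.1 * g.1 = 1 := g.inv_mul
      calc g.1 * X ^ n * g⁻¹.1 * (g.1 * X * g⁻¹.1)
          = g.1 * X ^ n * (g⁻¹.1 * g.1) * X * g⁻¹.1 := by simp only [mul_assoc]
        _ = g.1 * (X ^ n * X) * g⁻¹.1 := by
          rw [h1, mul_one]
          simp only [mul_assoc]
  rw [Polynomial.aeval_eq_sum_range, Polynomial.aeval_eq_sum_range, Finset.mul_sum,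
    Finset.sum_mul]
  refine Finset.sum_congr rfl fun i _ => ?_
  rw [hpow, mul_smul_comm, smul_mul_assoc]

private theorem grpb1_tau_zero {B : SkewH E V} (τ : AntiU B) : τ.t 0 = 0 := by
  have := τ.smul 0 0
  rwa [zero_smul, star_zero, zero_smul] at this

private theorem grpb1_conjτ_aeval {B : SkewH E V} (τ : AntiU B) (X : Module.End E V)
    (f : Polynomial E) : Polynomial.aeval (conjτ τ X) f =
      conjτ τ (Polynomial.aeval X (f.map (starRingEnd E))) := by
  have hpow : ∀ n : ℕ, (conjτ τ X) ^ n = conjτ τ (X ^ n) := by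
    intro n
    induction n with
    | zero =>
      rw [pow_zero, pow_zero, conjτ_one]
    | succ n ih =>
      rw [pow_succ, ih, pow_succ, conjτ_mul]
  have hadd : ∀ X Y : Module.End E V, conjτ τ (X + Y) = conjτ τ X + conjτ τ Y := by
    intro X Y
    ext v
    exact τ.add _ _
  have hsmul : ∀ (a : E) (X : Module.End E V), conjτ τ (a • X) = star a • conjτ τ X := by
    intro a X
    ext v
    exact τ.smul _ _
  have h0 : conjτ τ (0 : Module.End E V) = 0 := by
    ext v
    exact grpb1_tau_zero τ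
  induction f using Polynomial.induction_on' with
  | add p q hp hq => rw [map_add, Polynomial.map_add, map_add, hadd, hp, hq]
  | monomial n a =>
    rw [Polynomial.map_monomial, Polynomial.aeval_monomial, Polynomial.aeval_monomial,
      Algebra.algebraMap_eq_smul_one, Algebra.algebraMap_eq_smul_one, smul_mul_assoc, one_mul,
      smul_mul_assoc, one_mul, hsmul, hpow]
    congr 1
    exact (star_star a).symm

/-- the inverse of `b` modulo `P` -/
private theorem grpb1_inv (P : Polynomial F) (h0 : P.coeff 0 ≠ 0) (b : Polynomial E)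
    (hb : P.map (algebraMap F E) ∣ b * b.map (starRingEnd E) - Polynomial.X) :
    ∃ c : Polynomial E, P.map (algebraMap F E) ∣ b * c - 1 := by
  have h1 := Polynomial.divX_mul_X_add (P.map (algebraMap F E))
  set Q := P.map (algebraMap F E) with hQ
  have hq0 : Q.coeff 0 ≠ 0 := by
    rw [hQ, Polynomial.coeff_map]
    exact fun h => h0 ((map_eq_zero (algebraMap F E)).1 h)
  refine ⟨b.map (starRingEnd E) * (-(Polynomial.C (Q.coeff 0)⁻¹ * Q.divX)), ?_⟩
  have h2 : Polynomial.C (Q.coeff 0)⁻¹ * Polynomial.C (Q.coeff 0) = 1 := by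
    rw [← Polynomial.C_mul, inv_mul_cancel₀ hq0, Polynomial.C_1]
  have h3 : b * (b.map (starRingEnd E) * (-(Polynomial.C (Q.coeff 0)⁻¹ * Q.divX))) - 1 =
      (b * b.map (starRingEnd E) - Polynomial.X) * (-(Polynomial.C (Q.coeff 0)⁻¹ * Q.divX)) +
        -(Polynomial.C (Q.coeff 0)⁻¹ * Q) := by
    have h4 := congrArg (fun f => Polynomial.C (Q.coeff 0)⁻¹ * f) h1
    have h5 : Polynomial.C (Q.coeff 0)⁻¹ * Q = Polynomial.C (Q.coeff 0)⁻¹ *
        (Q.divX * Polynomial.X) + 1 := by
      refine h4.symm.trans ?_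
      show Polynomial.C (Q.coeff 0)⁻¹ * (Q.divX * Polynomial.X + Polynomial.C (Q.coeff 0)) = _
      rw [mul_add, h2]
    rw [h5]
    ring
  rw [h3]
  exact dvd_add (Dvd.dvd.mul_right hb _) (Dvd.dvd.neg_right (Dvd.intro_left _ rfl))

private theorem grpb1_aeval_zero {X : Module.End E V} {Q f : Polynomial E}
    (hX : LinearMap.charpoly X = Q) (hf : Q ∣ f) : Polynomial.aeval X f = 0 := by
  obtain ⟨g, rfl⟩ := hf
  rw [map_mul, ← hX, LinearMap.aeval_self_charpoly, zero_mul]

section Data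

variable (B : SkewH E V) (P : Polynomial F) (b c : Polynomial E)
  (hb : P.map (algebraMap F E) ∣ b * b.map (starRingEnd E) - Polynomial.X)
  (hc : P.map (algebraMap F E) ∣ b * c - 1)

/-- `b(X)` as a unit -/
private def grpb1_u (X : SAP B P) : GV E V where
  val := Polynomial.aeval X.1.1 b
  inv := Polynomial.aeval X.1.1 c
  val_inv := by
    have h1 := grpb1_aeval_zero X.2 hc
    rw [map_sub, map_one, sub_eq_zero] at h1
    rw [← map_mul, h1]
  inv_val := by
    have h1 := grpb1_aeval_zero X.2 hc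
    rw [map_sub, map_one, sub_eq_zero, mul_comm b c] at h1
    rw [← map_mul, h1]

private theorem grpb1_u_val (X : SAP B P) :
    (grpb1_u B P b c hc X).1 = Polynomial.aeval X.1.1 b := rfl

private theorem grpb1_u_cont : Continuous (grpb1_u B P b c hc) := by
  rw [Units.continuous_iff]
  exact ⟨(grpb1_aeval_cont b).comp (continuous_subtype_val.comp continuous_subtype_val),
    (grpb1_aeval_cont c).comp (continuous_subtype_val.comp continuous_subtype_val)⟩

include hb in
private theorem grpb1_bb (X : SAP B P) : Polynomial.aeval X.1.1 b *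
    Polynomial.aeval X.1.1 (b.map (starRingEnd E)) = X.1.1 := by
  have h1 := grpb1_aeval_zero X.2 hb
  rw [map_sub, sub_eq_zero, Polynomial.aeval_X] at h1
  rw [← map_mul, h1]

private theorem grpb1_adj (X : SAP B P) : adj B (Polynomial.aeval X.1.1 b) =
    Polynomial.aeval X.1.1 (b.map (starRingEnd E)) := by
  symm
  apply adj_unique
  intro v w
  exact ip_aeval B X.1.2 b v w

private theorem grpb1_comm (X : Module.End E V) (f g : Polynomial E) :
    Polynomial.aeval X f * Polynomial.aeval X g = Polynomial.aeval X g * Polynomial.aeval X f := by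
  rw [← map_mul, mul_comm, map_mul]

private theorem grpb1_mem_UU {B : SkewH E V} {g : GV E V} (h : g.1 * adj B g.1 = 1) :
    g ∈ UU B := by
  have h1 : adj B g.1 * g.1 = 1 := by
    have h2 : g⁻¹.1 * (g.1 * adj B g.1) = g⁻¹.1 := by rw [h, mul_one]
    have h3 : g⁻¹.1 * g.1 = 1 := g.inv_mul
    rw [← mul_assoc, h3, one_mul] at h2
    rw [h2, h3]
  intro v w
  rw [adj_spec]
  have h2 : adj B g.1 (g.1 w) = w := congrArg (fun f : Module.End E V => f w) h1
  rw [h2]

/-- the self-adjoint operator of an element of `GP` -/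
private def grpb1_s (g : GP B P) : SAP B P := ⟨sg B g.1, g.2⟩

private theorem grpb1_s_cont : Continuous (grpb1_s B P) :=
  ((continuous_sg F B).comp continuous_subtype_val).subtype_mk _

include hb in
private theorem grpb1_k_mem (g : GP B P) :
    (grpb1_u B P b c hc (grpb1_s B P g))⁻¹ * g.1 ∈ UU B := by
  apply grpb1_mem_UU
  set u := grpb1_u B P b c hc (grpb1_s B P g) with hu
  have hu1 : u⁻¹.1 * u.1 = 1 := u.inv_mul
  have hu2 : adj B u.1 * adj B u⁻¹.1 = 1 := by
    rw [← adj_mul, hu1, adj_one]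
  have hs : g.1.1 * adj B g.1.1 = u.1 * adj B u.1 := by
    have h1 := grpb1_bb B P b hb (grpb1_s B P g)
    have h2 := grpb1_adj B P b (grpb1_s B P g)
    rw [← h2] at h1
    exact h1.symm
  show u⁻¹.1 * g.1.1 * adj B (u⁻¹.1 * g.1.1) = 1
  rw [adj_mul]
  calc u⁻¹.1 * g.1.1 * (adj B g.1.1 * adj B u⁻¹.1)
      = u⁻¹.1 * (g.1.1 * adj B g.1.1) * adj B u⁻¹.1 := by simp only [mul_assoc]
    _ = (u⁻¹.1 * u.1) * (adj B u.1 * adj B u⁻¹.1) := by
      rw [hs]
      simp only [mul_assoc]
    _ = 1 := by rw [hu1, hu2, mul_one]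

/-- the map `g ↦ k(g)` -/
private def grpb1_k (g : GP B P) : UU B :=
  ⟨(grpb1_u B P b c hc (grpb1_s B P g))⁻¹ * g.1, grpb1_k_mem B P b c hb hc g⟩

private theorem grpb1_k_cont : Continuous (grpb1_k B P b c hb hc) :=
  ((((grpb1_u_cont B P b c hc).comp (grpb1_s_cont B P)).inv).mul
    continuous_subtype_val).subtype_mk _

private theorem grpb1_s_act (γ : UU B × UU B) (g : GP B P) :
    (grpb1_s B P ((gpC B P).act γ g)).1 = saConj B γ.1 (grpb1_s B P g).1 :=
  sg_act B γ.1 γ.2 g.1

private theorem grpb1_k_act (γ : UU B × UU B) (g : GP B P) :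
    grpb1_k B P b c hb hc ((gpC B P).act γ g) = γ.1 * grpb1_k B P b c hb hc g * γ.2⁻¹ := by
  apply Subtype.ext
  show (grpb1_u B P b c hc (grpb1_s B P ((gpC B P).act γ g)))⁻¹ * (γ.1.1 * g.1 * γ.2.1⁻¹) =
    γ.1.1 * ((grpb1_u B P b c hc (grpb1_s B P g))⁻¹ * g.1) * γ.2.1⁻¹
  have h1 : grpb1_u B P b c hc (grpb1_s B P ((gpC B P).act γ g)) =
      γ.1.1 * grpb1_u B P b c hc (grpb1_s B P g) * γ.1.1⁻¹ := by
    apply Units.ext
    show Polynomial.aeval (grpb1_s B P ((gpC B P).act γ g)).1.1 b =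
      γ.1.1.1 * Polynomial.aeval (grpb1_s B P g).1.1 b * γ.1.1⁻¹.1
    rw [grpb1_s_act, ← grpb1_conj_aeval]
    rfl
  rw [h1]
  group

/-- the action on `U(V)` -/
private def grpb1_C : CAct (UU B × UU B) (UU B) where
  act γ k := γ.1 * k * γ.2⁻¹
  one k := by simp
  mul g h x := by
    simp only [Prod.fst_mul, Prod.snd_mul, mul_inv_rev, mul_assoc]
  cont := ((continuous_fst.comp continuous_fst).mul continuous_snd).mul
    (continuous_snd.comp continuous_fst).inv

private theorem grpb1_tr (k : UU B) : ∃ γ, (grpb1_C B).act γ 1 = k :=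
  ⟨(k, 1), by
    show k * 1 * 1⁻¹ = k
    rw [mul_one, inv_one, mul_one]⟩

end Data

section Data2

variable {B : SkewH E V} {p : PChar F} (W : WeilRep B p) (P : Polynomial F)
  (b c : Polynomial E)
  (hb : P.map (algebraMap F E) ∣ b * b.map (starRingEnd E) - Polynomial.X)
  (hc : P.map (algebraMap F E) ∣ b * c - 1)
  (hop : IsOpenMap fun γ => (grpb1_C B).act γ 1)

/-- the descent data -/
private def grpb1_D : DescData (UU B × UU B) (GP B P) (UU B) (SF V ℂ) where
  A := gpC B P
  C := grpb1_C B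
  R := wRep W
  π := grpb1_k B P b c hb hc
  hπ := grpb1_k_cont B P b c hb hc
  eqv γ g := grpb1_k_act B P b c hb hc γ g
  o := 1
  tr := grpb1_tr B
  opn := hop

private theorem grpb1_stab (γ : UU B × UU B) :
    γ ∈ (grpb1_D W P b c hb hc hop).stab ↔ γ.1 = γ.2 := by
  show γ.1 * 1 * γ.2⁻¹ = 1 ↔ γ.1 = γ.2
  rw [mul_one, mul_inv_eq_one]

/-- on the fibre `g = b(g g^*)` -/
private theorem grpb1_fib_eq (g : GP B P) (h : grpb1_k B P b c hb hc g = 1) :
    g.1 = grpb1_u B P b c hc (grpb1_s B P g) := by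
  have h1 : (grpb1_u B P b c hc (grpb1_s B P g))⁻¹ * g.1 = 1 := congrArg Subtype.val h
  exact (inv_mul_eq_one.1 h1).symm

private theorem grpb1_fib_iff (g : GP B P) : grpb1_k B P b c hb hc g = 1 ↔
    g.1 = grpb1_u B P b c hc (grpb1_s B P g) := by
  refine ⟨grpb1_fib_eq P b c hb hc g, fun h => ?_⟩
  apply Subtype.ext
  show (grpb1_u B P b c hc (grpb1_s B P g))⁻¹ * g.1 = 1
  rw [inv_mul_eq_one]
  exact h.symm

include hb in
private theorem grpb1_sg_u (X : SAP B P) : sg B (grpb1_u B P b c hc X) = X.1 := by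
  apply Subtype.ext
  show Polynomial.aeval X.1.1 b * adj B (Polynomial.aeval X.1.1 b) = X.1.1
  rw [grpb1_adj, grpb1_bb B P b hb]

/-- the inverse of the fibre homeomorphism -/
private def grpb1_v (X : SAP B P) : GP B P :=
  ⟨grpb1_u B P b c hc X, by
    show LinearMap.charpoly (sg B (grpb1_u B P b c hc X)).1 = _
    rw [grpb1_sg_u P b c hb hc]
    exact X.2⟩

private theorem grpb1_s_v (X : SAP B P) :
    grpb1_s B P (grpb1_v P b c hb hc X) = X := Subtype.ext (grpb1_sg_u P b c hb hc X)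

private theorem grpb1_k_v (X : SAP B P) :
    grpb1_k B P b c hb hc (grpb1_v P b c hb hc X) = 1 := by
  rw [grpb1_fib_iff, grpb1_s_v]
  rfl

/-- the fibre is `SAP B P` -/
private def grpb1_eF : (grpb1_D W P b c hb hc hop).Fib ≃ₜ SAP B P where
  toFun x := grpb1_s B P x.1
  invFun X := ⟨grpb1_v P b c hb hc X, grpb1_k_v P b c hb hc X⟩
  left_inv x := Subtype.ext (Subtype.ext (grpb1_fib_eq P b c hb hc x.1 x.2).symm)
  right_inv X := grpb1_s_v P b c hb hc X
  continuous_toFun := (grpb1_s_cont B P).comp continuous_subtype_val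
  continuous_invFun := ((grpb1_u_cont B P b c hc).subtype_mk _).subtype_mk _

/-- on the fibre `g^* g = g g^*` -/
private theorem grpb1_normal (g : GP B P) (h : grpb1_k B P b c hb hc g = 1) :
    adj B g.1.1 * g.1.1 = (sg B g.1).1 := by
  have h1 := congrArg Units.val (grpb1_fib_eq P b c hb hc g h)
  rw [grpb1_u_val] at h1
  have h2 := grpb1_adj B P b (grpb1_s B P g)
  rw [← h1] at h2
  rw [h2, h1, grpb1_comm, grpb1_bb B P b hb]
  rfl

private theorem grpb1_s_tau (τ : AntiU B) (g : GP B P) (h : grpb1_k B P b c hb hc g = 1) :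
    (grpb1_s B P (gpTh τ P g)).1 = saTau F τ (grpb1_s B P g).1 := by
  apply Subtype.ext
  show (sg B (thG τ g.1)).1 = conjτ τ (sg B g.1).1
  rw [sg_theta, grpb1_normal P b c hb hc g h]

private theorem grpb1_fib_tau (τ : AntiU B) (g : GP B P) (h : grpb1_k B P b c hb hc g = 1) :
    grpb1_k B P b c hb hc (gpTh τ P g) = 1 := by
  rw [grpb1_fib_iff]
  apply Units.ext
  show conjτ τ (adj B g.1.1) = Polynomial.aeval (grpb1_s B P (gpTh τ P g)).1.1 b
  rw [grpb1_s_tau P b c hb hc τ g h]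
  show _ = Polynomial.aeval (conjτ τ (grpb1_s B P g).1.1) b
  rw [grpb1_conjτ_aeval]
  have h1 := congrArg Units.val (grpb1_fib_eq P b c hb hc g h)
  rw [grpb1_u_val] at h1
  rw [← grpb1_adj, ← h1]

/-- the automorphism of `U(V) × U(V)` -/
private def grpb1_Γ (τ : AntiU B) : (UU B × UU B) ≃* (UU B × UU B) where
  toFun γ := (tauU τ γ.2, tauU τ γ.1)
  invFun γ := (tauU τ γ.2, tauU τ γ.1)
  left_inv γ := Prod.ext (tauU_tauU τ _) (tauU_tauU τ _)
  right_inv γ := Prod.ext (tauU_tauU τ _) (tauU_tauU τ _)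
  map_mul' γ δ := Prod.ext (tauU_mul τ _ _) (tauU_mul τ _ _)

variable (F) in
include F in
private theorem grpb1_Γ_cont (τ : AntiU B) : Continuous (grpb1_Γ τ) :=
  ((continuous_tauU F τ).comp continuous_snd).prodMk ((continuous_tauU F τ).comp continuous_fst)

private theorem grpb1_tauU_inv (τ : AntiU B) (h : UU B) : tauU τ h⁻¹ = (tauU τ h)⁻¹ := by
  have h1 : tauU τ h⁻¹ * tauU τ h = 1 := by
    rw [← tauU_mul, inv_mul_cancel]
    apply Subtype.ext
    apply Units.ext
    exact conjτ_one τ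
  exact eq_inv_of_mul_eq_one_left h1

/-- the symmetry given by `τ` -/
private def grpb1_S (τ : AntiU B) : (grpb1_D W P b c hb hc hop).DSym where
  sX := gpTh τ P
  sB := tneg F τ
  sΓ := grpb1_Γ τ
  cont := grpb1_Γ_cont F τ
  cont' := grpb1_Γ_cont F τ
  compX γ x := by
    apply Subtype.ext
    show thG τ ((tauU τ γ.2).1 * x.1 * (tauU τ γ.1).1⁻¹) = γ.1.1 * thG τ x.1 * γ.2.1⁻¹
    rw [thG_mul, thG_mul, thG_UU, tauU_tauU]
    have h1 : thG τ (tauU τ γ.1).1⁻¹ = γ.1.1 := by
      have h2 := thG_UU τ (tauU τ γ.1)⁻¹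
      rw [grpb1_tauU_inv, tauU_tauU] at h2
      have h3 : ((γ.1⁻¹ : UU B) : GV E V)⁻¹ = γ.1.1 := inv_inv γ.1.1
      rw [h3] at h2
      exact h2
    rw [h1, mul_assoc]
  compB γ f := by
    show tneg F τ (W.l γ.1 (W.r γ.2 f)) = W.l (tauU τ γ.2) (W.r (tauU τ γ.1) (tneg F τ f))
    have hl : ∀ (h : UU B) (f : SF V ℂ), tneg F τ (W.l h f) = W.r (tauU τ h) (tneg F τ f) :=
      fun h f => congrArg (fun T : SF V ℂ →ₗ[ℂ] SF V ℂ => T f) (tneg_l W τ h)
    have hr : ∀ (h : UU B) (f : SF V ℂ), tneg F τ (W.r h f) = W.l (tauU τ h) (tneg F τ f) :=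
      fun h f => congrArg (fun T : SF V ℂ →ₗ[ℂ] SF V ℂ => T f) (tneg_r W τ h)
    have hlr : ∀ (g h : UU B) (f : SF V ℂ), W.l g (W.r h f) = W.r h (W.l g f) := fun g h f =>
      congrArg (fun T : SF V ℂ →ₗ[ℂ] SF V ℂ => T f) (l_r_comm W g h)
    rw [hl, hr, hlr]
  fib x := by
    show grpb1_k B P b c hb hc (gpTh τ P x) = 1 ↔ grpb1_k B P b c hb hc x = 1
    refine ⟨fun h => ?_, grpb1_fib_tau P b c hb hc τ x⟩
    have h1 := grpb1_fib_tau P b c hb hc τ _ h
    have h2 : gpTh τ P (gpTh τ P x) = x := (gpTh τ P).left_inv x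
    rwa [h2] at h1
  stb γ := by
    rw [grpb1_stab, grpb1_stab]
    show γ.1 = γ.2 ↔ tauU τ γ.2 = tauU τ γ.1
    constructor
    · intro h
      rw [h]
    · intro h
      have h1 := congrArg (tauU τ) h
      rw [tauU_tauU, tauU_tauU] at h1
      exact h1.symm

/-- the diagonal -/
private def grpb1_κ : UU B →* (grpb1_D W P b c hb hc hop).stab where
  toFun h := ⟨(h, h), (grpb1_stab W P b c hb hc hop (h, h)).2 rfl⟩
  map_one' := rfl
  map_mul' _ _ := rfl

private theorem grpb1_κ_cont : Continuous (grpb1_κ W P b c hb hc hop) :=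
  (continuous_id.prodMk continuous_id).subtype_mk _

end Data2

theorem grpB1 {B : SkewH E V} {p : PChar F} (W : WeilRep B p) (τ : AntiU B) (P : Polynomial F)
    (hP : P.Monic) (h0 : P.coeff 0 ≠ 0) (b : Polynomial E)
    (hb : P.map (algebraMap F E) ∣ b * b.map (starRingEnd E) - Polynomial.X)
    (T : SF (GP B P) (SF V ℂ) →ₗ[ℂ] ℂ) (hT : InGP W τ P T) :
    ∃ S : SF (SAP B P) (SF V ℂ) →ₗ[ℂ] ℂ, (S = 0 → T = 0) ∧
      (∀ (h : UU B) (f : SF (SAP B P) (SF V ℂ)),
        S (SF.opr (sapConj B P h) (geo h.1⁻¹) f) = S f) ∧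
      ∃ c : ℝ, 0 < c ∧ ∀ f : SF (SAP B P) (SF V ℂ),
        S (SF.opr (sapTau τ P) (tneg F τ) f) = -(c : ℂ) * S f := by
  haveI := lc_GP B P
  haveI := td_GP B P
  haveI := lc_UU F B
  haveI := td_UU F B
  obtain ⟨c, hc⟩ := grpb1_inv P h0 b hb
  have hop := orbit_map_open (grpb1_C B) 1 (grpb1_tr B)
  let D := grpb1_D W P b c hb hc hop
  let eF : D.Fib ≃ₜ SAP B P := grpb1_eF W P b c hb hc hop
  obtain ⟨S', hS0, ⟨δ, hδ⟩, hsym⟩ := descent D T (fun γ g => hT.inv γ g)
  let κ : UU B →* D.stab := grpb1_κ W P b c hb hc hop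
  have hκ : Continuous κ := grpb1_κ_cont W P b c hb hc hop
  have hδ1 : ∀ h, δ.δ (κ h) = 1 := fun h => noPos (F := F) B (δ.comap κ hκ) h
  refine ⟨S' ∘ₗ SF.comp eF, fun h => hS0 ?_, fun h f => ?_, ?_⟩
  · apply LinearMap.ext
    intro f
    have h3 := congrArg (fun R : SF (SAP B P) (SF V ℂ) →ₗ[ℂ] ℂ => R (SF.comp eF.symm f)) h
    have h4 : SF.comp eF (SF.comp eF.symm f) = f := by
      apply SF.ext
      intro x
      show f (eF.symm (eF x)) = f x
      rw [eF.symm_apply_apply]
    have h5 : S' (SF.comp eF (SF.comp eF.symm f)) = 0 := h3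
    rw [h4] at h5
    exact h5
  · have h3 := hδ (κ h⁻¹) (SF.comp eF f)
    rw [hδ1, Complex.ofReal_one, one_mul] at h3
    have h5 : D.fop (κ h⁻¹) (SF.comp eF f) =
        SF.comp eF (SF.opr (sapConj B P h) (geo h.1⁻¹) f) := by
      apply SF.ext
      intro x
      show W.l h⁻¹ (W.r h⁻¹ (f (eF (D.fibAct.act (κ h⁻¹)⁻¹ x)))) =
        geo h.1⁻¹ (f (sapConj B P h (eF x)))
      have h6 : W.l h⁻¹ (W.r h⁻¹ (f (eF (D.fibAct.act (κ h⁻¹)⁻¹ x)))) =
          geo (h⁻¹ : UU B).1 (f (eF (D.fibAct.act (κ h⁻¹)⁻¹ x))) :=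
        (congrArg (fun T : SF V ℂ →ₗ[ℂ] SF V ℂ =>
          T (f (eF (D.fibAct.act (κ h⁻¹)⁻¹ x)))) (geo_eq W h⁻¹)).symm
      rw [h6]
      have h7 : eF (D.fibAct.act (κ h⁻¹)⁻¹ x) = sapConj B P h (eF x) := by
        apply Subtype.ext
        have h8 := grpb1_s_act B P ((h⁻¹)⁻¹, (h⁻¹)⁻¹) x.1
        rw [inv_inv] at h8
        have h9 : D.fibAct.act (κ h⁻¹)⁻¹ x = D.fibAct.act (κ h) x := by
          rw [map_inv, inv_inv]
        rw [h9]
        exact h8
      rw [h7]
      rfl
    show S' (SF.comp eF (SF.opr (sapConj B P h) (geo h.1⁻¹) f)) = S' (SF.comp eF f)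
    rw [← h5]
    exact h3
  · obtain ⟨a, ha, h3⟩ := hsym (grpb1_S W P b c hb hc hop τ) (-1) (fun f => by
      rw [neg_one_mul]
      exact hT.anti f)
    refine ⟨a, ha, fun f => ?_⟩
    have h4 := h3 (SF.comp eF f)
    rw [neg_one_mul] at h4
    have h5 : SF.opr (grpb1_S W P b c hb hc hop τ).fibHomeo
        (grpb1_S W P b c hb hc hop τ).sB (SF.comp eF f) =
        SF.comp eF (SF.opr (sapTau τ P) (tneg F τ) f) := by
      apply SF.ext
      intro x
      show tneg F τ (f (grpb1_s B P (gpTh τ P x.1))) =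
        tneg F τ (f (sapTau τ P (grpb1_s B P x.1)))
      have h6 : grpb1_s B P (gpTh τ P x.1) = sapTau τ P (grpb1_s B P x.1) :=
        Subtype.ext (grpb1_s_tau P b c hb hc τ x.1 x.2)
      rw [h6]
    rw [h5] at h4
    exact h4

end

end Pool.Agent.Work.MP_dd0ddf_al.C2
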