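import Pool.Agent.Work.MP_dd0ddf_al.C2.GrpP1
import Pool.Agent.Work.MP_dd0ddf_al.C2.GrpP2
import Pool.Agent.Work.MP_dd0ddf_al.C2.GrpP3
import Pool.Agent.Work.MP_dd0ddf_al.C2.ExSimA

/-!
# MP_dd0ddf_al (characteristic 2), module GrpP: case P = (x - c)^m: assembly

`grpP_supp`: `D` with EInvA is supported on `{tr X = 0}` if `l ∣ n`: localise on the open set `{tr X ≠ 0}` with π = coefficients of the characteristic polynomial; there the characteristic polynomial is not of the form `(x^(l^k) - a)^m` (such a polynomial of degree n has second coefficient 0), so `grpP3` applies to the fibres.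
`grpP`: grpP1 with `c0` not a norm (exists_simA, exists_bc), then grpP2.
-/

set_option linter.unusedSectionVars false
set_option linter.style.haveILetI false

namespace Pool.Agent.Work.MP_dd0ddf_al.C2

noncomputable section

universe u

variable {F E : Type u} [NontriviallyNormedField F] [IsUltrametricDist F] [ProperSpace F]
  [CharP F 2] [NontriviallyNormedField E] [NormedAlgebra F E] [ProperSpace E] [StarRing E]
  [QExt F E] [Dl E] [MeasurableSpace E] [BorelSpace E]
variable {V : Type u} [AddCommGroup V] [Module E V] [Module.Finite E V] [TopologicalSpace V]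
  [IsTopologicalAddGroup V] [T2Space V] [ContinuousSMul E V]

private theorem grpp_ext0 {X M : Type*} [TopologicalSpace X] [T2Space X] [AddCommGroup M]
    [Module ℂ M] (W : Set X) (hW : IsOpen W) (f : SF X M) (hf : ∀ x, x ∉ W → f x = 0) :
    ∃ g : SF W M, SF.ext0 W hW g = f := by
  have hs : IsClosed (Function.support f.1) := by
    have h : (Function.support f.1)ᶜ = f.1 ⁻¹' {0} := by
      ext x
      simp [Function.mem_support]
    exact ⟨by
      rw [h]
      exact f.2.1 _⟩
  have hc : IsCompact (Function.support f.1) := by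
    have h1 : tsupport f.1 = Function.support f.1 := hs.closure_eq
    rw [← h1]
    exact f.2.2
  have hsW : Function.support f.1 ⊆ W := by
    intro x hx
    by_contra hn
    exact hx (hf x hn)
  refine ⟨⟨fun x => f x.1, f.2.1.comp_continuous continuous_subtype_val, ?_⟩, ?_⟩
  · refine HasCompactSupport.of_support_subset_isCompact
      (K := (Subtype.val : W → X) ⁻¹' (Function.support f.1)) ?_ (fun x hx => hx)
    refine Topology.IsEmbedding.subtypeVal.isCompact_preimage_iff ?_ |>.2 hc
    rw [Subtype.range_val]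
    exact hsW
  · apply SF.ext
    intro x
    by_cases hx : x ∈ W
    · rw [SF.ext0_apply_mem _ _ _ _ hx]
    · rw [SF.ext0_apply_not_mem _ _ _ _ hx, hf x hx]

/-- the fibre of the complement of a set of fibres -/
private def grpp_fib {X Y : Type*} [TopologicalSpace X] (π : X → Y) (Y₀ : Set Y) (y : Y)
    (hy : y ∉ Y₀) :
    {x : {x : X | π x ∉ Y₀} // π x.1 = y} ≃ₜ {x : X // π x = y} where
  toFun x := ⟨x.1.1, x.2⟩
  invFun z := ⟨⟨z.1, fun h0 => hy (z.2 ▸ h0)⟩, z.2⟩
  left_inv _ := rfl
  right_inv _ := rfl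
  continuous_toFun := (continuous_subtype_val.comp continuous_subtype_val).subtype_mk _
  continuous_invFun := (continuous_subtype_val.subtype_mk _).subtype_mk _

/-- localisation away from a closed set of fibres -/
private theorem grpp_loc {X Y M ι : Type*} [TopologicalSpace X] [T2Space X]
    [LocallyCompactSpace X] [TotallyDisconnectedSpace X] [TopologicalSpace Y]
    [TotallySeparatedSpace Y] [AddCommGroup M] [Module ℂ M] (π : X → Y) (hπ : Continuous π)
    (Y₀ : Set Y) (hY₀ : IsClosed Y₀) (a : ι → X ≃ₜ X) (ha : ∀ i x, π (a i x) = π x)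
    (m : ι → M →ₗ[ℂ] M) (c : ι → ℂ)
    (h : ∀ y : Y, y ∉ Y₀ → ∀ S : SF {x // π x = y} M →ₗ[ℂ] ℂ,
      (∀ i f, S (SF.opr (fibH π (a i) (ha i) y) (m i) f) = c i * S f) → S = 0)
    (T : SF X M →ₗ[ℂ] ℂ) (hT : ∀ i f, T (SF.opr (a i) (m i) f) = c i * T f) :
    SF.SuppOn T {x | π x ∈ Y₀} := by
  have hW : IsOpen {x : X | π x ∉ Y₀} := hY₀.isOpen_compl.preimage hπ
  haveI : LocallyCompactSpace {x : X | π x ∉ Y₀} := hW.locallyCompactSpace
  let b : ι → ({x : X | π x ∉ Y₀} ≃ₜ {x : X | π x ∉ Y₀}) := fun i =>
    (a i).subtype fun x => by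
      show π x ∉ Y₀ ↔ π (a i x) ∉ Y₀
      rw [ha]
  have key : T ∘ₗ SF.ext0 {x : X | π x ∉ Y₀} hW = 0 := by
    refine localise (fun x : {x : X | π x ∉ Y₀} => π x.1) (hπ.comp continuous_subtype_val)
      b (fun i x => ha i x.1) m c ?_ _ ?_
    · intro y S hS
      by_cases hy : y ∈ Y₀
      · apply LinearMap.ext
        intro f
        have h0 : f = 0 := by
          apply SF.ext
          intro x
          have h1 : π x.1.1 ∈ Y₀ := by
            have h2 : π x.1.1 = y := x.2
            rw [h2]
            exact hy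
          exact absurd h1 x.1.2
        rw [h0, map_zero, map_zero]
      · have h1 := h y hy (S ∘ₗ SF.comp (grpp_fib π Y₀ y hy)) (fun i f =>
          hS i (SF.comp (grpp_fib π Y₀ y hy) f))
        apply LinearMap.ext
        intro f
        have h3 := congrArg (fun R : SF {x : X // π x = y} M →ₗ[ℂ] ℂ =>
          R (SF.comp (grpp_fib π Y₀ y hy).symm f)) h1
        have h4 : SF.comp (grpp_fib π Y₀ y hy) (SF.comp (grpp_fib π Y₀ y hy).symm f) = f :=
          SF.ext fun x => rfl
        have h5 : S (SF.comp (grpp_fib π Y₀ y hy) (SF.comp (grpp_fib π Y₀ y hy).symm f)) = 0 :=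
          h3
        rw [h4] at h5
        exact h5
    · intro i f
      have h1 := hT i (SF.ext0 {x : X | π x ∉ Y₀} hW f)
      show T (SF.ext0 {x : X | π x ∉ Y₀} hW (SF.opr (b i) (m i) f)) =
        c i * T (SF.ext0 {x : X | π x ∉ Y₀} hW f)
      rw [← h1]
      congr 1
      apply SF.ext
      intro x
      show _ = m i (SF.ext0 {x : X | π x ∉ Y₀} hW f (a i x))
      by_cases hx : x ∈ {x : X | π x ∉ Y₀}
      · have hx' : a i x ∈ {x : X | π x ∉ Y₀} := by
          show π (a i x) ∉ Y₀
          rw [ha]
          exact hx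
        rw [SF.ext0_apply_mem _ _ _ _ hx, SF.ext0_apply_mem _ _ _ _ hx']
        rfl
      · have hx' : a i x ∉ {x : X | π x ∉ Y₀} := by
          intro h3
          apply hx
          have h4 : π (a i x) ∉ Y₀ := h3
          rw [ha] at h4
          exact h4
        rw [SF.ext0_apply_not_mem _ _ _ _ hx, SF.ext0_apply_not_mem _ _ _ _ hx', map_zero]
  intro f hf
  obtain ⟨g, hg⟩ := grpp_ext0 _ hW f (fun x hx => hf x (by
    by_contra h1
    exact hx h1))
  rw [← hg]
  exact congrArg (fun R : SF {x : X | π x ∉ Y₀} M →ₗ[ℂ] ℂ => R g) key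

private theorem grpp_comm (g h : Module.End E V) :
    LinearMap.charpoly (g * h) = LinearMap.charpoly (h * g) := by
  classical
  let b := Module.finBasis E V
  rw [← LinearMap.charpoly_toMatrix (g * h) b, ← LinearMap.charpoly_toMatrix (h * g) b,
    LinearMap.toMatrix_mul, LinearMap.toMatrix_mul, Matrix.charpoly_mul_comm]

private theorem grpp_conj (h : GV E V) (X : Module.End E V) :
    LinearMap.charpoly (h.1 * X * h⁻¹.1) = LinearMap.charpoly X := by
  rw [grpp_comm]
  have h1 : h⁻¹.1 * h.1 = 1 := h.inv_mul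
  rw [← mul_assoc, h1, one_mul]

private theorem grpp_pi {B : SkewH E V} {c : F} {g₀ : GV E V} (hg : IsSim B c g₀) (τ : AntiU B)
    (i : Option (UU B)) (X : SA B) :
    LinearMap.charpoly ((i.elim (saSimT hg τ).h fun k => (saConjT B k⁻¹).h) X).1 =
      LinearMap.charpoly X.1 := by
  cases i with
  | none =>
    show LinearMap.charpoly ((thG τ g₀).1 * conjτ τ X.1 * (thG τ g₀)⁻¹.1) = _
    rw [grpp_conj, charpoly_conjτ]
    have h1 := charpoly_adj B X.1
    rw [sa_adj B X.2] at h1
    exact h1.symm
  | some k =>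
    show LinearMap.charpoly ((k⁻¹).1.1 * X.1 * (k⁻¹).1⁻¹.1) = _
    rw [grpp_conj]

/-- the second coefficient of `(x^(ℓ^k) - c)^m` vanishes if `ℓ` divides the degree -/
private theorem grpp_next (Q : Polynomial F)
    (hQ : SpecP 2 Q) (hd : 2 ∣ Q.natDegree) : Q.nextCoeff = 0 := by
  obtain ⟨k, m, c, rfl⟩ := hQ
  have hℓ0 : 0 < 2 := two_pos
  have hk : 0 < 2 ^ k := Nat.pow_pos hℓ0
  have hmon : (Polynomial.X ^ 2 ^ k - Polynomial.C c : Polynomial F).Monic :=
    Polynomial.monic_X_pow_sub_C _ hk.ne'
  rw [hmon.nextCoeff_pow]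
  rcases Nat.eq_zero_or_pos k with h0 | h0
  · subst h0
    rw [hmon.natDegree_pow, Polynomial.natDegree_X_pow_sub_C, pow_zero, mul_one] at hd
    rw [pow_zero, pow_one, nsmul_eq_mul]
    have h1 : ((m : ℕ) : F) = 0 := (CharP.cast_eq_zero_iff F 2 m).2 hd
    rw [h1, zero_mul]
  · have h2 : 2 ≤ 2 ^ k := by
      calc 2 = 2 ^ 1 := (pow_one 2).symm
        _ ≤ 2 ^ k := Nat.pow_le_pow_right hℓ0 h0
    have h3 : (Polynomial.X ^ 2 ^ k - Polynomial.C c : Polynomial F).nextCoeff = 0 := by
      rw [Polynomial.nextCoeff_of_natDegree_pos (by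
        rw [Polynomial.natDegree_X_pow_sub_C]
        exact hk), Polynomial.natDegree_X_pow_sub_C, Polynomial.coeff_sub,
        Polynomial.coeff_X_pow, Polynomial.coeff_C, if_neg (by omega), if_neg (by omega),
        sub_zero]
    rw [h3, smul_zero]

theorem grpP_supp {B : SkewH E V} {p : PChar F} (W : WeilRep B p) {c : F} {g₀ : GV E V}
    (hg : IsSim B c g₀) (τ : AntiU B)
    (hpos : 0 < Module.finrank E V) (hdvd : 2 ∣ Module.finrank E V)
    (hgood : ∀ P : Polynomial F, P.Monic → P.natDegree = Module.finrank E V → P.coeff 0 ≠ 0 →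
      ¬ SpecP 2 P → PGood W P)
    (D : SF (SA B) (SF V ℂ) →ₗ[ℂ] ℂ) (hD : EInvA W hg τ D) :
    SF.SuppOn D {X : SA B | LinearMap.trace E V X.1 = 0} := by
  classical
  haveI := lc_SA F B
  haveI := td_SA F B
  haveI : TotallySeparatedSpace (ℕ → E) := ts_seqE F ℕ
  haveI : ExpChar F 2 := ExpChar.prime Nat.prime_two
  let π : SA B → (ℕ → E) := fun X i => (LinearMap.charpoly X.1).coeff i
  have hπ : Continuous π := continuous_pi fun i =>
    (continuous_charcoef i).comp continuous_subtype_val
  let Y₀ : Set (ℕ → E) := {y | y (Module.finrank E V - 1) = 0}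
  have hY₀ : IsClosed Y₀ := isClosed_eq (continuous_apply _) continuous_const
  let a : Option (UU B) → SA B ≃ₜ SA B := fun i =>
    i.elim (saSimT hg τ).h fun k => (saConjT B k⁻¹).h
  have ha : ∀ i x, π (a i x) = π x := by
    intro i x
    funext j
    show (LinearMap.charpoly (a i x).1).coeff j = _
    rw [grpp_pi hg τ i x]
  have hnext : ∀ X : Module.End E V, (LinearMap.charpoly X).nextCoeff =
      (LinearMap.charpoly X).coeff (Module.finrank E V - 1) := by
    intro X
    rw [Polynomial.nextCoeff_of_natDegree_pos (by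
      rw [LinearMap.charpoly_natDegree]
      exact hpos), LinearMap.charpoly_natDegree]
  have hmain : SF.SuppOn D {x | π x ∈ Y₀} := by
    refine grpp_loc π hπ Y₀ hY₀ a ha
      (fun i => i.elim (tneg F τ ∘ₗ W.r (simK hg τ)⁻¹) fun k => W.l k ∘ₗ W.r (simC hg k))
      (fun i => i.elim (-1) fun _ => 1) ?_ D ?_
    · intro y hy S hS
      by_cases hne : ∃ X0, π X0 = y
      · obtain ⟨X0, hX0⟩ := hne
        have hcl : IsClosed {x | π x = y} := isClosed_eq hπ continuous_const
        have hmem : ∀ X, LinearMap.charpoly X.1 = LinearMap.charpoly X0.1 → π X = y := by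
          intro X hX
          rw [← hX0]
          funext i
          show (LinearMap.charpoly X.1).coeff i = _
          rw [hX]
        have hT0 : S ∘ₗ (SF.restr {x | π x = y} hcl : SF (SA B) (SF V ℂ) →ₗ[ℂ] _) = 0 := by
          refine grpP3 W hg τ 2 hgood (LinearMap.charpoly X0.1) ?_ _ ⟨fun k f => ?_, fun f => ?_⟩
            fun f hf => ?_
          · intro Q hQ h1
            apply hy
            rw [← hX0]
            show (LinearMap.charpoly X0.1).coeff (Module.finrank E V - 1) = 0
            rw [← hnext, h1, Polynomial.nextCoeff_map (algebraMap F E).injective]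
            have h2 : Q.natDegree = Module.finrank E V := by
              rw [← Polynomial.natDegree_map (algebraMap F E) (p := Q), ← h1,
                LinearMap.charpoly_natDegree]
            rw [grpp_next Q hQ (by rw [h2]; exact hdvd), map_zero]
          · have h1 := hS (some k) (SF.restr {x | π x = y} hcl f)
            simp only [Option.elim_some, one_mul] at h1
            refine Eq.trans ?_ h1
            show S _ = S _
            congr 1
          · have h1 := hS none (SF.restr {x | π x = y} hcl f)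
            simp only [Option.elim_none, neg_mul, one_mul] at h1
            refine Eq.trans ?_ h1
            show S _ = S _
            congr 1
          · show S _ = 0
            have h1 : SF.restr {x | π x = y} hcl f = 0 := by
              apply SF.ext
              intro z
              refine hf z.1 ?_
              have h2 : π z.1 = π X0 := z.2.trans hX0.symm
              exact Polynomial.ext fun i => congrFun h2 i
            rw [h1, map_zero]
        refine LinearMap.ext fun g => ?_
        obtain ⟨f, hf⟩ := restr_surjective {x | π x = y} hcl g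
        have h2 := congrArg (fun R : SF (SA B) (SF V ℂ) →ₗ[ℂ] ℂ => R f) hT0
        have h3 : S (SF.restr {x | π x = y} hcl f) = 0 := h2
        rw [hf] at h3
        exact h3
      · refine LinearMap.ext fun g => ?_
        have h1 : g = 0 := by
          apply SF.ext
          intro z
          exact absurd ⟨z.1, z.2⟩ hne
        rw [h1, map_zero, map_zero]
    · intro i f
      cases i with
      | none =>
        have h1 := hD.anti f
        show D (SF.opr (saSimT hg τ).h (tneg F τ ∘ₗ W.r (simK hg τ)⁻¹) f) = -1 * D f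
        rw [h1]
        ring
      | some k =>
        have h1 := hD.inv k f
        show D (SF.opr (saConjT B k⁻¹).h (W.l k ∘ₗ W.r (simC hg k)) f) = 1 * D f
        rw [h1, one_mul]
  intro f hf
  refine hmain f fun z hz => hf z ?_
  show LinearMap.trace E V z.1 = 0
  rw [sa0_trace_eq, hnext]
  have h1 : (LinearMap.charpoly z.1).coeff (Module.finrank E V - 1) = 0 := hz
  rw [h1, neg_zero]

/-- the case `P = (x - c)^m` -/
theorem grpP {B : SkewH E V} {p : PChar F} (W : WeilRep B p) (m : ℕ) (c : F)
    (hbad : Bad F E (Polynomial.X - Polynomial.C c))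
    (hn : Even (Module.finrank E V)) (hpos : 0 < Module.finrank E V) (hm : 0 < m)
    (hgood : ∀ P : Polynomial F, P.Monic → P.natDegree = Module.finrank E V → P.coeff 0 ≠ 0 →
      ¬ SpecP 2 P → PGood W P) :
    PGood W ((Polynomial.X - Polynomial.C c) ^ m) := by
  set q : Polynomial F := Polynomial.X - Polynomial.C c with hq
  have hqd : 0 < q.natDegree := by
    rw [hq, Polynomial.natDegree_X_sub_C]
    exact one_pos
  intro τ T hT
  obtain ⟨h1, h2, h3, h4⟩ := inG_of_inGP W τ _ T hT
  obtain ⟨c0, hc0, hc0n⟩ := exists_nonnorm F E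
  obtain ⟨g₀, hg₀⟩ := exists_simA B hn c0 hc0
  obtain ⟨b, hb⟩ := exists_bc q 1 odd_one c c0 (by rw [hq, pow_one]) hbad hc0 hc0n m
  have h0 : (q ^ m).coeff 0 ≠ 0 := by
    rw [Polynomial.coeff_zero_eq_eval_zero, Polynomial.eval_pow,
      ← Polynomial.coeff_zero_eq_eval_zero]
    exact pow_ne_zero _ hbad.2.2.1
  obtain ⟨S, hS0, hSs, hSi⟩ := grpP1 W (q ^ m) h0 c0 g₀ hg₀ b hb τ _ h1 h2 h3
  apply h4
  apply hS0
  refine grpP2 p (q ^ m) ?_ S hSs
    (grpP_supp W hg₀ τ hpos hn.two_dvd hgood _ (fourA_EInvA W hg₀ τ S hSi))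
  rw [Polynomial.natDegree_pow]
  exact Nat.mul_pos hm hqd

end

end Pool.Agent.Work.MP_dd0ddf_al.C2
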