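import Pool.Agent.Work.MP_dd0ddf_al.C2.GrpA
import Pool.Agent.Work.MP_dd0ddf_al.C2.GrpB2
import Pool.Agent.Work.MP_dd0ddf_al.C2.GrpC2
import Pool.Agent.Work.MP_dd0ddf_al.C2.GrpD2
import Pool.Agent.Work.MP_dd0ddf_al.C2.GrpF
import Pool.Agent.Work.MP_dd0ddf_al.C2.GrpP

/-!
# MP_dd0ddf_al, module GrpAll: the group level theorem: induction on the dimension

Induction on n: `GrpHyp n`.  Let `finrank E V ≤ n`; induction hypothesis `GrpHyp (finrank E V - 1)` (if finrank = 0 it is not needed: P = 1 has no bad factor; note `GrpHyp` is monotone).  `grp_of_pgood`.  Let `P` be monic of degree n, `P(0) ≠ 0`.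
If no bad `q` divides P: `grpB`.  Otherwise take a bad `q ∣ P` and write `P = q^m P'`, `q ∤ P'`, m ≥ 1, P' monic, coprime to q (q is irreducible over F because it is over E).  m odd: `grpA`.  m even, `P' ≠ 1`: `grpC`.  m even, `P' = 1`, deg q > 1: `grpD`.
m even, `P' = 1`, `q = q1(x^(2^k))` with `q1` separable of degree 1: `grpP` if k = 0 (its hypothesis `hgood` concerns the same V and polynomials not of the form (x^(2^k) - c')^m, for which the previous cases apply), `grpF` if k ≥ 1.
-/

set_option linter.unusedSectionVars false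
set_option linter.style.haveILetI false

namespace Pool.Agent.Work.MP_dd0ddf_al.C2

noncomputable section

universe u

variable {F E : Type u} [NontriviallyNormedField F] [IsUltrametricDist F] [ProperSpace F]
  [CharP F 2] [NontriviallyNormedField E] [NormedAlgebra F E] [ProperSpace E] [StarRing E]
  [QExt F E] [Dl E] [MeasurableSpace E] [BorelSpace E]
variable {V : Type u} [AddCommGroup V] [Module E V] [Module.Finite E V] [TopologicalSpace V]
  [IsTopologicalAddGroup V] [T2Space V] [ContinuousSMul E V]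

private theorem grpall_main {B : SkewH E V} {p : PChar F} (W : WeilRep B p) (ℓ : ℕ)
    [hexp : ExpChar F ℓ]
    (IH : 0 < Module.finrank E V → GrpHyp.{u} (Module.finrank E V - 1)) (P : Polynomial F)
    (hP : P.Monic) (hd : P.natDegree = Module.finrank E V) (h0 : P.coeff 0 ≠ 0)
    (hlast : ∀ (k m : ℕ) (c' : F), P = (Polynomial.X ^ ℓ ^ k - Polynomial.C c') ^ m →
      Bad F E (Polynomial.X ^ ℓ ^ k - Polynomial.C c') → 0 < m →
      0 < Module.finrank E V → Even m → PGood W P) :
    PGood W P := by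
  by_cases hb : ∃ q : Polynomial F, Bad F E q ∧ q ∣ P
  swap
  · refine grpB W P hP h0 fun q hq hqP => hb ⟨q, hq, hqP⟩
  obtain ⟨q, hq, hqP⟩ := hb
  have hqi : Irreducible q := hq.1.irreducible_of_irreducible_map _ _ hq.2.1
  have hqd : 0 < q.natDegree := hqi.natDegree_pos
  have hP0 : P ≠ 0 := hP.ne_zero
  have hfin : FiniteMultiplicity q P :=
    Polynomial.finiteMultiplicity_of_degree_pos_of_monic (Polynomial.natDegree_pos_iff_degree_pos.1 hqd)
      hq.1 hP0
  obtain ⟨P', hPP, hnd⟩ := hfin.exists_eq_pow_mul_and_not_dvd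
  set m : ℕ := multiplicity q P with hm
  have hm0 : 0 < m := by
    rcases Nat.eq_zero_or_pos m with h | h
    · rw [h, pow_zero, one_mul] at hPP
      rw [hPP] at hqP
      exact absurd hqP hnd
    · exact h
  clear_value m
  have hqm : (q ^ m).Monic := hq.1.pow m
  have hP'm : P'.Monic := by
    refine hqm.of_mul_monic_left ?_
    rw [← hPP]
    exact hP
  have hdeg : P.natDegree = m * q.natDegree + P'.natDegree := by
    rw [hPP, hqm.natDegree_mul hP'm, hq.1.natDegree_pow]
  have hpos : 0 < Module.finrank E V := by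
    rw [← hd, hdeg]
    have := Nat.mul_pos hm0 hqd
    omega
  rcases Nat.even_or_odd m with hev | hodd
  swap
  · rw [hPP]
    exact grpA W q P' m hq hodd hnd
  rcases Nat.eq_zero_or_pos P'.natDegree with hP'0 | hP'pos
  swap
  · rw [hPP]
    refine grpC W q P' m hev hm0 hq.1 hq.2.2.1 hqd hP'm hP'pos
      ((hqi.coprime_iff_not_dvd.2 hnd).pow_left) ?_ (IH hpos)
    rw [← hPP, hd]
  have hP'1 : P' = 1 := hP'm.natDegree_eq_zero.1 hP'0
  rw [hP'1, mul_one] at hPP
  rw [hP'0, add_zero] at hdeg
  -- the separable contraction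
  obtain ⟨q1, hsep, k, hk⟩ := hqi.hasSeparableContraction ℓ
  have hℓ : 0 < ℓ ^ k := expChar_pow_pos F ℓ k
  have hq1m : q1.Monic := (Polynomial.monic_expand_iff hℓ).1 (by rw [hk]; exact hq.1)
  have hq1i : Irreducible (q1.map (algebraMap F E)) := by
    apply Polynomial.of_irreducible_expand (R := E) hℓ.ne'
    rw [← Polynomial.map_expand, hk]
    exact hq.2.1
  have hq1d : 0 < q1.natDegree := by
    have h1 := hq1i.natDegree_pos
    rwa [Polynomial.natDegree_map] at h1
  by_cases hq1 : q1.natDegree = 1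
  · have hqq : q = Polynomial.X ^ ℓ ^ k - Polynomial.C (-(q1.coeff 0)) := by
      rw [← hk]
      conv_lhs => rw [hq1m.eq_X_add_C hq1]
      rw [map_add, Polynomial.expand_X, Polynomial.expand_C, Polynomial.C_neg, sub_neg_eq_add]
    exact hlast k m (-(q1.coeff 0)) (by rw [hPP, ← hqq]) (by rw [← hqq]; exact hq) hm0 hpos hev
  · rw [hPP]
    refine grpD W q q1 (Polynomial.X ^ ℓ ^ k) m hq1m hq1i hsep ?_ (by omega) hpos (IH hpos)
    rw [← Polynomial.expand_eq_comp_X_pow, hk]

theorem grp_ne {B : SkewH E V} {p : PChar F} (W : WeilRep B p) (ℓ : ℕ) [ExpChar F ℓ]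
    (IH : 0 < Module.finrank E V → GrpHyp.{u} (Module.finrank E V - 1)) (P : Polynomial F)
    (hP : P.Monic) (hd : P.natDegree = Module.finrank E V) (h0 : P.coeff 0 ≠ 0)
    (hne : ¬ SpecP ℓ P) : PGood W P :=
  grpall_main W ℓ IH P hP hd h0 fun k m c' h _ _ _ _ => absurd ⟨k, m, c', h⟩ hne

theorem grp_all (n : ℕ) : GrpHyp.{u} n := by
  induction n using Nat.strong_induction_on with
  | _ n ihn =>
    intro F E _ _ _ _ _ _ _ _ _ _ _ _ V _ _ _ _ _ _ _ B p W hle
    have IH : 0 < Module.finrank E V → GrpHyp.{u} (Module.finrank E V - 1) := fun hpos =>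
      ihn _ (by omega)
    haveI : ExpChar F 2 := ExpChar.prime Nat.prime_two
    refine grp_of_pgood W fun P hP hd h0 => ?_
    refine grpall_main W 2 IH P hP hd h0 fun k m c' h hbad hm hpos hev => ?_
    have hℓ : 0 < 2 ^ k := pow_pos two_pos k
    have hnm : Module.finrank E V = m * 2 ^ k := by
      rw [← hd, h, (Polynomial.monic_X_pow_sub_C _ hℓ.ne').natDegree_pow,
        Polynomial.natDegree_X_pow_sub_C]
    rw [h]
    rcases Nat.eq_zero_or_pos k with hk | hk
    · subst hk
      rw [pow_zero, pow_one] at hbad ⊢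
      refine grpP W m c' hbad ?_ hpos hm fun P hP hd h0 hne => grp_ne W 2 IH P hP hd h0 hne
      rw [hnm, pow_zero, mul_one]
      exact hev
    · exact grpF W k m c' hk hbad hev hm hnm (IH hpos)

end

end Pool.Agent.Work.MP_dd0ddf_al.C2
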