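import Pool.Agent.Work.MP_dd0ddf_al.C2.LMod
import Pool.Agent.Work.MP_dd0ddf_al.C2.KForm
import Pool.Agent.Work.MP_dd0ddf_al.C2.K64

/-!
# MP_dd0ddf_al, module KOrb: the self-adjoint operators X with q(X) = 0 form one U(V)-orbit

`isom_L`: E-isometric L-spaces are L-isometric.  `dim_L V = dim_L V'`.  Choose L-bases `b, b'`; `disc_transfer`: the E-Gram determinants in suitable bases are `D N_{L/E}(det gram BL b)`, `D N_{L/E}(det gram BL' b')` (same D);
φ transports a basis, so by `gram_change` their quotient is `c star c`, c ∈ E^×.  `ρ = det gram BL' b' / det gram BL b` is fixed by star (both determinants satisfy `star d = (-1)^r d`), so `ρ ∈ K^×`, `N_{L/E}(ρ) = N_{K/F}(ρ)` (kc_norm_K) is a norm from E;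
by `norm64` ρ is a norm from L: `isometric_of_disc` over (K, L).
`sigq_trans`: KData `D`; two L-structures on V given by X and Y (exists_LMod; use `@` or a type synonym for the second copy of V), forms `BL, BL'` (exists_BL); `isom_L` with φ = id gives an L-semilinear... i.e. E-linear isometry h of V with
`h X = Y h`.
-/

set_option linter.unusedSectionVars false
set_option linter.style.haveILetI false

namespace Pool.Agent.Work.MP_dd0ddf_al.C2

noncomputable section

universe u

variable {F E : Type u} [NontriviallyNormedField F] [IsUltrametricDist F] [ProperSpace F]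
  [CharP F 2] [NontriviallyNormedField E] [NormedAlgebra F E] [ProperSpace E] [StarRing E]
  [QExt F E]
variable {K L : Type u} [NontriviallyNormedField K] [IsUltrametricDist K] [ProperSpace K]
  [CharP K 2] [NontriviallyNormedField L] [NormedAlgebra K L] [ProperSpace L] [StarRing L]
  [QExt K L] [NormedAlgebra F K] [NormedAlgebra E L]
  [Algebra F L] [KCompat F E K L]
variable {V V' : Type u} [AddCommGroup V] [Module E V] [Module L V] [IsScalarTower E L V]
  [Module.Finite E V] [Module.Finite L V] [AddCommGroup V'] [Module E V'] [Module L V']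
  [IsScalarTower E L V'] [Module.Finite E V'] [Module.Finite L V']

private theorem korb_gram {E V : Type*} [Field E] [StarRing E] [AddCommGroup V] [Module E V]
    (B : SkewH E V) {n : ℕ} (b : Module.Basis (Fin n) E V) : (gram B b).det ≠ 0 := by
  intro h
  rw [← Matrix.exists_vecMul_eq_zero_iff] at h
  obtain ⟨c, hc0, hc⟩ := h
  apply hc0
  have hsum : ∀ (c : Fin n → E) (v : V), B.ip (∑ i, c i • b i) v = ∑ i, c i * B.ip (b i) v := by
    intro c v
    have h := map_sum (B.lin v) (fun i => c i • b i) Finset.univ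
    simp only [map_smul] at h
    exact h
  have h1 : ∑ i, c i • b i = 0 := by
    apply B.nondeg
    intro v
    have h3 : v = ∑ j, b.repr v j • b j := (b.sum_repr v).symm
    rw [B.skew, h3, hsum, Finset.sum_eq_zero, star_zero, neg_zero]
    intro j _
    have h5 := congrFun hc j
    have h6 : B.ip (∑ i, c i • b i) (b j) = 0 := by
      rw [hsum]
      exact h5
    rw [B.skew _ (b j), h6, star_zero, neg_zero, mul_zero]
  funext i
  exact Fintype.linearIndependent_iff.1 b.linearIndependent c h1 i

private theorem korb_star {E V : Type*} [Field E] [StarRing E] [AddCommGroup V] [Module E V]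
    (B : SkewH E V) {r : ℕ} (w : Fin r → V) :
    star (gram B w).det = (-1) ^ r * (gram B w).det := by
  rw [← Matrix.det_conjTranspose]
  have h1 : (gram B w).conjTranspose = - gram B w := by
    ext i j
    rw [Matrix.conjTranspose_apply, Matrix.neg_apply]
    show star (B.ip (w j) (w i)) = - B.ip (w i) (w j)
    rw [B.skew (w j) (w i), neg_neg]
  rw [h1, Matrix.det_neg, Fintype.card_fin]

variable (F K) in
include F K in
theorem isom_L (B : SkewH E V) (B' : SkewH E V') (BL : SkewH L V) (BL' : SkewH L V')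
    (h : ∀ v w, tl F E K L (BL.ip v w) = B.ip v w)
    (h' : ∀ v w, tl F E K L (BL'.ip v w) = B'.ip v w)
    (φ : V ≃ₗ[E] V') (hφ : ∀ v w, B'.ip (φ v) (φ w) = B.ip v w) :
    ∃ ψ : V ≃ₗ[L] V', ∀ v w, BL'.ip (ψ v) (ψ w) = BL.ip v w := by
  haveI : FiniteDimensional F K := KCompat.fd (F := F) (E := E) (K := K) (L := L)
  have hEL : 0 < Module.finrank E L := by
    rw [← KCompat.deg (F := F) (E := E) (K := K) (L := L)]
    exact Module.finrank_pos
  haveI : FiniteDimensional E L := FiniteDimensional.of_finrank_pos hEL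
  have hdim : Module.finrank L V' = Module.finrank L V := by
    have h1 := φ.finrank_eq
    rw [← Module.finrank_mul_finrank E L V, ← Module.finrank_mul_finrank E L V'] at h1
    exact (Nat.eq_of_mul_eq_mul_left hEL h1).symm
  let b := Module.finBasis L V
  let b' : Module.Basis (Fin (Module.finrank L V)) L V' := Module.finBasisOfFinrankEq L V' hdim
  obtain ⟨D, hD0, hD⟩ := disc_transfer (F := F) (E := E) K (L := L) (Module.finrank L V)
  obtain ⟨n, b1, hn, e1⟩ := hD V B BL h b
  obtain ⟨n', b1', hn', e1'⟩ := hD V' B' BL' h' b'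
  have hnn : n' = n := by rw [hn, hn']
  subst hnn
  obtain ⟨c, hc0, hc⟩ := gram_change B' (b1.map φ) b1'
  have hφg : gram B' (b1.map φ) = gram B b1 := by
    ext i j
    show B'.ip (b1.map φ i) (b1.map φ j) = B.ip (b1 i) (b1 j)
    rw [Module.Basis.map_apply, Module.Basis.map_apply, hφ]
  rw [hφg, e1, e1'] at hc
  set d := (gram BL b).det with hd
  set d' := (gram BL' b').det with hd'
  have hd0 : d ≠ 0 := korb_gram BL b
  have hd0' : d' ≠ 0 := korb_gram BL' b'
  have hDE : algebraMap F E D ≠ 0 := (map_ne_zero (algebraMap F E)).2 hD0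
  have hN : Algebra.norm E d' = c * star c * Algebra.norm E d := by
    refine mul_left_cancel₀ hDE ?_
    rw [hc]
    ring
  obtain ⟨-, -, -, -, -, hfix⟩ := exists_eta K L
  have hst : star (d' / d) = d' / d := by
    rw [star_div₀, hd, hd', korb_star, korb_star, mul_div_mul_left]
    exact pow_ne_zero _ (neg_ne_zero.2 one_ne_zero)
  obtain ⟨k, hk⟩ := hfix _ hst
  have hk0 : k ≠ 0 := by
    rintro rfl
    rw [map_zero] at hk
    exact (div_ne_zero hd0' hd0) hk
  have hNd : Algebra.norm E d ≠ 0 := by
    rw [Ne, Algebra.norm_eq_zero_iff]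
    exact hd0
  have hnorm : c * star c = algebraMap F E (Algebra.norm F k) := by
    rw [← kc_norm_K (E := E) (L := L), ← hk]
    refine mul_right_cancel₀ hNd ?_
    rw [← hN, ← map_mul, div_mul_cancel₀ _ hd0]
  obtain ⟨z, hz0, hz⟩ := (norm64 (F := F) (E := E) (K := K) (L := L) k hk0).2 ⟨c, hc0, hnorm⟩
  refine isometric_of_disc K BL BL' b b' z hz0 ?_
  rw [hz, ← hk, ← hd, ← hd', div_mul_cancel₀ _ hd0]

section

variable {F E : Type u} [NontriviallyNormedField F] [IsUltrametricDist F] [ProperSpace F]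
  [CharP F 2] [NontriviallyNormedField E] [NormedAlgebra F E] [ProperSpace E] [StarRing E]
  [QExt F E]
variable {V : Type u} [AddCommGroup V] [Module E V] [Module.Finite E V] [TopologicalSpace V]
  [IsTopologicalAddGroup V] [T2Space V] [ContinuousSMul E V]

/-- self-adjoint operators `X` with `q(X) = 0` -/
def SigQ (B : SkewH E V) (q : Polynomial F) : Set (SA B) :=
  {X | Polynomial.aeval X.1 (q.map (algebraMap F E)) = 0}

theorem sigq_closed (B : SkewH E V) (q : Polynomial F) : IsClosed (SigQ B q) := by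
  haveI : IsTopologicalSemiring (Module.End E V) := {}
  have h1 : Continuous (fun X : Module.End E V =>
      Polynomial.aeval X (q.map (algebraMap F E))) :=
    (q.map (algebraMap F E)).continuous_aeval
  haveI : T2Space (Module.End E V) := inferInstance
  exact isClosed_eq (h1.comp continuous_subtype_val) continuous_const

theorem sigq_conj (B : SkewH E V) (q : Polynomial F) (h : UU B) (X : SA B) (hX : X ∈ SigQ B q) :
    saConj B h X ∈ SigQ B q := by
  have h1 : h.1⁻¹.1 * h.1.1 = 1 := h.1.inv_mul
  have h2 : h.1.1 * h.1⁻¹.1 = 1 := h.1.mul_inv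
  have key : ∀ P : Polynomial E, Polynomial.aeval (h.1.1 * X.1 * h.1⁻¹.1) P =
      h.1.1 * Polynomial.aeval X.1 P * h.1⁻¹.1 := by
    intro P
    induction P using Polynomial.induction_on' with
    | add f g hf hg => rw [map_add, map_add, hf, hg, mul_add, add_mul]
    | monomial k c =>
      have hpow : (h.1.1 * X.1 * h.1⁻¹.1) ^ k = h.1.1 * X.1 ^ k * h.1⁻¹.1 := by
        induction k with
        | zero => rw [pow_zero, pow_zero, mul_one, h2]
        | succ k ih =>
          rw [pow_succ, ih, pow_succ]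
          calc h.1.1 * X.1 ^ k * h.1⁻¹.1 * (h.1.1 * X.1 * h.1⁻¹.1)
              = h.1.1 * X.1 ^ k * (h.1⁻¹.1 * h.1.1) * X.1 * h.1⁻¹.1 := by simp only [mul_assoc]
            _ = h.1.1 * (X.1 ^ k * X.1) * h.1⁻¹.1 := by rw [h1, mul_one]; simp only [mul_assoc]
      rw [Polynomial.aeval_monomial, Polynomial.aeval_monomial, hpow, ← Algebra.smul_def,
        ← Algebra.smul_def, mul_smul_comm, smul_mul_assoc]
  show Polynomial.aeval (h.1.1 * X.1 * h.1⁻¹.1) (q.map (algebraMap F E)) = 0
  have hX' : Polynomial.aeval X.1 (q.map (algebraMap F E)) = 0 := hX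
  rw [key, hX', mul_zero, zero_mul]

/-- an `L`-structure compatible with `B` in which `X` is multiplication by `s` -/
private structure KorbMod {q : Polynomial F} (D : KData F E q) {V : Type u} [AddCommGroup V]
    [Module E V] [TopologicalSpace V] (B : SkewH E V) (X : Module.End E V) : Type u where
  M : Module D.L V
  T : IsScalarTower E D.L V
  cont : ContinuousSMul D.L V
  fin : Module.Finite D.L V
  sX : ∀ v : V, (algebraMap D.K D.L D.s) • v = X v
  adj : ∀ (x : D.L) (v w : V), B.ip (x • v) w = B.ip v (star x • w)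

private theorem korb_aux {q : Polynomial F} (D : KData F E q) {V V' : Type u} [AddCommGroup V]
    [Module E V] [Module.Finite E V] [TopologicalSpace V]
    [IsTopologicalAddGroup V] [T2Space V] [ContinuousSMul E V]
    [AddCommGroup V'] [Module E V'] [Module.Finite E V'] [TopologicalSpace V']
    [IsTopologicalAddGroup V'] [T2Space V'] [ContinuousSMul E V']
    (B : SkewH E V) (B' : SkewH E V') (X : Module.End E V) (X' : Module.End E V')
    (m : KorbMod D B X) (m' : KorbMod D B' X')
    (φ : V ≃ₗ[E] V') (hφ : ∀ v w, B'.ip (φ v) (φ w) = B.ip v w) :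
    ∃ ψ : V ≃ₗ[E] V', (∀ v, ψ (X v) = X' (ψ v)) ∧ ∀ v w, B'.ip (ψ v) (ψ w) = B.ip v w := by
  letI := m.M
  letI := m'.M
  haveI := m.T
  haveI := m'.T
  haveI := m.cont
  haveI := m'.cont
  haveI := m.fin
  haveI := m'.fin
  obtain ⟨BL, hBL⟩ := exists_BL F D.K (L := D.L) B m.adj
  obtain ⟨BL', hBL'⟩ := exists_BL F D.K (L := D.L) B' m'.adj
  obtain ⟨ψ, hψ⟩ := isom_L F D.K B B' BL BL' hBL hBL' φ hφ
  refine ⟨ψ.restrictScalars E, fun v => ?_, fun v w => ?_⟩
  · show ψ (X v) = X' (ψ v)
    rw [← m.sX, ← m'.sX, map_smul]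
  · show B'.ip (ψ v) (ψ w) = B.ip v w
    rw [← hBL', ← hBL, hψ]

theorem sigq_trans (B : SkewH E V) (q : Polynomial F) (hq : q.Monic)
    (hirr : Irreducible (q.map (algebraMap F E))) (X Y : SA B) (hX : X ∈ SigQ B q)
    (hY : Y ∈ SigQ B q) : ∃ h : UU B, saConj B h X = Y := by
  obtain ⟨D⟩ := exists_KData q hq hirr
  obtain ⟨M1, T1, C1, F1, s1, a1⟩ := exists_LMod D B X hX
  obtain ⟨M2, T2, C2, F2, s2, a2⟩ := exists_LMod D B Y hY
  obtain ⟨ψ, hψ1, hψ2⟩ := korb_aux D B B X.1 Y.1 ⟨M1, T1, C1, F1, s1, a1⟩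
    ⟨M2, T2, C2, F2, s2, a2⟩
    (LinearEquiv.refl E V) (fun _ _ => rfl)
  let g : GV E V :=
    { val := ψ.toLinearMap
      inv := ψ.symm.toLinearMap
      val_inv := by
        ext v
        exact ψ.apply_symm_apply v
      inv_val := by
        ext v
        exact ψ.symm_apply_apply v }
  refine ⟨⟨g, hψ2⟩, ?_⟩
  apply Subtype.ext
  ext v
  show ψ (X.1 (ψ.symm v)) = Y.1 v
  rw [hψ1, ψ.apply_symm_apply]

end

end

end Pool.Agent.Work.MP_dd0ddf_al.C2
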