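import Pool.Agent.Work.MP_dd0ddf_al.C2.PrjGP
import Pool.Agent.Work.MP_dd0ddf_al.C2.GrpDesc
import Pool.Agent.Work.MP_dd0ddf_al.C2.LinDefs
import Pool.Agent.Work.MP_dd0ddf_al.C2.KOrb

/-!
# MP_dd0ddf_al, module GrpC1: case P = q^m P': descent to the elements commuting with a projector

`Y = {g ∈ G_P : e(g g^*) = h X0 h⁻¹ for some h ∈ U(V)}`, `X0 = e(g0 g0^*)`: closed, open in G_P (prj_orb_closed, prj_orb_open, eL_prj, continuous_eL), stable under Γ (eL_act) and θ (eL_thG, eLR_conj, and: the τ-conjugate `τ Z τ` of a self-adjoint idempotent Z is in the U(V)-orbit of Z: the τ-images of a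
basis u of range Z form a basis of range τZτ with transposed Gram matrix; prj_disc with c = 1).
For `g ∈ Y` also `e(g^* g)` is in the orbit (eLR_conj).  `grp_desc` with `O = Orb × Orb`, `Orb = {Z : ∃ h, h X0 h⁻¹ = Z}` (closed subset of SA B), `π g = (e(g g^*), e(g^* g))`, `o = (X0, X0)`, `k = 1`.  The fibre consists of elements commuting with X0 (eL_comm); the stabiliser is `centX × centX`.
-/

set_option linter.unusedSectionVars false
set_option linter.style.haveILetI false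

namespace Pool.Agent.Work.MP_dd0ddf_al.C2

noncomputable section

universe u

variable {F E : Type u} [NontriviallyNormedField F] [IsUltrametricDist F] [ProperSpace F]
  [CharP F 2] [NontriviallyNormedField E] [NormedAlgebra F E] [ProperSpace E] [StarRing E]
  [QExt F E] [Dl E] [MeasurableSpace E] [BorelSpace E]
variable {V : Type u} [AddCommGroup V] [Module E V] [Module.Finite E V] [TopologicalSpace V]
  [IsTopologicalAddGroup V] [T2Space V] [ContinuousSMul E V]

/-- the piece of `G_P` over the orbit of `X₀` -/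
def YC (B : SkewH E V) (P e : Polynomial F) (X₀ : SA B) : Set (GV E V) :=
  {g | g ∈ GP B P ∧ ∃ h : UU B, saConj B h X₀ = eL B e g}

private theorem grpc1_mul (B : SkewH E V) (h h' : UU B) (X : SA B) :
    saConj B h (saConj B h' X) = saConj B (h * h') X := by
  apply Subtype.ext
  show h.1.1 * (h'.1.1 * X.1 * h'.1⁻¹.1) * h.1⁻¹.1 = (h.1 * h'.1).1 * X.1 * (h.1 * h'.1)⁻¹.1
  rw [mul_inv_rev, Units.val_mul, Units.val_mul]
  simp only [mul_assoc]

private theorem grpc1_one (B : SkewH E V) (X : SA B) : saConj B 1 X = X := by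
  apply Subtype.ext
  show (1 : GV E V).1 * X.1 * (1 : GV E V)⁻¹.1 = X.1
  rw [inv_one, Units.val_one, one_mul, mul_one]

private theorem grpc1_zero {B : SkewH E V} (τ : AntiU B) : τ.t 0 = 0 := by
  have := τ.smul 0 0
  rw [zero_smul, star_zero, zero_smul] at this
  exact this

variable (F) in
include F in
/-- a self-adjoint idempotent and its `τ`-conjugate are conjugate under `U(V)` -/
private theorem grpc1_tau {B : SkewH E V} (τ : AntiU B) (r : ℕ) (Z Z' : SA B)
    (hZ : Z ∈ Prj B r) (hZ' : Z' ∈ Prj B r) (h : Z'.1 = conjτ τ Z.1) :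
    ∃ k : UU B, saConj B k Z = Z' := by
  classical
  have b : Module.Basis (Fin r) E (LinearMap.range Z.1) := Module.finBasisOfFinrankEq _ _ hZ.2
  have hZb : ∀ i, Z.1 (b i : V) = (b i : V) := by
    intro i
    obtain ⟨a, ha⟩ := (b i).2
    rw [← ha]
    exact LinearMap.congr_fun hZ.1 a
  have hu : LinearIndependent E (fun i => (b i : V)) :=
    b.linearIndependent.map' (Submodule.subtype _) (Submodule.ker_subtype _)
  have hτs : ∀ (s : Finset (Fin r)) (c : Fin r → E) (f : Fin r → V),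
      τ.t (∑ i ∈ s, c i • f i) = ∑ i ∈ s, star (c i) • τ.t (f i) := by
    intro s c f
    induction s using Finset.induction_on with
    | empty =>
      rw [Finset.sum_empty, Finset.sum_empty]
      exact grpc1_zero τ
    | insert a s ha ih => rw [Finset.sum_insert ha, Finset.sum_insert ha, τ.add, ih, τ.smul]
  have hw : LinearIndependent E (fun i => τ.t (b i : V)) := by
    rw [Fintype.linearIndependent_iff]
    intro c hc i
    have h1 : τ.t (∑ i, star (c i) • (b i : V)) = 0 := by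
      rw [hτs, ← hc]
      refine Finset.sum_congr rfl fun i _ => ?_
      rw [star_star]
    have h2 : ∑ i, star (c i) • (b i : V) = 0 := by
      rw [← τ.inv (∑ i, star (c i) • (b i : V)), h1, grpc1_zero]
    have h3 := Fintype.linearIndependent_iff.1 hu (fun i => star (c i)) h2 i
    rw [← star_star (c i), h3, star_zero]
  refine prj_disc F B r Z Z' hZ hZ' (fun i => (b i : V)) (fun i => τ.t (b i : V)) hu hw hZb ?_ 1
    one_ne_zero ?_
  · intro i
    rw [h]
    show τ.t (Z.1 (τ.t (τ.t (b i : V)))) = τ.t (b i : V)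
    rw [τ.inv, hZb]
  · rw [star_one, one_mul, one_mul, ← Matrix.det_transpose]
    congr 1
    ext i j
    show B.ip (τ.t (b j : V)) (τ.t (b i : V)) = B.ip (b i : V) (b j : V)
    rw [τ.ip]

theorem yC_props (B : SkewH E V) (q P' e : Polynomial F) (m : ℕ) (hm : Even m) (hq : q.Monic)
    (hq0 : q.coeff 0 ≠ 0) (hP' : P'.Monic)
    (hco : IsCoprime (q ^ m) P') (he : q ^ m ∣ e - 1) (he' : P' ∣ e) (X₀ : SA B)
    (hX₀ : X₀ ∈ Prj B (m * q.natDegree)) :
    IsClosed (YC B (q ^ m * P') e X₀) ∧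
    IsOpen ((fun g : GP B (q ^ m * P') => g.1) ⁻¹' (YC B (q ^ m * P') e X₀)) ∧
    (∀ γ g, g ∈ YC B (q ^ m * P') e X₀ → (gC B).act γ g ∈ YC B (q ^ m * P') e X₀) ∧
    (∀ (τ : AntiU B), ∀ g ∈ YC B (q ^ m * P') e X₀, thG τ g ∈ YC B (q ^ m * P') e X₀) := by
  refine ⟨?_, ?_, ?_, ?_⟩
  · exact (gp_closed B (q ^ m * P')).inter
      ((prj_orb_closed F B _ X₀ hX₀).preimage (continuous_eL B e))
  · obtain ⟨W, hW, hWiff⟩ := prj_orb_open F B _ X₀ hX₀
    have h1 : (fun g : GP B (q ^ m * P') => g.1) ⁻¹' (YC B (q ^ m * P') e X₀) =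
        (fun g : GP B (q ^ m * P') => eL B e g.1) ⁻¹' W := by
      ext g
      have h2 := (eL_prj B q P' e m hq hP' hco he he' g.1 g.2).1
      constructor
      · intro hg
        exact (hWiff _ h2).2 hg.2
      · intro hg
        exact ⟨g.2, (hWiff _ h2).1 hg⟩
    rw [h1]
    exact hW.preimage ((continuous_eL B e).comp continuous_subtype_val)
  · rintro γ g ⟨hg, h, hh⟩
    refine ⟨gp_gC B _ γ g hg, γ.1 * h, ?_⟩
    rw [eL_act, ← hh, grpc1_mul]
  · rintro τ g ⟨hg, h, hh⟩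
    have hg' := gp_thG τ _ g hg
    refine ⟨hg', ?_⟩
    obtain ⟨h', hh'⟩ := eLR_conj B q P' e m hm hq hq0 hP' hco he he' g hg
    obtain ⟨k, hk⟩ := grpc1_tau F τ (m * q.natDegree) (eR B e g) (eL B e (thG τ g))
      (eL_prj B q P' e m hq hP' hco he he' g hg).2
      (eL_prj B q P' e m hq hP' hco he he' _ hg').1 (eL_thG τ e g)
    refine ⟨k * (h' * h), ?_⟩
    rw [← grpc1_mul, ← grpc1_mul, hh, hh', hk]

/-- the orbit of `X₀` -/
private def Grpc1Orb (B : SkewH E V) (X₀ : SA B) : Type u :=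
  {Z : SA B // ∃ h : UU B, saConj B h X₀ = Z}

private instance (B : SkewH E V) (X₀ : SA B) : TopologicalSpace (Grpc1Orb B X₀) :=
  inferInstanceAs (TopologicalSpace {Z : SA B // ∃ h : UU B, saConj B h X₀ = Z})

private instance (B : SkewH E V) (X₀ : SA B) : T2Space (Grpc1Orb B X₀) :=
  inferInstanceAs (T2Space {Z : SA B // ∃ h : UU B, saConj B h X₀ = Z})

variable (F) in
include F in
private theorem grpc1_lc (B : SkewH E V) (X₀ : SA B) (r : ℕ) (hX₀ : X₀ ∈ Prj B r) :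
    LocallyCompactSpace (Grpc1Orb B X₀) := by
  haveI := lc_SA F B
  exact (prj_orb_closed F B r X₀ hX₀).isClosedEmbedding_subtypeVal.locallyCompactSpace

/-- action on pairs -/
private def grpc1C (B : SkewH E V) (X₀ : SA B) :
    CAct (UU B × UU B) (Grpc1Orb B X₀ × Grpc1Orb B X₀) where
  act γ Z := (⟨saConj B γ.1 Z.1.1, by
    obtain ⟨h, hh⟩ := Z.1.2
    exact ⟨γ.1 * h, by rw [← grpc1_mul, hh]⟩⟩, ⟨saConj B γ.2 Z.2.1, by
    obtain ⟨h, hh⟩ := Z.2.2
    exact ⟨γ.2 * h, by rw [← grpc1_mul, hh]⟩⟩)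
  one Z := Prod.ext (Subtype.ext (grpc1_one B _)) (Subtype.ext (grpc1_one B _))
  mul γ δ Z := Prod.ext (Subtype.ext (grpc1_mul B _ _ _).symm)
    (Subtype.ext (grpc1_mul B _ _ _).symm)
  cont := by
    have key : Continuous fun q : UU B × SA B => saConj B q.1 q.2 := by
      have h1 : Continuous fun q : UU B × SA B => q.1.1.1 :=
        Units.continuous_val.comp (continuous_subtype_val.comp continuous_fst)
      have h2 : Continuous fun q : UU B × SA B => q.1.1⁻¹.1 :=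
        Units.continuous_val.comp (continuous_inv.comp
          (continuous_subtype_val.comp continuous_fst))
      have h3 : Continuous fun q : UU B × SA B => q.2.1 :=
        continuous_subtype_val.comp continuous_snd
      exact Continuous.subtype_mk ((h1.mul h3).mul h2) _
    have c1 : Continuous fun q : (UU B × UU B) × (Grpc1Orb B X₀ × Grpc1Orb B X₀) =>
        saConj B q.1.1 q.2.1.1 :=
      key.comp ((continuous_fst.comp continuous_fst).prodMk
        (continuous_subtype_val.comp (continuous_fst.comp continuous_snd)))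
    have c2 : Continuous fun q : (UU B × UU B) × (Grpc1Orb B X₀ × Grpc1Orb B X₀) =>
        saConj B q.1.2 q.2.2.1 :=
      key.comp ((continuous_snd.comp continuous_fst).prodMk
        (continuous_subtype_val.comp (continuous_snd.comp continuous_snd)))
    exact (c1.subtype_mk _).prodMk (c2.subtype_mk _)

private theorem grpc1_stab (B : SkewH E V) (X₀ : SA B) (h : UU B) :
    saConj B h X₀ = X₀ ↔ h.1.1 * X₀.1 = X₀.1 * h.1.1 := by
  have h1 : h.1⁻¹.1 * h.1.1 = 1 := h.1.inv_mul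
  have h2 : h.1.1 * h.1⁻¹.1 = 1 := h.1.mul_inv
  constructor
  · intro hh
    have h3 : h.1.1 * X₀.1 * h.1⁻¹.1 = X₀.1 := congrArg Subtype.val hh
    calc h.1.1 * X₀.1 = h.1.1 * X₀.1 * (h.1⁻¹.1 * h.1.1) := by rw [h1, mul_one]
      _ = h.1.1 * X₀.1 * h.1⁻¹.1 * h.1.1 := by simp only [mul_assoc]
      _ = X₀.1 * h.1.1 := by rw [h3]
  · intro hh
    apply Subtype.ext
    show h.1.1 * X₀.1 * h.1⁻¹.1 = X₀.1
    rw [hh, mul_assoc, h2, mul_one]

theorem grpC1 {B : SkewH E V} {p : PChar F} (W : WeilRep B p) (τ₀ : AntiU B)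
    (q P' e : Polynomial F) (m : ℕ) (hm : Even m) (hq : q.Monic)
    (hq0 : q.coeff 0 ≠ 0) (hP' : P'.Monic)
    (hco : IsCoprime (q ^ m) P') (he : q ^ m ∣ e - 1) (he' : P' ∣ e) (X₀ : SA B)
    (hX₀ : X₀ ∈ Prj B (m * q.natDegree))
    (T : SF (GV E V) (SF V ℂ) →ₗ[ℂ] ℂ) (hT : GInv W T)
    (hT' : GAnti F τ₀ T) (hs : SF.SuppOn T (YC B (q ^ m * P') e X₀)) :
    ∃ S : SF (GV E V) (SF V ℂ) →ₗ[ℂ] ℂ, (S = 0 → T = 0) ∧
      SF.SuppOn S {g | g.1 * X₀.1 = X₀.1 * g.1} ∧
      (∃ δ : PosChar (centX B X₀ × centX B X₀), ∀ (h₁ h₂ : centX B X₀)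
        (G : SF (GV E V) (SF V ℂ)), S (W.act h₁.1 h₂.1 G) = δ.δ (h₁, h₂) * S G) ∧
      ∀ τ : AntiU B, conjτ τ X₀.1 = X₀.1 → ∃ c : ℝ, 0 < c ∧ ∀ G : SF (GV E V) (SF V ℂ),
        S (Theta F τ G) = -(c : ℂ) * S G := by
  obtain ⟨hYc, -, hYi, hYt⟩ := yC_props B q P' e m hm hq hq0 hP' hco he he' X₀ hX₀
  haveI := grpc1_lc F B X₀ _ hX₀
  have hR : ∀ g ∈ YC B (q ^ m * P') e X₀, ∃ h : UU B, saConj B h X₀ = eR B e g := by
    rintro g ⟨hg, h, hh⟩
    obtain ⟨h', hh'⟩ := eLR_conj B q P' e m hm hq hq0 hP' hco he he' g hg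
    exact ⟨h' * h, by rw [← grpc1_mul, hh, hh']⟩
  let π : YC B (q ^ m * P') e X₀ → Grpc1Orb B X₀ × Grpc1Orb B X₀ := fun g =>
    (⟨eL B e g.1, g.2.2⟩, ⟨eR B e g.1, hR g.1 g.2⟩)
  have hπ : Continuous π := by
    have c1 : Continuous fun g : YC B (q ^ m * P') e X₀ => eL B e g.1 :=
      (continuous_eL B e).comp continuous_subtype_val
    have c2 : Continuous fun g : YC B (q ^ m * P') e X₀ => eR B e g.1 :=
      (continuous_eR B e).comp continuous_subtype_val
    exact (c1.subtype_mk _).prodMk (c2.subtype_mk _)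
  let o : Grpc1Orb B X₀ × Grpc1Orb B X₀ :=
    (⟨X₀, 1, grpc1_one B X₀⟩, ⟨X₀, 1, grpc1_one B X₀⟩)
  have heq : ∀ γ (g : YC B (q ^ m * P') e X₀), π ⟨(gC B).act γ g.1, hYi γ g.1 g.2⟩ =
      (grpc1C B X₀).act γ (π g) := fun γ g =>
    Prod.ext (Subtype.ext (eL_act B e γ g.1)) (Subtype.ext (eR_act B e γ g.1))
  have htr : ∀ y, ∃ γ, (grpc1C B X₀).act γ o = y := by
    rintro ⟨⟨Z1, h1, e1⟩, ⟨Z2, h2, e2⟩⟩
    exact ⟨(h1, h2), Prod.ext (Subtype.ext e1) (Subtype.ext e2)⟩
  have hst : ∀ γ : UU B × UU B, γ ∈ (grpc1C B X₀).stab o ↔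
      (γ.1.1.1 * X₀.1 = X₀.1 * γ.1.1.1 ∧ γ.2.1.1 * X₀.1 = X₀.1 * γ.2.1.1) := by
    intro γ
    rw [← grpc1_stab, ← grpc1_stab]
    constructor
    · intro h
      have h' : (grpc1C B X₀).act γ o = o := h
      exact ⟨congrArg (fun z => z.1.1) h', congrArg (fun z => z.2.1) h'⟩
    · rintro ⟨h1, h2⟩
      exact Prod.ext (Subtype.ext h1) (Subtype.ext h2)
  obtain ⟨S, hS0, hSs, ⟨δ, hδ⟩, hSt⟩ := grp_desc W (YC B (q ^ m * P') e X₀) hYc hYi
    (grpc1C B X₀) π hπ heq o htr τ₀ T hT hT' hs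
  refine ⟨S, hS0, ?_, ?_, ?_⟩
  · intro f hf
    apply hSs
    rintro g ⟨hg, hgo⟩
    apply hf
    have e1 : eL B e g = X₀ := congrArg (fun z => z.1.1) hgo
    have e2 : eR B e g = X₀ := congrArg (fun z => z.2.1) hgo
    have e3 := eL_comm B e g
    rw [e1, e2] at e3
    exact e3
  · let j : centX B X₀ × centX B X₀ →* (grpc1C B X₀).stab o :=
      { toFun := fun h => ⟨(h.1.1, h.2.1), (hst _).2 ⟨h.1.2, h.2.2⟩⟩
        map_one' := rfl
        map_mul' := fun _ _ => rfl }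
    have hj : Continuous j := by
      refine Continuous.subtype_mk ?_ _
      exact (continuous_subtype_val.comp continuous_fst).prodMk
        (continuous_subtype_val.comp continuous_snd)
    refine ⟨δ.comap j hj, fun h₁ h₂ G => ?_⟩
    exact hδ (j (h₁, h₂)) G
  · intro τ hτ
    have hτX : ∀ v, τ.t (X₀.1 v) = X₀.1 (τ.t v) := by
      intro v
      have h1 := LinearMap.congr_fun hτ (τ.t v)
      have h2 : τ.t (X₀.1 (τ.t (τ.t v))) = X₀.1 (τ.t v) := h1
      rwa [τ.inv] at h2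
    have hτc : ∀ h : UU B, h.1.1 * X₀.1 = X₀.1 * h.1.1 →
        (tauU τ h).1.1 * X₀.1 = X₀.1 * (tauU τ h).1.1 := by
      intro h hh
      ext v
      show τ.t (h.1.1 (τ.t (X₀.1 v))) = X₀.1 (τ.t (h.1.1 (τ.t v)))
      rw [hτX, ← hτX (h.1.1 (τ.t v))]
      congr 1
      exact LinearMap.congr_fun hh (τ.t v)
    have k1 : (tauU τ 1, (1 : UU B)) ∈ (grpc1C B X₀).stab o := by
      rw [hst]
      exact ⟨hτc 1 (by
        show (1 : Module.End E V) * X₀.1 = X₀.1 * 1
        rw [one_mul, mul_one]), by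
        show (1 : Module.End E V) * X₀.1 = X₀.1 * 1
        rw [one_mul, mul_one]⟩
    have k2 : ∀ (g : GV E V) (hg : g ∈ YC B (q ^ m * P') e X₀)
        (hg' : (gC B).act (1, 1) (thG τ g) ∈ YC B (q ^ m * P') e X₀),
        π ⟨g, hg⟩ = o → π ⟨_, hg'⟩ = o := by
      intro g hg hg' hgo
      have e1 : eL B e g = X₀ := congrArg (fun z => z.1.1) hgo
      have e2 : eR B e g = X₀ := congrArg (fun z => z.2.1) hgo
      have h3 : ((1 : UU B), (1 : UU B)) = (1 : UU B × UU B) := rfl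
      refine Prod.ext (Subtype.ext ?_) (Subtype.ext ?_)
      · show eL B e ((gC B).act (1, 1) (thG τ g)) = X₀
        rw [h3, (gC B).one]
        apply Subtype.ext
        rw [eL_thG, e2, hτ]
      · show eR B e ((gC B).act (1, 1) (thG τ g)) = X₀
        rw [h3, (gC B).one]
        apply Subtype.ext
        rw [eR_thG, e1, hτ]
    have k3 : ∀ γ ∈ (grpc1C B X₀).stab o,
        (tauU τ (1⁻¹ * γ.2 * 1), tauU τ γ.1) ∈ (grpc1C B X₀).stab o := by
      intro γ hγ
      rw [hst] at hγ ⊢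
      rw [inv_one, one_mul, mul_one]
      exact ⟨hτc γ.2 hγ.2, hτc γ.1 hγ.1⟩
    obtain ⟨c, hc, hcS⟩ := hSt τ 1 k1 (hYt τ) k2 k3
    refine ⟨c, hc, fun G => ?_⟩
    have h1 := hcS G
    have h2 : W.act 1 1⁻¹ G = G := by
      rw [inv_one, act_eq]
      apply SF.ext
      intro x
      rw [CAct.op_apply]
      have h3 : ((1 : UU B), (1 : UU B)) = (1 : UU B × UU B) := rfl
      rw [h3, inv_one, (gC B).one, map_one]
      rfl
    rw [h2] at h1
    exact h1

end

end Pool.Agent.Work.MP_dd0ddf_al.C2
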