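import Pool.Agent.Work.MP_dd0ddf_al.C2.CycDefs

/-!
# MP_dd0ddf_al, module PrimDec: primary decomposition of an operator for a coprime factorisation of its characteristic polynomial

`charpoly s = Q R`, `Q, R` monic coprime, `Q ∣ e - 1`, `R ∣ e`: `e(s)` is idempotent (e² - e divisible by QR, Cayley-Hamilton), its range is `ker Q(s)`, its kernel is `ker R(s)`, `charpoly (s | range e(s)) = Q`: `V = U ⊕ U'` s-stable, charpoly s = charpoly(s|U) charpoly(s|U'),
all irreducible factors of charpoly(s|U) divide Q (Q(s|U) = 0) and those of charpoly(s|U') divide R; unique factorisation.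
-/

set_option linter.unusedSectionVars false
set_option linter.style.haveILetI false

namespace Pool.Agent.Work.MP_dd0ddf_al.C2

noncomputable section

open Polynomial in
private theorem primdec_evec {n : Type*} [Fintype n] [DecidableEq n] {E K : Type*} [Field E]
    [Field K] [Algebra E K] (M : Matrix n n E) (a : K) (v : n → K)
    (hv : (M.map (algebraMap E K)).mulVec v = a • v) (q : E[X]) :
    ((aeval M q).map (algebraMap E K)).mulVec v = (aeval a q) • v := by
  have hpow : ∀ k : ℕ, ((M ^ k).map (algebraMap E K)).mulVec v = a ^ k • v := by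
    intro k
    induction k with
    | zero =>
      rw [pow_zero, pow_zero, one_smul, Matrix.map_one _ (map_zero _) (map_one _),
        Matrix.one_mulVec]
    | succ k ih =>
      rw [pow_succ, Matrix.map_mul, ← Matrix.mulVec_mulVec, hv, Matrix.mulVec_smul, ih, smul_smul,
        pow_succ']
  induction q using Polynomial.induction_on' with
  | add f g hf hg =>
    rw [map_add, map_add, Matrix.map_add _ (map_add _), Matrix.add_mulVec, hf, hg, add_smul]
  | monomial k c =>
    rw [aeval_monomial, aeval_monomial, ← Algebra.smul_def]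
    have h1 : (c • M ^ k).map (algebraMap E K) = (algebraMap E K c) • (M ^ k).map (algebraMap E K) := by
      ext i j
      simp
    rw [h1, Matrix.smul_mulVec, hpow, smul_smul]

open Polynomial in
private theorem primdec_coprime {E W : Type*} [Field E] [AddCommGroup W] [Module E W]
    [Module.Finite E W] (T u : Module.End E W) (p : E[X]) (h : u * aeval T p = 1) :
    IsCoprime T.charpoly p := by
  classical
  let K := AlgebraicClosure E
  refine (Polynomial.isCoprime_iff_aeval_ne_zero_of_isAlgClosed E K _ _).2 fun a => ?_
  by_contra hcon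
  push Not at hcon
  obtain ⟨h1, h2⟩ := hcon
  let b := Module.finBasis E W
  set M := LinearMap.toMatrix b b T with hM
  have hc : T.charpoly = M.charpoly := (LinearMap.charpoly_toMatrix T b).symm
  rw [hc, ← eval_map_algebraMap, ← Matrix.charpoly_map, Matrix.eval_charpoly] at h1
  obtain ⟨v, hv0, hv⟩ := Matrix.exists_mulVec_eq_zero_iff.2 h1
  have hv' : (M.map (algebraMap E K)).mulVec v = a • v := by
    rw [Matrix.sub_mulVec, sub_eq_zero] at hv
    rw [← hv]
    simp
  have h3 := primdec_evec M a v hv' p
  rw [h2, zero_smul] at h3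
  have h4 : LinearMap.toMatrix b b (aeval T p) = aeval M p := by
    have := (Polynomial.aeval_algHom_apply (LinearMap.toMatrixAlgEquiv b).toAlgHom T p).symm
    exact this
  have h5 : LinearMap.toMatrix b b u * aeval M p = 1 := by
    rw [← h4, ← LinearMap.toMatrix_mul, h, LinearMap.toMatrix_one]
  have h6 : ((LinearMap.toMatrix b b u).map (algebraMap E K)) *
      ((aeval M p).map (algebraMap E K)) = 1 := by
    rw [← Matrix.map_mul, h5, Matrix.map_one _ (map_zero _) (map_one _)]
  apply hv0
  calc v = (1 : Matrix _ _ K).mulVec v := (Matrix.one_mulVec v).symm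
    _ = 0 := by rw [← h6, ← Matrix.mulVec_mulVec, h3, Matrix.mulVec_zero]

theorem prim_idem {E V : Type*} [Field E] [AddCommGroup V] [Module E V] [Module.Finite E V]
    (s : Module.End E V) (Q R e : Polynomial E) (h : LinearMap.charpoly s = Q * R)
    (he : Q ∣ e - 1) (he' : R ∣ e) :
    Polynomial.aeval s e * Polynomial.aeval s e = Polynomial.aeval s e := by
  obtain ⟨a, ha⟩ := he
  obtain ⟨b, hb⟩ := he'
  have h1 : e * e - e = LinearMap.charpoly s * (a * b) := by
    rw [h]
    calc e * e - e = (e - 1) * e := by ring
      _ = (Q * a) * (R * b) := by rw [ha, ← hb]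
      _ = Q * R * (a * b) := by ring
  have h2 : Polynomial.aeval s (e * e - e) = 0 := by
    rw [h1, map_mul, LinearMap.aeval_self_charpoly, zero_mul]
  rw [map_sub, map_mul, sub_eq_zero] at h2
  exact h2

theorem prim_stable {E V : Type*} [Field E] [AddCommGroup V] [Module E V]
    (s : Module.End E V) (e : Polynomial E) :
    ∀ v ∈ LinearMap.range (Polynomial.aeval s e), s v ∈ LinearMap.range (Polynomial.aeval s e) := by
  rintro _ ⟨w, rfl⟩
  refine ⟨s w, ?_⟩
  have h1 : Polynomial.aeval s e * s = s * Polynomial.aeval s e := by
    have h2 : Polynomial.aeval s (e * Polynomial.X) = Polynomial.aeval s (Polynomial.X * e) := by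
      rw [mul_comm]
    rwa [map_mul, map_mul, Polynomial.aeval_X] at h2
  exact LinearMap.congr_fun h1 w

private theorem primdec_stable' {E V : Type*} [Field E] [AddCommGroup V] [Module E V]
    (s : Module.End E V) (e : Polynomial E) :
    ∀ v ∈ LinearMap.ker (Polynomial.aeval s e), s v ∈ LinearMap.ker (Polynomial.aeval s e) := by
  intro v hv
  rw [LinearMap.mem_ker] at hv ⊢
  have h1 : Polynomial.aeval s e * s = s * Polynomial.aeval s e := by
    have h2 : Polynomial.aeval s (e * Polynomial.X) = Polynomial.aeval s (Polynomial.X * e) := by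
      rw [mul_comm]
    rwa [map_mul, map_mul, Polynomial.aeval_X] at h2
  have h3 := LinearMap.congr_fun h1 v
  rw [Module.End.mul_apply, Module.End.mul_apply, hv, map_zero] at h3
  exact h3

private theorem primdec_restr {E V : Type*} [Field E] [AddCommGroup V] [Module E V]
    (s : Module.End E V) (U : Submodule E V) (hU : ∀ v ∈ U, s v ∈ U) (f : Polynomial E) (x : U) :
    ((Polynomial.aeval (s.restrict hU) f x : U) : V) = Polynomial.aeval s f x := by
  have hpow : ∀ (k : ℕ) (x : U), (((s.restrict hU) ^ k) x : V) = (s ^ k) x := by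
    intro k
    induction k with
    | zero => intro x; rfl
    | succ k ih =>
      intro x
      rw [pow_succ, pow_succ, Module.End.mul_apply, Module.End.mul_apply, ih]
      rfl
  induction f using Polynomial.induction_on' with
  | add f g hf hg =>
    rw [map_add, map_add, LinearMap.add_apply, LinearMap.add_apply, Submodule.coe_add, hf, hg]
  | monomial k c =>
    rw [Polynomial.aeval_monomial, Polynomial.aeval_monomial, ← Algebra.smul_def,
      ← Algebra.smul_def, LinearMap.smul_apply, LinearMap.smul_apply, Submodule.coe_smul, hpow]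

theorem prim_charpoly {E V : Type*} [Field E] [AddCommGroup V] [Module E V] [Module.Finite E V]
    (s : Module.End E V) (Q R e : Polynomial E) (hQ : Q.Monic) (hR : R.Monic)
    (hco : IsCoprime Q R) (h : LinearMap.charpoly s = Q * R)
    (he : Q ∣ e - 1) (he' : R ∣ e) :
    LinearMap.charpoly (s.restrict (prim_stable s e)) = Q ∧
      Module.finrank E (LinearMap.range (Polynomial.aeval s e)) = Q.natDegree := by
  classical
  have hid : IsIdempotentElem (Polynomial.aeval s e) := prim_idem s Q R e h he he'
  have hVW := LinearMap.IsIdempotentElem.isCompl hid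
  let F := s.restrict (prim_stable s e)
  let G := s.restrict (primdec_stable' s e)
  have hsplit : s.charpoly = F.charpoly * G.charpoly := by
    let ψ := F.prodMap G
    let e' := Submodule.prodEquivOfIsCompl _ _ hVW
    have hψ : ψ = e'.symm.conj s := by
      apply LinearMap.ext
      rintro ⟨x, y⟩
      rw [LinearEquiv.conj_apply, LinearMap.comp_apply, LinearMap.comp_apply,
        LinearEquiv.coe_coe, LinearEquiv.coe_coe, LinearEquiv.eq_symm_apply]
      simp [e', ψ, F, G]
    rw [← e'.symm.charpoly_conj s, ← hψ, LinearMap.charpoly_prodMap]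
  obtain ⟨a, b, hab⟩ := hco
  have hzero : ∀ f : Polynomial E, Q * R ∣ f → Polynomial.aeval s f = 0 := by
    rintro f ⟨g, rfl⟩
    rw [← h, map_mul, LinearMap.aeval_self_charpoly, zero_mul]
  have hFQ : Polynomial.aeval F Q = 0 := by
    apply LinearMap.ext
    intro x
    apply Subtype.ext
    obtain ⟨w, hw⟩ := x.2
    rw [primdec_restr, ← hw]
    have h1 : Polynomial.aeval s (Q * e) = 0 := hzero _ (mul_dvd_mul_left Q he')
    rw [map_mul] at h1
    exact LinearMap.congr_fun h1 w
  have hGR : Polynomial.aeval G R = 0 := by
    apply LinearMap.ext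
    intro x
    apply Subtype.ext
    have hx : Polynomial.aeval s e x = 0 := x.2
    rw [primdec_restr]
    have h1 : Polynomial.aeval s (R * (e - 1)) = 0 := by
      apply hzero
      rw [mul_comm Q R]
      exact mul_dvd_mul_left R he
    rw [map_mul, map_sub, map_one] at h1
    have h2 := LinearMap.congr_fun h1 (x : V)
    rw [Module.End.mul_apply, LinearMap.sub_apply, hx, zero_sub, map_neg, Module.End.one_apply] at h2
    have h3 := neg_eq_zero.1 h2
    rw [h3]
    rfl
  have c1 : IsCoprime F.charpoly R := by
    apply primdec_coprime F (Polynomial.aeval F b)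
    rw [← map_mul]
    have h1 : b * R = 1 - a * Q := by rw [← hab]; ring
    rw [h1, map_sub, map_mul, hFQ, mul_zero, map_one, sub_zero]
  have c2 : IsCoprime G.charpoly Q := by
    apply primdec_coprime G (Polynomial.aeval G a)
    rw [← map_mul]
    have h1 : a * Q = 1 - b * R := by rw [← hab]; ring
    rw [h1, map_sub, map_mul, hGR, mul_zero, map_one, sub_zero]
  have d1 : F.charpoly ∣ Q := by
    apply c1.dvd_of_dvd_mul_right
    rw [← h, hsplit]
    exact dvd_mul_right _ _
  have d2 : Q ∣ F.charpoly := by
    apply c2.symm.dvd_of_dvd_mul_right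
    rw [← hsplit, h]
    exact dvd_mul_right _ _
  have heq : F.charpoly = Q :=
    Polynomial.eq_of_monic_of_associated (LinearMap.charpoly_monic F) hQ
      (associated_of_dvd_dvd d1 d2)
  refine ⟨heq, ?_⟩
  rw [← heq]
  exact (LinearMap.charpoly_natDegree F).symm

end

end Pool.Agent.Work.MP_dd0ddf_al.C2
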