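import Pool.Agent.Work.MP_dd0ddf_al.C2.GrpDesc
import Pool.Agent.Work.MP_dd0ddf_al.C2.KOrb
import Pool.Agent.Work.MP_dd0ddf_al.C2.FdPoly
import Pool.Agent.Work.MP_dd0ddf_al.C2.LinDefs
import Pool.Agent.Work.MP_dd0ddf_al.C2.PrjGP

/-!
# MP_dd0ddf_al, module GrpD1: case P = q^m: descent to the operators commuting with a semisimple part

`exists_pi`: `r ∈ F[x]`, `q ∣ r - x`, `q^m ∣ q∘r`.  For `g ∈ G_P`: `P(g g^*) = 0`, so `r(g g^*), r(g^* g) ∈ SigQ B q`.
`grp_desc` with `Y = GP B (q^m)`, `O = SigQ × SigQ` (subtype of SA B × SA B; closed, so locally compact; transitive by sigq_trans), `C (h1,h2) (X, X') = (h1 X h1⁻¹, h2 X' h2⁻¹)`, `π g = (r(g g^*), r(g^* g))`, `o = (X0, X0)`.  The stabiliser is `centX × centX`.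
Fibre: `g` with `r(g g^*) = X0 = r(g^* g)`: from `g (g^* g) = (g g^*) g` get `g X0 = X0 g`; so S is supported on the elements commuting with `X0`.
Symmetry with `k = 1`, τ with `conjτ τ X0 = X0`: `θ(g) θ(g)^* = τ g^* g τ`, `θ(g)^* θ(g) = τ g g^* τ`, `r(τ Z τ) = τ r(Z) τ` (r ∈ F[x]).
-/

set_option linter.unusedSectionVars false
set_option linter.style.haveILetI false

namespace Pool.Agent.Work.MP_dd0ddf_al.C2

noncomputable section

universe u

variable {F E : Type u} [NontriviallyNormedField F] [IsUltrametricDist F] [ProperSpace F]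
  [CharP F 2] [NontriviallyNormedField E] [NormedAlgebra F E] [ProperSpace E] [StarRing E]
  [QExt F E] [Dl E] [MeasurableSpace E] [BorelSpace E]
variable {V : Type u} [AddCommGroup V] [Module E V] [Module.Finite E V] [TopologicalSpace V]
  [IsTopologicalAddGroup V] [T2Space V] [ContinuousSMul E V]

private theorem grpd1_mul (B : SkewH E V) (h h' : UU B) (X : SA B) :
    saConj B h (saConj B h' X) = saConj B (h * h') X := by
  apply Subtype.ext
  show h.1.1 * (h'.1.1 * X.1 * h'.1⁻¹.1) * h.1⁻¹.1 = (h.1 * h'.1).1 * X.1 * (h.1 * h'.1)⁻¹.1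
  rw [mul_inv_rev, Units.val_mul, Units.val_mul]
  simp only [mul_assoc]

private theorem grpd1_one (B : SkewH E V) (X : SA B) : saConj B 1 X = X := by
  apply Subtype.ext
  show (1 : GV E V).1 * X.1 * (1 : GV E V)⁻¹.1 = X.1
  rw [inv_one, Units.val_one, one_mul, mul_one]

private theorem grpd1_stab (B : SkewH E V) (X₀ : SA B) (h : UU B) :
    saConj B h X₀ = X₀ ↔ h.1.1 * X₀.1 = X₀.1 * h.1.1 := by
  have h1 : h.1⁻¹.1 * h.1.1 = 1 := h.1.inv_mul
  have h2 : h.1.1 * h.1⁻¹.1 = 1 := h.1.mul_inv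
  constructor
  · intro hh
    have h3 : h.1.1 * X₀.1 * h.1⁻¹.1 = X₀.1 := congrArg Subtype.val hh
    calc h.1.1 * X₀.1 = h.1.1 * X₀.1 * (h.1⁻¹.1 * h.1.1) := by rw [h1, mul_one]
      _ = h.1.1 * X₀.1 * h.1⁻¹.1 * h.1.1 := by simp only [mul_assoc]
      _ = X₀.1 * h.1.1 := by rw [h3]
  · intro hh
    apply Subtype.ext
    show h.1.1 * X₀.1 * h.1⁻¹.1 = X₀.1
    rw [hh, mul_assoc, h2, mul_one]

private theorem grpd1_comm (g h : Module.End E V) :
    LinearMap.charpoly (g * h) = LinearMap.charpoly (h * g) := by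
  classical
  let b := Module.finBasis E V
  rw [← LinearMap.charpoly_toMatrix (g * h) b, ← LinearMap.charpoly_toMatrix (h * g) b,
    LinearMap.toMatrix_mul, LinearMap.toMatrix_mul, Matrix.charpoly_mul_comm]

/-- `r(s)` is a root of `q` if `s` has characteristic polynomial `q ^ m` -/
private theorem grpd1_root (q q1 r : Polynomial F) (m : ℕ) (hr : q ^ m ∣ q1.comp r)
    (s : Module.End E V) (hs : LinearMap.charpoly s = (q ^ m).map (algebraMap F E)) :
    Polynomial.aeval (Polynomial.aeval s (r.map (algebraMap F E))) (q1.map (algebraMap F E)) =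
      0 := by
  rw [← Polynomial.aeval_comp, ← Polynomial.map_comp]
  obtain ⟨c, hc⟩ := hr
  rw [hc, Polynomial.map_mul, ← hs, map_mul, LinearMap.aeval_self_charpoly, zero_mul]

/-- action on pairs -/
private def grpd1C (B : SkewH E V) (q : Polynomial F) :
    CAct (UU B × UU B) (SigQ B q × SigQ B q) where
  act γ Z := (⟨saConj B γ.1 Z.1.1, sigq_conj B q γ.1 Z.1.1 Z.1.2⟩,
    ⟨saConj B γ.2 Z.2.1, sigq_conj B q γ.2 Z.2.1 Z.2.2⟩)
  one Z := Prod.ext (Subtype.ext (grpd1_one B _)) (Subtype.ext (grpd1_one B _))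
  mul γ δ Z := Prod.ext (Subtype.ext (grpd1_mul B _ _ _).symm)
    (Subtype.ext (grpd1_mul B _ _ _).symm)
  cont := by
    have key : Continuous fun q : UU B × SA B => saConj B q.1 q.2 := by
      have h1 : Continuous fun q : UU B × SA B => q.1.1.1 :=
        Units.continuous_val.comp (continuous_subtype_val.comp continuous_fst)
      have h2 : Continuous fun q : UU B × SA B => q.1.1⁻¹.1 :=
        Units.continuous_val.comp (continuous_inv.comp
          (continuous_subtype_val.comp continuous_fst))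
      have h3 : Continuous fun q : UU B × SA B => q.2.1 :=
        continuous_subtype_val.comp continuous_snd
      exact Continuous.subtype_mk ((h1.mul h3).mul h2) _
    have c1 : Continuous fun z : (UU B × UU B) × (SigQ B q × SigQ B q) =>
        saConj B z.1.1 z.2.1.1 :=
      key.comp ((continuous_fst.comp continuous_fst).prodMk
        (continuous_subtype_val.comp (continuous_fst.comp continuous_snd)))
    have c2 : Continuous fun z : (UU B × UU B) × (SigQ B q × SigQ B q) =>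
        saConj B z.1.2 z.2.2.1 :=
      key.comp ((continuous_snd.comp continuous_fst).prodMk
        (continuous_subtype_val.comp (continuous_snd.comp continuous_snd)))
    exact (c1.subtype_mk _).prodMk (c2.subtype_mk _)

theorem grpD1 {B : SkewH E V} {p : PChar F} (W : WeilRep B p) (τ₀ : AntiU B)
    (q q1 r : Polynomial F) (m : ℕ) (hq1 : q1.Monic)
    (hirr1 : Irreducible (q1.map (algebraMap F E))) (hr : q ^ m ∣ q1.comp r) (X₀ : SA B)
    (hX₀ : X₀ ∈ SigQ B q1) (T : SF (GV E V) (SF V ℂ) →ₗ[ℂ] ℂ) (hT : GInv W T)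
    (hT' : GAnti F τ₀ T) (hs : SF.SuppOn T (GP B (q ^ m))) :
    ∃ S : SF (GV E V) (SF V ℂ) →ₗ[ℂ] ℂ, (S = 0 → T = 0) ∧
      SF.SuppOn S {g | g.1 * X₀.1 = X₀.1 * g.1} ∧
      (∃ δ : PosChar (centX B X₀ × centX B X₀), ∀ (h₁ h₂ : centX B X₀)
        (G : SF (GV E V) (SF V ℂ)), S (W.act h₁.1 h₂.1 G) = δ.δ (h₁, h₂) * S G) ∧
      ∀ τ : AntiU B, conjτ τ X₀.1 = X₀.1 → ∃ c : ℝ, 0 < c ∧ ∀ G : SF (GV E V) (SF V ℂ),
        S (Theta F τ G) = -(c : ℂ) * S G := by
  haveI := lc_SA F B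
  haveI : LocallyCompactSpace (SigQ B q1) :=
    (sigq_closed B q1).isClosedEmbedding_subtypeVal.locallyCompactSpace
  have hL : ∀ g ∈ GP B (q ^ m), eL B r g ∈ SigQ B q1 := fun g hg =>
    grpd1_root q q1 r m hr _ hg
  have hR : ∀ g ∈ GP B (q ^ m), eR B r g ∈ SigQ B q1 := fun g hg =>
    grpd1_root q q1 r m hr _ (by
      rw [grpd1_comm]
      exact hg)
  let π : GP B (q ^ m) → SigQ B q1 × SigQ B q1 := fun g =>
    (⟨eL B r g.1, hL g.1 g.2⟩, ⟨eR B r g.1, hR g.1 g.2⟩)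
  have hπ : Continuous π := by
    have c1 : Continuous fun g : GP B (q ^ m) => eL B r g.1 :=
      (continuous_eL B r).comp continuous_subtype_val
    have c2 : Continuous fun g : GP B (q ^ m) => eR B r g.1 :=
      (continuous_eR B r).comp continuous_subtype_val
    exact (c1.subtype_mk _).prodMk (c2.subtype_mk _)
  let o : SigQ B q1 × SigQ B q1 := (⟨X₀, hX₀⟩, ⟨X₀, hX₀⟩)
  have heq : ∀ γ (g : GP B (q ^ m)), π ⟨(gC B).act γ g.1, gp_gC B (q ^ m) γ g.1 g.2⟩ =
      (grpd1C B q1).act γ (π g) := fun γ g =>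
    Prod.ext (Subtype.ext (eL_act B r γ g.1)) (Subtype.ext (eR_act B r γ g.1))
  have htr : ∀ y, ∃ γ, (grpd1C B q1).act γ o = y := by
    rintro ⟨⟨Z1, e1⟩, ⟨Z2, e2⟩⟩
    obtain ⟨h1, hh1⟩ := sigq_trans B q1 hq1 hirr1 X₀ Z1 hX₀ e1
    obtain ⟨h2, hh2⟩ := sigq_trans B q1 hq1 hirr1 X₀ Z2 hX₀ e2
    exact ⟨(h1, h2), Prod.ext (Subtype.ext hh1) (Subtype.ext hh2)⟩
  have hst : ∀ γ : UU B × UU B, γ ∈ (grpd1C B q1).stab o ↔
      (γ.1.1.1 * X₀.1 = X₀.1 * γ.1.1.1 ∧ γ.2.1.1 * X₀.1 = X₀.1 * γ.2.1.1) := by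
    intro γ
    rw [← grpd1_stab, ← grpd1_stab]
    constructor
    · intro h
      have h' : (grpd1C B q1).act γ o = o := h
      exact ⟨congrArg (fun z => z.1.1) h', congrArg (fun z => z.2.1) h'⟩
    · rintro ⟨h1, h2⟩
      exact Prod.ext (Subtype.ext h1) (Subtype.ext h2)
  obtain ⟨S, hS0, hSs, ⟨δ, hδ⟩, hSt⟩ := grp_desc W (GP B (q ^ m)) (gp_closed B _)
    (gp_gC B (q ^ m)) (grpd1C B q1) π hπ heq o htr τ₀ T hT hT' hs
  refine ⟨S, hS0, ?_, ?_, ?_⟩
  · intro f hf
    apply hSs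
    rintro g ⟨hg, hgo⟩
    apply hf
    have e1 : eL B r g = X₀ := congrArg (fun z => z.1.1) hgo
    have e2 : eR B r g = X₀ := congrArg (fun z => z.2.1) hgo
    have e3 := eL_comm B r g
    rw [e1, e2] at e3
    exact e3
  · let j : centX B X₀ × centX B X₀ →* (grpd1C B q1).stab o :=
      { toFun := fun h => ⟨(h.1.1, h.2.1), (hst _).2 ⟨h.1.2, h.2.2⟩⟩
        map_one' := rfl
        map_mul' := fun _ _ => rfl }
    have hj : Continuous j := by
      refine Continuous.subtype_mk ?_ _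
      exact (continuous_subtype_val.comp continuous_fst).prodMk
        (continuous_subtype_val.comp continuous_snd)
    refine ⟨δ.comap j hj, fun h₁ h₂ G => ?_⟩
    exact hδ (j (h₁, h₂)) G
  · intro τ hτ
    have hτX : ∀ v, τ.t (X₀.1 v) = X₀.1 (τ.t v) := by
      intro v
      have h1 := LinearMap.congr_fun hτ (τ.t v)
      have h2 : τ.t (X₀.1 (τ.t (τ.t v))) = X₀.1 (τ.t v) := h1
      rwa [τ.inv] at h2
    have hτc : ∀ h : UU B, h.1.1 * X₀.1 = X₀.1 * h.1.1 →
        (tauU τ h).1.1 * X₀.1 = X₀.1 * (tauU τ h).1.1 := by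
      intro h hh
      ext v
      show τ.t (h.1.1 (τ.t (X₀.1 v))) = X₀.1 (τ.t (h.1.1 (τ.t v)))
      rw [hτX, ← hτX (h.1.1 (τ.t v))]
      congr 1
      exact LinearMap.congr_fun hh (τ.t v)
    have k1 : (tauU τ 1, (1 : UU B)) ∈ (grpd1C B q1).stab o := by
      rw [hst]
      exact ⟨hτc 1 (by
        show (1 : Module.End E V) * X₀.1 = X₀.1 * 1
        rw [one_mul, mul_one]), by
        show (1 : Module.End E V) * X₀.1 = X₀.1 * 1
        rw [one_mul, mul_one]⟩
    have k2 : ∀ (g : GV E V) (hg : g ∈ GP B (q ^ m))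
        (hg' : (gC B).act (1, 1) (thG τ g) ∈ GP B (q ^ m)),
        π ⟨g, hg⟩ = o → π ⟨_, hg'⟩ = o := by
      intro g hg hg' hgo
      have e1 : eL B r g = X₀ := congrArg (fun z => z.1.1) hgo
      have e2 : eR B r g = X₀ := congrArg (fun z => z.2.1) hgo
      have h3 : ((1 : UU B), (1 : UU B)) = (1 : UU B × UU B) := rfl
      refine Prod.ext (Subtype.ext ?_) (Subtype.ext ?_)
      · show eL B r ((gC B).act (1, 1) (thG τ g)) = X₀
        rw [h3, (gC B).one]
        apply Subtype.ext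
        rw [eL_thG, e2, hτ]
      · show eR B r ((gC B).act (1, 1) (thG τ g)) = X₀
        rw [h3, (gC B).one]
        apply Subtype.ext
        rw [eR_thG, e1, hτ]
    have k3 : ∀ γ ∈ (grpd1C B q1).stab o,
        (tauU τ (1⁻¹ * γ.2 * 1), tauU τ γ.1) ∈ (grpd1C B q1).stab o := by
      intro γ hγ
      rw [hst] at hγ ⊢
      rw [inv_one, one_mul, mul_one]
      exact ⟨hτc γ.2 hγ.2, hτc γ.1 hγ.1⟩
    obtain ⟨c, hc, hcS⟩ := hSt τ 1 k1 (gp_thG τ (q ^ m)) k2 k3
    refine ⟨c, hc, fun G => ?_⟩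
    have h1 := hcS G
    have h2 : W.act 1 1⁻¹ G = G := by
      rw [inv_one, act_eq]
      apply SF.ext
      intro x
      rw [CAct.op_apply]
      have h3 : ((1 : UU B), (1 : UU B)) = (1 : UU B × UU B) := rfl
      rw [h3, inv_one, (gC B).one, map_one]
      rfl
    rw [h2] at h1
    exact h1

end

end Pool.Agent.Work.MP_dd0ddf_al.C2
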