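import Pool.Agent.Work.MP_dd0ddf_al.C2.Topo
import Pool.Agent.Work.MP_dd0ddf_al.C2.Found

/-!
# MP_dd0ddf_al, module HaarG: Haar functional on GL(V)

Mathlib Haar measure on `GV E V` (locally compact, second countable).  Unimodular: the modular character Δ : GL(V) → ℝ_{>0} (Mathlib modularCharacter, continuous) is trivial (E need not be ultrametric here): transvections `1 + x` (x rank one, x² = 0) are conjugate to `1 + t x` for all t ≠ 0 and `1 + t x → 1` as t → 0, so Δ = 1 on transvections;
diag(a, 1, …, 1)^n... : `Δ(diag(a_1..a_n)) = ∏ δ(a_i)` (permutations), and the scalar a has `Δ(a) = 1` (central: left and right translation coincide), so `δ(a)^n = 1`, δ(a) > 0, δ = 1; GL_n is generated by transvections and diagonal matrices (Mathlib: Matrix.Pivot / diagonal_transvection_induction).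
-/

set_option linter.unusedSectionVars false
set_option linter.style.haveILetI false

namespace Pool.Agent.Work.MP_dd0ddf_al.C2

noncomputable section

universe u

open MeasureTheory MeasureTheory.Measure Matrix
open scoped NNReal

section HaarGChar

variable {K : Type*} [Field K] {n : Type*} [Fintype n] [DecidableEq n]

/-- diagonal matrices -/
private def hgT : (n → Kˣ) →* (Matrix n n K)ˣ :=
  (Units.map ((Matrix.diagonalRingHom n K : (n → K) →+* Matrix n n K) :
    (n → K) →* Matrix n n K)).comp (MulEquiv.piUnits.symm : (n → Kˣ) ≃* (n → K)ˣ).toMonoidHom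

private theorem hgT_val (D : n → Kˣ) :
    ((hgT D : (Matrix n n K)ˣ) : Matrix n n K) = diagonal fun i => (D i : K) := rfl

private theorem hg_perm (χ : (Matrix n n K)ˣ →* ℝ≥0) (σ : Equiv.Perm n) (D : n → Kˣ) :
    χ (hgT (D ∘ σ)) = χ (hgT D) := by
  let P : (Matrix n n K)ˣ := ⟨σ.toPEquiv.toMatrix, σ.symm.toPEquiv.toMatrix, by
    rw [← PEquiv.toMatrix_trans, ← Equiv.toPEquiv_trans, Equiv.self_trans_symm,
      Equiv.toPEquiv_refl, PEquiv.toMatrix_refl], by
    rw [← PEquiv.toMatrix_trans, ← Equiv.toPEquiv_trans, Equiv.symm_trans_self,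
      Equiv.toPEquiv_refl, PEquiv.toMatrix_refl]⟩
  have h1 : P * hgT D = hgT (D ∘ σ) * P := by
    apply Units.ext
    rw [Units.val_mul, Units.val_mul, hgT_val, hgT_val]
    show (σ.toPEquiv.toMatrix : Matrix n n K) * _ = _ * (σ.toPEquiv.toMatrix : Matrix n n K)
    rw [PEquiv.toMatrix_toPEquiv_mul, PEquiv.mul_toMatrix_toPEquiv]
    ext i j
    rw [submatrix_apply, submatrix_apply, id, id, diagonal_apply, diagonal_apply]
    by_cases h : σ i = j
    · rw [if_pos h, if_pos (by rw [← h, σ.symm_apply_apply])]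
      rfl
    · rw [if_neg h, if_neg (fun h' => h (by rw [h', σ.apply_symm_apply]))]
  have h2 := congrArg χ h1
  rw [map_mul, map_mul, mul_comm] at h2
  have h3 : χ P ≠ 0 := by
    intro h0
    have h4 : χ (P * P⁻¹) = 0 := by rw [map_mul, h0, zero_mul]
    rw [mul_inv_cancel, map_one] at h4
    exact one_ne_zero h4
  exact (mul_right_cancel₀ h3 h2).symm

private theorem hg_diag (χ : (Matrix n n K)ˣ →* ℝ≥0)
    (hc : ∀ g : (Matrix n n K)ˣ, (∀ h, g * h = h * g) → χ g = 1) (D : n → Kˣ) :
    χ (hgT D) = 1 := by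
  have h1 : ∀ D : n → Kˣ, χ (hgT D) = ∏ i, χ (hgT (Pi.mulSingle i (D i))) := by
    intro D
    have h := map_prod (χ.comp hgT) (fun i => (Pi.mulSingle i (D i) : n → Kˣ)) Finset.univ
    rw [Finset.univ_prod_mulSingle] at h
    exact h
  have h2 : ∀ (i j : n) (a : Kˣ), χ (hgT (Pi.mulSingle i a)) = χ (hgT (Pi.mulSingle j a)) := by
    intro i j a
    rw [← hg_perm χ (Equiv.swap i j)]
    congr 2
    funext k
    show (Pi.mulSingle i a : n → Kˣ) (Equiv.swap i j k) = _
    rcases eq_or_ne k j with rfl | hk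
    · rw [Equiv.swap_apply_right, Pi.mulSingle_eq_same, Pi.mulSingle_eq_same]
    · rw [Pi.mulSingle_eq_of_ne hk]
      apply Pi.mulSingle_eq_of_ne
      intro h
      apply hk
      have h' := congrArg (Equiv.swap i j) h
      rwa [Equiv.swap_apply_self, Equiv.swap_apply_left] at h'
  have h3 : ∀ (i : n) (a : Kˣ), χ (hgT (Pi.mulSingle i a)) = 1 := by
    intro i a
    have h4 := hc (hgT fun _ => a) (by
      intro h
      apply Units.ext
      rw [Units.val_mul, Units.val_mul, hgT_val]
      have h5 : (diagonal fun _ => (a : K)) = (a : K) • (1 : Matrix n n K) := by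
        rw [smul_one_eq_diagonal]
      rw [h5, smul_mul_assoc, one_mul, mul_smul_comm, mul_one])
    rw [h1] at h4
    have h6 : ∀ j ∈ (Finset.univ : Finset n), χ (hgT (Pi.mulSingle j ((fun _ => a) j))) =
        χ (hgT (Pi.mulSingle i a)) := fun j _ => h2 j i a
    rw [Finset.prod_congr rfl h6, Finset.prod_const, Finset.card_univ] at h4
    have hn : Fintype.card n ≠ 0 := by
      haveI : Nonempty n := ⟨i⟩
      exact Fintype.card_ne_zero
    exact (pow_eq_one_iff_of_nonneg zero_le hn).mp h4
  rw [h1]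
  exact Finset.prod_eq_one fun i _ => h3 i _

private theorem hg_transv (hK : ∃ a : K, a ≠ 0 ∧ a + 1 ≠ 0) (χ : (Matrix n n K)ˣ →* ℝ≥0)
    (hd : ∀ D : n → Kˣ, χ (hgT D) = 1) (i j : n) (hij : i ≠ j) (c : K) (g : (Matrix n n K)ˣ)
    (hg : g.1 = transvection i j c) : χ g = 1 := by
  obtain ⟨a, ha, ha1⟩ := hK
  let U : K → (Matrix n n K)ˣ := fun c => ⟨transvection i j c, transvection i j (-c), by
    rw [transvection_mul_transvection_same _ _ hij, add_neg_cancel, transvection_zero], by
    rw [transvection_mul_transvection_same _ _ hij, neg_add_cancel, transvection_zero]⟩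
  have hU : ∀ c, (U c).1 = transvection i j c := fun c => rfl
  have h1 : ∀ (b : K), b ≠ 0 → ∀ c, χ (U (b * c)) = χ (U c) := by
    intro b hb c
    have h2 : hgT (Pi.mulSingle i (Units.mk0 b hb)) * U c =
        U (b * c) * hgT (Pi.mulSingle i (Units.mk0 b hb)) := by
      apply Units.ext
      rw [Units.val_mul, Units.val_mul, hgT_val, hU, hU]
      rw [transvection, transvection, mul_add, add_mul, mul_one, one_mul]
      congr 1
      ext k l
      rw [diagonal_mul, mul_diagonal]
      rw [single_apply, single_apply]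
      by_cases hkl : i = k ∧ j = l
      · rw [if_pos hkl, if_pos hkl, ← hkl.1, ← hkl.2, Pi.mulSingle_eq_same,
          Pi.mulSingle_eq_of_ne hij.symm]
        simp
      · rw [if_neg hkl, if_neg hkl, mul_zero, zero_mul]
    have h3 := congrArg χ h2
    rw [map_mul, map_mul, hd, one_mul, mul_one] at h3
    exact h3.symm
  have h4 : U c * U (a * c) = U ((a + 1) * c) := by
    apply Units.ext
    rw [Units.val_mul, hU, hU, hU, transvection_mul_transvection_same _ _ hij]
    congr 1
    ring
  have h5 := congrArg χ h4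
  rw [map_mul, h1 a ha, h1 _ ha1] at h5
  have h6 : χ (U c) ≠ 0 := by
    intro h0
    have h7 : χ (U c * (U c)⁻¹) = 0 := by rw [map_mul, h0, zero_mul]
    rw [mul_inv_cancel, map_one] at h7
    exact one_ne_zero h7
  have h8 : g = U c := Units.ext hg
  rw [h8]
  exact mul_left_cancel₀ h6 (by rw [h5, mul_one])

theorem gl_char (hK : ∃ a : K, a ≠ 0 ∧ a + 1 ≠ 0) (χ : (Matrix n n K)ˣ →* ℝ≥0)
    (hc : ∀ g : (Matrix n n K)ˣ, (∀ h, g * h = h * g) → χ g = 1) (g : (Matrix n n K)ˣ) :
    χ g = 1 := by
  have hd := hg_diag χ hc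
  have key : ∀ M : Matrix n n K, det M ≠ 0 → ∀ g : (Matrix n n K)ˣ, g.1 = M → χ g = 1 := by
    intro M hM
    refine diagonal_transvection_induction_of_det_ne_zero
      (fun M => ∀ g : (Matrix n n K)ˣ, g.1 = M → χ g = 1) M hM ?_ ?_ ?_
    · intro D hD g hg
      rw [det_diagonal] at hD
      have h1 : ∀ i, D i ≠ 0 := fun i => Finset.prod_ne_zero_iff.mp hD i (Finset.mem_univ i)
      have h2 : g = hgT fun i => Units.mk0 (D i) (h1 i) := by
        apply Units.ext
        rw [hg, hgT_val]
        rfl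
      rw [h2]
      exact hd _
    · intro t g hg
      exact hg_transv hK χ hd t.i t.j t.hij t.c g hg
    · intro A B hA hB h1 h2 g hg
      have hA' : IsUnit A := (Matrix.isUnit_iff_isUnit_det A).mpr hA.isUnit
      have hB' : IsUnit B := (Matrix.isUnit_iff_isUnit_det B).mpr hB.isUnit
      obtain ⟨a, rfl⟩ := hA'
      obtain ⟨b, rfl⟩ := hB'
      have h3 : g = a * b := Units.ext hg
      rw [h3, map_mul, h1 a rfl, h2 b rfl, one_mul]
  refine key g.1 ?_ g rfl
  exact ((Matrix.isUnit_iff_isUnit_det g.1).mp g.isUnit).ne_zero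

end HaarGChar

section

variable {E : Type u} [NontriviallyNormedField E] [ProperSpace E]
variable {V : Type u} [AddCommGroup V] [Module E V] [Module.Finite E V] [TopologicalSpace V]
  [IsTopologicalAddGroup V] [T2Space V] [ContinuousSMul E V]

private theorem gv_char (χ : GV E V →* ℝ≥0)
    (hc : ∀ g : GV E V, (∀ h, g * h = h * g) → χ g = 1) (g : GV E V) : χ g = 1 := by
  classical
  let b := Module.finBasis E V
  let e : Module.End E V ≃* Matrix (Fin (Module.finrank E V)) (Fin (Module.finrank E V)) E :=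
    (LinearMap.toMatrixAlgEquiv b).toMulEquiv
  let e' := Units.mapEquiv e
  have hK : ∃ a : E, a ≠ 0 ∧ a + 1 ≠ 0 := by
    obtain ⟨a, ha⟩ := NormedField.exists_one_lt_norm E
    refine ⟨a, ?_, ?_⟩
    · rintro rfl
      rw [norm_zero] at ha
      linarith
    · intro h
      have h1 : a = -1 := eq_neg_of_add_eq_zero_left h
      rw [h1, norm_neg, norm_one] at ha
      exact lt_irrefl _ ha
  have h1 := gl_char hK (χ.comp e'.symm.toMonoidHom) (by
    intro g hg
    apply hc
    intro h
    apply e'.injective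
    rw [map_mul, map_mul]
    show e' (e'.symm g) * _ = _ * e' (e'.symm g)
    rw [e'.apply_symm_apply]
    exact hg _) (e' g)
  have h2 : (χ.comp e'.symm.toMonoidHom) (e' g) = χ g := by
    show χ (e'.symm (e' g)) = χ g
    rw [e'.symm_apply_apply]
  rwa [h2] at h1

theorem exists_haarG : ∃ I : SF (GV E V) ℂ →ₗ[ℂ] ℂ,
    (∀ a f, I (SF.comp (Homeomorph.mulLeft a) f) = I f) ∧
    (∀ a f, I (SF.comp (Homeomorph.mulRight a) f) = I f) ∧
    (∀ (K : Set (GV E V)) (hK : IsCompact K) (hK' : IsOpen K), K.Nonempty →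
      ∃ r : ℝ, 0 < r ∧ I (SF.single K hK hK' 1) = r) := by
  letI : MeasurableSpace (GV E V) := borel _
  haveI : BorelSpace (GV E V) := ⟨rfl⟩
  haveI : LocallyCompactSpace (GV E V) := @lc_GV E _ _ starRingOfComm V _ _ _ _ _ _ _
  haveI : SecondCountableTopology (GV E V) := @sc_GV E _ _ starRingOfComm V _ _ _ _ _ _ _
  let μ : Measure (GV E V) := haar
  let I : SF (GV E V) ℂ →ₗ[ℂ] ℂ :=
    { toFun := fun f => ∫ x, f x ∂μ
      map_add' := fun f g => integral_add (SF.integrable μ f) (SF.integrable μ g)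
      map_smul' := fun c f => integral_const_mul c _ }
  have hI : ∀ f, I f = ∫ x, f x ∂μ := fun f => rfl
  have hmap : ∀ a : GV E V, Measure.map (· * a) μ = modularCharacterFun a • μ :=
    fun a => map_right_mul_eq_modularCharacterFun_smul μ a
  have hΔ : ∀ a : GV E V, modularCharacterFun a = 1 := by
    refine gv_char (modularCharacter : GV E V →* ℝ≥0) fun g hg => ?_
    show modularCharacterFun g = 1
    rw [modularCharacterFun_eq_haarScalarFactor μ g]
    have h1 : (fun x : GV E V => x * g) = fun x => g * x := by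
      funext x
      exact (hg x).symm
    have hs : ∀ (ν ν' : Measure (GV E V)) [IsHaarMeasure ν] [IsFiniteMeasureOnCompacts ν']
        [IsMulLeftInvariant ν'], ν' = ν → haarScalarFactor ν' ν = 1 := by
      intro ν ν' _ _ _ h
      subst h
      exact haarScalarFactor_self _
    refine hs μ _ ?_
    rw [h1]
    exact map_mul_left_eq_self μ g
  refine ⟨I, ?_, ?_, ?_⟩
  · intro a f
    rw [hI, hI]
    exact integral_mul_left_eq_self (μ := μ) f.1 a
  · intro a f
    rw [hI, hI]
    have h1 : ∫ x, f x ∂(Measure.map (· * a) μ) = ∫ x, (SF.comp (Homeomorph.mulRight a) f) x ∂μ :=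
      integral_map_equiv (Homeomorph.mulRight a).toMeasurableEquiv f.1
    rw [← h1, hmap a, hΔ a, one_smul]
  · intro K hK hK' hne
    classical
    refine ⟨μ.real K, ?_, ?_⟩
    · exact ENNReal.toReal_pos (hK'.measure_pos μ hne).ne' hK.measure_lt_top.ne
    · rw [hI]
      have h1 : (fun x => (SF.single K hK hK' (1 : ℂ)) x) = K.indicator (fun _ => (1 : ℂ)) := by
        funext x
        by_cases hx : x ∈ K
        · rw [SF.single_apply_mem K hK hK' 1 x hx, Set.indicator_of_mem hx]
        · rw [SF.single_apply_not_mem K hK hK' 1 x hx, Set.indicator_of_notMem hx]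
      rw [h1, integral_indicator hK'.measurableSet, setIntegral_const]
      simp

variable (E V) in
/-- the Haar functional of `GL(V)` -/
def haarG : SF (GV E V) ℂ →ₗ[ℂ] ℂ := (exists_haarG (E := E) (V := V)).choose

theorem haarG_left (a : GV E V) (f : SF (GV E V) ℂ) :
    haarG E V (SF.comp (Homeomorph.mulLeft a) f) = haarG E V f :=
  (exists_haarG (E := E) (V := V)).choose_spec.1 a f

theorem haarG_right (a : GV E V) (f : SF (GV E V) ℂ) :
    haarG E V (SF.comp (Homeomorph.mulRight a) f) = haarG E V f :=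
  (exists_haarG (E := E) (V := V)).choose_spec.2.1 a f

theorem haarG_pos (K : Set (GV E V)) (hK : IsCompact K) (hK' : IsOpen K) (hne : K.Nonempty) :
    ∃ r : ℝ, 0 < r ∧ haarG E V (SF.single K hK hK' 1) = r :=
  (exists_haarG (E := E) (V := V)).choose_spec.2.2 K hK hK' hne

end

end

end Pool.Agent.Work.MP_dd0ddf_al.C2
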