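import Pool.Agent.Work.MP_dd0ddf_al.C2.FdOrbit
import Pool.Agent.Work.MP_dd0ddf_al.C2.FdCount
import Pool.Agent.Work.MP_dd0ddf_al.C2.SFCurry
import Pool.Agent.Work.MP_dd0ddf_al.C2.Topo

/-!
# MP_dd0ddf_al (characteristic 2), module IndI: the invariant functional on a homogeneous space Γ/S, both groups unimodular

Γ acts transitively on O, S = stabiliser of o; `I` a bi-invariant positive functional on `SF Γ ℂ`, `J` one on `SF S ℂ`.
PROOF.  The orbit map `p : Γ → O, γ ↦ γ o` is continuous and open (orbit_map_open).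
(1) For `ψ ∈ SF Γ ℂ` and `γ ∈ Γ` the function `s ↦ ψ(γ s)` is in `SF S ℂ` (S is closed); `avg ψ (γ o) := J (s ↦ ψ(γ s))` is well defined (J left invariant: γ s0), locally constant (ψ is left invariant under a small
open subgroup U of Γ: ψ(u x) = ψ(x) for all x (compact support, uniform local constancy), so avg ψ is U-invariant and U y is open), supported in p(supp ψ).  So `avg : SF Γ ℂ →ₗ SF O ℂ`, `avg (L_a ψ) = L_a (avg ψ)`.
(2) surjective: for a compact open subgroup U of Γ and γ: `avg (1_{U γ}) (γ' o) = vol_S {s | γ' s ∈ U γ}` is 0 unless γ' o ∈ U γ o, and for γ' = u γ it is `J(1_{S ∩ γ⁻¹Uγ}) > 0`, constant.  Every element of `SF O ℂ` is a linear combination of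
indicators of sets `U y` with U small (local constancy; compactness), or: multiply: `avg ((f ∘ p) ψ) = f avg ψ` for f ∈ SF O, so it suffices to find for each compact open K ⊆ O a ψ with `avg ψ = 1` on K: take a finite
cover of K by sets U γ_i o, ψ0 = Σ 1_{Uγ_i} ≥ 0, avg ψ0 > 0 on K, locally constant, and divide by (a locally constant extension of) avg ψ0 ∘ p.
(3) `avg ψ = 0 ⟹ I ψ = 0`: choose χ ∈ SF Γ ℂ with `avg χ = 1` on p(supp ψ) (compact; enlarge to a compact open set).  `I ψ = I (γ ↦ ψ(γ) avg χ(γ o)) = I_γ J_s ψ(γ) χ(γ s) = J_s I_γ ψ(γ) χ(γ s)` (Fubini for functionals: both sides are linear functionals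
of an element of `SF (Γ × S) ℂ`, which is spanned by boxes: SF.boxes_span; the support is compact: if ψ(γ)χ(γs) ≠ 0 then γ ∈ supp ψ, s ∈ (supp ψ)⁻¹ supp χ ∩ S) `= J_s I_γ ψ(γ s⁻¹) χ(γ)` (I right invariant) `= I_γ χ(γ) J_s ψ(γ s⁻¹)` (Fubini) `= I_γ χ(γ) d J_s ψ(γ s) = 0`
(J is inversion invariant up to a constant `d`: hypothesis `inv`).
(4) `N f := I ψ` for any ψ with avg ψ = f (linear: factor through the surjection avg, LinearMap: e.g. `(avg.quotKerEquivOfSurjective).symm`, or exists_leftInverse style; kernel condition (3)).  Invariance: I is left invariant.  Positivity: for K compact open nonempty: `1_K = avg ψ` with ψ ≥ 0 real valued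
and not 0: take `ψ = (1_K ∘ p) ψ0 / (avg ψ0 ∘ p)`, ψ0 ≥ 0 as in (2): ψ is a nonnegative combination of indicator functions of compact open sets with at least one positive coefficient (I on such a function is a positive real: add up `pos`).
-/

set_option linter.unusedSectionVars false
set_option linter.style.haveILetI false

namespace Pool.Agent.Work.MP_dd0ddf_al.C2

noncomputable section

/-- bi-invariant positive functionals on a group -/
structure BiHaar {Γ : Type*} [Group Γ] [TopologicalSpace Γ] [IsTopologicalGroup Γ] [T2Space Γ]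
    (I : SF Γ ℂ →ₗ[ℂ] ℂ) : Prop where
  left : ∀ a f, I (SF.comp (Homeomorph.mulLeft a) f) = I f
  right : ∀ a f, I (SF.comp (Homeomorph.mulRight a) f) = I f
  pos : ∀ (K : Set Γ) (hK : IsCompact K) (hK' : IsOpen K), K.Nonempty →
    ∃ r : ℝ, 0 < r ∧ I (SF.single K hK hK' 1) = r
  inv : ∃ d : ℝ, 0 < d ∧ ∀ f, I (SF.comp (Homeomorph.inv Γ) f) = d * I f

section ind

variable {Γ O : Type*} [Group Γ] [TopologicalSpace Γ] [IsTopologicalGroup Γ]
  [LocallyCompactSpace Γ] [T2Space Γ] [TotallyDisconnectedSpace Γ] [SigmaCompactSpace Γ]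
  [TopologicalSpace O] [T2Space O] [LocallyCompactSpace O] (C : CAct Γ O) (o : O)

private theorem indi_cont (y : O) : Continuous fun γ : Γ => C.act γ y :=
  C.cont.comp (continuous_id.prodMk continuous_const)

private theorem indi_closed : IsClosed ((C.stab o : Subgroup Γ) : Set Γ) :=
  isClosed_eq (indi_cont C o) continuous_const

private theorem indi_emb (γ : Γ) :
    Topology.IsClosedEmbedding fun s : C.stab o => γ * s.1 :=
  (Homeomorph.mulLeft γ).isClosedEmbedding.comp (indi_closed C o).isClosedEmbedding_subtypeVal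

private def indi_sl (γ : Γ) : SF Γ ℂ →ₗ[ℂ] SF (C.stab o) ℂ where
  toFun ψ := ⟨fun s => ψ (γ * s.1), ψ.2.1.comp_continuous (indi_emb C o γ).continuous,
    ψ.2.2.comp_isClosedEmbedding (indi_emb C o γ)⟩
  map_add' _ _ := rfl
  map_smul' _ _ := rfl

private theorem indi_sl_apply (γ : Γ) (ψ : SF Γ ℂ) (s : C.stab o) :
    indi_sl C o γ ψ s = ψ (γ * s.1) := rfl

private theorem indi_inv (ψ : SF Γ ℂ) :
    ∃ U : Subgroup Γ, DescData.CO U ∧ ∀ u ∈ U, ∀ x, ψ (u * x) = ψ x := by
  have hK : IsCompact (tsupport ψ.1) := ψ.2.2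
  have h : ∀ᶠ g in nhds (1 : Γ), ∀ x ∈ tsupport ψ.1, ψ.1 (g * x) = ψ.1 x := by
    refine hK.eventually_forall_of_forall_eventually ?_
    intro x _
    have hlc := (IsLocallyConstant.iff_eventually_eq _).mp ψ.2.1 x
    have e1 : ∀ᶠ z : Γ × Γ in nhds (1, x), ψ.1 (z.1 * z.2) = ψ.1 x := by
      have hc : Filter.Tendsto (fun z : Γ × Γ => z.1 * z.2) (nhds (1, x)) (nhds x) := by
        have h1 : Filter.Tendsto (fun z : Γ × Γ => z.1 * z.2) (nhds (1, x))
            (nhds ((1 : Γ) * x)) := (continuous_fst.mul continuous_snd).tendsto ((1, x) : Γ × Γ)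
        rwa [one_mul] at h1
      exact hc.eventually hlc
    have e2 : ∀ᶠ z : Γ × Γ in nhds (1, x), ψ.1 z.2 = ψ.1 x :=
      (continuous_snd.tendsto ((1, x) : Γ × Γ)).eventually hlc
    filter_upwards [e1, e2] with z h1 h2
    rw [h1, h2]
  obtain ⟨V, hV, hVo, hV1⟩ := eventually_nhds_iff.1 h
  obtain ⟨U, hU, hUV⟩ := co_basis V hVo hV1
  refine ⟨U, hU, fun u hu x => ?_⟩
  by_cases hx : x ∈ tsupport ψ.1
  · exact hV u (hUV hu) x hx
  · have h0 : ψ.1 x = 0 := image_eq_zero_of_notMem_tsupport hx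
    by_contra hne
    have h1 : ψ.1 (u * x) ≠ 0 := fun h2 => hne (by rw [h0, h2])
    have h2 := hV u⁻¹ (hUV (U.inv_mem hu)) (u * x) (subset_tsupport _ h1)
    rw [inv_mul_cancel_left] at h2
    exact hne h2.symm

variable (htr : ∀ y, ∃ γ, C.act γ o = y) (J : SF (C.stab o) ℂ →ₗ[ℂ] ℂ)
  (hJ : ∀ a f, J (SF.comp (Homeomorph.mulLeft a) f) = J f)

private def indi_avgF (ψ : SF Γ ℂ) (y : O) : ℂ := J (indi_sl C o (htr y).choose ψ)

include hJ in
private theorem indi_avgF_apply (ψ : SF Γ ℂ) (γ : Γ) :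
    indi_avgF C o htr J ψ (C.act γ o) = J (indi_sl C o γ ψ) := by
  have h := (htr (C.act γ o)).choose_spec
  unfold indi_avgF
  generalize (htr (C.act γ o)).choose = γ' at h
  have hs : γ⁻¹ * γ' ∈ C.stab o := by
    show C.act (γ⁻¹ * γ') o = o
    rw [C.mul, h, C.inv_act]
  rw [← hJ ⟨γ⁻¹ * γ', hs⟩ (indi_sl C o γ ψ)]
  congr 1
  apply SF.ext
  intro s
  show ψ (γ' * s.1) = ψ (γ * (γ⁻¹ * γ' * s.1))
  group

include hJ in
private theorem indi_avg_mem (ψ : SF Γ ℂ) : indi_avgF C o htr J ψ ∈ SF O ℂ := by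
  constructor
  · rw [IsLocallyConstant.iff_eventually_eq]
    intro y
    obtain ⟨γ, rfl⟩ := htr y
    obtain ⟨U, hU, hUψ⟩ := indi_inv ψ
    have hA : IsOpen {x : Γ | x * γ⁻¹ ∈ U} :=
      hU.1.preimage (continuous_id.mul continuous_const)
    have hB := orbit_map_open C o htr _ hA
    have hmem : C.act γ o ∈ (fun γ => C.act γ o) '' {x : Γ | x * γ⁻¹ ∈ U} :=
      ⟨γ, by
        show γ * γ⁻¹ ∈ U
        rw [mul_inv_cancel]
        exact U.one_mem, rfl⟩
    filter_upwards [hB.mem_nhds hmem] with z hz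
    obtain ⟨x, hx, rfl⟩ := hz
    show indi_avgF C o htr J ψ (C.act x o) = indi_avgF C o htr J ψ (C.act γ o)
    rw [indi_avgF_apply C o htr J hJ, indi_avgF_apply C o htr J hJ]
    congr 1
    apply SF.ext
    intro s
    show ψ (x * s.1) = ψ (γ * s.1)
    have h1 := hUψ (x * γ⁻¹) hx (γ * s.1)
    rw [← h1]
    group
  · refine HasCompactSupport.of_support_subset_isCompact
      (K := (fun γ => C.act γ o) '' tsupport ψ.1) (ψ.2.2.isCompact.image (indi_cont C o)) ?_
    intro y hy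
    obtain ⟨γ, rfl⟩ := htr y
    rw [Function.mem_support, indi_avgF_apply C o htr J hJ] at hy
    have h1 : indi_sl C o γ ψ ≠ 0 := fun h => hy (by rw [h, map_zero])
    have h2 : ∃ s : C.stab o, ψ (γ * s.1) ≠ 0 := by
      by_contra hn
      push Not at hn
      exact h1 (SF.ext fun s => hn s)
    obtain ⟨s, hs⟩ := h2
    refine ⟨γ * s.1, subset_tsupport _ hs, ?_⟩
    show C.act (γ * s.1) o = C.act γ o
    rw [C.mul, show C.act s.1 o = o from s.2]

private def indi_avg : SF Γ ℂ →ₗ[ℂ] SF O ℂ where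
  toFun ψ := ⟨indi_avgF C o htr J ψ, indi_avg_mem C o htr J hJ ψ⟩
  map_add' ψ φ := by
    apply SF.ext
    intro y
    show J (indi_sl C o _ (ψ + φ)) = J (indi_sl C o _ ψ) + J (indi_sl C o _ φ)
    rw [map_add, map_add]
  map_smul' c ψ := by
    apply SF.ext
    intro y
    show J (indi_sl C o _ (c • ψ)) = c • J (indi_sl C o _ ψ)
    rw [map_smul, map_smul]

private theorem indi_avg_apply (ψ : SF Γ ℂ) (γ : Γ) :
    indi_avg C o htr J hJ ψ (C.act γ o) = J (indi_sl C o γ ψ) :=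
  indi_avgF_apply C o htr J hJ ψ γ

include C o htr in
private theorem indi_td : TotallyDisconnectedSpace O := by
  haveI : TotallySeparatedSpace O := by
    rw [totallySeparatedSpace_iff_exists_isClopen]
    intro x y hxy
    obtain ⟨V, W, hV, hW, hxV, hyW, hVW⟩ := t2_separation hxy
    obtain ⟨γ, rfl⟩ := htr x
    obtain ⟨K, hK, hKo, hγK, hKV⟩ := exists_compact_open γ _ (hV.preimage (indi_cont C o)) hxV
    refine ⟨(fun γ => C.act γ o) '' K, ⟨(hK.image (indi_cont C o)).isClosed,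
      orbit_map_open C o htr _ hKo⟩, ⟨γ, hγK, rfl⟩, ?_⟩
    rintro ⟨g, hg, hgy⟩
    exact Set.disjoint_left.1 hVW (hKV hg) (by
      show C.act g o ∈ W
      rw [show C.act g o = y from hgy]
      exact hyW)
  infer_instance

section fub

variable {X Y : Type*} [TopologicalSpace X] [T2Space X] [LocallyCompactSpace X]
  [TotallyDisconnectedSpace X] [TopologicalSpace Y] [T2Space Y] [LocallyCompactSpace Y]
  [TotallyDisconnectedSpace Y]

private theorem indi_fub (T1 : SF X ℂ →ₗ[ℂ] ℂ) (T2 : SF Y ℂ →ₗ[ℂ] ℂ) (f : SF (X × Y) ℂ) :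
    T1 (SF.map T2 (SF.curry f)) =
      T2 (SF.map T1 (SF.curry (SF.comp (Homeomorph.prodComm Y X) f))) := by
  have key : T1 ∘ₗ SF.map T2 ∘ₗ SF.curry =
      T2 ∘ₗ SF.map T1 ∘ₗ SF.curry ∘ₗ SF.comp (Homeomorph.prodComm Y X) := by
    refine LinearMap.ext_on (SF.boxes_span (X := X) (Y := Y) (B := ℂ)) ?_
    rintro f ⟨K, K', b, hK, hKo, hK', hKo', h1, h2⟩
    have e1 : SF.map T2 (SF.curry f) =
        (b * T2 (SF.single K' hK' hKo' 1)) • SF.single K hK hKo (1 : ℂ) := by
      apply SF.ext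
      intro x
      show T2 (SF.curry f x) = (b * T2 (SF.single K' hK' hKo' 1)) * SF.single K hK hKo (1 : ℂ) x
      by_cases hx : x ∈ K
      · rw [SF.single_apply_mem _ _ _ _ _ hx, mul_one, ← smul_eq_mul, ← map_smul]
        congr 1
        apply SF.ext
        intro y
        show f (x, y) = b * SF.single K' hK' hKo' (1 : ℂ) y
        by_cases hy : y ∈ K'
        · rw [SF.single_apply_mem _ _ _ _ _ hy, mul_one, h1 x y hx hy]
        · rw [SF.single_apply_not_mem _ _ _ _ _ hy, mul_zero, h2 x y (Or.inr hy)]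
      · rw [SF.single_apply_not_mem _ _ _ _ _ hx, mul_zero]
        have h0 : SF.curry f x = 0 := SF.ext fun y => h2 x y (Or.inl hx)
        rw [h0, map_zero]
    have e2 : SF.map T1 (SF.curry (SF.comp (Homeomorph.prodComm Y X) f)) =
        (b * T1 (SF.single K hK hKo 1)) • SF.single K' hK' hKo' (1 : ℂ) := by
      apply SF.ext
      intro y
      show T1 (SF.curry (SF.comp (Homeomorph.prodComm Y X) f) y) =
        (b * T1 (SF.single K hK hKo 1)) * SF.single K' hK' hKo' (1 : ℂ) y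
      by_cases hy : y ∈ K'
      · rw [SF.single_apply_mem _ _ _ _ _ hy, mul_one, ← smul_eq_mul, ← map_smul]
        congr 1
        apply SF.ext
        intro x
        show f (x, y) = b * SF.single K hK hKo (1 : ℂ) x
        by_cases hx : x ∈ K
        · rw [SF.single_apply_mem _ _ _ _ _ hx, mul_one, h1 x y hx hy]
        · rw [SF.single_apply_not_mem _ _ _ _ _ hx, mul_zero, h2 x y (Or.inl hx)]
      · rw [SF.single_apply_not_mem _ _ _ _ _ hy, mul_zero]
        have h0 : SF.curry (SF.comp (Homeomorph.prodComm Y X) f) y = 0 :=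
          SF.ext fun x => h2 x y (Or.inr hy)
        rw [h0, map_zero]
    show T1 (SF.map T2 (SF.curry f)) =
      T2 (SF.map T1 (SF.curry (SF.comp (Homeomorph.prodComm Y X) f)))
    rw [e1, e2, map_smul, map_smul, smul_eq_mul, smul_eq_mul]
    ring
  exact LinearMap.congr_fun key f

end fub

open scoped Pointwise in
private def indi_g (ψ χ : SF Γ ℂ) : SF (Γ × C.stab o) ℂ :=
  ⟨fun q => ψ q.1 * χ (q.1 * q.2.1), by
    constructor
    · exact (ψ.2.1.comp_continuous continuous_fst).comp₂ (χ.2.1.comp_continuous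
        (continuous_fst.mul (continuous_subtype_val.comp continuous_snd))) (· * ·)
    · have hK2 : IsCompact ((Subtype.val : C.stab o → Γ) ⁻¹'
          ((tsupport ψ.1)⁻¹ * tsupport χ.1)) :=
        (indi_closed C o).isClosedEmbedding_subtypeVal.isCompact_preimage
          (ψ.2.2.isCompact.inv.mul χ.2.2.isCompact)
      refine HasCompactSupport.of_support_subset_isCompact (ψ.2.2.isCompact.prod hK2) ?_
      rintro ⟨γ, s⟩ hq
      have hq' : ψ γ * χ (γ * s.1) ≠ 0 := hq
      have h1 : γ ∈ tsupport ψ.1 := subset_tsupport _ (left_ne_zero_of_mul hq')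
      have h2 : γ * s.1 ∈ tsupport χ.1 := subset_tsupport _ (right_ne_zero_of_mul hq')
      refine ⟨h1, ?_⟩
      show s.1 ∈ (tsupport ψ.1)⁻¹ * tsupport χ.1
      have h3 := Set.mul_mem_mul (Set.inv_mem_inv.2 h1) h2
      rwa [inv_mul_cancel_left] at h3⟩

private def indi_shift : (Γ × C.stab o) ≃ₜ (Γ × C.stab o) where
  toFun q := (q.1 * (q.2.1)⁻¹, q.2)
  invFun q := (q.1 * q.2.1, q.2)
  left_inv q := by
    apply Prod.ext
    · show q.1 * (q.2.1)⁻¹ * q.2.1 = q.1
      group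
    · rfl
  right_inv q := by
    apply Prod.ext
    · show q.1 * q.2.1 * (q.2.1)⁻¹ = q.1
      group
    · rfl
  continuous_toFun := (continuous_fst.mul
    (continuous_subtype_val.comp continuous_snd).inv).prodMk continuous_snd
  continuous_invFun := (continuous_fst.mul
    (continuous_subtype_val.comp continuous_snd)).prodMk continuous_snd

private theorem indi_ker (I : SF Γ ℂ →ₗ[ℂ] ℂ) (hI : BiHaar I) (d : ℝ)
    (hd : ∀ f, J (SF.comp (Homeomorph.inv (C.stab o)) f) = d * J f)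
    (ψ χ : SF Γ ℂ) (h0 : indi_avg C o htr J hJ ψ = 0)
    (hχ : ∀ γ, ψ γ ≠ 0 → indi_avg C o htr J hJ χ (C.act γ o) = 1) : I ψ = 0 := by
  haveI : LocallyCompactSpace (C.stab o) :=
    (indi_closed C o).isClosedEmbedding_subtypeVal.locallyCompactSpace
  haveI : TotallyDisconnectedSpace (C.stab o) :=
    ⟨isTotallyDisconnected_of_image continuous_subtype_val.continuousOn Subtype.val_injective
      (isTotallyDisconnected_of_totallyDisconnectedSpace _)⟩
  have e1 : SF.map J (SF.curry (indi_g C o ψ χ)) = ψ := by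
    apply SF.ext
    intro γ
    show J (SF.curry (indi_g C o ψ χ) γ) = ψ γ
    have h1 : SF.curry (indi_g C o ψ χ) γ = ψ γ • indi_sl C o γ χ := SF.ext fun s => rfl
    rw [h1, map_smul, smul_eq_mul, ← indi_avg_apply C o htr J hJ]
    by_cases h2 : ψ γ = 0
    · rw [h2, zero_mul]
    · rw [hχ γ h2, mul_one]
  have e2 : SF.map J (SF.curry (SF.comp (indi_shift C o) (indi_g C o ψ χ))) = 0 := by
    apply SF.ext
    intro γ
    show J (SF.curry (SF.comp (indi_shift C o) (indi_g C o ψ χ)) γ) = 0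
    have h1 : SF.curry (SF.comp (indi_shift C o) (indi_g C o ψ χ)) γ =
        χ γ • SF.comp (Homeomorph.inv (C.stab o)) (indi_sl C o γ ψ) := by
      apply SF.ext
      intro s
      show ψ (γ * (s.1)⁻¹) * χ (γ * (s.1)⁻¹ * s.1) = χ γ * ψ (γ * (s.1)⁻¹)
      rw [inv_mul_cancel_right, mul_comm]
    rw [h1, map_smul, hd, ← indi_avg_apply C o htr J hJ, h0]
    show χ γ • ((d : ℂ) * 0) = 0
    rw [mul_zero, smul_zero]
  have e3 : SF.map I (SF.curry (SF.comp (Homeomorph.prodComm (C.stab o) Γ)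
      (SF.comp (indi_shift C o) (indi_g C o ψ χ)))) =
      SF.map I (SF.curry (SF.comp (Homeomorph.prodComm (C.stab o) Γ) (indi_g C o ψ χ))) := by
    apply SF.ext
    intro s
    show I (SF.curry (SF.comp (Homeomorph.prodComm (C.stab o) Γ)
      (SF.comp (indi_shift C o) (indi_g C o ψ χ))) s) =
      I (SF.curry (SF.comp (Homeomorph.prodComm (C.stab o) Γ) (indi_g C o ψ χ)) s)
    rw [← hI.right (s.1)⁻¹ (SF.curry (SF.comp (Homeomorph.prodComm (C.stab o) Γ)
      (indi_g C o ψ χ)) s)]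
    congr 1
  calc I ψ = I (SF.map J (SF.curry (indi_g C o ψ χ))) := by rw [e1]
    _ = J (SF.map I (SF.curry (SF.comp (Homeomorph.prodComm (C.stab o) Γ)
          (indi_g C o ψ χ)))) := indi_fub I J _
    _ = J (SF.map I (SF.curry (SF.comp (Homeomorph.prodComm (C.stab o) Γ)
          (SF.comp (indi_shift C o) (indi_g C o ψ χ))))) := by rw [e3]
    _ = I (SF.map J (SF.curry (SF.comp (indi_shift C o) (indi_g C o ψ χ)))) :=
          (indi_fub I J _).symm
    _ = 0 := by rw [e2, map_zero]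

/-- the orbit of `y` under a subgroup -/
private def indi_orb (U : Subgroup Γ) (y : O) : Set O := (fun u => C.act u y) '' (U : Set Γ)

include htr in
private theorem indi_orb_open (U : Subgroup Γ) (hU : DescData.CO U) (y : O) :
    IsOpen (indi_orb C U y) := by
  refine orbit_map_open C y (fun z => ?_) _ hU.1
  obtain ⟨a, ha⟩ := htr y
  obtain ⟨b, hb⟩ := htr z
  refine ⟨b * a⁻¹, ?_⟩
  rw [C.mul, ← ha, C.inv_act, hb]

private theorem indi_orb_cpt (U : Subgroup Γ) (hU : DescData.CO U) (y : O) :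
    IsCompact (indi_orb C U y) := hU.2.image (indi_cont C y)

private theorem indi_base (I : SF Γ ℂ →ₗ[ℂ] ℂ) (hI : BiHaar I)
    (hJp : ∀ (K : Set (C.stab o)) (hK : IsCompact K) (hK' : IsOpen K), K.Nonempty →
      ∃ r : ℝ, 0 < r ∧ J (SF.single K hK hK' 1) = r)
    (U : Subgroup Γ) (hU : DescData.CO U) (y : O) :
    ∃ ψ : SF Γ ℂ, (∀ z ∈ indi_orb C U y, indi_avg C o htr J hJ ψ z = 1) ∧
      (∀ z, z ∉ indi_orb C U y → indi_avg C o htr J hJ ψ z = 0) ∧
      ∃ r : ℝ, 0 < r ∧ I ψ = r := by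
  obtain ⟨γ, rfl⟩ := htr y
  set A : Set Γ := {x : Γ | x * γ⁻¹ ∈ U} with hA
  have hAo : IsOpen A := hU.1.preimage (continuous_id.mul continuous_const)
  have hAc : IsCompact A := (Homeomorph.mulRight γ⁻¹).isCompact_preimage.2 hU.2
  have h1A : γ ∈ A := by
    show γ * γ⁻¹ ∈ U
    rw [mul_inv_cancel]
    exact U.one_mem
  set S : Set (C.stab o) := (fun s : C.stab o => γ * s.1) ⁻¹' A with hS
  have hSo : IsOpen S := hAo.preimage (indi_emb C o γ).continuous
  have hSc : IsCompact S := (indi_emb C o γ).isCompact_preimage hAc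
  have hSn : S.Nonempty := ⟨1, by
    show γ * ((1 : C.stab o) : Γ) ∈ A
    rw [OneMemClass.coe_one, mul_one]
    exact h1A⟩
  obtain ⟨r, hr, hJr⟩ := hJp S hSc hSo hSn
  obtain ⟨r', hr', hIr⟩ := hI.pos A hAc hAo ⟨γ, h1A⟩
  have hrc : (r : ℂ) ≠ 0 := by exact_mod_cast hr.ne'
  refine ⟨(r : ℂ)⁻¹ • SF.single A hAc hAo 1, ?_, ?_, r⁻¹ * r', by positivity, ?_⟩
  · rintro _ ⟨u, hu, rfl⟩
    show indi_avg C o htr J hJ ((r : ℂ)⁻¹ • SF.single A hAc hAo 1) (C.act u (C.act γ o)) = 1
    rw [← C.mul, map_smul]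
    show (r : ℂ)⁻¹ * indi_avg C o htr J hJ (SF.single A hAc hAo 1) (C.act (u * γ) o) = 1
    rw [indi_avg_apply]
    have h1 : indi_sl C o (u * γ) (SF.single A hAc hAo 1) = SF.single S hSc hSo 1 := by
      apply SF.ext
      intro s
      show SF.single A hAc hAo (1 : ℂ) (u * γ * s.1) = SF.single S hSc hSo (1 : ℂ) s
      have h2 : u * γ * s.1 ∈ A ↔ s ∈ S := by
        show u * γ * s.1 * γ⁻¹ ∈ U ↔ γ * s.1 * γ⁻¹ ∈ U
        have h3 : u * γ * s.1 * γ⁻¹ = u * (γ * s.1 * γ⁻¹) := by group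
        rw [h3]
        exact U.mul_mem_cancel_left hu
      by_cases h4 : s ∈ S
      · rw [SF.single_apply_mem _ _ _ _ _ h4, SF.single_apply_mem _ _ _ _ _ (h2.2 h4)]
      · rw [SF.single_apply_not_mem _ _ _ _ _ h4,
          SF.single_apply_not_mem _ _ _ _ _ (fun h5 => h4 (h2.1 h5))]
    rw [h1, hJr]
    exact inv_mul_cancel₀ hrc
  · intro z hz
    obtain ⟨g, rfl⟩ := htr z
    rw [map_smul]
    show (r : ℂ)⁻¹ * indi_avg C o htr J hJ (SF.single A hAc hAo 1) (C.act g o) = 0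
    rw [indi_avg_apply]
    have h1 : indi_sl C o g (SF.single A hAc hAo (1 : ℂ)) = 0 := by
      apply SF.ext
      intro s
      show SF.single A hAc hAo (1 : ℂ) (g * s.1) = 0
      apply SF.single_apply_not_mem
      intro h2
      apply hz
      refine ⟨g * s.1 * γ⁻¹, h2, ?_⟩
      show C.act (g * s.1 * γ⁻¹) (C.act γ o) = C.act g o
      rw [← C.mul, inv_mul_cancel_right, C.mul, show C.act s.1 o = o from s.2]
    rw [h1, map_zero, mul_zero]
  · rw [map_smul, hIr, smul_eq_mul]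
    push_cast
    rfl

private theorem indi_union (I : SF Γ ℂ →ₗ[ℂ] ℂ) (hI : BiHaar I)
    (hJp : ∀ (K : Set (C.stab o)) (hK : IsCompact K) (hK' : IsOpen K), K.Nonempty →
      ∃ r : ℝ, 0 < r ∧ J (SF.single K hK hK' 1) = r)
    (U : Subgroup Γ) (hU : DescData.CO U) (t : Finset O) :
    ∃ ψ : SF Γ ℂ, (∀ z, (∃ y ∈ t, z ∈ indi_orb C U y) → indi_avg C o htr J hJ ψ z = 1) ∧
      (∀ z, (¬ ∃ y ∈ t, z ∈ indi_orb C U y) → indi_avg C o htr J hJ ψ z = 0) ∧
      ∃ r : ℝ, 0 ≤ r ∧ (t.Nonempty → 0 < r) ∧ I ψ = r := by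
  classical
  induction t using Finset.induction_on with
  | empty =>
    refine ⟨0, ?_, ?_, 0, le_rfl, ?_, ?_⟩
    · rintro z ⟨y, hy, -⟩
      exact absurd hy (Finset.notMem_empty y)
    · intro z _
      rw [map_zero]
      rfl
    · intro h
      exact absurd h Finset.not_nonempty_empty
    · rw [map_zero, Complex.ofReal_zero]
  | insert y t hyt ih =>
    obtain ⟨ψ, h1, h2, r, hr0, hr1, hIr⟩ := ih
    by_cases hy : ∃ x ∈ t, y ∈ indi_orb C U x
    · have hiff : ∀ z, (∃ x ∈ insert y t, z ∈ indi_orb C U x) ↔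
          ∃ x ∈ t, z ∈ indi_orb C U x := by
        intro z
        constructor
        · rintro ⟨x, hx, hz⟩
          rcases Finset.mem_insert.1 hx with rfl | hx
          · obtain ⟨w, hw, u, hu, rfl⟩ := hy
            obtain ⟨v, hv, rfl⟩ := hz
            exact ⟨w, hw, v * u, U.mul_mem hv hu, C.mul v u w⟩
          · exact ⟨x, hx, hz⟩
        · rintro ⟨x, hx, hz⟩
          exact ⟨x, Finset.mem_insert_of_mem hx, hz⟩
      refine ⟨ψ, fun z hz => h1 z ((hiff z).1 hz), fun z hz => h2 z fun h => hz ((hiff z).2 h),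
        r, hr0, fun _ => hr1 ?_, hIr⟩
      obtain ⟨x, hx, -⟩ := hy
      exact ⟨x, hx⟩
    · obtain ⟨φ, g1, g2, r', hr', hIr'⟩ := indi_base C o htr J hJ I hI hJp U hU y
      refine ⟨ψ + φ, ?_, ?_, r + r', by linarith, fun _ => by linarith, ?_⟩
      · rintro z ⟨x, hx, hz⟩
        rw [map_add]
        show indi_avg C o htr J hJ ψ z + indi_avg C o htr J hJ φ z = 1
        rcases Finset.mem_insert.1 hx with rfl | hx
        · rw [g1 z hz, h2 z ?_, zero_add]
          rintro ⟨w, hw, hzw⟩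
          apply hy
          obtain ⟨u, hu, rfl⟩ := hz
          obtain ⟨v, hv, hvw⟩ := hzw
          refine ⟨w, hw, u⁻¹ * v, U.mul_mem (U.inv_mem hu) hv, ?_⟩
          show C.act (u⁻¹ * v) w = x
          rw [C.mul, show C.act v w = C.act u x from hvw, C.inv_act]
        · rw [h1 z ⟨x, hx, hz⟩, g2 z ?_, add_zero]
          intro hzy
          apply hy
          obtain ⟨u, hu, rfl⟩ := hzy
          obtain ⟨v, hv, hvw⟩ := hz
          refine ⟨x, hx, u⁻¹ * v, U.mul_mem (U.inv_mem hu) hv, ?_⟩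
          show C.act (u⁻¹ * v) x = y
          rw [C.mul, show C.act v x = C.act u y from hvw, C.inv_act]
      · intro z hz
        rw [map_add]
        show indi_avg C o htr J hJ ψ z + indi_avg C o htr J hJ φ z = 0
        rw [h2 z (fun ⟨x, hx, h3⟩ => hz ⟨x, Finset.mem_insert_of_mem hx, h3⟩),
          g2 z (fun h3 => hz ⟨y, Finset.mem_insert_self y t, h3⟩), add_zero]
      · rw [map_add, hIr, hIr', Complex.ofReal_add]

private theorem indi_cover (I : SF Γ ℂ →ₗ[ℂ] ℂ) (hI : BiHaar I)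
    (hJp : ∀ (K : Set (C.stab o)) (hK : IsCompact K) (hK' : IsOpen K), K.Nonempty →
      ∃ r : ℝ, 0 < r ∧ J (SF.single K hK hK' 1) = r)
    (K : Set O) (hK : IsCompact K) (hKo : IsOpen K) :
    ∃ ψ : SF Γ ℂ, indi_avg C o htr J hJ ψ = SF.single K hK hKo 1 ∧
      (K.Nonempty → ∃ r : ℝ, 0 < r ∧ I ψ = r) := by
  have h : ∀ᶠ g in nhds (1 : Γ), ∀ x ∈ K, C.act g x ∈ K := by
    refine hK.eventually_forall_of_forall_eventually ?_
    intro x hx
    have hc : Filter.Tendsto (fun z : Γ × O => C.act z.1 z.2) (nhds (1, x)) (nhds x) := by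
      have h1 := C.cont.tendsto ((1, x) : Γ × O)
      simpa only [C.one] using h1
    exact hc.eventually (hKo.mem_nhds hx)
  obtain ⟨V, hV, hVo, hV1⟩ := eventually_nhds_iff.1 h
  obtain ⟨U, hU, hUV⟩ := co_basis V hVo hV1
  obtain ⟨t, ht1, ht2⟩ := hK.elim_nhds_subcover (fun y => indi_orb C U y) (fun y _ =>
    (indi_orb_open C o htr U hU y).mem_nhds ⟨1, U.one_mem, C.one y⟩)
  have hiff : ∀ z, z ∈ K ↔ ∃ y ∈ t, z ∈ indi_orb C U y := by
    intro z
    constructor
    · intro hz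
      obtain ⟨y, hy⟩ := Set.mem_iUnion.1 (ht2 hz)
      obtain ⟨hy1, hy2⟩ := Set.mem_iUnion.1 hy
      exact ⟨y, hy1, hy2⟩
    · rintro ⟨y, hy, u, hu, rfl⟩
      exact hV u (hUV hu) y (ht1 y hy)
  obtain ⟨ψ, h1, h2, r, hr0, hr1, hIr⟩ := indi_union C o htr J hJ I hI hJp U hU t
  refine ⟨ψ, ?_, ?_⟩
  · apply SF.ext
    intro z
    by_cases hz : z ∈ K
    · rw [SF.single_apply_mem _ _ _ _ _ hz]
      exact h1 z ((hiff z).1 hz)
    · rw [SF.single_apply_not_mem _ _ _ _ _ hz]
      exact h2 z fun h3 => hz ((hiff z).2 h3)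
  · rintro ⟨z, hz⟩
    obtain ⟨y, hy, -⟩ := (hiff z).1 hz
    exact ⟨r, hr1 ⟨y, hy⟩, hIr⟩

end ind

theorem exists_invI {Γ O : Type*} [Group Γ] [TopologicalSpace Γ] [IsTopologicalGroup Γ]
    [LocallyCompactSpace Γ] [T2Space Γ] [TotallyDisconnectedSpace Γ] [SigmaCompactSpace Γ]
    [TopologicalSpace O] [T2Space O] [LocallyCompactSpace O] (C : CAct Γ O) (o : O)
    (htr : ∀ y, ∃ γ, C.act γ o = y) (I : SF Γ ℂ →ₗ[ℂ] ℂ) (hI : BiHaar I)
    (J : SF (C.stab o) ℂ →ₗ[ℂ] ℂ) (hJ : BiHaar J) :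
    ∃ N : SF O ℂ →ₗ[ℂ] ℂ, (∀ γ f, N (SF.comp (C.homeo γ) f) = N f) ∧
      ∀ (K : Set O) (hK : IsCompact K) (hK' : IsOpen K), K.Nonempty →
        ∃ r : ℝ, 0 < r ∧ N (SF.single K hK hK' 1) = r := by
  have hL := hJ.left
  obtain ⟨d, -, hd⟩ := hJ.inv
  haveI : TotallyDisconnectedSpace O := indi_td C o htr
  have hcov := indi_cover C o htr J hL I hI hJ.pos
  -- surjectivity
  have hsurj : Function.Surjective (indi_avg C o htr J hL) := by
    intro f
    refine sf_induction (fun f => ∃ ψ, indi_avg C o htr J hL ψ = f) ⟨0, map_zero _⟩ ?_ ?_ f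
    · rintro f g ⟨ψ, rfl⟩ ⟨φ, rfl⟩
      exact ⟨ψ + φ, map_add _ _ _⟩
    · intro x
      refine ⟨Set.univ, isOpen_univ, Set.mem_univ _, fun K hK hK' b _ => ?_⟩
      obtain ⟨ψ, hψ, -⟩ := hcov K hK hK'
      refine ⟨b • ψ, ?_⟩
      rw [map_smul, hψ]
      apply SF.ext
      intro z
      show b * SF.single K hK hK' (1 : ℂ) z = SF.single K hK hK' b z
      by_cases hz : z ∈ K
      · rw [SF.single_apply_mem _ _ _ _ _ hz, SF.single_apply_mem _ _ _ _ _ hz, mul_one]
      · rw [SF.single_apply_not_mem _ _ _ _ _ hz, SF.single_apply_not_mem _ _ _ _ _ hz, mul_zero]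
  -- the kernel
  have hker : ∀ ψ : SF Γ ℂ, indi_avg C o htr J hL ψ = 0 → I ψ = 0 := by
    intro ψ hψ
    have hs1 : IsOpen (Function.support ψ.1) := ψ.2.1 {0}ᶜ
    have hs2 : IsCompact (Function.support ψ.1) := by
      have h1 : IsClosed (Function.support ψ.1) := by
        have h2 : (Function.support ψ.1)ᶜ = ψ.1 ⁻¹' {0} := by
          ext x
          simp [Function.mem_support]
        exact ⟨by
          rw [h2]
          exact ψ.2.1 _⟩
      have h3 : tsupport ψ.1 = Function.support ψ.1 := h1.closure_eq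
      rw [← h3]
      exact ψ.2.2
    obtain ⟨χ, hχ, -⟩ := hcov ((fun γ => C.act γ o) '' Function.support ψ.1)
      (hs2.image (indi_cont C o)) (orbit_map_open C o htr _ hs1)
    refine indi_ker C o htr J hL I hI d hd ψ χ hψ fun γ hγ => ?_
    rw [hχ]
    exact SF.single_apply_mem _ _ _ _ _ ⟨γ, hγ, rfl⟩
  obtain ⟨g, hg⟩ := (indi_avg C o htr J hL).exists_rightInverse_of_surjective
    (LinearMap.range_eq_top.2 hsurj)
  have hN : ∀ ψ, (I ∘ₗ g) (indi_avg C o htr J hL ψ) = I ψ := by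
    intro ψ
    show I (g (indi_avg C o htr J hL ψ)) = I ψ
    rw [← sub_eq_zero, ← map_sub]
    apply hker
    rw [map_sub, sub_eq_zero]
    exact LinearMap.congr_fun hg (indi_avg C o htr J hL ψ)
  refine ⟨I ∘ₗ g, fun γ f => ?_, fun K hK hK' hne => ?_⟩
  · obtain ⟨ψ, rfl⟩ := hsurj f
    have h1 : SF.comp (C.homeo γ) (indi_avg C o htr J hL ψ) =
        indi_avg C o htr J hL (SF.comp (Homeomorph.mulLeft γ) ψ) := by
      apply SF.ext
      intro y
      obtain ⟨a, rfl⟩ := htr y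
      show indi_avg C o htr J hL ψ (C.act γ (C.act a o)) = _
      rw [← C.mul, indi_avg_apply, indi_avg_apply]
      congr 1
      apply SF.ext
      intro s
      show ψ (γ * a * s.1) = ψ (γ * (a * s.1))
      rw [mul_assoc]
    rw [h1, hN, hN, hI.left]
  · obtain ⟨ψ, hψ, h2⟩ := hcov K hK hK'
    obtain ⟨r, hr, hIr⟩ := h2 hne
    exact ⟨r, hr, by rw [← hψ, hN, hIr]⟩

end

end Pool.Agent.Work.MP_dd0ddf_al.C2
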