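import Pool.Agent.Work.MP_dd0ddf_al.C2.LinTau
import Pool.Agent.Work.MP_dd0ddf_al.C2.LinDesc
import Pool.Agent.Work.MP_dd0ddf_al.C2.LinIso

/-!
# MP_dd0ddf_al, module Lin31: assembly of (3.1)

`lin_fib`: for every `c ≠ 0` and fibre functional `S`: if there is no `v0` with `⟨v0,v0⟩ = c` the fibre is empty.  Otherwise choose `τ0` with `τ0 v0 = v0`
(`exists_tau_fix`; QExt.nontriv).  The functional `T` is antisymmetric for `τ0` as well (`lin_tau_indep`), so apply `lin_fib` with `τ = τ0`... note that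
`v0` depends on `c`: so transfer on the fibre: `τ0 = τ h` (tau_change) and `FibInv, FibAnti F τ` give `FibAnti F τ0`.
Then `lin_desc` with `hR` from `lin_iso`, whose hypothesis `LinGood` of the restricted form comes from `hstep`
(`finrank (orth (span v0)) = finrank V - 1`).
-/

set_option linter.unusedSectionVars false
set_option linter.style.haveILetI false

namespace Pool.Agent.Work.MP_dd0ddf_al.C2

noncomputable section

universe u

variable {F E : Type u} [NontriviallyNormedField F] [IsUltrametricDist F] [ProperSpace F]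
  [CharP F 2] [NontriviallyNormedField E] [NormedAlgebra F E] [ProperSpace E] [StarRing E]
  [QExt F E]
variable {V : Type u} [AddCommGroup V] [Module E V] [Module.Finite E V] [TopologicalSpace V]
  [IsTopologicalAddGroup V] [T2Space V] [ContinuousSMul E V]

private theorem lin31_tau {B : SkewH E V} (τ τ' : AntiU B) (c : E)
    (S : SF {x : SA B × V // ipv B x = c} ℂ →ₗ[ℂ] ℂ) (hS : FibInv B c S)
    (hS' : FibAnti F τ c S) : FibAnti F τ' c S := by
  obtain ⟨g, hg⟩ := tau_change B τ τ'
  have hg' : ∀ v, τ'.t v = g.1⁻¹.1 (τ.t v) := by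
    intro v
    have h1 : g.1.1 (τ'.t v) = τ.t v := by
      rw [← τ.inv (g.1.1 (τ'.t v)), ← hg, τ'.inv]
    rw [← h1]
    exact (congrArg (fun f : Module.End E V => f (τ'.t v)) g.1.inv_mul).symm
  intro f
  have h2 : SF.comp (fibH (ipv B) ((saTau F τ').prodCongr (tauH F τ')) (ipv_tau τ') c) f =
      SF.comp (fibH (ipv B) ((saConj B g).prodCongr (gvHomeo g.1)) (ipv_lin B g) c)
        (SF.comp (fibH (ipv B) ((saTau F τ).prodCongr (tauH F τ)) (ipv_tau τ) c) f) := by
    apply SF.ext
    rintro ⟨⟨X, v⟩, hx⟩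
    refine congrArg f.1 (Subtype.ext (Prod.ext (Subtype.ext (LinearMap.ext fun w => ?_)) ?_))
    · show τ'.t (X.1 (τ'.t w)) = τ.t (g.1.1 (X.1 (g.1⁻¹.1 (τ.t w))))
      rw [← hg, hg' w]
    · show τ'.t v = τ.t (g.1.1 v)
      rw [← hg]
  rw [h2, hS]
  exact hS' f

theorem lin31 {B : SkewH E V}
    (hstep : ∀ (U : Submodule E V) (hU : NDeg B U),
      Module.finrank E U < Module.finrank E V → LinGood F (B.restrict U hU))
    (τ : AntiU B) (T : SF (SA B × V) ℂ →ₗ[ℂ] ℂ) (hT : LinInv B T) (hT' : LinAnti F τ T) :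
    SF.VanishOn T {x | ipv B x ≠ 0} := by
  refine lin_fib τ (fun c hc S hS hS' => ?_) T hT hT'
  by_cases hv : ∃ v0 : V, B.ip v0 v0 = c
  · obtain ⟨v0, hv0⟩ := hv
    have hv0' : B.ip v0 v0 ≠ 0 := by rw [hv0]; exact hc
    obtain ⟨τ0, hτ0⟩ := exists_tau_fix B (QExt.nontriv (F := F) (E := E)) v0 hv0'
    refine lin_desc B c hc v0 hv0 τ0 hτ0 (fun R h1 h2 => ?_) S hS (lin31_tau τ τ0 c S hS hS')
    refine lin_iso B v0 hv0' τ0 hτ0 ?_ R h1 h2
    refine hstep _ _ ?_
    have h3 := finrank_orth B (Submodule.span E {v0})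
    have hne : v0 ≠ 0 := by
      intro h0
      apply hv0'
      rw [h0]
      have := B.smul_left 0 0 (0 : V)
      rwa [zero_smul, zero_mul] at this
    rw [finrank_span_singleton hne] at h3
    omega
  · apply LinearMap.ext
    intro f
    have h0 : f = 0 := by
      apply SF.ext
      intro x
      exact absurd ⟨x.1.2, x.2⟩ hv
    rw [h0, map_zero, map_zero]

end

end Pool.Agent.Work.MP_dd0ddf_al.C2
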