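import Pool.Agent.Work.MP_dd0ddf_al.C2.LinTau
import Pool.Agent.Work.MP_dd0ddf_al.C2.NiE1

/-!
# MP_dd0ddf_al (characteristic 2), module LinAlpha: (3.2): the support is contained in Qset

In characteristic 2 the operators with `c ∈ F[x]` only give `⟨X^(2i) v, v⟩ = 0`; use `c ∈ E[x]`.  (Repair of helper44.)  The file below is the odd characteristic file
(`c = 1 + e x^i`, `e ∈ F`); adapt it: `linalpha_C e i X = 1 + e • X^i` with `e : E`.

Let `c = 1 + e x^i`, `e : E`, `cbar = 1 + star e x^i`; for X self-adjoint `c(X)* = cbar(X)`, so `u(X) = c(X)⁻¹ cbar(X)` is unitary and commutes with X (when `det c(X) ≠ 0`; `det cbar(X) = star det c(X)`).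
`K = {X : ‖det c(X)‖ ≥ ε, ‖det c(τXτ)‖ ≥ ε}` clopen, stable under U(V) and τ.  `(α_c f)(X, v) = f(X, c(X) v)` on K, 0 outside; commutes with `linAct h`; `τ c(X) v = cbar(τXτ) τ v`, so
`linTau ∘ α_c = α_cbar ∘ linTau`.  Hence `S f := T(α_c f) + T(α_cbar f)` is invariant and antisymmetric and `h31` gives (1): `T(α_c f) + T(α_cbar f) = 0` for f supported in `{⟨v,v⟩ ≠ 0}`.
For g supported in `{(X,v) : X ∈ K, ⟨c(X)v, c(X)v⟩ ≠ 0}` put `f(X,v) = g(X, c(X)⁻¹ v)` (X ∈ K, 0 outside): `α_c f = g`, `α_cbar f (X,v) = g(X, u(X) v)`.  If a compact open subgroup `K0` of U(V) satisfies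
`g(hXh⁻¹, hv) = g(X,v)` for h ∈ K0 and `u(X) ∈ K0` for all X in the projection of supp g, then (h = u(X) commutes with X) `α_cbar f = g` and (1) gives `2 T g = 0`, `T g = 0` (T has values in ℂ).

Local step (`vanish_local`): let `g0` vanish on Qset, `g0 (X0, v0) ≠ 0`, so `⟨X0^i v0, v0⟩ ≠ 0` for some i.  `d + star d = 1` (`exists_dd`), `a = d star d`.  Choose a compact open
neighbourhood N of (X0, v0) with `‖⟨X^i v,v⟩‖ = ρ1 > 0` constant on N and `‖⟨X^(2i) v,v⟩‖ ≤ M` on N.  Let g' be supported in N.  There is an open subgroup K0 of U(V) fixing g' (g' is locally constant with compact support; the action is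
continuous).  Take `c = 1 + t d x^i` with `t ∈ F`, t ≠ 0 small, depending on g': `u(X) ∈ K0` and `‖det c(X)‖ = 1` for X in the (compact) projection of N (u(X) is jointly continuous in (t, X) and is 1 for t = 0; compactness:
`IsCompact.eventually_forall_of_forall_eventually`), and `‖t a‖ M < ρ1`.  Then `⟨c(X)v,c(X)v⟩ = ⟨v,v⟩ + t⟨X^i v,v⟩ + t² a ⟨X^(2i) v,v⟩`, where the sum of the last two terms has norm
`ρ0 = ‖t‖ ρ1` on N.  Let `g1 = g' · 1_{‖⟨v,v⟩‖ < ρ0}` (the set is clopen and U(V)-invariant, so g1 is K0-invariant), supported in `{⟨c v, c v⟩ ≠ 0}`: `T g1 = 0` by the first part; `g' - g1` is supported in `{⟨v,v⟩ ≠ 0}`: `T(g' - g1) = 0` by `h31`.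
-/

set_option linter.unusedSectionVars false
set_option linter.style.haveILetI false

namespace Pool.Agent.Work.MP_dd0ddf_al.C2

noncomputable section

universe u

variable {F E : Type u} [NontriviallyNormedField F] [IsUltrametricDist F] [ProperSpace F]
  [CharP F 2] [NontriviallyNormedField E] [NormedAlgebra F E] [ProperSpace E] [StarRing E]
  [QExt F E]
variable {V : Type u} [AddCommGroup V] [Module E V] [Module.Finite E V] [TopologicalSpace V]
  [IsTopologicalAddGroup V] [T2Space V] [ContinuousSMul E V]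

/-! ### determinants and inverses of endomorphisms -/

private theorem linalpha_mat : Continuous fun A : Module.End E V =>
    LinearMap.toMatrix (Module.finBasis E V) (Module.finBasis E V) A := by
  refine continuous_matrix fun i j => ?_
  have h : (fun A : Module.End E V =>
      LinearMap.toMatrix (Module.finBasis E V) (Module.finBasis E V) A i j) =
      fun A => (Module.finBasis E V).coord i (A (Module.finBasis E V j)) := by
    funext A
    rw [LinearMap.toMatrix_apply]
    rfl
  rw [h]
  exact ((Module.finBasis E V).coord i).continuous_of_finiteDimensional.comp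
    (continuous_end_apply _)

private theorem linalpha_det : Continuous fun A : Module.End E V => LinearMap.det A := by
  have h : (fun A : Module.End E V => LinearMap.det A) = fun A =>
      (LinearMap.toMatrix (Module.finBasis E V) (Module.finBasis E V) A).det := by
    funext A
    rw [LinearMap.det_toMatrix]
  rw [h]
  exact linalpha_mat.matrix_det

/-- the adjugate -/
private def linalpha_adj (A : Module.End E V) : Module.End E V :=
  Matrix.toLin (Module.finBasis E V) (Module.finBasis E V)
    (LinearMap.toMatrix (Module.finBasis E V) (Module.finBasis E V) A).adjugate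

private theorem linalpha_adj_cont : Continuous fun A : Module.End E V => linalpha_adj A := by
  refine continuous_induced_rng.mpr (continuous_pi fun v => ?_)
  have h : (fun A : Module.End E V => linalpha_adj A v) = fun A => ∑ i,
      ((LinearMap.toMatrix (Module.finBasis E V) (Module.finBasis E V) A).adjugate.mulVec
        ((Module.finBasis E V).repr v)) i • Module.finBasis E V i := by
    funext A
    exact Matrix.toLin_apply _ _ _ _
  show Continuous (fun A : Module.End E V => linalpha_adj A v)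
  rw [h]
  refine continuous_finsetSum _ fun i _ => Continuous.smul ?_ continuous_const
  exact (continuous_apply i).comp (linalpha_mat.matrix_adjugate.matrix_mulVec continuous_const)

private theorem linalpha_adj_mul (A : Module.End E V) :
    linalpha_adj A * A = LinearMap.det A • (1 : Module.End E V) := by
  have h1 : A = Matrix.toLin (Module.finBasis E V) (Module.finBasis E V)
    (LinearMap.toMatrix (Module.finBasis E V) (Module.finBasis E V) A) :=
    (Matrix.toLin_toMatrix _ _ _).symm
  have h2 := Matrix.adjugate_mul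
    (LinearMap.toMatrix (Module.finBasis E V) (Module.finBasis E V) A)
  have h3 := congrArg (Matrix.toLin (Module.finBasis E V) (Module.finBasis E V)) h2
  rw [Matrix.toLin_mul (Module.finBasis E V) (Module.finBasis E V) (Module.finBasis E V), ← h1,
    map_smul, Matrix.toLin_one, LinearMap.det_toMatrix] at h3
  exact h3

private theorem linalpha_mul_adj (A : Module.End E V) :
    A * linalpha_adj A = LinearMap.det A • (1 : Module.End E V) := by
  have h1 : A = Matrix.toLin (Module.finBasis E V) (Module.finBasis E V)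
    (LinearMap.toMatrix (Module.finBasis E V) (Module.finBasis E V) A) :=
    (Matrix.toLin_toMatrix _ _ _).symm
  have h2 := Matrix.mul_adjugate
    (LinearMap.toMatrix (Module.finBasis E V) (Module.finBasis E V) A)
  have h3 := congrArg (Matrix.toLin (Module.finBasis E V) (Module.finBasis E V)) h2
  rw [Matrix.toLin_mul (Module.finBasis E V) (Module.finBasis E V) (Module.finBasis E V), ← h1,
    map_smul, Matrix.toLin_one, LinearMap.det_toMatrix] at h3
  exact h3

/-- the inverse if the determinant is not zero -/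
private def linalpha_inv (A : Module.End E V) : Module.End E V :=
  (LinearMap.det A)⁻¹ • linalpha_adj A

private theorem linalpha_inv_mul {A : Module.End E V} (hA : LinearMap.det A ≠ 0) (v : V) :
    linalpha_inv A (A v) = v := by
  have h := congrArg (fun f : Module.End E V => f v) (linalpha_adj_mul A)
  have h1 : linalpha_adj A (A v) = LinearMap.det A • v := h
  show (LinearMap.det A)⁻¹ • linalpha_adj A (A v) = v
  rw [h1, smul_smul, inv_mul_cancel₀ hA, one_smul]

private theorem linalpha_mul_inv {A : Module.End E V} (hA : LinearMap.det A ≠ 0) (v : V) :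
    A (linalpha_inv A v) = v := by
  have h := congrArg (fun f : Module.End E V => f v) (linalpha_mul_adj A)
  have h1 : A (linalpha_adj A v) = LinearMap.det A • v := h
  show A ((LinearMap.det A)⁻¹ • linalpha_adj A v) = v
  rw [map_smul, h1, smul_smul, inv_mul_cancel₀ hA, one_smul]

private theorem linalpha_inv_cont {A : Module.End E V} (hA : LinearMap.det A ≠ 0) (v : V) :
    ContinuousAt (fun q : Module.End E V × V => linalpha_inv q.1 q.2) (A, v) := by
  have h1 : ContinuousAt (fun q : Module.End E V × V => (LinearMap.det q.1)⁻¹) (A, v) :=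
    ContinuousAt.inv₀ (linalpha_det.comp continuous_fst).continuousAt hA
  have h2 : Continuous (fun q : Module.End E V × V => linalpha_adj q.1 q.2) :=
    continuous_end_eval.comp ((linalpha_adj_cont.comp continuous_fst).prodMk continuous_snd)
  exact h1.smul h2.continuousAt

/-! ### fibrewise linear operators -/

open Classical in
private def linalpha_op {B : SkewH E V} (K : Set (SA B)) (hK : IsClopen K)
    (P Q : SA B → Module.End E V)
    (hP : ∀ X ∈ K, ∀ v, ContinuousAt (fun q : SA B × V => P q.1 q.2) (X, v))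
    (hQ : ∀ X ∈ K, ∀ v, ContinuousAt (fun q : SA B × V => Q q.1 q.2) (X, v))
    (hQP : ∀ X ∈ K, ∀ v, Q X (P X v) = v) : SF (SA B × V) ℂ →ₗ[ℂ] SF (SA B × V) ℂ where
  toFun f := ⟨fun q => if q.1 ∈ K then f (q.1, P q.1 q.2) else 0, by
    constructor
    · rw [IsLocallyConstant.iff_eventually_eq]
      rintro ⟨X, v⟩
      by_cases hX : X ∈ K
      · have h1 : ∀ᶠ q : SA B × V in nhds (X, v), q.1 ∈ K :=
          continuous_fst.continuousAt.eventually (hK.isOpen.mem_nhds hX)
        have h2 : ContinuousAt (fun q : SA B × V => (q.1, P q.1 q.2)) (X, v) :=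
          continuous_fst.continuousAt.prodMk (hP X hX v)
        have h3 := h2.eventually ((IsLocallyConstant.iff_eventually_eq _).mp f.2.1 (X, P X v))
        filter_upwards [h1, h3] with q hq1 hq2
        show (if q.1 ∈ K then f (q.1, P q.1 q.2) else 0) = if X ∈ K then f (X, P X v) else 0
        rw [if_pos hq1, if_pos hX]
        exact hq2
      · have h1 : ∀ᶠ q : SA B × V in nhds (X, v), q.1 ∈ Kᶜ :=
          continuous_fst.continuousAt.eventually (hK.compl.isOpen.mem_nhds hX)
        filter_upwards [h1] with q hq1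
        show (if q.1 ∈ K then f (q.1, P q.1 q.2) else 0) = if X ∈ K then f (X, P X v) else 0
        rw [if_neg hq1, if_neg hX]
    · have hc1 : IsCompact ((Prod.fst '' tsupport f.1) ∩ K) :=
        (f.2.2.isCompact.image continuous_fst).inter_right hK.isClosed
      have hc2 : IsCompact (Prod.snd '' tsupport f.1) := f.2.2.isCompact.image continuous_snd
      refine HasCompactSupport.of_support_subset_isCompact
        ((hc1.prod hc2).image_of_continuousOn
          (f := fun q : SA B × V => (q.1, Q q.1 q.2)) ?_) ?_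
      · rintro ⟨X, w⟩ ⟨hX, -⟩
        exact (continuous_fst.continuousAt.prodMk (hQ X hX.2 w)).continuousWithinAt
      · rintro ⟨X, v⟩ hq
        have hX : X ∈ K := by
          by_contra hn
          apply hq
          show (if X ∈ K then f (X, P X v) else 0) = 0
          rw [if_neg hn]
        have hne : f (X, P X v) ≠ 0 := by
          intro h0
          apply hq
          show (if X ∈ K then f (X, P X v) else 0) = 0
          rw [if_pos hX, h0]
        have hts : (X, P X v) ∈ tsupport f.1 := subset_tsupport _ hne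
        refine ⟨(X, P X v), ⟨⟨⟨_, hts, rfl⟩, hX⟩, ⟨_, hts, rfl⟩⟩, ?_⟩
        show (X, Q X (P X v)) = (X, v)
        rw [hQP X hX]⟩
  map_add' f g := by
    apply SF.ext
    intro q
    show (if q.1 ∈ K then f (q.1, P q.1 q.2) + g (q.1, P q.1 q.2) else 0) =
      (if q.1 ∈ K then f (q.1, P q.1 q.2) else 0) + (if q.1 ∈ K then g (q.1, P q.1 q.2) else 0)
    split_ifs
    · rfl
    · rw [add_zero]
  map_smul' a f := by
    apply SF.ext
    intro q
    show (if q.1 ∈ K then a • f (q.1, P q.1 q.2) else 0) =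
      a • (if q.1 ∈ K then f (q.1, P q.1 q.2) else 0)
    split_ifs
    · rfl
    · rw [smul_zero]

/-! ### the operators `1 + e X^i` -/

private def linalpha_C (e : E) (i : ℕ) (X : Module.End E V) : Module.End E V :=
  1 + (e • (1 : Module.End E V)) * X ^ i

private theorem linalpha_C_apply (e : E) (i : ℕ) (X : Module.End E V) (v : V) :
    linalpha_C e i X v = v + e • (X ^ i) v := rfl

private theorem linalpha_C_joint (i : ℕ) :
    Continuous fun q : E × Module.End E V => linalpha_C q.1 i q.2 := by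
  refine continuous_induced_rng.mpr (continuous_pi fun w => ?_)
  show Continuous fun q : E × Module.End E V => linalpha_C q.1 i q.2 w
  have h1 : (fun q : E × Module.End E V => linalpha_C q.1 i q.2 w) =
      fun q => w + q.1 • (q.2 ^ i) w := rfl
  rw [h1]
  exact continuous_const.add (continuous_fst.smul ((continuous_end_apply w).comp
    ((continuous_pow i).comp continuous_snd)))

private theorem linalpha_C_cont (e : E) (i : ℕ) :
    Continuous fun X : Module.End E V => linalpha_C e i X :=
  (linalpha_C_joint i).comp (continuous_const.prodMk continuous_id)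

private theorem linalpha_C_zero (i : ℕ) (X : Module.End E V) : linalpha_C (0 : E) i X = 1 := by
  unfold linalpha_C
  rw [zero_smul, zero_mul, add_zero]

private theorem linalpha_C_comm (e e' : E) (i : ℕ) (X : Module.End E V) (v : V) :
    linalpha_C e i X (linalpha_C e' i X v) = linalpha_C e' i X (linalpha_C e i X v) := by
  rw [linalpha_C_apply, linalpha_C_apply, linalpha_C_apply, linalpha_C_apply, map_add, map_add,
    map_smul, map_smul, smul_add, smul_add, smul_smul, smul_smul, mul_comm e e']
  abel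

private theorem linalpha_C_conj (e : E) (i : ℕ) (X a b : Module.End E V) (hab : a * b = 1)
    (hba : b * a = 1) : linalpha_C e i (a * X * b) = a * linalpha_C e i X * b := by
  have h1 : ∀ n : ℕ, (a * X * b) ^ n = a * X ^ n * b := by
    intro n
    induction n with
    | zero => rw [pow_zero, pow_zero, mul_one, hab]
    | succ n ih =>
      rw [pow_succ, ih, pow_succ]
      calc a * X ^ n * b * (a * X * b) = a * X ^ n * (b * a) * X * b := by simp only [mul_assoc]
        _ = a * (X ^ n * X) * b := by rw [hba, mul_one, mul_assoc a]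
  unfold linalpha_C
  rw [h1, mul_add, mul_one, add_mul, hab]
  congr 1
  rw [smul_mul_assoc, smul_mul_assoc, one_mul, one_mul, mul_smul_comm, smul_mul_assoc]

private theorem linalpha_C_tau {B : SkewH E V} (τ : AntiU B) (e : E) (i : ℕ)
    (X : Module.End E V) (v : V) :
    linalpha_C (star e) i (conjτ τ X) (τ.t v) = τ.t (linalpha_C e i X v) := by
  have h1 : ∀ n : ℕ, ∀ v, ((conjτ τ X) ^ n) (τ.t v) = τ.t ((X ^ n) v) := by
    intro n
    induction n with
    | zero => intro v; rfl
    | succ n ih =>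
      intro v
      rw [pow_succ', pow_succ']
      show conjτ τ X (((conjτ τ X) ^ n) (τ.t v)) = τ.t (X ((X ^ n) v))
      rw [ih]
      show τ.t (X (τ.t (τ.t ((X ^ n) v)))) = _
      rw [τ.inv]
  rw [linalpha_C_apply, linalpha_C_apply, h1, τ.add, τ.smul]

private theorem linalpha_det_conj (A a b : Module.End E V) (hab : a * b = 1) :
    LinearMap.det (a * A * b) = LinearMap.det A := by
  rw [map_mul, map_mul]
  have h : LinearMap.det a * LinearMap.det b = 1 := by
    rw [← map_mul, hab, map_one]
  linear_combination LinearMap.det A * h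

/-- the set where the operators are used -/
private def linalpha_K {B : SkewH E V} (τ : AntiU B) (e : E) (i : ℕ) (ε : ℝ) : Set (SA B) :=
  {X | (ε ≤ ‖LinearMap.det (linalpha_C e i X.1)‖ ∧
    ε ≤ ‖LinearMap.det (linalpha_C (star e) i X.1)‖) ∧
    (ε ≤ ‖LinearMap.det (linalpha_C e i (conjτ τ X.1))‖ ∧
    ε ≤ ‖LinearMap.det (linalpha_C (star e) i (conjτ τ X.1))‖)}

private theorem linalpha_K_star {B : SkewH E V} (τ : AntiU B) (e : E) (i : ℕ) (ε : ℝ) :
    linalpha_K τ (star e) i ε = linalpha_K τ e i ε := by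
  unfold linalpha_K
  rw [star_star]
  ext X
  exact and_congr and_comm and_comm

variable (F) in
include F in
private theorem linalpha_K_clopen {B : SkewH E V} (τ : AntiU B) (e : E) (i : ℕ) (ε : ℝ) :
    IsClopen (linalpha_K τ e i ε) := by
  haveI : IsUltrametricDist E := ult_E F
  have h0 : IsClopen {x : E | ε ≤ ‖x‖} := by
    have h1 : {x : E | ε ≤ ‖x‖} = (Metric.ball 0 ε)ᶜ := by
      ext x
      rw [Set.mem_compl_iff, Metric.mem_ball, dist_zero_right, not_lt]
      rfl
    rw [h1]
    exact (IsUltrametricDist.isClopen_ball _ _).compl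
  have c1 : ∀ e : E, Continuous fun X : SA B => LinearMap.det (linalpha_C e i X.1) := fun e =>
    linalpha_det.comp ((linalpha_C_cont e i).comp continuous_subtype_val)
  have c2 : ∀ e : E, Continuous fun X : SA B =>
      LinearMap.det (linalpha_C e i (conjτ τ X.1)) := fun e =>
    linalpha_det.comp ((linalpha_C_cont e i).comp
      ((continuous_conjτ F τ).comp continuous_subtype_val))
  exact ((h0.preimage (c1 e)).inter (h0.preimage (c1 (star e)))).inter
    ((h0.preimage (c2 e)).inter (h0.preimage (c2 (star e))))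

private theorem linalpha_K_conj {B : SkewH E V} (τ : AntiU B) (e : E) (i : ℕ) (ε : ℝ) (h : UU B)
    (X : SA B) : saConj B h X ∈ linalpha_K τ e i ε ↔ X ∈ linalpha_K τ e i ε := by
  have e1 : ∀ e : E, LinearMap.det (linalpha_C e i (saConj B h X).1) =
      LinearMap.det (linalpha_C e i X.1) := by
    intro e
    show LinearMap.det (linalpha_C e i (h.1.1 * X.1 * h.1⁻¹.1)) = _
    rw [linalpha_C_conj e i X.1 h.1.1 h.1⁻¹.1 h.1.mul_inv h.1.inv_mul,
      linalpha_det_conj _ _ _ h.1.mul_inv]
  have e2 : ∀ e : E, LinearMap.det (linalpha_C e i (conjτ τ (saConj B h X).1)) =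
      LinearMap.det (linalpha_C e i (conjτ τ X.1)) := by
    intro e
    show LinearMap.det (linalpha_C e i (conjτ τ (h.1.1 * X.1 * h.1⁻¹.1))) = _
    have h1 : conjτ τ h.1.1 * conjτ τ h.1⁻¹.1 = 1 := by
      rw [← conjτ_mul, show h.1.1 * h.1⁻¹.1 = 1 from h.1.mul_inv, conjτ_one]
    have h2 : conjτ τ h.1⁻¹.1 * conjτ τ h.1.1 = 1 := by
      rw [← conjτ_mul, show h.1⁻¹.1 * h.1.1 = 1 from h.1.inv_mul, conjτ_one]
    rw [conjτ_mul, conjτ_mul, linalpha_C_conj e i _ _ _ h1 h2, linalpha_det_conj _ _ _ h1]
  show ((ε ≤ ‖LinearMap.det (linalpha_C e i (saConj B h X).1)‖ ∧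
    ε ≤ ‖LinearMap.det (linalpha_C (star e) i (saConj B h X).1)‖) ∧
    (ε ≤ ‖LinearMap.det (linalpha_C e i (conjτ τ (saConj B h X).1))‖ ∧
    ε ≤ ‖LinearMap.det (linalpha_C (star e) i (conjτ τ (saConj B h X).1))‖)) ↔ _
  rw [e1, e1, e2, e2]
  exact Iff.rfl

variable (F) in
include F in
private theorem linalpha_K_tau {B : SkewH E V} (τ : AntiU B) (e : E) (i : ℕ) (ε : ℝ)
    (X : SA B) : saTau F τ X ∈ linalpha_K τ e i ε ↔ X ∈ linalpha_K τ e i ε := by
  show ((ε ≤ ‖LinearMap.det (linalpha_C e i (conjτ τ X.1))‖ ∧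
    ε ≤ ‖LinearMap.det (linalpha_C (star e) i (conjτ τ X.1))‖) ∧
    (ε ≤ ‖LinearMap.det (linalpha_C e i (conjτ τ (conjτ τ X.1)))‖ ∧
    ε ≤ ‖LinearMap.det (linalpha_C (star e) i (conjτ τ (conjτ τ X.1)))‖)) ↔ _
  rw [conjτ_conjτ]
  exact and_comm

private theorem linalpha_K_det {B : SkewH E V} (τ : AntiU B) (e : E) (i : ℕ) (ε : ℝ)
    (hε : 0 < ε) {X : SA B} (hX : X ∈ linalpha_K τ e i ε) :
    LinearMap.det (linalpha_C e i X.1) ≠ 0 := by
  intro h
  have h1 : ε ≤ ‖LinearMap.det (linalpha_C e i X.1)‖ := hX.1.1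
  rw [h, norm_zero] at h1
  exact absurd hε (not_lt.2 h1)

variable (F) in
/-- `α` -/
private def linalpha_a {B : SkewH E V} (τ : AntiU B) (e : E) (i : ℕ) (ε : ℝ) (hε : 0 < ε) :
    SF (SA B × V) ℂ →ₗ[ℂ] SF (SA B × V) ℂ :=
  linalpha_op (linalpha_K τ e i ε) (linalpha_K_clopen F τ e i ε)
    (fun X => linalpha_C e i X.1)
    (fun X => linalpha_inv (linalpha_C e i X.1))
    (fun X _ v => (continuous_end_eval.comp ((((linalpha_C_cont e i).comp
      continuous_subtype_val).comp continuous_fst).prodMk continuous_snd)).continuousAt)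
    (fun X hX v => by
      have h1 := linalpha_inv_cont (linalpha_K_det τ e i ε hε hX) v
      have h2 : ContinuousAt (fun q : SA B × V => (linalpha_C e i q.1.1, q.2)) (X, v) :=
        ((((linalpha_C_cont e i).comp continuous_subtype_val).comp continuous_fst).prodMk
          continuous_snd).continuousAt
      exact ContinuousAt.comp (f := fun q : SA B × V => (linalpha_C e i q.1.1, q.2))
        (g := fun q : Module.End E V × V => linalpha_inv q.1 q.2) h1 h2)
    (fun X hX v => linalpha_inv_mul (linalpha_K_det τ e i ε hε hX) v)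

variable (F) in
/-- `β` -/
private def linalpha_b {B : SkewH E V} (τ : AntiU B) (e : E) (i : ℕ) (ε : ℝ) (hε : 0 < ε) :
    SF (SA B × V) ℂ →ₗ[ℂ] SF (SA B × V) ℂ :=
  linalpha_op (linalpha_K τ e i ε) (linalpha_K_clopen F τ e i ε)
    (fun X => linalpha_inv (linalpha_C e i X.1)) (fun X => linalpha_C e i X.1)
    (fun X hX v => by
      have h1 := linalpha_inv_cont (linalpha_K_det τ e i ε hε hX) v
      have h2 : ContinuousAt (fun q : SA B × V => (linalpha_C e i q.1.1, q.2)) (X, v) :=
        ((((linalpha_C_cont e i).comp continuous_subtype_val).comp continuous_fst).prodMk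
          continuous_snd).continuousAt
      exact ContinuousAt.comp (f := fun q : SA B × V => (linalpha_C e i q.1.1, q.2))
        (g := fun q : Module.End E V × V => linalpha_inv q.1 q.2) h1 h2)
    (fun X _ v => (continuous_end_eval.comp ((((linalpha_C_cont e i).comp
      continuous_subtype_val).comp continuous_fst).prodMk continuous_snd)).continuousAt)
    (fun X hX v => linalpha_mul_inv (linalpha_K_det τ e i ε hε hX) v)

private theorem linalpha_a_mem {B : SkewH E V} (τ : AntiU B) (e : E) (i : ℕ) (ε : ℝ)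
    (hε : 0 < ε) (f : SF (SA B × V) ℂ) (X : SA B) (v : V) (hX : X ∈ linalpha_K τ e i ε) :
    linalpha_a F τ e i ε hε f (X, v) = f (X, linalpha_C e i X.1 v) := by
  classical
  exact if_pos hX

private theorem linalpha_a_not {B : SkewH E V} (τ : AntiU B) (e : E) (i : ℕ) (ε : ℝ)
    (hε : 0 < ε) (f : SF (SA B × V) ℂ) (X : SA B) (v : V) (hX : X ∉ linalpha_K τ e i ε) :
    linalpha_a F τ e i ε hε f (X, v) = 0 := by
  classical
  exact if_neg hX

private theorem linalpha_b_mem {B : SkewH E V} (τ : AntiU B) (e : E) (i : ℕ) (ε : ℝ)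
    (hε : 0 < ε) (f : SF (SA B × V) ℂ) (X : SA B) (v : V) (hX : X ∈ linalpha_K τ e i ε) :
    linalpha_b F τ e i ε hε f (X, v) = f (X, linalpha_inv (linalpha_C e i X.1) v) := by
  classical
  exact if_pos hX

private theorem linalpha_b_not {B : SkewH E V} (τ : AntiU B) (e : E) (i : ℕ) (ε : ℝ)
    (hε : 0 < ε) (f : SF (SA B × V) ℂ) (X : SA B) (v : V) (hX : X ∉ linalpha_K τ e i ε) :
    linalpha_b F τ e i ε hε f (X, v) = 0 := by
  classical
  exact if_neg hX

private theorem linalpha_a_inv {B : SkewH E V} (τ : AntiU B) (e : E) (i : ℕ) (ε : ℝ)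
    (hε : 0 < ε) (h : UU B) (f : SF (SA B × V) ℂ) :
    linalpha_a F τ e i ε hε (linAct B h f) = linAct B h (linalpha_a F τ e i ε hε f) := by
  apply SF.ext
  rintro ⟨X, v⟩
  show _ = linalpha_a F τ e i ε hε f (saConj B h X, h.1.1 v)
  by_cases hX : X ∈ linalpha_K τ e i ε
  · rw [linalpha_a_mem _ _ _ _ _ _ _ _ hX,
      linalpha_a_mem _ _ _ _ _ _ _ _ ((linalpha_K_conj τ e i ε h X).2 hX)]
    have h2 : h.1.1 (linalpha_C e i X.1 v) = linalpha_C e i (saConj B h X).1 (h.1.1 v) := by
      show _ = linalpha_C e i (h.1.1 * X.1 * h.1⁻¹.1) (h.1.1 v)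
      rw [linalpha_C_conj e i X.1 h.1.1 h.1⁻¹.1 h.1.mul_inv h.1.inv_mul]
      show _ = h.1.1 (linalpha_C e i X.1 (h.1⁻¹.1 (h.1.1 v)))
      rw [show h.1⁻¹.1 (h.1.1 v) = v from
        congrArg (fun f : Module.End E V => f v) h.1.inv_mul]
    exact congrArg (fun z => f (saConj B h X, z)) h2
  · rw [linalpha_a_not _ _ _ _ _ _ _ _ hX, linalpha_a_not _ _ _ _ _ _ _ _
      (fun h1 => hX ((linalpha_K_conj τ e i ε h X).1 h1))]

private theorem linalpha_a_tau {B : SkewH E V} (τ : AntiU B) (e : E) (i : ℕ) (ε : ℝ)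
    (hε : 0 < ε) (f : SF (SA B × V) ℂ) :
    linalpha_a F τ (star e) i ε hε (linTau F τ f) = linTau F τ (linalpha_a F τ e i ε hε f) := by
  apply SF.ext
  rintro ⟨X, v⟩
  show _ = linalpha_a F τ e i ε hε f (saTau F τ X, τ.t v)
  by_cases hX : X ∈ linalpha_K τ e i ε
  · have hX' : X ∈ linalpha_K τ (star e) i ε := by rwa [linalpha_K_star]
    rw [linalpha_a_mem _ _ _ _ _ _ _ _ hX',
      linalpha_a_mem _ _ _ _ _ _ _ _ ((linalpha_K_tau F τ e i ε X).2 hX)]
    have h2 := linalpha_C_tau τ (star e) i X.1 v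
    rw [star_star] at h2
    exact congrArg (fun z => f (saTau F τ X, z)) h2.symm
  · have hX' : X ∉ linalpha_K τ (star e) i ε := by rwa [linalpha_K_star]
    rw [linalpha_a_not _ _ _ _ _ _ _ _ hX', linalpha_a_not _ _ _ _ _ _ _ _
      (fun h1 => hX ((linalpha_K_tau F τ e i ε X).1 h1))]

variable (F) in
include F in
private theorem linalpha_ip2 (B : SkewH E V) : Continuous (fun q : V × V => B.ip q.1 q.2) := by
  have h : (fun q : V × V => B.ip q.1 q.2) = fun q => ∑ i, (Module.finBasis E V).coord i q.1 *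
      B.ip (Module.finBasis E V i) q.2 := by
    funext q
    have h1 : B.lin q.2 q.1 = ∑ i, (Module.finBasis E V).repr q.1 i *
      B.lin q.2 (Module.finBasis E V i) := by
      conv_lhs => arg 2; rw [← (Module.finBasis E V).sum_repr q.1]
      rw [map_sum]
      refine Finset.sum_congr rfl fun i _ => ?_
      rw [map_smul, smul_eq_mul]
    exact h1
  rw [h]
  refine continuous_finsetSum _ fun i _ => ?_
  exact (((Module.finBasis E V).coord i).continuous_of_finiteDimensional.comp
    continuous_fst).mul ((continuous_ip_right F B (Module.finBasis E V i)).comp continuous_snd)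

private theorem linalpha_sa {B : SkewH E V} (X : SA B) (n : ℕ) (v w : V) :
    B.ip ((X.1 ^ n) v) w = B.ip v ((X.1 ^ n) w) := by
  induction n generalizing v w with
  | zero => rfl
  | succ n ih =>
    have h1 : (X.1 ^ (n + 1)) v = (X.1 ^ n) (X.1 v) := by rw [pow_succ]; rfl
    have h2 : (X.1 ^ (n + 1)) w = X.1 ((X.1 ^ n) w) := by rw [pow_succ']; rfl
    rw [h1, h2, ih, X.2]

private theorem linalpha_quad {B : SkewH E V} (X : SA B) (e : E) (i : ℕ) (v : V) :
    B.ip (linalpha_C e i X.1 v) (linalpha_C e i X.1 v) =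
      B.ip v v + ((e + star e) * B.ip ((X.1 ^ i) v) v + e * star e *
        B.ip ((X.1 ^ i) v) ((X.1 ^ i) v)) := by
  rw [linalpha_C_apply, B.add_left, B.add_right, B.add_right, B.smul_left, B.smul_left,
    B.smul_right, B.smul_right, ← linalpha_sa X i v v]
  ring

/-- the adjoint of `c(X)` -/
private theorem linalpha_C_adj {B : SkewH E V} (X : SA B) (e : E) (i : ℕ) (v w : V) :
    B.ip (linalpha_C e i X.1 v) w = B.ip v (linalpha_C (star e) i X.1 w) := by
  rw [linalpha_C_apply, linalpha_C_apply, B.add_left, B.add_right, B.smul_left, B.smul_right,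
    star_star, linalpha_sa]

/-- `c(X)⁻¹ cbar(X)` is unitary -/
private theorem linalpha_unit {B : SkewH E V} (X : SA B) (e : E) (i : ℕ)
    (h : LinearMap.det (linalpha_C e i X.1) ≠ 0) (v : V) :
    B.ip (linalpha_inv (linalpha_C e i X.1) (linalpha_C (star e) i X.1 v))
      (linalpha_inv (linalpha_C e i X.1) (linalpha_C (star e) i X.1 v)) = B.ip v v := by
  have h1 : v = linalpha_C e i X.1 (linalpha_inv (linalpha_C e i X.1) v) :=
    (linalpha_mul_inv h v).symm
  set z := linalpha_inv (linalpha_C e i X.1) v with hz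
  rw [h1, linalpha_C_comm, linalpha_inv_mul h, linalpha_C_adj X (star e), star_star,
    linalpha_C_adj X e, linalpha_C_comm]

/-- first part: functions invariant under `(X, v) ↦ (X, c(X)⁻¹ cbar(X) v)` -/
private theorem linalpha_first {B : SkewH E V} (τ : AntiU B)
    (h31 : ∀ T : SF (SA B × V) ℂ →ₗ[ℂ] ℂ, LinInv B T → LinAnti F τ T →
      SF.VanishOn T {x | ipv B x ≠ 0})
    (T : SF (SA B × V) ℂ →ₗ[ℂ] ℂ) (hT : LinInv B T) (hT' : LinAnti F τ T)
    (e : E) (i : ℕ) (ε : ℝ) (hε : 0 < ε) (g : SF (SA B × V) ℂ)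
    (h1 : ∀ (X : SA B) (v : V), X ∉ linalpha_K τ e i ε → g (X, v) = 0)
    (h2 : ∀ (X : SA B) (v : V),
      B.ip (linalpha_C e i X.1 v) (linalpha_C e i X.1 v) = 0 → g (X, v) = 0)
    (h3 : ∀ (X : SA B) (v : V), X ∈ linalpha_K τ e i ε →
      g (X, linalpha_inv (linalpha_C e i X.1) (linalpha_C (star e) i X.1 v)) = g (X, v)) :
    T g = 0 := by
  have h4 := h31 (T ∘ₗ linalpha_a F τ e i ε hε + T ∘ₗ linalpha_a F τ (star e) i ε hε)
    (fun h f => by
      show T (linalpha_a F τ e i ε hε (linAct B h f)) +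
        T (linalpha_a F τ (star e) i ε hε (linAct B h f)) =
        T (linalpha_a F τ e i ε hε f) + T (linalpha_a F τ (star e) i ε hε f)
      rw [linalpha_a_inv, linalpha_a_inv, hT, hT])
    (fun f => by
      show T (linalpha_a F τ e i ε hε (linTau F τ f)) +
        T (linalpha_a F τ (star e) i ε hε (linTau F τ f)) =
        -(T (linalpha_a F τ e i ε hε f) + T (linalpha_a F τ (star e) i ε hε f))
      have h5 := linalpha_a_tau (F := F) τ (star e) i ε hε f
      rw [star_star] at h5
      rw [h5, linalpha_a_tau, hT', hT']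
      ring) (linalpha_b F τ e i ε hε g) (by
      rintro ⟨X, w⟩ hw
      have hw' : B.ip w w = 0 := by
        by_contra hne
        exact hw hne
      by_cases hX : X ∈ linalpha_K τ e i ε
      · rw [linalpha_b_mem _ _ _ _ _ _ _ _ hX]
        apply h2
        rw [linalpha_mul_inv (linalpha_K_det τ e i ε hε hX), hw']
      · exact linalpha_b_not (F := F) _ _ _ _ _ _ _ _ hX)
  have e1 : linalpha_a F τ e i ε hε (linalpha_b F τ e i ε hε g) = g := by
    apply SF.ext
    rintro ⟨X, v⟩
    by_cases hX : X ∈ linalpha_K τ e i ε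
    · rw [linalpha_a_mem _ _ _ _ _ _ _ _ hX, linalpha_b_mem _ _ _ _ _ _ _ _ hX,
        linalpha_inv_mul (linalpha_K_det τ e i ε hε hX)]
    · rw [linalpha_a_not _ _ _ _ _ _ _ _ hX, h1 X v hX]
  have e2 : linalpha_a F τ (star e) i ε hε (linalpha_b F τ e i ε hε g) = g := by
    apply SF.ext
    rintro ⟨X, v⟩
    by_cases hX : X ∈ linalpha_K τ e i ε
    · have hX' : X ∈ linalpha_K τ (star e) i ε := by rwa [linalpha_K_star]
      rw [linalpha_a_mem _ _ _ _ _ _ _ _ hX', linalpha_b_mem _ _ _ _ _ _ _ _ hX, h3 X v hX]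
    · have hX' : X ∉ linalpha_K τ (star e) i ε := by rwa [linalpha_K_star]
      rw [linalpha_a_not _ _ _ _ _ _ _ _ hX', h1 X v hX]
  have h6 : T (linalpha_a F τ e i ε hε (linalpha_b F τ e i ε hε g)) +
    T (linalpha_a F τ (star e) i ε hε (linalpha_b F τ e i ε hε g)) = 0 := h4
  rw [e1, e2] at h6
  have h7 : (2 : ℂ) * T g = 0 := by rw [two_mul]; exact h6
  exact (mul_eq_zero.1 h7).resolve_left two_ne_zero

/-- invariance for small `t`, on the support -/
private theorem linalpha_small {B : SkewH E V} (d d' : E) (i : ℕ) (g : SF (SA B × V) ℂ) :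
    ∀ᶠ t : F in nhds 0, ∀ q ∈ tsupport g.1,
      g (q.1, linalpha_inv (linalpha_C (algebraMap F E t * d) i q.1.1)
        (linalpha_C (algebraMap F E t * d') i q.1.1 q.2)) = g q := by
  refine g.2.2.isCompact.eventually_forall_of_forall_eventually
    (P := fun (t : F) (q : SA B × V) =>
      g (q.1, linalpha_inv (linalpha_C (algebraMap F E t * d) i q.1.1)
        (linalpha_C (algebraMap F E t * d') i q.1.1 q.2)) = g q) ?_
  rintro ⟨X, v⟩ -
  have hlc := (IsLocallyConstant.iff_eventually_eq _).mp g.2.1 (X, v)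
  have hC : ∀ d : E, Continuous fun z : F × (SA B × V) =>
      linalpha_C (algebraMap F E z.1 * d) i z.2.1.1 := fun d =>
    (linalpha_C_joint i).comp ((((continuous_algebraMap F E).comp continuous_fst).mul
      continuous_const).prodMk (continuous_subtype_val.comp (continuous_fst.comp
        continuous_snd)))
  have hC0 : ∀ d : E, linalpha_C (algebraMap F E 0 * d) i X.1 = 1 := fun d => by
    rw [map_zero, zero_mul, linalpha_C_zero]
  have h1 : ContinuousAt (fun z : F × (SA B × V) =>
      (linalpha_C (algebraMap F E z.1 * d) i z.2.1.1,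
        linalpha_C (algebraMap F E z.1 * d') i z.2.1.1 z.2.2)) (0, (X, v)) :=
    ((hC d).prodMk (continuous_end_eval.comp ((hC d').prodMk
      (continuous_snd.comp continuous_snd)))).continuousAt
  have hdet : LinearMap.det (linalpha_C (algebraMap F E 0 * d) i X.1) ≠ 0 := by
    rw [hC0, map_one]
    exact one_ne_zero
  have h2 := linalpha_inv_cont hdet (linalpha_C (algebraMap F E 0 * d') i X.1 v)
  have h3 : ContinuousAt (fun z : F × (SA B × V) =>
      linalpha_inv (linalpha_C (algebraMap F E z.1 * d) i z.2.1.1)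
        (linalpha_C (algebraMap F E z.1 * d') i z.2.1.1 z.2.2)) (0, (X, v)) :=
    ContinuousAt.comp (f := fun z : F × (SA B × V) =>
      (linalpha_C (algebraMap F E z.1 * d) i z.2.1.1,
        linalpha_C (algebraMap F E z.1 * d') i z.2.1.1 z.2.2))
      (g := fun q : Module.End E V × V => linalpha_inv q.1 q.2) h2 h1
  have h4 : ContinuousAt (fun z : F × (SA B × V) => (z.2.1,
      linalpha_inv (linalpha_C (algebraMap F E z.1 * d) i z.2.1.1)
        (linalpha_C (algebraMap F E z.1 * d') i z.2.1.1 z.2.2))) (0, (X, v)) :=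
    (continuous_fst.comp continuous_snd).continuousAt.prodMk h3
  have hval : linalpha_inv (linalpha_C (algebraMap F E 0 * d) i X.1)
      (linalpha_C (algebraMap F E 0 * d') i X.1 v) = v := by
    rw [hC0, hC0]
    have := linalpha_inv_mul (A := (1 : Module.End E V)) (by rw [map_one]; exact one_ne_zero) v
    exact this
  have h5 : ∀ᶠ z : F × (SA B × V) in nhds (0, (X, v)), g (z.2.1,
      linalpha_inv (linalpha_C (algebraMap F E z.1 * d) i z.2.1.1)
        (linalpha_C (algebraMap F E z.1 * d') i z.2.1.1 z.2.2)) = g (X, v) := by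
    refine h4.eventually (p := fun y => g y = g (X, v)) ?_
    show ∀ᶠ y in nhds (X, linalpha_inv (linalpha_C (algebraMap F E 0 * d) i X.1)
      (linalpha_C (algebraMap F E 0 * d') i X.1 v)), g y = g (X, v)
    rw [hval]
    exact hlc
  have h6 : ∀ᶠ z : F × (SA B × V) in nhds (0, (X, v)), g z.2 = g (X, v) :=
    (continuous_snd.continuousAt (x := ((0 : F), (X, v)))).eventually hlc
  filter_upwards [h5, h6] with z hz1 hz2
  exact hz1.trans hz2.symm

/-- the determinants for small `t` -/
private theorem linalpha_dets {B : SkewH E V} (d : E) (i : ℕ) (P : Set (SA B))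
    (hP : IsCompact P) (φ : Module.End E V → Module.End E V) (hφ : Continuous φ) :
    ∀ᶠ t : F in nhds 0, ∀ X ∈ P,
      (1 / 2 : ℝ) ≤ ‖LinearMap.det (linalpha_C (algebraMap F E t * d) i (φ X.1))‖ := by
  refine hP.eventually_forall_of_forall_eventually
    (P := fun (t : F) (X : SA B) =>
      (1 / 2 : ℝ) ≤ ‖LinearMap.det (linalpha_C (algebraMap F E t * d) i (φ X.1))‖) ?_
  rintro X -
  have hC : Continuous fun z : F × SA B =>
      ‖LinearMap.det (linalpha_C (algebraMap F E z.1 * d) i (φ z.2.1))‖ :=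
    (linalpha_det.comp ((linalpha_C_joint i).comp ((((continuous_algebraMap F E).comp
      continuous_fst).mul continuous_const).prodMk (hφ.comp (continuous_subtype_val.comp
        continuous_snd))))).norm
  have h0 : (1 / 2 : ℝ) <
      ‖LinearMap.det (linalpha_C (algebraMap F E 0 * d) i (φ X.1))‖ := by
    rw [map_zero, zero_mul, linalpha_C_zero, map_one, norm_one]
    norm_num
  have h1 := hC.continuousAt.eventually (lt_mem_nhds (a := (1 / 2 : ℝ)) (b :=
    ‖LinearMap.det (linalpha_C (algebraMap F E ((0 : F), X).1 * d) i (φ ((0 : F), X).2.1))‖) h0)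
  filter_upwards [h1] with z hz
  exact le_of_lt hz

theorem lin32 {B : SkewH E V} (τ : AntiU B)
    (h31 : ∀ T : SF (SA B × V) ℂ →ₗ[ℂ] ℂ, LinInv B T → LinAnti F τ T →
      SF.VanishOn T {x | ipv B x ≠ 0})
    (T : SF (SA B × V) ℂ →ₗ[ℂ] ℂ) (hT : LinInv B T) (hT' : LinAnti F τ T) :
    SF.SuppOn T (Qset B) := by
  haveI := lc_V E V
  haveI := td_V F E V
  haveI := lc_SA F B
  haveI := td_SA F B
  haveI : IsUltrametricDist E := ult_E F
  obtain ⟨d, hd⟩ := exists_dd F E
  intro g hg
  refine vanish_local T g ?_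
  rintro ⟨X0, v0⟩ hne
  have h1 : ∃ i : ℕ, B.ip ((X0.1 ^ i) v0) v0 ≠ 0 := by
    by_contra hcon
    push Not at hcon
    exact hne (hg (X0, v0) hcon)
  obtain ⟨i, hi⟩ := h1
  -- the two functions
  have cX : Continuous fun q : SA B × V => (q.1.1 ^ i) q.2 :=
    continuous_end_eval.comp ((((continuous_pow i).comp continuous_subtype_val).comp
      continuous_fst).prodMk continuous_snd)
  have c1 : Continuous fun q : SA B × V => B.ip ((q.1.1 ^ i) q.2) q.2 :=
    (linalpha_ip2 F B).comp (cX.prodMk continuous_snd)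
  have c2 : Continuous fun q : SA B × V => B.ip ((q.1.1 ^ i) q.2) ((q.1.1 ^ i) q.2) :=
    (linalpha_ip2 F B).comp (cX.prodMk cX)
  have c3 : Continuous fun q : SA B × V => ipv B q :=
    (linalpha_ip2 F B).comp (continuous_snd.prodMk continuous_snd)
  set ρ : ℝ := ‖B.ip ((X0.1 ^ i) v0) v0‖ with hρ
  have hρ0 : 0 < ρ := norm_pos_iff.2 hi
  set M : ℝ := ‖B.ip ((X0.1 ^ i) v0) ((X0.1 ^ i) v0)‖ + 1 with hM
  have hM0 : 0 < M := by positivity
  refine ⟨{q | ‖B.ip ((q.1.1 ^ i) q.2) q.2 - B.ip ((X0.1 ^ i) v0) v0‖ < ρ ∧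
    ‖B.ip ((q.1.1 ^ i) q.2) ((q.1.1 ^ i) q.2)‖ < M}, ?_, ?_, ?_⟩
  · exact (isOpen_lt (c1.sub continuous_const).norm continuous_const).inter
      (isOpen_lt c2.norm continuous_const)
  · refine ⟨?_, ?_⟩
    · show ‖B.ip ((X0.1 ^ i) v0) v0 - B.ip ((X0.1 ^ i) v0) v0‖ < ρ
      rw [sub_self, norm_zero]
      exact hρ0
    · show ‖B.ip ((X0.1 ^ i) v0) ((X0.1 ^ i) v0)‖ < M
      rw [hM]
      linarith
  intro g' hg'
  -- the choice of `t`
  have hPc : IsCompact (Prod.fst '' tsupport g'.1) := g'.2.2.isCompact.image continuous_fst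
  have s1 := linalpha_small (F := F) d (star d) i g'
  have s2 := linalpha_small (F := F) (star d) d i g'
  have s3 := linalpha_dets (F := F) d i _ hPc id continuous_id
  have s4 := linalpha_dets (F := F) (star d) i _ hPc id continuous_id
  have s5 := linalpha_dets (F := F) d i _ hPc (conjτ τ) (continuous_conjτ F τ)
  have s6 := linalpha_dets (F := F) (star d) i _ hPc (conjτ τ) (continuous_conjτ F τ)
  have s7 : ∀ᶠ t : F in nhds 0, ‖t‖ * ‖d * star d‖ * M < ρ := by
    have hc : Continuous fun t : F => ‖t‖ * ‖d * star d‖ * M :=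
      (continuous_norm.mul continuous_const).mul continuous_const
    have h0 : ‖(0 : F)‖ * ‖d * star d‖ * M < ρ := by
      rw [norm_zero, zero_mul, zero_mul]
      exact hρ0
    exact hc.continuousAt.eventually (gt_mem_nhds h0)
  have s8 : ∀ᶠ t : F in nhdsWithin (0 : F) {0}ᶜ, t ≠ 0 := eventually_mem_nhdsWithin
  obtain ⟨t, ⟨⟨⟨⟨⟨⟨t1, t2⟩, t3⟩, t4⟩, t5⟩, t6⟩, t7⟩, t8⟩ :=
    ((((((((s1.and s2).and s3).and s4).and s5).and s6).and s7).filter_mono
      nhdsWithin_le_nhds).and s8).exists
  set e : E := algebraMap F E t * d with he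
  have hse : star e = algebraMap F E t * star d := by rw [he, star_mul', QExt.star_alg]
  have hte : ‖algebraMap F E t‖ = ‖t‖ := norm_algebraMap' E t
  have ht0 : 0 < ‖t‖ := norm_pos_iff.2 t8
  have hhalf : (0 : ℝ) < 1 / 2 := by norm_num
  -- the set K contains the projection of the support
  have hK : ∀ X ∈ Prod.fst '' tsupport g'.1, X ∈ linalpha_K τ e i (1 / 2) := by
    intro X hX
    refine ⟨⟨t3 X hX, ?_⟩, ⟨t5 X hX, ?_⟩⟩
    · rw [hse]; exact t4 X hX
    · rw [hse]; exact t6 X hX
  have hK' : ∀ (X : SA B) (v : V), X ∉ linalpha_K τ e i (1 / 2) → g' (X, v) = 0 := by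
    intro X v hX
    by_contra hne'
    exact hX (hK X ⟨(X, v), subset_tsupport _ hne', rfl⟩)
  -- the norm of the form
  have hnorm : ∀ (X : SA B) (v : V), g' (X, v) ≠ 0 →
      ‖(e + star e) * B.ip ((X.1 ^ i) v) v + e * star e *
        B.ip ((X.1 ^ i) v) ((X.1 ^ i) v)‖ = ‖t‖ * ρ := by
    intro X v hne'
    have hW : ‖B.ip ((X.1 ^ i) v) v - B.ip ((X0.1 ^ i) v0) v0‖ < ρ ∧
        ‖B.ip ((X.1 ^ i) v) ((X.1 ^ i) v)‖ < M := by
      by_contra hcon
      exact hne' (hg' (X, v) hcon)
    have n1 : ‖B.ip ((X.1 ^ i) v) v‖ = ρ := by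
      have h2 : ‖(B.ip ((X.1 ^ i) v) v - B.ip ((X0.1 ^ i) v0) v0) +
          B.ip ((X0.1 ^ i) v0) v0‖ = max ‖B.ip ((X.1 ^ i) v) v - B.ip ((X0.1 ^ i) v0) v0‖
            ‖B.ip ((X0.1 ^ i) v0) v0‖ :=
        IsUltrametricDist.norm_add_eq_max_of_norm_ne_norm (ne_of_lt hW.1)
      rw [sub_add_cancel, ← hρ, max_eq_right hW.1.le] at h2
      exact h2
    have e1 : e + star e = algebraMap F E t := by
      rw [hse, he, ← mul_add, hd, mul_one]
    have e2 : e * star e = algebraMap F E t * (algebraMap F E t * (d * star d)) := by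
      rw [hse, he]; ring
    rw [e1, e2, mul_assoc, ← mul_add, norm_mul, hte]
    congr 1
    have n2 : ‖algebraMap F E t * (d * star d) * B.ip ((X.1 ^ i) v) ((X.1 ^ i) v)‖ < ρ := by
      rw [norm_mul, norm_mul, hte]
      refine lt_of_le_of_lt ?_ t7
      exact mul_le_mul_of_nonneg_left hW.2.le (by positivity)
    have h3 : ‖B.ip ((X.1 ^ i) v) v + algebraMap F E t * (d * star d) *
        B.ip ((X.1 ^ i) v) ((X.1 ^ i) v)‖ = max ‖B.ip ((X.1 ^ i) v) v‖
        ‖algebraMap F E t * (d * star d) * B.ip ((X.1 ^ i) v) ((X.1 ^ i) v)‖ :=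
      IsUltrametricDist.norm_add_eq_max_of_norm_ne_norm (by rw [n1]; exact (ne_of_lt n2).symm)
    rw [h3, n1, max_eq_left n2.le]
  -- splitting
  have hcl : IsClopen {x : SA B × V | ‖ipv B x‖ < ‖t‖ * ρ} := by
    have h2 : IsClopen {x : E | ‖x‖ < ‖t‖ * ρ} := by
      have h3 : {x : E | ‖x‖ < ‖t‖ * ρ} = Metric.ball 0 (‖t‖ * ρ) := by
        ext x
        rw [Metric.mem_ball, dist_zero_right]
        rfl
      rw [h3]
      exact IsUltrametricDist.isClopen_ball _ _
    exact h2.preimage c3
  classical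
  have hlc : IsLocallyConstant fun x : SA B × V =>
      if ‖ipv B x‖ < ‖t‖ * ρ then (1 : ℂ) else 0 := by
    have h2 := (LocallyConstant.charFn ℂ hcl).isLocallyConstant
    have h3 : (fun x : SA B × V => if ‖ipv B x‖ < ‖t‖ * ρ then (1 : ℂ) else 0) =
        LocallyConstant.charFn ℂ hcl := by
      funext x
      rw [LocallyConstant.coe_charFn, Set.indicator_apply]
      rfl
    rw [h3]
    exact h2
  set g1 : SF (SA B × V) ℂ := SF.mulc _ hlc g' with hg1
  have g1v : ∀ x : SA B × V, g1 x = (if ‖ipv B x‖ < ‖t‖ * ρ then (1 : ℂ) else 0) * g' x :=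
    fun x => rfl
  have hA : T g1 = 0 := by
    refine linalpha_first (F := F) τ h31 T hT hT' e i (1 / 2) hhalf g1 ?_ ?_ ?_
    · intro X v hX
      rw [g1v, hK' X v hX, mul_zero]
    · intro X v h0
      by_contra hne'
      rw [g1v] at hne'
      have hne1 : g' (X, v) ≠ 0 := right_ne_zero_of_mul hne'
      have hlt : ‖ipv B (X, v)‖ < ‖t‖ * ρ := by
        by_contra hcon
        rw [if_neg hcon, zero_mul] at hne'
        exact hne' rfl
      rw [linalpha_quad] at h0
      have h3 : ‖(e + star e) * B.ip ((X.1 ^ i) v) v + e * star e *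
          B.ip ((X.1 ^ i) v) ((X.1 ^ i) v)‖ = ‖ipv B (X, v)‖ := by
        have h4 : (e + star e) * B.ip ((X.1 ^ i) v) v + e * star e *
          B.ip ((X.1 ^ i) v) ((X.1 ^ i) v) = -ipv B (X, v) := by
          unfold ipv
          linear_combination h0
        rw [h4, norm_neg]
      rw [hnorm X v hne1] at h3
      exact absurd hlt (by rw [h3]; exact lt_irrefl _)
    · intro X v hX
      have hdet := linalpha_K_det τ e i (1 / 2) hhalf hX
      have hdet' : LinearMap.det (linalpha_C (star e) i X.1) ≠ 0 := by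
        have hX' : X ∈ linalpha_K τ (star e) i (1 / 2) := by rwa [linalpha_K_star]
        exact linalpha_K_det τ (star e) i (1 / 2) hhalf hX'
      set w := linalpha_inv (linalpha_C e i X.1) (linalpha_C (star e) i X.1 v) with hw
      have hip : ipv B (X, w) = ipv B (X, v) := linalpha_unit X e i hdet v
      rw [g1v, g1v, hip]
      congr 1
      by_cases hS : (X, v) ∈ tsupport g'.1
      · have h5 := t1 (X, v) hS
        rw [← hse] at h5
        exact h5
      · by_cases hS' : (X, w) ∈ tsupport g'.1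
        · have h5 := t2 (X, w) hS'
          rw [← hse] at h5
          have h6 : linalpha_inv (linalpha_C (star e) i X.1) (linalpha_C e i X.1 w) = v := by
            rw [hw, linalpha_mul_inv hdet, linalpha_inv_mul hdet']
          have h7 : g' (X, linalpha_inv (linalpha_C (star e) i X.1) (linalpha_C e i X.1 w)) =
            g' (X, w) := h5
          rw [h6] at h7
          exact h7.symm
        · have h5 : g'.1 (X, v) = 0 := image_eq_zero_of_notMem_tsupport hS
          have h6 : g'.1 (X, w) = 0 := image_eq_zero_of_notMem_tsupport hS'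
          exact h6.trans h5.symm
  have hB : T (g' - g1) = 0 := by
    refine h31 T hT hT' _ ?_
    intro x hx
    have hx' : ipv B x = 0 := by
      by_contra hcon
      exact hx hcon
    show g' x - g1 x = 0
    have hlt : ‖ipv B x‖ < ‖t‖ * ρ := by
      rw [hx', norm_zero]
      positivity
    rw [g1v, if_pos hlt, one_mul, sub_self]
  rw [map_sub, hA, sub_zero] at hB
  exact hB

end

end Pool.Agent.Work.MP_dd0ddf_al.C2
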