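import Pool.Agent.Work.MP_dd0ddf_al.C2.Lin31
import Pool.Agent.Work.MP_dd0ddf_al.C2.LinAlpha
import Pool.Agent.Work.MP_dd0ddf_al.C2.LinZ4
import Pool.Agent.Work.MP_dd0ddf_al.C2.LinChar
import Pool.Agent.Work.MP_dd0ddf_al.C2.CycCount
import Pool.Agent.Work.MP_dd0ddf_al.C2.FxComb

/-!
# MP_dd0ddf_al, module LinAll: the linear theorem: assembly

Induction on `finrank E V` (for all V): `LinGood F B`.  By `lin_char` it is enough to treat `T ∈ D_P`.  `lin_D_zero` with `hQ` from `lin32` (whose hypothesis h31 is `lin31` with the induction hypothesis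
for the nondegenerate subspaces), `hcount` from `countable_orbits`, `hfix` from `lin_fix`; `p` from `exists_pchar`.
-/

set_option linter.unusedSectionVars false
set_option linter.style.haveILetI false

namespace Pool.Agent.Work.MP_dd0ddf_al.C2

noncomputable section

universe u

private theorem linall_step {F E : Type u} [NontriviallyNormedField F] [IsUltrametricDist F]
    [ProperSpace F] [CharP F 2] [NontriviallyNormedField E] [NormedAlgebra F E] [ProperSpace E]
    [StarRing E] [QExt F E] {V : Type u} [AddCommGroup V] [Module E V] [Module.Finite E V]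
    [TopologicalSpace V] [IsTopologicalAddGroup V] [T2Space V] [ContinuousSMul E V]
    (B : SkewH E V) (hstep : ∀ (U : Submodule E V) (hU : NDeg B U),
      Module.finrank E U < Module.finrank E V → LinGood F (B.restrict U hU)) : LinGood F B := by
  obtain ⟨p⟩ := exists_pchar F
  refine lin_char fun τ P T hT => ?_
  refine lin_D_zero p τ P (fun T' hT' => ?_) (countable_orbits F B P)
    (fun X S hS => lin_fix p X S hS) T hT
  exact lin32 τ (fun T'' h1 h2 => lin31 hstep τ T'' h1 h2) T' hT'.inv hT'.anti

theorem lin_all (F : Type u) [NontriviallyNormedField F] [IsUltrametricDist F] [ProperSpace F]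
    [CharP F 2] (E : Type u) [NontriviallyNormedField E] [NormedAlgebra F E] [ProperSpace E]
    [StarRing E] [QExt F E] (n : ℕ) : ∀ (V : Type u) [AddCommGroup V] [Module E V]
    [Module.Finite E V] [TopologicalSpace V] [IsTopologicalAddGroup V] [T2Space V]
    [ContinuousSMul E V] (B : SkewH E V), Module.finrank E V ≤ n → LinGood F B := by
  induction n with
  | zero =>
    intro V _ _ _ _ _ _ _ B hn
    exact linall_step B fun U hU hlt => absurd hlt (by omega)
  | succ n ih =>
    intro V _ _ _ _ _ _ _ B hn
    exact linall_step B fun U hU hlt => ih U (B.restrict U hU) (by omega)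

end

end Pool.Agent.Work.MP_dd0ddf_al.C2
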