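import Pool.Agent.Work.MP_dd0ddf_al.C2.CritKer
import Pool.Agent.Work.MP_dd0ddf_al.C2.GkJ
import Pool.Agent.Work.MP_dd0ddf_al.C2.LinTau

/-!
# MP_dd0ddf_al, module MultOne: multiplicity one

`hom_unique`: choose τ (exists_tau), j, κ (exists_j), J (exists_J).  `l' = j⁻¹ ∘ l1 ∘ J`, nonzero; `l' (sdAct h ξ) = j⁻¹ l1 (π(θ(h)⁻¹) J ξ) = j⁻¹ ω(tauU τ h) l1 (J ξ) = od h (l' ξ)`: thG_UU: (thG τ h.1)⁻¹ = (tauU τ h).1; om_j: `j (od h lam) = ω(tauU τ h) (j lam)`.
If l2 = 0 take c = 0.  Otherwise crit_star and crit_ker for (l1, l') and (l2, l') with θ = thHomeo F τ (thG_mul, thG_thG): ker critA l1 = ker critC = ker critA l2.  critA l1 is surjective: there is C with critA l2 = C ∘ critA l1, C commutes with sdAct (critA_left), so C = c (schurG for sdAct π, sd_irrAdm).  So `avg f (dlam l2 lam - c • dlam l1 lam) = 0` for all f,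
avg_zero, sd_sep: l2 = c l1.
`mult_one`: borelize E; rank_le_one_iff: if some l1 ≠ 0 use hom_unique.
-/

set_option linter.unusedSectionVars false
set_option linter.style.haveILetI false

namespace Pool.Agent.Work.MP_dd0ddf_al.C2

noncomputable section

universe u

variable {F E : Type u} [NontriviallyNormedField F] [IsUltrametricDist F] [ProperSpace F]
  [CharP F 2] [NontriviallyNormedField E] [NormedAlgebra F E] [ProperSpace E] [StarRing E]
  [QExt F E] [Dl E]
variable {V : Type u} [AddCommGroup V] [Module E V] [Module.Finite E V] [TopologicalSpace V]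
  [IsTopologicalAddGroup V] [T2Space V] [ContinuousSMul E V]
variable {S : Type*} [AddCommGroup S] [Module ℂ S] {P : Type*} [AddCommGroup P] [Module ℂ P]

theorem hom_unique {B : SkewH E V} {p : PChar F} (H : Heis B p S) (O : OmRep H)
    (hn : 3 ≤ Module.finrank E V) (π : GV E V →* Module.End ℂ P) (hπ : IrrAdm π)
    (l1 l2 : P →ₗ[ℂ] S) (h1 : l1 ∈ HomU π O.ω) (h2 : l2 ∈ HomU π O.ω) (hne : l1 ≠ 0) :
    ∃ c : ℂ, l2 = c • l1 := by
  classical
  by_cases h20 : l2 = 0
  · exact ⟨0, by rw [h20, zero_smul]⟩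
  borelize E
  haveI : IsUltrametricDist E := ult_E F
  obtain ⟨τ⟩ := exists_tau B (QExt.nontriv F)
  obtain ⟨j, κ, hκ, hj1, hj⟩ := exists_j H τ
  obtain ⟨J, hJ⟩ := exists_J F τ π hπ
  let l' : sdual π →ₗ[ℂ] H.sd := j.symm.toLinearMap ∘ₗ l1 ∘ₗ J.toLinearMap
  have hl'0 : l' ≠ 0 := by
    intro h
    apply hne
    apply LinearMap.ext
    intro w
    have h3 := congrArg (fun L : sdual π →ₗ[ℂ] H.sd => j (L (J.symm w))) h
    have h4 : j (j.symm (l1 (J (J.symm w)))) = j 0 := h3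
    rw [LinearEquiv.apply_symm_apply, LinearEquiv.apply_symm_apply, map_zero] at h4
    exact h4
  have hl' : ∀ (h : UU B) (ξ : sdual π), l' (sdAct π h.1 ξ) = O.od h (l' ξ) := by
    intro h ξ
    apply j.injective
    show j (j.symm (l1 (J (sdAct π h.1 ξ)))) = j (O.od h (j.symm (l1 (J ξ))))
    rw [LinearEquiv.apply_symm_apply, hJ, thG_UU, inv_inv, h1, om_j H O hn τ j κ hκ hj,
      LinearEquiv.apply_symm_apply]
  have k1 := crit_ker H π hπ (thHomeo F τ) (thG_mul τ) (thG_thG τ) l1 hne l' hl'0 j κ hκ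
    (crit_star H O hn τ j κ hj π hπ.smooth l1 h1 l' hl')
  have k2 := crit_ker H π hπ (thHomeo F τ) (thG_mul τ) (thG_thG τ) l2 h20 l' hl'0 j κ hκ
    (crit_star H O hn τ j κ hj π hπ.smooth l2 h2 l' hl')
  have hker : ∀ x, critA H π hπ.smooth l1 x = 0 → critA H π hπ.smooth l2 x = 0 :=
    fun x hx => (k2 x).2 ((k1 x).1 hx)
  have hsurj := critA_surj H π hπ l1 hne
  obtain ⟨σ, hσ⟩ := LinearMap.exists_rightInverse_of_surjective
    (critA H π hπ.smooth l1) (LinearMap.range_eq_top.2 hsurj)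
  let C : Module.End ℂ (sdual π) := critA H π hπ.smooth l2 ∘ₗ σ
  have hC : ∀ x, C (critA H π hπ.smooth l1 x) = critA H π hπ.smooth l2 x := by
    intro x
    show critA H π hπ.smooth l2 (σ (critA H π hπ.smooth l1 x)) = _
    rw [← sub_eq_zero, ← map_sub]
    apply hker
    rw [map_sub, sub_eq_zero]
    exact LinearMap.congr_fun hσ _
  obtain ⟨c, hc⟩ := schurG (sdAct π) (sd_irrAdm π hπ) C (by
    intro g
    apply LinearMap.ext
    intro ξ
    obtain ⟨x, rfl⟩ := hsurj ξ
    show C (sdAct π g (critA H π hπ.smooth l1 x)) = sdAct π g (C (critA H π hπ.smooth l1 x))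
    rw [← critA_left, hC, hC, critA_left])
  refine ⟨c, ?_⟩
  apply LinearMap.ext
  intro w
  rw [← sub_eq_zero]
  apply sd_sep H
  intro lam
  have h3 : dlam H l2 lam - c • dlam H l1 lam = 0 := by
    apply avg_zero π hπ.smooth
    intro f
    have h4 := hC (f ⊗ₜ[ℂ] lam)
    rw [hc, critA_tmul, critA_tmul] at h4
    have h5 : c • avg π hπ.smooth f (dlam H l1 lam) = avg π hπ.smooth f (dlam H l2 lam) := h4
    rw [map_sub, map_smul, h5, sub_self]
  have h4 := congrArg (fun L : Module.Dual ℂ P => L w) h3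
  have h5 : lam.1 (l2 w) - c • lam.1 (l1 w) = 0 := h4
  show lam.1 (l2 w - c • l1 w) = 0
  rw [map_sub, map_smul, h5]

/-- **multiplicity one**: for a nondegenerate skew-Hermitian space `V` of dimension `≥ 3` over a
quadratic extension of a nonarchimedean local field of characteristic 2, an irreducible admissible
representation `π` of `GL(V)` and the Weil representation `ω` of `U(V)`,
`dim Hom_{U(V)}(π, ω) ≤ 1` -/
theorem mult_one {B : SkewH E V} {p : PChar F} (H : Heis B p S) (O : OmRep H)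
    (hn : 3 ≤ Module.finrank E V) (π : GV E V →* Module.End ℂ P) (hπ : IrrAdm π) :
    Module.rank ℂ (HomU π O.ω) ≤ 1 := by
  by_cases h : ∃ l : HomU π O.ω, l ≠ 0
  · obtain ⟨l, hl⟩ := h
    rw [rank_le_one_iff]
    refine ⟨l, fun l2 => ?_⟩
    obtain ⟨c, hc⟩ := hom_unique H O hn π hπ l.1 l2.1 l.2 l2.2
      (fun h0 => hl (Subtype.ext h0))
    exact ⟨c, Subtype.ext hc.symm⟩
  · push Not at h
    rw [rank_le_one_iff]
    exact ⟨0, fun l2 => ⟨0, by rw [h l2, smul_zero]⟩⟩

end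

end Pool.Agent.Work.MP_dd0ddf_al.C2
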