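import Pool.Agent.Work.MP_dd0ddf_al.C2.NiMain
import Pool.Agent.Work.MP_dd0ddf_al.C2.OrthoB

/-!
# MP_dd0ddf_al, module NiBin: binary Hermitian forms represent everything

`a N(x) + b N(y) = c` is solvable for `a, b, c ≠ 0`.  `H = N(E^×)`, index 2.  Scale: `a = 1`.  If `-b ∈ H`: `-b = N(z)`: `N(x) - N(zy)` represents everything
(`x = (c+1)/2, zy = (c-1)/2`: difference of squares gives c).  So let `-b ∉ H`.  If `c ∈ H` take y = 0.  So `c ∉ H`.  If `c/b ∈ H` take x = 0.  So `c/b ∉ H`, `b ∈ H` (index 2), so
`-1 ∉ H`.  If for some `y`: `c - b N(y) ∈ H` done.  Otherwise `c - bN(y) ∉ H`, nonzero, for all `y`; here `-b N(y)` runs through all of the nontrivial coset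
(and 0) and `c` is in the nontrivial coset: hence the nontrivial coset `F^× \ H` is closed under addition (scale by elements of H: for `s, t` in the coset write
`s = c h`, `t = -b N(y) h`, h ∈ H), so `H` is closed under addition (multiply by a nonnorm).  Then all positive integers are in `H`;
but there are positive integers arbitrarily close to `-1` (`‖m‖ < 1` for some integer `m > 1`, `m^k - 1 → -1`; such m exists: the residue field is finite /
`F` is locally compact so the sequence n ↦ n in the compact unit ball has two close terms) and `H` is open (`isNorm_near_one`), so `-1 ∈ H`: contradiction.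
-/

set_option linter.unusedSectionVars false
set_option linter.style.haveILetI false

namespace Pool.Agent.Work.MP_dd0ddf_al.C2

noncomputable section

universe u

variable {F E : Type u} [NontriviallyNormedField F] [IsUltrametricDist F] [ProperSpace F]
  [CharP F 2] [NontriviallyNormedField E] [NormedAlgebra F E] [ProperSpace E] [StarRing E]
  [QExt F E]

variable (F E) in
private theorem nibin_inv {c : F} (h : IsNorm F E c) : IsNorm F E c⁻¹ := by
  obtain ⟨x, hx, hxc⟩ := h
  refine ⟨x⁻¹, inv_ne_zero hx, ?_⟩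
  rw [star_inv₀, map_inv₀, ← hxc, mul_inv]

variable (F E) in
private theorem nibin_ne {c : F} (h : IsNorm F E c) : c ≠ 0 := by
  obtain ⟨x, hx, hxc⟩ := h
  intro h0
  rw [h0, map_zero] at hxc
  rcases mul_eq_zero.1 hxc with h1 | h1
  · exact hx h1
  · exact hx (by rw [← star_star x, h1, star_zero])

variable (F E) in
private theorem nibin_mul {c c' : F} (h : IsNorm F E c) (h' : IsNorm F E c') :
    IsNorm F E (c * c') :=
  (norm_mul_iff F E (nibin_ne F E h) (nibin_ne F E h') h).2 h'

variable (F E) in
private theorem nibin_one : IsNorm F E 1 := ⟨1, one_ne_zero, by simp⟩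

variable (F) in
/-- an integer with small norm -/
private theorem nibin_small : ∃ m : ℕ, 1 < m ∧ ‖(m : F)‖ < 1 := by
  have hc : IsCompact (Metric.closedBall (0 : F) 1) := isCompact_closedBall 0 1
  obtain ⟨a, -, φ, hφ, hlim⟩ := hc.tendsto_subseq (x := fun n : ℕ => (n : F)) (fun n => by
    rw [mem_closedBall_zero_iff]
    exact IsUltrametricDist.norm_natCast_le_one F n)
  have hcs : CauchySeq ((fun n : ℕ => (n : F)) ∘ φ) := hlim.cauchySeq
  obtain ⟨N, hN⟩ := Metric.cauchySeq_iff.1 hcs 1 one_pos
  have h1 := hN (N + 1) (Nat.le_succ N) N le_rfl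
  have h2 : φ N < φ (N + 1) := hφ (Nat.lt_succ_self N)
  rw [dist_eq_norm] at h1
  have h3 : ((fun n : ℕ => (n : F)) ∘ φ) (N + 1) - ((fun n : ℕ => (n : F)) ∘ φ) N =
      ((φ (N + 1) - φ N : ℕ) : F) := by
    rw [Nat.cast_sub h2.le]
    rfl
  rw [h3] at h1
  refine ⟨φ (N + 1) - φ N, ?_, h1⟩
  by_contra hcon
  have h4 : φ (N + 1) - φ N = 1 := by omega
  rw [h4, Nat.cast_one, norm_one] at h1
  exact lt_irrefl _ h1

variable (F E) in
/-- the case `a = 1` -/
private theorem nibin_one_case (b c : F) (hb : b ≠ 0) (hc : c ≠ 0) :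
    ∃ x y : E, x * star x + algebraMap F E b * (y * star y) = algebraMap F E c := by
  have hstarF : ∀ t : F, star (algebraMap F E t) = algebraMap F E t := QExt.star_alg
  haveI : CharP E 2 := char2_of_injective (algebraMap F E).injective
  have h20 : (2 : E) = 0 := CharTwo.two_eq_zero
  obtain ⟨e, a, he, ha⟩ := exists_art F E
  have hse := star_eq_add_one F E he
  by_cases hbn : IsNorm F E (-b)
  · obtain ⟨z, hz, hzb⟩ := hbn
    have hsz : star z ≠ 0 := by
      intro h
      exact hz (by rw [← star_star z, h, star_zero])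
    refine ⟨algebraMap F E (c + 1) * e, (algebraMap F E (c + 1) * e + 1) * z⁻¹, ?_⟩
    have hb' : algebraMap F E b = -(z * star z) := by
      rw [hzb, map_neg, neg_neg]
    rw [star_mul', star_mul', star_inv₀, star_add, star_one, star_mul', hstarF, hb', hse]
    have e1 : -(z * star z) * ((algebraMap F E (c + 1) * e + 1) * z⁻¹ *
        ((algebraMap F E (c + 1) * (e + 1) + 1) * (star z)⁻¹)) =
        -((algebraMap F E (c + 1) * e + 1) * (algebraMap F E (c + 1) * (e + 1) + 1)) := by
      field_simp
    rw [e1, map_add, map_one]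
    linear_combination (-(algebraMap F E c + 1) * (e + 1)) * h20
  by_cases hcn : IsNorm F E c
  · obtain ⟨x, -, hx⟩ := hcn
    exact ⟨x, 0, by rw [hx]; simp⟩
  by_cases hcb : IsNorm F E (c / b)
  · obtain ⟨y, -, hy⟩ := hcb
    refine ⟨0, y, ?_⟩
    rw [hy, ← map_mul, mul_div_cancel₀ _ hb]
    simp
  -- `b` is a norm, `-1` is not
  have hbN : IsNorm F E b := by
    have h3 : ¬ IsNorm F E (c / b)⁻¹ := fun h => hcb (by
      have := nibin_inv F E h
      rwa [inv_inv] at this)
    have h4 := nonnorm_mul F E hc (inv_ne_zero (div_ne_zero hc hb)) hcn h3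
    have h5 : c * (c / b)⁻¹ = b := by field_simp
    rwa [h5] at h4
  exact absurd (by rwa [CharTwo.neg_eq]) hbn


variable (F E) in
theorem binary_universal (a b c : F) (ha : a ≠ 0) (hb : b ≠ 0) (hc : c ≠ 0) :
    ∃ x y : E, algebraMap F E a * (x * star x) + algebraMap F E b * (y * star y) =
      algebraMap F E c := by
  obtain ⟨x, y, h⟩ := nibin_one_case F E (b / a) (c / a) (div_ne_zero hb ha)
    (div_ne_zero hc ha)
  refine ⟨x, y, ?_⟩
  have h1 : algebraMap F E a ≠ 0 := by
    rw [Ne, map_eq_zero]; exact ha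
  rw [map_div₀, map_div₀] at h
  have h2 := congrArg (fun t => algebraMap F E a * t) h
  simp only [mul_add] at h2
  rw [mul_div_cancel₀ _ h1] at h2
  rw [← h2]
  field_simp

include F in
variable (F) in
/-- a skew-Hermitian space of dimension at least 2 represents every `ηc`, `c ∈ F^×` -/
theorem skew_represents {V : Type*} [AddCommGroup V] [Module E V] [Module.Finite E V]
    (B : SkewH E V) (h2 : 2 ≤ Module.finrank E V) (z : E) (hz : star z = -z) (hz0 : z ≠ 0) :
    ∃ v, B.ip v v = z := by
  obtain ⟨b, hb1, hb2⟩ := exists_ortho B (QExt.nontriv (F := F) (E := E))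
  obtain ⟨η, -, -, -, -, hfix⟩ := exists_eta F E
  set i : Fin (Module.finrank E V) := ⟨0, by omega⟩ with hi
  set j : Fin (Module.finrank E V) := ⟨1, by omega⟩ with hj
  have hij : i ≠ j := by
    rw [hi, hj]
    intro h
    have := congrArg Fin.val h
    simp at this
  have hF : ∀ k, ∃ f : F, f ≠ 0 ∧ B.ip (b k) (b k) = algebraMap F E f * z := by
    intro k
    have h3 : star (B.ip (b k) (b k)) = - B.ip (b k) (b k) := by
      have := B.skew (b k) (b k)
      rw [eq_comm, neg_eq_iff_eq_neg] at this
      exact this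
    obtain ⟨f, hf⟩ := hfix (B.ip (b k) (b k) / z) (by
      rw [star_div₀, h3, hz, neg_div_neg_eq])
    refine ⟨f, ?_, ?_⟩
    · intro h0
      rw [h0, map_zero, div_eq_zero_iff] at hf
      rcases hf with h4 | h4
      · exact hb2 k h4
      · exact hz0 h4
    · rw [← hf, div_mul_cancel₀ _ hz0]
  obtain ⟨f1, hf1, e1⟩ := hF i
  obtain ⟨f2, hf2, e2⟩ := hF j
  obtain ⟨x, y, hxy⟩ := binary_universal F E f1 f2 1 hf1 hf2 one_ne_zero
  refine ⟨x • b i + y • b j, ?_⟩
  rw [B.add_left, B.add_right, B.add_right, B.smul_left, B.smul_left, B.smul_left, B.smul_left,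
    B.smul_right, B.smul_right, B.smul_right, B.smul_right, hb1 i j hij, hb1 j i hij.symm, e1, e2]
  rw [map_one] at hxy
  linear_combination z * hxy

end

end Pool.Agent.Work.MP_dd0ddf_al.C2
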