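import Pool.Agent.Work.MP_dd0ddf_al.C2.KWeil

/-!
# MP_dd0ddf_al (characteristic 2), module RelDefs: a form over L and its composition with an E0-linear functional (definitions)

`FRel B0 BL`: `B0.ip v w = T (BL.ip v w)` for an `E0`-linear nondegenerate functional `T : L → E0` commuting with star.
-/

set_option linter.unusedSectionVars false
set_option linter.style.haveILetI false

namespace Pool.Agent.Work.MP_dd0ddf_al.C2

noncomputable section

universe u

section

variable {E0 L V : Type u} [Field E0] [StarRing E0] [Field L] [StarRing L] [Algebra E0 L]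
  [AddCommGroup V] [Module E0 V] [Module L V] [IsScalarTower E0 L V]

/-- `B0 = T ∘ BL` -/
structure FRel (B0 : SkewH E0 V) (BL : SkewH L V) where
  T : L →ₗ[E0] E0
  sc : ∀ x : E0, star (algebraMap E0 L x) = algebraMap E0 L (star x)
  st : ∀ x : L, T (star x) = star (T x)
  nd : ∀ x : L, (∀ z, T (z * x) = 0) → x = 0
  ip : ∀ v w, T (BL.ip v w) = B0.ip v w

variable {B0 : SkewH E0 V} {BL : SkewH L V} (R : FRel B0 BL)

/-- isometries of `BL` as isometries of `B0` -/
def FRel.U : UU BL →* UU B0 where
  toFun g := ⟨resG E0 g.1, fun v w => by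
    show B0.ip (g.1.1 v) (g.1.1 w) = B0.ip v w
    rw [← R.ip, ← R.ip, g.2]⟩
  map_one' := rfl
  map_mul' _ _ := rfl

theorem FRel.U_apply (g : UU BL) (v : V) : (R.U g).1.1 v = g.1.1 v := rfl

/-- an anti-unitary involution of `BL` as one of `B0` -/
def FRel.tau (τ : AntiU BL) : AntiU B0 where
  t := τ.t
  add := τ.add
  smul a v := by
    have h1 : a • v = (algebraMap E0 L a) • v := (algebraMap_smul L a v).symm
    rw [h1, τ.smul, R.sc, algebraMap_smul]
  ip v w := by
    rw [← R.ip, ← R.ip, τ.ip]
  inv := τ.inv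

theorem FRel.tau_t (τ : AntiU BL) (v : V) : (R.tau τ).t v = τ.t v := rfl

end

section

variable {E0 E L V : Type u} [Field E0] [StarRing E0] [Field E] [StarRing E] [Field L] [StarRing L]
  [Algebra E0 E] [Algebra E L] [Algebra E0 L] [IsScalarTower E0 E L]
  [AddCommGroup V] [Module E0 V] [Module E V] [Module L V] [IsScalarTower E0 E V]
  [IsScalarTower E L V] [IsScalarTower E0 L V]

/-- composition -/
def FRel.comp {B0 : SkewH E0 V} {B : SkewH E V} {BL : SkewH L V} (R : FRel B0 B)
    (R' : FRel B BL) : FRel B0 BL where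
  T := R.T ∘ₗ (R'.T.restrictScalars E0)
  sc x := by
    rw [IsScalarTower.algebraMap_apply E0 E L, R'.sc, R.sc, ← IsScalarTower.algebraMap_apply]
  st x := by
    show R.T (R'.T (star x)) = star (R.T (R'.T x))
    rw [R'.st, R.st]
  nd x hx := by
    apply R'.nd
    intro z
    apply R.nd
    intro y
    have h1 := hx (algebraMap E L y * z)
    have h2 : algebraMap E L y * z * x = y • (z * x) := by
      rw [Algebra.smul_def, mul_assoc]
    rw [h2] at h1
    have h3 : R.T (R'.T (y • (z * x))) = 0 := h1
    rw [map_smul, smul_eq_mul] at h3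
    exact h3
  ip v w := by
    show R.T (R'.T (BL.ip v w)) = B0.ip v w
    rw [R'.ip, R.ip]

theorem FRel.comp_U {B0 : SkewH E0 V} {B : SkewH E V} {BL : SkewH L V} (R : FRel B0 B)
    (R' : FRel B BL) (g : UU BL) : (R.comp R').U g = R.U (R'.U g) := rfl

end

section

variable {F0 E0 : Type u} [NontriviallyNormedField F0] [IsUltrametricDist F0] [ProperSpace F0]
  [CharP F0 2] [NontriviallyNormedField E0] [NormedAlgebra F0 E0] [ProperSpace E0] [StarRing E0]
  [QExt F0 E0]
variable {F E : Type u} [NontriviallyNormedField F] [IsUltrametricDist F] [ProperSpace F]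
  [CharP F 2] [NontriviallyNormedField E] [NormedAlgebra F E] [ProperSpace E] [StarRing E]
  [QExt F E] [NormedAlgebra F0 F] [NormedAlgebra E0 E] [Algebra F0 E] [KCompat F0 E0 F E]
variable {V : Type u} [AddCommGroup V] [Module E0 V] [Module E V] [IsScalarTower E0 E V]

/-- the relation given by the functional `tl` -/
def relOf {B0 : SkewH E0 V} {B : SkewH E V}
    (h : ∀ v w, tl F0 E0 F E (B.ip v w) = B0.ip v w) : FRel B0 B where
  T := tl F0 E0 F E
  sc x := KCompat.star_comm (F := F0) (E := E0) (K := F) (L := E) x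
  st x := kc_trace_star x
  nd x hx := tl_nondeg F0 E0 F E x hx
  ip := h

theorem relOf_U {B0 : SkewH E0 V} {B : SkewH E V}
    (h : ∀ v w, tl F0 E0 F E (B.ip v w) = B0.ip v w) (g : UU B) : (relOf h).U g = resU h g := rfl

end

end

end Pool.Agent.Work.MP_dd0ddf_al.C2
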