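import Pool.Agent.Work.MP_dd0ddf_al.C2.SFormDefs
import Pool.Agent.Work.MP_dd0ddf_al.C2.LinChar
import Pool.Agent.Work.MP_dd0ddf_al.C2.HaarDefs
import Pool.Agent.Work.MP_dd0ddf_al.C2.NiE1

/-!
# MP_dd0ddf_al, module SA0Defs: traces of self-adjoint operators

-/

set_option linter.unusedSectionVars false
set_option linter.style.haveILetI false

namespace Pool.Agent.Work.MP_dd0ddf_al.C2

noncomputable section

universe u

variable {F E : Type u} [NontriviallyNormedField F] [IsUltrametricDist F] [ProperSpace F]
  [CharP F 2] [NontriviallyNormedField E] [NormedAlgebra F E] [ProperSpace E] [StarRing E]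
  [QExt F E] [Dl E]
variable {V : Type u} [AddCommGroup V] [Module E V] [Module.Finite E V] [TopologicalSpace V]
  [IsTopologicalAddGroup V] [T2Space V] [ContinuousSMul E V]

/-! auxiliary -/

theorem sa0_trace_eq (X : Module.End E V) :
    LinearMap.trace E V X = - (LinearMap.charpoly X).nextCoeff := by
  classical
  rw [LinearMap.trace_eq_matrix_trace E (Module.finBasis E V),
    Matrix.trace_eq_neg_charpoly_nextCoeff, LinearMap.charpoly_toMatrix]

theorem sa0_trace_adj (B : SkewH E V) (X : Module.End E V) :
    LinearMap.trace E V (adj B X) = star (LinearMap.trace E V X) := by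
  rw [sa0_trace_eq, sa0_trace_eq, charpoly_adj,
    Polynomial.nextCoeff_map (starRingEnd E).injective, star_neg]
  rfl

theorem sa0_trace_conjτ {B : SkewH E V} (τ : AntiU B) (X : Module.End E V) :
    LinearMap.trace E V (conjτ τ X) = star (LinearMap.trace E V X) := by
  rw [sa0_trace_eq, sa0_trace_eq, charpoly_conjτ,
    Polynomial.nextCoeff_map (starRingEnd E).injective, star_neg]
  rfl

theorem sa0_adj_add (B : SkewH E V) (X Y : Module.End E V) :
    adj B (X + Y) = adj B X + adj B Y := by
  symm
  apply adj_unique
  intro v w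
  show B.ip (X v + Y v) w = B.ip v (adj B X w + adj B Y w)
  rw [B.add_left, B.add_right, adj_spec, adj_spec]

theorem sa0_adj_smul (B : SkewH E V) (a : E) (X : Module.End E V) :
    adj B (a • X) = star a • adj B X := by
  symm
  apply adj_unique
  intro v w
  show B.ip (a • X v) w = B.ip v (star a • adj B X w)
  rw [B.smul_left, B.smul_right, adj_spec, star_star]

variable (F) in
include F in
theorem sa0_smul_mem (B : SkewH E V) (a : F) {X : Module.End E V} (hX : X ∈ SA B) :
    algebraMap F E a • X ∈ SA B := by
  apply sa_of_adj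
  rw [sa0_adj_smul, QExt.star_alg, sa_adj B hX]

omit [StarRing E] in
theorem sa0_cont_trace : Continuous (fun X : Module.End E V => LinearMap.trace E V X) := by
  classical
  have h : (fun X : Module.End E V => LinearMap.trace E V X) =
      fun X => ∑ i, (Module.finBasis E V).repr (X (Module.finBasis E V i)) i := by
    funext X
    rw [LinearMap.trace_eq_matrix_trace E (Module.finBasis E V)]
    refine Finset.sum_congr rfl fun i _ => ?_
    rw [Matrix.diag_apply, LinearMap.toMatrix_apply]
  rw [h]
  refine continuous_finsetSum _ fun i _ => ?_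
  have h2 : Continuous (fun v : V => (Module.finBasis E V).repr v i) :=
    ((Module.finBasis E V).coord i).continuous_of_finiteDimensional
  exact h2.comp (continuous_end_apply _)

variable (F) in
include F in
theorem sa0_trace_mem (B : SkewH E V) {X Y : Module.End E V} (hX : X ∈ SA B) (hY : Y ∈ SA B) :
    ∃ f : F, LinearMap.trace E V (X * Y) = algebraMap F E f := by
  obtain ⟨-, -, -, -, -, hfix⟩ := exists_eta F E
  apply hfix
  rw [← sa0_trace_adj B, adj_mul, sa_adj B hX, sa_adj B hY, LinearMap.trace_mul_comm]

variable (F) in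
include F in
theorem sa0_one_mem (B : SkewH E V) : (1 : Module.End E V) ∈ SA B :=
  sa_of_adj B (adj_one B)

variable (F) in
include F in
/-- decomposition of an operator -/
theorem sa0_decomp (B : SkewH E V) {e : E} (he : e + star e = 1)
    (Z : Module.End E V) : ∃ X ∈ SA B, ∃ Y ∈ SA B, Z = X + e • Y := by
  haveI : CharP E 2 := char2_of_injective (algebraMap F E).injective
  have h2 : ∀ X : Module.End E V, X + X = 0 := fun X => by
    rw [← two_smul E X, CharTwo.two_eq_zero, zero_smul]
  have hse := star_eq_add_one F E he
  refine ⟨Z + e • (Z + adj B Z), ?_, Z + adj B Z, ?_, ?_⟩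
  · apply sa_of_adj
    rw [sa0_adj_add, sa0_adj_smul, sa0_adj_add, adj_adj, hse, add_smul, one_smul,
      add_comm (adj B Z) Z]
    calc adj B Z + (e • (Z + adj B Z) + (Z + adj B Z))
        = (adj B Z + adj B Z) + (Z + e • (Z + adj B Z)) := by abel
      _ = Z + e • (Z + adj B Z) := by rw [h2, zero_add]
  · apply sa_of_adj
    rw [sa0_adj_add, adj_adj, add_comm]
  · rw [add_assoc, h2, add_zero]

omit [TopologicalSpace V] [IsTopologicalAddGroup V] [T2Space V] [ContinuousSMul E V]
  [ProperSpace E] [StarRing E] in
/-- nondegeneracy of the trace pairing -/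
theorem sa0_trace_nondeg (X : Module.End E V) (h : ∀ Z, LinearMap.trace E V (X * Z) = 0) : X = 0 := by
  classical
  ext v
  by_contra hv
  have hv' : X v ≠ 0 := hv
  obtain ⟨l, hl⟩ := (Module.forall_dual_apply_eq_zero_iff E (X v)).not.mpr hv' |> not_forall.mp
  have h1 := h (l.smulRight v)
  have h2 : X * l.smulRight v = l.smulRight (X v) := by
    ext w
    show X (l w • v) = l w • X v
    rw [map_smul]
  rw [h2, LinearMap.trace_smulRight] at h1
  exact hl h1

end

end Pool.Agent.Work.MP_dd0ddf_al.C2
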