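import Pool.Agent.Work.MP_dd0ddf_al.C2.WrRep
import Pool.Agent.Work.MP_dd0ddf_al.C2.SA0Defs
import Pool.Agent.Work.MP_dd0ddf_al.C2.GDefs

/-!
# MP_dd0ddf_al, module SimDefs: similitudes (definitions)

`IsSim B c g`: `⟨g v, g w⟩ = c ⟨v, w⟩`, c ∈ F^×; equivalently `g g^* = c`.  `simC h = g⁻¹ h g` (unitary).  `θ(g)` is a similitude with the same factor (`thG τ g = τ g^* τ = c τ g⁻¹ τ`).  `simK = g⁻¹ θ(g)` is unitary.
-/

set_option linter.unusedSectionVars false
set_option linter.style.haveILetI false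

namespace Pool.Agent.Work.MP_dd0ddf_al.C2

noncomputable section

universe u

variable {F E : Type u} [NontriviallyNormedField F] [IsUltrametricDist F] [ProperSpace F]
  [CharP F 2] [NontriviallyNormedField E] [NormedAlgebra F E] [ProperSpace E] [StarRing E]
  [QExt F E] [Dl E] [MeasurableSpace E] [BorelSpace E]
variable {V : Type u} [AddCommGroup V] [Module E V] [Module.Finite E V] [TopologicalSpace V]
  [IsTopologicalAddGroup V] [T2Space V] [ContinuousSMul E V]

/-- similitudes -/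
def IsSim (B : SkewH E V) (c : F) (g : GV E V) : Prop :=
  c ≠ 0 ∧ ∀ v w, B.ip (g.1 v) (g.1 w) = algebraMap F E c * B.ip v w

private theorem sim_c0 {c : F} (hc : c ≠ 0) : algebraMap F E c ≠ 0 := by
  intro h
  exact hc ((algebraMap F E).injective (by rw [h, map_zero]))

private theorem sim_adj' {B : SkewH E V} {c : F} {g : GV E V} (h : IsSim B c g) :
    adj B g.1 * g.1 = algebraMap F E c • (1 : Module.End E V) := by
  ext w
  apply ip_ext B
  intro v
  show B.ip v (adj B g.1 (g.1 w)) = B.ip v (algebraMap F E c • w)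
  rw [← adj_spec, h.2, B.smul_right, QExt.star_alg]

private theorem sim_adj_eq {B : SkewH E V} {c : F} {g : GV E V} (h : IsSim B c g) :
    adj B g.1 = algebraMap F E c • g⁻¹.1 := by
  have h1 := congrArg (fun Z => Z * g⁻¹.1) (sim_adj' h)
  have h2 : g.1 * g⁻¹.1 = 1 := g.mul_inv
  simp only [mul_assoc] at h1
  rw [h2, mul_one, smul_mul_assoc, one_mul] at h1
  exact h1

theorem sim_adj {B : SkewH E V} {c : F} {g : GV E V} (h : IsSim B c g) :
    g.1 * adj B g.1 = algebraMap F E c • (1 : Module.End E V) := by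
  have h2 : g.1 * g⁻¹.1 = 1 := g.mul_inv
  rw [sim_adj_eq h, mul_smul_comm, h2]

theorem sim_of_adj {B : SkewH E V} {c : F} {g : GV E V} (hc : c ≠ 0)
    (h : g.1 * adj B g.1 = algebraMap F E c • (1 : Module.End E V)) : IsSim B c g := by
  refine ⟨hc, fun v w => ?_⟩
  have h1 : g⁻¹.1 * g.1 = 1 := g.inv_mul
  have h2 : adj B g.1 = algebraMap F E c • g⁻¹.1 := by
    have h3 := congrArg (fun Z => g⁻¹.1 * Z) h
    simp only [← mul_assoc] at h3
    rw [h1, one_mul, mul_smul_comm, mul_one] at h3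
    exact h3
  have h4 : adj B g.1 (g.1 w) = algebraMap F E c • w := by
    rw [h2]
    show algebraMap F E c • (g⁻¹.1 * g.1) w = _
    rw [h1]
    rfl
  rw [adj_spec, h4, B.smul_right, QExt.star_alg]

private theorem sim_conj_smul {B : SkewH E V} (τ : AntiU B) (a : E) (X : Module.End E V) :
    conjτ τ (a • X) = star a • conjτ τ X := by
  ext v
  show τ.t (a • X (τ.t v)) = star a • τ.t (X (τ.t v))
  rw [τ.smul]

theorem sim_th {B : SkewH E V} {c : F} {g : GV E V} (h : IsSim B c g) (τ : AntiU B) :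
    IsSim B c (thG τ g) := by
  apply sim_of_adj h.1
  show conjτ τ (adj B g.1) * adj B (conjτ τ (adj B g.1)) = _
  rw [adj_conjτ, adj_adj, ← conjτ_mul, sim_adj' h, sim_conj_smul, QExt.star_alg, conjτ_one]

private theorem sim_inv {B : SkewH E V} {c : F} {g : GV E V} (h : IsSim B c g) :
    IsSim B c⁻¹ g⁻¹ := by
  refine ⟨inv_ne_zero h.1, fun v w => ?_⟩
  have h1 : ∀ x, g.1 (g⁻¹.1 x) = x := fun x =>
    congrArg (fun f : Module.End E V => f x) g.mul_inv
  have h2 := h.2 (g⁻¹.1 v) (g⁻¹.1 w)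
  rw [h1, h1] at h2
  rw [h2, map_inv₀, inv_mul_cancel_left₀ (sim_c0 h.1)]

private theorem sim_mul {B : SkewH E V} {c d : F} {g k : GV E V} (h : IsSim B c g)
    (h' : IsSim B d k) : IsSim B (c * d) (g * k) := by
  refine ⟨mul_ne_zero h.1 h'.1, fun v w => ?_⟩
  show B.ip (g.1 (k.1 v)) (g.1 (k.1 w)) = _
  rw [h.2, h'.2, map_mul, mul_assoc]

private theorem sim_uu {B : SkewH E V} {g : GV E V} (h : IsSim B (1 : F) g) : g ∈ UU B := by
  intro v w
  rw [h.2, map_one, one_mul]

private theorem uu_sim {B : SkewH E V} (k : UU B) : IsSim B (1 : F) k.1 :=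
  ⟨one_ne_zero, fun v w => by rw [k.2, map_one, one_mul]⟩

/-- conjugation `h ↦ g⁻¹ h g` -/
def simC {B : SkewH E V} {c : F} {g : GV E V} (h : IsSim B c g) : UU B →* UU B where
  toFun k := ⟨g⁻¹ * k.1 * g, by
    have h1 := sim_mul (sim_mul (sim_inv h) (uu_sim (F := F) k)) h
    rw [mul_one, inv_mul_cancel₀ h.1] at h1
    exact sim_uu h1⟩
  map_one' := by
    apply Subtype.ext
    show g⁻¹ * 1 * g = 1
    rw [mul_one, inv_mul_cancel]
  map_mul' a b := by
    apply Subtype.ext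
    show g⁻¹ * (a.1 * b.1) * g = (g⁻¹ * a.1 * g) * (g⁻¹ * b.1 * g)
    group

theorem continuous_simC {B : SkewH E V} {c : F} {g : GV E V} (h : IsSim B c g) :
    Continuous (simC h) := by
  refine Continuous.subtype_mk ?_ _
  exact (continuous_const.mul continuous_subtype_val).mul continuous_const

theorem simC_surj {B : SkewH E V} {c : F} {g : GV E V} (h : IsSim B c g) (k : UU B) :
    ∃ k' : UU B, k'.1 = g * k.1 * g⁻¹ ∧ simC h k' = k := by
  have h1 := sim_mul (sim_mul h (uu_sim (F := F) k)) (sim_inv h)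
  rw [mul_one, mul_inv_cancel₀ h.1] at h1
  refine ⟨⟨g * k.1 * g⁻¹, sim_uu h1⟩, rfl, ?_⟩
  apply Subtype.ext
  show g⁻¹ * (g * k.1 * g⁻¹) * g = k.1
  group

/-- `g⁻¹ θ(g)` -/
def simK {B : SkewH E V} {c : F} {g : GV E V} (h : IsSim B c g) (τ : AntiU B) : UU B :=
  ⟨g⁻¹ * thG τ g, by
    have h1 := sim_mul (sim_inv h) (sim_th h τ)
    rw [inv_mul_cancel₀ h.1] at h1
    exact sim_uu h1⟩

end

end Pool.Agent.Work.MP_dd0ddf_al.C2
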