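import Pool.Agent.Work.MP_dd0ddf_al.C2.GkDefs

/-!
# MP_dd0ddf_al, module SvnCf: matrix coefficients of a Heisenberg representation

`cf H s lam (v) = lam (ρ(v)⁻¹ s) = ψ(bt(v,v)) lam (ρ(-v) s)`.  Compact support: let L be a compact open subgroup of V fixing s (ρ(u) s = s) and lam (lam ∘ ρ(u) = lam) for u ∈ L: `lam(ρ(-v) s) = lam(ρ(-v) ρ(u) s) = ψ(-om(v,u)) lam(ρ(u) ρ(-v) s) = ψ(-om(v,u)) lam(ρ(-v) s)`, so it vanishes unless ψ(om(v,u)) = 1 for all u ∈ L, a compact set of v (omBi perp').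
Locally constant: `ρ(-(v+u)) s = ψ(..) ρ(-v) ρ(-u) s`, the factors ψ are locally constant.
`cf_L`, `cf_R`: `cf (ρ(x) s) lam = L_x cf s lam`; `cf s (lam ∘ ρ(x)) = R_x cf s lam`, i.e. `cf s (rd x lam) = R_{-x} cf s lam`.
`sd_sep`: let s ≠ 0 be fixed by the compact open subgroup L with ψ(bt(u,u')) = 1 on L (L small), so ρ|_L is a homomorphism; averaging over the finite quotients L/L' (L' fixing the vector) gives a projection e_L of S onto the L-fixed vectors commuting with nothing but with `e_L s = s`, `e_L ρ(u) = e_L`; a linear functional ℓ on S with ℓ(s) = 1,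
composed with e_L, is in H.sd.
`heis_countable`: S is spanned by the countable set {ρ(v) s : v mod U} up to scalars (irreducible: the span of all ρ(v)s is everything; V/U is countable; ρ(v+u) s = scalar ρ(v) ρ(u) s).
-/

set_option linter.unusedSectionVars false
set_option linter.style.haveILetI false

namespace Pool.Agent.Work.MP_dd0ddf_al.C2

noncomputable section

universe u

variable {F E : Type u} [NontriviallyNormedField F] [IsUltrametricDist F] [ProperSpace F]
  [CharP F 2] [NontriviallyNormedField E] [NormedAlgebra F E] [ProperSpace E] [StarRing E]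
  [QExt F E] [Dl E]
variable {V : Type u} [AddCommGroup V] [Module E V] [Module.Finite E V] [TopologicalSpace V]
  [IsTopologicalAddGroup V] [T2Space V] [ContinuousSMul E V]
variable {S : Type*} [AddCommGroup S] [Module ℂ S]

private theorem svn_psi_zero (p : PChar F) : p.ψ 0 = 1 := by
  have h := p.add 0 0
  rw [add_zero] at h
  have hn : p.ψ 0 ≠ 0 := by
    intro h0
    have := p.norm_one 0
    rw [h0, norm_zero] at this
    exact zero_ne_one this
  exact (mul_right_cancel₀ hn (by rw [one_mul]; exact h)).symm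

private theorem svn_psi_neg (p : PChar F) (x : F) : p.ψ (-x) * p.ψ x = 1 := by
  rw [← p.add, neg_add_cancel, svn_psi_zero]

private theorem svn_zero_left (B : SkewH E V) (x : V) : om F B 0 x = 0 := by
  have h := om_add_left (F := F) B 0 0 x
  rw [add_zero] at h
  exact left_eq_add.1 h

private theorem svn_zero_right (B : SkewH E V) (x : V) : om F B x 0 = 0 := by
  have h := om_add_right (F := F) B x 0 0
  rw [add_zero] at h
  exact left_eq_add.1 h

private theorem svn_neg_left (B : SkewH E V) (x y : V) : om F B (-x) y = - om F B x y := by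
  have h := om_add_left (F := F) B x (-x) y
  rw [add_neg_cancel, svn_zero_left] at h
  linear_combination -h

private theorem svn_neg_right (B : SkewH E V) (x y : V) : om F B x (-y) = - om F B x y := by
  have h := om_add_right (F := F) B x y (-y)
  rw [add_neg_cancel, svn_zero_right] at h
  linear_combination -h

private theorem svn_mul {B : SkewH E V} {p : PChar F} (H : Heis B p S) (x v : V) (s : S) :
    H.ρ x (H.ρ v s) = p.ψ (bt F B x v) • H.ρ (x + v) s :=
  congrArg (fun T : Module.End ℂ S => T s) (H.mul x v)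

private theorem svn_add {B : SkewH E V} {p : PChar F} (H : Heis B p S) (x v : V) (s : S) :
    H.ρ (x + v) s = p.ψ (-(bt F B x v)) • H.ρ x (H.ρ v s) := by
  rw [svn_mul H, smul_smul, svn_psi_neg, one_smul]

private theorem svn_comm {B : SkewH E V} {p : PChar F} (H : Heis B p S) (x v : V) (s : S) :
    H.ρ x (H.ρ v s) = p.ψ (om F B x v) • H.ρ v (H.ρ x s) := by
  rw [svn_mul H, svn_mul H, add_comm v x, smul_smul, ← p.add, ← bt_swap, sub_add_cancel]

private theorem svn_bt (B : SkewH E V) (p : PChar F) :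
    IsLocallyConstant (fun q : V × V => p.ψ (bt F B q.1 q.2)) := by
  have h := (omBi B p).lc.comp_continuous
    (show Continuous (fun q : V × V => ((Dl.d : E) • q.1, q.2)) from
      (continuous_const.smul continuous_fst).prodMk continuous_snd)
  have e : (fun q : V × V => p.ψ (bt F B q.1 q.2)) =
      (fun q : V × V => (omBi B p).χ q.1 q.2) ∘ fun q : V × V => ((Dl.d : E) • q.1, q.2) := by
    funext q
    show p.ψ (bt F B q.1 q.2) = p.ψ (om F B ((Dl.d : E) • q.1) q.2)
    rw [bt_om]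
  rw [e]
  exact h

/-- a small compact open subgroup on which `ψ(bt)` is trivial -/
private theorem svn_small (B : SkewH E V) (p : PChar F) (U : Set V) (hU : IsOpen U)
    (h0 : (0 : V) ∈ U) : ∃ L : AddSubgroup V, IsOpen (L : Set V) ∧ IsCompact (L : Set V) ∧
      (L : Set V) ⊆ U ∧ ∀ x ∈ L, ∀ y ∈ L, p.ψ (bt F B x y) = 1 := by
  haveI := lc_V E V
  haveI := td_V F E V
  have h1 := (IsLocallyConstant.iff_eventually_eq _).mp (svn_bt B p) ((0 : V), (0 : V))
  obtain ⟨W, W', hWo, hW0, hW'o, hW'0, hWW⟩ := mem_nhds_prod_iff'.1 h1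
  obtain ⟨L, hL, hLc, hLs⟩ := exists_co_addSubgroup (U ∩ (W ∩ W')) (hU.inter (hWo.inter hW'o))
    ⟨h0, hW0, hW'0⟩
  refine ⟨L, hL, hLc, fun x hx => (hLs hx).1, fun x hx y hy => ?_⟩
  have h2 := hWW (Set.mk_mem_prod (hLs hx).2.1 (hLs hy).2.2)
  have h3 : p.ψ (bt F B x y) = p.ψ (bt F B 0 0) := h2
  rw [h3, bt_zero_left, svn_psi_zero]

theorem cf_mem {B : SkewH E V} {p : PChar F} (H : Heis B p S) (s : S) (lam : H.sd) :
    (fun v => p.ψ (bt F B v v) * lam.1 (H.ρ (-v) s)) ∈ SF V ℂ := by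
  haveI := lc_V E V
  haveI := td_V F E V
  obtain ⟨U, hU, hU0, hUs⟩ := H.smooth s
  obtain ⟨U', hU', hU0', hUl⟩ := lam.2
  refine ⟨?_, ?_⟩
  · rw [IsLocallyConstant.iff_eventually_eq]
    intro v0
    have h1 : ∀ᶠ v in nhds v0, -(v - v0) ∈ U := by
      have hc : Continuous fun v : V => -(v - v0) := (continuous_id.sub continuous_const).neg
      refine hc.continuousAt.eventually (hU.mem_nhds ?_)
      show -(v0 - v0) ∈ U
      rw [sub_self, neg_zero]
      exact hU0
    have h2 : IsLocallyConstant (fun v : V => p.ψ (-(bt F B (-v0) (-(v - v0))))) := by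
      refine p.lc.comp_continuous ?_
      exact ((continuous_bt_right B (-v0)).comp
        (continuous_id.sub continuous_const).neg).neg
    have h3 := (IsLocallyConstant.iff_eventually_eq _).mp h2 v0
    have h4 := (IsLocallyConstant.iff_eventually_eq _).mp ((svn_bt B p).comp_continuous
      (continuous_id.prodMk continuous_id)) v0
    filter_upwards [h1, h3, h4] with v hv hv3 hv4
    have e1 : p.ψ (-(bt F B (-v0) (-(v - v0)))) = 1 := by
      rw [hv3, sub_self, neg_zero, bt_zero_right, neg_zero, svn_psi_zero]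
    have e2 : -v = -v0 + -(v - v0) := by abel
    have e3 : p.ψ (bt F B v v) = p.ψ (bt F B v0 v0) := hv4
    rw [e3, e2, svn_add H, e1, one_smul, hUs _ hv]
  · obtain ⟨L, hL, hLc, hLs⟩ := exists_co_addSubgroup (U ∩ U') (hU.inter hU') ⟨hU0, hU0'⟩
    refine HasCompactSupport.intro ((omBi B p).perp' L hL) ?_
    intro v hv
    by_contra hne'
    have hne : lam.1 (H.ρ (-v) s) ≠ 0 := fun h0 => hne' (by rw [h0, mul_zero])
    apply hv
    intro w hw
    show p.ψ (om F B v w) = 1
    have hw' : -w ∈ L := L.neg_mem hw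
    have e1 : lam.1 (H.ρ (-v) s) = p.ψ (om F B v w) * lam.1 (H.ρ (-v) s) := by
      have e2 : H.ρ (-v) s = H.ρ (-v) (H.ρ (-w) s) := by rw [hUs _ (hLs hw').1]
      have e3 : om F B (-v) (-w) = om F B v w := by
        rw [svn_neg_left, svn_neg_right, neg_neg]
      conv_lhs => rw [e2, svn_comm H, e3, map_smul, smul_eq_mul, hUl _ (hLs hw').2]
    have e4 : (p.ψ (om F B v w) - 1) * lam.1 (H.ρ (-v) s) = 0 := by
      rw [sub_mul, one_mul, ← e1, sub_self]
    rcases mul_eq_zero.1 e4 with h | h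
    · exact sub_eq_zero.1 h
    · exact absurd h hne

/-- matrix coefficient -/
def cf {B : SkewH E V} {p : PChar F} (H : Heis B p S) (s : S) (lam : H.sd) : SF V ℂ :=
  ⟨fun v => p.ψ (bt F B v v) * lam.1 (H.ρ (-v) s), cf_mem H s lam⟩

theorem cf_apply {B : SkewH E V} {p : PChar F} (H : Heis B p S) (s : S) (lam : H.sd) (v : V) :
    cf H s lam v = p.ψ (bt F B v v) * lam.1 (H.ρ (-v) s) := rfl

open TensorProduct in
/-- the matrix coefficient map on `S ⊗ S^∨` -/
def cfMap {B : SkewH E V} {p : PChar F} (H : Heis B p S) : S ⊗[ℂ] H.sd →ₗ[ℂ] SF V ℂ :=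
  TensorProduct.lift (LinearMap.mk₂ ℂ (cf H)
    (fun s s' lam => by
      apply SF.ext
      intro v
      show p.ψ (bt F B v v) * lam.1 (H.ρ (-v) (s + s')) =
        p.ψ (bt F B v v) * lam.1 (H.ρ (-v) s) + p.ψ (bt F B v v) * lam.1 (H.ρ (-v) s')
      rw [map_add, map_add, mul_add])
    (fun c s lam => by
      apply SF.ext
      intro v
      show p.ψ (bt F B v v) * lam.1 (H.ρ (-v) (c • s)) =
        c * (p.ψ (bt F B v v) * lam.1 (H.ρ (-v) s))
      rw [map_smul, map_smul, smul_eq_mul]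
      ring)
    (fun s lam lam' => SF.ext fun v => mul_add _ _ _)
    (fun c s lam => SF.ext fun v => mul_left_comm _ _ _))

theorem cfMap_tmul {B : SkewH E V} {p : PChar F} (H : Heis B p S) (s : S) (lam : H.sd) :
    cfMap H (s ⊗ₜ[ℂ] lam) = cf H s lam := rfl

theorem cf_L {B : SkewH E V} {p : PChar F} (H : Heis B p S) (x : V) (s : S) (lam : H.sd) :
    Lop B p x (cf H s lam) = cf H (H.ρ x s) lam := by
  apply SF.ext
  intro v
  show p.ψ (bt F B x (v - x)) * (p.ψ (bt F B (v - x) (v - x)) * lam.1 (H.ρ (-(v - x)) s)) =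
    p.ψ (bt F B v v) * lam.1 (H.ρ (-v) (H.ρ x s))
  have h1 : -(v - x) = -v + x := by abel
  rw [svn_mul H, map_smul, smul_eq_mul, h1, ← mul_assoc, ← mul_assoc, ← p.add, ← p.add,
    ← bt_add_left, add_sub_cancel, bt_sub_right, bt_neg_left, sub_eq_add_neg]

theorem cf_R {B : SkewH E V} {p : PChar F} (H : Heis B p S) (x : V) (s : S) (lam : H.sd) :
    Rop B p (-x) (cf H s lam) = cf H s (H.rd x lam) := by
  apply SF.ext
  intro v
  show p.ψ (bt F B (v - -x) (-x)) * (p.ψ (bt F B (v - -x) (v - -x)) *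
      lam.1 (H.ρ (-(v - -x)) s)) =
    p.ψ (bt F B v v) * lam.1 (H.ρ (-x) (H.ρ (-v) s))
  have h1 : -(v - -x) = -x + -v := by abel
  have h2 : -x + (v - -x) = v := by abel
  rw [svn_mul H, map_smul, smul_eq_mul, h1, ← mul_assoc, ← mul_assoc, ← p.add, ← p.add,
    ← bt_add_right, h2, sub_neg_eq_add, bt_add_left, bt_neg_left, bt_neg_right, neg_neg]

theorem heis_countable {B : SkewH E V} {p : PChar F} (H : Heis B p S) :
    ∃ C : Set S, C.Countable ∧ Submodule.span ℂ C = ⊤ := by
  haveI := sc_V E V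
  obtain ⟨s, hs⟩ := H.nontriv
  obtain ⟨U, hU, hU0, hUs⟩ := H.smooth s
  obtain ⟨C, hC⟩ : ∃ C : Set S, C = Set.range (fun n : ℕ => H.ρ (TopologicalSpace.denseSeq V n) s) :=
    ⟨_, rfl⟩
  have hall : ∀ v : V, H.ρ v s ∈ Submodule.span ℂ C := by
    intro v
    have ho : IsOpen ((fun d : V => -d + v) ⁻¹' U) :=
      hU.preimage (continuous_id.neg.add continuous_const)
    have hne : ((fun d : V => -d + v) ⁻¹' U).Nonempty := ⟨v, by
      show -v + v ∈ U
      rw [neg_add_cancel]
      exact hU0⟩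
    obtain ⟨n, hn⟩ := (TopologicalSpace.denseRange_denseSeq V).exists_mem_open ho hne
    have e1 : v = TopologicalSpace.denseSeq V n + (-TopologicalSpace.denseSeq V n + v) := by abel
    rw [e1, svn_add H, hUs _ hn]
    refine Submodule.smul_mem _ _ (Submodule.subset_span ?_)
    rw [hC]
    exact ⟨n, rfl⟩
  refine ⟨C, by rw [hC]; exact Set.countable_range _, ?_⟩
  have hst : ∀ v, ∀ x ∈ Submodule.span ℂ C, H.ρ v x ∈ Submodule.span ℂ C := by
    intro v x hx
    induction hx using Submodule.span_induction with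
    | mem x hx =>
      rw [hC] at hx
      obtain ⟨n, rfl⟩ := hx
      show H.ρ v (H.ρ (TopologicalSpace.denseSeq V n) s) ∈ _
      rw [svn_mul H]
      exact Submodule.smul_mem _ _ (hall _)
    | zero => rw [map_zero]; exact Submodule.zero_mem _
    | add x y _ _ hx hy => rw [map_add]; exact Submodule.add_mem _ hx hy
    | smul c x _ hx => rw [map_smul]; exact Submodule.smul_mem _ _ hx
  rcases H.irr (Submodule.span ℂ C) hst with h | h
  · exfalso
    apply hs
    have h1 := hall 0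
    rw [H.one, h] at h1
    exact (Submodule.mem_bot ℂ).1 h1
  · exact h

/-- finite sums over the cosets of an open subgroup -/
private theorem svn_avg {B : SkewH E V} {p : PChar F} (H : Heis B p S) (L L' : AddSubgroup V)
    (hLc : IsCompact (L : Set V)) (hL'o : IsOpen (L' : Set V)) (hle : L' ≤ L)
    (hψ : ∀ x ∈ L, ∀ y ∈ L, p.ψ (bt F B x y) = 1) :
    ∃ R : Finset V, R.Nonempty ∧ (∀ r ∈ R, r ∈ L) ∧ ∀ t : S, (∀ u ∈ L', H.ρ u t = t) →
      ∀ u ∈ L, ∑ r ∈ R, H.ρ r (H.ρ u t) = ∑ r ∈ R, H.ρ r t := by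
  classical
  obtain ⟨rep, hrep⟩ : ∃ rep : V → V, rep = fun v => (QuotientAddGroup.mk v : V ⧸ L').out :=
    ⟨_, rfl⟩
  have hr1 : ∀ v, -v + rep v ∈ L' := by
    intro v
    rw [hrep]
    have h : (QuotientAddGroup.mk v : V ⧸ L') = QuotientAddGroup.mk
        ((QuotientAddGroup.mk v : V ⧸ L').out) := (QuotientAddGroup.out_eq' _).symm
    exact QuotientAddGroup.eq.1 h
  have hr2 : ∀ v w, -v + w ∈ L' → rep v = rep w := by
    intro v w h
    rw [hrep]
    show (QuotientAddGroup.mk v : V ⧸ L').out = (QuotientAddGroup.mk w : V ⧸ L').out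
    rw [QuotientAddGroup.eq.2 h]
  have hr3 : ∀ v, rep (rep v) = rep v := fun v => (hr2 _ _ (hr1 v)).symm
  have hfin : (rep '' (L : Set V)).Finite := by
    obtain ⟨t, ht⟩ := hLc.elim_finite_subcover (fun v : V => (fun w : V => -v + w) ⁻¹' (L' : Set V))
      (fun v => hL'o.preimage (continuous_const.add continuous_id)) (fun v _ => by
        rw [Set.mem_iUnion]
        refine ⟨v, ?_⟩
        show -v + v ∈ L'
        rw [neg_add_cancel]
        exact L'.zero_mem)
    refine (t.finite_toSet.image rep).subset ?_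
    rintro _ ⟨v, hv, rfl⟩
    have hv2 := ht hv
    simp only [Set.mem_iUnion] at hv2
    obtain ⟨w, hw, hwv⟩ := hv2
    exact ⟨w, hw, hr2 _ _ hwv⟩
  have hRL : ∀ r ∈ hfin.toFinset, r ∈ L ∧ rep r = r := by
    intro r hr
    rw [Set.Finite.mem_toFinset] at hr
    obtain ⟨v, hv, rfl⟩ := hr
    refine ⟨?_, hr3 v⟩
    have h1 := L.add_mem hv (hle (hr1 v))
    rwa [add_neg_cancel_left] at h1
  refine ⟨hfin.toFinset, ⟨rep 0, ?_⟩, fun r hr => (hRL r hr).1, ?_⟩
  · rw [Set.Finite.mem_toFinset]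
    exact ⟨0, L.zero_mem, rfl⟩
  · intro t ht u hu
    have hcos : ∀ v ∈ L, H.ρ v t = H.ρ (rep v) t := by
      intro v hv
      have e1 : rep v = v + (-v + rep v) := by abel
      conv_rhs => rw [e1]
      rw [svn_add H, ht _ (hr1 v)]
      have e2 : p.ψ (-(bt F B v (-v + rep v))) = 1 := by
        have e3 := svn_psi_neg p (bt F B v (-v + rep v))
        rwa [hψ v hv _ (hle (hr1 v)), mul_one] at e3
      rw [e2, one_smul]
    have hstep : ∀ r ∈ hfin.toFinset, H.ρ r (H.ρ u t) = H.ρ (rep (r + u)) t := by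
      intro r hr
      obtain ⟨hr', -⟩ := hRL r hr
      rw [svn_mul H, hψ r hr' u hu, one_smul]
      exact hcos _ (L.add_mem hr' hu)
    rw [Finset.sum_congr rfl hstep]
    have hmaps : ∀ r ∈ hfin.toFinset, rep (r + u) ∈ hfin.toFinset := by
      intro r hr
      rw [Set.Finite.mem_toFinset]
      exact ⟨r + u, L.add_mem (hRL r hr).1 hu, rfl⟩
    have hinj : Set.InjOn (fun r => rep (r + u)) (hfin.toFinset : Set V) := by
      intro r hr r' hr' h
      have h' : rep (r + u) = rep (r' + u) := h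
      have e1 := hr1 (r + u)
      have e2 := hr1 (r' + u)
      rw [h'] at e1
      have e3 := L'.add_mem e1 (L'.neg_mem e2)
      have e4 : -(r + u) + rep (r' + u) + -(-(r' + u) + rep (r' + u)) = -r + r' := by abel
      rw [e4] at e3
      have e5 := hr2 _ _ e3
      rwa [(hRL r hr).2, (hRL r' hr').2] at e5
    refine Finset.sum_nbij (fun r => rep (r + u)) hmaps hinj ?_ (fun _ _ => rfl)
    exact Finset.surjOn_of_injOn_of_card_le _ (fun r hr => hmaps r hr) hinj le_rfl

/-- the smooth dual separates points -/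
theorem sd_sep {B : SkewH E V} {p : PChar F} (H : Heis B p S) (s : S)
    (h : ∀ lam : H.sd, lam.1 s = 0) : s = 0 := by
  classical
  haveI := lc_V E V
  haveI := td_V F E V
  obtain ⟨U, hU, hU0, hUs⟩ := H.smooth s
  obtain ⟨L, hL, hLc, hLU, hψ⟩ := svn_small B p U hU hU0
  obtain ⟨M, hM⟩ : ∃ M : Submodule ℂ S, M = Submodule.span ℂ
      {x | ∃ u ∈ L, ∃ t : S, x = H.ρ u t - t} := ⟨_, rfl⟩
  have hsM : s ∈ M := by
    by_contra hs
    obtain ⟨f, hf, hfM⟩ := Submodule.exists_le_ker_of_notMem hs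
    have hmem : f ∈ H.sd := by
      refine ⟨L, hL, L.zero_mem, fun u hu t => ?_⟩
      have h1 : H.ρ u t - t ∈ M := by
        rw [hM]
        exact Submodule.subset_span ⟨u, hu, t, rfl⟩
      have h2 := hfM h1
      rw [LinearMap.mem_ker, map_sub, sub_eq_zero] at h2
      exact h2
    exact hf (h ⟨f, hmem⟩)
  have key : ∀ x ∈ M, ∃ L1 : AddSubgroup V, IsOpen (L1 : Set V) ∧ ∀ L2 : AddSubgroup V, L2 ≤ L1 →
      ∀ R : Finset V, (∀ t : S, (∀ u ∈ L2, H.ρ u t = t) →
        ∀ u ∈ L, ∑ r ∈ R, H.ρ r (H.ρ u t) = ∑ r ∈ R, H.ρ r t) → ∑ r ∈ R, H.ρ r x = 0 := by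
    intro x hx
    rw [hM] at hx
    induction hx using Submodule.span_induction with
    | mem x hx =>
      obtain ⟨u, hu, t, rfl⟩ := hx
      obtain ⟨U1, hU1, hU10, hU1t⟩ := H.smooth t
      obtain ⟨L1, hL1, -, hL1U⟩ := exists_co_addSubgroup U1 hU1 hU10
      refine ⟨L1, hL1, fun L2 hL2 R hR => ?_⟩
      simp only [map_sub]
      rw [Finset.sum_sub_distrib, sub_eq_zero]
      exact hR t (fun v hv => hU1t v (hL1U (hL2 hv))) u hu
    | zero =>
      exact ⟨⊤, isOpen_univ, fun L2 _ R _ => by simp⟩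
    | add x y _ _ hx hy =>
      obtain ⟨L1, hL1, h1⟩ := hx
      obtain ⟨L1', hL1', h1'⟩ := hy
      refine ⟨L1 ⊓ L1', hL1.inter hL1', fun L2 hL2 R hR => ?_⟩
      simp only [map_add]
      rw [Finset.sum_add_distrib, h1 L2 (hL2.trans inf_le_left) R hR,
        h1' L2 (hL2.trans inf_le_right) R hR, add_zero]
    | smul c x _ hx =>
      obtain ⟨L1, hL1, h1⟩ := hx
      refine ⟨L1, hL1, fun L2 hL2 R hR => ?_⟩
      simp only [map_smul]
      rw [← Finset.smul_sum, h1 L2 hL2 R hR, smul_zero]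
  obtain ⟨L1, hL1, h1⟩ := key s hsM
  obtain ⟨R, hRne, hRL, hR⟩ := svn_avg H L (L ⊓ L1) hLc (hL.inter hL1) inf_le_left hψ
  have h2 := h1 (L ⊓ L1) inf_le_right R hR
  have h3 : ∑ r ∈ R, H.ρ r s = (R.card : ℂ) • s := by
    rw [Finset.sum_congr rfl (fun r hr => hUs r (hLU (hRL r hr))), Finset.sum_const,
      ← Nat.cast_smul_eq_nsmul ℂ]
  rw [h3] at h2
  rcases smul_eq_zero.1 h2 with h4 | h4
  · exact absurd (Nat.cast_eq_zero.1 h4) (Finset.card_ne_zero.2 hRne)
  · exact h4

end

end Pool.Agent.Work.MP_dd0ddf_al.C2
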