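import Pool.Agent.Work.MP_dd0ddf_al.C2.SvnCf
import Pool.Agent.Work.MP_dd0ddf_al.C2.SchurC
import Pool.Agent.Work.MP_dd0ddf_al.C2.SchurSF

/-!
# MP_dd0ddf_al, module SvnIso: S ⊗ S^∨ = SF V

Surjective: the range is stable under all L_x, R_x (cf_L, cf_R), so under modulations `L_x R_{-x}` (mod_eq) and translations (trans_eq); nonzero (sd_sep); `spans_sf` for omBi.
Injective: an element of the kernel is `∑ s_i ⊗ lam_i` with s_i linearly independent (finite): `∑ lam_i (ρ(-v) s_i) = 0` for all v; so `∑ lam_i (a s_i) = 0` for all a in the span of the ρ(v) and scalars (closed under products up to scalars: the submonoid {c ρ(v) : |c| = 1...} use A = the submonoid generated by all ρ(v) and note its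
elements are scalar multiples of ρ(v)).  densityC: `a s_1 = t`, `a s_j = 0`: lam_1(t) = 0 for all t.  So all lam_i = 0.
-/

set_option linter.unusedSectionVars false
set_option linter.style.haveILetI false

namespace Pool.Agent.Work.MP_dd0ddf_al.C2

noncomputable section

universe u

variable {F E : Type u} [NontriviallyNormedField F] [IsUltrametricDist F] [ProperSpace F]
  [CharP F 2] [NontriviallyNormedField E] [NormedAlgebra F E] [ProperSpace E] [StarRing E]
  [QExt F E] [Dl E]
variable {V : Type u} [AddCommGroup V] [Module E V] [Module.Finite E V] [TopologicalSpace V]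
  [IsTopologicalAddGroup V] [T2Space V] [ContinuousSMul E V]
variable {S : Type*} [AddCommGroup S] [Module ℂ S]

private theorem svni_psi_ne (p : PChar F) (x : F) : p.ψ x ≠ 0 := by
  intro h
  have h1 := p.norm_one x
  rw [h, norm_zero] at h1
  exact zero_ne_one h1

private theorem svni_neg_left (B : SkewH E V) (x y : V) : om F B (-x) y = - om F B x y := by
  have h0 := om_add_left (F := F) B 0 0 y
  rw [add_zero] at h0
  have h1 : om F B 0 y = 0 := left_eq_add.1 h0
  have h := om_add_left (F := F) B x (-x) y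
  rw [add_neg_cancel, h1] at h
  linear_combination -h

/-- a nonzero space stable under all `L_x`, `R_x` is everything -/
theorem svniso_spans (B : SkewH E V) (p : PChar F) (N : Submodule ℂ (SF V ℂ)) (hN : N ≠ ⊥)
    (hL : ∀ x, ∀ f ∈ N, Lop B p x f ∈ N) (hR : ∀ x, ∀ f ∈ N, Rop B p x f ∈ N) : N = ⊤ := by
  haveI := lc_V E V
  haveI := td_V F E V
  have hm : ∀ w, ∀ f ∈ N, SF.mulc (fun v => (omBi B p).χ v w) ((omBi B p).lcl w) f ∈ N := by
    intro w f hf
    rw [mod_eq]
    exact N.smul_mem _ (hL _ _ (hR _ _ hf))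
  refine spans_sf (omBi B p) (uc_V F E V) N hN (fun a f hf => ?_) (fun w f hf => hm w f hf)
  rw [trans_eq B p a f]
  exact N.smul_mem _ (hm _ _ (hL _ _ hf))

/-- scalar multiples of the operators `ρ(v)` -/
private def svniA {B : SkewH E V} {p : PChar F} (H : Heis B p S) :
    Submonoid (Module.End ℂ S) where
  carrier := {a | ∃ (c : ℂ) (v : V), a = c • H.ρ v}
  one_mem' := ⟨1, 0, by rw [H.one, one_smul]⟩
  mul_mem' := by
    rintro _ _ ⟨c, v, rfl⟩ ⟨c', v', rfl⟩
    refine ⟨c * c' * p.ψ (bt F B v v'), v + v', ?_⟩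
    rw [smul_mul_smul_comm, H.mul, smul_smul]

open TensorProduct in
theorem cfMap_surjective {B : SkewH E V} {p : PChar F} (H : Heis B p S) :
    Function.Surjective (cfMap H) := by
  rw [← LinearMap.range_eq_top]
  refine svniso_spans B p _ ?_ ?_ ?_
  · obtain ⟨s, hs⟩ := H.nontriv
    have h1 : ∃ lam : H.sd, lam.1 s ≠ 0 := by
      by_contra hcon
      push Not at hcon
      exact hs (sd_sep H s hcon)
    obtain ⟨lam, hlam⟩ := h1
    intro hbot
    have h2 : cf H s lam ∈ LinearMap.range (cfMap H) := ⟨s ⊗ₜ[ℂ] lam, cfMap_tmul H s lam⟩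
    rw [hbot, Submodule.mem_bot] at h2
    apply hlam
    have h3 := congrArg (fun f : SF V ℂ => f 0) h2
    have h4 : p.ψ (bt F B 0 0) * lam.1 (H.ρ (-0) s) = 0 := h3
    rw [neg_zero, H.one] at h4
    exact (mul_eq_zero.1 h4).resolve_left (svni_psi_ne p _)
  · rintro x _ ⟨t, rfl⟩
    induction t using TensorProduct.induction_on with
    | zero => rw [map_zero, map_zero]; exact Submodule.zero_mem _
    | tmul s lam =>
      rw [cfMap_tmul, cf_L]
      exact ⟨H.ρ x s ⊗ₜ[ℂ] lam, cfMap_tmul H _ _⟩
    | add a b ha hb => rw [map_add, map_add]; exact Submodule.add_mem _ ha hb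
  · rintro x _ ⟨t, rfl⟩
    induction t using TensorProduct.induction_on with
    | zero => rw [map_zero, map_zero]; exact Submodule.zero_mem _
    | tmul s lam =>
      have h1 := cf_R H (-x) s lam
      rw [neg_neg] at h1
      rw [cfMap_tmul, h1]
      exact ⟨s ⊗ₜ[ℂ] H.rd (-x) lam, cfMap_tmul H _ _⟩
    | add a b ha hb => rw [map_add, map_add]; exact Submodule.add_mem _ ha hb

open TensorProduct in
theorem cfMap_injective {B : SkewH E V} {p : PChar F} (H : Heis B p S) :
    Function.Injective (cfMap H) := by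
  classical
  rw [injective_iff_map_eq_zero]
  intro t ht
  let b := Module.Basis.ofVectorSpace ℂ S
  obtain ⟨f, hf⟩ : ∃ f, f = TensorProduct.equivFinsuppOfBasisLeft b (N := H.sd) t := ⟨_, rfl⟩
  have ht2 : t = f.sum fun i n => b i ⊗ₜ[ℂ] n := by
    rw [hf, ← TensorProduct.equivFinsuppOfBasisLeft_symm_apply, LinearEquiv.symm_apply_apply]
  have hv : ∀ v : V, ∑ i ∈ f.support, (f i).1 (H.ρ v (b i)) = 0 := by
    intro v
    have h1 : cfMap H t = ∑ i ∈ f.support, cf H (b i) (f i) := by
      conv_lhs => rw [ht2]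
      rw [Finsupp.sum, map_sum]
      rfl
    rw [ht] at h1
    have h2 := congrArg (fun g : SF V ℂ => g (-v)) h1
    have h3 : (∑ i ∈ f.support, cf H (b i) (f i) : SF V ℂ) (-v) =
        ∑ i ∈ f.support, (cf H (b i) (f i)) (-v) := by
      rw [Submodule.coe_sum, Finset.sum_apply]
    have h4 : (0 : ℂ) = (∑ i ∈ f.support, cf H (b i) (f i) : SF V ℂ) (-v) := h2
    rw [h3] at h4
    have h5 : ∑ i ∈ f.support, (cf H (b i) (f i)) (-v) =
        p.ψ (bt F B (-v) (-v)) * ∑ i ∈ f.support, (f i).1 (H.ρ v (b i)) := by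
      rw [Finset.mul_sum]
      refine Finset.sum_congr rfl fun i _ => ?_
      rw [cf_apply, neg_neg]
    rw [h5] at h4
    exact (mul_eq_zero.1 h4.symm).resolve_left (svni_psi_ne p _)
  have ha : ∀ a ∈ Submodule.span ℂ (svniA H : Set (Module.End ℂ S)),
      ∑ i ∈ f.support, (f i).1 (a (b i)) = 0 := by
    intro a ha
    induction ha using Submodule.span_induction with
    | mem a ha =>
      obtain ⟨c, v, rfl⟩ := ha
      have h1 : ∀ i ∈ f.support, (f i).1 ((c • H.ρ v) (b i)) = c * (f i).1 (H.ρ v (b i)) := by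
        intro i _
        rw [LinearMap.smul_apply, map_smul, smul_eq_mul]
      rw [Finset.sum_congr rfl h1, ← Finset.mul_sum, hv, mul_zero]
    | zero => simp
    | add x y _ _ hx hy =>
      simp only [LinearMap.add_apply, map_add]
      rw [Finset.sum_add_distrib, hx, hy, add_zero]
    | smul c x _ hx =>
      have h1 : ∀ i ∈ f.support, (f i).1 ((c • x) (b i)) = c * (f i).1 (x (b i)) := by
        intro i _
        rw [LinearMap.smul_apply, map_smul, smul_eq_mul]
      rw [Finset.sum_congr rfl h1, ← Finset.mul_sum, hx, mul_zero]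
  have hzero : f = 0 := by
    by_contra hne
    obtain ⟨i0, hi0⟩ := Finsupp.support_nonempty_iff.2 hne
    have hi0' : f i0 ≠ 0 := Finsupp.mem_support_iff.1 hi0
    apply hi0'
    apply Subtype.ext
    apply LinearMap.ext
    intro t0
    let e := f.support.equivFin
    have hli : LinearIndependent ℂ (fun k : Fin f.support.card => b (e.symm k)) :=
      b.linearIndependent.comp (fun k : Fin f.support.card => ((e.symm k : f.support) : _))
        (Subtype.val_injective.comp e.symm.injective)
    obtain ⟨a, haA, has⟩ := densityC (svniA H) (fun N hN => H.irr N fun v x hx => by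
        have h1 := hN (1 • H.ρ v) ⟨1, v, by rw [one_smul, one_smul]⟩ x hx
        rwa [one_smul] at h1)
      H.nontriv (heis_countable H) _
      (fun k : Fin f.support.card => if ((e.symm k : f.support) : _) = i0 then t0 else 0) hli
    have h1 := ha a haA
    have h2 : ∀ i ∈ f.support, (f i).1 (a (b i)) = if i = i0 then (f i0).1 t0 else 0 := by
      intro i hi
      have h3 := has (e ⟨i, hi⟩)
      simp only [Equiv.symm_apply_apply] at h3
      rw [h3]
      by_cases h : i = i0
      · rw [if_pos h, if_pos h, h]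
      · rw [if_neg h, if_neg h, map_zero]
    rw [Finset.sum_congr rfl h2, Finset.sum_ite_eq' f.support i0, if_pos hi0] at h1
    exact h1
  rw [ht2, hzero, Finsupp.sum_zero_index]

open TensorProduct in
/-- the isomorphism `S ⊗ S^∨ ≃ SF V` -/
def cfEquiv {B : SkewH E V} {p : PChar F} (H : Heis B p S) : S ⊗[ℂ] H.sd ≃ₗ[ℂ] SF V ℂ :=
  LinearEquiv.ofBijective (cfMap H) ⟨cfMap_injective H, cfMap_surjective H⟩

open TensorProduct in
/-- every bilinear map on `S × S^∨` is given by a linear map on `SF V` -/
theorem cf_lift {B : SkewH E V} {p : PChar F} (H : Heis B p S) {M : Type*} [AddCommGroup M]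
    [Module ℂ M] (β : S →ₗ[ℂ] H.sd →ₗ[ℂ] M) :
    ∃ T : SF V ℂ →ₗ[ℂ] M, ∀ s lam, T (cf H s lam) = β s lam := by
  refine ⟨TensorProduct.lift β ∘ₗ (cfEquiv H).symm.toLinearMap, fun s lam => ?_⟩
  show TensorProduct.lift β ((cfEquiv H).symm (cf H s lam)) = β s lam
  have h1 : cf H s lam = cfEquiv H (s ⊗ₜ[ℂ] lam) := rfl
  rw [h1, LinearEquiv.symm_apply_apply, TensorProduct.lift.tmul]

theorem cf_ext {B : SkewH E V} {p : PChar F} (H : Heis B p S) {M : Type*} [AddCommGroup M]
    [Module ℂ M] (T T' : SF V ℂ →ₗ[ℂ] M) (h : ∀ s lam, T (cf H s lam) = T' (cf H s lam)) :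
    T = T' := by
  apply LinearMap.ext
  intro f
  obtain ⟨t, rfl⟩ := cfMap_surjective H f
  induction t using TensorProduct.induction_on with
  | zero => rw [map_zero, map_zero, map_zero]
  | tmul s lam => exact h s lam
  | add a b ha hb => rw [map_add, map_add, map_add, ha, hb]

theorem cf_eq_zero {B : SkewH E V} {p : PChar F} (H : Heis B p S) (s : S) (lam : H.sd)
    (h : cf H s lam = 0) : s = 0 ∨ lam = 0 := by
  by_cases hs : s = 0
  · exact Or.inl hs
  · right
    have h0 : ∀ v, lam.1 (H.ρ v s) = 0 := by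
      intro v
      have h1 := congrArg (fun f : SF V ℂ => f (-v)) h
      have h2 : p.ψ (bt F B (-v) (-v)) * lam.1 (H.ρ (- -v) s) = 0 := h1
      rw [neg_neg] at h2
      exact (mul_eq_zero.1 h2).resolve_left (svni_psi_ne p _)
    have hst : ∀ v, ∀ x ∈ Submodule.span ℂ (Set.range fun w => H.ρ w s),
        H.ρ v x ∈ Submodule.span ℂ (Set.range fun w => H.ρ w s) := by
      intro v x hx
      induction hx using Submodule.span_induction with
      | mem x hx =>
        obtain ⟨w, rfl⟩ := hx
        have h1 : H.ρ v (H.ρ w s) = p.ψ (bt F B v w) • H.ρ (v + w) s :=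
          congrArg (fun T : Module.End ℂ S => T s) (H.mul v w)
        show H.ρ v (H.ρ w s) ∈ _
        rw [h1]
        exact Submodule.smul_mem _ _ (Submodule.subset_span ⟨_, rfl⟩)
      | zero => rw [map_zero]; exact Submodule.zero_mem _
      | add x y _ _ hx hy => rw [map_add]; exact Submodule.add_mem _ hx hy
      | smul c x _ hx => rw [map_smul]; exact Submodule.smul_mem _ _ hx
    have htop : Submodule.span ℂ (Set.range fun w => H.ρ w s) = ⊤ := by
      rcases H.irr _ hst with h1 | h1
      · exfalso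
        apply hs
        have h2 : s ∈ Submodule.span ℂ (Set.range fun w => H.ρ w s) :=
          Submodule.subset_span ⟨0, by
            show H.ρ 0 s = s
            rw [H.one]
            rfl⟩
        rw [h1] at h2
        exact (Submodule.mem_bot ℂ).1 h2
      · exact h1
    apply Subtype.ext
    apply LinearMap.ext
    intro x
    have hx : x ∈ Submodule.span ℂ (Set.range fun w => H.ρ w s) := by
      rw [htop]
      exact Submodule.mem_top
    show lam.1 x = 0
    induction hx using Submodule.span_induction with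
    | mem x hx =>
      obtain ⟨w, rfl⟩ := hx
      exact h0 w
    | zero => exact map_zero _
    | add x y _ _ hx hy => rw [map_add, hx, hy, add_zero]
    | smul c x _ hx => rw [map_smul, hx, smul_zero]

end

end Pool.Agent.Work.MP_dd0ddf_al.C2
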