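import Pool.Agent.Work.MP_dd0ddf_al.C2.NiClass
import Pool.Agent.Work.MP_dd0ddf_al.C2.ExtU

/-!
# MP_dd0ddf_al, module WfEmb: embedding of planes, isotropic vectors (dim V ≥ 3)

`exists_isotropic`: dim ≥ 3: orthogonal basis values `a1, a2, a3`; `a1 N(x) + a2 N(y) = -a3` is solvable (binary_universal after dividing by η), gives an isotropic vector.
`exists_value`: for every `z` with `star z = -z` there is `v ≠ 0` with `⟨v,v⟩ = z` (z = 0: isotropic; z ≠ 0: skew_represents).
`exists_plane`: let `a = z1, d = z2` skew, `ζ ∈ E` and `z1 z2 + ζ star ζ ≠ 0`.  The Hermitian plane `P` with Gram matrix `⟨e1,e1⟩ = z1, ⟨e2,e1⟩ = ζ, ⟨e1,e2⟩ = -star ζ, ⟨e2,e2⟩ = z2` is nondegenerate (a `SkewH E (Fin 2 → E)`).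
Let `Q` be a skew-Hermitian space of dimension `n - 2 ≥ 1` (orthogonal basis with values η, ..., η, η d) such that `P ⊕ Q` has the same discriminant as `V` (choose `d ∈ F^×`; the
discriminant of an n-dimensional skew-Hermitian space is in η^n F^×).  By `isometric_of_disc`, `P ⊕ Q ≅ V`; take the images of `e1, e2`.
`exists_hyp`: a hyperbolic pair: `⟨v1,v1⟩ = ⟨v2,v2⟩ = 0`, `⟨v1,v2⟩ = 1` (from an isotropic vector; or exists_plane with z1 = z2 = 0, ζ = -1).
-/

set_option linter.unusedSectionVars false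
set_option linter.style.haveILetI false

namespace Pool.Agent.Work.MP_dd0ddf_al.C2

noncomputable section

universe u

variable {F E : Type u} [NontriviallyNormedField F] [IsUltrametricDist F] [ProperSpace F]
  [CharP F 2] [NontriviallyNormedField E] [NormedAlgebra F E] [ProperSpace E] [StarRing E]
  [QExt F E]
variable {V : Type*} [AddCommGroup V] [Module E V] [Module.Finite E V]

variable (F) in
include F in
private theorem wfemb_star : ∃ x : E, star x ≠ x := QExt.nontriv (F := F)

private theorem wfemb_zero_left (B : SkewH E V) (a : V) : B.ip 0 a = 0 := by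
  have h := B.smul_left 0 0 a
  rw [zero_smul, zero_mul] at h
  exact h

private theorem wfemb_self (B : SkewH E V) (v : V) : star (B.ip v v) = -B.ip v v := by
  have h := B.skew v v
  rw [h, neg_neg, ← h]

variable (F) in
include F in
private theorem wfemb_perp (B : SkewH E V) (hn : 3 ≤ Module.finrank E V) (v : V)
    (hv : B.ip v v ≠ 0) (z : E) (hz : star z = -z) (hz0 : z ≠ 0) :
    ∃ w : V, B.ip w v = 0 ∧ B.ip w w = z := by
  have h1 := ndeg_orth B _ (ndeg_span B v hv)
  have h2 := finrank_orth B (Submodule.span E {v})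
  have hv0 : v ≠ 0 := by
    rintro rfl
    exact hv (wfemb_zero_left B 0)
  rw [finrank_span_singleton hv0] at h2
  obtain ⟨w, hw⟩ := skew_represents (F := F) (B.restrict _ h1) (by omega) z hz hz0
  exact ⟨w.1, w.2 v (Submodule.mem_span_singleton_self v), hw⟩

variable (F) in
include F in
theorem exists_value (B : SkewH E V) (hn : 3 ≤ Module.finrank E V) (z : E) (hz : star z = -z) :
    ∃ v : V, v ≠ 0 ∧ B.ip v v = z := by
  by_cases hz0 : z = 0
  · subst hz0
    obtain ⟨v, hv⟩ := exists_aniso B (wfemb_star F) (by omega)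
    obtain ⟨w, hw1, hw2⟩ := wfemb_perp F B hn v hv (-B.ip v v)
      (by rw [star_neg, wfemb_self]) (neg_ne_zero.2 hv)
    have hvw : B.ip v w = 0 := by rw [B.skew w v, hw1, star_zero, neg_zero]
    refine ⟨v + w, ?_, ?_⟩
    · intro h
      have h1 : B.ip (v + w) v = 0 := by rw [h, wfemb_zero_left]
      rw [B.add_left, hw1, add_zero] at h1
      exact hv h1
    · rw [B.add_left, B.add_right, B.add_right, hvw, hw1, hw2]
      ring
  · obtain ⟨v, hv⟩ := skew_represents (F := F) B (by omega) z hz hz0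
    refine ⟨v, ?_, hv⟩
    rintro rfl
    rw [wfemb_zero_left] at hv
    exact hz0 hv.symm

variable (F) in
include F in
private theorem wfemb_ne (B : SkewH E V) (hn : 3 ≤ Module.finrank E V) (z1 z2 ζ : E)
    (h1 : star z1 = -z1) (h2 : star z2 = -z2) (hD : z1 * z2 + ζ * star ζ ≠ 0) (hz1 : z1 ≠ 0) :
    ∃ v1 v2 : V, B.ip v1 v1 = z1 ∧ B.ip v2 v2 = z2 ∧ B.ip v2 v1 = ζ := by
  obtain ⟨v1, -, hv1⟩ := exists_value F B hn z1 h1
  obtain ⟨w, hw1, hw2⟩ := wfemb_perp F B hn v1 (by rw [hv1]; exact hz1)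
    ((z1 * z2 + ζ * star ζ) / z1) (by
      rw [star_div₀, star_add, star_mul', star_mul', star_star, h1, h2]
      field_simp) (div_ne_zero hD hz1)
  have hw3 : B.ip v1 w = 0 := by rw [B.skew w v1, hw1, star_zero, neg_zero]
  refine ⟨v1, (ζ / z1) • v1 + w, hv1, ?_, ?_⟩
  · rw [B.add_left, B.add_right, B.add_right, B.smul_left, B.smul_left, B.smul_right, B.smul_right,
      hv1, hw1, hw2, hw3, star_div₀, h1]
    field_simp
    ring
  · rw [B.add_left, B.smul_left, hv1, hw1, add_zero]
    field_simp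

variable (F) in
include F in
theorem exists_plane (B : SkewH E V) (hn : 3 ≤ Module.finrank E V) (z1 z2 ζ : E)
    (h1 : star z1 = -z1) (h2 : star z2 = -z2) (hD : z1 * z2 + ζ * star ζ ≠ 0) :
    ∃ v1 v2 : V, LinearIndependent E ![v1, v2] ∧ B.ip v1 v1 = z1 ∧ B.ip v2 v2 = z2 ∧
      B.ip v2 v1 = ζ := by
  have key : ∃ v1 v2 : V, B.ip v1 v1 = z1 ∧ B.ip v2 v2 = z2 ∧ B.ip v2 v1 = ζ := by
    by_cases hz1 : z1 = 0
    · by_cases hz2 : z2 = 0
      · subst hz1
        subst hz2
        rw [zero_mul, zero_add] at hD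
        have hζ : ζ ≠ 0 := fun h => hD (by rw [h, zero_mul])
        have hζ' : star ζ ≠ 0 := fun h => hD (by rw [h, mul_zero])
        obtain ⟨v1, hv0, hv1⟩ := exists_value F B hn 0 (by rw [star_zero, neg_zero])
        obtain ⟨u, hu⟩ : ∃ u, B.ip v1 u ≠ 0 := by
          by_contra h
          push Not at h
          exact hv0 (B.nondeg v1 h)
        have hu' : B.ip u v1 ≠ 0 := by
          rw [B.skew v1 u, neg_ne_zero]
          exact star_ne_zero.2 hu
        obtain ⟨u1, e1⟩ : ∃ u1, B.ip u1 v1 = ζ :=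
          ⟨(ζ / B.ip u v1) • u, by rw [B.smul_left]; field_simp⟩
        have e2 : B.ip v1 u1 = -star ζ := by rw [B.skew u1 v1, e1]
        obtain ⟨d, hd⟩ := exists_dd F E
        have e3 := wfemb_self B u1
        refine ⟨v1, u1 + (d * B.ip u1 u1 / star ζ) • v1, hv1, ?_, ?_⟩
        · rw [B.add_left, B.add_right, B.add_right, B.smul_left, B.smul_left, B.smul_right,
            B.smul_right, e1, e2, hv1, star_div₀, star_mul', e3, star_star]
          field_simp
          linear_combination (-B.ip u1 u1 * ζ * star ζ) * hd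
        · rw [B.add_left, B.smul_left, hv1, e1, mul_zero, add_zero]
      · obtain ⟨v2, v1, e2, e1, e3⟩ := wfemb_ne F B hn z2 z1 (-star ζ) h2 h1 (by
          rw [star_neg, star_star]
          intro h
          apply hD
          rw [← h]
          ring) hz2
        refine ⟨v1, v2, e1, e2, ?_⟩
        rw [B.skew v1 v2, e3, star_neg, star_star, neg_neg]
    · exact wfemb_ne F B hn z1 z2 ζ h1 h2 hD hz1
  obtain ⟨v1, v2, e1, e2, e3⟩ := key
  refine ⟨v1, v2, ?_, e1, e2, e3⟩
  rw [LinearIndependent.pair_iff]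
  intro s t hst
  have e4 : B.ip v1 v2 = -star ζ := by rw [B.skew v2 v1, e3]
  have f1 : B.ip (s • v1 + t • v2) v1 = 0 := by rw [hst, wfemb_zero_left]
  have f2 : B.ip (s • v1 + t • v2) v2 = 0 := by rw [hst, wfemb_zero_left]
  rw [B.add_left, B.smul_left, B.smul_left, e1, e3] at f1
  rw [B.add_left, B.smul_left, B.smul_left, e2, e4] at f2
  have g1 : s * (z1 * z2 + ζ * star ζ) = 0 := by linear_combination z2 * f1 - ζ * f2
  have g2 : t * (z1 * z2 + ζ * star ζ) = 0 := by linear_combination star ζ * f1 + z1 * f2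
  exact ⟨(mul_eq_zero.1 g1).resolve_right hD, (mul_eq_zero.1 g2).resolve_right hD⟩

end

end Pool.Agent.Work.MP_dd0ddf_al.C2
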