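import Pool.Agent.Work.MP_dd0ddf_al.C2.WfG
import Pool.Agent.Work.MP_dd0ddf_al.C2.WrBasic

/-!
# MP_dd0ddf_al (characteristic 2), module WfRel: the relation A μ(c) m κ(c) = 1 for every Weil representation

`exists_wm`: `wfg_m` of module WfG (private there; copy its proof).
`wf_rel`: let `D : LData B p := ⟨W.l, W.L_comm, W.R_comm, W.smooth⟩`.  For every h and every basis b of R_h: `D.t h b = W.A ^ r * W.μ d` with `d = det W_h(b)` (formula, Mop_apply, t_unique of module WfT); so
`fb D hn β = W.A * W.μ β` (fb_spec; r = 1, wall of the quasi-reflection: wall_qr) for `β = algebraMap F E c`, c ≠ 0.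
(`fb D hn β` is defined for every β for which a quasi-reflection `qr v β` exists; for β in F take v isotropic: exists_value with z = 0, as in wfg_key.)
Now the proof of `fb_gauss` in WfG (private wfg_key, with the given m and hm) gives `fb(c) * m * kap (nform F E c) p = 1`.  IMPORTANT: `fb_gauss` in WfG is stated with `∃ m`; the proof uses only `0 < m` and `hm`.  Either copy its proof
or (better) observe that `m` is determined by `hm` (apply hm to SF.single of a compact open set), so that the m of fb_gauss... is not accessible from the statement; so copy the proof of `wfg_key` and `fb_gauss` here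
(they are in WfG.lean, all the lemmas used are public or can be copied), with m and hm as hypotheses.
`l_of_mu`: by wf_rel (c = 1) for W and W' with the same m: `W.A * m * κ = 1 = W'.A * m * κ`, so `W.A = W'.A`; l_of_formula.
-/

set_option linter.unusedSectionVars false
set_option linter.style.haveILetI false

namespace Pool.Agent.Work.MP_dd0ddf_al.C2

noncomputable section

universe u

open MeasureTheory

variable {F E : Type u} [NontriviallyNormedField F] [IsUltrametricDist F] [ProperSpace F]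
  [CharP F 2] [NontriviallyNormedField E] [NormedAlgebra F E] [ProperSpace E] [StarRing E]
  [QExt F E] [Dl E] [MeasurableSpace E] [BorelSpace E]
variable {V : Type u} [AddCommGroup V] [Module E V] [Module.Finite E V] [TopologicalSpace V]
  [IsTopologicalAddGroup V] [T2Space V] [ContinuousSMul E V]

/-- the relation between the measures used in the formula of the Weil representation and in the
Gauss integrals -/
def IsWm (E : Type u) [NontriviallyNormedField E] [ProperSpace E] [MeasurableSpace E]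
    [BorelSpace E] (m : ℝ) : Prop :=
  0 < m ∧ ∀ h : SF E ℂ, ∫ x : Fin 1 → E, h (x 0)
    ∂(Measure.pi fun _ => (Measure.addHaar : Measure E)) = m * hI h

section Arch

variable {E : Type u} [NontriviallyNormedField E]

private theorem wfrel_conn (hE : ¬ TotallyDisconnectedSpace E) : PreconnectedSpace E := by
  rw [totallyDisconnectedSpace_iff_connectedComponent_subsingleton] at hE
  push Not at hE
  obtain ⟨x, hx⟩ := hE
  obtain ⟨y, hy, z, hz, hyz⟩ := hx
  have hzy : z - y ≠ 0 := sub_ne_zero.2 (Ne.symm hyz)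
  refine ⟨isPreconnected_of_forall_pair fun u _ v _ => ?_⟩
  refine ⟨(fun s => u + (v - u) / (z - y) * (s - y)) '' connectedComponent x,
    Set.subset_univ _, ⟨y, hy, ?_⟩, ⟨z, hz, ?_⟩, ?_⟩
  · show u + (v - u) / (z - y) * (y - y) = u
    rw [sub_self, mul_zero, add_zero]
  · show u + (v - u) / (z - y) * (z - y) = v
    rw [div_mul_cancel₀ _ hzy, add_sub_cancel]
  · refine isPreconnected_connectedComponent.image _ (Continuous.continuousOn ?_)
    exact continuous_const.add (continuous_const.mul (continuous_id.sub continuous_const))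

private theorem wfrel_zero (hE : ¬ TotallyDisconnectedSpace E) (f : SF E ℂ) : f = 0 := by
  haveI := wfrel_conn hE
  apply SF.ext
  intro x
  show f x = 0
  have hc : HasCompactSupport f.1 := f.2.2
  have hne : ∃ y : E, y ∉ tsupport f.1 := by
    by_contra hcon
    push Not at hcon
    have h1 : tsupport f.1 = Set.univ := Set.eq_univ_of_forall hcon
    have h2 : IsCompact (Set.univ : Set E) := by
      rw [← h1]
      exact hc
    exact noncompact_univ E h2
  obtain ⟨y, hy⟩ := hne
  have h1 : f.1 x = f.1 y := f.2.1.apply_eq_of_preconnectedSpace x y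
  have h2 : f.1 y = 0 := image_eq_zero_of_notMem_tsupport hy
  exact h1.trans h2

end Arch

private theorem wfrel_single {E : Type u} [NontriviallyNormedField E] [ProperSpace E]
    [StarRing E] [MeasurableSpace E] [BorelSpace E] (K : Set (Fin 1 → E))
    (hK : IsCompact K) (hK' : IsOpen K) :
    vI 1 (SF.single K hK hK' (1 : ℂ)) =
      (((Measure.pi fun _ : Fin 1 => (Measure.addHaar : Measure E)).real K : ℝ) : ℂ) := by
  classical
  rw [vI_integral]
  have h1 : ∀ x, SF.single K hK hK' (1 : ℂ) x = K.indicator (fun _ => (1 : ℂ)) x := by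
    intro x
    by_cases hx : x ∈ K
    · rw [SF.single_apply_mem _ _ _ _ _ hx, Set.indicator_of_mem hx]
    · rw [SF.single_apply_not_mem _ _ _ _ _ hx, Set.indicator_of_notMem hx]
  simp_rw [h1]
  haveI : SecondCountableTopology E := inferInstance
  haveI : BorelSpace (Fin 1 → E) := inferInstance
  rw [integral_indicator hK'.measurableSet, setIntegral_const, Complex.real_smul, mul_one]

private theorem wfrel_td {E : Type u} [NontriviallyNormedField E] [ProperSpace E]
    [MeasurableSpace E] [BorelSpace E] [TotallyDisconnectedSpace E] : ∃ m : ℝ, IsWm E m := by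
  letI : StarRing E := starRingOfComm
  haveI : SecondCountableTopology E := inferInstance
  haveI : BorelSpace (Fin 1 → E) := inferInstance
  obtain ⟨φ, hφ⟩ := hI_unique (vI 1 : SF (Fin 1 → E) ℂ →ₗ[ℂ] ℂ) (fun a f => vI_trans 1 a f)
  obtain ⟨N, hNo, hNc, -⟩ := exists_co_addSubgroup (Set.univ : Set (Fin 1 → E)) isOpen_univ
    (Set.mem_univ 0)
  have hv := hvol_pos _ hNc hNo ⟨0, N.zero_mem⟩
  have hm : 0 < (Measure.pi fun _ : Fin 1 =>
      (Measure.addHaar : Measure E)).real (N : Set (Fin 1 → E)) := by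
    rw [Measure.real, ENNReal.toReal_pos_iff]
    exact ⟨hNo.measure_pos _ ⟨0, N.zero_mem⟩, hNc.measure_lt_top⟩
  set m := (Measure.pi fun _ : Fin 1 =>
        (Measure.addHaar : Measure E)).real (N : Set (Fin 1 → E)) with hmdef
  have hne : ((hvol (N : Set (Fin 1 → E)) : ℝ) : ℂ) ≠ 0 := by exact_mod_cast hv.ne'
  have hφ1 : φ 1 = ((m / hvol (N : Set (Fin 1 → E)) : ℝ) : ℂ) := by
    have h1 := hφ (SF.single (N : Set (Fin 1 → E)) hNc hNo (1 : ℂ))
    rw [wfrel_single, hI_single, map_smul, smul_eq_mul] at h1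
    rw [Complex.ofReal_div, eq_div_iff hne, mul_comm]
    exact h1.symm
  have hφ2 : ∀ f : SF (Fin 1 → E) ℂ,
      vI 1 f = ((m / hvol (N : Set (Fin 1 → E)) : ℝ) : ℂ) * hI f := by
    intro f
    rw [hφ f, ← hφ1]
    have h2 := φ.map_smul (hI f) 1
    rw [smul_eq_mul, mul_one, smul_eq_mul] at h2
    rw [h2, mul_comm]
  obtain ⟨c', hc', h2⟩ := hI_transfer (Homeomorph.funUnique (Fin 1) E) (fun _ _ => rfl)
  refine ⟨m / hvol (N : Set (Fin 1 → E)) * c', mul_pos (div_pos hm hv) hc', fun h => ?_⟩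
  have h3 := vI_integral 1 (SF.comp (Homeomorph.funUnique (Fin 1) E) h)
  have h4 : ∫ x : Fin 1 → E, h (x 0) ∂(Measure.pi fun _ => (Measure.addHaar : Measure E)) =
      vI 1 (SF.comp (Homeomorph.funUnique (Fin 1) E) h) := h3.symm
  rw [h4, hφ2, h2, smul_eq_mul, Complex.ofReal_mul, mul_assoc]

variable (F E) in
theorem exists_wm : ∃ m : ℝ, IsWm E m := by
  by_cases hE : TotallyDisconnectedSpace E
  · exact wfrel_td
  · refine ⟨1, one_pos, fun h => ?_⟩
    rw [wfrel_zero hE h, map_zero, mul_zero]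
    have h1 : (fun x : Fin 1 → E => (0 : SF E ℂ) (x 0)) = fun _ => (0 : ℂ) := rfl
    rw [h1, integral_zero]

private theorem wfrel_L (B : SkewH E V) (p : PChar F) (x : V) (f : SF V ℂ) (v : V) :
    Lop B p x f v = p.ψ (bt F B x (v - x)) * f (v - x) := rfl

private theorem wfrel_sd (t : F) : Algebra.trace F E (star (Dl.d : E) * algebraMap F E t) = t := by
  have h : star (Dl.d : E) + star (star (Dl.d : E)) = 1 := by
    rw [star_star, add_comm]
    exact Dl.add_star
  exact trace_mul_alg F E h t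

private theorem wfrel_M [FiniteDimensional F E] {m : ℝ} [TotallyDisconnectedSpace E]
    (hm : ∀ h : SF E ℂ, ∫ x : Fin 1 → E, h (x 0)
      ∂(Measure.pi fun _ => (Measure.addHaar : Measure E)) = m * hI h)
    (B : SkewH E V) (p : PChar F) (v : V) (hv : v ≠ 0) (β : F) (hβ : β ≠ 0)
    (h : QRok B v (algebraMap F E β)) (f : SF V ℂ) (w : V) (k : SF E ℂ)
    (hk : ∀ x, k x = p.ψ ((nform F E β hβ).q x) * Lop B p (x • v) f w) :
    Mop B p (qr B v _ h) (fun _ : Fin 1 => v) (wall_qr v hv _ h).1 f w = m * hI k := by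
  rw [Mop_apply, ← hm]
  refine integral_congr_ae (Filter.Eventually.of_forall fun x => ?_)
  show _ = k (x 0)
  rw [hk]
  simp only [Fin.sum_univ_one]
  rw [(wall_qr v hv _ h).2]
  congr 2
  show Algebra.trace F E (star Dl.d * (x 0 * star (x 0) * algebraMap F E β)) = β * nE F (x 0)
  rw [← alg_nE F (x 0), ← map_mul, wfrel_sd, mul_comm]

/-- integral of a character over a compact open subgroup -/
private theorem wfrel_char [TotallyDisconnectedSpace E] (χ : BiChar E) (K : AddSubgroup E)
    (hK : IsOpen (K : Set E)) (hK' : IsCompact (K : Set E)) (w : E) (g : SF E ℂ)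
    (hg : ∀ z, g z = χ.χ z w * SF.single (K : Set E) hK' hK (1 : ℂ) z) :
    ((∀ z ∈ K, χ.χ z w = 1) → hI g = hvol (K : Set E)) ∧
    (¬ (∀ z ∈ K, χ.χ z w = 1) → hI g = 0) := by
  constructor
  · intro h
    have e1 : g = SF.single (K : Set E) hK' hK (1 : ℂ) := by
      apply SF.ext
      intro z
      rw [hg]
      by_cases hz : z ∈ K
      · rw [h z hz, one_mul]
      · rw [SF.single_apply_not_mem _ _ _ _ _ hz, mul_zero]
    rw [e1, hI_single, smul_eq_mul, mul_one]
  · intro h
    push Not at h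
    obtain ⟨a, ha, ha'⟩ := h
    have e1 : SF.comp (Homeomorph.addRight a) g = χ.χ a w • g := by
      apply SF.ext
      intro z
      show g (z + a) = χ.χ a w * g z
      rw [hg, hg, χ.addl]
      have e2 : SF.single (K : Set E) hK' hK (1 : ℂ) (z + a) =
          SF.single (K : Set E) hK' hK (1 : ℂ) z := by
        by_cases hz : z ∈ K
        · rw [SF.single_apply_mem _ _ _ _ _ hz,
            SF.single_apply_mem _ _ _ _ _ (K.add_mem hz ha)]
        · rw [SF.single_apply_not_mem _ _ _ _ _ hz, SF.single_apply_not_mem]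
          intro h1
          apply hz
          have h2 := K.sub_mem h1 ha
          rwa [add_sub_cancel_right] at h2
      rw [e2]
      ring
    have e2 : hI g = χ.χ a w * hI g := by
      conv_lhs => rw [← hI_trans a g, e1, map_smul, smul_eq_mul]
    have e3 : (1 - χ.χ a w) * hI g = 0 := by
      rw [sub_mul, one_mul, ← e2, sub_self]
    exact (mul_eq_zero.1 e3).resolve_left (sub_ne_zero.2 (Ne.symm ha'))

private theorem wfrel_key {B : SkewH E V} {p : PChar F} (D : LData B p)
    (hn : 3 ≤ Module.finrank E V) [FiniteDimensional F E] [TotallyDisconnectedSpace E]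
    {m : ℝ} (hm0 : 0 < m)
    (hm : ∀ h : SF E ℂ, ∫ x : Fin 1 → E, h (x 0)
      ∂(MeasureTheory.Measure.pi fun _ => (MeasureTheory.Measure.addHaar :
        MeasureTheory.Measure E)) = m * hI h) (β β₂ : F) (hβ : β ≠ 0)
    (hβ₂ : β₂ ≠ 0) (h2β : β + β₂ ≠ 0) :
    fb D hn (algebraMap F E β) * fb D hn (algebraMap F E β₂) * m *
        kap (nform F E (β + β₂) h2β) p =
      fb D hn (algebraMap F E (β * β₂ / (β + β₂))) := by
  have hβ2 : β * β₂ / (β + β₂) ≠ 0 := div_ne_zero (mul_ne_zero hβ hβ₂) h2β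
  obtain ⟨v, hv, hvv⟩ := exists_value F B hn 0 (by rw [star_zero, neg_zero])
  have hinj := (algebraMap F E).injective
  have ok : ∀ t : F, t ≠ 0 → QRok B v (algebraMap F E t) := fun t ht =>
    ⟨fun h => ht (hinj (by rw [h, map_zero])), by rw [QExt.star_alg, sub_self, hvv]⟩
  set b := nform F E β hβ with hb
  set b2 := nform F E β₂ hβ₂ with hb2
  set b' := nform F E (β * β₂ / (β + β₂)) hβ2 with hb'
  set b'' := nform F E (β + β₂) h2β with hb''
  have r'' : ∀ z, p.ψ (b''.q z) = p.ψ (b2.q z) * p.ψ (b.q z) := fun z => by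
    rw [← p.add]
    congr 1
    show (β + β₂) * _ = β₂ * _ + β * _
    ring
  obtain ⟨L0, hL0o, hL0c, hL0⟩ := gaussapi_kap b'' p
  -- the small open set
  have hW : IsOpen (({z : E | p.ψ (b'.q z) = 1} ∩ {z : E | p.ψ (b.q z) = 1}) ∩
      {z | ∀ x ∈ L0, (b.bi p).χ x z = 1}) :=
    (((b'.lcq p).isOpen_fiber 1).inter ((b.lcq p).isOpen_fiber 1)).inter
      (isOpen_perp (b.bi p) L0 hL0c)
  have hb0 : ∀ (γ : SForm F E) (z : E), γ.b z 0 = 0 := fun γ z => by
    have h1 := γ.smul_right 0 z 0
    rwa [zero_smul, zero_mul] at h1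
  have hψ0 : p.ψ 0 = 1 := gaussdefs_psi_zero p
  have hj : Topology.IsClosedEmbedding (LinearMap.toSpanSingleton E V v) :=
    LinearMap.isClosedEmbedding_of_injective (by
      rw [LinearMap.ker_eq_bot']
      intro x hx
      rw [LinearMap.toSpanSingleton_apply] at hx
      exact (smul_eq_zero.1 hx).resolve_right hv)
  obtain ⟨O, hO, hOW⟩ := hj.isInducing.isOpen_iff.1 hW
  haveI := lc_V E V
  haveI := td_V F E V
  obtain ⟨N, hNo, hNc, hNO⟩ := exists_co_addSubgroup O hO (by
    have h0 : (0 : E) ∈ (LinearMap.toSpanSingleton E V v) ⁻¹' O := by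
      rw [hOW]
      refine ⟨⟨?_, ?_⟩, fun x _ => ?_⟩
      · show p.ψ (b'.q 0) = 1
        rw [b'.q_zero, hψ0]
      · show p.ψ (b.q 0) = 1
        rw [b.q_zero, hψ0]
      · rw [SForm.bi_apply, hb0, hψ0]
    have h1 : (LinearMap.toSpanSingleton E V v) 0 ∈ O := h0
    rwa [map_zero] at h1)
  set K : AddSubgroup E := N.comap (LinearMap.toSpanSingleton E V v).toAddMonoidHom with hKdef
  have hKm : ∀ z : E, z ∈ K ↔ z • v ∈ N := fun z => Iff.rfl
  have hKo : IsOpen (K : Set E) := hNo.preimage hj.continuous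
  have hKc : IsCompact (K : Set E) := hj.isCompact_preimage hNc
  have hKW : ∀ z ∈ K, (p.ψ (b'.q z) = 1 ∧ p.ψ (b.q z) = 1) ∧
      ∀ x ∈ L0, (b.bi p).χ x z = 1 := by
    intro z hz
    have h1 : z ∈ (LinearMap.toSpanSingleton E V v) ⁻¹' O := hNO ((hKm z).1 hz)
    rw [hOW] at h1
    exact h1
  have hvK := hvol_pos (K : Set E) hKc hKo ⟨0, K.zero_mem⟩
  -- the dual group
  set K' : AddSubgroup E :=
    { carrier := {w | ∀ z ∈ K, (b.bi p).χ z w = 1}
      zero_mem' := fun z _ => by rw [SForm.bi_apply, hb0, hψ0]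
      add_mem' := fun {x y} hx hy z hz => by rw [(b.bi p).addr, hx z hz, hy z hz, mul_one]
      neg_mem' := fun {x} hx z hz => by
        have h1 := (b.bi p).addr z x (-x)
        rw [add_neg_cancel, SForm.bi_apply b.toSForm p z 0, hb0, hψ0, hx z hz, one_mul] at h1
        exact h1.symm } with hK'def
  have hK'm : ∀ w : E, w ∈ K' ↔ ∀ z ∈ K, (b.bi p).χ z w = 1 := fun w => Iff.rfl
  have hK'o : IsOpen (K' : Set E) := isOpen_perp (b.bi p) K hKc
  have hK'c : IsCompact (K' : Set E) := (b.bi p).perp K hKo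
  have hLK : L0 ≤ K' := fun x hx z hz => by
    rw [SForm.bi_apply, b.symm]
    exact (hKW z hz).2 x hx
  have hkap := hL0 K' hK'o hK'c hLK
  -- the test function
  set f : SF V ℂ := SF.single (N : Set V) hNc hNo (1 : ℂ) with hf
  have hfv : ∀ z : E, f (-(z • v)) = SF.single (K : Set E) hKc hKo (1 : ℂ) z := by
    intro z
    by_cases hz : z ∈ K
    · rw [SF.single_apply_mem _ _ _ _ _ hz, hf, SF.single_apply_mem]
      exact N.neg_mem ((hKm z).1 hz)
    · rw [SF.single_apply_not_mem _ _ _ _ _ hz, hf, SF.single_apply_not_mem]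
      intro h1
      exact hz ((hKm z).2 (by
        have h2 := N.neg_mem h1
        rwa [neg_neg] at h2))
  have hom0 : ∀ x y : E, bt F B (x • v) (-(y • v) - x • v) = 0 := by
    intro x y
    apply bt_of_ip
    have h1 : -(y • v) - x • v = (-y - x) • v := by module
    rw [h1, B.smul_left, B.smul_right, hvv, mul_zero, mul_zero]
  have hom00 : ∀ x : E, bt F B (x • v) (0 - x • v) = 0 := by
    intro x
    have h1 := hom0 x 0
    rwa [zero_smul, neg_zero] at h1
  -- the square
  set σ := qr B v (algebraMap F E β) (ok β hβ) with hσ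
  set σ₂ := qr B v (algebraMap F E β₂) (ok β₂ hβ₂) with hσ₂
  set τ := qr B v (algebraMap F E (β * β₂ / (β + β₂))) (ok _ hβ2) with hτ
  have hστ : σ₂ * σ = τ := by
    apply Subtype.ext
    apply Units.ext
    apply LinearMap.ext
    intro a
    show σ₂.1.1 (σ.1.1 a) = τ.1.1 a
    rw [hσ, hσ₂, hτ, qr_apply, qr_apply, qr_apply, B.add_left, B.smul_left, hvv, mul_zero,
      add_zero, add_assoc, ← add_smul]
    congr 2
    rw [map_div₀, map_mul, map_add]
    have h1 : algebraMap F E β ≠ 0 := (ok β hβ).1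
    have h2 : algebraMap F E β₂ ≠ 0 := (ok β₂ hβ₂).1
    have h3 : algebraMap F E β + algebraMap F E β₂ ≠ 0 := by
      rw [← map_add]
      exact (ok _ h2β).1
    field_simp
    ring
  have hbσ := (wall_qr v hv _ (ok β hβ)).1
  have hbσ₂ := (wall_qr v hv _ (ok β₂ hβ₂)).1
  have hbτ := (wall_qr v hv _ (ok _ hβ2)).1
  -- the value for τ
  have e1 : Mop B p τ (fun _ : Fin 1 => v) hbτ f 0 = m * hvol (K : Set E) := by
    rw [wfrel_M hm B p v hv _ hβ2 (ok _ hβ2) f 0 (SF.single (K : Set E) hKc hKo (1 : ℂ)) ?_,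
      hI_single, smul_eq_mul, mul_one]
    intro x
    rw [wfrel_L, hom00, hψ0, one_mul, zero_sub, hfv]
    by_cases hx : x ∈ K
    · have h1 : p.ψ ((nform F E (β * β₂ / (β + β₂)) hβ2).q x) = 1 := (hKW x hx).1.1
      rw [h1, one_mul]
    · rw [SF.single_apply_not_mem _ _ _ _ _ hx, mul_zero]
  -- the inner integral
  have e2 : ∀ x : E, Mop B p σ (fun _ : Fin 1 => v) hbσ f (-(x • v)) =
      m * (p.ψ (b.q x) * (hvol (K : Set E) *
        SF.single (K' : Set E) hK'c hK'o (1 : ℂ) x)) := by
    intro x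
    rw [wfrel_M hm B p v hv β hβ (ok β hβ) f (-(x • v))
      (SF.mulc (fun y => p.ψ (b.q y)) (b.lcq p) (SF.comp (Homeomorph.addRight x)
        (SF.single (K : Set E) hKc hKo (1 : ℂ)))) ?_]
    · congr 1
      set g : SF E ℂ := SF.mulc (fun z => (b.bi p).χ z (-x)) ((b.bi p).lcl (-x))
        (SF.single (K : Set E) hKc hKo (1 : ℂ)) with hg
      rw [← hI_trans (-x)]
      have e3 : SF.comp (Homeomorph.addRight (-x))
          (SF.mulc (fun y => p.ψ (b.q y)) (b.lcq p) (SF.comp (Homeomorph.addRight x)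
          (SF.single (K : Set E) hKc hKo (1 : ℂ)))) = p.ψ (b.q x) • g := by
        apply SF.ext
        intro z
        show p.ψ (b.q (z + -x)) * SF.single (K : Set E) hKc hKo (1 : ℂ) (z + -x + x) =
          p.ψ (b.q x) * ((b.bi p).χ z (-x) * SF.single (K : Set E) hKc hKo (1 : ℂ) z)
        rw [neg_add_cancel_right]
        by_cases hz : z ∈ K
        · have e4 : b.q (-x) = b.q x := by
            have h1 := b.q_smul (-1) x
            rw [neg_smul, one_smul] at h1
            rw [h1]
            ring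
          rw [gaussdefs_add_self, (hKW z hz).1.2, e4, SForm.bi_apply]
          ring
        · rw [SF.single_apply_not_mem _ _ _ _ _ hz]
          ring
      rw [e3, map_smul, smul_eq_mul]
      congr 1
      have hgz := wfrel_char (b.bi p) K hKo hKc (-x) g fun z => rfl
      by_cases hx : x ∈ K'
      · rw [SF.single_apply_mem _ _ _ _ _ hx, mul_one]
        exact hgz.1 (K'.neg_mem hx)
      · rw [SF.single_apply_not_mem _ _ _ _ _ hx, mul_zero]
        apply hgz.2
        intro h1
        apply hx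
        have h2 := K'.neg_mem ((hK'm (-x)).2 h1)
        rwa [neg_neg] at h2
    · intro y
      show p.ψ (b.q y) * SF.single (K : Set E) hKc hKo (1 : ℂ) (y + x) = _
      rw [wfrel_L]
      have h1 : -(x • v) - y • v = -((y + x) • v) := by module
      rw [hom0, hψ0, one_mul, ← hfv, h1]
  -- the outer integral
  have e3 : Mop B p σ₂ (fun _ : Fin 1 => v) hbσ₂ (Mop B p σ (fun _ : Fin 1 => v) hbσ f) 0 =
      m * ((m * hvol (K : Set E)) * kap b'' p) := by
    rw [wfrel_M hm B p v hv β₂ hβ₂ (ok β₂ hβ₂) _ 0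
      (((m : ℂ) * hvol (K : Set E)) • gfun b'' p K' hK'o hK'c 0) ?_, map_smul, smul_eq_mul, hkap]
    intro x
    show (m : ℂ) * hvol (K : Set E) * gfun b'' p K' hK'o hK'c 0 x = _
    rw [wfrel_L, hom00, hψ0, one_mul, zero_sub, e2, gaussapi_gfun0, r'']
    ring
  -- conclusion
  have e4 : D.l τ f 0 = fb D hn (algebraMap F E (β * β₂ / (β + β₂))) *
      (m * hvol (K : Set E)) := by
    rw [t_spec D τ _ hbτ, fb_spec D hn _ v hv (ok _ hβ2)]
    show fb D hn (algebraMap F E (β * β₂ / (β + β₂))) * Mop B p τ (fun _ : Fin 1 => v) hbτ f 0 = _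
    rw [e1]
  have e5 : D.l τ f 0 = fb D hn (algebraMap F E β₂) * (fb D hn (algebraMap F E β) *
      (m * ((m * hvol (K : Set E)) * kap b'' p))) := by
    rw [← hστ, map_mul]
    show D.l σ₂ (D.l σ f) 0 = _
    rw [t_spec D σ₂ _ hbσ₂, t_spec D σ _ hbσ, fb_spec D hn _ v hv (ok _ hβ),
      fb_spec D hn _ v hv (ok _ hβ₂)]
    show fb D hn (algebraMap F E β₂) * Mop B p σ₂ (fun _ : Fin 1 => v) hbσ₂
      (fb D hn (algebraMap F E β) • Mop B p σ (fun _ : Fin 1 => v) hbσ f) 0 = _
    rw [map_smul]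
    show fb D hn (algebraMap F E β₂) * (fb D hn (algebraMap F E β) *
      Mop B p σ₂ (fun _ : Fin 1 => v) hbσ₂ (Mop B p σ (fun _ : Fin 1 => v) hbσ f) 0) = _
    rw [e3]
  rw [e4] at e5
  have h6 : ((m : ℂ) * hvol (K : Set E)) ≠ 0 := by
    rw [← Complex.ofReal_mul, Ne, Complex.ofReal_eq_zero]
    exact (mul_pos hm0 hvK).ne'
  refine mul_right_cancel₀ h6 ?_
  rw [e5]
  ring

private theorem wfrel_gauss {B : SkewH E V} {p : PChar F} (D : LData B p)
    (hn : 3 ≤ Module.finrank E V) [FiniteDimensional F E] [TotallyDisconnectedSpace E]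
    {m : ℝ} (hm0 : 0 < m)
    (hm : ∀ h : SF E ℂ, ∫ x : Fin 1 → E, h (x 0)
      ∂(MeasureTheory.Measure.pi fun _ => (MeasureTheory.Measure.addHaar :
        MeasureTheory.Measure E)) = m * hI h) (c : F) (hc : c ≠ 0) :
    fb D hn (algebraMap F E c) * m * kap (nform F E c hc) p = 1 := by
  obtain ⟨g, hg0, hg1⟩ := NormedField.exists_norm_lt_one F
  have hgn : g ≠ 0 := norm_pos_iff.1 hg0
  have hg1' : 1 - g ≠ 0 := by
    intro h0
    have h5 : g = 1 := by linear_combination -h0
    rw [h5, norm_one] at hg1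
    exact lt_irrefl _ hg1
  have hβ : c * g ≠ 0 := mul_ne_zero hc hgn
  have hβ₂ : c * (1 - g) ≠ 0 := mul_ne_zero hc hg1'
  have hcc : c * g + c * (1 - g) = c := by ring
  have h2 : c * g + c * (1 - g) ≠ 0 := by rw [hcc]; exact hc
  have hinj := (algebraMap F E).injective
  have hne : ∀ t : F, t ≠ 0 → algebraMap F E t ≠ 0 := fun t ht h => ht (hinj (by rw [h, map_zero]))
  have h1 := wfrel_key D hn hm0 hm (c * g) (c * (1 - g)) hβ hβ₂ h2
  have hc4 : (c * g) * (c * (1 - g)) / (c * g + c * (1 - g)) ≠ 0 :=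
    div_ne_zero (mul_ne_zero hβ hβ₂) h2
  have h3 := fb_rel D hn (algebraMap F E (c * g)) (algebraMap F E (c * (1 - g)))
    (algebraMap F E ((c * g) * (c * (1 - g)) / (c * g + c * (1 - g)))) (hne _ hβ) (hne _ hβ₂)
    (hne _ hc4)
  have h4 : algebraMap F E (c * g) * algebraMap F E (c * (1 - g)) /
      algebraMap F E ((c * g) * (c * (1 - g)) / (c * g + c * (1 - g))) = algebraMap F E c := by
    rw [← map_mul, ← map_div₀, hcc]
    congr 1
    field_simp
  rw [h4] at h3
  have h5 : kap (nform F E (c * g + c * (1 - g)) h2) p = kap (nform F E c hc) p :=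
    kap_ext _ _ _ fun x => by
      show (c * g + c * (1 - g)) * _ = c * _
      rw [hcc]
  rw [h5, h3] at h1
  have h6 := fb_ne D hn _ (hne _ hc4)
  refine mul_left_cancel₀ h6 ?_
  rw [mul_one]
  conv_rhs => rw [← h1]
  ring

private theorem wfrel_fb {B : SkewH E V} {p : PChar F} (W : WeilRep B p)
    (hn : 3 ≤ Module.finrank E V) (c : F) (hc : c ≠ 0) :
    fb (⟨W.l, W.L_comm, W.R_comm, W.smooth⟩ : LData B p) hn (algebraMap F E c) =
      W.A * ((W.μ (Units.map (algebraMap F E).toMonoidHom (Units.mk0 c hc)) : ℂˣ) : ℂ) := by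
  set D : LData B p := ⟨W.l, W.L_comm, W.R_comm, W.smooth⟩ with hD
  obtain ⟨v, hv, hvv⟩ := exists_value F B hn 0 (by rw [star_zero, neg_zero])
  have hβ : algebraMap F E c ≠ 0 := fun h => hc ((algebraMap F E).injective (by rw [h, map_zero]))
  have ok : QRok B v (algebraMap F E c) := ⟨hβ, by rw [QExt.star_alg, sub_self, hvv]⟩
  have hb := (wall_qr v hv _ ok).1
  obtain ⟨d, hd, hl⟩ := wrbasic_l W (qr B v _ ok) (fun _ : Fin 1 => v) hb
  have hdd : d = Units.map (algebraMap F E).toMonoidHom (Units.mk0 c hc) := by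
    apply Units.ext
    rw [hd, Matrix.det_fin_one]
    show wall B (qr B v _ ok).1 v v = algebraMap F E c
    exact (wall_qr v hv _ ok).2
  rw [← fb_spec D hn _ v hv ok]
  refine (t_unique D _ _ hb _ ?_).symm
  apply LinearMap.ext
  intro f
  show W.l (qr B v _ ok) f = _
  rw [hl, hdd, pow_one]
  rfl

theorem wf_rel [FiniteDimensional F E] [TotallyDisconnectedSpace E] {B : SkewH E V} {p : PChar F}
    (W : WeilRep B p) (hn : 3 ≤ Module.finrank E V) (m : ℝ) (hm : IsWm E m) (c : F) (hc : c ≠ 0) :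
    W.A * ((W.μ (Units.map (algebraMap F E).toMonoidHom (Units.mk0 c hc)) : ℂˣ) : ℂ) * m *
      kap (nform F E c hc) p = 1 := by
  have h1 := wfrel_gauss (⟨W.l, W.L_comm, W.R_comm, W.smooth⟩ : LData B p) hn hm.1 hm.2 c hc
  rwa [wfrel_fb W hn c hc] at h1

/-- two Weil representations with the same `μ` coincide -/
theorem l_of_mu {B : SkewH E V} {p : PChar F} (W W' : WeilRep B p)
    (hn : 3 ≤ Module.finrank E V) (hμ : W.μ = W'.μ) : W.l = W'.l := by
  haveI : FiniteDimensional F E := qext_findim F E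
  haveI : TotallyDisconnectedSpace E := td_E F
  obtain ⟨m, hm⟩ := exists_wm E
  have h1 := wf_rel W hn m hm 1 one_ne_zero
  have h2 := wf_rel W' hn m hm 1 one_ne_zero
  rw [← hμ] at h2
  refine l_of_formula W W' ?_ hμ
  have hne : ((W.μ (Units.map (algebraMap F E).toMonoidHom (Units.mk0 (1 : F) one_ne_zero)) : ℂˣ) : ℂ) *
      m * kap (nform F E (1 : F) one_ne_zero) p ≠ 0 := by
    intro h0
    have h3 : W.A * (((W.μ (Units.map (algebraMap F E).toMonoidHom
        (Units.mk0 (1 : F) one_ne_zero)) : ℂˣ) : ℂ) *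
      m * kap (nform F E (1 : F) one_ne_zero) p) = 1 := by rw [← h1]; ring
    rw [h0, mul_zero] at h3
    exact zero_ne_one h3
  refine mul_right_cancel₀ hne ?_
  linear_combination h1 - h2

end

end Pool.Agent.Work.MP_dd0ddf_al.C2
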