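import Pool.Agent.Work.MP_dd0ddf_al.C2.WrBasic

/-!
# MP_dd0ddf_al, module WrForm: formula for r(h)

`r(h) f (v) = A^r μ(det W_{h⁻¹}(b)) ∫ ψ(½ Tr ∑ x_i star x_j W_{h⁻¹}(b_i, b_j)) R_{x·b} f (v) dx`, b a basis of R_h = R_{h⁻¹}.
Choose τ (exists_tau).  `r(h) = tneg l(τhτ) tneg` (tneg_l, tneg_tneg).  `τ b_i` is a basis of `R_{τhτ}`; formula for `l(τhτ)`; `L_u (tneg f)(-τv) = R_{-τu} f(v)`; substitute `x → - star x` (vI_star and x → -x); `W_{τhτ}(τ b_i, τ b_j) = W_{h⁻¹}(b_j, b_i)` (same computation as in WrBasic, tneg_l), transposed matrix, same determinant.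
-/

set_option linter.unusedSectionVars false
set_option linter.style.haveILetI false

namespace Pool.Agent.Work.MP_dd0ddf_al.C2

noncomputable section

universe u

variable {F E : Type u} [NontriviallyNormedField F] [IsUltrametricDist F] [ProperSpace F]
  [CharP F 2] [NontriviallyNormedField E] [NormedAlgebra F E] [ProperSpace E] [StarRing E]
  [QExt F E] [Dl E] [MeasurableSpace E] [BorelSpace E]
variable {V : Type u} [AddCommGroup V] [Module E V] [Module.Finite E V] [TopologicalSpace V]
  [IsTopologicalAddGroup V] [T2Space V] [ContinuousSMul E V]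

private theorem wrform_tau_neg {B : SkewH E V} (τ : AntiU B) (v : V) :
    τ.t (-v) = -τ.t v := by
  have := τ.smul (-1) v
  simpa only [neg_smul, one_smul, star_neg, star_one] using this

private theorem wrform_tau_zero {B : SkewH E V} (τ : AntiU B) : τ.t 0 = 0 := by
  have := τ.smul 0 0
  rwa [zero_smul, star_zero, zero_smul] at this

private theorem wrform_tau_sub {B : SkewH E V} (τ : AntiU B) (v w : V) :
    τ.t (v - w) = τ.t v - τ.t w := by
  rw [sub_eq_add_neg, τ.add, wrform_tau_neg, sub_eq_add_neg]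

private theorem wrform_om_neg_right (B : SkewH E V) (x y : V) :
    om F B x (-y) = - om F B x y := by
  have h0 : om F B x 0 = 0 := by
    have := om_add_right (F := F) B x 0 0
    rw [add_zero] at this
    exact left_eq_add.1 this
  have h := om_add_right (F := F) B x y (-y)
  rw [add_neg_cancel, h0] at h
  linear_combination -h

private theorem wrform_om_neg_left (B : SkewH E V) (x y : V) :
    om F B (-x) y = - om F B x y := by
  rw [om_swap B y (-x), wrform_om_neg_right, om_swap B x y, neg_neg]

private theorem wrform_om_tau {B : SkewH E V} (τ : AntiU B) (x v : V) :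
    om F B x (τ.t v) = om F B v (τ.t x) := by
  unfold om
  have h := τ.ip (τ.t x) v
  rw [τ.inv] at h
  rw [h]

private theorem wrform_bt_tau' {B : SkewH E V} (τ : AntiU B) (x v : V) :
    bt F B (τ.t v) x = bt F B (τ.t x) v := by
  unfold bt
  have h := τ.ip v (τ.t x)
  rw [τ.inv] at h
  rw [h]

private theorem wrform_tneg_R {B : SkewH E V} (τ : AntiU B) (p : PChar F) (x : V)
    (f : SF V ℂ) : tneg F τ (Rop B p x f) = Lop B p (-τ.t x) (tneg F τ f) := by
  apply SF.ext
  intro v
  show p.ψ (bt F B (-τ.t v - x) x) * f (-τ.t v - x) =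
    p.ψ (bt F B (-τ.t x) (v - -τ.t x)) * f (-τ.t (v - -τ.t x))
  have h1 : -τ.t v - x = -τ.t (v - -τ.t x) := by
    rw [wrform_tau_sub, wrform_tau_neg, τ.inv]
    abel
  rw [h1, bt_neg_left, bt_neg_left, wrform_bt_tau']

private theorem wrform_sum_tau {B : SkewH E V} (τ : AntiU B) {r : ℕ} (b : Fin r → V)
    (y : Fin r → E) : ∑ i, y i • τ.t (b i) = τ.t (∑ i, star (y i) • b i) := by
  classical
  have h1 : ∀ s : Finset (Fin r), τ.t (∑ i ∈ s, star (y i) • b i) = ∑ i ∈ s, y i • τ.t (b i) := by
    intro s
    induction s using Finset.induction_on with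
    | empty => rw [Finset.sum_empty, Finset.sum_empty, wrform_tau_zero]
    | insert a s ha ih =>
      rw [Finset.sum_insert ha, Finset.sum_insert ha, τ.add, τ.smul, star_star, ih]
  exact (h1 _).symm

private theorem wrform_ip_sub_left (B : SkewH E V) (a b w : V) :
    B.ip (a - b) w = B.ip a w - B.ip b w := by
  have h := B.smul_left (-1) b w
  rw [neg_smul, one_smul] at h
  rw [sub_eq_add_neg, B.add_left, h]
  ring

private theorem wrform_ip_sub_right (B : SkewH E V) (a b w : V) :
    B.ip w (a - b) = B.ip w a - B.ip w b := by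
  have h := B.smul_right (-1) w b
  rw [neg_smul, one_smul, star_neg, star_one] at h
  rw [sub_eq_add_neg, B.add_right, h]
  ring

/-- the Wall form of `τ h τ` -/
private theorem wrform_basis {B : SkewH E V} (τ : AntiU B) (h : UU B) {r : ℕ} (b : Fin r → V)
    (hb : IsRBasis h.1 b) : IsRBasis (tauU τ h).1 (fun i => τ.t (b i)) ∧
      ∀ i j, wall B (tauU τ h).1 (τ.t (b i)) (τ.t (b j)) = wall B h⁻¹.1 (b j) (b i) := by
  classical
  have him : ∀ x, h.1⁻¹.1 (h.1.1 x) = x := fun x =>
    congrArg (fun f : Module.End E V => f x) h.1.inv_mul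
  have hk : ∀ v, (tauU τ h).1.1 v = τ.t (h.1.1 (τ.t v)) := fun v => rfl
  have hmem : ∀ i, b i ∈ LinearMap.range (h.1.1 - 1) := fun i => by
    rw [← hb.2]
    exact Submodule.subset_span ⟨i, rfl⟩
  choose a ha using fun i => (show ∃ a, h.1.1 a - a = b i from hmem i)
  have key : ∀ u a : V, h.1.1 a - a = u →
      (tauU τ h).1.1 (τ.t a) - τ.t a = τ.t u := by
    intro u a hu
    rw [hk, τ.inv, ← wrform_tau_sub, ← hu]
  have hrange : ∀ y, y ∈ LinearMap.range ((tauU τ h).1.1 - 1) ↔
      τ.t y ∈ LinearMap.range (h.1.1 - 1) := by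
    intro y
    constructor
    · rintro ⟨c, rfl⟩
      refine ⟨τ.t c, ?_⟩
      show h.1.1 (τ.t c) - τ.t c = τ.t ((tauU τ h).1.1 c - c)
      rw [hk, wrform_tau_sub, τ.inv]
    · rintro ⟨c, hc⟩
      have h1 := key (τ.t y) c hc
      rw [τ.inv] at h1
      exact ⟨_, h1⟩
  refine ⟨⟨?_, ?_⟩, ?_⟩
  · rw [Fintype.linearIndependent_iff]
    intro y hy i
    rw [wrform_sum_tau] at hy
    have h1 : ∑ i, star (y i) • b i = 0 := by
      rw [← τ.inv (∑ i, star (y i) • b i), hy, wrform_tau_zero]
    have h2 := Fintype.linearIndependent_iff.1 hb.1 (fun i => star (y i)) h1 i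
    rw [← star_star (y i)]
    have h3 : star (y i) = 0 := h2
    rw [h3, star_zero]
  · ext y
    rw [hrange, ← hb.2, Submodule.mem_span_range_iff_exists_fun,
      Submodule.mem_span_range_iff_exists_fun]
    constructor
    · rintro ⟨c, hc⟩
      refine ⟨fun i => star (c i), ?_⟩
      rw [← hc, wrform_sum_tau, τ.inv]
    · rintro ⟨c, hc⟩
      refine ⟨fun i => star (c i), ?_⟩
      rw [wrform_sum_tau]
      simp only [star_star]
      rw [hc, τ.inv]
  · intro i j
    have hinv : ∀ j, h⁻¹.1.1 (-(h.1.1 (a j))) - -(h.1.1 (a j)) = b j := by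
      intro j
      have h3 : h⁻¹.1.1 (-(h.1.1 (a j))) = -(a j) := by
        show h.1⁻¹.1 (-(h.1.1 (a j))) = -(a j)
        rw [map_neg, him]
      rw [h3, ← ha j]
      abel
    rw [wall_eq (tauU τ h) (key (b i) (a i) (ha i)) ((hrange _).2 (by
        rw [τ.inv]
        exact hmem j)), wall_eq h⁻¹ (hinv j) ⟨_, hinv i⟩, τ.ip]
    have h1 := h.2 (a j) (a i)
    have h2 : B.ip (-(h.1.1 (a j))) (b i) = -(B.ip (h.1.1 (a j)) (b i)) := by
      have := B.smul_left (-1) (h.1.1 (a j)) (b i)
      rw [neg_smul, one_smul] at this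
      rw [this]
      ring
    rw [h2, ← ha i, ← ha j, wrform_ip_sub_left, wrform_ip_sub_right, h1]
    ring

variable (F) in
include F in
/-- `x ↦ -star x` preserves Haar measure -/
private theorem wrform_mp : MeasureTheory.MeasurePreserving (fun x : E => -star x)
    (MeasureTheory.Measure.addHaar : MeasureTheory.Measure E)
    (MeasureTheory.Measure.addHaar : MeasureTheory.Measure E) := by
  have hc : Continuous (fun x : E => -star x) := (continuous_star_E F E).neg
  let e : E ≃+ E :=
    { toFun := fun x => -star x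
      invFun := fun x => -star x
      left_inv := fun x => by
        show -star (-star x) = x
        rw [star_neg, star_star, neg_neg]
      right_inv := fun x => by
        show -star (-star x) = x
        rw [star_neg, star_star, neg_neg]
      map_add' := fun x y => by
        show -star (x + y) = -star x + -star y
        rw [star_add, neg_add] }
  haveI h1 : (MeasureTheory.Measure.map e
      (MeasureTheory.Measure.addHaar : MeasureTheory.Measure E)).IsAddHaarMeasure :=
    AddEquiv.isAddHaarMeasure_map _ e hc hc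
  have hmap := MeasureTheory.Measure.isAddLeftInvariant_eq_smul
    (MeasureTheory.Measure.map e (MeasureTheory.Measure.addHaar : MeasureTheory.Measure E))
    (MeasureTheory.Measure.addHaar : MeasureTheory.Measure E)
  set c : NNReal := MeasureTheory.Measure.addHaarScalarFactor
    (MeasureTheory.Measure.map e (MeasureTheory.Measure.addHaar : MeasureTheory.Measure E))
    (MeasureTheory.Measure.addHaar : MeasureTheory.Measure E) with hcdef
  have h2 : MeasureTheory.Measure.map e
      (MeasureTheory.Measure.addHaar : MeasureTheory.Measure E) (Metric.closedBall 0 1) =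
      (MeasureTheory.Measure.addHaar : MeasureTheory.Measure E) (Metric.closedBall 0 1) := by
    have hem : Measurable e := hc.measurable
    rw [MeasureTheory.Measure.map_apply hem Metric.isClosed_closedBall.measurableSet]
    congr 1
    ext x
    rw [Set.mem_preimage, mem_closedBall_zero_iff, mem_closedBall_zero_iff]
    show ‖-star x‖ ≤ 1 ↔ ‖x‖ ≤ 1
    rw [norm_neg, norm_star_eq F E]
  have h3 : (MeasureTheory.Measure.addHaar : MeasureTheory.Measure E) (Metric.closedBall 0 1) ≠ 0 :=
    (Metric.measure_closedBall_pos _ _ one_pos).ne'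
  have h4 : (MeasureTheory.Measure.addHaar : MeasureTheory.Measure E) (Metric.closedBall 0 1) ≠ ⊤ :=
    (isCompact_closedBall (0 : E) 1).measure_lt_top.ne
  have h5 : c = 1 := by
    rw [hmap, MeasureTheory.Measure.smul_apply, ENNReal.smul_def, smul_eq_mul] at h2
    have h6 : (c : ENNReal) * (MeasureTheory.Measure.addHaar : MeasureTheory.Measure E)
        (Metric.closedBall 0 1) = 1 * (MeasureTheory.Measure.addHaar : MeasureTheory.Measure E)
        (Metric.closedBall 0 1) := by rw [h2, one_mul]
    have h7 := (ENNReal.mul_left_inj h3 h4).1 h6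
    exact_mod_cast h7
  rw [h5, one_smul] at hmap
  exact ⟨hc.measurable, hmap⟩

variable (F) in
include F in
private theorem wrform_int (r : ℕ) (G : (Fin r → E) → ℂ) :
    ∫ x : Fin r → E, G (fun i => -star (x i)) ∂(MeasureTheory.Measure.pi fun _ =>
      (MeasureTheory.Measure.addHaar : MeasureTheory.Measure E)) =
    ∫ x : Fin r → E, G x ∂(MeasureTheory.Measure.pi fun _ =>
      (MeasureTheory.Measure.addHaar : MeasureTheory.Measure E)) := by
  have hc : Continuous (fun x : Fin r → E => fun i => -star (x i)) :=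
    continuous_pi fun i => ((continuous_star_E F E).comp (continuous_apply i)).neg
  have h1 : MeasureTheory.MeasurePreserving (fun x : Fin r → E => fun i => -star (x i))
      (MeasureTheory.Measure.pi fun _ =>
        (MeasureTheory.Measure.addHaar : MeasureTheory.Measure E))
      (MeasureTheory.Measure.pi fun _ =>
        (MeasureTheory.Measure.addHaar : MeasureTheory.Measure E)) :=
    MeasureTheory.measurePreserving_pi _ _ fun _ => wrform_mp F
  let σ : (Fin r → E) ≃ᵐ (Fin r → E) :=
    { toFun := fun x i => -star (x i)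
      invFun := fun x i => -star (x i)
      left_inv := fun x => funext fun i => by
        show -star (-star (x i)) = x i
        rw [star_neg, star_star, neg_neg]
      right_inv := fun x => funext fun i => by
        show -star (-star (x i)) = x i
        rw [star_neg, star_star, neg_neg]
      measurable_toFun := hc.measurable
      measurable_invFun := hc.measurable }
  exact MeasureTheory.MeasurePreserving.integral_comp' (f := σ) h1 G

theorem r_formula {B : SkewH E V} {p : PChar F} (W : WeilRep B p) (h : UU B) (r : ℕ)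
    (b : Fin r → V) (hb : IsRBasis h.1 b) :
    ∃ d : Eˣ, (d : E) = (wallM B h⁻¹.1 b).det ∧ ∀ (f : SF V ℂ) (v : V),
      W.r h f v = W.A ^ r * ((W.μ d : ℂˣ) : ℂ) *
        ∫ x : Fin r → E, p.ψ (Algebra.trace F E
            (star Dl.d * ∑ i, ∑ j, x i * star (x j) * wall B h⁻¹.1 (b i) (b j))) *
          Rop B p (∑ i, x i • b i) f v
          ∂(MeasureTheory.Measure.pi fun _ => (MeasureTheory.Measure.addHaar :
            MeasureTheory.Measure E)) := by
  obtain ⟨τ⟩ := exists_tau B (QExt.nontriv (F := F) (E := E))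
  obtain ⟨hb', hw⟩ := wrform_basis τ h b hb
  obtain ⟨d, hd, hf⟩ := W.formula (tauU τ h) r _ hb'
  have hM : wallM B (tauU τ h).1 (fun i => τ.t (b i)) = (wallM B h⁻¹.1 b).transpose := by
    ext i j
    exact hw i j
  refine ⟨d, by rw [hd, hM, Matrix.det_transpose], fun f v => ?_⟩
  have h1 : W.r h f = tneg F τ (W.l (tauU τ h) (tneg F τ f)) := by
    have h2 : tneg F τ (W.l (tauU τ h) (tneg F τ f)) =
        W.r (tauU τ (tauU τ h)) (tneg F τ (tneg F τ f)) :=
      congrArg (fun T : SF V ℂ →ₗ[ℂ] SF V ℂ => T (tneg F τ f)) (tneg_l W τ (tauU τ h))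
    rw [h2, tauU_tauU, tneg_tneg]
  rw [h1]
  show W.l (tauU τ h) (tneg F τ f) (-τ.t v) = _
  rw [hf]
  congr 1
  refine Eq.trans ?_ (wrform_int F r _)
  refine MeasureTheory.integral_congr_ae (Filter.Eventually.of_forall fun x => ?_)
  show p.ψ (Algebra.trace F E (star Dl.d *
      ∑ i, ∑ j, x i * star (x j) * wall B (tauU τ h).1 (τ.t (b i)) (τ.t (b j)))) *
      Lop B p (∑ i, x i • τ.t (b i)) (tneg F τ f) (-τ.t v) =
    p.ψ (Algebra.trace F E (star Dl.d *
      ∑ i, ∑ j, (-star (x i)) * star (-star (x j)) * wall B h⁻¹.1 (b i) (b j))) *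
      Rop B p (∑ i, (-star (x i)) • b i) f v
  have e1 : (∑ i, ∑ j, x i * star (x j) * wall B (tauU τ h).1 (τ.t (b i)) (τ.t (b j))) =
      ∑ i, ∑ j, (-star (x i)) * star (-star (x j)) * wall B h⁻¹.1 (b i) (b j) := by
    rw [Finset.sum_comm]
    refine Finset.sum_congr rfl fun i _ => Finset.sum_congr rfl fun j _ => ?_
    rw [hw, star_neg, star_star]
    ring
  have e2 : ∑ i, x i • τ.t (b i) = -τ.t (∑ i, (-star (x i)) • b i) := by
    rw [wrform_sum_tau, ← wrform_tau_neg, ← Finset.sum_neg_distrib]
    simp only [neg_smul, neg_neg]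
  rw [e1, e2, ← wrform_tneg_R]
  congr 1
  show Rop B p (∑ i, (-star (x i)) • b i) f (-τ.t (-τ.t v)) = _
  rw [wrform_tau_neg, τ.inv, neg_neg]

end

end Pool.Agent.Work.MP_dd0ddf_al.C2
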