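import Pool.Agent.Work.MP_dd0ddf_al.C2.XDefs
import Pool.Agent.Work.MP_dd0ddf_al.C2.FdOrbit

/-!
# MP_dd0ddf_al (characteristic 2), module XData: the two fibrations of X as descent data, and their symmetries

`xA`: X → Sigma x Sigma, (c1, g) ↦ (c1, g⁻¹ c1 g).  `xB`: X → Y, (c1, g) ↦ g.
`symA`: Θ(c1, g) = (τ c2 τ, θ(g)), fibre over (X0, X0), τ commutes with X0: `piA (Θ x) = (τ c2 τ, τ c1 τ)` (rot_th).  compX: xTh_act; compB: tneg_l, tneg_r, l_r_comm (see Theta_act in WrRep).  stb: γ.1 X0 γ.1⁻¹ = X0 iff (τ γ.1 τ) X0 (τ γ.1 τ)⁻¹ = X0.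
`symB`: Θ followed by the action of (1, k), fibre over g0, `θ(g0) = g0 k`; all formulas are those of the DSym in `grp_desc` (module GrpDesc: grpdesc_G, grpdesc_comp, grpdesc_B, private: copy).  fib: θ(g) k⁻¹ = g0 iff θ(g) = θ(g0) iff g = g0.
stb: `γ ∈ stab` iff `h1 g0 = g0 h2`.  Let a' = tauU τ a.  θ(g0) = g0 k gives (apply θ) `k' g0 = g0 k`.  If h1 g0 = g0 h2 then applying θ: `θ(g0) h1'⁻¹ = h2'⁻¹ θ(g0)`, so `h2' g0 k = g0 k h1'`, and sΓ(γ) = (k'⁻¹ h2' k', h1'): `k'⁻¹ h2' k' g0 = k'⁻¹ h2' g0 k = k'⁻¹ g0 k h1' = g0 h1'`.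
The converse: `sΓ (sΓ γ) = (k', k)⁻¹ γ (k', k)` and (k', k) ∈ stab (see the end of grp_desc).
-/

set_option linter.unusedSectionVars false
set_option linter.style.haveILetI false

namespace Pool.Agent.Work.MP_dd0ddf_al.C2

noncomputable section

universe u

variable {F E : Type u} [NontriviallyNormedField F] [IsUltrametricDist F] [ProperSpace F]
  [CharP F 2] [NontriviallyNormedField E] [NormedAlgebra F E] [ProperSpace E] [StarRing E]
  [QExt F E] [Dl E] [MeasurableSpace E] [BorelSpace E]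
variable {V : Type u} [AddCommGroup V] [Module E V] [Module.Finite E V] [TopologicalSpace V]
  [IsTopologicalAddGroup V] [T2Space V] [ContinuousSMul E V]

theorem lc_SigQ2 (B : SkewH E V) (q : Polynomial F) :
    LocallyCompactSpace (SigQ B q × SigQ B q) := by
  haveI := lc_SA F B
  haveI : LocallyCompactSpace (SigQ B q) :=
    (sigq_closed B q).isClosedEmbedding_subtypeVal.locallyCompactSpace
  infer_instance

theorem td_SigQ2 (B : SkewH E V) (q : Polynomial F) :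
    TotallyDisconnectedSpace (SigQ B q × SigQ B q) := by
  haveI := td_SA F B
  infer_instance

theorem lc_YS (B : SkewH E V) (q : Polynomial F) : LocallyCompactSpace (YS B q) :=
  (ys_closed B q).isClosedEmbedding_subtypeVal.locallyCompactSpace

/-- the action on Y -/
def yC (B : SkewH E V) (q : Polynomial F) : CAct (UU B × UU B) (YS B q) :=
  (gC B).sub (YS B q) (ys_gC B q)

/-- fibration A -/
def xA {B : SkewH E V} {p : PChar F} (W : WeilRep B p) (q1 q2 : Polynomial F) (hq1 : q1.Monic)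
    (hirr1 : Irreducible (q1.map (algebraMap F E))) (o : SigQ B q1 × SigQ B q1) :
    DescData (UU B × UU B) (XS B q1 q2) (SigQ B q1 × SigQ B q1) (SF V ℂ) where
  A := xC B q1 q2
  C := sqC B q1
  R := wRep W
  π := piA B q1 q2
  hπ := piA_cont B q1 q2
  eqv γ x := Prod.ext (Subtype.ext rfl) (Subtype.ext (rot_act B q1 q2 γ x))
  o := o
  tr := sqC_trans B q1 hq1 hirr1 o
  opn := by
    haveI := lc_UU F B
    haveI := lc_SigQ2 B q1
    exact orbit_map_open (sqC B q1) o (sqC_trans B q1 hq1 hirr1 o)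

/-- fibration B -/
def xB {B : SkewH E V} {p : PChar F} (W : WeilRep B p) (q1 q2 : Polynomial F) (hq2 : q2.Monic)
    (hirr2 : Irreducible (q2.map (algebraMap F E))) (o : YS B q2) :
    DescData (UU B × UU B) (XS B q1 q2) (YS B q2) (SF V ℂ) where
  A := xC B q1 q2
  C := yC B q2
  R := wRep W
  π := piB B q1 q2
  hπ := piB_cont B q1 q2
  eqv γ x := Subtype.ext rfl
  o := o
  tr y := by
    obtain ⟨γ, hγ⟩ := ys_trans B q2 hq2 hirr2 o.1 y.1 o.2 y.2
    exact ⟨γ, Subtype.ext hγ⟩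
  opn := by
    haveI := lc_UU F B
    haveI := lc_YS B q2
    exact orbit_map_open (yC B q2) o (fun y => by
      obtain ⟨γ, hγ⟩ := ys_trans B q2 hq2 hirr2 o.1 y.1 o.2 y.2
      exact ⟨γ, Subtype.ext hγ⟩)

private theorem xdata_tone {B : SkewH E V} (τ : AntiU B) : tauU τ 1 = 1 := by
  apply Subtype.ext
  apply Units.ext
  exact conjτ_one τ

private theorem xdata_tinv {B : SkewH E V} (τ : AntiU B) (h : UU B) :
    tauU τ h⁻¹ = (tauU τ h)⁻¹ := by
  refine eq_inv_of_mul_eq_one_left ?_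
  rw [← tauU_mul, inv_mul_cancel, xdata_tone]

private theorem xdata_thinv {B : SkewH E V} (τ : AntiU B) (h : UU B) :
    thG τ (h.1⁻¹) = (tauU τ h).1 := by
  have h1 := thG_UU τ h⁻¹
  rw [xdata_tinv] at h1
  have h2 : (((tauU τ h)⁻¹ : UU B) : GV E V)⁻¹ = (tauU τ h).1 := by
    rw [Subgroup.coe_inv, inv_inv]
  rw [h2] at h1
  exact h1

/-- the automorphism of the group, fibration A -/
private def xdata_GA {B : SkewH E V} (τ : AntiU B) : (UU B × UU B) ≃* (UU B × UU B) where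
  toFun γ := (tauU τ γ.2, tauU τ γ.1)
  invFun γ := (tauU τ γ.2, tauU τ γ.1)
  left_inv γ := Prod.ext (tauU_tauU τ γ.1) (tauU_tauU τ γ.2)
  right_inv γ := Prod.ext (tauU_tauU τ γ.1) (tauU_tauU τ γ.2)
  map_mul' γ γ' := Prod.ext (tauU_mul τ γ.2 γ'.2) (tauU_mul τ γ.1 γ'.1)

variable (F) in
include F in
private theorem xdata_GAc {B : SkewH E V} (τ : AntiU B) : Continuous (xdata_GA τ) :=
  ((continuous_tauU F τ).comp continuous_snd).prodMk
    ((continuous_tauU F τ).comp continuous_fst)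

/-- the automorphism of the group, fibration B -/
private def xdata_G {B : SkewH E V} (τ : AntiU B) (k : UU B) :
    (UU B × UU B) ≃* (UU B × UU B) where
  toFun γ := (tauU τ (k⁻¹ * γ.2 * k), tauU τ γ.1)
  invFun γ := (tauU τ γ.2, k * tauU τ γ.1 * k⁻¹)
  left_inv γ := by
    apply Prod.ext
    · exact tauU_tauU τ γ.1
    · show k * tauU τ (tauU τ (k⁻¹ * γ.2 * k)) * k⁻¹ = γ.2
      rw [tauU_tauU]
      group
  right_inv γ := by
    apply Prod.ext
    · show tauU τ (k⁻¹ * (k * tauU τ γ.1 * k⁻¹) * k) = γ.1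
      have h1 : k⁻¹ * (k * tauU τ γ.1 * k⁻¹) * k = tauU τ γ.1 := by group
      rw [h1, tauU_tauU]
    · exact tauU_tauU τ γ.2
  map_mul' γ γ' := by
    apply Prod.ext
    · show tauU τ (k⁻¹ * (γ.2 * γ'.2) * k) = tauU τ (k⁻¹ * γ.2 * k) * tauU τ (k⁻¹ * γ'.2 * k)
      rw [← tauU_mul]
      congr 1
      group
    · exact tauU_mul τ γ.1 γ'.1

variable (F) in
include F in
private theorem xdata_Gc {B : SkewH E V} (τ : AntiU B) (k : UU B) :
    Continuous (xdata_G τ k) :=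
  ((continuous_tauU F τ).comp ((continuous_const.mul continuous_snd).mul
    continuous_const)).prodMk ((continuous_tauU F τ).comp continuous_fst)

variable (F) in
include F in
private theorem xdata_Gc' {B : SkewH E V} (τ : AntiU B) (k : UU B) :
    Continuous (xdata_G τ k).symm :=
  ((continuous_tauU F τ).comp continuous_snd).prodMk ((continuous_const.mul
    ((continuous_tauU F τ).comp continuous_fst)).mul continuous_const)

private theorem xdata_BA {B : SkewH E V} {p : PChar F} (W : WeilRep B p) (τ : AntiU B)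
    (γ : UU B × UU B) (b : SF V ℂ) :
    tneg F τ ((wRep W).β γ b) = (wRep W).β (xdata_GA τ γ) (tneg F τ b) := by
  show tneg F τ (W.l γ.1 (W.r γ.2 b)) = W.l (tauU τ γ.2) (W.r (tauU τ γ.1) (tneg F τ b))
  have hl : ∀ (h : UU B) (f : SF V ℂ), tneg F τ (W.l h f) = W.r (tauU τ h) (tneg F τ f) :=
    fun h f => congrArg (fun T : SF V ℂ →ₗ[ℂ] SF V ℂ => T f) (tneg_l W τ h)
  have hr : ∀ (h : UU B) (f : SF V ℂ), tneg F τ (W.r h f) = W.l (tauU τ h) (tneg F τ f) :=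
    fun h f => congrArg (fun T : SF V ℂ →ₗ[ℂ] SF V ℂ => T f) (tneg_r W τ h)
  have hc : ∀ (g h : UU B) (f : SF V ℂ), W.l g (W.r h f) = W.r h (W.l g f) :=
    fun g h f => congrArg (fun T : SF V ℂ →ₗ[ℂ] SF V ℂ => T f) (l_r_comm W g h)
  rw [hl, hr, hc]

private theorem xdata_B {B : SkewH E V} {p : PChar F} (W : WeilRep B p) (τ : AntiU B)
    (k : UU B) (γ : UU B × UU B) (b : SF V ℂ) :
    tneg F τ (W.r k⁻¹ ((wRep W).β γ b)) =
      (wRep W).β (xdata_G τ k γ) (tneg F τ (W.r k⁻¹ b)) := by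
  show tneg F τ (W.r k⁻¹ (W.l γ.1 (W.r γ.2 b))) =
    W.l (tauU τ (k⁻¹ * γ.2 * k)) (W.r (tauU τ γ.1) (tneg F τ (W.r k⁻¹ b)))
  have hl : ∀ (h : UU B) (f : SF V ℂ), tneg F τ (W.l h f) = W.r (tauU τ h) (tneg F τ f) :=
    fun h f => congrArg (fun T : SF V ℂ →ₗ[ℂ] SF V ℂ => T f) (tneg_l W τ h)
  have hr : ∀ (h : UU B) (f : SF V ℂ), tneg F τ (W.r h f) = W.l (tauU τ h) (tneg F τ f) :=
    fun h f => congrArg (fun T : SF V ℂ →ₗ[ℂ] SF V ℂ => T f) (tneg_r W τ h)
  have hc : ∀ (g h : UU B) (f : SF V ℂ), W.l g (W.r h f) = W.r h (W.l g f) :=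
    fun g h f => congrArg (fun T : SF V ℂ →ₗ[ℂ] SF V ℂ => T f) (l_r_comm W g h)
  have hrm : ∀ (g h : UU B) (f : SF V ℂ), W.r g (W.r h f) = W.r (g * h) f := fun g h f =>
    (congrArg (fun T : SF V ℂ →ₗ[ℂ] SF V ℂ => T f) (r_mul W g h)).symm
  have hlm : ∀ (g h : UU B) (f : SF V ℂ), W.l g (W.l h f) = W.l (g * h) f := fun g h f => by
    rw [map_mul]
    rfl
  rw [← hc, hrm, hl, hr, hr, hc (tauU τ (k⁻¹ * γ.2 * k)), hlm, ← tauU_mul]
  congr 3
  group

private theorem xdata_saConj_tau {B : SkewH E V} (τ : AntiU B) (h : UU B) (X : SA B) :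
    saConj B (tauU τ h) (saTau F τ X) = saTau F τ (saConj B h X) := by
  apply Subtype.ext
  show conjτ τ h.1.1 * conjτ τ X.1 * conjτ τ h.1⁻¹.1 = conjτ τ (h.1.1 * X.1 * h.1⁻¹.1)
  rw [conjτ_mul, conjτ_mul]

private theorem xdata_saTau_saTau {B : SkewH E V} (τ : AntiU B) (X : SA B) :
    saTau F τ (saTau F τ X) = X := Subtype.ext (conjτ_conjτ τ X.1)

/-- symmetry of fibration A -/
theorem exists_symA {B : SkewH E V} {p : PChar F} (W : WeilRep B p) (q1 q2 : Polynomial F)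
    (hq1 : q1.Monic) (hirr1 : Irreducible (q1.map (algebraMap F E))) (X₀ : SigQ B q1)
    (τ : AntiU B) (hτ : saTau F τ X₀.1 = X₀.1) :
    ∃ s : (xA W q1 q2 hq1 hirr1 (X₀, X₀)).DSym, s.sX = xTh τ q1 q2 ∧ s.sB = tneg F τ := by
  have hconj : ∀ h : UU B, saConj B h X₀.1 = X₀.1 → saConj B (tauU τ h) X₀.1 = X₀.1 := by
    intro h h1
    have h2 := xdata_saConj_tau (F := F) τ h X₀.1
    rw [hτ, h1, hτ] at h2
    exact h2
  have hst : ∀ γ : UU B × UU B, γ ∈ (xA W q1 q2 hq1 hirr1 (X₀, X₀)).stab ↔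
      saConj B γ.1 X₀.1 = X₀.1 ∧ saConj B γ.2 X₀.1 = X₀.1 := by
    intro γ
    constructor
    · intro h
      have h1 : (sqC B q1).act γ (X₀, X₀) = (X₀, X₀) := h
      exact ⟨congrArg (fun z : SigQ B q1 × SigQ B q1 => z.1.1) h1,
        congrArg (fun z : SigQ B q1 × SigQ B q1 => z.2.1) h1⟩
    · rintro ⟨h1, h2⟩
      show (sqC B q1).act γ (X₀, X₀) = (X₀, X₀)
      exact Prod.ext (Subtype.ext h1) (Subtype.ext h2)
  have hfibm : ∀ x : XS B q1 q2, piA B q1 q2 x = (X₀, X₀) ↔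
      x.1.1 = X₀.1 ∧ (rot B q1 q2 x).1 = X₀.1 := by
    intro x
    constructor
    · intro h
      exact ⟨congrArg (fun z : SigQ B q1 × SigQ B q1 => z.1.1) h,
        congrArg (fun z : SigQ B q1 × SigQ B q1 => z.2.1) h⟩
    · rintro ⟨h1, h2⟩
      exact Prod.ext (Subtype.ext h1) (Subtype.ext h2)
  have hiff : ∀ X : SA B, saTau F τ X = X₀.1 ↔ X = X₀.1 := by
    intro X
    constructor
    · intro h
      rw [← xdata_saTau_saTau (F := F) τ X, h, hτ]
    · intro h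
      rw [h, hτ]
  refine ⟨{ sX := xTh τ q1 q2
            sB := tneg F τ
            sΓ := xdata_GA τ
            cont := xdata_GAc F τ
            cont' := xdata_GAc F τ
            compX := fun γ x => xTh_act τ q1 q2 γ x
            compB := fun γ b => xdata_BA W τ γ b
            fib := fun x => ?_
            stb := fun γ => ?_ }, rfl, rfl⟩
  · show piA B q1 q2 (xThF τ q1 q2 x) = (X₀, X₀) ↔ piA B q1 q2 x = (X₀, X₀)
    rw [hfibm, hfibm, rot_th]
    show saTau F τ (rot B q1 q2 x).1 = X₀.1 ∧ saTau F τ x.1.1 = X₀.1 ↔ _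
    rw [hiff, hiff, and_comm]
  · rw [hst, hst]
    show _ ↔ saConj B (tauU τ γ.2) X₀.1 = X₀.1 ∧ saConj B (tauU τ γ.1) X₀.1 = X₀.1
    constructor
    · rintro ⟨h1, h2⟩
      exact ⟨hconj _ h2, hconj _ h1⟩
    · rintro ⟨h1, h2⟩
      have h3 := hconj _ h1
      have h4 := hconj _ h2
      rw [tauU_tauU] at h3 h4
      exact ⟨h4, h3⟩

/-- `Θ` followed by the action of `(1, k)` -/
def xThk {B : SkewH E V} (τ : AntiU B) (k : UU B) (q1 q2 : Polynomial F) :
    XS B q1 q2 ≃ₜ XS B q1 q2 := (xTh τ q1 q2).trans ((xC B q1 q2).homeo (1, k))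

/-- symmetry of fibration B -/
theorem exists_symB {B : SkewH E V} {p : PChar F} (W : WeilRep B p) (q1 q2 : Polynomial F)
    (hq2 : q2.Monic) (hirr2 : Irreducible (q2.map (algebraMap F E))) (g₀ : YS B q2)
    (τ : AntiU B) (k : UU B) (hk : thG τ g₀.1 = g₀.1 * k.1) :
    ∃ s : (xB W q1 q2 hq2 hirr2 g₀).DSym, s.sX = xThk τ k q1 q2 ∧
      s.sB = tneg F τ ∘ₗ W.r k⁻¹ := by
  have hst : ∀ γ : UU B × UU B, γ ∈ (xB W q1 q2 hq2 hirr2 g₀).stab ↔
      γ.1.1 * g₀.1 * γ.2.1⁻¹ = g₀.1 := by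
    intro γ
    constructor
    · intro h
      exact congrArg (fun z : YS B q2 => z.1) h
    · intro h
      exact Subtype.ext h
  have hk1 : (tauU τ k).1 * g₀.1 = g₀.1 * k.1 := by
    have h1 := congrArg (thG τ) hk
    rw [thG_thG, thG_mul, thG_UU, hk] at h1
    calc (tauU τ k).1 * g₀.1 = (tauU τ k).1 * ((tauU τ k).1⁻¹ * (g₀.1 * k.1)) := by rw [← h1]
      _ = g₀.1 * k.1 := by group
  have hkm : (tauU τ k, k) ∈ (xB W q1 q2 hq2 hirr2 g₀).stab := by
    rw [hst]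
    show (tauU τ k).1 * g₀.1 * k.1⁻¹ = g₀.1
    rw [hk1]
    group
  have hstb : ∀ γ ∈ (xB W q1 q2 hq2 hirr2 g₀).stab,
      (tauU τ (k⁻¹ * γ.2 * k), tauU τ γ.1) ∈ (xB W q1 q2 hq2 hirr2 g₀).stab := by
    intro γ hγ
    rw [hst] at hγ ⊢
    show (tauU τ (k⁻¹ * γ.2 * k)).1 * g₀.1 * (tauU τ γ.1).1⁻¹ = g₀.1
    have h1 := congrArg (thG τ) hγ
    rw [thG_mul, thG_mul, xdata_thinv, thG_UU, hk] at h1
    rw [tauU_mul, tauU_mul, xdata_tinv]
    simp only [Subgroup.coe_mul, Subgroup.coe_inv]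
    calc (tauU τ k).1⁻¹ * (tauU τ γ.2).1 * (tauU τ k).1 * g₀.1 * (tauU τ γ.1).1⁻¹
        = (tauU τ k).1⁻¹ * ((tauU τ γ.2).1 * (((tauU τ k).1 * g₀.1) * (tauU τ γ.1).1⁻¹)) := by
          simp only [mul_assoc]
      _ = (tauU τ k).1⁻¹ * ((tauU τ k).1 * g₀.1) := by
          rw [hk1]
          congr 1
      _ = g₀.1 := by group
  refine ⟨{ sX := xThk τ k q1 q2
            sB := tneg F τ ∘ₗ W.r k⁻¹
            sΓ := xdata_G τ k
            cont := xdata_Gc F τ k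
            cont' := xdata_Gc' F τ k
            compX := fun γ x => ?_
            compB := fun γ b => xdata_B W τ k γ b
            fib := fun x => ?_
            stb := fun γ => ?_ }, rfl, rfl⟩
  · show (xC B q1 q2).act (1, k) (xTh τ q1 q2 ((xC B q1 q2).act (tauU τ (k⁻¹ * γ.2 * k), tauU τ γ.1) x)) =
      (xC B q1 q2).act γ ((xC B q1 q2).act (1, k) (xTh τ q1 q2 x))
    have h1 := xTh_act τ q1 q2 (γ.1, k⁻¹ * γ.2 * k) x
    rw [show (xTh τ q1 q2 ((xC B q1 q2).act (tauU τ (k⁻¹ * γ.2 * k), tauU τ γ.1) x)) =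
      (xC B q1 q2).act (γ.1, k⁻¹ * γ.2 * k) (xTh τ q1 q2 x) from h1, ← (xC B q1 q2).mul,
      ← (xC B q1 q2).mul]
    congr 1
    apply Prod.ext
    · show 1 * γ.1 = γ.1 * 1
      rw [one_mul, mul_one]
    · show k * (k⁻¹ * γ.2 * k) = γ.2 * k
      group
  · have h1 : ∀ z : XS B q1 q2, piB B q1 q2 z = g₀ ↔ z.1.2 = g₀.1 := by
      intro z
      constructor
      · intro h
        exact congrArg (fun y : YS B q2 => y.1) h
      · intro h
        exact Subtype.ext h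
    show piB B q1 q2 (xThk τ k q1 q2 x) = g₀ ↔ piB B q1 q2 x = g₀
    rw [h1, h1]
    show (1 : UU B).1 * thG τ x.1.2 * k.1⁻¹ = g₀.1 ↔ _
    rw [OneMemClass.coe_one, one_mul, mul_inv_eq_iff_eq_mul, ← hk]
    constructor
    · intro h
      rw [← thG_thG τ x.1.2, h, thG_thG]
    · intro h
      rw [h]
  · constructor
    · exact fun h1 => hstb γ h1
    · intro h1
      have h2 : (tauU τ (k⁻¹ * (xdata_G τ k γ).2 * k), tauU τ (xdata_G τ k γ).1) ∈
        (xB W q1 q2 hq2 hirr2 g₀).stab := hstb _ h1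
      have h3 : (tauU τ (k⁻¹ * (xdata_G τ k γ).2 * k), tauU τ (xdata_G τ k γ).1) =
          (tauU τ k, k)⁻¹ * γ * (tauU τ k, k) := by
        apply Prod.ext
        · show tauU τ (k⁻¹ * tauU τ γ.1 * k) = (tauU τ k)⁻¹ * γ.1 * tauU τ k
          rw [tauU_mul, tauU_mul, tauU_tauU, xdata_tinv]
        · show tauU τ (tauU τ (k⁻¹ * γ.2 * k)) = k⁻¹ * γ.2 * k
          rw [tauU_tauU]
      rw [h3] at h2
      have h4 : γ = (tauU τ k, k) * ((tauU τ k, k)⁻¹ * γ * (tauU τ k, k)) *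
          (tauU τ k, k)⁻¹ := by group
      have h5 : (tauU τ k, k) * ((tauU τ k, k)⁻¹ * γ * (tauU τ k, k)) *
          (tauU τ k, k)⁻¹ ∈ (xB W q1 q2 hq2 hirr2 g₀).stab :=
        Subgroup.mul_mem _ (Subgroup.mul_mem _ hkm h2) (Subgroup.inv_mem _ hkm)
      rw [h4]
      exact h5

end

end Pool.Agent.Work.MP_dd0ddf_al.C2
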