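import Pool.Agent.Work.MP_dd0ddf_al.C2.GrpDesc
import Pool.Agent.Work.MP_dd0ddf_al.C2.KOrb
import Pool.Agent.Work.MP_dd0ddf_al.C2.DescThm

/-!
# MP_dd0ddf_al (characteristic 2), module XDefs: the space X = {(c1, g) : q1(c1) = 0, q2(g g^*) = 0, c1 commutes with g g^*} and its two fibrations (definitions)

Here (F, E, V, B) is used with (F0, E0, V, B0), q1 = x^(2^j) - c0, q2 = x^(2^(j+k)) - c0, both irreducible over E.
`ys_gC`: sg_act, sigq_conj.  `ys_thG`: sg_theta; `g^* g = g⁻¹ (g g^*) g` satisfies the same polynomial, and `conjτ τ (aeval Z (q.map)) = aeval (conjτ τ Z) (q.map)` for q over F (coefficients fixed by star; see prjgp_tau in PrjGP, private: copy).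
`ys_trans`: `h := ` element of UU B with `saConj B h (sg B g) = sg B g'` (sigq_trans), `h' := g'⁻¹ h g` is unitary: `h' h'^* = g'⁻¹ h g g^* h^* g'^*⁻¹ = g'⁻¹ (g' g'^*) g'^*⁻¹ = 1` (h^* = h⁻¹, uu_adj; an element u of GL(V) with u u^* = 1 is in UU B).  Then `g' = h g h'⁻¹`.
`xs_act`: conjugation.  `xs_rot_sa`: `(g⁻¹ c1 g)^* = g^* c1 g^*⁻¹ = g⁻¹ (g g^*) c1 (g g^*)⁻¹ g = g⁻¹ c1 g`.  `xs_rot_sig`: conjugation commutes with aeval.
`rot_act`: rot (h1 c1 h1⁻¹, h1 g h2⁻¹) = h2 (g⁻¹ c1 g) h2⁻¹.  `xs_th`: (τ c2 τ, θ(g)) is in X: `c2 (g^* g) = g^* c1 g = (g^* g) c2`.  `rot_th`: θ(g)⁻¹ (τ c2 τ) θ(g) = τ (g^*)⁻¹ c2 g^* τ = τ (g^*)⁻¹ g⁻¹ c1 g g^* τ = τ c1 τ.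
-/

set_option linter.unusedSectionVars false
set_option linter.style.haveILetI false

namespace Pool.Agent.Work.MP_dd0ddf_al.C2

noncomputable section

universe u

variable {F E : Type u} [NontriviallyNormedField F] [IsUltrametricDist F] [ProperSpace F]
  [CharP F 2] [NontriviallyNormedField E] [NormedAlgebra F E] [ProperSpace E] [StarRing E]
  [QExt F E] [Dl E] [MeasurableSpace E] [BorelSpace E]
variable {V : Type u} [AddCommGroup V] [Module E V] [Module.Finite E V] [TopologicalSpace V]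
  [IsTopologicalAddGroup V] [T2Space V] [ContinuousSMul E V]

private theorem xdefs_cancel {R : Type*} [Monoid R] {a b : R} (h : a * b = 1) (c : R) :
    a * (b * c) = c := by
  rw [← mul_assoc, h, one_mul]

private theorem xdefs_aeval (g : GV E V) (X : Module.End E V) (P : Polynomial E) :
    Polynomial.aeval (g⁻¹.1 * X * g.1) P = g⁻¹.1 * Polynomial.aeval X P * g.1 := by
  have e1 : g⁻¹.1 * g.1 = 1 := g.inv_mul
  have e2 : g.1 * g⁻¹.1 = 1 := g.mul_inv
  induction P using Polynomial.induction_on' with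
  | add f f' hf hf' => rw [map_add, map_add, hf, hf', mul_add, add_mul]
  | monomial k c =>
    have hpow : (g⁻¹.1 * X * g.1) ^ k = g⁻¹.1 * X ^ k * g.1 := by
      induction k with
      | zero => rw [pow_zero, pow_zero, mul_one, e1]
      | succ k ih =>
        rw [pow_succ, ih, pow_succ]
        simp only [mul_assoc]
        rw [xdefs_cancel e2]
    rw [Polynomial.aeval_monomial, Polynomial.aeval_monomial, hpow, ← Algebra.smul_def,
      ← Algebra.smul_def, mul_smul_comm, smul_mul_assoc]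

private theorem xdefs_tau {B : SkewH E V} (τ : AntiU B) (X : Module.End E V)
    (e : Polynomial F) : Polynomial.aeval (conjτ τ X) (e.map (algebraMap F E)) =
      conjτ τ (Polynomial.aeval X (e.map (algebraMap F E))) := by
  induction e using Polynomial.induction_on' with
  | add f g hf hg =>
    rw [Polynomial.map_add, map_add, map_add, hf, hg]
    ext v
    show τ.t _ + τ.t _ = τ.t (_ + _)
    rw [τ.add]
  | monomial k c =>
    rw [Polynomial.map_monomial, Polynomial.aeval_monomial, Polynomial.aeval_monomial,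
      ← Algebra.smul_def, ← Algebra.smul_def]
    have hpow : (conjτ τ X) ^ k = conjτ τ (X ^ k) := by
      induction k with
      | zero => rw [pow_zero, pow_zero, conjτ_one]
      | succ k ih => rw [pow_succ, pow_succ, conjτ_mul, ih]
    rw [hpow]
    ext v
    show algebraMap F E c • τ.t ((X ^ k) (τ.t v)) = τ.t (algebraMap F E c • (X ^ k) (τ.t v))
    rw [τ.smul, QExt.star_alg]

private theorem xdefs_tau0 {B : SkewH E V} (τ : AntiU B) :
    conjτ τ (0 : Module.End E V) = 0 := by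
  ext v
  show τ.t ((0 : Module.End E V) (τ.t v)) = 0
  have h1 := τ.smul 0 (0 : V)
  rw [zero_smul, star_zero, zero_smul] at h1
  exact h1

private theorem xdefs_adj1 (B : SkewH E V) (g : GV E V) : adj B g.1 * adj B g⁻¹.1 = 1 := by
  have e1 : g⁻¹.1 * g.1 = 1 := g.inv_mul
  rw [← adj_mul, e1, adj_one]

private theorem xdefs_adj2 (B : SkewH E V) (g : GV E V) : adj B g⁻¹.1 * adj B g.1 = 1 := by
  have e2 : g.1 * g⁻¹.1 = 1 := g.mul_inv
  rw [← adj_mul, e2, adj_one]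

/-- if `c` commutes with `g g^*` then `g⁻¹ c g = g^* c g^*⁻¹` -/
private theorem xdefs_rot (B : SkewH E V) (g : GV E V) (c : Module.End E V)
    (h : c * (g.1 * adj B g.1) = (g.1 * adj B g.1) * c) :
    g⁻¹.1 * c * g.1 = adj B g.1 * c * adj B g⁻¹.1 := by
  have e1 : g⁻¹.1 * g.1 = 1 := g.inv_mul
  calc g⁻¹.1 * c * g.1 = g⁻¹.1 * c * g.1 * (adj B g.1 * adj B g⁻¹.1) := by
        rw [xdefs_adj1, mul_one]
    _ = g⁻¹.1 * (c * (g.1 * adj B g.1)) * adj B g⁻¹.1 := by simp only [mul_assoc]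
    _ = g⁻¹.1 * ((g.1 * adj B g.1) * c) * adj B g⁻¹.1 := by rw [h]
    _ = (g⁻¹.1 * g.1) * (adj B g.1 * c * adj B g⁻¹.1) := by simp only [mul_assoc]
    _ = adj B g.1 * c * adj B g⁻¹.1 := by rw [e1, one_mul]

private theorem xdefs_uu (B : SkewH E V) (u : GV E V) (h : u.1 * adj B u.1 = 1) : u ∈ UU B := by
  have e1 : u⁻¹.1 * u.1 = 1 := u.inv_mul
  have h1 : adj B u.1 = u⁻¹.1 := by
    calc adj B u.1 = (u⁻¹.1 * u.1) * adj B u.1 := by rw [e1, one_mul]
      _ = u⁻¹.1 * (u.1 * adj B u.1) := by rw [mul_assoc]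
      _ = u⁻¹.1 := by rw [h, mul_one]
  intro v w
  rw [adj_spec, h1]
  exact congrArg (fun f : Module.End E V => B.ip v (f w)) e1

/-- `{g : q(g g^*) = 0}` -/
def YS (B : SkewH E V) (q : Polynomial F) : Set (GV E V) := {g | sg B g ∈ SigQ B q}

theorem ys_closed (B : SkewH E V) (q : Polynomial F) : IsClosed (YS B q) :=
  (sigq_closed B q).preimage (continuous_sg F B)

theorem ys_gC (B : SkewH E V) (q : Polynomial F) (γ : UU B × UU B) (g : GV E V)
    (hg : g ∈ YS B q) : (gC B).act γ g ∈ YS B q := by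
  obtain ⟨h1, h2⟩ := γ
  show sg B ((gC B).act (h1, h2) g) ∈ SigQ B q
  rw [sg_act]
  exact sigq_conj B q h1 _ hg

theorem ys_thG {B : SkewH E V} (τ : AntiU B) (q : Polynomial F) (g : GV E V)
    (hg : g ∈ YS B q) : thG τ g ∈ YS B q := by
  have hg' : Polynomial.aeval (g.1 * adj B g.1) (q.map (algebraMap F E)) = 0 := hg
  have e1 : g⁻¹.1 * g.1 = 1 := g.inv_mul
  have e3 : adj B g.1 * g.1 = g⁻¹.1 * (g.1 * adj B g.1) * g.1 := by
    simp only [mul_assoc]
    rw [xdefs_cancel e1]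
  show Polynomial.aeval (sg B (thG τ g)).1 (q.map (algebraMap F E)) = 0
  rw [sg_theta, xdefs_tau, e3, xdefs_aeval, hg', mul_zero, zero_mul, xdefs_tau0]

theorem ys_trans (B : SkewH E V) (q : Polynomial F) (hq : q.Monic)
    (hirr : Irreducible (q.map (algebraMap F E))) (g g' : GV E V) (hg : g ∈ YS B q)
    (hg' : g' ∈ YS B q) : ∃ γ : UU B × UU B, (gC B).act γ g = g' := by
  obtain ⟨h, hh⟩ := sigq_trans B q hq hirr (sg B g) (sg B g') hg hg'
  have hh' : h.1.1 * (g.1 * adj B g.1) * h.1⁻¹.1 = g'.1 * adj B g'.1 :=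
    congrArg Subtype.val hh
  have e1 : g'⁻¹.1 * g'.1 = 1 := g'.inv_mul
  have hu : g'⁻¹ * h.1 * g ∈ UU B := by
    apply xdefs_uu
    show (g'⁻¹.1 * h.1.1 * g.1) * adj B (g'⁻¹.1 * h.1.1 * g.1) = 1
    rw [adj_mul, adj_mul, uu_adj]
    calc g'⁻¹.1 * h.1.1 * g.1 * (adj B g.1 * (h.1⁻¹.1 * adj B g'⁻¹.1))
        = g'⁻¹.1 * (h.1.1 * (g.1 * adj B g.1) * h.1⁻¹.1) * adj B g'⁻¹.1 := by
          simp only [mul_assoc]
      _ = (g'⁻¹.1 * g'.1) * (adj B g'.1 * adj B g'⁻¹.1) := by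
          rw [hh']
          simp only [mul_assoc]
      _ = 1 := by rw [e1, xdefs_adj1, one_mul]
  refine ⟨(h, ⟨_, hu⟩), ?_⟩
  show h.1 * g * (g'⁻¹ * h.1 * g)⁻¹ = g'
  group

/-- the action `(h₁, h₂) (c₁, g) = (h₁ c₁ h₁⁻¹, h₁ g h₂⁻¹)` -/
def xC0 (B : SkewH E V) : CAct (UU B × UU B) (SA B × GV E V) where
  act γ x := (saConj B γ.1 x.1, (gC B).act γ x.2)
  one x := by
    refine Prod.ext (Subtype.ext ?_) ((gC B).one x.2)
    show (1 : GV E V).1 * x.1.1 * (1 : GV E V)⁻¹.1 = x.1.1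
    rw [inv_one, Units.val_one, one_mul, mul_one]
  mul γ δ x := by
    refine Prod.ext (Subtype.ext ?_) ((gC B).mul γ δ x.2)
    show (γ.1.1 * δ.1.1).1 * x.1.1 * (γ.1.1 * δ.1.1)⁻¹.1 =
      γ.1.1.1 * (δ.1.1.1 * x.1.1 * δ.1.1⁻¹.1) * γ.1.1⁻¹.1
    rw [mul_inv_rev, Units.val_mul, Units.val_mul]
    simp only [mul_assoc]
  cont := by
    have h1 : Continuous fun q : (UU B × UU B) × (SA B × GV E V) => q.1.1.1.1 :=
      Units.continuous_val.comp (continuous_subtype_val.comp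
        (continuous_fst.comp continuous_fst))
    have h2 : Continuous fun q : (UU B × UU B) × (SA B × GV E V) => q.1.1.1⁻¹.1 :=
      Units.continuous_val.comp (continuous_inv.comp
        (continuous_subtype_val.comp (continuous_fst.comp continuous_fst)))
    have h3 : Continuous fun q : (UU B × UU B) × (SA B × GV E V) => q.2.1.1 :=
      continuous_subtype_val.comp (continuous_fst.comp continuous_snd)
    have h4 : Continuous fun q : (UU B × UU B) × (SA B × GV E V) => saConj B q.1.1 q.2.1 :=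
      Continuous.subtype_mk ((h1.mul h3).mul h2) _
    exact h4.prodMk ((gC B).cont.comp (continuous_fst.prodMk
      (continuous_snd.comp continuous_snd)))

/-- the space X -/
def XS (B : SkewH E V) (q1 q2 : Polynomial F) : Set (SA B × GV E V) :=
  {x | x.1 ∈ SigQ B q1 ∧ x.2 ∈ YS B q2 ∧ x.1.1 * (sg B x.2).1 = (sg B x.2).1 * x.1.1}

theorem xs_closed (B : SkewH E V) (q1 q2 : Polynomial F) : IsClosed (XS B q1 q2) := by
  haveI : T2Space (Module.End E V) := inferInstance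
  have h1 : Continuous fun x : SA B × GV E V => x.1.1 :=
    continuous_subtype_val.comp continuous_fst
  have h2 : Continuous fun x : SA B × GV E V => (sg B x.2).1 :=
    continuous_subtype_val.comp ((continuous_sg F B).comp continuous_snd)
  exact ((sigq_closed B q1).preimage continuous_fst).inter
    (((ys_closed B q2).preimage continuous_snd).inter
      (isClosed_eq (h1.mul h2) (h2.mul h1)))

theorem xs_act (B : SkewH E V) (q1 q2 : Polynomial F) (γ : UU B × UU B)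
    (x : SA B × GV E V) (hx : x ∈ XS B q1 q2) : (xC0 B).act γ x ∈ XS B q1 q2 := by
  obtain ⟨hx1, hx2, hx3⟩ := hx
  obtain ⟨h1, h2⟩ := γ
  refine ⟨sigq_conj B q1 h1 _ hx1, ys_gC B q2 (h1, h2) _ hx2, ?_⟩
  show (saConj B h1 x.1).1 * (sg B ((gC B).act (h1, h2) x.2)).1 =
    (sg B ((gC B).act (h1, h2) x.2)).1 * (saConj B h1 x.1).1
  rw [sg_act]
  show (h1.1.1 * x.1.1 * h1.1⁻¹.1) * (h1.1.1 * (sg B x.2).1 * h1.1⁻¹.1) =
    (h1.1.1 * (sg B x.2).1 * h1.1⁻¹.1) * (h1.1.1 * x.1.1 * h1.1⁻¹.1)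
  have e1 : h1.1⁻¹.1 * h1.1.1 = 1 := h1.1.inv_mul
  calc (h1.1.1 * x.1.1 * h1.1⁻¹.1) * (h1.1.1 * (sg B x.2).1 * h1.1⁻¹.1)
      = h1.1.1 * x.1.1 * (h1.1⁻¹.1 * h1.1.1) * (sg B x.2).1 * h1.1⁻¹.1 := by
        simp only [mul_assoc]
    _ = h1.1.1 * (x.1.1 * (sg B x.2).1) * h1.1⁻¹.1 := by
        rw [e1, mul_one]
        simp only [mul_assoc]
    _ = h1.1.1 * ((sg B x.2).1 * x.1.1) * h1.1⁻¹.1 := by rw [hx3]
    _ = h1.1.1 * (sg B x.2).1 * (h1.1⁻¹.1 * h1.1.1) * x.1.1 * h1.1⁻¹.1 := by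
        rw [e1, mul_one]
        simp only [mul_assoc]
    _ = (h1.1.1 * (sg B x.2).1 * h1.1⁻¹.1) * (h1.1.1 * x.1.1 * h1.1⁻¹.1) := by
        simp only [mul_assoc]

/-- the action on X -/
def xC (B : SkewH E V) (q1 q2 : Polynomial F) : CAct (UU B × UU B) (XS B q1 q2) :=
  (xC0 B).sub (XS B q1 q2) (xs_act B q1 q2)

theorem xs_rot_sa (B : SkewH E V) (q1 q2 : Polynomial F) (x : XS B q1 q2) :
    x.1.2⁻¹.1 * x.1.1.1 * x.1.2.1 ∈ SA B := by
  have h1 := xdefs_rot B x.1.2 x.1.1.1 x.2.2.2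
  apply sa_of_adj
  rw [adj_mul, adj_mul, sa_adj B x.1.1.2, h1, mul_assoc]

theorem xs_rot_sig (B : SkewH E V) (q1 q2 : Polynomial F) (x : XS B q1 q2) :
    (⟨x.1.2⁻¹.1 * x.1.1.1 * x.1.2.1, xs_rot_sa B q1 q2 x⟩ : SA B) ∈ SigQ B q1 := by
  show Polynomial.aeval (x.1.2⁻¹.1 * x.1.1.1 * x.1.2.1) (q1.map (algebraMap F E)) = 0
  have h1 : Polynomial.aeval x.1.1.1 (q1.map (algebraMap F E)) = 0 := x.2.1
  rw [xdefs_aeval, h1, mul_zero, zero_mul]

/-- `c₂ = g⁻¹ c₁ g` -/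
def rot (B : SkewH E V) (q1 q2 : Polynomial F) (x : XS B q1 q2) : SigQ B q1 :=
  ⟨⟨x.1.2⁻¹.1 * x.1.1.1 * x.1.2.1, xs_rot_sa B q1 q2 x⟩, xs_rot_sig B q1 q2 x⟩

theorem rot_act (B : SkewH E V) (q1 q2 : Polynomial F) (γ : UU B × UU B) (x : XS B q1 q2) :
    (rot B q1 q2 ((xC B q1 q2).act γ x)).1 = saConj B γ.2 (rot B q1 q2 x).1 := by
  obtain ⟨h1, h2⟩ := γ
  apply Subtype.ext
  show (h1.1 * x.1.2 * h2.1⁻¹)⁻¹.1 * (h1.1.1 * x.1.1.1 * h1.1⁻¹.1) *
      (h1.1 * x.1.2 * h2.1⁻¹).1 =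
    h2.1.1 * (x.1.2⁻¹.1 * x.1.1.1 * x.1.2.1) * h2.1⁻¹.1
  have e1 : h1.1⁻¹.1 * h1.1.1 = 1 := h1.1.inv_mul
  rw [mul_inv_rev, mul_inv_rev, inv_inv, Units.val_mul, Units.val_mul, Units.val_mul,
    Units.val_mul]
  simp only [mul_assoc]
  rw [xdefs_cancel e1, xdefs_cancel e1]

/-- the action on pairs -/
def sqC (B : SkewH E V) (q : Polynomial F) :
    CAct (UU B × UU B) (SigQ B q × SigQ B q) where
  act γ Z := (⟨saConj B γ.1 Z.1.1, sigq_conj B q γ.1 Z.1.1 Z.1.2⟩,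
    ⟨saConj B γ.2 Z.2.1, sigq_conj B q γ.2 Z.2.1 Z.2.2⟩)
  one Z := by
    have h1 : ∀ X : SA B, saConj B 1 X = X := by
      intro X
      apply Subtype.ext
      show (1 : GV E V).1 * X.1 * (1 : GV E V)⁻¹.1 = X.1
      rw [inv_one, Units.val_one, one_mul, mul_one]
    exact Prod.ext (Subtype.ext (h1 _)) (Subtype.ext (h1 _))
  mul γ δ Z := by
    have h1 : ∀ (h h' : UU B) (X : SA B), saConj B (h * h') X = saConj B h (saConj B h' X) := by
      intro h h' X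
      apply Subtype.ext
      show (h.1 * h'.1).1 * X.1 * (h.1 * h'.1)⁻¹.1 = h.1.1 * (h'.1.1 * X.1 * h'.1⁻¹.1) * h.1⁻¹.1
      rw [mul_inv_rev, Units.val_mul, Units.val_mul]
      simp only [mul_assoc]
    exact Prod.ext (Subtype.ext (h1 _ _ _)) (Subtype.ext (h1 _ _ _))
  cont := by
    have key : Continuous fun q : UU B × SA B => saConj B q.1 q.2 := by
      have h1 : Continuous fun q : UU B × SA B => q.1.1.1 :=
        Units.continuous_val.comp (continuous_subtype_val.comp continuous_fst)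
      have h2 : Continuous fun q : UU B × SA B => q.1.1⁻¹.1 :=
        Units.continuous_val.comp (continuous_inv.comp
          (continuous_subtype_val.comp continuous_fst))
      have h3 : Continuous fun q : UU B × SA B => q.2.1 :=
        continuous_subtype_val.comp continuous_snd
      exact Continuous.subtype_mk ((h1.mul h3).mul h2) _
    have c1 : Continuous fun z : (UU B × UU B) × (SigQ B q × SigQ B q) =>
        saConj B z.1.1 z.2.1.1 :=
      key.comp ((continuous_fst.comp continuous_fst).prodMk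
        (continuous_subtype_val.comp (continuous_fst.comp continuous_snd)))
    have c2 : Continuous fun z : (UU B × UU B) × (SigQ B q × SigQ B q) =>
        saConj B z.1.2 z.2.2.1 :=
      key.comp ((continuous_snd.comp continuous_fst).prodMk
        (continuous_subtype_val.comp (continuous_snd.comp continuous_snd)))
    exact (c1.subtype_mk _).prodMk (c2.subtype_mk _)

theorem sqC_trans (B : SkewH E V) (q : Polynomial F) (hq : q.Monic)
    (hirr : Irreducible (q.map (algebraMap F E))) (o : SigQ B q × SigQ B q) :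
    ∀ y, ∃ γ, (sqC B q).act γ o = y := by
  rintro ⟨Z1, Z2⟩
  obtain ⟨h1, hh1⟩ := sigq_trans B q hq hirr o.1.1 Z1.1 o.1.2 Z1.2
  obtain ⟨h2, hh2⟩ := sigq_trans B q hq hirr o.2.1 Z2.1 o.2.2 Z2.2
  exact ⟨(h1, h2), Prod.ext (Subtype.ext hh1) (Subtype.ext hh2)⟩

/-- `(c₁, g) ↦ (c₁, c₂)` -/
def piA (B : SkewH E V) (q1 q2 : Polynomial F) (x : XS B q1 q2) : SigQ B q1 × SigQ B q1 :=
  (⟨x.1.1, x.2.1⟩, rot B q1 q2 x)

private theorem xdefs_rot_cont (B : SkewH E V) (q1 q2 : Polynomial F) :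
    Continuous (rot B q1 q2) := by
  have h1 : Continuous fun x : XS B q1 q2 => x.1.2⁻¹.1 :=
    Units.continuous_val.comp (continuous_inv.comp (continuous_snd.comp continuous_subtype_val))
  have h2 : Continuous fun x : XS B q1 q2 => x.1.1.1 :=
    continuous_subtype_val.comp (continuous_fst.comp continuous_subtype_val)
  have h3 : Continuous fun x : XS B q1 q2 => x.1.2.1 :=
    Units.continuous_val.comp (continuous_snd.comp continuous_subtype_val)
  exact (((h1.mul h2).mul h3).subtype_mk _).subtype_mk _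

theorem piA_cont (B : SkewH E V) (q1 q2 : Polynomial F) : Continuous (piA B q1 q2) :=
  ((continuous_fst.comp continuous_subtype_val).subtype_mk _).prodMk (xdefs_rot_cont B q1 q2)

/-- `(c₁, g) ↦ g` -/
def piB (B : SkewH E V) (q1 q2 : Polynomial F) (x : XS B q1 q2) : YS B q2 :=
  ⟨x.1.2, x.2.2.1⟩

theorem piB_cont (B : SkewH E V) (q1 q2 : Polynomial F) : Continuous (piB B q1 q2) :=
  (continuous_snd.comp continuous_subtype_val).subtype_mk _

theorem xs_th {B : SkewH E V} (τ : AntiU B) (q1 q2 : Polynomial F) (x : XS B q1 q2) :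
    ((saTau F τ (rot B q1 q2 x).1, thG τ x.1.2) : SA B × GV E V) ∈ XS B q1 q2 := by
  refine ⟨?_, ys_thG τ q2 _ x.2.2.1, ?_⟩
  · show Polynomial.aeval (conjτ τ (rot B q1 q2 x).1.1) (q1.map (algebraMap F E)) = 0
    have h1 : Polynomial.aeval (rot B q1 q2 x).1.1 (q1.map (algebraMap F E)) = 0 :=
      (rot B q1 q2 x).2
    rw [xdefs_tau, h1, xdefs_tau0]
  · show conjτ τ (x.1.2⁻¹.1 * x.1.1.1 * x.1.2.1) * (sg B (thG τ x.1.2)).1 =
      (sg B (thG τ x.1.2)).1 * conjτ τ (x.1.2⁻¹.1 * x.1.1.1 * x.1.2.1)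
    have e1 : x.1.2⁻¹.1 * x.1.2.1 = 1 := x.1.2.inv_mul
    have e2 : x.1.2.1 * x.1.2⁻¹.1 = 1 := x.1.2.mul_inv
    have hc : x.1.1.1 * (x.1.2.1 * adj B x.1.2.1) = (x.1.2.1 * adj B x.1.2.1) * x.1.1.1 :=
      x.2.2.2
    rw [sg_theta, ← conjτ_mul, ← conjτ_mul]
    congr 1
    calc x.1.2⁻¹.1 * x.1.1.1 * x.1.2.1 * (adj B x.1.2.1 * x.1.2.1)
        = x.1.2⁻¹.1 * (x.1.1.1 * (x.1.2.1 * adj B x.1.2.1)) * x.1.2.1 := by
          simp only [mul_assoc]
      _ = (x.1.2⁻¹.1 * x.1.2.1) * (adj B x.1.2.1 * (x.1.1.1 * x.1.2.1)) := by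
          rw [hc]
          simp only [mul_assoc]
      _ = adj B x.1.2.1 * (x.1.1.1 * x.1.2.1) := by rw [e1, one_mul]
      _ = adj B x.1.2.1 * ((x.1.2.1 * x.1.2⁻¹.1) * (x.1.1.1 * x.1.2.1)) := by
          rw [e2, one_mul]
      _ = adj B x.1.2.1 * x.1.2.1 * (x.1.2⁻¹.1 * x.1.1.1 * x.1.2.1) := by
          simp only [mul_assoc]

/-- `Θ(c₁, g) = (τ c₂ τ, θ(g))` as a function -/
def xThF {B : SkewH E V} (τ : AntiU B) (q1 q2 : Polynomial F) (x : XS B q1 q2) :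
    XS B q1 q2 := ⟨(saTau F τ (rot B q1 q2 x).1, thG τ x.1.2), xs_th τ q1 q2 x⟩

theorem rot_th {B : SkewH E V} (τ : AntiU B) (q1 q2 : Polynomial F) (x : XS B q1 q2) :
    (rot B q1 q2 (xThF τ q1 q2 x)).1 = saTau F τ x.1.1 := by
  apply Subtype.ext
  show conjτ τ (adj B x.1.2⁻¹.1) * conjτ τ (x.1.2⁻¹.1 * x.1.1.1 * x.1.2.1) *
    conjτ τ (adj B x.1.2.1) = conjτ τ x.1.1.1
  rw [xdefs_rot B x.1.2 x.1.1.1 x.2.2.2, ← conjτ_mul, ← conjτ_mul]
  congr 1
  simp only [mul_assoc]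
  rw [xdefs_adj2, mul_one, xdefs_cancel (xdefs_adj2 B x.1.2)]

theorem xThF_xThF {B : SkewH E V} (τ : AntiU B) (q1 q2 : Polynomial F) (x : XS B q1 q2) :
    xThF τ q1 q2 (xThF τ q1 q2 x) = x := by
  apply Subtype.ext
  refine Prod.ext ?_ (thG_thG τ x.1.2)
  show saTau F τ (rot B q1 q2 (xThF τ q1 q2 x)).1 = x.1.1
  rw [rot_th]
  exact Subtype.ext (conjτ_conjτ τ x.1.1.1)

theorem xThF_cont {B : SkewH E V} (τ : AntiU B) (q1 q2 : Polynomial F) :
    Continuous (xThF τ q1 q2 : XS B q1 q2 → XS B q1 q2) := by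
  refine Continuous.subtype_mk (Continuous.prodMk ?_ ?_) _
  · exact (saTau F τ).continuous.comp
      (continuous_subtype_val.comp (xdefs_rot_cont B q1 q2))
  · exact (continuous_thG F τ).comp (continuous_snd.comp continuous_subtype_val)

/-- `Θ` as a homeomorphism of X -/
def xTh {B : SkewH E V} (τ : AntiU B) (q1 q2 : Polynomial F) : XS B q1 q2 ≃ₜ XS B q1 q2 where
  toFun := xThF τ q1 q2
  invFun := xThF τ q1 q2
  left_inv := xThF_xThF τ q1 q2
  right_inv := xThF_xThF τ q1 q2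
  continuous_toFun := xThF_cont τ q1 q2
  continuous_invFun := xThF_cont τ q1 q2

theorem xTh_act {B : SkewH E V} (τ : AntiU B) (q1 q2 : Polynomial F) (γ : UU B × UU B)
    (x : XS B q1 q2) : xTh τ q1 q2 ((xC B q1 q2).act (tauU τ γ.2, tauU τ γ.1) x) =
      (xC B q1 q2).act γ (xTh τ q1 q2 x) := by
  obtain ⟨h1, h2⟩ := γ
  apply Subtype.ext
  refine Prod.ext ?_ ?_
  · show saTau F τ (rot B q1 q2 ((xC B q1 q2).act (tauU τ h2, tauU τ h1) x)).1 =
      saConj B h1 (saTau F τ (rot B q1 q2 x).1)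
    rw [rot_act]
    apply Subtype.ext
    show conjτ τ (conjτ τ h1.1.1 * (rot B q1 q2 x).1.1 * conjτ τ h1.1⁻¹.1) =
      h1.1.1 * conjτ τ (rot B q1 q2 x).1.1 * h1.1⁻¹.1
    rw [conjτ_mul, conjτ_mul, conjτ_conjτ, conjτ_conjτ]
  · show thG τ ((tauU τ h2).1 * x.1.2 * (tauU τ h1).1⁻¹) = h1.1 * thG τ x.1.2 * h2.1⁻¹
    have e1 : thG τ (tauU τ h2).1 = h2.1⁻¹ := by rw [thG_UU, tauU_tauU]
    have e2 : thG τ (tauU τ h1).1⁻¹ = h1.1 := by
      have e3 : thG τ (tauU τ h1).1⁻¹ = (thG τ (tauU τ h1).1)⁻¹ := Units.ext rfl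
      rw [e3, thG_UU, tauU_tauU, inv_inv]
    rw [thG_mul, thG_mul, e1, e2, mul_assoc]

theorem lc_XS (B : SkewH E V) (q1 q2 : Polynomial F) : LocallyCompactSpace (XS B q1 q2) := by
  haveI := lc_SA F B
  exact (xs_closed B q1 q2).isClosedEmbedding_subtypeVal.locallyCompactSpace

theorem td_XS (B : SkewH E V) (q1 q2 : Polynomial F) :
    TotallyDisconnectedSpace (XS B q1 q2) := by
  haveI := td_SA F B
  haveI := td_GV F E V
  infer_instance

end

end Pool.Agent.Work.MP_dd0ddf_al.C2
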